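import Pool.Agent.Lib.MP_876e19_co2.Circle

/-!
# Uniform path systems: the degree two lemma

One root `x`.  The base paths define a strict order (`z` below `u` if `z` is on the base path of
`u`, transitive closure).  Any set of edges between incomparable vertices of maximum degree two can
be toggled, all edges at once.
-/

set_option autoImplicit false

namespace Pool.Agent.UPS.DegTwo

open Finset

variable {V : Type*} [Fintype V] [DecidableEq V] {G : SimpleGraph V}

/-- the load of a vertex at one root -/
def ld (x : V) (p : ∀ u : V, G.Walk x u) (z : V) : ℕ :=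
  (univ.filter fun u => x ≠ u ∧ z ∈ (p u).support).card

/-- 1 if `z` is an end of the edge `a b` -/
def ind (z a b : V) : ℕ := if z = a ∨ z = b then 1 else 0

omit [Fintype V] in
lemma ind_comm (z a b : V) : ind z a b = ind z b a := by
  unfold ind; simp only [or_comm]

/-- a token runs along a sequence of vertices -/
lemma wave (x : V) (q0 : ∀ u : V, G.Walk x u) (h0 : ∀ u, x ≠ u → (q0 u).IsPath) (c : ℕ → V)
    (n : ℕ) (hinj : ∀ s t, s ≤ n → t ≤ n → c s = c t → s = t) (hx : ∀ t ≤ n, x ≠ c t)
    (hadj : ∀ t < n, G.Adj (c t) (c (t + 1)))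
    (h1 : ∀ t, 1 ≤ t → t ≤ n → c t ∉ (q0 (c 0)).support)
    (h2 : ∀ t < n, c t ∉ (q0 (c (t + 1))).support) :
    ∃ q : ∀ u : V, G.Walk x u, (∀ u, x ≠ u → (q u).IsPath) ∧
      (∀ u, (∀ t ≤ n, u ≠ c t) → q u = q0 u) ∧
      (∀ z, z ∈ (q (c n)).support ↔ z ∈ (q0 (c 0)).support ∨ ∃ t, 1 ≤ t ∧ t ≤ n ∧ z = c t) ∧
      (1 ≤ n → ∀ z, z ∈ (q (c 0)).support ↔ z ∈ (q0 (c 1)).support ∨ z = c 0) ∧
      (∀ z, ld x q z = ld x q0 z + ∑ t ∈ range n, ind z (c t) (c (t + 1))) := by
  induction n with
  | zero =>
    refine ⟨q0, h0, fun _ _ => rfl, fun z => ?_, fun h => by omega, fun z => by simp⟩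
    constructor
    · exact fun h => Or.inl h
    · rintro (h | ⟨t, ht1, ht2, _⟩)
      · exact h
      · omega
  | succ n ih =>
    obtain ⟨q, hq1, hq2, hq3, hq4, hq5⟩ := ih (fun s t hs ht => hinj s t (by omega) (by omega))
      (fun t ht => hx t (by omega)) (fun t ht => hadj t (by omega))
      (fun t h ht => h1 t h (by omega)) (fun t ht => h2 t (by omega))
    have hqn : q (c (n + 1)) = q0 (c (n + 1)) := hq2 _ fun t ht h => by
      have := hinj (n + 1) t le_rfl (by omega) h
      omega
    have ha : c n ∉ (q (c (n + 1))).support := by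
      rw [hqn]; exact h2 n (by omega)
    have hb : c (n + 1) ∉ (q (c n)).support := by
      rw [hq3]
      rintro (h | ⟨t, _, ht2, h⟩)
      · exact h1 (n + 1) (by omega) le_rfl h
      · have := hinj (n + 1) t le_rfl (by omega) h
        omega
    obtain ⟨q', r1, r2, r3, r4, r5⟩ := Pool.Agent.UPS2.one_toggle x q hq1 (hadj n (by omega))
      (hx n (by omega)) (hx (n + 1) le_rfl) ha hb
    refine ⟨q', r1, fun u hu => ?_, fun z => ?_, fun _ z => ?_, fun z => ?_⟩
    · rw [r2 u (hu n (by omega)) (hu (n + 1) le_rfl)]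
      exact hq2 u fun t ht => hu t (by omega)
    · rw [r4, hq3]
      constructor
      · rintro ((h | ⟨t, ht1, ht2, h⟩) | h)
        · exact Or.inl h
        · exact Or.inr ⟨t, ht1, by omega, h⟩
        · exact Or.inr ⟨n + 1, by omega, le_rfl, h⟩
      · rintro (h | ⟨t, ht1, ht2, h⟩)
        · exact Or.inl (Or.inl h)
        · rcases Nat.lt_or_ge n t with h' | h'
          · have : t = n + 1 := by omega
            subst this
            exact Or.inr h
          · exact Or.inl (Or.inr ⟨t, ht1, h', h⟩)
    · rcases Nat.eq_zero_or_pos n with hn | hn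
      · subst hn
        rw [r3, hqn]
      · have h01 : c 0 ≠ c n := fun h => by
          have := hinj 0 n (by omega) (by omega) h
          omega
        have h02 : c 0 ≠ c (n + 1) := fun h => by
          have := hinj 0 (n + 1) (by omega) (by omega) h
          omega
        rw [r2 _ h01 h02]
        exact hq4 hn z
    · have h5 := r5 z
      have h6 := hq5 z
      rw [sum_range_succ]
      unfold ld at *
      rw [h5, h6]
      unfold ind
      ring

/-- a sequence of distinct vertices, consecutive ones adjacent and incomparable -/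
structure Seq (x : V) (lt : V → V → Prop) (p : ∀ u : V, G.Walk x u) (k : ℕ) (c : ℕ → V) :
    Prop where
  inj : ∀ s t, s < k → t < k → c s = c t → s = t
  nx : ∀ t < k, x ≠ c t
  adj : ∀ t, t + 1 < k → G.Adj (c t) (c (t + 1))
  inc1 : ∀ t, t + 1 < k → ¬ lt (c t) (c (t + 1))
  inc2 : ∀ t, t + 1 < k → ¬ lt (c (t + 1)) (c t)
  sub : ∀ t < k, ∀ z ∈ (p (c t)).support, z = x ∨ z = c t ∨ lt z (c t)

/-- two waves which start at the edge `c i, c (i+1)` -/
lemma block (x : V) (lt : V → V → Prop) (p : ∀ u : V, G.Walk x u) (k : ℕ) (c : ℕ → V)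
    (hS : Seq x lt p k c) (q0 : ∀ u : V, G.Walk x u) (h0 : ∀ u, x ≠ u → (q0 u).IsPath)
    (a i b : ℕ) (hai : a ≤ i) (hib : i < b) (hbk : b < k)
    (hq0 : ∀ t, a ≤ t → t ≤ b → q0 (c t) = p (c t))
    (hR : ∀ t, i + 2 ≤ t → t ≤ b → ¬ lt (c t) (c i))
    (hL : ∀ t, a ≤ t → t + 1 ≤ i → ¬ lt (c t) (c (i + 1))) :
    ∃ q : ∀ u : V, G.Walk x u, (∀ u, x ≠ u → (q u).IsPath) ∧
      (∀ u, (∀ t, a ≤ t → t ≤ b → u ≠ c t) → q u = q0 u) ∧
      (∀ z ∈ (q (c b)).support, z = x ∨ lt z (c i) ∨ ∃ t, i ≤ t ∧ t ≤ b ∧ z = c t) ∧
      (∀ z ∈ (q (c a)).support, z = x ∨ lt z (c (i + 1)) ∨ ∃ t, a ≤ t ∧ t ≤ i + 1 ∧ z = c t) ∧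
      (∀ z, ld x q z = ld x q0 z + ∑ t ∈ Ico a b, ind z (c t) (c (t + 1))) := by
  obtain ⟨q1, a1, a2, a3, a4, a5⟩ := wave x q0 h0 (fun t => c (i + t)) (b - i)
    (fun s t hs ht h => by
      have := hS.inj (i + s) (i + t) (by omega) (by omega) h
      omega)
    (fun t ht => hS.nx (i + t) (by omega))
    (fun t ht => by
      have := hS.adj (i + t) (by omega)
      exact this)
    (fun t h1 h2 h => by
      rw [Nat.add_zero, hq0 i hai (by omega)] at h
      rcases hS.sub i (by omega) _ h with h' | h' | h'
      · exact hS.nx (i + t) (by omega) h'.symm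
      · have := hS.inj (i + t) i (by omega) (by omega) h'
        omega
      · rcases Nat.lt_or_ge t 2 with h3 | h3
        · have : t = 1 := by omega
          subst this
          exact hS.inc2 i (by omega) h'
        · exact hR (i + t) (by omega) (by omega) h')
    (fun t ht h => by
      rw [hq0 (i + (t + 1)) (by omega) (by omega)] at h
      rcases hS.sub (i + (t + 1)) (by omega) _ h with h' | h' | h'
      · exact hS.nx (i + t) (by omega) h'.symm
      · have := hS.inj (i + t) (i + (t + 1)) (by omega) (by omega) h'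
        omega
      · exact hS.inc1 (i + t) (by omega) h')
  have a4' := a4 (by omega)
  rw [Nat.add_zero] at a3 a4'
  rw [show i + (b - i) = b by omega] at a3
  have hq1 : ∀ t, a ≤ t → t < i → q1 (c t) = p (c t) := by
    intro t h1 h2
    rw [a2 (c t) fun s hs h => ?_, hq0 t h1 (by omega)]
    have := hS.inj t (i + s) (by omega) (by omega) h
    omega
  have hi1 : ∀ z ∈ (q1 (c i)).support, z = x ∨ z = c (i + 1) ∨ lt z (c (i + 1)) ∨ z = c i := by
    intro z hz
    rw [a4'] at hz
    rcases hz with h | h
    · rw [hq0 (i + 1) (by omega) (by omega)] at h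
      rcases hS.sub (i + 1) (by omega) _ h with h' | h' | h'
      · exact Or.inl h'
      · exact Or.inr (Or.inl h')
      · exact Or.inr (Or.inr (Or.inl h'))
    · exact Or.inr (Or.inr (Or.inr h))
  obtain ⟨q2, b1, b2, b3, _, b5⟩ := wave x q1 a1 (fun t => c (i - t)) (i - a)
    (fun s t hs ht h => by
      have := hS.inj (i - s) (i - t) (by omega) (by omega) h
      omega)
    (fun t ht => hS.nx (i - t) (by omega))
    (fun t ht => by
      have h1 := hS.adj (i - (t + 1)) (by omega)
      rw [show i - (t + 1) + 1 = i - t by omega] at h1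
      exact h1.symm)
    (fun t h1 h2 h => by
      rw [Nat.sub_zero] at h
      rcases hi1 _ h with h' | h' | h' | h'
      · exact hS.nx (i - t) (by omega) h'.symm
      · have := hS.inj (i - t) (i + 1) (by omega) (by omega) h'
        omega
      · exact hL (i - t) (by omega) (by omega) h'
      · have := hS.inj (i - t) i (by omega) (by omega) h'
        omega)
    (fun t ht h => by
      rw [hq1 (i - (t + 1)) (by omega) (by omega)] at h
      rcases hS.sub (i - (t + 1)) (by omega) _ h with h' | h' | h'
      · exact hS.nx (i - t) (by omega) h'.symm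
      · have := hS.inj (i - t) (i - (t + 1)) (by omega) (by omega) h'
        omega
      · have h3 := hS.inc2 (i - (t + 1)) (by omega)
        rw [show i - (t + 1) + 1 = i - t by omega] at h3
        exact h3 h')
  rw [Nat.sub_zero] at b3
  rw [show i - (i - a) = a by omega] at b3
  refine ⟨q2, b1, fun u hu => ?_, fun z hz => ?_, fun z hz => ?_, fun z => ?_⟩
  · rw [b2 u fun t ht => hu (i - t) (by omega) (by omega),
      a2 u fun t ht => hu (i + t) (by omega) (by omega)]
  · rw [b2 (c b) fun t ht h => ?_, a3] at hz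
    · rcases hz with h | ⟨t, ht1, ht2, h⟩
      · rw [hq0 i hai (by omega)] at h
        rcases hS.sub i (by omega) _ h with h' | h' | h'
        · exact Or.inl h'
        · exact Or.inr (Or.inr ⟨i, le_rfl, by omega, h'⟩)
        · exact Or.inr (Or.inl h')
      · exact Or.inr (Or.inr ⟨i + t, by omega, by omega, h⟩)
    · have := hS.inj b (i - t) (by omega) (by omega) h
      omega
  · rw [b3] at hz
    rcases hz with h | ⟨t, ht1, ht2, h⟩
    · rcases hi1 _ h with h' | h' | h' | h'
      · exact Or.inl h'
      · exact Or.inr (Or.inr ⟨i + 1, by omega, le_rfl, h'⟩)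
      · exact Or.inr (Or.inl h')
      · exact Or.inr (Or.inr ⟨i, hai, by omega, h'⟩)
    · exact Or.inr (Or.inr ⟨i - t, by omega, by omega, h⟩)
  · rw [b5, a5, add_assoc]
    congr 1
    have e1 : ∑ t ∈ range (b - i), ind z (c (i + t)) (c (i + (t + 1))) =
        ∑ t ∈ Ico i b, ind z (c t) (c (t + 1)) := by
      rw [sum_Ico_eq_sum_range]
      rfl
    have e2 : ∑ t ∈ range (i - a), ind z (c (i - t)) (c (i - (t + 1))) =
        ∑ t ∈ Ico a i, ind z (c t) (c (t + 1)) := by
      rw [sum_Ico_eq_sum_range, ← sum_range_reflect]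
      refine sum_congr rfl fun t ht => ?_
      rw [mem_range] at ht
      rw [show i - (i - a - 1 - t) = a + t + 1 by omega,
        show i - (i - a - 1 - t + 1) = a + t by omega, ind_comm]
    rw [e1, e2, add_comm]
    exact sum_Ico_consecutive _ hai hib.le

/-- the path case: a beginning of the path -/
lemma path_prefix (x : V) (lt : V → V → Prop) (htr : ∀ a b c, lt a b → lt b c → lt a c)
    (hirr : ∀ a, ¬ lt a a) (p : ∀ u : V, G.Walk x u) (hp : ∀ u, x ≠ u → (p u).IsPath)
    (k : ℕ) (c : ℕ → V) (hS : Seq x lt p k c) (j : ℕ) (hj : j < k)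
    (hH : j + 1 < k → 1 ≤ j → ¬ lt (c (j + 1)) (c (j - 1))) :
    ∃ q : ∀ u : V, G.Walk x u, (∀ u, x ≠ u → (q u).IsPath) ∧
      (∀ u, (∀ t ≤ j, u ≠ c t) → q u = p u) ∧
      (j + 1 < k → c (j + 1) ∉ (q (c j)).support) ∧
      (∀ z, ld x q z = ld x p z + ∑ t ∈ range j, ind z (c t) (c (t + 1))) := by
  classical
  induction j using Nat.strong_induction_on with
  | _ j ih =>
  rcases Nat.eq_zero_or_pos j with hj0 | hj0
  · subst hj0
    refine ⟨p, hp, fun _ _ => rfl, fun h h' => ?_, fun z => by simp⟩
    rcases hS.sub 0 (by omega) _ h' with h1 | h1 | h1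
    · exact hS.nx 1 (by omega) h1.symm
    · have := hS.inj 1 0 (by omega) (by omega) h1
      omega
    · exact hS.inc2 0 (by omega) h1
  obtain ⟨i, hij, higood, hibad⟩ : ∃ i, i ≤ j - 1 ∧ (i = 0 ∨ ¬ lt (c (i - 1)) (c (i + 1))) ∧
      ∀ t, i < t → t ≤ j - 1 → lt (c (t - 1)) (c (t + 1)) := by
    refine ⟨Nat.findGreatest (fun t => t = 0 ∨ ¬ lt (c (t - 1)) (c (t + 1))) (j - 1),
      Nat.findGreatest_le _, Nat.findGreatest_spec (P := fun t => t = 0 ∨
        ¬ lt (c (t - 1)) (c (t + 1))) (Nat.zero_le _) (Or.inl rfl), fun t h1 h2 => ?_⟩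
    have := Nat.findGreatest_is_greatest h1 h2
    by_contra h3
    exact this (Or.inr h3)
  have chain : ∀ d, i + 2 * d ≤ j → c i = c (i + 2 * d) ∨ lt (c i) (c (i + 2 * d)) := by
    intro d
    induction d with
    | zero => intro _; exact Or.inl rfl
    | succ d ihd =>
      intro h
      have h1 := hibad (i + 2 * d + 1) (by omega) (by omega)
      rw [show i + 2 * d + 1 - 1 = i + 2 * d by omega,
        show i + 2 * d + 1 + 1 = i + 2 * (d + 1) by omega] at h1
      rcases ihd (by omega) with h2 | h2
      · rw [← h2] at h1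
        exact Or.inr h1
      · exact Or.inr (htr _ _ _ h2 h1)
  have hR : ∀ t, i + 2 ≤ t → t ≤ j + 1 → t < k → ¬ lt (c t) (c i) := by
    intro t h1 h2 h3 h4
    obtain ⟨d, hd⟩ : ∃ d, t = i + 2 * d ∨ t = i + 2 * d + 1 := ⟨(t - i) / 2, by omega⟩
    rcases hd with hd | hd
    · rcases Nat.lt_or_ge j t with h5 | h5
      · have h6 : t = j + 1 := by omega
        have h7 := chain (d - 1) (by omega)
        rw [show i + 2 * (d - 1) = j - 1 by omega] at h7
        rw [h6] at h4
        rcases h7 with h7 | h7
        · rw [h7] at h4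
          exact hH (by omega) (by omega) h4
        · exact hH (by omega) (by omega) (htr _ _ _ h4 h7)
      · rcases chain d (by omega) with h7 | h7
        · rw [← hd] at h7
          rw [h7] at h4
          exact hirr _ h4
        · rw [← hd] at h7
          exact hirr _ (htr _ _ _ h4 h7)
    · have h7 := chain d (by omega)
      have h8 := hS.inc2 (i + 2 * d) (by omega)
      rw [← hd] at h8
      rcases h7 with h7 | h7
      · rw [← h7] at h8
        exact h8 h4
      · exact h8 (htr _ _ _ h4 h7)
  have fin3 : ∀ q : ∀ u : V, G.Walk x u,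
      (∀ z ∈ (q (c j)).support, z = x ∨ lt z (c i) ∨ ∃ t, i ≤ t ∧ t ≤ j ∧ z = c t) →
      j + 1 < k → c (j + 1) ∉ (q (c j)).support := by
    intro q h1 h2 h3
    rcases h1 _ h3 with h4 | h4 | ⟨t, ht1, ht2, h4⟩
    · exact hS.nx (j + 1) h2 h4.symm
    · exact hR (j + 1) (by omega) le_rfl h2 h4
    · have := hS.inj (j + 1) t (by omega) (by omega) h4
      omega
  by_cases hT : ∃ t, t + 1 ≤ i ∧ lt (c t) (c (i + 1))
  · obtain ⟨j', hj'1, hj'2, hj'3⟩ : ∃ j', j' + 1 ≤ i ∧ lt (c j') (c (i + 1)) ∧
        ∀ t, j' < t → t + 1 ≤ i → ¬ lt (c t) (c (i + 1)) := by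
      obtain ⟨t, ht1, ht2⟩ := hT
      refine ⟨Nat.findGreatest (fun t => lt (c t) (c (i + 1))) (i - 1), ?_,
        Nat.findGreatest_spec (P := fun t => lt (c t) (c (i + 1))) (m := t) (by omega) ht2,
        fun t h1 h2 => Nat.findGreatest_is_greatest h1 (by omega)⟩
      have := Nat.findGreatest_le (P := fun t => lt (c t) (c (i + 1))) (i - 1)
      omega
    have hj'4 : j' + 2 ≤ i := by
      by_contra h
      have h1 : j' = i - 1 := by omega
      rcases higood with h2 | h2
      · omega
      · rw [h1] at hj'2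
        exact h2 hj'2
    have hnew : ¬ lt (c (j' + 2)) (c j') := by
      intro h
      have h1 := htr _ _ _ h hj'2
      rcases Nat.lt_or_ge (j' + 2) i with h2 | h2
      · exact hj'3 (j' + 2) (by omega) (by omega) h1
      · have h3 : j' + 2 = i := by omega
        rw [h3] at h1
        exact hS.inc1 i (by omega) h1
    obtain ⟨q1, a1, a2, a3, a4⟩ := ih (j' + 1) (by omega) (by omega)
      (fun _ _ h => hnew (by rw [show j' + 1 - 1 = j' by omega] at h; exact h))
    obtain ⟨q2, b1, b2, b3, b4, b5⟩ := block x lt p k c hS q1 a1 (j' + 2) i j hj'4 (by omega) hj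
      (fun t h1 h2 => a2 (c t) fun s hs h => by
        have := hS.inj t s (by omega) (by omega) h
        omega)
      (fun t h1 h2 => hR t h1 (by omega) (by omega))
      (fun t h1 h2 => hj'3 t (by omega) h2)
    have c1 : c (j' + 1) ∉ (q2 (c (j' + 2))).support := by
      intro h
      rcases b4 _ h with h1 | h1 | ⟨t, ht1, ht2, h1⟩
      · exact hS.nx (j' + 1) (by omega) h1.symm
      · exact hj'3 (j' + 1) (by omega) (by omega) h1
      · have := hS.inj (j' + 1) t (by omega) (by omega) h1
        omega
    have c2 : c (j' + 2) ∉ (q2 (c (j' + 1))).support := by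
      rw [b2 (c (j' + 1)) fun t h1 h2 h => ?_]
      · exact a3 (by omega)
      · have := hS.inj (j' + 1) t (by omega) (by omega) h
        omega
    obtain ⟨q3, d1, d2, _, _, d5⟩ := Pool.Agent.UPS2.one_toggle x q2 b1
      (hS.adj (j' + 1) (by omega)) (hS.nx (j' + 1) (by omega)) (hS.nx (j' + 2) (by omega)) c1 c2
    refine ⟨q3, d1, fun u hu => ?_, fun h => ?_, fun z => ?_⟩
    · rw [d2 u (hu (j' + 1) (by omega)) (hu (j' + 2) (by omega)),
        b2 u fun t h1 h2 => hu t (by omega), a2 u fun t h1 => hu t (by omega)]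
    · have e1 : q3 (c j) = q2 (c j) := by
        apply d2
        · intro h'
          have := hS.inj j (j' + 1) (by omega) (by omega) h'
          omega
        · intro h'
          have := hS.inj j (j' + 2) (by omega) (by omega) h'
          omega
      rw [e1]
      exact fin3 q2 b3 h
    · have e1 : ld x q3 z = ld x q2 z + ind z (c (j' + 1)) (c (j' + 1 + 1)) := d5 z
      have e2 := sum_range_add_sum_Ico (fun t => ind z (c t) (c (t + 1)))
        (show j' + 2 ≤ j by omega)
      have e3 := sum_range_succ (fun t => ind z (c t) (c (t + 1))) (j' + 1)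
      have e4 := a4 z
      have e5 := b5 z
      rw [show j' + 1 + 1 = j' + 2 from rfl] at e1 e3
      linarith
  · obtain ⟨q2, b1, b2, b3, b4, b5⟩ := block x lt p k c hS p hp 0 i j (Nat.zero_le _) (by omega) hj
      (fun t h1 h2 => rfl)
      (fun t h1 h2 => hR t h1 (by omega) (by omega))
      (fun t h1 h2 h => hT ⟨t, h2, h⟩)
    refine ⟨q2, b1, fun u hu => b2 u fun t _ h2 => hu t h2, fin3 q2 b3, fun z => ?_⟩
    rw [b5, range_eq_Ico]

omit [Fintype V] [DecidableEq V] in
/-- chains of alternate vertices -/
lemma alt_chain (lt : V → V → Prop) (htr : ∀ a b c, lt a b → lt b c → lt a c) (c : ℕ → V)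
    (a m : ℕ) (h : ∀ t, a < t → t ≤ m → lt (c (t - 1)) (c (t + 1))) (d : ℕ)
    (hd : a + 2 * d ≤ m + 1) : c a = c (a + 2 * d) ∨ lt (c a) (c (a + 2 * d)) := by
  induction d with
  | zero => exact Or.inl rfl
  | succ d ihd =>
    have h1 := h (a + 2 * d + 1) (by omega) (by omega)
    rw [show a + 2 * d + 1 - 1 = a + 2 * d by omega,
      show a + 2 * d + 1 + 1 = a + 2 * (d + 1) by omega] at h1
    rcases ihd (by omega) with h2 | h2
    · rw [← h2] at h1
      exact Or.inr h1
    · exact Or.inr (htr _ _ _ h2 h1)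

/-- the cycle case, started at a minimal vertex, in the right direction -/
lemma cycle_core (x : V) (lt : V → V → Prop) (htr : ∀ a b c, lt a b → lt b c → lt a c)
    (hirr : ∀ a, ¬ lt a a) (p : ∀ u : V, G.Walk x u) (hp : ∀ u, x ≠ u → (p u).IsPath)
    (k : ℕ) (c : ℕ → V) (hS : Seq x lt p k c) (hk : 4 ≤ k)
    (hc1 : G.Adj (c (k - 1)) (c 0)) (hc2 : ¬ lt (c 0) (c (k - 1)))
    (hmin : ∀ t < k, ¬ lt (c t) (c 0)) (hor : ¬ lt (c (k - 1)) (c 1)) :
    ∃ q : ∀ u : V, G.Walk x u, (∀ u, x ≠ u → (q u).IsPath) ∧
      (∀ u, (∀ t < k, u ≠ c t) → q u = p u) ∧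
      (∀ z, ld x q z = ld x p z + (∑ t ∈ range (k - 1), ind z (c t) (c (t + 1)) +
        ind z (c (k - 1)) (c 0))) := by
  by_cases hA : lt (c (k - 2)) (c 1)
  · -- two blocks
    obtain ⟨s, hs2, hsk, hsgood, hsbad⟩ : ∃ s, 2 ≤ s ∧ s ≤ k - 2 ∧
        ¬ lt (c (s - 1)) (c (s + 1)) ∧ ∀ t, s < t → t ≤ k - 2 → lt (c (t - 1)) (c (t + 1)) := by
      classical
      have hex : ∃ s, 2 ≤ s ∧ s ≤ k - 2 ∧ ¬ lt (c (s - 1)) (c (s + 1)) := by
        by_contra hno
        push Not at hno
        obtain ⟨d, hd⟩ : ∃ d, k - 2 = 1 + 2 * d ∨ k - 2 = 2 + 2 * d := ⟨(k - 3) / 2, by omega⟩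
        rcases hd with hd | hd
        · have h1 := alt_chain lt htr c 1 (k - 2) (fun t h1 h2 => hno t (by omega) h2) d (by omega)
          rw [← hd] at h1
          rcases h1 with h1 | h1
          · rw [← h1] at hA
            exact hirr _ hA
          · exact hirr _ (htr _ _ _ hA h1)
        · have h1 := alt_chain lt htr c 2 (k - 2) (fun t h1 h2 => hno t (by omega) h2) d (by omega)
          rw [← hd] at h1
          have h2 := hS.inc2 1 (by omega)
          rcases h1 with h1 | h1
          · rw [← h1] at hA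
            exact h2 hA
          · exact h2 (htr _ _ _ h1 hA)
      obtain ⟨s0, h1, h2, h3⟩ := hex
      refine ⟨Nat.findGreatest (fun t => 2 ≤ t ∧ ¬ lt (c (t - 1)) (c (t + 1))) (k - 2), ?_,
        Nat.findGreatest_le _, ?_, fun t ht1 ht2 => ?_⟩
      · exact (Nat.findGreatest_spec (P := fun t => 2 ≤ t ∧ ¬ lt (c (t - 1)) (c (t + 1)))
          (m := s0) h2 ⟨h1, h3⟩).1
      · exact (Nat.findGreatest_spec (P := fun t => 2 ≤ t ∧ ¬ lt (c (t - 1)) (c (t + 1)))
          (m := s0) h2 ⟨h1, h3⟩).2
      · have h4 := (Nat.findGreatest_spec (P := fun t => 2 ≤ t ∧ ¬ lt (c (t - 1)) (c (t + 1)))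
          (m := s0) h2 ⟨h1, h3⟩).1
        have h5 := Nat.findGreatest_is_greatest ht1 ht2
        by_contra h6
        exact h5 ⟨by omega, h6⟩
    have chain := alt_chain lt htr c s (k - 2) hsbad
    have hR : ∀ t, s + 2 ≤ t → t < k → ¬ lt (c t) (c s) := by
      intro t h1 h3 h4
      obtain ⟨d, hd⟩ : ∃ d, t = s + 2 * d ∨ t = s + 2 * d + 1 := ⟨(t - s) / 2, by omega⟩
      rcases hd with hd | hd
      · rcases chain d (by omega) with h7 | h7
        · rw [← hd] at h7
          rw [h7] at h4
          exact hirr _ h4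
        · rw [← hd] at h7
          exact hirr _ (htr _ _ _ h4 h7)
      · have h7 := chain d (by omega)
        have h8 := hS.inc2 (s + 2 * d) (by omega)
        rw [← hd] at h8
        rcases h7 with h7 | h7
        · rw [← h7] at h8
          exact h8 h4
        · exact h8 (htr _ _ _ h4 h7)
    have hR0 : ¬ lt (c 0) (c s) := by
      intro h4
      obtain ⟨d, hd⟩ : ∃ d, k - 1 = s + 2 * d ∨ k - 1 = s + 2 * d + 1 :=
        ⟨(k - 1 - s) / 2, by omega⟩
      rcases hd with hd | hd
      · have h7 := chain d (by omega)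
        rw [← hd] at h7
        rcases h7 with h7 | h7
        · rw [h7] at h4
          exact hc2 h4
        · exact hc2 (htr _ _ _ h4 h7)
      · have h7 := chain d (by omega)
        rw [show s + 2 * d = k - 2 by omega] at h7
        have h8 := hS.inc1 0 (by omega)
        rcases h7 with h7 | h7
        · rw [h7] at h4
          exact h8 (htr _ _ _ h4 hA)
        · exact h8 (htr _ _ _ (htr _ _ _ h4 h7) hA)
    obtain ⟨q1, a1, a2, a3, a4, a5⟩ := block x lt p k c hS p hp 0 0 (s - 1) le_rfl (by omega)
      (by omega) (fun _ _ _ => rfl) (fun t _ _ => hmin t (by omega)) (fun t _ h => by omega)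
    obtain ⟨q2, b1, b2, b3, b4, b5⟩ := block x lt p k c hS q1 a1 s s (k - 1) le_rfl (by omega)
      (by omega) (fun t h1 h2 => a2 (c t) fun r _ hr h => by
        have := hS.inj t r (by omega) (by omega) h
        omega)
      (fun t h1 h2 => hR t h1 (by omega)) (fun t h1 h2 => by omega)
    have c1 : c (s - 1) ∉ (q2 (c s)).support := by
      intro h
      rcases b4 _ h with h1 | h1 | ⟨t, ht1, ht2, h1⟩
      · exact hS.nx (s - 1) (by omega) h1.symm
      · exact hsgood h1
      · have := hS.inj (s - 1) t (by omega) (by omega) h1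
        omega
    have c2 : c s ∉ (q2 (c (s - 1))).support := by
      rw [b2 (c (s - 1)) fun t h1 h2 h => ?_]
      · intro h
        rcases a3 _ h with h1 | h1 | ⟨t, ht1, ht2, h1⟩
        · exact hS.nx s (by omega) h1.symm
        · exact hmin s (by omega) h1
        · have := hS.inj s t (by omega) (by omega) h1
          omega
      · have := hS.inj (s - 1) t (by omega) (by omega) h
        omega
    have hadj := hS.adj (s - 1) (by omega)
    rw [show s - 1 + 1 = s by omega] at hadj
    obtain ⟨q3, d1, d2, _, _, d5⟩ := Pool.Agent.UPS2.one_toggle x q2 b1 hadj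
      (hS.nx (s - 1) (by omega)) (hS.nx s (by omega)) c1 c2
    have e1 : q3 (c (k - 1)) = q2 (c (k - 1)) := d2 _
      (fun h => by have := hS.inj _ _ (by omega) (by omega) h; omega)
      (fun h => by have := hS.inj _ _ (by omega) (by omega) h; omega)
    have e2 : q3 (c 0) = q2 (c 0) := d2 _
      (fun h => by have := hS.inj _ _ (by omega) (by omega) h; omega)
      (fun h => by have := hS.inj _ _ (by omega) (by omega) h; omega)
    have e3 : q2 (c 0) = q1 (c 0) := b2 _ fun t h1 h2 h => by
      have := hS.inj _ _ (by omega) (by omega) h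
      omega
    have c3 : c (k - 1) ∉ (q3 (c 0)).support := by
      rw [e2, e3]
      intro h
      rcases a4 _ h with h1 | h1 | ⟨t, ht1, ht2, h1⟩
      · exact hS.nx (k - 1) (by omega) h1.symm
      · exact hor h1
      · have := hS.inj (k - 1) t (by omega) (by omega) h1
        omega
    have c4 : c 0 ∉ (q3 (c (k - 1))).support := by
      rw [e1]
      intro h
      rcases b3 _ h with h1 | h1 | ⟨t, ht1, ht2, h1⟩
      · exact hS.nx 0 (by omega) h1.symm
      · exact hR0 h1
      · have := hS.inj 0 t (by omega) (by omega) h1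
        omega
    obtain ⟨q4, f1, f2, _, _, f5⟩ := Pool.Agent.UPS2.one_toggle x q3 d1 hc1
      (hS.nx (k - 1) (by omega)) (hS.nx 0 (by omega)) c3 c4
    refine ⟨q4, f1, fun u hu => ?_, fun z => ?_⟩
    · rw [f2 u (hu _ (by omega)) (hu _ (by omega)), d2 u (hu _ (by omega)) (hu _ (by omega)),
        b2 u fun t h1 h2 => hu t (by omega), a2 u fun t h1 h2 => hu t (by omega)]
    · have g1 : ld x q4 z = ld x q3 z + ind z (c (k - 1)) (c 0) := f5 z
      have g2 : ld x q3 z = ld x q2 z + ind z (c (s - 1)) (c s) := d5 z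
      have g3 := b5 z
      have g4 := a5 z
      have g5 := sum_range_add_sum_Ico (fun t => ind z (c t) (c (t + 1)))
        (show s ≤ k - 1 by omega)
      have g6 := sum_range_succ (fun t => ind z (c t) (c (t + 1))) (s - 1)
      rw [show s - 1 + 1 = s by omega] at g6
      rw [← range_eq_Ico] at g4
      linarith
  · -- one block
    obtain ⟨q1, a1, a2, a3, a4, a5⟩ := block x lt p k c hS p hp 0 0 (k - 2) le_rfl (by omega)
      (by omega) (fun _ _ _ => rfl) (fun t _ _ => hmin t (by omega)) (fun t _ h => by omega)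
    have e1 : q1 (c (k - 1)) = p (c (k - 1)) := a2 _ fun t h1 h2 h => by
      have := hS.inj _ _ (by omega) (by omega) h
      omega
    have c1 : c (k - 1) ∉ (q1 (c 0)).support := by
      intro h
      rcases a4 _ h with h1 | h1 | ⟨t, ht1, ht2, h1⟩
      · exact hS.nx (k - 1) (by omega) h1.symm
      · exact hor h1
      · have := hS.inj (k - 1) t (by omega) (by omega) h1
        omega
    have c2 : c 0 ∉ (q1 (c (k - 1))).support := by
      rw [e1]
      intro h
      rcases hS.sub (k - 1) (by omega) _ h with h1 | h1 | h1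
      · exact hS.nx 0 (by omega) h1.symm
      · have := hS.inj _ _ (by omega) (by omega) h1
        omega
      · exact hc2 h1
    obtain ⟨q2, b1, b2, b3, b4, b5⟩ := Pool.Agent.UPS2.one_toggle x q1 a1 hc1
      (hS.nx (k - 1) (by omega)) (hS.nx 0 (by omega)) c1 c2
    have e2 : q2 (c (k - 2)) = q1 (c (k - 2)) := b2 _
      (fun h => by have := hS.inj _ _ (by omega) (by omega) h; omega)
      (fun h => by have := hS.inj _ _ (by omega) (by omega) h; omega)
    have c3 : c (k - 2) ∉ (q2 (c (k - 1))).support := by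
      intro h
      rcases (b3 _).1 h with h' | h'
      · rcases a4 _ h' with h1 | h1 | ⟨t, ht1, ht2, h1⟩
        · exact hS.nx (k - 2) (by omega) h1.symm
        · exact hA h1
        · have := hS.inj (k - 2) t (by omega) (by omega) h1
          omega
      · have := hS.inj _ _ (by omega) (by omega) h'
        omega
    have c4 : c (k - 1) ∉ (q2 (c (k - 2))).support := by
      rw [e2]
      intro h
      rcases a3 _ h with h1 | h1 | ⟨t, ht1, ht2, h1⟩
      · exact hS.nx (k - 1) (by omega) h1.symm
      · exact hmin (k - 1) (by omega) h1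
      · have := hS.inj (k - 1) t (by omega) (by omega) h1
        omega
    have hadj := hS.adj (k - 2) (by omega)
    rw [show k - 2 + 1 = k - 1 by omega] at hadj
    obtain ⟨q3, d1, d2, _, _, d5⟩ := Pool.Agent.UPS2.one_toggle x q2 b1 hadj
      (hS.nx (k - 2) (by omega)) (hS.nx (k - 1) (by omega)) c3 c4
    refine ⟨q3, d1, fun u hu => ?_, fun z => ?_⟩
    · rw [d2 u (hu _ (by omega)) (hu _ (by omega)), b2 u (hu _ (by omega)) (hu _ (by omega)),
        a2 u fun t h1 h2 => hu t (by omega)]
    · have g1 : ld x q3 z = ld x q2 z + ind z (c (k - 2)) (c (k - 1)) := d5 z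
      have g2 : ld x q2 z = ld x q1 z + ind z (c (k - 1)) (c 0) := b5 z
      have g4 := a5 z
      have g6 := sum_range_succ (fun t => ind z (c t) (c (t + 1))) (k - 2)
      rw [show k - 2 + 1 = k - 1 by omega] at g6
      rw [← range_eq_Ico] at g4
      linarith

/-- a cyclic sequence -/
structure Cyc (x : V) (lt : V → V → Prop) (p : ∀ u : V, G.Walk x u) (k : ℕ) (c : ℕ → V) :
    Prop extends Seq x lt p k c where
  adj0 : G.Adj (c (k - 1)) (c 0)
  inc01 : ¬ lt (c 0) (c (k - 1))
  inc02 : ¬ lt (c (k - 1)) (c 0)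

omit [Fintype V] [DecidableEq V] in
lemma Cyc.rot {x : V} {lt : V → V → Prop} {p : ∀ u : V, G.Walk x u} {k : ℕ} {c : ℕ → V}
    (h : Cyc x lt p k c) (m : ℕ) (hm : m < k) :
    Cyc x lt p k (fun t => if m + t < k then c (m + t) else c (m + t - k)) := by
  refine ⟨⟨fun s t hs ht hst => ?_, fun t ht => ?_, fun t ht => ?_, fun t ht => ?_,
    fun t ht => ?_, fun t ht => ?_⟩, ?_, ?_, ?_⟩
  · split_ifs at hst with h1 h2 h2
    · have := h.inj _ _ h1 h2 hst; omega
    · have := h.inj _ _ h1 (by omega) hst; omega
    · have := h.inj _ _ (by omega) h2 hst; omega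
    · have := h.inj _ _ (by omega) (by omega) hst; omega
  · split_ifs with h1
    · exact h.nx _ h1
    · exact h.nx _ (by omega)
  · split_ifs with h1 h2 h2
    · exact h.adj _ h2
    · rw [show m + t = k - 1 by omega, show m + (t + 1) - k = 0 by omega]
      exact h.adj0
    · omega
    · rw [show m + (t + 1) - k = m + t - k + 1 by omega]
      exact h.adj _ (by omega)
  · split_ifs with h1 h2 h2
    · exact h.inc1 _ h2
    · rw [show m + t = k - 1 by omega, show m + (t + 1) - k = 0 by omega]
      exact h.inc02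
    · omega
    · rw [show m + (t + 1) - k = m + t - k + 1 by omega]
      exact h.inc1 _ (by omega)
  · split_ifs with h1 h2 h2
    · exact h.inc2 _ h1
    · omega
    · rw [show m + t = k - 1 by omega, show m + (t + 1) - k = 0 by omega]
      exact h.inc01
    · rw [show m + (t + 1) - k = m + t - k + 1 by omega]
      exact h.inc2 _ (by omega)
  · by_cases h1 : m + t < k
    · rw [if_pos h1]
      exact h.sub _ h1
    · rw [if_neg h1]
      exact h.sub _ (by omega)
  · rcases Nat.eq_zero_or_pos m with h0 | h0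
    · rw [if_pos (by omega), if_pos (by omega), h0, Nat.zero_add, Nat.zero_add]
      exact h.adj0
    · rw [if_neg (by omega), if_pos (by omega), Nat.add_zero]
      have := h.adj (m - 1) (by omega)
      rw [show m - 1 + 1 = m by omega] at this
      rw [show m + (k - 1) - k = m - 1 by omega]
      exact this
  · rcases Nat.eq_zero_or_pos m with h0 | h0
    · rw [if_pos (by omega), if_pos (by omega), h0, Nat.zero_add, Nat.zero_add]
      exact h.inc01
    · rw [if_pos (by omega), if_neg (by omega), Nat.add_zero]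
      have := h.inc2 (m - 1) (by omega)
      rw [show m - 1 + 1 = m by omega] at this
      rw [show m + (k - 1) - k = m - 1 by omega]
      exact this
  · rcases Nat.eq_zero_or_pos m with h0 | h0
    · rw [if_pos (by omega), if_pos (by omega), h0, Nat.zero_add, Nat.zero_add]
      exact h.inc02
    · rw [if_neg (by omega), if_pos (by omega), Nat.add_zero]
      have := h.inc1 (m - 1) (by omega)
      rw [show m - 1 + 1 = m by omega] at this
      rw [show m + (k - 1) - k = m - 1 by omega]
      exact this

omit [Fintype V] [DecidableEq V] in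
lemma Cyc.refl {x : V} {lt : V → V → Prop} {p : ∀ u : V, G.Walk x u} {k : ℕ} {c : ℕ → V}
    (h : Cyc x lt p k c) (hk : 2 ≤ k) :
    Cyc x lt p k (fun t => if t = 0 then c 0 else c (k - t)) := by
  refine ⟨⟨fun s t hs ht hst => ?_, fun t ht => ?_, fun t ht => ?_, fun t ht => ?_,
    fun t ht => ?_, fun t ht => ?_⟩, ?_, ?_, ?_⟩
  · split_ifs at hst with h1 h2 h2
    · omega
    · have := h.inj _ _ (by omega) (by omega) hst; omega
    · have := h.inj _ _ (by omega) (by omega) hst; omega
    · have := h.inj _ _ (by omega) (by omega) hst; omega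
  · split_ifs with h1
    · exact h.nx _ (by omega)
    · exact h.nx _ (by omega)
  · rw [if_neg (show t + 1 ≠ 0 by omega)]
    split_ifs with h1
    · rw [h1]
      exact h.adj0.symm
    · have := h.adj (k - (t + 1)) (by omega)
      rw [show k - (t + 1) + 1 = k - t by omega] at this
      exact this.symm
  · rw [if_neg (show t + 1 ≠ 0 by omega)]
    split_ifs with h1
    · rw [h1]
      exact h.inc01
    · have := h.inc2 (k - (t + 1)) (by omega)
      rw [show k - (t + 1) + 1 = k - t by omega] at this
      exact this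
  · rw [if_neg (show t + 1 ≠ 0 by omega)]
    split_ifs with h1
    · rw [h1]
      exact h.inc02
    · have := h.inc1 (k - (t + 1)) (by omega)
      rw [show k - (t + 1) + 1 = k - t by omega] at this
      exact this
  · by_cases h1 : t = 0
    · rw [if_pos h1]
      exact h.sub _ (by omega)
    · rw [if_neg h1]
      exact h.sub _ (by omega)
  · rw [if_neg (by omega), if_pos rfl, show k - (k - 1) = 1 by omega]
    exact (h.adj 0 (by omega)).symm
  · rw [if_neg (show k - 1 ≠ 0 by omega), if_pos rfl, show k - (k - 1) = 1 by omega]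
    exact h.inc1 0 (by omega)
  · rw [if_neg (show k - 1 ≠ 0 by omega), if_pos rfl, show k - (k - 1) = 1 by omega]
    exact h.inc2 0 (by omega)

omit [Fintype V] in
lemma ind_eq {a b : V} (h : a ≠ b) (z : V) :
    ind z a b = (if z = a then 1 else 0) + (if z = b then 1 else 0) := by
  unfold ind
  by_cases h1 : z = a
  · have : z ≠ b := fun h2 => h (h1 ▸ h2)
    simp [h1, h]
  · simp [h1]

omit [Fintype V] in
lemma cyc_sum {x : V} {lt : V → V → Prop} {p : ∀ u : V, G.Walk x u} {k : ℕ} {c : ℕ → V}
    (h : Cyc x lt p k c) (hk : 2 ≤ k) (z : V) :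
    ∑ t ∈ range (k - 1), ind z (c t) (c (t + 1)) + ind z (c (k - 1)) (c 0) =
      2 * ∑ t ∈ range k, (if z = c t then 1 else 0) := by
  have h1 : ∀ t ∈ range (k - 1), ind z (c t) (c (t + 1)) =
      (if z = c t then 1 else 0) + (if z = c (t + 1) then 1 else 0) := by
    intro t ht
    rw [mem_range] at ht
    apply ind_eq
    intro h2
    have := h.inj _ _ (by omega) (by omega) h2
    omega
  rw [sum_congr rfl h1, ind_eq (by
    intro h2
    have := h.inj _ _ (by omega) (by omega) h2
    omega), sum_add_distrib]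
  have h2 := sum_range_succ (fun t => if z = c t then 1 else 0) (k - 1)
  have h3 := sum_range_succ' (fun t => if z = c t then 1 else 0) (k - 1)
  rw [show k - 1 + 1 = k by omega] at h2 h3
  linarith

omit [Fintype V] in
lemma cnt_eq {k : ℕ} {c : ℕ → V} (hinj : ∀ s t, s < k → t < k → c s = c t → s = t) (z : V)
    [Decidable (∃ t < k, z = c t)] :
    ∑ t ∈ range k, (if z = c t then 1 else 0) = if ∃ t < k, z = c t then 1 else 0 := by
  by_cases h : ∃ t < k, z = c t
  · rw [if_pos h]
    obtain ⟨t, ht, hz⟩ := h
    rw [sum_eq_single_of_mem t (mem_range.2 ht) fun s hs hst => ?_, if_pos hz]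
    rw [if_neg]
    intro h1
    exact hst (hinj _ _ (mem_range.1 hs) ht (h1.symm.trans hz))
  · rw [if_neg h]
    apply sum_eq_zero
    intro t ht
    rw [if_neg]
    exact fun h1 => h ⟨t, mem_range.1 ht, h1⟩

/-- the triangle -/
lemma triangle (x : V) (lt : V → V → Prop) (p : ∀ u : V, G.Walk x u)
    (hp : ∀ u, x ≠ u → (p u).IsPath) (c : ℕ → V) (hS : Cyc x lt p 3 c) :
    ∃ q : ∀ u : V, G.Walk x u, (∀ u, x ≠ u → (q u).IsPath) ∧
      (∀ u, (∀ t < 3, u ≠ c t) → q u = p u) ∧
      (∀ z, ld x q z = ld x p z + 2 * ∑ t ∈ range 3, (if z = c t then 1 else 0)) := by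
  classical
  obtain ⟨a, ha⟩ : ∃ a, c 0 = a := ⟨_, rfl⟩
  obtain ⟨b, hb⟩ : ∃ b, c 1 = b := ⟨_, rfl⟩
  obtain ⟨d, hd⟩ : ∃ d, c 2 = d := ⟨_, rfl⟩
  have hab : G.Adj a b := by rw [← ha, ← hb]; exact hS.adj 0 (by omega)
  have hbd : G.Adj b d := by rw [← hb, ← hd]; exact hS.adj 1 (by omega)
  have hda : G.Adj d a := by rw [← hd, ← ha]; exact hS.adj0
  have hxa : x ≠ a := by rw [← ha]; exact hS.nx 0 (by omega)
  have hxb : x ≠ b := by rw [← hb]; exact hS.nx 1 (by omega)
  have hxd : x ≠ d := by rw [← hd]; exact hS.nx 2 (by omega)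
  have sa : ∀ z ∈ (p a).support, z = x ∨ z = a ∨ lt z a := by
    have := hS.sub 0 (by omega); rw [ha] at this; exact this
  have sb : ∀ z ∈ (p b).support, z = x ∨ z = b ∨ lt z b := by
    have := hS.sub 1 (by omega); rw [hb] at this; exact this
  have sd : ∀ z ∈ (p d).support, z = x ∨ z = d ∨ lt z d := by
    have := hS.sub 2 (by omega); rw [hd] at this; exact this
  have i1 : ¬ lt a b := by rw [← ha, ← hb]; exact hS.inc1 0 (by omega)
  have i2 : ¬ lt b a := by rw [← ha, ← hb]; exact hS.inc2 0 (by omega)
  have i3 : ¬ lt b d := by rw [← hb, ← hd]; exact hS.inc1 1 (by omega)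
  have i4 : ¬ lt d b := by rw [← hb, ← hd]; exact hS.inc2 1 (by omega)
  have i5 : ¬ lt a d := by rw [← ha, ← hd]; exact hS.inc01
  have i6 : ¬ lt d a := by rw [← ha, ← hd]; exact hS.inc02
  have nab : a ∉ (p b).support := fun h => by
    rcases sb _ h with h | h | h
    · exact hxa h.symm
    · exact hab.ne h
    · exact i1 h
  have nad : a ∉ (p d).support := fun h => by
    rcases sd _ h with h | h | h
    · exact hxa h.symm
    · exact hda.ne h.symm
    · exact i5 h
  have nba : b ∉ (p a).support := fun h => by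
    rcases sa _ h with h | h | h
    · exact hxb h.symm
    · exact hab.ne h.symm
    · exact i2 h
  have nbd : b ∉ (p d).support := fun h => by
    rcases sd _ h with h | h | h
    · exact hxb h.symm
    · exact hbd.ne h
    · exact i3 h
  have nda : d ∉ (p a).support := fun h => by
    rcases sa _ h with h | h | h
    · exact hxd h.symm
    · exact hda.ne h
    · exact i6 h
  have ndb : d ∉ (p b).support := fun h => by
    rcases sb _ h with h | h | h
    · exact hxd h.symm
    · exact hbd.ne h.symm
    · exact i4 h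
  let q1 : ∀ u : V, G.Walk x u := Function.update p a (((p b).concat hbd).concat hda)
  let q2 : ∀ u : V, G.Walk x u := Function.update q1 b (((p d).concat hda).concat hab)
  let q3 : ∀ u : V, G.Walk x u := Function.update q2 d (((p a).concat hab).concat hbd)
  have r3 : q3 d = ((p a).concat hab).concat hbd := Function.update_self ..
  have r2 : q3 b = ((p d).concat hda).concat hab := by
    rw [show q3 b = q2 b from Function.update_of_ne hbd.ne _ _]
    exact Function.update_self ..
  have r1 : q3 a = ((p b).concat hbd).concat hda := by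
    rw [show q3 a = q2 a from Function.update_of_ne hda.ne.symm _ _,
      show q2 a = q1 a from Function.update_of_ne hab.ne _ _]
    exact Function.update_self ..
  have r0 : ∀ u, u ≠ a → u ≠ b → u ≠ d → q3 u = p u := by
    intro u h1 h2 h3
    rw [show q3 u = q2 u from Function.update_of_ne h3 _ _,
      show q2 u = q1 u from Function.update_of_ne h2 _ _,
      show q1 u = p u from Function.update_of_ne h1 _ _]
  have s3 : ∀ z, z ∈ (q3 d).support ↔ (z ∈ (p a).support ∨ z = b) ∨ z = d := by
    intro z
    rw [r3, SimpleGraph.Walk.support_concat, List.mem_append, List.mem_singleton,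
      SimpleGraph.Walk.support_concat, List.mem_append, List.mem_singleton]
  have s2 : ∀ z, z ∈ (q3 b).support ↔ (z ∈ (p d).support ∨ z = a) ∨ z = b := by
    intro z
    rw [r2, SimpleGraph.Walk.support_concat, List.mem_append, List.mem_singleton,
      SimpleGraph.Walk.support_concat, List.mem_append, List.mem_singleton]
  have s1 : ∀ z, z ∈ (q3 a).support ↔ (z ∈ (p b).support ∨ z = d) ∨ z = a := by
    intro z
    rw [r1, SimpleGraph.Walk.support_concat, List.mem_append, List.mem_singleton,
      SimpleGraph.Walk.support_concat, List.mem_append, List.mem_singleton]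
  refine ⟨q3, fun u hu => ?_, fun u hu => ?_, fun z => ?_⟩
  · by_cases h1 : u = a
    · subst h1
      rw [r1]
      refine ((hp _ hxb).concat ndb hbd).concat ?_ hda
      rw [SimpleGraph.Walk.support_concat, List.mem_append, List.mem_singleton]
      rintro (h | h)
      · exact nab h
      · exact hda.ne h.symm
    · by_cases h2 : u = b
      · subst h2
        rw [r2]
        refine ((hp _ hxd).concat nad hda).concat ?_ hab
        rw [SimpleGraph.Walk.support_concat, List.mem_append, List.mem_singleton]
        rintro (h | h)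
        · exact nbd h
        · exact hab.ne h.symm
      · by_cases h3 : u = d
        · subst h3
          rw [r3]
          refine ((hp _ hxa).concat nba hab).concat ?_ hbd
          rw [SimpleGraph.Walk.support_concat, List.mem_append, List.mem_singleton]
          rintro (h | h)
          · exact nda h
          · exact hbd.ne h.symm
        · rw [r0 u h1 h2 h3]
          exact hp u hu
  · exact r0 u (by rw [← ha]; exact hu 0 (by omega)) (by rw [← hb]; exact hu 1 (by omega))
      (by rw [← hd]; exact hu 2 (by omega))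
  · have e0 : ∑ t ∈ range 3, (if z = c t then 1 else 0) =
        (if z = a then 1 else 0) + (if z = b then 1 else 0) + (if z = d then 1 else 0) := by
      rw [sum_range_succ, sum_range_succ, sum_range_succ, sum_range_zero, ha, hb, hd, zero_add]
    rw [e0]
    unfold ld
    rw [card_filter, card_filter, ← add_sum_erase univ _ (mem_univ a),
      ← add_sum_erase univ (fun u => if x ≠ u ∧ z ∈ (p u).support then 1 else 0) (mem_univ a),
      ← add_sum_erase (univ.erase a) _ (mem_erase.2 ⟨hab.ne.symm, mem_univ b⟩),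
      ← add_sum_erase (univ.erase a) (fun u => if x ≠ u ∧ z ∈ (p u).support then 1 else 0)
        (mem_erase.2 ⟨hab.ne.symm, mem_univ b⟩),
      ← add_sum_erase ((univ.erase a).erase b) _
        (mem_erase.2 ⟨hbd.ne.symm, mem_erase.2 ⟨hda.ne, mem_univ d⟩⟩),
      ← add_sum_erase ((univ.erase a).erase b)
        (fun u => if x ≠ u ∧ z ∈ (p u).support then 1 else 0)
        (mem_erase.2 ⟨hbd.ne.symm, mem_erase.2 ⟨hda.ne, mem_univ d⟩⟩)]
    have h3 : ∑ u ∈ ((univ.erase a).erase b).erase d,
        (if x ≠ u ∧ z ∈ (q3 u).support then 1 else 0) =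
        ∑ u ∈ ((univ.erase a).erase b).erase d, (if x ≠ u ∧ z ∈ (p u).support then 1 else 0) := by
      refine sum_congr rfl fun u hu => ?_
      rw [mem_erase, mem_erase, mem_erase] at hu
      rw [r0 u hu.2.2.1 hu.2.1 hu.1]
    rw [h3]
    have sa' : a ∈ (p a).support := SimpleGraph.Walk.end_mem_support _
    have sb' : b ∈ (p b).support := SimpleGraph.Walk.end_mem_support _
    have sd' : d ∈ (p d).support := SimpleGraph.Walk.end_mem_support _
    by_cases za : z = a
    · subst za
      simp only [s1, s2, s3, hxa, hxb, hxd, hab.ne, hda.ne.symm, sa', nab, nad, ne_eq,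
        not_false_eq_true, true_and, if_true, if_false, or_true, or_false]
      ring
    · by_cases zb : z = b
      · subst zb
        simp only [s1, s2, s3, hxa, hxb, hxd, hab.ne.symm, hbd.ne, sb', nba, nbd, ne_eq,
          not_false_eq_true, true_and, if_true, if_false, or_true, or_false]
        ring
      · by_cases zd : z = d
        · subst zd
          simp only [s1, s2, s3, hxa, hxb, hxd, hda.ne, hbd.ne.symm, sd', nda, ndb, ne_eq,
            not_false_eq_true, true_and, if_true, if_false, or_true, or_false]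
          ring
        · simp only [s1, s2, s3, hxa, hxb, hxd, za, zb, zd, ne_eq,
            not_false_eq_true, true_and, if_false, or_false]
          ring

/-- the cycle case -/
lemma cycle (x : V) (lt : V → V → Prop) (htr : ∀ a b c, lt a b → lt b c → lt a c)
    (hirr : ∀ a, ¬ lt a a) (p : ∀ u : V, G.Walk x u) (hp : ∀ u, x ≠ u → (p u).IsPath)
    (k : ℕ) (c : ℕ → V) (hS : Cyc x lt p k c) (hk : 3 ≤ k) :
    ∃ q : ∀ u : V, G.Walk x u, (∀ u, x ≠ u → (q u).IsPath) ∧
      (∀ u, (∀ t < k, u ≠ c t) → q u = p u) ∧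
      (∀ z, ld x q z = ld x p z + 2 * ∑ t ∈ range k, (if z = c t then 1 else 0)) := by
  classical
  rcases Nat.lt_or_ge 3 k with hk4 | hk4
  swap
  · obtain rfl : k = 3 := by omega
    exact triangle x lt p hp c hS
  -- the statement only depends on the set of vertices
  have key : ∀ c' : ℕ → V, Cyc x lt p k c' → (∀ t < k, ¬ lt (c' t) (c' 0)) →
      ¬ lt (c' (k - 1)) (c' 1) → (∀ z, (∃ t < k, z = c' t) ↔ ∃ t < k, z = c t) →
      ∃ q : ∀ u : V, G.Walk x u, (∀ u, x ≠ u → (q u).IsPath) ∧
      (∀ u, (∀ t < k, u ≠ c t) → q u = p u) ∧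
      (∀ z, ld x q z = ld x p z + 2 * ∑ t ∈ range k, (if z = c t then 1 else 0)) := by
    intro c' h1 h2 h3 h4
    obtain ⟨q, a1, a2, a3⟩ := cycle_core x lt htr hirr p hp k c' h1.toSeq hk4 h1.adj0 h1.inc01 h2 h3
    refine ⟨q, a1, fun u hu => a2 u fun t ht h => ?_, fun z => ?_⟩
    · obtain ⟨s, hs, h'⟩ := (h4 u).1 ⟨t, ht, h⟩
      exact hu s hs h'
    · rw [a3, cyc_sum h1 (by omega), cnt_eq h1.inj, cnt_eq hS.inj]
      congr 2
      by_cases h5 : ∃ t < k, z = c t
      · rw [if_pos h5, if_pos ((h4 z).2 h5)]
      · rw [if_neg h5, if_neg fun h => h5 ((h4 z).1 h)]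
  obtain ⟨m, hm, hmin⟩ : ∃ m < k, ∀ t < k, ¬ lt (c t) (c m) := by
    have hwf : WellFounded lt := by
      have _ : IsTrans V lt := ⟨htr⟩
      have _ : Std.Irrefl lt := ⟨hirr⟩
      exact Finite.wellFounded_of_trans_of_irrefl lt
    obtain ⟨a, ⟨m, hm, rfl⟩, ha⟩ := hwf.has_min {z | ∃ t < k, c t = z} ⟨c 0, 0, by omega, rfl⟩
    exact ⟨m, hm, fun t ht => ha _ ⟨t, ht, rfl⟩⟩
  obtain ⟨c', hc', h0, himg⟩ : ∃ c' : ℕ → V, Cyc x lt p k c' ∧ c' 0 = c m ∧
      ∀ z, (∃ t < k, z = c' t) ↔ ∃ t < k, z = c t := by
    refine ⟨_, hS.rot m hm, by rw [if_pos (by omega), Nat.add_zero], fun z => ⟨?_, ?_⟩⟩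
    · rintro ⟨t, ht, h⟩
      split_ifs at h with h1
      · exact ⟨m + t, h1, h⟩
      · exact ⟨m + t - k, by omega, h⟩
    · rintro ⟨t, ht, h⟩
      rcases Nat.lt_or_ge t m with h1 | h1
      · refine ⟨t + k - m, by omega, ?_⟩
        rw [if_neg (by omega), show m + (t + k - m) - k = t by omega]
        exact h
      · refine ⟨t - m, by omega, ?_⟩
        rw [if_pos (by omega), show m + (t - m) = t by omega]
        exact h
  have hmin' : ∀ t < k, ¬ lt (c' t) (c' 0) := by
    intro t ht h
    obtain ⟨s, hs, h'⟩ := (himg (c' t)).1 ⟨t, ht, rfl⟩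
    rw [h0, h'] at h
    exact hmin s hs h
  by_cases hor : lt (c' (k - 1)) (c' 1)
  · refine key _ (hc'.refl (by omega)) (fun t ht => ?_) ?_ (fun z => ?_)
    · rw [if_pos (rfl : (0 : ℕ) = 0)]
      split_ifs with h1
      · exact hmin' 0 (by omega)
      · exact hmin' _ (by omega)
    · rw [if_neg (show k - 1 ≠ 0 by omega), if_neg (show (1 : ℕ) ≠ 0 by omega),
        show k - (k - 1) = 1 by omega]
      intro h
      exact hirr _ (htr _ _ _ h hor)
    · rw [← himg z]
      constructor
      · rintro ⟨t, ht, h⟩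
        split_ifs at h with h1
        · exact ⟨0, by omega, h⟩
        · exact ⟨k - t, by omega, h⟩
      · rintro ⟨t, ht, h⟩
        rcases Nat.eq_zero_or_pos t with h1 | h1
        · refine ⟨0, by omega, ?_⟩
          rw [if_pos rfl, ← h1]
          exact h
        · refine ⟨k - t, by omega, ?_⟩
          rw [if_neg (by omega), show k - (k - t) = t by omega]
          exact h
  · exact key c' hc' hmin' hor himg

open Classical in
/-- the degree of a vertex in a set of edges -/
noncomputable def dg (g : SimpleGraph V) (z : V) : ℕ := (univ.filter fun w => g.Adj z w).card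

omit [DecidableEq V] in
lemma two_nbrs {g : SimpleGraph V} {u a b : V} (h : dg g u ≤ 2) (ha : g.Adj u a) (hb : g.Adj u b)
    (hab : a ≠ b) (w : V) (hw : g.Adj u w) : w = a ∨ w = b := by
  classical
  by_contra hno
  push Not at hno
  have h1 : ({a, b, w} : Finset V) ⊆ univ.filter fun w => g.Adj u w := by
    intro z hz
    simp only [mem_insert, mem_singleton] at hz
    rw [mem_filter]
    refine ⟨mem_univ _, ?_⟩
    rcases hz with rfl | rfl | rfl
    · exact ha
    · exact hb
    · exact hw
  have h2 := card_le_card h1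
  rw [card_eq_three.2 ⟨a, b, w, hab, fun h => hno.1 h.symm, fun h => hno.2 h.symm, rfl⟩] at h2
  unfold dg at h
  omega

omit [DecidableEq V] in
lemma dg_eq_of {g : SimpleGraph V} {u : V} [DecidableEq V] (S : Finset V)
    (h : ∀ w, g.Adj u w ↔ w ∈ S) : dg g u = S.card := by
  classical
  unfold dg
  congr 1
  ext w
  rw [mem_filter, h]
  exact ⟨fun h => h.2, fun h => ⟨mem_univ _, h⟩⟩

omit [DecidableEq V] in
lemma dg_zero {g : SimpleGraph V} {u : V} (h : ∀ w, ¬ g.Adj u w) : dg g u = 0 := by
  classical
  unfold dg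
  rw [card_eq_zero, filter_eq_empty_iff]
  exact fun w _ => h w

/-- a longest path of a set of edges of maximum degree two -/
lemma exists_comp (g : SimpleGraph V) (hne : ∃ u w, g.Adj u w) (hdeg : ∀ u, dg g u ≤ 2) :
    ∃ (l : ℕ) (c : ℕ → V), 1 ≤ l ∧ (∀ s t, s ≤ l → t ≤ l → c s = c t → s = t) ∧
      (∀ t < l, g.Adj (c t) (c (t + 1))) ∧
      (∀ t, 1 ≤ t → t < l → ∀ w, g.Adj (c t) w → w = c (t - 1) ∨ w = c (t + 1)) ∧
      (∀ w, g.Adj (c 0) w → w = c 1 ∨ (w = c l ∧ 2 ≤ l)) ∧
      (∀ w, g.Adj (c l) w → w = c (l - 1) ∨ (w = c 0 ∧ 2 ≤ l)) := by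
  classical
  let PS : ℕ → Prop := fun l => ∃ c : ℕ → V, (∀ s t, s ≤ l → t ≤ l → c s = c t → s = t) ∧
    (∀ t < l, g.Adj (c t) (c (t + 1)))
  have hP1 : PS 1 := by
    obtain ⟨u, w, h⟩ := hne
    refine ⟨fun t => if t = 0 then u else w, fun s t hs ht hst => ?_, fun t ht => ?_⟩
    · beta_reduce at hst
      split_ifs at hst with h1 h2 h2
      · omega
      · exact absurd hst h.ne
      · exact absurd hst.symm h.ne
      · omega
    · obtain rfl : t = 0 := by omega
      exact h
  have hbd : ∀ l, PS l → l + 1 ≤ Fintype.card V := by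
    rintro l ⟨c, h1, _⟩
    have h2 : ((range (l + 1)).image c).card = l + 1 := by
      rw [card_image_of_injOn, card_range]
      intro s hs t ht h
      rw [coe_range, Set.mem_Iio] at hs ht
      exact h1 s t (by omega) (by omega) h
    rw [← h2]
    exact card_le_univ _
  obtain ⟨l, hl1, hl, hmax⟩ : ∃ l, 1 ≤ l ∧ PS l ∧ ¬ PS (l + 1) := by
    have h1 := Nat.findGreatest_spec (P := PS) (n := Fintype.card V)
      (by have := hbd 1 hP1; omega : 1 ≤ Fintype.card V) hP1
    refine ⟨Nat.findGreatest PS (Fintype.card V), Nat.le_findGreatest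
      (by have := hbd 1 hP1; omega) hP1, h1, fun h2 => ?_⟩
    have h3 := hbd _ h2
    exact Nat.findGreatest_is_greatest (P := PS) (n := Fintype.card V)
      (k := Nat.findGreatest PS (Fintype.card V) + 1) (by omega) (by omega) h2
  obtain ⟨c, hinj, hadj⟩ := hl
  have F3 : ∀ t, 1 ≤ t → t < l → ∀ w, g.Adj (c t) w → w = c (t - 1) ∨ w = c (t + 1) := by
    intro t h1 h2 w hw
    refine two_nbrs (hdeg (c t)) ?_ (hadj t h2) ?_ w hw
    · have := hadj (t - 1) (by omega)
      rw [show t - 1 + 1 = t by omega] at this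
      exact this.symm
    · intro h
      have := hinj _ _ (by omega) (by omega) h
      omega
  have F1 : ∀ w, g.Adj (c 0) w → ∃ t ≤ l, w = c t := by
    intro w hw
    by_contra hno
    push Not at hno
    apply hmax
    refine ⟨fun t => if t = 0 then w else c (t - 1), fun s t hs ht hst => ?_, fun t ht => ?_⟩
    · beta_reduce at hst
      split_ifs at hst with h1 h2 h2
      · omega
      · exact absurd hst (hno _ (by omega))
      · exact absurd hst.symm (hno _ (by omega))
      · have := hinj _ _ (by omega) (by omega) hst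
        omega
    · beta_reduce
      rw [if_neg (show t + 1 ≠ 0 by omega), show t + 1 - 1 = t by omega]
      split_ifs with h1
      · rw [h1]
        exact hw.symm
      · have := hadj (t - 1) (by omega)
        rw [show t - 1 + 1 = t by omega] at this
        exact this
  have F2 : ∀ w, g.Adj (c l) w → ∃ t ≤ l, w = c t := by
    intro w hw
    by_contra hno
    push Not at hno
    apply hmax
    refine ⟨fun t => if t ≤ l then c t else w, fun s t hs ht hst => ?_, fun t ht => ?_⟩
    · beta_reduce at hst
      split_ifs at hst with h1 h2 h2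
      · exact hinj _ _ h1 h2 hst
      · exact absurd hst.symm (hno _ h1)
      · exact absurd hst (hno _ h2)
      · omega
    · beta_reduce
      rw [if_pos (show t ≤ l by omega)]
      split_ifs with h1
      · exact hadj t (by omega)
      · rw [show t = l by omega]
        exact hw
  refine ⟨l, c, hl1, hinj, hadj, F3, fun w hw => ?_, fun w hw => ?_⟩
  · obtain ⟨t, ht, rfl⟩ := F1 w hw
    rcases Nat.lt_or_ge t 2 with h1 | h1
    · rcases Nat.eq_zero_or_pos t with h2 | h2
      · rw [h2] at hw
        exact absurd rfl hw.ne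
      · exact Or.inl (by rw [show t = 1 by omega])
    · rcases Nat.lt_or_ge t l with h2 | h2
      · rcases F3 t (by omega) h2 _ hw.symm with h3 | h3
        · have := hinj _ _ (by omega) (by omega) h3
          omega
        · have := hinj _ _ (by omega) (by omega) h3
          omega
      · exact Or.inr ⟨by rw [show t = l by omega], by omega⟩
  · obtain ⟨t, ht, rfl⟩ := F2 w hw
    rcases Nat.lt_or_ge t l with h1 | h1
    · rcases Nat.eq_zero_or_pos t with h2 | h2
      · rcases Nat.lt_or_ge l 2 with h3 | h3
        · exact Or.inl (by rw [show t = l - 1 by omega])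
        · exact Or.inr ⟨by rw [h2], h3⟩
      · rcases F3 t (by omega) h1 _ hw.symm with h3 | h3
        · have := hinj _ _ (by omega) (by omega) h3
          omega
        · have := hinj _ _ (by omega) (by omega) h3
          exact Or.inl (by rw [show t = l - 1 by omega])
    · rw [show t = l by omega] at hw
      exact absurd rfl hw.ne

/-- the edges of `g` outside a set of vertices -/
def off (g : SimpleGraph V) (l : ℕ) (c : ℕ → V) : SimpleGraph V where
  Adj u w := g.Adj u w ∧ (∀ t ≤ l, u ≠ c t) ∧ ∀ t ≤ l, w ≠ c t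
  symm := ⟨fun _ _ h => ⟨h.1.symm, h.2.2, h.2.1⟩⟩
  loopless := ⟨fun _ h => h.1.ne rfl⟩

omit [DecidableEq V] in
lemma dg_off {g : SimpleGraph V} {l : ℕ} {c : ℕ → V}
    (hcl : ∀ t ≤ l, ∀ w, g.Adj (c t) w → ∃ s ≤ l, w = c s) (z : V) (hz : ∀ t ≤ l, z ≠ c t) :
    dg (off g l c) z = dg g z := by
  classical
  unfold dg
  congr 1
  ext w
  rw [mem_filter, mem_filter]
  refine ⟨fun h => ⟨h.1, h.2.1⟩, fun h => ⟨h.1, h.2, hz, fun t ht hw => ?_⟩⟩
  rw [hw] at h
  obtain ⟨s, hs, h'⟩ := hcl t ht z h.2.symm
  exact hz s hs h'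

omit [DecidableEq V] in
lemma dg_off_le {g : SimpleGraph V} {l : ℕ} {c : ℕ → V} (z : V) :
    dg (off g l c) z ≤ dg g z := by
  classical
  unfold dg
  apply card_le_card
  intro w hw
  rw [mem_filter] at hw ⊢
  exact ⟨hw.1, hw.2.1⟩

/-- **The degree two lemma**, for an order which contains the base paths. -/
theorem deg_two_lt (x : V) (lt : V → V → Prop) (htr : ∀ a b c, lt a b → lt b c → lt a c)
    (hirr : ∀ a, ¬ lt a a) (g : SimpleGraph V) (hg : g ≤ G) (hgx : ∀ u, ¬ g.Adj x u)
    (hinc : ∀ u w, g.Adj u w → ¬ lt u w) (hdeg : ∀ u, dg g u ≤ 2)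
    (p : ∀ u : V, G.Walk x u) (hp : ∀ u, x ≠ u → (p u).IsPath)
    (hsub : ∀ u, (∃ w, g.Adj u w) → ∀ z ∈ (p u).support, z = x ∨ z = u ∨ lt z u) :
    ∃ q : ∀ u : V, G.Walk x u, (∀ u, x ≠ u → (q u).IsPath) ∧
      (∀ u, (∀ w, ¬ g.Adj u w) → q u = p u) ∧
      (∀ z, ld x q z = ld x p z + dg g z) := by
  classical
  obtain ⟨N, hN⟩ : ∃ N, (univ.filter fun u => ∃ w, g.Adj u w).card = N := ⟨_, rfl⟩
  induction N using Nat.strong_induction_on generalizing g p with
  | _ N ih =>
  by_cases hne : ∃ u w, g.Adj u w
  swap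
  · push Not at hne
    exact ⟨p, hp, fun _ _ => rfl, fun z => by rw [dg_zero (hne z), add_zero]⟩
  obtain ⟨l, c, hl1, hinj, hadj, F3, F4, F5⟩ := exists_comp g hne hdeg
  have hcl : ∀ t ≤ l, ∀ w, g.Adj (c t) w → ∃ s ≤ l, w = c s := by
    intro t ht w hw
    rcases Nat.eq_zero_or_pos t with h1 | h1
    · rw [h1] at hw
      rcases F4 w hw with h2 | h2
      · exact ⟨1, hl1, h2⟩
      · exact ⟨l, le_rfl, h2.1⟩
    · rcases Nat.lt_or_ge t l with h3 | h3
      · rcases F3 t h1 h3 w hw with h2 | h2
        · exact ⟨t - 1, by omega, h2⟩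
        · exact ⟨t + 1, by omega, h2⟩
      · rw [show t = l by omega] at hw
        rcases F5 w hw with h2 | h2
        · exact ⟨l - 1, by omega, h2⟩
        · exact ⟨0, by omega, h2.1⟩
  have hnx : ∀ t ≤ l, x ≠ c t := by
    intro t ht h
    rcases Nat.lt_or_ge t l with h1 | h1
    · have := hadj t h1
      rw [← h] at this
      exact hgx _ this
    · have := hadj (l - 1) (by omega)
      rw [show l - 1 + 1 = t by omega, ← h] at this
      exact hgx _ this.symm
  have hnb : ∀ t ≤ l, ∃ w, g.Adj (c t) w := by
    intro t ht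
    rcases Nat.lt_or_ge t l with h1 | h1
    · exact ⟨_, hadj t h1⟩
    · have := hadj (l - 1) (by omega)
      rw [show l - 1 + 1 = t by omega] at this
      exact ⟨_, this.symm⟩
  have hS : Seq x lt p (l + 1) c :=
    ⟨fun s t hs ht => hinj s t (by omega) (by omega), fun t ht => hnx t (by omega),
      fun t ht => hg (hadj t (by omega)), fun t ht => hinc _ _ (hadj t (by omega)),
      fun t ht => hinc _ _ (hadj t (by omega)).symm, fun t ht => hsub _ (hnb t (by omega))⟩
  -- the component
  obtain ⟨q1, a1, a2, a3⟩ : ∃ q : ∀ u : V, G.Walk x u, (∀ u, x ≠ u → (q u).IsPath) ∧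
      (∀ u, (∀ t ≤ l, u ≠ c t) → q u = p u) ∧
      (∀ z, ld x q z = ld x p z + if ∃ t ≤ l, z = c t then dg g z else 0) := by
    by_cases hcyc : g.Adj (c l) (c 0) ∧ 2 ≤ l
    · obtain ⟨q1, a1, a2, a3⟩ := cycle x lt htr hirr p hp (l + 1) c
        ⟨hS, by rw [Nat.add_sub_cancel]; exact hg hcyc.1,
          by rw [Nat.add_sub_cancel]; exact hinc _ _ hcyc.1.symm,
          by rw [Nat.add_sub_cancel]; exact hinc _ _ hcyc.1⟩ (by omega)
      refine ⟨q1, a1, fun u hu => a2 u fun t ht => hu t (by omega), fun z => ?_⟩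
      rw [a3, cnt_eq hS.inj]
      congr 1
      by_cases hz : ∃ t ≤ l, z = c t
      · rw [if_pos hz, if_pos (by obtain ⟨t, ht, h⟩ := hz; exact ⟨t, by omega, h⟩)]
        obtain ⟨t, ht, h⟩ := hz
        obtain ⟨a, b, hab, hS2⟩ : ∃ a b, a ≠ b ∧ ∀ w, g.Adj z w ↔ w ∈ ({a, b} : Finset V) := by
          rcases Nat.eq_zero_or_pos t with h1 | h1
          · refine ⟨c 1, c l, fun h' => ?_, fun w => ?_⟩
            · have := hinj _ _ (by omega) (by omega) h'
              omega
            · rw [h, h1, mem_insert, mem_singleton]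
              constructor
              · intro hw
                rcases F4 w hw with h2 | h2
                · exact Or.inl h2
                · exact Or.inr h2.1
              · rintro (h2 | h2)
                · rw [h2]; exact hadj 0 (by omega)
                · rw [h2]; exact hcyc.1.symm
          · rcases Nat.lt_or_ge t l with h3 | h3
            · refine ⟨c (t - 1), c (t + 1), fun h' => ?_, fun w => ?_⟩
              · have := hinj _ _ (by omega) (by omega) h'
                omega
              · rw [h, mem_insert, mem_singleton]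
                refine ⟨F3 t h1 h3 w, ?_⟩
                rintro (h2 | h2)
                · rw [h2]
                  have := hadj (t - 1) (by omega)
                  rw [show t - 1 + 1 = t by omega] at this
                  exact this.symm
                · rw [h2]; exact hadj t h3
            · have htl : t = l := by omega
              refine ⟨c (l - 1), c 0, fun h' => ?_, fun w => ?_⟩
              · have := hinj _ _ (by omega) (by omega) h'
                omega
              · rw [h, htl, mem_insert, mem_singleton]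
                constructor
                · intro hw
                  rcases F5 w hw with h2 | h2
                  · exact Or.inl h2
                  · exact Or.inr h2.1
                · rintro (h2 | h2)
                  · rw [h2]
                    have := hadj (l - 1) (by omega)
                    rw [show l - 1 + 1 = l by omega] at this
                    exact this.symm
                  · rw [h2]; exact hcyc.1
        rw [dg_eq_of _ hS2, card_pair hab]
      · rw [if_neg hz, if_neg fun h => hz (by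
          obtain ⟨t, ht, h'⟩ := h
          exact ⟨t, by omega, h'⟩)]
    · obtain ⟨q1, a1, a2, _, a3⟩ := path_prefix x lt htr hirr p hp (l + 1) c hS l (by omega)
        (fun h => by omega)
      refine ⟨q1, a1, a2, fun z => ?_⟩
      rw [a3]
      congr 1
      have e1 : ∑ t ∈ range l, ind z (c t) (c (t + 1)) =
          ∑ t ∈ range l, (if z = c t then 1 else 0) +
          ∑ t ∈ range l, (if z = c (t + 1) then 1 else 0) := by
        rw [← sum_add_distrib]
        refine sum_congr rfl fun t ht => ind_eq (fun h => ?_) z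
        rw [mem_range] at ht
        have := hinj _ _ (by omega) (by omega) h
        omega
      have e2 := cnt_eq (k := l) (c := c) (fun s t hs ht => hinj s t (by omega) (by omega)) z
      have e3 := cnt_eq (k := l) (c := fun t => c (t + 1)) (fun s t hs ht h => by
        have := hinj _ _ (by omega) (by omega) h
        omega) z
      rw [e1, e2, e3]
      by_cases hz : ∃ t ≤ l, z = c t
      · rw [if_pos hz]
        obtain ⟨t, ht, h⟩ := hz
        have i1 : (∃ s < l, z = c s) ↔ t < l := by
          constructor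
          · rintro ⟨s, hs, h'⟩
            have := hinj t s ht (by omega) (h.symm.trans h')
            omega
          · exact fun h' => ⟨t, h', h⟩
        have i2 : (∃ s < l, z = c (s + 1)) ↔ 1 ≤ t := by
          constructor
          · rintro ⟨s, hs, h'⟩
            have := hinj t (s + 1) ht (by omega) (h.symm.trans h')
            omega
          · intro h'
            refine ⟨t - 1, by omega, ?_⟩
            rw [show t - 1 + 1 = t by omega]
            exact h
        simp only [i1, i2]
        rcases Nat.eq_zero_or_pos t with h1 | h1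
        · rw [dg_eq_of {c 1} fun w => ?_, card_singleton, if_pos (by omega), if_neg (by omega)]
          rw [h, h1, mem_singleton]
          constructor
          · intro hw
            rcases F4 w hw with h2 | h2
            · exact h2
            · rw [h2.1] at hw
              exact absurd ⟨hw.symm, h2.2⟩ hcyc
          · intro h2
            rw [h2]; exact hadj 0 (by omega)
        · rcases Nat.lt_or_ge t l with h3 | h3
          · rw [dg_eq_of {c (t - 1), c (t + 1)} fun w => ?_, card_pair, if_pos h3,
              if_pos (show 1 ≤ t by omega)]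
            · intro h'
              have := hinj _ _ (by omega) (by omega) h'
              omega
            · rw [h, mem_insert, mem_singleton]
              refine ⟨F3 t h1 h3 w, ?_⟩
              rintro (h2 | h2)
              · rw [h2]
                have := hadj (t - 1) (by omega)
                rw [show t - 1 + 1 = t by omega] at this
                exact this.symm
              · rw [h2]; exact hadj t h3
          · rw [dg_eq_of {c (l - 1)} fun w => ?_, card_singleton, if_neg (by omega),
              if_pos (by omega)]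
            rw [h, show t = l by omega, mem_singleton]
            constructor
            · intro hw
              rcases F5 w hw with h2 | h2
              · exact h2
              · rw [h2.1] at hw
                exact absurd ⟨hw, h2.2⟩ hcyc
            · intro h2
              rw [h2]
              have := hadj (l - 1) (by omega)
              rw [show l - 1 + 1 = l by omega] at this
              exact this.symm
      · rw [if_neg hz, if_neg, if_neg]
        · rintro ⟨s, hs, h'⟩
          exact hz ⟨s + 1, by omega, h'⟩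
        · rintro ⟨s, hs, h'⟩
          exact hz ⟨s, by omega, h'⟩
  -- the rest
  have hlt : (univ.filter fun u => ∃ w, (off g l c).Adj u w).card < N := by
    rw [← hN]
    apply card_lt_card
    rw [ssubset_iff_of_subset]
    · refine ⟨c 0, ?_, ?_⟩
      · rw [mem_filter]
        exact ⟨mem_univ _, hnb 0 (by omega)⟩
      · rw [mem_filter]
        rintro ⟨_, w, h⟩
        exact h.2.1 0 (by omega) rfl
    · intro u hu
      rw [mem_filter] at hu ⊢
      obtain ⟨_, w, h⟩ := hu
      exact ⟨mem_univ _, w, h.1⟩
  obtain ⟨q2, b1, b2, b3⟩ := ih _ hlt (off g l c) (fun u w h => hg h.1) (fun u h => hgx u h.1)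
    (fun u w h => hinc u w h.1) (fun u => (dg_off_le u).trans (hdeg u)) q1 a1
    (fun u hu => by
      obtain ⟨w, h⟩ := hu
      rw [a2 u h.2.1]
      exact hsub u ⟨w, h.1⟩) rfl
  refine ⟨q2, b1, fun u hu => ?_, fun z => ?_⟩
  · rw [b2 u fun w h => hu w h.1]
    refine a2 u fun t ht h => ?_
    obtain ⟨w, hw⟩ := hnb t ht
    rw [← h] at hw
    exact hu w hw
  · rw [b3, a3]
    by_cases hz : ∃ t ≤ l, z = c t
    · rw [if_pos hz, dg_zero (g := off g l c), add_zero]
      intro w h
      obtain ⟨t, ht, h'⟩ := hz
      exact h.2.1 t ht h'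
    · rw [if_neg hz, add_zero, dg_off hcl z]
      intro t ht h
      exact hz ⟨t, ht, h⟩

/-- **The degree two lemma.** One root `x`, geodesic base paths `p z`; a set `A` of edges off the
root, none of which is an edge of the form `u w` with `u` on `p w` or `w` on `p u`, at most two at
every vertex.  Then all these edges can be toggled: there are simple paths such that every vertex
`v` is on `deg_A v` more of them; vertices without `A`-edges keep their path. -/
theorem deg_two (x : V) (p : ∀ z : V, G.Walk x z) (hp : ∀ z, (p z).length = G.dist x z)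
    (A : SimpleGraph V) [DecidableRel A.Adj]
    (hA : ∀ u w, A.Adj u w → G.Adj u w ∧ u ≠ x ∧ w ≠ x ∧ u ∉ (p w).support ∧ w ∉ (p u).support)
    (hdeg : ∀ v, (univ.filter fun w => A.Adj v w).card ≤ 2) :
    ∃ q : ∀ z : V, G.Walk x z, (∀ z, x ≠ z → (q z).IsPath) ∧
      (∀ z, (∀ w, ¬ A.Adj z w) → q z = p z) ∧
      ∀ v, (univ.filter fun z => x ≠ z ∧ v ∈ (q z).support).card =
        (univ.filter fun z => x ≠ z ∧ v ∈ (p z).support).card +
          (univ.filter fun w => A.Adj v w).card := by
  classical
  let r : V → V → Prop := fun u z => u ∈ (p z).support ∧ u ≠ z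
  have hpp : ∀ z, (p z).IsPath := fun z => SimpleGraph.Walk.isPath_of_length_eq_dist _ (hp z)
  have hr : ∀ u z, r u z → G.dist x u < G.dist x z := by
    intro u z h
    have h1 := SimpleGraph.dist_le ((p z).takeUntil u h.1)
    have h2 := SimpleGraph.Walk.length_takeUntil_lt_length h.1 h.2
    rw [← hp z]
    omega
  have hT : ∀ u z, Relation.TransGen r u z → G.dist x u < G.dist x z := by
    intro u z h
    induction h with
    | single h => exact hr _ _ h
    | tail _ h ih => exact ih.trans (hr _ _ h)
  have hdg : ∀ v, dg A v = (univ.filter fun w => A.Adj v w).card := by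
    intro v
    unfold dg
    congr
  obtain ⟨q, q1, q2, q3⟩ := deg_two_lt x (Relation.TransGen r)
    (fun a b c h1 h2 => h1.trans h2) (fun a h => lt_irrefl _ (hT a a h)) A
    (fun u w h => (hA u w h).1) (fun u h => (hA x u h).2.1 rfl)
    (fun u w h h' => by
      obtain ⟨h1, _, _, h2, _⟩ := hA u w h
      have h3 : G.dist x w ≤ G.dist x u + 1 := by
        have := SimpleGraph.dist_le ((p u).concat h1)
        rw [SimpleGraph.Walk.length_concat, hp u] at this
        exact this
      rcases Relation.TransGen.tail'_iff.1 h' with ⟨b, hb1, hb2⟩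
      rcases Relation.reflTransGen_iff_eq_or_transGen.1 hb1 with h4 | h4
      · rw [h4] at hb2
        exact h2 hb2.1
      · have h5 := hT _ _ h4
        have h6 := hr _ _ hb2
        omega)
    (fun u => by rw [hdg]; exact hdeg u) p (fun z _ => hpp z)
    (fun u _ z hz => by
      by_cases h : z = u
      · exact Or.inr (Or.inl h)
      · exact Or.inr (Or.inr (Relation.TransGen.single ⟨hz, h⟩)))
  refine ⟨q, q1, q2, fun v => ?_⟩
  have := q3 v
  rw [hdg] at this
  exact this

/-- the same for a symmetric relation -/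
theorem deg_two_rel (x : V) (p : ∀ z : V, G.Walk x z) (hp : ∀ z, (p z).length = G.dist x z)
    (A : V → V → Prop) [DecidableRel A] (hsymm : ∀ u w, A u w → A w u)
    (hA : ∀ u w, A u w → G.Adj u w ∧ u ≠ x ∧ w ≠ x ∧ u ∉ (p w).support ∧ w ∉ (p u).support)
    (hdeg : ∀ v, (univ.filter fun w => A v w).card ≤ 2) :
    ∃ q : ∀ z : V, G.Walk x z, (∀ z, x ≠ z → (q z).IsPath) ∧
      (∀ z, (∀ w, ¬ A z w) → q z = p z) ∧
      ∀ v, (univ.filter fun z => x ≠ z ∧ v ∈ (q z).support).card =
        (univ.filter fun z => x ≠ z ∧ v ∈ (p z).support).card +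
          (univ.filter fun w => A v w).card := by
  let A' : SimpleGraph V :=
    { Adj := A
      symm := ⟨hsymm⟩
      loopless := ⟨fun u h => (hA u u h).1.ne rfl⟩ }
  let _ : DecidableRel A'.Adj := inferInstanceAs (DecidableRel A)
  exact deg_two x p hp A' hA hdeg

end Pool.Agent.UPS.DegTwo
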