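import Mathlib
import Pool.Agent.Lib.MP_876e19_co.Defs

/-!
# Directed cycle trick (MP_876e19_co, block C, step 1)

`σ` is a permutation of the vertices moving every vertex to a neighbour, all cycles of `σ` have
length `b`; `M` is a perfect matching (involution).  A route is a list of exit ports; inside every
cycle a path moves clockwise (along `σ`).  If `R y x` is the reversed route of `R x y`, the loads
depend only on the numbers of routes using the matching edges and on the numbers of coincidences.
-/

set_option autoImplicit false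
set_option linter.unusedSectionVars false

namespace Pool.Agent.UPS.Cyc

open Finset

variable {V : Type} [Fintype V] [DecidableEq V]

/-- number of clockwise steps from `a` to `c` -/
noncomputable def idx (σ : Equiv.Perm V) (a c : V) : ℕ :=
  open Classical in if h : ∃ i : ℕ, (σ ^ i) a = c then Nat.find h else 0

/-- the clockwise arc from `a` to `c` -/
noncomputable def arcL (σ : Equiv.Perm V) (a c : V) : List V :=
  (List.range (idx σ a c + 1)).map fun j => (σ ^ j) a

/-- the segments of a route -/
def segs (M : V → V) : V → List V → V → List (V × V)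
  | x, [], y => [(x, y)]
  | x, p :: R, y => (x, p) :: segs M (M p) R y

/-- well-formed route from `x` to `y` -/
structure WF (σ : Equiv.Perm V) (M : V → V) (x : V) (R : List V) (y : V) : Prop where
  same : ∀ s ∈ segs M x R y, σ.SameCycle s.1 s.2
  dist : (segs M x R y).Pairwise fun s t => ¬ σ.SameCycle s.1 t.1

section idx

variable {σ : Equiv.Perm V} {b : ℕ}

lemma same_pow (hb : 0 < b) (hbv : ∀ v, (σ ^ b) v = v) {a c : V} (h : σ.SameCycle a c) :
    ∃ i < b, (σ ^ i) a = c := by
  obtain ⟨i, hi⟩ := h
  have hperm : σ ^ b = 1 := by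
    ext v
    rw [hbv v]
    rfl
  refine ⟨(i % (b : ℤ)).toNat, ?_, ?_⟩
  · have h1 : i % (b : ℤ) < b := Int.emod_lt_of_pos _ (by exact_mod_cast hb)
    have h0 : 0 ≤ i % (b : ℤ) := Int.emod_nonneg _ (by exact_mod_cast hb.ne')
    omega
  · have h0 : 0 ≤ i % (b : ℤ) := Int.emod_nonneg _ (by exact_mod_cast hb.ne')
    have h2 : σ ^ (i % (b : ℤ)).toNat = σ ^ i := by
      rw [← zpow_natCast, Int.toNat_of_nonneg h0]
      conv_rhs => rw [← Int.emod_add_mul_ediv i b]
      rw [zpow_add, zpow_mul, zpow_natCast, hperm, one_zpow, mul_one]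
    rw [h2, hi]

lemma idx_spec (hb : 0 < b) (hbv : ∀ v, (σ ^ b) v = v) {a c : V} (h : σ.SameCycle a c) :
    (σ ^ (idx σ a c)) a = c ∧ idx σ a c < b := by
  classical
  obtain ⟨i, hi, hic⟩ := same_pow hb hbv h
  have hex : ∃ i : ℕ, (σ ^ i) a = c := ⟨i, hic⟩
  have h1 : idx σ a c = Nat.find hex := by
    unfold idx
    rw [dif_pos hex]
  rw [h1]
  exact ⟨Nat.find_spec hex, lt_of_le_of_lt (Nat.find_min' hex hic) hi⟩

lemma pow_inj (hbi : ∀ v, ∀ i, 0 < i → i < b → (σ ^ i) v ≠ v) {a : V} {i j : ℕ} (hi : i < b)
    (hj : j < b) (h : (σ ^ i) a = (σ ^ j) a) : i = j := by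
  by_contra hne
  rcases lt_or_gt_of_ne hne with hlt | hlt
  · have h1 : (σ ^ i) ((σ ^ (j - i)) a) = (σ ^ i) a := by
      rw [← Equiv.Perm.mul_apply, ← pow_add, Nat.add_sub_cancel' hlt.le, h]
    exact hbi a (j - i) (by omega) (by omega) ((σ ^ i).injective h1)
  · have h1 : (σ ^ j) ((σ ^ (i - j)) a) = (σ ^ j) a := by
      rw [← Equiv.Perm.mul_apply, ← pow_add, Nat.add_sub_cancel' hlt.le, h]
    exact hbi a (i - j) (by omega) (by omega) ((σ ^ j).injective h1)

lemma idx_eq (hb : 0 < b) (hbv : ∀ v, (σ ^ b) v = v)
    (hbi : ∀ v, ∀ i, 0 < i → i < b → (σ ^ i) v ≠ v) {a c : V} {i : ℕ} (hi : i < b)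
    (h : (σ ^ i) a = c) : idx σ a c = i := by
  have hs : σ.SameCycle a c := ⟨i, by rw [zpow_natCast]; exact h⟩
  obtain ⟨h1, h2⟩ := idx_spec hb hbv hs
  exact pow_inj hbi h2 hi (h1.trans h.symm)

lemma mem_arcL (hb : 0 < b) (hbv : ∀ v, (σ ^ b) v = v)
    (hbi : ∀ v, ∀ i, 0 < i → i < b → (σ ^ i) v ≠ v) {a c v : V} (h : σ.SameCycle a c) :
    v ∈ arcL σ a c ↔ σ.SameCycle a v ∧ idx σ a v ≤ idx σ a c := by
  obtain ⟨h1, h2⟩ := idx_spec hb hbv h
  unfold arcL
  rw [List.mem_map]
  constructor
  · rintro ⟨j, hj, rfl⟩
    rw [List.mem_range] at hj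
    refine ⟨⟨j, by rw [zpow_natCast]⟩, ?_⟩
    rw [idx_eq hb hbv hbi (i := j) (by omega) rfl]
    omega
  · rintro ⟨h3, h4⟩
    obtain ⟨h5, h6⟩ := idx_spec hb hbv h3
    exact ⟨idx σ a v, List.mem_range.2 (by omega), h5⟩

lemma nodup_arcL (hb : 0 < b) (hbv : ∀ v, (σ ^ b) v = v)
    (hbi : ∀ v, ∀ i, 0 < i → i < b → (σ ^ i) v ≠ v) {a c : V} (h : σ.SameCycle a c) :
    (arcL σ a c).Nodup := by
  obtain ⟨h1, h2⟩ := idx_spec hb hbv h
  unfold arcL
  refine List.Nodup.map_on ?_ List.nodup_range
  intro i hi j hj hij
  rw [List.mem_range] at hi hj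
  exact pow_inj hbi (by omega) (by omega) hij

/-- the two arcs between two vertices of a cycle cover the cycle once, the ends twice -/
lemma arc_two (hb : 0 < b) (hbv : ∀ v, (σ ^ b) v = v)
    (hbi : ∀ v, ∀ i, 0 < i → i < b → (σ ^ i) v ≠ v) {a c : V} (h : σ.SameCycle a c) (v : V) :
    (arcL σ a c).count v + (arcL σ c a).count v =
      (if σ.SameCycle v a ∧ a ≠ c then 1 else 0) + (if v = a then 1 else 0)
        + (if v = c then 1 else 0) := by
  have hn1 := nodup_arcL hb hbv hbi h
  have hn2 := nodup_arcL hb hbv hbi h.symm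
  have hm1 := mem_arcL (v := v) hb hbv hbi h
  have hm2 := mem_arcL (v := v) hb hbv hbi h.symm
  rw [List.Nodup.count hn1, List.Nodup.count hn2]
  obtain ⟨hi1, hi2⟩ := idx_spec hb hbv h
  by_cases hv : σ.SameCycle a v
  · obtain ⟨hk1, hk2⟩ := idx_spec hb hbv hv
    have hcv : σ.SameCycle c v := h.symm.trans hv
    by_cases hac : a = c
    · subst hac
      have h0 : idx σ a a = 0 := idx_eq hb hbv hbi hb (by simp)
      rw [h0] at hm1
      by_cases hva : v = a
      · subst hva
        simp [hm1, h0, h]
      · have hk0 : idx σ a v ≠ 0 := by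
          intro h00
          rw [h00] at hk1
          exact hva (by simpa using hk1.symm)
        have : ¬ v ∈ arcL σ a a := by
          rw [hm1]
          omega
        simp [this, hva]
    · have hi0 : idx σ a c ≠ 0 := by
        intro h00
        rw [h00] at hi1
        exact hac (by simpa using hi1)
      set i := idx σ a c with hi
      set k := idx σ a v with hk
      have hca : idx σ c a = b - i := by
        refine idx_eq hb hbv hbi (by omega) ?_
        rw [← hi1, ← Equiv.Perm.mul_apply, ← pow_add, Nat.sub_add_cancel hi2.le, hbv]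
      rcases lt_or_ge k i with hlt | hge
      · have hcv' : idx σ c v = k + b - i := by
          refine idx_eq hb hbv hbi (by omega) ?_
          rw [← hi1, ← Equiv.Perm.mul_apply, ← pow_add, Nat.sub_add_cancel (by omega), pow_add,
            Equiv.Perm.mul_apply, hbv, hk1]
        rw [hcv', hca] at hm2
        have e1 : v ∈ arcL σ a c := hm1.2 ⟨hv, by omega⟩
        have hvc : v ≠ c := by
          intro hvc
          rw [hvc] at hk
          omega
        by_cases hva : v = a
        · have : k = 0 := by
            rw [hk, hva]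
            exact idx_eq hb hbv hbi hb (by simp)
          have e2 : v ∈ arcL σ c a := hm2.2 ⟨hcv, by omega⟩
          rw [if_pos e1, if_pos e2, if_pos ⟨hv.symm, hac⟩, if_pos hva, if_neg hvc]
        · have hk0 : k ≠ 0 := by
            intro h00
            rw [h00] at hk1
            exact hva (by simpa using hk1.symm)
          have e2 : ¬ v ∈ arcL σ c a := by
            rw [hm2]
            omega
          rw [if_pos e1, if_neg e2, if_pos ⟨hv.symm, hac⟩, if_neg hva, if_neg hvc]
      · have hcv' : idx σ c v = k - i := by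
          refine idx_eq hb hbv hbi (by omega) ?_
          rw [← hi1, ← Equiv.Perm.mul_apply, ← pow_add, Nat.sub_add_cancel hge, hk1]
        rw [hcv', hca] at hm2
        have e2 : v ∈ arcL σ c a := hm2.2 ⟨hcv, by omega⟩
        have hva : v ≠ a := by
          intro hva
          have : k = 0 := by
            rw [hk, hva]
            exact idx_eq hb hbv hbi hb (by simp)
          omega
        by_cases hvc : v = c
        · have e1 : v ∈ arcL σ a c := hm1.2 ⟨hv, by rw [hk, hvc]⟩
          rw [if_pos e1, if_pos e2, if_pos ⟨hv.symm, hac⟩, if_neg hva, if_pos hvc]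
        · have hki : k ≠ i := by
            intro h00
            rw [h00, hi1] at hk1
            exact hvc hk1.symm
          have e1 : ¬ v ∈ arcL σ a c := by
            rw [hm1]
            omega
          rw [if_neg e1, if_pos e2, if_pos ⟨hv.symm, hac⟩, if_neg hva, if_neg hvc]
  · have hcv : ¬ σ.SameCycle c v := fun h' => hv (h.trans h')
    have e1 : ¬ v ∈ arcL σ a c := by
      rw [hm1]
      exact fun h' => hv h'.1
    have e2 : ¬ v ∈ arcL σ c a := by
      rw [hm2]
      exact fun h' => hcv h'.1
    have hva : v ≠ a := by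
      rintro rfl
      exact hv (Equiv.Perm.SameCycle.refl _ _)
    have hvc : v ≠ c := by
      rintro rfl
      exact hv h
    rw [if_neg e1, if_neg e2, if_neg (fun h' => hv h'.1.symm), if_neg hva, if_neg hvc]

end idx

section walk

variable {σ : Equiv.Perm V} {M : V → V} {b : ℕ} {G : SimpleGraph V}

lemma exists_arc_walk (hσ : ∀ v, G.Adj v (σ v)) (a : V) (i : ℕ) :
    ∃ w : G.Walk a ((σ ^ i) a),
      w.support = (List.range (i + 1)).map fun j => (σ ^ j) a := by
  induction i with
  | zero =>
    refine ⟨SimpleGraph.Walk.nil.copy rfl (by simp), ?_⟩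
    simp
  | succ i ih =>
    obtain ⟨w, hw⟩ := ih
    have h1 : G.Adj ((σ ^ i) a) ((σ ^ (i + 1)) a) := by
      rw [pow_succ', Equiv.Perm.mul_apply]
      exact hσ _
    refine ⟨w.concat h1, ?_⟩
    rw [SimpleGraph.Walk.support_concat, hw, List.range_succ (n := i + 1), List.map_append]
    simp

lemma exists_arcL_walk (hσ : ∀ v, G.Adj v (σ v)) (hb : 0 < b) (hbv : ∀ v, (σ ^ b) v = v)
    {a c : V} (h : σ.SameCycle a c) : ∃ w : G.Walk a c, w.support = arcL σ a c := by
  obtain ⟨w, hw⟩ := exists_arc_walk hσ a (idx σ a c)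
  have h1 := (idx_spec hb hbv h).1
  refine ⟨w.copy rfl h1, ?_⟩
  rw [SimpleGraph.Walk.support_copy, hw]
  rfl

lemma exists_route_walk (hσ : ∀ v, G.Adj v (σ v)) (hM : ∀ v, G.Adj v (M v)) (hb : 0 < b)
    (hbv : ∀ v, (σ ^ b) v = v) (y : V) (R : List V) : ∀ x : V,
    (∀ s ∈ segs M x R y, σ.SameCycle s.1 s.2) →
    ∃ w : G.Walk x y, w.support = (segs M x R y).flatMap fun s => arcL σ s.1 s.2 := by
  induction R with
  | nil =>
    intro x h
    obtain ⟨w, hw⟩ := exists_arcL_walk hσ hb hbv (h (x, y) (by simp [segs]))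
    exact ⟨w, by simp [segs, hw]⟩
  | cons p R ih =>
    intro x h
    obtain ⟨w1, hw1⟩ := exists_arcL_walk hσ hb hbv (h (x, p) (by simp [segs]))
    obtain ⟨w2, hw2⟩ := ih (M p) (fun s hs => h s (by simp [segs, hs]))
    refine ⟨w1.append (SimpleGraph.Walk.cons (hM p) w2), ?_⟩
    rw [SimpleGraph.Walk.support_append, SimpleGraph.Walk.support_cons, List.tail_cons, hw1, hw2]
    simp [segs]

lemma segs_append (p y : V) (R : List V) : ∀ x : V,
    segs M x (R ++ [p]) y = segs M x R p ++ [(M p, y)] := by
  induction R with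
  | nil => intro x; simp [segs]
  | cons q R ih => intro x; simp [segs, ih]

lemma segs_reverse (hMM : ∀ v, M (M v) = v) (y : V) (R : List V) : ∀ x : V,
    segs M y (R.map M).reverse x = ((segs M x R y).map Prod.swap).reverse := by
  induction R with
  | nil => intro x; simp [segs]
  | cons p R ih =>
    intro x
    rw [List.map_cons, List.reverse_cons, segs_append, hMM]
    simp only [segs, List.map_cons, List.reverse_cons, Prod.swap_prod_mk]
    rw [ih (M p)]

lemma nodup_route (hb : 0 < b) (hbv : ∀ v, (σ ^ b) v = v)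
    (hbi : ∀ v, ∀ i, 0 < i → i < b → (σ ^ i) v ≠ v) {x y : V} {R : List V}
    (h : WF σ M x R y) :
    ((segs M x R y).flatMap fun s => arcL σ s.1 s.2).Nodup := by
  rw [List.nodup_flatMap]
  refine ⟨fun s hs => nodup_arcL hb hbv hbi (h.same s hs), ?_⟩
  have h1 := h.dist
  refine List.Pairwise.imp_of_mem ?_ h1
  intro s t hs ht hst
  simp only [Function.onFun]
  rw [List.disjoint_left]
  intro v hv1 hv2
  rw [mem_arcL hb hbv hbi (h.same s hs)] at hv1
  rw [mem_arcL hb hbv hbi (h.same t ht)] at hv2
  exact hst (hv1.1.trans hv2.1.symm)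

/-- number of times `v` is a port of the route -/
def port (M : V → V) (R : List V) (v : V) : ℕ := R.count v + (R.map M).count v

/-- the sum of the two coverages of a route and its reverse, at `v` -/
lemma count_two (hb : 0 < b) (hbv : ∀ v, (σ ^ b) v = v)
    (hbi : ∀ v, ∀ i, 0 < i → i < b → (σ ^ i) v ≠ v) (y v : V) (R : List V) : ∀ x : V,
    (∀ s ∈ segs M x R y, σ.SameCycle s.1 s.2) →
    ((segs M x R y).flatMap fun s => arcL σ s.1 s.2).count v
      + (((segs M x R y).map Prod.swap).reverse.flatMap fun s => arcL σ s.1 s.2).count v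
      = ((segs M x R y).map fun s => if σ.SameCycle v s.1 ∧ s.1 ≠ s.2 then 1 else 0).sum
        + (if v = x then 1 else 0) + (if v = y then 1 else 0) + port M R v := by
  induction R with
  | nil =>
    intro x h
    have h1 := arc_two hb hbv hbi (h (x, y) (by simp [segs])) v
    simp only [segs, List.map_cons, List.map_nil, List.reverse_cons, List.reverse_nil,
      List.nil_append, List.flatMap_cons, List.flatMap_nil, List.append_nil, Prod.swap_prod_mk,
      List.sum_cons, List.sum_nil, port, List.count_nil]
    rw [h1]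
    ring
  | cons p R ih =>
    intro x h
    have h1 := arc_two hb hbv hbi (h (x, p) (by simp [segs])) v
    have h2 := ih (M p) (fun s hs => h s (by simp [segs, hs]))
    simp only [segs, List.map_cons, List.reverse_cons, List.flatMap_cons, List.flatMap_append,
      List.flatMap_nil, List.append_nil, Prod.swap_prod_mk, List.sum_cons, List.count_append,
      port, List.count_cons] at h1 h2 ⊢
    have e1 : (if v = p then 1 else 0) = (if (p == v) = true then 1 else 0) := by
      by_cases hvp : v = p
      · subst hvp; simp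
      · simp [hvp, Ne.symm hvp]
    have e2 : (if v = M p then 1 else 0) = (if (M p == v) = true then 1 else 0) := by
      by_cases hvp : v = M p
      · subst hvp; simp
      · simp [hvp, Ne.symm hvp]
    omega

/-- number of ports in the cycle of `v` -/
noncomputable def portC (σ : Equiv.Perm V) (M : V → V) (R : List V) (v : V) : ℕ :=
  open Classical in
  (R.map fun p => (if σ.SameCycle v p then 1 else 0) + (if σ.SameCycle v (M p) then 1 else 0)).sum

lemma sum_port (R : List V) (v : V) :
    (open Classical in ∑ u with σ.SameCycle v u, port M R u) = portC σ M R v := by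
  classical
  induction R with
  | nil => simp [port, portC]
  | cons p R ih =>
    have h1 : ∀ u, port M (p :: R) u = (if u = p then 1 else 0) + (if u = M p then 1 else 0)
        + port M R u := by
      intro u
      have e1 : (if u = p then 1 else 0) = (if (p == u) = true then 1 else 0) := by
        by_cases hvp : u = p
        · subst hvp; simp
        · simp [hvp, Ne.symm hvp]
      have e2 : (if u = M p then 1 else 0) = (if (M p == u) = true then 1 else 0) := by
        by_cases hvp : u = M p
        · subst hvp; simp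
        · simp [hvp, Ne.symm hvp]
      simp only [port, List.map_cons, List.count_cons]
      omega
    have h2 : ∀ q : V, (∑ u with σ.SameCycle v u, if u = q then 1 else 0)
        = if σ.SameCycle v q then 1 else 0 := by
      intro q
      rw [Finset.sum_ite_eq']
      simp
    have h3 : portC σ M (p :: R) v = (if σ.SameCycle v p then 1 else 0)
        + (if σ.SameCycle v (M p) then 1 else 0) + portC σ M R v := by
      simp [portC]
    rw [h3, ← ih, Finset.sum_congr rfl fun u _ => h1 u, Finset.sum_add_distrib,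
      Finset.sum_add_distrib, h2, h2]

lemma seg_ports (y v : V) (R : List V) : ∀ x : V,
    (∀ s ∈ segs M x R y, σ.SameCycle s.1 s.2) →
    (open Classical in 2 * ((segs M x R y).map fun s => if σ.SameCycle v s.1 then 1 else 0).sum
      = portC σ M R v + (if σ.SameCycle v x then 1 else 0)
        + (if σ.SameCycle v y then 1 else 0)) := by
  classical
  induction R with
  | nil =>
    intro x h
    have h1 := h (x, y) (by simp [segs])
    have h2 : σ.SameCycle v x ↔ σ.SameCycle v y := ⟨fun h => h.trans h1, fun h => h.trans h1.symm⟩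
    simp only [segs, portC, List.map_cons, List.map_nil, List.sum_cons, List.sum_nil, h2]
    split_ifs <;> rfl
  | cons p R ih =>
    intro x h
    have h1 := h (x, p) (by simp [segs])
    have h2 : σ.SameCycle v x ↔ σ.SameCycle v p := ⟨fun h => h.trans h1, fun h => h.trans h1.symm⟩
    have h3 := ih (M p) (fun s hs => h s (by simp [segs, hs]))
    simp only [segs, portC, List.map_cons, List.sum_cons, h2] at h3 ⊢
    omega

/-- number of coincidences in the cycle of `v` -/
noncomputable def coin (σ : Equiv.Perm V) (M : V → V) (x : V) (R : List V) (y v : V) : ℕ :=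
  open Classical in
  ((segs M x R y).map fun s => if σ.SameCycle v s.1 ∧ s.1 = s.2 then 1 else 0).sum

lemma coin_tail (hMM : ∀ v, M (M v) = v) (y v : V) (R : List V) : ∀ x p : V,
    WF σ M x (p :: R) y → coin σ M (M p) R y v =
      (open Classical in
        if σ.SameCycle v y ∧ ((p :: R).map M).getLast? = some y then 1 else 0) := by
  classical
  induction R with
  | nil =>
    intro x p h
    simp only [coin, segs, List.map_cons, List.map_nil, List.sum_cons, List.sum_nil, add_zero,
      List.getLast?_singleton, Option.some.injEq]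
    refine if_congr ?_ rfl rfl
    constructor
    · rintro ⟨h1, h2⟩
      exact ⟨h2 ▸ h1, h2⟩
    · rintro ⟨h1, h2⟩
      exact ⟨h2 ▸ h1, h2⟩
  | cons q R ih =>
    intro x p h
    have hwf : WF σ M (M p) (q :: R) y := by
      refine ⟨fun s hs => h.same s ?_, ?_⟩
      · simp only [segs, List.mem_cons] at hs ⊢
        tauto
      · have h1 := h.dist
        rw [segs, List.pairwise_cons] at h1
        exact h1.2
    have h2 := ih (M p) q hwf
    have h3 : M p ≠ q := by
      intro h4
      have h5 := h.dist
      rw [segs, List.pairwise_cons] at h5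
      have h6 := h.same (x, p) (by simp [segs])
      cases R with
      | nil =>
        have h7 := h5.1 (M q, y) (by simp [segs])
        apply h7
        show σ.SameCycle x (M q)
        rw [← h4, hMM]
        exact h6
      | cons r R =>
        have h7 := h5.1 (M q, r) (by simp [segs])
        apply h7
        show σ.SameCycle x (M q)
        rw [← h4, hMM]
        exact h6
    have h4 : coin σ M (M p) (q :: R) y v = coin σ M (M q) R y v := by
      simp only [coin, segs, List.map_cons, List.sum_cons]
      rw [if_neg (fun h => h3 h.2), zero_add]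
    rw [h4, h2]
    simp only [List.map_cons, List.getLast?_cons_cons]

lemma coin_eq (hMM : ∀ v, M (M v) = v) {x y : V} (hxy : x ≠ y) {R : List V}
    (h : WF σ M x R y) (v : V) : coin σ M x R y v =
      (open Classical in (if σ.SameCycle v x ∧ R.head? = some x then 1 else 0)
        + if σ.SameCycle v y ∧ (R.map M).reverse.head? = some y then 1 else 0) := by
  classical
  cases R with
  | nil => simp [coin, segs, hxy]
  | cons p R =>
    have h1 := coin_tail hMM y v R x p h
    have h2 : coin σ M x (p :: R) y v = (if σ.SameCycle v x ∧ x = p then 1 else 0)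
        + coin σ M (M p) R y v := by
      simp [coin, segs]
    rw [h2, h1, List.head?_cons, List.head?_reverse]
    congr 1
    refine if_congr ?_ rfl rfl
    rw [Option.some.injEq, eq_comm (a := p)]

end walk

section main

variable {σ : Equiv.Perm V} {M : V → V} {b : ℕ} {G : SimpleGraph V}

lemma card_class (hb : 0 < b) (hbv : ∀ v, (σ ^ b) v = v)
    (hbi : ∀ v, ∀ i, 0 < i → i < b → (σ ^ i) v ≠ v) (v : V) :
    (open Classical in #{u | σ.SameCycle v u}) = b := by
  classical
  have h1 : ({u | σ.SameCycle v u} : Finset V) = (range b).image fun i => (σ ^ i) v := by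
    ext u
    simp only [mem_filter, mem_univ, true_and, mem_image, mem_range]
    constructor
    · intro h
      obtain ⟨i, hi, h2⟩ := same_pow hb hbv h
      exact ⟨i, hi, h2⟩
    · rintro ⟨i, hi, rfl⟩
      exact ⟨i, by rw [zpow_natCast]⟩
  rw [h1, card_image_of_injOn, card_range]
  intro i hi j hj hij
  simp only [coe_range, Set.mem_Iio] at hi hj
  exact pow_inj hbi hi hj hij

/-- **Directed cycle trick.** -/
theorem hasUPS_of_routes (hσ : ∀ v, G.Adj v (σ v)) (hM : ∀ v, G.Adj v (M v))
    (hMM : ∀ v, M (M v) = v) (hb : 0 < b) (hbv : ∀ v, (σ ^ b) v = v)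
    (hbi : ∀ v, ∀ i, 0 < i → i < b → (σ ^ i) v ≠ v) (R : V → V → List V)
    (hwf : ∀ x y, x ≠ y → WF σ M x (R x y) y)
    (hrev : ∀ x y, x ≠ y → R y x = ((R x y).map M).reverse) (F0 s0 : ℕ)
    (hF : ∀ v, ∑ t : V × V with t.1 ≠ t.2, port M (R t.1 t.2) v = F0)
    (hs : ∀ v, (open Classical in
      #{t : V × V | t.1 ≠ t.2 ∧ σ.SameCycle v t.1 ∧ (R t.1 t.2).head? = some t.1}) = s0) :
    HasUPS G := by
  classical
  have hw : ∀ x y, ∃ w : G.Walk x y, x ≠ y →
      w.support = (segs M x (R x y) y).flatMap fun s => arcL σ s.1 s.2 := by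
    intro x y
    by_cases hxy : x = y
    · subst hxy
      exact ⟨SimpleGraph.Walk.nil, fun h => absurd rfl h⟩
    · obtain ⟨w, h⟩ := exists_route_walk hσ hM hb hbv y (R x y) x (hwf x y hxy).same
      exact ⟨w, fun _ => h⟩
  choose P hP using hw
  have hnd : ∀ x y, x ≠ y → (P x y).support.Nodup := by
    intro x y hxy
    rw [hP x y hxy]
    exact nodup_route hb hbv hbi (hwf x y hxy)
  refine ⟨P, fun x y hxy => SimpleGraph.Walk.IsPath.mk' (hnd x y hxy), ?_⟩
  set n := Fintype.card V with hn
  set D : Finset (V × V) := univ.filter fun t => t.1 ≠ t.2 with hD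
  have hload : ∀ v, load P v = ∑ t ∈ D, (P t.1 t.2).support.count v := by
    intro v
    unfold load
    have h1 : {p : V × V | p.1 ≠ p.2 ∧ v ∈ (P p.1 p.2).support}
        = ((D.filter fun t => v ∈ (P t.1 t.2).support : Finset (V × V)) : Set (V × V)) := by
      ext t
      simp [hD]
    rw [h1, Set.ncard_coe_finset, card_filter]
    refine sum_congr rfl fun t ht => ?_
    rw [List.Nodup.count (hnd t.1 t.2 (mem_filter.1 ht).2)]
  have hswap : ∀ f : V × V → ℕ, ∑ t ∈ D, f t.swap = ∑ t ∈ D, f t := by
    intro f
    refine sum_nbij' Prod.swap Prod.swap ?_ ?_ ?_ ?_ ?_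
    · intro t ht
      simp only [hD, mem_filter, mem_univ, true_and] at ht ⊢
      exact ht.symm
    · intro t ht
      simp only [hD, mem_filter, mem_univ, true_and] at ht ⊢
      exact ht.symm
    · intro t _
      simp
    · intro t _
      simp
    · intro t _
      rfl
  have htwo : ∀ v, 2 * load P v = ∑ t ∈ D,
      (((segs M t.1 (R t.1 t.2) t.2).map fun s =>
          if σ.SameCycle v s.1 ∧ s.1 ≠ s.2 then 1 else 0).sum
        + (if v = t.1 then 1 else 0) + (if v = t.2 then 1 else 0) + port M (R t.1 t.2) v) := by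
    intro v
    have h1 : 2 * load P v = ∑ t ∈ D, (P t.1 t.2).support.count v
        + ∑ t ∈ D, (P t.swap.1 t.swap.2).support.count v := by
      rw [hswap (fun t => (P t.1 t.2).support.count v), hload v]
      ring
    rw [h1, ← sum_add_distrib]
    refine sum_congr rfl fun t ht => ?_
    have hne : t.1 ≠ t.2 := (mem_filter.1 ht).2
    have h2 : (P t.swap.1 t.swap.2).support
        = ((segs M t.1 (R t.1 t.2) t.2).map Prod.swap).reverse.flatMap
          fun s => arcL σ s.1 s.2 := by
      rw [Prod.fst_swap, Prod.snd_swap, hP _ _ hne.symm, hrev _ _ hne, segs_reverse hMM]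
    rw [h2, hP _ _ hne]
    exact count_two hb hbv hbi t.2 v (R t.1 t.2) t.1 (hwf _ _ hne).same
  have hfour : ∀ v, 4 * load P v + 2 * ∑ t ∈ D, coin σ M t.1 (R t.1 t.2) t.2 v
      = ∑ t ∈ D, (portC σ M (R t.1 t.2) v + (if σ.SameCycle v t.1 then 1 else 0)
          + (if σ.SameCycle v t.2 then 1 else 0))
        + 2 * ∑ t ∈ D, ((if v = t.1 then 1 else 0) + (if v = t.2 then 1 else 0))
        + 2 * ∑ t ∈ D, port M (R t.1 t.2) v := by
    intro v
    have h1 : 4 * load P v = 2 * (2 * load P v) := by ring
    rw [h1, htwo v, mul_sum, mul_sum, mul_sum, mul_sum, ← sum_add_distrib, ← sum_add_distrib,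
      ← sum_add_distrib]
    refine sum_congr rfl fun t ht => ?_
    have hne : t.1 ≠ t.2 := (mem_filter.1 ht).2
    have h2 := seg_ports (σ := σ) (M := M) t.2 v (R t.1 t.2) t.1 (hwf _ _ hne).same
    have h3 : ((segs M t.1 (R t.1 t.2) t.2).map fun s =>
          if σ.SameCycle v s.1 ∧ s.1 ≠ s.2 then 1 else 0).sum
        + coin σ M t.1 (R t.1 t.2) t.2 v
        = ((segs M t.1 (R t.1 t.2) t.2).map fun s => if σ.SameCycle v s.1 then 1 else 0).sum := by
      unfold coin
      rw [← List.sum_map_add]
      congr 1
      refine List.map_congr_left fun s _ => ?_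
      by_cases h4 : σ.SameCycle v s.1 <;> by_cases h5 : s.1 = s.2 <;> simp [h4, h5]
    omega
  have hcoin : ∀ v, ∑ t ∈ D, coin σ M t.1 (R t.1 t.2) t.2 v = 2 * s0 := by
    intro v
    have h1 : ∑ t ∈ D, coin σ M t.1 (R t.1 t.2) t.2 v
        = ∑ t ∈ D, (if σ.SameCycle v t.1 ∧ (R t.1 t.2).head? = some t.1 then 1 else 0)
          + ∑ t ∈ D, (if σ.SameCycle v t.swap.1 ∧ (R t.swap.1 t.swap.2).head? = some t.swap.1
            then 1 else 0) := by
      rw [← sum_add_distrib]
      refine sum_congr rfl fun t ht => ?_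
      have hne : t.1 ≠ t.2 := (mem_filter.1 ht).2
      rw [coin_eq hMM hne (hwf _ _ hne) v, Prod.fst_swap, Prod.snd_swap, hrev _ _ hne]
    rw [h1, hswap (fun t => if σ.SameCycle v t.1 ∧ (R t.1 t.2).head? = some t.1 then 1 else 0),
      ← card_filter, ← two_mul]
    congr 1
    rw [← hs v]
    congr 1
    ext t
    simp [hD]
  have hpc : ∀ v, ∑ t ∈ D, portC σ M (R t.1 t.2) v = b * F0 := by
    intro v
    have h1 : ∀ t ∈ D, portC σ M (R t.1 t.2) v
        = ∑ u with σ.SameCycle v u, port M (R t.1 t.2) u := fun t _ => (sum_port _ _).symm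
    rw [sum_congr rfl h1, sum_comm, sum_congr rfl fun u _ => hF u, sum_const, card_class hb hbv hbi,
      smul_eq_mul]
  have hside : ∀ (q : V → Prop) [DecidablePred q],
      ∑ t ∈ D, (if q t.1 then 1 else 0) = #{x | q x} * (n - 1) := by
    intro q _
    rw [← card_filter]
    have h1 : D.filter (fun t => q t.1)
        = (univ.filter q).biUnion fun x => ((univ : Finset V).erase x).image fun y => (x, y) := by
      ext t
      simp only [hD, mem_filter, mem_univ, true_and, mem_biUnion, mem_image, mem_erase, and_true]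
      constructor
      · rintro ⟨h2, h3⟩
        exact ⟨t.1, h3, t.2, h2.symm, rfl⟩
      · rintro ⟨x, h2, y, h3, rfl⟩
        exact ⟨h3.symm, h2⟩
    rw [h1, card_biUnion, sum_const_nat (m := n - 1)]
    · intro x _
      rw [card_image_of_injective _ (fun y z h => (Prod.mk.inj h).2), card_erase_of_mem (mem_univ _),
        card_univ]
    · intro x _ x' _ hne
      simp only [Function.onFun]
      rw [disjoint_left]
      intro t ht ht'
      simp only [mem_image] at ht ht'
      obtain ⟨y, _, rfl⟩ := ht
      obtain ⟨y', _, h2⟩ := ht'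
      exact hne (Prod.mk.inj h2).1.symm
  have hside2 : ∀ (q : V → Prop) [DecidablePred q],
      ∑ t ∈ D, (if q t.2 then 1 else 0) = #{x | q x} * (n - 1) := by
    intro q _
    rw [← hside q, ← hswap (fun t => if q t.1 then 1 else 0)]
    rfl
  have hfin : ∀ v, 4 * load P v + 4 * s0 = b * F0 + 2 * (b * (n - 1)) + 4 * (n - 1) + 2 * F0 := by
    intro v
    have h1 := hfour v
    rw [hcoin v, sum_add_distrib, sum_add_distrib, sum_add_distrib, hpc v,
      hside (fun x => σ.SameCycle v x), hside2 (fun x => σ.SameCycle v x),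
      hside (fun x => v = x), hside2 (fun x => v = x), hF v, card_class hb hbv hbi] at h1
    have h2 : #{x | v = x} = 1 := by
      rw [card_eq_one]
      exact ⟨v, by ext x; simp [eq_comm]⟩
    rw [h2] at h1
    omega
  rcases isEmpty_or_nonempty V with hV | ⟨⟨v0⟩⟩
  · exact ⟨0, fun v => (hV.false v).elim⟩
  · refine ⟨load P v0, fun v => ?_⟩
    have h1 := hfin v
    have h2 := hfin v0
    omega

end main

end Pool.Agent.UPS.Cyc

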