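import Mathlib

/-!
# The labelling lemma (MP_876e19_co, block C, step 2)
-/

set_option autoImplicit false

namespace Pool.Agent.UPS.Cyc

open Finset

/-- for every `q : Fin b → Fin b`, `b ≥ 3`, there is a bijection with exactly one coincidence -/
theorem one_coincidence {b : ℕ} (hb : 3 ≤ b) (q : Fin b → Fin b) :
    ∃ τ : Equiv.Perm (Fin b), #{i | τ i = q i} = 1 := by
  classical
  -- choose the place of the coincidence
  have key : ∃ i0 : Fin b, ∀ v, v ≠ q i0 → ∃ i, i ≠ i0 ∧ q i ≠ v := by
    have : NeZero b := ⟨by omega⟩
    by_contra hcon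
    push Not at hcon
    -- for every i0 there is a value v ≠ q i0 with q i = v for all i ≠ i0
    obtain ⟨v, hv1, hv2⟩ := hcon (0 : Fin b)
    let i1 : Fin b := ⟨1, by omega⟩
    let i2 : Fin b := ⟨2, by omega⟩
    have h01 : i1 ≠ 0 := by
      intro h
      have := congrArg Fin.val h
      simp [i1] at this
    have h02 : i2 ≠ 0 := by
      intro h
      have := congrArg Fin.val h
      simp [i2] at this
    have h12 : i1 ≠ i2 := by
      intro h
      have := congrArg Fin.val h
      simp [i1, i2] at this
    have hq1 := hv2 i1 h01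
    have hq2 := hv2 i2 h02
    obtain ⟨w, hw1, hw2⟩ := hcon i1
    have h3 := hw2 i2 h12.symm
    have h4 := hw2 0 h01.symm
    exact hv1 (hq2.symm.trans (h3.trans h4.symm))
  obtain ⟨i0, hi0⟩ := key
  -- Hall
  let t : {i : Fin b // i ≠ i0} → Finset (Fin b) := fun i => univ.filter fun v => v ≠ q i0 ∧ v ≠ q i
  have hall : ∀ X : Finset {i : Fin b // i ≠ i0}, X.card ≤ (X.biUnion t).card := by
    intro X
    have hXc : X.card ≤ b - 1 := by
      have h1 := Finset.card_le_univ X
      rw [Fintype.card_subtype_compl, Fintype.card_fin, Fintype.card_subtype_eq] at h1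
      exact h1
    by_cases hex : ∃ v, v ≠ q i0 ∧ ∀ i ∈ X, q i = v
    · obtain ⟨v, hv1, hv2⟩ := hex
      -- all elements of X forbid the same value, so X misses an index
      obtain ⟨i, hi1, hi2⟩ := hi0 v hv1
      have hX2 : X.card ≤ b - 2 := by
        have h1 : X ⊆ univ.erase ⟨i, hi1⟩ := by
          intro j hj
          rw [mem_erase]
          refine ⟨?_, mem_univ _⟩
          rintro rfl
          exact hi2 (hv2 _ hj)
        have h2 := card_le_card h1
        rw [card_erase_of_mem (mem_univ _), card_univ, Fintype.card_subtype_compl,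
          Fintype.card_fin, Fintype.card_subtype_eq] at h2
        omega
      rcases X.eq_empty_or_nonempty with rfl | ⟨j, hj⟩
      · simp
      have h3 : (univ.erase (q i0)).erase v ⊆ X.biUnion t := by
        intro w hw
        rw [mem_erase, mem_erase] at hw
        rw [mem_biUnion]
        refine ⟨j, hj, ?_⟩
        simp only [t, mem_filter, mem_univ, true_and]
        exact ⟨hw.2.1, by rw [hv2 j hj]; exact hw.1⟩
      have h4 := card_le_card h3
      rw [card_erase_of_mem (by rw [mem_erase]; exact ⟨hv1, mem_univ _⟩),
        card_erase_of_mem (mem_univ _), card_univ, Fintype.card_fin] at h4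
      omega
    · push Not at hex
      have h3 : univ.erase (q i0) ⊆ X.biUnion t := by
        intro w hw
        rw [mem_erase] at hw
        obtain ⟨j, hj, hne⟩ := hex w hw.1
        rw [mem_biUnion]
        refine ⟨j, hj, ?_⟩
        simp only [t, mem_filter, mem_univ, true_and]
        exact ⟨hw.1, hne.symm⟩
      have h4 := card_le_card h3
      rw [card_erase_of_mem (mem_univ _), card_univ, Fintype.card_fin] at h4
      omega
  obtain ⟨f, hf1, hf2⟩ := (Finset.all_card_le_biUnion_card_iff_exists_injective t).1 hall
  let g : Fin b → Fin b := fun i => if h : i = i0 then q i0 else f ⟨i, h⟩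
  have hg0 : g i0 = q i0 := by simp [g]
  have hg : ∀ i (h : i ≠ i0), g i = f ⟨i, h⟩ := fun i h => by simp [g, h]
  have hginj : Function.Injective g := by
    intro i j hij
    by_cases hi : i = i0 <;> by_cases hj : j = i0
    · rw [hi, hj]
    · exfalso
      have h1 := hf2 ⟨j, hj⟩
      simp only [t, mem_filter, mem_univ, true_and] at h1
      apply h1.1
      rw [← hg j hj, ← hij, hi, hg0]
    · exfalso
      have h1 := hf2 ⟨i, hi⟩
      simp only [t, mem_filter, mem_univ, true_and] at h1
      apply h1.1
      rw [← hg i hi, hij, hj, hg0]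
    · rw [hg i hi, hg j hj] at hij
      exact congrArg Subtype.val (hf1 hij)
  refine ⟨Equiv.ofBijective g ((Fintype.bijective_iff_injective_and_card g).2 ⟨hginj, rfl⟩), ?_⟩
  rw [card_eq_one]
  refine ⟨i0, ?_⟩
  ext i
  simp only [mem_filter, mem_univ, true_and, mem_singleton, Equiv.ofBijective_apply]
  constructor
  · intro h
    by_contra hne
    have h1 := hf2 ⟨i, hne⟩
    simp only [t, mem_filter, mem_univ, true_and] at h1
    apply h1.2
    rw [← hg i hne, h]
  · rintro rfl
    exact hg0

/-- **Labelling lemma**: `b ^ 2` routes with exit ports `p` and entry ports `q` can be labelled by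
the pairs (start, end) such that exactly `b` routes start at their exit port and exactly `b` end
at their entry port. -/
theorem labelling {b : ℕ} (hb : 3 ≤ b) (p q : Fin b × Fin b → Fin b) :
    ∃ β : (Fin b × Fin b) ≃ (Fin b × Fin b),
      #{k | (β k).1 = p k} = b ∧ #{k | (β k).2 = q k} = b := by
  classical
  -- start labels inside the groups (g, ·)
  have h1 : ∀ g : Fin b, ∃ τ : Equiv.Perm (Fin b), #{i | τ i = p (g, i)} = 1 :=
    fun g => one_coincidence hb _
  choose τ hτ using h1
  -- the route of the group g with start label x is (g, (τ g).symm x)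
  have h2 : ∀ x : Fin b, ∃ ρ : Equiv.Perm (Fin b), #{g | ρ g = q (g, (τ g).symm x)} = 1 :=
    fun x => one_coincidence hb _
  choose ρ hρ using h2
  let β : (Fin b × Fin b) ≃ (Fin b × Fin b) :=
    { toFun := fun k => (τ k.1 k.2, ρ (τ k.1 k.2) k.1)
      invFun := fun l => ((ρ l.1).symm l.2, (τ ((ρ l.1).symm l.2)).symm l.1)
      left_inv := by
        rintro ⟨g, i⟩
        simp
      right_inv := by
        rintro ⟨x, y⟩
        simp }
  refine ⟨β, ?_, ?_⟩
  · have e1 : ({k | (β k).1 = p k} : Finset (Fin b × Fin b))
        = univ.biUnion fun g => (univ.filter fun i => τ g i = p (g, i)).image fun i => (g, i) := by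
      ext ⟨g, i⟩
      simp [β]
    rw [e1, card_biUnion, sum_const_nat (m := 1)]
    · simp
    · intro g _
      rw [card_image_of_injective _ (fun y z h => (Prod.mk.inj h).2)]
      exact hτ g
    · intro g _ g' _ hne
      simp only [Function.onFun]
      rw [disjoint_left]
      intro t ht ht'
      simp only [mem_image] at ht ht'
      obtain ⟨y, _, rfl⟩ := ht
      obtain ⟨y', _, h2⟩ := ht'
      exact hne (Prod.mk.inj h2).1.symm
  · have e1 : ({k | (β k).2 = q k} : Finset (Fin b × Fin b))
        = univ.biUnion fun x => (univ.filter fun g => ρ x g = q (g, (τ g).symm x)).image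
            fun g => (g, (τ g).symm x) := by
      ext ⟨g, i⟩
      simp only [β, Equiv.coe_fn_mk, mem_filter, mem_univ, true_and, mem_biUnion, mem_image]
      constructor
      · intro h
        exact ⟨τ g i, g, by simpa using h, by simp⟩
      · rintro ⟨x, g', h1, h2⟩
        obtain ⟨rfl, h3⟩ := Prod.mk.inj h2
        subst h3
        simpa using h1
    rw [e1, card_biUnion, sum_const_nat (m := 1)]
    · simp
    · intro x _
      rw [card_image_of_injective _ (fun y z h => (Prod.mk.inj h).1)]
      exact hρ x
    · intro x _ x' _ hne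
      simp only [Function.onFun]
      rw [disjoint_left]
      intro t ht ht'
      simp only [mem_image] at ht ht'
      obtain ⟨g, _, rfl⟩ := ht
      obtain ⟨g', _, h2⟩ := ht'
      obtain ⟨h3, h4⟩ := Prod.mk.inj h2
      subst h3
      exact hne ((τ g').symm.injective h4).symm

end Pool.Agent.UPS.Cyc
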