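import Mathlib
import Pool.Agent.Lib.MP_876e19_co.Defs
import Pool.Agent.Lib.MP_876e19_co_ups.CycDir
import Pool.Agent.Lib.MP_876e19_co_ups.CycLabel

/-!
# From equal edge usage in the quotient to a uniform path system (MP_876e19_co, block C)
-/

set_option autoImplicit false
set_option linter.unusedSectionVars false

namespace Pool.Agent.UPS.Cyc

open Finset

/-- the exit ports of the `j`-th parallel copy of a walk of the quotient -/
def rt {V N : Type} {Q : SimpleGraph N} {μ : ℕ} (lab : N → N → Fin μ → V) (j : Fin μ) :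
    ∀ {A B : N}, Q.Walk A B → List V
  | _, _, .nil => []
  | A, _, .cons (v := C) _ p => lab A C j :: rt lab j p

section rt

variable {V N : Type} [Fintype V] [DecidableEq V] [Fintype N] [DecidableEq N]
  {Q : SimpleGraph N} {μ : ℕ} {lab : N → N → Fin μ → V} {M : V → V} {cl : V → N}

lemma rt_append (j : Fin μ) {A B C : N} (p : Q.Walk A B) (q : Q.Walk B C) :
    rt lab j (p.append q) = rt lab j p ++ rt lab j q := by
  induction p with
  | nil => simp [rt]
  | cons h p ih => simp [rt, ih]

lemma rt_reverse (hlab : ∀ A B, Q.Adj A B → ∀ j, lab B A j = M (lab A B j)) (j : Fin μ) {A B : N}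
    (p : Q.Walk A B) : rt lab j p.reverse = ((rt lab j p).map M).reverse := by
  induction p with
  | nil => simp [rt]
  | cons h p ih =>
    rw [SimpleGraph.Walk.reverse_cons, rt_append, ih]
    simp [rt, hlab _ _ h]

lemma rt_segs (hcl : ∀ A B, Q.Adj A B → ∀ j, cl (lab A B j) = A ∧ cl (M (lab A B j)) = B)
    (j : Fin μ) {A B : N} (p : Q.Walk A B) (y : V) : ∀ x : V, cl x = A → cl y = B →
    ((segs M x (rt lab j p) y).map fun s => cl s.1) = p.support ∧
      ∀ s ∈ segs M x (rt lab j p) y, cl s.1 = cl s.2 := by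
  induction p with
  | nil =>
    intro x hx hy
    simp only [rt, segs, List.map_cons, List.map_nil, SimpleGraph.Walk.support_nil,
      List.mem_singleton, forall_eq]
    exact ⟨by rw [hx], hx.trans hy.symm⟩
  | cons h p ih =>
    intro x hx hy
    obtain ⟨h1, h2⟩ := ih (M (lab _ _ j)) (hcl _ _ h j).2 hy
    simp only [rt, segs, List.map_cons, SimpleGraph.Walk.support_cons, List.mem_cons,
      forall_eq_or_imp]
    refine ⟨by rw [h1, hx], ?_, h2⟩
    rw [hx, (hcl _ _ h j).1]

lemma rt_wf {σ : Equiv.Perm V} (hsame : ∀ u v, cl u = cl v ↔ σ.SameCycle u v)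
    (hcl : ∀ A B, Q.Adj A B → ∀ j, cl (lab A B j) = A ∧ cl (M (lab A B j)) = B)
    (j : Fin μ) {A B : N} (p : Q.Walk A B) (hp : p.IsPath) {x y : V} (hx : cl x = A)
    (hy : cl y = B) : WF σ M x (rt lab j p) y := by
  obtain ⟨h1, h2⟩ := rt_segs hcl j p y x hx hy
  refine ⟨fun s hs => (hsame _ _).1 (h2 s hs), ?_⟩
  have h3 : (p.support).Nodup := (SimpleGraph.Walk.isPath_def _).1 hp
  rw [← h1, List.nodup_iff_pairwise_ne, List.pairwise_map] at h3
  exact h3.imp fun h h' => h ((hsame _ _).2 h')

lemma rt_port (hcl : ∀ A B, Q.Adj A B → ∀ j, cl (lab A B j) = A ∧ cl (M (lab A B j)) = B)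
    (hlab : ∀ A B, Q.Adj A B → ∀ j, lab B A j = M (lab A B j))
    {v : V} {j0 : Fin μ} (hne : Q.Adj (cl v) (cl (M v)))
    (huniq : ∀ j, lab (cl v) (cl (M v)) j = v ↔ j = j0)
    (j : Fin μ) {A B : N} (p : Q.Walk A B) :
    port M (rt lab j p) v = if j = j0 then p.edges.count s(cl v, cl (M v)) else 0 := by
  induction p with
  | nil => simp [rt, port]
  | cons h p ih =>
    rename_i A C B
    have e1 : lab A C j = v ↔ j = j0 ∧ A = cl v ∧ C = cl (M v) := by
      constructor
      · intro h1
        have h2 := hcl _ _ h j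
        rw [h1] at h2
        obtain ⟨h3, h4⟩ := h2
        refine ⟨?_, h3.symm, h4.symm⟩
        rw [← huniq, h3, h4, h1]
      · rintro ⟨h1, h2, h3⟩
        rw [h2, h3]
        exact (huniq j).2 h1
    have e2 : M (lab A C j) = v ↔ j = j0 ∧ C = cl v ∧ A = cl (M v) := by
      rw [← hlab _ _ h j]
      constructor
      · intro h1
        have h2 := hcl _ _ h.symm j
        rw [h1] at h2
        obtain ⟨h3, h4⟩ := h2
        refine ⟨?_, h3.symm, h4.symm⟩
        rw [← huniq, h3, h4, h1]
      · rintro ⟨h1, h2, h3⟩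
        rw [h2, h3]
        exact (huniq j).2 h1
    have e3 : s(A, C) = s(cl v, cl (M v)) ↔
        (A = cl v ∧ C = cl (M v)) ∨ (C = cl v ∧ A = cl (M v)) := by
      rw [Sym2.eq_iff]
      tauto
    have hne' := hne.ne
    have h1 : port M (rt lab j (SimpleGraph.Walk.cons h p)) v
        = port M (rt lab j p) v + ((if lab A C j = v then 1 else 0)
          + if M (lab A C j) = v then 1 else 0) := by
      simp only [rt, port, List.map_cons, List.count_cons, beq_iff_eq]
      omega
    rw [h1, ih, SimpleGraph.Walk.edges_cons, List.count_cons]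
    by_cases hj : j = j0
    · rw [if_pos hj, if_pos hj]
      congr 1
      by_cases h2 : A = cl v ∧ C = cl (M v)
      · have h3 : ¬ (C = cl v ∧ A = cl (M v)) := by
          rintro ⟨h4, _⟩
          exact hne' (h4.symm.trans h2.2)
        rw [if_pos (e1.2 ⟨hj, h2⟩), if_neg (fun h4 => h3 (e2.1 h4).2),
          if_pos (beq_iff_eq.2 (e3.2 (Or.inl h2)))]
      · by_cases h3 : C = cl v ∧ A = cl (M v)
        · rw [if_neg (fun h4 => h2 (e1.1 h4).2), if_pos (e2.2 ⟨hj, h3⟩),
            if_pos (beq_iff_eq.2 (e3.2 (Or.inr h3)))]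
        · rw [if_neg (fun h4 => h2 (e1.1 h4).2), if_neg (fun h4 => h3 (e2.1 h4).2),
            if_neg (fun h4 => (e3.1 (beq_iff_eq.1 h4)).elim h2 h3)]
    · rw [if_neg hj, if_neg hj, if_neg (fun h4 => hj (e1.1 h4).1),
        if_neg (fun h4 => hj (e2.1 h4).1)]

lemma rt_head (j : Fin μ) {A B : N} (hAB : A ≠ B) (p : Q.Walk A B) :
    ∃ C, Q.Adj A C ∧ (rt lab j p).head? = some (lab A C j) := by
  cases p with
  | nil => exact absurd rfl hAB
  | cons h p => exact ⟨_, h, rfl⟩

end rt

section glue

variable {V N : Type} [Fintype V] [DecidableEq V] [Fintype N] [DecidableEq N]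
  {Q : SimpleGraph N} {σ : Equiv.Perm V} {M : V → V} {cl : V → N}

/-- consistent labels of the parallel matching edges -/
lemma exists_lab [Nonempty V] (hMM : ∀ v, M (M v) = v) {μ : ℕ}
    (hμ : ∀ A B, Q.Adj A B → #{v | cl v = A ∧ cl (M v) = B} = μ) :
    ∃ lab : N → N → Fin μ → V,
      (∀ A B, Q.Adj A B → ∀ j, cl (lab A B j) = A ∧ cl (M (lab A B j)) = B) ∧
      (∀ A B, Q.Adj A B → ∀ j, lab B A j = M (lab A B j)) ∧
      (∀ A B, Q.Adj A B → ∀ v, cl v = A → cl (M v) = B → ∃ j0, ∀ j, lab A B j = v ↔ j = j0) := by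
  classical
  obtain ⟨v0⟩ := (inferInstance : Nonempty V)
  let e : N → ℕ := fun A => (Fintype.equivFin N A : ℕ)
  have he : Function.Injective e := fun A B h => (Fintype.equivFin N).injective (Fin.ext h)
  have hex : ∀ A B, ∃ f : Fin μ → V, Q.Adj A B →
      Function.Injective f ∧ ∀ v, (cl v = A ∧ cl (M v) = B) ↔ ∃ j, f j = v := by
    intro A B
    by_cases h : Q.Adj A B
    · have h1 := hμ A B h
      let g := (Finset.equivFinOfCardEq h1).symm
      refine ⟨fun j => (g j : V), fun _ => ⟨?_, ?_⟩⟩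
      · intro j j' hj
        exact g.injective (Subtype.ext hj)
      · intro v
        constructor
        · intro hv
          exact ⟨g.symm ⟨v, by simpa using hv⟩, by simp⟩
        · rintro ⟨j, rfl⟩
          exact (mem_filter.1 (g j).2).2
    · exact ⟨fun _ => v0, fun h' => absurd h' h⟩
  choose f hf using hex
  let lab : N → N → Fin μ → V := fun A B j => if e A < e B then f A B j else M (f B A j)
  have hlt : ∀ A B, e A < e B → ∀ j, lab A B j = f A B j := fun A B h j => by simp [lab, h]
  have hgt : ∀ A B, e B < e A → ∀ j, lab A B j = M (f B A j) := fun A B h j => by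
    simp [lab, not_lt.2 h.le]
  refine ⟨lab, ?_, ?_, ?_⟩
  · intro A B h j
    rcases lt_trichotomy (e A) (e B) with h1 | h1 | h1
    · rw [hlt A B h1]
      exact ((hf A B h).2 _).2 ⟨j, rfl⟩
    · exact absurd (he h1) h.ne
    · rw [hgt A B h1, hMM]
      exact (((hf B A h.symm).2 _).2 ⟨j, rfl⟩).symm
  · intro A B h j
    rcases lt_trichotomy (e A) (e B) with h1 | h1 | h1
    · rw [hlt A B h1, hgt B A h1]
    · exact absurd (he h1) h.ne
    · rw [hgt A B h1, hlt B A h1, hMM]
  · intro A B h v hv1 hv2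
    rcases lt_trichotomy (e A) (e B) with h1 | h1 | h1
    · obtain ⟨j0, hj0⟩ := ((hf A B h).2 v).1 ⟨hv1, hv2⟩
      refine ⟨j0, fun j => ?_⟩
      rw [hlt A B h1]
      constructor
      · intro h2
        exact (hf A B h).1 (h2.trans hj0.symm)
      · rintro rfl
        exact hj0
    · exact absurd (he h1) h.ne
    · obtain ⟨j0, hj0⟩ := ((hf B A h.symm).2 (M v)).1 ⟨hv2, by rw [hMM]; exact hv1⟩
      refine ⟨j0, fun j => ?_⟩
      rw [hgt A B h1]
      constructor
      · intro h2
        refine (hf B A h.symm).1 ?_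
        rw [hj0, ← h2, hMM]
      · rintro rfl
        rw [hj0, hMM]

/-- coordinates: every class is a copy of `Fin b` -/
lemma exists_coord {b : ℕ} (hb : 0 < b) (hbv : ∀ v, (σ ^ b) v = v)
    (hbi : ∀ v, ∀ i, 0 < i → i < b → (σ ^ i) v ≠ v)
    (hsame : ∀ u v, cl u = cl v ↔ σ.SameCycle u v) (hsurj : Function.Surjective cl) :
    ∃ E : V ≃ N × Fin b, ∀ v, (E v).1 = cl v := by
  classical
  have h1 : ∀ A : N, Nonempty ({v // cl v = A} ≃ Fin b) := by
    intro A
    obtain ⟨v0, rfl⟩ := hsurj A
    refine ⟨Fintype.equivFinOfCardEq ?_⟩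
    rw [Fintype.card_subtype, ← card_class hb hbv hbi v0]
    congr 1
    ext u
    simp only [mem_filter, mem_univ, true_and]
    rw [← hsame, eq_comm]
  exact ⟨(Equiv.sigmaFiberEquiv cl).symm.trans
    ((Equiv.sigmaCongrRight fun A => (h1 A).some).trans (Equiv.sigmaEquivProd N (Fin b))),
    fun v => rfl⟩

/-- **Glue theorem**: equal usage of the edges of the quotient gives a uniform path system. -/
theorem hasUPS_of_edge_uniform [Nonempty V] {G : SimpleGraph V} (hσ : ∀ v, G.Adj v (σ v))
    (hM : ∀ v, G.Adj v (M v)) (hMM : ∀ v, M (M v) = v) {b : ℕ} (hb : 3 ≤ b)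
    (hbv : ∀ v, (σ ^ b) v = v) (hbi : ∀ v, ∀ i, 0 < i → i < b → (σ ^ i) v ≠ v)
    (hsame : ∀ u v, cl u = cl v ↔ σ.SameCycle u v) (hsurj : Function.Surjective cl)
    (hQ : ∀ v, Q.Adj (cl v) (cl (M v))) {r μ : ℕ}
    (hμ : ∀ A B, Q.Adj A B → #{v | cl v = A ∧ cl (M v) = B} = μ) (hbr : b = μ * r)
    (P : ∀ A B : N, Fin (μ * r * r) → Q.Walk A B)
    (hP : ∀ A B i, A ≠ B → (P A B i).IsPath)
    (hPr : ∀ A B i, A ≠ B → P B A i = (P A B i).reverse) (c : ℕ)
    (hc : ∀ A B, Q.Adj A B → (open Classical in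
      #{t : N × N × Fin (μ * r * r) | t.1 ≠ t.2.1 ∧ s(A, B) ∈ (P t.1 t.2.1 t.2.2).edges}) = c) :
    HasUPS G := by
  classical
  have hb0 : 0 < b := by omega
  obtain ⟨E, hE⟩ := exists_coord hb0 hbv hbi hsame hsurj
  obtain ⟨lab, hl1, hl2, hl3⟩ := exists_lab (Q := Q) hMM hμ
  have hcard : Fintype.card (Fin b × Fin b) = Fintype.card (Fin (μ * r * r) × Fin μ) := by
    simp only [Fintype.card_prod, Fintype.card_fin, hbr]
    ring
  let ε : (Fin b × Fin b) ≃ (Fin (μ * r * r) × Fin μ) := Fintype.equivOfCardEq hcard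
  let pos : V → Fin b := fun v => (E v).2
  have hinj : ∀ u v, cl u = cl v → pos u = pos v → u = v := by
    intro u v h1 h2
    apply E.injective
    exact Prod.ext (by rw [hE, hE, h1]) h2
  -- heads
  have hhd : ∀ A B (k : Fin b × Fin b), ∃ h : Fin b, A ≠ B → ∀ x, cl x = A →
      ((rt lab (ε k).2 (P A B (ε k).1)).head? = some x ↔ pos x = h) := by
    intro A B k
    by_cases hAB : A = B
    · exact ⟨⟨0, hb0⟩, fun h => absurd hAB h⟩
    · obtain ⟨C, h1, h2⟩ := rt_head (lab := lab) (ε k).2 hAB (P A B (ε k).1)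
      refine ⟨pos (lab A C (ε k).2), fun _ x hx => ?_⟩
      rw [h2, Option.some.injEq]
      constructor
      · rintro rfl
        rfl
      · intro h3
        exact (hinj _ _ (hx.trans (hl1 A C h1 _).1.symm) h3).symm
  choose hd hhd using hhd
  have hβ := fun A B => labelling hb (hd A B) (hd B A)
  choose β hβ1 hβ2 using hβ
  let e : N → ℕ := fun A => (Fintype.equivFin N A : ℕ)
  have he : Function.Injective e := fun A B h => (Fintype.equivFin N).injective (Fin.ext h)
  let kx : V → V → Fin b × Fin b := fun x y =>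
    if e (cl x) < e (cl y) then (β (cl x) (cl y)).symm (pos x, pos y)
    else (β (cl y) (cl x)).symm (pos y, pos x)
  have hkx : ∀ x y, cl x ≠ cl y → kx y x = kx x y := by
    intro x y hxy
    have h1 : e (cl x) ≠ e (cl y) := fun h => hxy (he h)
    simp only [kx]
    rcases lt_or_gt_of_ne h1 with h2 | h2
    · rw [if_neg (not_lt.2 h2.le), if_pos h2]
    · rw [if_pos h2, if_neg (not_lt.2 h2.le)]
  let R : V → V → List V := fun x y =>
    if cl x = cl y then [] else rt lab (ε (kx x y)).2 (P (cl x) (cl y) (ε (kx x y)).1)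
  have hR0 : ∀ x y, cl x = cl y → R x y = [] := fun x y h => by simp [R, h]
  have hR1 : ∀ x y, cl x ≠ cl y →
      R x y = rt lab (ε (kx x y)).2 (P (cl x) (cl y) (ε (kx x y)).1) := fun x y h => by
    simp [R, h]
  -- the bijections of the pairs
  have hγ : ∀ A B, A ≠ B → ∃ γ : (Fin b × Fin b) ≃ (Fin b × Fin b),
      (∀ k, kx (E.symm (A, (γ k).1)) (E.symm (B, (γ k).2)) = k) ∧
        #{k | (γ k).1 = hd A B k} = b := by
    intro A B hAB
    have hcE : ∀ A a, cl (E.symm (A, a)) = A := fun A a => by rw [← hE]; simp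
    have hpE : ∀ A a, pos (E.symm (A, a)) = a := fun A a => by simp [pos]
    rcases lt_or_gt_of_ne (fun h => hAB (he h) : e A ≠ e B) with h2 | h2
    · refine ⟨β A B, fun k => ?_, hβ1 A B⟩
      simp only [kx, hcE, hpE]
      rw [if_pos h2]
      simp
    · refine ⟨(β B A).trans (Equiv.prodComm _ _), fun k => ?_, ?_⟩
      · simp only [kx, hcE, hpE]
        rw [if_neg (not_lt.2 h2.le)]
        simp
      · refine Eq.trans (congrArg Finset.card ?_) (hβ2 B A)
        ext k
        exact ⟨fun h => mem_filter.2 ⟨mem_univ _, (mem_filter.1 h).2⟩,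
          fun h => mem_filter.2 ⟨mem_univ _, (mem_filter.1 h).2⟩⟩
  -- sums over pairs
  have hsum : ∀ g : V × V → ℕ, (∀ x y, cl x = cl y → g (x, y) = 0) →
      ∑ t : V × V with t.1 ≠ t.2, g t
        = ∑ A, ∑ B, if A = B then 0 else
            ∑ k : Fin b × Fin b, g (E.symm (A, k.1), E.symm (B, k.2)) := by
    intro g hg
    have h1 : ∑ t : V × V with t.1 ≠ t.2, g t = ∑ t : V × V, g t := by
      refine sum_subset (filter_subset _ _) ?_
      intro t _ ht
      simp only [mem_filter, mem_univ, true_and, not_not] at ht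
      exact hg t.1 t.2 (by rw [ht])
    rw [h1, Fintype.sum_prod_type, ← Equiv.sum_comp E.symm, Fintype.sum_prod_type]
    refine sum_congr rfl fun A _ => ?_
    have h2 : ∀ a : Fin b, ∑ y, g (E.symm (A, a), y)
        = ∑ B, ∑ a' : Fin b, g (E.symm (A, a), E.symm (B, a')) := by
      intro a
      rw [← Equiv.sum_comp E.symm, Fintype.sum_prod_type]
    rw [sum_congr rfl fun a _ => h2 a, sum_comm]
    refine sum_congr rfl fun B _ => ?_
    by_cases hAB : A = B
    · rw [if_pos hAB]
      refine sum_eq_zero fun a _ => sum_eq_zero fun a' _ => hg _ _ ?_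
      rw [← hE, ← hE, hAB]
      simp
    · rw [if_neg hAB, Fintype.sum_prod_type]
  have hsum2 : ∀ (g : V × V → ℕ) (h : N → N → Fin b × Fin b → ℕ),
      (∀ x y, cl x = cl y → g (x, y) = 0) →
      (∀ x y, cl x ≠ cl y → g (x, y) = h (cl x) (cl y) (kx x y)) →
      ∑ t : V × V with t.1 ≠ t.2, g t
        = ∑ A, ∑ B, if A = B then 0 else ∑ k : Fin b × Fin b, h A B k := by
    intro g h hg0 hg1
    rw [hsum g hg0]
    refine sum_congr rfl fun A _ => sum_congr rfl fun B _ => ?_
    by_cases hAB : A = B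
    · rw [if_pos hAB, if_pos hAB]
    · rw [if_neg hAB, if_neg hAB]
      obtain ⟨γ, hγ1, -⟩ := hγ A B hAB
      rw [← Equiv.sum_comp γ]
      refine sum_congr rfl fun k _ => ?_
      have hcE : ∀ A a, cl (E.symm (A, a)) = A := fun A a => by rw [← hE]; simp
      rw [hg1 _ _ (by rw [hcE, hcE]; exact hAB), hcE, hcE, hγ1 k]
  have hports : ∀ v, ∑ t : V × V with t.1 ≠ t.2, port M (R t.1 t.2) v = c := by
    intro v
    obtain ⟨j0, hj0⟩ := hl3 _ _ (hQ v) v rfl rfl
    rw [hsum2 (fun t => port M (R t.1 t.2) v)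
      (fun A B k => if (ε k).2 = j0 then (P A B (ε k).1).edges.count s(cl v, cl (M v)) else 0)]
    · rw [← hc _ _ (hQ v), card_filter, Fintype.sum_prod_type]
      refine sum_congr rfl fun A _ => ?_
      rw [Fintype.sum_prod_type]
      refine sum_congr rfl fun B _ => ?_
      by_cases hAB : A = B
      · rw [if_pos hAB]
        symm
        refine sum_eq_zero fun i _ => ?_
        rw [if_neg (fun h => h.1 hAB)]
      · rw [if_neg hAB]
        have h1 := Equiv.sum_comp ε (fun l : Fin (μ * r * r) × Fin μ =>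
          if l.2 = j0 then (P A B l.1).edges.count s(cl v, cl (M v)) else 0)
        rw [h1, Fintype.sum_prod_type]
        refine sum_congr rfl fun i _ => ?_
        rw [sum_ite_eq' univ j0, if_pos (mem_univ _)]
        have h2 : (P A B i).edges.Nodup := (hP A B i hAB).isTrail.edges_nodup
        rw [List.Nodup.count h2]
        by_cases h3 : s(cl v, cl (M v)) ∈ (P A B i).edges
        · rw [if_pos h3, if_pos ⟨hAB, h3⟩]
        · rw [if_neg h3, if_neg (fun h => h3 h.2)]
    · intro x y hxy
      simp only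
      rw [hR0 x y hxy]
      simp [port]
    · intro x y hxy
      simp only
      rw [hR1 x y hxy]
      exact rt_port hl1 hl2 (hQ v) hj0 _ _
  have hheads : ∀ v, #{t : V × V | t.1 ≠ t.2 ∧ σ.SameCycle v t.1 ∧ (R t.1 t.2).head? = some t.1}
      = b * (Fintype.card N - 1) := by
    intro v
    have h1 : #{t : V × V | t.1 ≠ t.2 ∧ σ.SameCycle v t.1 ∧ (R t.1 t.2).head? = some t.1}
        = ∑ t : V × V with t.1 ≠ t.2,
          if cl v = cl t.1 ∧ (R t.1 t.2).head? = some t.1 then 1 else 0 := by
      rw [← card_filter]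
      congr 1
      ext t
      simp only [mem_filter, mem_univ, true_and, hsame]
    rw [h1, hsum (fun t => if cl v = cl t.1 ∧ (R t.1 t.2).head? = some t.1 then 1 else 0)]
    · have hcE : ∀ A a, cl (E.symm (A, a)) = A := fun A a => by rw [← hE]; simp
      have hpE : ∀ A a, pos (E.symm (A, a)) = a := fun A a => by simp [pos]
      rw [sum_eq_single (cl v)]
      · have h2 : ∀ B, (if cl v = B then 0 else ∑ k : Fin b × Fin b,
            (fun t : V × V => if cl v = cl t.1 ∧ (R t.1 t.2).head? = some t.1 then 1 else 0)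
              (E.symm (cl v, k.1), E.symm (B, k.2))) = if cl v = B then 0 else b := by
          intro B
          by_cases hB : cl v = B
          · rw [if_pos hB, if_pos hB]
          · rw [if_neg hB, if_neg hB]
            obtain ⟨γ, hγ1, hγ2⟩ := hγ (cl v) B hB
            rw [← Equiv.sum_comp γ]
            refine Eq.trans ?_ hγ2
            rw [card_filter]
            refine sum_congr rfl fun k _ => ?_
            simp only [hcE, true_and]
            rw [hR1 _ _ (by rw [hcE, hcE]; exact hB), hcE, hcE, hγ1 k]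
            refine if_congr ?_ rfl rfl
            rw [hhd (cl v) B k hB _ (hcE _ _), hpE]
        rw [sum_congr rfl fun B _ => h2 B, ← sum_filter_add_sum_filter_not univ (fun B => cl v = B)]
        rw [sum_congr rfl (g := fun _ => 0) (fun B hB => by
          rw [if_pos (mem_filter.1 hB).2]), sum_const_zero, zero_add]
        rw [sum_congr rfl (g := fun _ => b) (fun B hB => by
          rw [if_neg (mem_filter.1 hB).2]), sum_const, smul_eq_mul, mul_comm]
        congr 1
        have h3 : (univ.filter fun B => ¬ cl v = B) = univ.erase (cl v) := by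
          ext B
          simp [eq_comm]
        rw [h3, card_erase_of_mem (mem_univ _), card_univ]
      · intro A _ hA
        refine sum_eq_zero fun B _ => ?_
        by_cases hB : A = B
        · rw [if_pos hB]
        · rw [if_neg hB]
          refine sum_eq_zero fun k _ => ?_
          simp only [hcE]
          rw [if_neg (fun h => hA h.1.symm)]
      · intro h
        exact absurd (mem_univ _) h
    · intro x y hxy
      simp only
      rw [hR0 x y hxy, if_neg]
      simp
  refine hasUPS_of_routes hσ hM hMM hb0 hbv hbi R ?_ ?_ c (b * (Fintype.card N - 1)) hports hheads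
  · intro x y hxy
    by_cases hcl : cl x = cl y
    · rw [hR0 x y hcl]
      refine ⟨?_, ?_⟩
      · intro s hs
        simp only [segs, List.mem_singleton] at hs
        rw [hs]
        exact (hsame _ _).1 hcl
      · simp [segs]
    · rw [hR1 x y hcl]
      exact rt_wf hsame hl1 _ _ (hP _ _ _ hcl) rfl rfl
  · intro x y hxy
    by_cases hcl : cl x = cl y
    · rw [hR0 x y hcl, hR0 y x hcl.symm]
      rfl
    · rw [hR1 x y hcl, hR1 y x (Ne.symm hcl), hkx x y hcl, hPr _ _ _ hcl, rt_reverse hl2]

end glue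

end Pool.Agent.UPS.Cyc
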