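import Mathlib
import Pool.Agent.Lib.MP_876e19_co.Defs
import Pool.Agent.Lib.MP_876e19_co_ups.CycGlue

/-!
# Cubic graphs with an invariant perfect matching (MP_876e19_co, block C)
-/

set_option autoImplicit false
set_option linter.unusedSectionVars false

namespace Pool.Agent.UPS.Cyc

open Finset

section orient

variable {V : Type} [Fintype V] [DecidableEq V]

/-- a 2-regular graph has an orientation of its cycles -/
lemma exists_orient (H : SimpleGraph V) [DecidableRel H.Adj] (h2 : ∀ v, H.degree v = 2) :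
    ∃ σ : Equiv.Perm V, (∀ v, H.Adj v (σ v)) ∧ (∀ v, σ (σ v) ≠ v) := by
  classical
  let t : V → Finset (Sym2 V) := fun v => (H.neighborFinset v).image fun w => s(v, w)
  have ht : ∀ v, (t v).card = 2 := by
    intro v
    rw [← h2 v, card_image_of_injective]
    · rfl
    · intro w w' h
      have h' : s(v, w) = s(v, w') := h
      rw [Sym2.eq_iff] at h'
      rcases h' with ⟨_, h'⟩ | ⟨h1, h2⟩
      · exact h'
      · exact h2.trans h1
  have hmem : ∀ v e, e ∈ t v ↔ v ∈ e ∧ e ∈ H.edgeSet := by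
    intro v e
    simp only [t, mem_image, SimpleGraph.mem_neighborFinset]
    constructor
    · rintro ⟨w, h, rfl⟩
      exact ⟨Sym2.mem_mk_left v w, h⟩
    · rintro ⟨h, he⟩
      obtain ⟨w, rfl⟩ := Sym2.mem_iff_exists.1 h
      exact ⟨w, he, rfl⟩
  have hall : ∀ X : Finset V, X.card ≤ (X.biUnion t).card := by
    intro X
    have h1 : X.card * 2 ≤ (X.biUnion t).card * 2 := by
      refine card_mul_le_card_mul (fun v e => e ∈ t v) ?_ ?_
      · intro v hv
        rw [← ht v]
        refine card_le_card ?_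
        intro e he
        rw [mem_bipartiteAbove]
        exact ⟨mem_biUnion.2 ⟨v, hv, he⟩, he⟩
      · intro e _
        have h3 : X.bipartiteBelow (fun v e => e ∈ t v) e ⊆ e.toFinset := by
          intro v hv
          rw [mem_bipartiteBelow] at hv
          rw [Sym2.mem_toFinset]
          exact ((hmem v e).1 hv.2).1
        refine (card_le_card h3).trans ?_
        rw [Sym2.card_toFinset]
        split_ifs <;> omega
    omega
  obtain ⟨f, hf1, hf2⟩ := (Finset.all_card_le_biUnion_card_iff_exists_injective t).1 hall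
  have h3 : ∀ v, ∃ w, H.Adj v w ∧ f v = s(v, w) := by
    intro v
    have h4 := hf2 v
    simp only [t, mem_image, SimpleGraph.mem_neighborFinset] at h4
    obtain ⟨w, hw, h5⟩ := h4
    exact ⟨w, hw, h5.symm⟩
  choose s hs1 hs2 using h3
  have hss : ∀ v, s (s v) ≠ v := by
    intro v h
    have h4 := hs2 (s v)
    rw [h, Sym2.eq_swap, ← hs2 v] at h4
    exact (hs1 v).ne (hf1 h4).symm
  have hinj : Function.Injective s := by
    intro u v huv
    by_contra hne
    -- the vertex w = s u = s v; its two edges are assigned to u and v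
    have h4 : f (s u) ∈ t (s u) := hf2 _
    have h5 : ({f u, f v, f (s u)} : Finset (Sym2 V)) ⊆ t (s u) := by
      intro e he
      simp only [mem_insert, mem_singleton] at he
      rcases he with rfl | rfl | rfl
      · rw [hmem, hs2 u]
        exact ⟨Sym2.mem_mk_right _ _, hs1 u⟩
      · rw [hmem, hs2 v, huv]
        exact ⟨Sym2.mem_mk_right _ _, hs1 v⟩
      · exact h4
    have h6 := card_le_card h5
    rw [ht, card_insert_of_notMem, card_insert_of_notMem, card_singleton] at h6
    · omega
    · rw [mem_singleton]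
      intro h
      have h7 := hf1 h
      rw [huv] at h7
      exact (hs1 v).ne h7
    · rw [mem_insert, mem_singleton]
      rintro (h | h)
      · exact hne (hf1 h)
      · exact (hs1 u).ne (hf1 h)
  refine ⟨Equiv.ofBijective s ((Fintype.bijective_iff_injective_and_card s).2 ⟨hinj, rfl⟩), ?_, ?_⟩
  · intro v
    exact hs1 v
  · intro v
    exact hss v

variable {H : SimpleGraph V} [DecidableRel H.Adj] {σ : Equiv.Perm V}

lemma nbr_of_orient (h2 : ∀ v, H.degree v = 2) (hσ1 : ∀ v, H.Adj v (σ v))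
    (hσ2 : ∀ v, σ (σ v) ≠ v) {u w : V} (h : H.Adj u w) : w = σ u ∨ u = σ w := by
  classical
  have h3 : H.Adj u (σ.symm u) := by
    have := hσ1 (σ.symm u)
    rw [Equiv.apply_symm_apply] at this
    exact this.symm
  have h4 : σ u ≠ σ.symm u := by
    intro h5
    have := hσ2 (σ.symm u)
    rw [Equiv.apply_symm_apply] at this
    exact this h5
  have h5 : ({σ u, σ.symm u} : Finset V) = H.neighborFinset u := by
    refine eq_of_subset_of_card_le ?_ ?_
    · intro x hx
      rw [mem_insert, mem_singleton] at hx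
      rw [SimpleGraph.mem_neighborFinset]
      rcases hx with rfl | rfl
      · exact hσ1 u
      · exact h3
    · rw [SimpleGraph.card_neighborFinset_eq_degree, h2, card_pair h4]
  have h6 : w ∈ ({σ u, σ.symm u} : Finset V) := by
    rw [h5, SimpleGraph.mem_neighborFinset]
    exact h
  rw [mem_insert, mem_singleton] at h6
  rcases h6 with h6 | h6
  · exact Or.inl h6
  · right
    rw [h6, Equiv.apply_symm_apply]

lemma comp_iff (h2 : ∀ v, H.degree v = 2) (hσ1 : ∀ v, H.Adj v (σ v))
    (hσ2 : ∀ v, σ (σ v) ≠ v) (u v : V) :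
    H.connectedComponentMk u = H.connectedComponentMk v ↔ σ.SameCycle u v := by
  rw [SimpleGraph.ConnectedComponent.eq]
  constructor
  · rintro ⟨p⟩
    induction p with
    | nil => exact Equiv.Perm.SameCycle.refl _ _
    | cons h p ih =>
      refine Equiv.Perm.SameCycle.trans ?_ ih
      rcases nbr_of_orient h2 hσ1 hσ2 h with h3 | h3
      · rw [h3]
        exact ⟨1, by simp⟩
      · rw [h3]
        exact Equiv.Perm.SameCycle.symm ⟨1, by simp⟩
  · rintro h
    obtain ⟨i, _, hi⟩ := h.exists_pow_eq'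
    rw [← hi]
    have h3 : ∀ i : ℕ, H.Reachable u ((σ ^ i) u) := by
      intro i
      induction i with
      | zero => simp
      | succ i ih =>
        rw [pow_succ', Equiv.Perm.mul_apply]
        exact ih.trans (hσ1 _).reachable
    exact h3 i

lemma period_of_card {b : ℕ} {v : V} (hc : (open Classical in #{u | σ.SameCycle v u}) = b) :
    0 < b ∧ (σ ^ b) v = v ∧ ∀ i, 0 < i → i < b → (σ ^ i) v ≠ v := by
  classical
  set p := Function.minimalPeriod σ v with hp
  have hper : v ∈ Function.periodicPts σ := by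
    refine ⟨orderOf σ, orderOf_pos σ, ?_⟩
    rw [Function.IsPeriodicPt, Function.IsFixedPt, Equiv.Perm.iterate_eq_pow, pow_orderOf_eq_one]
    rfl
  have hpos : 0 < p := Function.minimalPeriod_pos_of_mem_periodicPts hper
  have h1 : (σ ^ p) v = v := by
    have := Function.isPeriodicPt_minimalPeriod σ v
    rw [Function.IsPeriodicPt, Function.IsFixedPt, Equiv.Perm.iterate_eq_pow] at this
    exact this
  have h2 : ∀ i, 0 < i → i < p → (σ ^ i) v ≠ v := by
    intro i hi hip h
    have h3 : Function.IsPeriodicPt σ i v := by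
      rw [Function.IsPeriodicPt, Function.IsFixedPt, Equiv.Perm.iterate_eq_pow]
      exact h
    exact absurd (Function.IsPeriodicPt.minimalPeriod_le hi h3) (not_le.2 hip)
  have h3 : ({u | σ.SameCycle v u} : Finset V) = (range p).image fun i => (σ ^ i) v := by
    ext u
    simp only [mem_filter, mem_univ, true_and, mem_image, mem_range]
    constructor
    · intro h
      obtain ⟨i, _, hi⟩ := h.exists_pow_eq'
      refine ⟨i % p, Nat.mod_lt _ hpos, ?_⟩
      rw [← hi]
      have h4 : ∀ k, (σ ^ (p * k)) v = v := by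
        intro k
        induction k with
        | zero => simp
        | succ k ih => rw [Nat.mul_succ, pow_add, Equiv.Perm.mul_apply, h1, ih]
      conv_rhs => rw [← Nat.mod_add_div i p]
      rw [pow_add, Equiv.Perm.mul_apply, h4]
    · rintro ⟨i, hi, rfl⟩
      exact ⟨i, by rw [zpow_natCast]⟩
  have h4 : b = p := by
    rw [← hc, h3, card_image_of_injOn, card_range]
    intro i hi j hj hij
    simp only [coe_range, Set.mem_Iio] at hi hj
    by_contra hne
    rcases lt_or_gt_of_ne hne with hlt | hlt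
    · have h5 : (σ ^ i) ((σ ^ (j - i)) v) = (σ ^ i) v := by
        rw [← Equiv.Perm.mul_apply, ← pow_add, Nat.add_sub_cancel' hlt.le]
        exact hij.symm
      exact h2 (j - i) (by omega) (by omega) ((σ ^ i).injective h5)
    · have h5 : (σ ^ j) ((σ ^ (i - j)) v) = (σ ^ j) v := by
        rw [← Equiv.Perm.mul_apply, ← pow_add, Nat.add_sub_cancel' hlt.le]
        exact hij
      exact h2 (i - j) (by omega) (by omega) ((σ ^ j).injective h5)
  rw [h4]
  exact ⟨hpos, h1, h2⟩

end orient

/-- the statement of the edge usage theorem for the quotient -/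
def EdgeUniform : Prop :=
  ∀ (N : Type) [Fintype N] [DecidableEq N] (Q : SimpleGraph N) [DecidableRel Q.Adj],
    Q.Connected → VT Q →
    (∀ A B C D, Q.Adj A B → Q.Adj C D → ∃ φ : Q ≃g Q, φ A = C ∧ φ B = D) →
    ∀ r μ : ℕ, (∀ A, Q.degree A = r) → 3 ≤ μ * r →
    ∃ P : ∀ A B : N, Fin (μ * r * r) → Q.Walk A B,
      (∀ A B i, A ≠ B → (P A B i).IsPath) ∧
      (∀ A B i, A ≠ B → P B A i = (P A B i).reverse) ∧
      ∃ c : ℕ, ∀ A B, Q.Adj A B → (open Classical in
        #{t : N × N × Fin (μ * r * r) | t.1 ≠ t.2.1 ∧ s(A, B) ∈ (P t.1 t.2.1 t.2.2).edges}) = c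

section struct

variable {V : Type} [Fintype V] [DecidableEq V] {G : SimpleGraph V} {M : V → V}

/-- the graph without the matching -/
def offM (G : SimpleGraph V) (M : V → V) (hMM : ∀ v, M (M v) = v) : SimpleGraph V where
  Adj u w := G.Adj u w ∧ w ≠ M u
  symm := ⟨fun u w h => ⟨h.1.symm, fun h' => h.2 (by rw [h', hMM])⟩⟩
  loopless := ⟨fun u h => G.loopless.irrefl u h.1⟩

/-- automorphisms of `G` commuting with `M` act on the graph without the matching -/
def offI (hMM : ∀ v, M (M v) = v) (hMφ : ∀ (φ : G ≃g G) v, φ (M v) = M (φ v)) (φ : G ≃g G) :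
    offM G M hMM ≃g offM G M hMM where
  toEquiv := φ.toEquiv
  map_rel_iff' := by
    intro a b
    show (G.Adj (φ a) (φ b) ∧ φ b ≠ M (φ a)) ↔ (G.Adj a b ∧ b ≠ M a)
    rw [φ.map_adj_iff, ← hMφ, φ.injective.ne_iff]

/-- the quotient graph -/
def quo {N : Type} (M : V → V) (hMM : ∀ v, M (M v) = v) (cl : V → N) : SimpleGraph N where
  Adj A B := A ≠ B ∧ ∃ v, cl v = A ∧ cl (M v) = B
  symm := ⟨fun A B h => ⟨h.1.symm, by
    obtain ⟨v, h1, h2⟩ := h.2
    exact ⟨M v, h2, by rw [hMM]; exact h1⟩⟩⟩
  loopless := ⟨fun A h => h.1 rfl⟩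

/-- the induced automorphism of the quotient -/
def quoI {N : Type} (hMM : ∀ v, M (M v) = v) {cl : V → N}
    (hMφ : ∀ (φ : G ≃g G) v, φ (M v) = M (φ v)) (φ : G ≃g G) (f : N ≃ N)
    (hf : ∀ v, f (cl v) = cl (φ v)) : quo M hMM cl ≃g quo M hMM cl where
  toEquiv := f
  map_rel_iff' := by
    intro A B
    constructor
    · rintro ⟨h1, v, h2, h3⟩
      refine ⟨fun h => h1 (by rw [h]), φ.symm v, ?_, ?_⟩
      · apply f.injective
        rw [hf, φ.apply_symm_apply, h2]
      · apply f.injective
        rw [hf, hMφ, φ.apply_symm_apply, h3]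
    · rintro ⟨h1, v, h2, h3⟩
      refine ⟨fun h => h1 (f.injective h), φ v, ?_, ?_⟩
      · rw [← hf, h2]
      · rw [← hMφ, ← hf, h3]

lemma vt_degree {N : Type} [Fintype N] {Q : SimpleGraph N} [DecidableRel Q.Adj] (hQ : VT Q)
    (A B : N) : Q.degree A = Q.degree B := by
  obtain ⟨φ, rfl⟩ := hQ A B
  rw [← SimpleGraph.card_neighborFinset_eq_degree, ← SimpleGraph.card_neighborFinset_eq_degree]
  refine card_bij (fun x _ => φ x) ?_ ?_ ?_
  · intro x hx
    rw [SimpleGraph.mem_neighborFinset] at hx ⊢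
    exact φ.map_adj_iff.2 hx
  · intro x _ y _ h
    exact φ.injective h
  · intro y hy
    rw [SimpleGraph.mem_neighborFinset] at hy
    refine ⟨φ.symm y, ?_, φ.apply_symm_apply y⟩
    rw [SimpleGraph.mem_neighborFinset, ← φ.map_adj_iff, φ.apply_symm_apply]
    exact hy

/-- **Cubic graphs with an invariant perfect matching.** -/
theorem hasUPS_of_matching [DecidableRel G.Adj] (hG : G.Connected) (hT : VT G)
    (hd : ∀ v, G.degree v = 3) (hM : ∀ v, G.Adj v (M v)) (hMM : ∀ v, M (M v) = v)
    (hMφ : ∀ (φ : G ≃g G) v, φ (M v) = M (φ v)) (hEU : EdgeUniform) : HasUPS G := by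
  classical
  have : Nonempty V := hG.nonempty
  set H := offM G M hMM with hH
  have hHadj : ∀ u w, H.Adj u w ↔ G.Adj u w ∧ w ≠ M u := fun u w => Iff.rfl
  have h2 : ∀ v, H.degree v = 2 := by
    intro v
    rw [← SimpleGraph.card_neighborFinset_eq_degree]
    have h3 : H.neighborFinset v = (G.neighborFinset v).erase (M v) := by
      ext w
      rw [SimpleGraph.mem_neighborFinset, mem_erase, SimpleGraph.mem_neighborFinset, hHadj]
      tauto
    rw [h3, card_erase_of_mem (by rw [SimpleGraph.mem_neighborFinset]; exact hM v),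
      SimpleGraph.card_neighborFinset_eq_degree, hd]
  obtain ⟨σ, hσ1, hσ2⟩ := exists_orient H h2
  have hσG : ∀ v, G.Adj v (σ v) := fun v => ((hHadj _ _).1 (hσ1 v)).1
  let N := H.ConnectedComponent
  let cl : V → N := H.connectedComponentMk
  have hsame : ∀ u v, cl u = cl v ↔ σ.SameCycle u v := comp_iff h2 hσ1 hσ2
  have hsurj : Function.Surjective cl := fun A => by
    induction A using SimpleGraph.ConnectedComponent.ind with
    | h v => exact ⟨v, rfl⟩
  have : Finite N := Finite.of_surjective cl hsurj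
  let _ : Fintype N := Fintype.ofFinite N
  -- action on the classes
  let f : (G ≃g G) → (N ≃ N) := fun φ => (offI hMM hMφ φ).connectedComponentEquiv
  have hf : ∀ φ v, f φ (cl v) = cl (φ v) := fun φ v => rfl
  have hclφ : ∀ (φ : G ≃g G) u v, cl (φ u) = cl (φ v) ↔ cl u = cl v := by
    intro φ u v
    rw [← hf, ← hf, (f φ).injective.eq_iff]
  -- class size
  obtain ⟨v0⟩ := (inferInstance : Nonempty V)
  set b := #{u | σ.SameCycle v0 u} with hb
  have hcb : ∀ v, #{u | σ.SameCycle v u} = b := by
    intro v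
    obtain ⟨φ, rfl⟩ := hT v0 v
    rw [hb]
    symm
    refine card_bij (fun x _ => φ x) ?_ ?_ ?_
    · intro x hx
      simp only [mem_filter, mem_univ, true_and] at hx ⊢
      rw [← hsame, hclφ, hsame]
      exact hx
    · intro x _ y _ h
      exact φ.injective h
    · intro y hy
      simp only [mem_filter, mem_univ, true_and] at hy
      refine ⟨φ.symm y, ?_, φ.apply_symm_apply y⟩
      simp only [mem_filter, mem_univ, true_and]
      rw [← hsame, ← hclφ φ, φ.apply_symm_apply, hsame]
      exact hy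
  have hb0 : 0 < b := (period_of_card (hcb v0)).1
  have hbv : ∀ v, (σ ^ b) v = v := fun v => (period_of_card (hcb v)).2.1
  have hbi : ∀ v, ∀ i, 0 < i → i < b → (σ ^ i) v ≠ v := fun v => (period_of_card (hcb v)).2.2
  have hb3 : 3 ≤ b := by
    by_contra hlt
    have h3 : b = 1 ∨ b = 2 := by omega
    rcases h3 with h3 | h3
    · have h4 := hbv v0
      rw [h3, pow_one] at h4
      exact (hσG v0).ne h4.symm
    · have h4 := hbv v0
      rw [h3, pow_two, Equiv.Perm.mul_apply] at h4
      exact hσ2 v0 h4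
  by_cases hcase : ∃ v, cl (M v) = cl v
  · -- one class only
    obtain ⟨v1, hv1⟩ := hcase
    have hall : ∀ v, cl (M v) = cl v := by
      intro v
      obtain ⟨φ, rfl⟩ := hT v1 v
      rw [← hMφ, hclφ]
      exact hv1
    have hone : ∀ u w, cl u = cl w := by
      intro u w
      obtain ⟨p⟩ := hG.preconnected u w
      induction p with
      | nil => rfl
      | cons h p ih =>
        rename_i a c d
        refine Eq.trans ?_ ih
        by_cases h4 : c = M a
        · rw [h4, hall]
        · exact SimpleGraph.ConnectedComponent.sound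
            ((hHadj a c).2 ⟨h, h4⟩).reachable
    refine hasUPS_of_routes hσG hM hMM hb0 hbv hbi (fun _ _ => []) ?_ ?_ 0 0 ?_ ?_
    · intro x y _
      refine ⟨?_, by simp [segs]⟩
      intro s hs
      simp only [segs, List.mem_singleton] at hs
      rw [hs]
      exact (hsame _ _).1 (hone x y)
    · intro x y _
      rfl
    · intro v
      simp [port]
    · intro v
      simp
  · push Not at hcase
    set Q := quo M hMM cl with hQ
    have hQadj : ∀ v, Q.Adj (cl v) (cl (M v)) := fun v => ⟨(hcase v).symm, v, rfl, rfl⟩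
    have hQc : Q.Connected := by
      have : Nonempty N := ⟨cl v0⟩
      refine ⟨?_⟩
      intro A B
      obtain ⟨u, rfl⟩ := hsurj A
      obtain ⟨w, rfl⟩ := hsurj B
      obtain ⟨p⟩ := hG.preconnected u w
      induction p with
      | nil => exact SimpleGraph.Reachable.refl _
      | cons h p ih =>
        rename_i a c d
        refine SimpleGraph.Reachable.trans ?_ ih
        by_cases h4 : c = M a
        · rw [h4]
          exact (hQadj a).reachable
        · have h5 : cl a = cl c := SimpleGraph.ConnectedComponent.sound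
            ((hHadj a c).2 ⟨h, h4⟩).reachable
          rw [h5]
    let F : (G ≃g G) → (Q ≃g Q) := fun φ => quoI hMM hMφ φ (f φ) (hf φ)
    have hF : ∀ φ v, F φ (cl v) = cl (φ v) := fun φ v => rfl
    have hQT : VT Q := by
      intro A B
      obtain ⟨u, rfl⟩ := hsurj A
      obtain ⟨w, rfl⟩ := hsurj B
      obtain ⟨φ, hφ⟩ := hT u w
      exact ⟨F φ, by rw [hF, hφ]⟩
    have hQA : ∀ A B C D, Q.Adj A B → Q.Adj C D →
        ∃ φ : G ≃g G, F φ A = C ∧ F φ B = D := by
      rintro A B C D ⟨_, v, rfl, rfl⟩ ⟨_, w, rfl, rfl⟩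
      obtain ⟨φ, hφ⟩ := hT v w
      exact ⟨φ, by rw [hF, hφ], by rw [hF, hMφ, hφ]⟩
    set r := Q.degree (cl v0) with hr
    have hr' : ∀ A, Q.degree A = r := fun A => vt_degree hQT _ _
    set μ := #{v | cl v = cl v0 ∧ cl (M v) = cl (M v0)} with hμ
    have hμ' : ∀ A B, Q.Adj A B → #{v | cl v = A ∧ cl (M v) = B} = μ := by
      intro A B hAB
      obtain ⟨φ, hφ1, hφ2⟩ := hQA _ _ _ _ (hQadj v0) hAB
      rw [hμ]
      symm
      refine card_bij (fun x _ => φ x) ?_ ?_ ?_
      · intro x hx
        simp only [mem_filter, mem_univ, true_and] at hx ⊢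
        rw [← hMφ, ← hF, ← hF, hx.1, hx.2]
        exact ⟨hφ1, hφ2⟩
      · intro x _ y _ h
        exact φ.injective h
      · intro y hy
        simp only [mem_filter, mem_univ, true_and] at hy
        refine ⟨φ.symm y, ?_, φ.apply_symm_apply y⟩
        simp only [mem_filter, mem_univ, true_and]
        constructor
        · apply (F φ).injective
          rw [hF, φ.apply_symm_apply, hy.1, hφ1]
        · apply (F φ).injective
          rw [hF, hMφ, φ.apply_symm_apply, hy.2, hφ2]
    have hbr : b = μ * r := by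
      have h3 : #{u | σ.SameCycle v0 u}
          = ∑ B ∈ Q.neighborFinset (cl v0), #{v | cl v = cl v0 ∧ cl (M v) = B} := by
        rw [← card_biUnion]
        · congr 1
          ext u
          simp only [mem_filter, mem_univ, true_and, mem_biUnion, SimpleGraph.mem_neighborFinset]
          constructor
          · intro h
            have h4 : cl u = cl v0 := ((hsame _ _).2 h).symm
            exact ⟨cl (M u), by rw [← h4]; exact hQadj u, h4, rfl⟩
          · rintro ⟨B, _, h4, _⟩
            exact (hsame _ _).1 h4.symm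
        · intro B _ B' _ hne
          simp only [Function.onFun]
          rw [disjoint_left]
          intro x hx hx'
          simp only [mem_filter, mem_univ, true_and] at hx hx'
          exact hne (hx.2.symm.trans hx'.2)
      rw [hb, h3, sum_congr rfl (g := fun _ => μ), sum_const,
        SimpleGraph.card_neighborFinset_eq_degree, smul_eq_mul, mul_comm]
      intro B hB
      rw [SimpleGraph.mem_neighborFinset] at hB
      exact hμ' _ _ hB
    obtain ⟨P, hP1, hP2, c, hc⟩ := hEU N Q hQc hQT (fun A B C D h h' => by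
      obtain ⟨φ, h3, h4⟩ := hQA A B C D h h'
      exact ⟨F φ, h3, h4⟩) r μ hr' (by rw [← hbr]; exact hb3)
    exact hasUPS_of_edge_uniform hσG hM hMM hb3 hbv hbi hsame hsurj hQadj hμ' hbr P hP1 hP2 c hc

/-- arc-transitivity -/
def ArcT (G : SimpleGraph V) : Prop :=
  ∀ a b c d, G.Adj a b → G.Adj c d → ∃ φ : G ≃g G, φ a = c ∧ φ b = d

/-- a neighbour of `v0` fixed by the stabiliser gives an equivariant permutation -/
lemma exists_equiv (hT : VT G) {v0 m : V} (hm : G.Adj v0 m)
    (hfix : ∀ φ : G ≃g G, φ v0 = v0 → φ m = m) :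
    ∃ M : V → V, M v0 = m ∧ (∀ v, G.Adj v (M v)) ∧ (∀ (φ : G ≃g G) v, φ (M v) = M (φ v)) ∧
      Function.Bijective M := by
  choose τ hτ using hT v0
  have key : ∀ (φ : G ≃g G) v, φ v0 = v → φ m = τ v m := by
    intro φ v hv
    have h1 : (φ.trans (τ v).symm) v0 = v0 := by
      show (τ v).symm (φ v0) = v0
      rw [hv, (τ v).symm_apply_eq, hτ]
    have h2 := hfix _ h1
    have h3 : (τ v).symm (φ m) = m := h2
    rw [(τ v).symm_apply_eq] at h3
    exact h3
  have hφ : ∀ (φ : G ≃g G) v, φ (τ v m) = τ (φ v) m := by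
    intro φ v
    exact key ((τ v).trans φ) (φ v) (by show φ ((τ v) v0) = φ v; rw [hτ])
  have h0 : τ v0 m = m := by
    rw [← key (SimpleGraph.Iso.refl) v0 rfl]
    rfl
  refine ⟨fun v => τ v m, h0, ?_, hφ, ?_⟩
  · intro v
    have h1 := (τ v).map_adj_iff.2 hm
    rw [hτ] at h1
    exact h1
  · rw [← Finite.surjective_iff_bijective]
    intro w
    obtain ⟨φ, h1⟩ := hT m w
    refine ⟨φ v0, ?_⟩
    show τ (φ v0) m = w
    rw [← hφ, h0, h1]

/-- a cubic vertex-transitive graph which is not arc-transitive has an equivariant perfect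
matching -/
theorem exists_matching [DecidableRel G.Adj] (hG : G.Connected) (hT : VT G)
    (hd : ∀ v, G.degree v = 3) (hna : ¬ ArcT G) :
    ∃ M : V → V, (∀ v, G.Adj v (M v)) ∧ (∀ v, M (M v) = v) ∧
      (∀ (φ : G ≃g G) v, φ (M v) = M (φ v)) := by
  classical
  obtain ⟨v0⟩ := hG.nonempty
  let F : Finset V := (G.neighborFinset v0).filter fun w => ∀ φ : G ≃g G, φ v0 = v0 → φ w = w
  have hF : ∀ w, w ∈ F ↔ G.Adj v0 w ∧ ∀ φ : G ≃g G, φ v0 = v0 → φ w = w := by
    intro w
    simp only [F, mem_filter, SimpleGraph.mem_neighborFinset]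
  have hNφ : ∀ (φ : G ≃g G) w, φ v0 = v0 → G.Adj v0 w → G.Adj v0 (φ w) := by
    intro φ w h1 h2
    have h3 := φ.map_adj_iff.2 h2
    rw [h1] at h3
    exact h3
  obtain ⟨a, b, c, hab, hac, hbc, hN⟩ := card_eq_three.1
    ((SimpleGraph.card_neighborFinset_eq_degree G v0).trans (hd v0))
  have hmem : ∀ w, G.Adj v0 w ↔ w = a ∨ w = b ∨ w = c := by
    intro w
    rw [← SimpleGraph.mem_neighborFinset, hN]
    simp
  -- equivalence of neighbours
  let r : V → V → Prop := fun x y => ∃ φ : G ≃g G, φ v0 = v0 ∧ φ x = y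
  have hrs : ∀ x y, r x y → r y x := by
    rintro x y ⟨φ, h1, h2⟩
    exact ⟨φ.symm, by rw [φ.symm_apply_eq, h1], by rw [φ.symm_apply_eq, h2]⟩
  have hrt : ∀ x y z, r x y → r y z → r x z := by
    rintro x y z ⟨φ, h1, h2⟩ ⟨ψ, h3, h4⟩
    exact ⟨φ.trans ψ, by show ψ (φ v0) = v0; rw [h1, h3], by show ψ (φ x) = z; rw [h2, h4]⟩
  have hnr : ¬ (r a b ∧ r b c) := by
    rintro ⟨h1, h2⟩
    have hall : ∀ x y, G.Adj v0 x → G.Adj v0 y → r x y := by
      have hrr : ∀ x, r x x := fun x => ⟨SimpleGraph.Iso.refl, rfl, rfl⟩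
      have h3 : ∀ x, G.Adj v0 x → r a x := by
        intro x hx
        rcases (hmem x).1 hx with rfl | rfl | rfl
        · exact hrr _
        · exact h1
        · exact hrt _ _ _ h1 h2
      intro x y hx hy
      exact hrt _ _ _ (hrs _ _ (h3 x hx)) (h3 y hy)
    apply hna
    intro p q s t hpq hst
    obtain ⟨φ, h3⟩ := hT p v0
    obtain ⟨ψ, h4⟩ := hT s v0
    have h5 : G.Adj v0 (φ q) := by
      have := φ.map_adj_iff.2 hpq
      rwa [h3] at this
    have h6 : G.Adj v0 (ψ t) := by
      have := ψ.map_adj_iff.2 hst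
      rwa [h4] at this
    obtain ⟨θ, h7, h8⟩ := hall _ _ h5 h6
    refine ⟨(φ.trans θ).trans ψ.symm, ?_, ?_⟩
    · show ψ.symm (θ (φ p)) = s
      rw [h3, h7, ψ.symm_apply_eq, h4]
    · show ψ.symm (θ (φ q)) = t
      rw [h8, ψ.symm_apply_apply]
  have hmoved : ∀ w, G.Adj v0 w → w ∉ F → ∃ φ : G ≃g G, φ v0 = v0 ∧ φ w ≠ w := by
    intro w h1 h2
    rw [hF] at h2
    push Not at h2
    exact h2 h1
  -- the number of fixed neighbours is odd
  have hodd : Odd F.card := by
    have hle : F.card ≤ 3 := by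
      refine (card_filter_le _ _).trans ?_
      rw [SimpleGraph.card_neighborFinset_eq_degree, hd]
    have hFsub : F ⊆ {a, b, c} := by
      intro w hw
      rw [← hN, SimpleGraph.mem_neighborFinset]
      exact ((hF w).1 hw).1
    have hne0 : F.card ≠ 0 := by
      intro h0
      rw [card_eq_zero] at h0
      have hnm : ∀ w, w ∉ F := fun w => by rw [h0]; exact notMem_empty w
      obtain ⟨φ, h1, h2⟩ := hmoved a ((hmem a).2 (Or.inl rfl)) (hnm a)
      obtain ⟨ψ, h3, h4⟩ := hmoved b ((hmem b).2 (Or.inr (Or.inl rfl))) (hnm b)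
      obtain ⟨θ, h5, h6⟩ := hmoved c ((hmem c).2 (Or.inr (Or.inr rfl))) (hnm c)
      have e1 := (hmem _).1 (hNφ φ a h1 ((hmem a).2 (Or.inl rfl)))
      have e2 := (hmem _).1 (hNφ ψ b h3 ((hmem b).2 (Or.inr (Or.inl rfl))))
      have e3 := (hmem _).1 (hNφ θ c h5 ((hmem c).2 (Or.inr (Or.inr rfl))))
      have f1 : r a b ∨ r a c := by
        rcases e1 with e | e | e
        · exact absurd e h2
        · exact Or.inl ⟨φ, h1, e⟩
        · exact Or.inr ⟨φ, h1, e⟩
      have f2 : r b a ∨ r b c := by
        rcases e2 with e | e | e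
        · exact Or.inl ⟨ψ, h3, e⟩
        · exact absurd e h4
        · exact Or.inr ⟨ψ, h3, e⟩
      have f3 : r c a ∨ r c b := by
        rcases e3 with e | e | e
        · exact Or.inl ⟨θ, h5, e⟩
        · exact Or.inr ⟨θ, h5, e⟩
        · exact absurd e h6
      apply hnr
      rcases f1 with f1 | f1
      · refine ⟨f1, ?_⟩
        rcases f3 with f3 | f3
        · exact hrs _ _ (hrt _ _ _ f3 f1)
        · exact hrs _ _ f3
      · rcases f2 with f2 | f2
        · exact ⟨hrs _ _ f2, hrt _ _ _ f2 f1⟩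
        · exact ⟨hrt _ _ _ f1 (hrs _ _ f2), f2⟩
    have hne2 : F.card ≠ 2 := by
      intro h0
      -- the third neighbour is moved to a fixed one
      have h1 : (G.neighborFinset v0 \ F).card = 1 := by
        rw [card_sdiff_of_subset (filter_subset _ _), SimpleGraph.card_neighborFinset_eq_degree,
          hd, h0]
      obtain ⟨z, hz⟩ := card_eq_one.1 h1
      have hz1 : z ∈ G.neighborFinset v0 \ F := by rw [hz]; exact mem_singleton_self z
      rw [mem_sdiff, SimpleGraph.mem_neighborFinset] at hz1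
      obtain ⟨φ, h2, h3⟩ := hmoved z hz1.1 hz1.2
      have h4 : φ z ∈ F := by
        by_contra h5
        have h6 : φ z ∈ G.neighborFinset v0 \ F := by
          rw [mem_sdiff, SimpleGraph.mem_neighborFinset]
          exact ⟨hNφ φ z h2 hz1.1, h5⟩
        rw [hz, mem_singleton] at h6
        exact h3 h6
      have h5 := ((hF _).1 h4).2 φ h2
      exact h3 (φ.injective h5)
    have h3 : F.card = 1 ∨ F.card = 3 := by omega
    rcases h3 with h3 | h3
    · rw [h3]; exact odd_one
    · rw [h3]; exact ⟨1, rfl⟩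
  -- the equivariant permutations
  have hex : ∀ m, ∃ M : V → V, m ∈ F → M v0 = m ∧ (∀ v, G.Adj v (M v)) ∧
      (∀ (φ : G ≃g G) v, φ (M v) = M (φ v)) ∧ Function.Bijective M := by
    intro m
    by_cases hm : m ∈ F
    · obtain ⟨M, h⟩ := exists_equiv hT ((hF m).1 hm).1 ((hF m).1 hm).2
      exact ⟨M, fun _ => h⟩
    · exact ⟨id, fun h => absurd h hm⟩
  choose M hM using hex
  have huniq : ∀ (A B : V → V), (∀ (φ : G ≃g G) v, φ (A v) = A (φ v)) →
      (∀ (φ : G ≃g G) v, φ (B v) = B (φ v)) → A v0 = B v0 → ∀ v, A v = B v := by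
    intro A B hA hB h0 v
    obtain ⟨φ, rfl⟩ := hT v0 v
    rw [← hA, ← hB, h0]
  -- the inverse neighbour
  have hinv : ∀ m, ∃ m', m ∈ F → m' ∈ F ∧ M m m' = v0 := by
    intro m
    by_cases hm : m ∈ F
    · obtain ⟨h1, h2, h3, h4⟩ := hM m hm
      obtain ⟨m', h5⟩ := h4.2 v0
      refine ⟨m', fun _ => ⟨(hF m').2 ⟨?_, ?_⟩, h5⟩⟩
      · have := h2 m'
        rw [h5] at this
        exact this.symm
      · intro φ hφ
        apply h4.1
        rw [← h3, h5, hφ]
    · exact ⟨m, fun h => absurd h hm⟩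
  choose ι hι using hinv
  have hιι : ∀ m (hm : m ∈ F), ι (ι m) = m := by
    intro m hm
    obtain ⟨h1, h2, h3, h4⟩ := hM m hm
    obtain ⟨h5, h6⟩ := hι m hm
    obtain ⟨g1, g2, g3, g4⟩ := hM _ h5
    obtain ⟨h7, h8⟩ := hι _ h5
    -- M m (M (ι m) v) = v for all v
    have h9 : ∀ v, M m (M (ι m) v) = v := by
      refine huniq (fun v => M m (M (ι m) v)) id (fun φ v => ?_) (fun φ v => rfl) ?_
      · rw [h3, g3]
      · simp only [id]
        rw [g1, h6]
    have h10 := h9 (ι (ι m))
    rw [h8, h1] at h10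
    exact h10.symm
  have hfix : ∃ m ∈ F, ι m = m := by
    by_contra hno
    push Not at hno
    have h1 : ∑ m ∈ F, (1 : ZMod 2) = 0 := by
      refine Finset.sum_involution (fun m _ => ι m) ?_ ?_ ?_ ?_
      · intro m _
        decide
      · intro m hm _
        exact hno m hm
      · intro m hm
        exact (hι m hm).1
      · intro m hm
        exact hιι m hm
    rw [sum_const, nsmul_eq_mul, mul_one] at h1
    rw [ZMod.natCast_eq_zero_iff] at h1
    obtain ⟨k, hk⟩ := hodd
    omega
  obtain ⟨m, hm, hmm⟩ := hfix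
  obtain ⟨h1, h2, h3, h4⟩ := hM m hm
  obtain ⟨h5, h6⟩ := hι m hm
  refine ⟨M m, h2, ?_, h3⟩
  refine huniq (fun v => M m (M m v)) id (fun φ v => ?_) (fun φ v => rfl) ?_
  · rw [h3, h3]
  · simp only [id]
    rw [hmm] at h6
    rw [h1, h6]

/-- **Cubic vertex-transitive graphs which are not arc-transitive.** -/
theorem cubic_of_not_arcT [DecidableRel G.Adj] (hG : G.Connected) (hT : VT G)
    (hd : ∀ v, G.degree v = 3) (hna : ¬ ArcT G) (hEU : EdgeUniform) : HasUPS G := by
  obtain ⟨M, h1, h2, h3⟩ := exists_matching hG hT hd hna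
  exact hasUPS_of_matching hG hT hd h1 h2 h3 hEU

end struct

end Pool.Agent.UPS.Cyc
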