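import Mathlib
import Pool.Agent.Lib.MP_876e19_co.Defs

/-!
# Vertex connectivity of vertex-transitive graphs (Mader, Watkins): atoms
-/

set_option autoImplicit false
set_option linter.unusedSectionVars false

namespace Pool.Agent.UPS.Atoms

open Finset

variable {V : Type*} [Fintype V] [DecidableEq V] (G : SimpleGraph V) [DecidableRel G.Adj]

/-- outer boundary of a set of vertices -/
def bd (X : Finset V) : Finset V := univ.filter (fun v => v ∉ X ∧ ∃ u ∈ X, G.Adj u v)

/-- the vertices which are neither in `X` nor adjacent to `X` -/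
def far (X : Finset V) : Finset V := univ.filter (fun v => v ∉ X ∧ ∀ u ∈ X, ¬ G.Adj u v)

variable {G}

lemma mem_bd {X : Finset V} {v : V} : v ∈ bd G X ↔ v ∉ X ∧ ∃ u ∈ X, G.Adj u v := by simp [bd]

lemma mem_far {X : Finset V} {v : V} : v ∈ far G X ↔ v ∉ X ∧ ∀ u ∈ X, ¬ G.Adj u v := by
  simp [far]

lemma trich (X : Finset V) (v : V) : v ∈ X ∨ v ∈ bd G X ∨ v ∈ far G X := by
  by_cases h : v ∈ X
  · exact Or.inl h
  · by_cases h' : ∃ u ∈ X, G.Adj u v
    · exact Or.inr (Or.inl (mem_bd.2 ⟨h, h'⟩))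
    · push Not at h'
      exact Or.inr (Or.inr (mem_far.2 ⟨h, h'⟩))

lemma card_split (X Y : Finset V) :
    Y.card = (Y ∩ X).card + (Y ∩ bd G X).card + (Y ∩ far G X).card := by
  have h1 : Y = (Y ∩ X) ∪ ((Y ∩ bd G X) ∪ (Y ∩ far G X)) := by
    ext v
    simp only [mem_union, mem_inter]
    rcases trich (G := G) X v with h | h | h <;> tauto
  have h2 : Disjoint (Y ∩ bd G X) (Y ∩ far G X) := by
    rw [Finset.disjoint_left]
    intro v hv hv'
    simp only [mem_inter, mem_bd, mem_far] at hv hv'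
    obtain ⟨_, _, u, hu, ha⟩ := hv
    exact hv'.2.2 u hu ha
  have h3 : Disjoint (Y ∩ X) ((Y ∩ bd G X) ∪ (Y ∩ far G X)) := by
    rw [Finset.disjoint_left]
    intro v hv hv'
    simp only [mem_inter, mem_union, mem_bd, mem_far] at hv hv'
    tauto
  conv_lhs => rw [h1]
  rw [card_union_of_disjoint h3, card_union_of_disjoint h2]
  omega

lemma bd_far_subset (X : Finset V) : bd G (far G X) ⊆ bd G X := by
  intro v hv
  rw [mem_bd] at hv
  obtain ⟨h1, u, hu, ha⟩ := hv
  rw [mem_far] at hu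
  rcases trich (G := G) X v with h | h | h
  · exact absurd ha.symm (hu.2 v h)
  · exact h
  · exact absurd h h1

lemma subset_far_far (X : Finset V) : X ⊆ far G (far G X) := by
  intro v hv
  rw [mem_far]
  refine ⟨fun h => (mem_far.1 h).1 hv, fun u hu ha => (mem_far.1 hu).2 v hv ha.symm⟩

lemma far_anti {X Y : Finset V} (h : X ⊆ Y) : far G Y ⊆ far G X := by
  intro v hv
  rw [mem_far] at hv ⊢
  exact ⟨fun h' => hv.1 (h h'), fun u hu => hv.2 u (h hu)⟩

/-- `k` is a lower bound for the size of separating boundaries -/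
def Lower (G : SimpleGraph V) [DecidableRel G.Adj] (k : ℕ) : Prop :=
  ∀ X : Finset V, X.Nonempty → (far G X).Nonempty → k ≤ (bd G X).card

/-- a fragment: a side of a separation of size `k` -/
def Frag (G : SimpleGraph V) [DecidableRel G.Adj] (k : ℕ) (X : Finset V) : Prop :=
  X.Nonempty ∧ (far G X).Nonempty ∧ (bd G X).card = k

lemma Frag.far {k : ℕ} (hk : Lower G k) {X : Finset V} (h : Frag G k X) :
    Frag G k (far G X) ∧ bd G (Atoms.far G X) = bd G X := by
  have h1 : (Atoms.far G (Atoms.far G X)).Nonempty := h.1.mono (subset_far_far X)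
  have h2 := hk _ h.2.1 h1
  have h3 : bd G (Atoms.far G X) = bd G X := by
    apply Finset.eq_of_subset_of_card_le (bd_far_subset X)
    rw [h.2.2]; exact h2
  exact ⟨⟨h.2.1, h1, by rw [h3]; exact h.2.2⟩, h3⟩

lemma Frag.far_far {k : ℕ} (hk : Lower G k) {X : Finset V} (h : Frag G k X) :
    Atoms.far G (Atoms.far G X) = X := by
  apply Finset.Subset.antisymm _ (subset_far_far X)
  intro v hv
  rcases trich (G := G) X v with h' | h' | h'
  · exact h'
  · exfalso
    rw [← (h.far hk).2, mem_bd] at h'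
    obtain ⟨_, u, hu, ha⟩ := h'
    exact (mem_far.1 hv).2 u hu ha
  · exact absurd h' (mem_far.1 hv).1

/-- an atom: a smallest fragment -/
def Atom (G : SimpleGraph V) [DecidableRel G.Adj] (k : ℕ) (X : Finset V) : Prop :=
  Frag G k X ∧ ∀ Y, Frag G k Y → X.card ≤ Y.card

lemma bd_inter_subset (A B : Finset V) :
    bd G (A ∩ B) ⊆ (bd G A ∩ B) ∪ (bd G A ∩ bd G B) ∪ (A ∩ bd G B) := by
  intro v hv
  rw [mem_bd] at hv
  obtain ⟨h1, u, hu, ha⟩ := hv
  rw [mem_inter] at h1 hu
  have hA : v ∈ A ∨ v ∈ bd G A := by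
    by_cases h : v ∈ A
    · exact Or.inl h
    · exact Or.inr (mem_bd.2 ⟨h, u, hu.1, ha⟩)
  have hB : v ∈ B ∨ v ∈ bd G B := by
    by_cases h : v ∈ B
    · exact Or.inl h
    · exact Or.inr (mem_bd.2 ⟨h, u, hu.2, ha⟩)
  simp only [mem_union, mem_inter]
  tauto

lemma card_bd_inter_le (A B : Finset V) :
    (bd G (A ∩ B)).card ≤
      (bd G A ∩ B).card + (bd G A ∩ bd G B).card + (A ∩ bd G B).card := by
  refine (card_le_card (bd_inter_subset A B)).trans ?_
  refine (card_union_le _ _).trans ?_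
  have := card_union_le (bd G A ∩ B) (bd G A ∩ bd G B)
  omega

/-- the corner lemma -/
lemma corner {k : ℕ} (hk : Lower G k) {A B : Finset V} (hA : Atom G k A) (hB : Frag G k B)
    (hAB : (A ∩ B).Nonempty) (hn : ¬ A ⊆ B) :
    k < (bd G A ∩ B).card + (bd G A ∩ bd G B).card + (A ∩ bd G B).card ∧
      far G A ∩ far G B = ∅ := by
  have h1 : (far G (A ∩ B)).Nonempty := hA.1.2.1.mono (far_anti inter_subset_left)
  have h2 := hk _ hAB h1
  have h3 : k ≠ (bd G (A ∩ B)).card := by
    intro h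
    have h4 := hA.2 _ ⟨hAB, h1, h.symm⟩
    have h5 : A ∩ B = A := Finset.eq_of_subset_of_card_le inter_subset_left h4
    exact hn (Finset.inter_eq_left.1 h5)
  have h4 := card_bd_inter_le (G := G) A B
  refine ⟨by omega, ?_⟩
  by_contra hne
  have hne' : (far G A ∩ far G B).Nonempty := Finset.nonempty_iff_ne_empty.2 hne
  have hfA := hA.1.far hk
  have hfB := hB.far hk
  have h6 : (far G (far G A ∩ far G B)).Nonempty := by
    refine hA.1.1.mono ?_
    exact (subset_far_far A).trans (far_anti inter_subset_left)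
  have h7 := hk _ hne' h6
  have h8 := card_bd_inter_le (G := G) (far G A) (far G B)
  rw [hfA.2, hfB.2] at h8
  have h9 := card_split (G := G) B (bd G A)
  have h10 := card_split (G := G) A (bd G B)
  rw [hA.1.2.2] at h9
  rw [hB.2.2] at h10
  have e1 : (bd G B ∩ A).card = (A ∩ bd G B).card := by rw [inter_comm]
  have e2 : (bd G B ∩ bd G A).card = (bd G A ∩ bd G B).card := by rw [inter_comm]
  have e3 : (bd G B ∩ far G A).card = (far G A ∩ bd G B).card := by rw [inter_comm]
  omega

/-- Mader: an atom which meets a smallest separator lies in it, and has at most half its size. -/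
theorem atom_subset {k : ℕ} (hk : Lower G k) {A B : Finset V} (hA : Atom G k A)
    (hB : Frag G k B) (hAT : (A ∩ bd G B).Nonempty) : A ⊆ bd G B ∧ 2 * A.card ≤ k := by
  have hfB := hB.far hk
  have hff := hB.far_far hk
  have sA := card_split (G := G) B (bd G A)
  rw [hA.1.2.2] at sA
  have sB := card_split (G := G) A (bd G B)
  rw [hB.2.2] at sB
  have cA := card_split (G := G) B A
  have cB := card_split (G := G) A B
  have cB' := card_split (G := G) A (far G B)
  have hAB := hA.2 _ hB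
  have hAB' := hA.2 _ hfB.1
  have e1 : (bd G B ∩ A).card = (A ∩ bd G B).card := by rw [inter_comm]
  have e2 : (bd G B ∩ bd G A).card = (bd G A ∩ bd G B).card := by rw [inter_comm]
  have e3 : (B ∩ A).card = (A ∩ B).card := by rw [inter_comm]
  have e4 : (B ∩ bd G A).card = (bd G A ∩ B).card := by rw [inter_comm]
  have e5 : (far G B ∩ A).card = (A ∩ far G B).card := by rw [inter_comm]
  have e6 : (far G B ∩ bd G A).card = (bd G A ∩ far G B).card := by rw [inter_comm]
  have hATp : 0 < (A ∩ bd G B).card := hAT.card_pos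
  have hnB : ¬ A ⊆ B := by
    intro h
    obtain ⟨v, hv⟩ := hAT
    rw [mem_inter, mem_bd] at hv
    exact hv.2.1 (h hv.1)
  have hnB' : ¬ A ⊆ far G B := by
    intro h
    obtain ⟨v, hv⟩ := hAT
    rw [mem_inter, ← hfB.2, mem_bd] at hv
    exact hv.2.1 (h hv.1)
  have key : A ∩ B = ∅ ∧ A ∩ far G B = ∅ := by
    by_cases p1 : (A ∩ B).Nonempty
    · exfalso
      obtain ⟨c1, c2⟩ := corner hk hA hB p1 hnB
      have c2' : (far G B ∩ far G A).card = 0 := by rw [inter_comm, c2]; rfl
      by_cases p2 : (A ∩ far G B).Nonempty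
      · obtain ⟨d1, d2⟩ := corner hk hA hfB.1 p2 hnB'
        rw [hfB.2] at d1
        rw [hff] at d2
        have d2' : (B ∩ far G A).card = 0 := by rw [inter_comm, d2]; rfl
        omega
      · have p2' : (A ∩ far G B).card = 0 := by
          rw [Finset.not_nonempty_iff_eq_empty.1 p2]; rfl
        omega
    · have p1' : A ∩ B = ∅ := Finset.not_nonempty_iff_eq_empty.1 p1
      refine ⟨p1', ?_⟩
      by_contra p2
      have p2' : (A ∩ far G B).Nonempty := Finset.nonempty_iff_ne_empty.2 p2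
      obtain ⟨d1, d2⟩ := corner hk hA hfB.1 p2' hnB'
      rw [hfB.2] at d1
      rw [hff] at d2
      have d2' : (B ∩ far G A).card = 0 := by rw [inter_comm, d2]; rfl
      have p1'' : (A ∩ B).card = 0 := by rw [p1']; rfl
      omega
  have hsub : A ⊆ bd G B := by
    intro v hv
    rcases trich (G := G) B v with h | h | h
    · exact absurd (mem_inter.2 ⟨hv, h⟩) (by rw [key.1]; simp)
    · exact h
    · exact absurd (mem_inter.2 ⟨hv, h⟩) (by rw [key.2]; simp)
  refine ⟨hsub, ?_⟩
  have k1 : (A ∩ B).card = 0 := by rw [key.1]; rfl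
  have k2 : (A ∩ far G B).card = 0 := by rw [key.2]; rfl
  have hfA := hA.1.far hk
  have hfar_far : (far G (far G A)).Nonempty := hfA.1.2.1
  have s1 : (A ∩ bd G B).card ≤ (bd G A ∩ B).card := by
    by_cases q : (far G A ∩ B).Nonempty
    · have q1 := hk _ q (hfar_far.mono (far_anti inter_subset_left))
      have q2 := card_bd_inter_le (G := G) (far G A) B
      rw [hfA.2] at q2
      have e7 : (far G A ∩ bd G B).card = (bd G B ∩ far G A).card := by rw [inter_comm]
      omega
    · have q' : (B ∩ far G A).card = 0 := by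
        rw [inter_comm, Finset.not_nonempty_iff_eq_empty.1 q]; rfl
      omega
  have s3 : (A ∩ bd G B).card ≤ (bd G A ∩ far G B).card := by
    by_cases q : (far G A ∩ far G B).Nonempty
    · have q1 := hk _ q (hfar_far.mono (far_anti inter_subset_left))
      have q2 := card_bd_inter_le (G := G) (far G A) (far G B)
      rw [hfA.2, hfB.2] at q2
      have e7 : (far G A ∩ bd G B).card = (bd G B ∩ far G A).card := by rw [inter_comm]
      omega
    · have q' : (far G B ∩ far G A).card = 0 := by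
        rw [inter_comm, Finset.not_nonempty_iff_eq_empty.1 q]; rfl
      omega
  omega

/-- two atoms which meet are equal -/
theorem atom_eq {k : ℕ} (hk : Lower G k) {A B : Finset V} (hA : Atom G k A) (hB : Atom G k B)
    (h : (A ∩ B).Nonempty) : A = B := by
  by_contra hne
  have hc : A.card = B.card := le_antisymm (hA.2 _ hB.1) (hB.2 _ hA.1)
  have hn : ¬ A ⊆ B := fun hs => hne (Finset.eq_of_subset_of_card_le hs hc.ge)
  obtain ⟨c1, _⟩ := corner hk hA hB.1 h hn
  have h0 : A ∩ bd G B = ∅ := by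
    by_contra hne'
    obtain ⟨s, _⟩ := atom_subset hk hA hB.1 (Finset.nonempty_iff_ne_empty.2 hne')
    obtain ⟨v, hv⟩ := h
    rw [mem_inter] at hv
    exact (mem_bd.1 (s hv.1)).1 hv.2
  have h1 : (A ∩ bd G B).card = 0 := by rw [h0]; rfl
  have h2 := card_split (G := G) B (bd G A)
  rw [hA.1.2.2] at h2
  omega

section trans

/-- image of a set of vertices under an automorphism -/
def im (φ : G ≃g G) (X : Finset V) : Finset V := X.image (fun v => φ v)

lemma mem_im {φ : G ≃g G} {X : Finset V} {v : V} : v ∈ im φ X ↔ φ.symm v ∈ X := by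
  simp only [im, mem_image]
  constructor
  · rintro ⟨u, hu, rfl⟩
    simpa using hu
  · intro h
    exact ⟨_, h, by simp⟩

lemma card_im (φ : G ≃g G) (X : Finset V) : (im φ X).card = X.card :=
  Finset.card_image_of_injective _ φ.injective

lemma im_nonempty {φ : G ≃g G} {X : Finset V} (h : X.Nonempty) : (im φ X).Nonempty :=
  h.image _

lemma adj_symm_iff (φ : G ≃g G) (u v : V) : G.Adj (φ.symm u) (φ.symm v) ↔ G.Adj u v :=
  φ.symm.map_adj_iff

lemma bd_im (φ : G ≃g G) (X : Finset V) : bd G (im φ X) = im φ (bd G X) := by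
  ext v
  rw [mem_im, mem_bd, mem_bd, mem_im]
  constructor
  · rintro ⟨h1, u, hu, ha⟩
    rw [mem_im] at hu
    exact ⟨h1, _, hu, (adj_symm_iff φ u v).2 ha⟩
  · rintro ⟨h1, u, hu, ha⟩
    refine ⟨h1, φ u, by rw [mem_im]; simpa using hu, ?_⟩
    rw [← adj_symm_iff φ]
    simpa using ha

lemma far_im (φ : G ≃g G) (X : Finset V) : far G (im φ X) = im φ (far G X) := by
  ext v
  rw [mem_im, mem_far, mem_far, mem_im]
  constructor
  · rintro ⟨h1, h2⟩
    refine ⟨h1, fun u hu ha => ?_⟩
    refine h2 (φ u) (by rw [mem_im]; simpa using hu) ?_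
    rw [← adj_symm_iff φ]
    simpa using ha
  · rintro ⟨h1, h2⟩
    refine ⟨h1, fun u hu ha => ?_⟩
    rw [mem_im] at hu
    exact h2 _ hu ((adj_symm_iff φ u v).2 ha)

lemma Frag.map {k : ℕ} (φ : G ≃g G) {X : Finset V} (h : Frag G k X) :
    Frag G k (im φ X) := by
  refine ⟨im_nonempty h.1, ?_, ?_⟩
  · rw [far_im]; exact im_nonempty h.2.1
  · rw [bd_im, card_im]; exact h.2.2

lemma Atom.map {k : ℕ} (φ : G ≃g G) {X : Finset V} (h : Atom G k X) :
    Atom G k (im φ X) :=
  ⟨h.1.map φ, fun Y hY => by rw [card_im]; exact h.2 Y hY⟩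

/-- Mader / Watkins for vertex-transitive graphs, in terms of boundaries. -/
theorem structure_of_frag {k d : ℕ} (hG : G.Connected) (hT : VT G)
    (hreg : ∀ v, (univ.filter fun w => G.Adj v w).card = d)
    (hk : Lower G k) (hex : ∃ X, Frag G k X) :
    ∃ τ m : ℕ, k = m * τ ∧ 2 ≤ m ∧ d + 1 ≤ k + τ ∧ 1 ≤ τ ∧
      ∃ A : Finset V, Atom G k A ∧ A.card = τ := by
  classical
  -- an atom
  obtain ⟨A, hA⟩ : ∃ A, Atom G k A := by
    have hne : (univ.filter fun X : Finset V => Frag G k X).Nonempty := by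
      obtain ⟨X, hX⟩ := hex
      exact ⟨X, by simpa using hX⟩
    obtain ⟨A, hA, hmin⟩ := Finset.exists_min_image _ (fun X : Finset V => X.card) hne
    exact ⟨A, by simpa using hA, fun Y hY => hmin Y (by simpa using hY)⟩
  obtain ⟨a, ha⟩ := hA.1.1
  -- an atom through every vertex
  have hat : ∀ v : V, ∃ B, Atom G k B ∧ v ∈ B := by
    intro v
    obtain ⟨φ, hφ⟩ := hT a v
    refine ⟨_, hA.map φ, ?_⟩
    rw [mem_im, ← hφ]
    simpa using ha
  choose at' hat' using hat
  have hcard : ∀ v, (at' v).card = A.card := fun v =>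
    le_antisymm ((hat' v).1.2 _ hA.1) (hA.2 _ (hat' v).1.1)
  -- the boundary is not empty
  have hbne : (bd G A).Nonempty := by
    by_contra hb
    have hb' : bd G A = ∅ := Finset.not_nonempty_iff_eq_empty.1 hb
    obtain ⟨z, hz⟩ := hA.1.2.1
    have hclosed : ∀ x y : V, G.Reachable x y → x ∈ A → y ∈ A := by
      intro x y hxy
      obtain ⟨p⟩ := hxy
      induction p with
      | nil => exact fun h => h
      | cons hadj _ ih =>
        intro hx
        apply ih
        by_contra hy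
        have : _ ∈ bd G A := mem_bd.2 ⟨hy, _, hx, hadj⟩
        rw [hb'] at this
        simp at this
    exact (mem_far.1 hz).1 (hclosed a z (hG.preconnected a z) ha)
  have hsub : ∀ t ∈ bd G A, at' t ⊆ bd G A ∧ 2 * (at' t).card ≤ k := by
    intro t ht
    exact atom_subset hk (hat' t).1 hA.1 ⟨t, mem_inter.2 ⟨(hat' t).2, ht⟩⟩
  -- the atoms in the boundary
  set I : Finset (Finset V) := (bd G A).image at' with hI
  have hun : (bd G A) = I.biUnion id := by
    ext v
    simp only [hI, mem_biUnion, mem_image, id_eq]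
    constructor
    · intro hv
      exact ⟨_, ⟨v, hv, rfl⟩, (hat' v).2⟩
    · rintro ⟨B, ⟨t, ht, rfl⟩, hv⟩
      exact (hsub t ht).1 hv
  have hdisj : ∀ B ∈ I, ∀ C ∈ I, B ≠ C → Disjoint (id B) (id C) := by
    intro B hB C hC hne
    simp only [hI, mem_image] at hB hC
    obtain ⟨s, _, rfl⟩ := hB
    obtain ⟨t, _, rfl⟩ := hC
    rw [Finset.disjoint_iff_inter_eq_empty]
    by_contra hne'
    exact hne (atom_eq hk (hat' s).1 (hat' t).1 (Finset.nonempty_iff_ne_empty.2 hne'))
  have hsum : (bd G A).card = I.card * A.card := by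
    rw [hun, Finset.card_biUnion hdisj]
    have : ∀ B ∈ I, (id B : Finset V).card = A.card := by
      intro B hB
      simp only [hI, mem_image] at hB
      obtain ⟨s, _, rfl⟩ := hB
      exact hcard s
    rw [Finset.sum_congr rfl this]
    simp
  have hτ : 1 ≤ A.card := Finset.card_pos.2 ⟨a, ha⟩
  obtain ⟨t, ht⟩ := hbne
  have h2 := (hsub t ht).2
  rw [hcard t] at h2
  have hk' : k = I.card * A.card := by rw [← hsum]; exact hA.1.2.2.symm
  refine ⟨A.card, I.card, hk', ?_, ?_, hτ, A, hA, rfl⟩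
  · rw [hk'] at h2
    exact Nat.le_of_mul_le_mul_right h2 hτ
  · have h3 : (univ.filter fun w => G.Adj a w) ⊆ (A.erase a) ∪ bd G A := by
      intro w hw
      rw [mem_filter] at hw
      rw [mem_union, mem_erase]
      by_cases hwA : w ∈ A
      · exact Or.inl ⟨fun h => G.loopless.irrefl a (h ▸ hw.2), hwA⟩
      · exact Or.inr (mem_bd.2 ⟨hwA, a, ha, hw.2⟩)
    have h4 := (card_le_card h3).trans (card_union_le _ _)
    rw [hreg, card_erase_of_mem ha, hA.1.2.2] at h4
    omega

end trans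

/-- a walk which avoids a set smaller than the connectivity -/
theorem exists_walk_avoiding {k : ℕ} (hk : Lower G k) {S : Finset V} (hS : S.card < k)
    {x y : V} (hx : x ∉ S) (hy : y ∉ S) :
    ∃ p : G.Walk x y, ∀ v ∈ p.support, v ∉ S := by
  classical
  set X : Finset V := univ.filter fun z => ∃ p : G.Walk x z, ∀ v ∈ p.support, v ∉ S with hX
  have hxX : x ∈ X := by
    rw [hX, mem_filter]
    refine ⟨mem_univ _, SimpleGraph.Walk.nil, ?_⟩
    intro v hv
    rw [SimpleGraph.Walk.support_nil, List.mem_singleton] at hv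
    rw [hv]; exact hx
  have hb : bd G X ⊆ S := by
    intro v hv
    rw [mem_bd] at hv
    obtain ⟨h1, u, hu, ha⟩ := hv
    by_contra hvS
    apply h1
    rw [hX, mem_filter] at hu ⊢
    obtain ⟨_, p, hp⟩ := hu
    refine ⟨mem_univ _, p.concat ha, ?_⟩
    intro w hw
    rw [SimpleGraph.Walk.support_concat, List.mem_append, List.mem_singleton] at hw
    rcases hw with hw | hw
    · exact hp w hw
    · rw [hw]; exact hvS
  by_contra hcon
  have hyX : y ∉ X := by
    intro h
    rw [hX, mem_filter] at h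
    exact hcon h.2
  have hfar : (far G X).Nonempty := by
    rcases trich (G := G) X y with h | h | h
    · exact absurd h hyX
    · exact absurd (hb h) hy
    · exact ⟨y, h⟩
  have := hk X ⟨x, hxX⟩ hfar
  have := card_le_card hb
  omega

/-- minimal separations exist -/
lemma exists_min (G : SimpleGraph V) [DecidableRel G.Adj] (k : ℕ) (h : ¬ Lower G k) :
    ∃ k', k' < k ∧ Lower G k' ∧ ∃ X, Frag G k' X := by
  classical
  have hex : ∃ j, ∃ X : Finset V, X.Nonempty ∧ (far G X).Nonempty ∧ (bd G X).card = j := by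
    unfold Lower at h
    push Not at h
    obtain ⟨X, h1, h2, _⟩ := h
    exact ⟨_, X, h1, h2, rfl⟩
  have hspec := Nat.find_spec hex
  have hmin : Lower G (Nat.find hex) := by
    intro X h1 h2
    exact Nat.find_min' hex ⟨X, h1, h2, rfl⟩
  refine ⟨Nat.find hex, ?_, hmin, hspec⟩
  by_contra hle
  push Not at hle
  exact h fun X h1 h2 => hle.trans (hmin X h1 h2)

section trans2

/-- If the connectivity is smaller than `k`, it has the form `m * τ`. -/
theorem not_lower {k d : ℕ} (hG : G.Connected) (hT : VT G)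
    (hreg : ∀ v, (univ.filter fun w => G.Adj v w).card = d) (h : ¬ Lower G k) :
    ∃ k' τ m : ℕ, k' < k ∧ Lower G k' ∧ k' = m * τ ∧ 2 ≤ m ∧ 1 ≤ τ ∧ d + 1 ≤ k' + τ ∧
      ∃ A : Finset V, Atom G k' A ∧ A.card = τ := by
  obtain ⟨k', h1, h2, h3⟩ := exists_min G k h
  obtain ⟨τ, m, h4, h5, h6, h7, A, h8, h9⟩ := structure_of_frag hG hT hreg h2 h3
  exact ⟨k', τ, m, h1, h2, h4, h5, h7, h6, A, h8, h9⟩

/-- **Mader / Watkins**: the vertex connectivity is at least `2 (d + 1) / 3`. -/
theorem lower_two_thirds {k d : ℕ} (hG : G.Connected) (hT : VT G)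
    (hreg : ∀ v, (univ.filter fun w => G.Adj v w).card = d) (hk : 3 * k < 2 * (d + 1) + 3) :
    Lower G k := by
  by_contra h
  obtain ⟨k', τ, m, h1, _, h3, h4, h5, h6, _⟩ := not_lower hG hT hreg h
  have : 2 * τ ≤ k' := by rw [h3]; exact Nat.mul_le_mul_right _ h4
  omega

lemma aux_small {k' τ m d : ℕ} (h3 : k' = m * τ) (h4 : 2 ≤ m) (h5 : 1 ≤ τ)
    (h6 : d + 1 ≤ k' + τ) (hd : k' < d) : 2 ≤ τ ∧ 2 * τ ≤ k' ∧ (k' ≠ 2 * τ → 3 * τ ≤ k') := by
  have a : 2 * τ ≤ k' := by rw [h3]; exact Nat.mul_le_mul_right _ h4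
  refine ⟨by omega, a, fun hne => ?_⟩
  rcases Nat.lt_or_ge m 3 with hm | hm
  · have : m = 2 := by omega
    subst this
    exact absurd h3 hne
  · rw [h3]; exact Nat.mul_le_mul_right _ hm

theorem lower_three (hG : G.Connected) (hT : VT G)
    (hreg : ∀ v, (univ.filter fun w => G.Adj v w).card = 3) : Lower G 3 := by
  by_contra h
  obtain ⟨k', τ, m, h1, _, h3, h4, h5, h6, _⟩ := not_lower hG hT hreg h
  have := aux_small h3 h4 h5 h6 h1
  omega

theorem lower_four (hG : G.Connected) (hT : VT G)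
    (hreg : ∀ v, (univ.filter fun w => G.Adj v w).card = 4) : Lower G 4 := by
  by_contra h
  obtain ⟨k', τ, m, h1, _, h3, h4, h5, h6, _⟩ := not_lower hG hT hreg h
  have := aux_small h3 h4 h5 h6 h1
  omega

/-- degree 6: the connectivity is 6 -/
theorem lower_six (hG : G.Connected) (hT : VT G)
    (hreg : ∀ v, (univ.filter fun w => G.Adj v w).card = 6) : Lower G 6 := by
  by_contra h
  obtain ⟨k', τ, m, h1, _, h3, h4, h5, h6, _⟩ := not_lower hG hT hreg h
  have ⟨a, b, c⟩ := aux_small h3 h4 h5 h6 h1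
  have h8 : k' = 5 ∨ k' = 4 := by omega
  rcases h8 with rfl | rfl
  · have := c (by omega)
    omega
  · omega

/-- degree 7 and 8: the connectivity is at least 6 -/
theorem lower_seven (hG : G.Connected) (hT : VT G)
    (hreg : ∀ v, (univ.filter fun w => G.Adj v w).card = 7) : Lower G 6 :=
  lower_two_thirds hG hT hreg (by norm_num)

theorem lower_eight (hG : G.Connected) (hT : VT G)
    (hreg : ∀ v, (univ.filter fun w => G.Adj v w).card = 8) : Lower G 6 :=
  lower_two_thirds hG hT hreg (by norm_num)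

/-- degree 9: the connectivity is at least 8 -/
theorem lower_nine (hG : G.Connected) (hT : VT G)
    (hreg : ∀ v, (univ.filter fun w => G.Adj v w).card = 9) : Lower G 8 := by
  by_contra h
  obtain ⟨k', τ, m, h1, _, h3, h4, h5, h6, _⟩ := not_lower hG hT hreg h
  have ⟨a, b, c⟩ := aux_small h3 h4 h5 h6 (by omega)
  have h8 : k' = 7 := by omega
  subst h8
  have := c (by omega)
  omega

theorem lower_ten (hG : G.Connected) (hT : VT G)
    (hreg : ∀ v, (univ.filter fun w => G.Adj v w).card = 10) : Lower G 8 :=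
  lower_two_thirds hG hT hreg (by norm_num)

/-- degree 5: the connectivity is 5, or the graph is a lexicographic product with `K_2`: every
vertex `v` has a twin `t v`, the closed neighbourhoods agree and consist of three twin classes. -/
theorem lower_five (hG : G.Connected) (hT : VT G)
    (hreg : ∀ v, (univ.filter fun w => G.Adj v w).card = 5) :
    Lower G 5 ∨ ∀ v : V, ∃ A : Finset V, v ∈ A ∧ A.card = 2 ∧ (bd G A).card = 4 ∧
      (∀ u ∈ A, ∀ w, G.Adj u w ↔ (w ∈ A ∧ w ≠ u) ∨ w ∈ bd G A) ∧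
      (∀ u ∈ bd G A, ∃ B : Finset V, u ∈ B ∧ B.card = 2 ∧ B ⊆ bd G A ∧
        ∀ u ∈ B, ∀ w, G.Adj u w ↔ (w ∈ B ∧ w ≠ u) ∨ w ∈ bd G B) := by
  by_cases hL : Lower G 5
  · exact Or.inl hL
  right
  obtain ⟨k', τ, m, h1, h2, h3, h4, h5, h6, A₀, hA₀, hc⟩ := not_lower hG hT hreg hL
  have ⟨a, b, c⟩ := aux_small h3 h4 h5 h6 h1
  have hk4 : k' = 4 := by omega
  have hτ : τ = 2 := by omega
  subst hk4
  subst hτ
  obtain ⟨a₀, ha₀⟩ := hA₀.1.1
  have hat : ∀ v : V, ∃ B, Atom G 4 B ∧ v ∈ B ∧ B.card = 2 := by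
    intro v
    obtain ⟨φ, hφ⟩ := hT a₀ v
    refine ⟨_, hA₀.map φ, ?_, by rw [card_im]; exact hc⟩
    rw [mem_im, ← hφ]
    simpa using ha₀
  have hfull : ∀ B, Atom G 4 B → B.card = 2 → ∀ u ∈ B, ∀ w,
      G.Adj u w ↔ (w ∈ B ∧ w ≠ u) ∨ w ∈ bd G B := by
    intro B hB hB2 u hu
    have h10 : (univ.filter fun w => G.Adj u w) ⊆ (B.erase u) ∪ bd G B := by
      intro w hw
      rw [mem_filter] at hw
      rw [mem_union, mem_erase]
      by_cases hwB : w ∈ B
      · exact Or.inl ⟨fun h => G.loopless.irrefl u (h ▸ hw.2), hwB⟩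
      · exact Or.inr (mem_bd.2 ⟨hwB, u, hu, hw.2⟩)
    have h11 : ((B.erase u) ∪ bd G B).card ≤ 5 := by
      refine (card_union_le _ _).trans ?_
      rw [card_erase_of_mem hu, hB2, hB.1.2.2]
    have h12 := Finset.eq_of_subset_of_card_le h10 (by rw [hreg]; exact h11)
    intro w
    have h13 : w ∈ (univ.filter fun w => G.Adj u w) ↔ w ∈ (B.erase u) ∪ bd G B := by
      rw [h12]
    simp only [mem_filter, mem_univ, true_and, mem_union, mem_erase] at h13
    rw [h13]
    tauto
  intro v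
  obtain ⟨A, hA, hvA, hA2⟩ := hat v
  refine ⟨A, hvA, hA2, hA.1.2.2, hfull A hA hA2, ?_⟩
  intro u hu
  obtain ⟨B, hB, huB, hB2⟩ := hat u
  exact ⟨B, huB, hB2, (atom_subset h2 hB hA.1 ⟨u, mem_inter.2 ⟨huB, hu⟩⟩).1,
    hfull B hB hB2⟩

end trans2

end Pool.Agent.UPS.Atoms
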