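import Mathlib

/-!
# Menger's theorem for two non-adjacent vertices of equal degree, from Hall's theorem
-/

set_option autoImplicit false

namespace Pool.Agent.UPS.Menger

open Finset

/-- linking bijection, from Hall's theorem -/
theorem linking {W : Type*} [Fintype W] [DecidableEq W] (R : W → W → Prop) (A B : Finset W)
    (hsep : ∀ S : Finset W, S.card < A.card → ∃ a ∈ A, a ∉ S ∧ ∃ b ∈ B,
      Relation.ReflTransGen (fun u w => R u w ∧ w ∉ S) a b) :
    ∃ φ : W → W, (∀ u w, u ∉ B → w ∉ B → φ u = φ w → u = w) ∧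
      ∀ w, w ∉ B → (φ w = w ∨ R w (φ w)) ∧ φ w ∉ A := by
  classical
  let t : {w : W // w ∉ B} → Finset W := fun w =>
    (univ.filter fun u => u = w.1 ∨ R w.1 u) \ A
  have hall : ∀ X : Finset {w : W // w ∉ B}, X.card ≤ (X.biUnion t).card := by
    intro X
    by_contra hlt
    push Not at hlt
    set X' : Finset W := X.map (Function.Embedding.subtype _) with hX'
    have hX'c : X'.card = X.card := card_map _
    have hX'm : ∀ w, w ∈ X' ↔ ∃ h : w ∉ B, (⟨w, h⟩ : {w : W // w ∉ B}) ∈ X := by
      intro w
      rw [hX', mem_map]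
      constructor
      · rintro ⟨⟨u, hu⟩, h1, h2⟩
        have : u = w := h2
        subst this
        exact ⟨hu, h1⟩
      · rintro ⟨h, h1⟩
        exact ⟨⟨w, h⟩, h1, rfl⟩
    set Y : Finset W := univ.filter fun u => ∃ w ∈ X', u = w ∨ R w u with hY
    have hYA : X.biUnion t = Y \ A := by
      ext u
      simp only [mem_biUnion, t, mem_sdiff, mem_filter, mem_univ, true_and, hY]
      constructor
      · rintro ⟨w, hw, h1, h2⟩
        exact ⟨⟨w.1, (hX'm _).2 ⟨w.2, hw⟩, h1⟩, h2⟩
      · rintro ⟨⟨w, hw, h1⟩, h2⟩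
        obtain ⟨h, h3⟩ := (hX'm _).1 hw
        exact ⟨⟨w, h⟩, h3, h1, h2⟩
    have hXY : X' ⊆ Y := by
      intro w hw
      rw [hY, mem_filter]
      exact ⟨mem_univ _, w, hw, Or.inl rfl⟩
    have hS : ((Y \ X') ∪ (A \ Y)).card < A.card := by
      have h1 : (Y \ X').card + X'.card = Y.card := card_sdiff_add_card_eq_card hXY
      have h2 : (Y \ A).card + (Y ∩ A).card = Y.card := card_sdiff_add_card_inter Y A
      have h3 : (A \ Y).card + (A ∩ Y).card = A.card := card_sdiff_add_card_inter A Y
      have h4 : (Y ∩ A).card = (A ∩ Y).card := by rw [inter_comm]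
      have h5 := card_union_le (Y \ X') (A \ Y)
      rw [hYA] at hlt
      omega
    obtain ⟨a, ha, haS, b, hb, hab⟩ := hsep _ hS
    have haX : a ∈ X' := by
      by_contra h
      apply haS
      by_cases hy : a ∈ Y
      · exact mem_union_left _ (mem_sdiff.2 ⟨hy, h⟩)
      · exact mem_union_right _ (mem_sdiff.2 ⟨ha, hy⟩)
    have hbX : b ∈ X' := by
      clear hb
      induction hab with
      | refl => exact haX
      | @tail c e _ h ih =>
        by_contra he
        apply h.2
        refine mem_union_left _ (mem_sdiff.2 ⟨?_, he⟩)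
        rw [hY, mem_filter]
        exact ⟨mem_univ _, c, ih, Or.inr h.1⟩
    obtain ⟨h, _⟩ := (hX'm _).1 hbX
    exact h hb
  obtain ⟨f, hf, hft⟩ := (all_card_le_biUnion_card_iff_exists_injective t).1 hall
  refine ⟨fun w => if h : w ∈ B then w else f ⟨w, h⟩, ?_, ?_⟩
  · intro u w hu hw h
    simp only [hu, hw, dite_false] at h
    have := hf h
    exact congrArg Subtype.val this
  · intro w hw
    have h1 := hft ⟨w, hw⟩
    simp only [t, mem_sdiff, mem_filter, mem_univ, true_and] at h1
    simp only [hw, dite_false]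
    exact h1

section orbit

variable {W : Type*} {φ : W → W} {A B : Finset W}

/-- the orbits of the start vertices are simple and disjoint -/
lemma orbit (hinj : ∀ u w, u ∉ B → w ∉ B → φ u = φ w → u = w) (hA : ∀ w, w ∉ B → φ w ∉ A)
    {a a' : W} (ha : a ∈ A) (ha' : a' ∈ A) : ∀ {i j : ℕ}, (∀ k < i, φ^[k] a ∉ B) →
    (∀ k < j, φ^[k] a' ∉ B) → φ^[i] a = φ^[j] a' → a = a' ∧ i = j := by
  intro i
  induction i with
  | zero =>
    intro j _ hj h
    cases j with
    | zero => exact ⟨h, rfl⟩
    | succ j =>
      exfalso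
      rw [Function.iterate_succ_apply'] at h
      apply hA _ (hj j (Nat.lt_succ_self j))
      rw [← h]
      exact ha
  | succ i ih =>
    intro j hi hj h
    cases j with
    | zero =>
      exfalso
      rw [Function.iterate_succ_apply'] at h
      apply hA _ (hi i (Nat.lt_succ_self i))
      rw [h]
      exact ha'
    | succ j =>
      rw [Function.iterate_succ_apply', Function.iterate_succ_apply'] at h
      have h1 := hinj _ _ (hi i (Nat.lt_succ_self i)) (hj j (Nat.lt_succ_self j)) h
      obtain ⟨h2, h3⟩ := ih (fun k hk => hi k (by omega)) (fun k hk => hj k (by omega)) h1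
      exact ⟨h2, by omega⟩

/-- every orbit reaches the target set -/
lemma reach [Finite W] (hinj : ∀ u w, u ∉ B → w ∉ B → φ u = φ w → u = w)
    (hA : ∀ w, w ∉ B → φ w ∉ A) {a : W} (ha : a ∈ A) : ∃ i, φ^[i] a ∈ B := by
  by_contra h
  push Not at h
  apply not_injective_infinite_finite (fun i : ℕ => φ^[i] a)
  intro i j hij
  exact (orbit hinj hA ha ha (fun k _ => h k) (fun k _ => h k) hij).2

end orbit

/-- a walk from a sequence of vertices -/
lemma walk_of_seq {V : Type*} {G : SimpleGraph V} (s : ℕ → V) : ∀ L : ℕ,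
    (∀ i < L, G.Adj (s i) (s (i + 1))) →
    ∃ p : G.Walk (s 0) (s L), p.length = L ∧ ∀ i ≤ L, p.getVert i = s i := by
  intro L
  induction L with
  | zero =>
    intro _
    refine ⟨SimpleGraph.Walk.nil, rfl, ?_⟩
    intro i hi
    have : i = 0 := by omega
    subst this
    simp
  | succ L ih =>
    intro h
    obtain ⟨p, hp, hps⟩ := ih (fun i hi => h i (by omega))
    refine ⟨p.append (SimpleGraph.Walk.cons (h L (Nat.lt_succ_self L)) SimpleGraph.Walk.nil),
      ?_, ?_⟩
    · rw [SimpleGraph.Walk.length_append, hp]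
      simp
    · intro i hi
      rw [SimpleGraph.Walk.getVert_append, hp]
      by_cases h1 : i < L
      · rw [if_pos h1]
        exact hps i (by omega)
      · rw [if_neg h1]
        have h2 : i = L ∨ i = L + 1 := by omega
        rcases h2 with h2 | h2
        · subst h2
          simp
        · subst h2
          simp


section main

variable {V : Type*} [Fintype V] [DecidableEq V] (G : SimpleGraph V) (x v : V) (m : ℕ)

/-- arcs of the auxiliary digraph: `G - x - v` with `m` extra bypasses -/
def Arc : V ⊕ Fin m → V ⊕ Fin m → Prop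
  | Sum.inl u, Sum.inl w => G.Adj u w ∧ u ≠ x ∧ u ≠ v ∧ w ≠ x ∧ w ≠ v
  | Sum.inl u, Sum.inr _ => G.Adj x u
  | Sum.inr _, Sum.inl w => G.Adj w v
  | Sum.inr _, Sum.inr _ => False

variable {G x v m}

/-- the walk in the auxiliary digraph -/
lemma aux_sep [DecidableRel G.Adj] {k : ℕ} (hxv : x ≠ v) (hna : ¬ G.Adj x v)
    (hk : k + m = (univ.filter fun u => G.Adj x u).card)
    (hd : (univ.filter fun u => G.Adj u v).card = (univ.filter fun u => G.Adj x u).card)
    (hsep : ∀ S : Finset V, x ∉ S → v ∉ S → S.card < k →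
      ∃ p : G.Walk x v, ∀ w ∈ p.support, w ∉ S)
    (S : Finset (V ⊕ Fin m))
    (hS : S.card < ((univ.filter fun u => G.Adj x u).image Sum.inl : Finset (V ⊕ Fin m)).card) :
    ∃ a ∈ ((univ.filter fun u => G.Adj x u).image Sum.inl : Finset (V ⊕ Fin m)), a ∉ S ∧
      ∃ b ∈ ((univ.filter fun u => G.Adj u v).image Sum.inl : Finset (V ⊕ Fin m)),
      Relation.ReflTransGen (fun u w => Arc G x v m u w ∧ w ∉ S) a b := by
  classical
  rw [card_image_of_injective _ Sum.inl_injective] at hS
  by_cases hall : ∀ j : Fin m, Sum.inr j ∈ S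
  · -- all bypasses are blocked
    set SV : Finset V := univ.filter fun w => (Sum.inl w : V ⊕ Fin m) ∈ S ∧ w ≠ x ∧ w ≠ v
      with hSV
    have hc : SV.card + m ≤ S.card := by
      have h1 : (SV.image (Sum.inl : V → V ⊕ Fin m)) ∪
          ((univ : Finset (Fin m)).image (Sum.inr : Fin m → V ⊕ Fin m)) ⊆ S := by
        intro w hw
        rw [mem_union, mem_image, mem_image] at hw
        rcases hw with ⟨u, hu, rfl⟩ | ⟨j, _, rfl⟩
        · rw [hSV, mem_filter] at hu
          exact hu.2.1
        · exact hall j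
      have h2 := card_le_card h1
      rw [card_union_of_disjoint, card_image_of_injective _ Sum.inl_injective,
        card_image_of_injective _ Sum.inr_injective, card_univ, Fintype.card_fin] at h2
      · exact h2
      · rw [disjoint_left]
        intro w hw hw'
        rw [mem_image] at hw hw'
        obtain ⟨u, _, rfl⟩ := hw
        obtain ⟨j, _, hj⟩ := hw'
        exact Sum.inr_ne_inl hj
    obtain ⟨p₀, hp₀⟩ := hsep SV (by rw [hSV, mem_filter]; tauto) (by rw [hSV, mem_filter]; tauto)
      (by omega)
    set p := p₀.bypass with hp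
    have hpath : p.IsPath := p₀.bypass_isPath
    have hpS : ∀ w ∈ p.support, w ∉ SV := fun w hw => hp₀ w (p₀.support_bypass_subset_support hw)
    have hinj := hpath.getVert_injOn
    have hlen : 2 ≤ p.length := by
      rcases Nat.lt_or_ge p.length 2 with h | h
      · exfalso
        have h0 : p.length = 0 ∨ p.length = 1 := by omega
        rcases h0 with h0 | h0
        · apply hxv
          have h1 := p.getVert_length
          rw [h0, SimpleGraph.Walk.getVert_zero] at h1
          exact h1
        · apply hna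
          have h1 := p.adj_getVert_succ (i := 0) (by omega)
          rw [SimpleGraph.Walk.getVert_zero, zero_add, ← h0, p.getVert_length] at h1
          exact h1
      · exact h
    have hx : ∀ i, 1 ≤ i → i ≤ p.length → p.getVert i ≠ x := by
      intro i h1 h2 h3
      have h4 : p.getVert i = p.getVert 0 := by rw [h3, SimpleGraph.Walk.getVert_zero]
      have := hinj (by rw [Set.mem_ofPred_eq]; exact h2) (by rw [Set.mem_ofPred_eq]; omega) h4
      omega
    have hv : ∀ i, i < p.length → p.getVert i ≠ v := by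
      intro i h1 h3
      have h4 : p.getVert i = p.getVert p.length := by rw [h3, p.getVert_length]
      have := hinj (by rw [Set.mem_ofPred_eq]; omega) (by rw [Set.mem_ofPred_eq]) h4
      omega
    have hnS : ∀ i, 1 ≤ i → i < p.length → (Sum.inl (p.getVert i) : V ⊕ Fin m) ∉ S := by
      intro i h1 h2 h3
      apply hpS _ (p.getVert_mem_support i)
      rw [hSV, mem_filter]
      exact ⟨mem_univ _, h3, hx i h1 (by omega), hv i h2⟩
    refine ⟨Sum.inl (p.getVert 1), ?_, hnS 1 le_rfl (by omega), Sum.inl (p.getVert (p.length - 1)),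
      ?_, ?_⟩
    · apply mem_image_of_mem
      rw [mem_filter]
      refine ⟨mem_univ _, ?_⟩
      have h1 := p.adj_getVert_succ (i := 0) (by omega)
      rwa [SimpleGraph.Walk.getVert_zero] at h1
    · apply mem_image_of_mem
      rw [mem_filter]
      refine ⟨mem_univ _, ?_⟩
      have h1 := p.adj_getVert_succ (i := p.length - 1) (by omega)
      rwa [show p.length - 1 + 1 = p.length by omega, p.getVert_length] at h1
    · have key : ∀ i, 1 ≤ i → i < p.length →
          Relation.ReflTransGen (fun u w => Arc G x v m u w ∧ w ∉ S)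
            (Sum.inl (p.getVert 1)) (Sum.inl (p.getVert i)) := by
        intro i h1 h2
        induction i with
        | zero => omega
        | succ i ih =>
          rcases Nat.eq_zero_or_pos i with h0 | h0
          · subst h0
            exact Relation.ReflTransGen.refl
          · refine Relation.ReflTransGen.tail (ih h0 (by omega)) ⟨?_, hnS (i + 1) h1 h2⟩
            exact ⟨p.adj_getVert_succ (by omega), hx i h0 (by omega), hv i (by omega),
              hx (i + 1) h1 (by omega), hv (i + 1) h2⟩
      exact key _ (by omega) (by omega)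
  · push Not at hall
    obtain ⟨j, hj⟩ := hall
    have hex : ∀ A : Finset V, S.card < A.card → ∃ a ∈ A, (Sum.inl a : V ⊕ Fin m) ∉ S := by
      intro A hA
      by_contra h
      push Not at h
      have h1 : (A.image (Sum.inl : V → V ⊕ Fin m)) ⊆ S := by
        intro w hw
        rw [mem_image] at hw
        obtain ⟨u, hu, rfl⟩ := hw
        exact h u hu
      have h2 := card_le_card h1
      rw [card_image_of_injective _ Sum.inl_injective] at h2
      omega
    obtain ⟨a, ha, haS⟩ := hex _ hS
    obtain ⟨b, hb, hbS⟩ := hex (univ.filter fun u => G.Adj u v) (by rw [hd]; exact hS)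
    refine ⟨Sum.inl a, mem_image_of_mem _ ha, haS, Sum.inl b, mem_image_of_mem _ hb, ?_⟩
    refine Relation.ReflTransGen.tail (Relation.ReflTransGen.single (b := Sum.inr j) ⟨?_, hj⟩)
      ⟨?_, hbS⟩
    · rw [mem_filter] at ha
      exact ha.2
    · rw [mem_filter] at hb
      exact hb.2

/-- the inner vertices of internally disjoint paths -/
lemma sum_inner {ι : Type*} [Fintype ι] (hxv : x ≠ v) (P : ι → G.Walk x v)
    (hP : ∀ i, (P i).IsPath) (hdis : ∀ i j, ∀ w, w ∈ (P i).support → w ∈ (P j).support →
      w = x ∨ w = v ∨ i = j) :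
    ∑ i, ((P i).length - 1) + 2 ≤ Fintype.card V := by
  classical
  have h1 : ∀ i, ((P i).support.toFinset \ {x, v}).card = (P i).length - 1 := by
    intro i
    have h2 : ({x, v} : Finset V) ⊆ (P i).support.toFinset := by
      intro w hw
      rw [mem_insert, mem_singleton] at hw
      rw [List.mem_toFinset]
      rcases hw with rfl | rfl
      · exact (P i).start_mem_support
      · exact (P i).end_mem_support
    rw [card_sdiff_of_subset h2, List.toFinset_card_of_nodup (hP i).support_nodup,
      SimpleGraph.Walk.length_support, card_pair hxv]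
    omega
  have h3 : (univ.biUnion fun i => (P i).support.toFinset \ {x, v}) ∪ {x, v} ⊆
      (univ : Finset V) := subset_univ _
  have h4 := card_le_card h3
  rw [card_union_of_disjoint, card_pair hxv, card_biUnion, card_univ] at h4
  · rw [sum_congr rfl fun i _ => h1 i] at h4
    exact h4
  · intro i _ j _ hij
    rw [Function.onFun, disjoint_left]
    intro w hw hw'
    rw [mem_sdiff, List.mem_toFinset, mem_insert, mem_singleton] at hw hw'
    rcases hdis i j w hw.1 hw'.1 with h | h | h
    · exact hw.2 (Or.inl h)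
    · exact hw.2 (Or.inr h)
    · exact hij h
  · rw [disjoint_left]
    intro w hw hw'
    rw [mem_biUnion] at hw
    obtain ⟨i, _, hi⟩ := hw
    rw [mem_sdiff] at hi
    exact hi.2 hw'

/-- **Menger's theorem** for two non-adjacent vertices with equal degrees: `k` internally
disjoint paths, each meeting the neighbourhoods of the two ends only once -/
theorem menger [DecidableRel G.Adj] {k : ℕ} (hxv : x ≠ v) (hna : ¬ G.Adj x v)
    (hk : k ≤ (univ.filter fun u => G.Adj x u).card)
    (hd : (univ.filter fun u => G.Adj u v).card = (univ.filter fun u => G.Adj x u).card)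
    (hsep : ∀ S : Finset V, x ∉ S → v ∉ S → S.card < k →
      ∃ p : G.Walk x v, ∀ w ∈ p.support, w ∉ S) :
    ∃ P : Fin k → G.Walk x v, (∀ i, (P i).IsPath) ∧ (∀ i, 2 ≤ (P i).length) ∧
      (∀ i j, ∀ w, w ∈ (P i).support → w ∈ (P j).support → w = x ∨ w = v ∨ i = j) ∧
      (∀ i w, w ∈ (P i).support → G.Adj x w → w = (P i).getVert 1) ∧
      (∀ i w, w ∈ (P i).support → G.Adj w v → w = (P i).getVert ((P i).length - 1)) ∧
      ∑ i, ((P i).length - 1) + 2 ≤ Fintype.card V := by
  classical
  obtain ⟨m, hm⟩ := Nat.exists_eq_add_of_le hk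
  set NX : Finset V := univ.filter fun u => G.Adj x u with hNX
  set NV : Finset V := univ.filter fun u => G.Adj u v with hNV
  set A : Finset (V ⊕ Fin m) := NX.image Sum.inl with hA
  set B : Finset (V ⊕ Fin m) := NV.image Sum.inl with hB
  obtain ⟨φ, hφ1, hφ2⟩ := linking (Arc G x v m) A B
    (fun S hS => aux_sep hxv hna hm.symm hd hsep S hS)
  have hφA : ∀ w, w ∉ B → φ w ∉ A := fun w hw => (hφ2 w hw).2
  have hmemA : ∀ a ∈ NX, (Sum.inl a : V ⊕ Fin m) ∈ A := fun a ha => mem_image_of_mem _ ha
  have hex : ∀ a : V, ∃ i, a ∈ NX → φ^[i] (Sum.inl a) ∈ B ∧ ∀ j < i, φ^[j] (Sum.inl a) ∉ B := by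
    intro a
    by_cases ha : a ∈ NX
    · have h := reach hφ1 hφA (hmemA a ha)
      exact ⟨Nat.find h, fun _ => ⟨Nat.find_spec h, fun j hj => Nat.find_min h hj⟩⟩
    · exact ⟨0, fun h => absurd h ha⟩
  choose L hL using hex
  have hdisj : ∀ a ∈ NX, ∀ a' ∈ NX, ∀ i j, i ≤ L a → j ≤ L a' →
      φ^[i] (Sum.inl a) = φ^[j] (Sum.inl a') → a = a' ∧ i = j := by
    intro a ha a' ha' i j hi hj h
    obtain ⟨h1, h2⟩ := orbit hφ1 hφA (hmemA a ha) (hmemA a' ha')
      (fun l hl => (hL a ha).2 l (by omega)) (fun l hl => (hL a' ha').2 l (by omega)) h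
    exact ⟨Sum.inl_injective h1, h2⟩
  have harc : ∀ a ∈ NX, ∀ i, i < L a →
      Arc G x v m (φ^[i] (Sum.inl a)) (φ^[i + 1] (Sum.inl a)) := by
    intro a ha i hi
    have h1 := (hφ2 _ ((hL a ha).2 i hi)).1
    rw [← Function.iterate_succ_apply' φ i] at h1
    rcases h1 with h1 | h1
    · exfalso
      have := (hdisj a ha a ha (i + 1) i (by omega) (by omega) h1).2
      omega
    · exact h1
  -- bad starts
  set bad : Finset V := NX.filter fun a => ∃ i, i ≤ L a ∧ ∃ j, φ^[i] (Sum.inl a) = Sum.inr j
    with hbad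
  have hbadc : bad.card ≤ m := by
    have hch : ∀ a : V, ∃ j : Option (Fin m), a ∈ bad → ∃ i, i ≤ L a ∧ ∃ j' : Fin m,
        j = some j' ∧ φ^[i] (Sum.inl a) = Sum.inr j' := by
      intro a
      by_cases ha : a ∈ bad
      · have h := ha
        rw [hbad, mem_filter] at h
        obtain ⟨_, i, hi, j, hj⟩ := h
        exact ⟨some j, fun _ => ⟨i, hi, j, rfl, hj⟩⟩
      · exact ⟨none, fun h => absurd h ha⟩
    choose J hJ using hch
    have h1 : bad.card ≤ ((univ : Finset (Fin m)).image some).card := by
      apply card_le_card_of_injOn J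
      · intro a ha
        obtain ⟨i, _, j', hj', _⟩ := hJ a ha
        rw [hj', mem_coe]
        exact mem_image_of_mem _ (mem_univ _)
      · intro a ha a' ha' h
        obtain ⟨i, hi, j, hj, hij⟩ := hJ a ha
        obtain ⟨i', hi', j', hj', hij'⟩ := hJ a' ha'
        have h2 : j = j' := by
          rw [hj, hj'] at h
          exact Option.some_injective _ h
        subst h2
        have ha1 : a ∈ NX := (mem_filter.1 ha).1
        have ha2 : a' ∈ NX := (mem_filter.1 ha').1
        exact (hdisj a ha1 a' ha2 i i' hi hi' (hij.trans hij'.symm)).1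
    rw [card_image_of_injective _ (Option.some_injective _), card_univ, Fintype.card_fin] at h1
    exact h1
  have hgood : k ≤ (NX \ bad).card := by
    have h1 : bad ⊆ NX := filter_subset _ _
    have h2 := card_sdiff_add_card_eq_card h1
    omega
  obtain ⟨T, hT, hTc⟩ := exists_subset_card_eq hgood
  let e : Fin k ≃ T := (Fintype.equivFinOfCardEq (by rw [Fintype.card_coe, hTc])).symm
  have heNX : ∀ i, (e i : V) ∈ NX := fun i => (mem_sdiff.1 (hT (e i).2)).1
  have hegood : ∀ i, ∀ n ≤ L (e i), ∃ u, φ^[n] (Sum.inl (e i : V)) = Sum.inl u := by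
    intro i n hn
    have h1 : (e i : V) ∉ bad := (mem_sdiff.1 (hT (e i).2)).2
    rcases h : φ^[n] (Sum.inl (e i : V)) with u | j
    · exact ⟨u, rfl⟩
    · exfalso
      apply h1
      rw [hbad, mem_filter]
      exact ⟨heNX i, n, hn, j, h⟩
  -- the vertex sequences
  let pr : V ⊕ Fin m → V := Sum.elim id (fun _ => x)
  let s : Fin k → ℕ → V := fun i n =>
    if n = 0 then x else if n ≤ L (e i) + 1 then pr (φ^[n - 1] (Sum.inl (e i : V))) else v
  have hs0 : ∀ i, s i 0 = x := fun i => by simp [s]
  have hsL : ∀ i, s i (L (e i) + 2) = v := fun i => by simp [s]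
  have hsm : ∀ i n, n ≤ L (e i) → Sum.inl (s i (n + 1)) = φ^[n] (Sum.inl (e i : V)) := by
    intro i n hn
    obtain ⟨u, hu⟩ := hegood i n hn
    have : s i (n + 1) = pr (φ^[n] (Sum.inl (e i : V))) := by
      simp only [s]
      rw [if_neg (by omega), if_pos (by omega)]
      simp
    rw [this, hu]
    rfl
  have hsx : ∀ i n, n ≤ L (e i) → s i (n + 1) ≠ x ∧ s i (n + 1) ≠ v := by
    intro i n hn
    have hx1 : G.Adj x (e i : V) := (mem_filter.1 (heNX i)).2
    rcases Nat.eq_zero_or_pos n with h0 | h0
    · subst h0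
      have h1 := hsm i 0 hn
      rw [Function.iterate_zero, id] at h1
      have h2 := Sum.inl_injective h1
      rw [h2]
      refine ⟨hx1.ne', ?_⟩
      intro h3
      apply hna
      rw [← h3]
      exact hx1
    · obtain ⟨l, rfl⟩ : ∃ l, n = l + 1 := ⟨n - 1, by omega⟩
      have h1 := harc _ (heNX i) l (by omega)
      rw [← hsm i l (by omega), ← hsm i (l + 1) hn] at h1
      exact ⟨h1.2.2.2.1, h1.2.2.2.2⟩
  have hadj : ∀ i, ∀ n < L (e i) + 2, G.Adj (s i n) (s i (n + 1)) := by
    intro i n hn
    rcases Nat.eq_zero_or_pos n with h0 | h0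
    · subst h0
      rw [hs0]
      have h1 := hsm i 0 (by omega)
      rw [Function.iterate_zero, id] at h1
      rw [Sum.inl_injective h1]
      exact (mem_filter.1 (heNX i)).2
    · obtain ⟨l, rfl⟩ : ∃ l, n = l + 1 := ⟨n - 1, by omega⟩
      by_cases h1 : l < L (e i)
      · have h2 := harc _ (heNX i) l h1
        rw [← hsm i l (by omega), ← hsm i (l + 1) (by omega)] at h2
        exact h2.1
      · have h2 : l = L (e i) := by omega
        subst h2
        rw [hsL]
        have h3 := (hL _ (heNX i)).1
        rw [← hsm i _ le_rfl, hB, mem_image] at h3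
        obtain ⟨u, hu, hu2⟩ := h3
        rw [← Sum.inl_injective hu2]
        exact (mem_filter.1 hu).2
  have hwalk : ∀ i, ∃ p : G.Walk x v, p.length = L (e i) + 2 ∧
      ∀ n ≤ L (e i) + 2, p.getVert n = s i n := by
    intro i
    obtain ⟨p, hp1, hp2⟩ := walk_of_seq (s i) _ (hadj i)
    refine ⟨p.copy (hs0 i) (hsL i), ?_, ?_⟩
    · rw [SimpleGraph.Walk.length_copy, hp1]
    · intro n hn
      rw [SimpleGraph.Walk.getVert_copy]
      exact hp2 n hn
  choose P hP1 hP2 using hwalk
  have hmem : ∀ i w, w ∈ (P i).support → w = x ∨ w = v ∨ ∃ n, n ≤ L (e i) ∧ s i (n + 1) = w := by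
    intro i w hw
    obtain ⟨n, hn1, hn2⟩ := SimpleGraph.Walk.mem_support_iff_exists_getVert.1 hw
    rw [hP1] at hn2
    rw [hP2 i n hn2] at hn1
    rcases Nat.eq_zero_or_pos n with h0 | h0
    · left
      rw [← hn1, h0, hs0]
    · by_cases h1 : n = L (e i) + 2
      · right; left
        rw [← hn1, h1, hsL]
      · right; right
        exact ⟨n - 1, by omega, by rw [← hn1]; congr 1; omega⟩
  have hinj : ∀ i j n n', n ≤ L (e i) → n' ≤ L (e j) → s i (n + 1) = s j (n' + 1) →
      i = j ∧ n = n' := by
    intro i j n n' hn hn' h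
    have h1 : φ^[n] (Sum.inl (e i : V)) = φ^[n'] (Sum.inl (e j : V)) := by
      rw [← hsm i n hn, ← hsm j n' hn', h]
    obtain ⟨h2, h3⟩ := hdisj _ (heNX i) _ (heNX j) n n' hn hn' h1
    exact ⟨e.injective (Subtype.ext h2), h3⟩
  have hpath : ∀ i, (P i).IsPath := by
    intro i
    rw [← SimpleGraph.Walk.IsPath.getVert_injOn_iff]
    intro n hn n' hn' h
    rw [Set.mem_ofPred_eq, hP1] at hn hn'
    rw [hP2 i n hn, hP2 i n' hn'] at h
    have key : ∀ n n', n < n' → n' ≤ L (e i) + 2 → s i n ≠ s i n' := by
      intro n n' hlt hle heq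
      rcases Nat.eq_zero_or_pos n with h0 | h0
      · subst h0
        rw [hs0] at heq
        by_cases h1 : n' = L (e i) + 2
        · rw [h1, hsL] at heq
          exact hxv heq
        · apply (hsx i (n' - 1) (by omega)).1
          rw [show n' - 1 + 1 = n' by omega]
          exact heq.symm
      · by_cases h1 : n' = L (e i) + 2
        · rw [h1, hsL] at heq
          apply (hsx i (n - 1) (by omega)).2
          rw [show n - 1 + 1 = n by omega]
          exact heq
        · have h2 := (hinj i i (n - 1) (n' - 1) (by omega) (by omega)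
            (by rw [show n - 1 + 1 = n by omega, show n' - 1 + 1 = n' by omega]; exact heq)).2
          omega
    rcases lt_trichotomy n n' with h1 | h1 | h1
    · exact absurd h (key n n' h1 hn')
    · exact h1
    · exact absurd h.symm (key n' n h1 hn)
  have hdis : ∀ i j, ∀ w, w ∈ (P i).support → w ∈ (P j).support → w = x ∨ w = v ∨ i = j := by
    intro i j w hw hw'
    rcases hmem i w hw with h | h | ⟨n, hn, h⟩
    · exact Or.inl h
    · exact Or.inr (Or.inl h)
    rcases hmem j w hw' with h' | h' | ⟨n', hn', h'⟩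
    · exact Or.inl h'
    · exact Or.inr (Or.inl h')
    · exact Or.inr (Or.inr (hinj i j n n' hn hn' (h.trans h'.symm)).1)
  refine ⟨P, hpath, fun i => by rw [hP1]; omega, hdis, ?_, ?_, sum_inner hxv P hpath hdis⟩
  · -- the neighbourhood of `x`
    intro i w hw hxw
    rw [hP2 i 1 (by omega)]
    rcases hmem i w hw with h | h | ⟨n, hn, h⟩
    · subst h
      exact absurd hxw (G.loopless.irrefl _)
    · subst h
      exact absurd hxw hna
    · have hwN : w ∈ NX := by rw [hNX, mem_filter]; exact ⟨mem_univ _, hxw⟩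
      have h1 : φ^[n] (Sum.inl (e i : V)) = φ^[0] (Sum.inl w) := by
        rw [← hsm i n hn, h, Function.iterate_zero, id]
      have h2 := (hdisj _ (heNX i) w hwN n 0 hn (Nat.zero_le _) h1).2
      subst h2
      exact h.symm
  · -- the neighbourhood of `v`
    intro i w hw hwv
    rw [hP1, show L (e i) + 2 - 1 = L (e i) + 1 by omega, hP2 i _ (by omega)]
    rcases hmem i w hw with h | h | ⟨n, hn, h⟩
    · subst h
      exact absurd hwv hna
    · subst h
      exact absurd hwv (G.loopless.irrefl _)
    · have h1 : n = L (e i) := by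
        by_contra hne
        apply (hL _ (heNX i)).2 n (by omega)
        rw [← hsm i n hn, h, hB]
        apply mem_image_of_mem
        rw [hNV, mem_filter]
        exact ⟨mem_univ _, hwv⟩
      rw [← h, h1]

end main

end Pool.Agent.UPS.Menger
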