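import Mathlib
import Pool.Agent.Lib.MP_876e19_co.Defs
import Pool.Agent.Lib.MP_876e19_co_ups.Atoms
import Pool.Agent.Lib.MP_876e19_co_ups.Menger

/-!
# Families of internally disjoint paths in edge-transitive graphs (TT876, cubic case)
-/

set_option autoImplicit false
set_option linter.unusedSectionVars false

namespace Pool.Agent.UPS.EU

open Finset

variable {N : Type*} [Fintype N] [DecidableEq N] {Q : SimpleGraph N} [DecidableRel Q.Adj]

/-- edge-transitivity -/
def ET (Q : SimpleGraph N) : Prop :=
  ∀ A B C D, Q.Adj A B → Q.Adj C D → ∃ φ : Q ≃g Q, (φ A = C ∧ φ B = D) ∨ (φ A = D ∧ φ B = C)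

/-- The connectivity of a vertex- and edge-transitive graph is its valency. -/
theorem lower_edge_trans {r : ℕ} (hc : Q.Connected) (hvt : VT Q) (het : ET Q)
    (hr : ∀ v, (univ.filter fun w => Q.Adj v w).card = r) : Atoms.Lower Q r := by
  classical
  by_contra h
  obtain ⟨k', τ, m, h1, h2, _, _, h5, h6, A, hA, hAτ⟩ := Atoms.not_lower hc hvt hr h
  -- an edge inside `A`
  obtain ⟨a, ha⟩ := hA.1.1
  have hin : ∃ a' ∈ A, Q.Adj a a' := by
    by_contra hno
    push Not at hno
    have hsub : (univ.filter fun w => Q.Adj a w) ⊆ Atoms.bd Q A := by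
      intro w hw
      rw [mem_filter] at hw
      rw [Atoms.mem_bd]
      exact ⟨fun hwA => hno w hwA hw.2, a, ha, hw.2⟩
    have := card_le_card hsub
    rw [hr, hA.1.2.2] at this
    omega
  obtain ⟨a', ha', haa'⟩ := hin
  -- a boundary edge
  have hbd : (Atoms.bd Q A).Nonempty := by
    rw [← card_pos, hA.1.2.2]
    rcases Nat.eq_zero_or_pos k' with h0 | h0
    · exfalso
      obtain ⟨f, hf⟩ := hA.1.2.1
      have hemp : Atoms.bd Q A = ∅ := by rw [← card_eq_zero, hA.1.2.2, h0]
      have key : ∀ y z : N, ∀ p : Q.Walk y z, y ∈ A → z ∈ A := by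
        intro y z p
        induction p with
        | nil => exact id
        | cons h p ih =>
          intro hy
          apply ih
          by_contra hz
          have : _ ∈ Atoms.bd Q A := Atoms.mem_bd.2 ⟨hz, _, hy, h⟩
          rw [hemp] at this
          exact absurd this (notMem_empty _)
      obtain ⟨p⟩ := hc.preconnected a f
      exact (Atoms.mem_far.1 hf).1 (key a f p ha)
    · exact h0
  obtain ⟨b, hb⟩ := hbd
  rw [Atoms.mem_bd] at hb
  obtain ⟨hbA, c, hcA, hcb⟩ := hb
  obtain ⟨φ, hφ⟩ := het a a' c b haa' hcb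
  have hmem : c ∈ Atoms.im φ A ∧ b ∈ Atoms.im φ A := by
    unfold Atoms.im
    rcases hφ with ⟨h7, h8⟩ | ⟨h7, h8⟩
    · exact ⟨mem_image.2 ⟨a, ha, h7⟩, mem_image.2 ⟨a', ha', h8⟩⟩
    · exact ⟨mem_image.2 ⟨a', ha', h8⟩, mem_image.2 ⟨a, ha, h7⟩⟩
  have := Atoms.atom_eq h2 hA (hA.map φ) ⟨c, mem_inter.2 ⟨hcA, hmem.1⟩⟩
  rw [← this] at hmem
  exact hbA hmem.2

/-- A family of `r` paths from `A` to `B`: all direct if `A` and `B` are adjacent, otherwise
edge disjoint and such that every path meets the neighbourhoods of the ends only once. -/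
structure Fam (Q : SimpleGraph N) (r : ℕ) (A B : N) (M : Fin r → Q.Walk A B) : Prop where
  path : ∀ i, (M i).IsPath
  tgt : ∃ l : Fin r → N, (∀ i, Q.Adj (l i) B) ∧ Function.Injective l ∧
    ∀ i C, Q.Adj C B → C ≠ A → C ∈ (M i).support → C = l i
  src : ∃ l : Fin r → N, (∀ i, Q.Adj A (l i)) ∧ Function.Injective l ∧
    ∀ i C, Q.Adj A C → C ≠ B → C ∈ (M i).support → C = l i
  disj : ¬ Q.Adj A B → ∀ i j e, e ∈ (M i).edges → e ∈ (M j).edges → i = j
  dir : Q.Adj A B → ∀ i, (M i).edges = [s(A, B)]

/-- number of paths of the family through `e` -/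
def use {A B : N} {r : ℕ} (M : Fin r → Q.Walk A B) (e : Sym2 N) : ℕ :=
  ∑ i, if e ∈ (M i).edges then 1 else 0

/-- total length -/
def tlen {A B : N} {r : ℕ} (M : Fin r → Q.Walk A B) : ℕ := ∑ i, (M i).length

lemma Fam.reverse {r : ℕ} {A B : N} {M : Fin r → Q.Walk A B} (h : Fam Q r A B M) :
    Fam Q r B A (fun i => (M i).reverse) := by
  refine ⟨fun i => (h.path i).reverse, ?_, ?_, ?_, ?_⟩
  · obtain ⟨l, h1, h2, h3⟩ := h.src
    refine ⟨l, fun i => (h1 i).symm, h2, fun i C h4 h5 h6 => h3 i C h4.symm h5 ?_⟩
    simpa using h6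
  · obtain ⟨l, h1, h2, h3⟩ := h.tgt
    refine ⟨l, fun i => (h1 i).symm, h2, fun i C h4 h5 h6 => h3 i C h4.symm h5 ?_⟩
    simpa using h6
  · intro hn i j e hi hj
    simp only [SimpleGraph.Walk.edges_reverse, List.mem_reverse] at hi hj
    exact h.disj (fun h' => hn h'.symm) i j e hi hj
  · intro ha i
    rw [SimpleGraph.Walk.edges_reverse, h.dir ha.symm i, Sym2.eq_swap]
    rfl

lemma use_reverse {r : ℕ} {A B : N} (M : Fin r → Q.Walk A B) (e : Sym2 N) :
    use (fun i => (M i).reverse) e = use M e := by
  simp [use]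

lemma tlen_reverse {r : ℕ} {A B : N} (M : Fin r → Q.Walk A B) :
    tlen (fun i => (M i).reverse) = tlen M := by
  simp [tlen]

lemma Fam.map {r : ℕ} {A B : N} {M : Fin r → Q.Walk A B} (h : Fam Q r A B M) (φ : Q ≃g Q) :
    Fam Q r (φ A) (φ B) (fun i => (M i).map φ.toHom) := by
  have hinj : Function.Injective φ.toHom := φ.injective
  have hm : ∀ i, ∀ C, C ∈ ((M i).map φ.toHom).support → φ.symm C ∈ (M i).support := by
    intro i C hC
    rw [SimpleGraph.Walk.support_map, List.mem_map] at hC
    obtain ⟨w, hw, rfl⟩ := hC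
    have : φ.symm (φ.toHom w) = w := φ.symm_apply_apply w
    rw [this]
    exact hw
  have hadj : ∀ C D, Q.Adj C (φ D) → Q.Adj (φ.symm C) D := by
    intro C D hCD
    have := φ.symm.map_adj_iff.2 hCD
    rwa [φ.symm_apply_apply] at this
  refine ⟨fun i => (h.path i).map hinj, ?_, ?_, ?_, ?_⟩
  · obtain ⟨l, h1, h2, h3⟩ := h.tgt
    refine ⟨fun i => φ (l i), fun i => φ.map_adj_iff.2 (h1 i), φ.injective.comp h2, ?_⟩
    intro i C h4 h5 h6
    have := h3 i (φ.symm C) (hadj C B h4) (fun h7 => h5 (by rw [← h7, φ.apply_symm_apply]))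
      (hm i C h6)
    change C = φ (l i)
    rw [← this, φ.apply_symm_apply]
  · obtain ⟨l, h1, h2, h3⟩ := h.src
    refine ⟨fun i => φ (l i), fun i => φ.map_adj_iff.2 (h1 i), φ.injective.comp h2, ?_⟩
    intro i C h4 h5 h6
    have := h3 i (φ.symm C) (hadj C A h4.symm).symm
      (fun h7 => h5 (by rw [← h7, φ.apply_symm_apply])) (hm i C h6)
    change C = φ (l i)
    rw [← this, φ.apply_symm_apply]
  · intro hn i j e hi hj
    rw [SimpleGraph.Walk.edges_map, List.mem_map] at hi hj
    obtain ⟨e1, h1, h2⟩ := hi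
    obtain ⟨e2, h3, h4⟩ := hj
    have : e1 = e2 := Sym2.map.injective hinj (h2.trans h4.symm)
    subst this
    exact h.disj (fun h' => hn (φ.map_adj_iff.2 h')) i j e1 h1 h3
  · intro ha i
    rw [SimpleGraph.Walk.edges_map, h.dir (φ.map_adj_iff.1 ha) i]
    rfl

lemma use_map {r : ℕ} {A B : N} (M : Fin r → Q.Walk A B) (φ : Q ≃g Q) (e : Sym2 N) :
    use (fun i => (M i).map φ.toHom) (e.map φ) = use M e := by
  unfold use
  refine sum_congr rfl fun i _ => ?_
  have hinj : Function.Injective (Sym2.map φ) := Sym2.map.injective φ.injective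
  have : (e.map φ ∈ ((M i).map φ.toHom).edges) ↔ e ∈ (M i).edges := by
    rw [SimpleGraph.Walk.edges_map, List.mem_map]
    constructor
    · rintro ⟨e', h1, h2⟩
      have : e' = e := hinj h2
      rwa [← this]
    · intro h
      exact ⟨e, h, rfl⟩
  simp only [this]

lemma tlen_map {r : ℕ} {A B : N} (M : Fin r → Q.Walk A B) (φ : Q ≃g Q) :
    tlen (fun i => (M i).map φ.toHom) = tlen M := by
  simp [tlen]

/-- families exist -/
theorem exists_fam {r : ℕ} (hl : Atoms.Lower Q r)
    (hr : ∀ v, (univ.filter fun w => Q.Adj v w).card = r) {A B : N} (hAB : A ≠ B) :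
    ∃ M : Fin r → Q.Walk A B, Fam Q r A B M := by
  classical
  by_cases ha : Q.Adj A B
  · have e1 : (univ.filter fun w => Q.Adj B w) ≃ Fin r := Finset.equivFinOfCardEq (hr B)
    have e2 : (univ.filter fun w => Q.Adj A w) ≃ Fin r := Finset.equivFinOfCardEq (hr A)
    refine ⟨fun _ => SimpleGraph.Walk.cons ha SimpleGraph.Walk.nil, ?_, ?_, ?_, ?_, ?_⟩
    · intro i
      simp [hAB]
    · refine ⟨fun i => (e1.symm i).1, fun i => ?_, ?_, ?_⟩
      · exact ((mem_filter.1 (e1.symm i).2).2).symm
      · intro i j hij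
        exact e1.symm.injective (Subtype.ext hij)
      · intro i C h1 h2 h3
        simp only [SimpleGraph.Walk.support_cons, SimpleGraph.Walk.support_nil, List.mem_cons,
          List.not_mem_nil, or_false] at h3
        rcases h3 with h3 | h3
        · exact absurd h3 h2
        · subst h3
          exact absurd h1 (Q.irrefl)
    · refine ⟨fun i => (e2.symm i).1, fun i => ?_, ?_, ?_⟩
      · exact (mem_filter.1 (e2.symm i).2).2
      · intro i j hij
        exact e2.symm.injective (Subtype.ext hij)
      · intro i C h1 h2 h3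
        simp only [SimpleGraph.Walk.support_cons, SimpleGraph.Walk.support_nil, List.mem_cons,
          List.not_mem_nil, or_false] at h3
        rcases h3 with h3 | h3
        · subst h3
          exact absurd h1 (Q.irrefl)
        · exact absurd h3 h2
    · intro h
      exact absurd ha h
    · intro _ i
      simp
  · obtain ⟨P, h1, h2, h3, h4, h5, _⟩ := Menger.menger (G := Q) (k := r) hAB ha
      (by rw [hr A]) (by
        rw [hr A, ← hr B]
        congr 1
        ext w
        simp [Q.adj_comm])
      (fun S hAS hBS hS => by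
        obtain ⟨p, hp⟩ := Atoms.exists_walk_avoiding hl hS hAS hBS
        exact ⟨p, hp⟩)
    have hpen : ∀ i, Q.Adj ((P i).getVert ((P i).length - 1)) B := by
      intro i
      have h6 := (P i).adj_getVert_succ (i := (P i).length - 1) (by have := h2 i; omega)
      have h7 : (P i).length - 1 + 1 = (P i).length := by have := h2 i; omega
      rw [h7, SimpleGraph.Walk.getVert_length] at h6
      exact h6
    have hfst : ∀ i, Q.Adj A ((P i).getVert 1) := by
      intro i
      have h6 := (P i).adj_getVert_succ (i := 0) (by have := h2 i; omega)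
      rw [SimpleGraph.Walk.getVert_zero] at h6
      exact h6
    refine ⟨P, h1, ?_, ?_, ?_, ?_⟩
    · refine ⟨fun i => (P i).getVert ((P i).length - 1), hpen, ?_, ?_⟩
      · intro i j hij
        have hi := (P i).getVert_mem_support ((P i).length - 1)
        have hj := (P j).getVert_mem_support ((P j).length - 1)
        simp only at hij
        rw [← hij] at hj
        rcases h3 i j _ hi hj with h6 | h6 | h6
        · exfalso
          have := hpen i
          rw [h6] at this
          exact ha this
        · exfalso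
          have := hpen i
          rw [h6] at this
          exact Q.irrefl this
        · exact h6
      · intro i C h6 _ h7
        exact h5 i C h7 h6
    · refine ⟨fun i => (P i).getVert 1, hfst, ?_, ?_⟩
      · intro i j hij
        have hi := (P i).getVert_mem_support 1
        have hj := (P j).getVert_mem_support 1
        simp only at hij
        rw [← hij] at hj
        rcases h3 i j _ hi hj with h6 | h6 | h6
        · exfalso
          have := hfst i
          rw [h6] at this
          exact Q.irrefl this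
        · exfalso
          have := hfst i
          rw [h6] at this
          exact ha this
        · exact h6
      · intro i C h6 _ h7
        exact h4 i C h7 h6
    · intro _ i j e hi hj
      by_contra hij
      induction e with
      | h u w =>
        have hu := h3 i j u ((P i).fst_mem_support_of_mem_edges hi)
          ((P j).fst_mem_support_of_mem_edges hj)
        have hw := h3 i j w ((P i).snd_mem_support_of_mem_edges hi)
          ((P j).snd_mem_support_of_mem_edges hj)
        have hadj := (P i).adj_of_mem_edges hi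
        rcases hu with hu | hu | hu
        · rcases hw with hw | hw | hw
          · rw [hu, hw] at hadj; exact Q.irrefl hadj
          · rw [hu, hw] at hadj; exact ha hadj
          · exact hij hw
        · rcases hw with hw | hw | hw
          · rw [hu, hw] at hadj; exact ha hadj.symm
          · rw [hu, hw] at hadj; exact Q.irrefl hadj
          · exact hij hw
        · exact hij hu
    · intro h
      exact absurd h ha

/-- the smallest total length of a family -/
noncomputable def mlen (Q : SimpleGraph N) (r : ℕ) (A B : N) : ℕ :=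
  sInf {l | ∃ M : Fin r → Q.Walk A B, Fam Q r A B M ∧ tlen M = l}

lemma mlen_map (r : ℕ) (A B : N) (φ : Q ≃g Q) : mlen Q r (φ A) (φ B) = mlen Q r A B := by
  unfold mlen
  congr 1
  ext l
  constructor
  · rintro ⟨M, h1, h2⟩
    have h3 := h1.map φ.symm
    have h4 := tlen_map M φ.symm
    have hA : φ.symm (φ A) = A := φ.symm_apply_apply A
    have hB : φ.symm (φ B) = B := φ.symm_apply_apply B
    have key : ∀ A' B' : N, φ.symm (φ A) = A' → φ.symm (φ B) = B' →
        ∃ M' : Fin r → Q.Walk A' B', Fam Q r A' B' M' ∧ tlen M' = l := by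
      rintro A' B' rfl rfl
      exact ⟨_, h3, h4.trans h2⟩
    exact key A B hA hB
  · rintro ⟨M, h1, h2⟩
    exact ⟨_, h1.map φ, (tlen_map M φ).trans h2⟩

lemma mlen_symm (r : ℕ) (A B : N) : mlen Q r B A = mlen Q r A B := by
  unfold mlen
  congr 1
  ext l
  constructor
  · rintro ⟨M, h1, h2⟩
    exact ⟨_, h1.reverse, (tlen_reverse M).trans h2⟩
  · rintro ⟨M, h1, h2⟩
    exact ⟨_, h1.reverse, (tlen_reverse M).trans h2⟩

lemma exists_min_fam {r : ℕ} (hl : Atoms.Lower Q r)
    (hr : ∀ v, (univ.filter fun w => Q.Adj v w).card = r) {A B : N} (hAB : A ≠ B) :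
    ∃ M : Fin r → Q.Walk A B, Fam Q r A B M ∧ tlen M = mlen Q r A B := by
  have hne : {l | ∃ M : Fin r → Q.Walk A B, Fam Q r A B M ∧ tlen M = l}.Nonempty := by
    obtain ⟨M, hM⟩ := exists_fam hl hr hAB
    exact ⟨tlen M, M, hM, rfl⟩
  exact Nat.sInf_mem hne

/-- the sum of the usages over all edges is the total length -/
lemma sum_use {r : ℕ} {A B : N} {M : Fin r → Q.Walk A B} (h : Fam Q r A B M) :
    ∑ e ∈ Q.edgeFinset, use M e = tlen M := by
  classical
  unfold use tlen
  rw [sum_comm]
  refine sum_congr rfl fun i _ => ?_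
  rw [← sum_filter, ← card_eq_sum_ones]
  have : (Q.edgeFinset.filter fun e => e ∈ (M i).edges) = (M i).edges.toFinset := by
    ext e
    simp only [mem_filter, SimpleGraph.mem_edgeFinset, List.mem_toFinset]
    exact ⟨fun h => h.2, fun h => ⟨(M i).edges_subset_edgeSet h, h⟩⟩
  rw [this, List.toFinset_card_of_nodup (h.path i).isTrail.edges_nodup,
    SimpleGraph.Walk.length_edges]

/-- two families use an edge almost equally often -/
lemma use_le_succ {r : ℕ} {A B : N} {M M' : Fin r → Q.Walk A B} (h : Fam Q r A B M)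
    (h' : Fam Q r A B M') (e : Sym2 N) : use M e ≤ use M' e + 1 := by
  classical
  by_cases ha : Q.Adj A B
  · unfold use
    have : ∀ i, (if e ∈ (M i).edges then 1 else 0 : ℕ) = if e ∈ (M' i).edges then 1 else 0 := by
      intro i
      rw [h.dir ha i, h'.dir ha i]
    rw [sum_congr rfl fun i _ => this i]
    omega
  · have : use M e ≤ 1 := by
      unfold use
      rw [← sum_filter, ← card_eq_sum_ones, card_le_one]
      intro i hi j hj
      rw [mem_filter] at hi hj
      exact h.disj ha i j e hi.2 hj.2
    omega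

end Pool.Agent.UPS.EU
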