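import Mathlib
import Pool.Agent.Lib.MP_876e19_co2.LPRound

/-!
# Nearest rounding of a fractional choice with edge rows (TT876, cubic case)
-/

set_option autoImplicit false

namespace Pool.Agent.UPS.EU

open Finset

/-- Every fractional choice can be rounded such that every row changes by at most
`(|E| - 1) / 2`, if usages of two options of the same item differ by at most one and the total
usage of an item does not depend on the option. -/
theorem round_rows {ι O E : Type*} [Fintype ι] [Fintype O] [Fintype E] [DecidableEq ι]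
    [DecidableEq E] (e0 : E) (x : ι → O → E → ℝ) (L : ι → ℝ) (hL : ∀ i o, ∑ e, x i o e = L i)
    (hd : ∀ i o o' e, x i o e - x i o' e ≤ 1) (w : ι → O → ℝ) (hw : ∀ i o, 0 ≤ w i o)
    (hw1 : ∀ i, ∑ o, w i o = 1) :
    ∃ c : ι → O, ∀ e, |∑ i, x i (c i) e - ∑ i, ∑ o, w i o * x i o e| ≤
      ((Fintype.card E : ℝ) - 1) / 2 := by
  classical
  -- basic solution
  obtain ⟨y, h0, _, h2, h3, h4⟩ := UPS2.lp_excess (J := ι × O) (R := ι) (W := {e // e ≠ e0} → ℝ)
    (fun j => j.1) (fun j i => if j.1 = i then (1 : ℝ) else 0) (fun j e => x j.1 j.2 e.1)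
    (fun j => w j.1 j.2) (fun j => hw j.1 j.2) (by
      intro y hy hy1 i
      by_contra hcon
      push Not at hcon
      have h5 : ∑ j : ι × O, y j * (if j.1 = i then (1 : ℝ) else 0) = 0 := by
        refine sum_eq_zero fun j _ => ?_
        split_ifs with h
        · rw [hcon j h, zero_mul]
        · rw [mul_zero]
      have h6 : ∑ j : ι × O, w j.1 j.2 * (if j.1 = i then (1 : ℝ) else 0) = 1 := by
        rw [Fintype.sum_prod_type]
        simp only [mul_ite, mul_one, mul_zero]
        rw [sum_eq_single i]
        · simp [hw1 i]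
        · intro b _ hb
          simp [hb]
        · intro h; exact absurd (mem_univ i) h
      have := hy1 i
      rw [h5, h6] at this
      exact zero_ne_one this)
  -- row sums
  have hrow : ∀ i, ∑ o, y (i, o) = 1 := by
    intro i
    have h5 := h2 i
    rw [Fintype.sum_prod_type, Fintype.sum_prod_type] at h5
    simp only [mul_ite, mul_one, mul_zero] at h5
    rw [sum_eq_single i, sum_eq_single i] at h5
    · simpa [hw1 i] using h5
    · intro b _ hb; simp [hb]
    · intro h; exact absurd (mem_univ i) h
    · intro b _ hb; simp [hb]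
    · intro h; exact absurd (mem_univ i) h
  -- all rows are kept
  have hE : ∀ e, ∑ i, ∑ o, y (i, o) * x i o e = ∑ i, ∑ o, w i o * x i o e := by
    have hne : ∀ e, e ≠ e0 → ∑ i, ∑ o, y (i, o) * x i o e = ∑ i, ∑ o, w i o * x i o e := by
      intro e he
      have h5 := congrFun h3 ⟨e, he⟩
      simp only [Finset.sum_apply, Pi.smul_apply, smul_eq_mul] at h5
      rw [Fintype.sum_prod_type, Fintype.sum_prod_type] at h5
      exact h5
    have hall : ∑ e, ∑ i, ∑ o, y (i, o) * x i o e = ∑ e, ∑ i, ∑ o, w i o * x i o e := by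
      have h6 : ∀ z : ι → O → ℝ, (∀ i, ∑ o, z i o = 1) →
          ∑ e, ∑ i, ∑ o, z i o * x i o e = ∑ i, L i := by
        intro z hz
        rw [sum_comm]
        refine sum_congr rfl fun i _ => ?_
        rw [sum_comm]
        simp only [← mul_sum, hL]
        rw [← sum_mul, hz, one_mul]
      rw [h6 (fun i o => y (i, o)) hrow, h6 w hw1]
    intro e
    by_cases he : e = e0
    · subst he
      rw [← add_sum_erase _ _ (mem_univ e), ← add_sum_erase univ
        (fun e => ∑ i, ∑ o, w i o * x i o e) (mem_univ e)] at hall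
      rw [sum_congr rfl (fun e' he' => hne e' (ne_of_mem_erase he'))] at hall
      linarith
    · exact hne e he
  -- choose the most likely option
  set k : ι → ℕ := fun i => (univ.filter fun j : ι × O => j.1 = i ∧ y j ≠ 0).card with hk
  have hbest : ∀ i, ∃ o, 1 - y (i, o) ≤ ((k i - 1 : ℕ) : ℝ) / 2 := by
    intro i
    set S : Finset O := univ.filter fun o => y (i, o) ≠ 0 with hS
    have hSk : S.card = k i := by
      rw [hk]
      refine card_bij (fun o _ => (i, o)) ?_ ?_ ?_
      · intro o ho
        rw [hS, mem_filter] at ho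
        simp [ho.2]
      · intro o _ o' _ h
        exact (Prod.ext_iff.1 h).2
      · rintro ⟨i', o⟩ h
        simp only [mem_filter, mem_univ, true_and] at h
        obtain ⟨rfl, h⟩ := h
        exact ⟨o, by simp [hS, h], rfl⟩
    have hSsum : ∑ o ∈ S, y (i, o) = 1 := by
      rw [← hrow i]
      refine sum_subset (subset_univ _) fun o _ ho => ?_
      by_contra h
      exact ho (by simp [hS, h])
    have hSne : S.Nonempty := by
      by_contra h
      rw [not_nonempty_iff_eq_empty] at h
      rw [h, sum_empty] at hSsum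
      exact zero_ne_one hSsum
    obtain ⟨o, ho, hmax⟩ := exists_max_image S (fun o => y (i, o)) hSne
    refine ⟨o, ?_⟩
    have h5 : 1 ≤ (S.card : ℝ) * y (i, o) := by
      rw [← hSsum, ← nsmul_eq_mul]
      exact sum_le_card_nsmul _ _ _ hmax
    have h6 : 1 ≤ S.card := card_pos.2 hSne
    rw [← hSk]
    rcases Nat.lt_or_ge S.card 3 with h7 | h7
    · interval_cases hc : S.card
      · norm_num at h5 ⊢
        linarith
      · norm_num at h5 ⊢
        linarith
    · have h8 : (1 : ℝ) ≤ ((S.card - 1 : ℕ) : ℝ) / 2 := by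
        rw [Nat.cast_sub h6]
        have : (3 : ℝ) ≤ S.card := by exact_mod_cast h7
        push_cast
        linarith
      have := h0 (i, o)
      linarith
  choose c hc using hbest
  refine ⟨c, fun e => ?_⟩
  rw [← hE e, ← sum_sub_distrib]
  have hi : ∀ i, |x i (c i) e - ∑ o, y (i, o) * x i o e| ≤ ((k i - 1 : ℕ) : ℝ) / 2 := by
    intro i
    have h5 : x i (c i) e - ∑ o, y (i, o) * x i o e =
        ∑ o ∈ univ.erase (c i), y (i, o) * (x i (c i) e - x i o e) := by
      have h6 : x i (c i) e = ∑ o, y (i, o) * x i (c i) e := by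
        rw [← sum_mul, hrow, one_mul]
      conv_lhs => rw [h6]
      rw [← sum_sub_distrib, ← add_sum_erase _ _ (mem_univ (c i))]
      rw [sub_self, zero_add]
      refine sum_congr rfl fun o _ => ?_
      ring
    have h7 : ∑ o ∈ univ.erase (c i), y (i, o) = 1 - y (i, c i) := by
      rw [← hrow i, ← add_sum_erase _ _ (mem_univ (c i))]
      ring
    rw [h5]
    refine (abs_sum_le_sum_abs _ _).trans ?_
    refine le_trans ?_ (h7.le.trans (hc i))
    refine sum_le_sum fun o _ => ?_
    rw [abs_mul, abs_of_nonneg (h0 _)]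
    have h8 : |x i (c i) e - x i o e| ≤ 1 := by
      rw [abs_le]
      have := hd i (c i) o e
      have := hd i o (c i) e
      constructor <;> linarith
    have := h0 (i, o)
    nlinarith
  refine (abs_sum_le_sum_abs _ _).trans ((sum_le_sum fun i _ => hi i).trans ?_)
  rw [← sum_div, ← Nat.cast_sum]
  have hfr : Module.finrank ℝ ({e // e ≠ e0} → ℝ) = Fintype.card E - 1 := by
    rw [Module.finrank_fintype_fun_eq_card, Fintype.card_subtype_compl, Fintype.card_subtype_eq]
  rw [hfr] at h4
  have hE1 : 1 ≤ Fintype.card E := Fintype.card_pos_iff.2 ⟨e0⟩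
  have h9 : ((∑ i, (k i - 1) : ℕ) : ℝ) ≤ (Fintype.card E : ℝ) - 1 := by
    have h10 : ((∑ i, (k i - 1) : ℕ) : ℝ) ≤ ((Fintype.card E - 1 : ℕ) : ℝ) := by
      exact_mod_cast h4
    rwa [Nat.cast_sub hE1, Nat.cast_one] at h10
  linarith

end Pool.Agent.UPS.EU
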