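import Mathlib
import Pool.Agent.Lib.MP_876e19_co_ups.EUConn
import Pool.Agent.Lib.MP_876e19_co_ups.EURound

/-!
# Balanced families of paths in edge-transitive graphs (TT876, cubic case)
-/

set_option autoImplicit false
set_option linter.unusedSectionVars false

namespace Pool.Agent.UPS.EU

open Finset

variable {N : Type*} [Fintype N] [DecidableEq N] {Q : SimpleGraph N} [DecidableRel Q.Adj]

instance : Finite (Q ≃g Q) :=
  Finite.of_injective (fun φ : Q ≃g Q => (φ : N → N)) DFunLike.coe_injective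

noncomputable instance : Fintype (Q ≃g Q) := Fintype.ofFinite _

/-- usage of the chosen shortest family -/
noncomputable def uu {r : ℕ} (M : ∀ A B : N, Fin r → Q.Walk A B) (A B : N) (e : Sym2 N) : ℕ :=
  use (M A B) e

/-- usage of an option -/
noncomputable def xo {r : ℕ} (M : ∀ A B : N, Fin r → Q.Walk A B) (A B : N)
    (o : (Q ≃g Q) × Bool) (e : Sym2 N) : ℕ :=
  if o.2 then uu M (o.1.symm A) (o.1.symm B) (e.map o.1.symm)
  else uu M (o.1.symm B) (o.1.symm A) (e.map o.1.symm)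

lemma option_fam {r : ℕ} {M : ∀ A B : N, Fin r → Q.Walk A B}
    (hM : ∀ A B, A ≠ B → Fam Q r A B (M A B) ∧ tlen (M A B) = mlen Q r A B)
    {A B : N} (hAB : A ≠ B) (o : (Q ≃g Q) × Bool) :
    ∃ M' : Fin r → Q.Walk A B, Fam Q r A B M' ∧ tlen M' = mlen Q r A B ∧
      ∀ e, use M' e = xo M A B o e := by
  obtain ⟨φ, β⟩ := o
  have hne : φ.symm A ≠ φ.symm B := fun h => hAB (φ.symm.injective h)
  have e1 : ∀ C, φ (φ.symm C) = C := fun C => φ.apply_symm_apply C
  have h2 : ∀ e : Sym2 N, (e.map φ.symm).map φ = e := by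
    intro e
    induction e with
    | h u v => simp
  have key : ∀ C D : N, C ≠ D → ∃ M' : Fin r → Q.Walk C D, Fam Q r C D M' ∧
      tlen M' = mlen Q r C D ∧ ∀ e, use M' e = uu M (φ.symm C) (φ.symm D) (e.map φ.symm) := by
    intro C D hCD
    have hne' : φ.symm C ≠ φ.symm D := fun h => hCD (φ.symm.injective h)
    obtain ⟨h3, h4⟩ := hM _ _ hne'
    have gen : ∀ C' D' : N, φ (φ.symm C) = C' → φ (φ.symm D) = D' →
        ∃ M' : Fin r → Q.Walk C' D', Fam Q r C' D' M' ∧
          tlen M' = mlen Q r C' D' ∧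
          ∀ e, use M' e = uu M (φ.symm C) (φ.symm D) (e.map φ.symm) := by
      rintro C' D' rfl rfl
      refine ⟨_, h3.map φ, ?_, ?_⟩
      · exact (tlen_map _ φ).trans (h4.trans (mlen_map r _ _ φ).symm)
      · intro e
        conv_lhs => rw [← h2 e]
        rw [use_map]
        rfl
    exact gen C D (e1 C) (e1 D)
  cases β with
  | true =>
    obtain ⟨M', h3, h4, h5⟩ := key A B hAB
    exact ⟨M', h3, h4, fun e => by rw [h5]; simp [xo]⟩
  | false =>
    obtain ⟨M', h3, h4, h5⟩ := key B A hAB.symm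
    refine ⟨fun i => (M' i).reverse, h3.reverse, ?_, fun e => ?_⟩
    · rw [tlen_reverse, h4, mlen_symm]
    · rw [use_reverse, h5]; simp [xo]

/-- total usage of an edge by all chosen families -/
noncomputable def TT {r : ℕ} (M : ∀ A B : N, Fin r → Q.Walk A B) (e : Sym2 N) : ℕ :=
  ∑ A, ∑ B, if A ≠ B then uu M A B e else 0

lemma sum_xo {r b : ℕ} (tt : N → N → ℕ) (htt : ∀ A B, A ≠ B → tt A B + tt B A = b)
    (M : ∀ A B : N, Fin r → Q.Walk A B) (e : Sym2 N) :
    ∑ A, ∑ B, ∑ o : (Q ≃g Q) × Bool, (if A ≠ B then tt A B * xo M A B o e else 0) =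
      b * ∑ φ : Q ≃g Q, TT M (e.map φ.symm) := by
  have h1 : ∀ A B, ∑ o : (Q ≃g Q) × Bool, (if A ≠ B then tt A B * xo M A B o e else 0) =
      ∑ φ : Q ≃g Q, ((if A ≠ B then tt A B * uu M (φ.symm A) (φ.symm B) (e.map φ.symm) else 0) +
        (if A ≠ B then tt A B * uu M (φ.symm B) (φ.symm A) (e.map φ.symm) else 0)) := by
    intro A B
    rw [Fintype.sum_prod_type]
    refine sum_congr rfl fun φ _ => ?_
    rw [Fintype.sum_bool]
    unfold xo
    simp only [if_true, Bool.false_eq_true, if_false]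
  simp only [h1]
  have h2 : ∀ A, ∑ B, ∑ φ : Q ≃g Q,
      ((if A ≠ B then tt A B * uu M (φ.symm A) (φ.symm B) (e.map φ.symm) else 0) +
        (if A ≠ B then tt A B * uu M (φ.symm B) (φ.symm A) (e.map φ.symm) else 0)) =
      ∑ φ : Q ≃g Q, ∑ B,
      ((if A ≠ B then tt A B * uu M (φ.symm A) (φ.symm B) (e.map φ.symm) else 0) +
        (if A ≠ B then tt A B * uu M (φ.symm B) (φ.symm A) (e.map φ.symm) else 0)) :=
    fun A => sum_comm
  simp only [h2]
  rw [sum_comm, mul_sum]
  refine sum_congr rfl fun φ _ => ?_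
  simp only [sum_add_distrib]
  rw [sum_comm (f := fun A B => if A ≠ B then
    tt A B * uu M (φ.symm B) (φ.symm A) (e.map φ.symm) else 0)]
  simp only [← sum_add_distrib]
  unfold TT
  rw [mul_sum]
  refine Fintype.sum_equiv φ.symm.toEquiv _ _ fun A => ?_
  rw [mul_sum]
  refine Fintype.sum_equiv φ.symm.toEquiv _ _ fun B => ?_
  change _ = b * (if φ.symm A ≠ φ.symm B then uu M (φ.symm A) (φ.symm B) (e.map φ.symm) else 0)
  by_cases hAB : A = B
  · subst hAB
    simp
  · have : φ.symm A ≠ φ.symm B := fun h => hAB (φ.symm.injective h)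
    rw [if_pos hAB, if_pos (Ne.symm hAB), if_pos this, ← add_mul, htt A B hAB]

lemma avg_const {r : ℕ} (het : ET Q) (M : ∀ A B : N, Fin r → Q.Walk A B) {e e' : Sym2 N}
    (he : e ∈ Q.edgeSet) (he' : e' ∈ Q.edgeSet) :
    ∑ φ : Q ≃g Q, TT M (e.map φ.symm) = ∑ φ : Q ≃g Q, TT M (e'.map φ.symm) := by
  have hex : ∃ ψ : Q ≃g Q, e.map ψ = e' := by
    induction e with
    | h A B =>
      induction e' with
      | h C D =>
        obtain ⟨ψ, h | h⟩ := het A B C D he he'
        · exact ⟨ψ, by simp [h.1, h.2]⟩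
        · exact ⟨ψ, by simp [h.1, h.2, Sym2.eq_swap]⟩
  obtain ⟨ψ, rfl⟩ := hex
  refine Fintype.sum_equiv
    { toFun := fun φ => φ.trans ψ
      invFun := fun φ => φ.trans ψ.symm
      left_inv := fun φ => by ext x; simp
      right_inv := fun φ => by ext x; simp } _ _ fun φ => ?_
  congr 1
  induction e with
  | h u v => simp

/-- **Balanced families.** -/
theorem exists_families {r b : ℕ} (tt : N → N → ℕ) (htt : ∀ A B, A ≠ B → tt A B + tt B A = b)
    (hc : Q.Connected) (hl : Atoms.Lower Q r)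
    (hr : ∀ v, (univ.filter fun w => Q.Adj v w).card = r) (het : ET Q)
    (hne : Nonempty Q.edgeSet) :
    ∃ M : ∀ A B : N, Fin b → Fin r → Q.Walk A B,
      (∀ A B j, A ≠ B → Fam Q r A B (M A B j)) ∧
      ∃ a : ℝ, ∀ e ∈ Q.edgeSet,
        |((∑ A, ∑ B, ∑ j : Fin b, if A ≠ B ∧ (j : ℕ) < tt A B then use (M A B j) e else 0 : ℕ) : ℝ)
          - a| ≤ ((Fintype.card Q.edgeSet : ℝ) - 1) / 2 := by
  classical
  have hw : ∀ A B : N, ∃ M : Fin r → Q.Walk A B,
      A ≠ B → Fam Q r A B M ∧ tlen M = mlen Q r A B := by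
    intro A B
    by_cases hAB : A = B
    · obtain ⟨p⟩ := hc.preconnected A B
      exact ⟨fun _ => p, fun h => absurd hAB h⟩
    · obtain ⟨M, h1, h2⟩ := exists_min_fam hl hr hAB
      exact ⟨M, fun _ => ⟨h1, h2⟩⟩
  choose M hM using hw
  obtain ⟨e0⟩ := hne
  set v : N × N × Fin b → Prop := fun i => i.1 ≠ i.2.1 ∧ (i.2.2 : ℕ) < tt i.1 i.2.1 with hv
  set x : N × N × Fin b → (Q ≃g Q) × Bool → Q.edgeSet → ℝ := fun i o e =>
    if v i then (xo M i.1 i.2.1 o e.1 : ℝ) else 0 with hx
  have hcard : 0 < Fintype.card ((Q ≃g Q) × Bool) :=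
    Fintype.card_pos_iff.2 ⟨(RelIso.refl _, true)⟩
  set c0 : ℝ := 1 / (Fintype.card ((Q ≃g Q) × Bool) : ℝ) with hc0
  have hc0' : (Fintype.card ((Q ≃g Q) × Bool) : ℝ) * c0 = 1 := by
    rw [hc0]
    field_simp
  obtain ⟨c, hcc⟩ := round_rows e0 x (fun i => if v i then (mlen Q r i.1 i.2.1 : ℝ) else 0) (by
      intro i o
      by_cases h : v i
      · simp only [hx, h, if_true]
        obtain ⟨M', h1, h2, h3⟩ := option_fam hM h.1 o
        have h4 := sum_use h1
        rw [h2] at h4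
        rw [← h4, Nat.cast_sum, Finset.sum_subtype Q.edgeFinset
          (p := fun e => e ∈ Q.edgeSet) (fun e => SimpleGraph.mem_edgeFinset)]
        refine sum_congr rfl fun e _ => ?_
        rw [← h3]
      · simp [hx, h]) (by
      intro i o o' e
      by_cases h : v i
      · simp only [hx, h, if_true]
        obtain ⟨M1, h1, _, h3⟩ := option_fam hM h.1 o
        obtain ⟨M2, h4, _, h6⟩ := option_fam hM h.1 o'
        have := use_le_succ h1 h4 e.1
        rw [h3, h6] at this
        have h7 : (xo M i.1 i.2.1 o e.1 : ℝ) ≤ (xo M i.1 i.2.1 o' e.1 : ℝ) + 1 := by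
          exact_mod_cast this
        linarith
      · simp [hx, h]) (fun _ _ => c0) (fun _ _ => by positivity) (by
      intro i
      rw [sum_const, card_univ, nsmul_eq_mul, hc0'])
  -- the chosen families
  have hfam : ∀ A B : N, ∀ j : Fin b, ∃ M' : Fin r → Q.Walk A B, A ≠ B →
      Fam Q r A B M' ∧ ∀ e, use M' e = xo M A B (c (A, B, j)) e := by
    intro A B j
    by_cases hAB : A = B
    · exact ⟨M A B, fun h => absurd hAB h⟩
    · obtain ⟨M', h1, _, h3⟩ := option_fam hM hAB (c (A, B, j))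
      exact ⟨M', fun _ => ⟨h1, h3⟩⟩
  choose M' hM' using hfam
  refine ⟨M', fun A B j hAB => (hM' A B j hAB).1,
    c0 * (b * ∑ φ : Q ≃g Q, TT M (e0.1.map φ.symm) : ℕ), fun e he => ?_⟩
  have h1 := hcc ⟨e, he⟩
  have h2 : ((∑ A, ∑ B, ∑ j : Fin b,
      if A ≠ B ∧ (j : ℕ) < tt A B then use (M' A B j) e else 0 : ℕ) : ℝ) =
      ∑ i, x i (c i) ⟨e, he⟩ := by
    rw [Fintype.sum_prod_type]
    push_cast
    refine sum_congr rfl fun A _ => ?_
    rw [Fintype.sum_prod_type]
    refine sum_congr rfl fun B _ => sum_congr rfl fun j _ => ?_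
    simp only [hx, hv]
    by_cases h : A ≠ B ∧ (j : ℕ) < tt A B
    · rw [if_pos h, if_pos h, (hM' A B j h.1).2]
    · rw [if_neg h, if_neg h]
  have hmul : ∀ A B, A ≠ B → ∀ z : ℝ,
      (tt A B : ℝ) * z = ∑ j : Fin b, if (j : ℕ) < tt A B then z else 0 := by
    intro A B hAB z
    have h5 : tt A B ≤ b := by have := htt A B hAB; omega
    have h6 : (univ.filter fun j : Fin b => (j : ℕ) < tt A B).card = tt A B := by
      have h6 : (univ.filter fun j : Fin b => (j : ℕ) < tt A B) =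
          (univ : Finset (Fin (tt A B))).map (Fin.castLEEmb h5) := by
        ext j
        simp only [mem_filter, mem_univ, true_and, mem_map]
        constructor
        · intro h
          exact ⟨⟨j, h⟩, rfl⟩
        · rintro ⟨i, rfl⟩
          exact i.2
      rw [h6, card_map, card_univ, Fintype.card_fin]
    rw [← sum_filter, sum_const, h6, nsmul_eq_mul]
  have h3 : ∑ i, ∑ o, c0 * x i o ⟨e, he⟩ =
      c0 * (b * ∑ φ : Q ≃g Q, TT M (e0.1.map φ.symm) : ℕ) := by
    rw [← avg_const het M he e0.2, ← sum_xo tt htt M e]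
    simp only [← mul_sum]
    congr 1
    rw [Fintype.sum_prod_type]
    push_cast
    refine sum_congr rfl fun A _ => ?_
    rw [Fintype.sum_prod_type]
    refine sum_congr rfl fun B _ => ?_
    rw [sum_comm]
    refine sum_congr rfl fun o _ => ?_
    by_cases hAB : A = B
    · simp [hx, hv, hAB]
    · simp only [hx, hv]
      rw [if_pos hAB, hmul A B hAB]
      refine sum_congr rfl fun j _ => ?_
      by_cases h : (j : ℕ) < tt A B
      · simp [hAB, h]
      · simp [h]
  rw [h2, ← h3]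
  exact h1

end Pool.Agent.UPS.EU
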