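import Mathlib
import Pool.Agent.Lib.MP_876e19_co_ups.EUBase

/-!
# Tables of routes: counting, parity (TT876, cubic case)
-/

set_option autoImplicit false
set_option linter.unusedSectionVars false

namespace Pool.Agent.UPS.EU

open Finset

variable {N : Type*} [Fintype N] [DecidableEq N] {Q : SimpleGraph N} [DecidableRel Q.Adj]

/-- units: root, target, copy, label (a neighbour of the target) -/
abbrev Un (N : Type*) (b : ℕ) := N × N × Fin b × N

/-- valid units -/
def UU (Q : SimpleGraph N) [DecidableRel Q.Adj] (b : ℕ) (tt : N → N → ℕ) : Finset (Un N b) :=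
  univ.filter fun x => x.1 ≠ x.2.1 ∧ (x.2.2.1 : ℕ) < tt x.1 x.2.1 ∧ Q.Adj x.2.2.2 x.2.1

/-- tables of routes -/
abbrev Tab (Q : SimpleGraph N) (b : ℕ) := ∀ x : Un N b, Q.Walk x.1 x.2.1

/-- number of units through `e` -/
def cnt {b : ℕ} (tt : N → N → ℕ) (W : Tab Q b) (e : Sym2 N) : ℕ :=
  ∑ x ∈ UU Q b tt, if e ∈ (W x).edges then 1 else 0

/-- all routes are paths, and every route avoids its label unless this is its root -/
structure Good {b : ℕ} (tt : N → N → ℕ) (W : Tab Q b) : Prop where
  path : ∀ x ∈ UU Q b tt, (W x).IsPath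
  avoid : ∀ x ∈ UU Q b tt, x.2.2.2 ≠ x.1 → x.2.2.2 ∉ (W x).support

lemma mem_UU {b : ℕ} {tt : N → N → ℕ} {x : Un N b} :
    x ∈ UU Q b tt ↔ x.1 ≠ x.2.1 ∧ (x.2.2.1 : ℕ) < tt x.1 x.2.1 ∧ Q.Adj x.2.2.2 x.2.1 := by
  simp [UU]

/-- relabelling of a family -/
lemma relabel {r : ℕ} (h2 : 2 ≤ r) (hr : ∀ v, (univ.filter fun w => Q.Adj v w).card = r)
    {A B : N} {M : Fin r → Q.Walk A B} (h : Fam Q r A B M) :
    ∃ g : N → Fin r, (∀ C, Q.Adj C B → C ≠ A → C ∉ (M (g C)).support) ∧
      ∀ e, ∑ C ∈ univ.filter (fun C => Q.Adj C B), (if e ∈ (M (g C)).edges then 1 else 0) =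
        use M e := by
  classical
  obtain ⟨l, h3, h4, h5⟩ := h.tgt
  have himg : univ.image l = univ.filter (fun C => Q.Adj C B) := by
    apply eq_of_subset_of_card_le
    · intro C hC
      obtain ⟨i, _, rfl⟩ := mem_image.1 hC
      simpa using h3 i
    · rw [card_image_of_injective _ h4, card_univ, Fintype.card_fin, ← hr B]
      apply le_of_eq
      congr 1
      ext w
      simp [Q.adj_comm]
  have hsurj : ∀ C, Q.Adj C B → ∃ i, l i = C := by
    intro C hC
    have : C ∈ univ.image l := by rw [himg]; simpa using hC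
    obtain ⟨i, _, hi⟩ := mem_image.1 this
    exact ⟨i, hi⟩
  have : NeZero r := ⟨by omega⟩
  have hex : ∀ C, ∃ i : Fin r, Q.Adj C B → l i = C := by
    intro C
    by_cases hC : Q.Adj C B
    · obtain ⟨i, hi⟩ := hsurj C hC
      exact ⟨i, fun _ => hi⟩
    · exact ⟨0, fun h => absurd h hC⟩
  choose k hk using hex
  have hrot : ∀ i : Fin r, finRotate r i ≠ i := by
    obtain ⟨m, rfl⟩ : ∃ m, r = m + 2 := ⟨r - 2, by omega⟩
    intro i hi
    rw [finRotate_apply] at hi
    have := congrArg Fin.val hi
    rw [Fin.val_add] at this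
    have h1 : (1 : Fin (m + 1 + 1)).val = 1 := rfl
    rw [h1] at this
    have h6 := i.2
    rcases Nat.lt_or_ge (i.val + 1) (m + 1 + 1) with h7 | h7
    · rw [Nat.mod_eq_of_lt h7] at this
      omega
    · have h8 : i.val + 1 = m + 1 + 1 := by omega
      rw [h8, Nat.mod_self] at this
      omega
  refine ⟨fun C => finRotate r (k C), ?_, ?_⟩
  · intro C hC hCA hmem
    have h6 := h5 _ C hC hCA hmem
    have h7 := hk C hC
    apply hrot (k C)
    apply h4
    rw [← h6, h7]
  · intro e
    unfold use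
    refine sum_bij (fun C _ => finRotate r (k C)) (fun _ _ => mem_univ _) ?_ ?_ ?_
    · intro C hC C' hC' hCC
      have h6 := (finRotate r).injective hCC
      rw [mem_filter] at hC hC'
      rw [← hk C hC.2, ← hk C' hC'.2, h6]
    · intro i _
      refine ⟨l ((finRotate r).symm i), by simpa using h3 _, ?_⟩
      have h6 := hk (l ((finRotate r).symm i)) (h3 _)
      rw [h4 h6, Equiv.apply_symm_apply]
    · intro C _
      rfl

/-- tables from families -/
theorem exists_table {r b : ℕ} (tt : N → N → ℕ) (h2 : 2 ≤ r)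
    (hr : ∀ v, (univ.filter fun w => Q.Adj v w).card = r) (M : ∀ A B : N, Fin b → Fin r → Q.Walk A B)
    (hM : ∀ A B j, A ≠ B → Fam Q r A B (M A B j)) :
    ∃ W : Tab Q b, Good tt W ∧
      (∀ A B j, Q.Adj A B → (W (A, B, j, A)).edges = [s(A, B)]) ∧
      ∀ e, cnt tt W e = ∑ A, ∑ B, ∑ j : Fin b,
        if A ≠ B ∧ (j : ℕ) < tt A B then use (M A B j) e else 0 := by
  classical
  have hex : ∀ A B : N, ∀ j : Fin b, ∃ g : N → Fin r, A ≠ B →
      (∀ C, Q.Adj C B → C ≠ A → C ∉ (M A B j (g C)).support) ∧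
      ∀ e, ∑ C ∈ univ.filter (fun C => Q.Adj C B), (if e ∈ (M A B j (g C)).edges then 1 else 0) =
        use (M A B j) e := by
    intro A B j
    by_cases hAB : A = B
    · exact ⟨fun _ => ⟨0, by omega⟩, fun h => absurd hAB h⟩
    · obtain ⟨g, h3, h4⟩ := relabel h2 hr (hM A B j hAB)
      exact ⟨g, fun _ => ⟨h3, h4⟩⟩
  choose g hg using hex
  refine ⟨fun x => M x.1 x.2.1 x.2.2.1 (g x.1 x.2.1 x.2.2.1 x.2.2.2), ⟨?_, ?_⟩, ?_, ?_⟩
  · intro x hx
    rw [mem_UU] at hx
    exact (hM _ _ _ hx.1).path _
  · intro x hx h3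
    rw [mem_UU] at hx
    exact (hg _ _ _ hx.1).1 _ hx.2.2 h3
  · intro A B j hAB
    exact (hM A B j hAB.ne).dir hAB _
  · intro e
    unfold cnt UU
    rw [sum_filter, Fintype.sum_prod_type]
    refine sum_congr rfl fun A _ => ?_
    rw [Fintype.sum_prod_type]
    refine sum_congr rfl fun B _ => ?_
    rw [Fintype.sum_prod_type]
    refine sum_congr rfl fun j _ => ?_
    by_cases h : A ≠ B ∧ (j : ℕ) < tt A B
    · rw [if_pos h, ← (hg A B j h.1).2 e, sum_filter]
      refine sum_congr rfl fun C _ => ?_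
      by_cases hC : Q.Adj C B
      · simp [h.1, h.2, hC]
      · simp [hC]
    · rw [if_neg h]
      refine sum_eq_zero fun C _ => ?_
      rw [if_neg]
      intro h'
      exact h ⟨h'.1, h'.2.1⟩

/-- In an even set of edges, the ends of every edge are joined by another path. -/
theorem exists_path_of_even (D : Finset (Sym2 N)) (hD : ∀ e ∈ D, e ∈ Q.edgeSet)
    (hev : ∀ v, Even (D.filter fun e => v ∈ e).card) {A B : N} (hAB : s(A, B) ∈ D) :
    ∃ p : Q.Walk A B, p.IsPath ∧ ∀ e ∈ p.edges, e ∈ D ∧ e ≠ s(A, B) := by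
  classical
  set e0 := s(A, B) with he0
  set H : SimpleGraph N := SimpleGraph.fromEdgeSet ((D.erase e0 : Finset (Sym2 N)) : Set (Sym2 N))
    with hH
  have hHadj : ∀ u v, H.Adj u v ↔ s(u, v) ∈ D ∧ s(u, v) ≠ e0 := by
    intro u v
    rw [hH, SimpleGraph.fromEdgeSet_adj]
    simp only [mem_coe, mem_erase]
    constructor
    · rintro ⟨⟨h1, h2⟩, _⟩
      exact ⟨h2, h1⟩
    · rintro ⟨h1, h2⟩
      exact ⟨⟨h2, h1⟩, (hD _ h1 : Q.Adj u v).ne⟩
  have hHQ : H ≤ Q := fun u v h => hD _ ((hHadj u v).1 h).1
  have hneAB : A ≠ B := (hD _ hAB : Q.Adj A B).ne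
  -- reachability
  have hreach : H.Reachable A B := by
    by_contra hno
    set S : Set N := {v | H.Reachable A v} with hS
    set K : SimpleGraph N :=
      { Adj := fun u v => H.Adj u v ∧ u ∈ S
        symm := ⟨fun u v h => ⟨h.1.symm, h.2.trans h.1.reachable⟩⟩
        loopless := ⟨fun u h => H.irrefl h.1⟩ } with hK
    have : DecidableRel K.Adj := Classical.decRel _
    have hdeg : ∀ v, v ∈ S → K.degree v = ((D.erase e0).filter fun e => v ∈ e).card := by
      intro v hv
      rw [← SimpleGraph.card_incidenceFinset_eq_degree]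
      congr 1
      ext e
      induction e with
      | h x y =>
        simp only [SimpleGraph.mem_incidenceFinset, mem_filter,
          mem_erase, SimpleGraph.incidenceSet, Set.mem_ofPred_eq, SimpleGraph.mem_edgeSet]
        constructor
        · rintro ⟨h1, h2⟩
          have := (hHadj x y).1 h1.1
          exact ⟨⟨this.2, this.1⟩, h2⟩
        · rintro ⟨⟨h1, h2⟩, h3⟩
          have h4 : H.Adj x y := (hHadj x y).2 ⟨h2, h1⟩
          refine ⟨⟨h4, ?_⟩, h3⟩
          rw [Sym2.mem_iff] at h3
          rcases h3 with rfl | rfl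
          · exact hv
          · exact hv.trans h4.symm.reachable
    have hdeg0 : ∀ v, v ∉ S → K.degree v = 0 := by
      intro v hv
      rw [SimpleGraph.degree, card_eq_zero, eq_empty_iff_forall_notMem]
      intro w hw
      rw [SimpleGraph.mem_neighborFinset] at hw
      exact hv hw.2
    have hcard : ∀ v, v ∈ S → (Odd (K.degree v) ↔ v = A) := by
      intro v hv
      rw [hdeg v hv]
      have h1 := hev v
      have hsplit : (D.filter fun e => v ∈ e).card =
          ((D.erase e0).filter fun e => v ∈ e).card + if v ∈ e0 then 1 else 0 := by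
        conv_lhs => rw [← insert_erase hAB, filter_insert]
        split_ifs with h
        · rw [card_insert_of_notMem]
          simp
        · simp
      rw [hsplit] at h1
      constructor
      · intro h2
        by_contra h3
        have h4 : v ∉ e0 := by
          rw [he0, Sym2.mem_iff]
          rintro (rfl | rfl)
          · exact h3 rfl
          · exact hno hv
        rw [if_neg h4, add_zero] at h1
        exact (Nat.not_even_iff_odd.2 h2) h1
      · rintro rfl
        rw [if_pos (by rw [he0]; simp)] at h1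
        rw [← Nat.not_even_iff_odd]
        intro h2
        rw [Nat.even_add_one] at h1
        exact h1 h2
    have hfin : (univ.filter fun v => Odd (K.degree v)) = {A} := by
      ext v
      simp only [mem_filter, mem_univ, true_and, mem_singleton]
      by_cases hv : v ∈ S
      · exact hcard v hv
      · rw [hdeg0 v hv]
        constructor
        · intro h; simp at h
        · rintro rfl
          exact absurd (SimpleGraph.Reachable.refl _) hv
    have := K.even_card_odd_degree_vertices
    rw [hfin] at this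
    simp at this
  obtain ⟨p, hp⟩ := hreach.exists_isPath
  refine ⟨p.mapLe hHQ, ?_, ?_⟩
  · exact hp.mapLe hHQ
  · intro e he
    rw [SimpleGraph.Walk.edges_mapLe_eq_edges] at he
    have h1 := p.edges_subset_edgeSet he
    induction e with
    | h x y => exact (hHadj x y).1 h1

end Pool.Agent.UPS.EU
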