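import Mathlib
import Pool.Agent.Lib.MP_876e19_co_ups.EUTab

/-!
# Making all counts of one parity (TT876, cubic case)
-/

set_option autoImplicit false
set_option linter.unusedSectionVars false

namespace Pool.Agent.UPS.EU

open Finset

variable {N : Type*} [Fintype N] [DecidableEq N] {Q : SimpleGraph N} [DecidableRel Q.Adj]

/-- the number of units on a pair -/
lemma card_fiber {b r : ℕ} {tt : N → N → ℕ} (hr : ∀ v, (univ.filter fun w => Q.Adj v w).card = r)
    {A B : N} (hle : tt A B ≤ b) :
    (univ.filter fun y : Fin b × N => (y.1 : ℕ) < tt A B ∧ Q.Adj y.2 B).card = tt A B * r := by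
  rw [← univ_product_univ, filter_product (fun j : Fin b => (j : ℕ) < tt A B) (fun C => Q.Adj C B),
    card_product, Fin.card_filter_val_lt, min_eq_right hle]
  congr 1
  rw [← hr B]
  congr 1
  ext w
  simp [Q.adj_comm]

lemma sum_UU {b : ℕ} (tt : N → N → ℕ) (f : Un N b → ℕ) :
    ∑ x ∈ UU Q b tt, f x = ∑ A, ∑ B, ∑ y : Fin b × N,
      if A ≠ B ∧ (y.1 : ℕ) < tt A B ∧ Q.Adj y.2 B then f (A, B, y) else 0 := by
  unfold UU
  rw [sum_filter, Fintype.sum_prod_type]
  refine sum_congr rfl fun A _ => ?_
  rw [Fintype.sum_prod_type]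

/-- the number of units with an end at `v` -/
lemma card_endpoint {b r : ℕ} {tt : N → N → ℕ}
    (hr : ∀ v, (univ.filter fun w => Q.Adj v w).card = r) (hsum : ∀ A B, A ≠ B → tt A B + tt B A = b)
    (v : N) :
    ((UU Q b tt).filter fun x => x.1 = v ∨ x.2.1 = v).card = (Fintype.card N - 1) * (b * r) := by
  have hle : ∀ A B, A ≠ B → tt A B ≤ b := fun A B h => by have := hsum A B h; omega
  rw [card_filter, sum_UU]
  have h1 : ∀ A B : N, (∑ y : Fin b × N,
      if A ≠ B ∧ (y.1 : ℕ) < tt A B ∧ Q.Adj y.2 B then
        (if ((A, B, y) : Un N b).1 = v ∨ ((A, B, y) : Un N b).2.1 = v then 1 else 0) else 0) =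
      (if A = v then (if B ≠ v then tt v B * r else 0) else 0) +
        (if B = v then (if A ≠ v then tt A v * r else 0) else 0) := by
    intro A B
    by_cases hAB : A = B
    · subst hAB
      rw [sum_eq_zero]
      · split_ifs with h2 <;> simp_all
      · intro y _
        simp
    · have h3 : (∑ y : Fin b × N, if A ≠ B ∧ (y.1 : ℕ) < tt A B ∧ Q.Adj y.2 B then
        (if ((A, B, y) : Un N b).1 = v ∨ ((A, B, y) : Un N b).2.1 = v then 1 else 0) else 0) =
          if A = v ∨ B = v then tt A B * r else 0 := by
        by_cases hv : A = v ∨ B = v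
        · rw [if_pos hv, ← card_fiber hr (hle A B hAB), card_filter]
          refine sum_congr rfl fun y _ => ?_
          simp [hAB, hv]
        · rw [if_neg hv]
          refine sum_eq_zero fun y _ => ?_
          simp [hv]
      rw [h3]
      by_cases hA : A = v
      · subst hA
        have : B ≠ A := fun h => hAB h.symm
        simp [this]
      · by_cases hB : B = v
        · subst hB
          simp [hA]
        · simp [hA, hB]
  simp_rw [h1, sum_add_distrib]
  have h4 : ∑ A : N, ∑ B : N, (if A = v then (if B ≠ v then tt v B * r else 0) else 0) =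
      ∑ B : N, if B ≠ v then tt v B * r else 0 := by
    rw [sum_comm]
    refine sum_congr rfl fun B _ => ?_
    simp
  have h5 : ∑ A : N, ∑ B : N, (if B = v then (if A ≠ v then tt A v * r else 0) else 0) =
      ∑ A : N, if A ≠ v then tt A v * r else 0 := by
    refine sum_congr rfl fun A _ => ?_
    simp
  rw [h4, h5, ← sum_add_distrib]
  have h6 : ∀ B : N, ((if B ≠ v then tt v B * r else 0) + if B ≠ v then tt B v * r else 0) =
      if B ≠ v then b * r else 0 := by
    intro B
    by_cases hB : B ≠ v
    · simp only [if_pos hB]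
      rw [← add_mul, hsum v B hB.symm]
    · simp [hB]
  simp_rw [h6]
  rw [← sum_filter, sum_const, smul_eq_mul]
  congr 1
  rw [filter_ne', card_erase_of_mem (mem_univ v), card_univ]

/-- parity of the counts at a node -/
lemma sum_cnt_at {b : ℕ} {tt : N → N → ℕ} {W : Tab Q b} (h : Good tt W) (v : N) :
    (Even (∑ e ∈ Q.edgeFinset.filter (fun e => v ∈ e), cnt tt W e) ↔
      Even ((UU Q b tt).filter fun x => x.1 = v ∨ x.2.1 = v).card) := by
  classical
  have h1 : ∑ e ∈ Q.edgeFinset.filter (fun e => v ∈ e), cnt tt W e =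
      ∑ x ∈ UU Q b tt, ((W x).edges.countP fun e => decide (v ∈ e)) := by
    unfold cnt
    rw [sum_comm]
    refine sum_congr rfl fun x hx => ?_
    rw [sum_boole, Nat.cast_id]
    have hnd : (W x).edges.Nodup := (h.path x hx).isTrail.edges_nodup
    rw [List.countP_eq_length_filter, ← List.toFinset_card_of_nodup (hnd.filter _)]
    congr 1
    ext e
    simp only [mem_filter, List.mem_toFinset, List.mem_filter, decide_eq_true_eq,
      SimpleGraph.mem_edgeFinset]
    constructor
    · rintro ⟨⟨_, h2⟩, h3⟩
      exact ⟨h3, h2⟩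
    · rintro ⟨h2, h3⟩
      exact ⟨⟨(W x).edges_subset_edgeSet h2, h3⟩, h2⟩
  rw [h1, even_sum_iff_even_card_odd]
  have h2 : (UU Q b tt).filter (fun x => Odd ((W x).edges.countP fun e => decide (v ∈ e))) =
     (UU Q b tt).filter fun x => x.1 = v ∨ x.2.1 = v := by
    refine filter_congr fun x hx => ?_
    rw [← Nat.not_even_iff_odd, (h.path x hx).isTrail.even_countP_edges_iff]
    have h5 := (mem_UU.1 hx).1
    constructor
    · intro h3
      by_contra h4
      apply h3
      intro _
      rw [not_or] at h4
      exact ⟨fun h => h4.1 h.symm, fun h => h4.2 h.symm⟩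
    · intro h3 h4
      have h6 := h4 h5
      rcases h3 with h3 | h3
      · exact h6.1 h3.symm
      · exact h6.2 h3.symm
  rw [h2]

/-- the edges whose count has the wrong parity -/
def Bad {b : ℕ} (tt : N → N → ℕ) (W : Tab Q b) : Finset (Sym2 N) :=
  Q.edgeFinset.filter fun e => Odd (cnt tt W e + (Fintype.card N - 1) * b)

lemma bad_even {b r : ℕ} {tt : N → N → ℕ}
    (hr : ∀ v, (univ.filter fun w => Q.Adj v w).card = r) (hsum : ∀ A B, A ≠ B → tt A B + tt B A = b)
    {W : Tab Q b} (h : Good tt W) (v : N) : Even ((Bad tt W).filter fun e => v ∈ e).card := by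
  unfold Bad
  have hk : (Q.edgeFinset.filter fun e => v ∈ e).card = r := by
    rw [← SimpleGraph.incidenceFinset_eq_filter, SimpleGraph.card_incidenceFinset_eq_degree, ← hr v,
      ← SimpleGraph.card_neighborFinset_eq_degree]
    congr 1
    ext w
    simp
  rw [filter_filter]
  have h1 : (Q.edgeFinset.filter fun e => Odd (cnt tt W e + (Fintype.card N - 1) * b) ∧ v ∈ e) =
      (Q.edgeFinset.filter fun e => v ∈ e).filter
        fun e => Odd (cnt tt W e + (Fintype.card N - 1) * b) := by
    rw [filter_filter]
    refine filter_congr fun e _ => ?_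
    exact and_comm
  rw [h1, ← even_sum_iff_even_card_odd, sum_add_distrib, sum_const, hk, Nat.even_add,
    sum_cnt_at h v, card_endpoint hr hsum v]
  rw [smul_eq_mul]
  have : (Fintype.card N - 1) * (b * r) = r * ((Fintype.card N - 1) * b) := by ring
  rw [this]

/-- changing one route -/
lemma cnt_update {b : ℕ} {tt : N → N → ℕ} (W : Tab Q b) {x : Un N b} (hx : x ∈ UU Q b tt)
    (p : Q.Walk x.1 x.2.1) (e : Sym2 N) :
    cnt tt (Function.update W x p) e + (if e ∈ (W x).edges then 1 else 0) =
      cnt tt W e + if e ∈ p.edges then 1 else 0 := by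
  unfold cnt
  rw [← add_sum_erase _ _ hx, ← add_sum_erase _ (fun x => if e ∈ (W x).edges then 1 else 0) hx]
  rw [Function.update_self]
  have : ∀ y ∈ (UU Q b tt).erase x, (if e ∈ (Function.update W x p y).edges then 1 else 0) =
      if e ∈ (W y).edges then 1 else 0 := by
    intro y hy
    rw [Function.update_of_ne (ne_of_mem_erase hy)]
  rw [sum_congr rfl this]
  ring

/-- all counts get the same parity, and change by at most one -/
theorem exists_even_table {b r : ℕ} {tt : N → N → ℕ}
    (hr : ∀ v, (univ.filter fun w => Q.Adj v w).card = r) (hsum : ∀ A B, A ≠ B → tt A B + tt B A = b)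
    (h0 : ∀ A B, A ≠ B → 0 < tt A B) (hb : 0 < b) {W₀ : Tab Q b} (hW : Good tt W₀)
    (hdir : ∀ A B j, Q.Adj A B → (W₀ (A, B, j, A)).edges = [s(A, B)]) :
    ∃ W : Tab Q b, Good tt W ∧
      (∀ e ∈ Q.edgeFinset, Even (cnt tt W e + (Fintype.card N - 1) * b)) ∧
      ∀ e, cnt tt W e ≤ cnt tt W₀ e + 1 ∧ cnt tt W₀ e ≤ cnt tt W e + 1 := by
  classical
  suffices H : ∀ k : ℕ, ∀ W : Tab Q b, (Bad tt W).card = k → Good tt W →
      (∀ A B, s(A, B) ∈ Bad tt W → (W (A, B, ⟨0, hb⟩, A)).edges = [s(A, B)]) →
      (∀ e, cnt tt W e ≤ cnt tt W₀ e + 1 ∧ cnt tt W₀ e ≤ cnt tt W e + 1) →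
      (∀ e ∈ Bad tt W, cnt tt W e = cnt tt W₀ e) →
      ∃ W : Tab Q b, Good tt W ∧
      (∀ e ∈ Q.edgeFinset, Even (cnt tt W e + (Fintype.card N - 1) * b)) ∧
      ∀ e, cnt tt W e ≤ cnt tt W₀ e + 1 ∧ cnt tt W₀ e ≤ cnt tt W e + 1 by
    refine H _ W₀ rfl hW ?_ ?_ ?_
    · intro A B hAB
      have : Q.Adj A B := by
        have h1 := (mem_filter.1 hAB).1
        rwa [SimpleGraph.mem_edgeFinset] at h1
      exact hdir A B _ this
    · intro e
      omega
    · intro e _
      rfl
  intro k
  induction k using Nat.strong_induction_on with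
  | _ k ih =>
    intro W hk hG hd hc1 hc2
    by_cases hemp : Bad tt W = ∅
    · refine ⟨W, hG, ?_, hc1⟩
      intro e he
      by_contra hodd
      rw [Nat.not_even_iff_odd] at hodd
      have : e ∈ Bad tt W := mem_filter.2 ⟨he, hodd⟩
      rw [hemp] at this
      simp at this
    · obtain ⟨e₀, he₀⟩ := nonempty_iff_ne_empty.2 hemp
      revert he₀
      refine Sym2.ind (fun A B => ?_) e₀
      intro he₀
      have hsub : ∀ e ∈ Bad tt W, e ∈ Q.edgeSet := by
        intro e he
        have h1 := (mem_filter.1 he).1
        rwa [SimpleGraph.mem_edgeFinset] at h1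
      have hadj : Q.Adj A B := hsub _ he₀
      obtain ⟨p, hp, hpe⟩ := exists_path_of_even (Bad tt W) hsub (bad_even hr hsum hG) he₀
      set x : Un N b := (A, B, ⟨0, hb⟩, A) with hx
      have hxU : x ∈ UU Q b tt := by
        rw [mem_UU]
        exact ⟨hadj.ne, h0 A B hadj.ne, hadj⟩
      set W' : Tab Q b := Function.update W x p with hW'
      have hcnt : ∀ e, cnt tt W' e + (if e = s(A, B) then 1 else 0) =
          cnt tt W e + if e ∈ p.edges then 1 else 0 := by
        intro e
        have h1 := cnt_update (tt := tt) W hxU p e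
        have h2 : (W x).edges = [s(A, B)] := hd A B he₀
        rw [h2] at h1
        simpa using h1
      have hnp : s(A, B) ∉ p.edges := fun h => (hpe _ h).2 rfl
      have hBad : Bad tt W' ⊆ (Bad tt W).erase s(A, B) := by
        intro e he
        rw [Bad, mem_filter] at he
        have h1 := hcnt e
        rw [mem_erase]
        by_cases h2 : e = s(A, B)
        · exfalso
          subst h2
          rw [if_pos rfl, if_neg hnp] at h1
          have h3 := (mem_filter.1 he₀).2
          have h4 := he.2
          rw [Nat.odd_iff] at h3 h4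
          omega
        · refine ⟨h2, ?_⟩
          rw [if_neg h2] at h1
          by_cases h3 : e ∈ p.edges
          · exact (hpe _ h3).1
          · rw [if_neg h3, add_zero, add_zero] at h1
            rw [Bad, mem_filter]
            refine ⟨he.1, ?_⟩
            rw [← h1]
            exact he.2
      have hBad2 : ∀ e ∈ Bad tt W', e ∉ p.edges := by
        intro e he h3
        have h5 := hpe e h3
        have h1 := hcnt e
        rw [if_neg h5.2, if_pos h3] at h1
        have h4 := (mem_filter.1 he).2
        have h6 := (mem_filter.1 h5.1).2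
        rw [Nat.odd_iff] at h4 h6
        omega
      have hlt : (Bad tt W').card < k := by
        rw [← hk]
        refine lt_of_le_of_lt (card_le_card hBad) ?_
        exact card_erase_lt_of_mem he₀
      refine ih _ hlt W' rfl ⟨?_, ?_⟩ ?_ ?_ ?_
      · intro y hy
        by_cases hyx : y = x
        · subst hyx
          rw [hW', Function.update_self]
          exact hp
        · rw [hW', Function.update_of_ne hyx]
          exact hG.path y hy
      · intro y hy h1
        by_cases hyx : y = x
        · subst hyx
          exact absurd rfl h1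
        · rw [hW', Function.update_of_ne hyx]
          exact hG.avoid y hy h1
      · intro A' B' h1
        have h2 := mem_erase.1 (hBad h1)
        rw [hW', Function.update_of_ne]
        · exact hd A' B' h2.2
        · intro h3
          rw [hx] at h3
          have h4 : A' = A := congrArg Prod.fst h3
          have h5 : B' = B := congrArg (fun z => z.2.1) h3
          exact h2.1 (by rw [h4, h5])
      · intro e
        have h1 := hcnt e
        by_cases h2 : e = s(A, B)
        · subst h2
          rw [if_pos rfl, if_neg hnp] at h1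
          have := hc2 _ he₀
          omega
        · rw [if_neg h2] at h1
          by_cases h3 : e ∈ p.edges
          · rw [if_pos h3] at h1
            have := hc2 _ (hpe e h3).1
            omega
          · rw [if_neg h3] at h1
            have := hc1 e
            omega
      · intro e he
        have h1 := hcnt e
        have h2 := mem_erase.1 (hBad he)
        rw [if_neg h2.1, if_neg (hBad2 e he), add_zero, add_zero] at h1
        rw [h1]
        exact hc2 e h2.2

end Pool.Agent.UPS.EU
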