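import Mathlib
import Pool.Agent.Lib.MP_876e19_co_ups.EUParity

/-!
# Making all counts equal (TT876, cubic case)
-/

set_option autoImplicit false
set_option linter.unusedSectionVars false

namespace Pool.Agent.UPS.EU

open Finset

variable {N : Type*} [Fintype N] [DecidableEq N] {Q : SimpleGraph N} [DecidableRel Q.Adj]

/-- the places where the count of an edge can be raised -/
def Av (b t : ℕ) (e : Sym2 N) : Finset (N × Fin b) :=
  univ.filter fun y => y.1 ∉ e ∧ (y.2 : ℕ) < t

lemma card_Av {b t : ℕ} (ht : t ≤ b) {B C : N} (h : B ≠ C) :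
    (Av b t s(B, C)).card = t * (Fintype.card N - 2) := by
  unfold Av
  rw [← univ_product_univ, filter_product (fun A : N => A ∉ s(B, C)) (fun j : Fin b => (j : ℕ) < t),
    card_product, Fin.card_filter_val_lt, min_eq_right ht, mul_comm]
  congr 1
  have : (univ.filter fun A : N => A ∉ s(B, C)) = univ \ {B, C} := by
    ext A
    simp
  rw [this, card_sdiff_of_subset (subset_univ _), card_univ, card_pair h]

/-- raising the counts by toggles -/
theorem exists_const_table {b t K : ℕ} {tt : N → N → ℕ} (ht : t ≤ b)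
    (htt : ∀ A B, A ≠ B → t ≤ tt A B) {W : Tab Q b} (hG : Good tt W)
    (hK : ∀ e ∈ Q.edgeFinset, cnt tt W e ≤ K)
    (hpar : ∀ e ∈ Q.edgeFinset, Even (K - cnt tt W e))
    (hroom : ∀ e ∈ Q.edgeFinset, K - cnt tt W e ≤ 2 * (t * (Fintype.card N - 2)) + 1) :
    ∃ W' : Tab Q b, (∀ x ∈ UU Q b tt, (W' x).IsPath) ∧ ∀ e ∈ Q.edgeFinset, cnt tt W' e = K := by
  classical
  have hS : ∀ e : Sym2 N, ∃ S : Finset (N × Fin b), S ⊆ Av b t e ∧
      (e ∈ Q.edgeFinset → 2 * S.card = K - cnt tt W e) := by
    intro e
    by_cases he : e ∈ Q.edgeFinset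
    · have h1 : (K - cnt tt W e) / 2 ≤ (Av b t e).card := by
        revert he
        refine Sym2.ind (fun B C => ?_) e
        intro he
        have hadj : Q.Adj B C := by rwa [SimpleGraph.mem_edgeFinset] at he
        rw [card_Av ht hadj.ne]
        have := hroom _ he
        omega
      obtain ⟨S, h2, h3⟩ := exists_subset_card_eq h1
      refine ⟨S, h2, fun _ => ?_⟩
      rw [h3]
      exact Nat.two_mul_div_two_of_even (hpar e he)
    · exact ⟨∅, empty_subset _, fun h => absurd h he⟩
  choose S hSA hSc using hS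
  set T : Un N b → Prop := fun x => (x.1, x.2.2.1) ∈ S s(x.2.1, x.2.2.2) ∧ Q.Adj x.2.2.2 x.2.1
    with hT
  set sw : Un N b → Un N b := fun x => (x.1, x.2.2.2, x.2.2.1, x.2.1) with hsw
  have hTsw : ∀ x, T x → T (sw x) := by
    intro x hx
    refine ⟨?_, hx.2.symm⟩
    have h1 := hx.1
    rw [Sym2.eq_swap] at h1
    exact h1
  have hswsw : ∀ x, sw (sw x) = x := fun x => rfl
  have hTU : ∀ x, T x → x ∈ UU Q b tt := by
    intro x hx
    rw [mem_UU]
    have h1 := hSA _ hx.1
    rw [Av, mem_filter] at h1
    have h2 := h1.2.1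
    have h3 := h1.2.2
    have h4 : x.1 ≠ x.2.1 := by
      intro h
      apply h2
      rw [Sym2.mem_iff]
      exact Or.inl h
    exact ⟨h4, lt_of_lt_of_le h3 (htt _ _ h4), hx.2⟩
  set W' : Tab Q b := fun x => if h : T x then (W (sw x)).concat h.2 else W x with hW'
  have hav : ∀ x, T x → x.2.1 ∉ (W (sw x)).support := by
    intro x hx
    have h1 := hG.avoid (sw x) (hTU _ (hTsw x hx))
    apply h1
    exact (mem_UU.1 (hTU x hx)).1.symm
  refine ⟨W', ?_, ?_⟩
  · intro x hx
    by_cases h : T x
    · have : W' x = (W (sw x)).concat h.2 := dif_pos h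
      rw [this]
      exact (hG.path _ (hTU _ (hTsw x h))).concat (hav x h) _
    · have : W' x = W x := dif_neg h
      rw [this]
      exact hG.path _ hx
  · intro f hf
    set E : Un N b → List (Sym2 N) := fun y => (W y).edges with hE
    set g : Un N b → Un N b := fun x => if T x then sw x else x with hg
    have hg1 : ∀ x, T x → g x = sw x := fun x h => if_pos h
    have hg2 : ∀ x, ¬ T x → g x = x := fun x h => if_neg h
    have hgU : ∀ x ∈ UU Q b tt, g x ∈ UU Q b tt := by
      intro x hx
      by_cases h : T x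
      · rw [hg1 x h]
        exact hTU _ (hTsw x h)
      · rw [hg2 x h]
        exact hx
    have hgg : ∀ x, g (g x) = x := by
      intro x
      by_cases h : T x
      · rw [hg1 x h, hg1 _ (hTsw x h), hswsw]
      · rw [hg2 x h, hg2 x h]
    have h1 : ∀ x ∈ UU Q b tt, (if f ∈ (W' x).edges then 1 else 0) =
        (if f ∈ E (g x) then 1 else 0) + if T x ∧ s(x.2.1, x.2.2.2) = f then 1 else 0 := by
      intro x hx
      by_cases h : T x
      · have h2 : W' x = (W (sw x)).concat h.2 := dif_pos h
        rw [h2, SimpleGraph.Walk.edges_concat, List.concat_eq_append, hg1 x h]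
        simp only [List.mem_append, List.mem_singleton]
        by_cases h3 : s(x.2.1, x.2.2.2) = f
        · have h4 : f ∉ E (sw x) := by
            intro h5
            rw [← h3] at h5
            exact hav x h (SimpleGraph.Walk.fst_mem_support_of_mem_edges _ h5)
          rw [if_pos (Or.inr (by rw [← h3, Sym2.eq_swap])), if_neg h4, if_pos ⟨h, h3⟩]
        · rw [if_neg (fun h' : T x ∧ s(x.2.1, x.2.2.2) = f => h3 h'.2), add_zero]
          have h4 : ¬ f = s((sw x).2.1, x.2.1) := fun h' => h3 (by rw [h', Sym2.eq_swap])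
          refine if_congr ?_ rfl rfl
          exact ⟨fun h5 => h5.resolve_right h4, fun h5 => Or.inl h5⟩
      · have h2 : W' x = W x := dif_neg h
        rw [h2, hg2 x h, if_neg (fun h' : T x ∧ s(x.2.1, x.2.2.2) = f => h h'.1), add_zero]
    have h2 : cnt tt W' f = cnt tt W f +
        ((UU Q b tt).filter fun x => T x ∧ s(x.2.1, x.2.2.2) = f).card := by
      unfold cnt
      rw [sum_congr rfl h1, sum_add_distrib]
      congr 1
      · exact sum_nbij' g g hgU hgU (fun x _ => hgg x) (fun x _ => hgg x) (fun x _ => rfl)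
      · rw [card_filter]
    have h3 : ((UU Q b tt).filter fun x => T x ∧ s(x.2.1, x.2.2.2) = f).card = 2 * (S f).card := by
      revert hf
      refine Sym2.ind (fun B C => ?_) f
      intro hf
      have hadj : Q.Adj B C := by rwa [SimpleGraph.mem_edgeFinset] at hf
      have h4 : ((UU Q b tt).filter fun x => T x ∧ s(x.2.1, x.2.2.2) = s(B, C)) =
          (S s(B, C)).image (fun y => ((y.1, B, y.2, C) : Un N b)) ∪
            (S s(B, C)).image (fun y => ((y.1, C, y.2, B) : Un N b)) := by
        ext x
        simp only [mem_filter, mem_union, mem_image]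
        constructor
        · rintro ⟨_, ⟨h5, _⟩, h6⟩
          rw [h6] at h5
          rw [Sym2.eq_iff] at h6
          rcases h6 with ⟨h6, h7⟩ | ⟨h6, h7⟩
          · left
            refine ⟨_, h5, ?_⟩
            rw [← h6, ← h7]
          · right
            refine ⟨_, h5, ?_⟩
            rw [← h6, ← h7]
        · rintro (⟨y, hy, rfl⟩ | ⟨y, hy, rfl⟩)
          · have : T (y.1, B, y.2, C) := ⟨hy, hadj.symm⟩
            exact ⟨hTU _ this, this, rfl⟩
          · have : T (y.1, C, y.2, B) := ⟨by rw [Sym2.eq_swap]; exact hy, hadj⟩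
            exact ⟨hTU _ this, this, Sym2.eq_swap⟩
      rw [h4, card_union_of_disjoint, card_image_of_injective, card_image_of_injective]
      · ring
      · intro y z h
        simp only [Prod.mk.injEq] at h
        exact Prod.ext h.1 h.2.2.1
      · intro y z h
        simp only [Prod.mk.injEq] at h
        exact Prod.ext h.1 h.2.2.1
      · rw [disjoint_left]
        intro x h5 h6
        obtain ⟨y, _, rfl⟩ := mem_image.1 h5
        obtain ⟨z, _, h7⟩ := mem_image.1 h6
        have := congrArg (fun w => w.2.1) h7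
        exact hadj.ne this.symm
    rw [h2, h3, hSc f hf]
    have := hK f hf
    omega

end Pool.Agent.UPS.EU
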