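import Mathlib
import Pool.Agent.Lib.MP_876e19_co_ups.EUToggle

/-!
# Tables with equal counts (TT876, cubic case)
-/

set_option autoImplicit false
set_option linter.unusedSectionVars false

namespace Pool.Agent.UPS.EU

open Finset

variable {N : Type*} [Fintype N] [DecidableEq N] {Q : SimpleGraph N} [DecidableRel Q.Adj]

lemma room_arith {n r μ E : ℕ} (hr : 2 ≤ r) (hn : r + 2 ≤ n) (h3 : 3 ≤ μ * r)
    (hE : n * r = 2 * E) (hx : ¬ (r = 3 ∧ n = 6 ∧ μ = 1)) : E ≤ 2 * ((μ * r / 2) * (n - 2)) := by
  obtain ⟨m, rfl⟩ : ∃ m, n = m + 2 := ⟨n - 2, by omega⟩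
  rw [Nat.add_sub_cancel]
  have hm : r ≤ m := by omega
  set t := μ * r / 2 with ht
  have ht2 : μ * r ≤ 2 * t + 1 := by omega
  have hμ : 1 ≤ μ := by
    rcases Nat.eq_zero_or_pos μ with h | h
    · rw [h, zero_mul] at h3
      omega
    · exact h
  rcases Nat.lt_or_ge r 4 with h4 | h4
  · have h5 : r = 2 ∨ r = 3 := by omega
    rcases h5 with rfl | rfl
    · have h6 : 2 ≤ t := by omega
      have : 2 * m ≤ t * m := Nat.mul_le_mul_right m h6
      omega
    · rcases Nat.lt_or_ge μ 2 with h7 | h7
      · have h8 : μ = 1 := by omega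
        subst h8
        have h9 : t = 1 := by omega
        rw [h9, one_mul]
        omega
      · have h6 : 2 ≤ t := by omega
        have : 2 * m ≤ t * m := Nat.mul_le_mul_right m h6
        omega
  · have h6 : r ≤ 2 * t + 1 := le_trans (Nat.le_mul_of_pos_left r hμ) ht2
    have h7 : (r - 1) * m ≤ 2 * t * m := Nat.mul_le_mul_right m (by omega)
    obtain ⟨s, rfl⟩ : ∃ s, r = s + 4 := ⟨r - 4, by omega⟩
    obtain ⟨k, rfl⟩ : ∃ k, m = s + 4 + k := ⟨m - (s + 4), by omega⟩
    have h8 : s + 4 - 1 = s + 3 := by omega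
    rw [h8] at h7
    nlinarith [Nat.zero_le (s * s), Nat.zero_le (s * k), Nat.zero_le k]

/-- **Tables with equal counts**, generic case -/
theorem exists_uniform_table {r μ : ℕ} (hc : Q.Connected) (hvt : VT Q) (het : ET Q)
    (hr : ∀ v, (univ.filter fun w => Q.Adj v w).card = r) (h2 : 2 ≤ r)
    (hn : r + 2 ≤ Fintype.card N) (h3 : 3 ≤ μ * r) (hx : ¬ (r = 3 ∧ Fintype.card N = 6 ∧ μ = 1))
    (tt : N → N → ℕ) (hsum : ∀ A B, A ≠ B → tt A B + tt B A = μ * r)
    (htt : ∀ A B, A ≠ B → μ * r / 2 ≤ tt A B) :
    ∃ W : Tab Q (μ * r), (∀ x ∈ UU Q (μ * r) tt, (W x).IsPath) ∧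
      ∃ K, ∀ e ∈ Q.edgeFinset, cnt tt W e = K := by
  classical
  have hdeg : ∀ v, Q.degree v = r := by
    intro v
    rw [← hr v, ← SimpleGraph.card_neighborFinset_eq_degree]
    congr 1
    ext w
    simp
  have hE : Fintype.card N * r = 2 * Q.edgeFinset.card := by
    rw [← Q.sum_degrees_eq_twice_card_edges, sum_congr rfl (fun v _ => hdeg v), sum_const,
      card_univ, smul_eq_mul]
  have hpos : 0 < Q.edgeFinset.card := by
    have : 0 < Fintype.card N * r := Nat.mul_pos (by omega) (by omega)
    omega
  have hne : Q.edgeFinset.Nonempty := card_pos.1 hpos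
  have hne' : Nonempty Q.edgeSet := by
    obtain ⟨e, he⟩ := hne
    exact ⟨⟨e, SimpleGraph.mem_edgeFinset.1 he⟩⟩
  obtain ⟨M, hM, a, ha⟩ := exists_families (b := μ * r) tt hsum hc (lower_edge_trans hc hvt het hr)
    hr het hne'
  obtain ⟨W₀, hG₀, hdir, hcnt₀⟩ := exists_table tt h2 hr M hM
  have hw0 : ∀ e ∈ Q.edgeFinset, ∀ f ∈ Q.edgeFinset,
      cnt tt W₀ e + 1 ≤ cnt tt W₀ f + Q.edgeFinset.card := by
    intro e he f hf
    have h4 := ha e (SimpleGraph.mem_edgeFinset.1 he)
    have h5 := ha f (SimpleGraph.mem_edgeFinset.1 hf)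
    rw [← hcnt₀] at h4 h5
    have h6 : Fintype.card Q.edgeSet = Q.edgeFinset.card := (Set.toFinset_card _).symm
    rw [h6] at h4 h5
    have h7 := (abs_le.1 h4).2
    have h8 := (abs_le.1 h5).1
    have : (cnt tt W₀ e : ℝ) + 1 ≤ cnt tt W₀ f + Q.edgeFinset.card := by linarith
    exact_mod_cast this
  have h0 : ∀ A B, A ≠ B → 0 < tt A B := by
    intro A B h
    have := htt A B h
    omega
  obtain ⟨W, hG, hpar, hcl⟩ := exists_even_table hr hsum h0 (by omega) hG₀ hdir
  obtain ⟨e₁, he₁, hmax⟩ := exists_max_image Q.edgeFinset (cnt tt W) hne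
  have hp1 : ∀ e ∈ Q.edgeFinset, Even (cnt tt W e₁ - cnt tt W e) := by
    intro e he
    have h6 := hpar e he
    have h7 := hpar e₁ he₁
    have h8 := hmax e he
    rw [Nat.even_iff] at h6 h7 ⊢
    omega
  have hp2 : ∀ e ∈ Q.edgeFinset,
      cnt tt W e₁ - cnt tt W e ≤ 2 * ((μ * r / 2) * (Fintype.card N - 2)) + 1 := by
    intro e he
    have h6 := room_arith h2 hn h3 hE hx
    have h7 := hw0 e₁ he₁ e he
    have h8 := hcl e
    have h9 := hcl e₁
    omega
  obtain ⟨W', h4, h5⟩ := exists_const_table (K := cnt tt W e₁) (t := μ * r / 2)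
    (Nat.div_le_self _ _) htt hG hmax hp1 hp2
  exact ⟨W', h4, _, h5⟩

/-- routes for twin graphs -/
theorem exists_twin_table {r b : ℕ}
    (hr : ∀ v, (univ.filter fun w => Q.Adj v w).card = r)
    (htw : ∀ A B, A ≠ B → ¬ Q.Adj A B → ∀ C, Q.Adj A C → Q.Adj B C)
    (hc : Q.Connected)
    (tt : N → N → ℕ) (hsum : ∀ A B, A ≠ B → tt A B + tt B A = b) :
    ∃ W : Tab Q b, (∀ x ∈ UU Q b tt, (W x).IsPath) ∧
      ∃ K, ∀ e ∈ Q.edgeFinset, cnt tt W e = K := by
  classical
  have hle : ∀ A B, A ≠ B → tt A B ≤ b := fun A B h => by have := hsum A B h; omega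
  have hex : ∀ x : Un N b, ∃ p : Q.Walk x.1 x.2.1, x ∈ UU Q b tt → p.IsPath ∧
      p.edges = if Q.Adj x.1 x.2.1 then [s(x.1, x.2.1)] else
        [s(x.1, x.2.2.2), s(x.2.2.2, x.2.1)] := by
    rintro ⟨A, B, j, C⟩
    by_cases hx : (A, B, j, C) ∈ UU Q b tt
    · have h1 := mem_UU.1 hx
      by_cases hAB : Q.Adj A B
      · refine ⟨SimpleGraph.Walk.cons hAB SimpleGraph.Walk.nil, fun _ => ⟨?_, ?_⟩⟩
        · simp [hAB.ne]
        · simp [hAB]
      · have hAC : Q.Adj A C := (htw B A h1.1.symm (fun h => hAB h.symm) C h1.2.2.symm)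
        refine ⟨SimpleGraph.Walk.cons hAC (SimpleGraph.Walk.cons h1.2.2 SimpleGraph.Walk.nil),
          fun _ => ⟨?_, ?_⟩⟩
        · have h2 : A ≠ B := h1.1
          have h3 : C ≠ B := h1.2.2.ne
          simp [h2, h3, hAC.ne]
        · simp [hAB]
    · obtain ⟨p⟩ := hc.preconnected A B
      exact ⟨p, fun h => absurd h hx⟩
  choose W hW using hex
  refine ⟨W, fun x hx => (hW x hx).1, r * b + 2 * ((Fintype.card N - 1 - r) * b), ?_⟩
  intro e he
  revert he
  refine Sym2.ind (fun X Y => ?_) e
  intro he
  have hXY : Q.Adj X Y := by rwa [SimpleGraph.mem_edgeFinset] at he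
  unfold cnt
  rw [sum_UU]
  have h1 : ∀ A B : N, (∑ y : Fin b × N,
      if A ≠ B ∧ (y.1 : ℕ) < tt A B ∧ Q.Adj y.2 B then
        (if s(X, Y) ∈ (W ((A, B, y) : Un N b)).edges then 1 else 0) else 0) =
      (if s(A, B) = s(X, Y) then tt A B * r else 0) +
      ((if (A ≠ B ∧ ¬ Q.Adj A B) ∧ A ∈ s(X, Y) then tt A B else 0) +
        (if (A ≠ B ∧ ¬ Q.Adj A B) ∧ B ∈ s(X, Y) then tt A B else 0)) := by
    intro A B
    by_cases hAB : A = B
    · subst hAB
      have : ¬ s(A, A) = s(X, Y) := by
        intro h
        rw [Sym2.eq_iff] at h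
        rcases h with ⟨h1, h2⟩ | ⟨h1, h2⟩
        · exact hXY.ne (h1.symm.trans h2)
        · exact hXY.ne (h2.symm.trans h1)
      simp [this]
    · by_cases ha : Q.Adj A B
      · have h2 : (∑ y : Fin b × N, if A ≠ B ∧ (y.1 : ℕ) < tt A B ∧ Q.Adj y.2 B then
          (if s(X, Y) ∈ (W ((A, B, y) : Un N b)).edges then 1 else 0) else 0) =
            ∑ y : Fin b × N, if (y.1 : ℕ) < tt A B ∧ Q.Adj y.2 B then
              (if s(A, B) = s(X, Y) then 1 else 0) else 0 := by
          refine sum_congr rfl fun y _ => ?_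
          by_cases h3 : (y.1 : ℕ) < tt A B ∧ Q.Adj y.2 B
          · rw [if_pos ⟨hAB, h3⟩, if_pos h3,
              (hW (A, B, y) (mem_UU.2 ⟨hAB, h3⟩)).2, if_pos ha]
            refine if_congr ?_ rfl rfl
            simp [eq_comm]
          · rw [if_neg h3, if_neg (fun h => h3 h.2)]
        rw [h2, if_neg (fun h : (A ≠ B ∧ ¬ Q.Adj A B) ∧ A ∈ s(X, Y) => h.1.2 ha),
          if_neg (fun h : (A ≠ B ∧ ¬ Q.Adj A B) ∧ B ∈ s(X, Y) => h.1.2 ha)]
        by_cases h4 : s(A, B) = s(X, Y)
        · simp only [h4, if_true, add_zero]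
          rw [← card_fiber hr (hle A B hAB), card_filter]
        · simp only [h4, if_false, add_zero]
          simp
      · have h4 : ¬ s(A, B) = s(X, Y) := by
          intro h
          have : Q.Adj A B := by
            rw [← SimpleGraph.mem_edgeSet, h]
            exact hXY
          exact ha this
        rw [if_neg h4, zero_add]
        have h2 : (∑ y : Fin b × N, if A ≠ B ∧ (y.1 : ℕ) < tt A B ∧ Q.Adj y.2 B then
          (if s(X, Y) ∈ (W ((A, B, y) : Un N b)).edges then 1 else 0) else 0) =
            ∑ y : Fin b × N, ((if (y.1 : ℕ) < tt A B then (if s(X, Y) = s(A, y.2) then 1 else 0)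
              else 0) + (if (y.1 : ℕ) < tt A B then (if s(X, Y) = s(y.2, B) then 1 else 0)
              else 0)) := by
          refine sum_congr rfl fun y _ => ?_
          by_cases h5 : (y.1 : ℕ) < tt A B
          · rw [if_pos h5, if_pos h5]
            by_cases h3 : Q.Adj y.2 B
            · rw [if_pos ⟨hAB, h5, h3⟩,
                (hW (A, B, y) (mem_UU.2 ⟨hAB, h5, h3⟩)).2, if_neg ha]
              simp only [List.mem_cons, List.not_mem_nil, or_false]
              by_cases h6 : s(X, Y) = s(A, y.2)
              · rw [if_pos (Or.inl h6), if_pos h6, if_neg]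
                intro h7
                rw [h6, Sym2.eq_iff] at h7
                rcases h7 with ⟨h8, h9⟩ | ⟨h8, _⟩
                · exact h3.ne h9
                · exact hAB h8
              · rw [if_neg h6, zero_add]
                refine if_congr ?_ rfl rfl
                exact ⟨fun h => h.resolve_left h6, fun h => Or.inr h⟩
            · rw [if_neg (fun h => h3 h.2.2), if_neg, if_neg]
              · intro h7
                have : Q.Adj y.2 B := by
                  rw [← SimpleGraph.mem_edgeSet, ← h7]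
                  exact hXY
                exact h3 this
              · intro h7
                have h8 : Q.Adj A y.2 := by
                  rw [← SimpleGraph.mem_edgeSet, ← h7]
                  exact hXY
                exact h3 (htw A B hAB ha _ h8).symm
          · rw [if_neg h5, if_neg h5, if_neg (fun h => h5 h.2.1)]
        rw [h2, sum_add_distrib]
        have hcount : ∀ g : N → Prop, [DecidablePred g] → (univ.filter g).card ≤ 1 →
            (∑ y : Fin b × N, if (y.1 : ℕ) < tt A B then (if g y.2 then 1 else 0) else 0) =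
              if ∃ C, g C then tt A B else 0 := by
          intro g _ hg
          rw [Fintype.sum_prod_type]
          have h6 : ∀ j : Fin b, (∑ C : N, if (j : ℕ) < tt A B then (if g C then 1 else 0) else 0) =
              if (j : ℕ) < tt A B then (univ.filter g).card else 0 := by
            intro j
            by_cases h7 : (j : ℕ) < tt A B
            · simp only [if_pos h7]
              rw [card_filter]
            · simp only [if_neg h7]
              simp
          simp_rw [h6]
          rw [← sum_filter, sum_const, Fin.card_filter_val_lt, min_eq_right (hle A B hAB),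
            smul_eq_mul]
          by_cases h8 : ∃ C, g C
          · rw [if_pos h8]
            obtain ⟨C, hC⟩ := h8
            have : 0 < (univ.filter g).card := card_pos.2 ⟨C, by simpa using hC⟩
            have h9 : (univ.filter g).card = 1 := by omega
            rw [h9, mul_one]
          · rw [if_neg h8]
            have h9 : (univ.filter g) = ∅ := by
              ext C
              simp only [mem_filter, mem_univ, true_and, notMem_empty, iff_false]
              exact fun h => h8 ⟨C, h⟩
            rw [h9]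
            simp
        congr 1
        · rw [hcount (fun C => s(X, Y) = s(A, C))]
          · refine if_congr ?_ rfl rfl
            constructor
            · rintro ⟨C, hC⟩
              exact ⟨⟨hAB, ha⟩, by rw [hC]; simp⟩
            · rintro ⟨_, h6⟩
              obtain ⟨C, hC⟩ := h6
              exact ⟨C, hC⟩
          · rw [card_le_one]
            intro C hC C' hC'
            simp only [mem_filter, mem_univ, true_and] at hC hC'
            rw [hC] at hC'
            exact Sym2.congr_right.1 hC'
        · rw [hcount (fun C => s(X, Y) = s(C, B))]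
          · refine if_congr ?_ rfl rfl
            constructor
            · rintro ⟨C, hC⟩
              exact ⟨⟨hAB, ha⟩, by rw [hC]; simp⟩
            · rintro ⟨_, h6⟩
              obtain ⟨C, hC⟩ := h6
              exact ⟨C, by rw [hC, Sym2.eq_swap]⟩
          · rw [card_le_one]
            intro C hC C' hC'
            simp only [mem_filter, mem_univ, true_and] at hC hC'
            rw [hC] at hC'
            exact Sym2.congr_left.1 hC'
  simp_rw [h1, sum_add_distrib]
  congr 1
  · -- direct routes
    have h2 : ∀ A B : N, (if s(A, B) = s(X, Y) then tt A B * r else 0) =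
        (if A = X then (if B = Y then tt X Y * r else 0) else 0) +
          (if A = Y then (if B = X then tt Y X * r else 0) else 0) := by
      intro A B
      have hne := hXY.ne
      by_cases h3 : A = X ∧ B = Y
      · obtain ⟨rfl, rfl⟩ := h3
        simp [hne]
      · by_cases h4 : A = Y ∧ B = X
        · obtain ⟨rfl, rfl⟩ := h4
          simp [hne.symm, hne]
        · have : ¬ s(A, B) = s(X, Y) := by
            rw [Sym2.eq_iff]
            exact not_or.2 ⟨h3, h4⟩
          rw [if_neg this]
          rw [not_and] at h3 h4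
          symm
          rw [Nat.add_eq_zero_iff]
          constructor
          · split_ifs with h5 h6
            · exact absurd h6 (h3 h5)
            · rfl
            · rfl
          · split_ifs with h5 h6
            · exact absurd h6 (h4 h5)
            · rfl
            · rfl
    simp_rw [h2, sum_add_distrib]
    have h5 : ∀ (f : ℕ) (Z Z' : N), (∑ A : N, ∑ B : N, if A = Z then (if B = Z' then f else 0)
        else 0) = f := by
      intro f Z Z'
      rw [sum_eq_single Z]
      · simp
      · intro A _ hA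
        simp [hA]
      · intro h
        exact absurd (mem_univ _) h
    rw [h5, h5, ← add_mul, hsum X Y hXY.ne, mul_comm]
  · have h2 : (∑ A : N, ∑ B : N, if (A ≠ B ∧ ¬ Q.Adj A B) ∧ B ∈ s(X, Y) then tt A B else 0) =
        ∑ A : N, ∑ B : N, if (A ≠ B ∧ ¬ Q.Adj A B) ∧ A ∈ s(X, Y) then tt B A else 0 := by
      rw [sum_comm]
      refine sum_congr rfl fun A _ => sum_congr rfl fun B _ => ?_
      refine if_congr ?_ rfl rfl
      rw [ne_comm, Q.adj_comm]
    rw [h2, ← sum_add_distrib]
    have h3 : ∀ A : N, ((∑ B : N, if (A ≠ B ∧ ¬ Q.Adj A B) ∧ A ∈ s(X, Y) then tt A B else 0) +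
        ∑ B : N, if (A ≠ B ∧ ¬ Q.Adj A B) ∧ A ∈ s(X, Y) then tt B A else 0) =
        if A ∈ s(X, Y) then (Fintype.card N - 1 - r) * b else 0 := by
      intro A
      rw [← sum_add_distrib]
      by_cases hA : A ∈ s(X, Y)
      · rw [if_pos hA]
        have h4 : ∀ B : N, ((if (A ≠ B ∧ ¬ Q.Adj A B) ∧ A ∈ s(X, Y) then tt A B else 0) +
            if (A ≠ B ∧ ¬ Q.Adj A B) ∧ A ∈ s(X, Y) then tt B A else 0) =
            if A ≠ B ∧ ¬ Q.Adj A B then b else 0 := by
          intro B
          by_cases h5 : A ≠ B ∧ ¬ Q.Adj A B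
          · rw [if_pos ⟨h5, hA⟩, if_pos ⟨h5, hA⟩, if_pos h5, hsum A B h5.1]
          · rw [if_neg (fun h => h5 h.1), if_neg (fun h => h5 h.1), if_neg h5]
        simp_rw [h4]
        rw [← sum_filter, sum_const, smul_eq_mul]
        congr 1
        have h6 : (univ.filter fun B => A ≠ B ∧ ¬ Q.Adj A B) =
            (univ.erase A) \ (univ.filter fun w => Q.Adj A w) := by
          ext B
          simp only [mem_filter, mem_univ, true_and, mem_sdiff, mem_erase, and_true]
          rw [ne_comm]
        rw [h6, card_sdiff_of_subset, card_erase_of_mem (mem_univ A), card_univ, hr A]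
        intro w hw
        have := (mem_filter.1 hw).2
        exact mem_erase.2 ⟨this.ne', mem_univ _⟩
      · rw [if_neg hA]
        refine sum_eq_zero fun B _ => ?_
        rw [if_neg (fun h => hA h.2), if_neg (fun h => hA h.2), add_zero]
    simp_rw [h3]
    rw [← sum_filter, sum_const, smul_eq_mul]
    congr 1
    have : (univ.filter fun A => A ∈ s(X, Y)) = {X, Y} := by
      ext A
      simp
    rw [this, card_pair hXY.ne]

end Pool.Agent.UPS.EU
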