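import Mathlib
import Pool.Agent.Lib.MP_876e19_co_ups.EUMain

/-!
# Uniform families of paths in edge-transitive graphs (TT876, cubic case)

`edge_uniform`: in a connected vertex- and edge-transitive graph of valency `r` with `3 ≤ μ r`
there are `μ r²` paths between any two nodes, in a reversible choice, such that all edges are used
equally often.
-/

set_option autoImplicit false
set_option linter.unusedSectionVars false

namespace Pool.Agent.UPS.EU

open Finset

variable {N : Type*} [Fintype N] [DecidableEq N] {Q : SimpleGraph N} [DecidableRel Q.Adj]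

/-- an edge-transitive cubic connected graph on six nodes is complete bipartite -/
lemma twin_of_cubic_six (hc : Q.Connected) (het : ET Q)
    (hr : ∀ v, (univ.filter fun w => Q.Adj v w).card = 3) (h6 : Fintype.card N = 6) :
    ∀ A B, A ≠ B → ¬ Q.Adj A B → ∀ C, Q.Adj A C → Q.Adj B C := by
  classical
  set cn : N → N → ℕ := fun a b => (univ.filter fun w => Q.Adj a w ∧ Q.Adj b w).card with hcn
  have hsymm : ∀ a b, cn a b = cn b a := by
    intro a b
    simp only [hcn, and_comm]
  have hconst : ∀ a b c d, Q.Adj a b → Q.Adj c d → cn a b = cn c d := by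
    intro a b c d hab hcd
    obtain ⟨φ, h⟩ := het a b c d hab hcd
    have h1 : cn a b = cn (φ a) (φ b) := by
      refine card_bij (fun w _ => φ w) ?_ ?_ ?_
      · intro w hw
        have := (mem_filter.1 hw).2
        exact mem_filter.2 ⟨mem_univ _, φ.map_adj_iff.2 this.1, φ.map_adj_iff.2 this.2⟩
      · intro w _ w' _ h
        exact φ.injective h
      · intro w hw
        have := (mem_filter.1 hw).2
        refine ⟨φ.symm w, ?_, φ.apply_symm_apply w⟩
        refine mem_filter.2 ⟨mem_univ _, ?_, ?_⟩
        · rw [← φ.map_adj_iff, φ.apply_symm_apply]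
          exact this.1
        · rw [← φ.map_adj_iff, φ.apply_symm_apply]
          exact this.2
    rcases h with ⟨h2, h3⟩ | ⟨h2, h3⟩
    · rw [h1, h2, h3]
    · rw [h1, h2, h3, hsymm]
  -- no triangles
  have htri : ∀ a b c, Q.Adj a b → Q.Adj a c → Q.Adj b c → False := by
    intro a b c hab hac hbc
    obtain ⟨x, y, z, hxy, hxz, hyz, hN⟩ := card_eq_three.1 (hr a)
    have hmem : ∀ w, Q.Adj a w ↔ w = x ∨ w = y ∨ w = z := by
      intro w
      have : w ∈ (univ.filter fun w => Q.Adj a w) ↔ w ∈ ({x, y, z} : Finset N) := by rw [hN]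
      simpa using this
    have hax : Q.Adj a x := (hmem x).2 (Or.inl rfl)
    have hay : Q.Adj a y := (hmem y).2 (Or.inr (Or.inl rfl))
    have haz : Q.Adj a z := (hmem z).2 (Or.inr (Or.inr rfl))
    have hcard : ∀ v, cn a v = (if Q.Adj v x then 1 else 0) + ((if Q.Adj v y then 1 else 0) +
        if Q.Adj v z then 1 else 0) := by
      intro v
      have h1 : cn a v = (({x, y, z} : Finset N).filter fun w => Q.Adj v w).card := by
        simp only [hcn]
        congr 1
        ext w
        simp only [mem_filter, mem_univ, true_and, mem_insert, mem_singleton, hmem]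
      rw [h1, card_filter, sum_insert, sum_insert, sum_singleton]
      · simpa using hyz
      · simp only [mem_insert, mem_singleton, not_or]
        exact ⟨hxy, hxz⟩
    have hpos : 0 < cn a b := card_pos.2 ⟨c, mem_filter.2 ⟨mem_univ _, hac, hbc⟩⟩
    have e1 := hcard x
    have e2 := hcard y
    have e3 := hcard z
    have f1 := hconst a x a b hax hab
    have f2 := hconst a y a b hay hab
    have f3 := hconst a z a b haz hab
    have g1 : ¬ Q.Adj x x := Q.irrefl
    have g2 : ¬ Q.Adj y y := Q.irrefl
    have g3 : ¬ Q.Adj z z := Q.irrefl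
    rw [if_neg g1] at e1
    rw [if_neg g2] at e2
    rw [if_neg g3] at e3
    have k1 : (if Q.Adj y x then (1 : ℕ) else 0) = if Q.Adj x y then 1 else 0 :=
      if_congr (Q.adj_comm y x) rfl rfl
    have k2 : (if Q.Adj z x then (1 : ℕ) else 0) = if Q.Adj x z then 1 else 0 :=
      if_congr (Q.adj_comm z x) rfl rfl
    have k3 : (if Q.Adj z y then (1 : ℕ) else 0) = if Q.Adj y z then 1 else 0 :=
      if_congr (Q.adj_comm z y) rfl rfl
    rw [k1] at e2
    rw [k2, k3] at e3
    have hall : Q.Adj x y ∧ Q.Adj x z ∧ Q.Adj y z := by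
      by_cases p1 : Q.Adj x y <;> by_cases p2 : Q.Adj x z <;> by_cases p3 : Q.Adj y z <;>
        simp only [p1, p2, p3, if_true, if_false] at e1 e2 e3 ⊢ <;> simp <;> omega
    obtain ⟨p1, p2, p3⟩ := hall
    have hclosed : ∀ v ∈ ({a, x, y, z} : Finset N), ∀ w, Q.Adj v w → w ∈ ({a, x, y, z} : Finset N) := by
      have key : ∀ v s1 s2 s3 : N, s1 ≠ s2 → s1 ≠ s3 → s2 ≠ s3 → Q.Adj v s1 → Q.Adj v s2 →
          Q.Adj v s3 → ∀ w, Q.Adj v w → w = s1 ∨ w = s2 ∨ w = s3 := by
        intro v s1 s2 s3 q1 q2 q3 r1 r2 r3 w hw
        have h1 : ({s1, s2, s3} : Finset N) = univ.filter fun w => Q.Adj v w := by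
          apply eq_of_subset_of_card_le
          · intro u hu
            simp only [mem_insert, mem_singleton] at hu
            rcases hu with rfl | rfl | rfl <;> simp [*]
          · rw [hr v, card_eq_three.2 ⟨s1, s2, s3, q1, q2, q3, rfl⟩]
        have h2 : w ∈ ({s1, s2, s3} : Finset N) := by
          rw [h1]
          simpa using hw
        simpa using h2
      intro v hv w hw
      simp only [mem_insert, mem_singleton] at hv ⊢
      rcases hv with rfl | rfl | rfl | rfl
      · rcases key v x y z hxy hxz hyz hax hay haz w hw with h | h | h <;> simp [h]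
      · rcases key v a y z hay.ne haz.ne hyz hax.symm p1 p2 w hw with h | h | h <;> simp [h]
      · rcases key v a x z hax.ne haz.ne hxz hay.symm p1.symm p3 w hw with h | h | h <;> simp [h]
      · rcases key v a x y hax.ne hay.ne hxy haz.symm p2.symm p3.symm w hw with h | h | h <;>
          simp [h]
    have hreach : ∀ u v, Q.Walk u v → u ∈ ({a, x, y, z} : Finset N) →
        v ∈ ({a, x, y, z} : Finset N) := by
      intro u v p
      induction p with
      | nil => exact id
      | cons h _ ih => exact fun hu => ih (hclosed _ hu _ h)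
    have huniv : (univ : Finset N) ⊆ {a, x, y, z} := by
      intro v _
      obtain ⟨p⟩ := hc.preconnected a v
      exact hreach a v p (by simp)
    have := card_le_card huniv
    rw [card_univ, h6] at this
    have h4 : ({a, x, y, z} : Finset N).card ≤ 4 := card_le_four
    omega
  intro A B hAB hadj C hAC
  set nA := univ.filter fun w => Q.Adj A w with hnA
  set nC := univ.filter fun w => Q.Adj C w with hnC
  have hdisj : Disjoint nA nC := by
    rw [disjoint_left]
    intro w h1 h2
    exact htri A C w hAC (mem_filter.1 h1).2 (mem_filter.1 h2).2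
  have hun : nA ∪ nC = univ := by
    apply eq_univ_of_card
    rw [card_union_of_disjoint hdisj, hr, hr, h6]
  have hB : B ∈ nA ∪ nC := by rw [hun]; exact mem_univ _
  rcases mem_union.1 hB with h | h
  · exact absurd (mem_filter.1 h).2 hadj
  · exact (mem_filter.1 h).2.symm

/-- **Tables with equal counts** -/
theorem exists_table_all {r μ : ℕ} (hc : Q.Connected) (hvt : VT Q) (het : ET Q)
    (hr : ∀ v, (univ.filter fun w => Q.Adj v w).card = r) (h3 : 3 ≤ μ * r)
    (tt : N → N → ℕ) (hsum : ∀ A B, A ≠ B → tt A B + tt B A = μ * r)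
    (htt : ∀ A B, A ≠ B → μ * r / 2 ≤ tt A B) :
    ∃ W : Tab Q (μ * r), (∀ x ∈ UU Q (μ * r) tt, (W x).IsPath) ∧
      ∃ K, ∀ e ∈ Q.edgeFinset, cnt tt W e = K := by
  classical
  by_cases htw : ∀ A B, A ≠ B → ¬ Q.Adj A B → ∀ C, Q.Adj A C → Q.Adj B C
  · exact exists_twin_table hr htw hc tt hsum
  · have hx : ¬ (r = 3 ∧ Fintype.card N = 6 ∧ μ = 1) := by
      rintro ⟨rfl, h6, _⟩
      exact htw (twin_of_cubic_six hc het hr h6)
    push Not at htw
    obtain ⟨A, B, hAB, hadj, -⟩ := htw
    have hn : r + 2 ≤ Fintype.card N := by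
      have h1 : (insert A (insert B (univ.filter fun w => Q.Adj A w))).card = r + 2 := by
        rw [card_insert_of_notMem, card_insert_of_notMem, hr A]
        · simp [hadj]
        · simp [hAB]
      rw [← h1, ← card_univ]
      exact card_le_card (subset_univ _)
    have h2 : 2 ≤ r := by
      obtain ⟨p, hp⟩ := (hc.preconnected A B).exists_isPath
      cases p with
      | nil => exact absurd rfl hAB
      | cons h1 p1 =>
        rename_i C
        cases p1 with
        | nil => exact absurd h1 hadj
        | cons h4 p2 =>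
          rename_i D
          have h5 : A ≠ D := by
            rw [SimpleGraph.Walk.cons_isPath_iff] at hp
            intro h
            apply hp.2
            rw [h]
            simp
          have h6 : ({A, D} : Finset N) ⊆ univ.filter fun w => Q.Adj C w := by
            intro w hw
            simp only [mem_insert, mem_singleton] at hw
            rcases hw with rfl | rfl
            · simp [h1.symm]
            · simp [h4]
          have h7 := card_le_card h6
          rw [hr, card_pair h5] at h7
          exact h7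
    exact exists_uniform_table hc hvt het hr h2 hn h3 hx tt hsum htt

/-- **Uniform families of paths.**  In a connected vertex- and edge-transitive graph of valency `r`
with `3 ≤ μ r` there is a reversible choice of `μ r²` paths between any two nodes which uses all
edges equally often. -/
theorem edge_uniform {N : Type*} [Fintype N] [DecidableEq N] (Q : SimpleGraph N)
    [DecidableRel Q.Adj] (hc : Q.Connected) (hvt : VT Q)
    (het : ∀ A B C D, Q.Adj A B → Q.Adj C D →
      ∃ φ : Q ≃g Q, (φ A = C ∧ φ B = D) ∨ (φ A = D ∧ φ B = C))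
    (r μ : ℕ) (hr : ∀ A, Q.degree A = r) (h3 : 3 ≤ μ * r) :
    ∃ P : ∀ A B : N, Fin (μ * r * r) → Q.Walk A B,
      (∀ A B i, A ≠ B → (P A B i).IsPath) ∧
      (∀ A B i, A ≠ B → P B A i = (P A B i).reverse) ∧
      ∃ c : ℕ, ∀ A B, Q.Adj A B →
        (univ.filter fun t : N × N × Fin (μ * r * r) =>
          t.1 ≠ t.2.1 ∧ s(A, B) ∈ (P t.1 t.2.1 t.2.2).edges).card = c := by
  classical
  have hr' : ∀ v, (univ.filter fun w => Q.Adj v w).card = r := by
    intro v
    rw [← hr v, ← SimpleGraph.card_neighborFinset_eq_degree]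
    congr 1
    ext w
    simp
  set b := μ * r with hb
  set σ : N ≃ Fin (Fintype.card N) := Fintype.equivFin N with hσ
  set tt : N → N → ℕ := fun A B => if σ A < σ B then (b + 1) / 2 else b / 2 with htt
  have hsum : ∀ A B, A ≠ B → tt A B + tt B A = b := by
    intro A B h
    have h1 : σ A ≠ σ B := fun h' => h (σ.injective h')
    rcases lt_or_gt_of_ne h1 with h2 | h2
    · simp only [htt, if_pos h2, if_neg (not_lt.2 h2.le)]
      omega
    · simp only [htt, if_pos h2, if_neg (not_lt.2 h2.le)]
      omega
  have hge : ∀ A B, A ≠ B → b / 2 ≤ tt A B := by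
    intro A B _
    simp only [htt]
    split_ifs
    · omega
    · exact le_rfl
  have hle : ∀ A B, A ≠ B → tt A B ≤ b := fun A B h => by have := hsum A B h; omega
  obtain ⟨W, hW, K, hK⟩ := exists_table_all (μ := μ) hc hvt het hr' h3 tt hsum hge
  -- the units of a pair
  set SS : N → N → Finset (Fin b × N) := fun A B =>
    univ.filter fun y : Fin b × N => (y.1 : ℕ) < tt A B ∧ Q.Adj y.2 B with hSS
  set TT' : N → N → Finset (Bool × (Fin b × N)) := fun A B =>
    (SS A B).image (fun y => (true, y)) ∪ (SS B A).image (fun y => (false, y)) with hTT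
  have hinj : ∀ β : Bool, Function.Injective (fun y : Fin b × N => (β, y)) :=
    fun β y z h => (Prod.mk.inj h).2
  have hdis : ∀ A B, Disjoint ((SS A B).image (fun y => (true, y)))
      ((SS B A).image (fun y => (false, y))) := by
    intro A B
    rw [disjoint_left]
    intro y h1 h2
    obtain ⟨u, _, rfl⟩ := mem_image.1 h1
    obtain ⟨v, _, h4⟩ := mem_image.1 h2
    simp at h4
  have hcardT : ∀ A B, A ≠ B → (TT' A B).card = b * r := by
    intro A B h
    simp only [hTT]
    rw [card_union_of_disjoint (hdis A B), card_image_of_injective _ (hinj _),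
      card_image_of_injective _ (hinj _)]
    simp only [hSS]
    rw [card_fiber hr' (hle A B h), card_fiber hr' (hle B A h.symm), ← add_mul, hsum A B h]
  have hbpos : 0 < b := by omega
  have hen : ∀ A B : N, ∃ en : Fin (b * r) → Bool × (Fin b × N), A ≠ B →
      Function.Injective en ∧ univ.image en = TT' A B := by
    intro A B
    by_cases h : A ≠ B
    · have e : TT' A B ≃ Fin (b * r) := equivFinOfCardEq (hcardT A B h)
      refine ⟨fun i => (e.symm i).1, fun _ => ⟨?_, ?_⟩⟩
      · intro i j hij
        exact e.symm.injective (Subtype.ext hij)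
      · ext y
        simp only [mem_image, mem_univ, true_and]
        constructor
        · rintro ⟨i, rfl⟩
          exact (e.symm i).2
        · intro hy
          exact ⟨e ⟨y, hy⟩, by simp⟩
    · exact ⟨fun _ => (true, (⟨0, hbpos⟩, A)), fun h' => absurd h' h⟩
  choose en hen using hen
  set R : ∀ A B : N, Bool × (Fin b × N) → Q.Walk A B := fun A B z =>
    if z.1 then W (A, B, z.2) else (W (B, A, z.2)).reverse with hR
  set P₀ : ∀ A B : N, Fin (b * r) → Q.Walk A B := fun A B i => R A B (en A B i) with hP0
  have hRpath : ∀ A B, A ≠ B → ∀ z ∈ TT' A B, (R A B z).IsPath := by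
    intro A B h z hz
    simp only [hTT, mem_union, mem_image] at hz
    rcases hz with ⟨y, hy, rfl⟩ | ⟨y, hy, rfl⟩
    · simp only [hR, if_true]
      apply hW
      rw [mem_UU]
      exact ⟨h, (mem_filter.1 hy).2⟩
    · simp only [hR, Bool.false_eq_true, if_false]
      rw [SimpleGraph.Walk.isPath_reverse_iff]
      apply hW
      rw [mem_UU]
      exact ⟨h.symm, (mem_filter.1 hy).2⟩
  have hP0path : ∀ A B, A ≠ B → ∀ i, (P₀ A B i).IsPath := by
    intro A B h i
    apply hRpath A B h
    rw [← (hen A B h).2]
    exact mem_image_of_mem _ (mem_univ _)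
  -- counting
  set cc : N → N → Sym2 N → ℕ := fun A B e =>
    ∑ y ∈ SS A B, if e ∈ (W (A, B, y)).edges then 1 else 0 with hcc
  have hcount0 : ∀ A B, A ≠ B → ∀ e, (∑ i : Fin (b * r), if e ∈ (P₀ A B i).edges then 1 else 0) =
      cc A B e + cc B A e := by
    intro A B h e
    have h1 : (∑ i : Fin (b * r), if e ∈ (P₀ A B i).edges then 1 else 0) =
        ∑ z ∈ TT' A B, if e ∈ (R A B z).edges then 1 else 0 := by
      rw [← (hen A B h).2, sum_image]
      intro i _ j _ hij
      exact (hen A B h).1 hij
    rw [h1]
    simp only [hTT]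
    rw [sum_union (hdis A B), sum_image (fun _ _ _ _ h => hinj _ h),
      sum_image (fun _ _ _ _ h => hinj _ h)]
    congr 1
    · refine sum_congr rfl fun y _ => ?_
      simp only [hR, Bool.false_eq_true, if_false]
      rw [SimpleGraph.Walk.edges_reverse]
      simp only [List.mem_reverse]
  refine ⟨fun A B i => if σ A < σ B then P₀ A B i else (P₀ B A i).reverse, ?_, ?_,
    2 * K, ?_⟩
  · intro A B i h
    by_cases h1 : σ A < σ B
    · simp only [if_pos h1]
      exact hP0path A B h i
    · simp only [if_neg h1]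
      rw [SimpleGraph.Walk.isPath_reverse_iff]
      exact hP0path B A h.symm i
  · intro A B i h
    have h1 : σ A ≠ σ B := fun h' => h (σ.injective h')
    rcases lt_or_gt_of_ne h1 with h2 | h2
    · simp only [if_pos h2, if_neg (not_lt.2 h2.le)]
    · simp only [if_pos h2, if_neg (not_lt.2 h2.le)]
      rw [SimpleGraph.Walk.reverse_reverse]
  · intro X Y hXY
    have hK' := hK s(X, Y) (by rw [SimpleGraph.mem_edgeFinset]; exact hXY)
    rw [card_filter, Fintype.sum_prod_type]
    have h1 : ∀ A : N, (∑ t : N × Fin (b * r), if A ≠ t.1 ∧ s(X, Y) ∈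
        (if σ A < σ t.1 then P₀ A t.1 t.2 else (P₀ t.1 A t.2).reverse).edges then 1 else 0) =
        ∑ B : N, if A ≠ B then cc A B s(X, Y) + cc B A s(X, Y) else 0 := by
      intro A
      rw [Fintype.sum_prod_type]
      refine sum_congr rfl fun B _ => ?_
      by_cases h : A ≠ B
      · rw [if_pos h]
        have h1 : σ A ≠ σ B := fun h' => h (σ.injective h')
        rcases lt_or_gt_of_ne h1 with h2 | h2
        · rw [← hcount0 A B h]
          refine sum_congr rfl fun i _ => ?_
          simp only [if_pos h2]
          refine if_congr ?_ rfl rfl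
          exact ⟨fun h => h.2, fun h' => ⟨h, h'⟩⟩
        · rw [add_comm, ← hcount0 B A h.symm]
          refine sum_congr rfl fun i _ => ?_
          simp only [if_neg (not_lt.2 h2.le)]
          refine if_congr ?_ rfl rfl
          rw [SimpleGraph.Walk.edges_reverse, List.mem_reverse]
          exact ⟨fun h => h.2, fun h' => ⟨h, h'⟩⟩
      · rw [if_neg h]
        refine sum_eq_zero fun i _ => ?_
        rw [if_neg (fun h' => h h'.1)]
    rw [sum_congr rfl (fun A _ => h1 A)]
    have h2 : ∀ A B : N, (if A ≠ B then cc A B s(X, Y) + cc B A s(X, Y) else 0) =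
        (if A ≠ B then cc A B s(X, Y) else 0) + if A ≠ B then cc B A s(X, Y) else 0 := by
      intro A B
      split_ifs <;> rfl
    simp_rw [h2, sum_add_distrib]
    have h4 : (∑ A : N, ∑ B : N, if A ≠ B then cc B A s(X, Y) else 0) =
        ∑ A : N, ∑ B : N, if A ≠ B then cc A B s(X, Y) else 0 := by
      rw [sum_comm]
      refine sum_congr rfl fun A _ => sum_congr rfl fun B _ => ?_
      exact if_congr ne_comm rfl rfl
    have h5 : (∑ A : N, ∑ B : N, if A ≠ B then cc A B s(X, Y) else 0) = K := by
      rw [← hK', cnt, sum_UU]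
      refine sum_congr rfl fun A _ => sum_congr rfl fun B _ => ?_
      by_cases h : A ≠ B
      · rw [if_pos h]
        simp only [hcc, hSS]
        rw [sum_filter]
        refine sum_congr rfl fun y _ => ?_
        by_cases h' : (y.1 : ℕ) < tt A B ∧ Q.Adj y.2 B
        · rw [if_pos h', if_pos (⟨h, h'⟩ : A ≠ B ∧ (y.1 : ℕ) < tt A B ∧ Q.Adj y.2 B)]
        · rw [if_neg h',
            if_neg (fun h'' : A ≠ B ∧ (y.1 : ℕ) < tt A B ∧ Q.Adj y.2 B => h' h''.2)]
      · rw [if_neg h]
        symm
        refine sum_eq_zero fun y _ => ?_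
        rw [if_neg (fun h' => h h'.1)]
    rw [h4, h5]
    ring

/-- the same for arc-transitive graphs -/
theorem edge_uniform_arc {N : Type*} [Fintype N] [DecidableEq N] (Q : SimpleGraph N)
    [DecidableRel Q.Adj] (hc : Q.Connected) (hvt : VT Q)
    (hat : ∀ A B C D, Q.Adj A B → Q.Adj C D → ∃ φ : Q ≃g Q, φ A = C ∧ φ B = D)
    (r μ : ℕ) (hr : ∀ A, Q.degree A = r) (h3 : 3 ≤ μ * r) :
    ∃ P : ∀ A B : N, Fin (μ * r * r) → Q.Walk A B,
      (∀ A B i, A ≠ B → (P A B i).IsPath) ∧
      (∀ A B i, A ≠ B → P B A i = (P A B i).reverse) ∧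
      ∃ c : ℕ, ∀ A B, Q.Adj A B →
        (univ.filter fun t : N × N × Fin (μ * r * r) =>
          t.1 ≠ t.2.1 ∧ s(A, B) ∈ (P t.1 t.2.1 t.2.2).edges).card = c :=
  edge_uniform Q hc hvt
    (fun A B C D h1 h2 => (hat A B C D h1 h2).imp fun _ h => Or.inl h) r μ hr h3

end Pool.Agent.UPS.EU
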