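import Mathlib
import Pool.Agent.Lib.MP_876e19_co_ups.CycStruct
import Pool.Agent.Lib.MP_876e19_co_ups.EdgeUniform

/-!
# Cubic vertex-transitive graphs which are not arc-transitive have uniform shortest path systems
-/

set_option autoImplicit false
set_option linter.unusedSectionVars false

namespace Pool.Agent.UPS.Cyc

open Finset

theorem edgeUniform : EdgeUniform := by
  intro N _ _ Q _ hc hvt hat r μ hr h3
  obtain ⟨P, h1, h2, c, h4⟩ := EU.edge_uniform_arc Q hc hvt hat r μ hr h3
  refine ⟨P, h1, h2, c, fun A B hAB => ?_⟩
  exact Eq.trans (congrArg card (Finset.ext fun t => by simp only [mem_filter])) (h4 A B hAB)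

/-- **Cubic vertex-transitive graphs which are not arc-transitive**, unconditional. -/
theorem cubic_not_arcT {V : Type} [Fintype V] [DecidableEq V] {G : SimpleGraph V}
    [DecidableRel G.Adj] (hG : G.Connected) (hT : VT G)
    (hd : ∀ v, G.degree v = 3) (hna : ¬ ArcT G) : HasUPS G :=
  cubic_of_not_arcT hG hT hd hna edgeUniform

end Pool.Agent.UPS.Cyc
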