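import Mathlib

/-!
# Integrality of flows (helper16, TT876)

* `flow_round`: a real flow with integral net flows can be rounded to an integral one (floor or
  ceiling on every arc).
* `bip_round`: rounding of a real matrix such that all entries, row sums and column sums are
  rounded to the floor or ceiling.
* `tri_round`: the three index version (roots, two colour classes).
-/

set_option autoImplicit false

open Finset

namespace Pool.Agent.UPS3

/-- The integers inside the reals. -/
def ZZ : Subring ℝ := (Int.castRingHom ℝ).range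

lemma mem_ZZ {x : ℝ} : x ∈ ZZ ↔ Int.fract x = 0 := by
  rw [ZZ, RingHom.mem_range, Int.fract_eq_zero_iff]
  rfl

/-- A set of arcs which touches every vertex zero or at least two times carries a nonzero
circulation. -/
lemma exists_circulation {E N : Type*} [Fintype E] [DecidableEq E] [Fintype N] [DecidableEq N]
    (s t : E → N) (F : Finset E) (hF : F.Nonempty)
    (hdeg : ∀ v, (F.filter fun e => t e = v).card + (F.filter fun e => s e = v).card ≠ 1) :
    ∃ δ : E → ℝ, (∀ e, e ∉ F → δ e = 0) ∧ (∃ e, δ e ≠ 0) ∧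
      ∀ v, ∑ e with t e = v, δ e - ∑ e with s e = v, δ e = 0 := by
  classical
  set N' : Finset N := F.image t ∪ F.image s with hN'
  have hcard : N'.card ≤ F.card := by
    have h1 : ∑ v ∈ N', ((F.filter fun e => t e = v).card + (F.filter fun e => s e = v).card)
        = 2 * F.card := by
      rw [sum_add_distrib, two_mul]
      congr 1
      · rw [← card_eq_sum_card_fiberwise]
        intro e he
        simp only [hN', coe_union, Set.mem_union, mem_coe, mem_image]
        exact Or.inl ⟨e, he, rfl⟩
      · rw [← card_eq_sum_card_fiberwise]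
        intro e he
        simp only [hN', coe_union, Set.mem_union, mem_coe, mem_image]
        exact Or.inr ⟨e, he, rfl⟩
    have h2 : ∑ v ∈ N', 2 ≤
        ∑ v ∈ N', ((F.filter fun e => t e = v).card + (F.filter fun e => s e = v).card) := by
      refine sum_le_sum fun v hv => ?_
      have h3 := hdeg v
      have h4 : 1 ≤ (F.filter fun e => t e = v).card + (F.filter fun e => s e = v).card := by
        rcases mem_union.1 hv with h | h
        · obtain ⟨e, he, hev⟩ := mem_image.1 h
          have : 0 < (F.filter fun e => t e = v).card := card_pos.2 ⟨e, by simp [he, hev]⟩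
          omega
        · obtain ⟨e, he, hev⟩ := mem_image.1 h
          have : 0 < (F.filter fun e => s e = v).card := card_pos.2 ⟨e, by simp [he, hev]⟩
          omega
      omega
    rw [sum_const, smul_eq_mul] at h2
    omega
  obtain ⟨e₀, he₀⟩ := hF
  set v₀ := t e₀ with hv₀
  have hv₀N : v₀ ∈ N' := by
    simp only [hN', mem_union, mem_image]
    exact Or.inl ⟨e₀, he₀, rfl⟩
  -- extension by zero
  let ext : (F → ℝ) →ₗ[ℝ] (E → ℝ) :=
    { toFun := fun x e => if h : e ∈ F then x ⟨e, h⟩ else 0
      map_add' := by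
        intro x y; funext e
        by_cases h : e ∈ F <;> simp [h]
      map_smul' := by
        intro r x; funext e
        by_cases h : e ∈ F <;> simp [h] }
  let net : (E → ℝ) →ₗ[ℝ] (N → ℝ) :=
    { toFun := fun x v => ∑ e with t e = v, x e - ∑ e with s e = v, x e
      map_add' := by
        intro x y; funext v
        simp only [Pi.add_apply, sum_add_distrib]; ring
      map_smul' := by
        intro r x; funext v
        simp only [Pi.smul_apply, smul_eq_mul, ← mul_sum, RingHom.id_apply]; ring }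
  let res : (N → ℝ) →ₗ[ℝ] (↥(N'.erase v₀) → ℝ) :=
    LinearMap.funLeft ℝ ℝ (fun v => (v : N))
  have hfin : Module.finrank ℝ (↥(N'.erase v₀) → ℝ) < Module.finrank ℝ (F → ℝ) := by
    rw [Module.finrank_fintype_fun_eq_card, Module.finrank_fintype_fun_eq_card,
      Fintype.card_coe, Fintype.card_coe, card_erase_of_mem hv₀N]
    have : 0 < N'.card := card_pos.2 ⟨v₀, hv₀N⟩
    omega
  have hker := LinearMap.ker_ne_bot_of_finrank_lt (f := res ∘ₗ net ∘ₗ ext) hfin
  obtain ⟨x, hx, hx0⟩ := (Submodule.ne_bot_iff _).1 hker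
  have hnet : ∀ v ∈ N'.erase v₀, net (ext x) v = 0 := by
    intro v hv
    have := congrFun (LinearMap.mem_ker.1 hx) ⟨v, hv⟩
    simpa [res, LinearMap.funLeft] using this
  have hext0 : ∀ e, e ∉ F → ext x e = 0 := by
    intro e he
    simp [ext, he]
  have hout : ∀ v, v ∉ N' → net (ext x) v = 0 := by
    intro v hv
    have h1 : ∑ e with t e = v, ext x e = 0 := by
      refine sum_eq_zero fun e he => hext0 e fun heF => hv ?_
      rw [mem_filter] at he
      simp only [hN', mem_union, mem_image]
      exact Or.inl ⟨e, heF, he.2⟩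
    have h2 : ∑ e with s e = v, ext x e = 0 := by
      refine sum_eq_zero fun e he => hext0 e fun heF => hv ?_
      rw [mem_filter] at he
      simp only [hN', mem_union, mem_image]
      exact Or.inr ⟨e, heF, he.2⟩
    change ∑ e with t e = v, ext x e - ∑ e with s e = v, ext x e = 0
    rw [h1, h2, sub_zero]
  have htot : ∑ v, net (ext x) v = 0 := by
    change ∑ v, (∑ e with t e = v, ext x e - ∑ e with s e = v, ext x e) = 0
    rw [sum_sub_distrib, sum_fiberwise, sum_fiberwise, sub_self]
  have hv0 : net (ext x) v₀ = 0 := by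
    rw [← add_sum_erase univ _ (mem_univ v₀)] at htot
    have : ∑ v ∈ univ.erase v₀, net (ext x) v = 0 := by
      refine sum_eq_zero fun v hv => ?_
      by_cases hvN : v ∈ N'
      · exact hnet v (mem_erase.2 ⟨(mem_erase.1 hv).1, hvN⟩)
      · exact hout v hvN
    rwa [this, add_zero] at htot
  refine ⟨ext x, hext0, ?_, ?_⟩
  · by_contra hcon
    push Not at hcon
    apply hx0
    funext e
    have := hcon e
    simpa [ext] using this
  · intro v
    change net (ext x) v = 0
    by_cases hvv : v = v₀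
    · rw [hvv]; exact hv0
    by_cases hvN : v ∈ N'
    · exact hnet v (mem_erase.2 ⟨hvv, hvN⟩)
    · exact hout v hvN

/-- Moving a real vector in a direction supported on its fractional entries until one more
entry is integral. -/
lemma exists_step {E : Type*} [Fintype E] (f δ : E → ℝ)
    (hδ : ∀ e, Int.fract (f e) = 0 → δ e = 0) (hne : ∃ e, δ e ≠ 0) :
    ∃ r : ℝ, (∀ e, (⌊f e⌋ : ℝ) ≤ f e + r * δ e ∧ f e + r * δ e ≤ (⌈f e⌉ : ℝ)) ∧
      ∃ e, Int.fract (f e) ≠ 0 ∧ Int.fract (f e + r * δ e) = 0 := by
  classical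
  -- the room of each arc
  let room : E → ℝ := fun e =>
    if 0 < δ e then ((⌈f e⌉ : ℝ) - f e) / δ e else ((⌊f e⌋ : ℝ) - f e) / δ e
  obtain ⟨e₁, he₁⟩ := hne
  obtain ⟨i, hi, himin⟩ := (univ.filter fun e => δ e ≠ 0).exists_min_image room
    ⟨e₁, by simp [he₁]⟩
  have hi' : δ i ≠ 0 := by simpa using hi
  have hroom0 : ∀ e, δ e ≠ 0 → 0 ≤ room e := by
    intro e he
    simp only [room]
    split_ifs with h
    · exact div_nonneg (sub_nonneg.2 (Int.le_ceil _)) h.le
    · have h' : δ e < 0 := lt_of_le_of_ne (not_lt.1 h) he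
      exact div_nonneg_of_nonpos (sub_nonpos.2 (Int.floor_le _)) h'.le
  refine ⟨room i, ?_, i, fun h => hi' (hδ i h), ?_⟩
  · intro e
    by_cases he : δ e = 0
    · rw [he, mul_zero, add_zero]
      exact ⟨Int.floor_le _, Int.le_ceil _⟩
    · have hle : room i ≤ room e := himin e (by simp [he])
      have h0 : 0 ≤ room i := hroom0 i hi'
      by_cases hpos : 0 < δ e
      · have h1 : room e * δ e = (⌈f e⌉ : ℝ) - f e := by
          simp only [room, if_pos hpos]; field_simp
        have h2 : room i * δ e ≤ room e * δ e := mul_le_mul_of_nonneg_right hle hpos.le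
        have h3 : 0 ≤ room i * δ e := mul_nonneg h0 hpos.le
        constructor
        · have := Int.floor_le (f e); linarith
        · linarith
      · have hneg : δ e < 0 := lt_of_le_of_ne (not_lt.1 hpos) he
        have h1 : room e * δ e = (⌊f e⌋ : ℝ) - f e := by
          simp only [room, if_neg hpos]; field_simp
        have h2 : room e * δ e ≤ room i * δ e := mul_le_mul_of_nonpos_right hle hneg.le
        have h3 : room i * δ e ≤ 0 := mul_nonpos_of_nonneg_of_nonpos h0 hneg.le
        constructor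
        · linarith
        · have := Int.le_ceil (f e); linarith
  · by_cases hpos : 0 < δ i
    · have h1 : room i * δ i = (⌈f i⌉ : ℝ) - f i := by
        simp only [room, if_pos hpos]; field_simp
      rw [h1, add_sub_cancel]
      exact Int.fract_intCast _
    · have h1 : room i * δ i = (⌊f i⌋ : ℝ) - f i := by
        simp only [room, if_neg hpos]; field_simp
      rw [h1, add_sub_cancel]
      exact Int.fract_intCast _

/-- Rounding of a real flow with integral net flows. -/
theorem flow_round {E N : Type*} [Fintype E] [DecidableEq E] [Fintype N] [DecidableEq N]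
    (s t : E → N) (b : N → ℤ) (f : E → ℝ)
    (h : ∀ v, ∑ e with t e = v, f e - ∑ e with s e = v, f e = b v) :
    ∃ g : E → ℤ, (∀ e, ⌊f e⌋ ≤ g e ∧ g e ≤ ⌈f e⌉) ∧
      ∀ v, ∑ e with t e = v, g e - ∑ e with s e = v, g e = b v := by
  classical
  -- strong induction on the number of fractional arcs
  induction hn : (univ.filter fun e => Int.fract (f e) ≠ 0).card using Nat.strong_induction_on
    generalizing f with
  | _ m IH =>
  set F : Finset E := univ.filter fun e => Int.fract (f e) ≠ 0 with hF
  by_cases hemp : F = ∅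
  · -- everything is integral
    have hint : ∀ e, f e = (⌊f e⌋ : ℝ) := by
      intro e
      have he : e ∉ F := by rw [hemp]; exact notMem_empty e
      have : Int.fract (f e) = 0 := by
        by_contra hcon
        exact he (by simp [hF, hcon])
      have h2 := Int.self_sub_floor (f e)
      rw [this] at h2
      linarith
    refine ⟨fun e => ⌊f e⌋, fun e => ⟨le_rfl, Int.floor_le_ceil _⟩, fun v => ?_⟩
    have h1 := h v
    rw [sum_congr rfl fun e _ => hint e, sum_congr (s₁ := univ.filter fun e => s e = v) rfl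
      fun e _ => hint e] at h1
    exact_mod_cast h1
  · have hne : F.Nonempty := nonempty_iff_ne_empty.2 hemp
    obtain ⟨δ, hδF, hδne, hδnet⟩ := exists_circulation s t F hne (by
      intro v hv
      -- the net flow at `v` modulo the integers
      have hnotF : ∀ e, e ∉ F → f e ∈ ZZ := by
        intro e he
        rw [mem_ZZ]
        by_contra hcon
        exact he (by simp [hF, hcon])
      have hsplit : ∀ u : E → N, ∑ e with u e = v, f e - ∑ e ∈ F.filter (fun e => u e = v), f e
          ∈ ZZ := by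
        intro u
        have : ∑ e with u e = v, f e = ∑ e ∈ F.filter (fun e => u e = v), f e
            + ∑ e ∈ (Fᶜ).filter (fun e => u e = v), f e := by
          rw [← sum_union]
          · congr 1
            rw [← filter_union, union_compl]
          · exact disjoint_filter_filter disjoint_compl_right
        rw [this, add_sub_cancel_left]
        refine sum_mem fun e he => hnotF e ?_
        rw [mem_filter, mem_compl] at he
        exact he.1
      have hb : ∑ e with t e = v, f e - ∑ e with s e = v, f e ∈ ZZ := by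
        rw [h v]; exact ⟨b v, rfl⟩
      have hmain : ∑ e ∈ F.filter (fun e => t e = v), f e
          - ∑ e ∈ F.filter (fun e => s e = v), f e ∈ ZZ := by
        have := add_mem (sub_mem hb (hsplit t)) (hsplit s)
        convert this using 1
        ring
      rcases Nat.add_eq_one_iff.1 hv with ⟨h0, h1⟩ | ⟨h1, h0⟩
      · rw [card_eq_zero] at h0
        obtain ⟨e, he⟩ := card_eq_one.1 h1
        rw [h0, he, sum_empty, sum_singleton, zero_sub, neg_mem_iff, mem_ZZ] at hmain
        have heF : e ∈ F := (mem_filter.1 (he ▸ mem_singleton_self e)).1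
        rw [hF, mem_filter] at heF
        exact heF.2 hmain
      · rw [card_eq_zero] at h0
        obtain ⟨e, he⟩ := card_eq_one.1 h1
        rw [h0, he, sum_empty, sum_singleton, sub_zero, mem_ZZ] at hmain
        have heF : e ∈ F := (mem_filter.1 (he ▸ mem_singleton_self e)).1
        rw [hF, mem_filter] at heF
        exact heF.2 hmain)
    obtain ⟨r, hr, i, hi, hi'⟩ := exists_step f δ
      (fun e he => hδF e (by simp [hF, he])) hδne
    obtain ⟨g, hg, hgnet⟩ := IH (univ.filter fun e => Int.fract (f e + r * δ e) ≠ 0).card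
      (by
        rw [← hn]
        apply card_lt_card
        rw [ssubset_iff_of_subset]
        · exact ⟨i, by simp [hF, hi], by simp [hi']⟩
        · intro e he
          rw [mem_filter] at he
          by_contra hcon
          have h0 := hδF e hcon
          rw [h0, mul_zero, add_zero] at he
          exact hcon (by simp [hF, he.2]))
      (fun e => f e + r * δ e)
      (by
        intro v
        rw [sum_add_distrib, sum_add_distrib, ← mul_sum, ← mul_sum]
        have h1 := h v
        have h2 := hδnet v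
        linear_combination h1 + r * h2) rfl
    refine ⟨g, fun e => ⟨le_trans ?_ (hg e).1, le_trans (hg e).2 ?_⟩, hgnet⟩
    · exact Int.le_floor.2 (hr e).1
    · exact Int.ceil_le.2 (hr e).2

/-- Rounding of a real matrix: entries, row sums and column sums. -/
theorem bip_round {A B : Type*} [Fintype A] [Fintype B] (w : A → B → ℝ) :
    ∃ g : A → B → ℤ, (∀ a b, ⌊w a b⌋ ≤ g a b ∧ g a b ≤ ⌈w a b⌉) ∧
      (∀ a, ⌊∑ b, w a b⌋ ≤ ∑ b, g a b ∧ ∑ b, g a b ≤ ⌈∑ b, w a b⌉) ∧
      (∀ b, ⌊∑ a, w a b⌋ ≤ ∑ a, g a b ∧ ∑ a, g a b ≤ ⌈∑ a, w a b⌉) := by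
  classical
  let s : (A × B) ⊕ A ⊕ B → A ⊕ B ⊕ Unit :=
    Sum.elim (fun p => Sum.inl p.1) (Sum.elim (fun _ => Sum.inr (Sum.inr ()))
      (fun b => Sum.inr (Sum.inl b)))
  let t : (A × B) ⊕ A ⊕ B → A ⊕ B ⊕ Unit :=
    Sum.elim (fun p => Sum.inr (Sum.inl p.2)) (Sum.elim (fun a => Sum.inl a)
      (fun _ => Sum.inr (Sum.inr ())))
  let f : (A × B) ⊕ A ⊕ B → ℝ :=
    Sum.elim (fun p => w p.1 p.2) (Sum.elim (fun a => ∑ b, w a b) (fun b => ∑ a, w a b))
  obtain ⟨g, hg, hnet⟩ := flow_round s t (fun _ => 0) f (by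
    rintro (a | b | _)
    · simp [s, t, f, sum_filter, Fintype.sum_sum_type, Fintype.sum_prod_type]
    · simp [s, t, f, sum_filter, Fintype.sum_sum_type, Fintype.sum_prod_type]
    · simp [s, t, f, sum_filter, Fintype.sum_sum_type, Fintype.sum_prod_type]
      rw [sum_comm, sub_self])
  have hA : ∀ a, g (Sum.inr (Sum.inl a)) = ∑ b, g (Sum.inl (a, b)) := by
    intro a
    have := hnet (Sum.inl a)
    simp [s, t, sum_filter, Fintype.sum_sum_type, Fintype.sum_prod_type] at this
    rw [sum_comm] at this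
    simp at this
    linarith
  have hB : ∀ b, g (Sum.inr (Sum.inr b)) = ∑ a, g (Sum.inl (a, b)) := by
    intro b
    have := hnet (Sum.inr (Sum.inl b))
    simp [s, t, sum_filter, Fintype.sum_sum_type, Fintype.sum_prod_type] at this
    linarith
  refine ⟨fun a b => g (Sum.inl (a, b)), fun a b => hg (Sum.inl (a, b)), fun a => ?_, fun b => ?_⟩
  · rw [← hA]; exact hg (Sum.inr (Sum.inl a))
  · rw [← hB]; exact hg (Sum.inr (Sum.inr b))

/-- Rounding with three indices (roots `x`, colour classes `A` and `B`). -/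
theorem tri_round {X A B : Type*} [Fintype X] [Fintype A] [Fintype B] (w : X → A → B → ℝ) :
    ∃ g : X → A → B → ℤ, (∀ x a b, ⌊w x a b⌋ ≤ g x a b ∧ g x a b ≤ ⌈w x a b⌉) ∧
      (∀ x a, ⌊∑ b, w x a b⌋ ≤ ∑ b, g x a b ∧ ∑ b, g x a b ≤ ⌈∑ b, w x a b⌉) ∧
      (∀ x b, ⌊∑ a, w x a b⌋ ≤ ∑ a, g x a b ∧ ∑ a, g x a b ≤ ⌈∑ a, w x a b⌉) ∧
      (∀ a, ⌊∑ x, ∑ b, w x a b⌋ ≤ ∑ x, ∑ b, g x a b ∧
        ∑ x, ∑ b, g x a b ≤ ⌈∑ x, ∑ b, w x a b⌉) ∧
      (∀ b, ⌊∑ x, ∑ a, w x a b⌋ ≤ ∑ x, ∑ a, g x a b ∧
        ∑ x, ∑ a, g x a b ≤ ⌈∑ x, ∑ a, w x a b⌉) := by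
  classical
  let s : (X × A × B) ⊕ (X × A) ⊕ (X × B) ⊕ A ⊕ B → (X × A) ⊕ (X × B) ⊕ A ⊕ B ⊕ Unit :=
    Sum.elim (fun p => Sum.inl (p.1, p.2.1))
      (Sum.elim (fun p => Sum.inr (Sum.inr (Sum.inl p.2)))
        (Sum.elim (fun p => Sum.inr (Sum.inl p))
          (Sum.elim (fun _ => Sum.inr (Sum.inr (Sum.inr (Sum.inr ()))))
            (fun b => Sum.inr (Sum.inr (Sum.inr (Sum.inl b)))))))
  let t : (X × A × B) ⊕ (X × A) ⊕ (X × B) ⊕ A ⊕ B → (X × A) ⊕ (X × B) ⊕ A ⊕ B ⊕ Unit :=
    Sum.elim (fun p => Sum.inr (Sum.inl (p.1, p.2.2)))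
      (Sum.elim (fun p => Sum.inl p)
        (Sum.elim (fun p => Sum.inr (Sum.inr (Sum.inr (Sum.inl p.2))))
          (Sum.elim (fun a => Sum.inr (Sum.inr (Sum.inl a)))
            (fun _ => Sum.inr (Sum.inr (Sum.inr (Sum.inr ())))))))
  let f : (X × A × B) ⊕ (X × A) ⊕ (X × B) ⊕ A ⊕ B → ℝ :=
    Sum.elim (fun p => w p.1 p.2.1 p.2.2)
      (Sum.elim (fun p => ∑ b, w p.1 p.2 b)
        (Sum.elim (fun p => ∑ a, w p.1 a p.2)
          (Sum.elim (fun a => ∑ x, ∑ b, w x a b) (fun b => ∑ x, ∑ a, w x a b))))
  obtain ⟨g, hg, hnet⟩ := flow_round s t (fun _ => 0) f (by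
    rintro (⟨x, a⟩ | ⟨x, b⟩ | a | b | _)
    · simp [s, t, f, sum_filter, Fintype.sum_sum_type, Fintype.sum_prod_type, ite_and]
    · simp [s, t, f, sum_filter, Fintype.sum_sum_type, Fintype.sum_prod_type, ite_and]
    · simp [s, t, f, sum_filter, Fintype.sum_sum_type, Fintype.sum_prod_type, ite_and]
    · simp [s, t, f, sum_filter, Fintype.sum_sum_type, Fintype.sum_prod_type, ite_and]
    · simp [s, t, f, sum_filter, Fintype.sum_sum_type, Fintype.sum_prod_type]
      rw [sub_eq_zero, sum_comm, sum_comm (s := (univ : Finset A))]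
      exact sum_congr rfl fun x _ => sum_comm)
  have h1 : ∀ x a, g (Sum.inr (Sum.inl (x, a))) = ∑ b, g (Sum.inl (x, a, b)) := by
    intro x a
    have := hnet (Sum.inl (x, a))
    simp [s, t, sum_filter, Fintype.sum_sum_type, Fintype.sum_prod_type, ite_and] at this
    rw [sum_comm] at this
    simp at this
    linarith
  have h2 : ∀ x b, g (Sum.inr (Sum.inr (Sum.inl (x, b)))) = ∑ a, g (Sum.inl (x, a, b)) := by
    intro x b
    have := hnet (Sum.inr (Sum.inl (x, b)))
    simp [s, t, sum_filter, Fintype.sum_sum_type, Fintype.sum_prod_type, ite_and] at this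
    linarith
  have h3 : ∀ a, g (Sum.inr (Sum.inr (Sum.inr (Sum.inl a)))) =
      ∑ x, ∑ b, g (Sum.inl (x, a, b)) := by
    intro a
    have := hnet (Sum.inr (Sum.inr (Sum.inl a)))
    simp [s, t, sum_filter, Fintype.sum_sum_type, Fintype.sum_prod_type, ite_and] at this
    simp only [← h1]
    linarith
  have h4 : ∀ b, g (Sum.inr (Sum.inr (Sum.inr (Sum.inr b)))) =
      ∑ x, ∑ a, g (Sum.inl (x, a, b)) := by
    intro b
    have := hnet (Sum.inr (Sum.inr (Sum.inr (Sum.inl b))))
    simp [s, t, sum_filter, Fintype.sum_sum_type, Fintype.sum_prod_type, ite_and] at this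
    simp only [← h2]
    linarith
  refine ⟨fun x a b => g (Sum.inl (x, a, b)), fun x a b => hg (Sum.inl (x, a, b)),
    fun x a => ?_, fun x b => ?_, fun a => ?_, fun b => ?_⟩
  · rw [← h1]; exact hg (Sum.inr (Sum.inl (x, a)))
  · rw [← h2]; exact hg (Sum.inr (Sum.inr (Sum.inl (x, b))))
  · rw [← h3]; exact hg (Sum.inr (Sum.inr (Sum.inr (Sum.inl a))))
  · rw [← h4]; exact hg (Sum.inr (Sum.inr (Sum.inr (Sum.inr b))))

end Pool.Agent.UPS3
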