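import Mathlib
import Pool.Agent.Lib.MP_876e19_co.Defs

/-!
# Exact tools: sharply transitive sets of automorphisms (MP_876e19_co)

* `hasUPS_of_sharp`: a set `T` of automorphisms which is sharply transitive on the vertices gives
  a uniform path system;
* `exists_transversal`: in a finite nilpotent group every subgroup has a subset which is a
  transversal for all its conjugates;
* `hasUPS_of_nilpotent`, `hasUPS_of_card_prime_pow`.
-/

set_option autoImplicit false

namespace Pool.Agent.UPS

open scoped Classical in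
/-- A sharply transitive set of automorphisms gives a uniform path system. -/
theorem hasUPS_of_sharp {V : Type*} [Finite V] {G : SimpleGraph V} (hG : G.Connected)
    (T : Set (G ≃g G)) (hT : ∀ u v : V, ∃! t : G ≃g G, t ∈ T ∧ t u = v) : HasUPS G := by
  obtain ⟨o⟩ := hG.nonempty
  -- the star at the root
  have hF : ∀ z : V, ∃ p : G.Walk o z, p.IsPath := fun z => by
    obtain ⟨p⟩ := hG.preconnected o z
    exact ⟨p.bypass, p.bypass_isPath⟩
  choose F hFp using hF
  -- the translate taking `o` to `x`
  have ht : ∀ x : V, ∃ t : G ≃g G, t ∈ T ∧ t o = x := fun x => (hT o x).exists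
  choose t htT hto using ht
  let P : ∀ x y : V, G.Walk x y := fun x y =>
    ((F ((t x).symm y)).map (t x).toHom).copy (hto x) ((t x).apply_symm_apply y)
  have hsupp : ∀ x y v : V, v ∈ (P x y).support ↔ (t x).symm v ∈ (F ((t x).symm y)).support := by
    intro x y v
    simp only [P, SimpleGraph.Walk.support_copy, SimpleGraph.Walk.support_map, List.mem_map]
    constructor
    · rintro ⟨w, hw, rfl⟩
      have : (t x).symm ((t x).toHom w) = w := (t x).symm_apply_apply w
      rw [this]; exact hw
    · intro h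
      exact ⟨_, h, (t x).apply_symm_apply v⟩
  refine ⟨P, ?_, {q : V × V | o ≠ q.2 ∧ q.1 ∈ (F q.2).support}.ncard, ?_⟩
  · intro x y _
    simp only [P, SimpleGraph.Walk.isPath_copy]
    exact SimpleGraph.Walk.map_isPath_of_injective (t x).injective (hFp _)
  · intro v
    unfold load
    refine Set.ncard_congr (fun p _ => ((t p.1).symm v, (t p.1).symm p.2)) ?_ ?_ ?_
    · rintro ⟨x, y⟩ ⟨hxy, hv⟩
      refine ⟨?_, (hsupp x y v).1 hv⟩
      intro h
      apply hxy
      have h2 : (t x) o = (t x) ((t x).symm y) := congrArg (t x) h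
      rw [hto, (t x).apply_symm_apply] at h2
      exact h2
    · rintro ⟨x, y⟩ ⟨x', y'⟩ _ _ h
      simp only [Prod.mk.injEq] at h
      obtain ⟨h1, h2⟩ := h
      have e1 : (t x) ((t x).symm v) = v := (t x).apply_symm_apply v
      have e2 : (t x') ((t x).symm v) = v := by
        rw [h1]; exact (t x').apply_symm_apply v
      have e3 : t x = t x' := (hT ((t x).symm v) v).unique ⟨htT x, e1⟩ ⟨htT x', e2⟩
      have hx : x = x' := by rw [← hto x, ← hto x', e3]
      subst hx
      have hy : y = y' := (t x).symm.injective h2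
      rw [hy]
    · rintro ⟨u, z⟩ ⟨hz, hu⟩
      obtain ⟨s, ⟨hsT, hsu⟩, _⟩ := hT u v
      have hs : t (s o) = s :=
        (hT o (s o)).unique ⟨htT _, hto _⟩ ⟨hsT, rfl⟩
      have hsv : s.symm v = u := by rw [← hsu]; exact s.symm_apply_apply u
      have hsz : s.symm (s z) = z := s.symm_apply_apply z
      refine ⟨(s o, s z), ⟨?_, ?_⟩, ?_⟩
      · intro h
        exact hz (s.injective h)
      · rw [hsupp, hs, hsz, hsv]; exact hu
      · simp only [hs, hsv, hsz]

/-- In a finite nilpotent group, every subgroup has a common transversal for all its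
conjugates. -/
theorem exists_transversal_aux (n : ℕ) : ∀ (Γ : Type*) [Group Γ] [Finite Γ] [Group.IsNilpotent Γ],
    Nat.card Γ = n → ∀ H : Subgroup Γ,
    ∃ T : Set Γ, ∀ a b : Γ, ∃! t : Γ, t ∈ T ∧ b⁻¹ * t * a ∈ H := by
  induction n using Nat.strong_induction_on with
  | _ n ih =>
    intro Γ _ _ _ hn H
    by_cases hs : Subsingleton Γ
    · refine ⟨Set.univ, fun a b => ⟨1, ⟨trivial, ?_⟩, fun y _ => Subsingleton.elim _ _⟩⟩
      rw [Subsingleton.elim (b⁻¹ * 1 * a) 1]
      exact H.one_mem
    · have hnt : Nontrivial Γ := not_subsingleton_iff_nontrivial.1 hs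
      have hc : Subgroup.center Γ ≠ ⊥ := Group.IsNilpotent.center_ne_bot Γ
      -- a central element of prime order
      obtain ⟨z, hzc, p, hp, hz⟩ : ∃ z : Γ, z ∈ Subgroup.center Γ ∧
          ∃ p : ℕ, p.Prime ∧ orderOf z = p := by
        have h1 : Nat.card (Subgroup.center Γ) ≠ 1 := by
          intro h
          exact hc ((Subgroup.center Γ).eq_bot_of_card_eq h)
        obtain ⟨p, hp, hpd⟩ := Nat.exists_prime_and_dvd h1
        have := Fact.mk hp
        obtain ⟨y, hy⟩ := exists_prime_orderOf_dvd_card' p hpd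
        exact ⟨y, y.2, p, hp, by rw [← hy]; exact Subgroup.orderOf_coe y⟩
      have hcomm : ∀ m ∈ Subgroup.zpowers z, ∀ g : Γ, g * m = m * g := by
        intro m hm g
        have : m ∈ Subgroup.center Γ := (Subgroup.zpowers_le.2 hzc) hm
        exact (Subgroup.mem_center_iff.1 this g)
      have hN : (Subgroup.zpowers z).Normal := by
        refine ⟨fun m hm g => ?_⟩
        rw [hcomm m hm g, mul_assoc, mul_inv_cancel, mul_one]
        exact hm
      set N : Subgroup Γ := Subgroup.zpowers z with hNdef
      have hz1 : z ≠ 1 := by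
        intro h
        rw [h, orderOf_one] at hz
        exact hp.one_lt.ne hz
      have hNcard : Nat.card N = p := by rw [hNdef, Nat.card_zpowers, hz]
      have hQ : Nat.card (Γ ⧸ N) < n := by
        have h2 := N.card_eq_card_quotient_mul_card_subgroup
        have h3 : 0 < Nat.card (Γ ⧸ N) := Nat.card_pos
        rw [hNcard, hn] at h2
        rw [h2]
        nlinarith [hp.two_le]
      let π : Γ →* Γ ⧸ N := QuotientGroup.mk' N
      have hπs : Function.Surjective π := QuotientGroup.mk'_surjective N
      have hker : ∀ g : Γ, π g = 1 ↔ g ∈ N := fun g => QuotientGroup.eq_one_iff g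
      obtain ⟨T', hT'⟩ := ih _ hQ (Γ ⧸ N) rfl (H.map π)
      choose s hs' using hπs
      by_cases hzH : z ∈ H
      · have hNH : N ≤ H := Subgroup.zpowers_le.2 hzH
        have hcomap : ∀ g : Γ, π g ∈ H.map π → g ∈ H := by
          rintro g ⟨h, hh, hgh⟩
          have : h⁻¹ * g ∈ N := by
            rw [← hker, map_mul, map_inv, hgh, inv_mul_cancel]
          have h3 := H.mul_mem hh (hNH this)
          rwa [mul_inv_cancel_left] at h3
        refine ⟨s '' T', fun a b => ?_⟩
        obtain ⟨q, ⟨hqT, hq⟩, hqu⟩ := hT' (π a) (π b)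
        refine ⟨s q, ⟨⟨q, hqT, rfl⟩, hcomap _ ?_⟩, ?_⟩
        · rw [map_mul, map_mul, map_inv, hs']; exact hq
        · rintro t ⟨⟨q', hq'T, rfl⟩, ht⟩
          have : q' = q := hqu q' ⟨hq'T, by
            have := Subgroup.mem_map_of_mem π ht
            rwa [map_mul, map_mul, map_inv, hs'] at this⟩
          rw [this]
      · have hdisj : ∀ m ∈ N, m ∈ H → m = 1 := by
          intro m hm hmH
          by_contra hm1
          -- `m` generates `N`
          have hcop : (Subgroup.zpowers m) = N := by
            apply Subgroup.eq_of_le_of_card_ge (Subgroup.zpowers_le.2 hm)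
            rw [hNcard]
            have hdvd : Nat.card (Subgroup.zpowers m) ∣ p := by
              rw [← hNcard]
              exact Subgroup.card_dvd_of_le (Subgroup.zpowers_le.2 hm)
            rcases (Nat.dvd_prime hp).1 hdvd with h | h
            · exfalso
              rw [Nat.card_zpowers, orderOf_eq_one_iff] at h
              exact hm1 h
            · rw [h]
          apply hzH
          have : z ∈ Subgroup.zpowers m := by rw [hcop]; exact Subgroup.mem_zpowers z
          exact (Subgroup.zpowers_le.2 hmH) this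
        refine ⟨{t | ∃ q ∈ T', ∃ m ∈ N, t = s q * m}, fun a b => ?_⟩
        obtain ⟨q, ⟨hqT, hq⟩, hqu⟩ := hT' (π a) (π b)
        obtain ⟨h, hh, hqh⟩ := hq
        -- `b⁻¹ * s q * a = h * m`
        have hm : h⁻¹ * (b⁻¹ * s q * a) ∈ N := by
          rw [← hker, map_mul, map_mul, map_mul, map_inv, map_inv, hs', hqh, inv_mul_cancel]
        set m : Γ := h⁻¹ * (b⁻¹ * s q * a) with hmdef
        have hm' : b⁻¹ * s q * a = h * m := by rw [hmdef]; group
        refine ⟨s q * m⁻¹, ⟨⟨q, hqT, m⁻¹, N.inv_mem hm, rfl⟩, ?_⟩, ?_⟩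
        · have e : b⁻¹ * (s q * m⁻¹) * a = (b⁻¹ * s q * a) * m⁻¹ := by
            have := hcomm m⁻¹ (N.inv_mem hm) a
            rw [mul_assoc b⁻¹ (s q * m⁻¹) a, mul_assoc (s q) m⁻¹ a, ← this]
            group
          rw [e, hm', mul_inv_cancel_right]
          exact hh
        · rintro t ⟨⟨q', hq'T, m', hm'N, rfl⟩, ht⟩
          have hq' : q' = q := hqu q' ⟨hq'T, by
            have h5 := Subgroup.mem_map_of_mem π ht
            have h6 : π m' = 1 := (hker m').2 hm'N
            rwa [map_mul, map_mul, map_mul, map_inv, hs', h6, mul_one] at h5⟩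
          subst hq'
          have e : b⁻¹ * (s q' * m') * a = (b⁻¹ * s q' * a) * m' := by
            have := hcomm m' hm'N a
            rw [mul_assoc b⁻¹ (s q' * m') a, mul_assoc (s q') m' a, ← this]
            group
          rw [e, hm', mul_assoc] at ht
          have h7 : m * m' ∈ H := by
            have := H.mul_mem (H.inv_mem hh) ht
            rwa [inv_mul_cancel_left] at this
          have h8 : m * m' = 1 := hdisj _ (N.mul_mem hm hm'N) h7
          rw [eq_inv_of_mul_eq_one_right h8]

/-- In a finite nilpotent group, every subgroup has a common transversal for all its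
conjugates. -/
theorem exists_transversal {Γ : Type*} [Group Γ] [Finite Γ] [Group.IsNilpotent Γ]
    (H : Subgroup Γ) : ∃ T : Set Γ, ∀ a b : Γ, ∃! t : Γ, t ∈ T ∧ b⁻¹ * t * a ∈ H :=
  exists_transversal_aux _ Γ rfl H

/-- A finite nilpotent group acting transitively has a sharply transitive subset. -/
theorem exists_sharp {Γ V : Type*} [Group Γ] [Finite Γ] [Group.IsNilpotent Γ] [MulAction Γ V]
    [MulAction.IsPretransitive Γ V] :
    ∃ T : Set Γ, ∀ u v : V, ∃! t : Γ, t ∈ T ∧ t • u = v := by
  by_cases hV : IsEmpty V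
  · exact ⟨∅, fun u => hV.elim u⟩
  · rw [not_isEmpty_iff] at hV
    obtain ⟨o⟩ := hV
    obtain ⟨T, hT⟩ := exists_transversal (MulAction.stabilizer Γ o)
    refine ⟨T, fun u v => ?_⟩
    obtain ⟨a, ha⟩ := MulAction.exists_smul_eq Γ o u
    obtain ⟨b, hb⟩ := MulAction.exists_smul_eq Γ o v
    have key : ∀ t : Γ, b⁻¹ * t * a ∈ MulAction.stabilizer Γ o ↔ t • u = v := by
      intro t
      rw [MulAction.mem_stabilizer_iff, mul_assoc, mul_smul, mul_smul, ha, inv_smul_eq_iff, hb]
    obtain ⟨t, ⟨h1, h2⟩, h3⟩ := hT a b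
    exact ⟨t, ⟨h1, (key t).1 h2⟩, fun t' ht' => h3 t' ⟨ht'.1, (key t').2 ht'.2⟩⟩

/-- A connected graph with a transitive nilpotent group of automorphisms has a uniform path
system. -/
theorem hasUPS_of_nilpotent {V : Type*} [Finite V] {G : SimpleGraph V} (hG : G.Connected)
    (Γ : Subgroup (G ≃g G)) [Group.IsNilpotent Γ]
    (hΓ : ∀ u v : V, ∃ g ∈ Γ, g u = v) : HasUPS G := by
  have : Finite (G ≃g G) :=
    Finite.of_injective (fun φ : G ≃g G => (φ : V → V)) DFunLike.coe_injective
  have : MulAction.IsPretransitive Γ V := ⟨fun u v => by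
    obtain ⟨g, hg, h⟩ := hΓ u v
    exact ⟨⟨g, hg⟩, h⟩⟩
  obtain ⟨T, hT⟩ := exists_sharp (Γ := Γ) (V := V)
  refine hasUPS_of_sharp hG ((↑) '' T) fun u v => ?_
  obtain ⟨t, ⟨h1, h2⟩, h3⟩ := hT u v
  refine ⟨(t : G ≃g G), ⟨⟨t, h1, rfl⟩, h2⟩, ?_⟩
  rintro _ ⟨⟨t', ht', rfl⟩, h'⟩
  rw [h3 t' ⟨ht', h'⟩]

/-- Every connected vertex-transitive graph on a prime power number of vertices has a uniform
path system. -/
theorem hasUPS_of_card_prime_pow {V : Type*} [Finite V] {G : SimpleGraph V} (hG : G.Connected)
    (hT : VT G) {p a : ℕ} (hp : p.Prime) (hcard : Nat.card V = p ^ a) : HasUPS G := by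
  have := Fact.mk hp
  have : Finite (G ≃g G) :=
    Finite.of_injective (fun φ : G ≃g G => (φ : V → V)) DFunLike.coe_injective
  have : MulAction.IsPretransitive (G ≃g G) V := ⟨fun u v => hT u v⟩
  obtain ⟨P⟩ : Nonempty (Sylow p (G ≃g G)) := inferInstance
  have : Group.IsNilpotent (P : Subgroup (G ≃g G)) := P.isPGroup'.isNilpotent
  refine hasUPS_of_nilpotent hG (P : Subgroup (G ≃g G)) ?_
  intro u v
  have hne : Nat.card (G ≃g G) ≠ 0 := Nat.card_pos.ne'
  -- the index of the stabiliser in the whole group is the number of vertices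
  have h1 : (MulAction.stabilizer (G ≃g G) u).index = Nat.card V := by
    rw [MulAction.index_stabilizer, MulAction.orbit_eq_univ, Set.ncard_univ]
  have h2 := (MulAction.stabilizer (G ≃g G) u).card_mul_index
  rw [h1, hcard] at h2
  have h3 := Sylow.card_eq_multiplicity P
  -- the stabiliser in the Sylow subgroup
  have h4 : Nat.card (MulAction.stabilizer P u) ∣ Nat.card (MulAction.stabilizer (G ≃g G) u) := by
    have hle : (MulAction.stabilizer P u).map (P : Subgroup (G ≃g G)).subtype ≤
        MulAction.stabilizer (G ≃g G) u := by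
      rintro _ ⟨g, hg, rfl⟩
      exact hg
    have h5 := Subgroup.card_dvd_of_le hle
    rwa [Subgroup.card_map_of_injective (P : Subgroup (G ≃g G)).subtype_injective] at h5
  have h6 : Nat.card (MulAction.stabilizer P u) ∣ Nat.card P :=
    Subgroup.card_subgroup_dvd_card _
  rw [h3] at h6
  obtain ⟨j, hjk, hj⟩ := (Nat.dvd_prime_pow hp).1 h6
  have h7 : p ^ (a + j) ∣ Nat.card (G ≃g G) := by
    rw [pow_add, ← h2, mul_comm (Nat.card _) (p ^ a)]
    exact mul_dvd_mul_left _ (hj ▸ h4)
  have h8 : a + j ≤ (Nat.card (G ≃g G)).factorization p :=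
    (hp.pow_dvd_iff_le_factorization hne).1 h7
  -- the orbit under the Sylow subgroup is everything
  have h9 : (MulAction.orbit P u).ncard * p ^ j = p ^ ((Nat.card (G ≃g G)).factorization p) := by
    have := (MulAction.stabilizer P u).card_mul_index
    rw [MulAction.index_stabilizer, hj, h3] at this
    rw [mul_comm]; exact this
  have h10 : Nat.card V ≤ (MulAction.orbit P u).ncard := by
    rw [hcard]
    have h11 : p ^ a * p ^ j ≤ (MulAction.orbit P u).ncard * p ^ j := by
      rw [h9, ← pow_add]
      exact Nat.pow_le_pow_right hp.pos h8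
    exact Nat.le_of_mul_le_mul_right h11 (pow_pos hp.pos j)
  have h12 : MulAction.orbit P u = Set.univ := by
    apply Set.eq_of_subset_of_ncard_le (Set.subset_univ _)
    rw [Set.ncard_univ]; exact h10
  have h13 : v ∈ MulAction.orbit P u := by rw [h12]; trivial
  obtain ⟨g, hg⟩ := h13
  exact ⟨g, g.2, hg⟩

end Pool.Agent.UPS
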