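import Pool.Agent.Lib.MP_876e19_co_ups.SharpSets

/-!
# Antipodal graphs on `2 p^a` vertices (helper63, TT876)

* `hasUPS_of_central`: a central fixed point free involution in the automorphism group of a
  connected vertex-transitive graph on `2 p^a` vertices, `p` an odd prime, gives a uniform path
  system;
* `hasUPS_of_antipodal`: the same if every vertex has exactly one vertex at distance `D`
  (the diameter) and exactly `d` vertices at distance `D - 1`, `d` the valency.
-/

set_option autoImplicit false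

namespace Pool.Agent.UPS.Thin63

open Pool.Agent.UPS

/-- orbits of a Sylow subgroup in a transitive action: at least the `p`-part of the degree -/
theorem le_ncard_orbit_sylow {Γ V : Type*} [Group Γ] [Finite Γ] [Finite V] [MulAction Γ V]
    [MulAction.IsPretransitive Γ V] {p a m : ℕ} [Fact p.Prime] (hcard : Nat.card V = m * p ^ a)
    (P : Sylow p Γ) (u : V) : p ^ a ≤ (MulAction.orbit P u).ncard := by
  have hp : p.Prime := Fact.out
  have hne : Nat.card Γ ≠ 0 := Nat.card_pos.ne'
  have h1 : (MulAction.stabilizer Γ u).index = Nat.card V := by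
    rw [MulAction.index_stabilizer, MulAction.orbit_eq_univ, Set.ncard_univ]
  have h2 := (MulAction.stabilizer Γ u).card_mul_index
  rw [h1, hcard] at h2
  have h3 := Sylow.card_eq_multiplicity P
  have h4 : Nat.card (MulAction.stabilizer P u) ∣ Nat.card (MulAction.stabilizer Γ u) := by
    have hle : (MulAction.stabilizer P u).map (P : Subgroup Γ).subtype ≤
        MulAction.stabilizer Γ u := by
      rintro _ ⟨g, hg, rfl⟩
      exact hg
    have h5 := Subgroup.card_dvd_of_le hle
    rwa [Subgroup.card_map_of_injective (P : Subgroup Γ).subtype_injective] at h5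
  have h6 : Nat.card (MulAction.stabilizer P u) ∣ Nat.card P :=
    Subgroup.card_subgroup_dvd_card _
  rw [h3] at h6
  obtain ⟨j, hjk, hj⟩ := (Nat.dvd_prime_pow hp).1 h6
  have h7 : p ^ (a + j) ∣ Nat.card Γ := by
    obtain ⟨c, hc⟩ := h4
    rw [hj] at hc
    refine ⟨c * m, ?_⟩
    rw [← h2, hc, pow_add]
    ring
  have h8 : a + j ≤ (Nat.card Γ).factorization p :=
    (hp.pow_dvd_iff_le_factorization hne).1 h7
  have h9 : (MulAction.orbit P u).ncard * p ^ j = p ^ ((Nat.card Γ).factorization p) := by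
    have := (MulAction.stabilizer P u).card_mul_index
    rw [MulAction.index_stabilizer, hj, h3] at this
    rw [mul_comm]; exact this
  have h11 : p ^ a * p ^ j ≤ (MulAction.orbit P u).ncard * p ^ j := by
    rw [h9, ← pow_add]
    exact Nat.pow_le_pow_right hp.pos h8
  exact Nat.le_of_mul_le_mul_right h11 (pow_pos hp.pos j)

/-- a central fixed point free involution, `2 p^a` vertices, `p` odd -/
theorem hasUPS_of_central {V : Type*} [Finite V] {G : SimpleGraph V} (hG : G.Connected)
    (hT : VT G) (z : G ≃g G) (hz : ∀ φ : G ≃g G, φ * z = z * φ) (hz2 : z * z = 1)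
    (hz1 : ∀ v, z v ≠ v) {p a : ℕ} (hp : p.Prime) (hp2 : p ≠ 2)
    (hcard : Nat.card V = 2 * p ^ a) : HasUPS G := by
  have := Fact.mk hp
  have hodd : Odd p := hp.odd_of_ne_two hp2
  have : Finite (G ≃g G) :=
    Finite.of_injective (fun φ : G ≃g G => (φ : V → V)) DFunLike.coe_injective
  have : MulAction.IsPretransitive (G ≃g G) V := ⟨fun u v => hT u v⟩
  obtain ⟨P⟩ : Nonempty (Sylow p (G ≃g G)) := inferInstance
  have : Group.IsNilpotent (P : Subgroup (G ≃g G)) := P.isPGroup'.isNilpotent
  -- `z u` is not in the orbit of `u`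
  have hzP : ∀ (u : V) (g : P), z u ≠ (g : G ≃g G) u := by
    intro u g hgu
    obtain ⟨k, hk⟩ := P.isPGroup' g
    have hk' : (g : G ≃g G) ^ (p ^ k) = 1 := by
      have := congrArg (fun x : P => (x : G ≃g G)) hk
      simpa using this
    have hcomm : Commute z ((g : G ≃g G)⁻¹) := by
      have : Commute z (g : G ≃g G) := (hz g).symm
      exact this.inv_right
    have hfix : ∀ m : ℕ, ((z * (g : G ≃g G)⁻¹) ^ m) ((g : G ≃g G) u) = (g : G ≃g G) u := by
      intro m
      induction m with
      | zero => rfl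
      | succ m ih =>
        rw [pow_succ]
        have e : (z * (g : G ≃g G)⁻¹) ((g : G ≃g G) u) = (g : G ≃g G) u := by
          have e1 : (z * (g : G ≃g G)⁻¹) ((g : G ≃g G) u) =
              z (((g : G ≃g G)⁻¹ * (g : G ≃g G)) u) := rfl
          rw [e1, inv_mul_cancel]
          exact hgu
        have e2 : ((z * (g : G ≃g G)⁻¹) ^ m * (z * (g : G ≃g G)⁻¹)) ((g : G ≃g G) u) =
            ((z * (g : G ≃g G)⁻¹) ^ m) ((z * (g : G ≃g G)⁻¹) ((g : G ≃g G) u)) := rfl
        rw [e2, e, ih]
    have h1 := hfix (p ^ k)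
    rw [hcomm.mul_pow, inv_pow, hk', inv_one, mul_one] at h1
    obtain ⟨r, hr⟩ : Odd (p ^ k) := hodd.pow
    have h2 : z ^ (p ^ k) = z := by
      rw [hr, pow_succ, pow_mul, pow_two, hz2, one_pow, one_mul]
    rw [h2] at h1
    exact hz1 _ h1
  -- transitivity of `P × ⟨z⟩`
  have htr : ∀ u v : V, ∃ g : P, v = (g : G ≃g G) u ∨ v = (g : G ≃g G) (z u) := by
    intro u v
    by_contra hcon
    push Not at hcon
    have h1 := le_ncard_orbit_sylow hcard P u
    have h2 := le_ncard_orbit_sylow hcard P (z u)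
    have hd : Disjoint (MulAction.orbit P u) (MulAction.orbit P (z u)) := by
      rw [Set.disjoint_left]
      rintro w ⟨g, hg⟩ ⟨g', hg'⟩
      have e1 : (g : G ≃g G) u = (g' : G ≃g G) (z u) := hg.trans hg'.symm
      apply hzP u (g'⁻¹ * g)
      have e2 : ((g'⁻¹ * g : P) : G ≃g G) u = ((g' : G ≃g G)⁻¹) ((g : G ≃g G) u) := rfl
      rw [e2, e1]
      have e3 : ((g' : G ≃g G)⁻¹) ((g' : G ≃g G) (z u)) =
        (((g' : G ≃g G)⁻¹) * (g' : G ≃g G)) (z u) := rfl
      rw [e3, inv_mul_cancel]
      rfl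
    have h3 := Set.ncard_union_eq hd (Set.toFinite _) (Set.toFinite _)
    have h4 : (MulAction.orbit P u ∪ MulAction.orbit P (z u)) ⊆ {v}ᶜ := by
      rintro w (⟨g, hg⟩ | ⟨g, hg⟩) hw
      · rw [Set.mem_singleton_iff] at hw
        exact (hcon g).1 (hw.symm.trans hg.symm)
      · rw [Set.mem_singleton_iff] at hw
        exact (hcon g).2 (hw.symm.trans hg.symm)
    have h5 := Set.ncard_le_ncard h4 (Set.toFinite _)
    have h6 := Set.ncard_add_ncard_compl {v} (Set.toFinite _) (Set.toFinite ({v}ᶜ : Set V))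
    rw [Set.ncard_singleton, hcard] at h6
    omega
  -- the action of `P × ⟨z⟩`
  let Q : Subgroup (G ≃g G) := (P : Subgroup (G ≃g G))
  have hQ : Group.IsNilpotent Q := P.isPGroup'.isNilpotent
  have hcm : ∀ (g : Q) (m : Subgroup.zpowers z),
      Commute (Q.subtype g) ((Subgroup.zpowers z).subtype m) := by
    rintro g ⟨m, hm⟩
    obtain ⟨i, rfl⟩ := Subgroup.mem_zpowers_iff.1 hm
    exact Commute.zpow_right (hz g) i
  let f : Q × Subgroup.zpowers z →* (G ≃g G) :=
    MonoidHom.noncommCoprod _ _ hcm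
  have hf : ∀ (g : Q) (m : Subgroup.zpowers z),
      f (g, m) = (g : G ≃g G) * (m : G ≃g G) := fun g m => rfl
  letI : MulAction (Q × Subgroup.zpowers z) V := MulAction.compHom V f
  have hact : ∀ (t : Q × Subgroup.zpowers z) (v : V), t • v = f t v :=
    fun t v => rfl
  have : MulAction.IsPretransitive (Q × Subgroup.zpowers z) V := by
    refine ⟨fun u v => ?_⟩
    obtain ⟨g, hg | hg⟩ := htr u v
    · refine ⟨(g, 1), ?_⟩
      rw [hact, hf, hg]
      rfl
    · refine ⟨(g, ⟨z, Subgroup.mem_zpowers z⟩), ?_⟩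
      rw [hact, hf, hg]
      rfl
  have : Group.IsNilpotent (Q × Subgroup.zpowers z) := by
    have h2g : IsPGroup 2 (Subgroup.zpowers z) := by
      rintro ⟨m, hm⟩
      obtain ⟨i, rfl⟩ := Subgroup.mem_zpowers_iff.1 hm
      refine ⟨1, ?_⟩
      apply Subtype.ext
      show (z ^ i) ^ (2 ^ 1) = 1
      rw [pow_one, pow_two, ← zpow_add, ← two_mul, zpow_mul, zpow_two, hz2, one_zpow]
    have : Group.IsNilpotent (Subgroup.zpowers z) := h2g.isNilpotent
    infer_instance
  obtain ⟨T, hT'⟩ := exists_sharp (Γ := Q × Subgroup.zpowers z) (V := V)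
  refine hasUPS_of_sharp hG (f '' T) fun u v => ?_
  obtain ⟨t, ⟨h1, h2⟩, h3⟩ := hT' u v
  refine ⟨f t, ⟨⟨t, h1, rfl⟩, h2⟩, ?_⟩
  rintro _ ⟨⟨t', ht', rfl⟩, h'⟩
  rw [h3 t' ⟨ht', h'⟩]

lemma iso_dist {V : Type*} {G : SimpleGraph V} (φ : G ≃g G) (x y : V) :
    G.dist (φ x) (φ y) = G.dist x y := by
  have key : ∀ (ψ : G ≃g G) (a b : V), G.Reachable a b → G.dist (ψ a) (ψ b) ≤ G.dist a b := by
    intro ψ a b hab
    obtain ⟨p, hp⟩ := hab.exists_walk_length_eq_dist
    rw [← hp, ← SimpleGraph.Walk.length_map ψ.toHom p]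
    exact SimpleGraph.dist_le _
  by_cases hr : G.Reachable x y
  · apply le_antisymm (key φ x y hr)
    have h1 : G.Reachable (φ x) (φ y) := by
      obtain ⟨p⟩ := hr
      exact ⟨p.map φ.toHom⟩
    have := key φ.symm _ _ h1
    simpa using this
  · have h1 : ¬ G.Reachable (φ x) (φ y) := by
      rintro ⟨p⟩
      apply hr
      have := (p.map φ.symm.toHom).reachable
      simpa using this
    rw [SimpleGraph.dist_eq_zero_of_not_reachable hr,
      SimpleGraph.dist_eq_zero_of_not_reachable h1]

/-- Antipodal graphs on `2 p^a` vertices. -/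
theorem hasUPS_of_antipodal {V : Type*} [Fintype V] [DecidableEq V] {G : SimpleGraph V}
    (hG : G.Connected) (hT : VT G) {D d : ℕ} (hD : 1 ≤ D) (hdiam : ∀ x y, G.dist x y ≤ D)
    (huniq : ∀ x, ∃! y, G.dist x y = D)
    (hdeg : ∀ x, (G.neighborSet x).ncard = d)
    (hlev : ∀ x, {y | G.dist x y = D - 1}.ncard = d) {p a : ℕ} (hp : p.Prime) (hp2 : p ≠ 2)
    (hcard : Nat.card V = 2 * p ^ a) : HasUPS G := by
  choose s hs hsu using huniq
  have hs : ∀ x, G.dist x (s x) = D := hs
  have hss : ∀ x, s (s x) = x := fun x =>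
    (hsu (s x) x (show G.dist (s x) x = D by rw [SimpleGraph.dist_comm]; exact hs x)).symm
  have hadj : ∀ x y, G.Adj x y ↔ G.dist (s x) y = D - 1 := by
    intro x y
    have hsub : G.neighborSet x ⊆ {y | G.dist (s x) y = D - 1} := by
      intro w hw
      have hw' : G.Adj x w := hw
      have h1 : G.dist (s x) x = D := by rw [SimpleGraph.dist_comm]; exact hs x
      have h2 : G.dist (s x) x ≤ G.dist (s x) w + G.dist w x := hG.dist_triangle
      have h3 : G.dist w x = 1 := SimpleGraph.dist_eq_one_iff_adj.2 hw'.symm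
      have h4 := hdiam (s x) w
      have h5 : G.dist (s x) w ≠ D := by
        intro h
        have h6 : w = s (s x) := hsu (s x) w h
        rw [hss] at h6
        exact hw'.ne h6.symm
      show G.dist (s x) w = D - 1
      omega
    have heq : G.neighborSet x = {y | G.dist (s x) y = D - 1} := by
      apply Set.eq_of_subset_of_ncard_le hsub
      rw [hdeg, hlev]
    constructor
    · intro h
      exact hsub h
    · intro h
      have : y ∈ G.neighborSet x := by rw [heq]; exact h
      exact this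
  let z : G ≃g G :=
    { toEquiv := Function.Involutive.toPerm s hss
      map_rel_iff' := by
        intro x y
        show G.Adj (s x) (s y) ↔ G.Adj x y
        rw [hadj, hss, SimpleGraph.dist_comm, ← hadj, SimpleGraph.adj_comm] }
  have hzs : ∀ x, z x = s x := fun x => rfl
  refine hasUPS_of_central hG hT z (fun φ => ?_) ?_ (fun v h => ?_) hp hp2 hcard
  · ext x
    show φ (s x) = s (φ x)
    apply hsu
    show G.dist (φ x) (φ (s x)) = D
    rw [iso_dist]; exact hs x
  · ext x
    show s (s x) = x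
    exact hss x
  · have h1 := hs v
    rw [← hzs, h, SimpleGraph.dist_self] at h1
    omega

end Pool.Agent.UPS.Thin63
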