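import Pool.Agent.Lib.MP_876e19_co_ups.Antipodal
import Pool.Agent.Lib.MP_876e19_co_ups.Atoms

/-!
# Thin antipodal graphs (helper63, TT876)

`hasUPS_of_thin`: valency `d`, connectivity `d`, two vertices at distance `D`, exactly
`2 + (D - 1) d = 2 p^a` vertices (`p` an odd prime). Applications: `(d, n) = (4, 14)` with
diameter at least 4 and `(d, n) = (4, 18)` with diameter at least 5.
-/

set_option autoImplicit false

namespace Pool.Agent.UPS.Thin63

open Pool.Agent.UPS

open Finset Pool.Agent.UPS.Atoms

theorem hasUPS_of_thin {V : Type*} [Fintype V] [DecidableEq V] {G : SimpleGraph V}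
    [DecidableRel G.Adj] (hG : G.Connected) (hT : VT G) {D d : ℕ} (hD : 2 ≤ D)
    (hreg : ∀ v, (univ.filter fun w => G.Adj v w).card = d) (hlow : Lower G d)
    (hdist : ∃ x y, D ≤ G.dist x y) (hcard : Fintype.card V = 2 + (D - 1) * d)
    {p a : ℕ} (hp : p.Prime) (hp2 : p ≠ 2) (hpa : Fintype.card V = 2 * p ^ a) : HasUPS G := by
  -- every vertex has eccentricity at least `D`
  obtain ⟨x0, y0, h0⟩ := hdist
  have hecc : ∀ x, ∃ y, D ≤ G.dist x y := by
    intro x
    obtain ⟨φ, hφ⟩ := hT x0 x
    refine ⟨φ y0, ?_⟩
    rw [← hφ, iso_dist]; exact h0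
  -- the levels
  have hlev : ∀ x i, 1 ≤ i → i < D → d ≤ (univ.filter fun v => G.dist x v = i).card := by
    intro x i h1 h2
    obtain ⟨y, hy⟩ := hecc x
    let X : Finset V := univ.filter fun v => G.dist x v < i
    have hX : X.Nonempty := by
      refine ⟨x, ?_⟩
      simp only [X, mem_filter, mem_univ, true_and, SimpleGraph.dist_self]
      omega
    have hstep : ∀ u v, G.Adj u v → G.dist x v ≤ G.dist x u + 1 := by
      intro u v huv
      have h3 : G.dist x v ≤ G.dist x u + G.dist u v := hG.dist_triangle
      rwa [SimpleGraph.dist_eq_one_iff_adj.2 huv] at h3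
    have hfar : (far G X).Nonempty := by
      refine ⟨y, mem_far.2 ⟨?_, ?_⟩⟩
      · simp only [X, mem_filter, mem_univ, true_and, not_lt]; omega
      · intro u hu huy
        simp only [X, mem_filter, mem_univ, true_and] at hu
        have := hstep u y huy
        omega
    refine (hlow X hX hfar).trans (card_le_card fun v hv => ?_)
    obtain ⟨h3, u, hu, huv⟩ := mem_bd.1 hv
    simp only [X, mem_filter, mem_univ, true_and] at h3 hu ⊢
    have := hstep u v huv
    omega
  have hsplit : ∀ x, (univ.filter fun v => D ≤ G.dist x v).card +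
      ∑ i ∈ range D, (univ.filter fun v => G.dist x v = i).card = Fintype.card V := by
    intro x
    have h1 : (univ.filter fun v => ¬ D ≤ G.dist x v).card =
        ∑ i ∈ range D, (univ.filter fun v => G.dist x v = i).card := by
      rw [card_eq_sum_card_fiberwise (f := fun v => G.dist x v) (t := range D)]
      · refine sum_congr rfl fun i hi => ?_
        rw [filter_filter]
        congr 1
        ext v
        simp only [mem_filter, mem_univ, true_and]
        have := mem_range.1 hi
        constructor
        · exact fun h => h.2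
        · intro h; exact ⟨by omega, h⟩
      · intro v hv
        simp only [coe_filter, mem_univ, true_and, Set.mem_ofPred_eq, not_le] at hv
        simpa using hv
    rw [← h1, card_filter_add_card_filter_not, card_univ]
  have h00 : ∀ x, (univ.filter fun v => G.dist x v = 0).card = 1 := by
    intro x
    rw [card_eq_one]
    refine ⟨x, ?_⟩
    ext v
    simp only [mem_filter, mem_univ, true_and, mem_singleton, hG.dist_eq_zero_iff]
    exact eq_comm
  obtain ⟨E, rfl⟩ : ∃ E, D = E + 1 := ⟨D - 1, by omega⟩
  have hsum : ∀ x, ∑ i ∈ range (E + 1), (univ.filter fun v => G.dist x v = i).card =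
      1 + ∑ i ∈ range E, (univ.filter fun v => G.dist x v = i + 1).card := by
    intro x
    rw [sum_range_succ', h00, add_comm]
  have hge : ∀ x, E * d ≤ ∑ i ∈ range E, (univ.filter fun v => G.dist x v = i + 1).card := by
    intro x
    calc E * d = ∑ i ∈ range E, d := by rw [sum_const, card_range, smul_eq_mul]
      _ ≤ _ := sum_le_sum fun i hi => hlev x (i + 1) (by omega) (by
        have := mem_range.1 hi; omega)
  have hone : ∀ x, 1 ≤ (univ.filter fun v => E + 1 ≤ G.dist x v).card := by
    intro x
    obtain ⟨y, hy⟩ := hecc x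
    exact card_pos.2 ⟨y, by simpa using hy⟩
  have hE : E + 1 - 1 = E := rfl
  rw [hE] at hcard
  have heq : ∀ x, (univ.filter fun v => E + 1 ≤ G.dist x v).card = 1 ∧
      ∑ i ∈ range E, (univ.filter fun v => G.dist x v = i + 1).card = E * d := by
    intro x
    have h1 := hsplit x
    have h2 := hsum x
    have h3 := hge x
    have h4 := hone x
    constructor <;> omega
  have hlevel : ∀ x i, i < E → (univ.filter fun v => G.dist x v = i + 1).card = d := by
    intro x i hi
    have h1 : ∑ i ∈ range E, d = ∑ i ∈ range E,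
        (univ.filter fun v => G.dist x v = i + 1).card := by
      rw [(heq x).2, sum_const, card_range, smul_eq_mul]
    have h2 := (sum_eq_sum_iff_of_le (fun i hi => hlev x (i + 1) (by omega) (by
        have := mem_range.1 hi; omega))).1 h1
    exact (h2 i (mem_range.2 hi)).symm
  -- a vertex at distance exactly `E + 1`
  have hex : ∀ x, ∃ y, G.dist x y = E + 1 := by
    intro x
    obtain ⟨y, hy⟩ := hecc x
    obtain ⟨w, hw⟩ := hG.exists_walk_length_eq_dist x y
    refine ⟨w.getVert (E + 1), ?_⟩
    have hle : E + 1 ≤ w.length := by omega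
    have h1 : G.dist x (w.getVert (E + 1)) ≤ E + 1 := by
      have := SimpleGraph.dist_le (w.take (E + 1))
      rwa [SimpleGraph.Walk.take_length, min_eq_left hle] at this
    have h2 : G.dist (w.getVert (E + 1)) y ≤ w.length - (E + 1) := by
      have := SimpleGraph.dist_le (w.drop (E + 1))
      rwa [SimpleGraph.Walk.drop_length] at this
    have h3 : G.dist x y ≤ G.dist x (w.getVert (E + 1)) + G.dist (w.getVert (E + 1)) y :=
      hG.dist_triangle
    omega
  have hsingle : ∀ x y y', E + 1 ≤ G.dist x y → E + 1 ≤ G.dist x y' → y = y' := by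
    intro x y y' h1 h2
    exact card_le_one.1 (heq x).1.le y (by simpa using h1) y' (by simpa using h2)
  refine hasUPS_of_antipodal hG hT (D := E + 1) (d := d) (by omega) ?_ ?_ ?_ ?_ hp hp2
    (by rw [Nat.card_eq_fintype_card]; exact hpa)
  · intro x y
    by_contra h
    push Not at h
    obtain ⟨y', hy'⟩ := hex x
    have := hsingle x y y' (by omega) (by omega)
    subst this
    omega
  · intro x
    obtain ⟨y, hy⟩ := hex x
    refine ⟨y, hy, fun y' hy' => hsingle x y' y ?_ ?_⟩
    · exact (show G.dist x y' = E + 1 from hy').ge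
    · exact hy.ge
  · intro x
    rw [← hreg x, ← Set.ncard_coe_finset]
    congr 1
    ext w
    simp
  · intro x
    obtain ⟨F, rfl⟩ : ∃ F, E = F + 1 := ⟨E - 1, by omega⟩
    rw [← hlevel x F (by omega), ← Set.ncard_coe_finset]
    congr 1
    ext w
    simp

/-- `(d, n) = (4, 18)`, diameter at least 5 -/
theorem hasUPS_4_18 {V : Type*} [Fintype V] [DecidableEq V] {G : SimpleGraph V}
    [DecidableRel G.Adj] (hG : G.Connected) (hT : VT G)
    (hreg : ∀ v, (univ.filter fun w => G.Adj v w).card = 4)
    (hdist : ∃ x y, 5 ≤ G.dist x y) (hcard : Fintype.card V = 18) : HasUPS G :=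
  hasUPS_of_thin hG hT (D := 5) (d := 4) (by norm_num) hreg (lower_four hG hT hreg) hdist
    (by rw [hcard]) (p := 3) (a := 2) Nat.prime_three (by norm_num) (by rw [hcard]; norm_num)

/-- `(d, n) = (4, 14)`, diameter at least 4 -/
theorem hasUPS_4_14 {V : Type*} [Fintype V] [DecidableEq V] {G : SimpleGraph V}
    [DecidableRel G.Adj] (hG : G.Connected) (hT : VT G)
    (hreg : ∀ v, (univ.filter fun w => G.Adj v w).card = 4)
    (hdist : ∃ x y, 4 ≤ G.dist x y) (hcard : Fintype.card V = 14) : HasUPS G :=
  hasUPS_of_thin hG hT (D := 4) (d := 4) (by norm_num) hreg (lower_four hG hT hreg) hdist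
    (by rw [hcard]) (p := 7) (a := 1) (by norm_num) (by norm_num) (by rw [hcard]; norm_num)

end Pool.Agent.UPS.Thin63
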