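import Mathlib
import Pool.Agent.Lib.MP_876e19_co.Defs
import Pool.Agent.Lib.MP_876e19_co_ups.SharpSets
import Pool.Agent.Lib.MP_876e19_co_ups.Atoms

/-!
# Antipodal windows (MP_876e19_co)

* `sylow_orbit`: the orbits of a Sylow `p`-subgroup of a transitive group are large;
* `hasUPS_of_central`: `2 p ^ a` vertices and a central fixed point free involution;
* `hasUPS_of_antipode`: unique antipodes whose neighbourhood is the last level but one;
* `hasUPS_of_extremal`: `2 + (D - 1) d` vertices, diameter at least `D`, connectivity `d`.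
-/

set_option autoImplicit false

namespace Pool.Agent.UPS

/-- the orbits of a Sylow subgroup of a transitive group -/
theorem sylow_orbit {Γ V : Type*} [Group Γ] [Finite Γ] [Finite V] [MulAction Γ V]
    [MulAction.IsPretransitive Γ V] {p a : ℕ} [hp : Fact p.Prime] (h : p ^ a ∣ Nat.card V)
    (P : Sylow p Γ) (u : V) : ∃ b, a ≤ b ∧ (MulAction.orbit P u).ncard = p ^ b := by
  have hne : Nat.card Γ ≠ 0 := Nat.card_pos.ne'
  have h1 : (MulAction.stabilizer Γ u).index = Nat.card V := by
    rw [MulAction.index_stabilizer, MulAction.orbit_eq_univ, Set.ncard_univ]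
  have h2 := (MulAction.stabilizer Γ u).card_mul_index
  rw [h1] at h2
  have h3 := Sylow.card_eq_multiplicity P
  have h4 : Nat.card (MulAction.stabilizer P u) ∣ Nat.card (MulAction.stabilizer Γ u) := by
    have hle : (MulAction.stabilizer P u).map (P : Subgroup Γ).subtype ≤
        MulAction.stabilizer Γ u := by
      rintro _ ⟨g, hg, rfl⟩
      exact hg
    have h5 := Subgroup.card_dvd_of_le hle
    rwa [Subgroup.card_map_of_injective (P : Subgroup Γ).subtype_injective] at h5
  have h6 : Nat.card (MulAction.stabilizer P u) ∣ Nat.card P :=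
    Subgroup.card_subgroup_dvd_card _
  rw [h3] at h6
  obtain ⟨j, hjk, hj⟩ := (Nat.dvd_prime_pow hp.out).1 h6
  have h7 : p ^ (a + j) ∣ Nat.card Γ := by
    rw [pow_add, ← h2, mul_comm (Nat.card _) (Nat.card V)]
    exact mul_dvd_mul h (hj ▸ h4)
  have h8 : a + j ≤ (Nat.card Γ).factorization p :=
    (hp.out.pow_dvd_iff_le_factorization hne).1 h7
  have h9 : (MulAction.orbit P u).ncard * p ^ j = p ^ ((Nat.card Γ).factorization p) := by
    have := (MulAction.stabilizer P u).card_mul_index
    rw [MulAction.index_stabilizer, hj, h3] at this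
    rw [mul_comm]; exact this
  refine ⟨(Nat.card Γ).factorization p - j, by omega, ?_⟩
  apply Nat.eq_of_mul_eq_mul_right (pow_pos hp.out.pos j)
  rw [h9, ← pow_add]
  congr 1
  omega

/-- a finite set of odd size has no fixed point free involution -/
theorem even_of_involution {V : Type*} (O : Set V) (hO : O.Finite) (s : V → V)
    (h1 : ∀ v ∈ O, s v ∈ O) (h2 : ∀ v, s v ≠ v) (h3 : ∀ v, s (s v) = v) : Even O.ncard := by
  classical
  rw [Set.ncard_eq_toFinset_card O hO]
  have h : ((hO.toFinset.card : ℕ) : ZMod 2) = 0 := by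
    have := Finset.sum_involution (s := hO.toFinset) (f := fun _ => (1 : ZMod 2))
      (fun v _ => s v) (fun v _ => by decide) (fun v _ _ => h2 v)
      (fun v hv => by
        rw [Set.Finite.mem_toFinset] at hv ⊢
        exact h1 v hv) (fun v _ => h3 v)
    simpa using this
  rwa [ZMod.natCast_eq_zero_iff_even] at h

/-- `2 p ^ a` vertices and a central fixed point free involution -/
theorem hasUPS_of_central {V : Type*} [Finite V] {G : SimpleGraph V} (hG : G.Connected)
    (hT : VT G) {p a : ℕ} (hp : p.Prime) (hp2 : p ≠ 2) (hcard : Nat.card V = 2 * p ^ a)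
    (s : G ≃g G) (hs : ∀ (φ : G ≃g G) (v : V), φ (s v) = s (φ v)) (h2 : ∀ v, s v ≠ v)
    (h3 : ∀ v, s (s v) = v) : HasUPS G := by
  have := Fact.mk hp
  have : Finite (G ≃g G) :=
    Finite.of_injective (fun φ : G ≃g G => (φ : V → V)) DFunLike.coe_injective
  have : MulAction.IsPretransitive (G ≃g G) V := ⟨fun u v => hT u v⟩
  obtain ⟨P⟩ : Nonempty (Sylow p (G ≃g G)) := inferInstance
  have : Group.IsNilpotent (P : Subgroup (G ≃g G)) := P.isPGroup'.isNilpotent
  have : Group.IsNilpotent (Subgroup.zpowers s) :=
    ⟨1, Subgroup.upperCentralSeries_one_eq_top_iff.2 inferInstance⟩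
  have hdvd : p ^ a ∣ Nat.card V := by rw [hcard]; exact dvd_mul_left _ _
  have hcomm : ∀ (m : (P : Subgroup (G ≃g G))) (n : Subgroup.zpowers s),
      Commute ((P : Subgroup (G ≃g G)).subtype m) ((Subgroup.zpowers s).subtype n) := by
    rintro m ⟨n, k, rfl⟩
    have h : Commute (m : G ≃g G) s := by
      ext v
      exact hs m v
    exact h.zpow_right k
  let f := MonoidHom.noncommCoprod (P : Subgroup (G ≃g G)).subtype (Subgroup.zpowers s).subtype
    hcomm
  have : Group.IsNilpotent f.range :=
    Group.nilpotent_of_surjective f.rangeRestrict f.rangeRestrict_surjective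
  have hsr : s ∈ f.range := ⟨(1, ⟨s, Subgroup.mem_zpowers s⟩), by simp [f]⟩
  have hPr : ∀ g ∈ (P : Subgroup (G ≃g G)), g ∈ f.range := fun g hg =>
    ⟨(⟨g, hg⟩, 1), by simp [f]⟩
  refine hasUPS_of_nilpotent hG f.range ?_
  intro u v
  have hodd : ∀ b : ℕ, ¬ Even (p ^ b) := by
    intro b hb
    rw [Nat.even_pow] at hb
    exact hp2 ((Nat.Prime.even_iff hp).1 hb.1)
  -- `s` moves `u` out of its orbit
  have hsu : s u ∉ MulAction.orbit P u := by
    intro hmem
    obtain ⟨b, _, hb⟩ := sylow_orbit hdvd P u
    apply hodd b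
    rw [← hb]
    refine even_of_involution _ (Set.toFinite _) s ?_ h2 h3
    rintro _ ⟨g, rfl⟩
    obtain ⟨k, hk⟩ := hmem
    refine ⟨g * k, ?_⟩
    have e1 : (g * k) • u = (g : G ≃g G) ((k : G ≃g G) u) := rfl
    have e2 : (k : G ≃g G) u = s u := hk
    have e3 : s (g • u) = s ((g : G ≃g G) u) := rfl
    change (g * k) • u = s (g • u)
    rw [e1, e2, e3]
    exact hs _ _
  by_cases hv : v ∈ MulAction.orbit P u
  · obtain ⟨g, hg⟩ := hv
    exact ⟨g, hPr _ g.2, hg⟩
  -- `v` lies in the orbit of `s u`
  · have hv' : v ∈ MulAction.orbit P (s u) := by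
      by_contra hcon
      obtain ⟨b1, hb1, hc1⟩ := sylow_orbit hdvd P u
      obtain ⟨b2, hb2, hc2⟩ := sylow_orbit hdvd P (s u)
      obtain ⟨b3, hb3, hc3⟩ := sylow_orbit hdvd P v
      have hdis : ∀ w w' : V, w' ∉ MulAction.orbit P w →
          Disjoint (MulAction.orbit P w) (MulAction.orbit P w') := by
        intro w w' h
        rw [Set.disjoint_left]
        intro z hz hz'
        apply h
        rw [← MulAction.orbit_eq_iff] at hz hz' ⊢
        rw [← hz', hz]
      have d1 := hdis _ _ hsu
      have d2 := hdis _ _ hv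
      have d3 := hdis _ _ hcon
      have e1 := Set.ncard_union_eq d1 (Set.toFinite _) (Set.toFinite _)
      have e2 := Set.ncard_union_eq (s := MulAction.orbit P u ∪ MulAction.orbit P (s u))
        (t := MulAction.orbit P v) (Set.disjoint_union_left.2 ⟨d2, d3⟩) (Set.toFinite _)
        (Set.toFinite _)
      have e3 := Set.ncard_le_card (MulAction.orbit P u ∪ MulAction.orbit P (s u) ∪
        MulAction.orbit P v)
      have f1 := Nat.pow_le_pow_right hp.pos hb1
      have f2 := Nat.pow_le_pow_right hp.pos hb2
      have f3 := Nat.pow_le_pow_right hp.pos hb3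
      have f4 : 0 < p ^ a := pow_pos hp.pos a
      rw [e2, e1, hc1, hc2, hc3, hcard] at e3
      omega
    obtain ⟨g, hg⟩ := hv'
    refine ⟨g * s, f.range.mul_mem (hPr _ g.2) hsr, ?_⟩
    exact hg

/-- automorphisms preserve distances -/
theorem dist_iso {V : Type*} {G : SimpleGraph V} (hG : G.Connected) (φ : G ≃g G) (x y : V) :
    G.dist (φ x) (φ y) = G.dist x y := by
  have key : ∀ (ψ : G ≃g G) (x y : V), G.dist (ψ x) (ψ y) ≤ G.dist x y := by
    intro ψ x y
    obtain ⟨w, hw⟩ := hG.exists_walk_length_eq_dist x y
    rw [← hw, ← w.length_map ψ.toHom]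
    exact SimpleGraph.dist_le _
  apply le_antisymm (key φ x y)
  have := key φ.symm (φ x) (φ y)
  rwa [φ.symm_apply_apply, φ.symm_apply_apply] at this

/-- unique antipodes at distance `D` whose neighbourhood contains the level `D - 1` -/
theorem hasUPS_of_antipode {V : Type*} [Finite V] {G : SimpleGraph V} (hG : G.Connected)
    (hT : VT G) {p a D : ℕ} (hp : p.Prime) (hp2 : p ≠ 2) (hcard : Nat.card V = 2 * p ^ a)
    (hD : 0 < D) (hle : ∀ x y, G.dist x y ≤ D)
    (h1 : ∀ x, ∃ y, G.dist x y = D) (h1' : ∀ x y z, G.dist x y = D → G.dist x z = D → y = z)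
    (h2 : ∀ x y z, G.dist x y = D → G.dist x z = D - 1 → G.Adj y z) : HasUPS G := by
  choose s hs using h1
  have hss : ∀ x, s (s x) = x := fun x =>
    h1' (s x) _ _ (hs (s x)) (by rw [SimpleGraph.dist_comm]; exact hs x)
  have hadj : ∀ u v, G.Adj u v → G.Adj (s u) (s v) := by
    intro u v huv
    apply h2 u _ _ (hs u)
    have e1 := hle u (s v)
    have e2 : D ≤ G.dist u (s v) + 1 := by
      rw [← hs v]
      calc G.dist v (s v) ≤ G.dist v u + G.dist u (s v) := hG.dist_triangle
        _ = 1 + G.dist u (s v) := by rw [SimpleGraph.dist_eq_one_iff_adj.2 huv.symm]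
        _ = G.dist u (s v) + 1 := by ring
    have e3 : G.dist u (s v) ≠ D := by
      intro h
      have := h1' u _ _ h (hs u)
      have h5 : v = u := by rw [← hss v, this, hss]
      exact huv.ne h5.symm
    omega
  let S : G ≃g G :=
    { toFun := s
      invFun := s
      left_inv := hss
      right_inv := hss
      map_rel_iff' := by
        intro u v
        refine ⟨fun h => ?_, hadj u v⟩
        have := hadj _ _ h
        change G.Adj (s (s u)) (s (s v)) at this
        rwa [hss, hss] at this }
  refine hasUPS_of_central hG hT hp hp2 hcard S ?_ ?_ hss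
  · intro φ v
    refine h1' (φ v) _ _ ?_ (hs (φ v))
    rw [dist_iso hG]
    exact hs v
  · intro v h
    have h' : s v = v := h
    have := hs v
    rw [h', SimpleGraph.dist_self] at this
    omega

open Finset Atoms in
/-- `2 + (D - 1) d` vertices, connectivity `d`, diameter at least `D` -/
theorem hasUPS_of_extremal {V : Type*} [Fintype V] [DecidableEq V] {G : SimpleGraph V}
    [DecidableRel G.Adj] (hG : G.Connected) (hT : VT G) {p a D d : ℕ} (hp : p.Prime)
    (hp2 : p ≠ 2) (hcard : Fintype.card V = 2 * p ^ a) (hcard' : Fintype.card V = 2 + (D - 1) * d)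
    (hD : 2 ≤ D) (hreg : ∀ v, (univ.filter fun w => G.Adj v w).card = d) (hL : Lower G d)
    (hdiam : ∃ x y, D ≤ G.dist x y) : HasUPS G := by
  -- all levels
  let L : V → ℕ → Finset V := fun x i => univ.filter fun y => G.dist x y = i
  have hfar : ∀ x, ∃ y, D ≤ G.dist x y := by
    obtain ⟨x₀, y₀, h⟩ := hdiam
    intro x
    obtain ⟨φ, hφ⟩ := hT x₀ x
    exact ⟨φ y₀, by rw [← hφ, dist_iso hG]; exact h⟩
  -- points on a geodesic
  have hlev : ∀ x y, ∀ i ≤ G.dist x y, ∃ z, G.dist x z = i := by
    intro x y
    obtain ⟨w, hw⟩ := hG.exists_walk_length_eq_dist x y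
    intro i hi
    refine ⟨w.getVert i, ?_⟩
    have e1 : G.dist x (w.getVert i) ≤ i := by
      have := SimpleGraph.dist_le (w.take i)
      rw [SimpleGraph.Walk.take_length] at this
      exact this.trans (min_le_left _ _)
    have e2 : G.dist (w.getVert i) y ≤ G.dist x y - i := by
      have := SimpleGraph.dist_le (w.drop i)
      rw [SimpleGraph.Walk.drop_length, hw] at this
      exact this
    have e3 : G.dist x y ≤ G.dist x (w.getVert i) + G.dist (w.getVert i) y := hG.dist_triangle
    omega
  have hlarge : ∀ x i, 1 ≤ i → (∃ y, G.dist x y = i + 1) → d ≤ (L x i).card := by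
    intro x i hi hy
    have hb : bd G (univ.filter fun y => G.dist x y ≤ i - 1) ⊆ L x i := by
      intro v hv
      rw [mem_bd] at hv
      obtain ⟨hv1, u, hu, huv⟩ := hv
      simp only [mem_filter, mem_univ, true_and, not_le] at hv1 hu
      simp only [L, mem_filter, mem_univ, true_and]
      have : G.dist x v ≤ G.dist x u + G.dist u v := hG.dist_triangle
      rw [SimpleGraph.dist_eq_one_iff_adj.2 huv] at this
      omega
    refine (hL _ ⟨x, by simp⟩ ?_).trans (card_le_card hb)
    obtain ⟨y, hy⟩ := hy
    refine ⟨y, mem_far.2 ⟨?_, ?_⟩⟩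
    · simp only [mem_filter, mem_univ, true_and]; omega
    · intro u hu huy
      simp only [mem_filter, mem_univ, true_and] at hu
      have : G.dist x y ≤ G.dist x u + G.dist u y := hG.dist_triangle
      rw [SimpleGraph.dist_eq_one_iff_adj.2 huy] at this
      omega
  have hL0 : ∀ x, (L x 0).card = 1 := by
    intro x
    rw [card_eq_one]
    refine ⟨x, ?_⟩
    ext y
    simp only [L, mem_filter, mem_univ, true_and, mem_singleton]
    rw [hG.dist_eq_zero_iff]
    exact eq_comm
  -- disjointness of the levels
  have hsum : ∀ x (m : ℕ), ∑ i ∈ range m, (L x i).card =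
      (univ.filter fun y => G.dist x y < m).card := by
    intro x m
    induction m with
    | zero => simp
    | succ m ih =>
      rw [sum_range_succ, ih, ← card_union_of_disjoint]
      · congr 1
        ext y
        simp only [L, mem_union, mem_filter, mem_univ, true_and]
        omega
      · rw [Finset.disjoint_left]
        intro y hy hy'
        simp only [L, mem_filter, mem_univ, true_and] at hy hy'
        omega
  -- the count
  have hcount : ∀ x, (univ.filter fun y => G.dist x y < D).card ≤ Fintype.card V - 1 := by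
    intro x
    obtain ⟨y, hy⟩ := hfar x
    have : (univ.filter fun y => G.dist x y < D) ⊆ univ.erase y := by
      intro z hz
      simp only [mem_filter, mem_univ, true_and] at hz
      rw [mem_erase]
      refine ⟨?_, mem_univ _⟩
      rintro rfl
      omega
    have := card_le_card this
    rwa [card_erase_of_mem (mem_univ _), card_univ] at this
  have hlow : ∀ x, ∀ i ∈ range (D - 1), d ≤ (L x (i + 1)).card := by
    intro x i hi
    rw [mem_range] at hi
    obtain ⟨y, hy⟩ := hfar x
    exact hlarge x (i + 1) (by omega) (hlev x y (i + 1 + 1) (by omega))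
  have htot : ∀ x, ∑ i ∈ range (D - 1), (L x (i + 1)).card + 1 =
      (univ.filter fun y => G.dist x y < D).card := by
    intro x
    rw [← hsum, show D = (D - 1) + 1 by omega, sum_range_succ', hL0]
    simp
  have heq : ∀ x, ∀ i ∈ range (D - 1), d = (L x (i + 1)).card := by
    intro x
    apply (sum_eq_sum_iff_of_le (hlow x)).1
    apply le_antisymm (sum_le_sum (hlow x))
    have h1 := htot x
    have h2 := hcount x
    rw [sum_const, card_range, smul_eq_mul]
    omega
  have hcard2 : ∀ x, (univ.filter fun y => G.dist x y < D).card = Fintype.card V - 1 := by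
    intro x
    rw [← htot, ← sum_congr rfl (heq x), sum_const, card_range, smul_eq_mul]
    omega
  -- exactly one vertex is not at distance less than `D`
  have hone : ∀ x, (univ.filter fun y => D ≤ G.dist x y).card = 1 := by
    intro x
    have h := card_filter_add_card_filter_not (s := (univ : Finset V))
      (fun y => G.dist x y < D)
    simp only [not_lt] at h
    rw [hcard2, card_univ] at h
    omega
  have hle : ∀ x y, G.dist x y ≤ D := by
    intro x y
    by_contra hcon
    push Not at hcon
    obtain ⟨z, hz⟩ := hlev x y D hcon.le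
    have h := card_le_one.1 (hone x).le
    have : y = z := h y (by simp; omega) z (by simp; omega)
    subst this
    omega
  have huniq : ∀ x y z, G.dist x y = D → G.dist x z = D → y = z := by
    intro x y z hy hz
    exact card_le_one.1 (hone x).le y (by simp; omega) z (by simp; omega)
  refine hasUPS_of_antipode hG hT hp hp2 (by rw [Nat.card_eq_fintype_card]; exact hcard)
    (by omega) hle ?_ huniq ?_
  · intro x
    obtain ⟨y, hy⟩ := hfar x
    exact ⟨y, le_antisymm (hle x y) hy⟩
  · intro x y z hy hz
    have hN : (univ.filter fun w => G.Adj y w) ⊆ L x (D - 1) := by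
      intro w hw
      simp only [mem_filter, mem_univ, true_and] at hw
      simp only [L, mem_filter, mem_univ, true_and]
      have h1 : G.dist x y ≤ G.dist x w + G.dist w y := hG.dist_triangle
      rw [SimpleGraph.dist_eq_one_iff_adj.2 hw.symm] at h1
      have h2 := hle x w
      have h3 : G.dist x w ≠ D := by
        intro h
        exact hw.ne (huniq x y w hy h)
      omega
    have hc : (L x (D - 1)).card ≤ (univ.filter fun w => G.Adj y w).card := by
      rw [hreg]
      have := heq x (D - 2) (mem_range.2 (by omega))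
      rw [show D - 2 + 1 = D - 1 by omega] at this
      exact this.ge
    have h4 := Finset.eq_of_subset_of_card_le hN hc
    have h5 : z ∈ univ.filter fun w => G.Adj y w := by
      rw [h4]
      simp only [L, mem_filter, mem_univ, true_and]
      exact hz
    simpa using h5

open Finset in
/-- 14 vertices, degree 4, diameter at least 4 -/
theorem hasUPS_card14_diam4 {V : Type*} [Fintype V] [DecidableEq V] {G : SimpleGraph V}
    [DecidableRel G.Adj] (hG : G.Connected) (hT : VT G) (hcard : Fintype.card V = 14)
    (hreg : ∀ v, (univ.filter fun w => G.Adj v w).card = 4)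
    (hdiam : ∃ x y, 4 ≤ G.dist x y) : HasUPS G :=
  hasUPS_of_extremal hG hT (p := 7) (a := 1) (D := 4) (d := 4) (by norm_num) (by norm_num)
    (by rw [hcard]; norm_num) (by rw [hcard]) (by norm_num) hreg
    (Atoms.lower_four hG hT hreg) hdiam

open Finset in
/-- 18 vertices, degree 4, diameter at least 5 -/
theorem hasUPS_card18_diam5 {V : Type*} [Fintype V] [DecidableEq V] {G : SimpleGraph V}
    [DecidableRel G.Adj] (hG : G.Connected) (hT : VT G) (hcard : Fintype.card V = 18)
    (hreg : ∀ v, (univ.filter fun w => G.Adj v w).card = 4)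
    (hdiam : ∃ x y, 5 ≤ G.dist x y) : HasUPS G :=
  hasUPS_of_extremal hG hT (p := 3) (a := 2) (D := 5) (d := 4) (by norm_num) (by norm_num)
    (by rw [hcard]; norm_num) (by rw [hcard]) (by norm_num) hreg
    (Atoms.lower_four hG hT hreg) hdiam

end Pool.Agent.UPS
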