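import Pool.Agent.Lib.MP_876e19_co_ups.Galvin

/-!
# Bipartite graphs: integral edge multiplicities, splitting, lists (helper16, TT876)

`t : Sym2 V → ℕ` are multiplicities of the edges of a bipartite graph, `side : V → Bool` gives the
two classes.

* `galvin_lists`: distribution of the edges on roots (bipartite form of `Toggle.greedy`, with lists
  of size `Δ` instead of `2 Δ`).
* `split_mult`: `t = t₁ + t₂` with degrees at most `Δ₁`, `Δ₂`.
* `exists_mult`: multiplicities with given degrees from the Hall condition.
-/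

set_option autoImplicit false

open Finset

namespace Pool.Agent.UPS3

variable {V X : Type*}

/-- degree of `v` in the multigraph `t` -/
def mdeg [Fintype V] [DecidableEq V] (t : Sym2 V → ℕ) (v : V) : ℕ :=
  ∑ e ∈ univ.filter (fun e : Sym2 V => v ∈ e), t e

/-- the multigraph `t` is bipartite with respect to `side` -/
def Sided (side : V → Bool) (t : Sym2 V → ℕ) : Prop :=
  ∀ e, t e ≠ 0 → ∃ u v, e = s(u, v) ∧ side u = true ∧ side v = false

section

variable [Fintype V] [DecidableEq V] {side : V → Bool} {t : Sym2 V → ℕ}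

/-- the copies of the edges -/
abbrev Cop (t : Sym2 V → ℕ) : Type _ := Σ e : Sym2 V, Fin (t e)

omit [Fintype V] [DecidableEq V] in
lemma Cop.ne (p : Cop t) : t p.1 ≠ 0 := p.2.pos.ne'

/-- ends of a copy -/
noncomputable def endA (h : Sided side t) (p : Cop t) : V := (h p.1 p.ne).choose

/-- ends of a copy -/
noncomputable def endB (h : Sided side t) (p : Cop t) : V := (h p.1 p.ne).choose_spec.choose

omit [Fintype V] [DecidableEq V] in
lemma end_spec (h : Sided side t) (p : Cop t) :
    p.1 = s(endA h p, endB h p) ∧ side (endA h p) = true ∧ side (endB h p) = false :=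
  (h p.1 p.ne).choose_spec.choose_spec

omit [Fintype V] [DecidableEq V] in
lemma mem_iff_end (h : Sided side t) (p : Cop t) (v : V) :
    v ∈ p.1 ↔ (endA h p = v ∨ endB h p = v) := by
  obtain ⟨h1, _, _⟩ := end_spec h p
  constructor
  · intro hv
    rw [h1, Sym2.mem_iff] at hv
    rcases hv with hv | hv
    · exact Or.inl hv.symm
    · exact Or.inr hv.symm
  · intro hv
    rw [h1, Sym2.mem_iff]
    rcases hv with hv | hv
    · exact Or.inl hv.symm
    · exact Or.inr hv.symm

omit [Fintype V] [DecidableEq V] in
lemma share_end (h : Sided side t) (p q : Cop t) (v : V) (hp : v ∈ p.1) (hq : v ∈ q.1) :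
    endA h p = endA h q ∨ endB h p = endB h q := by
  rw [mem_iff_end h] at hp hq
  obtain ⟨_, a1, a2⟩ := end_spec h p
  obtain ⟨_, b1, b2⟩ := end_spec h q
  rcases hp with hp | hp <;> rcases hq with hq | hq
  · exact Or.inl (hp.trans hq.symm)
  · exfalso
    rw [hp, ← hq, b2] at a1
    exact absurd a1 (by simp)
  · exfalso
    rw [hq, ← hp, a2] at b1
    exact absurd b1 (by simp)
  · exact Or.inr (hp.trans hq.symm)

lemma card_copies (v : V) :
    (univ.filter fun p : Cop t => v ∈ p.1).card = mdeg t v := by
  have : (univ.filter fun p : Cop t => v ∈ p.1) =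
      (univ.filter (fun e : Sym2 V => v ∈ e)).sigma fun e => (univ : Finset (Fin (t e))) := by
    ext p
    simp
  rw [this, card_sigma]
  simp [mdeg]

lemma endA_le (h : Sided side t) (v : V) :
    (univ.filter fun p : Cop t => endA h p = v).card ≤ mdeg t v := by
  rw [← card_copies]
  refine card_le_card fun p hp => ?_
  rw [mem_filter] at hp ⊢
  exact ⟨mem_univ _, (mem_iff_end h p v).2 (Or.inl hp.2)⟩

lemma endB_le (h : Sided side t) (v : V) :
    (univ.filter fun p : Cop t => endB h p = v).card ≤ mdeg t v := by
  rw [← card_copies]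
  refine card_le_card fun p hp => ?_
  rw [mem_filter] at hp ⊢
  exact ⟨mem_univ _, (mem_iff_end h p v).2 (Or.inr hp.2)⟩

/-- Bipartite form of `Toggle.greedy`: lists of size `Δ` are enough. -/
theorem galvin_lists [DecidableEq X] [Nonempty X] (h : Sided side t) (L : Sym2 V → Finset X)
    (Δ : ℕ) (hΔ : ∀ v, mdeg t v ≤ Δ) (hL : ∀ e, t e ≠ 0 → Δ ≤ (L e).card) :
    ∃ R : Sym2 V → Finset X, (∀ e, R e ⊆ L e ∧ (R e).card = t e) ∧
      ∀ e f, e ≠ f → ∀ v, v ∈ e → v ∈ f → Disjoint (R e) (R f) := by
  classical
  obtain ⟨col, hcol, hprop⟩ := galvin (endA h) (endB h) Δ (univ : Finset (Cop t))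
    (fun v => (endA_le h v).trans (hΔ v)) (fun v => (endB_le h v).trans (hΔ v))
    (fun p => L p.1) (fun p _ => hL p.1 p.ne)
  refine ⟨fun e => univ.image fun i : Fin (t e) => col ⟨e, i⟩, fun e => ⟨?_, ?_⟩, ?_⟩
  · intro x hx
    obtain ⟨i, _, rfl⟩ := mem_image.1 hx
    exact hcol ⟨e, i⟩ (mem_univ _)
  · rw [card_image_of_injective, card_univ, Fintype.card_fin]
    intro i j hij
    by_contra hne
    have h1 : (⟨e, i⟩ : Cop t) ≠ ⟨e, j⟩ := by
      intro heq
      rw [Sigma.mk.injEq] at heq
      exact hne (eq_of_heq heq.2)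
    have h2 : endA h ⟨e, i⟩ ∈ e := (mem_iff_end h ⟨e, i⟩ _).2 (Or.inl rfl)
    exact hprop ⟨e, i⟩ (mem_univ _) ⟨e, j⟩ (mem_univ _) h1 (share_end h _ _ _ h2 h2) hij
  · intro e f hef v hve hvf
    rw [disjoint_left]
    intro x hx hx'
    obtain ⟨i, _, hi⟩ := mem_image.1 hx
    obtain ⟨j, _, hj⟩ := mem_image.1 hx'
    have h1 : (⟨e, i⟩ : Cop t) ≠ ⟨f, j⟩ := by
      intro heq
      rw [Sigma.mk.injEq] at heq
      exact hef heq.1
    exact hprop ⟨e, i⟩ (mem_univ _) ⟨f, j⟩ (mem_univ _) h1 (share_end h _ _ v hve hvf)
      (hi.trans hj.symm)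

/-- Splitting of a bipartite multigraph. -/
theorem split_mult (h : Sided side t) (Δ₁ Δ₂ : ℕ) (hΔ : ∀ v, mdeg t v ≤ Δ₁ + Δ₂) :
    ∃ t₁ t₂ : Sym2 V → ℕ, (∀ e, t₁ e + t₂ e = t e) ∧ (∀ v, mdeg t₁ v ≤ Δ₁) ∧
      ∀ v, mdeg t₂ v ≤ Δ₂ := by
  classical
  obtain ⟨c, hc, hprop⟩ := konig (endA h) (endB h) (Δ₁ + Δ₂) (univ : Finset (Cop t))
    (fun v => (endA_le h v).trans (hΔ v)) (fun v => (endB_le h v).trans (hΔ v))
  have hdeg : ∀ (Q : Cop t → Prop) [DecidablePred Q] (v : V),
      mdeg (fun e => (univ.filter fun i : Fin (t e) => Q ⟨e, i⟩).card) v =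
        (univ.filter fun p : Cop t => v ∈ p.1 ∧ Q p).card := by
    intro Q _ v
    have : (univ.filter fun p : Cop t => v ∈ p.1 ∧ Q p) =
        (univ.filter (fun e : Sym2 V => v ∈ e)).sigma fun e =>
          (univ.filter fun i : Fin (t e) => Q ⟨e, i⟩) := by
      ext p
      simp
    rw [this, card_sigma]
    rfl
  have hinj : ∀ (v : V) (p q : Cop t), v ∈ p.1 → v ∈ q.1 → c p = c q → p = q := by
    intro v p q hp hq hpq
    by_contra hne
    exact hprop p (mem_univ _) q (mem_univ _) hne (share_end h _ _ v hp hq) hpq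
  refine ⟨fun e => (univ.filter fun i : Fin (t e) => c ⟨e, i⟩ < Δ₁).card,
    fun e => (univ.filter fun i : Fin (t e) => ¬ c ⟨e, i⟩ < Δ₁).card, fun e => ?_,
    fun v => ?_, fun v => ?_⟩
  · rw [card_filter_add_card_filter_not, card_univ, Fintype.card_fin]
  · rw [hdeg (fun p => c p < Δ₁)]
    calc (univ.filter fun p : Cop t => v ∈ p.1 ∧ c p < Δ₁).card ≤ (range Δ₁).card := by
          refine card_le_card_of_injOn c (fun p hp => ?_) (fun p hp q hq hpq => ?_)
          · rw [mem_coe, mem_filter] at hp
            rw [mem_coe, mem_range]; exact hp.2.2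
          · rw [mem_coe, mem_filter] at hp hq
            exact hinj v p q hp.2.1 hq.2.1 hpq
      _ = Δ₁ := card_range _
  · rw [hdeg (fun p => ¬ c p < Δ₁)]
    calc (univ.filter fun p : Cop t => v ∈ p.1 ∧ ¬ c p < Δ₁).card ≤
          (Ico Δ₁ (Δ₁ + Δ₂)).card := by
          refine card_le_card_of_injOn c (fun p hp => ?_) (fun p hp q hq hpq => ?_)
          · rw [mem_coe, mem_filter] at hp
            rw [mem_coe, mem_Ico]; exact ⟨not_lt.1 hp.2.2, hc p (mem_univ _)⟩
          · rw [mem_coe, mem_filter] at hp hq
            exact hinj v p q hp.2.1 hq.2.1 hpq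
      _ = Δ₂ := by simp

end

section

variable [Fintype V] [DecidableEq V]

lemma card_fiber (D : V → ℕ) (v : V) :
    (univ.filter fun q : Σ u : V, Fin (D u) => q.1 = v).card = D v := by
  have : (univ.filter fun q : Σ u : V, Fin (D u) => q.1 = v) =
      ({v} : Finset V).sigma fun u => (univ : Finset (Fin (D u))) := by
    ext q
    simp
  rw [this, card_sigma, sum_singleton, card_univ, Fintype.card_fin]

/-- Multiplicities with prescribed degrees from the Hall condition. -/
theorem exists_mult (G : SimpleGraph V) [DecidableRel G.Adj] (side : V → Bool)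
    (hside : ∀ u v, G.Adj u v → side u ≠ side v) (D : V → ℕ)
    (hall : ∀ S : Finset V, (∀ u ∈ S, side u = true) →
      ∑ u ∈ S, D u ≤ ∑ v ∈ univ.filter (fun v => ∃ u ∈ S, G.Adj u v), D v)
    (htot : ∑ u with side u = true, D u = ∑ v with side v = false, D v) :
    ∃ t : Sym2 V → ℕ, (∀ e, t e ≠ 0 → e ∈ G.edgeSet) ∧ ∀ v, mdeg t v = D v := by
  classical
  let ι := {p : Σ u : V, Fin (D u) // side p.1 = true}
  let T : ι → Finset (Σ v : V, Fin (D v)) := fun p => univ.filter fun q => G.Adj p.1.1 q.1
  have hH : ∀ s : Finset ι, s.card ≤ (s.biUnion T).card := by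
    intro s
    let S : Finset V := s.image fun p => p.1.1
    have h1 : s.card ≤ ∑ u ∈ S, D u := by
      have : s.card = (s.image fun p => p.1).card :=
        (card_image_of_injective _ Subtype.val_injective).symm
      rw [this]
      calc (s.image fun p => p.1).card ≤
          (S.sigma fun u => (univ : Finset (Fin (D u)))).card := by
            refine card_le_card fun q hq => ?_
            obtain ⟨p, hp, rfl⟩ := mem_image.1 hq
            rw [mem_sigma]
            exact ⟨mem_image.2 ⟨p, hp, rfl⟩, mem_univ _⟩
        _ = ∑ u ∈ S, D u := by rw [card_sigma]; simp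
    have h2 : s.biUnion T = (univ.filter (fun v => ∃ u ∈ S, G.Adj u v)).sigma
        fun v => (univ : Finset (Fin (D v))) := by
      ext q
      simp only [mem_biUnion, T, mem_filter, mem_univ, true_and, mem_sigma, and_true, S,
        mem_image, exists_exists_and_eq_and]
    rw [h2, card_sigma]
    simp only [card_univ, Fintype.card_fin]
    refine h1.trans (hall S ?_)
    intro u hu
    obtain ⟨p, _, rfl⟩ := mem_image.1 hu
    exact p.2
  obtain ⟨f, hinj, hf⟩ := (all_card_le_biUnion_card_iff_exists_injective T).1 hH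
  have hadj : ∀ p : ι, G.Adj p.1.1 (f p).1 := fun p => (mem_filter.1 (hf p)).2
  have hfside : ∀ p : ι, side (f p).1 = false := by
    intro p
    have h1 := hside _ _ (hadj p)
    rw [p.2] at h1
    simpa using h1.symm
  have hcardι : (univ : Finset ι).card = ∑ u with side u = true, D u := by
    have h1 : (univ : Finset ι).card =
        (univ.filter fun q : Σ u : V, Fin (D u) => side q.1 = true).card := by
      rw [card_univ, Fintype.card_subtype]
    rw [h1]
    have : (univ.filter fun q : Σ u : V, Fin (D u) => side q.1 = true) =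
        (univ.filter fun u : V => side u = true).sigma
          fun u => (univ : Finset (Fin (D u))) := by
      ext q; simp
    rw [this, card_sigma]
    simp
  have hcardα : (univ.filter fun q : Σ u : V, Fin (D u) => side q.1 = false).card =
      ∑ u with side u = false, D u := by
    have : (univ.filter fun q : Σ u : V, Fin (D u) => side q.1 = false) =
        (univ.filter fun u : V => side u = false).sigma
          fun u => (univ : Finset (Fin (D u))) := by
      ext q; simp
    rw [this, card_sigma]
    simp
  have himg : (univ : Finset ι).image f =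
      univ.filter fun q : Σ u : V, Fin (D u) => side q.1 = false := by
    refine eq_of_subset_of_card_le ?_ ?_
    · intro q hq
      obtain ⟨p, _, rfl⟩ := mem_image.1 hq
      exact mem_filter.2 ⟨mem_univ _, hfside p⟩
    · rw [card_image_of_injective _ hinj, hcardι, hcardα, htot]
  refine ⟨fun e => (univ.filter fun p : ι => s(p.1.1, (f p).1) = e).card, ?_, ?_⟩
  · intro e he
    obtain ⟨p, hp⟩ := card_pos.1 (Nat.pos_of_ne_zero he)
    rw [← (mem_filter.1 hp).2]
    exact hadj p
  · intro v
    have h1 : mdeg (fun e => (univ.filter fun p : ι => s(p.1.1, (f p).1) = e).card) v =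
        (univ.filter fun p : ι => v ∈ s(p.1.1, (f p).1)).card := by
      rw [mdeg, card_eq_sum_card_fiberwise (f := fun p : ι => s(p.1.1, (f p).1))
        (t := univ.filter fun e : Sym2 V => v ∈ e)]
      · refine sum_congr rfl fun e he => ?_
        congr 1
        ext p
        simp only [mem_filter, mem_univ, true_and]
        constructor
        · intro h
          exact ⟨h ▸ (mem_filter.1 he).2, h⟩
        · exact fun h => h.2
      · intro p hp
        rw [mem_coe, mem_filter] at hp ⊢
        exact ⟨mem_univ _, hp.2⟩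
    rw [h1]
    cases hv : side v with
    | true =>
      have h2 : (univ.filter fun p : ι => v ∈ s(p.1.1, (f p).1)).card =
          (univ.filter fun q : Σ u : V, Fin (D u) => q.1 = v).card := by
        refine card_bij (fun p _ => p.1) ?_ ?_ ?_
        · intro p hp
          rw [mem_filter, Sym2.mem_iff] at hp
          rw [mem_filter]
          refine ⟨mem_univ _, ?_⟩
          rcases hp.2 with h | h
          · exact h.symm
          · exfalso
            have := hfside p
            rw [← h, hv] at this
            exact absurd this (by simp)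
        · intro p _ q _ hpq
          exact Subtype.ext hpq
        · intro q hq
          rw [mem_filter] at hq
          have hq' : side q.1 = true := by rw [hq.2]; exact hv
          exact ⟨⟨q, hq'⟩, mem_filter.2 ⟨mem_univ _, Sym2.mem_iff.2 (Or.inl hq.2.symm)⟩, rfl⟩
      rw [h2, card_fiber]
    | false =>
      have h2 : (univ.filter fun p : ι => v ∈ s(p.1.1, (f p).1)).card =
          (univ.filter fun q : Σ u : V, Fin (D u) => q.1 = v).card := by
        refine card_bij (fun p _ => f p) ?_ ?_ ?_
        · intro p hp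
          rw [mem_filter, Sym2.mem_iff] at hp
          rw [mem_filter]
          refine ⟨mem_univ _, ?_⟩
          rcases hp.2 with h | h
          · exfalso
            have := p.2
            rw [← h, hv] at this
            exact absurd this (by simp)
          · exact h.symm
        · intro p _ q _ hpq
          exact hinj hpq
        · intro q hq
          rw [mem_filter] at hq
          have hq' : q ∈ (univ : Finset ι).image f := by
            rw [himg, mem_filter]
            refine ⟨mem_univ _, ?_⟩
            rw [hq.2]; exact hv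
          obtain ⟨p, _, hp⟩ := mem_image.1 hq'
          refine ⟨p, mem_filter.2 ⟨mem_univ _, Sym2.mem_iff.2 (Or.inr ?_)⟩, hp⟩
          rw [hp]; exact hq.2.symm
      rw [h2, card_fiber]

end

end Pool.Agent.UPS3
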