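import Pool.Agent.Lib.MP_876e19_co_ups.BipFinal
import Pool.Agent.Lib.MP_876e19_co_ups.SharpSets
import Pool.Agent.Lib.MP_876e19_co2.DiamThree

/-!
# All bipartite vertex-transitive graphs of valency `d ≥ 4` (helper16, TT876)
-/

set_option autoImplicit false

open Finset Classical

namespace Pool.Agent.UPS3

open Pool.Agent.UPS Pool.Agent.UPS.IB

variable {V : Type*} [Fintype V] {G : SimpleGraph V}

/-- the two classes have the same size -/
theorem class_card {d : ℕ} (hd0 : 0 < d) (side : V → Bool)
    (hside : ∀ u v, G.Adj u v → side u ≠ side v) (hd : ∀ v, UPS2.EC.dg G v = d) (b : Bool) :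
    Fintype.card V = 2 * (univ.filter fun v => side v = b).card := by
  have hreg : ∀ v, (univ.filter fun w => G.Adj v w).card = d := by
    intro v
    rw [← hd v]
    unfold UPS2.EC.dg
    rw [sum_boole, Nat.cast_id]
  have h1 := bip_balance (G := G) hd0 hreg side hside (fun _ => (1 : ℝ)) 1 (fun _ _ => 0)
    (fun _ _ => rfl) (fun v => by simp)
  rw [sum_const, sum_const, nsmul_eq_mul, nsmul_eq_mul, mul_one, mul_one] at h1
  have h2 : (univ.filter fun v => side v = true).card =
      (univ.filter fun v => side v = false).card := by exact_mod_cast h1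
  have h3 : (univ.filter fun v => side v = true).card +
      (univ.filter fun v => side v = false).card = Fintype.card V := by
    rw [← card_univ, ← card_union_of_disjoint]
    · congr 1
      ext v
      cases h : side v <;> simp [h]
    · rw [disjoint_left]
      intro v h4 h5
      simp only [mem_filter, mem_univ, true_and] at h4 h5
      rw [h4] at h5
      exact absurd h5 (by decide)
  cases b <;> omega

/-- a bipartite graph of diameter at least 4 has at least `4 d` vertices -/
theorem four_d_le (hG : G.Connected) {d : ℕ} (hd0 : 0 < d) (side : V → Bool)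
    (hside : ∀ u v, G.Adj u v → side u ≠ side v) (hd : ∀ v, UPS2.EC.dg G v = d) {x y : V}
    (hxy : 4 ≤ G.dist x y) : 4 * d ≤ Fintype.card V := by
  have hreg : ∀ v, (univ.filter fun w => G.Adj v w).card = d := by
    intro v
    rw [← hd v]
    unfold UPS2.EC.dg
    rw [sum_boole, Nat.cast_id]
  -- a vertex at distance 4
  obtain ⟨p, hp⟩ := hG.exists_walk_length_eq_dist x y
  have hlen : 4 ≤ p.length := by rw [hp]; exact hxy
  set y' := p.getVert 4 with hy'
  have hside' : ∀ (u v : V) (q : G.Walk u v), (side u = side v ↔ Even q.length) := by
    intro u v q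
    induction q with
    | nil => simp
    | cons h q ih =>
      rw [SimpleGraph.Walk.length_cons, Nat.even_add_one, ← ih]
      have := hside _ _ h
      rename_i a b c
      cases h1 : side a <;> cases h2 : side b <;> cases h3 : side c <;> simp_all
  have hs : side x = side y' := by
    rw [hside' x y' (p.take 4)]
    rw [SimpleGraph.Walk.take_length, min_eq_left hlen]
    decide
  have hdis : Disjoint (univ.filter fun w => G.Adj x w) (univ.filter fun w => G.Adj y' w) := by
    rw [disjoint_left]
    intro w h1 h2
    simp only [mem_filter, mem_univ, true_and] at h1 h2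
    -- a short walk from x to y
    have h3 : G.dist x y ≤ 2 + (p.length - 4) := by
      have h4 := SimpleGraph.dist_le ((SimpleGraph.Walk.cons h1 (SimpleGraph.Walk.cons h2.symm
        SimpleGraph.Walk.nil)).append (p.drop 4))
      rw [SimpleGraph.Walk.length_append, SimpleGraph.Walk.drop_length] at h4
      simpa using h4
    omega
  have hsub : (univ.filter fun w => G.Adj x w) ∪ (univ.filter fun w => G.Adj y' w) ⊆
      univ.filter fun v => side v = !side x := by
    intro w hw
    rw [mem_union] at hw
    simp only [mem_filter, mem_univ, true_and] at hw ⊢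
    rcases hw with hw | hw
    · have := hside x w hw
      cases h1 : side x <;> cases h2 : side w <;> simp_all
    · have := hside y' w hw
      rw [← hs] at this
      cases h1 : side x <;> cases h2 : side w <;> simp_all
  have h1 := card_le_card hsub
  rw [card_union_of_disjoint hdis, hreg, hreg] at h1
  have h2 := class_card hd0 side hside hd (!side x)
  omega

/-- **All bipartite vertex-transitive graphs of valency at least 4.** -/
theorem bip_all (hG : G.Connected) (hT : VT G) (side : V → Bool)
    (hside : ∀ u v, G.Adj u v → side u ≠ side v) {d : ℕ} (hd4 : 4 ≤ d)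
    (hd : ∀ v, UPS2.EC.dg G v = d) : HasUPS G := by
  by_cases hD : ∀ x y, G.dist x y ≤ 3
  · exact Pool.Agent.UPS2.diam_three hG hT hD
  push Not at hD
  obtain ⟨x, y, hxy⟩ := hD
  have hn := four_d_le hG (by omega) side hside hd (x := x) (y := y) (by omega)
  by_cases h4 : d = 4 ∧ Fintype.card V < 18
  · have h2 := class_card (by omega) side hside hd true
    have h16 : Fintype.card V = 2 ^ 4 := by omega
    exact hasUPS_of_card_prime_pow hG hT Nat.prime_two (by rw [Nat.card_eq_fintype_card, h16])
  · exact bip_final hG hT side hside hd4 hd hn (by omega)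

end Pool.Agent.UPS3
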