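import Pool.Agent.Lib.MP_876e19_co.Toggle
import Pool.Agent.Lib.MP_876e19_co_ups.Bip

/-!
# Two-sided toggles (helper63, TT876)

Stage 1 (roots): for every root `x` a permutation `σ x` of the vertices which fixes `x` and moves
vertices along edges only; the new path to `u` is the old path to `σ x u` followed by `u`.
Stage 2 (targets): for every target `y` a permutation `τ y` which fixes `y`; the new path from `x`
is `x` followed by the path from `τ y x`.

Involutions are the toggles of a matching; odd cycles (rotations) are also allowed.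
-/

set_option autoImplicit false

open Finset

namespace Pool.Agent.UPS.TS

variable {V : Type*} [Fintype V] [DecidableEq V] {G : SimpleGraph V}

/-- toggling at one root; `σ` is a permutation of the targets -/
lemma one_root_perm (x : V) (p : ∀ u : V, G.Walk x u) (hp : ∀ u, x ≠ u → (p u).IsPath)
    (σ : Equiv.Perm V) (hx : σ x = x)
    (hσ : ∀ u, σ u ≠ u → G.Adj (σ u) u ∧ u ∉ (p (σ u)).support) :
    ∃ q : ∀ u : V, G.Walk x u, (∀ u, x ≠ u → (q u).IsPath) ∧
      (∀ u w, w ≠ u → (w ∈ (q u).support ↔ w ∈ (p (σ u)).support)) ∧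
      (∀ u, σ u = u → q u = p u) ∧
      (∀ u (h : σ u ≠ u), q u = (p (σ u)).concat (hσ u h).1) ∧
      ∀ w, (univ.filter fun u => x ≠ u ∧ w ∈ (q u).support).card =
        (univ.filter fun u => x ≠ u ∧ w ∈ (p u).support).card + (if σ w ≠ w then 1 else 0) := by
  let q : ∀ u : V, G.Walk x u := fun u =>
    if h : σ u ≠ u then (p (σ u)).concat (hσ u h).1 else p u
  have hq1 : ∀ u (h : σ u ≠ u), q u = (p (σ u)).concat (hσ u h).1 := fun u h => dif_pos h
  have hq2 : ∀ u, σ u = u → q u = p u := fun u h => dif_neg (fun h' => h' h)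
  have hmem : ∀ u w, w ≠ u → (w ∈ (q u).support ↔ w ∈ (p (σ u)).support) := by
    intro u w hw
    by_cases h : σ u = u
    · rw [hq2 u h, h]
    · rw [hq1 u h, SimpleGraph.Walk.support_concat, List.mem_append, List.mem_singleton]
      simp [hw]
  have hne : ∀ u, x ≠ u → x ≠ σ u := by
    intro u hu h
    apply hu
    have : σ x = σ u := hx.trans h
    exact σ.injective this
  refine ⟨q, fun u hu => ?_, hmem, hq2, hq1, fun w => ?_⟩
  · by_cases h : σ u = u
    · rw [hq2 u h]; exact hp u hu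
    · rw [hq1 u h]
      exact (hp _ (hne u hu)).concat (hσ u h).2 (hσ u h).1
  · have e : (univ.filter fun u => x ≠ u ∧ w ∈ (q u).support) =
        (univ.filter fun u => x ≠ u ∧ w ∈ (p (σ u)).support) ∪
          (univ.filter fun u => σ u ≠ u ∧ w = u) := by
      ext u
      rw [mem_union, mem_filter, mem_filter, mem_filter]
      simp only [mem_univ, true_and]
      by_cases h : σ u = u
      · rw [hq2 u h, h]; simp
      · rw [hq1 u h, SimpleGraph.Walk.support_concat, List.mem_append, List.mem_singleton]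
        constructor
        · rintro ⟨h1, h2 | h2⟩
          · exact Or.inl ⟨h1, h2⟩
          · exact Or.inr ⟨h, h2⟩
        · rintro (⟨h1, h2⟩ | ⟨_, h2⟩)
          · exact ⟨h1, Or.inl h2⟩
          · refine ⟨fun hxu => ?_, Or.inr h2⟩
            exact h (by rw [← hxu]; exact hx)
    rw [e, card_union_of_disjoint]
    · congr 1
      · apply card_bij (fun u _ => σ u)
        · intro u hu
          simp only [mem_filter, mem_univ, true_and] at hu ⊢
          exact ⟨hne u hu.1, hu.2⟩
        · intro u _ v _ huv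
          exact σ.injective huv
        · intro u hu
          simp only [mem_filter, mem_univ, true_and] at hu
          refine ⟨σ.symm u, ?_, σ.apply_symm_apply u⟩
          rw [mem_filter]
          refine ⟨mem_univ _, fun h => hu.1 ?_, ?_⟩
          · rw [← σ.apply_symm_apply u, ← h, hx]
          · rw [σ.apply_symm_apply]; exact hu.2
      · by_cases h : σ w ≠ w
        · rw [if_pos h, card_eq_one]
          refine ⟨w, ?_⟩
          ext u
          simp only [mem_filter, mem_univ, true_and, mem_singleton]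
          constructor
          · exact fun h => h.2.symm
          · rintro rfl; exact ⟨h, rfl⟩
        · rw [if_neg h, card_eq_zero, filter_eq_empty_iff]
          rintro u _ ⟨h1, rfl⟩
          exact h h1
    · rw [disjoint_left]
      intro u h1 h2
      simp only [mem_filter, mem_univ, true_and] at h1 h2
      exact (hσ u h2.1).2 (h2.2 ▸ h1.2)

/-- `σ` is admissible for the roots -/
def OutOK (P : ∀ x y : V, G.Walk x y) (σ : V → Equiv.Perm V) : Prop :=
  (∀ x, σ x x = x) ∧ ∀ x u, σ x u ≠ u → G.Adj (σ x u) u ∧ u ∉ (P x (σ x u)).support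

/-- `τ` is admissible for the targets -/
def InOK (P : ∀ x y : V, G.Walk x y) (τ : V → Equiv.Perm V) : Prop :=
  (∀ y, τ y y = y) ∧ ∀ y x, τ y x ≠ x → G.Adj x (τ y x) ∧ x ∉ (P (τ y x) y).support

/-- stage 1: toggles at the roots -/
theorem stage_out (P : ∀ x y : V, G.Walk x y) (hP : Paths P) (σ : V → Equiv.Perm V)
    (h : OutOK P σ) :
    ∃ P' : ∀ x y : V, G.Walk x y, Paths P' ∧
      (∀ x y w, w ≠ y → (w ∈ (P' x y).support ↔ w ∈ (P x (σ x y)).support)) ∧
      (∀ x y, σ x y = y → P' x y = P x y) ∧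
      (∀ x y (hne : σ x y ≠ y), P' x y = (P x (σ x y)).concat (h.2 x y hne).1) ∧
      ∀ v, load P' v = load P v + (univ.filter fun x => σ x v ≠ v).card := by
  have hroot := fun x => one_root_perm x (fun u => P x u) (fun u hu => hP x u hu) (σ x) (h.1 x)
    (h.2 x)
  choose P' h1 h2 h3 h4 h5 using hroot
  refine ⟨P', fun x y hxy => h1 x y hxy, h2, h3, h4, fun v => ?_⟩
  rw [Toggle.load_eq_sum, Toggle.load_eq_sum, sum_congr rfl fun x _ => h5 x v, sum_add_distrib,
    card_filter]

/-- the reversed system -/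
def rev (P : ∀ x y : V, G.Walk x y) : ∀ x y : V, G.Walk x y := fun x y => (P y x).reverse

omit [Fintype V] [DecidableEq V] in
lemma mem_rev (P : ∀ x y : V, G.Walk x y) (x y w : V) :
    w ∈ (rev P x y).support ↔ w ∈ (P y x).support := by
  simp [rev, SimpleGraph.Walk.support_reverse]

omit [Fintype V] [DecidableEq V] in
lemma paths_rev (P : ∀ x y : V, G.Walk x y) (hP : Paths P) : Paths (rev P) :=
  fun x y hxy => (hP y x hxy.symm).reverse

omit [Fintype V] [DecidableEq V] in
lemma load_rev (P : ∀ x y : V, G.Walk x y) (v : V) : load (rev P) v = load P v := by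
  have h : {p : V × V | p.1 ≠ p.2 ∧ v ∈ (rev P p.1 p.2).support} =
      (Equiv.prodComm V V) '' {p : V × V | p.1 ≠ p.2 ∧ v ∈ (P p.1 p.2).support} := by
    ext ⟨a, b⟩
    simp only [Set.mem_ofPred_eq, Set.mem_image, Prod.exists, Equiv.prodComm_apply, Prod.swap_prod_mk,
      Prod.mk.injEq]
    constructor
    · rintro ⟨h1, h2⟩
      exact ⟨b, a, ⟨fun h => h1 h.symm, (mem_rev P a b v).1 h2⟩, rfl, rfl⟩
    · rintro ⟨c, e, ⟨h1, h2⟩, rfl, rfl⟩
      exact ⟨fun h => h1 h.symm, (mem_rev P _ _ v).2 h2⟩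
  rw [load, load, h, Set.ncard_image_of_injective _ (Equiv.prodComm V V).injective]

/-- stage 2: toggles at the targets -/
theorem stage_in (P : ∀ x y : V, G.Walk x y) (hP : Paths P) (τ : V → Equiv.Perm V)
    (h : InOK P τ) :
    ∃ P' : ∀ x y : V, G.Walk x y, Paths P' ∧
      (∀ x y w, w ≠ x → (w ∈ (P' x y).support ↔ w ∈ (P (τ y x) y).support)) ∧
      ∀ v, load P' v = load P v + (univ.filter fun y => τ y v ≠ v).card := by
  have h0 : OutOK (rev P) τ := by
    refine ⟨h.1, fun y x hne => ⟨(h.2 y x hne).1.symm, fun hx => (h.2 y x hne).2 ?_⟩⟩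
    exact (mem_rev P _ _ _).1 hx
  obtain ⟨Q, h1, h2, _, _, h5⟩ := stage_out (rev P) (paths_rev P hP) τ h0
  refine ⟨rev Q, paths_rev Q h1, fun x y w hw => ?_, fun v => ?_⟩
  · rw [mem_rev, h2 y x w hw, mem_rev]
  · rw [load_rev, h5, load_rev]

/-- the two stages together; the condition of the second stage in terms of the base system -/
theorem two_sided (P : ∀ x y : V, G.Walk x y) (hP : Paths P) (σ τ : V → Equiv.Perm V)
    (h : OutOK P σ) (h3 : ∀ y, τ y y = y)
    (h4 : ∀ y x, τ y x ≠ x → G.Adj x (τ y x) ∧ x ∉ (P (τ y x) (σ (τ y x) y)).support) :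
    ∃ P' : ∀ x y : V, G.Walk x y, Paths P' ∧
      ∀ v, load P' v = load P v + (univ.filter fun x => σ x v ≠ v).card +
        (univ.filter fun y => τ y v ≠ v).card := by
  obtain ⟨P1, hP1, hmem, _, _, hload⟩ := stage_out P hP σ h
  have hin : InOK P1 τ := by
    refine ⟨h3, fun y x hne => ⟨(h4 y x hne).1, ?_⟩⟩
    have hxy : x ≠ y := by
      rintro rfl
      exact hne (h3 x)
    rw [hmem _ _ _ hxy]
    exact (h4 y x hne).2
  obtain ⟨P2, hP2, _, hload2⟩ := stage_in P1 hP1 τ hin
  exact ⟨P2, hP2, fun v => by rw [hload2, hload]⟩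

/-! ### kill counts -/

/-- number of roots `x` whose path to `u` passes through `w` -/
def outKill (P : ∀ x y : V, G.Walk x y) (u w : V) : ℕ :=
  (univ.filter fun x => x ≠ u ∧ x ≠ w ∧ w ∈ (P x u).support).card

/-- number of targets `y` for which the path from `u` passes through `w` -/
def inKill (P : ∀ x y : V, G.Walk x y) (u w : V) : ℕ :=
  (univ.filter fun y => y ≠ u ∧ y ≠ w ∧ w ∈ (P u y).support).card

/-- roots at which `uw` can be toggled -/
def AvOut (P : ∀ x y : V, G.Walk x y) (u w : V) : Finset V :=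
  univ.filter fun x => x ≠ u ∧ x ≠ w ∧ w ∉ (P x u).support ∧ u ∉ (P x w).support

/-- targets at which `uw` can be toggled after stage 1 -/
def AvIn (P : ∀ x y : V, G.Walk x y) (σ : V → Equiv.Perm V) (u w : V) : Finset V :=
  univ.filter fun y => y ≠ u ∧ y ≠ w ∧ w ∉ (P u (σ u y)).support ∧ u ∉ (P w (σ w y)).support

lemma AvOut_symm (P : ∀ x y : V, G.Walk x y) (u w : V) : AvOut P u w = AvOut P w u := by
  ext x; simp only [AvOut, mem_filter, mem_univ, true_and]; tauto

lemma AvIn_symm (P : ∀ x y : V, G.Walk x y) (σ : V → Equiv.Perm V) (u w : V) :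
    AvIn P σ u w = AvIn P σ w u := by
  ext x; simp only [AvIn, mem_filter, mem_univ, true_and]; tauto

/-- the number of available roots -/
theorem avOut_card (P : ∀ x y : V, G.Walk x y) (u w : V) :
    Fintype.card V ≤ (AvOut P u w).card + 2 + outKill P u w + outKill P w u := by
  have hsub : (univ : Finset V) ⊆ AvOut P u w ∪ {u, w} ∪
      (univ.filter fun x => x ≠ u ∧ x ≠ w ∧ w ∈ (P x u).support) ∪
      (univ.filter fun x => x ≠ w ∧ x ≠ u ∧ u ∈ (P x w).support) := by
    intro x _
    simp only [AvOut, mem_union, mem_filter, mem_univ, true_and, mem_insert, mem_singleton]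
    tauto
  have h1 := card_le_card hsub
  have h2 := card_union_le (AvOut P u w ∪ {u, w} ∪
      (univ.filter fun x => x ≠ u ∧ x ≠ w ∧ w ∈ (P x u).support))
      (univ.filter fun x => x ≠ w ∧ x ≠ u ∧ u ∈ (P x w).support)
  have h3 := card_union_le (AvOut P u w ∪ {u, w})
      (univ.filter fun x => x ≠ u ∧ x ≠ w ∧ w ∈ (P x u).support)
  have h4 := card_union_le (AvOut P u w) {u, w}
  have h5 : ({u, w} : Finset V).card ≤ 2 := card_le_two
  rw [card_univ] at h1
  simp only [outKill]
  omega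

/-- the kills of stage 2 at `u`, through `w` -/
theorem kill_after (P : ∀ x y : V, G.Walk x y) (σ : V → Equiv.Perm V) (h : OutOK P σ)
    {u w : V} (huw : u ≠ w) :
    (univ.filter fun y => y ≠ u ∧ y ≠ w ∧ w ∈ (P u (σ u y)).support).card =
      inKill P u w + (if σ u w ≠ w then 1 else 0) := by
  -- all targets, `w` included
  have key : ((univ.filter fun y => y ≠ u ∧ w ∈ (P u (σ u y)).support)).card =
      (univ.filter fun y => y ≠ u ∧ w ∈ (P u y).support).card := by
    apply card_bij (fun y _ => σ u y)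
    · intro y hy
      simp only [mem_filter, mem_univ, true_and] at hy ⊢
      refine ⟨fun h' => hy.1 ?_, hy.2⟩
      exact (σ u).injective (h'.trans (h.1 u).symm)
    · intro y _ z _ hyz
      exact (σ u).injective hyz
    · intro y hy
      simp only [mem_filter, mem_univ, true_and] at hy
      refine ⟨(σ u).symm y, ?_, (σ u).apply_symm_apply y⟩
      rw [mem_filter]
      refine ⟨mem_univ _, fun h' => hy.1 ?_, ?_⟩
      · rw [← (σ u).apply_symm_apply y, h', h.1 u]
      · rw [(σ u).apply_symm_apply]; exact hy.2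
  have hR : (univ.filter fun y => y ≠ u ∧ w ∈ (P u y).support) =
      insert w (univ.filter fun y => y ≠ u ∧ y ≠ w ∧ w ∈ (P u y).support) := by
    ext y
    simp only [mem_insert, mem_filter, mem_univ, true_and]
    constructor
    · rintro ⟨h1, h2⟩
      by_cases hy : y = w
      · exact Or.inl hy
      · exact Or.inr ⟨h1, hy, h2⟩
    · rintro (rfl | ⟨h1, _, h3⟩)
      · exact ⟨huw.symm, (P u y).end_mem_support⟩
      · exact ⟨h1, h3⟩
  have hRc : (univ.filter fun y => y ≠ u ∧ w ∈ (P u y).support).card = inKill P u w + 1 := by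
    rw [hR, card_insert_of_notMem (by simp), inKill]
  by_cases hm : σ u w = w
  · have hL : (univ.filter fun y => y ≠ u ∧ w ∈ (P u (σ u y)).support) =
        insert w (univ.filter fun y => y ≠ u ∧ y ≠ w ∧ w ∈ (P u (σ u y)).support) := by
      ext y
      simp only [mem_insert, mem_filter, mem_univ, true_and]
      constructor
      · rintro ⟨h1, h2⟩
        by_cases hy : y = w
        · exact Or.inl hy
        · exact Or.inr ⟨h1, hy, h2⟩
      · rintro (rfl | ⟨h1, _, h3⟩)
        · refine ⟨huw.symm, ?_⟩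
          rw [hm]; exact (P u y).end_mem_support
        · exact ⟨h1, h3⟩
    rw [hL, card_insert_of_notMem (by simp), hRc] at key
    rw [if_neg (not_not.2 hm)]
    omega
  · have hL : (univ.filter fun y => y ≠ u ∧ w ∈ (P u (σ u y)).support) =
        (univ.filter fun y => y ≠ u ∧ y ≠ w ∧ w ∈ (P u (σ u y)).support) := by
      ext y
      simp only [mem_filter, mem_univ, true_and]
      constructor
      · rintro ⟨h1, h2⟩
        refine ⟨h1, ?_, h2⟩
        rintro rfl
        exact (h.2 u y hm).2 h2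
      · rintro ⟨h1, _, h3⟩
        exact ⟨h1, h3⟩
    rw [hL, hRc] at key
    rw [if_pos hm, key]

/-- the number of available targets after stage 1, whatever stage 1 was -/
theorem avIn_card (P : ∀ x y : V, G.Walk x y) (σ : V → Equiv.Perm V) (h : OutOK P σ)
    {u w : V} (huw : u ≠ w) :
    Fintype.card V ≤ (AvIn P σ u w).card + 2 + (inKill P u w + (if σ u w ≠ w then 1 else 0)) +
      (inKill P w u + (if σ w u ≠ u then 1 else 0)) := by
  have hsub : (univ : Finset V) ⊆ AvIn P σ u w ∪ {u, w} ∪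
      (univ.filter fun y => y ≠ u ∧ y ≠ w ∧ w ∈ (P u (σ u y)).support) ∪
      (univ.filter fun y => y ≠ w ∧ y ≠ u ∧ u ∈ (P w (σ w y)).support) := by
    intro x _
    simp only [AvIn, mem_union, mem_filter, mem_univ, true_and, mem_insert, mem_singleton]
    tauto
  have h1 := card_le_card hsub
  have h2 := card_union_le (AvIn P σ u w ∪ {u, w} ∪
      (univ.filter fun y => y ≠ u ∧ y ≠ w ∧ w ∈ (P u (σ u y)).support))
      (univ.filter fun y => y ≠ w ∧ y ≠ u ∧ u ∈ (P w (σ w y)).support)
  have h3 := card_union_le (AvIn P σ u w ∪ {u, w})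
      (univ.filter fun y => y ≠ u ∧ y ≠ w ∧ w ∈ (P u (σ u y)).support)
  have h4 := card_union_le (AvIn P σ u w) {u, w}
  have h5 : ({u, w} : Finset V).card ≤ 2 := card_le_two
  rw [card_univ] at h1
  have h6 := kill_after P σ h huw
  have h7 := kill_after P σ h huw.symm
  omega

theorem avIn_card' (P : ∀ x y : V, G.Walk x y) (σ : V → Equiv.Perm V) (h : OutOK P σ)
    {u w : V} (huw : u ≠ w) :
    Fintype.card V ≤ (AvIn P σ u w).card + 4 + inKill P u w + inKill P w u := by
  have h1 := avIn_card P σ h huw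
  split_ifs at h1 <;> omega

/-! ### lists -/

open Pool.Agent.UPS3 (mdeg Sided)

/-- the involutions given by a distribution of the edges -/
lemma perm_of_lists (R : Sym2 V → Finset V)
    (hR : ∀ e f, e ≠ f → ∀ v, v ∈ e → v ∈ f → Disjoint (R e) (R f))
    (hd : ∀ v, R s(v, v) = ∅) :
    ∃ π : V → Equiv.Perm V, (∀ x u, π x u ≠ u → x ∈ R s(u, π x u)) ∧
      ∀ w, (univ.filter fun x => π x w ≠ w).card = mdeg (fun e => (R e).card) w := by
  classical
  have hmatch : ∀ x u v v', x ∈ R s(u, v) → x ∈ R s(u, v') → v = v' := by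
    intro x u v v' h1 h2
    by_contra hne
    have h3 : s(u, v) ≠ s(u, v') := fun h => hne (Sym2.congr_right.1 h)
    exact disjoint_left.1 (hR _ _ h3 u (by simp) (by simp)) h1 h2
  let f : V → V → V := fun x u => if h : ∃ v, x ∈ R s(u, v) then h.choose else u
  have hπ1 : ∀ x u v, x ∈ R s(u, v) → f x u = v := by
    intro x u v h
    have h1 : ∃ v, x ∈ R s(u, v) := ⟨v, h⟩
    have h2 : f x u = h1.choose := dif_pos h1
    rw [h2]
    exact hmatch x u _ _ h1.choose_spec h
  have hπ2 : ∀ x u, (¬ ∃ v, x ∈ R s(u, v)) → f x u = u := fun x u h => dif_neg h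
  have hπ3 : ∀ x u, f x u ≠ u → x ∈ R s(u, f x u) := by
    intro x u h
    by_cases h1 : ∃ v, x ∈ R s(u, v)
    · obtain ⟨v, hv⟩ := h1
      rw [hπ1 x u v hv]; exact hv
    · exact absurd (hπ2 x u h1) h
  have hπ4 : ∀ x, Function.Involutive (f x) := by
    intro x u
    by_cases h : f x u = u
    · rw [h, h]
    · apply hπ1
      rw [Sym2.eq_swap]
      exact hπ3 x u h
  refine ⟨fun x => (hπ4 x).toPerm (f x), fun x u h => hπ3 x u h, fun w => ?_⟩
  have h1 : ∀ x, (if f x w ≠ w then 1 else 0) =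
      ∑ e ∈ univ.filter (fun e : Sym2 V => w ∈ e), if x ∈ R e then 1 else 0 := by
    intro x
    rw [sum_boole, Nat.cast_id, filter_filter]
    by_cases h : f x w ≠ w
    · rw [if_pos h, eq_comm, card_eq_one]
      refine ⟨s(w, f x w), ?_⟩
      ext e
      simp only [mem_filter, mem_univ, true_and, mem_singleton]
      constructor
      · rintro ⟨h2, h3⟩
        obtain ⟨v, rfl⟩ := h2
        rw [hπ1 x w v h3]
      · rintro rfl
        exact ⟨by simp, hπ3 x w h⟩
    · rw [if_neg h, eq_comm, card_eq_zero, filter_eq_empty_iff]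
      rintro e _ ⟨h2, h3⟩
      obtain ⟨v, rfl⟩ := h2
      push Not at h
      have h4 := hπ1 x w v h3
      rw [h] at h4
      subst h4
      rw [hd] at h3
      exact absurd h3 (notMem_empty _)
  have h0 : (univ.filter fun x => (hπ4 x).toPerm (f x) w ≠ w).card =
      ∑ x : V, if f x w ≠ w then 1 else 0 := by
    rw [card_filter]; rfl
  rw [h0, sum_congr rfl fun x _ => h1 x, sum_comm, mdeg]
  refine sum_congr rfl fun e _ => ?_
  rw [sum_boole, Nat.cast_id]
  congr 1
  ext x
  simp

/-- from lists to an admissible stage 1 -/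
lemma outOK_of_lists (P : ∀ x y : V, G.Walk x y) (R : Sym2 V → Finset V)
    (h1 : ∀ u w x, x ∈ R s(u, w) → G.Adj u w ∧ x ∈ AvOut P u w)
    (hR : ∀ e f, e ≠ f → ∀ v, v ∈ e → v ∈ f → Disjoint (R e) (R f)) :
    ∃ σ : V → Equiv.Perm V, OutOK P σ ∧
      ∀ w, (univ.filter fun x => σ x w ≠ w).card = mdeg (fun e => (R e).card) w := by
  obtain ⟨σ, h2, h3⟩ := perm_of_lists R hR (fun v => by
    rw [eq_empty_iff_forall_notMem]
    intro x hx
    exact (h1 v v x hx).1.ne rfl)
  refine ⟨σ, ⟨fun x => ?_, fun x u h => ?_⟩, h3⟩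
  · by_contra h
    have h4 := (h1 _ _ _ (h2 x x h)).2
    simp [AvOut] at h4
  · have h4 := h1 _ _ _ (h2 x u h)
    refine ⟨h4.1.symm, ?_⟩
    have h5 := h4.2
    simp only [AvOut, mem_filter, mem_univ, true_and] at h5
    exact h5.2.2.2

/-- two stages with lists -/
theorem finish2 (P : ∀ x y : V, G.Walk x y) (hP : Paths P) (t₁ t₂ : Sym2 V → ℕ)
    (h1 : ∃ R : Sym2 V → Finset V, (∀ u w x, x ∈ R s(u, w) → G.Adj u w ∧ x ∈ AvOut P u w) ∧
      (∀ e, (R e).card = t₁ e) ∧
      ∀ e f, e ≠ f → ∀ v, v ∈ e → v ∈ f → Disjoint (R e) (R f))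
    (h2 : ∀ σ, OutOK P σ → ∃ R : Sym2 V → Finset V,
      (∀ u w y, y ∈ R s(u, w) → G.Adj u w ∧ y ∈ AvIn P σ u w) ∧
      (∀ e, (R e).card = t₂ e) ∧
      ∀ e f, e ≠ f → ∀ v, v ∈ e → v ∈ f → Disjoint (R e) (R f)) :
    ∃ P' : ∀ x y : V, G.Walk x y, Paths P' ∧
      ∀ v, load P' v = load P v + mdeg t₁ v + mdeg t₂ v := by
  obtain ⟨R1, hR1, hc1, hd1⟩ := h1
  obtain ⟨σ, hσ, hl1⟩ := outOK_of_lists P R1 hR1 hd1
  obtain ⟨R2, hR2, hc2, hd2⟩ := h2 σ hσ
  obtain ⟨τ, h3, h4⟩ := perm_of_lists R2 hd2 (fun v => by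
    rw [eq_empty_iff_forall_notMem]
    intro x hx
    exact (hR2 v v x hx).1.ne rfl)
  have e1 : (fun e => (R1 e).card) = t₁ := funext hc1
  have e2 : (fun e => (R2 e).card) = t₂ := funext hc2
  rw [e1] at hl1
  rw [e2] at h4
  obtain ⟨P', hP', hl⟩ := two_sided P hP σ τ hσ (fun y => by
      by_contra h
      have h5 := (hR2 _ _ _ (h3 y y h)).2
      simp [AvIn] at h5) (fun y x h => by
      have h5 := hR2 _ _ _ (h3 y x h)
      refine ⟨h5.1, ?_⟩
      have h6 := h5.2
      simp only [AvIn, mem_filter, mem_univ, true_and] at h6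
      exact h6.2.2.2)
  exact ⟨P', hP', fun v => by rw [hl, hl1, h4]⟩

/-- **Bipartite correction theorem**: integral multiplicities `t` with `load + deg t` constant and
enough room in the two stages. -/
theorem bip_finish (P : ∀ x y : V, G.Walk x y) (hP : Paths P) {side : V → Bool}
    {t : Sym2 V → ℕ} (hs : Sided side t) (ht : ∀ e, t e ≠ 0 → e ∈ G.edgeSet) (Δ₁ Δ₂ c : ℕ)
    (hΔ : ∀ v, mdeg t v ≤ Δ₁ + Δ₂)
    (hout : ∀ u w, G.Adj u w → Δ₁ + 2 + outKill P u w + outKill P w u ≤ Fintype.card V)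
    (hin : ∀ u w, G.Adj u w → Δ₂ + 4 + inKill P u w + inKill P w u ≤ Fintype.card V)
    (hc : ∀ v, load P v + mdeg t v = c) : HasUPS G := by
  classical
  obtain ⟨t₁, t₂, hsum, hm1, hm2⟩ := UPS3.split_mult hs Δ₁ Δ₂ hΔ
  have hs1 : Sided side t₁ := fun e he => hs e (by have := hsum e; omega)
  have hs2 : Sided side t₂ := fun e he => hs e (by have := hsum e; omega)
  have ht1 : ∀ e, t₁ e ≠ 0 → e ∈ G.edgeSet := fun e he => ht e (by have := hsum e; omega)
  have ht2 : ∀ e, t₂ e ≠ 0 → e ∈ G.edgeSet := fun e he => ht e (by have := hsum e; omega)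
  rcases isEmpty_or_nonempty V with hV | hV
  · exact ⟨P, hP, c, fun v => (hV.false v).elim⟩
  have go : ∀ (Av : V → V → Finset V) (_ : ∀ u w, Av u w = Av w u) (s : Sym2 V → ℕ) (Δ : ℕ)
      (_ : Sided side s) (_ : ∀ e, s e ≠ 0 → e ∈ G.edgeSet) (_ : ∀ v, mdeg s v ≤ Δ)
      (_ : ∀ u w, G.Adj u w → Δ ≤ (Av u w).card),
      ∃ R : Sym2 V → Finset V, (∀ u w x, x ∈ R s(u, w) → G.Adj u w ∧ x ∈ Av u w) ∧
      (∀ e, (R e).card = s e) ∧
      ∀ e f, e ≠ f → ∀ v, v ∈ e → v ∈ f → Disjoint (R e) (R f) := by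
    intro Av hAv s Δ h1 h2 h3 h4
    let L : Sym2 V → Finset V := Sym2.lift ⟨Av, hAv⟩
    have hL : ∀ u w, L s(u, w) = Av u w := fun u w => rfl
    obtain ⟨R, hR1, hR2⟩ := UPS3.galvin_lists h1 L Δ h3 (by
      intro e he
      have h5 := h2 e he
      induction e with
      | _ u w => rw [hL]; exact h4 u w h5)
    refine ⟨R, fun u w x hx => ⟨?_, ?_⟩, fun e => (hR1 e).2, hR2⟩
    · have h5 : s s(u, w) ≠ 0 := by
        rw [← (hR1 _).2]
        exact card_ne_zero_of_mem hx
      exact h2 _ h5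
    · rw [← hL]; exact (hR1 _).1 hx
  obtain ⟨P', hP', hl⟩ := finish2 P hP t₁ t₂
    (go (AvOut P) (AvOut_symm P) t₁ Δ₁ hs1 ht1 hm1 (fun u w huw => by
      have h1 := avOut_card P u w
      have h2 := hout u w huw
      omega))
    (fun σ hσ => go (AvIn P σ) (AvIn_symm P σ) t₂ Δ₂ hs2 ht2 hm2 (fun u w huw => by
      have h1 := avIn_card' P σ hσ huw.ne
      have h2 := hin u w huw
      omega))
  refine ⟨P', hP', c, fun v => ?_⟩
  rw [hl, ← hc v, add_assoc]
  congr 1
  simp only [mdeg]
  rw [← sum_add_distrib]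
  exact sum_congr rfl fun e _ => hsum e

end Pool.Agent.UPS.TS
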