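import Pool.Agent.Lib.MP_876e19_co_ups.Correction
import Pool.Agent.Lib.MP_876e19_co_ups.TwoSided

/-!
# Two stages of toggles in any graph

`gen_finish`: a path system `P`, required numbers `D₁`, `D₂` with `load P + D₁ + D₂` constant, both
satisfying the conditions of the correction theorem, give a uniform path system.
-/

set_option autoImplicit false

open Finset

namespace Pool.Agent.UPS.TS

open UPS2.EC HTutte

variable {V : Type*} [Fintype V] [DecidableEq V] {G : SimpleGraph V}

/-- the edges available at the root `x` -/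
def outG (P : ∀ x y : V, G.Walk x y) (x : V) : SimpleGraph V where
  Adj u w := G.Adj u w ∧ x ∈ AvOut P u w
  symm := ⟨fun u w h => ⟨h.1.symm, by rw [AvOut_symm]; exact h.2⟩⟩
  loopless := ⟨fun _ h => h.1.ne rfl⟩

/-- the edges available at the target `y` after stage 1 -/
def inG (P : ∀ x y : V, G.Walk x y) (σ : V → Equiv.Perm V) (y : V) : SimpleGraph V where
  Adj u w := G.Adj u w ∧ y ∈ AvIn P σ u w
  symm := ⟨fun u w h => ⟨h.1.symm, by rw [AvIn_symm]; exact h.2⟩⟩
  loopless := ⟨fun _ h => h.1.ne rfl⟩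

/-- a subgraph which misses an edge at `v` -/
theorem dg_le_pred {H : SimpleGraph V} {v w0 : V} (hHG : ∀ w, H.Adj v w → G.Adj v w)
    (h0 : G.Adj v w0) (h1 : ¬ H.Adj v w0) : dg H v ≤ dg G v - 1 := by
  classical
  have h2 : dg H v < dg G v := by
    unfold dg
    refine Finset.sum_lt_sum ?_ ⟨w0, Finset.mem_univ _, ?_⟩
    · intro w _
      by_cases h : H.Adj v w
      · rw [if_pos h, if_pos (hHG w h)]
      · rw [if_neg h]
        exact Nat.zero_le _
    · rw [if_neg h1, if_pos h0]
      exact Nat.zero_lt_one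
  omega

theorem outG_dg (P : ∀ x y : V, G.Walk x y) {d : ℕ} (hd : ∀ v, dg G v = d) (x v : V) :
    dg (outG P x) v ≤ d - 1 := by
  classical
  by_cases hxv : x = v
  · have : dg (outG P x) v = 0 := by
      unfold dg
      refine Finset.sum_eq_zero fun w _ => ?_
      rw [if_neg]
      rintro ⟨_, h⟩
      simp only [AvOut, mem_filter, mem_univ, true_and] at h
      exact h.1 hxv
    omega
  · rw [← hd v]
    have hnil : ¬ (P x v).Nil := SimpleGraph.Walk.not_nil_of_ne hxv
    refine dg_le_pred (fun w h => h.1) ((P x v).adj_penultimate hnil).symm ?_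
    rintro ⟨_, h⟩
    simp only [AvOut, mem_filter, mem_univ, true_and] at h
    exact h.2.2.1 (SimpleGraph.Walk.getVert_mem_support _ _)

theorem inG_dg (P : ∀ x y : V, G.Walk x y) (σ : V → Equiv.Perm V) (hσ : ∀ x, σ x x = x) {d : ℕ}
    (hd : ∀ v, dg G v = d) (y v : V) : dg (inG P σ y) v ≤ d - 1 := by
  classical
  by_cases hyv : y = v
  · have : dg (inG P σ y) v = 0 := by
      unfold dg
      refine Finset.sum_eq_zero fun w _ => ?_
      rw [if_neg]
      rintro ⟨_, h⟩
      simp only [AvIn, mem_filter, mem_univ, true_and] at h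
      exact h.1 hyv
    omega
  · rw [← hd v]
    have hne : v ≠ σ v y := by
      intro h
      apply hyv
      apply (σ v).injective
      rw [hσ v]
      exact h.symm
    have hnil : ¬ (P v (σ v y)).Nil := SimpleGraph.Walk.not_nil_of_ne hne
    refine dg_le_pred (fun w h => h.1) ((P v (σ v y)).adj_snd hnil) ?_
    rintro ⟨_, h⟩
    simp only [AvIn, mem_filter, mem_univ, true_and] at h
    exact h.2.2.1 (SimpleGraph.Walk.getVert_mem_support _ _)

omit [DecidableEq V] in
theorem av_eq {X : Type*} [Fintype X] [DecidableEq X] (A : X → SimpleGraph V) (v w : V)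
    (S : Finset X) (h : ∀ x, x ∈ S ↔ (A x).Adj v w) : av A v w = S.card := by
  classical
  unfold av
  congr 1
  ext x
  rw [mem_filter, h]
  simp

/-- the conditions on the required numbers of one stage -/
structure StageOK (G : SimpleGraph V) (D : V → ℕ) (a : ℕ) : Prop where
  even : Even (∑ v, D v)
  pos : ∀ v, 1 ≤ D v
  le : ∀ v, D v + 1 ≤ a
  hall : ∀ U : Finset V, ∑ v ∈ U, (D v - 1) ≤ ∑ v ∈ nb G U, (D v - 1)

/-- **Two-stage correction theorem, all graphs.** -/
theorem gen_finish [Nontrivial V] (P : ∀ x y : V, G.Walk x y) (hP : Paths P) {d : ℕ} (hd0 : 0 < d)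
    (hd : ∀ v, dg G v = d) (hcut : ∀ S : Finset V, S.Nonempty → S ≠ univ → d ≤ cut G S)
    (D₁ D₂ : V → ℕ) (a₁ a₂ c : ℕ) (h₁ : StageOK G D₁ a₁) (h₂ : StageOK G D₂ a₂)
    (hout : ∀ u w, G.Adj u w → a₁ + 2 + outKill P u w + outKill P w u ≤ Fintype.card V)
    (hin : ∀ u w, G.Adj u w → a₂ + 4 + inKill P u w + inKill P w u ≤ Fintype.card V)
    (hc : ∀ v, load P v + D₁ v + D₂ v = c) : HasUPS G := by
  classical
  obtain ⟨σ, hσ1, hσ2⟩ := correction G hd0 hd hcut (outG P) (fun x v w h => h.1) (outG_dg P hd)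
    (a := a₁) (fun v w h => by
      rw [av_eq (outG P) v w (AvOut P v w) fun x => ⟨fun hx => ⟨h, hx⟩, fun hx => hx.2⟩]
      have h1 := avOut_card P v w
      have h2 := hout v w h
      omega) D₁ h₁.even h₁.pos h₁.le h₁.hall
  have hσ3 : ∀ x u, σ x u ≠ u → G.Adj u (σ x u) ∧ x ∈ AvOut P u (σ x u) := fun x u h =>
    (hσ1 x u).resolve_left h
  have hOK : OutOK P σ := by
    refine ⟨fun x => ?_, fun x u h => ?_⟩
    · by_contra h
      have h1 := (hσ3 x x h).2
      simp [AvOut] at h1
    · obtain ⟨h1, h2⟩ := hσ3 x u h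
      simp only [AvOut, mem_filter, mem_univ, true_and] at h2
      exact ⟨h1.symm, h2.2.2.2⟩
  obtain ⟨τ, hτ1, hτ2⟩ := correction G hd0 hd hcut (inG P σ) (fun x v w h => h.1)
    (inG_dg P σ hOK.1 hd) (a := a₂) (fun v w h => by
      rw [av_eq (inG P σ) v w (AvIn P σ v w) fun x => ⟨fun hx => ⟨h, hx⟩, fun hx => hx.2⟩]
      have h1 := avIn_card' P σ hOK h.ne
      have h2 := hin v w h
      omega) D₂ h₂.even h₂.pos h₂.le h₂.hall
  have hτ3 : ∀ y u, τ y u ≠ u → G.Adj u (τ y u) ∧ y ∈ AvIn P σ u (τ y u) := fun x u h =>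
    (hτ1 x u).resolve_left h
  obtain ⟨P', hP', hl⟩ := two_sided P hP σ τ hOK (fun y => by
      by_contra h
      have h1 := (hτ3 y y h).2
      simp [AvIn] at h1) (fun y x h => by
      obtain ⟨h1, h2⟩ := hτ3 y x h
      simp only [AvIn, mem_filter, mem_univ, true_and] at h2
      exact ⟨h1, h2.2.2.2⟩)
  exact ⟨P', hP', c, fun v => by rw [hl, hσ2, hτ2, hc]⟩

end Pool.Agent.UPS.TS
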