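import Pool.Agent.Lib.MP_876e19_co_ups.BipStage
import Pool.Agent.Lib.MP_876e19_co_ups.GenFinish

/-!
# Bipartite graphs: the two-stage finish with cut conditions (helper16, TT876)

* `round_deg`: a real solution of `deg K = D`, `K ≤ cap` with integral `D`, `cap` can be rounded.
* `bip_K_finish`: integral `K = K₁ + K₂` on the edges with `(d - 1) K₁ ≤` room of stage 1,
  `(d - 1) K₂ ≤` room of stage 2 and `load + deg K` constant gives a uniform path system.
* `bip_cut_finish`: the same with the cut conditions for `K` instead of `K`.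
* `bip_real_finish`: the same with real capacities
  `(2 (n - 1 - d) - end kills of e) / (d - 1)`.
-/

set_option autoImplicit false

open Finset Classical

namespace Pool.Agent.UPS3

open Pool.Agent.UPS Pool.Agent.UPS.TS Pool.Agent.UPS2.EC Pool.Agent.HTutte

variable {V : Type*} [Fintype V] [DecidableEq V] {G : SimpleGraph V}

omit [DecidableEq V] in
/-- **Rounding of edge weights in a bipartite graph.** -/
theorem round_deg (side : V → Bool) (cap : Sym2 V → ℕ)
    (hside : ∀ u v, cap s(u, v) ≠ 0 → side u ≠ side v)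
    (K : Sym2 V → ℝ) (hK : ∀ e, 0 ≤ K e ∧ K e ≤ cap e) (D : V → ℤ)
    (hD : ∀ v, degE K v = D v) :
    ∃ L : Sym2 V → ℕ, (∀ e, L e ≤ cap e) ∧ ∀ v, degE (fun e => (L e : ℝ)) v = D v := by
  have hKs : ∀ u v, K s(u, v) ≠ 0 → side u ≠ side v := by
    intro u v h
    apply hside
    intro h0
    have h1 := hK s(u, v)
    rw [h0] at h1
    exact h (le_antisymm (by simpa using h1.2) h1.1)
  have hKd : ∀ v, K s(v, v) = 0 := by
    intro v
    by_contra hcon
    exact hKs v v hcon rfl
  let w : V → V → ℝ := fun a b => if side a = true then K s(a, b) else 0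
  obtain ⟨g, hg, hgA, hgB⟩ := bip_round w
  have hw0 : ∀ a b, 0 ≤ w a b := by
    intro a b
    simp only [w]
    split_ifs
    · exact (hK _).1
    · exact le_rfl
  have hg0 : ∀ a b, 0 ≤ g a b := fun a b => le_trans (Int.floor_nonneg.2 (hw0 a b)) (hg a b).1
  have hgc : ∀ a b, g a b ≤ cap s(a, b) := by
    intro a b
    refine (hg a b).2.trans (Int.ceil_le.2 ?_)
    simp only [w]
    split_ifs
    · exact_mod_cast (hK _).2
    · push_cast; exact Nat.cast_nonneg _
  have hgz : ∀ a b, w a b = 0 → g a b = 0 := by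
    intro a b h
    have h1 := (hg a b).2
    rw [h, Int.ceil_zero] at h1
    exact le_antisymm h1 (hg0 a b)
  have hgF : ∀ a b, side a = false → g a b = 0 := by
    intro a b h
    apply hgz
    simp only [w, h]
    simp
  have hgT : ∀ a b, side b = true → g a b = 0 := by
    intro a b h
    apply hgz
    simp only [w]
    split_ifs with ha
    · by_contra hcon
      exact hKs a b hcon (by rw [ha, h])
    · rfl
  have hrow : ∀ a, side a = true → ∑ b, g a b = D a := by
    intro a ha
    have h1 : ∑ b, w a b = D a := by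
      rw [← hD a, degE_eq K hKd]
      refine sum_congr rfl fun b _ => ?_
      simp only [w, ha, if_true]
    have h2 := hgA a
    rw [h1, Int.floor_intCast, Int.ceil_intCast] at h2
    exact le_antisymm h2.2 h2.1
  have hcol : ∀ b, side b = false → ∑ a, g a b = D b := by
    intro b hb
    have h1 : ∑ a, w a b = D b := by
      rw [← hD b, degE_eq K hKd]
      refine sum_congr rfl fun a _ => ?_
      simp only [w]
      split_ifs with ha
      · rw [Sym2.eq_swap]
      · symm
        by_contra hcon
        have := hKs b a hcon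
        rw [hb] at this
        cases h : side a
        · exact this h.symm
        · exact ha h
    have h2 := hgB b
    rw [h1, Int.floor_intCast, Int.ceil_intCast] at h2
    exact le_antisymm h2.2 h2.1
  let L : Sym2 V → ℕ := Sym2.lift ⟨fun a b => (g a b + g b a).toNat, fun a b => by
    show (g a b + g b a).toNat = (g b a + g a b).toNat
    rw [add_comm]⟩
  have hL : ∀ a b, L s(a, b) = (g a b + g b a).toNat := fun a b => by
    simp only [L, Sym2.lift_mk]
  have hLT : ∀ a b, side a = true → (L s(a, b) : ℤ) = g a b := by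
    intro a b ha
    rw [hL, hgT b a ha, add_zero]
    exact Int.toNat_of_nonneg (hg0 a b)
  have hLF : ∀ a b, side a = false → (L s(a, b) : ℤ) = g b a := by
    intro a b ha
    rw [hL, hgF a b ha, zero_add]
    exact Int.toNat_of_nonneg (hg0 b a)
  refine ⟨L, ?_, ?_⟩
  · intro e
    induction e with
    | _ a b =>
      cases ha : side a with
      | true =>
        have h1 := hLT a b ha
        have h2 := hgc a b
        rw [← h1] at h2
        exact_mod_cast h2
      | false =>
        have h1 := hLF a b ha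
        have h2 := hgc b a
        rw [← h1, Sym2.eq_swap] at h2
        rw [Sym2.eq_swap]
        exact_mod_cast h2
  · intro v
    rw [degE_eq]
    · cases hv : side v with
      | true =>
        rw [← hrow v hv]
        push_cast
        refine sum_congr rfl fun b _ => ?_
        have := hLT v b hv
        exact_mod_cast this
      | false =>
        rw [← hcol v hv]
        push_cast
        refine sum_congr rfl fun b _ => ?_
        have := hLF v b hv
        exact_mod_cast this
    · intro u
      cases hu : side u with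
      | true =>
        have h1 := hLT u u hu
        rw [hgT u u hu] at h1
        exact_mod_cast h1
      | false =>
        have h1 := hLF u u hu
        rw [hgF u u hu] at h1
        exact_mod_cast h1

/-- **Finish with integral weights on the edges.** -/
theorem bip_K_finish [Nontrivial V] (side : V → Bool) (hside : ∀ u v, G.Adj u v → side u ≠ side v)
    (P : ∀ x y : V, G.Walk x y) (hP : Paths P) {d : ℕ} (hd2 : 2 ≤ d) (hd : ∀ v, dg G v = d)
    (K₁ K₂ : Sym2 V → ℕ) (hK₁ : ∀ e, K₁ e ≠ 0 → e ∈ G.edgeSet)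
    (hK₂ : ∀ e, K₂ e ≠ 0 → e ∈ G.edgeSet)
    (hout : ∀ u w, G.Adj u w →
      (d - 1) * K₁ s(u, w) ≤ Fintype.card V - (2 + outKill P u w + outKill P w u))
    (hin : ∀ u w, G.Adj u w →
      (d - 1) * K₂ s(u, w) ≤ Fintype.card V - (4 + inKill P u w + inKill P w u)) (c : ℕ)
    (hc : ∀ v, (load P v : ℝ) + degE (fun e => (K₁ e : ℝ)) v + degE (fun e => (K₂ e : ℝ)) v = c) :
    HasUPS G := by
  have hr : 0 < d - 1 := by omega
  have hz : ∀ (K : Sym2 V → ℕ), (∀ e, K e ≠ 0 → e ∈ G.edgeSet) → ∀ u, K s(u, u) = 0 := by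
    intro K hK u
    by_contra hcon
    have h1 : G.Adj u u := hK _ hcon
    exact h1.ne rfl
  let D₁ : V → ℕ := fun v => ∑ w, K₁ s(v, w)
  let D₂ : V → ℕ := fun v => ∑ w, K₂ s(v, w)
  have hD₁ : ∀ v, degE (fun e => (K₁ e : ℝ)) v = D₁ v := by
    intro v
    rw [degE_eq _ (fun u => by rw [hz K₁ hK₁ u]; exact Nat.cast_zero)]
    simp only [D₁]
    push_cast
    rfl
  have hD₂ : ∀ v, degE (fun e => (K₂ e : ℝ)) v = D₂ v := by
    intro v
    rw [degE_eq _ (fun u => by rw [hz K₂ hK₂ u]; exact Nat.cast_zero)]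
    simp only [D₂]
    push_cast
    rfl
  obtain ⟨σ, hσ1, hσ2⟩ := bip_stage side (outG P) hr (outG_dg P hd) (fun e => (K₁ e : ℝ))
    (fun e => Nat.cast_nonneg _) (fun u w h => hside u w (hK₁ s(u, w) (by exact_mod_cast h)))
    (fun u w => by
      by_cases h : G.Adj u w
      · rw [av_eq (outG P) u w (AvOut P u w) fun x => ⟨fun hx => ⟨h, hx⟩, fun hx => hx.2⟩]
        have h1 := avOut_card P u w
        have h2 := hout u w h
        have h3 : (d - 1) * K₁ s(u, w) ≤ (AvOut P u w).card := by omega
        exact_mod_cast h3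
      · have h0 : K₁ s(u, w) = 0 := by
          by_contra hcon
          exact h (hK₁ _ hcon)
        rw [h0]
        simp) D₁ hD₁
  have hσ3 : ∀ x u, σ x u ≠ u → G.Adj u (σ x u) ∧ x ∈ AvOut P u (σ x u) := fun x u h =>
    (hσ1 x u).resolve_left h
  have hOK : OutOK P σ := by
    refine ⟨fun x => ?_, fun x u h => ?_⟩
    · by_contra h
      have h1 := (hσ3 x x h).2
      simp [AvOut] at h1
    · obtain ⟨h1, h2⟩ := hσ3 x u h
      simp only [AvOut, mem_filter, mem_univ, true_and] at h2
      exact ⟨h1.symm, h2.2.2.2⟩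
  obtain ⟨τ, hτ1, hτ2⟩ := bip_stage side (inG P σ) hr (inG_dg P σ hOK.1 hd)
    (fun e => (K₂ e : ℝ))
    (fun e => Nat.cast_nonneg _) (fun u w h => hside u w (hK₂ s(u, w) (by exact_mod_cast h)))
    (fun u w => by
      by_cases h : G.Adj u w
      · rw [av_eq (inG P σ) u w (AvIn P σ u w) fun x => ⟨fun hx => ⟨h, hx⟩, fun hx => hx.2⟩]
        have h1 := avIn_card' P σ hOK h.ne
        have h2 := hin u w h
        have h3 : (d - 1) * K₂ s(u, w) ≤ (AvIn P σ u w).card := by omega
        exact_mod_cast h3
      · have h0 : K₂ s(u, w) = 0 := by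
          by_contra hcon
          exact h (hK₂ _ hcon)
        rw [h0]
        simp) D₂ hD₂
  have hτ3 : ∀ y u, τ y u ≠ u → G.Adj u (τ y u) ∧ y ∈ AvIn P σ u (τ y u) := fun x u h =>
    (hτ1 x u).resolve_left h
  obtain ⟨P', hP', hl⟩ := two_sided P hP σ τ hOK (fun y => by
      by_contra h
      have h1 := (hτ3 y y h).2
      simp [AvIn] at h1) (fun y x h => by
      obtain ⟨h1, h2⟩ := hτ3 y x h
      simp only [AvIn, mem_filter, mem_univ, true_and] at h2
      exact ⟨h1, h2.2.2.2⟩)
  refine ⟨P', hP', c, fun v => ?_⟩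
  have h1 := hc v
  rw [hD₁, hD₂] at h1
  have h2 : load P v + D₁ v + D₂ v = c := by exact_mod_cast h1
  have h3 := hσ2 v
  have h4 := hτ2 v
  have h5 : (univ.filter fun x => σ x v ≠ v).card = D₁ v := by convert h3
  have h6 : (univ.filter fun x => τ x v ≠ v).card = D₂ v := by convert h4
  rw [hl v, ← h2, ← h5, ← h6]

/-- **Finish with integral capacities and the cut conditions.** -/
theorem bip_cut_finish [Nontrivial V] (side : V → Bool)
    (hside : ∀ u v, G.Adj u v → side u ≠ side v)
    (P : ∀ x y : V, G.Walk x y) (hP : Paths P) {d : ℕ} (hd2 : 2 ≤ d) (hd : ∀ v, dg G v = d)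
    (u₁ u₂ : Sym2 V → ℕ)
    (hout : ∀ u w, G.Adj u w →
      (d - 1) * u₁ s(u, w) ≤ Fintype.card V - (2 + outKill P u w + outKill P w u))
    (hin : ∀ u w, G.Adj u w →
      (d - 1) * u₂ s(u, w) ≤ Fintype.card V - (4 + inKill P u w + inKill P w u)) (c : ℕ)
    (htot : ∑ v with side v = true, ((c : ℝ) - load P v) =
      ∑ v with side v = false, ((c : ℝ) - load P v))
    (h : ∀ W : Finset V, ∑ v ∈ W with side v = true, ((c : ℝ) - load P v) -
      ∑ v ∈ W with side v = false, ((c : ℝ) - load P v) ≤
      ∑ p : V × V, if side p.1 = true ∧ p.1 ∈ W ∧ p.2 ∉ W ∧ G.Adj p.1 p.2 then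
        ((u₁ s(p.1, p.2) : ℝ) + u₂ s(p.1, p.2)) else 0) : HasUPS G := by
  let cap : Sym2 V → ℕ := fun e => if e ∈ G.edgeSet then u₁ e + u₂ e else 0
  have hcs : ∀ u v, cap s(u, v) ≠ 0 → side u ≠ side v := by
    intro u v h
    simp only [cap] at h
    split_ifs at h with h1
    · exact hside u v h1
    · exact absurd rfl h
  obtain ⟨K, hK, hKd⟩ := realK_bip side (fun e => (cap e : ℝ)) (fun e => Nat.cast_nonneg _)
    (fun u v h => hcs u v (by exact_mod_cast h)) (fun v => (c : ℝ) - load P v) htot
    (fun W => (h W).trans (le_of_eq (by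
      refine sum_congr rfl fun p _ => ?_
      by_cases h1 : side p.1 = true ∧ p.1 ∈ W ∧ p.2 ∉ W
      · rw [if_pos h1]
        simp only [cap]
        by_cases h2 : G.Adj p.1 p.2
        · rw [if_pos ⟨h1.1, h1.2.1, h1.2.2, h2⟩, if_pos (show s(p.1, p.2) ∈ G.edgeSet from h2)]
          push_cast
          rfl
        · rw [if_neg fun h3 => h2 h3.2.2.2, if_neg (show s(p.1, p.2) ∉ G.edgeSet from h2)]
          simp
      · rw [if_neg h1, if_neg fun h3 => h1 ⟨h3.1, h3.2.1, h3.2.2.1⟩])))
  obtain ⟨L, hL, hLd⟩ := round_deg side cap hcs K hK (fun v => (c : ℤ) - load P v)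
    (fun v => by rw [hKd v]; push_cast; rfl)
  have hLE : ∀ e, L e ≠ 0 → e ∈ G.edgeSet ∧ L e ≤ u₁ e + u₂ e := by
    intro e he
    have h1 := hL e
    simp only [cap] at h1
    split_ifs at h1 with h2
    · exact ⟨h2, h1⟩
    · exact absurd (Nat.le_zero.1 h1) he
  refine bip_K_finish side hside P hP hd2 hd (fun e => min (L e) (u₁ e))
    (fun e => L e - min (L e) (u₁ e)) (fun e he => (hLE e (by
      intro h0
      apply he
      simp only [h0]
      simp)).1) (fun e he => (hLE e (by
      intro h0
      apply he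
      simp only [h0]
      simp)).1) ?_ ?_ c ?_
  · intro u w huw
    have h1 := hout u w huw
    have h2 : (d - 1) * min (L s(u, w)) (u₁ s(u, w)) ≤ (d - 1) * u₁ s(u, w) :=
      Nat.mul_le_mul_left _ (min_le_right _ _)
    omega
  · intro u w huw
    have h1 := hin u w huw
    have h2 : (d - 1) * (L s(u, w) - min (L s(u, w)) (u₁ s(u, w))) ≤ (d - 1) * u₂ s(u, w) := by
      apply Nat.mul_le_mul_left
      by_cases h0 : L s(u, w) = 0
      · rw [h0]; simp
      · have := (hLE _ h0).2
        omega
    omega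
  · intro v
    have h1 := hLd v
    push_cast at h1
    have h2 : degE (fun e => ((min (L e) (u₁ e) : ℕ) : ℝ)) v +
        degE (fun e => ((L e - min (L e) (u₁ e) : ℕ) : ℝ)) v = degE (fun e => (L e : ℝ)) v := by
      simp only [degE]
      rw [← sum_add_distrib]
      refine sum_congr rfl fun e _ => ?_
      rw [Nat.cast_sub (min_le_left _ _)]
      ring
    rw [add_assoc, h2, h1]
    ring

/-- all kills of an edge (both stages, both directions) -/
def endK (P : ∀ x y : V, G.Walk x y) (u w : V) : ℕ :=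
  outKill P u w + outKill P w u + inKill P u w + inKill P w u

/-- **Finish with real capacities** `(2 (n - 1 - d) - endK) / (d - 1)` (cut form). -/
theorem bip_real_finish [Nontrivial V] (side : V → Bool)
    (hside : ∀ u v, G.Adj u v → side u ≠ side v)
    (P : ∀ x y : V, G.Walk x y) (hP : Paths P) {d : ℕ} (hd2 : 2 ≤ d) (hd : ∀ v, dg G v = d)
    (c : ℕ)
    (htot : ∑ v with side v = true, ((c : ℝ) - load P v) =
      ∑ v with side v = false, ((c : ℝ) - load P v))
    (h : ∀ W : Finset V, ∑ v ∈ W with side v = true, ((c : ℝ) - load P v) -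
      ∑ v ∈ W with side v = false, ((c : ℝ) - load P v) ≤
      ∑ p : V × V, if side p.1 = true ∧ p.1 ∈ W ∧ p.2 ∉ W ∧ G.Adj p.1 p.2 then
        (2 * ((Fintype.card V : ℝ) - 1 - d) - endK P p.1 p.2) / (d - 1) else 0) : HasUPS G := by
  have hd1 : 0 < d - 1 := by omega
  have hdR : ((d - 1 : ℕ) : ℝ) = (d : ℝ) - 1 := by
    rw [Nat.cast_sub (by omega)]; simp
  have hdR0 : (0 : ℝ) < (d : ℝ) - 1 := by
    rw [← hdR]; exact_mod_cast hd1
  let u₁ : Sym2 V → ℕ := Sym2.lift ⟨fun u w =>
    (Fintype.card V - (2 + outKill P u w + outKill P w u)) / (d - 1), fun u w => by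
    show (Fintype.card V - (2 + outKill P u w + outKill P w u)) / (d - 1) =
      (Fintype.card V - (2 + outKill P w u + outKill P u w)) / (d - 1)
    rw [add_right_comm]⟩
  let u₂ : Sym2 V → ℕ := Sym2.lift ⟨fun u w =>
    (Fintype.card V - (4 + inKill P u w + inKill P w u)) / (d - 1), fun u w => by
    show (Fintype.card V - (4 + inKill P u w + inKill P w u)) / (d - 1) =
      (Fintype.card V - (4 + inKill P w u + inKill P u w)) / (d - 1)
    rw [add_right_comm]⟩
  have hu₁ : ∀ u w, u₁ s(u, w) =
      (Fintype.card V - (2 + outKill P u w + outKill P w u)) / (d - 1) := fun u w => by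
    simp only [u₁, Sym2.lift_mk]
  have hu₂ : ∀ u w, u₂ s(u, w) =
      (Fintype.card V - (4 + inKill P u w + inKill P w u)) / (d - 1) := fun u w => by
    simp only [u₂, Sym2.lift_mk]
  have hfl : ∀ a b : ℕ, ((a : ℝ) - b - (d - 2)) / (d - 1) ≤ (((a - b) / (d - 1) : ℕ) : ℝ) := by
    intro a b
    rw [div_le_iff₀ hdR0, ← hdR]
    have h1 := Nat.div_add_mod (a - b) (d - 1)
    have h2 := Nat.mod_lt (a - b) hd1
    have h3 : a + 2 ≤ (a - b) / (d - 1) * (d - 1) + b + d := by
      rw [mul_comm]
      omega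
    have h4 : ((a + 2 : ℕ) : ℝ) ≤ ((((a - b) / (d - 1) * (d - 1) + b + d : ℕ)) : ℝ) := by
      exact_mod_cast h3
    push_cast at h4
    linarith
  refine bip_cut_finish side hside P hP hd2 hd u₁ u₂ (fun u w _ => ?_) (fun u w _ => ?_) c htot
    fun W => (h W).trans (sum_le_sum fun p _ => ?_)
  · rw [hu₁, mul_comm]
    exact Nat.div_mul_le_self _ _
  · rw [hu₂, mul_comm]
    exact Nat.div_mul_le_self _ _
  · split_ifs with h1
    · have e1 := hfl (Fintype.card V) (2 + outKill P p.1 p.2 + outKill P p.2 p.1)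
      have e2 := hfl (Fintype.card V) (4 + inKill P p.1 p.2 + inKill P p.2 p.1)
      rw [← hu₁] at e1
      rw [← hu₂] at e2
      refine le_trans (le_of_eq ?_) (add_le_add e1 e2)
      rw [← add_div]
      congr 1
      unfold endK
      push_cast
      ring
    · exact le_rfl

/-- the signed indicator of `W` -/
noncomputable def yW (side : V → Bool) (W : Finset V) (v : V) : ℝ :=
  if v ∈ W then (if side v = true then 1 else -1) else 0

/-- **Finish with real capacities, test form**: the same format as `realK`. -/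
theorem bip_test_finish [Nontrivial V] (side : V → Bool)
    (hside : ∀ u v, G.Adj u v → side u ≠ side v)
    (P : ∀ x y : V, G.Walk x y) (hP : Paths P) {d : ℕ} (hd2 : 2 ≤ d) (hd : ∀ v, dg G v = d)
    (c : ℕ)
    (htot : ∑ v with side v = true, ((c : ℝ) - load P v) =
      ∑ v with side v = false, ((c : ℝ) - load P v))
    (h : ∀ W : Finset V, 2 * ∑ v, yW side W v * ((c : ℝ) - load P v) ≤
      ∑ p : V × V, if G.Adj p.1 p.2 then
        (2 * ((Fintype.card V : ℝ) - 1 - d) - endK P p.1 p.2) / (d - 1) *
          max (yW side W p.1 + yW side W p.2) 0 else 0) : HasUPS G := by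
  refine bip_real_finish side hside P hP hd2 hd c htot fun W => ?_
  have h1 := h W
  have e1 : ∑ v, yW side W v * ((c : ℝ) - load P v) =
      ∑ v ∈ W with side v = true, ((c : ℝ) - load P v) -
      ∑ v ∈ W with side v = false, ((c : ℝ) - load P v) := by
    have e2 : ∀ v, yW side W v * ((c : ℝ) - load P v) =
        (if v ∈ W ∧ side v = true then ((c : ℝ) - load P v) else 0) -
        (if v ∈ W ∧ side v = false then ((c : ℝ) - load P v) else 0) := by
      intro v
      unfold yW
      by_cases hv : v ∈ W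
      · cases hs : side v <;> simp [hv]
      · simp [hv]
    rw [sum_congr rfl fun v _ => e2 v, sum_sub_distrib, ← sum_filter, ← sum_filter]
    congr 1
    · refine sum_congr ?_ fun _ _ => rfl
      ext v
      simp
    · refine sum_congr ?_ fun _ _ => rfl
      ext v
      simp
  let f : V → V → ℝ := fun a b => if side a = true ∧ a ∈ W ∧ b ∉ W ∧ G.Adj a b then
        (2 * ((Fintype.card V : ℝ) - 1 - d) - endK P a b) / (d - 1) else 0
  have hendK : ∀ a b, endK P a b = endK P b a := by
    intro a b
    unfold endK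
    omega
  have e3 : ∀ p : V × V, (if G.Adj p.1 p.2 then
        (2 * ((Fintype.card V : ℝ) - 1 - d) - endK P p.1 p.2) / (d - 1) *
          max (yW side W p.1 + yW side W p.2) 0 else 0) = f p.1 p.2 + f p.2 p.1 := by
    rintro ⟨a, b⟩
    simp only [f]
    by_cases hab : G.Adj a b
    · have h2 := hside a b hab
      rw [if_pos hab, hendK b a]
      unfold yW
      by_cases ha : a ∈ W <;> by_cases hb : b ∈ W <;> cases hsa : side a <;>
        cases hsb : side b <;> simp_all [G.adj_comm b a]
    · rw [if_neg hab, if_neg fun h => hab h.2.2.2, if_neg fun h => hab h.2.2.2.symm, add_zero]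
  have e4 : ∑ p : V × V, f p.2 p.1 = ∑ p : V × V, f p.1 p.2 :=
    Fintype.sum_equiv (Equiv.prodComm V V) _ _ fun p => rfl
  rw [sum_congr rfl fun p _ => e3 p, sum_add_distrib, e4, e1] at h1
  have h3 : ∑ p : V × V, f p.1 p.2 = ∑ p : V × V,
      if side p.1 = true ∧ p.1 ∈ W ∧ p.2 ∉ W ∧ G.Adj p.1 p.2 then
        (2 * ((Fintype.card V : ℝ) - 1 - d) - endK P p.1 p.2) / (d - 1) else 0 := rfl
  rw [← h3]
  linarith

end Pool.Agent.UPS3
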