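import Pool.Agent.Lib.MP_876e19_co_ups.GswSharp

/-!
# The Gram-Schmidt walk with several options per group (helper96, after an idea of helper36)

`gsw_group`: options `o` are divided into groups by `g`, every group carries a probability vector
`p`, and the vectors `a o`, `a o'` of one group differ by at most `2 R` in norm.  Then one option
of positive weight can be selected in every group such that
`∑ t, exp (s t + <θ t, ∑ i, a (sel i) - ∑ o, p o • a o>) ≤ ∑ t, exp (s t + R ^ 2 ‖θ t‖ ^ 2 / 2)`.
The constant does not depend on the number of options.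
-/

set_option autoImplicit false

namespace Pool.Agent.UPS.Grp

open Real Finset Pool.Agent.UPS

section abs

variable {E : Type*} [NormedAddCommGroup E] [InnerProductSpace ℝ E] [FiniteDimensional ℝ E]

/-- the component orthogonal to a subspace is not longer -/
lemma comp_norm_sq_le (S : Submodule ℝ E) {b : E} (hb : ‖b‖ ≤ 1) :
    ‖b - S.starProjection b‖ ^ 2 ≤ 1 := by
  set w := b - S.starProjection b with hw
  have h0 : (inner ℝ (S.starProjection b) w) = 0 := by
    rw [real_inner_comm]
    exact S.starProjection_inner_eq_zero b _ (S.starProjection_apply_mem b)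
  have h1 : (inner ℝ b w) = ‖w‖ ^ 2 := by
    have : b = w + S.starProjection b := by rw [hw]; abel
    rw [← real_inner_self_eq_norm_sq]
    nth_rewrite 1 [this]
    rw [inner_add_left, h0, add_zero]
  have h2 : (inner ℝ b w) ≤ ‖b‖ * ‖w‖ := real_inner_le_norm _ _
  have h3 : ‖w‖ ^ 2 ≤ ‖w‖ := by
    rw [← h1]
    calc _ ≤ ‖b‖ * ‖w‖ := h2
      _ ≤ 1 * ‖w‖ := by gcongr
      _ = _ := one_mul _
  have h4 : ‖w‖ ≤ 1 := by
    by_contra hneg
    push Not at hneg
    nlinarith
  nlinarith [norm_nonneg w]

/-- key comparison of potentials, abstract form -/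
lemma pot_keep_abs {S S' T T' : Submodule ℝ E} (hSS : S' ≤ S) (hTT : T' ≤ T) {w w' : E}
    (hwS : w ∈ S) (hwS' : w' ∈ S') (hwT : ∀ t ∈ T, (inner ℝ t w) = 0)
    (hwT' : ∀ t ∈ T', (inner ℝ t w') = 0) (hdiff : w' - w ∈ T)
    (hdec : S' ≤ T' ⊔ Submodule.span ℝ {w'}) (hn : ‖w'‖ ^ 2 ≤ 1)
    {x : ℝ} (hx : |x| ≤ 1) (θ : E) :
    exp (1 / 2 * pn S' θ - 1 / 2 * (inner ℝ θ w') ^ 2) * gG x (inner ℝ θ w') ≤
      exp (1 / 2 * pn S θ - 1 / 2 * (inner ℝ θ w) ^ 2) * gG x (inner ℝ θ w) := by
  set c := (inner ℝ θ w) with hc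
  set c' := (inner ℝ θ w') with hc'
  set F := pn S θ - pn S' θ with hF
  have hF0 : 0 ≤ F := by have := pn_mono hSS θ; linarith
  have horth : (inner ℝ (w' - w) w) = 0 := hwT _ hdiff
  have hww : (inner ℝ w' w) = ‖w‖ ^ 2 := by
    rw [inner_sub_left, real_inner_self_eq_norm_sq] at horth
    linarith
  set a := ‖w‖ ^ 2 with ha
  set b := ‖w' - w‖ ^ 2 with hb
  have hab : ‖w'‖ ^ 2 = a + b := by
    have : w' = w + (w' - w) := by abel
    rw [this, norm_add_sq_real, real_inner_comm, horth]; simp [ha, hb]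
  have hab1 : a + b ≤ 1 := by rw [← hab]; exact hn
  have ha0 : 0 ≤ a := sq_nonneg _
  have hb0 : 0 ≤ b := sq_nonneg _
  suffices h : gG x c' * exp (1 / 2 * (c ^ 2 - c' ^ 2)) ≤ gG x c * exp (1 / 2 * F) by
    have e1 : exp (1 / 2 * pn S' θ - 1 / 2 * c' ^ 2) =
        exp (1 / 2 * pn S' θ - 1 / 2 * c ^ 2) * exp (1 / 2 * (c ^ 2 - c' ^ 2)) := by
      rw [← exp_add]; congr 1; ring
    have e2 : exp (1 / 2 * pn S θ - 1 / 2 * c ^ 2) =
        exp (1 / 2 * pn S' θ - 1 / 2 * c ^ 2) * exp (1 / 2 * F) := by
      rw [← exp_add, hF]; congr 1; ring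
    rw [e1, e2]
    have := mul_le_mul_of_nonneg_left h (exp_pos (1 / 2 * pn S' θ - 1 / 2 * c ^ 2)).le
    nlinarith
  rcases ha0.eq_or_lt with ha' | ha'
  · have hw0 : w = 0 := by
      have : ‖w‖ = 0 := by
        have h := ha'.symm
        rw [ha] at h
        exact pow_eq_zero_iff (two_ne_zero) |>.1 h
      exact norm_eq_zero.1 this
    have hc0 : c = 0 := by rw [hc, hw0, inner_zero_right]
    rw [hc0]
    have h1 := Sharp.gG_le_half hx c'
    have h2 : gG x c' * exp (1 / 2 * ((0:ℝ) ^ 2 - c' ^ 2)) ≤ 1 := by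
      calc _ ≤ exp (c' ^ 2 / 2) * exp (1 / 2 * ((0:ℝ) ^ 2 - c' ^ 2)) := by gcongr
        _ = exp (c' ^ 2 / 2 + 1 / 2 * ((0:ℝ) ^ 2 - c' ^ 2)) := by rw [exp_add]
        _ ≤ exp 0 := by apply exp_le_exp.2; nlinarith [sq_nonneg c']
        _ = 1 := exp_zero
    have h3 := one_le_gG hx 0
    have h4 : 1 ≤ exp (1 / 2 * F) := one_le_exp (by linarith)
    nlinarith
  rcases hb0.eq_or_lt with hb' | hb'
  · have hw0 : w' - w = 0 := by
      have : ‖w' - w‖ = 0 := by
        have h := hb'.symm
        rw [hb] at h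
        exact pow_eq_zero_iff (two_ne_zero) |>.1 h
      exact norm_eq_zero.1 this
    have hc0 : c' = c := by
      rw [hc, hc', sub_eq_zero.1 hw0]
    rw [hc0, sub_self, mul_zero, exp_zero, mul_one]
    have h3 := one_le_gG hx c
    have h4 : 1 ≤ exp (1 / 2 * F) := one_le_exp (by linarith)
    nlinarith
  · apply Sharp.gG_key_half hx ha' hb' hab1
    set z : E := (a + b) • w - a • w' with hz
    have hzS : z ∈ S := S.sub_mem (S.smul_mem _ hwS) (S.smul_mem _ (hSS hwS'))
    have hzT : ∀ t ∈ S', (inner ℝ t z) = 0 := by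
      intro t ht
      have ht' := hdec ht
      rw [Submodule.mem_sup] at ht'
      obtain ⟨t1, ht1, t2, ht2, rfl⟩ := ht'
      rw [Submodule.mem_span_singleton] at ht2
      obtain ⟨r, rfl⟩ := ht2
      have e1 : (inner ℝ t1 w) = 0 := hwT _ (hTT ht1)
      have e2 : (inner ℝ t1 w') = 0 := hwT' _ ht1
      have e3 : (inner ℝ w' w') = a + b := by rw [real_inner_self_eq_norm_sq, hab]
      rw [hz, inner_add_left, inner_sub_right, inner_sub_right, inner_smul_right, inner_smul_right,
        inner_smul_right, inner_smul_right, e1, e2, inner_smul_left, inner_smul_left, hww,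
        e3]
      simp
      ring
    have hg := proj_gain hSS hzS hzT θ
    have hzn : ‖z‖ ^ 2 = a * b * (a + b) := by
      rw [← real_inner_self_eq_norm_sq, hz, inner_sub_left, inner_sub_right, inner_sub_right]
      simp only [inner_smul_left, inner_smul_right]
      rw [real_inner_self_eq_norm_sq, real_inner_self_eq_norm_sq, hab, hww, real_inner_comm, hww,
        ← ha]
      simp
      ring
    have hin : (inner ℝ θ z) = b * c - a * (c' - c) := by
      rw [hz, inner_sub_right, inner_smul_right, inner_smul_right, ← hc, ← hc']; ring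
    rw [hin, hzn] at hg
    rw [hF]
    linarith

/-- comparison of potentials when the pivot is frozen, abstract form -/
lemma pot_drop_abs {S S' T : Submodule ℝ E} (hSS : S' ≤ S) (hST : S' ≤ T) {w : E}
    (hwS : w ∈ S) (hwT : ∀ t ∈ T, (inner ℝ t w) = 0) (hn : ‖w‖ ^ 2 ≤ 1) (θ : E) :
    1 / 2 * pn S' θ ≤ 1 / 2 * pn S θ - 1 / 2 * (inner ℝ θ w) ^ 2 := by
  have hg := proj_gain hSS hwS (fun t ht => hwT t (hST ht)) θ
  have h2 := pn_mono hSS θ
  have h3 : 0 ≤ ‖w‖ ^ 2 := sq_nonneg _
  have h5 : (pn S θ - pn S' θ) * ‖w‖ ^ 2 ≤ (pn S θ - pn S' θ) * 1 := by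
    apply mul_le_mul_of_nonneg_left hn; linarith
  linarith

end abs

section geometry

variable {E : Type*} [NormedAddCommGroup E] [InnerProductSpace ℝ E] [FiniteDimensional ℝ E]
variable {O I : Type*} [DecidableEq O] (g : O → I) (u : O → E)

/-- span of the differences inside the groups of `A` -/
noncomputable def vs (A : Finset O) : Submodule ℝ E :=
  Submodule.span ℝ {v | ∃ o ∈ A, ∃ o' ∈ A, g o = g o' ∧ v = u o - u o'}

lemma vs_mono {A B : Finset O} (h : A ⊆ B) : vs g u A ≤ vs g u B := by
  apply Submodule.span_mono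
  rintro v ⟨o, ho, o', ho', h1, h2⟩
  exact ⟨o, h ho, o', h ho', h1, h2⟩

lemma sub_mem_vs {A : Finset O} {o o' : O} (ho : o ∈ A) (ho' : o' ∈ A) (h : g o = g o') :
    u o - u o' ∈ vs g u A := Submodule.subset_span ⟨o, ho, o', ho', h, rfl⟩

/-- component of `u q - u r` orthogonal to the differences that do not use `q` -/
noncomputable def wg (A : Finset O) (q r : O) : E :=
  (u q - u r) - (vs g u (A.erase q)).starProjection (u q - u r)

lemma wg_orth (A : Finset O) (q r : O) {t : E} (ht : t ∈ vs g u (A.erase q)) :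
    (inner ℝ t (wg g u A q r)) = 0 := by
  rw [real_inner_comm]
  exact (vs g u (A.erase q)).starProjection_inner_eq_zero (u q - u r) t ht

lemma wg_mem {A : Finset O} {q r : O} (hq : q ∈ A) (hr : r ∈ A) (h : g q = g r) :
    wg g u A q r ∈ vs g u A :=
  (vs g u A).sub_mem (sub_mem_vs g u hq hr h)
    (vs_mono g u (A.erase_subset q) ((vs g u (A.erase q)).starProjection_apply_mem _))

/-- the reference option does not matter -/
lemma wg_ref {A : Finset O} {q r r' : O} (hr : r ∈ A.erase q) (hr' : r' ∈ A.erase q)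
    (h : g r' = g r) : wg g u A q r = wg g u A q r' := by
  have h1 : (vs g u (A.erase q)).starProjection (u r' - u r) = u r' - u r :=
    Submodule.starProjection_eq_self_iff.2 (sub_mem_vs g u hr' hr h)
  have h2 : (vs g u (A.erase q)).starProjection (u q - u r) =
      (vs g u (A.erase q)).starProjection (u q - u r') + (u r' - u r) := by
    have h3 : u q - u r = (u q - u r') + (u r' - u r) := by abel
    rw [h3, map_add, h1]
  unfold wg
  rw [h2]
  abel

lemma wg_diff {A A' : Finset O} (hA : A' ⊆ A) (q r : O) :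
    wg g u A' q r - wg g u A q r ∈ vs g u (A.erase q) := by
  have : wg g u A' q r - wg g u A q r = (vs g u (A.erase q)).starProjection (u q - u r) -
      (vs g u (A'.erase q)).starProjection (u q - u r) := by
    unfold wg; abel
  rw [this]
  exact (vs g u (A.erase q)).sub_mem ((vs g u (A.erase q)).starProjection_apply_mem _)
    (vs_mono g u (Finset.erase_subset_erase q hA)
      ((vs g u (A'.erase q)).starProjection_apply_mem _))

lemma vs_decomp {A : Finset O} {q r : O} (hr : r ∈ A.erase q) (h : g q = g r) :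
    vs g u A ≤ vs g u (A.erase q) ⊔ Submodule.span ℝ {wg g u A q r} := by
  have hqr : u q - u r ∈ vs g u (A.erase q) ⊔ Submodule.span ℝ {wg g u A q r} := by
    have : u q - u r = (vs g u (A.erase q)).starProjection (u q - u r) + wg g u A q r := by
      unfold wg; abel
    rw [this]
    exact Submodule.add_mem_sup ((vs g u (A.erase q)).starProjection_apply_mem _)
      (Submodule.mem_span_singleton_self _)
  have hq : ∀ o ∈ A, g o = g q →
      u o - u r ∈ vs g u (A.erase q) ⊔ Submodule.span ℝ {wg g u A q r} := by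
    intro o ho hg
    by_cases hoq : o = q
    · rw [hoq]; exact hqr
    · exact Submodule.mem_sup_left
        (sub_mem_vs g u (Finset.mem_erase.2 ⟨hoq, ho⟩) hr (hg.trans h))
  unfold vs at hq ⊢
  rw [Submodule.span_le]
  rintro _ ⟨o, ho, o', ho', hg, rfl⟩
  rw [SetLike.mem_coe]
  by_cases hoq : g o = g q
  · have e : u o - u o' = (u o - u r) - (u o' - u r) := by abel
    rw [e]
    exact Submodule.sub_mem _ (hq o ho hoq) (hq o' ho' (hg.symm.trans hoq))
  · apply Submodule.mem_sup_left
    apply Submodule.subset_span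
    refine ⟨o, Finset.mem_erase.2 ⟨?_, ho⟩, o', Finset.mem_erase.2 ⟨?_, ho'⟩, hg, rfl⟩
    · rintro rfl; exact hoq rfl
    · rintro rfl; exact hoq hg

/-- coefficients of an element of `vs` -/
lemma exists_coeff [Fintype O] {B : Finset O} {v : E} (hv : v ∈ vs g u B) :
    ∃ z : O → ℝ, (∀ o, o ∉ B → z o = 0) ∧ (∀ φ : I → ℝ, ∑ o, z o * φ (g o) = 0) ∧
      ∑ o, z o • u o = v := by
  unfold vs at hv
  induction hv using Submodule.span_induction with
  | mem v hv =>
    obtain ⟨o, ho, o', ho', hg, rfl⟩ := hv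
    refine ⟨fun i => (if i = o then 1 else 0) - (if i = o' then 1 else 0), ?_, ?_, ?_⟩
    · intro i hi
      have h1 : i ≠ o := fun h => hi (h ▸ ho)
      have h2 : i ≠ o' := fun h => hi (h ▸ ho')
      beta_reduce
      rw [if_neg h1, if_neg h2, sub_zero]
    · intro φ
      simp only [sub_mul, Finset.sum_sub_distrib, ite_mul, one_mul, zero_mul,
        Finset.sum_ite_eq', Finset.mem_univ, if_true]
      rw [hg, sub_self]
    · simp only [sub_smul, Finset.sum_sub_distrib, ite_smul, one_smul, zero_smul,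
        Finset.sum_ite_eq', Finset.mem_univ, if_true]
  | zero => exact ⟨fun _ => 0, fun _ _ => rfl, fun φ => by simp, by simp⟩
  | add v w _ _ hv hw =>
    obtain ⟨z1, h1, h2, h3⟩ := hv
    obtain ⟨z2, k1, k2, k3⟩ := hw
    refine ⟨fun o => z1 o + z2 o, ?_, ?_, ?_⟩
    · intro o ho
      beta_reduce
      rw [h1 o ho, k1 o ho, add_zero]
    · intro φ
      simp only [add_mul, Finset.sum_add_distrib]
      rw [h2, k2, add_zero]
    · simp only [add_smul, Finset.sum_add_distrib]
      rw [h3, k3]
  | smul c v _ hv =>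
    obtain ⟨z1, h1, h2, h3⟩ := hv
    refine ⟨fun o => c * z1 o, ?_, ?_, ?_⟩
    · intro o ho
      beta_reduce
      rw [h1 o ho, mul_zero]
    · intro φ
      simp only [mul_assoc]
      rw [← Finset.mul_sum, h2, mul_zero]
    · simp only [mul_smul]
      rw [← Finset.smul_sum, h3]

/-- the direction of a step -/
lemma exists_dir_group [Fintype O] {A : Finset O} {q r : O} (hq : q ∈ A) (hr : r ∈ A.erase q)
    (h : g q = g r) :
    ∃ z : O → ℝ, z q = 1 ∧ (∀ o, o ∉ A → z o = 0) ∧ (∀ φ : I → ℝ, ∑ o, z o * φ (g o) = 0) ∧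
      ∑ o, z o • u o = wg g u A q r := by
  obtain ⟨y, h1, h2, h3⟩ := exists_coeff g u
    ((vs g u (A.erase q)).starProjection_apply_mem (u q - u r))
  have hrq : r ≠ q := (Finset.mem_erase.1 hr).1
  refine ⟨fun i => (if i = q then 1 else 0) - (if i = r then 1 else 0) - y i, ?_, ?_, ?_, ?_⟩
  · beta_reduce
    rw [if_pos rfl, if_neg hrq.symm, h1 q (Finset.notMem_erase q A)]
    ring
  · intro o ho
    have e1 : o ≠ q := fun h => ho (h ▸ hq)
    have e2 : o ≠ r := fun h => ho (h ▸ (Finset.mem_erase.1 hr).2)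
    beta_reduce
    rw [if_neg e1, if_neg e2, h1 o (fun h => ho (Finset.mem_erase.1 h).2)]
    ring
  · intro φ
    simp only [sub_mul, Finset.sum_sub_distrib, ite_mul, one_mul, zero_mul,
      Finset.sum_ite_eq', Finset.mem_univ, if_true]
    rw [h2, h]
    ring
  · simp only [sub_smul, Finset.sum_sub_distrib, ite_smul, one_smul, zero_smul,
      Finset.sum_ite_eq', Finset.mem_univ, if_true]
    rw [h3]
    rfl

end geometry

section main

variable {E : Type*} [NormedAddCommGroup E] [InnerProductSpace ℝ E] [FiniteDimensional ℝ E]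
variable {O I Θ : Type*} [DecidableEq O] [DecidableEq I] [Fintype O] [Fintype Θ]

/-- fractional selections in sign coordinates: the weight of `o` is `(1 + x o) / 2` -/
def Valid (g : O → I) (x : O → ℝ) : Prop :=
  (∀ o, |x o| ≤ 1) ∧ ∀ o, ∑ o', (1 + x o') * (if g o' = g o then 1 else 0) = 2

/-- the alive options -/
noncomputable def alive (x : O → ℝ) : Finset O := univ.filter (fun o => |x o| < 1)

lemma mem_alive {x : O → ℝ} {o : O} : o ∈ alive x ↔ |x o| < 1 := by
  unfold alive
  rw [Finset.mem_filter]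
  exact ⟨fun h => h.2, fun h => ⟨Finset.mem_univ o, h⟩⟩

lemma abs_eq_one_of_not_alive {g : O → I} {x : O → ℝ} (hx : Valid g x) {o : O}
    (ho : o ∉ alive x) : |x o| = 1 := by
  apply le_antisymm (hx.1 o)
  by_contra hneg
  push Not at hneg
  exact ho (mem_alive.2 hneg)

/-- an alive option has an alive companion -/
lemma exists_ref {g : O → I} {x : O → ℝ} (hx : Valid g x) {q : O} (hq : q ∈ alive x) :
    ∃ r ∈ (alive x).erase q, g q = g r := by
  by_contra hcon
  push Not at hcon
  have hq1 := abs_lt.1 (mem_alive.1 hq)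
  have h1 : ∀ r, r ≠ q → g r = g q → x r = 1 ∨ x r = -1 := by
    intro r hr hg
    by_cases h : r ∈ alive x
    · exact absurd hg.symm (hcon r (Finset.mem_erase.2 ⟨hr, h⟩))
    · exact eq_or_eq_neg_of_abs_eq (abs_eq_one_of_not_alive hx h)
  have hnn : ∀ o', 0 ≤ (1 + x o') * (if g o' = g q then (1:ℝ) else 0) := by
    intro o'
    have := (abs_le.1 (hx.1 o')).1
    split_ifs
    · linarith
    · linarith
  have hsum := hx.2 q
  have h2 : ∀ r, r ≠ q → g r = g q → x r = -1 := by
    intro r hr hg
    rcases h1 r hr hg with h | h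
    · exfalso
      have h3 : ∑ o' ∈ ({q, r} : Finset O), (1 + x o') * (if g o' = g q then (1:ℝ) else 0) ≤
          ∑ o', (1 + x o') * (if g o' = g q then (1:ℝ) else 0) :=
        Finset.sum_le_sum_of_subset_of_nonneg (Finset.subset_univ _) (fun o' _ _ => hnn o')
      rw [Finset.sum_pair hr.symm, hsum, if_pos rfl, if_pos hg, h] at h3
      linarith
    · exact h
  have h3 : ∑ o', (1 + x o') * (if g o' = g q then (1:ℝ) else 0) = 1 + x q := by
    rw [Finset.sum_eq_single q]
    · rw [if_pos rfl, mul_one]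
    · intro r _ hr
      by_cases hg : g r = g q
      · rw [h2 r hr hg]; ring
      · rw [if_neg hg, mul_zero]
    · intro h; exact absurd (Finset.mem_univ q) h
  rw [hsum] at h3
  linarith

/-- one step of the walk -/
lemma step (g : O → I) (u : O → E) (θ : Θ → E) (x : O → ℝ) (hx : Valid g x) (q r : O) (s : Θ → ℝ)
    (hq : q ∈ alive x) (hr : r ∈ (alive x).erase q) (hg : g q = g r) :
    ∃ (y : O → ℝ) (κ : ℝ), Valid g y ∧ (∃ i ∈ alive x, |y i| = 1) ∧
      (∀ i, i ∉ alive x → y i = x i) ∧
      (∑ i, (y i - x i) • u i = κ • wg g u (alive x) q r) ∧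
      ∑ t, exp (s t + κ * inner ℝ (θ t) (wg g u (alive x) q r)) *
          (exp (1 / 2 * pn (vs g u (alive x)) (θ t) -
              1 / 2 * (inner ℝ (θ t) (wg g u (alive x) q r)) ^ 2) *
             gG (y q) (inner ℝ (θ t) (wg g u (alive x) q r))) ≤
        ∑ t, exp (s t) * (exp (1 / 2 * pn (vs g u (alive x)) (θ t) -
              1 / 2 * (inner ℝ (θ t) (wg g u (alive x) q r)) ^ 2) *
             gG (x q) (inner ℝ (θ t) (wg g u (alive x) q r))) := by
  obtain ⟨z, hzq, hz0, hzφ, hz⟩ := exists_dir_group g u hq hr hg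
  set A := alive x with hA
  set c : Θ → ℝ := fun t => inner ℝ (θ t) (wg g u A q r) with hc
  set P : Θ → ℝ := fun t => 1 / 2 * pn (vs g u A) (θ t) - 1 / 2 * (c t) ^ 2 with hP
  set K : Θ → ℝ := fun t => exp (s t) * exp (P t) * exp (-(x q * c t)) with hK
  have key : ∀ κ : ℝ, ∑ t, exp (s t + κ * c t) * (exp (P t) * gG (x q + κ) (c t)) =
      ∑ t, exp (s t) * (exp (P t) * gG (x q) (c t)) + κ * ∑ t, K t * sinh (c t) := by
    intro κ
    rw [Finset.mul_sum, ← Finset.sum_add_distrib]
    apply Finset.sum_congr rfl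
    intro t _
    have h1 : exp (s t + κ * c t) * exp (-((x q + κ) * c t)) = exp (s t) * exp (-(x q * c t)) := by
      rw [← exp_add, ← exp_add]; congr 1; ring
    unfold gG
    calc exp (s t + κ * c t) * (exp (P t) *
          (exp (-((x q + κ) * c t)) * (cosh (c t) + (x q + κ) * sinh (c t))))
        = (exp (s t + κ * c t) * exp (-((x q + κ) * c t))) * exp (P t) *
            (cosh (c t) + (x q + κ) * sinh (c t)) := by ring
      _ = (exp (s t) * exp (-(x q * c t))) * exp (P t) *
            (cosh (c t) + (x q + κ) * sinh (c t)) := by rw [h1]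
      _ = _ := by rw [hK]; ring
  have main : ∀ (z' : O → ℝ) (σ : ℝ), (∀ i, z' i = σ * z i) → σ ≠ 0 →
      (σ * ∑ t, K t * sinh (c t) ≤ 0) →
      ∃ (y : O → ℝ) (κ : ℝ), Valid g y ∧ (∃ i ∈ A, |y i| = 1) ∧
      (∀ i, i ∉ A → y i = x i) ∧
      (∑ i, (y i - x i) • u i = κ • wg g u A q r) ∧
      ∑ t, exp (s t + κ * c t) * (exp (P t) * gG (y q) (c t)) ≤
        ∑ t, exp (s t) * (exp (P t) * gG (x q) (c t)) := by
    intro z' σ hz' hσ hle
    obtain ⟨δ, hδ, h1, i0, hi0, h2⟩ := exists_step A x z' (fun i hi => mem_alive.1 hi) q hq (by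
      rw [hz', hzq, mul_one]; exact hσ)
    have hz'0 : ∀ o, o ∉ A → z' o = 0 := by
      intro o ho
      rw [hz', hz0 o ho, mul_zero]
    refine ⟨fun i => x i + δ * z' i, δ * σ, ⟨?_, ?_⟩, ⟨i0, hi0, h2⟩, ?_, ?_, ?_⟩
    · intro o
      beta_reduce
      by_cases ho : o ∈ A
      · exact h1 o ho
      · rw [hz'0 o ho, mul_zero, add_zero]
        exact hx.1 o
    · intro o
      have e1 : ∑ o', (1 + (x o' + δ * z' o')) * (if g o' = g o then (1:ℝ) else 0) =
          ∑ o', (1 + x o') * (if g o' = g o then (1:ℝ) else 0) +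
            (δ * σ) * ∑ o', z o' * (if g o' = g o then (1:ℝ) else 0) := by
        rw [Finset.mul_sum, ← Finset.sum_add_distrib]
        apply Finset.sum_congr rfl
        intro o' _
        rw [hz']
        ring
      rw [e1, hx.2 o, hzφ (fun i => if i = g o then (1:ℝ) else 0), mul_zero, add_zero]
    · intro i hi
      beta_reduce
      rw [hz'0 i hi, mul_zero, add_zero]
    · rw [← hz, Finset.smul_sum]
      apply Finset.sum_congr rfl
      intro i _
      beta_reduce
      rw [smul_smul, hz']
      congr 1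
      ring
    · have e : x q + δ * z' q = x q + δ * σ := by
        rw [hz', hzq]; ring
      beta_reduce
      rw [e, key (δ * σ)]
      nlinarith
  rcases le_total (∑ t, K t * sinh (c t)) 0 with h | h
  · exact main z 1 (fun i => (one_mul _).symm) one_ne_zero (by linarith)
  · exact main (fun i => -1 * z i) (-1) (fun i => rfl) (by norm_num) (by linarith)

lemma group_ind (g : O → I) (u : O → E) (hu : ∀ o o', g o = g o' → ‖u o - u o'‖ ≤ 1)
    (θ : Θ → E) (m : ℕ) :
    (∀ (x : O → ℝ) (s : Θ → ℝ), Valid g x → (alive x).card ≤ m →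
      ∃ x' : O → ℝ, Valid g x' ∧ (∀ i, |x' i| = 1) ∧ (∀ i, i ∉ alive x → x' i = x i) ∧
        ∑ t, exp (s t + inner ℝ (θ t) (∑ i, (x' i - x i) • u i)) ≤
          ∑ t, exp (s t + 1 / 2 * pn (vs g u (alive x)) (θ t))) ∧
    (∀ (x : O → ℝ) (s : Θ → ℝ) (q r : O), Valid g x → (alive x).card ≤ m → q ∈ alive x →
      r ∈ (alive x).erase q → g q = g r →
      ∃ x' : O → ℝ, Valid g x' ∧ (∀ i, |x' i| = 1) ∧ (∀ i, i ∉ alive x → x' i = x i) ∧
        ∑ t, exp (s t + inner ℝ (θ t) (∑ i, (x' i - x i) • u i)) ≤
          ∑ t, exp (s t) * (exp (1 / 2 * pn (vs g u (alive x)) (θ t) -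
              1 / 2 * (inner ℝ (θ t) (wg g u (alive x) q r)) ^ 2) *
             gG (x q) (inner ℝ (θ t) (wg g u (alive x) q r)))) := by
  have triv : ∀ (x : O → ℝ) (s : Θ → ℝ), Valid g x → alive x = ∅ →
      ∃ x' : O → ℝ, Valid g x' ∧ (∀ i, |x' i| = 1) ∧ (∀ i, i ∉ alive x → x' i = x i) ∧
        ∑ t, exp (s t + inner ℝ (θ t) (∑ i, (x' i - x i) • u i)) ≤
          ∑ t, exp (s t + 1 / 2 * pn (vs g u (alive x)) (θ t)) := by
    intro x s hx h
    refine ⟨x, hx, ?_, fun i _ => rfl, ?_⟩
    · intro i
      exact abs_eq_one_of_not_alive hx (by rw [h]; exact Finset.notMem_empty i)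
    · apply Finset.sum_le_sum
      intro t _
      apply exp_le_exp.2
      have := pn_nonneg (vs g u (alive x)) (θ t)
      simp only [sub_self, zero_smul, Finset.sum_const_zero, inner_zero_right]
      linarith
  induction m with
  | zero =>
    constructor
    · intro x s hx hA
      exact triv x s hx (Finset.card_eq_zero.1 (Nat.le_zero.1 hA))
    · intro x s q r _ hA hq
      rw [Finset.card_eq_zero.1 (Nat.le_zero.1 hA)] at hq
      exact absurd hq (Finset.notMem_empty q)
  | succ m ih =>
    obtain ⟨ih0, ih1⟩ := ih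
    have claim1 : ∀ (x : O → ℝ) (s : Θ → ℝ) (q r : O), Valid g x → (alive x).card ≤ m + 1 →
      q ∈ alive x → r ∈ (alive x).erase q → g q = g r →
      ∃ x' : O → ℝ, Valid g x' ∧ (∀ i, |x' i| = 1) ∧ (∀ i, i ∉ alive x → x' i = x i) ∧
        ∑ t, exp (s t + inner ℝ (θ t) (∑ i, (x' i - x i) • u i)) ≤
          ∑ t, exp (s t) * (exp (1 / 2 * pn (vs g u (alive x)) (θ t) -
              1 / 2 * (inner ℝ (θ t) (wg g u (alive x) q r)) ^ 2) *
             gG (x q) (inner ℝ (θ t) (wg g u (alive x) q r))) := by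
      intro x s q r hx hA hq hr hg
      obtain ⟨y, κ, hy1, ⟨i0, hi0, hy2⟩, hy3, hy4, hy5⟩ := step g u θ x hx q r s hq hr hg
      have hsub : alive y ⊆ alive x := by
        intro i hi
        by_contra h
        have h1 := mem_alive.1 hi
        rw [hy3 i h, abs_eq_one_of_not_alive hx h] at h1
        exact lt_irrefl _ h1
      have hcard : (alive y).card ≤ m := by
        have h1 : alive y ⊂ alive x := by
          refine ⟨hsub, fun h => ?_⟩
          have := mem_alive.1 (h hi0)
          rw [hy2] at this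
          exact lt_irrefl _ this
        have := Finset.card_lt_card h1
        omega
      have concl : ∀ x' : O → ℝ, (∀ i, i ∉ alive y → x' i = y i) →
          (∀ i, i ∉ alive x → x' i = x i) ∧
          (∀ t, s t + inner ℝ (θ t) (∑ i, (x' i - x i) • u i) =
            (s t + κ * inner ℝ (θ t) (wg g u (alive x) q r)) +
              inner ℝ (θ t) (∑ i, (x' i - y i) • u i)) := by
        intro x' h2
        refine ⟨?_, ?_⟩
        · intro i hi
          rw [h2 i (fun h => hi (hsub h)), hy3 i hi]
        · intro t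
          have e1 : ∑ i, (x' i - x i) • u i =
              ∑ i, (x' i - y i) • u i + κ • wg g u (alive x) q r := by
            rw [← hy4, ← Finset.sum_add_distrib]
            apply Finset.sum_congr rfl
            intro i _
            rw [← add_smul]; congr 1; ring
          rw [e1, inner_add_right, inner_smul_right]; ring
      have hvs := vs_mono g u hsub
      have hwmem : wg g u (alive x) q r ∈ vs g u (alive x) :=
        wg_mem g u hq (Finset.mem_erase.1 hr).2 hg
      have hworth : ∀ t ∈ vs g u ((alive x).erase q), (inner ℝ t (wg g u (alive x) q r)) = 0 :=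
        fun t ht => wg_orth g u (alive x) q r ht
      by_cases hpA : q ∈ alive y
      · obtain ⟨r', hr', hg'⟩ := exists_ref hy1 hpA
        obtain ⟨x', h1, h1', h2, h3⟩ := ih1 y
          (fun t => s t + κ * inner ℝ (θ t) (wg g u (alive x) q r)) q r' hy1 hcard hpA hr' hg'
        obtain ⟨c2, c3⟩ := concl x' h2
        refine ⟨x', h1, h1', c2, ?_⟩
        simp_rw [c3]
        refine h3.trans (le_trans ?_ hy5)
        apply Finset.sum_le_sum
        intro t _
        apply mul_le_mul_of_nonneg_left _ (exp_pos _).le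
        have hr'x : r' ∈ (alive x).erase q := Finset.erase_subset_erase q hsub hr'
        have href : wg g u (alive x) q r = wg g u (alive x) q r' :=
          wg_ref g u hr hr'x (hg'.symm.trans hg)
        have hww : wg g u (alive y) q r' - wg g u (alive x) q r ∈ vs g u ((alive x).erase q) := by
          rw [href]
          exact wg_diff g u hsub q r'
        exact pot_keep_abs hvs (vs_mono g u (Finset.erase_subset_erase q hsub)) hwmem
          (wg_mem g u hpA (Finset.mem_erase.1 hr').2 hg') hworth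
          (fun t ht => wg_orth g u (alive y) q r' ht) hww (vs_decomp g u hr' hg')
          (comp_norm_sq_le _ (hu q r' hg')) (hy1.1 q) (θ t)
      · obtain ⟨x', h1, h1', h2, h3⟩ := ih0 y
          (fun t => s t + κ * inner ℝ (θ t) (wg g u (alive x) q r)) hy1 hcard
        obtain ⟨c2, c3⟩ := concl x' h2
        refine ⟨x', h1, h1', c2, ?_⟩
        simp_rw [c3]
        refine h3.trans (le_trans ?_ hy5)
        have hyp : |y q| = 1 := abs_eq_one_of_not_alive hy1 hpA
        have hgG : ∀ c, gG (y q) c = 1 := by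
          intro c
          rcases eq_or_eq_neg_of_abs_eq hyp with h | h
          · rw [h, gG_one]
          · rw [h, gG_neg_one]
        apply Finset.sum_le_sum
        intro t _
        rw [hgG, mul_one, ← exp_add]
        apply exp_le_exp.2
        have hsub' : alive y ⊆ (alive x).erase q := by
          intro i hi
          rw [Finset.mem_erase]
          exact ⟨fun h => hpA (h ▸ hi), hsub hi⟩
        have := pot_drop_abs hvs (vs_mono g u hsub') hwmem hworth
          (comp_norm_sq_le _ (hu q r hg)) (θ t)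
        linarith
    refine ⟨?_, claim1⟩
    intro x s hx hA
    rcases (alive x).eq_empty_or_nonempty with h | ⟨q, hq⟩
    · exact triv x s hx h
    · obtain ⟨r, hr, hg⟩ := exists_ref hx hq
      obtain ⟨x', h1, h1', h2, h3⟩ := claim1 x s q r hx hA hq hr hg
      refine ⟨x', h1, h1', h2, h3.trans ?_⟩
      apply Finset.sum_le_sum
      intro t _
      rw [exp_add]
      apply mul_le_mul_of_nonneg_left _ (exp_pos _).le
      set c := (inner ℝ (θ t) (wg g u (alive x) q r)) with hc
      have h4 := Sharp.gG_le_half (hx.1 q) c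
      calc exp (1 / 2 * pn (vs g u (alive x)) (θ t) - 1 / 2 * c ^ 2) * gG (x q) c
          ≤ exp (1 / 2 * pn (vs g u (alive x)) (θ t) - 1 / 2 * c ^ 2) * exp (c ^ 2 / 2) := by
            gcongr
        _ = exp (1 / 2 * pn (vs g u (alive x)) (θ t) - 1 / 2 * c ^ 2 + c ^ 2 / 2) := by
            rw [exp_add]
        _ ≤ exp (1 / 2 * pn (vs g u (alive x)) (θ t)) := by
            apply exp_le_exp.2
            linarith

end main

/-- **Gram-Schmidt walk with several options per group.** -/
theorem gsw_group {E : Type*} [NormedAddCommGroup E] [InnerProductSpace ℝ E]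
    [FiniteDimensional ℝ E] {O I Θ : Type*} [Fintype O] [Fintype I] [Fintype Θ] [DecidableEq I]
    (g : O → I) (a : O → E) {R : ℝ} (hR : 0 ≤ R)
    (ha : ∀ o o', g o = g o' → ‖a o - a o'‖ ≤ 2 * R) (p : O → ℝ) (hp : ∀ o, 0 ≤ p o)
    (hsum : ∀ i, ∑ o ∈ univ.filter (fun o => g o = i), p o = 1) (θ : Θ → E) (s : Θ → ℝ) :
    ∃ sel : I → O, (∀ i, g (sel i) = i) ∧ (∀ i, 0 < p (sel i)) ∧
      ∑ t, exp (s t + inner ℝ (θ t) (∑ i, a (sel i) - ∑ o, p o • a o)) ≤
        ∑ t, exp (s t + R ^ 2 * ‖θ t‖ ^ 2 / 2) := by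
  classical
  -- the weights are at most one
  have hp1 : ∀ o, p o ≤ 1 := by
    intro o
    rw [← hsum (g o)]
    exact Finset.single_le_sum (f := p) (fun o' _ => hp o')
      (Finset.mem_filter.2 ⟨Finset.mem_univ o, rfl⟩)
  have hval : Valid g (fun o => 2 * p o - 1) := by
    constructor
    · intro o
      rw [abs_le]
      constructor
      · linarith [hp o]
      · linarith [hp1 o]
    · intro o
      have e : ∀ o', (1 + (2 * p o' - 1)) * (if g o' = g o then (1:ℝ) else 0) =
          2 * (if g o' = g o then p o' else 0) := by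
        intro o'
        split_ifs
        · ring
        · ring
      simp only [e]
      rw [← Finset.mul_sum, ← Finset.sum_filter, hsum (g o), mul_one]
  -- rounding for general vectors with differences of norm at most one
  have base : ∀ (v : O → E) (η : Θ → E), (∀ o o', g o = g o' → ‖v o - v o'‖ ≤ 1) →
      ∃ x : O → ℝ, Valid g x ∧ (∀ o, |x o| = 1) ∧ (∀ o, p o = 0 → x o = -1) ∧
      ∑ t, exp (s t + inner ℝ (η t) (∑ o, (x o - (2 * p o - 1)) • v o)) ≤
        ∑ t, exp (s t + ‖η t‖ ^ 2 / 2) := by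
    intro v η hv
    obtain ⟨x, h1, h1', h2, h3⟩ :=
      (group_ind g v hv η (alive (fun o => 2 * p o - 1)).card).1 (fun o => 2 * p o - 1) s hval
        le_rfl
    refine ⟨x, h1, h1', ?_, ?_⟩
    · intro o ho
      rw [h2 o]
      · beta_reduce
        rw [ho]; ring
      · intro h
        have := mem_alive.1 h
        rw [ho] at this
        norm_num at this
    · refine h3.trans ?_
      apply Finset.sum_le_sum
      intro t _
      apply exp_le_exp.2
      have := pn_le (vs g v (alive (fun o => 2 * p o - 1))) (η t)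
      linarith
  -- from a sign vector to a selection
  have toSel : ∀ x : O → ℝ, Valid g x → (∀ o, |x o| = 1) → (∀ o, p o = 0 → x o = -1) →
      ∃ sel : I → O, (∀ i, g (sel i) = i) ∧ (∀ i, 0 < p (sel i)) ∧
        ∀ v : O → E, ∑ o, ((1 + x o) / 2) • v o = ∑ i, v (sel i) := by
    intro x hx h1 h0
    have hx1 : ∀ o, x o = 1 ∨ x o = -1 := fun o => eq_or_eq_neg_of_abs_eq (h1 o)
    have hex : ∀ i, ∃ o, g o = i ∧ x o = 1 := by
      intro i
      by_contra hcon
      push Not at hcon
      have hne : ∃ o, g o = i := by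
        by_contra h
        push Not at h
        have h2 := hsum i
        rw [Finset.sum_eq_zero] at h2
        · exact zero_ne_one h2
        · intro o ho
          exact absurd (Finset.mem_filter.1 ho).2 (h o)
      obtain ⟨o, ho⟩ := hne
      have h2 := hx.2 o
      rw [Finset.sum_eq_zero] at h2
      · norm_num at h2
      · intro o' _
        split_ifs with h
        · rcases hx1 o' with h3 | h3
          · exact absurd h3 (hcon o' (h.trans ho))
          · rw [h3]; ring
        · ring
    choose sel hs1 hs2 using hex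
    have huniq : ∀ o, x o = 1 → o = sel (g o) := by
      intro o ho
      by_contra hne
      have h3 : ∑ o' ∈ ({o, sel (g o)} : Finset O),
            (1 + x o') * (if g o' = g o then (1:ℝ) else 0) ≤
          ∑ o', (1 + x o') * (if g o' = g o then (1:ℝ) else 0) := by
        apply Finset.sum_le_sum_of_subset_of_nonneg (Finset.subset_univ _)
        intro o' _ _
        have := (abs_le.1 (hx.1 o')).1
        split_ifs
        · linarith
        · linarith
      rw [Finset.sum_pair hne, hx.2 o, if_pos rfl, if_pos (hs1 (g o)), ho, hs2 (g o)] at h3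
      norm_num at h3
    refine ⟨sel, hs1, ?_, ?_⟩
    · intro i
      rcases (hp (sel i)).eq_or_lt with h | h
      · have h4 := h0 (sel i) h.symm
        rw [hs2 i] at h4
        norm_num at h4
      · exact h
    · intro v
      have hinj : Function.Injective sel := fun i j h => by
        rw [← hs1 i, ← hs1 j, h]
      rw [← Finset.sum_image (s := univ) (g := sel) (f := v) (fun i _ j _ h => hinj h)]
      symm
      rw [← Finset.sum_subset (Finset.subset_univ (univ.image sel))
        (f := fun o => ((1 + x o) / 2) • v o)]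
      · apply Finset.sum_congr rfl
        intro o ho
        obtain ⟨i, -, rfl⟩ := Finset.mem_image.1 ho
        rw [hs2 i]
        norm_num
      · intro o _ ho
        rcases hx1 o with h | h
        · exact absurd (Finset.mem_image.2 ⟨g o, Finset.mem_univ _, (huniq o h).symm⟩) ho
        · rw [h]
          norm_num
  have hfin : ∀ x : O → ℝ, ∀ v : O → E, ∀ sel : I → O,
      (∑ o, ((1 + x o) / 2) • v o = ∑ i, v (sel i)) →
      (1 / 2 : ℝ) • ∑ o, (x o - (2 * p o - 1)) • v o = ∑ i, v (sel i) - ∑ o, p o • v o := by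
    intro x v sel h
    rw [← h, Finset.smul_sum, ← Finset.sum_sub_distrib]
    apply Finset.sum_congr rfl
    intro o _
    rw [smul_smul, ← sub_smul]
    congr 1
    ring
  rcases hR.eq_or_lt with hR0 | hR0
  · -- all vectors of a group agree
    obtain ⟨x, h1, h1', h2, -⟩ := base (fun _ => 0) (fun _ => 0) (fun o o' _ => by simp)
    obtain ⟨sel, hs1, hs2, hs3⟩ := toSel x h1 h1' h2
    refine ⟨sel, hs1, hs2, ?_⟩
    have hconst : ∀ o, a o = a (sel (g o)) := by
      intro o
      have := ha o (sel (g o)) (hs1 (g o)).symm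
      rw [← hR0, mul_zero] at this
      exact sub_eq_zero.1 (norm_le_zero_iff.1 this)
    have hz : ∑ i, a (sel i) - ∑ o, p o • a o = 0 := by
      have e : ∑ o, p o • a o = ∑ i, a (sel i) := by
        calc ∑ o, p o • a o = ∑ o, p o • a (sel (g o)) := by
              apply Finset.sum_congr rfl
              intro o _
              rw [← hconst o]
          _ = ∑ i, ∑ o ∈ univ.filter (fun o => g o = i), p o • a (sel (g o)) := by
              rw [Finset.sum_fiberwise]
          _ = ∑ i, a (sel i) := by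
              apply Finset.sum_congr rfl
              intro i _
              have : ∑ o ∈ univ.filter (fun o => g o = i), p o • a (sel (g o)) =
                  ∑ o ∈ univ.filter (fun o => g o = i), p o • a (sel i) := by
                apply Finset.sum_congr rfl
                intro o ho
                rw [(Finset.mem_filter.1 ho).2]
              rw [this, ← Finset.sum_smul, hsum i, one_smul]
      rw [e, sub_self]
    rw [hz]
    apply Finset.sum_le_sum
    intro t _
    apply exp_le_exp.2
    rw [inner_zero_right]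
    have : 0 ≤ R ^ 2 * ‖θ t‖ ^ 2 / 2 := by positivity
    linarith
  · obtain ⟨x, h1, h1', h2, h3⟩ := base (fun o => (2 * R)⁻¹ • a o) (fun t => R • θ t) (by
      intro o o' h
      rw [← smul_sub, norm_smul, norm_inv, Real.norm_eq_abs, abs_of_pos (by linarith)]
      rw [inv_mul_le_iff₀ (by linarith), mul_one]
      exact ha o o' h)
    obtain ⟨sel, hs1, hs2, hs3⟩ := toSel x h1 h1' h2
    refine ⟨sel, hs1, hs2, ?_⟩
    have e0 := hfin x a sel (hs3 a)
    have e1 : ∀ t, inner ℝ (R • θ t) (∑ o, (x o - (2 * p o - 1)) • (2 * R)⁻¹ • a o) =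
        inner ℝ (θ t) (∑ i, a (sel i) - ∑ o, p o • a o) := by
      intro t
      have : ∑ o, (x o - (2 * p o - 1)) • (2 * R)⁻¹ • a o =
          (2 * R)⁻¹ • ∑ o, (x o - (2 * p o - 1)) • a o := by
        rw [Finset.smul_sum]
        apply Finset.sum_congr rfl
        intro i _
        rw [smul_comm]
      rw [this, ← e0, inner_smul_left, inner_smul_right, inner_smul_right]
      simp only [conj_trivial]
      rw [← mul_assoc]
      congr 1
      field_simp
    have e2 : ∀ t, ‖R • θ t‖ ^ 2 / 2 = R ^ 2 * ‖θ t‖ ^ 2 / 2 := by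
      intro t
      rw [norm_smul, Real.norm_eq_abs, abs_of_pos hR0, mul_pow]
    simp only [e1, e2] at h3
    exact h3

/-- union bound form -/
theorem gsw_group_union {E : Type*} [NormedAddCommGroup E] [InnerProductSpace ℝ E]
    [FiniteDimensional ℝ E] {O I Θ : Type*} [Fintype O] [Fintype I] [Fintype Θ] [DecidableEq I]
    (g : O → I) (a : O → E) {R : ℝ} (hR : 0 ≤ R)
    (ha : ∀ o o', g o = g o' → ‖a o - a o'‖ ≤ 2 * R) (p : O → ℝ) (hp : ∀ o, 0 ≤ p o)
    (hsum : ∀ i, ∑ o ∈ univ.filter (fun o => g o = i), p o = 1) (θ : Θ → E) (s : Θ → ℝ)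
    (hlt : ∑ t, exp (s t + R ^ 2 * ‖θ t‖ ^ 2 / 2) < 1) :
    ∃ sel : I → O, (∀ i, g (sel i) = i) ∧ (∀ i, 0 < p (sel i)) ∧
      ∀ t, s t + inner ℝ (θ t) (∑ i, a (sel i) - ∑ o, p o • a o) < 0 := by
  obtain ⟨sel, h1, h2, h3⟩ := gsw_group g a hR ha p hp hsum θ s
  refine ⟨sel, h1, h2, fun t => ?_⟩
  have h4 : exp (s t + inner ℝ (θ t) (∑ i, a (sel i) - ∑ o, p o • a o)) < 1 := by
    refine lt_of_le_of_lt ?_ (h3.trans_lt hlt)
    exact Finset.single_le_sum
      (f := fun t => exp (s t + inner ℝ (θ t) (∑ i, a (sel i) - ∑ o, p o • a o)))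
      (fun _ _ => (exp_pos _).le) (Finset.mem_univ t)
  exact Real.exp_lt_one_iff.1 h4

end Pool.Agent.UPS.Grp
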