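import Pool.Agent.Lib.MP_876e19_co_ups.InvBase
import Pool.Agent.Lib.MP_876e19_co_ups.GswGroup
import Pool.Agent.Lib.MP_876e19_co.Parity
import Pool.Agent.Lib.MP_876e19_co_ups.TwoSided

/-!
# The invariant base, rounded by the two-level Gram-Schmidt walk (helper85)

`inv_gsw` / `inv_gsw_lt`: a base `P` (one path for every ordered pair) for which all linear
functionals of the edge usage errors `kerr` and of the end usage errors `kend` are subgaussian.
`cut_tests`: the form needed for the cut tests (helper76's route C).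
-/

set_option autoImplicit false

namespace Pool.Agent.UPS.IB

open Finset Real

/-- far ordered pairs -/
abbrev FarP {V : Type*} (G : SimpleGraph V) : Type _ := {p : V × V // Far G p.1 p.2}

lemma sum_filter_fst {I J M : Type*} [Fintype I] [Fintype J] [DecidableEq I] [AddCommMonoid M]
    (f : I × J → M) (i : I) :
    ∑ o ∈ univ.filter (fun o : I × J => o.1 = i), f o = ∑ j, f (i, j) := by
  rw [Finset.sum_filter, Fintype.sum_prod_type]
  rw [Finset.sum_eq_single i]
  · simp
  · intro i' _ h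
    simp [h]
  · intro h; exact absurd (mem_univ _) h

open Classical in
/-- uniform weights in every group; the tests are linear functionals `L` which are represented on
differences of options of one group -/
lemma uniform_group {E : Type*} [NormedAddCommGroup E] [InnerProductSpace ℝ E]
    [FiniteDimensional ℝ E] {I J Θ : Type*} [Fintype I] [Fintype J] [Nonempty J] [Fintype Θ]
    (a : I → J → E) {R : ℝ} (hR : 0 ≤ R) (ha : ∀ i j j', ‖a i j - a i j'‖ ≤ 2 * R)
    (θ : Θ → E) (L : Θ → I → J → ℝ)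
    (hL : ∀ t i j j', L t i j - L t i j' = inner ℝ (θ t) (a i j - a i j')) (s : Θ → ℝ) :
    ∃ sel : I → J, ∑ t, exp (s t + ∑ i, (L t i (sel i) - (Fintype.card J : ℝ)⁻¹ * ∑ j, L t i j)) ≤
        ∑ t, exp (s t + R ^ 2 * ‖θ t‖ ^ 2 / 2) := by
  have hJ : (0:ℝ) < Fintype.card J := by exact_mod_cast Fintype.card_pos
  obtain ⟨sel, h1, _, h3⟩ := Grp.gsw_group (O := I × J) (I := I) (fun o => o.1)
    (fun o => a o.1 o.2) hR
    (by
      rintro ⟨i, j⟩ ⟨i', j'⟩ h
      obtain rfl : i = i' := h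
      exact ha i j j')
    (fun _ => (Fintype.card J : ℝ)⁻¹) (fun _ => by positivity)
    (by
      intro i
      rw [sum_filter_fst (fun _ => (Fintype.card J : ℝ)⁻¹) i]
      simp only [Finset.sum_const, Finset.card_univ, nsmul_eq_mul]
      field_simp) θ s
  refine ⟨fun i => (sel i).2, ?_⟩
  refine le_trans (le_of_eq ?_) h3
  refine Finset.sum_congr rfl fun t _ => ?_
  congr 2
  have e1 : ∀ i, a (sel i).1 (sel i).2 = a i (sel i).2 := by
    intro i
    rw [h1 i]
  have e2 : ∑ i, a (sel i).1 (sel i).2 - ∑ o : I × J, (Fintype.card J : ℝ)⁻¹ • a o.1 o.2 =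
      ∑ i, (Fintype.card J : ℝ)⁻¹ • ∑ j, (a i (sel i).2 - a i j) := by
    rw [Fintype.sum_prod_type, ← Finset.sum_sub_distrib]
    refine Finset.sum_congr rfl fun i _ => ?_
    rw [e1, Finset.sum_sub_distrib, smul_sub, Finset.sum_const, Finset.card_univ,
      ← Nat.cast_smul_eq_nsmul ℝ, smul_smul, inv_mul_cancel₀ hJ.ne', one_smul, Finset.smul_sum]
  rw [e2, inner_sum]
  refine Finset.sum_congr rfl fun i _ => ?_
  rw [inner_smul_right, inner_sum]
  simp only [← hL]
  rw [Finset.sum_sub_distrib, mul_sub, Finset.sum_const, Finset.card_univ, nsmul_eq_mul,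
    ← mul_assoc, inv_mul_cancel₀ hJ.ne', one_mul]

/-- **Two-level rounding** -/
theorem two_level {E₁ E₂ : Type*} [NormedAddCommGroup E₁] [InnerProductSpace ℝ E₁]
    [FiniteDimensional ℝ E₁] [NormedAddCommGroup E₂] [InnerProductSpace ℝ E₂]
    [FiniteDimensional ℝ E₂] {I J K Θ : Type*} [Fintype I] [Fintype J] [Nonempty J] [Fintype K]
    [Nonempty K] [Fintype Θ] (a₁ : I → J → E₁) (a₂ : I → J → K → E₂)
    {R1 R2 : ℝ} (hR1 : 0 ≤ R1) (hR2 : 0 ≤ R2)
    (h1 : ∀ i j j', ‖a₁ i j - a₁ i j'‖ ≤ 2 * R1)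
    (h2 : ∀ i j c c', ‖a₂ i j c - a₂ i j c'‖ ≤ 2 * R2)
    (θ₁ : Θ → E₁) (θ₂ : Θ → E₂) (L : Θ → I → J → K → ℝ)
    (hL1 : ∀ t i j j', (Fintype.card K : ℝ)⁻¹ * ∑ c, L t i j c -
      (Fintype.card K : ℝ)⁻¹ * ∑ c, L t i j' c = inner ℝ (θ₁ t) (a₁ i j - a₁ i j'))
    (hL2 : ∀ t i j c c', L t i j c - L t i j c' = inner ℝ (θ₂ t) (a₂ i j c - a₂ i j c'))
    (s : Θ → ℝ) :
    ∃ (γ : I → J) (c : I → K),
      ∑ t, exp (s t + ∑ i, (L t i (γ i) (c i) - (Fintype.card J : ℝ)⁻¹ * ∑ j,
        ((Fintype.card K : ℝ)⁻¹ * ∑ c, L t i j c))) ≤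
        ∑ t, exp (s t + (R1 ^ 2 * ‖θ₁ t‖ ^ 2 + R2 ^ 2 * ‖θ₂ t‖ ^ 2) / 2) := by
  classical
  obtain ⟨γ, hγ⟩ := uniform_group a₁ hR1 h1 θ₁
    (fun t i j => (Fintype.card K : ℝ)⁻¹ * ∑ c, L t i j c) hL1
    (fun t => s t + R2 ^ 2 * ‖θ₂ t‖ ^ 2 / 2)
  obtain ⟨c, hc⟩ := uniform_group (fun i c => a₂ i (γ i) c) hR2 (fun i c c' => h2 i (γ i) c c') θ₂
    (fun t i c => L t i (γ i) c) (fun t i c c' => hL2 t i (γ i) c c')
    (fun t => s t + ∑ i, ((Fintype.card K : ℝ)⁻¹ * ∑ c, L t i (γ i) c -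
      (Fintype.card J : ℝ)⁻¹ * ∑ j, ((Fintype.card K : ℝ)⁻¹ * ∑ c, L t i j c)))
  refine ⟨γ, c, ?_⟩
  calc _ = ∑ t, exp (s t + ∑ i, ((Fintype.card K : ℝ)⁻¹ * ∑ c, L t i (γ i) c -
      (Fintype.card J : ℝ)⁻¹ * ∑ j, ((Fintype.card K : ℝ)⁻¹ * ∑ c, L t i j c)) +
        ∑ i, (L t i (γ i) (c i) - (Fintype.card K : ℝ)⁻¹ * ∑ c, L t i (γ i) c)) := by
        refine Finset.sum_congr rfl fun t _ => ?_
        rw [add_assoc, ← Finset.sum_add_distrib]
        congr 2
        refine Finset.sum_congr rfl fun p _ => ?_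
        ring
    _ ≤ _ := hc
    _ = ∑ t, exp (s t + R2 ^ 2 * ‖θ₂ t‖ ^ 2 / 2 + ∑ i, ((Fintype.card K : ℝ)⁻¹ *
          ∑ c, L t i (γ i) c -
      (Fintype.card J : ℝ)⁻¹ * ∑ j, ((Fintype.card K : ℝ)⁻¹ * ∑ c, L t i j c))) := by
        refine Finset.sum_congr rfl fun t _ => ?_
        congr 1
        ring
    _ ≤ _ := hγ
    _ = _ := by
        refine Finset.sum_congr rfl fun t _ => ?_
        congr 1
        ring

section feat

variable {V : Type*} {G : SimpleGraph V} {k : ℕ}

/-- first edge of a walk -/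
def fe {x v : V} (p : G.Walk x v) : Sym2 V := s(x, p.getVert 1)

/-- last edge of a walk -/
def le {x v : V} (p : G.Walk x v) : Sym2 V := s(v, p.getVert (p.length - 1))

open Classical in
/-- indicator of the edges which are neither first nor last -/
noncomputable def intf {x v : V} (p : G.Walk x v) (e : Sym2 V) : ℝ :=
  if e ∈ p.edges ∧ e ≠ fe p ∧ e ≠ le p then 1 else 0

open Classical in
/-- number of ends of the walk on `e` -/
noncomputable def endf {x v : V} (p : G.Walk x v) (e : Sym2 V) : ℝ :=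
  (if e = fe p then 1 else 0) + (if e = le p then 1 else 0)

lemma fe_mem {x v : V} (p : G.Walk x v) (h : 2 ≤ p.length) : fe p ∈ p.edges := by
  unfold fe
  rw [SimpleGraph.Walk.mk_mem_edges_iff_exists]
  exact ⟨0, by omega, by rw [SimpleGraph.Walk.getVert_zero]⟩

lemma le_mem {x v : V} (p : G.Walk x v) (h : 2 ≤ p.length) : le p ∈ p.edges := by
  unfold le
  rw [SimpleGraph.Walk.mk_mem_edges_iff_exists]
  refine ⟨p.length - 1, by omega, ?_⟩
  have : p.length - 1 + 1 = p.length := by omega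
  rw [this, SimpleGraph.Walk.getVert_length, Sym2.eq_swap]

lemma eq_fe {x v : V} {p : G.Walk x v} (hp : p.IsPath) {e : Sym2 V} (he : e ∈ p.edges)
    (hx : x ∈ e) : e = fe p := by
  induction e with
  | _ a b =>
    have he' := (SimpleGraph.Walk.mk_mem_edges_iff_exists p).1 he
    obtain ⟨i, hi, hi2⟩ := he'
    rw [← hi2] at hx
    rw [← hi2]
    rw [Sym2.mem_iff] at hx
    rcases hx with hx | hx
    · have h0 : i = 0 := by
        apply hp.getVert_injOn (by simp; omega) (by simp)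
        rw [← hx, SimpleGraph.Walk.getVert_zero]
      subst h0
      unfold fe
      rw [SimpleGraph.Walk.getVert_zero]
    · have h0 : i + 1 = 0 := by
        apply hp.getVert_injOn (by simp; omega) (by simp)
        rw [← hx, SimpleGraph.Walk.getVert_zero]
      omega

lemma eq_le {x v : V} {p : G.Walk x v} (hp : p.IsPath) {e : Sym2 V} (he : e ∈ p.edges)
    (hx : v ∈ e) : e = le p := by
  induction e with
  | _ a b =>
    have he' := (SimpleGraph.Walk.mk_mem_edges_iff_exists p).1 he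
    obtain ⟨i, hi, hi2⟩ := he'
    rw [← hi2] at hx
    rw [← hi2]
    rw [Sym2.mem_iff] at hx
    rcases hx with hx | hx
    · have h0 : i = p.length := by
        apply hp.getVert_injOn (by simp; omega) (by simp)
        rw [← hx, SimpleGraph.Walk.getVert_length]
      omega
    · have h0 : i + 1 = p.length := by
        apply hp.getVert_injOn (by simp; omega) (by simp)
        rw [← hx, SimpleGraph.Walk.getVert_length]
      unfold le
      rw [← hx, Sym2.eq_swap]
      have : i = p.length - 1 := by omega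
      rw [this]

lemma fe_ne_le {x v : V} {p : G.Walk x v} (h : Far G x v) (h2 : 2 ≤ p.length) : fe p ≠ le p := by
  intro heq
  have h1 : x ∈ le p := by rw [← heq]; exact Sym2.mem_mk_left _ _
  unfold le at h1
  rw [Sym2.mem_iff] at h1
  rcases h1 with h1 | h1
  · exact h.1 h1
  · have h3 := p.adj_getVert_succ (i := p.length - 1) (by omega)
    have : p.length - 1 + 1 = p.length := by omega
    rw [this, SimpleGraph.Walk.getVert_length, ← h1] at h3
    exact h.2 h3

lemma intf_nonneg {x v : V} (p : G.Walk x v) (e : Sym2 V) : 0 ≤ intf p e := by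
  unfold intf; split_ifs <;> norm_num

lemma endf_nonneg {x v : V} (p : G.Walk x v) (e : Sym2 V) : 0 ≤ endf p e := by
  unfold endf; split_ifs <;> norm_num

/-- the usage of an edge is the interior usage plus the end usage -/
lemma use_eq {x v : V} (p : G.Walk x v) (h : Far G x v) (h2 : 2 ≤ p.length) (e : Sym2 V) :
    intf p e + endf p e = (open Classical in if e ∈ p.edges then (1 : ℝ) else 0) := by
  classical
  unfold intf endf
  by_cases h3 : e = fe p
  · have h4 : e ≠ le p := fun h' => fe_ne_le h h2 (h3.symm.trans h')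
    have h5 : e ∈ p.edges := by rw [h3]; exact fe_mem p h2
    simp only [h5, true_and]
    rw [if_neg (fun h' => h'.1 h3), if_pos h3, if_neg h4, if_pos trivial]
    norm_num
  · by_cases h4 : e = le p
    · have h5 : e ∈ p.edges := by rw [h4]; exact le_mem p h2
      simp only [h5, true_and]
      rw [if_neg (fun h' => h'.2 h4), if_neg h3, if_pos h4, if_pos trivial]
      norm_num
    · rw [if_neg h3, if_neg h4]
      simp [h3, h4]

lemma intf_mul_endf {x v : V} (p q : G.Walk x v) (hp : p.IsPath) (e : Sym2 V) :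
    intf p e * endf q e = 0 := by
  classical
  unfold intf endf
  by_cases h : e ∈ p.edges ∧ e ≠ fe p ∧ e ≠ le p
  · have h1 : e ≠ fe q := by
      intro h'
      exact h.2.1 (eq_fe hp h.1 (by rw [h']; exact Sym2.mem_mk_left _ _))
    have h2 : e ≠ le q := by
      intro h'
      exact h.2.2 (eq_le hp h.1 (by rw [h']; exact Sym2.mem_mk_left _ _))
    rw [if_neg h1, if_neg h2]
    ring
  · rw [if_neg h]
    ring

lemma endf_sq {x v : V} (p : G.Walk x v) (h : Far G x v) (h2 : 2 ≤ p.length) (e : Sym2 V) :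
    endf p e ^ 2 = endf p e := by
  classical
  unfold endf
  by_cases h3 : e = fe p
  · have h4 : e ≠ le p := fun h' => fe_ne_le h h2 (h3.symm.trans h')
    rw [if_pos h3, if_neg h4]
    norm_num
  · rw [if_neg h3]
    split_ifs <;> norm_num

lemma intf_sq {x v : V} (p : G.Walk x v) (e : Sym2 V) : intf p e ^ 2 = intf p e := by
  unfold intf
  split_ifs <;> norm_num

variable [Fintype V]

open Classical in
lemma sum_mem_edges' {x u : V} (p : G.Walk x u) (hp : p.IsPath) :
    ∑ e : Sym2 V, (if e ∈ p.edges then (1 : ℝ) else 0) = p.length := by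
  rw [← Finset.sum_filter, Finset.sum_const, nsmul_eq_mul, mul_one]
  have : (univ.filter fun e : Sym2 V => e ∈ p.edges) = p.edges.toFinset := by
    ext e; simp
  rw [this, List.toFinset_card_of_nodup hp.isTrail.edges_nodup, SimpleGraph.Walk.length_edges]

lemma sum_endf {x v : V} (p : G.Walk x v) : ∑ e, endf p e = 2 := by
  classical
  unfold endf
  rw [Finset.sum_add_distrib, Finset.sum_ite_eq', Finset.sum_ite_eq']
  simp only [mem_univ, if_true]
  norm_num

lemma sum_intf {x v : V} (p : G.Walk x v) (hp : p.IsPath) (h : Far G x v) (h2 : 2 ≤ p.length) :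
    ∑ e, intf p e = p.length - 2 := by
  classical
  have h1 : ∑ e, (intf p e + endf p e) = p.length := by
    rw [← sum_mem_edges' p hp]
    exact Finset.sum_congr rfl fun e _ => use_eq p h h2 e
  rw [Finset.sum_add_distrib, sum_endf] at h1
  linarith

lemma sum_sub_sq_le {ι : Type*} [Fintype ι] (f g : ι → ℝ) (hf : ∀ i, 0 ≤ f i) (hg : ∀ i, 0 ≤ g i) :
    ∑ i, (f i - g i) ^ 2 ≤ ∑ i, f i ^ 2 + ∑ i, g i ^ 2 := by
  rw [← Finset.sum_add_distrib]
  refine Finset.sum_le_sum fun i _ => ?_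
  nlinarith [mul_nonneg (hf i) (hg i)]

lemma norm_toLp_le {ι : Type*} [Fintype ι] (f : ι → ℝ) {B : ℝ} (hB : 0 ≤ B)
    (h : ∑ i, f i ^ 2 ≤ B ^ 2) : ‖(WithLp.toLp 2 f : EuclideanSpace ℝ ι)‖ ≤ B := by
  have h1 : ‖(WithLp.toLp 2 f : EuclideanSpace ℝ ι)‖ ^ 2 = ∑ i, f i ^ 2 := by
    rw [EuclideanSpace.norm_sq_eq]
    refine Finset.sum_congr rfl fun i _ => ?_
    simp
  have h2 := abs_le_of_sq_le_sq (h1.trans_le h) hB
  rwa [abs_norm] at h2

/-- index set of the features: edges (usage), edges (end usage) -/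
abbrev FI (V : Type*) : Type _ := Sym2 V ⊕ Sym2 V

/-- the features built from the interior usage `f` and the end usage `g` -/
noncomputable def ft (al τ : ℝ) (f g : Sym2 V → ℝ) : FI V → ℝ :=
  Sum.elim (fun e => 1 / 2 * f e + al / 2 * g e) (fun e => τ⁻¹ * g e)

/-- two different paths of one system have total length at most `n - k + 2` -/
lemma len_add_le (M : MSys G k) {x v : V} (h : Far G x v) {i j : Fin k} (hij : i ≠ j) :
    (((M.P x v i).length : ℝ) + (M.P x v j).length) ≤ Fintype.card V - k + 2 := by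
  have h1 := M.len x v h
  have h2 := fun i => M.two x v i h
  have h3 : ((M.P x v i).length - 1) + ((M.P x v j).length - 1) + (k - 2) ≤
      ∑ i, ((M.P x v i).length - 1) := by
    classical
    have e1 : ∑ i, ((M.P x v i).length - 1) = ((M.P x v i).length - 1) + (((M.P x v j).length - 1) +
        ∑ l ∈ (univ.erase i).erase j, ((M.P x v l).length - 1)) := by
      rw [← Finset.add_sum_erase _ _ (mem_univ i), ← Finset.add_sum_erase _ _
        (Finset.mem_erase.2 ⟨hij.symm, mem_univ j⟩)]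
    have e2 : ((univ.erase i).erase j).card ≤
        ∑ l ∈ (univ.erase i).erase j, ((M.P x v l).length - 1) := by
      rw [Finset.card_eq_sum_ones]
      refine Finset.sum_le_sum fun l _ => ?_
      have := h2 l
      omega
    rw [Finset.card_erase_of_mem (Finset.mem_erase.2 ⟨hij.symm, mem_univ j⟩),
      Finset.card_erase_of_mem (mem_univ i), Finset.card_univ, Fintype.card_fin] at e2
    omega
  have h4 : 2 ≤ k := by
    have := i.2
    have := j.2
    have : (i : ℕ) ≠ j := fun h => hij (Fin.ext h)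
    omega
  have h5 := h2 i
  have h6 := h2 j
  have h7 : (M.P x v i).length + (M.P x v j).length + k ≤ Fintype.card V + 2 := by omega
  have h8 : ((M.P x v i).length : ℝ) + (M.P x v j).length + k ≤ Fintype.card V + 2 := by
    exact_mod_cast h7
  linarith

/-- the sum of all lengths of a system -/
lemma sum_len_le (M : MSys G k) {x v : V} (h : Far G x v) :
    ∑ i, ((M.P x v i).length : ℝ) ≤ Fintype.card V - 2 + k := by
  have h1 := M.len x v h
  have h2 := fun i => M.two x v i h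
  have h3 : ∑ i, (M.P x v i).length = ∑ i, ((M.P x v i).length - 1) + k := by
    have : ∀ i, (M.P x v i).length = ((M.P x v i).length - 1) + 1 := fun i => by
      have := h2 i; omega
    conv_lhs => rw [Finset.sum_congr rfl fun i _ => this i]
    rw [Finset.sum_add_distrib]
    simp
  have h4 : ∑ i, (M.P x v i).length + 2 ≤ Fintype.card V + k := by omega
  have h5 : ∑ i, ((M.P x v i).length : ℝ) + 2 ≤ Fintype.card V + k := by exact_mod_cast h4
  linarith

/-- the interior usage of a system -/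
noncomputable def icnt (M : MSys G k) (x v : V) (e : Sym2 V) : ℝ := ∑ i, intf (M.P x v i) e

/-- the end usage of a system -/
noncomputable def dcnt (M : MSys G k) (x v : V) (e : Sym2 V) : ℝ := ∑ i, endf (M.P x v i) e

lemma icnt_nonneg (M : MSys G k) (x v : V) (e : Sym2 V) : 0 ≤ icnt M x v e :=
  Finset.sum_nonneg fun _ _ => intf_nonneg _ _

lemma icnt_le_one (M : MSys G k) {x v : V} (h : Far G x v) (e : Sym2 V) : icnt M x v e ≤ 1 := by
  classical
  unfold icnt intf
  by_cases h1 : ∃ i, e ∈ (M.P x v i).edges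
  · obtain ⟨i, hi⟩ := h1
    rw [Finset.sum_eq_single i]
    · split_ifs <;> norm_num
    · intro j _ hj
      rw [if_neg]
      rintro ⟨hje, _⟩
      induction e with
      | _ a b =>
        have ha := M.disj x v i j h a ((M.P x v i).fst_mem_support_of_mem_edges hi)
          ((M.P x v j).fst_mem_support_of_mem_edges hje)
        have hb := M.disj x v i j h b ((M.P x v i).snd_mem_support_of_mem_edges hi)
          ((M.P x v j).snd_mem_support_of_mem_edges hje)
        have hab : G.Adj a b := (M.P x v i).adj_of_mem_edges hi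
        rcases ha with ha | ha | ha
        · rcases hb with hb | hb | hb
          · rw [ha, hb] at hab; exact G.loopless.irrefl _ hab
          · rw [ha, hb] at hab; exact h.2 hab
          · exact hj hb.symm
        · rcases hb with hb | hb | hb
          · rw [ha, hb] at hab; exact h.2 hab.symm
          · rw [ha, hb] at hab; exact G.loopless.irrefl _ hab
          · exact hj hb.symm
        · exact hj ha.symm
    · intro h'; exact absurd (mem_univ _) h'
  · push Not at h1
    rw [Finset.sum_eq_zero]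
    · exact zero_le_one
    · intro i _
      rw [if_neg (fun h' => h1 i h'.1)]

lemma sum_icnt_le (M : MSys G k) {x v : V} (h : Far G x v) :
    ∑ e, icnt M x v e ≤ Fintype.card V - 2 - k := by
  have h1 := sum_len_le M h
  unfold icnt
  rw [Finset.sum_comm]
  have h2 : ∑ i, ∑ e, intf (M.P x v i) e = ∑ i, (((M.P x v i).length : ℝ) - 2) :=
    Finset.sum_congr rfl fun i _ => sum_intf _ (M.path x v i h) h (M.two x v i h)
  rw [h2, Finset.sum_sub_distrib]
  simp only [Finset.sum_const, Finset.card_univ, Fintype.card_fin, nsmul_eq_mul]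
  linarith

lemma icnt_mul_dcnt (M M' : MSys G k) {x v : V} (h : Far G x v) (e : Sym2 V) :
    icnt M x v e * dcnt M' x v e = 0 := by
  unfold icnt dcnt
  rw [Finset.sum_mul_sum]
  exact Finset.sum_eq_zero fun i _ => Finset.sum_eq_zero fun j _ =>
    intf_mul_endf _ _ (M.path x v i h) e

open Classical in
/-- sums over the edges of a star -/
lemma sum_star (y : V) (g : V → ℝ) :
    ∑ e : Sym2 V, (∑ w, if e = s(y, w) then g w else 0) ^ 2 = ∑ w, g w ^ 2 := by
  have h1 : ∀ e : Sym2 V, (∑ w, if e = s(y, w) then g w else 0) ^ 2 =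
      ∑ w, if e = s(y, w) then g w ^ 2 else 0 := by
    intro e
    by_cases h : ∃ w, e = s(y, w)
    · obtain ⟨w, rfl⟩ := h
      have h2 : ∀ w', (s(y, w) = s(y, w')) ↔ w' = w := by
        intro w'
        rw [Sym2.congr_right]
        exact eq_comm
      simp only [h2]
      rw [Finset.sum_ite_eq', Finset.sum_ite_eq']
      simp
    · push Not at h
      rw [Finset.sum_eq_zero, Finset.sum_eq_zero]
      · norm_num
      · intro w _; exact if_neg (h w)
      · intro w _; exact if_neg (h w)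
  simp only [h1]
  rw [Finset.sum_comm]
  refine Finset.sum_congr rfl fun w _ => ?_
  rw [Finset.sum_ite_eq']
  simp

open Classical in
lemma dcnt_eq (M : MSys G k) {x v : V} (h : Far G x v) (e : Sym2 V) :
    dcnt M x v e = (∑ w, if e = s(x, w) then fcount M x v w else 0) +
      ∑ w, if e = s(v, w) then lcount M x v w else 0 := by
  unfold dcnt endf fcount lcount
  simp only [if_pos h]
  rw [Finset.sum_add_distrib]
  congr 1
  · have h1 : ∀ w, (if e = s(x, w) then ∑ i, (if (M.P x v i).getVert 1 = w then (1:ℝ) else 0)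
        else 0) = ∑ i, (if (M.P x v i).getVert 1 = w then (if e = s(x, w) then (1:ℝ) else 0)
          else 0) := by
      intro w
      split_ifs with hw
      · rfl
      · simp
    simp only [h1]
    rw [Finset.sum_comm]
    refine Finset.sum_congr rfl fun i _ => ?_
    rw [Finset.sum_ite_eq, if_pos (mem_univ _)]
    exact if_congr Iff.rfl rfl rfl
  · have h1 : ∀ w, (if e = s(v, w) then ∑ i, (if (M.P x v i).getVert ((M.P x v i).length - 1) = w
        then (1:ℝ) else 0) else 0) = ∑ i, (if (M.P x v i).getVert ((M.P x v i).length - 1) = w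
          then (if e = s(v, w) then (1:ℝ) else 0) else 0) := by
      intro w
      split_ifs with hw
      · rfl
      · simp
    simp only [h1]
    rw [Finset.sum_comm]
    refine Finset.sum_congr rfl fun i _ => ?_
    rw [Finset.sum_ite_eq, if_pos (mem_univ _)]
    exact if_congr Iff.rfl rfl rfl

lemma sum_sq_sub_le_of_unit {ι : Type*} [Fintype ι] (f g : ι → ℝ) (hf : ∀ i, 0 ≤ f i)
    (hg : ∀ i, 0 ≤ g i) (hf1 : ∀ i, f i ≤ 1) (hg1 : ∀ i, g i ≤ 1) :
    ∑ i, (f i - g i) ^ 2 ≤ ∑ i, f i + ∑ i, g i := by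
  rw [← Finset.sum_add_distrib]
  refine Finset.sum_le_sum fun i _ => ?_
  nlinarith [mul_nonneg (hf i) (hg i), mul_nonneg (hf i) (sub_nonneg.2 (hf1 i)),
    mul_nonneg (hg i) (sub_nonneg.2 (hg1 i))]

lemma sum_fst_le (M M' : MSys G k) {d : ℕ} (hd : ∀ x, (G.neighborSet x).ncard = d)
    {x v : V} (h : Far G x v) :
    ∑ w, (fcount M x v w - fcount M' x v w) ^ 2 ≤ 2 * ((d : ℝ) - k) := by
  classical
  have h1 : ∑ w, ((if G.Adj x w then (1 : ℝ) else 0)) = d := by
    rw [Finset.sum_ite, Finset.sum_const_zero, add_zero, Finset.sum_const, nsmul_eq_mul, mul_one,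
      ← hd x, ← Set.ncard_coe_finset]
    congr 2
    ext w; simp
  have h2 : ∀ (M : MSys G k) w, 0 ≤ (if G.Adj x w then (1 : ℝ) else 0) - fcount M x v w := by
    intro M w
    split_ifs with ha
    · have := fcount_le_one M x v w; linarith
    · rw [fcount_of_not_adj M ha]; norm_num
  have h3 : ∀ (M : MSys G k) w, (if G.Adj x w then (1 : ℝ) else 0) - fcount M x v w ≤ 1 := by
    intro M w
    have := fcount_nonneg M x v w
    split_ifs <;> linarith
  have h4 := sum_sq_sub_le_of_unit _ _ (h2 M') (h2 M) (h3 M') (h3 M)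
  rw [Finset.sum_sub_distrib, Finset.sum_sub_distrib, h1, sum_fcount M h, sum_fcount M' h] at h4
  refine le_trans (le_of_eq ?_) (h4.trans (by linarith))
  refine Finset.sum_congr rfl fun w _ => ?_
  ring

lemma sum_lst_le (M M' : MSys G k) {d : ℕ} (hd : ∀ x, (G.neighborSet x).ncard = d)
    {x v : V} (h : Far G x v) :
    ∑ w, (lcount M x v w - lcount M' x v w) ^ 2 ≤ 2 * ((d : ℝ) - k) := by
  classical
  have h1 : ∑ w, ((if G.Adj w v then (1 : ℝ) else 0)) = d := by
    rw [Finset.sum_ite, Finset.sum_const_zero, add_zero, Finset.sum_const, nsmul_eq_mul, mul_one,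
      ← hd v, ← Set.ncard_coe_finset]
    congr 2
    ext w; simp [G.adj_comm]
  have h2 : ∀ (M : MSys G k) w, 0 ≤ (if G.Adj w v then (1 : ℝ) else 0) - lcount M x v w := by
    intro M w
    split_ifs with ha
    · have := lcount_le_one M x v w; linarith
    · rw [lcount_of_not_adj M ha]; norm_num
  have h3 : ∀ (M : MSys G k) w, (if G.Adj w v then (1 : ℝ) else 0) - lcount M x v w ≤ 1 := by
    intro M w
    have := lcount_nonneg M x v w
    split_ifs <;> linarith
  have h4 := sum_sq_sub_le_of_unit _ _ (h2 M') (h2 M) (h3 M') (h3 M)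
  rw [Finset.sum_sub_distrib, Finset.sum_sub_distrib, h1, sum_lcount M h, sum_lcount M' h] at h4
  refine le_trans (le_of_eq ?_) (h4.trans (by linarith))
  refine Finset.sum_congr rfl fun w _ => ?_
  ring

lemma sum_dcnt_sub_sq_eq (M M' : MSys G k) {x v : V} (h : Far G x v) :
    ∑ e, (dcnt M x v e - dcnt M' x v e) ^ 2 =
      ∑ w, (fcount M x v w - fcount M' x v w) ^ 2 + ∑ w, (lcount M x v w - lcount M' x v w) ^ 2 := by
  classical
  have h1 : ∀ e : Sym2 V, (dcnt M x v e - dcnt M' x v e) ^ 2 =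
      (∑ w, if e = s(x, w) then (fcount M x v w - fcount M' x v w) else 0) ^ 2 +
      (∑ w, if e = s(v, w) then (lcount M x v w - lcount M' x v w) else 0) ^ 2 := by
    intro e
    have e1 : dcnt M x v e - dcnt M' x v e =
        (∑ w, if e = s(x, w) then (fcount M x v w - fcount M' x v w) else 0) +
        (∑ w, if e = s(v, w) then (lcount M x v w - lcount M' x v w) else 0) := by
      rw [dcnt_eq M h, dcnt_eq M' h, add_sub_add_comm, ← Finset.sum_sub_distrib,
        ← Finset.sum_sub_distrib]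
      congr 1
      · refine Finset.sum_congr rfl fun w _ => ?_
        split_ifs <;> simp
      · refine Finset.sum_congr rfl fun w _ => ?_
        split_ifs <;> simp
    have e2 : (∑ w, if e = s(x, w) then (fcount M x v w - fcount M' x v w) else 0) *
        (∑ w, if e = s(v, w) then (lcount M x v w - lcount M' x v w) else 0) = 0 := by
      rw [Finset.sum_mul_sum]
      refine Finset.sum_eq_zero fun a _ => Finset.sum_eq_zero fun b _ => ?_
      by_cases ha : e = s(x, a)
      · by_cases hb : e = s(v, b)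
        · have hav : a = v := by
            rw [ha, Sym2.eq_iff] at hb
            rcases hb with hb | hb
            · exact absurd hb.1 h.1
            · exact hb.2
          have h3 : ¬ G.Adj x a := by rw [hav]; exact h.2
          rw [fcount_of_not_adj M h3, fcount_of_not_adj M' h3]
          simp
        · rw [if_neg hb, mul_zero]
      · rw [if_neg ha, zero_mul]
    rw [e1]
    nlinarith [e2]
  simp only [h1]
  rw [Finset.sum_add_distrib, sum_star, sum_star]

lemma sum_dcnt_sub_sq (M M' : MSys G k) {d : ℕ} (hd : ∀ x, (G.neighborSet x).ncard = d)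
    {x v : V} (h : Far G x v) :
    ∑ e, (dcnt M x v e - dcnt M' x v e) ^ 2 ≤ 4 * ((d : ℝ) - k) := by
  rw [sum_dcnt_sub_sq_eq M M' h]
  have h2 := sum_fst_le M M' hd h
  have h3 := sum_lst_le M M' hd h
  linarith

end feat
section bounds

variable {V : Type*} [Fintype V] {G : SimpleGraph V} {k : ℕ}

/-- squared radius of level 1 (choice of the system) -/
noncomputable def R1sq (n k d : ℕ) (al τ : ℝ) : ℝ :=
  (2 * ((n : ℝ) - 2 - k) + 4 * ((d : ℝ) - k) * al ^ 2) / (16 * k ^ 2) +
    ((d : ℝ) - k) / k ^ 2 * τ⁻¹ ^ 2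

/-- squared radius of level 2 (choice of the path in the system) -/
noncomputable def R2sq (n k : ℕ) (al τ : ℝ) : ℝ :=
  ((n : ℝ) - k - 2 + 4 * al ^ 2) / 16 + τ⁻¹ ^ 2

omit [Fintype V] in
lemma ft_sub (al τ : ℝ) (f g f' g' : Sym2 V → ℝ) :
    (WithLp.toLp 2 (ft al τ f g) - WithLp.toLp 2 (ft al τ f' g') : EuclideanSpace ℝ (FI V)) =
      WithLp.toLp 2 (Sum.elim (fun e => 1 / 2 * (f e - f' e) + al / 2 * (g e - g' e))
        (fun e => τ⁻¹ * (g e - g' e))) := by
  ext c
  rcases c with e | e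
  · simp [ft]; ring
  · simp [ft]; ring

lemma level2_core (M : MSys G k) {al τ B : ℝ} (hR : 0 ≤ B) {x v : V} (h : Far G x v) (i j : Fin k)
    (hlen : i ≠ j → (((M.P x v i).length : ℝ) + (M.P x v j).length - 4) / 16 + al ^ 2 / 4 +
      τ⁻¹ ^ 2 ≤ B) :
    ‖(WithLp.toLp 2 (ft al τ (intf (M.P x v i)) (endf (M.P x v i))) -
      WithLp.toLp 2 (ft al τ (intf (M.P x v j)) (endf (M.P x v j))) : EuclideanSpace ℝ (FI V))‖ ≤
      2 * √B := by
  by_cases hij : i = j
  · rw [hij, sub_self, norm_zero]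
    positivity
  · rw [ft_sub]
    refine norm_toLp_le _ (by positivity) ?_
    rw [Fintype.sum_sum_type]
    simp only [Sum.elim_inl, Sum.elim_inr]
    have hlen := hlen hij
    set p := M.P x v i with hp
    set q := M.P x v j with hq
    have hpp : p.IsPath := M.path x v i h
    have hqp : q.IsPath := M.path x v j h
    have hp2 : 2 ≤ p.length := M.two x v i h
    have hq2 : 2 ≤ q.length := M.two x v j h
    have e1 : ∀ e, (1 / 2 * (intf p e - intf q e) + al / 2 * (endf p e - endf q e)) ^ 2 ≤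
        1 / 4 * (intf p e + intf q e) + al ^ 2 / 4 * (endf p e + endf q e) := by
      intro e
      have h1 := intf_mul_endf p p hpp e
      have h2 := intf_mul_endf p q hpp e
      have h3 := intf_mul_endf q p hqp e
      have h4 := intf_mul_endf q q hqp e
      have h5 := endf_sq p h hp2 e
      have h6 := endf_sq q h hq2 e
      have h7 := intf_sq p e
      have h8 := intf_sq q e
      have h9 := mul_nonneg (intf_nonneg p e) (intf_nonneg q e)
      have h10 := mul_nonneg (endf_nonneg p e) (endf_nonneg q e)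
      have h11 : (1 / 2 * (intf p e - intf q e) + al / 2 * (endf p e - endf q e)) ^ 2 =
          1 / 4 * (intf p e ^ 2 + intf q e ^ 2) + al ^ 2 / 4 * (endf p e ^ 2 + endf q e ^ 2)
          - 1 / 2 * (intf p e * intf q e) - al ^ 2 / 2 * (endf p e * endf q e)
          + al / 2 * (intf p e * endf p e - intf p e * endf q e - intf q e * endf p e +
            intf q e * endf q e) := by ring
      rw [h11, h1, h2, h3, h4, h5, h6, h7, h8]
      nlinarith [mul_nonneg (sq_nonneg al) h10]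
    have e2 : ∀ e, (τ⁻¹ * (endf p e - endf q e)) ^ 2 ≤ τ⁻¹ ^ 2 * (endf p e + endf q e) := by
      intro e
      have h5 := endf_sq p h hp2 e
      have h6 := endf_sq q h hq2 e
      have h10 := mul_nonneg (endf_nonneg p e) (endf_nonneg q e)
      have h11 : (τ⁻¹ * (endf p e - endf q e)) ^ 2 = τ⁻¹ ^ 2 * (endf p e ^ 2 + endf q e ^ 2) -
          2 * (τ⁻¹ ^ 2 * (endf p e * endf q e)) := by ring
      rw [h11, h5, h6]
      nlinarith [mul_nonneg (sq_nonneg τ⁻¹) h10]
    have e3 := Finset.sum_le_sum fun e (_ : e ∈ univ) => e1 e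
    have e4 := Finset.sum_le_sum fun e (_ : e ∈ univ) => e2 e
    refine (add_le_add e3 e4).trans ?_
    rw [Finset.sum_add_distrib, ← Finset.mul_sum, ← Finset.mul_sum, ← Finset.mul_sum,
      Finset.sum_add_distrib, Finset.sum_add_distrib, sum_endf, sum_endf,
      sum_intf p hpp h hp2, sum_intf q hqp h hq2, mul_pow, Real.sq_sqrt hR]
    nlinarith

lemma level2 (M : MSys G k) {al τ : ℝ}
    (hR : 0 ≤ R2sq (Fintype.card V) k al τ) {x v : V} (h : Far G x v) (i j : Fin k) :
    ‖(WithLp.toLp 2 (ft al τ (intf (M.P x v i)) (endf (M.P x v i))) -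
      WithLp.toLp 2 (ft al τ (intf (M.P x v j)) (endf (M.P x v j))) : EuclideanSpace ℝ (FI V))‖ ≤
      2 * √(R2sq (Fintype.card V) k al τ) := by
  refine level2_core M hR h i j fun hij => ?_
  have := len_add_le M h hij
  unfold R2sq
  linarith

lemma level1_core (hk : 0 < k) (M M' : MSys G k) {al τ B I D : ℝ} {x v : V} (h : Far G x v)
    (hR : 0 ≤ B) (hI : ∑ e, icnt M x v e + ∑ e, icnt M' x v e ≤ I)
    (hD : ∑ e, (dcnt M x v e - dcnt M' x v e) ^ 2 ≤ D)
    (hB : (I + al ^ 2 * D) / (16 * k ^ 2) + D / (4 * k ^ 2) * τ⁻¹ ^ 2 ≤ B) :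
    ‖(WithLp.toLp 2 (ft al τ (fun e => (k : ℝ)⁻¹ * icnt M x v e) (fun e => (k : ℝ)⁻¹ * dcnt M x v e))
      - WithLp.toLp 2 (ft al τ (fun e => (k : ℝ)⁻¹ * icnt M' x v e)
        (fun e => (k : ℝ)⁻¹ * dcnt M' x v e)) : EuclideanSpace ℝ (FI V))‖ ≤
      2 * √B := by
  have hk0 : (0 : ℝ) < k := by exact_mod_cast hk
  rw [ft_sub]
  refine norm_toLp_le _ (by positivity) ?_
  rw [Fintype.sum_sum_type]
  simp only [Sum.elim_inl, Sum.elim_inr]
  have e1 : ∀ e, (1 / 2 * ((k : ℝ)⁻¹ * icnt M x v e - (k : ℝ)⁻¹ * icnt M' x v e) +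
      al / 2 * ((k : ℝ)⁻¹ * dcnt M x v e - (k : ℝ)⁻¹ * dcnt M' x v e)) ^ 2 =
      (k : ℝ)⁻¹ ^ 2 * (1 / 4 * (icnt M x v e - icnt M' x v e) ^ 2 +
        al ^ 2 / 4 * (dcnt M x v e - dcnt M' x v e) ^ 2) := by
    intro e
    have h1 := icnt_mul_dcnt M M h e
    have h2 := icnt_mul_dcnt M M' h e
    have h3 := icnt_mul_dcnt M' M h e
    have h4 := icnt_mul_dcnt M' M' h e
    have h5 : (1 / 2 * ((k : ℝ)⁻¹ * icnt M x v e - (k : ℝ)⁻¹ * icnt M' x v e) +
      al / 2 * ((k : ℝ)⁻¹ * dcnt M x v e - (k : ℝ)⁻¹ * dcnt M' x v e)) ^ 2 =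
      (k : ℝ)⁻¹ ^ 2 * (1 / 4 * (icnt M x v e - icnt M' x v e) ^ 2 +
        al ^ 2 / 4 * (dcnt M x v e - dcnt M' x v e) ^ 2) + (k : ℝ)⁻¹ ^ 2 * (al / 2) *
        (icnt M x v e * dcnt M x v e - icnt M x v e * dcnt M' x v e -
          icnt M' x v e * dcnt M x v e + icnt M' x v e * dcnt M' x v e) := by ring
    rw [h5, h1, h2, h3, h4]
    ring
  have e2 : ∀ e, (τ⁻¹ * ((k : ℝ)⁻¹ * dcnt M x v e - (k : ℝ)⁻¹ * dcnt M' x v e)) ^ 2 =
      τ⁻¹ ^ 2 * (k : ℝ)⁻¹ ^ 2 * (dcnt M x v e - dcnt M' x v e) ^ 2 := by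
    intro e; ring
  simp only [e1, e2]
  rw [← Finset.mul_sum, ← Finset.mul_sum, Finset.sum_add_distrib, ← Finset.mul_sum,
    ← Finset.mul_sum]
  have h2 := sum_sq_sub_le_of_unit _ _ (icnt_nonneg M x v) (icnt_nonneg M' x v)
    (icnt_le_one M h) (icnt_le_one M' h)
  rw [mul_pow, Real.sq_sqrt hR]
  have h5 : 2 ^ 2 * ((I + al ^ 2 * D) / (16 * k ^ 2) + D / (4 * k ^ 2) * τ⁻¹ ^ 2) =
      (k : ℝ)⁻¹ ^ 2 * (1 / 4 * I + al ^ 2 / 4 * D) + τ⁻¹ ^ 2 * (k : ℝ)⁻¹ ^ 2 * D := by
    field_simp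
    ring
  refine le_trans ?_ (mul_le_mul_of_nonneg_left hB (by norm_num : (0 : ℝ) ≤ 2 ^ 2))
  rw [h5]
  gcongr
  exact h2.trans hI

lemma level1 (hk : 0 < k) (M M' : MSys G k) {d : ℕ} (hd : ∀ x, (G.neighborSet x).ncard = d)
    {al τ : ℝ} {x v : V} (h : Far G x v)
    (hR : 0 ≤ R1sq (Fintype.card V) k d al τ) :
    ‖(WithLp.toLp 2 (ft al τ (fun e => (k : ℝ)⁻¹ * icnt M x v e) (fun e => (k : ℝ)⁻¹ * dcnt M x v e))
      - WithLp.toLp 2 (ft al τ (fun e => (k : ℝ)⁻¹ * icnt M' x v e)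
        (fun e => (k : ℝ)⁻¹ * dcnt M' x v e)) : EuclideanSpace ℝ (FI V))‖ ≤
      2 * √(R1sq (Fintype.card V) k d al τ) := by
  have hk0 : (0 : ℝ) < k := by exact_mod_cast hk
  have h3 := sum_icnt_le M h
  have h4 := sum_icnt_le M' h
  refine level1_core hk M M' (I := 2 * ((Fintype.card V : ℝ) - 2 - k)) h hR (by linarith)
    (sum_dcnt_sub_sq M M' hd h) (le_of_eq ?_)
  unfold R1sq
  field_simp

/-- squared radius of level 1, general form -/
noncomputable def R1g (S : ℝ) (k d : ℕ) (al τ : ℝ) : ℝ :=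
  (2 * (S - k) + 4 * min (k : ℝ) ((d : ℝ) - k) * al ^ 2) / (16 * k ^ 2) +
    min (k : ℝ) ((d : ℝ) - k) / k ^ 2 * τ⁻¹ ^ 2

/-- squared radius of level 2, general form -/
noncomputable def R2g (L : ℝ) (al τ : ℝ) : ℝ := (L - 2 + 4 * al ^ 2) / 16 + τ⁻¹ ^ 2

/-- upper bound for the sums of two lengths, in terms of interior vertices -/
def PairLe (M : MSys G k) (L : ℝ) : Prop :=
  ∀ x v, Far G x v → ∀ i j, i ≠ j →
    (((M.P x v i).length - 1 : ℕ) : ℝ) + ((M.P x v j).length - 1 : ℕ) ≤ L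

/-- upper bound for the sum of all lengths, in terms of interior vertices -/
def SumLe (M : MSys G k) (S : ℝ) : Prop :=
  ∀ x v, Far G x v → ∑ i, (((M.P x v i).length - 1 : ℕ) : ℝ) ≤ S

lemma PairLe.tr {M : MSys G k} {L : ℝ} (h : PairLe M L) (γ : G ≃g G) : PairLe (M.tr γ) L := by
  intro x v hf i j hij
  have := h _ _ ((far_iff γ x v).2 hf) i j hij
  have e1 : ((M.tr γ).P x v i).length = (M.P (γ x) (γ v) i).length := length_trM γ M.P x v i
  have e2 : ((M.tr γ).P x v j).length = (M.P (γ x) (γ v) j).length := length_trM γ M.P x v j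
  rw [e1, e2]
  exact this

lemma SumLe.tr {M : MSys G k} {S : ℝ} (h : SumLe M S) (γ : G ≃g G) : SumLe (M.tr γ) S := by
  intro x v hf
  have := h _ _ ((far_iff γ x v).2 hf)
  have e1 : ∀ i, ((M.tr γ).P x v i).length = (M.P (γ x) (γ v) i).length :=
    fun i => length_trM γ M.P x v i
  simp only [e1]
  exact this

lemma sum_icnt_le_S {M : MSys G k} {S : ℝ} (hS : SumLe M S) {x v : V} (h : Far G x v) :
    ∑ e, icnt M x v e ≤ S - k := by
  have h1 := hS x v h
  unfold icnt
  rw [Finset.sum_comm]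
  have h2 : ∑ i, ∑ e, intf (M.P x v i) e = ∑ i, ((((M.P x v i).length - 1 : ℕ) : ℝ) - 1) := by
    refine Finset.sum_congr rfl fun i _ => ?_
    rw [sum_intf _ (M.path x v i h) h (M.two x v i h)]
    have h3 := M.two x v i h
    rw [Nat.cast_sub (by omega)]
    push_cast
    ring
  rw [h2, Finset.sum_sub_distrib]
  simp only [Finset.sum_const, Finset.card_univ, Fintype.card_fin, nsmul_eq_mul]
  linarith

lemma sum_fst_le' (M M' : MSys G k) {x v : V} (h : Far G x v) :
    ∑ w, (fcount M x v w - fcount M' x v w) ^ 2 ≤ 2 * (k : ℝ) := by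
  have h4 := sum_sq_sub_le_of_unit _ _ (fcount_nonneg M x v) (fcount_nonneg M' x v)
    (fcount_le_one M x v) (fcount_le_one M' x v)
  rw [sum_fcount M h, sum_fcount M' h] at h4
  linarith

lemma sum_lst_le' (M M' : MSys G k) {x v : V} (h : Far G x v) :
    ∑ w, (lcount M x v w - lcount M' x v w) ^ 2 ≤ 2 * (k : ℝ) := by
  have h4 := sum_sq_sub_le_of_unit _ _ (lcount_nonneg M x v) (lcount_nonneg M' x v)
    (lcount_le_one M x v) (lcount_le_one M' x v)
  rw [sum_lcount M h, sum_lcount M' h] at h4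
  linarith

lemma sum_dcnt_sub_sq_min (M M' : MSys G k) {d : ℕ} (hd : ∀ x, (G.neighborSet x).ncard = d)
    {x v : V} (h : Far G x v) :
    ∑ e, (dcnt M x v e - dcnt M' x v e) ^ 2 ≤ 4 * min (k : ℝ) ((d : ℝ) - k) := by
  rcases le_total (k : ℝ) ((d : ℝ) - k) with hle | hle
  · rw [min_eq_left hle, sum_dcnt_sub_sq_eq M M' h]
    have h1 := sum_fst_le' M M' h
    have h2 := sum_lst_le' M M' h
    linarith
  · rw [min_eq_right hle]
    exact sum_dcnt_sub_sq M M' hd h

lemma level1g (hk : 0 < k) {M M' : MSys G k} {d : ℕ} (hd : ∀ x, (G.neighborSet x).ncard = d)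
    {al τ S : ℝ} (hS : SumLe M S) (hS' : SumLe M' S) {x v : V} (h : Far G x v)
    (hR : 0 ≤ R1g S k d al τ) :
    ‖(WithLp.toLp 2 (ft al τ (fun e => (k : ℝ)⁻¹ * icnt M x v e) (fun e => (k : ℝ)⁻¹ * dcnt M x v e))
      - WithLp.toLp 2 (ft al τ (fun e => (k : ℝ)⁻¹ * icnt M' x v e)
        (fun e => (k : ℝ)⁻¹ * dcnt M' x v e)) : EuclideanSpace ℝ (FI V))‖ ≤
      2 * √(R1g S k d al τ) := by
  have hk0 : (0 : ℝ) < k := by exact_mod_cast hk
  have h3 := sum_icnt_le_S hS h
  have h4 := sum_icnt_le_S hS' h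
  refine level1_core hk M M' (I := 2 * (S - k)) h hR (by linarith)
    (sum_dcnt_sub_sq_min M M' hd h) (le_of_eq ?_)
  unfold R1g
  field_simp

lemma level2g {M : MSys G k} {al τ L : ℝ} (hL : PairLe M L) (hR : 0 ≤ R2g L al τ) {x v : V}
    (h : Far G x v) (i j : Fin k) :
    ‖(WithLp.toLp 2 (ft al τ (intf (M.P x v i)) (endf (M.P x v i))) -
      WithLp.toLp 2 (ft al τ (intf (M.P x v j)) (endf (M.P x v j))) : EuclideanSpace ℝ (FI V))‖ ≤
      2 * √(R2g L al τ) := by
  refine level2_core M hR h i j fun hij => ?_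
  have h1 := hL x v h i j hij
  have h2 := M.two x v i h
  have h3 := M.two x v j h
  rw [Nat.cast_sub (by omega), Nat.cast_sub (by omega)] at h1
  unfold R2g
  push_cast at h1
  linarith

end bounds
section final

/-- the deviation of the selected options from the mean, as a linear functional -/
noncomputable def dev {I J K : Type*} [Fintype I] [Fintype J] [Fintype K] (γ : I → J) (c : I → K) :
    (I → J → K → ℝ) →ₗ[ℝ] ℝ where
  toFun F := ∑ i, (F i (γ i) (c i) - (Fintype.card J : ℝ)⁻¹ * ∑ j,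
    ((Fintype.card K : ℝ)⁻¹ * ∑ c, F i j c))
  map_add' F H := by
    rw [← Finset.sum_add_distrib]
    refine Finset.sum_congr rfl fun i _ => ?_
    simp only [Pi.add_apply, Finset.sum_add_distrib, mul_add]
    ring
  map_smul' a F := by
    simp only [Pi.smul_apply, smul_eq_mul, RingHom.id_apply]
    rw [Finset.mul_sum]
    refine Finset.sum_congr rfl fun i _ => ?_
    simp only [← Finset.mul_sum]
    ring

variable {V : Type*} [Fintype V] {G : SimpleGraph V} {k : ℕ}

/-- the properties of the integral base -/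
structure Base (k : ℕ) (P : ∀ x y : V, G.Walk x y) : Prop where
  paths : Paths P
  adj : ∀ x y (h : G.Adj x y), P x y = h.toWalk
  two : ∀ x y, Far G x y → 2 ≤ (P x y).length
  fst : ∀ x y, Far G x y → ∀ w ∈ (P x y).support, G.Adj x w → w = (P x y).getVert 1
  lst : ∀ x y, Far G x y → ∀ w ∈ (P x y).support, G.Adj w y →
    w = (P x y).getVert ((P x y).length - 1)
  len : ∀ x y, Far G x y → (P x y).length + k ≤ Fintype.card V

open Classical in
/-- number of targets `y` for which the path from `u` starts with the arc `uw` -/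
noncomputable def fcnt (P : ∀ x y : V, G.Walk x y) (u w : V) : ℕ :=
  (univ.filter fun y => Far G u y ∧ (P u y).getVert 1 = w).card

open Classical in
/-- number of roots `x` for which the path to `v` ends with the arc `wv` -/
noncomputable def lcnt (P : ∀ x y : V, G.Walk x y) (v w : V) : ℕ :=
  (univ.filter fun x => Far G x v ∧ (P x v).getVert ((P x v).length - 1) = w).card

open Classical in
/-- number of ends of the paths of far pairs on the edge `e` -/
noncomputable def endc (P : ∀ x y : V, G.Walk x y) (e : Sym2 V) : ℝ :=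
  ∑ x, ∑ y, if Far G x y then endf (P x y) e else 0

open Classical in
/-- number of ordered adjacent pairs forming the edge `e` -/
noncomputable def adjc (G : SimpleGraph V) (e : Sym2 V) : ℝ :=
  ∑ x : V, ∑ y : V, if G.Adj x y ∧ e = s(x, y) then 1 else 0

/-- mean usage of an edge -/
noncomputable def mE (M : MSys G k) (e : Sym2 V) : ℝ :=
  ((Fintype.card (G ≃g G) : ℝ)⁻¹ * (k : ℝ)⁻¹) * etot M e + adjc G e

/-- mean number of uses of the first arc `uw` -/
noncomputable def mF (M : MSys G k) (u w : V) : ℝ :=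
  ((Fintype.card (G ≃g G) : ℝ)⁻¹ * (k : ℝ)⁻¹) * ∑ v, ∑ γ, fcount (M.tr γ) u v w

/-- mean number of uses of the last arc `wv` -/
noncomputable def mL (M : MSys G k) (v w : V) : ℝ :=
  ((Fintype.card (G ≃g G) : ℝ)⁻¹ * (k : ℝ)⁻¹) * ∑ x, ∑ γ, lcount (M.tr γ) x v w

open Classical in
/-- mean number of ends on the edge `e` -/
noncomputable def mEnd (M : MSys G k) (e : Sym2 V) : ℝ :=
  ((Fintype.card (G ≃g G) : ℝ)⁻¹ * (k : ℝ)⁻¹) *
    ∑ x, ∑ v, ∑ γ, if Far G x v then dcnt (M.tr γ) x v e else 0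

/-- half the usage error of the edge `e` -/
noncomputable def kerr (M : MSys G k) (P : ∀ x y : V, G.Walk x y) (e : Sym2 V) : ℝ :=
  ((eload P e : ℝ) - mE M e) / 2

/-- the error of the number of ends on the edge `e` -/
noncomputable def kend (M : MSys G k) (P : ∀ x y : V, G.Walk x y) (e : Sym2 V) : ℝ :=
  endc P e - mEnd M e

lemma adjc_inv (δ : G ≃g G) (e : Sym2 V) : adjc G (Sym2.map δ e) = adjc G e := by
  classical
  unfold adjc
  rw [← Equiv.sum_comp δ.toEquiv]
  refine Finset.sum_congr rfl fun x _ => ?_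
  rw [← Equiv.sum_comp δ.toEquiv]
  refine Finset.sum_congr rfl fun y _ => if_congr ?_ rfl rfl
  change G.Adj (δ x) (δ y) ∧ Sym2.map δ e = s(δ x, δ y) ↔ _
  rw [δ.map_adj_iff, ← Sym2.map_mk, (Sym2.map.injective δ.injective).eq_iff]

lemma adjc_of_not_mem {e : Sym2 V} (he : e ∉ G.edgeSet) : adjc G e = 0 := by
  classical
  unfold adjc
  refine Finset.sum_eq_zero fun x _ => Finset.sum_eq_zero fun y _ => if_neg ?_
  rintro ⟨h, rfl⟩
  exact he h

lemma mE_inv (M : MSys G k) (δ : G ≃g G) (e : Sym2 V) : mE M (Sym2.map δ e) = mE M e := by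
  unfold mE
  rw [etot_inv, adjc_inv]

lemma mE_of_not_mem (M : MSys G k) {e : Sym2 V} (he : e ∉ G.edgeSet) : mE M e = 0 := by
  classical
  unfold mE
  rw [adjc_of_not_mem he, add_zero]
  have : etot M e = 0 := by
    unfold etot
    refine Finset.sum_eq_zero fun x _ => Finset.sum_eq_zero fun v _ =>
      Finset.sum_eq_zero fun γ _ => ?_
    unfold ecount
    split_ifs with h
    · refine Finset.sum_eq_zero fun i _ => if_neg ?_
      intro h'
      exact he (SimpleGraph.Walk.edges_subset_edgeSet _ h')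
    · rfl
  rw [this, mul_zero]

lemma mF_inv (M : MSys G k) (δ : G ≃g G) (u w : V) : mF M (δ u) (δ w) = mF M u w := by
  unfold mF
  congr 1
  rw [← Equiv.sum_comp δ.toEquiv]
  refine Finset.sum_congr rfl fun v _ => ?_
  have : ∀ γ, fcount (M.tr γ) (δ u) (δ.toEquiv v) (δ w) = fcount (M.tr (γ * δ)) u v w :=
    fun γ => fcount_tr M γ δ u v w
  simp_rw [this]
  exact Equiv.sum_comp (Equiv.mulRight δ) (fun γ => fcount (M.tr γ) u v w)

lemma mL_inv (M : MSys G k) (δ : G ≃g G) (v w : V) : mL M (δ v) (δ w) = mL M v w := by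
  unfold mL
  congr 1
  rw [← Equiv.sum_comp δ.toEquiv]
  refine Finset.sum_congr rfl fun x _ => ?_
  have : ∀ γ, lcount (M.tr γ) (δ.toEquiv x) (δ v) (δ w) = lcount (M.tr (γ * δ)) x v w :=
    fun γ => lcount_tr M γ δ x v w
  simp_rw [this]
  exact Equiv.sum_comp (Equiv.mulRight δ) (fun γ => lcount (M.tr γ) x v w)

lemma card_aut_pos (G : SimpleGraph V) : (0 : ℝ) < Fintype.card (G ≃g G) := by
  have : Nonempty (G ≃g G) := ⟨RelIso.refl _⟩
  exact_mod_cast Fintype.card_pos

lemma mF_nonneg (M : MSys G k) (u w : V) : 0 ≤ mF M u w := by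
  have := card_aut_pos G
  unfold mF
  refine mul_nonneg (by positivity) (Finset.sum_nonneg fun v _ => Finset.sum_nonneg fun γ _ =>
    fcount_nonneg _ _ _ _)

lemma mL_nonneg (M : MSys G k) (u w : V) : 0 ≤ mL M u w := by
  have := card_aut_pos G
  unfold mL
  refine mul_nonneg (by positivity) (Finset.sum_nonneg fun v _ => Finset.sum_nonneg fun γ _ =>
    lcount_nonneg _ _ _ _)

lemma mF_of_not_adj (M : MSys G k) {u w : V} (h : ¬ G.Adj u w) : mF M u w = 0 := by
  unfold mF
  rw [Finset.sum_eq_zero, mul_zero]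
  exact fun v _ => Finset.sum_eq_zero fun γ _ => fcount_of_not_adj _ h

lemma mL_of_not_adj (M : MSys G k) {v w : V} (h : ¬ G.Adj w v) : mL M v w = 0 := by
  unfold mL
  rw [Finset.sum_eq_zero, mul_zero]
  exact fun x _ => Finset.sum_eq_zero fun γ _ => lcount_of_not_adj _ h

lemma mF_le (M : MSys G k) {d : ℕ} (hd : ∀ x, (G.neighborSet x).ncard = d) (u w : V) :
    mF M u w ≤ ((Fintype.card V - 1 - d : ℕ) : ℝ) / k := by
  have h0 := card_aut_pos G
  unfold mF
  rw [Finset.sum_comm]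
  have h1 : ∑ γ : G ≃g G, ∑ v, fcount (M.tr γ) u v w ≤
      ∑ γ : G ≃g G, ((Fintype.card V - 1 - d : ℕ) : ℝ) :=
    Finset.sum_le_sum fun γ _ => sum_fcount_le _ hd u w
  rw [Finset.sum_const, Finset.card_univ, nsmul_eq_mul] at h1
  calc _ ≤ ((Fintype.card (G ≃g G) : ℝ)⁻¹ * (k : ℝ)⁻¹) *
      ((Fintype.card (G ≃g G) : ℝ) * ((Fintype.card V - 1 - d : ℕ) : ℝ)) := by gcongr
    _ = _ := by field_simp

lemma mL_le (M : MSys G k) {d : ℕ} (hd : ∀ x, (G.neighborSet x).ncard = d) (v w : V) :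
    mL M v w ≤ ((Fintype.card V - 1 - d : ℕ) : ℝ) / k := by
  have h0 := card_aut_pos G
  unfold mL
  rw [Finset.sum_comm]
  have h1 : ∑ γ : G ≃g G, ∑ x, lcount (M.tr γ) x v w ≤
      ∑ γ : G ≃g G, ((Fintype.card V - 1 - d : ℕ) : ℝ) :=
    Finset.sum_le_sum fun γ _ => sum_lcount_le _ hd v w
  rw [Finset.sum_const, Finset.card_univ, nsmul_eq_mul] at h1
  calc _ ≤ ((Fintype.card (G ≃g G) : ℝ)⁻¹ * (k : ℝ)⁻¹) *
      ((Fintype.card (G ≃g G) : ℝ) * ((Fintype.card V - 1 - d : ℕ) : ℝ)) := by gcongr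
    _ = _ := by field_simp

omit [Fintype V] in
/-- the ends on an edge -/
lemma endf_mk {x v : V} (p : G.Walk x v) {u w : V} (huw : u ≠ w) :
    endf p s(u, w) = (open Classical in (if x = u ∧ p.getVert 1 = w then (1 : ℝ) else 0) +
      (if x = w ∧ p.getVert 1 = u then 1 else 0) +
      ((if v = u ∧ p.getVert (p.length - 1) = w then 1 else 0) +
      (if v = w ∧ p.getVert (p.length - 1) = u then 1 else 0))) := by
  classical
  have key : ∀ a b : V, (if s(u, w) = s(a, b) then (1 : ℝ) else 0) =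
      (if a = u ∧ b = w then 1 else 0) + (if a = w ∧ b = u then 1 else 0) := by
    intro a b
    by_cases h1 : a = u ∧ b = w
    · obtain ⟨rfl, rfl⟩ := h1
      simp [huw]
    · by_cases h2 : a = w ∧ b = u
      · obtain ⟨rfl, rfl⟩ := h2
        simp [huw, Sym2.eq_swap]
      · rw [if_neg h1, if_neg h2, if_neg]
        · ring
        · rw [Sym2.eq_iff]
          rintro (h | h)
          · exact h1 ⟨h.1.symm, h.2.symm⟩
          · exact h2 ⟨h.2.symm, h.1.symm⟩
  unfold endf fe le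
  rw [key, key]

open Classical in
lemma sum_root (u w : V) (P : ∀ x y : V, G.Walk x y) :
    ∑ x, ∑ y, (if Far G x y then (if x = u ∧ (P x y).getVert 1 = w then (1 : ℝ) else 0) else 0) =
      fcnt P u w := by
  unfold fcnt
  rw [Finset.card_filter]
  push_cast
  rw [Finset.sum_eq_single u]
  · refine Finset.sum_congr rfl fun y _ => ?_
    simp only [true_and]
    by_cases h : Far G u y
    · simp [h]
    · simp [h]
  · intro x _ hx
    refine Finset.sum_eq_zero fun y _ => ?_
    simp [hx]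
  · intro h; exact absurd (mem_univ _) h

open Classical in
lemma sum_target (u w : V) (P : ∀ x y : V, G.Walk x y) :
    ∑ x, ∑ y, (if Far G x y then (if y = u ∧ (P x y).getVert ((P x y).length - 1) = w then (1 : ℝ)
      else 0) else 0) = lcnt P u w := by
  unfold lcnt
  rw [Finset.card_filter]
  push_cast
  refine Finset.sum_congr rfl fun x _ => ?_
  rw [Finset.sum_eq_single u]
  · simp only [true_and]
    by_cases h : Far G x u
    · simp [h]
    · simp [h]
  · intro y _ hy
    simp [hy]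
  · intro h; exact absurd (mem_univ _) h

lemma endc_mk (P : ∀ x y : V, G.Walk x y) {u w : V} (huw : u ≠ w) :
    endc P s(u, w) = fcnt P u w + fcnt P w u + (lcnt P u w + lcnt P w u) := by
  classical
  unfold endc
  have h1 : ∀ x y : V, (if Far G x y then endf (P x y) s(u, w) else 0) =
      (if Far G x y then (if x = u ∧ (P x y).getVert 1 = w then (1 : ℝ) else 0) else 0) +
      (if Far G x y then (if x = w ∧ (P x y).getVert 1 = u then (1 : ℝ) else 0) else 0) +
      ((if Far G x y then (if y = u ∧ (P x y).getVert ((P x y).length - 1) = w then (1 : ℝ)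
        else 0) else 0) +
      (if Far G x y then (if y = w ∧ (P x y).getVert ((P x y).length - 1) = u then (1 : ℝ)
        else 0) else 0)) := by
    intro x y
    rw [endf_mk _ huw]
    by_cases h : Far G x y
    · simp only [if_pos h]
    · simp only [if_neg h, add_zero]
  simp only [h1, Finset.sum_add_distrib]
  rw [sum_root, sum_root, sum_target, sum_target]

open Classical in
lemma dcnt_mk (M : MSys G k) {u w : V} (huw : u ≠ w) (x v : V) :
    (if Far G x v then dcnt M x v s(u, w) else 0) =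
      (if x = u then fcount M x v w else 0) + (if x = w then fcount M x v u else 0) +
      ((if v = u then lcount M x v w else 0) + (if v = w then lcount M x v u else 0)) := by
  by_cases h : Far G x v
  · rw [if_pos h]
    unfold dcnt fcount lcount
    simp only [endf_mk _ huw, Finset.sum_add_distrib, if_pos h]
    have key : ∀ (a b : V) (f : Fin k → V) (c : V), ∑ i, (if a = b ∧ f i = c then (1 : ℝ) else 0) =
        if a = b then ∑ i, (if f i = c then (1 : ℝ) else 0) else 0 := by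
      intro a b f c
      by_cases hab : a = b
      · simp [hab]
      · simp [hab]
    simp only [key]
  · rw [if_neg h]
    simp only [fcount_of_not_far _ h, lcount_of_not_far _ h, ite_self, add_zero]

lemma mEnd_mk (M : MSys G k) {u w : V} (huw : u ≠ w) :
    mEnd M s(u, w) = mF M u w + mF M w u + (mL M u w + mL M w u) := by
  classical
  unfold mEnd mF mL
  rw [← mul_add, ← mul_add, ← mul_add]
  congr 1
  simp only [dcnt_mk _ huw, Finset.sum_add_distrib]
  have h1 : ∀ u w : V, ∑ x, ∑ v, ∑ γ : G ≃g G, (if x = u then fcount (M.tr γ) x v w else 0) =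
      ∑ v, ∑ γ : G ≃g G, fcount (M.tr γ) u v w := by
    intro u w
    rw [Finset.sum_eq_single u]
    · simp
    · intro x _ hx
      exact Finset.sum_eq_zero fun y _ => Finset.sum_eq_zero fun γ _ => if_neg hx
    · intro h; exact absurd (mem_univ _) h
  have h2 : ∀ u w : V, ∑ x, ∑ v, ∑ γ : G ≃g G, (if v = u then lcount (M.tr γ) x v w else 0) =
      ∑ x, ∑ γ : G ≃g G, lcount (M.tr γ) x u w := by
    intro u w
    refine Finset.sum_congr rfl fun x _ => ?_
    rw [Finset.sum_eq_single u]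
    · simp
    · intro y _ hy
      exact Finset.sum_eq_zero fun γ _ => if_neg hy
    · intro h; exact absurd (mem_univ _) h
  rw [h1, h1, h2, h2]

lemma mEnd_le (M : MSys G k) {d : ℕ} (hd : ∀ x, (G.neighborSet x).ncard = d) {u w : V}
    (huw : u ≠ w) : mEnd M s(u, w) ≤ 4 * ((Fintype.card V - 1 - d : ℕ) : ℝ) / k := by
  rw [mEnd_mk M huw]
  have h1 := mF_le M hd u w
  have h2 := mF_le M hd w u
  have h3 := mL_le M hd u w
  have h4 := mL_le M hd w u
  have h5 : 4 * ((Fintype.card V - 1 - d : ℕ) : ℝ) / k = 4 * (((Fintype.card V - 1 - d : ℕ) : ℝ) / k)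
    := by ring
  rw [h5]
  linarith

lemma mEnd_nonneg (M : MSys G k) {u w : V} (huw : u ≠ w) : 0 ≤ mEnd M s(u, w) := by
  rw [mEnd_mk M huw]
  have h1 := mF_nonneg M u w
  have h2 := mF_nonneg M w u
  have h3 := mL_nonneg M u w
  have h4 := mL_nonneg M w u
  linarith

open Classical in
lemma sum_farP (f : V → V → ℝ) (hf : ∀ x v, ¬ Far G x v → f x v = 0) :
    ∑ p : FarP G, f p.1.1 p.1.2 = ∑ x, ∑ v, f x v := by
  rw [← Finset.sum_subtype (univ.filter fun p : V × V => Far G p.1 p.2) (by simp)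
    (fun p => f p.1 p.2), Finset.sum_filter, ← Fintype.sum_prod_type']
  refine Finset.sum_congr rfl fun p _ => ?_
  split_ifs with h
  · rfl
  · exact (hf _ _ h).symm

open Classical in
lemma eload_split {P : ∀ x y : V, G.Walk x y} (hB : Base k P) (e : Sym2 V) :
    (eload P e : ℝ) = ∑ x, ∑ y, (if Far G x y then (if e ∈ (P x y).edges then (1 : ℝ) else 0) else 0)
      + adjc G e := by
  rw [Parity.eload_eq]
  push_cast
  unfold adjc
  rw [Fintype.sum_prod_type, ← Finset.sum_add_distrib]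
  refine Finset.sum_congr rfl fun x _ => ?_
  rw [← Finset.sum_add_distrib]
  refine Finset.sum_congr rfl fun y _ => ?_
  by_cases hxy : x = y
  · subst hxy
    have h1 : ¬ Far G x x := fun h => h.1 rfl
    simp [h1]
  · by_cases ha : G.Adj x y
    · have h1 : ¬ Far G x y := fun h => h.2 ha
      rw [hB.adj x y ha]
      simp [h1, hxy, ha]
    · have h1 : Far G x y := ⟨hxy, ha⟩
      simp [h1, hxy, ha]

lemma succ_le_card {d : ℕ} (hd : ∀ x, (G.neighborSet x).ncard = d) (hn : 2 ≤ Fintype.card V) :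
    d + 1 ≤ Fintype.card V := by
  classical
  have : Nonempty V := Fintype.card_pos_iff.1 (by omega)
  obtain ⟨x⟩ := this
  have h1 := hd x
  have h2 : (G.neighborSet x) ⊆ ((univ.erase x : Finset V) : Set V) := by
    intro w hw
    rw [Finset.coe_erase, Finset.coe_univ]
    exact ⟨trivial, fun h => G.loopless.irrefl x (by rw [Set.mem_singleton_iff] at h; rwa [h] at hw)⟩
  have h3 := Set.ncard_le_ncard h2 (Set.toFinite _)
  rw [h1, Set.ncard_coe_finset, Finset.card_erase_of_mem (mem_univ x), Finset.card_univ] at h3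
  omega

/-- the inner product with a test vector -/
lemma inner_test (al τ : ℝ) (a b f g f' g' : Sym2 V → ℝ)
    (h : τ ≠ 0 ∨ ∀ e, g e = g' e) :
    inner ℝ (WithLp.toLp 2 (Sum.elim a (fun e => τ * (b e + (1 - al) / 2 * a e))) :
        EuclideanSpace ℝ (FI V))
      (WithLp.toLp 2 (ft al τ f g) - WithLp.toLp 2 (ft al τ f' g')) =
      ∑ e, (a e / 2 * ((f e + g e) - (f' e + g' e)) + b e * (g e - g' e)) := by
  rw [ft_sub, PiLp.inner_apply, Fintype.sum_sum_type, ← Finset.sum_add_distrib]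
  refine Finset.sum_congr rfl fun e _ => ?_
  simp only [Sum.elim_inl, Sum.elim_inr, RCLike.inner_apply, conj_trivial]
  rcases h with h | h
  · have : τ⁻¹ * (g e - g' e) * (τ * (b e + (1 - al) / 2 * a e)) =
        (g e - g' e) * (b e + (1 - al) / 2 * a e) := by
      field_simp
    rw [this]
    ring
  · rw [h e]
    ring

lemma norm_test (al τ : ℝ) (a b : Sym2 V → ℝ) :
    ‖(WithLp.toLp 2 (Sum.elim a (fun e => τ * (b e + (1 - al) / 2 * a e))) :
        EuclideanSpace ℝ (FI V))‖ ^ 2 =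
      ∑ e, (a e ^ 2 + τ ^ 2 * (b e + (1 - al) / 2 * a e) ^ 2) := by
  rw [EuclideanSpace.norm_sq_eq, Fintype.sum_sum_type, ← Finset.sum_add_distrib]
  refine Finset.sum_congr rfl fun e _ => ?_
  simp only [Sum.elim_inl, Sum.elim_inr, Real.norm_eq_abs, sq_abs]
  ring

/-- core of `inv_gsw`: arbitrary bounds for the two levels -/
theorem inv_gsw_core {d : ℕ} (hd : ∀ x, (G.neighborSet x).ncard = d) (hk : 0 < k)
    (M : MSys G k) {al τ₁ τ₂ B1 B2 : ℝ}
    (hτ₁ : τ₁ ≠ 0 ∨ k = d) (hτ₂ : τ₂ ≠ 0) (hR1 : 0 ≤ B1) (hR2 : 0 ≤ B2)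
    (hl1 : ∀ x v, Far G x v → ∀ γ γ' : G ≃g G,
      ‖(WithLp.toLp 2 (ft al τ₁ (fun e => (k : ℝ)⁻¹ * icnt (M.tr γ) x v e)
          (fun e => (k : ℝ)⁻¹ * dcnt (M.tr γ) x v e))
        - WithLp.toLp 2 (ft al τ₁ (fun e => (k : ℝ)⁻¹ * icnt (M.tr γ') x v e)
          (fun e => (k : ℝ)⁻¹ * dcnt (M.tr γ') x v e)) : EuclideanSpace ℝ (FI V))‖ ≤ 2 * √B1)
    (hl2 : ∀ x v, Far G x v → ∀ (γ : G ≃g G) i j,
      ‖(WithLp.toLp 2 (ft al τ₂ (intf ((M.tr γ).P x v i)) (endf ((M.tr γ).P x v i))) -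
        WithLp.toLp 2 (ft al τ₂ (intf ((M.tr γ).P x v j)) (endf ((M.tr γ).P x v j))) :
          EuclideanSpace ℝ (FI V))‖ ≤ 2 * √B2)
    {Θ : Type*} [Fintype Θ] (a b : Θ → Sym2 V → ℝ) (s : Θ → ℝ) :
    ∃ P : ∀ x y : V, G.Walk x y, Base k P ∧
      ∑ t, exp (s t + ∑ e, (a t e * kerr M P e + b t e * kend M P e)) ≤
      ∑ t, exp (s t +
        (B1 * ∑ e, (a t e ^ 2 + τ₁ ^ 2 * (b t e + (1 - al) / 2 * a t e) ^ 2)
        + B2 * ∑ e, (a t e ^ 2 + τ₂ ^ 2 * (b t e + (1 - al) / 2 * a t e) ^ 2)) / 2) := by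
  classical
  have hk0 : (0 : ℝ) < k := by exact_mod_cast hk
  have : Nonempty (Fin k) := ⟨⟨0, hk⟩⟩
  have : Nonempty (G ≃g G) := ⟨RelIso.refl _⟩
  -- the linear tests
  let L : Θ → FarP G → (G ≃g G) → Fin k → ℝ := fun t p γ i =>
    ∑ e, (a t e / 2 * (intf ((M.tr γ).P p.1.1 p.1.2 i) e + endf ((M.tr γ).P p.1.1 p.1.2 i) e) +
      b t e * endf ((M.tr γ).P p.1.1 p.1.2 i) e)
  have hLavg : ∀ t (p : FarP G) (γ : G ≃g G), (Fintype.card (Fin k) : ℝ)⁻¹ * ∑ c, L t p γ c =
      ∑ e, (a t e / 2 * ((k : ℝ)⁻¹ * icnt (M.tr γ) p.1.1 p.1.2 e +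
        (k : ℝ)⁻¹ * dcnt (M.tr γ) p.1.1 p.1.2 e) +
      b t e * ((k : ℝ)⁻¹ * dcnt (M.tr γ) p.1.1 p.1.2 e)) := by
    intro t p γ
    rw [Fintype.card_fin]
    simp only [L]
    rw [Finset.sum_comm, Finset.mul_sum]
    refine Finset.sum_congr rfl fun e _ => ?_
    unfold icnt dcnt
    rw [Finset.sum_add_distrib, ← Finset.mul_sum, ← Finset.mul_sum, Finset.sum_add_distrib]
    ring
  obtain ⟨γ, j, hmain⟩ := two_level (I := FarP G) (J := G ≃g G) (K := Fin k)
    (fun p γ => (WithLp.toLp 2 (ft al τ₁ (fun e => (k : ℝ)⁻¹ * icnt (M.tr γ) p.1.1 p.1.2 e)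
      (fun e => (k : ℝ)⁻¹ * dcnt (M.tr γ) p.1.1 p.1.2 e)) : EuclideanSpace ℝ (FI V)))
    (fun p γ i => (WithLp.toLp 2 (ft al τ₂ (intf ((M.tr γ).P p.1.1 p.1.2 i))
      (endf ((M.tr γ).P p.1.1 p.1.2 i))) : EuclideanSpace ℝ (FI V)))
    (Real.sqrt_nonneg _) (Real.sqrt_nonneg _)
    (fun p γ γ' => hl1 _ _ p.2 γ γ')
    (fun p γ i i' => hl2 _ _ p.2 γ i i')
    (fun t => WithLp.toLp 2 (Sum.elim (a t) (fun e => τ₁ * (b t e + (1 - al) / 2 * a t e))))
    (fun t => WithLp.toLp 2 (Sum.elim (a t) (fun e => τ₂ * (b t e + (1 - al) / 2 * a t e))))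
    L
    (by
      intro t p γ γ'
      rw [hLavg, hLavg, inner_test]
      · rw [← Finset.sum_sub_distrib]
        refine Finset.sum_congr rfl fun e _ => ?_
        ring
      · rcases hτ₁ with h | h
        · exact Or.inl h
        · right
          intro e
          have h1 := sum_dcnt_sub_sq (M.tr γ) (M.tr γ') hd p.2
          have h2 : ∑ e, (dcnt (M.tr γ) p.1.1 p.1.2 e - dcnt (M.tr γ') p.1.1 p.1.2 e) ^ 2 = 0 := by
            apply le_antisymm
            · have h' : (k : ℝ) = d := by exact_mod_cast h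
              linarith
            · exact Finset.sum_nonneg fun _ _ => sq_nonneg _
          have h3 := (Finset.sum_eq_zero_iff_of_nonneg fun _ _ => sq_nonneg _).1 h2 e (mem_univ e)
          have h4 : dcnt (M.tr γ) p.1.1 p.1.2 e - dcnt (M.tr γ') p.1.1 p.1.2 e = 0 := by
            exact pow_eq_zero_iff (two_ne_zero) |>.1 h3
          have h5 : dcnt (M.tr γ) p.1.1 p.1.2 e = dcnt (M.tr γ') p.1.1 p.1.2 e := by linarith
          rw [h5])
    (by
      intro t p γ i i'
      rw [inner_test _ _ _ _ _ _ _ _ (Or.inl hτ₂), ← Finset.sum_sub_distrib]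
      refine Finset.sum_congr rfl fun e _ => ?_
      ring) s
  -- the base
  have hex : ∀ x y : V, ∃ p : G.Walk x y, (∀ h : G.Adj x y, p = h.toWalk) ∧
      ∀ h : Far G x y, p = (M.tr (γ ⟨(x, y), h⟩)).P x y (j ⟨(x, y), h⟩) := by
    intro x y
    by_cases ha : G.Adj x y
    · exact ⟨ha.toWalk, fun _ => rfl, fun h => absurd ha h.2⟩
    · by_cases hxy : x = y
      · subst hxy
        exact ⟨SimpleGraph.Walk.nil, fun h => absurd h ha, fun h => absurd rfl h.1⟩
      · exact ⟨(M.tr (γ ⟨(x, y), hxy, ha⟩)).P x y (j ⟨(x, y), hxy, ha⟩), fun h => absurd h ha,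
          fun _ => rfl⟩
  choose P hPa hPf using hex
  have hB : Base k P := by
    refine ⟨?_, hPa, ?_, ?_, ?_, ?_⟩
    · intro x y hxy
      by_cases ha : G.Adj x y
      · rw [hPa x y ha]
        simp [SimpleGraph.Adj.toWalk, hxy]
      · rw [hPf x y ⟨hxy, ha⟩]
        exact MSys.path _ _ _ _ ⟨hxy, ha⟩
    · intro x y h
      rw [hPf x y h]
      exact MSys.two _ _ _ _ h
    · intro x y h w hw hxw
      rw [hPf x y h] at hw ⊢
      exact MSys.fst _ _ _ _ h w hw hxw
    · intro x y h w hw hxw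
      rw [hPf x y h] at hw ⊢
      exact MSys.lst _ _ _ _ h w hw hxw
    · intro x y h
      rw [hPf x y h]
      set M' := M.tr (γ ⟨(x, y), h⟩)
      set i := j ⟨(x, y), h⟩
      have h1 := M'.len x y h
      have h2 := fun i => M'.two x y i h
      have h3 : ((M'.P x y i).length - 1) + (k - 1) ≤ ∑ i, ((M'.P x y i).length - 1) := by
        rw [← Finset.add_sum_erase _ _ (mem_univ i)]
        have e2 : (univ.erase i).card ≤ ∑ l ∈ (univ.erase i), ((M'.P x y l).length - 1) := by
          rw [Finset.card_eq_sum_ones]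
          refine Finset.sum_le_sum fun l _ => ?_
          have := h2 l
          omega
        rw [Finset.card_erase_of_mem (mem_univ i), Finset.card_univ, Fintype.card_fin] at e2
        omega
      have := h2 i
      omega
  refine ⟨P, hB, ?_⟩
  refine le_trans (le_of_eq ?_) (hmain.trans (le_of_eq ?_))
  · refine Finset.sum_congr rfl fun t _ => ?_
    congr 2
    -- the usage functional and the end functional
    let U : Sym2 V → FarP G → (G ≃g G) → Fin k → ℝ := fun e p γ i =>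
      intf ((M.tr γ).P p.1.1 p.1.2 i) e + endf ((M.tr γ).P p.1.1 p.1.2 i) e
    let D : Sym2 V → FarP G → (G ≃g G) → Fin k → ℝ := fun e p γ i =>
      endf ((M.tr γ).P p.1.1 p.1.2 i) e
    have hdev : ∑ p, (L t p (γ p) (j p) - (Fintype.card (G ≃g G) : ℝ)⁻¹ * ∑ γ',
        ((Fintype.card (Fin k) : ℝ)⁻¹ * ∑ c, L t p γ' c)) = dev γ j (L t) := rfl
    rw [hdev]
    have hLt : L t = ∑ e, ((a t e / 2) • U e + (b t e) • D e) := by
      funext p γ' i
      simp only [Finset.sum_apply, Pi.add_apply, Pi.smul_apply, smul_eq_mul, L, U, D]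
    rw [hLt, map_sum]
    refine Finset.sum_congr rfl fun e _ => ?_
    rw [map_add, map_smul, map_smul, smul_eq_mul, smul_eq_mul]
    have hU : dev γ j (U e) = 2 * kerr M P e := by
      change ∑ p, (U e p (γ p) (j p) - (Fintype.card (G ≃g G) : ℝ)⁻¹ * ∑ γ',
        ((Fintype.card (Fin k) : ℝ)⁻¹ * ∑ c, U e p γ' c)) = _
      unfold kerr
      rw [eload_split hB e]
      unfold mE etot
      rw [Finset.sum_sub_distrib]
      have h1 : ∑ p : FarP G, U e p (γ p) (j p) =
          ∑ x, ∑ y, (if Far G x y then (if e ∈ (P x y).edges then (1 : ℝ) else 0) else 0) := by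
        rw [← sum_farP (G := G) (fun x y => if Far G x y then
          (if e ∈ (P x y).edges then (1 : ℝ) else 0) else 0) (fun x y h => if_neg h)]
        refine Finset.sum_congr rfl fun p _ => ?_
        rw [if_pos p.2, hPf p.1.1 p.1.2 p.2]
        simp only [U]
        exact use_eq _ p.2 (MSys.two _ _ _ _ p.2) e
      have h2 : ∑ p : FarP G, (Fintype.card (G ≃g G) : ℝ)⁻¹ * ∑ γ',
          ((Fintype.card (Fin k) : ℝ)⁻¹ * ∑ c, U e p γ' c) =
          (Fintype.card (G ≃g G) : ℝ)⁻¹ * (k : ℝ)⁻¹ * ∑ x, ∑ v, ∑ γ', ecount (M.tr γ') x v e := by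
        rw [← sum_farP (G := G) (fun x v => ∑ γ', ecount (M.tr γ') x v e)
          (fun x v h => Finset.sum_eq_zero fun γ' _ => if_neg h), Finset.mul_sum]
        refine Finset.sum_congr rfl fun p _ => ?_
        rw [mul_assoc]
        congr 1
        rw [Finset.mul_sum]
        refine Finset.sum_congr rfl fun γ' _ => ?_
        rw [Fintype.card_fin]
        congr 1
        unfold ecount
        rw [if_pos p.2]
        refine Finset.sum_congr rfl fun i _ => ?_
        simp only [U]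
        exact use_eq _ p.2 (MSys.two _ _ _ _ p.2) e
      rw [h1, h2]
      ring
    have hD : dev γ j (D e) = kend M P e := by
      change ∑ p, (D e p (γ p) (j p) - (Fintype.card (G ≃g G) : ℝ)⁻¹ * ∑ γ',
        ((Fintype.card (Fin k) : ℝ)⁻¹ * ∑ c, D e p γ' c)) = _
      unfold kend mEnd endc
      rw [Finset.sum_sub_distrib]
      congr 1
      · rw [← sum_farP (G := G) (fun x y => if Far G x y then endf (P x y) e else 0)
          (fun x y h => if_neg h)]
        refine Finset.sum_congr rfl fun p _ => ?_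
        rw [if_pos p.2, hPf p.1.1 p.1.2 p.2]
      · rw [← sum_farP (G := G) (fun x v => ∑ γ' : G ≃g G, if Far G x v then
          dcnt (M.tr γ') x v e else 0)
          (fun x v h => Finset.sum_eq_zero fun γ' _ => if_neg h), Finset.mul_sum]
        refine Finset.sum_congr rfl fun p _ => ?_
        rw [mul_assoc]
        congr 1
        rw [Finset.mul_sum]
        refine Finset.sum_congr rfl fun γ' _ => ?_
        rw [Fintype.card_fin, if_pos p.2]
        rfl
    rw [hU, hD]
    ring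
  · refine Finset.sum_congr rfl fun t _ => ?_
    rw [norm_test, norm_test, Real.sq_sqrt hR1, Real.sq_sqrt hR2]

/-- **the invariant base, rounded by the two-level Gram-Schmidt walk** -/
theorem inv_gsw {d : ℕ} (hd : ∀ x, (G.neighborSet x).ncard = d) (hk : 0 < k)
    (hkd : k ≤ d) (hkn : k + 2 ≤ Fintype.card V) (M : MSys G k) {al τ₁ τ₂ : ℝ}
    (hτ₁ : τ₁ ≠ 0 ∨ k = d) (hτ₂ : τ₂ ≠ 0)
    {Θ : Type*} [Fintype Θ] (a b : Θ → Sym2 V → ℝ) (s : Θ → ℝ) :
    ∃ P : ∀ x y : V, G.Walk x y, Base k P ∧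
      ∑ t, exp (s t + ∑ e, (a t e * kerr M P e + b t e * kend M P e)) ≤
      ∑ t, exp (s t +
        (R1sq (Fintype.card V) k d al τ₁ * ∑ e, (a t e ^ 2 + τ₁ ^ 2 * (b t e + (1 - al) / 2 * a t e) ^ 2)
        + R2sq (Fintype.card V) k al τ₂ *
          ∑ e, (a t e ^ 2 + τ₂ ^ 2 * (b t e + (1 - al) / 2 * a t e) ^ 2)) / 2) := by
  have hk0 : (0 : ℝ) < k := by exact_mod_cast hk
  have hkn' : (k : ℝ) + 2 ≤ Fintype.card V := by exact_mod_cast hkn
  have hkd' : (k : ℝ) ≤ d := by exact_mod_cast hkd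
  have hR1 : 0 ≤ R1sq (Fintype.card V) k d al τ₁ := by
    unfold R1sq
    have h3 : 0 ≤ (d : ℝ) - k := by linarith
    have h4 : 0 ≤ (Fintype.card V : ℝ) - 2 - k := by linarith
    positivity
  have hR2 : 0 ≤ R2sq (Fintype.card V) k al τ₂ := by
    unfold R2sq
    have h4 : 0 ≤ (Fintype.card V : ℝ) - k - 2 := by linarith
    positivity
  exact inv_gsw_core hd hk M hτ₁ hτ₂ hR1 hR2
    (fun x v h γ γ' => level1 hk (M.tr γ) (M.tr γ') hd h hR1)
    (fun x v h γ i i' => level2 (M.tr γ) hR2 h i i') a b s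

/-- general form: `L` bounds the interiors of two paths of a system, `S` of all its paths -/
theorem inv_gsw_LS {d : ℕ} (hd : ∀ x, (G.neighborSet x).ncard = d) (hk : 0 < k) (hkd : k ≤ d)
    (M : MSys G k) {al τ₁ τ₂ L S : ℝ} (hL : PairLe M L) (hS : SumLe M S) (hL2 : 2 ≤ L)
    (hSk : k ≤ S) (hτ₁ : τ₁ ≠ 0 ∨ k = d) (hτ₂ : τ₂ ≠ 0)
    {Θ : Type*} [Fintype Θ] (a b : Θ → Sym2 V → ℝ) (s : Θ → ℝ) :
    ∃ P : ∀ x y : V, G.Walk x y, Base k P ∧
      ∑ t, exp (s t + ∑ e, (a t e * kerr M P e + b t e * kend M P e)) ≤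
      ∑ t, exp (s t +
        (R1g S k d al τ₁ * ∑ e, (a t e ^ 2 + τ₁ ^ 2 * (b t e + (1 - al) / 2 * a t e) ^ 2)
        + R2g L al τ₂ * ∑ e, (a t e ^ 2 + τ₂ ^ 2 * (b t e + (1 - al) / 2 * a t e) ^ 2)) / 2) := by
  have hk0 : (0 : ℝ) < k := by exact_mod_cast hk
  have hkd' : (k : ℝ) ≤ d := by exact_mod_cast hkd
  have hR1 : 0 ≤ R1g S k d al τ₁ := by
    unfold R1g
    have h3 : 0 ≤ min (k : ℝ) ((d : ℝ) - k) := le_min hk0.le (by linarith)
    have h4 : 0 ≤ S - k := by linarith
    positivity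
  have hR2 : 0 ≤ R2g L al τ₂ := by
    unfold R2g
    have h4 : 0 ≤ L - 2 := by linarith
    positivity
  exact inv_gsw_core hd hk M hτ₁ hτ₂ hR1 hR2
    (fun x v h γ γ' => level1g hk hd (hS.tr γ) (hS.tr γ') h hR1)
    (fun x v h γ i i' => level2g (hL.tr γ) hR2 h i i') a b s

end final

section use

variable {V : Type*} [Fintype V] {G : SimpleGraph V} {k : ℕ}

/-- union form: all the listed inequalities hold simultaneously -/
theorem inv_gsw_lt {d : ℕ} (hd : ∀ x, (G.neighborSet x).ncard = d) (hk : 0 < k)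
    (hkd : k ≤ d) (hkn : k + 2 ≤ Fintype.card V) (M : MSys G k) {al τ₁ τ₂ : ℝ}
    (hτ₁ : τ₁ ≠ 0 ∨ k = d) (hτ₂ : τ₂ ≠ 0)
    {Θ : Type*} [Fintype Θ] (a b : Θ → Sym2 V → ℝ) (s : Θ → ℝ)
    (hlt : ∑ t, exp ((R1sq (Fintype.card V) k d al τ₁ *
          ∑ e, (a t e ^ 2 + τ₁ ^ 2 * (b t e + (1 - al) / 2 * a t e) ^ 2)
        + R2sq (Fintype.card V) k al τ₂ *
          ∑ e, (a t e ^ 2 + τ₂ ^ 2 * (b t e + (1 - al) / 2 * a t e) ^ 2)) / 2 - s t) < 1) :
    ∃ P : ∀ x y : V, G.Walk x y, Base k P ∧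
      ∀ t, ∑ e, (a t e * kerr M P e + b t e * kend M P e) < s t := by
  obtain ⟨P, hB, h⟩ := inv_gsw hd hk hkd hkn M hτ₁ hτ₂ (al := al) a b (fun t => - s t)
  refine ⟨P, hB, fun t => ?_⟩
  have h1 : ∑ t, exp (- s t + ∑ e, (a t e * kerr M P e + b t e * kend M P e)) < 1 := by
    refine h.trans_lt (lt_of_eq_of_lt ?_ hlt)
    exact Finset.sum_congr rfl fun t _ => by congr 1; ring
  have h2 := (Finset.single_le_sum (f := fun t => exp (- s t +
        ∑ e, (a t e * kerr M P e + b t e * kend M P e)))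
      (fun _ _ => (exp_pos _).le) (Finset.mem_univ t)).trans_lt h1
  have h3 := Real.exp_lt_one_iff.1 h2
  linarith

/-- the optimal splitting parameter -/
lemma opt_tau {A m c : ℝ} (hA : 0 < A) (hm : 0 ≤ m) (hc : 0 < c) :
    ∃ τ : ℝ, (m ≠ 0 → τ ≠ 0) ∧ (A + m * τ⁻¹ ^ 2) * (1 + τ ^ 2 * c ^ 2) = (√A + √m * c) ^ 2 := by
  rcases hm.eq_or_lt with hm0 | hm0
  · refine ⟨0, fun h => absurd hm0.symm h, ?_⟩
    rw [← hm0]
    simp [Real.sq_sqrt hA.le]
  · have hA' := Real.sqrt_pos.2 hA
    have hm' := Real.sqrt_pos.2 hm0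
    have ht : 0 < √m / (c * √A) := by positivity
    refine ⟨√(√m / (c * √A)), fun _ => (Real.sqrt_pos.2 ht).ne', ?_⟩
    rw [inv_pow, Real.sq_sqrt ht.le]
    have e1 : A = √A ^ 2 := (Real.sq_sqrt hA.le).symm
    have e2 : m = √m ^ 2 := (Real.sq_sqrt hm0.le).symm
    set x := √A
    set y := √m
    rw [e1, e2]
    field_simp

/-- variance factor of level 1 -/
noncomputable def V1 (n k d : ℕ) : ℝ :=
  (√((2 * ((n : ℝ) - 2 - k) + 4 * ((d : ℝ) - k) * (((d : ℝ) - 2) / (d - 1)) ^ 2) / (16 * k ^ 2)) +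
    √(((d : ℝ) - k) / k ^ 2) * (1 / (2 * ((d : ℝ) - 1)))) ^ 2

/-- variance factor of level 2 -/
noncomputable def V2 (n k d : ℕ) : ℝ :=
  (√(((n : ℝ) - k - 2 + 4 * (((d : ℝ) - 2) / (d - 1)) ^ 2) / 16) + 1 / (2 * ((d : ℝ) - 1))) ^ 2

/-- **the cut tests** (helper76's route C, kill absorption): `z` in a finite family -/
theorem cut_tests {d : ℕ} (hd : ∀ x, (G.neighborSet x).ncard = d) (hd3 : 3 ≤ d) (hk : 0 < k)
    (hkd : k ≤ d) (hkn : k + 3 ≤ Fintype.card V) (M : MSys G k)
    {Θ : Type*} [Fintype Θ] (z : Θ → Sym2 V → ℝ) (s : Θ → ℝ)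
    (hlt : ∑ t, exp ((V1 (Fintype.card V) k d + V2 (Fintype.card V) k d) *
      (∑ e, z t e ^ 2) / 2 - s t) < 1) :
    ∃ P : ∀ x y : V, G.Walk x y, Base k P ∧
      ∀ t, ∑ e, (- z t e * kerr M P e + max (z t e) 0 / ((d : ℝ) - 1) * kend M P e) < s t := by
  have hd3' : (3 : ℝ) ≤ d := by exact_mod_cast hd3
  have hkd' : (k : ℝ) ≤ d := by exact_mod_cast hkd
  have hkn' : (k : ℝ) + 3 ≤ Fintype.card V := by exact_mod_cast hkn
  have hk0 : (0 : ℝ) < k := by exact_mod_cast hk
  set al : ℝ := ((d : ℝ) - 2) / (d - 1) with hal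
  have hal0 : 0 < al := div_pos (by linarith) (by linarith)
  set c : ℝ := 1 / (2 * ((d : ℝ) - 1)) with hc
  have hc0 : 0 < c := by
    rw [hc]
    apply div_pos one_pos
    linarith
  have hdk : 0 ≤ (d : ℝ) - k := by linarith
  have hnk : 0 < (Fintype.card V : ℝ) - 2 - k := by linarith
  have hA1 : 0 < (2 * ((Fintype.card V : ℝ) - 2 - k) + 4 * ((d : ℝ) - k) * al ^ 2) /
      (16 * k ^ 2) := by positivity
  have hA2 : 0 < ((Fintype.card V : ℝ) - k - 2 + 4 * al ^ 2) / 16 := by
    have : 0 < (Fintype.card V : ℝ) - k - 2 := by linarith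
    positivity
  obtain ⟨τ₁, hτ₁, h1⟩ := opt_tau hA1 (div_nonneg hdk (by positivity : (0 : ℝ) ≤ (k : ℝ) ^ 2)) hc0
  obtain ⟨τ₂, hτ₂, h2⟩ := opt_tau hA2 zero_le_one hc0
  have hτ₁' : τ₁ ≠ 0 ∨ k = d := by
    by_cases h : k = d
    · exact Or.inr h
    · left
      apply hτ₁
      have h3 : (k : ℝ) < d := lt_of_le_of_ne hkd' (fun h' => h (by exact_mod_cast h'))
      have h4 : 0 < (d : ℝ) - k := by linarith
      positivity
  obtain ⟨P, hB, hP⟩ := inv_gsw_lt hd hk hkd (by omega) M (al := al) hτ₁' (hτ₂ one_ne_zero)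
    (fun t e => - z t e) (fun t e => max (z t e) 0 / ((d : ℝ) - 1)) s (by
      refine lt_of_eq_of_lt (Finset.sum_congr rfl fun t _ => ?_) hlt
      congr 2
      have e1 : ∀ e, max (z t e) 0 / ((d : ℝ) - 1) + (1 - al) / 2 * (- z t e) = c * |z t e| := by
        intro e
        have h5 : (d : ℝ) - 1 ≠ 0 := by linarith
        have h6 : 1 - al = 1 / ((d : ℝ) - 1) := by
          rw [hal]; field_simp; ring
        rw [h6, hc]
        rcases le_total (z t e) 0 with h | h
        · rw [max_eq_right h, abs_of_nonpos h]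
          field_simp
          ring
        · rw [max_eq_left h, abs_of_nonneg h]
          field_simp
          ring
      have e2 : ∀ τ : ℝ, ∑ e, ((- z t e) ^ 2 + τ ^ 2 * (max (z t e) 0 / ((d : ℝ) - 1) +
          (1 - al) / 2 * (- z t e)) ^ 2) = (1 + τ ^ 2 * c ^ 2) * ∑ e, z t e ^ 2 := by
        intro τ
        rw [Finset.mul_sum]
        refine Finset.sum_congr rfl fun e _ => ?_
        rw [e1, mul_pow, sq_abs]
        ring
      simp only [e2]
      unfold R1sq R2sq V1 V2
      rw [← hal, ← hc, ← h1]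
      rw [one_mul, Real.sqrt_one, one_mul] at h2
      rw [← h2]
      ring)
  exact ⟨P, hB, hP⟩

/-- union form of `inv_gsw_LS` -/
theorem inv_gsw_LS_lt {d : ℕ} (hd : ∀ x, (G.neighborSet x).ncard = d) (hk : 0 < k) (hkd : k ≤ d)
    (M : MSys G k) {al τ₁ τ₂ L S : ℝ} (hL : PairLe M L) (hS : SumLe M S) (hL2 : 2 ≤ L)
    (hSk : k ≤ S) (hτ₁ : τ₁ ≠ 0 ∨ k = d) (hτ₂ : τ₂ ≠ 0)
    {Θ : Type*} [Fintype Θ] (a b : Θ → Sym2 V → ℝ) (s : Θ → ℝ)
    (hlt : ∑ t, exp ((R1g S k d al τ₁ *
          ∑ e, (a t e ^ 2 + τ₁ ^ 2 * (b t e + (1 - al) / 2 * a t e) ^ 2)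
        + R2g L al τ₂ *
          ∑ e, (a t e ^ 2 + τ₂ ^ 2 * (b t e + (1 - al) / 2 * a t e) ^ 2)) / 2 - s t) < 1) :
    ∃ P : ∀ x y : V, G.Walk x y, Base k P ∧
      ∀ t, ∑ e, (a t e * kerr M P e + b t e * kend M P e) < s t := by
  obtain ⟨P, hB, h⟩ := inv_gsw_LS hd hk hkd M hL hS hL2 hSk hτ₁ hτ₂ (al := al) a b (fun t => - s t)
  refine ⟨P, hB, fun t => ?_⟩
  have h1 : ∑ t, exp (- s t + ∑ e, (a t e * kerr M P e + b t e * kend M P e)) < 1 := by
    refine h.trans_lt (lt_of_eq_of_lt ?_ hlt)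
    exact Finset.sum_congr rfl fun t _ => by congr 1; ring
  have h2 := (Finset.single_le_sum (f := fun t => exp (- s t +
        ∑ e, (a t e * kerr M P e + b t e * kend M P e)))
      (fun _ _ => (exp_pos _).le) (Finset.mem_univ t)).trans_lt h1
  have h3 := Real.exp_lt_one_iff.1 h2
  linarith

/-- variance factor of level 1, general form -/
noncomputable def W1 (S : ℝ) (k d : ℕ) : ℝ :=
  (√((2 * (S - k) + 4 * min (k : ℝ) ((d : ℝ) - k) * (((d : ℝ) - 2) / (d - 1)) ^ 2) /
      (16 * k ^ 2)) + √(min (k : ℝ) ((d : ℝ) - k) / k ^ 2) * (1 / (2 * ((d : ℝ) - 1)))) ^ 2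

/-- variance factor of level 2, general form -/
noncomputable def W2 (L : ℝ) (d : ℕ) : ℝ :=
  (√((L - 2 + 4 * (((d : ℝ) - 2) / (d - 1)) ^ 2) / 16) + 1 / (2 * ((d : ℝ) - 1))) ^ 2

/-- **the cut tests, general form** -/
theorem cut_tests_LS {d : ℕ} (hd : ∀ x, (G.neighborSet x).ncard = d) (hd3 : 3 ≤ d) (hk : 0 < k)
    (hkd : k ≤ d) (M : MSys G k) {L S : ℝ} (hL : PairLe M L) (hS : SumLe M S)
    (hL2 : 2 ≤ L) (hSk : k < S)
    {Θ : Type*} [Fintype Θ] (z : Θ → Sym2 V → ℝ) (s : Θ → ℝ)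
    (hlt : ∑ t, exp ((W1 S k d + W2 L d) * (∑ e, z t e ^ 2) / 2 - s t) < 1) :
    ∃ P : ∀ x y : V, G.Walk x y, Base k P ∧
      ∀ t, ∑ e, (- z t e * kerr M P e + max (z t e) 0 / ((d : ℝ) - 1) * kend M P e) < s t := by
  have hd3' : (3 : ℝ) ≤ d := by exact_mod_cast hd3
  have hkd' : (k : ℝ) ≤ d := by exact_mod_cast hkd
  have hk0 : (0 : ℝ) < k := by exact_mod_cast hk
  set al : ℝ := ((d : ℝ) - 2) / (d - 1) with hal
  have hal0 : 0 < al := div_pos (by linarith) (by linarith)
  set c : ℝ := 1 / (2 * ((d : ℝ) - 1)) with hc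
  have hc0 : 0 < c := by
    rw [hc]
    apply div_pos one_pos
    linarith
  set m : ℝ := min (k : ℝ) ((d : ℝ) - k) with hm
  have hdk : 0 ≤ m := le_min hk0.le (by linarith)
  have hnk : 0 < S - k := by linarith
  have hA1 : 0 < (2 * (S - k) + 4 * m * al ^ 2) / (16 * k ^ 2) := by positivity
  have hA2 : 0 < (L - 2 + 4 * al ^ 2) / 16 := by
    have : 0 ≤ L - 2 := by linarith
    positivity
  obtain ⟨τ₁, hτ₁, h1⟩ := opt_tau hA1 (div_nonneg hdk (by positivity : (0 : ℝ) ≤ (k : ℝ) ^ 2)) hc0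
  obtain ⟨τ₂, hτ₂, h2⟩ := opt_tau hA2 zero_le_one hc0
  have hτ₁' : τ₁ ≠ 0 ∨ k = d := by
    by_cases h : k = d
    · exact Or.inr h
    · left
      apply hτ₁
      have h3 : (k : ℝ) < d := lt_of_le_of_ne hkd' (fun h' => h (by exact_mod_cast h'))
      have h4 : 0 < m := lt_min hk0 (by linarith)
      positivity
  obtain ⟨P, hB, hP⟩ := inv_gsw_LS_lt hd hk hkd M hL hS hL2 hSk.le (al := al) hτ₁' (hτ₂ one_ne_zero)
    (fun t e => - z t e) (fun t e => max (z t e) 0 / ((d : ℝ) - 1)) s (by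
      refine lt_of_eq_of_lt (Finset.sum_congr rfl fun t _ => ?_) hlt
      congr 2
      have e1 : ∀ e, max (z t e) 0 / ((d : ℝ) - 1) + (1 - al) / 2 * (- z t e) = c * |z t e| := by
        intro e
        have h5 : (d : ℝ) - 1 ≠ 0 := by linarith
        have h6 : 1 - al = 1 / ((d : ℝ) - 1) := by
          rw [hal]; field_simp; ring
        rw [h6, hc]
        rcases le_total (z t e) 0 with h | h
        · rw [max_eq_right h, abs_of_nonpos h]
          field_simp
          ring
        · rw [max_eq_left h, abs_of_nonneg h]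
          field_simp
          ring
      have e2 : ∀ τ : ℝ, ∑ e, ((- z t e) ^ 2 + τ ^ 2 * (max (z t e) 0 / ((d : ℝ) - 1) +
          (1 - al) / 2 * (- z t e)) ^ 2) = (1 + τ ^ 2 * c ^ 2) * ∑ e, z t e ^ 2 := by
        intro τ
        rw [Finset.mul_sum]
        refine Finset.sum_congr rfl fun e _ => ?_
        rw [e1, mul_pow, sq_abs]
        ring
      simp only [e2]
      unfold R1g R2g W1 W2
      rw [← hal, ← hc, ← hm, ← h1]
      rw [one_mul, Real.sqrt_one, one_mul] at h2
      rw [← h2]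
      ring)
  exact ⟨P, hB, hP⟩

/-- for adjacent `u`, `w` the in-kills are the uses of `uw` as a first arc -/
lemma inKill_eq [DecidableEq V] {P : ∀ x y : V, G.Walk x y} (hB : Base k P) {u w : V}
    (h : G.Adj u w) : TS.inKill P u w = fcnt P u w := by
  classical
  unfold TS.inKill fcnt
  congr 1
  ext y
  simp only [mem_filter, mem_univ, true_and]
  constructor
  · rintro ⟨h1, h2, h3⟩
    have hfar : Far G u y := by
      refine ⟨fun h => h1 h.symm, fun ha => ?_⟩
      rw [hB.adj u y ha] at h3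
      simp only [SimpleGraph.Adj.toWalk, SimpleGraph.Walk.support_cons,
        SimpleGraph.Walk.support_nil, List.mem_cons, List.not_mem_nil, or_false] at h3
      rcases h3 with h3 | h3
      · exact h.ne h3.symm
      · exact h2 h3.symm
    exact ⟨hfar, (hB.fst u y hfar w h3 h).symm⟩
  · rintro ⟨hfar, h1⟩
    refine ⟨fun h => hfar.1 h.symm, ?_, ?_⟩
    · rintro rfl
      exact hfar.2 h
    · rw [← h1]
      exact SimpleGraph.Walk.getVert_mem_support _ _

/-- for adjacent `u`, `w` the out-kills are the uses of `wu` as a last arc -/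
lemma outKill_eq [DecidableEq V] {P : ∀ x y : V, G.Walk x y} (hB : Base k P) {u w : V}
    (h : G.Adj u w) : TS.outKill P u w = lcnt P u w := by
  classical
  unfold TS.outKill lcnt
  congr 1
  ext x
  simp only [mem_filter, mem_univ, true_and]
  constructor
  · rintro ⟨h1, h2, h3⟩
    have hfar : Far G x u := by
      refine ⟨h1, fun ha => ?_⟩
      rw [hB.adj x u ha] at h3
      simp only [SimpleGraph.Adj.toWalk, SimpleGraph.Walk.support_cons,
        SimpleGraph.Walk.support_nil, List.mem_cons, List.not_mem_nil, or_false] at h3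
      rcases h3 with h3 | h3
      · exact h2 h3.symm
      · exact h.ne h3.symm
    exact ⟨hfar, (hB.lst x u hfar w h3 h.symm).symm⟩
  · rintro ⟨hfar, h1⟩
    refine ⟨hfar.1, ?_, ?_⟩
    · rintro rfl
      exact hfar.2 h.symm
    · rw [← h1]
      exact SimpleGraph.Walk.getVert_mem_support _ _

/-- all kills of an edge (both stages, both directions) are its ends -/
lemma kills_eq [DecidableEq V] {P : ∀ x y : V, G.Walk x y} (hB : Base k P) {u w : V}
    (h : G.Adj u w) : ((TS.outKill P u w + TS.outKill P w u + (TS.inKill P u w + TS.inKill P w u) :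
      ℕ) : ℝ) = endc P s(u, w) := by
  rw [outKill_eq hB h, outKill_eq hB h.symm, inKill_eq hB h, inKill_eq hB h.symm, endc_mk P h.ne]
  push_cast
  ring

open Classical in
/-- sum over the edges at a vertex -/
lemma sum_incident (f : Sym2 V → ℝ) (hf : ∀ e ∉ G.edgeSet, f e = 0) (v : V) :
    ∑ e ∈ univ.filter (fun e : Sym2 V => v ∈ e), f e =
      ∑ w, if G.Adj v w then f s(v, w) else 0 := by
  rw [← Finset.sum_filter]
  have h1 : ∑ w ∈ univ.filter (fun w => G.Adj v w), f s(v, w) =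
      ∑ e ∈ (univ.filter (fun w => G.Adj v w)).image (fun w => s(v, w)), f e := by
    rw [Finset.sum_image]
    intro a _ b _ hab
    exact (Sym2.congr_right).1 hab
  rw [h1]
  symm
  apply Finset.sum_subset
  · intro e he
    rw [Finset.mem_image] at he
    obtain ⟨w, _, rfl⟩ := he
    simp
  · intro e he hne
    apply hf
    intro hmem
    apply hne
    rw [mem_filter] at he
    obtain ⟨w, rfl⟩ := he.2
    rw [Finset.mem_image]
    exact ⟨w, by simpa using hmem, rfl⟩

open Classical in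
/-- sum over ordered adjacent pairs = twice the sum over edges -/
lemma sum_ordered (f : Sym2 V → ℝ) (hf : ∀ e ∉ G.edgeSet, f e = 0) :
    ∑ v, ∑ w, (if G.Adj v w then f s(v, w) else 0) = 2 * ∑ e, f e := by
  have h1 : ∀ v, ∑ w, (if G.Adj v w then f s(v, w) else 0) =
      ∑ e, if v ∈ e then f e else 0 := by
    intro v
    rw [← sum_incident f hf v, Finset.sum_filter]
  simp only [h1]
  rw [Finset.sum_comm, Finset.mul_sum]
  refine Finset.sum_congr rfl fun e _ => ?_
  by_cases he : e ∈ G.edgeSet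
  · induction e with
    | _ a b =>
      have hab : a ≠ b := (SimpleGraph.mem_edgeSet G).1 he |>.ne
      have h2 : ∀ v, (if v ∈ s(a, b) then f s(a, b) else 0) =
          (if v = a then f s(a, b) else 0) + (if v = b then f s(a, b) else 0) := by
        intro v
        by_cases h1 : v = a
        · subst h1; simp [hab]
        · by_cases h2 : v = b
          · subst h2; simp [h1]
          · simp [h1, h2]
      simp only [h2]
      rw [Finset.sum_add_distrib, Finset.sum_ite_eq', Finset.sum_ite_eq']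
      simp only [mem_univ, if_true]
      ring
  · rw [hf e he]
    simp

lemma kerr_of_not_mem (M : MSys G k) (P : ∀ x y : V, G.Walk x y) {e : Sym2 V}
    (he : e ∉ G.edgeSet) : kerr M P e = 0 := by
  have h4 : eload P e = 0 := by
    by_contra h
    exact he (Parity.mem_edgeSet_of_eload P h)
  unfold kerr
  rw [h4, mE_of_not_mem M he]
  norm_num

open Classical in
/-- **the loads**: a constant plus the usage errors of the edges at the vertex -/
theorem load_kerr (hT : VT G) (M : MSys G k) :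
    ∃ c₀ : ℝ, ∀ P : ∀ x y : V, G.Walk x y, Paths P →
      ∀ v, (load P v : ℝ) = c₀ + ∑ e ∈ univ.filter (fun e : Sym2 V => v ∈ e), kerr M P e := by
  by_cases hV : Nonempty V
  swap
  · exact ⟨0, fun P _ v => absurd ⟨v⟩ hV⟩
  obtain ⟨v₀⟩ := hV
  have hconst : ∀ v, ∑ e ∈ univ.filter (fun e : Sym2 V => v ∈ e), mE M e =
      ∑ e ∈ univ.filter (fun e : Sym2 V => v₀ ∈ e), mE M e := by
    intro v
    obtain ⟨δ, rfl⟩ := hT v₀ v
    rw [sum_incident _ (fun e he => mE_of_not_mem M he),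
      sum_incident _ (fun e he => mE_of_not_mem M he), ← Equiv.sum_comp δ.toEquiv]
    refine Finset.sum_congr rfl fun w _ => ?_
    have h1 : G.Adj (δ v₀) (δ.toEquiv w) ↔ G.Adj v₀ w := δ.map_adj_iff
    have h2 : mE M s(δ v₀, δ.toEquiv w) = mE M s(v₀, w) := by
      rw [← mE_inv M δ s(v₀, w)]
      rfl
    rw [h2]
    exact if_congr h1 rfl rfl
  refine ⟨((Fintype.card V - 1 : ℕ) : ℝ) +
    (∑ e ∈ univ.filter (fun e : Sym2 V => v₀ ∈ e), mE M e) / 2, fun P hP v => ?_⟩
  have h1 := load_identity P hP v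
  have h2 : (2 : ℝ) * load P v = ∑ e ∈ univ.filter (fun e : Sym2 V => v ∈ e), (eload P e : ℝ)
      + 2 * ((Fintype.card V - 1 : ℕ) : ℝ) := by exact_mod_cast h1
  unfold kerr
  rw [← hconst v, ← Finset.sum_div, Finset.sum_sub_distrib]
  linarith

end use

section selfbounds

variable {V : Type*} [Fintype V] {G : SimpleGraph V} {k : ℕ}

lemma pairLe_self (M : MSys G k) : PairLe M ((Fintype.card V : ℝ) - k) := by
  intro x v h i j hij
  have h1 := len_add_le M h hij
  have h2 := M.two x v i h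
  have h3 := M.two x v j h
  rw [Nat.cast_sub (by omega), Nat.cast_sub (by omega)]
  push_cast
  linarith

lemma sumLe_self (M : MSys G k) : SumLe M ((Fintype.card V : ℝ) - 2) := by
  intro x v h
  have h1 := M.len x v h
  have h2 : ∑ i, (((M.P x v i).length - 1 : ℕ) : ℝ) + 2 ≤ Fintype.card V := by exact_mod_cast h1
  linarith

end selfbounds

end Pool.Agent.UPS.IB
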