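import Pool.Agent.Lib.MP_876e19_co_ups.NumB2
import Pool.Agent.Lib.MP_876e19_co_ups.InvGsw

/-!
# The bipartite numerical inequality in terms of `W1`, `W2` (helper96)
-/

set_option autoImplicit false

namespace Pool.Agent.UPS.NumB

open Real Pool.Agent.UPS.IB

lemma W_eq_VV {d : ℕ} (S L : ℝ) :
    W1 S 4 d + W2 L d = VV d 4 L S (min 4 ((d:ℝ) - 4)) := by
  unfold W1 W2 VV
  have h4 : ((4:ℕ):ℝ) = 4 := by norm_num
  rw [h4]
  have e : sqrt (min 4 ((d:ℝ) - 4) / 4 ^ 2) * (1 / (2 * ((d:ℝ) - 1))) =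
      sqrt (min 4 ((d:ℝ) - 4)) / (2 * 4 * ((d:ℝ) - 1)) := by
    rw [sqrt_div' _ (by norm_num : (0:ℝ) ≤ 4 ^ 2), sqrt_sq (by norm_num), div_mul_div_comm,
      mul_one]
    congr 1
    ring
  rw [e]

/-- **The bipartite numerical inequality**, four paths per pair, in the form of `cut_tests_LS`
and `exists_short_sys`; `L`, `S` are the bounds for the four shortest of `κ` paths. -/
theorem num_bip_W {d κ n : ℕ} (hd : 4 ≤ d) (hκ : 2 * (d + 1) ≤ 3 * κ) (hκd : κ ≤ d)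
    (hκ5 : d = 5 → 5 ≤ κ) (hκ6 : d = 6 → 6 ≤ κ) (hn : 4 * d ≤ n) (hn4 : d = 4 → 18 ≤ n)
    {L S : ℝ} (hL : L = 2 * ((n:ℝ) - (4:ℕ)) / ((κ:ℝ) - (4:ℕ) + 2))
    (hS : S = (4:ℕ) * ((n:ℝ) - 2) / κ) :
    2 ≤ L ∧ ((4:ℕ):ℝ) < S ∧ 0 < W1 S 4 d + W2 L d ∧
      ∀ μ : ℝ, ((n:ℝ) - 1 - d) / (2 * ((d:ℝ) - 1)) - 1 / (2 * (d:ℝ)) ≤ μ →
        0 < μ ∧
        (1 + exp (-(μ ^ 2 * d / (4 * (W1 S 4 d + W2 L d))))) ^ n +
          (1 - exp (-(μ ^ 2 * d / (4 * (W1 S 4 d + W2 L d))))) ^ n - 2 < 1 := by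
  have h4 : ((4:ℕ):ℝ) = 4 := by norm_num
  rw [h4] at hL hS ⊢
  have hd' : (4:ℝ) ≤ d := by exact_mod_cast hd
  have hκ' : 2 * ((d:ℝ) + 1) ≤ 3 * κ := by exact_mod_cast hκ
  have hκd' : (κ:ℝ) ≤ d := by exact_mod_cast hκd
  have hn' : 4 * (d:ℝ) ≤ n := by exact_mod_cast hn
  have hκ3 : (3:ℝ) < κ := by linarith
  have hL1 : L = 2 * ((n:ℝ) - 4) / ((κ:ℝ) - 2) := by
    rw [hL]
    congr 1
    ring
  have hV0 : 0 < W1 S 4 d + W2 L d := by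
    have h1 : 0 ≤ W1 S 4 d := by unfold W1; positivity
    have h2 : 0 < W2 L d := by
      unfold W2
      have : 0 < 1 / (2 * ((d:ℝ) - 1)) := by
        apply div_pos one_pos; linarith
      positivity
    linarith
  refine ⟨?_, ?_, hV0, fun μ hμ => ?_⟩
  · rw [hL1, le_div_iff₀ (by linarith)]
    linarith
  · rw [hS, lt_div_iff₀ (by linarith)]
    linarith
  · obtain ⟨h1, -, h3⟩ := num_bip2 (κ := κ) (L := L) (S := S) (m := min 4 ((d:ℝ) - 4)) (μ := μ)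
      hd hκ hκ5 hκ6 hn hn4 hL1.le hS.le
      (le_min (by norm_num) (by linarith)) (min_le_left _ _) (min_le_right _ _) hV0
      (W_eq_VV S L).le hμ
    exact ⟨h1, h3⟩

end Pool.Agent.UPS.NumB
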