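import Mathlib
import Pool.Agent.Lib.MP_876e19_co.Defs
import Pool.Agent.Lib.MP_876e19_co_ups.Atoms

/-!
# Reductions: monotonicity, complete graphs, closed twins, sharply transitive sets
-/

set_option autoImplicit false
set_option linter.unusedSectionVars false

namespace Pool.Agent.UPS

open Finset

section mono

variable {V : Type*}

/-- a uniform path system of a spanning subgraph is one of the graph -/
theorem HasUPS.mono {G G' : SimpleGraph V} (h : G' ≤ G) (hU : HasUPS G') : HasUPS G := by
  obtain ⟨P, hP, c, hc⟩ := hU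
  refine ⟨fun x y => (P x y).mapLe h, fun x y hxy => ?_, c, fun v => ?_⟩
  · exact (SimpleGraph.Walk.isPath_mapLe h).2 (hP x y hxy)
  · rw [← hc v]
    unfold load
    congr 1
    ext p
    simp only [Set.mem_ofPred_eq, SimpleGraph.Walk.support_mapLe_eq_support]

/-- complete graphs -/
theorem hasUPS_complete [Fintype V] {G : SimpleGraph V} (h : ∀ u w, u ≠ w → G.Adj u w) :
    HasUPS G := by
  classical
  let P : ∀ x y : V, G.Walk x y := fun x y =>
    if hxy : x = y then SimpleGraph.Walk.nil.copy rfl hxy
    else SimpleGraph.Walk.cons (h x y hxy) SimpleGraph.Walk.nil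
  have hsup : ∀ x y v, x ≠ y → (v ∈ (P x y).support ↔ v = x ∨ v = y) := by
    intro x y v hxy
    simp only [P, dif_neg hxy, SimpleGraph.Walk.support_cons, SimpleGraph.Walk.support_nil,
      List.mem_cons, List.not_mem_nil, or_false]
  refine ⟨P, ?_, 2 * (Fintype.card V - 1), ?_⟩
  · intro x y hxy
    simp only [P, dif_neg hxy]
    rw [SimpleGraph.Walk.cons_isPath_iff]
    refine ⟨SimpleGraph.Walk.IsPath.nil, ?_⟩
    rw [SimpleGraph.Walk.support_nil, List.mem_singleton]
    exact hxy
  · intro v
    unfold load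
    have : {p : V × V | p.1 ≠ p.2 ∧ v ∈ (P p.1 p.2).support} =
        (((univ.erase v).image fun y => (v, y)) ∪ ((univ.erase v).image fun x => (x, v)) :
          Finset (V × V)) := by
      ext ⟨x, y⟩
      simp only [Set.mem_ofPred_eq, coe_union, coe_image, coe_erase, coe_univ, Set.mem_union,
        Set.mem_image, Set.mem_sdiff, Set.mem_univ, Set.mem_singleton_iff, true_and, Prod.mk.injEq]
      constructor
      · rintro ⟨hxy, hv⟩
        rw [hsup x y v hxy] at hv
        rcases hv with rfl | rfl
        · exact Or.inl ⟨y, fun h => hxy h.symm, rfl, rfl⟩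
        · exact Or.inr ⟨x, hxy, rfl, rfl⟩
      · rintro (⟨z, hz, rfl, rfl⟩ | ⟨z, hz, rfl, rfl⟩)
        · exact ⟨fun h => hz h.symm, (hsup _ _ _ fun h => hz h.symm).2 (Or.inl rfl)⟩
        · exact ⟨hz, (hsup _ _ _ hz).2 (Or.inr rfl)⟩
    rw [this, Set.ncard_coe_finset, card_union_of_disjoint, card_image_of_injective,
      card_image_of_injective, card_erase_of_mem (mem_univ _), card_univ]
    · omega
    · intro a b hab
      simpa using hab
    · intro a b hab
      simpa using hab
    · rw [Finset.disjoint_left]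
      intro p hp hp'
      rw [mem_image] at hp hp'
      obtain ⟨y, hy, rfl⟩ := hp
      obtain ⟨x, hx, hxe⟩ := hp'
      rw [mem_erase] at hy hx
      rw [Prod.mk.injEq] at hxe
      exact hx.1 hxe.1

/-- **Sharply transitive sets** (quasi-Cayley graphs): if some spanning connected subgraph has a
sharply transitive set of automorphisms, there is a uniform path system. -/
theorem hasUPS_of_sharp_family [Fintype V] {G G' : SimpleGraph V} (hle : G' ≤ G) (hc : G'.Connected)
    (o : V) (t : V → (G' ≃g G')) (h1 : ∀ x, t x o = x) (h2 : ∀ u v, ∃! x, t x u = v) :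
    HasUPS G := by
  classical
  apply HasUPS.mono hle
  -- a star
  have hF : ∀ y, ∃ p : G'.Walk o y, p.IsPath := by
    intro y
    obtain ⟨p⟩ := hc.preconnected o y
    exact ⟨p.bypass, p.bypass_isPath⟩
  choose F hF using hF
  let Q : ∀ x y : V, G'.Walk x y := fun x y =>
    ((F ((t x).symm y)).map (t x).toHom).copy (h1 x) (by simp)
  have hsup : ∀ x y v, v ∈ (Q x y).support ↔ (t x).symm v ∈ (F ((t x).symm y)).support := by
    intro x y v
    simp only [Q, SimpleGraph.Walk.support_copy, SimpleGraph.Walk.support_map, List.mem_map]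
    constructor
    · rintro ⟨w, hw, rfl⟩
      simpa using hw
    · intro h
      exact ⟨_, h, by simp⟩
  have hcst : ∀ v, load Q v = ∑ u : V, {z : V | o ≠ z ∧ u ∈ (F z).support}.ncard := by
    intro v
    unfold load
    have e1 : {p : V × V | p.1 ≠ p.2 ∧ v ∈ (Q p.1 p.2).support}.ncard
        = ∑ x : V, (univ.filter fun y : V => x ≠ y ∧ v ∈ (Q x y).support).card := by
      rw [← Finset.card_sigma]
      rw [← Set.ncard_coe_finset]
      apply Set.ncard_congr (fun p _ => ⟨p.1, p.2⟩)
      · rintro ⟨x, y⟩ h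
        simpa using h
      · rintro ⟨x, y⟩ ⟨x', y'⟩ _ _ h
        simpa using h
      · rintro ⟨x, y⟩ h
        exact ⟨(x, y), by simpa using h, rfl⟩
    rw [e1]
    have e2 : ∀ x : V, (univ.filter fun y : V => x ≠ y ∧ v ∈ (Q x y).support).card
        = {z : V | o ≠ z ∧ (t x).symm v ∈ (F z).support}.ncard := by
      intro x
      rw [← Set.ncard_coe_finset]
      apply Set.ncard_congr (fun y _ => (t x).symm y)
      · intro y hy
        simp only [coe_filter, mem_univ, true_and, Set.mem_ofPred_eq] at hy ⊢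
        refine ⟨?_, (hsup x y v).1 hy.2⟩
        intro h
        apply hy.1
        have := congrArg (t x) h
        rw [h1] at this
        simpa using this
      · intro y y' _ _ h
        simpa using h
      · intro z hz
        simp only [Set.mem_ofPred_eq] at hz
        refine ⟨t x z, ?_, by simp⟩
        simp only [coe_filter, mem_univ, true_and, Set.mem_ofPred_eq]
        refine ⟨?_, (hsup x _ v).2 (by rw [RelIso.symm_apply_apply]; exact hz.2)⟩
        intro h
        apply hz.1
        apply (t x).injective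
        rw [h1]; exact h
    rw [Finset.sum_congr rfl fun x _ => e2 x]
    have hbij : Function.Bijective fun x : V => (t x).symm v := by
      constructor
      · intro x x' h
        simp only at h
        obtain ⟨z, hz, huniq⟩ := h2 ((t x).symm v) v
        rw [huniq x (by simp), huniq x' (by rw [h]; simp)]
      · intro u
        obtain ⟨x, hx, _⟩ := h2 u v
        refine ⟨x, ?_⟩
        simp only
        rw [← hx]; simp
    exact Function.Bijective.sum_comp hbij
      (fun u => {z : V | o ≠ z ∧ u ∈ (F z).support}.ncard)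
  refine ⟨Q, ?_, _, hcst⟩
  intro x y _
  simp only [Q, SimpleGraph.Walk.isPath_copy]
  exact (hF _).map (t x).injective

end mono

section twins

variable {V : Type*}

/-- closed twins -/
def CT (G : SimpleGraph V) (u w : V) : Prop := ∀ z, (z = u ∨ G.Adj u z) ↔ (z = w ∨ G.Adj w z)

/-- no two different vertices are closed twins -/
def TwinFree (G : SimpleGraph V) : Prop := ∀ u w, CT G u w → u = w

lemma CT.refl (G : SimpleGraph V) (u : V) : CT G u u := fun _ => Iff.rfl

lemma CT.symm {G : SimpleGraph V} {u w : V} (h : CT G u w) : CT G w u := fun z => (h z).symm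

lemma CT.trans {G : SimpleGraph V} {u w x : V} (h : CT G u w) (h' : CT G w x) : CT G u x :=
  fun z => (h z).trans (h' z)

lemma CT.iso {G : SimpleGraph V} (φ : G ≃g G) {u w : V} : CT G (φ u) (φ w) ↔ CT G u w := by
  constructor
  · intro h z
    have := h (φ z)
    simpa only [EmbeddingLike.apply_eq_iff_eq, φ.map_adj_iff] using this
  · intro h z
    have := h (φ.symm z)
    have e : ∀ a, (φ.symm z = a ↔ z = φ a) := fun a =>
      ⟨fun h => by rw [← h]; simp, fun h => by rw [h]; simp⟩
    have e' : ∀ a, (G.Adj a (φ.symm z) ↔ G.Adj (φ a) z) := fun a => by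
      rw [← φ.map_adj_iff]; simp
    rw [e, e, e', e'] at this
    exact this

/-- the graph without the edges between closed twins -/
def untwin (G : SimpleGraph V) : SimpleGraph V where
  Adj u w := G.Adj u w ∧ ¬ CT G u w
  symm := ⟨fun _ _ h => ⟨h.1.symm, fun h' => h.2 h'.symm⟩⟩
  loopless := ⟨fun a h => G.loopless.irrefl a h.1⟩

lemma untwin_le (G : SimpleGraph V) : untwin G ≤ G := fun _ _ h => h.1

lemma untwin_VT {G : SimpleGraph V} (hT : VT G) : VT (untwin G) := by
  intro x y
  obtain ⟨φ, hφ⟩ := hT x y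
  refine ⟨⟨φ.toEquiv, ?_⟩, hφ⟩
  intro a b
  show (G.Adj (φ a) (φ b) ∧ ¬ CT G (φ a) (φ b)) ↔ (G.Adj a b ∧ ¬ CT G a b)
  rw [φ.map_adj_iff, CT.iso]

lemma untwin_connected {G : SimpleGraph V} (hG : G.Connected)
    (hnc : ∃ u w, u ≠ w ∧ ¬ G.Adj u w) : (untwin G).Connected := by
  have hne := hG.nonempty
  have key : ∀ u w, G.Adj u w → (untwin G).Reachable u w := by
    intro u w huw
    by_cases ht : CT G u w
    · -- a neighbour of u which is not a twin of u
      have hz : ∃ z, G.Adj u z ∧ ¬ CT G u z := by
        by_contra hcon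
        push Not at hcon
        -- then the closed neighbourhood of u is everything
        have hall : ∀ z, z = u ∨ G.Adj u z := by
          intro z
          obtain ⟨p⟩ := hG.preconnected u z
          have : ∀ a b, G.Walk a b → (a = u ∨ G.Adj u a) → (b = u ∨ G.Adj u b) := by
            intro a b q
            induction q with
            | nil => exact fun h => h
            | cons hadj _ ih =>
              intro ha
              apply ih
              rcases ha with rfl | ha
              · exact Or.inr hadj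
              · exact (hcon _ ha _).2 (Or.inr hadj)
          exact this u z p (Or.inl rfl)
        have hct : ∀ z, CT G u z := by
          intro z
          rcases hall z with rfl | h
          · exact CT.refl G z
          · exact hcon z h
        obtain ⟨a, b, hab, hnab⟩ := hnc
        rcases (hct a b).1 (hall b) with h | h
        · exact hab h.symm
        · exact hnab h
      obtain ⟨z, hz1, hz2⟩ := hz
      have hwz : G.Adj w z := by
        rcases (ht z).1 (Or.inr hz1) with h | h
        · exfalso; rw [h] at hz2; exact hz2 ht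
        · exact h
      have h1 : (untwin G).Adj u z := ⟨hz1, hz2⟩
      have h2 : (untwin G).Adj w z := ⟨hwz, fun h => hz2 (ht.trans h)⟩
      exact h1.reachable.trans h2.symm.reachable
    · exact SimpleGraph.Adj.reachable ⟨huw, ht⟩
  rw [SimpleGraph.connected_iff]
  refine ⟨fun u w => ?_, hne⟩
  obtain ⟨p⟩ := hG.preconnected u w
  induction p with
  | nil => exact SimpleGraph.Reachable.refl _
  | cons hadj _ ih => exact (key _ _ hadj).trans ih

lemma untwin_twinFree {G : SimpleGraph V} (hT : VT G) (h : ¬ TwinFree G) :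
    TwinFree (untwin G) := by
  unfold TwinFree at h
  push Not at h
  obtain ⟨a, b, hab, hne⟩ := h
  -- every vertex has another twin
  have htw : ∀ z, ∃ z', z' ≠ z ∧ CT G z z' := by
    intro z
    obtain ⟨φ, hφ⟩ := hT a z
    refine ⟨φ b, ?_, ?_⟩
    · rw [← hφ]; exact fun h => hne (φ.injective h).symm
    · rw [← hφ]; exact (CT.iso φ).2 hab
  intro u w huw
  by_contra hne'
  have hadj : (untwin G).Adj u w := by
    rcases (huw w).2 (Or.inl rfl) with h | h
    · exact absurd h.symm hne'
    · exact h
  obtain ⟨w', hw', hct⟩ := htw w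
  -- w' is adjacent to u in the reduced graph
  have h1 : (untwin G).Adj u w' := by
    refine ⟨?_, fun h => hadj.2 (h.trans hct.symm)⟩
    rcases (hct u).1 (Or.inr hadj.1.symm) with h | h
    · exfalso
      apply hadj.2
      rw [h]; exact hct.symm
    · exact h.symm
  rcases (huw w').1 (Or.inr h1) with h | h
  · exact hw' h
  · exact h.2 hct

/-- reduction to graphs without closed twins -/
theorem exists_twinFree {G : SimpleGraph V} (hG : G.Connected) (hT : VT G)
    (hnc : ∃ u w, u ≠ w ∧ ¬ G.Adj u w) :
    ∃ G' : SimpleGraph V, G' ≤ G ∧ G'.Connected ∧ VT G' ∧ TwinFree G' := by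
  by_cases h : TwinFree G
  · exact ⟨G, le_rfl, hG, hT, h⟩
  · exact ⟨untwin G, untwin_le G, untwin_connected hG hnc, untwin_VT hT, untwin_twinFree hT h⟩

end twins

namespace Atoms

variable {V : Type*} [Fintype V] [DecidableEq V] {G : SimpleGraph V} [DecidableRel G.Adj]

/-- atoms with at least two vertices in twin-free graphs -/
lemma twinFree_bound {k d : ℕ} (hreg : ∀ v, (univ.filter fun w => G.Adj v w).card = d)
    (hTF : TwinFree G) {A : Finset V} (hA : Atom G k A) (h2 : 2 ≤ A.card) :
    d + 2 ≤ k + A.card := by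
  have hsub : ∀ u ∈ A, (univ.filter fun w => G.Adj u w) ⊆ (A.erase u) ∪ bd G A := by
    intro u hu w hw
    rw [mem_filter] at hw
    rw [mem_union, mem_erase]
    by_cases hwA : w ∈ A
    · exact Or.inl ⟨fun h => G.loopless.irrefl u (h ▸ hw.2), hwA⟩
    · exact Or.inr (mem_bd.2 ⟨hwA, u, hu, hw.2⟩)
  have hcard : ∀ u ∈ A, ((A.erase u) ∪ bd G A).card ≤ A.card - 1 + k := by
    intro u hu
    refine (card_union_le _ _).trans ?_
    rw [card_erase_of_mem hu, hA.1.2.2]
  by_contra hlt
  push Not at hlt
  obtain ⟨a, ha, b, hb, hab⟩ : ∃ a ∈ A, ∃ b ∈ A, a ≠ b := Finset.one_lt_card.1 (by omega)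
  have hfull : ∀ u ∈ A, ∀ w, G.Adj u w ↔ (w ∈ A ∧ w ≠ u) ∨ w ∈ bd G A := by
    intro u hu w
    have h12 := Finset.eq_of_subset_of_card_le (hsub u hu)
      (by rw [hreg]; have := hcard u hu; omega)
    have h13 : w ∈ (univ.filter fun w => G.Adj u w) ↔ w ∈ (A.erase u) ∪ bd G A := by
      rw [h12]
    simp only [mem_filter, mem_univ, true_and, mem_union, mem_erase] at h13
    rw [h13]
    tauto
  apply hab
  apply hTF
  intro z
  rw [hfull a ha, hfull b hb]
  constructor
  · rintro (rfl | ⟨h, _⟩ | h)
    · exact Or.inr (Or.inl ⟨ha, hab⟩)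
    · by_cases hz : z = b
      · exact Or.inl hz
      · exact Or.inr (Or.inl ⟨h, hz⟩)
    · exact Or.inr (Or.inr h)
  · rintro (rfl | ⟨h, _⟩ | h)
    · exact Or.inr (Or.inl ⟨hb, hab.symm⟩)
    · by_cases hz : z = a
      · exact Or.inl hz
      · exact Or.inr (Or.inl ⟨h, hz⟩)
    · exact Or.inr (Or.inr h)

/-- twin-free graphs with connectivity below `k ≤ d` -/
theorem not_lower_twinFree {k d : ℕ} (hG : G.Connected) (hT : VT G)
    (hreg : ∀ v, (univ.filter fun w => G.Adj v w).card = d) (hTF : TwinFree G) (hkd : k ≤ d)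
    (h : ¬ Lower G k) :
    ∃ k' τ m : ℕ, k' < k ∧ Lower G k' ∧ k' = m * τ ∧ 2 ≤ m ∧ 2 ≤ τ ∧ d + 2 ≤ k' + τ := by
  obtain ⟨k', τ, m, h1, h2, h3, h4, h5, h6, A, h8, h9⟩ := not_lower hG hT hreg h
  have hτ : 2 ≤ τ := by omega
  refine ⟨k', τ, m, h1, h2, h3, h4, hτ, ?_⟩
  rw [← h9]
  exact twinFree_bound hreg hTF h8 (by omega)

theorem tf_two_thirds {k d : ℕ} (hG : G.Connected) (hT : VT G)
    (hreg : ∀ v, (univ.filter fun w => G.Adj v w).card = d) (hTF : TwinFree G) (hkd : k ≤ d)
    (hk : 3 * k < 2 * (d + 2) + 3) : Lower G k := by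
  by_contra h
  obtain ⟨k', τ, m, h1, _, h3, h4, h5, h6⟩ := not_lower_twinFree hG hT hreg hTF hkd h
  have : 2 * τ ≤ k' := by rw [h3]; exact Nat.mul_le_mul_right _ h4
  omega

lemma aux_tf {k' τ m d : ℕ} (h3 : k' = m * τ) (h4 : 2 ≤ m) :
    2 * τ ≤ k' ∧ (k' ≠ 2 * τ → 3 * τ ≤ k') := by
  have a : 2 * τ ≤ k' := by rw [h3]; exact Nat.mul_le_mul_right _ h4
  refine ⟨a, fun hne => ?_⟩
  rcases Nat.lt_or_ge m 3 with hm | hm
  · have : m = 2 := by omega
    subst this
    exact absurd h3 hne
  · rw [h3]; exact Nat.mul_le_mul_right _ hm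

/-- twin-free, degree 5: connectivity 5 -/
theorem tf_five (hG : G.Connected) (hT : VT G)
    (hreg : ∀ v, (univ.filter fun w => G.Adj v w).card = 5) (hTF : TwinFree G) : Lower G 5 := by
  by_contra h
  obtain ⟨k', τ, m, h1, _, h3, h4, h5, h6⟩ := not_lower_twinFree hG hT hreg hTF le_rfl h
  have := (aux_tf (d := 5) h3 h4).1
  omega

/-- twin-free, degree 7: connectivity at least 6 -/
theorem tf_seven (hG : G.Connected) (hT : VT G)
    (hreg : ∀ v, (univ.filter fun w => G.Adj v w).card = 7) (hTF : TwinFree G) : Lower G 6 :=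
  tf_two_thirds hG hT hreg hTF (by norm_num) (by norm_num)

/-- twin-free, degree 8: connectivity 8 -/
theorem tf_eight (hG : G.Connected) (hT : VT G)
    (hreg : ∀ v, (univ.filter fun w => G.Adj v w).card = 8) (hTF : TwinFree G) : Lower G 8 := by
  by_contra h
  obtain ⟨k', τ, m, h1, _, h3, h4, h5, h6⟩ := not_lower_twinFree hG hT hreg hTF le_rfl h
  have ⟨a, b⟩ := aux_tf (d := 8) h3 h4
  have h8 : k' = 7 := by omega
  subst h8
  have := b (by omega)
  omega

end Atoms

end Pool.Agent.UPS
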