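import Pool.Agent.Lib.MP_876e19_co_ups.BipMain
import Pool.Agent.Lib.MP_876e19_co_ups.NumBW
import Pool.Agent.Lib.MP_876e19_co_ups.Twins

/-!
# Bipartite vertex-transitive graphs of valency `d ≥ 4` (helper16, TT876)

`bip_final`: a connected bipartite vertex-transitive graph of valency `d ≥ 4` with at least `4 d`
vertices (at least 18 if `d = 4`) has a uniform path system.
-/

set_option autoImplicit false

open Finset Classical

namespace Pool.Agent.UPS3

open Pool.Agent.UPS Pool.Agent.UPS.IB

variable {V : Type*} [Fintype V] {G : SimpleGraph V}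

/-- large boundaries give the separation property of Menger's theorem -/
theorem sep_of_lower {k : ℕ} (h : Atoms.Lower G k) (x v : V) (_hf : Far G x v) (S : Finset V)
    (hx : x ∉ S) (hv : v ∉ S) (hS : S.card < k) : ∃ p : G.Walk x v, ∀ w ∈ p.support, w ∉ S := by
  by_contra hcon
  let X : Finset V := univ.filter fun u => ∃ p : G.Walk x u, ∀ w ∈ p.support, w ∉ S
  have hxX : x ∈ X := by
    simp only [X, mem_filter, mem_univ, true_and]
    exact ⟨SimpleGraph.Walk.nil, fun w hw => by
      rw [SimpleGraph.Walk.support_nil, List.mem_singleton] at hw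
      rw [hw]; exact hx⟩
  have hvX : v ∉ X := by
    simp only [X, mem_filter, mem_univ, true_and]
    exact hcon
  have hext : ∀ u ∈ X, ∀ w, G.Adj u w → w ∉ S → w ∈ X := by
    intro u hu w huw hw
    simp only [X, mem_filter, mem_univ, true_and] at hu ⊢
    obtain ⟨p, hp⟩ := hu
    refine ⟨p.concat huw, fun y hy => ?_⟩
    rw [SimpleGraph.Walk.support_concat, List.mem_append, List.mem_singleton] at hy
    rcases hy with hy | hy
    · exact hp y hy
    · rw [hy]; exact hw
  have h1 := h X ⟨x, hxX⟩ ⟨v, by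
    simp only [Atoms.far, mem_filter, mem_univ, true_and]
    exact ⟨hvX, fun u hu huv => hvX (hext u hu v huv hv)⟩⟩
  have h2 : Atoms.bd G X ⊆ S := by
    intro w hw
    simp only [Atoms.bd, mem_filter, mem_univ, true_and] at hw
    obtain ⟨hwX, u, hu, huw⟩ := hw
    by_contra hwS
    exact hwX (hext u hu w huw hwS)
  have h3 := card_le_card h2
  omega

/-- a Menger system from a lower bound for the boundaries -/
theorem msys_of_lower (hG : G.Connected) (hT : VT G) {d k : ℕ} (hd : ∀ v, UPS2.EC.dg G v = d)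
    (hkd : k ≤ d) (h : Atoms.Lower G k) : Nonempty (MSys G k) :=
  exists_msys hG hT k (fun x => by rw [← dg_eq_ncard, hd]; exact hkd)
    (fun x v hf S hx hv hS => sep_of_lower h x v hf S hx hv hS)

omit [Fintype V] in
/-- a 2-coloured graph in which every vertex has two neighbours has no closed twins -/
theorem twinFree_of_bip {side : V → Bool} (hside : ∀ u v, G.Adj u v → side u ≠ side v)
    (hnb : ∀ u, ∃ a b, a ≠ b ∧ G.Adj u a ∧ G.Adj u b) : TwinFree G := by
  intro u w h
  by_contra hne
  have huw : G.Adj w u := by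
    rcases (h u).1 (Or.inl rfl) with h1 | h1
    · exact absurd h1 hne
    · exact h1
  obtain ⟨a, b, hab, ha, hb⟩ := hnb u
  have key : ∀ z, G.Adj u z → z = w := by
    intro z hz
    rcases (h z).1 (Or.inr hz) with h1 | h1
    · exact h1
    · exfalso
      have s1 := hside w u huw
      have s2 := hside u z hz
      have s3 := hside w z h1
      cases e1 : side w <;> cases e2 : side u <;> cases e3 : side z <;> simp_all
  exact hab ((key a ha).trans (key b hb).symm)

/-- the connectivity used in the bipartite case -/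
theorem exists_kappa (hG : G.Connected) (hT : VT G) (side : V → Bool)
    (hside : ∀ u v, G.Adj u v → side u ≠ side v) {d : ℕ} (hd4 : 4 ≤ d)
    (hd : ∀ v, UPS2.EC.dg G v = d) :
    ∃ κ : ℕ, 4 ≤ κ ∧ κ ≤ d ∧ 2 * (d + 1) ≤ 3 * κ ∧ (d = 5 → 5 ≤ κ) ∧ (d = 6 → 6 ≤ κ) ∧
      Atoms.Lower G κ := by
  have hreg : ∀ v, (univ.filter fun w => G.Adj v w).card = d := by
    intro v
    rw [← hd v]
    unfold UPS2.EC.dg
    rw [sum_boole, Nat.cast_id]
  have hTF : TwinFree G := by
    refine twinFree_of_bip hside fun u => ?_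
    have h1 : 1 < (univ.filter fun w => G.Adj u w).card := by rw [hreg]; omega
    obtain ⟨a, ha, b, hb, hab⟩ := one_lt_card.1 h1
    simp only [mem_filter, mem_univ, true_and] at ha hb
    exact ⟨a, b, hab, ha, hb⟩
  by_cases h4 : d = 4
  · subst h4
    exact ⟨4, le_rfl, le_rfl, by norm_num, by norm_num, by norm_num, Atoms.lower_four hG hT hreg⟩
  by_cases h5 : d = 5
  · subst h5
    exact ⟨5, by norm_num, le_rfl, by norm_num, by norm_num, by norm_num,
      Atoms.tf_five hG hT hreg hTF⟩
  by_cases h6 : d = 6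
  · subst h6
    exact ⟨6, by norm_num, le_rfl, by norm_num, by norm_num, by norm_num,
      Atoms.lower_six hG hT hreg⟩
  refine ⟨(2 * (d + 1) + 2) / 3, by omega, by omega, by omega, by omega, by omega, ?_⟩
  exact Atoms.lower_two_thirds hG hT hreg (by omega)

/-- **Bipartite graphs of valency at least 4 with at least `4 d` vertices.** -/
theorem bip_final (hG : G.Connected) (hT : VT G) (side : V → Bool)
    (hside : ∀ u v, G.Adj u v → side u ≠ side v) {d : ℕ} (hd4 : 4 ≤ d)
    (hd : ∀ v, UPS2.EC.dg G v = d) (hn : 4 * d ≤ Fintype.card V)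
    (hn4 : d = 4 → 18 ≤ Fintype.card V) : HasUPS G := by
  obtain ⟨κ, hκ4, hκd, hκ, hκ5, hκ6, hlow⟩ := exists_kappa hG hT side hside hd4 hd
  obtain ⟨M⟩ := msys_of_lower hG hT hd hκd hlow
  obtain ⟨M', hL, hS⟩ := exists_short_sys M (j := 4) (by norm_num) hκ4
  obtain ⟨hL2, hSk, _, hmu⟩ := NumB.num_bip_W hd4 hκ hκd hκ5 hκ6 hn hn4
    (L := 2 * ((Fintype.card V : ℝ) - (4 : ℕ)) / ((κ : ℝ) - (4 : ℕ) + 2))
    (S := (4 : ℕ) * ((Fintype.card V : ℝ) - 2) / κ) rfl rfl
  obtain ⟨hmu0, hnum⟩ := hmu _ le_rfl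
  refine bip_main_LS hG hT side hside (by omega) hd (by norm_num) (by omega) M' hL hS hL2 hSk _
    hmu0 ?_ hnum
  have hdR : (4 : ℝ) ≤ d := by exact_mod_cast hd4
  have hd1 : (d : ℝ) - 1 ≠ 0 := by linarith
  have hd0 : (d : ℝ) ≠ 0 := by linarith
  refine le_of_eq ?_
  push_cast
  field_simp
  ring

end Pool.Agent.UPS3
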