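import Mathlib

/-!
# Edge connectivity of connected vertex-transitive graphs (MP_876e19_co)

`cut G S` is the number of edges leaving `S`.  In a connected vertex-transitive graph of
valency `d` every proper nonempty set has `d ≤ cut G S` (Mader).  If the graph has no triangle
and both `S` and its complement contain an edge, then `2 * d ≤ cut G S + 2`.
-/

set_option autoImplicit false

namespace Pool.Agent.UPS2

open Finset Classical

namespace EC

variable {V : Type*} [Fintype V]

/-- number of edges leaving `S`, as the number of ordered pairs `(a,b)`, `a ∈ S`, `b ∉ S`, `a ~ b` -/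
noncomputable def cut (G : SimpleGraph V) (S : Finset V) : ℕ :=
  ∑ p : V × V, if p.1 ∈ S ∧ p.2 ∉ S ∧ G.Adj p.1 p.2 then 1 else 0

/-- number of neighbours of `v` in `S` -/
noncomputable def dgI (G : SimpleGraph V) (S : Finset V) (v : V) : ℕ :=
  ∑ w : V, if w ∈ S ∧ G.Adj v w then 1 else 0

/-- valency of `v` -/
noncomputable def dg (G : SimpleGraph V) (v : V) : ℕ :=
  ∑ w : V, if G.Adj v w then 1 else 0

/-- vertex-transitive -/
def VT (G : SimpleGraph V) : Prop := ∀ x y : V, ∃ φ : G ≃g G, φ x = y

variable {G : SimpleGraph V}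

lemma cut_eq (S : Finset V) :
    cut G S = ∑ a ∈ S, ∑ b : V, if b ∉ S ∧ G.Adj a b then 1 else 0 := by
  unfold cut
  rw [Fintype.sum_prod_type]
  rw [← Finset.sum_subset (Finset.subset_univ S)]
  · refine Finset.sum_congr rfl fun a ha => Finset.sum_congr rfl fun b _ => ?_
    simp [ha]
  · intro a _ ha
    refine Finset.sum_eq_zero fun b _ => ?_
    simp [ha]

lemma dg_split (S : Finset V) (v : V) :
    dg G v = dgI G S v + ∑ b : V, if b ∉ S ∧ G.Adj v b then 1 else 0 := by
  unfold dg dgI
  rw [← Finset.sum_add_distrib]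
  refine Finset.sum_congr rfl fun b _ => ?_
  by_cases hb : b ∈ S <;> by_cases h : G.Adj v b <;> simp [hb, h]

lemma cut_compl (S : Finset V) : cut G Sᶜ = cut G S := by
  unfold cut
  rw [← Equiv.sum_comp (Equiv.prodComm V V)]
  refine Finset.sum_congr rfl fun p _ => ?_
  refine if_congr ?_ rfl rfl
  simp only [Equiv.prodComm_apply, Prod.fst_swap, Prod.snd_swap, mem_compl, not_not]
  constructor
  · rintro ⟨h1, h2, h3⟩; exact ⟨h2, h1, h3.symm⟩
  · rintro ⟨h1, h2, h3⟩; exact ⟨h2, h1, h3.symm⟩

lemma cut_submod (X Y : Finset V) : cut G (X ∩ Y) + cut G (X ∪ Y) ≤ cut G X + cut G Y := by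
  unfold cut
  rw [← Finset.sum_add_distrib, ← Finset.sum_add_distrib]
  refine Finset.sum_le_sum fun p _ => ?_
  by_cases h1 : p.1 ∈ X <;> by_cases h2 : p.1 ∈ Y <;> by_cases h3 : p.2 ∈ X <;>
    by_cases h4 : p.2 ∈ Y <;> by_cases h : G.Adj p.1 p.2 <;>
    simp [h1, h2, h3, h4, h]

/-- posimodularity -/
lemma cut_posi (X Y : Finset V) : cut G (X \ Y) + cut G (Y \ X) ≤ cut G X + cut G Y := by
  have h := cut_submod (G := G) X Yᶜ
  have e1 : X ∩ Yᶜ = X \ Y := by ext a; simp
  have e2 : X ∪ Yᶜ = (Y \ X)ᶜ := by ext a; simp; tauto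
  rw [e1, e2, cut_compl, cut_compl] at h
  exact h

lemma cut_map (φ : G ≃g G) (S : Finset V) : cut G (S.image φ) = cut G S := by
  unfold cut
  rw [← Equiv.sum_comp (φ.toEquiv.prodCongr φ.toEquiv)]
  refine Finset.sum_congr rfl fun p _ => ?_
  refine if_congr ?_ rfl rfl
  have hm : ∀ a : V, φ a ∈ S.image φ ↔ a ∈ S := fun a => by
    rw [Finset.mem_image]
    exact ⟨fun ⟨b, hb, h⟩ => φ.injective h ▸ hb, fun h => ⟨a, h, rfl⟩⟩
  have h1 : ((φ.toEquiv.prodCongr φ.toEquiv) p).1 = φ p.1 := rfl
  have h2 : ((φ.toEquiv.prodCongr φ.toEquiv) p).2 = φ p.2 := rfl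
  rw [h1, h2, hm, hm, φ.map_adj_iff]

lemma dgI_map (φ : G ≃g G) (S : Finset V) (v : V) : dgI G (S.image φ) (φ v) = dgI G S v := by
  unfold dgI
  rw [← Equiv.sum_comp φ.toEquiv]
  refine Finset.sum_congr rfl fun w _ => ?_
  refine if_congr ?_ rfl rfl
  have hm : ∀ a : V, φ a ∈ S.image φ ↔ a ∈ S := fun a => by
    rw [Finset.mem_image]
    exact ⟨fun ⟨b, hb, h⟩ => φ.injective h ▸ hb, fun h => ⟨a, h, rfl⟩⟩
  have h1 : φ.toEquiv w = φ w := rfl
  rw [h1, hm, φ.map_adj_iff]

lemma dg_map (φ : G ≃g G) (v : V) : dg G (φ v) = dg G v := by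
  unfold dg
  rw [← Equiv.sum_comp φ.toEquiv]
  refine Finset.sum_congr rfl fun w _ => ?_
  refine if_congr ?_ rfl rfl
  have h1 : φ.toEquiv w = φ w := rfl
  rw [h1, φ.map_adj_iff]

lemma dg_const (hvt : VT G) (u v : V) : dg G u = dg G v := by
  obtain ⟨φ, rfl⟩ := hvt v u
  exact dg_map φ v

lemma cut_pos (hc : G.Connected) {S : Finset V} (h0 : S.Nonempty) (h1 : S ≠ univ) :
    1 ≤ cut G S := by
  obtain ⟨a, ha⟩ := h0
  obtain ⟨b, hb⟩ : ∃ b, b ∉ S := by
    by_contra h
    push Not at h
    exact h1 (Finset.eq_univ_iff_forall.2 h)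
  obtain ⟨w⟩ := hc.preconnected a b
  obtain ⟨x, y, hxy, hx, hy⟩ : ∃ x y, G.Adj x y ∧ x ∈ S ∧ y ∉ S := by
    clear h1
    induction w with
    | nil => exact absurd ha hb
    | cons h p ih =>
      rename_i u v w
      by_cases hv : v ∈ S
      · exact ih hv hb
      · exact ⟨_, _, h, ha, hv⟩
  unfold cut
  have := Finset.single_le_sum (f := fun p : V × V =>
    if p.1 ∈ S ∧ p.2 ∉ S ∧ G.Adj p.1 p.2 then 1 else 0) (fun _ _ => Nat.zero_le _)
    (Finset.mem_univ (x, y))
  simpa [hx, hy, hxy] using this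

/-- if all vertices of `A` have the same number `r` of neighbours in `A` then
`cut A = |A| (d - r)` -/
lemma cut_of_const {A : Finset V} {d r : ℕ} (hd : ∀ v, dg G v = d)
    (hr : ∀ v ∈ A, dgI G A v = r) : cut G A + A.card * r = A.card * d := by
  rw [cut_eq]
  have : ∀ a ∈ A, (∑ b : V, if b ∉ A ∧ G.Adj a b then 1 else 0) + r = d := by
    intro a ha
    have := dg_split (G := G) A a
    rw [hd, hr a ha] at this
    omega
  rw [← Finset.sum_const_nat (s := A) (m := r) (f := fun _ => r) (fun _ _ => rfl),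
    ← Finset.sum_add_distrib]
  rw [Finset.sum_congr rfl this]
  simp

lemma dgI_lt_card {A : Finset V} {v : V} (hv : v ∈ A) : dgI G A v + 1 ≤ A.card := by
  unfold dgI
  rw [← Finset.sum_filter, Finset.sum_const, smul_eq_mul, mul_one]
  have : (univ.filter fun w => w ∈ A ∧ G.Adj v w) ⊆ A.erase v := by
    intro w hw
    simp only [mem_filter, mem_univ, true_and] at hw
    exact Finset.mem_erase.2 ⟨hw.2.ne', hw.1⟩
  have h2 := Finset.card_le_card this
  rw [Finset.card_erase_of_mem hv] at h2
  have h3 : 0 < A.card := Finset.card_pos.2 ⟨v, hv⟩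
  omega

/-- general block argument: a family `P` of sets invariant under automorphisms such that two
distinct members do not meet; then all vertices of a member have the same inner valency -/
lemma block_const (hvt : VT G) {A : Finset V}
    (hb : ∀ φ : G ≃g G, A.image φ = A ∨ Disjoint (A.image φ) A) {u v : V} (hu : u ∈ A)
    (hv : v ∈ A) : dgI G A u = dgI G A v := by
  obtain ⟨φ, hφ⟩ := hvt v u
  rcases hb φ with h | h
  · rw [← hφ]
    conv_lhs => rw [← h]
    exact dgI_map φ A v
  · exfalso
    exact Finset.disjoint_left.1 h (Finset.mem_image.2 ⟨v, hv, hφ⟩) hu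

/-- **Mader**: a connected vertex-transitive graph of valency `d` is `d`-edge-connected. -/
theorem edge_conn (hc : G.Connected) (hvt : VT G) {d : ℕ} (hd : ∀ v, dg G v = d)
    {S : Finset V} (h0 : S.Nonempty) (h1 : S ≠ univ) : d ≤ cut G S := by
  by_contra hlt
  push Not at hlt
  -- minimal cut value
  let P : ℕ → Prop := fun k => ∃ X : Finset V, X.Nonempty ∧ X ≠ univ ∧ cut G X = k
  have hP : ∃ k, P k := ⟨_, S, h0, h1, rfl⟩
  set lam := Nat.find hP with hlam
  have hmin : ∀ X : Finset V, X.Nonempty → X ≠ univ → lam ≤ cut G X := fun X hX hX' =>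
    Nat.find_min' hP ⟨X, hX, hX', rfl⟩
  have hlamd : lam < d := lt_of_le_of_lt (hmin S h0 h1) hlt
  obtain ⟨X0, hX0, hX0', hX0c⟩ := Nat.find_spec hP
  let Q : ℕ → Prop := fun k => ∃ X : Finset V, X.Nonempty ∧ X ≠ univ ∧ cut G X = lam ∧ X.card = k
  have hQ : ∃ k, Q k := ⟨_, X0, hX0, hX0', hX0c, rfl⟩
  obtain ⟨A, hA0, hA1, hAc, hAk⟩ := Nat.find_spec hQ
  set a := Nat.find hQ with ha
  have hamin : ∀ X : Finset V, X.Nonempty → X ≠ univ → cut G X = lam → a ≤ X.card :=
    fun X h h' h'' => Nat.find_min' hQ ⟨X, h, h', h'', rfl⟩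
  have hhalf : 2 * A.card ≤ Fintype.card V := by
    have hAc' : Aᶜ.Nonempty := by
      rw [Finset.nonempty_iff_ne_empty]
      intro h
      exact hA1 (Finset.compl_eq_empty_iff A |>.1 h)
    have hAc'' : Aᶜ ≠ univ := by
      intro h
      have := Finset.compl_eq_univ_iff A |>.1 h
      rw [this] at hA0
      exact Finset.not_nonempty_empty hA0
    have := hamin Aᶜ hAc' hAc'' (by rw [cut_compl]; exact hAc)
    rw [Finset.card_compl] at this
    have h3 : A.card ≤ Fintype.card V := Finset.card_le_univ A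
    omega
  have hblock : ∀ φ : G ≃g G, A.image φ = A ∨ Disjoint (A.image φ) A := by
    intro φ
    by_contra hne
    push Not at hne
    obtain ⟨hne, hnd⟩ := hne
    set B := A.image φ with hB
    have hBcard : B.card = A.card := Finset.card_image_of_injective A φ.injective
    have hBc : cut G B = lam := by rw [hB, cut_map, hAc]
    have hint : (B ∩ A).Nonempty := by
      rw [Finset.nonempty_iff_ne_empty]
      intro h
      exact hnd (Finset.disjoint_iff_inter_eq_empty.2 h)
    have hlt' : (B ∩ A).card < A.card := by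
      refine Finset.card_lt_card ⟨Finset.inter_subset_right, fun h => ?_⟩
      have : A ⊆ B := fun x hx => (Finset.mem_inter.1 (h hx)).1
      exact hne (Finset.eq_of_subset_of_card_le this (le_of_eq hBcard)).symm
    have hu : (B ∪ A).card + (B ∩ A).card = B.card + A.card := Finset.card_union_add_card_inter B A
    have hint1 : 0 < (B ∩ A).card := Finset.card_pos.2 hint
    have hun : B ∪ A ≠ univ := by
      intro h
      rw [h, Finset.card_univ] at hu
      omega
    have hun0 : (B ∪ A).Nonempty := hA0.mono Finset.subset_union_right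
    have hin1 : B ∩ A ≠ univ := by
      intro h
      rw [h, Finset.card_univ] at hlt'
      have := Finset.card_le_univ A
      omega
    have h2 := cut_submod (G := G) B A
    have h3 := hmin _ hun0 hun
    have h4 := hmin _ hint hin1
    have h5 : cut G (B ∩ A) = lam := by omega
    have := hamin _ hint hin1 h5
    omega
  obtain ⟨v, hv⟩ := hA0
  have hconst : ∀ u ∈ A, dgI G A u = dgI G A v := fun u hu => block_const hvt hblock hu hv
  have hcut := cut_of_const hd hconst
  have hpos := cut_pos hc ⟨v, hv⟩ hA1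
  have hr := dgI_lt_card (G := G) hv
  set r := dgI G A v
  rw [hAc] at hcut hpos
  have hrd : r < d := by
    by_contra h
    push Not at h
    have : A.card * d ≤ A.card * r := Nat.mul_le_mul_left _ h
    omega
  obtain ⟨t, rfl⟩ : ∃ t, d = r + 1 + t := ⟨d - r - 1, by omega⟩
  obtain ⟨s, hs⟩ : ∃ s, A.card = r + 1 + s := ⟨A.card - r - 1, by omega⟩
  rw [hs] at hcut
  nlinarith [Nat.zero_le (s * t), Nat.zero_le (r * t), Nat.zero_le (r * s), Nat.zero_le s]


/-- coarea form: `d * (f u - f w) ≤ ∑_{a ~ b} (f a - f b)^+` (ordered pairs), hence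
`d * |f u - f w| ≤ ∑_{edges} |f a - f b|` -/
theorem coarea (hc : G.Connected) (hvt : VT G) {d : ℕ} (hd : ∀ v, dg G v = d)
    (f : V → ℝ) (u w : V) :
    (d : ℝ) * (f u - f w) ≤ ∑ p : V × V, if G.Adj p.1 p.2 then max (f p.1 - f p.2) 0 else 0 := by
  -- induction on the number of values of `f`
  suffices H : ∀ (n : ℕ) (f : V → ℝ), (univ.image f).card ≤ n → ∀ u w : V,
      (d : ℝ) * (f u - f w) ≤ ∑ p : V × V, if G.Adj p.1 p.2 then max (f p.1 - f p.2) 0 else 0 from
    H _ f le_rfl u w
  clear u w f
  intro n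
  induction n with
  | zero =>
    intro f hf u w
    exfalso
    have : f u ∈ univ.image f := Finset.mem_image_of_mem f (mem_univ u)
    have := Finset.card_pos.2 ⟨_, this⟩
    omega
  | succ n ih =>
    intro f hf u w
    have hnn : 0 ≤ ∑ p : V × V, if G.Adj p.1 p.2 then max (f p.1 - f p.2) 0 else 0 :=
      Finset.sum_nonneg fun p _ => by split_ifs <;> simp
    obtain ⟨m, hm⟩ := Finset.exists_max_image univ f ⟨u, mem_univ u⟩
    have hmax : ∀ a, f a ≤ f m := fun a => hm.2 a (mem_univ a)
    -- the top level set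
    set S : Finset V := univ.filter fun a => f a = f m with hS
    by_cases hSu : S = univ
    · have h1 : ∀ a, f a = f m := fun a => by
        have : a ∈ S := hSu ▸ mem_univ a
        exact (Finset.mem_filter.1 this).2
      have : f u - f w = 0 := by rw [h1 u, h1 w]; ring
      rw [this, mul_zero]
      exact hnn
    have hS0 : S.Nonempty := ⟨m, by simp [hS]⟩
    have hScut := edge_conn hc hvt hd hS0 hSu
    -- the second value
    have hne : (univ.filter fun a => f a ≠ f m).Nonempty := by
      rw [Finset.nonempty_iff_ne_empty]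
      intro h
      apply hSu
      rw [hS]
      ext a
      simp only [mem_filter, mem_univ, true_and, iff_true]
      by_contra hh
      have : a ∈ univ.filter fun a => f a ≠ f m := by simp [hh]
      rw [h] at this
      simp at this
    obtain ⟨m', hm'⟩ := Finset.exists_max_image (univ.filter fun a => f a ≠ f m) f hne
    have hm'ne : f m' ≠ f m := (Finset.mem_filter.1 hm'.1).2
    have hm'lt : f m' < f m := lt_of_le_of_ne (hmax m') hm'ne
    have hsec : ∀ a, f a ≠ f m → f a ≤ f m' := fun a ha => hm'.2 a (by simp [ha])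
    let g : V → ℝ := fun a => min (f a) (f m')
    have hgS : ∀ a, a ∈ S → f a = f m ∧ g a = f m' := fun a ha => by
      have h1 : f a = f m := (Finset.mem_filter.1 ha).2
      exact ⟨h1, by simp only [g]; rw [h1]; exact min_eq_right hm'lt.le⟩
    have hgN : ∀ a, a ∉ S → g a = f a ∧ f a ≤ f m' := fun a ha => by
      have h1 : f a ≠ f m := fun h => ha (by simp [hS, h])
      exact ⟨by simp only [g]; exact min_eq_left (hsec a h1), hsec a h1⟩
    have himg : (univ.image g).card ≤ n := by
      have hsub : univ.image g ⊆ (univ.image f).erase (f m) := by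
        intro x hx
        obtain ⟨a, _, rfl⟩ := Finset.mem_image.1 hx
        refine Finset.mem_erase.2 ⟨?_, ?_⟩
        · have : g a ≤ f m' := min_le_right _ _
          exact ne_of_lt (lt_of_le_of_lt this hm'lt)
        · by_cases ha : a ∈ S
          · rw [(hgS a ha).2]; exact Finset.mem_image_of_mem f (mem_univ _)
          · rw [(hgN a ha).1]; exact Finset.mem_image_of_mem f (mem_univ _)
      have h2 := Finset.card_le_card hsub
      rw [Finset.card_erase_of_mem (Finset.mem_image_of_mem f (mem_univ m))] at h2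
      omega
    have hrec := ih g himg u w
    -- sum for f = sum for g + (f m - f m') * cut
    have hsum : (∑ p : V × V, if G.Adj p.1 p.2 then max (f p.1 - f p.2) 0 else 0) =
        (∑ p : V × V, if G.Adj p.1 p.2 then max (g p.1 - g p.2) 0 else 0) +
          (f m - f m') * (cut G S : ℝ) := by
      unfold cut
      push_cast
      rw [Finset.mul_sum, ← Finset.sum_add_distrib]
      refine Finset.sum_congr rfl fun p _ => ?_
      by_cases h : G.Adj p.1 p.2
      · by_cases h1 : p.1 ∈ S <;> by_cases h2 : p.2 ∈ S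
        · obtain ⟨a1, a2⟩ := hgS _ h1
          obtain ⟨b1, b2⟩ := hgS _ h2
          simp [h, h1, h2, a1, a2, b1, b2]
        · obtain ⟨a1, a2⟩ := hgS _ h1
          obtain ⟨b1, b2⟩ := hgN _ h2
          simp only [h, h1, h2, a1, a2, b1, if_true, not_false_eq_true, and_self, mul_one]
          rw [max_eq_left (by linarith), max_eq_left (by linarith)]
          ring
        · obtain ⟨a1, a2⟩ := hgN _ h1
          obtain ⟨b1, b2⟩ := hgS _ h2
          simp only [h, h1, h2, a1, b1, b2, if_true, not_true_eq_false, false_and, and_false,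
            if_false, mul_zero, add_zero]
          rw [max_eq_right (by linarith), max_eq_right (by linarith)]
        · obtain ⟨a1, a2⟩ := hgN _ h1
          obtain ⟨b1, b2⟩ := hgN _ h2
          simp [h, h1, h2, a1, b1]
      · simp [h]
    rw [hsum]
    have hd0 : (0 : ℝ) ≤ d := Nat.cast_nonneg d
    have hcut' : (d : ℝ) ≤ (cut G S : ℝ) := by exact_mod_cast hScut
    have hdiff : f u - f w ≤ (g u - g w) + (f m - f m') := by
      by_cases h1 : u ∈ S <;> by_cases h2 : w ∈ S
      · obtain ⟨a1, a2⟩ := hgS _ h1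
        obtain ⟨b1, b2⟩ := hgS _ h2
        rw [a1, a2, b1, b2]; linarith
      · obtain ⟨a1, a2⟩ := hgS _ h1
        obtain ⟨b1, b2⟩ := hgN _ h2
        rw [a1, a2, b1]; linarith
      · obtain ⟨a1, a2⟩ := hgN _ h1
        obtain ⟨b1, b2⟩ := hgS _ h2
        rw [a1, b1, b2]; linarith
      · obtain ⟨a1, a2⟩ := hgN _ h1
        obtain ⟨b1, b2⟩ := hgN _ h2
        rw [a1, b1]; linarith
    calc (d : ℝ) * (f u - f w) ≤ (d : ℝ) * ((g u - g w) + (f m - f m')) :=
          mul_le_mul_of_nonneg_left hdiff hd0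
      _ = (d : ℝ) * (g u - g w) + (f m - f m') * (d : ℝ) := by ring
      _ ≤ _ := add_le_add hrec (mul_le_mul_of_nonneg_left hcut' (by linarith))

/-- `S` contains an edge -/
def HasEdge (G : SimpleGraph V) (S : Finset V) : Prop := ∃ a ∈ S, ∃ b ∈ S, G.Adj a b

lemma HasEdge.mono {S T : Finset V} (h : HasEdge G S) (hST : S ⊆ T) : HasEdge G T := by
  obtain ⟨a, ha, b, hb, hab⟩ := h
  exact ⟨a, hST ha, b, hST hb, hab⟩

lemma HasEdge.two_le {S : Finset V} (h : HasEdge G S) : 2 ≤ S.card := by
  obtain ⟨a, ha, b, hb, hab⟩ := h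
  exact Finset.one_lt_card.2 ⟨a, ha, b, hb, hab.ne⟩

lemma cut_indep {d : ℕ} (hd : ∀ v, dg G v = d) {S : Finset V} (h : ¬ HasEdge G S) :
    cut G S = S.card * d := by
  have hr : ∀ v ∈ S, dgI G S v = 0 := by
    intro v hv
    unfold dgI
    refine Finset.sum_eq_zero fun w _ => ?_
    rw [if_neg]
    rintro ⟨hw, hvw⟩
    exact h ⟨v, hv, w, hw, hvw⟩
  have := cut_of_const hd hr
  simpa using this

lemma cut_edge {d : ℕ} (hd : ∀ v, dg G v = d) {S : Finset V} (h : HasEdge G S)
    (h2 : S.card = 2) : cut G S + 2 = 2 * d := by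
  obtain ⟨a, ha, b, hb, hab⟩ := h
  have hS : S = {a, b} := by
    symm
    apply Finset.eq_of_subset_of_card_le
    · intro x hx
      rcases Finset.mem_insert.1 hx with rfl | hx
      · exact ha
      · rw [Finset.mem_singleton] at hx; exact hx ▸ hb
    · rw [h2, Finset.card_pair hab.ne]
  have hr : ∀ v ∈ S, dgI G S v = 1 := by
    intro v hv
    unfold dgI
    rw [← Finset.sum_filter, Finset.sum_const, smul_eq_mul, mul_one, Finset.card_eq_one]
    rw [hS] at hv ⊢
    rcases Finset.mem_insert.1 hv with rfl | hv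
    · refine ⟨b, ?_⟩
      ext w
      simp only [mem_filter, mem_univ, true_and, mem_insert, mem_singleton]
      constructor
      · rintro ⟨rfl | rfl, h⟩
        · exact absurd h (G.loopless.irrefl _)
        · rfl
      · rintro rfl; exact ⟨Or.inr rfl, hab⟩
    · rw [Finset.mem_singleton] at hv
      subst hv
      refine ⟨a, ?_⟩
      ext w
      simp only [mem_filter, mem_univ, true_and, mem_insert, mem_singleton]
      constructor
      · rintro ⟨rfl | rfl, h⟩
        · rfl
        · exact absurd h (G.loopless.irrefl _)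
      · rintro rfl; exact ⟨Or.inl rfl, hab.symm⟩
  have := cut_of_const hd hr
  rw [h2] at this
  omega

/-- **restricted edge connectivity** (helper77): no triangle, `S` and its complement contain an
edge, then `2 d - 2 ≤ cut S` -/
theorem edge_conn' (hc : G.Connected) (hvt : VT G) {d : ℕ} (hd : ∀ v, dg G v = d)
    (htri : ∀ a b c, G.Adj a b → G.Adj b c → G.Adj a c → False)
    {S : Finset V} (h0 : HasEdge G S) (h1 : HasEdge G Sᶜ) : 2 * d ≤ cut G S + 2 := by
  by_contra hlt
  push Not at hlt
  let P : ℕ → Prop := fun k => ∃ X : Finset V, HasEdge G X ∧ HasEdge G Xᶜ ∧ cut G X = k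
  have hP : ∃ k, P k := ⟨_, S, h0, h1, rfl⟩
  set lam := Nat.find hP with hlam
  have hmin : ∀ X : Finset V, HasEdge G X → HasEdge G Xᶜ → lam ≤ cut G X := fun X hX hX' =>
    Nat.find_min' hP ⟨X, hX, hX', rfl⟩
  have hlamd : lam + 2 < 2 * d := by
    have := hmin S h0 h1
    omega
  obtain ⟨X0, hX0, hX0', hX0c⟩ := Nat.find_spec hP
  let Q : ℕ → Prop := fun k =>
    ∃ X : Finset V, HasEdge G X ∧ HasEdge G Xᶜ ∧ cut G X = lam ∧ X.card = k
  have hQ : ∃ k, Q k := ⟨_, X0, hX0, hX0', hX0c, rfl⟩
  obtain ⟨A, hA0, hA1, hAc, hAk⟩ := Nat.find_spec hQ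
  have hamin : ∀ X : Finset V, HasEdge G X → HasEdge G Xᶜ → cut G X = lam → A.card ≤ X.card := by
    intro X h h' h''
    rw [hAk]
    exact Nat.find_min' hQ ⟨X, h, h', h'', rfl⟩
  have hhalf : 2 * A.card ≤ Fintype.card V := by
    have := hamin Aᶜ hA1 (by rw [compl_compl]; exact hA0) (by rw [cut_compl]; exact hAc)
    rw [Finset.card_compl] at this
    have h3 : A.card ≤ Fintype.card V := Finset.card_le_univ A
    omega
  have hA2 := hA0.two_le
  -- smaller sets of size at least two with an edge of the complement have a larger cut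
  have hsmall : ∀ Z : Finset V, 2 ≤ Z.card → Z.card < A.card → HasEdge G Zᶜ → lam < cut G Z := by
    intro Z hZ2 hZ hZc
    by_cases hZe : HasEdge G Z
    · have h3 := hmin Z hZe hZc
      rcases lt_or_eq_of_le h3 with h | h
      · exact h
      · have := hamin Z hZe hZc h.symm
        omega
    · rw [cut_indep hd hZe]
      have : 2 * d ≤ Z.card * d := Nat.mul_le_mul_right d hZ2
      omega
  have hblock : ∀ φ : G ≃g G, A.image φ = A ∨ Disjoint (A.image φ) A := by
    intro φ
    by_contra hne
    push Not at hne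
    obtain ⟨hne, hnd⟩ := hne
    set B := A.image φ with hB
    have hBcard : B.card = A.card := Finset.card_image_of_injective A φ.injective
    have hBc : cut G B = lam := by rw [hB, cut_map, hAc]
    have hmem : ∀ x : V, φ x ∈ B ↔ x ∈ A := fun x => by
      rw [hB, Finset.mem_image]
      exact ⟨fun ⟨b, hb, h⟩ => φ.injective h ▸ hb, fun h => ⟨x, h, rfl⟩⟩
    have hBe' : HasEdge G Bᶜ := by
      obtain ⟨x, hx, y, hy, hxy⟩ := hA1
      rw [Finset.mem_compl] at hx hy
      exact ⟨φ x, by rw [Finset.mem_compl, hmem]; exact hx, φ y,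
        by rw [Finset.mem_compl, hmem]; exact hy, φ.map_adj_iff.2 hxy⟩
    have hint : (B ∩ A).Nonempty := by
      rw [Finset.nonempty_iff_ne_empty]
      intro h
      exact hnd (Finset.disjoint_iff_inter_eq_empty.2 h)
    have hlt' : (B ∩ A).card < A.card := by
      refine Finset.card_lt_card ⟨Finset.inter_subset_right, fun h => ?_⟩
      have : A ⊆ B := fun x hx => (Finset.mem_inter.1 (h hx)).1
      exact hne (Finset.eq_of_subset_of_card_le this (le_of_eq hBcard)).symm
    have hu : (B ∪ A).card + (B ∩ A).card = B.card + A.card := Finset.card_union_add_card_inter B A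
    have hint1 : 0 < (B ∩ A).card := Finset.card_pos.2 hint
    by_cases h2 : 2 ≤ (B ∩ A).card
    · have hi := hsmall _ h2 hlt' (hA1.mono (by
        intro x hx; rw [Finset.mem_compl] at hx ⊢; exact fun h => hx (Finset.mem_inter.1 h).2))
      have hun : lam ≤ cut G (B ∪ A) := by
        have hZc : (B ∪ A)ᶜ.card = Fintype.card V - (B ∪ A).card := Finset.card_compl _
        have hle : (B ∪ A).card ≤ Fintype.card V := Finset.card_le_univ _
        by_cases hZe : HasEdge G (B ∪ A)ᶜ
        · exact hmin _ (hA0.mono Finset.subset_union_right) hZe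
        · rw [← cut_compl, cut_indep hd hZe]
          have : 2 * d ≤ (B ∪ A)ᶜ.card * d := Nat.mul_le_mul_right d (by omega)
          omega
      have h3 := cut_submod (G := G) B A
      omega
    · have h11 : (B ∩ A).card = 1 := by omega
      have e1 : (B \ A).card + (B ∩ A).card = B.card := Finset.card_sdiff_add_card_inter B A
      have e2 : (A \ B).card + (A ∩ B).card = A.card := Finset.card_sdiff_add_card_inter A B
      rw [Finset.inter_comm A B] at e2
      by_cases hA2' : A.card = 2
      · have := cut_edge hd hA0 hA2'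
        omega
      · have i1 := hsmall (B \ A) (by omega) (by omega) (hBe'.mono (by
          intro x hx; rw [Finset.mem_compl] at hx ⊢; exact fun h => hx (Finset.mem_sdiff.1 h).1))
        have i2 := hsmall (A \ B) (by omega) (by omega) (hA1.mono (by
          intro x hx; rw [Finset.mem_compl] at hx ⊢; exact fun h => hx (Finset.mem_sdiff.1 h).1))
        have h3 := cut_posi (G := G) B A
        omega
  obtain ⟨v, hv, v', hv', hvv'⟩ := hA0
  have hAu : A ≠ univ := by
    intro h
    obtain ⟨x, hx, _⟩ := hA1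
    rw [h] at hx
    simp at hx
  have hconst : ∀ u ∈ A, dgI G A u = dgI G A v := fun u hu => block_const hvt hblock hu hv
  have hcut := cut_of_const hd hconst
  have hpos := cut_pos hc ⟨v, hv⟩ hAu
  have hr1 : 1 ≤ dgI G A v := by
    unfold dgI
    have := Finset.single_le_sum (f := fun w : V => if w ∈ A ∧ G.Adj v w then 1 else 0)
      (fun _ _ => Nat.zero_le _) (Finset.mem_univ v')
    simpa [hv', hvv'] using this
  have hr2 : 2 * dgI G A v ≤ A.card := by
    have e1 : dgI G A v = (univ.filter fun w => w ∈ A ∧ G.Adj v w).card := by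
      unfold dgI
      rw [← Finset.sum_filter, Finset.sum_const, smul_eq_mul, mul_one]
    have e2 : dgI G A v' = (univ.filter fun w => w ∈ A ∧ G.Adj v' w).card := by
      unfold dgI
      rw [← Finset.sum_filter, Finset.sum_const, smul_eq_mul, mul_one]
    have e3 := hconst v' hv'
    have hdisj : Disjoint (univ.filter fun w => w ∈ A ∧ G.Adj v w)
        (univ.filter fun w => w ∈ A ∧ G.Adj v' w) := by
      rw [Finset.disjoint_left]
      intro w hw hw'
      simp only [mem_filter, mem_univ, true_and] at hw hw'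
      exact htri v v' w hvv' hw'.2 hw.2
    have h4 : ((univ.filter fun w => w ∈ A ∧ G.Adj v w) ∪
        (univ.filter fun w => w ∈ A ∧ G.Adj v' w)).card ≤ A.card := by
      refine Finset.card_le_card ?_
      intro w hw
      rcases Finset.mem_union.1 hw with h | h
      · exact (Finset.mem_filter.1 h).2.1
      · exact (Finset.mem_filter.1 h).2.1
    rw [Finset.card_union_of_disjoint hdisj] at h4
    omega
  set r := dgI G A v
  rw [hAc] at hcut hpos
  have hrd : r < d := by
    by_contra h
    push Not at h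
    have : A.card * d ≤ A.card * r := Nat.mul_le_mul_left _ h
    omega
  obtain ⟨t, rfl⟩ : ∃ t, d = r + 1 + t := ⟨d - r - 1, by omega⟩
  obtain ⟨s, hs⟩ : ∃ s, A.card = 2 * r + s := ⟨A.card - 2 * r, by omega⟩
  obtain ⟨q, hq⟩ : ∃ q, r = 1 + q := ⟨r - 1, by omega⟩
  rw [hs] at hcut
  rw [hq] at hcut hlamd
  nlinarith [Nat.zero_le (s * t), Nat.zero_le (q * t), Nat.zero_le (q * s), Nat.zero_le s]

/-- the same with a membership hypothesis (no complement instance) -/
theorem edge_conn_out (hc : G.Connected) (hvt : VT G) {d : ℕ} (hd : ∀ v, dg G v = d)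
    (htri : ∀ a b c, G.Adj a b → G.Adj b c → G.Adj a c → False)
    {S : Finset V} (h0 : HasEdge G S) (h1 : ∃ a b, a ∉ S ∧ b ∉ S ∧ G.Adj a b) :
    2 * d ≤ cut G S + 2 := by
  obtain ⟨a, b, ha, hb, hab⟩ := h1
  exact edge_conn' hc hvt hd htri h0
    ⟨a, Finset.mem_compl.2 ha, b, Finset.mem_compl.2 hb, hab⟩

end EC

end Pool.Agent.UPS2
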