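import Pool.Agent.Lib.MP_876e19_co_ups.Bip
import Pool.Agent.Lib.MP_876e19_co_ups.EdgeConn

/-!
# Bipartite graphs: the Hall condition from the L2 norm of the error (helper16, TT876)

`G` is bipartite, connected, vertex-transitive of valency `d ≥ 2`. If the demand is
`D v = C - (boundary of k at v)` and `d² ‖k‖² ≤ 2 (d - 1) C²` (`‖k‖²` the sum over edges), then
there are multiplicities `t` of the edges with degrees exactly `D`.
-/

set_option autoImplicit false

open Finset Classical

namespace Pool.Agent.UPS3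

open Pool.Agent.UPS2.EC

variable {V : Type*} [Fintype V] {G : SimpleGraph V}

lemma bip_hall_aux (hc : G.Connected) (hvt : VT G) {d : ℕ} (hd2 : 2 ≤ d) (hd : ∀ v, dg G v = d)
    (side : V → Bool) (hside : ∀ u v, G.Adj u v → side u ≠ side v)
    (D : V → ℕ) (C : ℝ) (k : V → V → ℝ) (hk : ∀ u v, k u v = k v u)
    (hD : ∀ v, (D v : ℝ) = C - ∑ w, if G.Adj v w then k v w else 0)
    (hC : 0 ≤ C)
    (hkk : (d : ℝ) ^ 2 * (∑ p : V × V, if G.Adj p.1 p.2 then (k p.1 p.2) ^ 2 else 0) ≤
      4 * ((d : ℝ) - 1) * C ^ 2)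
    (S : Finset V) (hS : ∀ u ∈ S, side u = true) :
    ∑ u ∈ S, D u ≤ ∑ v ∈ univ.filter (fun v => ∃ u ∈ S, G.Adj u v), D v := by
  set N : Finset V := univ.filter (fun v => ∃ u ∈ S, G.Adj u v) with hN
  have hNside : ∀ v ∈ N, side v = false := by
    intro v hv
    obtain ⟨_, u, hu, huv⟩ := mem_filter.1 hv
    have h1 := hside u v huv
    rw [hS u hu] at h1
    simpa using h1.symm
  have hNmem : ∀ u ∈ S, ∀ v, G.Adj u v → v ∈ N := fun u hu v huv =>
    mem_filter.2 ⟨mem_univ _, u, hu, huv⟩
  set Q : Finset (V × V) := univ.filter fun p => p.1 ∈ N ∧ p.2 ∉ S ∧ G.Adj p.1 p.2 with hQ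
  have hdpos : (0 : ℝ) < d := by
    have : 0 < d := by omega
    exact_mod_cast this
  -- sums over `N` split
  have hsplit : ∀ f : V → V → ℝ, (∀ u v, f u v = f v u) →
      ∑ v ∈ N, ∑ w, (if G.Adj v w then f v w else 0) =
        ∑ u ∈ S, ∑ w, (if G.Adj u w then f u w else 0) + ∑ p ∈ Q, f p.1 p.2 := by
    intro f hf
    have h1 : ∑ v ∈ N, ∑ w, (if G.Adj v w then f v w else 0) =
        ∑ v ∈ N, ∑ w ∈ S, (if G.Adj v w then f v w else 0) +
          ∑ v ∈ N, ∑ w ∈ Sᶜ, (if G.Adj v w then f v w else 0) := by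
      rw [← sum_add_distrib]
      exact sum_congr rfl fun v _ => (sum_add_sum_compl S _).symm
    have h2 : ∑ v ∈ N, ∑ w ∈ S, (if G.Adj v w then f v w else 0) =
        ∑ u ∈ S, ∑ w, (if G.Adj u w then f u w else 0) := by
      rw [sum_comm]
      refine sum_congr rfl fun u hu => ?_
      rw [← sum_subset (subset_univ N)]
      · refine sum_congr rfl fun v _ => ?_
        rw [hf v u]
        simp only [G.adj_comm v u]
      · intro v _ hv
        rw [if_neg fun h => hv (hNmem u hu v h)]
    have h3 : ∑ v ∈ N, ∑ w ∈ Sᶜ, (if G.Adj v w then f v w else 0) = ∑ p ∈ Q, f p.1 p.2 := by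
      rw [← sum_product', ← sum_filter]
      refine sum_congr ?_ fun p _ => rfl
      ext p
      simp only [mem_filter, mem_product, mem_compl, hQ, mem_univ, true_and, and_assoc]
    rw [h1, h2, h3]
  -- cardinality
  have hdeg : ∀ v, (∑ w, if G.Adj v w then (1 : ℝ) else 0) = d := by
    intro v
    rw [← hd v]
    unfold dg
    push_cast
    rfl
  have hq : (d : ℝ) * N.card = d * S.card + Q.card := by
    have h1 := hsplit (fun _ _ => 1) (fun _ _ => rfl)
    simp only [hdeg, sum_const, nsmul_eq_mul, mul_one] at h1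
    linarith
  have hmain : ((∑ v ∈ N, D v : ℕ) : ℝ) - ((∑ u ∈ S, D u : ℕ) : ℝ) =
      C * ((Q.card : ℝ) / d) - ∑ p ∈ Q, k p.1 p.2 := by
    push_cast
    simp only [hD, sum_sub_distrib, sum_const, nsmul_eq_mul]
    have h1 := hsplit k hk
    have h2 : (N.card : ℝ) - S.card = Q.card / d := by
      rw [eq_div_iff hdpos.ne']
      linarith
    rw [h1, ← h2]
    ring
  suffices h : ∑ p ∈ Q, k p.1 p.2 ≤ C * ((Q.card : ℝ) / d) by
    have h1 : ((∑ u ∈ S, D u : ℕ) : ℝ) ≤ ((∑ v ∈ N, D v : ℕ) : ℝ) := by linarith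
    exact_mod_cast h1
  -- the cut
  set W : Finset V := S ∪ N with hW
  have hcut : cut G W = Q.card := by
    unfold cut
    rw [sum_boole, Nat.cast_id]
    congr 1
    ext p
    simp only [mem_filter, mem_univ, true_and, hW, mem_union, hQ, not_or]
    constructor
    · rintro ⟨h1 | h1, ⟨h2, h3⟩, h4⟩
      · exact absurd (hNmem _ h1 _ h4) h3
      · exact ⟨h1, h2, h4⟩
    · rintro ⟨h1, h2, h3⟩
      refine ⟨Or.inr h1, ⟨h2, fun h4 => ?_⟩, h3⟩
      exact hside _ _ h3 ((hNside _ h1).trans (hNside _ h4).symm)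
  by_cases hQ0 : Q = ∅
  · rw [hQ0]; simp
  have hQpos : 0 < Q.card := card_pos.2 (nonempty_iff_ne_empty.2 hQ0)
  have hSne : S.Nonempty := by
    obtain ⟨p, hp⟩ := nonempty_iff_ne_empty.2 hQ0
    obtain ⟨_, u, hu, _⟩ := mem_filter.1 (mem_filter.1 hp).2.1
    exact ⟨u, hu⟩
  have hWedge : HasEdge G W := by
    obtain ⟨u, hu⟩ := hSne
    have h1 : 0 < dg G u := by rw [hd u]; omega
    unfold dg at h1
    rw [sum_boole, Nat.cast_id] at h1
    obtain ⟨w, hw⟩ := card_pos.1 h1
    have hw' := (mem_filter.1 hw).2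
    exact ⟨u, mem_union_left _ hu, w, mem_union_right _ (hNmem u hu w hw'), hw'⟩
  have htri : ∀ a b c, G.Adj a b → G.Adj b c → G.Adj a c → False := by
    intro a b c h1 h2 h3
    have e1 := hside _ _ h1
    have e2 := hside _ _ h2
    have e3 := hside _ _ h3
    cases ha : side a <;> cases hb : side b <;> cases hc' : side c <;> simp_all
  -- the L2 argument for large cuts
  have hbig : 2 * d ≤ Q.card + 2 → ∑ p ∈ Q, k p.1 p.2 ≤ C * ((Q.card : ℝ) / d) := by
    intro hbig
    have hQk : 2 * ∑ p ∈ Q, (k p.1 p.2) ^ 2 ≤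
        ∑ p : V × V, if G.Adj p.1 p.2 then (k p.1 p.2) ^ 2 else 0 := by
      have h1 : ∑ p ∈ Q, (k p.1 p.2) ^ 2 = ∑ p ∈ Q.image Prod.swap, (k p.1 p.2) ^ 2 := by
        rw [sum_image fun a _ b _ h => Prod.swap_injective h]
        exact sum_congr rfl fun p _ => by rw [hk]; rfl
      have hdisj : Disjoint Q (Q.image Prod.swap) := by
        rw [disjoint_left]
        intro p hp hp'
        obtain ⟨p', hp'', rfl⟩ := mem_image.1 hp'
        have a1 := hNside _ (mem_filter.1 hp).2.1
        have a2 := hNside _ (mem_filter.1 hp'').2.1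
        have a3 := hside _ _ (mem_filter.1 hp'').2.2.2
        exact a3 (a2.trans a1.symm)
      calc 2 * ∑ p ∈ Q, (k p.1 p.2) ^ 2
          = ∑ p ∈ Q, (k p.1 p.2) ^ 2 + ∑ p ∈ Q.image Prod.swap, (k p.1 p.2) ^ 2 := by
            rw [← h1]; ring
        _ = ∑ p ∈ Q ∪ Q.image Prod.swap, (k p.1 p.2) ^ 2 := (sum_union hdisj).symm
        _ = ∑ p ∈ Q ∪ Q.image Prod.swap,
              (if G.Adj p.1 p.2 then (k p.1 p.2) ^ 2 else 0) := by
            refine sum_congr rfl fun p hp => ?_
            rcases mem_union.1 hp with h | h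
            · rw [if_pos (mem_filter.1 h).2.2.2]
            · obtain ⟨p', hp'', rfl⟩ := mem_image.1 h
              have h5 : G.Adj p'.swap.1 p'.swap.2 := (mem_filter.1 hp'').2.2.2.symm
              rw [if_pos h5]
        _ ≤ ∑ p : V × V, if G.Adj p.1 p.2 then (k p.1 p.2) ^ 2 else 0 := by
            refine sum_le_univ_sum_of_nonneg fun p => ?_
            split_ifs <;> positivity
    have hcs : (∑ p ∈ Q, k p.1 p.2) ^ 2 ≤ Q.card * ∑ p ∈ Q, (k p.1 p.2) ^ 2 :=
      sq_sum_le_card_mul_sum_sq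
    have hq' : 2 * ((d : ℝ) - 1) ≤ Q.card := by
      have : (2 : ℝ) * d ≤ Q.card + 2 := by exact_mod_cast hbig
      linarith
    have hqn : (0 : ℝ) ≤ Q.card := Nat.cast_nonneg _
    have h1 : (d * ∑ p ∈ Q, k p.1 p.2) ^ 2 ≤ (C * Q.card) ^ 2 := by
      have e1 : (d * ∑ p ∈ Q, k p.1 p.2) ^ 2 ≤ (d : ℝ) ^ 2 * (Q.card * ∑ p ∈ Q, (k p.1 p.2) ^ 2) := by
        rw [mul_pow]
        exact mul_le_mul_of_nonneg_left hcs (by positivity)
      have e2 : (d : ℝ) ^ 2 * (2 * ∑ p ∈ Q, (k p.1 p.2) ^ 2) ≤ 4 * ((d : ℝ) - 1) * C ^ 2 :=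
        le_trans (mul_le_mul_of_nonneg_left hQk (by positivity)) hkk
      have e3 : (d : ℝ) ^ 2 * (Q.card * ∑ p ∈ Q, (k p.1 p.2) ^ 2) ≤
          Q.card * (2 * ((d : ℝ) - 1) * C ^ 2) := by
        have := mul_le_mul_of_nonneg_left e2 hqn
        linarith
      have e4 : Q.card * (2 * ((d : ℝ) - 1) * C ^ 2) ≤ Q.card * (Q.card * C ^ 2) :=
        mul_le_mul_of_nonneg_left (mul_le_mul_of_nonneg_right hq' (sq_nonneg C)) hqn
      calc _ ≤ _ := e1
        _ ≤ _ := e3
        _ ≤ _ := e4
        _ = _ := by ring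
    have h2 : d * ∑ p ∈ Q, k p.1 p.2 ≤ C * Q.card :=
      le_of_abs_le (sq_le_sq₀ (abs_nonneg _) (mul_nonneg hC hqn) |>.1 (by rwa [sq_abs]))
    rw [← mul_div_assoc, le_div_iff₀ hdpos]
    linarith
  by_cases hcomp : HasEdge G Wᶜ
  · refine hbig ?_
    rw [← hcut]
    exact edge_conn' hc hvt hd htri hWedge hcomp
  · have hci := cut_indep hd hcomp
    rw [cut_compl, hcut] at hci
    by_cases hone : Wᶜ.card = 1
    · -- a single vertex outside
      obtain ⟨a, ha⟩ := card_eq_one.1 hone
      have haW : ∀ v, v ∉ W ↔ v = a := by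
        intro v
        rw [← mem_compl, ha, mem_singleton]
      have haS : a ∉ S := fun h => (haW a).2 rfl (mem_union_left _ h)
      have haN : a ∉ N := fun h => (haW a).2 rfl (mem_union_right _ h)
      have hQa : ∀ p, p ∈ Q ↔ (p.2 = a ∧ G.Adj p.1 a) := by
        intro p
        constructor
        · intro hp
          obtain ⟨_, h1, h2, h3⟩ := mem_filter.1 hp
          have h4 : p.2 ∉ N := fun h => hside _ _ h3 ((hNside _ h1).trans (hNside _ h).symm)
          have h5 : p.2 = a := (haW p.2).1 (by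
            rw [hW, mem_union]; exact fun h => h.elim h2 h4)
          exact ⟨h5, h5 ▸ h3⟩
        · rintro ⟨h1, h2⟩
          rw [hQ, mem_filter]
          refine ⟨mem_univ _, ?_, h1 ▸ haS, h1 ▸ h2⟩
          -- `p.1` is in `W` and not in `S`
          have h3 : p.1 ∈ W := by
            by_contra h
            have := (haW p.1).1 h
            rw [this] at h2
            exact G.loopless.irrefl _ h2
          rcases mem_union.1 h3 with h4 | h4
          · exact absurd (hNmem _ h4 _ h2) haN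
          · exact h4
      have hsum : ∑ p ∈ Q, k p.1 p.2 = ∑ w, if G.Adj a w then k a w else 0 := by
        have hQim : Q = (univ.filter fun w => G.Adj a w).image fun w => (w, a) := by
          ext p
          rw [hQa, mem_image]
          constructor
          · rintro ⟨h1, h2⟩
            exact ⟨p.1, mem_filter.2 ⟨mem_univ _, h2.symm⟩, by rw [← h1]⟩
          · rintro ⟨w, hw, rfl⟩
            exact ⟨rfl, (mem_filter.1 hw).2.symm⟩
        rw [hQim, sum_image fun x _ y _ h => (Prod.mk.inj h).1, sum_filter]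
        exact sum_congr rfl fun w _ => by simp only [hk w a]
      have hDa := hD a
      have hnn : (0 : ℝ) ≤ (D a : ℝ) := Nat.cast_nonneg _
      rw [hsum, hci, hone]
      push_cast
      rw [one_mul, div_self hdpos.ne', mul_one]
      linarith
    · refine hbig ?_
      have h2 : 2 ≤ Wᶜ.card := by
        have h3 : Wᶜ.card ≠ 0 := by
          intro h0
          rw [h0, zero_mul] at hci
          omega
        omega
      rw [hci]
      nlinarith

/-- **Bipartite multiplicities from the L2 norm of the error.** -/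
theorem bip_hall (hc : G.Connected) (hvt : VT G) {d : ℕ} (hd2 : 2 ≤ d) (hd : ∀ v, dg G v = d)
    (side : V → Bool) (hside : ∀ u v, G.Adj u v → side u ≠ side v)
    (D : V → ℕ) (C : ℝ) (k : V → V → ℝ) (hk : ∀ u v, k u v = k v u)
    (hD : ∀ v, (D v : ℝ) = C - ∑ w, if G.Adj v w then k v w else 0)
    (hC : 0 ≤ C)
    (hkk : (d : ℝ) ^ 2 * (∑ p : V × V, if G.Adj p.1 p.2 then (k p.1 p.2) ^ 2 else 0) ≤
      4 * ((d : ℝ) - 1) * C ^ 2) :
    ∃ t : Sym2 V → ℕ, (∀ e, t e ≠ 0 → e ∈ G.edgeSet) ∧ ∀ v, mdeg t v = D v := by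
  refine exists_mult G side hside D
    (fun S hS => bip_hall_aux hc hvt hd2 hd side hside D C k hk hD hC hkk S hS) ?_
  -- equal totals: both Hall inequalities for a whole class
  have hdpos : (0 : ℝ) < d := by
    have : 0 < d := by omega
    exact_mod_cast this
  have key : ∀ f : V → V → ℝ, (∀ u v, f u v = f v u) →
      ∑ u with side u = true, ∑ w, (if G.Adj u w then f u w else 0) =
        ∑ v with side v = false, ∑ w, (if G.Adj v w then f v w else 0) := by
    intro f hf
    have h1 : ∑ u with side u = true, ∑ w, (if G.Adj u w then f u w else 0) =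
        ∑ u with side u = true, ∑ w with side w = false, (if G.Adj u w then f u w else 0) := by
      refine sum_congr rfl fun u hu => ?_
      rw [sum_filter]
      refine sum_congr rfl fun w _ => ?_
      by_cases hw : side w = false
      · rw [if_pos hw]
      · rw [if_neg hw, if_neg]
        intro h
        have h2 := hside _ _ h
        rw [(mem_filter.1 hu).2] at h2
        exact hw (by simpa using h2.symm)
    have h2 : ∑ v with side v = false, ∑ w, (if G.Adj v w then f v w else 0) =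
        ∑ v with side v = false, ∑ w with side w = true, (if G.Adj v w then f v w else 0) := by
      refine sum_congr rfl fun v hv => ?_
      rw [sum_filter (fun w => side w = true)]
      refine sum_congr rfl fun w _ => ?_
      by_cases hw : side w = true
      · rw [if_pos hw]
      · rw [if_neg hw, if_neg]
        intro h
        have h2 := hside _ _ h
        rw [(mem_filter.1 hv).2] at h2
        exact hw (by simpa using h2.symm)
    rw [h1, h2, sum_comm]
    refine sum_congr rfl fun v _ => sum_congr rfl fun u _ => ?_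
    rw [hf u v]
    simp only [G.adj_comm u v]
  have hdeg : ∀ v, (∑ w, if G.Adj v w then (1 : ℝ) else 0) = d := by
    intro v
    rw [← hd v]
    unfold dg
    push_cast
    rfl
  have h1 := key (fun _ _ => 1) (fun _ _ => rfl)
  simp only [hdeg, sum_const, nsmul_eq_mul] at h1
  have h2 := key k hk
  have h3 : ((∑ u with side u = true, D u : ℕ) : ℝ) = ((∑ v with side v = false, D v : ℕ) : ℝ) := by
    push_cast
    simp only [hD, sum_sub_distrib, sum_const, nsmul_eq_mul]
    rw [h2, mul_right_cancel₀ hdpos.ne' h1]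
  exact_mod_cast h3

end Pool.Agent.UPS3
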