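import Pool.Agent.Lib.MP_876e19_co_ups.EdgeConn

/-!
# The bipartite double cover and the non-bipartite cut inequality (MP_876e19_co)
-/

set_option autoImplicit false

namespace Pool.Agent.UPS2

open Finset Classical

namespace EC

variable {V : Type*}

/-- bipartite double cover -/
def DC (G : SimpleGraph V) : SimpleGraph (V × Bool) where
  Adj p q := G.Adj p.1 q.1 ∧ p.2 ≠ q.2
  symm := ⟨fun _ _ h => ⟨h.1.symm, h.2.symm⟩⟩
  loopless := ⟨fun _ h => h.2 rfl⟩

variable {G : SimpleGraph V}

@[simp] lemma DC_adj (p q : V × Bool) : (DC G).Adj p q ↔ G.Adj p.1 q.1 ∧ p.2 ≠ q.2 := Iff.rfl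

/-- `G` has an odd closed walk -/
def OddW (G : SimpleGraph V) : Prop := ∃ v : V, ∃ p : G.Walk v v, Odd p.length

/-- a connected graph without odd closed walk is 2-colourable -/
lemma bip_of_not_oddW (hc : G.Connected) (h : ¬ OddW G) :
    ∃ c : V → Bool, ∀ a b, G.Adj a b → c a ≠ c b := by
  obtain ⟨v⟩ := hc.nonempty
  have hw : ∀ u : V, ∃ p : G.Walk v u, True := fun u => by
    obtain ⟨p⟩ := hc.preconnected v u; exact ⟨p, trivial⟩
  choose W hW using hw
  refine ⟨fun u => decide (Even (W u).length), fun a b hab hcab => ?_⟩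
  apply h
  refine ⟨v, ((W a).concat hab).append (W b).reverse, ?_⟩
  have hev : (Even (W a).length) ↔ Even (W b).length := decide_eq_decide.1 hcab
  rw [SimpleGraph.Walk.length_append, SimpleGraph.Walk.length_concat,
    SimpleGraph.Walk.length_reverse]
  rcases Nat.even_or_odd (W a).length with h1 | h1
  · exact (h1.add_one).add_even (hev.1 h1)
  · have h2 : Odd (W b).length := by
      rcases Nat.even_or_odd (W b).length with h2 | h2
      · exact absurd (hev.2 h2) (Nat.not_even_iff_odd.2 h1)
      · exact h2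
    exact (h1.add_one).add_odd h2

/-- in a connected graph with an odd closed walk there are walks of both parities -/
lemma walk_parity (hc : G.Connected) (h : OddW G) (u w : V) (b : Bool) :
    ∃ p : G.Walk u w, decide (Odd p.length) = b := by
  obtain ⟨p⟩ := hc.preconnected u w
  obtain ⟨v, c, hcodd⟩ := h
  obtain ⟨q⟩ := hc.preconnected u v
  by_cases hb : decide (Odd p.length) = b
  · exact ⟨p, hb⟩
  · refine ⟨((q.append c).append q.reverse).append p, ?_⟩
    have hlen : (((q.append c).append q.reverse).append p).length =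
        2 * q.length + c.length + p.length := by
      simp only [SimpleGraph.Walk.length_append, SimpleGraph.Walk.length_reverse]; ring
    rw [hlen]
    have h2 : Odd (2 * q.length + c.length + p.length) ↔ ¬ Odd p.length := by
      have e : Even (2 * q.length) := even_two_mul _
      constructor
      · intro h3 h4
        have : Even (2 * q.length + c.length + p.length) := (e.add_odd hcodd).add_odd h4
        exact (Nat.not_odd_iff_even.2 this) h3
      · intro h3
        exact (e.add_odd hcodd).add_even (Nat.not_odd_iff_even.1 h3)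
    by_cases h4 : Odd p.length
    · have h5 : ¬ Odd (2 * q.length + c.length + p.length) := fun h => (h2.1 h) h4
      simp only [h4, decide_true] at hb
      simp only [h5, decide_false]
      cases b <;> simp_all
    · have h5 : Odd (2 * q.length + c.length + p.length) := h2.2 h4
      simp only [h4, decide_false] at hb
      simp only [h5, decide_true]
      cases b <;> simp_all

lemma DC_reach {u w : V} (p : G.Walk u w) (s : Bool) :
    (DC G).Reachable (u, s) (w, xor s (decide (Odd p.length))) := by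
  induction p generalizing s with
  | nil => simp
  | @cons a b c hab p ih =>
    have h1 : (DC G).Adj (a, s) (b, !s) := ⟨hab, by cases s <;> simp⟩
    refine h1.reachable.trans ?_
    have := ih (!s)
    have h2 : xor (!s) (decide (Odd p.length)) =
        xor s (decide (Odd (SimpleGraph.Walk.cons hab p).length)) := by
      rw [SimpleGraph.Walk.length_cons]
      by_cases h : Odd p.length
      · have h' : ¬ Odd (p.length + 1) := Nat.not_odd_iff_even.2 h.add_one
        simp [h, h']
      · have h' : Odd (p.length + 1) := (Nat.not_odd_iff_even.1 h).add_one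
        simp only [h, h', decide_true, decide_false]
        cases s <;> rfl
    rw [← h2]
    exact this

lemma DC_connected (hc : G.Connected) (h : OddW G) : (DC G).Connected := by
  have : Nonempty V := hc.nonempty
  have : Nonempty (V × Bool) := ⟨(Classical.arbitrary V, true)⟩
  refine ⟨?_⟩
  rintro ⟨u, s⟩ ⟨w, t⟩
  obtain ⟨p, hp⟩ := walk_parity hc h u w (xor s t)
  have := DC_reach p s
  rw [hp] at this
  have h2 : xor s (xor s t) = t := by cases s <;> cases t <;> rfl
  rwa [h2] at this

/-- lift of an automorphism, with a possible flip -/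
def DC_aut (φ : G ≃g G) (b : Bool) : DC G ≃g DC G where
  toFun p := (φ p.1, xor p.2 b)
  invFun p := (φ.symm p.1, xor p.2 b)
  left_inv p := by
    obtain ⟨v, s⟩ := p
    simp
  right_inv p := by
    obtain ⟨v, s⟩ := p
    simp
  map_rel_iff' := by
    rintro ⟨u, s⟩ ⟨w, t⟩
    change (G.Adj (φ u) (φ w) ∧ xor s b ≠ xor t b) ↔ (G.Adj u w ∧ s ≠ t)
    rw [φ.map_adj_iff]
    refine and_congr_right fun _ => ?_
    cases s <;> cases t <;> cases b <;> simp

lemma DC_VT (hvt : VT G) : VT (DC G) := by
  rintro ⟨u, s⟩ ⟨w, t⟩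
  obtain ⟨φ, hφ⟩ := hvt u w
  refine ⟨DC_aut φ (xor s t), ?_⟩
  change (φ u, xor s (xor s t)) = (w, t)
  rw [hφ]
  cases s <;> cases t <;> rfl

lemma DC_dg [Fintype V] (v : V) (s : Bool) : dg (DC G) (v, s) = dg G v := by
  unfold dg
  rw [Fintype.sum_prod_type]
  refine Finset.sum_congr rfl fun w _ => ?_
  by_cases h : G.Adj v w <;> cases s <;> simp [h]

lemma DC_tri (a b c : V × Bool) (h1 : (DC G).Adj a b) (h2 : (DC G).Adj b c)
    (h3 : (DC G).Adj a c) : False := by
  obtain ⟨_, h1⟩ := h1
  obtain ⟨_, h2⟩ := h2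
  obtain ⟨_, h3⟩ := h3
  revert h1 h2 h3
  cases a.2 <;> cases b.2 <;> cases c.2 <;> simp

/-- the set of the double cover which belongs to `y : V → {-1,0,1}` -/
noncomputable def SY [Fintype V] (y : V → ℤ) : Finset (V × Bool) :=
  univ.filter fun p => (p.2 = true ∧ y p.1 = 1) ∨ (p.2 = false ∧ y p.1 = -1)

lemma mem_SY_true [Fintype V] (y : V → ℤ) (v : V) : (v, true) ∈ SY y ↔ y v = 1 := by simp [SY]

lemma mem_SY_false [Fintype V] (y : V → ℤ) (v : V) : (v, false) ∈ SY y ↔ y v = -1 := by
  simp [SY]

/-- `ℓ¹`-norm of `y u + y w` over ordered adjacent pairs -/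
noncomputable def L1 [Fintype V] (G : SimpleGraph V) (y : V → ℤ) : ℤ :=
  ∑ p : V × V, if G.Adj p.1 p.2 then |y p.1 + y p.2| else 0

/-- squared `ℓ²`-norm of `y u + y w` over ordered adjacent pairs -/
noncomputable def L2 [Fintype V] (G : SimpleGraph V) (y : V → ℤ) : ℤ :=
  ∑ p : V × V, if G.Adj p.1 p.2 then (y p.1 + y p.2) ^ 2 else 0

lemma L1_eq [Fintype V] (y : V → ℤ) (hy : ∀ v, y v = -1 ∨ y v = 0 ∨ y v = 1) :
    L1 G y = 2 * (cut (DC G) (SY y) : ℤ) := by
  -- half of the ordered sum, written by the first coordinate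
  have e1 : (cut (DC G) (SY y) : ℤ) = ∑ p : V × V, if G.Adj p.1 p.2 then
      ((if y p.1 = 1 ∧ y p.2 ≠ -1 then 1 else 0) +
        (if y p.1 = -1 ∧ y p.2 ≠ 1 then 1 else 0) : ℤ) else 0 := by
    unfold cut
    push_cast
    rw [Fintype.sum_prod_type, Fintype.sum_prod_type, Fintype.sum_prod_type]
    refine Finset.sum_congr rfl fun a _ => ?_
    rw [Fintype.sum_bool, Fintype.sum_prod_type, Fintype.sum_prod_type, ← Finset.sum_add_distrib]
    refine Finset.sum_congr rfl fun b _ => ?_
    rw [Fintype.sum_bool, Fintype.sum_bool]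
    simp only [mem_SY_true, mem_SY_false, DC_adj, ne_eq, not_true_eq_false, and_false, if_false,
      not_false_eq_true, and_true, zero_add, add_zero, reduceCtorEq]
    by_cases h : G.Adj a b <;> simp [h]
  have e2 : (cut (DC G) (SY y) : ℤ) = ∑ p : V × V, if G.Adj p.1 p.2 then
      ((if y p.2 = 1 ∧ y p.1 ≠ -1 then 1 else 0) +
        (if y p.2 = -1 ∧ y p.1 ≠ 1 then 1 else 0) : ℤ) else 0 := by
    rw [e1, ← Equiv.sum_comp (Equiv.prodComm V V)]
    refine Finset.sum_congr rfl fun p _ => ?_
    simp only [Equiv.prodComm_apply, Prod.fst_swap, Prod.snd_swap]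
    exact if_congr ⟨fun h => h.symm, fun h => h.symm⟩ rfl rfl
  have e3 : 2 * (cut (DC G) (SY y) : ℤ) = (cut (DC G) (SY y) : ℤ) + (cut (DC G) (SY y) : ℤ) := by
    ring
  rw [e3]
  conv_rhs => rw [e1]
  conv_rhs => arg 2; rw [← e1, e2]
  rw [← Finset.sum_add_distrib]
  unfold L1
  refine Finset.sum_congr rfl fun p _ => ?_
  by_cases h : G.Adj p.1 p.2
  · simp only [h, if_true]
    rcases hy p.1 with h1 | h1 | h1 <;> rcases hy p.2 with h2 | h2 | h2 <;>
      simp [h1, h2]
  · simp [h]

/-- **non-bipartite cut inequality** (helper77): `2 (d-1) ∑ z^2 ≤ (∑ |z|)^2`, sums over ordered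
adjacent pairs, `z = y u + y w`; over edges: `(d-1) (4 i + o) ≤ (2 i + o)^2` -/
theorem nonbip_ineq [Fintype V] (hc : G.Connected) (hodd : OddW G) (hvt : VT G) {d : ℕ}
    (hd1 : 1 ≤ d) (hd : ∀ v, dg G v = d) (y : V → ℤ) (hy : ∀ v, y v = -1 ∨ y v = 0 ∨ y v = 1) :
    2 * ((d : ℤ) - 1) * L2 G y ≤ (L1 G y) ^ 2 := by
  have hDc := DC_connected hc hodd
  have hDv := DC_VT hvt
  have hDd : ∀ v, dg (DC G) v = d := fun v => by
    obtain ⟨v, s⟩ := v; rw [DC_dg]; exact hd v
  have hL1 := L1_eq (G := G) y hy
  have hL1nn : 0 ≤ L1 G y := by rw [hL1]; positivity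
  have hd1' : (0 : ℤ) ≤ (d : ℤ) - 1 := by
    have : (1 : ℤ) ≤ d := by exact_mod_cast hd1
    linarith
  have hL2 : L2 G y ≤ 2 * L1 G y := by
    unfold L2 L1
    rw [Finset.mul_sum]
    refine Finset.sum_le_sum fun p _ => ?_
    by_cases h : G.Adj p.1 p.2
    · simp only [h, if_true]
      rcases hy p.1 with h1 | h1 | h1 <;> rcases hy p.2 with h2 | h2 | h2 <;>
        simp [h1, h2]
    · simp [h]
  -- general case: the cut is at least 2 (d - 1)
  have hgen : 2 * ((d : ℤ) - 1) ≤ (cut (DC G) (SY y) : ℤ) →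
      2 * ((d : ℤ) - 1) * L2 G y ≤ (L1 G y) ^ 2 := by
    intro hq
    have h1 : 2 * ((d : ℤ) - 1) * L2 G y ≤ 2 * ((d : ℤ) - 1) * (2 * L1 G y) :=
      mul_le_mul_of_nonneg_left hL2 (by linarith)
    have h2 : 4 * ((d : ℤ) - 1) ≤ L1 G y := by rw [hL1]; linarith
    nlinarith
  by_cases hS0 : (SY y).Nonempty
  swap
  · -- `y = 0`
    rw [Finset.not_nonempty_iff_eq_empty] at hS0
    have : ∀ v, y v = 0 := by
      intro v
      rcases hy v with h | h | h
      · exact absurd ((mem_SY_false y v).2 h) (by rw [hS0]; simp)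
      · exact h
      · exact absurd ((mem_SY_true y v).2 h) (by rw [hS0]; simp)
    have h2 : L2 G y = 0 := by
      unfold L2
      exact Finset.sum_eq_zero fun p _ => by simp [this]
    rw [h2, mul_zero]
    positivity
  by_cases hE : HasEdge (DC G) (SY y)
  · apply hgen
    have hE' : ∃ a b, a ∉ SY y ∧ b ∉ SY y ∧ (DC G).Adj a b := by
      obtain ⟨⟨u, s⟩, hu, ⟨w, t⟩, hw, huw, hst⟩ := hE
      have hmir : ∀ (v : V) (r : Bool), (v, r) ∈ SY y → (v, !r) ∉ SY y := by
        intro v r h h'
        cases r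
        · rw [mem_SY_false] at h
          rw [Bool.not_false, mem_SY_true] at h'
          omega
        · rw [mem_SY_true] at h
          rw [Bool.not_true, mem_SY_false] at h'
          omega
      exact ⟨(u, !s), (w, !t), hmir u s hu, hmir w t hw, huw, fun h => hst (by
        change (!s) = (!t) at h
        change s = t
        cases s <;> cases t <;> simp_all)⟩
    have := edge_conn_out hDc hDv hDd DC_tri hE hE'
    have h2 : (2 * (d : ℤ)) ≤ (cut (DC G) (SY y) : ℤ) + 2 := by exact_mod_cast this
    linarith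
  · have hcut := cut_indep hDd hE
    by_cases hcard : 2 ≤ (SY y).card
    · apply hgen
      have : 2 * d ≤ cut (DC G) (SY y) := by
        rw [hcut]; exact Nat.mul_le_mul_right d hcard
      have h2 : (2 * (d : ℤ)) ≤ (cut (DC G) (SY y) : ℤ) := by exact_mod_cast this
      linarith
    · have hc1 : (SY y).card = 1 := by
        have := Finset.card_pos.2 hS0
        omega
      rw [hc1, one_mul] at hcut
      obtain ⟨q, hq⟩ := Finset.card_eq_one.1 hc1
      have hz : ∀ u w, G.Adj u w → y u = 0 ∨ y w = 0 := by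
        intro u w huw
        by_contra hcon
        push Not at hcon
        have hm : ∀ v, y v ≠ 0 → q.1 = v := by
          intro v hv
          rcases hy v with h | h | h
          · have := (mem_SY_false y v).2 h
            rw [hq, Finset.mem_singleton] at this
            rw [← this]
          · exact absurd h hv
          · have := (mem_SY_true y v).2 h
            rw [hq, Finset.mem_singleton] at this
            rw [← this]
        exact huw.ne ((hm u hcon.1).symm.trans (hm w hcon.2))
      have hL2' : L2 G y = L1 G y := by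
        unfold L2 L1
        refine Finset.sum_congr rfl fun p _ => ?_
        by_cases h : G.Adj p.1 p.2
        · simp only [h, if_true]
          rcases hz _ _ h with h0 | h0
          · rcases hy p.2 with h2 | h2 | h2 <;> simp [h0, h2]
          · rcases hy p.1 with h2 | h2 | h2 <;> simp [h0, h2]
        · simp [h]
      rw [hL2', hL1, hcut]
      nlinarith

/-- real form: `d |y u + y w| ≤ ∑ |y a + y b|`, sum over ordered adjacent pairs (twice the sum
over edges), for every real `y` and all `u`, `w` -/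
theorem nonbip_real [Fintype V] (hc : G.Connected) (hodd : OddW G) (hvt : VT G) {d : ℕ}
    (hd : ∀ v, dg G v = d) (y : V → ℝ) (u w : V) :
    (d : ℝ) * (y u + y w) ≤ ∑ p : V × V, if G.Adj p.1 p.2 then |y p.1 + y p.2| else 0 := by
  have hDc := DC_connected hc hodd
  have hDv := DC_VT hvt
  have hDd : ∀ v, dg (DC G) v = d := fun v => by
    obtain ⟨v, s⟩ := v; rw [DC_dg]; exact hd v
  have := coarea hDc hDv hDd (fun p => if p.2 = true then y p.1 else - y p.1) (u, true) (w, false)
  simp only [if_true, reduceCtorEq, if_false, sub_neg_eq_add] at this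
  refine this.trans (le_of_eq ?_)
  rw [Fintype.sum_prod_type, Fintype.sum_prod_type, Fintype.sum_prod_type]
  refine Finset.sum_congr rfl fun a _ => ?_
  rw [Fintype.sum_bool, Fintype.sum_prod_type, Fintype.sum_prod_type, ← Finset.sum_add_distrib]
  refine Finset.sum_congr rfl fun b _ => ?_
  rw [Fintype.sum_bool, Fintype.sum_bool]
  by_cases h : G.Adj a b
  · simp only [DC_adj, h, true_and, ne_eq, not_true_eq_false, if_false, reduceCtorEq,
      not_false_eq_true, if_true, zero_add, add_zero]
    rcases le_total 0 (y a + y b) with h1 | h1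
    · rw [abs_of_nonneg h1, max_eq_left (by linarith), max_eq_right (by linarith)]
      ring
    · rw [abs_of_nonpos h1, max_eq_right (by linarith), max_eq_left (by linarith)]
      ring
  · simp [h]

/-- bipartite case, real `y`: `2 d |y u + y w| ≤ ∑ |y a + y b|` over ordered adjacent pairs, for
adjacent `u`, `w` (over edges: `d |z(uw)| ≤ ∑_e |z(e)|`) -/
theorem bip_real [Fintype V] (hc : G.Connected) (hvt : VT G) {d : ℕ} (hd : ∀ v, dg G v = d)
    (c : V → Bool) (hcol : ∀ a b, G.Adj a b → c a ≠ c b) (y : V → ℝ) {u w : V}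
    (huw : G.Adj u w) :
    2 * (d : ℝ) * |y u + y w| ≤ ∑ p : V × V, if G.Adj p.1 p.2 then |y p.1 + y p.2| else 0 := by
  let f : V → ℝ := fun a => if c a = true then y a else - y a
  have hz : ∀ a b, G.Adj a b → |f a - f b| = |y a + y b| := by
    intro a b hab
    have h := hcol a b hab
    by_cases h1 : c a = true
    · have h2 : c b = false := by
        cases hb : c b
        · rfl
        · exact absurd (h1.trans hb.symm) h
      simp [f, h1, h2]
    · have h1' : c a = false := by simpa using h1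
      have h2 : c b = true := by
        cases hb : c b
        · exact absurd (h1'.trans hb.symm) h
        · rfl
      simp only [f, h1', h2, if_true, reduceCtorEq, if_false]
      rw [show -y a - y b = -(y a + y b) by ring, abs_neg]
  have hsum : 2 * (∑ p : V × V, if G.Adj p.1 p.2 then max (f p.1 - f p.2) 0 else 0) =
      ∑ p : V × V, if G.Adj p.1 p.2 then |y p.1 + y p.2| else 0 := by
    have e2 : (∑ p : V × V, if G.Adj p.1 p.2 then max (f p.1 - f p.2) 0 else 0) =
        ∑ p : V × V, if G.Adj p.1 p.2 then max (f p.2 - f p.1) 0 else 0 := by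
      rw [← Equiv.sum_comp (Equiv.prodComm V V)]
      refine Finset.sum_congr rfl fun p _ => ?_
      simp only [Equiv.prodComm_apply, Prod.fst_swap, Prod.snd_swap]
      exact if_congr ⟨fun h => h.symm, fun h => h.symm⟩ rfl rfl
    rw [two_mul]
    conv_lhs => arg 2; rw [e2]
    rw [← Finset.sum_add_distrib]
    refine Finset.sum_congr rfl fun p _ => ?_
    by_cases h : G.Adj p.1 p.2
    · simp only [h, if_true]
      rw [← hz _ _ h]
      rcases le_total 0 (f p.1 - f p.2) with h1 | h1
      · rw [abs_of_nonneg h1, max_eq_left h1, max_eq_right (by linarith)]; ring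
      · rw [abs_of_nonpos h1, max_eq_right h1, max_eq_left (by linarith)]; ring
    · simp [h]
  rw [← hsum, ← hz u w huw]
  have h1 := coarea hc hvt hd f u w
  have h2 := coarea hc hvt hd f w u
  rcases le_total 0 (f u - f w) with h | h
  · rw [abs_of_nonneg h]; linarith
  · rw [abs_of_nonpos h]; linarith

/-- bipartite case, `ℓ²` form for real `y`: `2 d ∑ z^2 ≤ (∑ |z|)^2` (ordered pairs), i.e.
`d ∑_e z^2 ≤ (∑_e |z|)^2` -/
theorem bip_ineq [Fintype V] (hc : G.Connected) (hvt : VT G) {d : ℕ} (hd : ∀ v, dg G v = d)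
    (c : V → Bool) (hcol : ∀ a b, G.Adj a b → c a ≠ c b) (y : V → ℝ) :
    2 * (d : ℝ) * (∑ p : V × V, if G.Adj p.1 p.2 then (y p.1 + y p.2) ^ 2 else 0) ≤
      (∑ p : V × V, if G.Adj p.1 p.2 then |y p.1 + y p.2| else 0) ^ 2 := by
  set L := ∑ p : V × V, if G.Adj p.1 p.2 then |y p.1 + y p.2| else 0 with hL
  have h1 : 2 * (d : ℝ) * (∑ p : V × V, if G.Adj p.1 p.2 then (y p.1 + y p.2) ^ 2 else 0) ≤
      ∑ p : V × V, if G.Adj p.1 p.2 then L * |y p.1 + y p.2| else 0 := by
    rw [Finset.mul_sum]
    refine Finset.sum_le_sum fun p _ => ?_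
    by_cases h : G.Adj p.1 p.2
    · simp only [h, if_true]
      have h2 := bip_real hc hvt hd c hcol y h
      rw [← hL] at h2
      have h3 : 0 ≤ |y p.1 + y p.2| := abs_nonneg _
      calc 2 * (d : ℝ) * (y p.1 + y p.2) ^ 2 = (2 * (d : ℝ) * |y p.1 + y p.2|) * |y p.1 + y p.2| := by
            rw [← sq_abs]; ring
        _ ≤ L * |y p.1 + y p.2| := mul_le_mul_of_nonneg_right h2 h3
    · simp [h]
  refine h1.trans (le_of_eq ?_)
  rw [sq]
  conv_rhs => arg 2; rw [hL]
  rw [Finset.mul_sum]
  refine Finset.sum_congr rfl fun p _ => ?_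
  split_ifs <;> simp

/-- every connected vertex-transitive graph of valency `d ≥ 1`: `2 (d-1) ∑ z^2 ≤ (∑ |z|)^2` for
`y : V → {-1,0,1}` -/
theorem cut_ineq [Fintype V] (hc : G.Connected) (hvt : VT G) {d : ℕ}
    (hd1 : 1 ≤ d) (hd : ∀ v, dg G v = d) (y : V → ℤ) (hy : ∀ v, y v = -1 ∨ y v = 0 ∨ y v = 1) :
    2 * ((d : ℤ) - 1) * L2 G y ≤ (L1 G y) ^ 2 := by
  by_cases hodd : OddW G
  · exact nonbip_ineq hc hodd hvt hd1 hd y hy
  · obtain ⟨c, hcol⟩ := bip_of_not_oddW hc hodd
    have h := bip_ineq hc hvt hd c hcol (fun v => (y v : ℝ))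
    have e1 : (∑ p : V × V, if G.Adj p.1 p.2 then ((y p.1 : ℝ) + (y p.2 : ℝ)) ^ 2 else 0) =
        ((L2 G y : ℤ) : ℝ) := by
      unfold L2
      rw [Int.cast_sum]
      refine Finset.sum_congr rfl fun p _ => ?_
      split_ifs <;> simp
    have e2 : (∑ p : V × V, if G.Adj p.1 p.2 then |(y p.1 : ℝ) + (y p.2 : ℝ)| else 0) =
        ((L1 G y : ℤ) : ℝ) := by
      unfold L1
      rw [Int.cast_sum]
      refine Finset.sum_congr rfl fun p _ => ?_
      split_ifs <;> simp
    rw [e1, e2] at h
    have h' : 2 * (d : ℤ) * L2 G y ≤ (L1 G y) ^ 2 := by exact_mod_cast h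
    have hL2nn : 0 ≤ L2 G y := by
      unfold L2
      exact Finset.sum_nonneg fun p _ => by split_ifs <;> positivity
    nlinarith

end EC

end Pool.Agent.UPS2
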