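import Pool.Agent.Lib.MP_876e19_co_ups.CutSum
import Pool.Agent.Lib.MP_876e19_co_ups.EdgeConn
import Pool.Agent.Lib.MP_876e19_co_ups.DoubleCover

/-!
# Cut sum for connected vertex-transitive graphs and for their double covers (MP_876e19_co)
-/

set_option autoImplicit false

namespace Pool.Agent.UPS2

open Finset Classical

namespace CS

open EC

universe u

variable {V : Type u} [Fintype V]

/-- the 0/1 weights of a graph -/
noncomputable def gw (G : SimpleGraph V) (a b : V) : ℝ := if G.Adj a b then 1 else 0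

omit [Fintype V] in
lemma gw_nonneg (G : SimpleGraph V) (a b : V) : 0 ≤ gw G a b := by
  unfold gw; split_ifs <;> norm_num

omit [Fintype V] in
lemma gw_symm (G : SimpleGraph V) (a b : V) : gw G a b = gw G b a := by
  unfold gw
  exact if_congr ⟨fun h => h.symm, fun h => h.symm⟩ rfl rfl

lemma wcut_gw (G : SimpleGraph V) (σ : V → Bool) :
    wcut (gw G) σ = (cut G (Finset.univ.filter fun v => σ v = true) : ℝ) := by
  unfold wcut cut gw
  push_cast
  refine Finset.sum_congr rfl fun p _ => ?_
  simp only [mem_filter, mem_univ, true_and, Bool.not_eq_true]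
  by_cases h1 : σ p.1 = true <;> by_cases h2 : σ p.2 = false <;> by_cases h3 : G.Adj p.1 p.2 <;>
    simp [h1, h2, h3]

/-- bijection between sets of vertices and 0/1 functions -/
noncomputable def setEq : Finset V ≃ (V → Bool) where
  toFun S := fun v => if v ∈ S then true else false
  invFun σ := Finset.univ.filter fun v => σ v = true
  left_inv S := by
    ext v
    by_cases h : v ∈ S <;> simp [h]
  right_inv σ := by
    funext v
    by_cases h : σ v = true
    · simp [h]
    · simp only [mem_filter, mem_univ, true_and]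
      rw [if_neg h]
      exact (Bool.not_eq_true _ ▸ h : σ v = false).symm

lemma NC_setEq (S : Finset V) : NC (setEq S) ↔ S.Nonempty ∧ S ≠ univ := by
  constructor
  · rintro ⟨a, b, hab⟩
    change (if a ∈ S then true else false) ≠ (if b ∈ S then true else false) at hab
    by_cases ha : a ∈ S
    · by_cases hb : b ∈ S
      · rw [if_pos ha, if_pos hb] at hab
        exact absurd rfl hab
      · exact ⟨⟨a, ha⟩, fun h => hb (h ▸ mem_univ b)⟩
    · by_cases hb : b ∈ S
      · exact ⟨⟨b, hb⟩, fun h => ha (h ▸ mem_univ a)⟩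
      · rw [if_neg ha, if_neg hb] at hab
        exact absurd rfl hab
  · rintro ⟨⟨a, ha⟩, h1⟩
    obtain ⟨b, hb⟩ : ∃ b, b ∉ S := by
      by_contra h
      push Not at h
      exact h1 (Finset.eq_univ_iff_forall.2 h)
    refine ⟨a, b, ?_⟩
    change (if a ∈ S then true else false) ≠ (if b ∈ S then true else false)
    rw [if_pos ha, if_neg hb]
    simp

/-- **Cut sum for graphs.**  All cuts have at least `lam` edges. -/
theorem cut_sum_graph (G : SimpleGraph V) (lam : ℝ) (hlam : 0 ≤ lam)
    (hcut : ∀ S : Finset V, S.Nonempty → S ≠ univ → lam ≤ (cut G S : ℝ)) (t : ℝ) (ht : 0 ≤ t) :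
    (∑ S : Finset V, if S.Nonempty ∧ S ≠ univ then Real.exp (-(t * (cut G S : ℝ))) else 0) ≤
      (1 + Real.exp (-(t * (lam / 2)))) ^ Fintype.card V +
        (1 - Real.exp (-(t * (lam / 2)))) ^ Fintype.card V - 2 := by
  have h := cut_sum (Fintype.card V) V rfl (gw G) (gw_nonneg G) (gw_symm G) lam hlam ?_ t ht
  · refine le_trans (le_of_eq ?_) h
    unfold Z
    rw [← Equiv.sum_comp setEq]
    refine Finset.sum_congr rfl fun S _ => ?_
    have e : wcut (gw G) (setEq S) = (cut G S : ℝ) := by
      rw [wcut_gw]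
      have : (Finset.univ.filter fun v => (setEq S) v = true) = S := setEq.left_inv S
      rw [this]
    rw [e]
    exact if_congr (NC_setEq S).symm rfl rfl
  · intro σ hσ
    rw [wcut_gw]
    have h2 := (NC_setEq (setEq.symm σ)).1 (by rw [Equiv.apply_symm_apply]; exact hσ)
    exact hcut _ h2.1 h2.2

/-- cut sum of a connected vertex-transitive graph of valency `d` -/
theorem cut_sum_VT {G : SimpleGraph V} (hc : G.Connected) (hvt : VT G) {d : ℕ}
    (hd : ∀ v, dg G v = d) (t : ℝ) (ht : 0 ≤ t) :
    (∑ S : Finset V, if S.Nonempty ∧ S ≠ univ then Real.exp (-(t * (cut G S : ℝ))) else 0) ≤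
      (1 + Real.exp (-(t * ((d : ℝ) / 2)))) ^ Fintype.card V +
        (1 - Real.exp (-(t * ((d : ℝ) / 2)))) ^ Fintype.card V - 2 := by
  refine cut_sum_graph G d (Nat.cast_nonneg d) ?_ t ht
  intro S h0 h1
  exact_mod_cast edge_conn hc hvt hd h0 h1

end CS

end Pool.Agent.UPS2
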