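import Pool.Agent.Lib.MP_876e19_co_ups.Bip
import Pool.Agent.Lib.MP_876e19_co.Expansion

/-!
# The Hall condition from the L2 norm of the error, sharp constants (helper16, helper81, TT876)

`G` connected, vertex-transitive, valency `d ≥ 1`, `β v = C - (boundary of k at v) ≥ 0`,
`kk` the sum of `k²` over ordered adjacent pairs (twice the sum over edges), `s = ⌈d/2⌉`.

* `hall_L2`: `d kk ≤ s C²` implies `∑_U β ≤ ∑_{N(U)} β` for all `U`.
* `hall_L2_bip`: for bipartite graphs `d kk ≤ 2 s C²` is enough.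
* `bip_mult`: multiplicities with degrees `D` (bipartite).
-/

set_option autoImplicit false

open Finset Classical

namespace Pool.Agent.UPS3

open Pool.Agent.UPS Pool.Agent.UPS.Exp

variable {V : Type*} [Fintype V] {G : SimpleGraph V}

/-- boundary identity for ordered pairs -/
lemma bdry_identity (f : V → V → ℝ) (hf : ∀ u v, f u v = f v u) (y : V → ℝ) :
    2 * ∑ v, y v * (∑ w, if G.Adj v w then f v w else 0) =
      ∑ p : V × V, if G.Adj p.1 p.2 then f p.1 p.2 * (y p.1 + y p.2) else 0 := by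
  have h1 : ∑ v, y v * (∑ w, if G.Adj v w then f v w else 0) =
      ∑ p : V × V, if G.Adj p.1 p.2 then f p.1 p.2 * y p.1 else 0 := by
    rw [Fintype.sum_prod_type]
    refine sum_congr rfl fun v _ => ?_
    rw [mul_sum]
    refine sum_congr rfl fun w _ => ?_
    by_cases h : G.Adj v w
    · simp only [h, if_true]; ring
    · simp only [h, if_false, mul_zero]
  have h2 : ∑ v, y v * (∑ w, if G.Adj v w then f v w else 0) =
      ∑ p : V × V, if G.Adj p.1 p.2 then f p.1 p.2 * y p.2 else 0 := by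
    rw [Fintype.sum_prod_type, sum_comm]
    refine sum_congr rfl fun v _ => ?_
    rw [mul_sum]
    refine sum_congr rfl fun w _ => ?_
    by_cases h : G.Adj v w
    · simp only [h, h.symm, if_true]; rw [hf w v]; ring
    · have h' : ¬ G.Adj w v := fun h' => h h'.symm
      simp only [h, h', if_false, mul_zero]
  rw [two_mul]
  nth_rewrite 1 [h1]
  rw [h2, ← sum_add_distrib]
  refine sum_congr rfl fun p _ => ?_
  by_cases h : G.Adj p.1 p.2
  · simp only [h, if_true]; ring
  · simp only [h, if_false, add_zero]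

/-- the L2 inequality for one set -/
lemma hall_one {d : ℕ} (hd0 : 0 < d) (hd : ∀ v, (univ.filter fun w => G.Adj v w).card = d)
    (β : V → ℝ) (C : ℝ) (k : V → V → ℝ) (hk : ∀ u v, k u v = k v u)
    (hβ : ∀ v, β v = C - ∑ w, if G.Adj v w then k v w else 0) (hC : 0 ≤ C)
    (U : Finset V) (M : ℝ) (hM0 : 0 ≤ M)
    (hM : ∀ a b, G.Adj a b →
      (if a ∈ Nf G U then (1 : ℝ) else 0) + (if b ∈ Nf G U then 1 else 0) ≤ M)
    (s : ℝ) (hs0 : 0 ≤ s) (hs : s ≤ (Nf G U).card - U.card)
    (hkk : d * M * (∑ p : V × V, if G.Adj p.1 p.2 then (k p.1 p.2) ^ 2 else 0) ≤ 2 * s * C ^ 2) :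
    ∑ u ∈ U, β u ≤ ∑ v ∈ Nf G U, β v := by
  set N := Nf G U with hN
  set kk := ∑ p : V × V, if G.Adj p.1 p.2 then (k p.1 p.2) ^ 2 else 0 with hkkdef
  have hkk0 : 0 ≤ kk := sum_nonneg fun p _ => by split_ifs <;> positivity
  let y : V → ℝ := fun v => (if v ∈ N then 1 else 0) - (if v ∈ U then 1 else 0)
  have hsum : ∀ g : V → ℝ, ∑ v, y v * g v = ∑ v ∈ N, g v - ∑ v ∈ U, g v := by
    intro g
    have : ∀ v, y v * g v = (if v ∈ N then g v else 0) - (if v ∈ U then g v else 0) := by
      intro v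
      simp only [y]
      by_cases h1 : v ∈ N <;> by_cases h2 : v ∈ U <;> simp [h1, h2]
    simp only [this, sum_sub_distrib, sum_ite_mem, univ_inter]
  have hz0 : ∀ a b, G.Adj a b → 0 ≤ y a + y b := by
    intro a b hab
    have h1 : a ∈ U → b ∈ N := fun h => mem_Nf.2 ⟨a, h, hab⟩
    have h2 : b ∈ U → a ∈ N := fun h => mem_Nf.2 ⟨b, h, hab.symm⟩
    simp only [y]
    by_cases ha : a ∈ U <;> by_cases hb : b ∈ U <;> by_cases ha' : a ∈ N <;>
      by_cases hb' : b ∈ N <;> simp_all
  have hzM : ∀ a b, G.Adj a b → y a + y b ≤ M := by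
    intro a b hab
    refine le_trans ?_ (hM a b hab)
    have e1 : (0 : ℝ) ≤ if a ∈ U then 1 else 0 := by split_ifs <;> norm_num
    have e2 : (0 : ℝ) ≤ if b ∈ U then 1 else 0 := by split_ifs <;> norm_num
    simp only [y]
    linarith
  -- total of `z`
  set q : ℝ := (N.card : ℝ) - U.card with hq
  have hdeg : ∀ v, (∑ w, if G.Adj v w then (1 : ℝ) else 0) = d := by
    intro v
    rw [← hd v, sum_boole]
  have hzsum : ∑ p : V × V, (if G.Adj p.1 p.2 then (y p.1 + y p.2) else 0) = 2 * d * q := by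
    have h1 := bdry_identity (G := G) (fun _ _ => 1) (fun _ _ => rfl) y
    simp only [hdeg, one_mul] at h1
    rw [← h1, hsum]
    simp only [sum_const, nsmul_eq_mul]
    rw [hq]; ring
  have hzz : ∑ p : V × V, (if G.Adj p.1 p.2 then (y p.1 + y p.2) ^ 2 else 0) ≤
      M * (2 * d * q) := by
    rw [← hzsum, mul_sum]
    refine sum_le_sum fun p _ => ?_
    by_cases h : G.Adj p.1 p.2
    · simp only [h, if_true]
      have := hz0 _ _ h
      have := hzM _ _ h
      nlinarith
    · simp only [h, if_false, mul_zero, le_refl]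
  -- Cauchy Schwarz
  have hcs : (∑ p : V × V, if G.Adj p.1 p.2 then k p.1 p.2 * (y p.1 + y p.2) else 0) ^ 2 ≤
      kk * (M * (2 * d * q)) := by
    have h1 : (∑ p : V × V, if G.Adj p.1 p.2 then k p.1 p.2 * (y p.1 + y p.2) else 0) =
        ∑ p : V × V, (if G.Adj p.1 p.2 then k p.1 p.2 else 0) *
          (if G.Adj p.1 p.2 then (y p.1 + y p.2) else 0) := by
      refine sum_congr rfl fun p _ => ?_
      by_cases h : G.Adj p.1 p.2 <;> simp [h]
    rw [h1]
    refine (sum_mul_sq_le_sq_mul_sq _ _ _).trans ?_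
    have h2 : ∑ p : V × V, (if G.Adj p.1 p.2 then k p.1 p.2 else 0) ^ 2 = kk := by
      refine sum_congr rfl fun p _ => ?_
      by_cases h : G.Adj p.1 p.2 <;> simp [h]
    have h3 : ∑ p : V × V, (if G.Adj p.1 p.2 then (y p.1 + y p.2) else 0) ^ 2 =
        ∑ p : V × V, (if G.Adj p.1 p.2 then (y p.1 + y p.2) ^ 2 else 0) := by
      refine sum_congr rfl fun p _ => ?_
      by_cases h : G.Adj p.1 p.2 <;> simp [h]
    rw [h2, h3]
    exact mul_le_mul_of_nonneg_left hzz hkk0
  have hq0 : 0 ≤ q := hs0.trans hs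
  have hmain : ∑ v ∈ N, β v - ∑ u ∈ U, β u =
      C * q - (∑ p : V × V, if G.Adj p.1 p.2 then k p.1 p.2 * (y p.1 + y p.2) else 0) / 2 := by
    rw [← hsum]
    have h1 := bdry_identity (G := G) k hk y
    have h2 : ∑ v, y v * β v = C * q - ∑ v, y v * (∑ w, if G.Adj v w then k v w else 0) := by
      have h3 : ∀ v, y v * β v = C * y v - y v * (∑ w, if G.Adj v w then k v w else 0) := by
        intro v; rw [hβ]; ring
      have h4 : ∑ v, y v = q := by
        have := hsum (fun _ => 1)
        simp only [mul_one, sum_const, nsmul_eq_mul] at this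
        rw [this, hq]
      simp only [h3, sum_sub_distrib, ← mul_sum]
      rw [h4]
    rw [h2, ← h1]; ring
  set Z := ∑ p : V × V, if G.Adj p.1 p.2 then k p.1 p.2 * (y p.1 + y p.2) else 0 with hZ
  have h5 : Z ^ 2 ≤ (2 * (C * q)) ^ 2 := by
    calc Z ^ 2 ≤ kk * (M * (2 * d * q)) := hcs
      _ = 2 * q * (d * M * kk) := by ring
      _ ≤ 2 * q * (2 * s * C ^ 2) := mul_le_mul_of_nonneg_left hkk (by linarith)
      _ ≤ 2 * q * (2 * q * C ^ 2) :=
          mul_le_mul_of_nonneg_left (mul_le_mul_of_nonneg_right (by linarith) (sq_nonneg C))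
            (by linarith)
      _ = (2 * (C * q)) ^ 2 := by ring
  have h6 : Z ≤ 2 * (C * q) :=
    le_of_abs_le (sq_le_sq₀ (abs_nonneg _) (by positivity) |>.1 (by rwa [sq_abs]))
  linarith

/-- one class -/
lemma hall_class (hG : G.Connected) (hT : VT G) {d : ℕ} (hd0 : 0 < d)
    (hd : ∀ v, (univ.filter fun w => G.Adj v w).card = d)
    (β : V → ℝ) (hβ0 : ∀ v, 0 ≤ β v) (C : ℝ) (k : V → V → ℝ) (hk : ∀ u v, k u v = k v u)
    (hβ : ∀ v, β v = C - ∑ w, if G.Adj v w then k v w else 0) (hC : 0 ≤ C)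
    (v₀ : V) (hbal : ∑ v ∈ Cf G v₀, β v ≤ ∑ v ∈ Df G v₀, β v)
    (U : Finset V) (hU : U ⊆ Cf G v₀) (M : ℝ) (hM0 : 0 ≤ M)
    (hM : ∀ a b, G.Adj a b →
      (if a ∈ Nf G U then (1 : ℝ) else 0) + (if b ∈ Nf G U then 1 else 0) ≤ M)
    (hkk : d * M * (∑ p : V × V, if G.Adj p.1 p.2 then (k p.1 p.2) ^ 2 else 0) ≤
      2 * (((d + 1) / 2 : ℕ) : ℝ) * C ^ 2) :
    ∑ u ∈ U, β u ≤ ∑ v ∈ Nf G U, β v := by
  by_cases hcov : Df G v₀ ⊆ Nf G U
  · calc ∑ u ∈ U, β u ≤ ∑ v ∈ Cf G v₀, β v :=
          sum_le_sum_of_subset_of_nonneg hU fun v _ _ => hβ0 v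
      _ ≤ ∑ v ∈ Df G v₀, β v := hbal
      _ ≤ _ := sum_le_sum_of_subset_of_nonneg hcov fun v _ _ => hβ0 v
  · rcases U.eq_empty_or_nonempty with rfl | ⟨u, hu⟩
    · simp only [sum_empty]
      exact sum_nonneg fun v _ => hβ0 v
    · have hc : Cand G U := by
        refine ⟨u, hu, ?_, ?_⟩
        · rw [Cf_eq_of_mem (hU hu)]; exact hU
        · rw [Df_eq_of_mem (hU hu)]; exact hcov
      have h1 := expansion hd hG hT hd0 hc
      have h2 : U.card + (d + 1) / 2 ≤ (Nf G U).card := by omega
      refine hall_one hd0 hd β C k hk hβ hC U M hM0 hM (((d + 1) / 2 : ℕ) : ℝ)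
        (Nat.cast_nonneg _) ?_ hkk
      have h3 : ((U.card + (d + 1) / 2 : ℕ) : ℝ) ≤ ((Nf G U).card : ℝ) := by exact_mod_cast h2
      rw [Nat.cast_add] at h3
      linarith

lemma side_of_walk {side : V → Bool} (hside : ∀ u v, G.Adj u v → side u ≠ side v) {u v : V}
    (p : G.Walk u v) : side v = (side u ^^ decide (Odd p.length)) := by
  induction p with
  | nil => simp
  | cons h q ih =>
    rename_i a b c
    have h1 := hside _ _ h
    rw [ih, SimpleGraph.Walk.length_cons]
    simp only [Nat.odd_add_one]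
    cases ha : side a <;> cases hb : side b <;> by_cases ho : Odd q.length <;> simp_all

lemma Cf_side {side : V → Bool} (hside : ∀ u v, G.Adj u v → side u ≠ side v) {v w : V}
    (h : w ∈ Cf G v) : side w = side v := by
  obtain ⟨p, hp⟩ := mem_Cf.1 h
  rw [side_of_walk hside p]
  have : ¬ Odd p.length := Nat.not_odd_iff_even.2 hp
  simp [this]

lemma Df_side {side : V → Bool} (hside : ∀ u v, G.Adj u v → side u ≠ side v) {v w : V}
    (h : w ∈ Df G v) : side w = !side v := by
  obtain ⟨p, hp⟩ := mem_Df.1 h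
  rw [side_of_walk hside p]
  simp [hp]

lemma mem_Cf_or_Df (hG : G.Connected) (v w : V) : w ∈ Cf G v ∨ w ∈ Df G v := by
  obtain ⟨p⟩ := hG.preconnected v w
  rcases Nat.even_or_odd p.length with h | h
  · exact Or.inl (mem_Cf.2 ⟨p, h⟩)
  · exact Or.inr (mem_Df.2 ⟨p, h⟩)

/-- balance of the two classes of a bipartite regular graph -/
lemma bip_balance {d : ℕ} (hd0 : 0 < d) (hd : ∀ v, (univ.filter fun w => G.Adj v w).card = d)
    (side : V → Bool) (hside : ∀ u v, G.Adj u v → side u ≠ side v)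
    (β : V → ℝ) (C : ℝ) (k : V → V → ℝ) (hk : ∀ u v, k u v = k v u)
    (hβ : ∀ v, β v = C - ∑ w, if G.Adj v w then k v w else 0) :
    ∑ v with side v = true, β v = ∑ v with side v = false, β v := by
  let y : V → ℝ := fun v => (if side v = true then 1 else 0) - (if side v = false then 1 else 0)
  have hsum : ∀ g : V → ℝ, ∑ v, y v * g v =
      ∑ v with side v = true, g v - ∑ v with side v = false, g v := by
    intro g
    rw [sum_filter, sum_filter, ← sum_sub_distrib]
    refine sum_congr rfl fun v _ => ?_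
    simp only [y]
    cases h : side v <;> simp
  have hz : ∀ a b, G.Adj a b → y a + y b = 0 := by
    intro a b hab
    have h1 := hside a b hab
    simp only [y]
    cases ha : side a <;> cases hb : side b <;> simp_all
  have key : ∀ f : V → V → ℝ, (∀ u v, f u v = f v u) →
      ∑ v, y v * (∑ w, if G.Adj v w then f v w else 0) = 0 := by
    intro f hf
    have h1 := bdry_identity (G := G) f hf y
    rw [sum_eq_zero (s := (univ : Finset (V × V)))] at h1
    · linarith
    · intro p _
      by_cases h : G.Adj p.1 p.2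
      · simp only [h, if_true, hz _ _ h, mul_zero]
      · simp only [h, if_false]
  have hdeg : ∀ v, (∑ w, if G.Adj v w then (1 : ℝ) else 0) = d := by
    intro v
    rw [← hd v, sum_boole]
  have hd' : (d : ℝ) ≠ 0 := by exact_mod_cast hd0.ne'
  have h1 := key (fun _ _ => 1) (fun _ _ => rfl)
  simp only [hdeg, ← sum_mul] at h1
  have h2 : ∑ v, y v = 0 := by
    rcases mul_eq_zero.1 h1 with h | h
    · exact h
    · exact absurd h hd'
  have h3 := key k hk
  have h4 : ∑ v, y v * β v = 0 := by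
    have : ∀ v, y v * β v = C * y v - y v * (∑ w, if G.Adj v w then k v w else 0) := by
      intro v; rw [hβ]; ring
    simp only [this, sum_sub_distrib, ← mul_sum, h2, h3, mul_zero, sub_zero]
  rw [hsum] at h4
  linarith

/-- **Hall condition for bipartite graphs.** -/
theorem hall_L2_bip (hG : G.Connected) (hT : VT G) {d : ℕ} (hd0 : 0 < d)
    (hd : ∀ v, (univ.filter fun w => G.Adj v w).card = d)
    (side : V → Bool) (hside : ∀ u v, G.Adj u v → side u ≠ side v)
    (β : V → ℝ) (hβ0 : ∀ v, 0 ≤ β v) (C : ℝ) (k : V → V → ℝ) (hk : ∀ u v, k u v = k v u)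
    (hβ : ∀ v, β v = C - ∑ w, if G.Adj v w then k v w else 0) (hC : 0 ≤ C)
    (hkk : d * (∑ p : V × V, if G.Adj p.1 p.2 then (k p.1 p.2) ^ 2 else 0) ≤
      2 * (((d + 1) / 2 : ℕ) : ℝ) * C ^ 2) (U : Finset V) :
    ∑ u ∈ U, β u ≤ ∑ v ∈ Nf G U, β v := by
  have hbalance := bip_balance hd0 hd side hside β C k hk hβ
  -- the classes
  have hcls : ∀ v₀, ∑ v ∈ Cf G v₀, β v ≤ ∑ v ∈ Df G v₀, β v := by
    intro v₀
    have h1 : Cf G v₀ = univ.filter fun v => side v = side v₀ := by
      ext v
      constructor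
      · exact fun h => mem_filter.2 ⟨mem_univ _, Cf_side hside h⟩
      · intro h
        rcases mem_Cf_or_Df hG v₀ v with h' | h'
        · exact h'
        · have := Df_side hside h'
          rw [(mem_filter.1 h).2] at this
          exact absurd this (by simp)
    have h2 : Df G v₀ = univ.filter fun v => side v = !side v₀ := by
      ext v
      constructor
      · exact fun h => mem_filter.2 ⟨mem_univ _, Df_side hside h⟩
      · intro h
        rcases mem_Cf_or_Df hG v₀ v with h' | h'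
        · have := Cf_side hside h'
          rw [(mem_filter.1 h).2] at this
          exact absurd this (by simp)
        · exact h'
    rw [h1, h2]
    cases side v₀
    · exact le_of_eq hbalance.symm
    · exact le_of_eq hbalance
  -- one side at a time
  have hone : ∀ (c : Bool) (X : Finset V), (∀ x ∈ X, side x = c) →
      ∑ u ∈ X, β u ≤ ∑ v ∈ Nf G X, β v := by
    intro c X hX
    rcases X.eq_empty_or_nonempty with rfl | ⟨x, hx⟩
    · simp only [sum_empty]
      exact sum_nonneg fun v _ => hβ0 v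
    refine hall_class hG hT hd0 hd β hβ0 C k hk hβ hC x (hcls x) X ?_ 1 zero_le_one ?_ ?_
    · intro w hw
      rcases mem_Cf_or_Df hG x w with h | h
      · exact h
      · have := Df_side hside h
        rw [hX w hw, hX x hx] at this
        exact absurd this (by simp)
    · intro a b hab
      have h1 : ∀ w ∈ Nf G X, side w = !c := by
        intro w hw
        obtain ⟨u, hu, huw⟩ := mem_Nf.1 hw
        have := hside _ _ huw
        rw [hX u hu] at this
        cases c <;> cases h : side w <;> simp_all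
      by_cases ha : a ∈ Nf G X
      · by_cases hb : b ∈ Nf G X
        · exact absurd ((h1 a ha).trans (h1 b hb).symm) (hside a b hab)
        · simp [ha, hb]
      · by_cases hb : b ∈ Nf G X
        · simp [ha, hb]
        · simp [ha, hb]
    · rw [mul_one]; exact hkk
  have h1 := hone true (U.filter fun u => side u = true) (fun x hx => (mem_filter.1 hx).2)
  have h2 := hone false (U.filter fun u => side u = false) (fun x hx => (mem_filter.1 hx).2)
  have h3 : Nf G U = Nf G (U.filter fun u => side u = true) ∪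
      Nf G (U.filter fun u => side u = false) := by
    rw [← Nf_union]
    congr 1
    ext u
    simp only [mem_union, mem_filter]
    cases side u <;> simp
  have h4 : Disjoint (Nf G (U.filter fun u => side u = true))
      (Nf G (U.filter fun u => side u = false)) := by
    rw [disjoint_left]
    intro w hw hw'
    obtain ⟨u, hu, huw⟩ := mem_Nf.1 hw
    obtain ⟨u', hu', huw'⟩ := mem_Nf.1 hw'
    have e1 := hside _ _ huw
    have e2 := hside _ _ huw'
    rw [(mem_filter.1 hu).2] at e1
    rw [(mem_filter.1 hu').2] at e2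
    cases h : side w <;> simp_all
  have h5 : ∑ u ∈ U, β u = ∑ u ∈ U.filter (fun u => side u = true), β u +
      ∑ u ∈ U.filter (fun u => side u = false), β u := by
    have : U.filter (fun u => side u = false) = U.filter (fun u => ¬ side u = true) := by
      ext u; simp
    rw [this, sum_filter_add_sum_filter_not]
  rw [h3, sum_union h4, h5]
  exact add_le_add h1 h2

/-- **Hall condition for all graphs.** -/
theorem hall_L2 (hG : G.Connected) (hT : VT G) {d : ℕ} (hd0 : 0 < d)
    (hd : ∀ v, (univ.filter fun w => G.Adj v w).card = d)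
    (β : V → ℝ) (hβ0 : ∀ v, 0 ≤ β v) (C : ℝ) (k : V → V → ℝ) (hk : ∀ u v, k u v = k v u)
    (hβ : ∀ v, β v = C - ∑ w, if G.Adj v w then k v w else 0) (hC : 0 ≤ C)
    (hkk : d * (∑ p : V × V, if G.Adj p.1 p.2 then (k p.1 p.2) ^ 2 else 0) ≤
      (((d + 1) / 2 : ℕ) : ℝ) * C ^ 2) (U : Finset V) :
    ∑ u ∈ U, β u ≤ ∑ v ∈ Nf G U, β v := by
  by_cases hbip : ∃ side : V → Bool, ∀ u v, G.Adj u v → side u ≠ side v
  · obtain ⟨side, hside⟩ := hbip
    refine hall_L2_bip hG hT hd0 hd side hside β hβ0 C k hk hβ hC ?_ U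
    have : 0 ≤ (((d + 1) / 2 : ℕ) : ℝ) * C ^ 2 := by positivity
    linarith
  · obtain ⟨v₀⟩ := hG.nonempty
    -- some vertex is in both classes
    have hboth : ∃ x, x ∈ Cf G v₀ ∧ x ∈ Df G v₀ := by
      by_contra hcon
      push Not at hcon
      apply hbip
      refine ⟨fun v => decide (v ∈ Cf G v₀), fun u v huv h => ?_⟩
      have h' : u ∈ Cf G v₀ ↔ v ∈ Cf G v₀ := by simpa using h
      by_cases hu : u ∈ Cf G v₀
      · have hv := h'.1 hu
        exact hcon v hv (adj_mem_Df hu huv)
      · have hv : v ∉ Cf G v₀ := fun h => hu (h'.2 h)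
        have hu' := (mem_Cf_or_Df hG v₀ u).resolve_left hu
        exact hv (adj_mem_Cf hu' huv)
    obtain ⟨x, hx1, hx2⟩ := hboth
    have hCD : Cf G v₀ = Df G v₀ := by
      rw [← Cf_eq_of_mem hx1, Cf_eq_Df_of_mem hx2]
    have hall : ∀ w, w ∈ Cf G v₀ := by
      intro w
      rcases mem_Cf_or_Df hG v₀ w with h | h
      · exact h
      · rw [hCD]; exact h
    refine hall_class hG hT hd0 hd β hβ0 C k hk hβ hC v₀ (by rw [hCD]) U (fun w _ => hall w) 2
      zero_le_two (fun a b _ => ?_) ?_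
    · split_ifs <;> norm_num
    · linarith

/-- **Bipartite multiplicities from the L2 norm of the error** (better constant than
`bip_hall`). -/
theorem bip_mult (hG : G.Connected) (hT : VT G) {d : ℕ} (hd0 : 0 < d)
    (hd : ∀ v, (univ.filter fun w => G.Adj v w).card = d)
    (side : V → Bool) (hside : ∀ u v, G.Adj u v → side u ≠ side v)
    (D : V → ℕ) (C : ℝ) (k : V → V → ℝ) (hk : ∀ u v, k u v = k v u)
    (hD : ∀ v, (D v : ℝ) = C - ∑ w, if G.Adj v w then k v w else 0) (hC : 0 ≤ C)
    (hkk : d * (∑ p : V × V, if G.Adj p.1 p.2 then (k p.1 p.2) ^ 2 else 0) ≤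
      2 * (((d + 1) / 2 : ℕ) : ℝ) * C ^ 2) :
    ∃ t : Sym2 V → ℕ, (∀ e, t e ≠ 0 → e ∈ G.edgeSet) ∧ ∀ v, mdeg t v = D v := by
  refine exists_mult G side hside D (fun S _ => ?_) ?_
  · have h := hall_L2_bip hG hT hd0 hd side hside (fun v => (D v : ℝ))
      (fun v => Nat.cast_nonneg _) C k hk hD hC hkk S
    unfold Nf at h
    exact_mod_cast h
  · have h := bip_balance hd0 hd side hside (fun v => (D v : ℝ)) C k hk hD
    exact_mod_cast h

end Pool.Agent.UPS3
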