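import Pool.Agent.Lib.MP_876e19_co_ups.InvBase

/-!
# The `j` shortest paths of a Menger system (helper4, TT876)

From a system of `k` internally disjoint paths for every far pair we keep the `j` shortest ones.
Two of them have together at most `2 (n - j) / (k - j + 2)` interior vertices, all `j` of them at
most `j (n - 2) / k`.
-/

set_option autoImplicit false

namespace Pool.Agent.UPS.IB

open Finset

/-- two entries among the `j` smallest ones -/
lemma sorted_pair {j m : ℕ} {h : Fin (j + m) → ℕ} (hm : Monotone h) (h1 : ∀ i, 1 ≤ h i) {N : ℕ}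
    (hN : ∑ i, h i + 2 ≤ N) (a b : Fin j) (hab : a < b) :
    (m + 2) * (h (Fin.castAdd m a) + h (Fin.castAdd m b)) + 2 * j ≤ 2 * N := by
  rw [Fin.sum_univ_add] at hN
  have e1 : m * h (Fin.castAdd m b) ≤ ∑ i : Fin m, h (Fin.natAdd j i) := by
    calc m * h (Fin.castAdd m b) = ∑ _i : Fin m, h (Fin.castAdd m b) := by simp
      _ ≤ ∑ i : Fin m, h (Fin.natAdd j i) := by
          refine Finset.sum_le_sum fun i _ => hm ?_
          rw [Fin.le_def, Fin.val_castAdd, Fin.val_natAdd]
          have := b.2
          omega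
  have e2 : h (Fin.castAdd m a) + h (Fin.castAdd m b) + j ≤
      ∑ i : Fin j, h (Fin.castAdd m i) + 2 := by
    have hne : a ≠ b := hab.ne
    have f1 : ∑ i : Fin j, h (Fin.castAdd m i) =
        h (Fin.castAdd m a) + (h (Fin.castAdd m b) +
          ∑ i ∈ (univ.erase a).erase b, h (Fin.castAdd m i)) := by
      rw [← Finset.add_sum_erase univ _ (Finset.mem_univ a),
        ← Finset.add_sum_erase (univ.erase a) _ (Finset.mem_erase.2 ⟨hne.symm, Finset.mem_univ b⟩)]
    have f2 : ((univ.erase a).erase b).card ≤ ∑ i ∈ (univ.erase a).erase b,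
        h (Fin.castAdd m i) := by
      have := Finset.card_nsmul_le_sum ((univ.erase a).erase b)
        (fun i => h (Fin.castAdd m i)) 1 (fun i _ => h1 _)
      simpa using this
    have f3 : ((univ.erase a).erase b : Finset (Fin j)).card = j - 1 - 1 := by
      rw [Finset.card_erase_of_mem (Finset.mem_erase.2 ⟨hne.symm, Finset.mem_univ b⟩),
        Finset.card_erase_of_mem (Finset.mem_univ a), Finset.card_univ, Fintype.card_fin]
    have ha := a.2
    have hb := b.2
    have : a.val < b.val := hab
    omega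
  have e3 : h (Fin.castAdd m a) ≤ h (Fin.castAdd m b) := hm (by
    rw [Fin.le_def, Fin.val_castAdd, Fin.val_castAdd]; exact hab.le)
  have e4 : m * h (Fin.castAdd m a) ≤ m * h (Fin.castAdd m b) := Nat.mul_le_mul_left _ e3
  nlinarith

/-- the `j` smallest entries are below average -/
lemma sorted_sum {j m : ℕ} {h : Fin (j + m) → ℕ} (hm : Monotone h) :
    (j + m) * ∑ i : Fin j, h (Fin.castAdd m i) ≤ j * ∑ i, h i := by
  rw [Fin.sum_univ_add]
  rcases Nat.eq_zero_or_pos j with rfl | hj
  · simp
  set c : Fin j := ⟨j - 1, by omega⟩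
  have e1 : m * h (Fin.castAdd m c) ≤ ∑ i : Fin m, h (Fin.natAdd j i) := by
    calc m * h (Fin.castAdd m c) = ∑ _i : Fin m, h (Fin.castAdd m c) := by simp
      _ ≤ ∑ i : Fin m, h (Fin.natAdd j i) := by
          refine Finset.sum_le_sum fun i _ => hm ?_
          rw [Fin.le_def, Fin.val_castAdd, Fin.val_natAdd]
          simp only [c]
          omega
  have e2 : ∑ i : Fin j, h (Fin.castAdd m i) ≤ j * h (Fin.castAdd m c) := by
    calc ∑ i : Fin j, h (Fin.castAdd m i) ≤ ∑ _i : Fin j, h (Fin.castAdd m c) := by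
          refine Finset.sum_le_sum fun i _ => hm ?_
          rw [Fin.le_def, Fin.val_castAdd, Fin.val_castAdd]
          simp only [c]
          have := i.2
          omega
      _ = j * h (Fin.castAdd m c) := by simp
  have e3 := Nat.mul_le_mul_left m e2
  have e4 := Nat.mul_le_mul_left j e1
  nlinarith

theorem msys_short {V : Type*} [Fintype V] {G : SimpleGraph V} {k : ℕ} (M : MSys G k) (j : ℕ)
    (hjk : j ≤ k) :
    ∃ M' : MSys G j,
      (∀ x v, Far G x v → ∀ i i', i ≠ i' →
        (k - j + 2) * (((M'.P x v i).length - 1) + ((M'.P x v i').length - 1)) + 2 * j ≤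
          2 * Fintype.card V) ∧
      ∀ x v, Far G x v →
        k * (∑ i, ((M'.P x v i).length - 1)) + 2 * j ≤ j * Fintype.card V := by
  classical
  obtain ⟨m, rfl⟩ := Nat.exists_eq_add_of_le hjk
  let f : V → V → Fin (j + m) → ℕ := fun x v i => (M.P x v i).length - 1
  let σ : ∀ _ _ : V, Equiv.Perm (Fin (j + m)) := fun x v => Tuple.sort (f x v)
  have hmono : ∀ x v, Monotone (f x v ∘ σ x v) := fun x v => Tuple.monotone_sort _
  have hsum : ∀ x v, ∑ i, (f x v ∘ σ x v) i = ∑ i, f x v i := fun x v =>
    Equiv.sum_comp (σ x v) (f x v)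
  have hinj : ∀ x v, Function.Injective fun a : Fin j => σ x v (Fin.castAdd m a) := fun x v a b h =>
    Fin.castAdd_injective j m ((σ x v).injective h)
  have hle : ∀ x v, ∑ a : Fin j, f x v (σ x v (Fin.castAdd m a)) ≤ ∑ i, f x v i := by
    intro x v
    rw [← hsum, Fin.sum_univ_add]
    exact Nat.le_add_right _ _
  refine ⟨⟨fun x v a => M.P x v (σ x v (Fin.castAdd m a)), fun x v i h => M.path x v _ h,
    fun x v i h => M.two x v _ h, ?_, fun x v i h => M.fst x v _ h, fun x v i h => M.lst x v _ h,
    ?_⟩, ?_, ?_⟩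
  · intro x v i i' h w hw hw'
    rcases M.disj x v _ _ h w hw hw' with h1 | h1 | h1
    · exact Or.inl h1
    · exact Or.inr (Or.inl h1)
    · exact Or.inr (Or.inr (hinj x v h1))
  · intro x v h
    exact (Nat.add_le_add_right (hle x v) 2).trans (M.len x v h)
  · have key : ∀ x v, Far G x v → ∀ i i' : Fin j, i < i' →
        (m + 2) * (f x v (σ x v (Fin.castAdd m i)) + f x v (σ x v (Fin.castAdd m i'))) + 2 * j ≤
          2 * Fintype.card V := by
      intro x v h i i' hii
      refine sorted_pair (hmono x v) ?_ ?_ i i' hii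
      · intro a
        have := M.two x v (σ x v a) h
        show 1 ≤ (M.P x v (σ x v a)).length - 1
        omega
      · rw [hsum]
        exact M.len x v h
    intro x v h i i' hii
    have e : j + m - j + 2 = m + 2 := by omega
    rw [e]
    rcases lt_or_gt_of_ne hii with h1 | h1
    · exact key x v h i i' h1
    · have := key x v h i' i h1
      rw [Nat.add_comm (f x v (σ x v (Fin.castAdd m i')))] at this
      exact this
  · intro x v h
    have h1 := sorted_sum (hmono x v)
    rw [hsum] at h1
    have h2 := M.len x v h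
    have h3 : j * (∑ i, f x v i + 2) ≤ j * Fintype.card V := Nat.mul_le_mul_left j h2
    calc (j + m) * (∑ i : Fin j, ((M.P x v (σ x v (Fin.castAdd m i))).length - 1)) + 2 * j
        ≤ j * ∑ i, f x v i + 2 * j := Nat.add_le_add_right h1 _
      _ = j * (∑ i, f x v i + 2) := by ring
      _ ≤ j * Fintype.card V := h3

end Pool.Agent.UPS.IB
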