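import Pool.Agent.Lib.MP_876e19_co_ups.InvGsw
import Pool.Agent.Lib.MP_876e19_co_ups.MSysShort

/-!
# Systems of `j` paths with short pairs (helper85, from helper4's `msys_short`)
-/

set_option autoImplicit false

namespace Pool.Agent.UPS.IB

open Finset

/-- from `k` disjoint paths keep the `j` shortest: two of them have together at most
`2 (n - j) / (k - j + 2)` interior vertices, all of them at most `j (n - 2) / k` -/
theorem exists_short_sys {V : Type*} [Fintype V] {G : SimpleGraph V} {k : ℕ} (M : MSys G k)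
    {j : ℕ} (hj : 0 < j) (hjk : j ≤ k) :
    ∃ M' : MSys G j, PairLe M' (2 * ((Fintype.card V : ℝ) - j) / ((k : ℝ) - j + 2)) ∧
      SumLe M' (j * ((Fintype.card V : ℝ) - 2) / k) := by
  obtain ⟨M', h1, h2⟩ := msys_short M j hjk
  have hj' : (j : ℝ) ≤ k := by exact_mod_cast hjk
  have hk0 : (0 : ℝ) < k := by
    have : (0 : ℝ) < j := by exact_mod_cast hj
    linarith
  refine ⟨M', fun x v h i i' hii => ?_, fun x v h => ?_⟩
  · have h3 := h1 x v h i i' hii
    have h4 : (((k - j + 2 : ℕ) : ℝ)) * ((((M'.P x v i).length - 1 : ℕ) : ℝ) +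
        (((M'.P x v i').length - 1 : ℕ) : ℝ)) + 2 * j ≤ 2 * Fintype.card V := by exact_mod_cast h3
    have h5 : ((k - j + 2 : ℕ) : ℝ) = (k : ℝ) - j + 2 := by
      push_cast [Nat.cast_sub hjk]
      ring
    rw [h5] at h4
    rw [le_div_iff₀ (by linarith)]
    linarith
  · have h3 := h2 x v h
    have h4 : (k : ℝ) * (∑ i, (((M'.P x v i).length - 1 : ℕ) : ℝ)) + 2 * j ≤
        j * Fintype.card V := by exact_mod_cast h3
    rw [le_div_iff₀ hk0]
    linarith

end Pool.Agent.UPS.IB
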