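import Pool.Agent.Lib.MP_876e19_co_ups.BipFin
import Pool.Agent.Lib.MP_876e19_co_ups.InvGsw
import Pool.Agent.Lib.MP_876e19_co_ups.InvSys
import Pool.Agent.Lib.MP_876e19_co_ups.CutSumG
import Pool.Agent.Lib.MP_876e19_co_ups.HallL2

/-!
# Bipartite graphs: from the GSW base to a uniform path system (helper16, TT876)

The tests are the signed indicators of the vertex sets `W`; the union bound over the cuts is
`cut_sum_VT`, the finish is `bip_test_finish`.
-/

set_option autoImplicit false

open Finset Classical Real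

namespace Pool.Agent.UPS3

open Pool.Agent.UPS Pool.Agent.UPS.TS Pool.Agent.UPS.IB

variable {V : Type*} [Fintype V] {G : SimpleGraph V} {k : ℕ}

/-- signed test of `W` on the edges -/
noncomputable def zW (G : SimpleGraph V) (side : V → Bool) (W : Finset V) : Sym2 V → ℝ :=
  Sym2.lift ⟨fun u w => if G.Adj u w then yW side W u + yW side W w else 0, fun u w => by
    by_cases h : G.Adj u w
    · simp only [h, h.symm, if_true]; ring
    · have h' : ¬ G.Adj w u := fun h' => h h'.symm
      simp only [h, h', if_false]⟩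

omit [Fintype V] in
lemma zW_mk (side : V → Bool) (W : Finset V) (u w : V) :
    zW G side W s(u, w) = if G.Adj u w then yW side W u + yW side W w else 0 := by
  simp only [zW, Sym2.lift_mk]

omit [Fintype V] in
lemma zW_of_not_mem (side : V → Bool) (W : Finset V) {e : Sym2 V} (he : e ∉ G.edgeSet) :
    zW G side W e = 0 := by
  induction e with
  | _ u w =>
    rw [zW_mk, if_neg]
    exact he

omit [Fintype V] in
lemma zW_cases {side : V → Bool} (hside : ∀ u v, G.Adj u v → side u ≠ side v) (W : Finset V)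
    (u w : V) (h : G.Adj u w) :
    (yW side W u + yW side W w = 0 ∧ (u ∈ W ↔ w ∈ W)) ∨
    (yW side W u + yW side W w = 1 ∧ ¬ (u ∈ W ↔ w ∈ W)) ∨
    (yW side W u + yW side W w = -1 ∧ ¬ (u ∈ W ↔ w ∈ W)) := by
  have h2 := hside u w h
  unfold yW
  by_cases ha : u ∈ W <;> by_cases hb : w ∈ W <;> cases hsa : side u <;>
    cases hsb : side w <;> simp_all

/-- the number of edges on which the test is non-zero -/
lemma zW_sq_sum {side : V → Bool} (hside : ∀ u v, G.Adj u v → side u ≠ side v) (W : Finset V) :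
    ∑ e, (zW G side W e) ^ 2 = (UPS2.EC.cut G W : ℝ) := by
  have h1 := sum_ordered (G := G) (fun e => (zW G side W e) ^ 2)
    (fun e he => by rw [zW_of_not_mem side W he]; norm_num)
  have h2 : ∀ v w, (if G.Adj v w then (zW G side W s(v, w)) ^ 2 else 0) =
      (if v ∈ W ∧ w ∉ W ∧ G.Adj v w then (1 : ℝ) else 0) +
      (if w ∈ W ∧ v ∉ W ∧ G.Adj w v then (1 : ℝ) else 0) := by
    intro v w
    by_cases h : G.Adj v w
    · rw [if_pos h, zW_mk, if_pos h]
      rcases zW_cases hside W v w h with ⟨e, h3⟩ | ⟨e, h3⟩ | ⟨e, h3⟩ <;> rw [e] <;>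
        by_cases ha : v ∈ W <;> by_cases hb : w ∈ W <;> simp_all [G.adj_comm w v]
    · rw [if_neg h, if_neg fun h' => h h'.2.2, if_neg fun h' => h h'.2.2.symm, add_zero]
  have h3 : ∑ v, ∑ w, (if w ∈ W ∧ v ∉ W ∧ G.Adj w v then (1 : ℝ) else 0) =
      (UPS2.EC.cut G W : ℝ) := by
    rw [sum_comm]
    unfold UPS2.EC.cut
    rw [Fintype.sum_prod_type]
    push_cast
    rfl
  have h4 : ∑ v, ∑ w, (if v ∈ W ∧ w ∉ W ∧ G.Adj v w then (1 : ℝ) else 0) =
      (UPS2.EC.cut G W : ℝ) := by
    unfold UPS2.EC.cut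
    rw [Fintype.sum_prod_type]
    push_cast
    rfl
  simp only [h2, sum_add_distrib] at h1
  rw [h3, h4] at h1
  linarith

lemma dg_eq_ncard (v : V) : UPS2.EC.dg G v = (G.neighborSet v).ncard := by
  unfold UPS2.EC.dg
  rw [sum_boole, Nat.cast_id, ← Set.ncard_coe_finset]
  congr 1
  ext w
  simp

/-- **From the tests to a uniform path system**, bipartite graphs. -/
theorem bip_of_tests (hG : G.Connected) (hT : VT G) (side : V → Bool)
    (hside : ∀ u v, G.Adj u v → side u ≠ side v) {d : ℕ} (hd3 : 3 ≤ d)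
    (hd : ∀ v, UPS2.EC.dg G v = d) (M : MSys G k) (P : ∀ x y : V, G.Walk x y)
    (hB : Base k P) (mu : ℝ)
    (hmu : 2 * mu ≤ (2 * ((Fintype.card V : ℝ) - 1 - d) -
      4 * ((Fintype.card V : ℝ) - 1 - d) / k) / (d - 1) - 1 / d)
    (htest : ∀ W : Finset V, ∑ e, (- zW G side W e * kerr M P e +
      max (zW G side W e) 0 / ((d : ℝ) - 1) * kend M P e) ≤ mu * ∑ e, (zW G side W e) ^ 2) :
    HasUPS G := by
  have hdR3 : (3 : ℝ) ≤ d := by exact_mod_cast hd3
  have hd1 : (0 : ℝ) < (d : ℝ) - 1 := by linarith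
  have hdn : ∀ x, (G.neighborSet x).ncard = d := fun x => by rw [← dg_eq_ncard, hd]
  have hdc : ∀ v, (univ.filter fun w => G.Adj v w).card = d := by
    intro v
    rw [← hd v]
    unfold UPS2.EC.dg
    rw [sum_boole, Nat.cast_id]
  -- two vertices
  obtain ⟨v₀⟩ := hG.nonempty
  have hnb : ∃ w, G.Adj v₀ w := by
    by_contra hcon
    push Not at hcon
    have h1 := hdc v₀
    rw [filter_false_of_mem (fun w _ => hcon w)] at h1
    simp at h1
    omega
  obtain ⟨w₀, hw₀⟩ := hnb
  have : Nontrivial V := ⟨v₀, w₀, hw₀.ne⟩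
  -- a vertex of the side `false`
  obtain ⟨v₁, hv₁⟩ : ∃ v, side v = false := by
    cases h : side v₀ with
    | false => exact ⟨v₀, h⟩
    | true =>
      refine ⟨w₀, ?_⟩
      have := hside v₀ w₀ hw₀
      cases h' : side w₀ with
      | false => rfl
      | true => rw [h, h'] at this; exact absurd rfl this
  have hnd : d + 1 ≤ Fintype.card V := by
    have h1 := card_lt_card (s := univ.filter fun w => G.Adj v₀ w) (t := univ) (by
      rw [ssubset_univ_iff]
      intro h
      have : v₀ ∈ univ.filter fun w => G.Adj v₀ w := by rw [h]; exact mem_univ _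
      simp at this)
    rw [hdc, card_univ] at h1
    omega
  have hnd' : ((Fintype.card V - 1 - d : ℕ) : ℝ) = (Fintype.card V : ℝ) - 1 - d := by
    rw [Nat.cast_sub (by omega), Nat.cast_sub (by omega)]
    simp
  -- the loads
  obtain ⟨c₀, hc₀⟩ := load_kerr hT M
  have hload : ∀ v, (load P v : ℝ) = c₀ + ∑ w, if G.Adj v w then kerr M P s(v, w) else 0 := by
    intro v
    rw [hc₀ P hB.paths v, ← sum_incident (G := G) _ (fun e he => kerr_of_not_mem M P he) v]
  -- the level
  set cZ : ℤ := ⌈c₀ + d * mu⌉ with hcZ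
  have hc1 : c₀ + d * mu ≤ cZ := Int.le_ceil _
  have hc2 : (cZ : ℝ) < c₀ + d * mu + 1 := Int.ceil_lt_add_one _
  set Kb : ℝ := ((cZ : ℝ) - c₀) / d with hKb
  have hdpos : (0 : ℝ) < d := by linarith
  have hKd : (d : ℝ) * Kb = cZ - c₀ := by
    rw [hKb]; field_simp
  have hK1 : mu ≤ Kb := by
    rw [hKb, le_div_iff₀ hdpos]; linarith
  have hK2 : Kb ≤ (2 * ((Fintype.card V : ℝ) - 1 - d) -
      4 * ((Fintype.card V : ℝ) - 1 - d) / k) / (d - 1) - mu := by
    have h1 : Kb ≤ mu + 1 / d := by
      rw [hKb, div_le_iff₀ hdpos]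
      have : (mu + 1 / d) * d = d * mu + 1 := by field_simp
      rw [this]; linarith
    linarith
  have hdeg : ∀ v, ((cZ : ℝ) - load P v) = ∑ w, if G.Adj v w then (Kb - kerr M P s(v, w)) else 0 := by
    intro v
    have h1 : ∀ w, (if G.Adj v w then (Kb - kerr M P s(v, w)) else 0) =
        Kb * (if G.Adj v w then 1 else 0) - (if G.Adj v w then kerr M P s(v, w) else 0) := by
      intro w
      split_ifs <;> ring
    simp only [h1]
    rw [sum_sub_distrib, ← mul_sum, sum_boole, hdc, hload v]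
    linarith
  -- the main inequality
  have main : ∀ W : Finset V, 2 * ∑ v, yW side W v * ((cZ : ℝ) - load P v) ≤
      ∑ p : V × V, if G.Adj p.1 p.2 then
        (2 * ((Fintype.card V : ℝ) - 1 - d) - endK P p.1 p.2) / (d - 1) *
          max (yW side W p.1 + yW side W p.2) 0 else 0 := by
    intro W
    simp only [hdeg]
    rw [bdry_identity (G := G) (fun v w => Kb - kerr M P s(v, w))
      (fun u v => by rw [Sym2.eq_swap]) (yW side W)]
    have hsum : ∑ p : V × V, (if G.Adj p.1 p.2 then
        (- zW G side W s(p.1, p.2) * kerr M P s(p.1, p.2) +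
      max (zW G side W s(p.1, p.2)) 0 / ((d : ℝ) - 1) * kend M P s(p.1, p.2) -
        mu * (zW G side W s(p.1, p.2)) ^ 2) else 0) ≤ 0 := by
      have h1 := sum_ordered (G := G) (fun e => - zW G side W e * kerr M P e +
        max (zW G side W e) 0 / ((d : ℝ) - 1) * kend M P e - mu * (zW G side W e) ^ 2)
        (fun e he => by rw [zW_of_not_mem side W he]; simp)
      rw [Fintype.sum_prod_type]
      rw [h1, sum_sub_distrib, ← mul_sum]
      have := htest W
      linarith
    have hle : ∑ p : V × V, (if G.Adj p.1 p.2 then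
          (Kb - kerr M P s(p.1, p.2)) * (yW side W p.1 + yW side W p.2) else 0) ≤
        ∑ p : V × V, (if G.Adj p.1 p.2 then
        (- zW G side W s(p.1, p.2) * kerr M P s(p.1, p.2) +
      max (zW G side W s(p.1, p.2)) 0 / ((d : ℝ) - 1) * kend M P s(p.1, p.2) -
        mu * (zW G side W s(p.1, p.2)) ^ 2) else 0) +
        ∑ p : V × V, (if G.Adj p.1 p.2 then
        (2 * ((Fintype.card V : ℝ) - 1 - d) - endK P p.1 p.2) / (d - 1) *
          max (yW side W p.1 + yW side W p.2) 0 else 0) := by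
      rw [← sum_add_distrib]
      refine sum_le_sum fun p _ => ?_
      obtain ⟨u, w⟩ := p
      by_cases h : G.Adj u w
      · simp only [h, if_true]
        rw [zW_mk, if_pos h]
        have e1 : (endK P u w : ℝ) = kend M P s(u, w) + mEnd M s(u, w) := by
          have h1 := kills_eq hB h
          unfold kend endK
          rw [← h1]
          push_cast
          ring
        have e2 := mEnd_le M hdn h.ne
        rw [hnd'] at e2
        rw [e1]
        set z := yW side W u + yW side W w with hz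
        have e3 : (2 * ((Fintype.card V : ℝ) - 1 - d) -
            4 * ((Fintype.card V : ℝ) - 1 - d) / k) / (d - 1) ≤
            (2 * ((Fintype.card V : ℝ) - 1 - d) - mEnd M s(u, w)) / (d - 1) := by
          apply div_le_div_of_nonneg_right _ hd1.le
          linarith
        rcases zW_cases hside W u w h with ⟨e, _⟩ | ⟨e, _⟩ | ⟨e, _⟩
        · rw [hz, e]; simp
        · rw [hz, e]
          rw [max_eq_left (zero_le_one)]
          have e4 : (2 * ((Fintype.card V : ℝ) - 1 - d) - (kend M P s(u, w) + mEnd M s(u, w))) /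
              (d - 1) = (2 * ((Fintype.card V : ℝ) - 1 - d) - mEnd M s(u, w)) / (d - 1) -
              kend M P s(u, w) / (d - 1) := by
            rw [← sub_div]; congr 1; ring
          rw [e4]
          have e5 : (1 : ℝ) / (d - 1) * kend M P s(u, w) = kend M P s(u, w) / (d - 1) := by ring
          rw [e5]
          linarith
        · rw [hz, e]
          rw [max_eq_right (by norm_num : (-1 : ℝ) ≤ 0)]
          simp only [zero_div, zero_mul, mul_zero]
          linarith
      · simp only [h, if_false, add_zero, le_refl]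
    linarith
  -- the level is a natural number
  have hpos : (load P v₁ : ℝ) ≤ cZ := by
    have h1 := main {v₁}
    have h2 : ∑ v, yW side {v₁} v * ((cZ : ℝ) - load P v) = - ((cZ : ℝ) - load P v₁) := by
      rw [sum_eq_single v₁]
      · simp [yW, hv₁]
      · intro v _ hv
        simp [yW, hv]
      · intro h; exact absurd (mem_univ _) h
    have h3 : ∑ p : V × V, (if G.Adj p.1 p.2 then
        (2 * ((Fintype.card V : ℝ) - 1 - d) - endK P p.1 p.2) / (d - 1) *
          max (yW side {v₁} p.1 + yW side {v₁} p.2) 0 else 0) = 0 := by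
      refine sum_eq_zero fun p _ => ?_
      have h4 : ∀ v, yW side {v₁} v ≤ 0 := by
        intro v
        unfold yW
        by_cases h : v ∈ ({v₁} : Finset V)
        · rw [if_pos h, mem_singleton.1 h, hv₁]; norm_num
        · rw [if_neg h]
      rw [max_eq_right (add_nonpos (h4 _) (h4 _)), mul_zero, ite_self]
    rw [h2, h3] at h1
    linarith
  have hcZ0 : 0 ≤ cZ := by
    have h1 : (0 : ℝ) ≤ cZ := le_trans (Nat.cast_nonneg _) hpos
    exact_mod_cast h1
  obtain ⟨c, hc⟩ := Int.eq_ofNat_of_zero_le hcZ0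
  have hcR : (cZ : ℝ) = (c : ℝ) := by rw [hc]; simp
  refine bip_test_finish side hside P hB.paths (by omega) hd c ?_ ?_
  · simp only [← hcR]
    exact bip_balance (by omega) hdc side hside (fun v => (cZ : ℝ) - load P v) (cZ - c₀)
      (fun v w => kerr M P s(v, w)) (fun u v => by rw [Sym2.eq_swap])
      (fun v => by rw [hload v]; ring)
  · intro W
    rw [← hcR]
    exact main W

/-- **Bipartite graphs, GSW base.** `Q` is any variance factor for which the tests hold. -/
theorem bip_core (hG : G.Connected) (hT : VT G) (side : V → Bool)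
    (hside : ∀ u v, G.Adj u v → side u ≠ side v) {d : ℕ} (hd3 : 3 ≤ d)
    (hd : ∀ v, UPS2.EC.dg G v = d) (M : MSys G k) (Q mu : ℝ) (hQ : 0 < Q)
    (hmu0 : 0 < mu)
    (hmu : 2 * mu ≤ (2 * ((Fintype.card V : ℝ) - 1 - d) -
      4 * ((Fintype.card V : ℝ) - 1 - d) / k) / (d - 1) - 1 / d)
    (hgsw : ∀ (z : {W : Finset V // W.Nonempty ∧ W ≠ univ} → Sym2 V → ℝ)
      (s : {W : Finset V // W.Nonempty ∧ W ≠ univ} → ℝ),
      ∑ t, exp (Q * (∑ e, z t e ^ 2) / 2 - s t) < 1 →
      ∃ P : ∀ x y : V, G.Walk x y, Base k P ∧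
        ∀ t, ∑ e, (- z t e * kerr M P e + max (z t e) 0 / ((d : ℝ) - 1) * kend M P e) < s t)
    (hnum : (1 + exp (-(mu ^ 2 * d / (4 * Q)))) ^ Fintype.card V +
      (1 - exp (-(mu ^ 2 * d / (4 * Q)))) ^ Fintype.card V - 2 < 1) : HasUPS G := by
  have hlam : 0 < mu / Q := div_pos hmu0 hQ
  have hzs : ∀ W : Finset V, ∑ e, (mu / Q * zW G side W e) ^ 2 =
      (mu / Q) ^ 2 * UPS2.EC.cut G W := by
    intro W
    simp only [mul_pow]
    rw [← mul_sum, zW_sq_sum hside]
  obtain ⟨P, hB, hP⟩ := hgsw (fun W e => mu / Q * zW G side W.1 e)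
    (fun W => mu / Q * (mu * UPS2.EC.cut G W.1)) (by
      refine lt_of_le_of_lt (le_trans (le_of_eq ?_) (UPS2.CS.cut_sum_VT hG hT hd
        (mu ^ 2 / (2 * Q)) (by positivity))) (lt_of_eq_of_lt ?_ hnum)
      · rw [← sum_filter]
        rw [sum_subtype (univ.filter fun S : Finset V => S.Nonempty ∧ S ≠ univ)
          (p := fun S => S.Nonempty ∧ S ≠ univ) (by intro S; simp)]
        refine sum_congr rfl fun W _ => ?_
        rw [hzs]
        congr 1
        field_simp
        ring
      · have : mu ^ 2 / (2 * Q) * ((d : ℝ) / 2) = mu ^ 2 * d / (4 * Q) := by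
          field_simp
          ring
        rw [this])
  refine bip_of_tests hG hT side hside hd3 hd M P hB mu hmu fun W => ?_
  by_cases hW : W.Nonempty ∧ W ≠ univ
  · have h1 := hP ⟨W, hW⟩
    have h2 : ∑ e, (- (mu / Q * zW G side W e) * kerr M P e +
        max (mu / Q * zW G side W e) 0 / ((d : ℝ) - 1) * kend M P e) =
        mu / Q * ∑ e, (- zW G side W e * kerr M P e +
      max (zW G side W e) 0 / ((d : ℝ) - 1) * kend M P e) := by
      rw [mul_sum]
      refine sum_congr rfl fun e _ => ?_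
      have h3 : max (mu / Q * zW G side W e) 0 = mu / Q * max (zW G side W e) 0 := by
        rw [mul_max_of_nonneg _ _ hlam.le, mul_zero]
      rw [h3]
      ring
    simp only at h1
    rw [h2] at h1
    have h4 := lt_of_mul_lt_mul_left h1 hlam.le
    rw [zW_sq_sum hside]
    exact h4.le
  · have hz : ∀ e, zW G side W e = 0 := by
      intro e
      by_cases he : e ∈ G.edgeSet
      · induction e with
        | _ u w =>
          have hadj : G.Adj u w := he
          rw [zW_mk, if_pos hadj]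
          rcases zW_cases hside W u w hadj with ⟨e, _⟩ | ⟨_, h3⟩ | ⟨_, h3⟩
          · exact e
          · exfalso
            apply h3
            rw [not_and_or, not_nonempty_iff_eq_empty, not_not] at hW
            rcases hW with hW | hW <;> rw [hW] <;> simp
          · exfalso
            apply h3
            rw [not_and_or, not_nonempty_iff_eq_empty, not_not] at hW
            rcases hW with hW | hW <;> rw [hW] <;> simp
      · exact zW_of_not_mem side W he
    simp [hz]

/-- **Bipartite graphs, numerical criterion** for a Menger system with `k` paths. -/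
theorem bip_main_LS (hG : G.Connected) (hT : VT G) (side : V → Bool)
    (hside : ∀ u v, G.Adj u v → side u ≠ side v) {d : ℕ} (hd3 : 3 ≤ d)
    (hd : ∀ v, UPS2.EC.dg G v = d) (hk : 0 < k) (hkd : k ≤ d) (M : MSys G k) {L S : ℝ}
    (hL : PairLe M L) (hS : SumLe M S) (hL2 : 2 ≤ L) (hSk : k < S) (mu : ℝ) (hmu0 : 0 < mu)
    (hmu : 2 * mu ≤ (2 * ((Fintype.card V : ℝ) - 1 - d) -
      4 * ((Fintype.card V : ℝ) - 1 - d) / k) / (d - 1) - 1 / d)
    (hnum : (1 + exp (-(mu ^ 2 * d / (4 * (W1 S k d + W2 L d))))) ^ Fintype.card V +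
      (1 - exp (-(mu ^ 2 * d / (4 * (W1 S k d + W2 L d))))) ^ Fintype.card V - 2 < 1) :
    HasUPS G := by
  have hdn : ∀ x, (G.neighborSet x).ncard = d := fun x => by rw [← dg_eq_ncard, hd]
  have hdR3 : (3 : ℝ) ≤ d := by exact_mod_cast hd3
  have hQ : 0 < W1 S k d + W2 L d := by
    have h1 : 0 ≤ W1 S k d := sq_nonneg _
    have h2 : 0 < W2 L d := by
      unfold W2
      have : 0 < 1 / (2 * ((d : ℝ) - 1)) := by
        apply div_pos one_pos
        linarith
      positivity
    linarith
  exact bip_core hG hT side hside hd3 hd M _ mu hQ hmu0 hmu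
    (fun z s h => cut_tests_LS hdn hd3 hk hkd M hL hS hL2 hSk z s h) hnum

/-- **Bipartite graphs, the four shortest of `κ` Menger paths.** -/
theorem bip_main_four (hG : G.Connected) (hT : VT G) (side : V → Bool)
    (hside : ∀ u v, G.Adj u v → side u ≠ side v) {d : ℕ} (hd4 : 4 ≤ d)
    (hd : ∀ v, UPS2.EC.dg G v = d) {κ : ℕ} (hκ4 : 4 ≤ κ) (hκd : κ ≤ d) (M : MSys G κ)
    (hn : 4 * d ≤ Fintype.card V) (mu : ℝ) (hmu0 : 0 < mu)
    (hmu : mu ≤ ((Fintype.card V : ℝ) - 1 - d) / (2 * (d - 1)) - 1 / (2 * d))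
    (hnum : (1 + exp (-(mu ^ 2 * d / (4 * (W1 (4 * ((Fintype.card V : ℝ) - 2) / κ) 4 d +
        W2 (2 * ((Fintype.card V : ℝ) - 4) / ((κ : ℝ) - 2)) d))))) ^ Fintype.card V +
      (1 - exp (-(mu ^ 2 * d / (4 * (W1 (4 * ((Fintype.card V : ℝ) - 2) / κ) 4 d +
        W2 (2 * ((Fintype.card V : ℝ) - 4) / ((κ : ℝ) - 2)) d))))) ^ Fintype.card V - 2 < 1) :
    HasUPS G := by
  have hdR : (4 : ℝ) ≤ d := by exact_mod_cast hd4
  have hκR : (4 : ℝ) ≤ κ := by exact_mod_cast hκ4
  have hκdR : (κ : ℝ) ≤ d := by exact_mod_cast hκd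
  have hnR : 4 * (d : ℝ) ≤ Fintype.card V := by exact_mod_cast hn
  obtain ⟨M', hL, hS⟩ := exists_short_sys M (j := 4) (by norm_num) hκ4
  have e1 : 2 * ((Fintype.card V : ℝ) - (4 : ℕ)) / ((κ : ℝ) - (4 : ℕ) + 2) =
      2 * ((Fintype.card V : ℝ) - 4) / ((κ : ℝ) - 2) := by
    push_cast
    congr 1
    ring
  rw [e1] at hL
  have e2 : ((4 : ℕ) : ℝ) * ((Fintype.card V : ℝ) - 2) / κ =
      4 * ((Fintype.card V : ℝ) - 2) / κ := by
    push_cast
    ring
  rw [e2] at hS
  refine bip_main_LS hG hT side hside (by omega) hd (by norm_num) (by omega) M' hL hS ?_ ?_ mu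
    hmu0 ?_ hnum
  · rw [le_div_iff₀ (by linarith)]
    nlinarith
  · rw [lt_div_iff₀ (by linarith)]
    push_cast
    nlinarith
  · have h1 : (2 * ((Fintype.card V : ℝ) - 1 - d) -
      4 * ((Fintype.card V : ℝ) - 1 - d) / ((4 : ℕ) : ℝ)) / ((d : ℝ) - 1) - 1 / d =
      2 * (((Fintype.card V : ℝ) - 1 - d) / (2 * (d - 1)) - 1 / (2 * d)) := by
      have hd1 : (d : ℝ) - 1 ≠ 0 := by linarith
      have hd0 : (d : ℝ) ≠ 0 := by linarith
      push_cast
      field_simp
      ring
    rw [h1]
    linarith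

end Pool.Agent.UPS3
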