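import Pool.Agent.Lib.MP_876e19_co_ups.Rows
import Pool.Agent.Lib.MP_876e19_co_ups.EdgeConn

/-!
# The correction theorem (one stage, all graphs)

`rows_w` : the rows theorem with a uniform part, `correction` : only Hall's condition for the
required numbers.
-/

set_option autoImplicit false

open Finset

namespace Pool.Agent.HTutte

open UPS2.EC

variable {X V : Type*} [Fintype X] [DecidableEq X] [Fintype V] [DecidableEq V]

open Classical in
/-- number of rows in which `v w` is available -/
noncomputable def av (A : X → SimpleGraph V) (v w : V) : ℕ :=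
  (univ.filter fun x => (A x).Adj v w).card

omit [DecidableEq X] [Fintype V] [DecidableEq V] in
theorem av_symm (A : X → SimpleGraph V) (v w : V) : av A v w = av A w v := by
  classical
  unfold av
  congr 1
  ext x
  simp [SimpleGraph.adj_comm]

/-- **Rows theorem with a uniform part.** `w` real weights on the edges of the graphs `A x`, row
sums at most `1 - η`, column sums `D v - 1`. -/
theorem rows_w [Nontrivial V] (G : SimpleGraph V) {d : ℕ} (hd0 : 0 < d) (hd : ∀ v, dg G v = d)
    (hcut : ∀ S : Finset V, S.Nonempty → S ≠ univ → d ≤ cut G S)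
    (A : X → SimpleGraph V) (hAG : ∀ x v w, (A x).Adj v w → G.Adj v w) {r : ℕ}
    (hAd : ∀ x v, dg (A x) v ≤ r) {a : ℕ} (ha : 0 < a) (hav : ∀ v w, G.Adj v w → a ≤ av A v w)
    (D : V → ℕ) (heven : Even (∑ v, D v)) (η : ℝ) (hη : 2 * (r : ℝ) ≤ η * d * a)
    (w : X → V → V → ℝ) (hw0 : ∀ x u v, 0 ≤ w x u v) (hws : ∀ x u v, w x u v = w x v u)
    (hwA : ∀ x u v, ¬ (A x).Adj u v → w x u v = 0) (hrow : ∀ x v, ∑ u, w x v u ≤ 1 - η)
    (hcol : ∀ v, ∑ x, ∑ u, w x v u = (D v : ℝ) - 1) :
    ∃ σ : X → Equiv.Perm V, (∀ x v, σ x v = v ∨ (A x).Adj v (σ x v)) ∧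
      ∀ v, (univ.filter fun x => σ x v ≠ v).card = D v := by
  classical
  have hdR : (0 : ℝ) < d := by exact_mod_cast hd0
  have haR : (0 : ℝ) < a := by exact_mod_cast ha
  have havR : ∀ v w, G.Adj v w → (0 : ℝ) < av A v w := fun v w h => by
    have := hav v w h
    have h2 : 0 < av A v w := by omega
    exact_mod_cast h2
  let u : X → V → V → ℝ := fun x v w => if (A x).Adj v w then 1 / (d * av A v w) else 0
  have hu0 : ∀ x v w, 0 ≤ u x v w := by
    intro x v w
    simp only [u]
    split_ifs
    · positivity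
    · exact le_refl _
  have hus : ∀ x v w, u x v w = u x w v := by
    intro x v w
    simp only [u]
    rw [av_symm A v w]
    exact if_congr (SimpleGraph.adj_comm _ _ _) rfl rfl
  -- row sums of `u`
  have hurow : ∀ x v, ∑ w, u x v w ≤ r / (d * a) := by
    intro x v
    calc ∑ w, u x v w ≤ ∑ w, (if (A x).Adj v w then 1 / ((d : ℝ) * a) else 0) := by
          refine Finset.sum_le_sum fun w _ => ?_
          simp only [u]
          split_ifs with h
          · have h1 := hav v w (hAG x v w h)
            have h2 : (a : ℝ) ≤ av A v w := by exact_mod_cast h1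
            exact one_div_le_one_div_of_le (by positivity)
              (mul_le_mul_of_nonneg_left h2 hdR.le)
          · exact le_refl _
      _ = dg (A x) v * (1 / ((d : ℝ) * a)) := by
          rw [← Finset.sum_filter, Finset.sum_const, nsmul_eq_mul]
          congr 1
          rw [dg, Finset.card_filter]
      _ ≤ r * (1 / ((d : ℝ) * a)) := by
          refine mul_le_mul_of_nonneg_right ?_ (by positivity)
          exact_mod_cast hAd x v
      _ = r / (d * a) := by ring
  -- sum of `u` over the rows
  have hucol : ∀ v w, ∑ x, u x v w = if G.Adj v w then 1 / (d : ℝ) else 0 := by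
    intro v w
    simp only [u]
    rw [← Finset.sum_filter, Finset.sum_const, nsmul_eq_mul]
    split_ifs with h
    · have h1 := havR v w h
      have h2 : ((univ.filter fun x => (A x).Adj v w).card : ℝ) = av A v w := rfl
      rw [h2]
      field_simp
    · have : (univ.filter fun x => (A x).Adj v w) = ∅ := by
        rw [Finset.filter_eq_empty_iff]
        intro x _ hx
        exact h (hAG x v w hx)
      rw [this]
      simp
  refine rows A (fun x v z => w x v z + u x v z) u D ?_ hus ?_ hu0 ?_ ?_ ?_ ?_ heven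
  · intro x v z
    rw [hws, hus]
  · intro x v z h
    rw [hwA x v z h]
    simp only [u]
    rw [if_neg h, add_zero]
  · intro x v z
    have := hw0 x v z
    linarith
  · intro x v
    rw [Finset.sum_add_distrib]
    have h1 := hrow x v
    have h2 := hurow x v
    have h3 : 2 * ((r : ℝ) / (d * a)) ≤ η := by
      rw [← mul_div_assoc, div_le_iff₀ (by positivity)]
      linarith
    linarith
  · intro v
    have h1 : ∑ x, ∑ z, (w x v z + u x v z) = ∑ x, ∑ z, w x v z + ∑ x, ∑ z, u x v z := by
      rw [← Finset.sum_add_distrib]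
      exact Finset.sum_congr rfl fun x _ => Finset.sum_add_distrib
    rw [h1, hcol, Finset.sum_comm (f := fun x z => u x v z), Finset.sum_congr rfl fun z _ =>
      hucol v z, ← Finset.sum_filter, Finset.sum_const, nsmul_eq_mul]
    have h2 : ((univ.filter fun z => G.Adj v z).card : ℝ) = d := by
      have := hd v
      rw [dg, ← Finset.card_filter] at this
      exact_mod_cast this
    rw [h2]
    field_simp
    ring
  · intro V1 h1 h2
    have hne : V1 ≠ univ := by
      rintro rfl
      rw [Finset.compl_univ] at h2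
      exact Finset.not_nonempty_empty h2
    have hc := hcut V1 h1 hne
    have hcR : (d : ℝ) ≤ cut G V1 := by exact_mod_cast hc
    have h3 : ∑ x, ∑ v ∈ V1, ∑ z ∈ V1ᶜ, u x v z = cut G V1 * (1 / (d : ℝ)) := by
      rw [Finset.sum_comm, cut_eq, Nat.cast_sum, Finset.sum_mul]
      refine Finset.sum_congr rfl fun v _ => ?_
      rw [Finset.sum_comm, Nat.cast_sum, Finset.sum_mul]
      rw [← Finset.sum_subset (Finset.subset_univ V1ᶜ)]
      · refine Finset.sum_congr rfl fun z hz => ?_
        rw [hucol]
        rw [Finset.mem_compl] at hz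
        by_cases h : G.Adj v z
        · rw [if_pos h, if_pos ⟨hz, h⟩, Nat.cast_one, one_mul]
        · rw [if_neg h, if_neg fun h' => h h'.2, Nat.cast_zero, zero_mul]
      · intro z _ hz
        rw [Finset.mem_compl, not_not] at hz
        rw [if_neg fun h' => h'.1 hz, Nat.cast_zero, zero_mul]
    rw [h3, mul_one_div, le_div_iff₀ hdR, one_mul]
    exact hcR

open Classical in
/-- neighbourhood of a set -/
noncomputable def nb (G : SimpleGraph V) (U : Finset V) : Finset V :=
  univ.filter fun w => ∃ v ∈ U, G.Adj v w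

/-- Hall's theorem for integral arc weights. -/
theorem arcs (G : SimpleGraph V) (f : V → ℕ)
    (hH : ∀ U : Finset V, ∑ v ∈ U, f v ≤ ∑ v ∈ nb G U, f v) :
    ∃ k : V → V → ℕ, (∀ v w, k v w ≠ 0 → G.Adj v w) ∧ (∀ v, ∑ w, k v w = f v) ∧
      ∀ w, ∑ v, k v w = f w := by
  classical
  let t : (Σ v : V, Fin (f v)) → Finset (Σ v : V, Fin (f v)) := fun p =>
    univ.filter fun q => G.Adj p.1 q.1
  have hall : ∀ s : Finset (Σ v : V, Fin (f v)), s.card ≤ (s.biUnion t).card := by
    intro s
    set U := s.image Sigma.fst with hU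
    have h1 : s.card ≤ ∑ v ∈ U, f v := by
      have : s ⊆ U.sigma fun v => (univ : Finset (Fin (f v))) := by
        intro p hp
        rw [Finset.mem_sigma]
        exact ⟨Finset.mem_image_of_mem _ hp, Finset.mem_univ _⟩
      refine (Finset.card_le_card this).trans ?_
      rw [Finset.card_sigma]
      simp
    have h2 : ∑ v ∈ nb G U, f v ≤ (s.biUnion t).card := by
      have : ((nb G U).sigma fun v => (univ : Finset (Fin (f v)))) ⊆ s.biUnion t := by
        intro q hq
        rw [Finset.mem_sigma] at hq
        obtain ⟨v, hv, hvq⟩ := (Finset.mem_filter.1 hq.1).2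
        obtain ⟨p, hp, rfl⟩ := Finset.mem_image.1 hv
        exact Finset.mem_biUnion.2 ⟨p, hp, Finset.mem_filter.2 ⟨Finset.mem_univ _, hvq⟩⟩
      refine le_trans ?_ (Finset.card_le_card this)
      rw [Finset.card_sigma]
      simp
    exact h1.trans ((hH U).trans h2)
  obtain ⟨g, hg, hgt⟩ := (Finset.all_card_le_biUnion_card_iff_exists_injective t).1 hall
  have hgb := Finite.injective_iff_bijective.1 hg
  refine ⟨fun v w => (univ.filter fun i : Fin (f v) => (g ⟨v, i⟩).1 = w).card, ?_, ?_, ?_⟩
  · intro v w h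
    obtain ⟨i, hi⟩ := Finset.card_ne_zero.1 h
    have h1 := (Finset.mem_filter.1 (hgt ⟨v, i⟩)).2
    rw [(Finset.mem_filter.1 hi).2] at h1
    exact h1
  · intro v
    have := Finset.card_eq_sum_card_fiberwise (s := (univ : Finset (Fin (f v))))
      (f := fun i => (g ⟨v, i⟩).1) (t := univ) (fun _ _ => Finset.mem_coe.2 (Finset.mem_univ _))
    rw [Finset.card_univ, Fintype.card_fin] at this
    exact this.symm
  · intro w
    have h1 : ∑ v, (univ.filter fun i : Fin (f v) => (g ⟨v, i⟩).1 = w).card =
        (univ.filter fun p : (Σ v : V, Fin (f v)) => (g p).1 = w).card := by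
      rw [Finset.card_filter, Fintype.sum_sigma]
      refine Finset.sum_congr rfl fun v _ => ?_
      rw [Finset.card_filter]
    rw [h1]
    have h2 : (univ.filter fun p : (Σ v : V, Fin (f v)) => (g p).1 = w).card =
        (univ.filter fun q : (Σ v : V, Fin (f v)) => q.1 = w).card := by
      refine Finset.card_bij (fun p _ => g p) ?_ ?_ ?_
      · intro p hp
        exact Finset.mem_filter.2 ⟨Finset.mem_univ _, (Finset.mem_filter.1 hp).2⟩
      · intro p _ q _ h
        exact hg h
      · intro q hq
        obtain ⟨p, rfl⟩ := hgb.2 q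
        exact ⟨p, Finset.mem_filter.2 ⟨Finset.mem_univ _, (Finset.mem_filter.1 hq).2⟩, rfl⟩
    rw [h2, Finset.card_filter, Fintype.sum_sigma, Finset.sum_eq_single w]
    · simp
    · intro v _ hv
      refine Finset.sum_eq_zero fun i _ => ?_
      rw [if_neg hv]
    · intro h
      exact absurd (Finset.mem_univ _) h

/-- **Correction theorem, one stage, all graphs** (bipartite or not): `G` is `d`-regular and
`d`-edge-connected, `A x ≤ G` with at most `d - 1` edges at every vertex, every edge is in at least
`a` of the `A x`; `1 ≤ D v ≤ a - 1`, `∑ D` even, and `D - 1` satisfies Hall's condition. -/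
theorem correction [Nontrivial V] (G : SimpleGraph V) {d : ℕ} (hd0 : 0 < d) (hd : ∀ v, dg G v = d)
    (hcut : ∀ S : Finset V, S.Nonempty → S ≠ univ → d ≤ cut G S)
    (A : X → SimpleGraph V) (hAG : ∀ x v w, (A x).Adj v w → G.Adj v w)
    (hAd : ∀ x v, dg (A x) v ≤ d - 1) {a : ℕ} (hav : ∀ v w, G.Adj v w → a ≤ av A v w)
    (D : V → ℕ) (heven : Even (∑ v, D v)) (hD1 : ∀ v, 1 ≤ D v) (hDa : ∀ v, D v + 1 ≤ a)
    (hHall : ∀ U : Finset V, ∑ v ∈ U, (D v - 1) ≤ ∑ v ∈ nb G U, (D v - 1)) :
    ∃ σ : X → Equiv.Perm V, (∀ x v, σ x v = v ∨ (A x).Adj v (σ x v)) ∧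
      ∀ v, (univ.filter fun x => σ x v ≠ v).card = D v := by
  classical
  obtain ⟨k, hk1, hk2, hk3⟩ := arcs G (fun v => D v - 1) hHall
  have hdR : (0 : ℝ) < d := by exact_mod_cast hd0
  obtain ⟨v0⟩ : Nonempty V := inferInstance
  have ha2 : 2 ≤ a := by
    have h1 := hD1 v0
    have h2 := hDa v0
    omega
  have haR : (0 : ℝ) < a := by
    have : 0 < a := by omega
    exact_mod_cast this
  let K : V → V → ℝ := fun v w => ((k v w : ℝ) + k w v) / 2
  have hK0 : ∀ v w, 0 ≤ K v w := fun v w => by positivity
  have hKs : ∀ v w, K v w = K w v := fun v w => by simp only [K]; ring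
  have hKG : ∀ v w, ¬ G.Adj v w → K v w = 0 := by
    intro v w h
    have h1 : k v w = 0 := by
      by_contra h'
      exact h (hk1 v w h')
    have h2 : k w v = 0 := by
      by_contra h'
      exact h (hk1 w v h').symm
    simp [K, h1, h2]
  have hKD : ∀ v, ∑ w, K v w = (D v : ℝ) - 1 := by
    intro v
    simp only [K]
    rw [← Finset.sum_div, Finset.sum_add_distrib]
    have e1 : ∑ w, (k v w : ℝ) = (D v : ℝ) - 1 := by
      rw [← Nat.cast_sum, hk2, Nat.cast_sub (hD1 v), Nat.cast_one]
    have e2 : ∑ w, (k w v : ℝ) = (D v : ℝ) - 1 := by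
      rw [← Nat.cast_sum, hk3, Nat.cast_sub (hD1 v), Nat.cast_one]
    rw [e1, e2]
    ring
  have havR : ∀ v w, G.Adj v w → (a : ℝ) ≤ av A v w := fun v w h => by exact_mod_cast hav v w h
  refine rows_w G hd0 hd hcut A hAG hAd (by omega) hav D heven (2 / a) ?_
    (fun x v w => if (A x).Adj v w then K v w / av A v w else 0) ?_ ?_ ?_ ?_ ?_
  · rw [div_mul_eq_mul_div, div_mul_cancel₀ _ haR.ne']
    have : ((d - 1 : ℕ) : ℝ) ≤ d := by exact_mod_cast Nat.sub_le d 1
    linarith
  · intro x v w
    split_ifs
    · exact div_nonneg (hK0 _ _) (Nat.cast_nonneg _)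
    · exact le_refl _
  · intro x v w
    rw [hKs v w, av_symm A v w]
    exact if_congr (SimpleGraph.adj_comm _ _ _) rfl rfl
  · intro x v w h
    rw [if_neg h]
  · intro x v
    calc ∑ w, (if (A x).Adj v w then K v w / av A v w else 0) ≤ ∑ w, K v w / a := by
          refine Finset.sum_le_sum fun w _ => ?_
          split_ifs with h
          · exact div_le_div_of_nonneg_left (hK0 _ _) haR (havR v w (hAG x v w h))
          · exact div_nonneg (hK0 _ _) haR.le
      _ = ((D v : ℝ) - 1) / a := by
          rw [← Finset.sum_div, hKD]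
      _ ≤ 1 - 2 / a := by
          have h1 : ((D v : ℝ) + 1) ≤ a := by exact_mod_cast hDa v
          rw [div_le_iff₀ haR]
          have h2 : (1 - 2 / (a : ℝ)) * a = a - 2 := by
            field_simp
          rw [h2]
          linarith
  · intro v
    rw [← hKD v, Finset.sum_comm]
    refine Finset.sum_congr rfl fun w _ => ?_
    rw [← Finset.sum_filter, Finset.sum_const, nsmul_eq_mul]
    by_cases h : G.Adj v w
    · have h1 : (0 : ℝ) < av A v w := haR.trans_le (havR v w h)
      have h2 : ((univ.filter fun x => (A x).Adj v w).card : ℝ) = av A v w := rfl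
      rw [h2, mul_div_cancel₀ _ h1.ne']
    · rw [hKG v w h]
      simp

end Pool.Agent.HTutte
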