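import Mathlib

/-!
# Real edge weights with prescribed degrees in a box (helper16, TT876)

`degE K v` is the sum of `K e` over the edges `e ∋ v`.

* `kkt`: the minimiser of `∑ (D - deg K)²` over the box `0 ≤ K ≤ cap` satisfies complementary
  slackness.
* `realK`: if `∑ y D ≤ ∑ cap z⁺` for all `y : V → {-1,0,1}`, `z = y u + y w`, then `deg K = D` is
  solvable.
* `realK_bip`: bipartite form with the cut conditions of all vertex sets `W`.
-/

set_option autoImplicit false

open Finset Classical

namespace Pool.Agent.UPS3

variable {V : Type*} [Fintype V]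

/-- degree of the edge weights `K` at `v` -/
noncomputable def degE (K : Sym2 V → ℝ) (v : V) : ℝ :=
  ∑ e ∈ univ.filter (fun e : Sym2 V => v ∈ e), K e

lemma degE_update (K : Sym2 V → ℝ) (e₀ : Sym2 V) (ε : ℝ) (v : V) :
    degE (Function.update K e₀ (K e₀ + ε)) v = degE K v + if v ∈ e₀ then ε else 0 := by
  unfold degE
  by_cases h : v ∈ e₀
  · have hmem : e₀ ∈ univ.filter (fun e : Sym2 V => v ∈ e) := by simp [h]
    rw [← add_sum_erase _ _ hmem, ← add_sum_erase _ _ hmem, Function.update_self, if_pos h]
    have : ∑ e ∈ (univ.filter (fun e : Sym2 V => v ∈ e)).erase e₀,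
        Function.update K e₀ (K e₀ + ε) e =
        ∑ e ∈ (univ.filter (fun e : Sym2 V => v ∈ e)).erase e₀, K e := by
      refine sum_congr rfl fun e he => ?_
      rw [Function.update_of_ne (ne_of_mem_erase he)]
    rw [this]; ring
  · rw [if_neg h, add_zero]
    refine sum_congr rfl fun e he => ?_
    rw [Function.update_of_ne]
    rintro rfl
    exact h (mem_filter.1 he).2

/-- the sum over the edges at `v` as a sum over the other ends -/
lemma degE_eq (K : Sym2 V → ℝ) (hdiag : ∀ v, K s(v, v) = 0) (v : V) :
    degE K v = ∑ w, K s(v, w) := by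
  unfold degE
  have h1 : univ.filter (fun e : Sym2 V => v ∈ e) = univ.image fun w => s(v, w) := by
    ext e
    simp only [mem_filter, mem_univ, true_and, mem_image]
    constructor
    · intro h
      obtain ⟨w, rfl⟩ := Sym2.mem_iff_exists.1 h
      exact ⟨w, rfl⟩
    · rintro ⟨w, rfl⟩
      simp
  rw [h1, sum_image fun a _ b _ h => Sym2.congr_right.1 h]

lemma kkt (cap : Sym2 V → ℝ) (hcap0 : ∀ e, 0 ≤ cap e) (D : V → ℝ) :
    ∃ K : Sym2 V → ℝ, (∀ e, 0 ≤ K e ∧ K e ≤ cap e) ∧ ∀ a b, a ≠ b →
      (0 < (D a - degE K a) + (D b - degE K b) → K s(a, b) = cap s(a, b)) ∧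
      ((D a - degE K a) + (D b - degE K b) < 0 → K s(a, b) = 0) := by
  let φ : (Sym2 V → ℝ) → ℝ := fun K => ∑ v, (D v - degE K v) ^ 2
  have hφ : Continuous φ := by
    refine continuous_finset_sum _ fun v _ => ?_
    refine Continuous.pow (continuous_const.sub ?_) 2
    unfold degE
    exact continuous_finset_sum _ fun e _ => continuous_apply e
  have hne : (Set.Icc (0 : Sym2 V → ℝ) cap).Nonempty := ⟨0, le_rfl, fun e => hcap0 e⟩
  obtain ⟨K, hK, hmin⟩ := (isCompact_Icc (a := (0 : Sym2 V → ℝ)) (b := cap)).exists_isMinOn hne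
    hφ.continuousOn
  have hK0 : ∀ e, 0 ≤ K e := fun e => hK.1 e
  have hK1 : ∀ e, K e ≤ cap e := fun e => hK.2 e
  -- change of `φ`
  have hchange : ∀ a b, a ≠ b → ∀ ε : ℝ, φ (Function.update K s(a, b) (K s(a, b) + ε)) =
      φ K - 2 * ε * ((D a - degE K a) + (D b - degE K b)) + 2 * ε ^ 2 := by
    intro a b hab ε
    have h1 : ∀ v, (D v - degE (Function.update K s(a, b) (K s(a, b) + ε)) v) ^ 2 =
        (D v - degE K v) ^ 2 + ((if v = a then -2 * ε * (D a - degE K a) + ε ^ 2 else 0) +
          (if v = b then -2 * ε * (D b - degE K b) + ε ^ 2 else 0)) := by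
      intro v
      rw [degE_update]
      by_cases ha : v = a
      · subst ha
        rw [if_pos (by simp), if_pos rfl, if_neg hab]
        ring
      · by_cases hb : v = b
        · subst hb
          rw [if_pos (by simp), if_neg ha, if_pos rfl]
          ring
        · rw [if_neg (by simp [ha, hb]), if_neg ha, if_neg hb]
          ring
    change ∑ v, _ = _
    rw [sum_congr rfl fun v _ => h1 v, sum_add_distrib, sum_add_distrib, sum_ite_eq' univ a,
      sum_ite_eq' univ b]
    simp only [mem_univ, if_true, φ]
    ring
  have hin : ∀ a b, ∀ ε : ℝ, 0 ≤ K s(a, b) + ε → K s(a, b) + ε ≤ cap s(a, b) →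
      Function.update K s(a, b) (K s(a, b) + ε) ∈ Set.Icc (0 : Sym2 V → ℝ) cap := by
    intro a b ε h0 h1
    constructor
    · intro e
      by_cases h : e = s(a, b)
      · rw [h, Function.update_self]; exact h0
      · rw [Function.update_of_ne h]; exact hK0 e
    · intro e
      by_cases h : e = s(a, b)
      · rw [h, Function.update_self]; exact h1
      · rw [Function.update_of_ne h]; exact hK1 e
  refine ⟨K, fun e => ⟨hK0 e, hK1 e⟩, fun a b hab => ⟨fun hpos => ?_, fun hneg => ?_⟩⟩
  · by_contra hcon
    have hlt : K s(a, b) < cap s(a, b) := lt_of_le_of_ne (hK1 _) hcon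
    set S := (D a - degE K a) + (D b - degE K b) with hS
    set ε := min (cap s(a, b) - K s(a, b)) (S / 2) with hε
    have hε0 : 0 < ε := lt_min (by linarith) (by linarith)
    have h1 : ε ≤ cap s(a, b) - K s(a, b) := min_le_left _ _
    have h2 : ε ≤ S / 2 := min_le_right _ _
    have h3 := hmin (hin a b ε (by linarith [hK0 s(a, b)]) (by linarith))
    have h4 : φ K ≤ φ (Function.update K s(a, b) (K s(a, b) + ε)) := h3
    rw [hchange a b hab ε, ← hS] at h4
    nlinarith
  · by_contra hcon
    have hlt : 0 < K s(a, b) := lt_of_le_of_ne (hK0 _) (Ne.symm hcon)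
    set S := (D a - degE K a) + (D b - degE K b) with hS
    set ε := min (K s(a, b)) (-S / 2) with hε
    have hε0 : 0 < ε := lt_min hlt (by linarith)
    have h1 : ε ≤ K s(a, b) := min_le_left _ _
    have h2 : ε ≤ -S / 2 := min_le_right _ _
    have h3 := hmin (hin a b (-ε) (by linarith) (by linarith [hK1 s(a, b)]))
    have h4 : φ K ≤ φ (Function.update K s(a, b) (K s(a, b) + -ε)) := h3
    rw [hchange a b hab (-ε), ← hS] at h4
    nlinarith

/-- boundary identity -/
lemma sum_degE (K : Sym2 V → ℝ) (hdiag : ∀ v, K s(v, v) = 0) (y : V → ℝ) :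
    2 * ∑ v, y v * degE K v = ∑ p : V × V, K s(p.1, p.2) * (y p.1 + y p.2) := by
  have h1 : ∑ v, y v * degE K v = ∑ p : V × V, K s(p.1, p.2) * y p.1 := by
    rw [Fintype.sum_prod_type]
    refine sum_congr rfl fun v _ => ?_
    rw [degE_eq K hdiag, mul_sum]
    exact sum_congr rfl fun w _ => mul_comm _ _
  have h2 : ∑ v, y v * degE K v = ∑ p : V × V, K s(p.1, p.2) * y p.2 := by
    rw [Fintype.sum_prod_type, sum_comm]
    refine sum_congr rfl fun v _ => ?_
    rw [degE_eq K hdiag, mul_sum]
    refine sum_congr rfl fun w _ => ?_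
    rw [Sym2.eq_swap]; exact mul_comm _ _
  rw [two_mul]
  nth_rewrite 1 [h1]
  rw [h2, ← sum_add_distrib]
  exact sum_congr rfl fun p _ => by ring

/-- **Real weights in a box, all graphs.** -/
theorem realK (cap : Sym2 V → ℝ) (hcap0 : ∀ e, 0 ≤ cap e) (hdiag : ∀ v, cap s(v, v) = 0)
    (D : V → ℝ)
    (h : ∀ y : V → ℝ, (∀ v, y v = -1 ∨ y v = 0 ∨ y v = 1) →
      2 * ∑ v, y v * D v ≤ ∑ p : V × V, cap s(p.1, p.2) * max (y p.1 + y p.2) 0) :
    ∃ K : Sym2 V → ℝ, (∀ e, 0 ≤ K e ∧ K e ≤ cap e) ∧ ∀ v, degE K v = D v := by
  obtain ⟨K, hK, hkkt⟩ := kkt cap hcap0 D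
  refine ⟨K, hK, ?_⟩
  set r : V → ℝ := fun v => D v - degE K v with hr
  have hKd : ∀ v, K s(v, v) = 0 := fun v =>
    le_antisymm ((hK _).2.trans (hdiag v).le) (hK _).1
  let y : V → ℝ := fun v => SignType.sign (r v)
  have hy : ∀ v, y v = -1 ∨ y v = 0 ∨ y v = 1 := by
    intro v
    simp only [y]
    rcases lt_trichotomy (r v) 0 with h1 | h1 | h1
    · left; rw [sign_neg h1]; simp
    · right; left; rw [h1, sign_zero]; simp
    · right; right; rw [sign_pos h1]; simp
  have hyr : ∀ v, y v * r v = |r v| := by
    intro v
    simp only [y]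
    exact sign_mul_self (r v)
  have h1 := h y hy
  -- the right hand side is attained by `K`
  have h2 : ∑ p : V × V, cap s(p.1, p.2) * max (y p.1 + y p.2) 0 =
      ∑ p : V × V, K s(p.1, p.2) * (y p.1 + y p.2) := by
    refine sum_congr rfl fun p _ => ?_
    by_cases hp : p.1 = p.2
    · rw [hp, hdiag, hKd]; ring
    · have hk := hkkt p.1 p.2 hp
      rcases lt_trichotomy (y p.1 + y p.2) 0 with h3 | h3 | h3
      · have h4 : r p.1 + r p.2 < 0 := by
          by_contra hcon
          push Not at hcon
          rcases hy p.1 with e1 | e1 | e1 <;> rcases hy p.2 with e2 | e2 | e2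
          all_goals first
            | (rw [e1, e2] at h3; norm_num at h3; done)
            | skip
          all_goals
            have a1 := hyr p.1
            have a2 := hyr p.2
            rw [e1] at a1
            rw [e2] at a2
            have b1 := abs_nonneg (r p.1)
            have b2 := abs_nonneg (r p.2)
          · -- both negative
            have c1 : r p.1 ≠ 0 := by
              intro h0
              have : y p.1 = 0 := by simp [y, h0]
              rw [this] at e1; norm_num at e1
            have c2 : 0 < |r p.1| := abs_pos.2 c1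
            linarith
          · have c1 : r p.1 ≠ 0 := by
              intro h0
              have : y p.1 = 0 := by simp [y, h0]
              rw [this] at e1; norm_num at e1
            have c2 : 0 < |r p.1| := abs_pos.2 c1
            have c3 : r p.2 = 0 := by
              have : |r p.2| = 0 := by linarith
              exact abs_eq_zero.1 this
            linarith
          · have c1 : r p.2 ≠ 0 := by
              intro h0
              have : y p.2 = 0 := by simp [y, h0]
              rw [this] at e2; norm_num at e2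
            have c2 : 0 < |r p.2| := abs_pos.2 c1
            have c3 : r p.1 = 0 := by
              have : |r p.1| = 0 := by linarith
              exact abs_eq_zero.1 this
            linarith
        rw [hk.2 h4, max_eq_right h3.le]; ring
      · rw [h3, max_self]; ring
      · have h4 : 0 < r p.1 + r p.2 := by
          by_contra hcon
          push Not at hcon
          rcases hy p.1 with e1 | e1 | e1 <;> rcases hy p.2 with e2 | e2 | e2
          all_goals first
            | (rw [e1, e2] at h3; norm_num at h3; done)
            | skip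
          all_goals
            have a1 := hyr p.1
            have a2 := hyr p.2
            rw [e1] at a1
            rw [e2] at a2
            have b1 := abs_nonneg (r p.1)
            have b2 := abs_nonneg (r p.2)
          · have c1 : r p.2 ≠ 0 := by
              intro h0
              have : y p.2 = 0 := by simp [y, h0]
              rw [this] at e2; norm_num at e2
            have c2 : 0 < |r p.2| := abs_pos.2 c1
            have c3 : r p.1 = 0 := by
              have : |r p.1| = 0 := by linarith
              exact abs_eq_zero.1 this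
            linarith
          · have c1 : r p.1 ≠ 0 := by
              intro h0
              have : y p.1 = 0 := by simp [y, h0]
              rw [this] at e1; norm_num at e1
            have c2 : 0 < |r p.1| := abs_pos.2 c1
            have c3 : r p.2 = 0 := by
              have : |r p.2| = 0 := by linarith
              exact abs_eq_zero.1 this
            linarith
          · have c1 : r p.1 ≠ 0 := by
              intro h0
              have : y p.1 = 0 := by simp [y, h0]
              rw [this] at e1; norm_num at e1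
            have c2 : 0 < |r p.1| := abs_pos.2 c1
            linarith
        rw [hk.1 h4, max_eq_left h3.le]
  have h3 := sum_degE K hKd y
  rw [h2, ← h3] at h1
  have h4 : ∑ v, |r v| = ∑ v, y v * D v - ∑ v, y v * degE K v := by
    rw [← sum_sub_distrib]
    refine sum_congr rfl fun v _ => ?_
    rw [← hyr v]
    simp only [hr]; ring
  have h5 : ∑ v, |r v| ≤ 0 := by rw [h4]; linarith
  intro v
  have h6 : |r v| ≤ ∑ v, |r v| :=
    single_le_sum (f := fun v => |r v|) (fun v _ => abs_nonneg _) (mem_univ v)
  have h7 : r v = 0 := abs_eq_zero.1 (le_antisymm (h6.trans h5) (abs_nonneg _))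
  simp only [hr] at h7
  linarith

/-- **Real weights in a box, bipartite graphs**: the cut conditions for all `W`. -/
theorem realK_bip (side : V → Bool) (cap : Sym2 V → ℝ) (hcap0 : ∀ e, 0 ≤ cap e)
    (hside : ∀ u v, cap s(u, v) ≠ 0 → side u ≠ side v)
    (D : V → ℝ) (htot : ∑ v with side v = true, D v = ∑ v with side v = false, D v)
    (h : ∀ W : Finset V, ∑ v ∈ W with side v = true, D v - ∑ v ∈ W with side v = false, D v ≤
      ∑ p : V × V, if side p.1 = true ∧ p.1 ∈ W ∧ p.2 ∉ W then cap s(p.1, p.2) else 0) :
    ∃ K : Sym2 V → ℝ, (∀ e, 0 ≤ K e ∧ K e ≤ cap e) ∧ ∀ v, degE K v = D v := by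
  obtain ⟨K, hK, hkkt⟩ := kkt cap hcap0 D
  refine ⟨K, hK, ?_⟩
  set r : V → ℝ := fun v => D v - degE K v with hr
  have hdiag : ∀ v, cap s(v, v) = 0 := by
    intro v
    by_contra hcon
    exact hside v v hcon rfl
  have hKd : ∀ v, K s(v, v) = 0 := fun v =>
    le_antisymm ((hK _).2.trans (hdiag v).le) (hK _).1
  have hK0 : ∀ u v, side u = side v → K s(u, v) = 0 := by
    intro u v huv
    have : cap s(u, v) = 0 := by
      by_contra hcon
      exact hside u v hcon huv
    exact le_antisymm ((hK _).2.trans this.le) (hK _).1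
  let ε : V → ℝ := fun v => if side v = true then 1 else -1
  have hε : ∀ v, ε v * ε v = 1 := by
    intro v
    simp only [ε]; split_ifs <;> norm_num
  let f : V → ℝ := fun v => ε v * r v
  -- flows out of a set
  have hflow : ∀ W : Finset V, ∑ v ∈ W, ε v * degE K v =
      ∑ p : V × V, (if side p.1 = true ∧ p.1 ∈ W ∧ p.2 ∉ W then K s(p.1, p.2) else 0) -
      ∑ p : V × V, (if side p.1 = true ∧ p.1 ∉ W ∧ p.2 ∈ W then K s(p.1, p.2) else 0) := by
    intro W
    have h1 : ∑ v ∈ W, ε v * degE K v =
        ∑ v, (if v ∈ W then ε v else 0) * degE K v := by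
      rw [← sum_subset (subset_univ W)]
      · exact sum_congr rfl fun v hv => by rw [if_pos hv]
      · intro v _ hv; rw [if_neg hv, zero_mul]
    have h2 := sum_degE K hKd (fun v => if v ∈ W then ε v else 0)
    rw [h1]
    have h3 : ∑ p : V × V, K s(p.1, p.2) *
        ((if p.1 ∈ W then ε p.1 else 0) + (if p.2 ∈ W then ε p.2 else 0)) =
        2 * (∑ p : V × V, (if side p.1 = true ∧ p.1 ∈ W ∧ p.2 ∉ W then K s(p.1, p.2) else 0) -
      ∑ p : V × V, (if side p.1 = true ∧ p.1 ∉ W ∧ p.2 ∈ W then K s(p.1, p.2) else 0)) := by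
      rw [← sum_sub_distrib, two_mul]
      nth_rewrite 2 [← Equiv.sum_comp (Equiv.prodComm V V)]
      rw [← sum_add_distrib]
      refine sum_congr rfl fun p _ => ?_
      simp only [Equiv.prodComm_apply, Prod.fst_swap, Prod.snd_swap]
      have hsw : K s(p.2, p.1) = K s(p.1, p.2) := by rw [Sym2.eq_swap]
      rw [hsw]
      by_cases hs : side p.1 = side p.2
      · rw [hK0 _ _ hs]; simp
      · cases h1 : side p.1 <;> cases h2 : side p.2
        · exact absurd (h1.trans h2.symm) hs
        · by_cases a : p.1 ∈ W <;> by_cases b : p.2 ∈ W <;> simp [h1, h2, a, b, ε]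
        · by_cases a : p.1 ∈ W <;> by_cases b : p.2 ∈ W <;> simp [h1, h2, a, b, ε]
        · exact absurd (h1.trans h2.symm) hs
    linarith [h2, h3]
  have hWD' : ∀ X : Finset V, ∑ v ∈ X with side v = true, D v -
      ∑ v ∈ X with side v = false, D v = ∑ v ∈ X, ε v * D v := by
    intro X
    rw [sum_filter, sum_filter, ← sum_sub_distrib]
    refine sum_congr rfl fun v _ => ?_
    simp only [ε]
    cases side v <;> simp
  -- the set `f > 0`
  set W : Finset V := univ.filter fun v => 0 < f v with hW
  have hWD := hWD' W
  have hcapK : ∑ p : V × V, (if side p.1 = true ∧ p.1 ∈ W ∧ p.2 ∉ W then cap s(p.1, p.2) else 0) =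
      ∑ p : V × V, (if side p.1 = true ∧ p.1 ∈ W ∧ p.2 ∉ W then K s(p.1, p.2) else 0) := by
    refine sum_congr rfl fun p _ => ?_
    by_cases hc : side p.1 = true ∧ p.1 ∈ W ∧ p.2 ∉ W
    · rw [if_pos hc, if_pos hc]
      by_cases hs : side p.1 = side p.2
      · rw [hK0 _ _ hs]
        by_contra hcon
        exact hside _ _ hcon hs
      · have hne : p.1 ≠ p.2 := fun h => hs (by rw [h])
        refine ((hkkt p.1 p.2 hne).1 ?_).symm
        have e1 : 0 < f p.1 := (mem_filter.1 hc.2.1).2
        have e2 : f p.2 ≤ 0 := by
          by_contra hcon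
          push Not at hcon
          exact hc.2.2 (mem_filter.2 ⟨mem_univ _, hcon⟩)
        have hs2 : side p.2 = false := by
          rw [hc.1] at hs
          cases h : side p.2
          · rfl
          · exact absurd h.symm hs
        simp only [f, ε, hc.1, hs2, if_true] at e1 e2
        norm_num at e1 e2
        change 0 < r p.1 + r p.2
        linarith
    · rw [if_neg hc, if_neg hc]
  have hzero : ∑ p : V × V, (if side p.1 = true ∧ p.1 ∉ W ∧ p.2 ∈ W then K s(p.1, p.2) else 0) =
      0 := by
    refine sum_eq_zero fun p _ => ?_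
    split_ifs with hc
    · by_cases hs : side p.1 = side p.2
      · exact hK0 _ _ hs
      · have hne : p.1 ≠ p.2 := fun h => hs (by rw [h])
        refine (hkkt p.1 p.2 hne).2 ?_
        have e1 : 0 < f p.2 := (mem_filter.1 hc.2.2).2
        have e2 : f p.1 ≤ 0 := by
          by_contra hcon
          push Not at hcon
          exact hc.2.1 (mem_filter.2 ⟨mem_univ _, hcon⟩)
        have hs2 : side p.2 = false := by
          rw [hc.1] at hs
          cases h : side p.2
          · rfl
          · exact absurd h.symm hs
        simp only [f, ε, hc.1, hs2, if_true] at e1 e2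
        norm_num at e1 e2
        change r p.1 + r p.2 < 0
        linarith
    · rfl
  have hsumW : ∑ v ∈ W, f v ≤ 0 := by
    have h1 := h W
    rw [hWD, hcapK] at h1
    have h2 := hflow W
    rw [hzero, sub_zero] at h2
    have h3 : ∑ v ∈ W, f v = ∑ v ∈ W, ε v * D v - ∑ v ∈ W, ε v * degE K v := by
      rw [← sum_sub_distrib]
      refine sum_congr rfl fun v _ => ?_
      simp only [f, hr]; ring
    linarith
  have hWe : W = ∅ := by
    by_contra hne
    have : 0 < ∑ v ∈ W, f v :=
      sum_pos (fun v hv => (mem_filter.1 hv).2) (nonempty_iff_ne_empty.2 hne)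
    linarith
  have hf : ∀ v, f v ≤ 0 := by
    intro v
    by_contra hcon
    push Not at hcon
    have : v ∈ W := mem_filter.2 ⟨mem_univ _, hcon⟩
    rw [hWe] at this
    exact notMem_empty _ this
  have hsum0 : ∑ v, f v = 0 := by
    have h2 := hflow univ
    simp only [mem_univ, not_true_eq_false, and_false, false_and, if_false, sum_const_zero,
      sub_zero] at h2
    have h3 : ∑ v, f v = ∑ v, ε v * D v - ∑ v, ε v * degE K v := by
      rw [← sum_sub_distrib]
      refine sum_congr rfl fun v _ => ?_
      simp only [f, hr]; ring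
    have h4 : ∑ v, ε v * D v = ∑ v with side v = true, D v - ∑ v with side v = false, D v := by
      rw [sum_filter, sum_filter, ← sum_sub_distrib]
      refine sum_congr rfl fun v _ => ?_
      simp only [ε]
      cases side v <;> simp
    rw [h3, h2, h4, htot]; ring
  intro v
  have h6 : f v = 0 := by
    have := (sum_eq_zero_iff_of_nonpos (fun v _ => hf v)).1 hsum0 v (mem_univ v)
    exact this
  have h7 : r v = 0 := by
    have : ε v * f v = r v := by
      simp only [f]; rw [← mul_assoc, hε, one_mul]
    rw [← this, h6, mul_zero]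
  simp only [hr] at h7
  linarith

end Pool.Agent.UPS3
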