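import Pool.Agent.Lib.MP_876e19_co_ups.FlowInt
import Pool.Agent.Lib.MP_876e19_co_ups.RealK
import Pool.Agent.Lib.MP_876e19_co_ups.Correction

/-!
# One stage of toggles in a bipartite graph with real weights (helper16, TT876)

Rows `A x` (graphs with degrees at most `r`), real weights `K ≥ 0` on the edges with
`r K(e) ≤ av(e)` (`av(e)` = number of rows containing `e`) and integral degrees `D`. Then there are
permutations `σ x` along the edges of `A x` (involutions) such that exactly `D v` of them move `v`.
-/

set_option autoImplicit false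

open Finset Classical

namespace Pool.Agent.UPS3

open Pool.Agent.UPS2.EC Pool.Agent.HTutte

variable {V : Type*} [Fintype V] {X : Type*} [Fintype X]

theorem bip_stage (side : V → Bool) (A : X → SimpleGraph V) {r : ℕ} (hr : 0 < r)
    (hdeg : ∀ x v, dg (A x) v ≤ r) (K : Sym2 V → ℝ) (hK0 : ∀ e, 0 ≤ K e)
    (hKs : ∀ u w, K s(u, w) ≠ 0 → side u ≠ side w)
    (hKa : ∀ u w, (r : ℝ) * K s(u, w) ≤ av A u w) (D : V → ℕ) (hD : ∀ v, degE K v = D v) :
    ∃ σ : X → Equiv.Perm V, (∀ x v, σ x v = v ∨ (A x).Adj v (σ x v)) ∧
      ∀ v, (univ.filter fun x => σ x v ≠ v).card = D v := by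
  have hr' : (0 : ℝ) < r := by exact_mod_cast hr
  have hr1 : (1 : ℝ) ≤ r := by exact_mod_cast hr
  have hKd : ∀ v, K s(v, v) = 0 := by
    intro v
    by_contra hcon
    exact hKs v v hcon rfl
  let C : X → V → V → Prop := fun x a b => side a = true ∧ side b = false ∧ (A x).Adj a b
  let w : X → V → V → ℝ := fun x a b => if C x a b then K s(a, b) / av A a b else 0
  have hw0 : ∀ x a b, 0 ≤ w x a b := by
    intro x a b
    simp only [w]
    split_ifs
    · exact div_nonneg (hK0 _) (Nat.cast_nonneg _)
    · exact le_rfl
  have hwr : ∀ x a b, w x a b ≤ if (A x).Adj a b then 1 / (r : ℝ) else 0 := by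
    intro x a b
    simp only [w]
    by_cases hC : C x a b
    · rw [if_pos hC, if_pos hC.2.2]
      rcases Nat.eq_zero_or_pos (av A a b) with h | h
      · rw [h]; simp
      · have h' : (0 : ℝ) < av A a b := by exact_mod_cast h
        rw [div_le_div_iff₀ h' hr', one_mul, mul_comm]
        exact hKa a b
    · rw [if_neg hC]
      split_ifs <;> positivity
  have hw1 : ∀ x a b, w x a b ≤ 1 := by
    intro x a b
    refine (hwr x a b).trans ?_
    split_ifs
    · rw [div_le_one hr']; exact hr1
    · exact zero_le_one
  have hrowA : ∀ x a, ∑ b, w x a b ≤ 1 := by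
    intro x a
    calc ∑ b, w x a b ≤ ∑ b, (if (A x).Adj a b then 1 / (r : ℝ) else 0) :=
          sum_le_sum fun b _ => hwr x a b
      _ = (dg (A x) a : ℝ) * (1 / r) := by
          rw [← sum_filter, sum_const, nsmul_eq_mul]
          unfold dg
          rw [sum_boole, Nat.cast_id]
      _ ≤ r * (1 / r) := mul_le_mul_of_nonneg_right (by exact_mod_cast hdeg x a) (by positivity)
      _ = 1 := by field_simp
  have hrowB : ∀ x b, ∑ a, w x a b ≤ 1 := by
    intro x b
    calc ∑ a, w x a b ≤ ∑ a, (if (A x).Adj b a then 1 / (r : ℝ) else 0) := by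
          refine sum_le_sum fun a _ => (hwr x a b).trans (le_of_eq ?_)
          simp only [(A x).adj_comm a b]
      _ = (dg (A x) b : ℝ) * (1 / r) := by
          rw [← sum_filter, sum_const, nsmul_eq_mul]
          unfold dg
          rw [sum_boole, Nat.cast_id]
      _ ≤ r * (1 / r) := mul_le_mul_of_nonneg_right (by exact_mod_cast hdeg x b) (by positivity)
      _ = 1 := by field_simp
  -- sum over the rows
  have hsumx : ∀ a b, side a = true → ∑ x, w x a b = K s(a, b) := by
    intro a b ha
    by_cases hb : side b = false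
    · have h1 : ∀ x, w x a b = if (A x).Adj a b then K s(a, b) / av A a b else 0 := by
        intro x
        simp only [w, C]
        by_cases h : (A x).Adj a b
        · rw [if_pos ⟨ha, hb, h⟩, if_pos h]
        · rw [if_neg fun h' => h h'.2.2, if_neg h]
      rw [sum_congr rfl fun x _ => h1 x, ← sum_filter, sum_const, nsmul_eq_mul]
      have h2 : ((univ.filter fun x => (A x).Adj a b).card : ℝ) = av A a b := by
        congr 1
      rw [h2]
      rcases Nat.eq_zero_or_pos (av A a b) with h | h
      · have h3 := hKa a b
        rw [h] at h3 ⊢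
        have h4 := hK0 s(a, b)
        push_cast at h3 ⊢
        have h5 : K s(a, b) = 0 := by nlinarith
        rw [h5]; ring
      · have h' : (0 : ℝ) < av A a b := by exact_mod_cast h
        field_simp
    · have h1 : ∀ x, w x a b = 0 := by
        intro x
        simp only [w, C]
        rw [if_neg fun h => hb h.2.1]
      rw [sum_congr rfl fun x _ => h1 x, sum_const_zero]
      symm
      by_contra hcon
      have := hKs a b hcon
      rw [ha] at this
      cases h : side b
      · exact hb h
      · exact this h.symm
  have hcolA : ∀ a, side a = true → ∑ x, ∑ b, w x a b = D a := by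
    intro a ha
    rw [sum_comm, ← hD a, degE_eq K hKd]
    exact sum_congr rfl fun b _ => hsumx a b ha
  have hcolB : ∀ b, side b = false → ∑ x, ∑ a, w x a b = D b := by
    intro b hb
    rw [sum_comm, ← hD b, degE_eq K hKd]
    refine sum_congr rfl fun a _ => ?_
    by_cases ha : side a = true
    · rw [hsumx a b ha, Sym2.eq_swap]
    · have h1 : ∀ x, w x a b = 0 := by
        intro x
        simp only [w, C]
        rw [if_neg fun h => ha h.1]
      rw [sum_congr rfl fun x _ => h1 x, sum_const_zero]
      symm
      by_contra hcon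
      have := hKs b a hcon
      rw [hb] at this
      cases h : side a
      · exact this h.symm
      · exact ha h
  obtain ⟨g, hg, hgA, hgB, hgcA, hgcB⟩ := tri_round w
  have hg0 : ∀ x a b, 0 ≤ g x a b := fun x a b =>
    (Int.floor_nonneg.2 (hw0 x a b)).trans (hg x a b).1
  have hg1 : ∀ x a b, g x a b ≤ 1 := fun x a b =>
    (hg x a b).2.trans (Int.ceil_le.2 (by push_cast; exact hw1 x a b))
  have hg01 : ∀ x a b, g x a b = 0 ∨ g x a b = 1 := by
    intro x a b
    have := hg0 x a b
    have := hg1 x a b
    omega
  have hgC : ∀ x a b, g x a b = 1 → C x a b := by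
    intro x a b h
    by_contra hC
    have h1 : w x a b = 0 := by simp only [w]; rw [if_neg hC]
    have h2 := (hg x a b).2
    rw [h1, h] at h2
    simp at h2
  have hgrA : ∀ x a, ∑ b, g x a b ≤ 1 := fun x a =>
    (hgA x a).2.trans (Int.ceil_le.2 (by push_cast; exact hrowA x a))
  have hgrB : ∀ x b, ∑ a, g x a b ≤ 1 := fun x b =>
    (hgB x b).2.trans (Int.ceil_le.2 (by push_cast; exact hrowB x b))
  have huniqA : ∀ x a b b', g x a b = 1 → g x a b' = 1 → b = b' := by
    intro x a b b' h h'
    by_contra hne
    have h1 : g x a b + g x a b' ≤ ∑ b, g x a b := by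
      rw [← sum_pair hne]
      exact sum_le_sum_of_subset_of_nonneg (subset_univ _) fun i _ _ => hg0 x a i
    have := hgrA x a
    omega
  have huniqB : ∀ x b a a', g x a b = 1 → g x a' b = 1 → a = a' := by
    intro x b a a' h h'
    by_contra hne
    have h1 : g x a b + g x a' b ≤ ∑ a, g x a b := by
      rw [← sum_pair (f := fun a => g x a b) hne]
      exact sum_le_sum_of_subset_of_nonneg (subset_univ _) fun i _ _ => hg0 x i b
    have := hgrB x b
    omega
  -- the partner
  let mate : X → V → V → Prop := fun x u v => g x u v = 1 ∨ g x v u = 1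
  have hmate_symm : ∀ x u v, mate x u v → mate x v u := fun x u v h => h.symm
  have hmate_uniq : ∀ x u v v', mate x u v → mate x u v' → v = v' := by
    rintro x u v v' (h | h) (h' | h')
    · exact huniqA x u v v' h h'
    · exact absurd ((hgC _ _ _ h).1.symm.trans (hgC _ _ _ h').2.1) (by simp)
    · exact absurd ((hgC _ _ _ h').1.symm.trans (hgC _ _ _ h).2.1) (by simp)
    · exact huniqB x u v v' h h'
  have hmate_adj : ∀ x u v, mate x u v → (A x).Adj u v := by
    rintro x u v (h | h)
    · exact (hgC _ _ _ h).2.2
    · exact (hgC _ _ _ h).2.2.symm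
  let π : X → V → V := fun x u => if h : ∃ v, mate x u v then h.choose else u
  have hπ1 : ∀ x u v, mate x u v → π x u = v := by
    intro x u v h
    have h1 : ∃ v, mate x u v := ⟨v, h⟩
    have h2 : π x u = h1.choose := dif_pos h1
    rw [h2]
    exact hmate_uniq x u _ _ h1.choose_spec h
  have hπ2 : ∀ x u, (¬ ∃ v, mate x u v) → π x u = u := fun x u h => dif_neg h
  have hπinv : ∀ x, Function.Involutive (π x) := by
    intro x u
    by_cases h : ∃ v, mate x u v
    · obtain ⟨v, hv⟩ := h
      rw [hπ1 x u v hv]
      exact hπ1 x v u (hmate_symm x u v hv)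
    · rw [hπ2 x u h, hπ2 x u h]
  have hπne : ∀ x u, π x u ≠ u ↔ ∃ v, mate x u v := by
    intro x u
    constructor
    · intro h
      by_contra hcon
      exact h (hπ2 x u hcon)
    · rintro ⟨v, hv⟩
      rw [hπ1 x u v hv]
      exact (hmate_adj x u v hv).ne.symm
  refine ⟨fun x => (hπinv x).toPerm, fun x v => ?_, fun v => ?_⟩
  · change π x v = v ∨ (A x).Adj v (π x v)
    by_cases h : ∃ u, mate x v u
    · obtain ⟨u, hu⟩ := h
      right
      rw [hπ1 x v u hu]
      exact hmate_adj x v u hu
    · exact Or.inl (hπ2 x v h)
  · change (univ.filter fun x => π x v ≠ v).card = D v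
    have h1 : (univ.filter fun x => π x v ≠ v) = univ.filter fun x => ∃ u, mate x v u := by
      ext x
      simp only [mem_filter, mem_univ, true_and]
      exact hπne x v
    rw [h1]
    cases hv : side v with
    | true =>
      have h2 : ∀ x, (if ∃ u, mate x v u then (1 : ℤ) else 0) = ∑ b, g x v b := by
        intro x
        have hcol0 : ∀ u, ¬ g x u v = 1 := fun u h =>
          absurd ((hgC _ _ _ h).2.1.symm.trans hv) (by simp)
        by_cases h : ∃ u, mate x v u
        · obtain ⟨u, hu⟩ := h
          rw [if_pos ⟨u, hu⟩]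
          have hu' : g x v u = 1 := hu.resolve_right (hcol0 u)
          have h3 : g x v u ≤ ∑ b, g x v b :=
            single_le_sum (f := fun b => g x v b) (fun b _ => hg0 x v b) (mem_univ u)
          have := hgrA x v
          omega
        · rw [if_neg h]
          symm
          refine sum_eq_zero fun b _ => ?_
          rcases hg01 x v b with h3 | h3
          · exact h3
          · exact absurd ⟨b, Or.inl h3⟩ h
      have h3 := hgcA v
      rw [hcolA v hv] at h3
      have h4 : ∑ x, ∑ b, g x v b = (D v : ℤ) := by
        have e1 : ⌊((D v : ℕ) : ℝ)⌋ = (D v : ℤ) := Int.floor_natCast _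
        have e2 : ⌈((D v : ℕ) : ℝ)⌉ = (D v : ℤ) := Int.ceil_natCast _
        rw [e1, e2] at h3
        exact le_antisymm h3.2 h3.1
      have h5 : ((univ.filter fun x => ∃ u, mate x v u).card : ℤ) = D v := by
        rw [← h4, card_filter]
        push_cast
        exact sum_congr rfl fun x _ => h2 x
      exact_mod_cast h5
    | false =>
      have h2 : ∀ x, (if ∃ u, mate x v u then (1 : ℤ) else 0) = ∑ a, g x a v := by
        intro x
        have hcol0 : ∀ u, ¬ g x v u = 1 := fun u h =>
          absurd ((hgC _ _ _ h).1.symm.trans hv) (by simp)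
        by_cases h : ∃ u, mate x v u
        · obtain ⟨u, hu⟩ := h
          rw [if_pos ⟨u, hu⟩]
          have hu' : g x u v = 1 := hu.resolve_left (hcol0 u)
          have h3 : g x u v ≤ ∑ a, g x a v :=
            single_le_sum (f := fun a => g x a v) (fun a _ => hg0 x a v) (mem_univ u)
          have := hgrB x v
          omega
        · rw [if_neg h]
          symm
          refine sum_eq_zero fun a _ => ?_
          rcases hg01 x a v with h3 | h3
          · exact h3
          · exact absurd ⟨a, Or.inr h3⟩ h
      have h3 := hgcB v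
      rw [hcolB v hv] at h3
      have h4 : ∑ x, ∑ a, g x a v = (D v : ℤ) := by
        have e1 : ⌊((D v : ℕ) : ℝ)⌋ = (D v : ℤ) := Int.floor_natCast _
        have e2 : ⌈((D v : ℕ) : ℝ)⌉ = (D v : ℤ) := Int.ceil_natCast _
        rw [e1, e2] at h3
        exact le_antisymm h3.2 h3.1
      have h5 : ((univ.filter fun x => ∃ u, mate x v u).card : ℤ) = D v := by
        rw [← h4, card_filter]
        push_cast
        exact sum_congr rfl fun x _ => h2 x
      exact_mod_cast h5

end Pool.Agent.UPS3
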