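import Mathlib

/-!
# Weights in a box with prescribed degrees (helper76)

`box_signed`: for edges `e` with ends `a e`, `b e` there are weights `lo ≤ m ≤ hi` with all degrees
equal to `δ` if the signed cut conditions hold for all `y : V → SignType`.
`box_flow`: the same for the net outflow of a directed graph and ordinary cuts (Hoffman).
Proofs: minimise the Euclidean distance of the degree vector to `δ`.
-/

set_option autoImplicit false

namespace Pool.Agent.UPS.BoxK

open Finset

variable {V E : Type*} [Fintype V] [DecidableEq V] [Fintype E]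

/-- least squares point of a box for a linear system, with its optimality conditions -/
lemma least_squares [DecidableEq E] (c : E → V → ℝ) (lo hi : E → ℝ) (hlh : ∀ e, lo e ≤ hi e)
    (δ : V → ℝ) :
    ∃ m : E → ℝ, (∀ e, lo e ≤ m e ∧ m e ≤ hi e) ∧
      (∀ e, m e < hi e → ∑ v, (δ v - ∑ e', m e' * c e' v) * c e v ≤ 0) ∧
      (∀ e, lo e < m e → 0 ≤ ∑ v, (δ v - ∑ e', m e' * c e' v) * c e v) := by
  have hne : (Set.Icc lo hi).Nonempty := ⟨lo, le_rfl, hlh⟩
  have hcont : Continuous (fun m : E → ℝ => ∑ v, (δ v - ∑ e', m e' * c e' v) ^ 2) := by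
    fun_prop
  obtain ⟨m, hm, hmin⟩ := (isCompact_Icc (a := lo) (b := hi)).exists_isMinOn hne
    hcont.continuousOn
  -- change of one coordinate
  have key : ∀ (e : E) (t : ℝ), lo e ≤ m e + t → m e + t ≤ hi e →
      0 ≤ -2 * t * (∑ v, (δ v - ∑ e', m e' * c e' v) * c e v) + t ^ 2 * ∑ v, (c e v) ^ 2 := by
    intro e t h1 h2
    have hmem : Function.update m e (m e + t) ∈ Set.Icc lo hi := by
      constructor
      · intro e'
        by_cases h : e' = e
        · subst h; simpa using h1
        · simpa [h] using hm.1 e'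
      · intro e'
        by_cases h : e' = e
        · subst h; simpa using h2
        · simpa [h] using hm.2 e'
    have hle := isMinOn_iff.1 hmin _ hmem
    have hsum : ∀ v, ∑ e', Function.update m e (m e + t) e' * c e' v =
        ∑ e', m e' * c e' v + t * c e v := by
      intro v
      rw [← Finset.add_sum_erase _ _ (Finset.mem_univ e),
        ← Finset.add_sum_erase _ (fun e' => m e' * c e' v) (Finset.mem_univ e)]
      have : ∑ e' ∈ Finset.univ.erase e, Function.update m e (m e + t) e' * c e' v =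
          ∑ e' ∈ Finset.univ.erase e, m e' * c e' v := by
        apply Finset.sum_congr rfl
        intro e' he'
        rw [Function.update_of_ne (Finset.ne_of_mem_erase he')]
      rw [this, Function.update_self]
      ring
    simp only [hsum] at hle
    have hexp : ∑ v, (δ v - (∑ e', m e' * c e' v + t * c e v)) ^ 2 =
        ∑ v, (δ v - ∑ e', m e' * c e' v) ^ 2 +
          (-2 * t * (∑ v, (δ v - ∑ e', m e' * c e' v) * c e v) + t ^ 2 * ∑ v, (c e v) ^ 2) := by
      rw [Finset.mul_sum, Finset.mul_sum, ← Finset.sum_add_distrib, ← Finset.sum_add_distrib]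
      apply Finset.sum_congr rfl
      intro v _
      ring
    rw [hexp] at hle
    linarith
  refine ⟨m, fun e => ⟨hm.1 e, hm.2 e⟩, ?_, ?_⟩
  · intro e he
    by_contra hcon
    push Not at hcon
    set g := ∑ v, (δ v - ∑ e', m e' * c e' v) * c e v with hg
    set s := ∑ v, (c e v) ^ 2 with hs
    have hs0 : 0 ≤ s := Finset.sum_nonneg fun v _ => sq_nonneg _
    -- choose a small t
    set t := min (hi e - m e) (g / (s + 1)) with ht
    have ht0 : 0 < t := lt_min (by linarith) (by positivity)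
    have h := key e t (by have := hm.1 e; linarith) (by
      have := min_le_left (hi e - m e) (g / (s + 1))
      rw [← ht] at this; linarith)
    have h2 : t * (s + 1) ≤ g := by
      have := min_le_right (hi e - m e) (g / (s + 1))
      rw [← ht] at this
      rwa [le_div_iff₀ (by linarith)] at this
    have h3 : t * (t * (s + 1)) ≤ t * g := mul_le_mul_of_nonneg_left h2 ht0.le
    nlinarith
  · intro e he
    by_contra hcon
    push Not at hcon
    set g := ∑ v, (δ v - ∑ e', m e' * c e' v) * c e v with hg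
    set s := ∑ v, (c e v) ^ 2 with hs
    have hs0 : 0 ≤ s := Finset.sum_nonneg fun v _ => sq_nonneg _
    set t := min (m e - lo e) (-g / (s + 1)) with ht
    have ht0 : 0 < t := lt_min (by linarith) (by
      apply div_pos <;> linarith)
    have h := key e (-t) (by
      have := min_le_left (m e - lo e) (-g / (s + 1))
      rw [← ht] at this; linarith) (by have := hm.2 e; linarith)
    have h2 : t * (s + 1) ≤ -g := by
      have := min_le_right (m e - lo e) (-g / (s + 1))
      rw [← ht] at this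
      rwa [le_div_iff₀ (by linarith)] at this
    have h3 : t * (t * (s + 1)) ≤ t * -g := mul_le_mul_of_nonneg_left h2 ht0.le
    nlinarith

/-- sum of `y` against a degree vector -/
lemma sum_deg (c : E → V → ℝ) (m : E → ℝ) (y : V → ℝ) :
    ∑ v, y v * ∑ e, m e * c e v = ∑ e, m e * ∑ v, y v * c e v := by
  simp only [Finset.mul_sum]
  rw [Finset.sum_comm]
  apply Finset.sum_congr rfl
  intro e _
  apply Finset.sum_congr rfl
  intro v _
  ring

lemma sum_inc (a b : E → V) (y : V → ℝ) (e : E) :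
    ∑ v, y v * ((if a e = v then (1 : ℝ) else 0) + (if b e = v then (1 : ℝ) else 0)) =
      y (a e) + y (b e) := by
  simp [mul_add, Finset.sum_add_distrib]

lemma sum_dir (a b : E → V) (y : V → ℝ) (e : E) :
    ∑ v, y v * ((if a e = v then (1 : ℝ) else 0) - (if b e = v then (1 : ℝ) else 0)) =
      y (a e) - y (b e) := by
  simp [mul_sub, Finset.sum_sub_distrib]

/-- **signed version**: weights in a box with prescribed degrees -/
theorem box_signed (a b : E → V) (lo hi : E → ℝ) (hlh : ∀ e, lo e ≤ hi e) (δ : V → ℝ)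
    (h : ∀ y : V → SignType, ∑ v, (y v : ℝ) * δ v ≤
      ∑ e, (if 0 < (y (a e) : ℝ) + y (b e) then ((y (a e) : ℝ) + y (b e)) * hi e
        else ((y (a e) : ℝ) + y (b e)) * lo e)) :
    ∃ m : E → ℝ, (∀ e, lo e ≤ m e ∧ m e ≤ hi e) ∧
      ∀ v, ∑ e, m e * ((if a e = v then (1 : ℝ) else 0) + (if b e = v then (1 : ℝ) else 0)) =
        δ v := by
  classical
  set c : E → V → ℝ := fun e v =>
    (if a e = v then (1 : ℝ) else 0) + (if b e = v then (1 : ℝ) else 0) with hc
  obtain ⟨m, hbox, hup, hdn⟩ := least_squares c lo hi hlh δ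
  refine ⟨m, hbox, ?_⟩
  set ρ : V → ℝ := fun v => δ v - ∑ e, m e * c e v with hρ
  have hgrad : ∀ e, ∑ v, ρ v * c e v = ρ (a e) + ρ (b e) := fun e => sum_inc a b ρ e
  have hup' : ∀ e, m e < hi e → ρ (a e) + ρ (b e) ≤ 0 := fun e he => by
    rw [← hgrad]; exact hup e he
  have hdn' : ∀ e, lo e < m e → 0 ≤ ρ (a e) + ρ (b e) := fun e he => by
    rw [← hgrad]; exact hdn e he
  by_contra hcon
  push Not at hcon
  obtain ⟨v0, hv0⟩ := hcon
  have hρ0 : ρ v0 ≠ 0 := by
    intro h0
    apply hv0
    have : δ v0 - ∑ e, m e * c e v0 = 0 := h0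
    linarith
  obtain ⟨v1, -, hv1⟩ := Finset.exists_max_image Finset.univ (fun v => |ρ v|)
    ⟨v0, Finset.mem_univ _⟩
  set M := |ρ v1| with hM
  have hle : ∀ v, |ρ v| ≤ M := fun v => hv1 v (Finset.mem_univ v)
  have hMpos : 0 < M := lt_of_lt_of_le (abs_pos.2 hρ0) (hle v0)
  set y : V → SignType := fun v => if |ρ v| = M then SignType.sign (ρ v) else 0 with hy
  -- facts about y
  have hy1 : ∀ v, (y v = 1 ∧ ρ v = M) ∨ (y v = -1 ∧ ρ v = -M) ∨ (y v = 0 ∧ |ρ v| < M) := by
    intro v
    by_cases hv : |ρ v| = M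
    · rcases abs_cases (ρ v) with ⟨h1, h2⟩ | ⟨h1, h2⟩
      · left
        have h3 : ρ v = M := by rw [← hv]; exact h1.symm
        refine ⟨?_, h3⟩
        simp only [hy, hv, if_true]
        exact sign_pos (by rw [h3]; exact hMpos)
      · right; left
        have h3 : ρ v = -M := by rw [← hv]; linarith
        refine ⟨?_, h3⟩
        simp only [hy, hv, if_true]
        exact sign_neg h2
    · right; right
      refine ⟨?_, lt_of_le_of_ne (hle v) hv⟩
      simp only [hy, hv, if_false]
  have hcast1 : ((1 : SignType) : ℝ) = 1 := by simp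
  have hcastm : ((-1 : SignType) : ℝ) = -1 := by simp
  have hcast0 : ((0 : SignType) : ℝ) = 0 := by simp
  have hedge : ∀ e, m e * ((y (a e) : ℝ) + y (b e)) =
      (if 0 < (y (a e) : ℝ) + y (b e) then ((y (a e) : ℝ) + y (b e)) * hi e
        else ((y (a e) : ℝ) + y (b e)) * lo e) := by
    intro e
    have htop : 0 < ρ (a e) + ρ (b e) → m e = hi e := by
      intro hp
      by_contra hne
      have := hup' e (lt_of_le_of_ne (hbox e).2 hne)
      linarith
    have hbot : ρ (a e) + ρ (b e) < 0 → m e = lo e := by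
      intro hp
      by_contra hne
      have := hdn' e (lt_of_le_of_ne (hbox e).1 (Ne.symm hne))
      linarith
    rcases hy1 (a e) with ⟨h1, h2⟩ | ⟨h1, h2⟩ | ⟨h1, h2⟩ <;>
      rcases hy1 (b e) with ⟨h3, h4⟩ | ⟨h3, h4⟩ | ⟨h3, h4⟩ <;>
      rw [h1, h3] <;> simp only [hcast1, hcastm, hcast0]
    · rw [htop (by rw [h2, h4]; linarith), if_pos (by norm_num)]; ring
    · rw [if_neg (by norm_num)]; ring
    · have := abs_lt.1 h4
      rw [htop (by rw [h2]; linarith), if_pos (by norm_num)]; ring
    · rw [if_neg (by norm_num)]; ring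
    · rw [hbot (by rw [h2, h4]; linarith), if_neg (by norm_num)]; ring
    · have := abs_lt.1 h4
      rw [hbot (by rw [h2]; linarith), if_neg (by norm_num)]; ring
    · have := abs_lt.1 h2
      rw [htop (by rw [h4]; linarith), if_pos (by norm_num)]; ring
    · have := abs_lt.1 h2
      rw [hbot (by rw [h4]; linarith), if_neg (by norm_num)]; ring
    · rw [if_neg (by norm_num)]; ring
  have hsum1 : ∑ v, (y v : ℝ) * δ v = ∑ e, m e * ((y (a e) : ℝ) + y (b e)) +
      ∑ v, (y v : ℝ) * ρ v := by
    have e1 : ∀ v, (y v : ℝ) * δ v = (y v : ℝ) * ∑ e, m e * c e v + (y v : ℝ) * ρ v := by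
      intro v
      simp only [hρ]
      ring
    rw [Finset.sum_congr rfl fun v _ => e1 v, Finset.sum_add_distrib,
      sum_deg c m (fun v => (y v : ℝ))]
    congr 1
    apply Finset.sum_congr rfl
    intro e _
    rw [← sum_inc a b (fun v => (y v : ℝ)) e]
  have hpos : 0 < ∑ v, (y v : ℝ) * ρ v := by
    apply Finset.sum_pos'
    · intro v _
      rcases hy1 v with ⟨h1, h2⟩ | ⟨h1, h2⟩ | ⟨h1, h2⟩
      · rw [h1, h2, hcast1]; linarith
      · rw [h1, h2, hcastm]; linarith
      · rw [h1, hcast0, zero_mul]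
    · refine ⟨v1, Finset.mem_univ _, ?_⟩
      rcases hy1 v1 with ⟨h1, h2⟩ | ⟨h1, h2⟩ | ⟨h1, h2⟩
      · rw [h1, h2, hcast1]; linarith
      · rw [h1, h2, hcastm]; linarith
      · exact absurd h2 (lt_irrefl _)
  have := h y
  rw [hsum1, Finset.sum_congr rfl fun e _ => hedge e] at this
  linarith

/-- test form of `box_signed`: `K'` has the right degrees, all signed cuts have room -/
theorem box_signed_test (a b : E → V) (lo hi : E → ℝ) (hlh : ∀ e, lo e ≤ hi e) (K' : E → ℝ)
    (h : ∀ y : V → SignType, y ≠ 0 →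
      0 ≤ ∑ e, (if 0 < (y (a e) : ℝ) + y (b e) then ((y (a e) : ℝ) + y (b e)) * (hi e - K' e)
        else ((y (a e) : ℝ) + y (b e)) * (lo e - K' e))) :
    ∃ m : E → ℝ, (∀ e, lo e ≤ m e ∧ m e ≤ hi e) ∧
      ∀ v, ∑ e, m e * ((if a e = v then (1 : ℝ) else 0) + (if b e = v then (1 : ℝ) else 0)) =
        ∑ e, K' e * ((if a e = v then (1 : ℝ) else 0) + (if b e = v then (1 : ℝ) else 0)) := by
  apply box_signed a b lo hi hlh
  intro y
  by_cases hy : y = 0
  · subst hy; simp
  · rw [sum_deg _ K' (fun v => (y v : ℝ))]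
    have h1 := h y hy
    have h2 : ∑ e, (if 0 < (y (a e) : ℝ) + y (b e) then ((y (a e) : ℝ) + y (b e)) * (hi e - K' e)
        else ((y (a e) : ℝ) + y (b e)) * (lo e - K' e)) =
        ∑ e, (if 0 < (y (a e) : ℝ) + y (b e) then ((y (a e) : ℝ) + y (b e)) * hi e
        else ((y (a e) : ℝ) + y (b e)) * lo e) - ∑ e, K' e * ((y (a e) : ℝ) + y (b e)) := by
      rw [← Finset.sum_sub_distrib]
      apply Finset.sum_congr rfl
      intro e _
      split_ifs <;> ring
    have h3 : ∑ e, K' e * ∑ v, (y v : ℝ) *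
        ((if a e = v then (1 : ℝ) else 0) + (if b e = v then (1 : ℝ) else 0)) =
        ∑ e, K' e * ((y (a e) : ℝ) + y (b e)) := by
      apply Finset.sum_congr rfl
      intro e _
      rw [sum_inc a b (fun v => (y v : ℝ)) e]
    rw [h3]
    linarith

/-- **Hoffman's theorem**, real form -/
theorem box_flow (a b : E → V) (lo hi : E → ℝ) (hlh : ∀ e, lo e ≤ hi e) (δ : V → ℝ)
    (h0 : ∑ v, δ v = 0)
    (h : ∀ S : Finset V, S.Nonempty → S ≠ Finset.univ → ∑ v ∈ S, δ v ≤
      ∑ e, (if a e ∈ S ∧ b e ∉ S then hi e else if a e ∉ S ∧ b e ∈ S then -lo e else 0)) :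
    ∃ m : E → ℝ, (∀ e, lo e ≤ m e ∧ m e ≤ hi e) ∧
      ∀ v, ∑ e, m e * ((if a e = v then (1 : ℝ) else 0) - (if b e = v then (1 : ℝ) else 0)) =
        δ v := by
  classical
  set c : E → V → ℝ := fun e v =>
    (if a e = v then (1 : ℝ) else 0) - (if b e = v then (1 : ℝ) else 0) with hc
  obtain ⟨m, hbox, hup, hdn⟩ := least_squares c lo hi hlh δ
  refine ⟨m, hbox, ?_⟩
  set ρ : V → ℝ := fun v => δ v - ∑ e, m e * c e v with hρ
  have hgrad : ∀ e, ∑ v, ρ v * c e v = ρ (a e) - ρ (b e) := fun e => sum_dir a b ρ e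
  have hup' : ∀ e, m e < hi e → ρ (a e) - ρ (b e) ≤ 0 := fun e he => by
    rw [← hgrad]; exact hup e he
  have hdn' : ∀ e, lo e < m e → 0 ≤ ρ (a e) - ρ (b e) := fun e he => by
    rw [← hgrad]; exact hdn e he
  -- the residuals sum to zero
  have hsum0 : ∑ v, ρ v = 0 := by
    have e2 : ∀ e, ∑ v, (1 : ℝ) * c e v = 0 := fun e => by
      have := sum_dir a b (fun _ => (1 : ℝ)) e
      rw [sub_self] at this
      exact this
    have e1 : ∑ v, ∑ e, m e * c e v = 0 := by
      have h1 := sum_deg c m (fun _ => (1 : ℝ))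
      have h2 : ∑ e, m e * ∑ v, (1 : ℝ) * c e v = 0 :=
        Finset.sum_eq_zero (fun e _ => by rw [e2 e, mul_zero])
      rw [h2] at h1
      simpa only [one_mul] using h1
    simp only [hρ, Finset.sum_sub_distrib, h0, e1, sub_zero]
  by_contra hcon
  push Not at hcon
  obtain ⟨v0, hv0⟩ := hcon
  have hρ0 : ρ v0 ≠ 0 := by
    intro h0
    apply hv0
    have : δ v0 - ∑ e, m e * c e v0 = 0 := h0
    linarith
  obtain ⟨v1, -, hv1⟩ := Finset.exists_max_image Finset.univ ρ ⟨v0, Finset.mem_univ _⟩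
  set M := ρ v1 with hM
  have hle : ∀ v, ρ v ≤ M := fun v => hv1 v (Finset.mem_univ v)
  have hMpos : 0 < M := by
    by_contra hneg
    push Not at hneg
    have h1 : ∀ v ∈ Finset.univ, ρ v ≤ 0 := fun v _ => (hle v).trans hneg
    have h2 := (Finset.sum_eq_zero_iff_of_nonpos h1).1 hsum0
    exact hρ0 (h2 v0 (Finset.mem_univ _))
  set S : Finset V := Finset.univ.filter (fun v => ρ v = M) with hS
  have hmemS : ∀ v, v ∈ S ↔ ρ v = M := fun v => by simp [hS]
  have hSne : S.Nonempty := ⟨v1, (hmemS v1).2 rfl⟩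
  have hSuniv : S ≠ Finset.univ := by
    intro hSu
    have : ∀ v, ρ v = M := fun v => (hmemS v).1 (by rw [hSu]; exact Finset.mem_univ v)
    have h3 : ∑ v, ρ v = Fintype.card V * M := by
      rw [Finset.sum_congr rfl fun v _ => this v, Finset.sum_const, nsmul_eq_mul,
        Finset.card_univ]
    have hcard : (0 : ℝ) < Fintype.card V := by exact_mod_cast Fintype.card_pos_iff.2 ⟨v0⟩
    have := mul_pos hcard hMpos
    linarith
  have hbd := h S hSne hSuniv
  have hind : ∀ v, (if v ∈ S then (1 : ℝ) else 0) * δ v =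
      (if v ∈ S then (1 : ℝ) else 0) * ∑ e, m e * c e v +
        (if v ∈ S then (1 : ℝ) else 0) * ρ v := by
    intro v
    simp only [hρ]
    ring
  have hsumδ : ∑ v ∈ S, δ v = ∑ v, (if v ∈ S then (1 : ℝ) else 0) * δ v := by
    simp
  have hsumρ : ∑ v, (if v ∈ S then (1 : ℝ) else 0) * ρ v = S.card * M := by
    have : ∑ v, (if v ∈ S then (1 : ℝ) else 0) * ρ v = ∑ v ∈ S, ρ v := by simp
    rw [this, Finset.sum_congr rfl fun v hv => (hmemS v).1 hv, Finset.sum_const, nsmul_eq_mul]
  have hedge : ∀ e, m e * ((if a e ∈ S then (1 : ℝ) else 0) - (if b e ∈ S then (1 : ℝ) else 0)) =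
      (if a e ∈ S ∧ b e ∉ S then hi e else if a e ∉ S ∧ b e ∈ S then -lo e else 0) := by
    intro e
    by_cases h1 : a e ∈ S <;> by_cases h2 : b e ∈ S
    · simp [h1, h2]
    · have hm' : m e = hi e := by
        by_contra hne
        have := hup' e (lt_of_le_of_ne (hbox e).2 hne)
        have h3 := (hmemS _).1 h1
        have h4 : ρ (b e) < M := lt_of_le_of_ne (hle _) (fun h => h2 ((hmemS _).2 h))
        linarith
      simp [h1, h2, hm']
    · have hm' : m e = lo e := by
        by_contra hne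
        have := hdn' e (lt_of_le_of_ne (hbox e).1 (Ne.symm hne))
        have h3 := (hmemS _).1 h2
        have h4 : ρ (a e) < M := lt_of_le_of_ne (hle _) (fun h => h1 ((hmemS _).2 h))
        linarith
      simp [h1, h2, hm']
    · simp [h1, h2]
  have hfin : ∑ v ∈ S, δ v =
      ∑ e, (if a e ∈ S ∧ b e ∉ S then hi e else if a e ∉ S ∧ b e ∈ S then -lo e else 0) +
        S.card * M := by
    rw [hsumδ, Finset.sum_congr rfl fun v _ => hind v, Finset.sum_add_distrib, hsumρ,
      sum_deg c m (fun v => if v ∈ S then (1 : ℝ) else 0)]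
    congr 1
    apply Finset.sum_congr rfl
    intro e _
    rw [← hedge e]
    congr 1
    exact sum_dir a b (fun v => if v ∈ S then (1 : ℝ) else 0) e
  have hcard : (0 : ℝ) < S.card := by exact_mod_cast hSne.card_pos
  have := mul_pos hcard hMpos
  linarith

end Pool.Agent.UPS.BoxK
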