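import Pool.Agent.Lib.MP_876e19_co.Toggle

/-!
# Classes with a sharply transitive set of automorphisms (helper49)

`hasUPS_of_classes`: let `χ : V → κ` be a partition of the vertices, `T` a set of automorphisms
preserving the classes and sharply transitive on every class.  Path systems at one root `r c` of
every class are enough: only the sums of the loads over the classes must be equal.
-/

set_option autoImplicit false

namespace Pool.Agent.UPS.TC

open Finset Pool.Agent.UPS Pool.Agent.UPS.Toggle

variable {V : Type*}

/-- path systems at one root per class -/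
theorem hasUPS_of_classes [Fintype V] [DecidableEq V] {G : SimpleGraph V}
    {κ : Type*} [Fintype κ] [DecidableEq κ] (χ : V → κ) (T : Set (G ≃g G))
    (hT1 : ∀ t ∈ T, ∀ v, χ (t v) = χ v)
    (hT2 : ∀ u v, χ u = χ v → ∃! t : G ≃g G, t ∈ T ∧ t u = v)
    (r : κ → V) (hr : ∀ c, χ (r c) = c)
    (p : ∀ c u, G.Walk (r c) u) (hp : ∀ c u, r c ≠ u → (p c u).IsPath)
    (c0 : ℕ) (hc : ∀ k, ∑ c, ∑ w ∈ univ.filter (fun w => χ w = k),
      (univ.filter fun u => r c ≠ u ∧ w ∈ (p c u).support).card = c0) : HasUPS G := by
  classical
  -- the translate taking the root of the class of `x` to `x`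
  have ht : ∀ x : V, ∃ t : G ≃g G, t ∈ T ∧ t (r (χ x)) = x := fun x =>
    (hT2 (r (χ x)) x (hr _)).exists
  choose t htT htr using ht
  let P : ∀ x y : V, G.Walk x y := fun x y =>
    ((p (χ x) ((t x).symm y)).map (t x).toHom).copy (htr x) ((t x).apply_symm_apply y)
  have hsupp : ∀ x y v : V, v ∈ (P x y).support ↔
      (t x).symm v ∈ (p (χ x) ((t x).symm y)).support := by
    intro x y v
    simp only [P, SimpleGraph.Walk.support_copy, SimpleGraph.Walk.support_map, List.mem_map]
    constructor
    · rintro ⟨w, hw, rfl⟩
      have : (t x).symm ((t x).toHom w) = w := (t x).symm_apply_apply w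
      rw [this]; exact hw
    · intro h
      exact ⟨_, h, (t x).apply_symm_apply v⟩
  have hne : ∀ x y : V, x ≠ y → r (χ x) ≠ (t x).symm y := by
    intro x y hxy h
    apply hxy
    have h2 := congrArg (t x) h
    rw [htr, (t x).apply_symm_apply] at h2
    exact h2
  refine ⟨P, ?_, c0, fun v => ?_⟩
  · intro x y hxy
    simp only [P, SimpleGraph.Walk.isPath_copy]
    exact SimpleGraph.Walk.map_isPath_of_injective (t x).injective (hp _ _ (hne x y hxy))
  · rw [load_eq_sum]
    have h1 : ∀ x, (univ.filter fun u => x ≠ u ∧ v ∈ (P x u).support).card =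
        (univ.filter fun u => r (χ x) ≠ u ∧ (t x).symm v ∈ (p (χ x) u).support).card := by
      intro x
      apply card_bij (fun u _ => (t x).symm u)
      · intro u hu
        simp only [mem_filter, mem_univ, true_and] at hu ⊢
        exact ⟨hne x u hu.1, (hsupp x u v).1 hu.2⟩
      · intro u _ u' _ h
        exact (t x).symm.injective h
      · intro u hu
        simp only [mem_filter, mem_univ, true_and] at hu
        refine ⟨t x u, ?_, (t x).symm_apply_apply u⟩
        simp only [mem_filter, mem_univ, true_and]
        refine ⟨fun h => hu.1 ?_, ?_⟩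
        · have h2 : t x (r (χ x)) = t x u := by rw [htr]; exact h
          exact (t x).injective h2
        · have e : (t x).symm (t x u) = u := (t x).symm_apply_apply u
          rw [hsupp, e]; exact hu.2
    rw [sum_congr rfl fun x _ => h1 x, ← hc (χ v)]
    rw [← sum_fiberwise univ χ]
    refine sum_congr rfl fun c _ => ?_
    refine sum_bij (fun x _ => (t x).symm v) ?_ ?_ ?_ ?_
    · intro x _
      rw [mem_filter]
      refine ⟨mem_univ _, ?_⟩
      have := hT1 (t x) (htT x) ((t x).symm v)
      rw [(t x).apply_symm_apply] at this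
      exact this.symm
    · intro x hx x' hx' h
      rw [mem_filter] at hx hx'
      have e1 : t x ((t x).symm v) = v := (t x).apply_symm_apply v
      have e2 : t x' ((t x).symm v) = v := by
        have h' : (t x).symm v = (t x').symm v := h
        rw [h']; exact (t x').apply_symm_apply v
      have e0 : χ ((t x).symm v) = χ v := by
        have := hT1 (t x) (htT x) ((t x).symm v)
        rw [e1] at this
        exact this.symm
      have e3 : t x = t x' := (hT2 ((t x).symm v) v e0).unique ⟨htT x, e1⟩ ⟨htT x', e2⟩
      rw [← htr x, ← htr x', e3, hx.2, hx'.2]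
    · intro w hw
      rw [mem_filter] at hw
      obtain ⟨s, ⟨hsT, hsw⟩, _⟩ := hT2 w v hw.2
      have hχ : χ (s (r c)) = c := by rw [hT1 s hsT, hr]
      refine ⟨s (r c), ?_, ?_⟩
      · rw [mem_filter]; exact ⟨mem_univ _, hχ⟩
      · have e : t (s (r c)) = s := by
          refine (hT2 (r c) (s (r c)) (by rw [hr, hχ])).unique ⟨htT _, ?_⟩ ⟨hsT, rfl⟩
          have := htr (s (r c))
          rw [hχ] at this
          exact this
        change (t (s (r c))).symm v = w
        rw [e, ← hsw]
        exact s.symm_apply_apply w
    · intro x hx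
      rw [mem_filter] at hx
      rw [hx.2]

end Pool.Agent.UPS.TC
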