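import Pool.Agent.Lib.MP_876e19_co_ups.HallL2
import Pool.Agent.Lib.MP_876e19_co_ups.TwoSided

/-!
# Criterion for bipartite graphs (helper16, TT876)

A path system `P` of a bipartite connected vertex-transitive graph whose load is
`μ + (boundary of k)` can be completed to a uniform path system if the room between the kills and
the L2 norm of `k` is large enough.
-/

set_option autoImplicit false

open Finset Classical

namespace Pool.Agent.UPS3

open Pool.Agent.UPS Pool.Agent.UPS.TS

variable {V : Type*} [Fintype V] {G : SimpleGraph V}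

lemma sided_of_edges {side : V → Bool} (hside : ∀ u v, G.Adj u v → side u ≠ side v)
    {t : Sym2 V → ℕ} (ht : ∀ e, t e ≠ 0 → e ∈ G.edgeSet) : Sided side t := by
  intro e he
  have h1 := ht e he
  induction e with
  | _ u v =>
    have hadj : G.Adj u v := h1
    have h2 := hside u v hadj
    cases hu : side u with
    | true => exact ⟨u, v, rfl, hu, by cases hv : side v <;> simp_all⟩
    | false => exact ⟨v, u, Sym2.eq_swap, by cases hv : side v <;> simp_all, hu⟩

/-- **Criterion, bipartite graphs.** -/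
theorem bip_criterion (hG : G.Connected) (hT : VT G) {d : ℕ} (hd0 : 0 < d)
    (hd : ∀ v, (univ.filter fun w => G.Adj v w).card = d)
    (side : V → Bool) (hside : ∀ u v, G.Adj u v → side u ≠ side v)
    (P : ∀ x y : V, G.Walk x y) (hP : Paths P) (μ : ℝ) (k : V → V → ℝ)
    (hk : ∀ u v, k u v = k v u)
    (hload : ∀ v, (load P v : ℝ) = μ + ∑ w, if G.Adj v w then k v w else 0)
    (c Δ₁ Δ₂ : ℕ) (hc1 : ∀ v, load P v ≤ c) (hc2 : ∀ v, c ≤ load P v + Δ₁ + Δ₂)
    (hout : ∀ u w, G.Adj u w → Δ₁ + 2 + outKill P u w + outKill P w u ≤ Fintype.card V)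
    (hin : ∀ u w, G.Adj u w → Δ₂ + 4 + inKill P u w + inKill P w u ≤ Fintype.card V)
    (hμ : μ ≤ c)
    (hkk : d * (∑ p : V × V, if G.Adj p.1 p.2 then (k p.1 p.2) ^ 2 else 0) ≤
      2 * (((d + 1) / 2 : ℕ) : ℝ) * (c - μ) ^ 2) : HasUPS G := by
  obtain ⟨t, ht, hm⟩ := bip_mult hG hT hd0 hd side hside (fun v => c - load P v) (c - μ) k hk
    (fun v => by rw [Nat.cast_sub (hc1 v), hload v]; ring) (sub_nonneg.2 hμ) hkk
  refine bip_finish P hP (sided_of_edges hside ht) ht Δ₁ Δ₂ c (fun v => ?_) hout hin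
    (fun v => ?_)
  · rw [hm v]
    have := hc2 v
    omega
  · rw [hm v]
    have := hc1 v
    omega

end Pool.Agent.UPS3
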