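import Mathlib
import Pool.Agent.Lib.MP_876e19_co_ups.CubicNotArc

/-!
# Block C: cubic vertex-transitive graphs which are not arc-transitive

The final theorem is `Pool.Agent.UPS.Cyc.cubic_not_arcT` in `CubicNotArc`.
-/
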