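import Mathlib

/-!
# The cut sum lemma (MP_876e19_co)

For a finite set `V` with symmetric weights `w ≥ 0` such that every cut has weight at least `lam`,
`∑_{σ non-constant} exp (- t * cut σ) ≤ (1+q)^n + (1-q)^n - 2`, `q = exp (- t lam / 2)`,
`n = |V|` (a set and its complement are both counted).  Equality for the cycle.
-/

set_option autoImplicit false

namespace Pool.Agent.UPS2

open Finset Classical

namespace CS

universe u

variable {V : Type u} [Fintype V]

/-- weight of the cut given by a 0/1 function -/
noncomputable def wcut (w : V → V → ℝ) (σ : V → Bool) : ℝ :=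
  ∑ p : V × V, if σ p.1 = true ∧ σ p.2 = false then w p.1 p.2 else 0

/-- non-constant -/
def NC {V : Type u} (σ : V → Bool) : Prop := ∃ a b, σ a ≠ σ b

/-- partition function of the cuts -/
noncomputable def Z (w : V → V → ℝ) (t : ℝ) : ℝ :=
  ∑ σ : V → Bool, if NC σ then Real.exp (-(t * wcut w σ)) else 0

/-- the same restricted to cuts which do not separate `a` and `b` -/
noncomputable def Zeq (w : V → V → ℝ) (a b : V) (t : ℝ) : ℝ :=
  ∑ σ : V → Bool, if NC σ ∧ σ a = σ b then Real.exp (-(t * wcut w σ)) else 0

/-- the value for the cycle -/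
noncomputable def F (lam : ℝ) (n : ℕ) (t : ℝ) : ℝ :=
  (1 + Real.exp (-(t * (lam / 2)))) ^ n + (1 - Real.exp (-(t * (lam / 2)))) ^ n - 2

/-- pushed forward weights -/
noncomputable def push {V' : Type u} (f : V → V') (w : V → V → ℝ) (x y : V') : ℝ :=
  ∑ p : V × V, if f p.1 = x ∧ f p.2 = y then w p.1 p.2 else 0

lemma wcut_push {V' : Type u} [Fintype V'] (f : V → V') (w : V → V → ℝ) (σ : V' → Bool) :
    wcut (push f w) σ = wcut w (fun a => σ (f a)) := by
  unfold wcut push
  have h1 : ∀ q : V' × V', (if σ q.1 = true ∧ σ q.2 = false then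
      ∑ p : V × V, (if f p.1 = q.1 ∧ f p.2 = q.2 then w p.1 p.2 else 0) else 0) =
      ∑ p : V × V, (if q = (f p.1, f p.2) then
        (if σ (f p.1) = true ∧ σ (f p.2) = false then w p.1 p.2 else 0) else 0) := by
    intro q
    by_cases hq : σ q.1 = true ∧ σ q.2 = false
    · rw [if_pos hq]
      refine Finset.sum_congr rfl fun p _ => ?_
      by_cases hp : f p.1 = q.1 ∧ f p.2 = q.2
      · have : q = (f p.1, f p.2) := Prod.ext hp.1.symm hp.2.symm
        rw [if_pos hp, if_pos this, if_pos (by rw [hp.1, hp.2]; exact hq)]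
      · have : ¬ q = (f p.1, f p.2) := fun h => hp (by rw [h]; exact ⟨rfl, rfl⟩)
        rw [if_neg hp, if_neg this]
    · rw [if_neg hq]
      symm
      refine Finset.sum_eq_zero fun p _ => ?_
      by_cases hp : q = (f p.1, f p.2)
      · rw [if_pos hp, if_neg]
        rw [hp] at hq
        exact hq
      · rw [if_neg hp]
  rw [Finset.sum_congr rfl fun q _ => h1 q, Finset.sum_comm]
  refine Finset.sum_congr rfl fun p _ => ?_
  rw [Finset.sum_ite_eq' Finset.univ (f p.1, f p.2)
    (fun _ => if σ (f p.1) = true ∧ σ (f p.2) = false then w p.1 p.2 else 0)]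
  simp

lemma push_nonneg {V' : Type u} (f : V → V') {w : V → V → ℝ} (hw : ∀ a b, 0 ≤ w a b)
    (x y : V') : 0 ≤ push f w x y :=
  Finset.sum_nonneg fun p _ => by split_ifs; exacts [hw _ _, le_rfl]

lemma push_symm {V' : Type u} (f : V → V') {w : V → V → ℝ} (hw : ∀ a b, w a b = w b a)
    (x y : V') : push f w x y = push f w y x := by
  unfold push
  rw [← Equiv.sum_comp (Equiv.prodComm V V)]
  refine Finset.sum_congr rfl fun p _ => ?_
  simp only [Equiv.prodComm_apply, Prod.fst_swap, Prod.snd_swap]
  rw [hw p.2 p.1]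
  exact if_congr ⟨fun h => ⟨h.2, h.1⟩, fun h => ⟨h.2, h.1⟩⟩ rfl rfl

/-- the contraction map which sends `b` to `a` -/
noncomputable def cm (a b : V) (hab : a ≠ b) (x : V) : {x : V // x ≠ b} :=
  if h : x = b then ⟨a, hab⟩ else ⟨x, h⟩

lemma Zeq_eq (w : V → V → ℝ) (a b : V) (hab : a ≠ b) (t : ℝ) :
    Zeq w a b t = Z (push (cm a b hab) w) t := by
  unfold Zeq Z
  rw [← Finset.sum_filter, ← Finset.sum_filter]
  have hres : ∀ σ : V → Bool, σ a = σ b → (fun x => (fun y : {x : V // x ≠ b} => σ y.1)
      (cm a b hab x)) = σ := by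
    intro σ h
    funext x
    by_cases hx : x = b
    · simp only [cm, hx, dif_pos, h]
    · simp only [cm, hx, dif_neg, not_false_eq_true]
  refine Finset.sum_bij' (fun σ _ => fun y : {x : V // x ≠ b} => σ y.1)
    (fun σ _ => fun x => σ (cm a b hab x)) ?_ ?_ ?_ ?_ ?_
  · intro σ hσ
    simp only [mem_filter, mem_univ, true_and] at hσ ⊢
    obtain ⟨⟨x, y, hxy⟩, hab'⟩ := hσ
    refine ⟨cm a b hab x, cm a b hab y, ?_⟩
    have h := hres σ hab'
    have hx := congrFun h x
    have hy := congrFun h y
    simp only at hx hy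
    show σ (cm a b hab x).1 ≠ σ (cm a b hab y).1
    rw [hx, hy]
    exact hxy
  · intro σ hσ
    simp only [mem_filter, mem_univ, true_and] at hσ ⊢
    obtain ⟨x, y, hxy⟩ := hσ
    have hx : cm a b hab x.1 = x := by
      simp only [cm, x.2, dif_neg, not_false_eq_true]
    have hy : cm a b hab y.1 = y := by
      simp only [cm, y.2, dif_neg, not_false_eq_true]
    refine ⟨⟨x.1, y.1, by
      show σ (cm a b hab x.1) ≠ σ (cm a b hab y.1)
      rw [hx, hy]; exact hxy⟩, ?_⟩
    have h1 : cm a b hab a = ⟨a, hab⟩ := by simp only [cm, hab, dif_neg, not_false_eq_true]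
    have h2 : cm a b hab b = ⟨a, hab⟩ := by simp only [cm, dif_pos]
    rw [h1, h2]
  · intro σ hσ
    simp only [mem_filter, mem_univ, true_and] at hσ
    exact hres σ hσ.2
  · intro σ hσ
    funext y
    have hy : cm a b hab y.1 = y := by
      simp only [cm, y.2, dif_neg, not_false_eq_true]
    simp only [hy]
  · intro σ hσ
    simp only [mem_filter, mem_univ, true_and] at hσ
    rw [wcut_push]
    rw [hres σ hσ.2]

lemma wcut_nonneg {w : V → V → ℝ} (hw : ∀ a b, 0 ≤ w a b) (σ : V → Bool) : 0 ≤ wcut w σ :=
  Finset.sum_nonneg fun p _ => by split_ifs; exacts [hw _ _, le_rfl]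

lemma Z_hasDeriv (w : V → V → ℝ) (t : ℝ) :
    HasDerivAt (Z w) (-∑ σ : V → Bool, if NC σ then wcut w σ * Real.exp (-(t * wcut w σ)) else 0)
      t := by
  unfold Z
  rw [← Finset.sum_neg_distrib]
  refine HasDerivAt.fun_sum fun σ _ => ?_
  by_cases h : NC σ
  · simp only [h, if_true]
    have h1 : HasDerivAt (fun s : ℝ => -(s * wcut w σ)) (-(1 * wcut w σ)) t :=
      ((hasDerivAt_id t).mul_const _).neg
    have h2 := h1.exp
    refine h2.congr_deriv ?_
    ring
  · simp only [h, if_false, neg_zero]
    exact hasDerivAt_const _ _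

/-- the derivative as a sum over contracted pairs -/
lemma deriv_eq {w : V → V → ℝ} (hs : ∀ a b, w a b = w b a) (t : ℝ) :
    2 * (∑ σ : V → Bool, if NC σ then wcut w σ * Real.exp (-(t * wcut w σ)) else 0) =
      ∑ p : V × V, w p.1 p.2 * (Z w t - Zeq w p.1 p.2 t) := by
  have e1 : (∑ σ : V → Bool, if NC σ then wcut w σ * Real.exp (-(t * wcut w σ)) else 0) =
      ∑ p : V × V, w p.1 p.2 * ∑ σ : V → Bool,
        if NC σ ∧ σ p.1 = true ∧ σ p.2 = false then Real.exp (-(t * wcut w σ)) else 0 := by
    have : ∀ σ : V → Bool, (if NC σ then wcut w σ * Real.exp (-(t * wcut w σ)) else 0) =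
        ∑ p : V × V, w p.1 p.2 * (if NC σ ∧ σ p.1 = true ∧ σ p.2 = false then
          Real.exp (-(t * wcut w σ)) else 0) := by
      intro σ
      by_cases h : NC σ
      · simp only [h, if_true, true_and]
        conv_lhs => arg 1; unfold wcut
        rw [Finset.sum_mul]
        refine Finset.sum_congr rfl fun p _ => ?_
        split_ifs <;> ring
      · simp [h]
    rw [Finset.sum_congr rfl fun σ _ => this σ, Finset.sum_comm]
    refine Finset.sum_congr rfl fun p _ => ?_
    rw [Finset.mul_sum]
  have e2 : (∑ σ : V → Bool, if NC σ then wcut w σ * Real.exp (-(t * wcut w σ)) else 0) =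
      ∑ p : V × V, w p.1 p.2 * ∑ σ : V → Bool,
        if NC σ ∧ σ p.2 = true ∧ σ p.1 = false then Real.exp (-(t * wcut w σ)) else 0 := by
    rw [e1, ← Equiv.sum_comp (Equiv.prodComm V V)]
    refine Finset.sum_congr rfl fun p _ => ?_
    simp only [Equiv.prodComm_apply, Prod.fst_swap, Prod.snd_swap]
    rw [hs p.2 p.1]
    refine congrArg _ (Finset.sum_congr rfl fun σ _ => if_congr Iff.rfl rfl rfl)
  rw [two_mul]
  conv_lhs => arg 1; rw [e1]
  conv_lhs => arg 2; rw [e2]
  rw [← Finset.sum_add_distrib]
  refine Finset.sum_congr rfl fun p _ => ?_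
  rw [← mul_add]
  congr 1
  unfold Z Zeq
  rw [← Finset.sum_add_distrib, ← Finset.sum_sub_distrib]
  refine Finset.sum_congr rfl fun σ _ => ?_
  by_cases h : NC σ <;> rcases h1 : σ p.1 with _ | _ <;> rcases h2 : σ p.2 with _ | _ <;>
    simp [h]

lemma F_hasDeriv (lam : ℝ) (n : ℕ) (t : ℝ) :
    HasDerivAt (F lam n) (-((n : ℝ) * (lam / 2)) * (Real.exp (-(t * (lam / 2))) *
      ((1 + Real.exp (-(t * (lam / 2)))) ^ (n - 1) -
        (1 - Real.exp (-(t * (lam / 2)))) ^ (n - 1)))) t := by
  unfold F
  have h1 : HasDerivAt (fun s : ℝ => -(s * (lam / 2))) (-(1 * (lam / 2))) t :=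
    ((hasDerivAt_id t).mul_const _).neg
  have h2 := h1.exp
  have h3 := (h2.const_add 1).pow n
  have h4 := (h2.const_sub 1).pow n
  have h5 := (h3.add h4).sub_const 2
  refine h5.congr_deriv ?_
  ring

lemma F_diff (lam : ℝ) (n : ℕ) (t : ℝ) :
    F lam (n + 1) t - F lam n t = Real.exp (-(t * (lam / 2))) *
      ((1 + Real.exp (-(t * (lam / 2)))) ^ n - (1 - Real.exp (-(t * (lam / 2)))) ^ n) := by
  unfold F
  ring

lemma card_NC_le (n : ℕ) (hn : Fintype.card V = n) (h1 : 1 ≤ n) (w : V → V → ℝ) :
    Z w 0 ≤ 2 ^ n - 2 := by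
  obtain ⟨v⟩ : Nonempty V := Fintype.card_pos_iff.1 (by omega)
  have hZ : Z w 0 = ((univ.filter fun σ : V → Bool => NC σ).card : ℝ) := by
    unfold Z
    rw [← Finset.sum_filter]
    simp
  rw [hZ]
  have hcard : (univ : Finset (V → Bool)).card = 2 ^ n := by
    rw [Finset.card_univ, Fintype.card_fun, Fintype.card_bool, hn]
  have hsub : (univ.filter fun σ : V → Bool => NC σ) ⊆
      (univ.erase (fun _ => true)).erase (fun _ => false) := by
    intro σ hσ
    simp only [mem_filter, mem_univ, true_and] at hσ
    obtain ⟨a, b, hab⟩ := hσ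
    refine Finset.mem_erase.2 ⟨fun h => hab (by rw [h]), Finset.mem_erase.2
      ⟨fun h => hab (by rw [h]), mem_univ _⟩⟩
  have h2 := Finset.card_le_card hsub
  have hne : (fun _ : V => false) ≠ (fun _ : V => true) := fun h => by
    have := congrFun h v
    simp at this
  rw [Finset.card_erase_of_mem (Finset.mem_erase.2 ⟨hne, mem_univ _⟩),
    Finset.card_erase_of_mem (mem_univ _), hcard] at h2
  have h3 : (univ.filter fun σ : V → Bool => NC σ).card + 2 ≤ 2 ^ n := by
    have : 2 ≤ 2 ^ n := by
      calc 2 = 2 ^ 1 := rfl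
        _ ≤ 2 ^ n := Nat.pow_le_pow_right (by norm_num) h1
    omega
  have h4 : (((univ.filter fun σ : V → Bool => NC σ).card + 2 : ℕ) : ℝ) ≤ ((2 ^ n : ℕ) : ℝ) := by
    exact_mod_cast h3
  push_cast at h4
  linarith

/-- **cut sum lemma** -/
theorem cut_sum (n : ℕ) : ∀ (V : Type u) [Fintype V], Fintype.card V = n →
    ∀ (w : V → V → ℝ), (∀ a b, 0 ≤ w a b) → (∀ a b, w a b = w b a) →
    ∀ lam : ℝ, 0 ≤ lam → (∀ σ : V → Bool, NC σ → lam ≤ wcut w σ) →
    ∀ t : ℝ, 0 ≤ t → Z w t ≤ F lam n t := by
  induction n with
  | zero =>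
    intro V _ hV w _ _ lam _ _ t _
    have hem : IsEmpty V := Fintype.card_eq_zero_iff.1 hV
    have : Z w t = 0 := by
      unfold Z
      refine Finset.sum_eq_zero fun σ _ => if_neg ?_
      rintro ⟨a, _⟩
      exact hem.elim a
    rw [this]
    unfold F
    norm_num
  | succ n ih =>
    intro V _ hV w hw hs lam hlam hcut t ht
    rcases Nat.eq_zero_or_pos n with rfl | hn
    · -- one vertex
      have hss : Subsingleton V := Fintype.card_le_one_iff_subsingleton.1 (by omega)
      have : Z w t = 0 := by
        unfold Z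
        refine Finset.sum_eq_zero fun σ _ => if_neg ?_
        rintro ⟨a, b, hab⟩
        exact hab (by rw [Subsingleton.elim a b])
      rw [this]
      unfold F
      norm_num
    -- total weight
    set W : ℝ := (1 / 2) * ∑ p : V × V, if p.1 ≠ p.2 then w p.1 p.2 else 0 with hW
    have hWge : ((n + 1 : ℕ) : ℝ) * (lam / 2) ≤ W := by
      have h1 : ∀ a : V, lam ≤ ∑ b : V, if a ≠ b then w a b else 0 := by
        intro a
        have hnc : NC (fun x : V => decide (x = a)) := by
          obtain ⟨b, hb⟩ : ∃ b : V, b ≠ a := by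
            have : 1 < Fintype.card V := by omega
            exact Fintype.exists_ne_of_one_lt_card this a
          exact ⟨a, b, by simp [hb]⟩
        refine (hcut _ hnc).trans (le_of_eq ?_)
        unfold wcut
        rw [Fintype.sum_prod_type]
        rw [Finset.sum_eq_single a]
        · refine Finset.sum_congr rfl fun b _ => ?_
          simp only [decide_true, true_and, decide_eq_false_iff_not]
          exact if_congr ⟨fun h h' => h h'.symm, fun h h' => h h'.symm⟩ rfl rfl
        · intro b _ hb
          refine Finset.sum_eq_zero fun c _ => ?_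
          simp [hb]
        · intro h; exact absurd (mem_univ a) h
      have h2 : ((n + 1 : ℕ) : ℝ) * lam ≤ ∑ p : V × V, if p.1 ≠ p.2 then w p.1 p.2 else 0 := by
        rw [Fintype.sum_prod_type]
        calc ((n + 1 : ℕ) : ℝ) * lam = ∑ _a : V, lam := by
              rw [Finset.sum_const, Finset.card_univ, hV, nsmul_eq_mul]
          _ ≤ _ := Finset.sum_le_sum fun a _ => h1 a
      rw [hW]
      linarith
    have hW0 : 0 ≤ W := le_trans (by positivity) hWge
    -- comparison
    have key : ∀ ε : ℝ, 0 < ε → Z w t ≤ F lam (n + 1) t + ε * Real.exp t := by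
      intro ε hε
      set q : ℝ → ℝ := fun s => Real.exp (-(s * (lam / 2))) with hq
      have hcont : ContinuousOn (Z w) (Set.Icc 0 t) := fun s _ =>
        (Z_hasDeriv w s).continuousAt.continuousWithinAt
      have hB : ∀ s, HasDerivAt (fun s => F lam (n + 1) s + ε * Real.exp s)
          (-(((n + 1 : ℕ) : ℝ) * (lam / 2)) * (F lam (n + 1) s - F lam n s) + ε * Real.exp s)
          s := by
        intro s
        have h1 := F_hasDeriv lam (n + 1) s
        rw [Nat.add_sub_cancel] at h1
        rw [F_diff]
        exact h1.add ((Real.hasDerivAt_exp s).const_mul ε)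
      refine image_le_of_deriv_right_lt_deriv_boundary' hcont
        (fun s _ => (Z_hasDeriv w s).hasDerivWithinAt) ?_
        (fun s _ => (hB s).continuousAt.continuousWithinAt)
        (fun s _ => (hB s).hasDerivWithinAt) ?_ (Set.right_mem_Icc.2 ht)
      · have h1 := card_NC_le (n + 1) hV (by omega) w
        have h2 : F lam (n + 1) 0 = 2 ^ (n + 1) - 2 := by
          unfold F
          simp only [zero_mul, neg_zero, Real.exp_zero, sub_self]
          rw [zero_pow (by omega)]
          norm_num
        simp only [h2, Real.exp_zero, mul_one]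
        linarith
      · intro s hs' heq
        have hs0 : 0 ≤ s := hs'.1
        have hder := deriv_eq hs s (w := w)
        set X := ∑ σ : V → Bool, if NC σ then wcut w σ * Real.exp (-(s * wcut w σ)) else 0
        -- lower bound for X
        have hX : W * (Z w s - F lam n s) ≤ X := by
          have h1 : ∑ p : V × V, (if p.1 ≠ p.2 then w p.1 p.2 else 0) * (Z w s - F lam n s) ≤
              ∑ p : V × V, w p.1 p.2 * (Z w s - Zeq w p.1 p.2 s) := by
            refine Finset.sum_le_sum fun p _ => ?_
            by_cases hp : p.1 = p.2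
            · have hz : Zeq w p.1 p.2 s = Z w s := by
                unfold Zeq Z
                refine Finset.sum_congr rfl fun σ _ => ?_
                rw [hp]
                simp
              rw [hz]
              simp [hp]
            · rw [if_pos hp]
              refine mul_le_mul_of_nonneg_left ?_ (hw _ _)
              have hle : Zeq w p.1 p.2 s ≤ F lam n s := by
                rw [Zeq_eq w p.1 p.2 hp s]
                refine ih {x : V // x ≠ p.2} ?_ _ (push_nonneg _ hw) (push_symm _ hs) lam hlam ?_
                  s hs0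
                · have : Fintype.card {x : V // x ≠ p.2} = Fintype.card V - 1 := by
                    rw [Fintype.card_subtype_compl, Fintype.card_subtype_eq]
                  rw [this, hV]
                  rfl
                · intro σ hσ
                  rw [wcut_push]
                  apply hcut
                  obtain ⟨x, y, hxy⟩ := hσ
                  refine ⟨x.1, y.1, ?_⟩
                  have hx : cm p.1 p.2 hp x.1 = x := by
                    simp only [cm, x.2, dif_neg, not_false_eq_true]
                  have hy : cm p.1 p.2 hp y.1 = y := by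
                    simp only [cm, y.2, dif_neg, not_false_eq_true]
                  show σ (cm p.1 p.2 hp x.1) ≠ σ (cm p.1 p.2 hp y.1)
                  rw [hx, hy]
                  exact hxy
              linarith
          rw [← Finset.sum_mul] at h1
          rw [← hder] at h1
          rw [hW]
          linarith
        have hFd : 0 ≤ F lam (n + 1) s - F lam n s := by
          rw [F_diff]
          have hq0 : 0 < Real.exp (-(s * (lam / 2))) := Real.exp_pos _
          have hq1 : Real.exp (-(s * (lam / 2))) ≤ 1 := by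
            rw [Real.exp_le_one_iff]
            have : 0 ≤ s * (lam / 2) := by positivity
            linarith
          refine mul_nonneg hq0.le (sub_nonneg.2 ?_)
          exact pow_le_pow_left₀ (by linarith) (by linarith) n
        have he : 0 < ε * Real.exp s := mul_pos hε (Real.exp_pos s)
        have heq' : Z w s - F lam n s = (F lam (n + 1) s - F lam n s) + ε * Real.exp s := by
          have : Z w s = F lam (n + 1) s + ε * Real.exp s := heq
          linarith
        rw [heq'] at hX
        have h2 : ((n + 1 : ℕ) : ℝ) * (lam / 2) * (F lam (n + 1) s - F lam n s) ≤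
            W * (F lam (n + 1) s - F lam n s) := mul_le_mul_of_nonneg_right hWge hFd
        have h3 : 0 ≤ W * (ε * Real.exp s) := mul_nonneg hW0 he.le
        have h4 : W * (F lam (n + 1) s - F lam n s + ε * Real.exp s) =
          W * (F lam (n + 1) s - F lam n s) + W * (ε * Real.exp s) := by ring
        linarith
    -- let ε → 0
    by_contra hcon
    push Not at hcon
    set δ := Z w t - F lam (n + 1) t with hδ
    have hδ0 : 0 < δ := by rw [hδ]; linarith
    have h1 := key (δ / (2 * Real.exp t)) (by positivity)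
    have h2 : δ / (2 * Real.exp t) * Real.exp t = δ / 2 := by
      field_simp
    rw [h2] at h1
    linarith

end CS

end Pool.Agent.UPS2
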