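import Pool.Agent.Lib.MP_876e19_co_ups.GenFinish

/-!
# Edgewise capacities

`rowsE` : one stage with a real `K` bounded edge by edge, `gen_finish_edge` : two stages.
-/

set_option autoImplicit false

open Finset

namespace Pool.Agent.HTutte

open UPS2.EC

variable {X V : Type*} [Fintype X] [DecidableEq X] [Fintype V] [DecidableEq V]

/-- **Rows theorem, general row condition.** `K ≥ 0` real on the edges, `deg K = D - 1`, and for
every row and every vertex the sum of `(K(e) + 2/d) / avail(e)` over the available edges at the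
vertex is at most one. -/
theorem rowsK [Nontrivial V] (G : SimpleGraph V) {d : ℕ} (hd0 : 0 < d) (hd : ∀ v, dg G v = d)
    (hcut : ∀ S : Finset V, S.Nonempty → S ≠ univ → d ≤ cut G S)
    (A : X → SimpleGraph V) (hAG : ∀ x v w, (A x).Adj v w → G.Adj v w)
    (hav : ∀ v w, G.Adj v w → 0 < av A v w)
    (D : V → ℕ) (heven : Even (∑ v, D v)) (K : V → V → ℝ) (hK0 : ∀ v w, 0 ≤ K v w)
    (hKs : ∀ v w, K v w = K w v) (hKG : ∀ v w, ¬ G.Adj v w → K v w = 0)
    (hKD : ∀ v, ∑ w, K v w = (D v : ℝ) - 1)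
    (hrow : ∀ x v, ∑ w, (open Classical in if (A x).Adj v w then
      (K v w + 2 / d) / av A v w else 0) ≤ 1) :
    ∃ σ : X → Equiv.Perm V, (∀ x v, σ x v = v ∨ (A x).Adj v (σ x v)) ∧
      ∀ v, (univ.filter fun x => σ x v ≠ v).card = D v := by
  classical
  have hdR : (0 : ℝ) < d := by exact_mod_cast hd0
  have havR : ∀ v w, G.Adj v w → (0 : ℝ) < av A v w := fun v w h => by exact_mod_cast hav v w h
  -- sum over the rows
  have hsumx : ∀ (z : ℝ) (v w : V), G.Adj v w →
      ∑ x, (if (A x).Adj v w then z / av A v w else 0) = z := by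
    intro z v w h
    rw [← Finset.sum_filter, Finset.sum_const, nsmul_eq_mul]
    have h2 : ((univ.filter fun x => (A x).Adj v w).card : ℝ) = av A v w := rfl
    rw [h2, mul_div_cancel₀ _ (havR v w h).ne']
  have hsumx0 : ∀ (z : ℝ) (v w : V), ¬ G.Adj v w →
      ∑ x, (if (A x).Adj v w then z / av A v w else 0) = 0 := by
    intro z v w h
    refine Finset.sum_eq_zero fun x _ => ?_
    rw [if_neg fun h' => h (hAG x v w h')]
  have hdgR : ∀ v, ((univ.filter fun z => G.Adj v z).card : ℝ) = d := by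
    intro v
    have := hd v
    rw [dg, ← Finset.card_filter] at this
    exact_mod_cast this
  refine rows A (fun x v w => if (A x).Adj v w then (K v w + 1 / d) / av A v w else 0)
    (fun x v w => if (A x).Adj v w then (1 / d) / av A v w else 0) D ?_ ?_ ?_ ?_ ?_ ?_ ?_ ?_ heven
  · intro x v w
    rw [hKs v w, av_symm A v w]
    exact if_congr (SimpleGraph.adj_comm _ _ _) rfl rfl
  · intro x v w
    rw [av_symm A v w]
    exact if_congr (SimpleGraph.adj_comm _ _ _) rfl rfl
  · intro x v w h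
    exact if_neg h
  · intro x v w
    split_ifs
    · positivity
    · exact le_refl _
  · intro x v w
    split_ifs with h
    · refine div_le_div_of_nonneg_right ?_ (Nat.cast_nonneg _)
      have := hK0 v w
      linarith
    · exact le_refl _
  · intro x v
    refine le_trans (le_of_eq ?_) (hrow x v)
    rw [← Finset.sum_add_distrib]
    refine Finset.sum_congr rfl fun w _ => ?_
    split_ifs
    · ring
    · ring
  · intro v
    rw [Finset.sum_comm]
    have h1 : ∀ w, ∑ x, (if (A x).Adj v w then (K v w + 1 / d) / av A v w else 0) =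
        K v w + if G.Adj v w then 1 / (d : ℝ) else 0 := by
      intro w
      by_cases h : G.Adj v w
      · rw [hsumx _ v w h, if_pos h]
      · rw [hsumx0 _ v w h, if_neg h, hKG v w h, add_zero]
    rw [Finset.sum_congr rfl fun w _ => h1 w, Finset.sum_add_distrib, hKD, ← Finset.sum_filter,
      Finset.sum_const, nsmul_eq_mul, hdgR]
    field_simp
    ring
  · intro V1 h1 h2
    have hne : V1 ≠ univ := by
      rintro rfl
      rw [Finset.compl_univ] at h2
      exact Finset.not_nonempty_empty h2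
    have hcR : (d : ℝ) ≤ cut G V1 := by exact_mod_cast hcut V1 h1 hne
    have h3 : ∑ x, ∑ v ∈ V1, ∑ z ∈ V1ᶜ, (if (A x).Adj v z then (1 / (d : ℝ)) / av A v z else 0) =
        cut G V1 * (1 / (d : ℝ)) := by
      rw [Finset.sum_comm, cut_eq, Nat.cast_sum, Finset.sum_mul]
      refine Finset.sum_congr rfl fun v _ => ?_
      rw [Finset.sum_comm, Nat.cast_sum, Finset.sum_mul]
      rw [← Finset.sum_subset (Finset.subset_univ V1ᶜ)]
      · refine Finset.sum_congr rfl fun z hz => ?_
        rw [Finset.mem_compl] at hz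
        by_cases h : G.Adj v z
        · rw [hsumx _ v z h, if_pos ⟨hz, h⟩, Nat.cast_one, one_mul]
        · rw [hsumx0 _ v z h, if_neg fun h' => h h'.2, Nat.cast_zero, zero_mul]
      · intro z _ hz
        rw [Finset.mem_compl, not_not] at hz
        rw [if_neg fun h' => h'.1 hz, Nat.cast_zero, zero_mul]
    rw [h3, mul_one_div, le_div_iff₀ hdR, one_mul]
    exact hcR

/-- **One stage, edgewise capacities.** `(d - 1) (K(e) + 2/d) ≤ avail(e)`. -/
theorem rowsE [Nontrivial V] (G : SimpleGraph V) {d : ℕ} (hd0 : 2 ≤ d) (hd : ∀ v, dg G v = d)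
    (hcut : ∀ S : Finset V, S.Nonempty → S ≠ univ → d ≤ cut G S)
    (A : X → SimpleGraph V) (hAG : ∀ x v w, (A x).Adj v w → G.Adj v w)
    (hAd : ∀ x v, dg (A x) v ≤ d - 1)
    (D : V → ℕ) (heven : Even (∑ v, D v)) (K : V → V → ℝ) (hK0 : ∀ v w, 0 ≤ K v w)
    (hKs : ∀ v w, K v w = K w v) (hKG : ∀ v w, ¬ G.Adj v w → K v w = 0)
    (hKD : ∀ v, ∑ w, K v w = (D v : ℝ) - 1)
    (hcap : ∀ v w, G.Adj v w → ((d : ℝ) - 1) * (K v w + 2 / d) ≤ av A v w) :
    ∃ σ : X → Equiv.Perm V, (∀ x v, σ x v = v ∨ (A x).Adj v (σ x v)) ∧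
      ∀ v, (univ.filter fun x => σ x v ≠ v).card = D v := by
  classical
  have hdR : (2 : ℝ) ≤ d := by exact_mod_cast hd0
  have hpos : ∀ v w, G.Adj v w → (0 : ℝ) < av A v w := by
    intro v w h
    refine lt_of_lt_of_le ?_ (hcap v w h)
    have h1 := hK0 v w
    have h2 : (0 : ℝ) < 2 / d := by positivity
    exact mul_pos (by linarith) (by linarith)
  refine rowsK G (by omega) hd hcut A hAG (fun v w h => by exact_mod_cast hpos v w h) D heven K hK0
    hKs hKG hKD ?_
  intro x v
  calc ∑ w, (if (A x).Adj v w then (K v w + 2 / d) / av A v w else 0)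
      ≤ ∑ w, (if (A x).Adj v w then 1 / ((d : ℝ) - 1) else 0) := by
        refine Finset.sum_le_sum fun w _ => ?_
        split_ifs with h
        · rw [div_le_div_iff₀ (hpos v w (hAG x v w h)) (by linarith)]
          have := hcap v w (hAG x v w h)
          linarith
        · exact le_refl _
    _ = dg (A x) v * (1 / ((d : ℝ) - 1)) := by
        rw [← Finset.sum_filter, Finset.sum_const, nsmul_eq_mul]
        congr 1
        rw [dg, Finset.card_filter]
    _ ≤ ((d : ℝ) - 1) * (1 / ((d : ℝ) - 1)) := by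
        refine mul_le_mul_of_nonneg_right ?_ (by
          have : (0 : ℝ) < (d : ℝ) - 1 := by linarith
          positivity)
        have h1 := hAd x v
        have h2 : (dg (A x) v : ℝ) ≤ ((d - 1 : ℕ) : ℝ) := by exact_mod_cast h1
        rw [Nat.cast_sub (by omega), Nat.cast_one] at h2
        exact h2
    _ = 1 := by
        rw [mul_one_div, div_self (by linarith)]

end Pool.Agent.HTutte

namespace Pool.Agent.UPS.TS

open UPS2.EC HTutte

variable {V : Type*} [Fintype V] [DecidableEq V] {G : SimpleGraph V}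

/-- real multiplicities on the edges with prescribed degrees -/
structure RealK (G : SimpleGraph V) (K : V → V → ℝ) (D : V → ℕ) : Prop where
  nonneg : ∀ v w, 0 ≤ K v w
  symm : ∀ v w, K v w = K w v
  supp : ∀ v w, ¬ G.Adj v w → K v w = 0
  deg : ∀ v, ∑ w, K v w = (D v : ℝ) - 1
  even : Even (∑ v, D v)

/-- **Two-stage correction theorem, edgewise capacities, all graphs.** -/
theorem gen_finish_edge [Nontrivial V] (P : ∀ x y : V, G.Walk x y) (hP : Paths P) {d : ℕ}
    (hd0 : 2 ≤ d) (hd : ∀ v, dg G v = d)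
    (hcut : ∀ S : Finset V, S.Nonempty → S ≠ univ → d ≤ cut G S)
    (D₁ D₂ : V → ℕ) (c : ℕ) (K₁ K₂ : V → V → ℝ) (h₁ : RealK G K₁ D₁) (h₂ : RealK G K₂ D₂)
    (hout : ∀ u w, G.Adj u w → ((d : ℝ) - 1) * (K₁ u w + 2 / d) + 2 + outKill P u w +
      outKill P w u ≤ Fintype.card V)
    (hin : ∀ u w, G.Adj u w → ((d : ℝ) - 1) * (K₂ u w + 2 / d) + 4 + inKill P u w +
      inKill P w u ≤ Fintype.card V)
    (hc : ∀ v, load P v + D₁ v + D₂ v = c) : HasUPS G := by
  classical
  obtain ⟨σ, hσ1, hσ2⟩ := rowsE G hd0 hd hcut (outG P) (fun x v w h => h.1) (outG_dg P hd)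
    D₁ h₁.even K₁ h₁.nonneg h₁.symm h₁.supp h₁.deg (fun v w h => by
      rw [av_eq (outG P) v w (AvOut P v w) fun x => ⟨fun hx => ⟨h, hx⟩, fun hx => hx.2⟩]
      have h1 : (Fintype.card V : ℝ) ≤ (AvOut P v w).card + 2 + outKill P v w + outKill P w v := by
        exact_mod_cast avOut_card P v w
      have h2 := hout v w h
      linarith)
  have hσ3 : ∀ x u, σ x u ≠ u → G.Adj u (σ x u) ∧ x ∈ AvOut P u (σ x u) := fun x u h =>
    (hσ1 x u).resolve_left h
  have hOK : OutOK P σ := by
    refine ⟨fun x => ?_, fun x u h => ?_⟩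
    · by_contra h
      have h1 := (hσ3 x x h).2
      simp [AvOut] at h1
    · obtain ⟨h1, h2⟩ := hσ3 x u h
      simp only [AvOut, mem_filter, mem_univ, true_and] at h2
      exact ⟨h1.symm, h2.2.2.2⟩
  obtain ⟨τ, hτ1, hτ2⟩ := rowsE G hd0 hd hcut (inG P σ) (fun x v w h => h.1)
    (inG_dg P σ hOK.1 hd) D₂ h₂.even K₂ h₂.nonneg h₂.symm h₂.supp h₂.deg (fun v w h => by
      rw [av_eq (inG P σ) v w (AvIn P σ v w) fun x => ⟨fun hx => ⟨h, hx⟩, fun hx => hx.2⟩]
      have h1 : (Fintype.card V : ℝ) ≤ (AvIn P σ v w).card + 4 + inKill P v w + inKill P w v := by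
        exact_mod_cast avIn_card' P σ hOK h.ne
      have h2 := hin v w h
      linarith)
  have hτ3 : ∀ y u, τ y u ≠ u → G.Adj u (τ y u) ∧ y ∈ AvIn P σ u (τ y u) := fun x u h =>
    (hτ1 x u).resolve_left h
  obtain ⟨P', hP', hl⟩ := two_sided P hP σ τ hOK (fun y => by
      by_contra h
      have h1 := (hτ3 y y h).2
      simp [AvIn] at h1) (fun y x h => by
      obtain ⟨h1, h2⟩ := hτ3 y x h
      simp only [AvIn, mem_filter, mem_univ, true_and] at h2
      exact ⟨h1, h2.2.2.2⟩)
  exact ⟨P', hP', c, fun v => by rw [hl, hσ2, hτ2, hc]⟩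

end Pool.Agent.UPS.TS
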