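import Pool.Agent.Lib.MP_876e19_co_ups.TwoClassGroup
import Pool.Agent.Lib.MP_876e19_co_ups.Antipode

/-!
# 18 vertices, degree 4, not bipartite (MP_876e19_co, window)
-/

set_option autoImplicit false
set_option linter.unusedSectionVars false

namespace Pool.Agent.UPS

open Finset MulAction

/-- a symmetric irreflexive relation on a finite set has an even number of pairs -/
theorem even_pairs {V : Type*} [Fintype V] [DecidableEq V] (R : V → V → Prop)
    [DecidableRel R] (hs : ∀ u v, R u v → R v u) (hi : ∀ v, ¬ R v v) :
    Even (∑ v, (univ.filter fun w => R v w).card) := by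
  have h : ((∑ v, (univ.filter fun w => R v w).card : ℕ) : ZMod 2) = 0 := by
    have h1 : ∑ p ∈ (univ : Finset (V × V)).filter (fun p => R p.1 p.2), (1 : ZMod 2) = 0 := by
      apply Finset.sum_involution (fun p _ => p.swap)
      · intro p _; decide
      · rintro ⟨a, b⟩ hp _ h
        simp only [mem_filter, mem_univ, true_and] at hp
        simp only [Prod.swap_prod_mk, Prod.mk.injEq] at h
        rw [h.1] at hp
        exact hi _ hp
      · rintro ⟨a, b⟩ _; rfl
      · rintro ⟨a, b⟩ hp
        simp only [mem_filter, mem_univ, true_and] at hp ⊢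
        exact hs _ _ hp
    rw [sum_filter, Fintype.sum_prod_type] at h1
    push_cast
    rw [← h1]
    apply sum_congr rfl
    intro v _
    rw [card_filter]
    push_cast
    rfl
  rwa [ZMod.natCast_eq_zero_iff_even] at h

/-- an automorphism of odd order fixes the points of an invariant set with two elements -/
theorem fix_of_two {V : Type*} [DecidableEq V] (g : V → V) (hg : Function.Injective g)
    (N : Finset V) (hN : N.card = 2) (hinv : ∀ w ∈ N, g w ∈ N) {m : ℕ} (hm : Odd m)
    (hgm : ∀ w, g^[m] w = w) : ∀ w ∈ N, g w = w := by
  intro w hw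
  by_contra hne
  obtain ⟨a, b, hab, rfl⟩ := card_eq_two.1 hN
  have key : g (g w) = w := by
    have h1 := hinv w hw
    have h2 := hinv _ h1
    simp only [mem_insert, mem_singleton] at hw h1 h2
    have h3 : g (g w) ≠ g w := fun h => hne (hg h)
    rcases hw with rfl | rfl <;> rcases h1 with h1 | h1 <;> rcases h2 with h2 | h2 <;>
      simp_all
  have h2 : g^[2] w = w := key
  obtain ⟨k, rfl⟩ := hm
  have h3 := hgm w
  rw [Function.iterate_add_apply, Function.iterate_one, Function.iterate_mul] at h3
  have h4 : g^[2] (g w) = g w := by
    change g (g (g w)) = g w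
    rw [key]
  have h5 : ∀ j : ℕ, (g^[2])^[j] (g w) = g w := by
    intro j
    induction j with
    | zero => rfl
    | succ j ih => rw [Function.iterate_succ_apply', ih, h4]
  rw [h5] at h3
  exact hne h3

/-- `(d, n) = (4, 18)`, not bipartite -/
theorem hasUPS_card18 {V : Type*} [Fintype V] [DecidableEq V] {G : SimpleGraph V}
    [DecidableRel G.Adj] (hG : G.Connected) (hT : VT G) (hcard : Fintype.card V = 18)
    (hreg : ∀ v, (univ.filter fun w => G.Adj v w).card = 4)
    (hbip : ¬ G.Colorable 2) : HasUPS G := by
  by_cases hdist : ∃ x y, 5 ≤ G.dist x y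
  · exact hasUPS_card18_diam5 hG hT hcard hreg hdist
  push Not at hdist
  have hfin : Finite (G ≃g G) :=
    Finite.of_injective (fun φ : G ≃g G => (φ : V → V)) DFunLike.coe_injective
  have : IsPretransitive (G ≃g G) V := ⟨fun u v => hT u v⟩
  have := Fact.mk Nat.prime_three
  obtain ⟨P⟩ : Nonempty (Sylow 3 (G ≃g G)) := inferInstance
  obtain ⟨horb, χ, hχ1, hχ2, hχ3⟩ := TC.two_orbits (V := V) (a := 2) Nat.prime_three le_rfl
    (by rw [hcard]; norm_num) P
  -- inner and outer neighbours
  let A : V → Finset V := fun v => univ.filter fun w => G.Adj v w ∧ χ w = χ v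
  let B : V → Finset V := fun v => univ.filter fun w => G.Adj v w ∧ χ w ≠ χ v
  have hAB : ∀ v, (A v).card + (B v).card = 4 := by
    intro v
    rw [← hreg v, ← card_filter_add_card_filter_not (s := univ.filter fun w => G.Adj v w)
      (fun w => χ w = χ v)]
    simp only [A, B, filter_filter]
  have hAinv : ∀ g ∈ P, ∀ v, (A (g • v)).card = (A v).card := by
    intro g hg v
    symm
    apply card_bij (fun w _ => g • w)
    · intro w hw
      simp only [A, mem_filter, mem_univ, true_and] at hw ⊢
      refine ⟨g.map_adj_iff.2 hw.1, ?_⟩
      rw [hχ1 g hg, hχ1 g hg]; exact hw.2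
    · intro w _ w' _ h
      exact g.injective h
    · intro w hw
      simp only [A, mem_filter, mem_univ, true_and] at hw
      refine ⟨g⁻¹ • w, ?_, smul_inv_smul g w⟩
      simp only [A, mem_filter, mem_univ, true_and]
      have h1 := hχ1 g hg (g⁻¹ • w)
      rw [smul_inv_smul] at h1
      have h2 := hχ1 g hg v
      refine ⟨?_, by rw [← h1, ← h2]; exact hw.2⟩
      have h3 : G.Adj (g • v) (g • (g⁻¹ • w)) := by rw [smul_inv_smul]; exact hw.1
      exact g.map_adj_iff.1 h3
  have hex : ∀ k, ∃ v, χ v = k := by
    intro k
    have h1 : 0 < (univ.filter fun v => χ v = k).card := by rw [hχ3]; norm_num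
    obtain ⟨v, hv⟩ := card_pos.1 h1
    exact ⟨v, (mem_filter.1 hv).2⟩
  choose o ho using hex
  let r : Bool → ℕ := fun k => (A (o k)).card
  have hA : ∀ v, (A v).card = r (χ v) := by
    intro v
    obtain ⟨g, hg, hgv⟩ := hχ2 (o (χ v)) v (ho _)
    rw [← hgv, hAinv g hg]
    simp only [r, hgv]
  -- parity
  have hev : ∀ k, Even (r k) := by
    intro k
    have h1 := even_pairs (V := V) (fun v w => G.Adj v w ∧ χ v = k ∧ χ w = k)
      (fun u v h => ⟨h.1.symm, h.2.2, h.2.1⟩) (fun v h => h.1.ne rfl)
    have h2 : ∑ v, (univ.filter fun w => G.Adj v w ∧ χ v = k ∧ χ w = k).card = 9 * r k := by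
      have h3 : ∀ v, (univ.filter fun w => G.Adj v w ∧ χ v = k ∧ χ w = k).card =
          if χ v = k then r k else 0 := by
        intro v
        split_ifs with h
        · rw [← h, ← hA v]
          congr 1
          ext w
          simp [A]
        · rw [card_eq_zero, filter_eq_empty_iff]
          rintro w _ ⟨_, h', _⟩
          exact h h'
      rw [sum_congr rfl (fun v _ => h3 v), ← sum_filter, sum_const, hχ3]
      norm_num
    rw [h2, Nat.even_mul] at h1
    rcases h1 with h1 | h1
    · exact absurd h1 (by decide)
    · exact h1
  -- cross edges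
  have hcross : r true = r false := by
    have h1 : ∑ v ∈ univ.filter (fun v => χ v = true), (B v).card =
        ∑ v ∈ univ.filter (fun v => χ v = false), (B v).card := by
      have h2 : ∀ k, ∑ v ∈ univ.filter (fun v => χ v = k), (B v).card =
          ∑ v ∈ univ.filter (fun v => χ v = k), ∑ w ∈ univ.filter (fun w => χ w = !k),
            if G.Adj v w then 1 else 0 := by
        intro k
        apply sum_congr rfl
        intro v hv
        rw [mem_filter] at hv
        rw [← card_filter, filter_filter]
        simp only [B]
        congr 1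
        ext w
        simp only [mem_filter, mem_univ, true_and]
        rw [hv.2, and_comm]
        cases χ w <;> cases k <;> simp
      rw [h2, h2, sum_comm]
      simp only [Bool.not_true, Bool.not_false]
      apply sum_congr rfl
      intro v _
      apply sum_congr rfl
      intro w _
      simp only [G.adj_comm]
    have h3 : ∀ k, ∑ v ∈ univ.filter (fun v => χ v = k), (B v).card = 9 * (4 - r k) := by
      intro k
      have h4 : ∀ v ∈ univ.filter (fun v => χ v = k), (B v).card = 4 - r k := by
        intro v hv
        rw [mem_filter] at hv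
        have := hAB v
        rw [hA v, hv.2] at this
        omega
      rw [sum_congr rfl h4, sum_const, hχ3, smul_eq_mul]
      norm_num
    rw [h3, h3] at h1
    have h5 : ∀ k, r k ≤ 4 := by
      intro k
      have := hAB (o k)
      rw [hA, ho] at this
      omega
    have := h5 true
    have := h5 false
    omega
  -- the inner degree is two
  have hr2 : ∀ k, r k = 2 := by
    have h5 : r true ≤ 4 := by
      have := hAB (o true)
      rw [hA, ho] at this
      omega
    have h6 := hev true
    have h7 : r true = 0 ∨ r true = 2 ∨ r true = 4 := by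
      obtain ⟨m, hm⟩ := h6
      omega
    have h8 : r true = 2 := by
      rcases h7 with h | h | h
      · exfalso
        have h9 : ∀ v, (A v).card = 0 := by
          intro v
          rw [hA]
          cases χ v
          · rw [← hcross]; exact h
          · exact h
        apply hbip
        refine ⟨SimpleGraph.Coloring.mk (fun v => if χ v then (0 : Fin 2) else 1) ?_⟩
        intro u v huv heq
        have h10 : χ v = χ u := by
          revert heq
          cases χ v <;> cases χ u <;> simp
        have h11 : v ∈ A u := by simp [A, huv, h10]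
        rw [card_eq_zero.1 (h9 u)] at h11
        exact absurd h11 (notMem_empty _)
      · exact h
      · exfalso
        have h9 : ∀ v, (B v).card = 0 := by
          intro v
          have := hAB v
          rw [hA] at this
          have h10 : r (χ v) = 4 := by
            cases χ v
            · rw [← hcross]; exact h
            · exact h
          omega
        have h10 : ∀ u v, G.Adj u v → χ v = χ u := by
          intro u v huv
          by_contra hne
          have h11 : v ∈ B u := by simp [B, huv, hne]
          rw [card_eq_zero.1 (h9 u)] at h11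
          exact absurd h11 (notMem_empty _)
        have h11 : ∀ u v, G.Walk u v → χ v = χ u := by
          intro u v w
          induction w with
          | nil => rfl
          | cons h _ ih => rw [ih, h10 _ _ h]
        obtain ⟨w⟩ := hG.preconnected (o true) (o false)
        have := h11 _ _ w
        rw [ho, ho] at this
        exact absurd this (by decide)
    intro k
    cases k
    · rw [← hcross]; exact h8
    · exact h8
  -- freeness
  have hodd : ∀ g ∈ P, ∃ m, Odd m ∧ ∀ w : V, (fun v => g v)^[m] w = w := by
    intro g hg
    obtain ⟨k, hk⟩ := P.isPGroup' ⟨g, hg⟩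
    refine ⟨3 ^ k, Odd.pow (by decide), fun w => ?_⟩
    have h1 : g ^ (3 ^ k) = 1 := congrArg Subtype.val hk
    have h2 : ∀ m : ℕ, (fun v => g v)^[m] w = (g ^ m) w := by
      intro m
      induction m with
      | zero => rfl
      | succ m ih =>
        rw [Function.iterate_succ_apply', ih, pow_succ']
        rfl
    rw [h2, h1]
    rfl
  have hfix : ∀ g ∈ P, ∀ v, g v = v → ∀ w, G.Adj v w → g w = w := by
    intro g hg v hv w hw
    obtain ⟨m, hm, hgm⟩ := hodd g hg
    by_cases hc : χ w = χ v
    · refine fix_of_two (fun v => g v) g.injective (A v) (by rw [hA, hr2]) ?_ hm hgm w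
        (by simp [A, hw, hc])
      intro z hz
      simp only [A, mem_filter, mem_univ, true_and] at hz ⊢
      constructor
      · have := g.map_adj_iff.2 hz.1
        rwa [hv] at this
      · have := hχ1 g hg z
        rw [← hz.2]; exact this
    · refine fix_of_two (fun v => g v) g.injective (B v) ?_ ?_ hm hgm w
        (by simp [B, hw, hc])
      · have := hAB v
        rw [hA, hr2] at this
        omega
      · intro z hz
        simp only [B, mem_filter, mem_univ, true_and] at hz ⊢
        constructor
        · have := g.map_adj_iff.2 hz.1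
          rwa [hv] at this
        · have := hχ1 g hg z
          intro h
          exact hz.2 (by rw [← this]; exact h)
  have hfree : ∀ g ∈ P, ∀ v, g v = v → g = 1 := by
    intro g hg v hv
    have h1 : ∀ a b, G.Walk a b → g a = a → g b = b := by
      intro a b w
      induction w with
      | nil => exact id
      | cons h _ ih => exact fun ha => ih (hfix g hg _ ha _ h)
    ext w
    obtain ⟨p⟩ := hG.preconnected v w
    exact h1 _ _ p hv
  refine TC.hasUPS_of_two_classes hG hT χ (P : Set (G ≃g G)) hχ1 ?_ (by rw [hχ3, hχ3])
    (by rw [hχ3]; decide) (fun _ x y => (hdist x y).le.trans' (by omega))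
  intro u v huv
  obtain ⟨g, hg, hgv⟩ := hχ2 u v huv
  refine ⟨g, ⟨hg, hgv⟩, ?_⟩
  rintro g' ⟨hg', hgv'⟩
  have h1 : (g⁻¹ * g') u = u := by
    have h2 : g' u = g u := by
      have h3 : g • u = v := hgv
      rw [hgv', ← h3]; rfl
    change g.symm (g' u) = u
    rw [h2]
    exact g.symm_apply_apply u
  have h2 := hfree (g⁻¹ * g') (P.mul_mem (P.inv_mem hg) hg') u h1
  rw [inv_mul_eq_one] at h2
  exact h2.symm

end Pool.Agent.UPS

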