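import Pool.Agent.Lib.MP_876e19_co_ups.ParityK

/-!
# Parity, `n` even: the finish (MP_876e19_co, helper81)

`even_finish` : finish for `n` even and `G` not bipartite: only the lower side of the box pays for
the parity gadget, and nothing at all is paid if the gadget is a triangle.
-/

set_option autoImplicit false

open Finset

namespace Pool.Agent.UPS2

namespace PM

open HTutte UPS3 EC UPS UPS.TS

variable {V : Type*} [Fintype V] [DecidableEq V] {G : SimpleGraph V}

/-- **the replaced system** of a given gadget path -/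
theorem gadget_of {u w : V} (huw : G.Adj u w) (Q : G.Walk u w) (hev : Even Q.length)
    (h2 : 2 ≤ Q.length) (hQ : Q.IsPath)
    (hu : ∀ b ∈ Q.support, G.Adj u b → b = w ∨ b = Q.getVert 1)
    (hw : ∀ b ∈ Q.support, G.Adj b w → b = u ∨ b = Q.getVert (Q.length - 1))
    (P : ∀ x y : V, G.Walk x y) (hP : Paths P) (hPuw : P u w = huw.toWalk) :
    Paths (Gad.repl P Q) ∧
    (∀ v, load (Gad.repl P Q) v = load P v +
      ∑ j ∈ Finset.Ico 1 Q.length, (if v = Q.getVert j then 1 else 0)) ∧
    (∀ a b, G.Adj a b → outKill (Gad.repl P Q) a b + outKill (Gad.repl P Q) b a ≤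
      outKill P a b + outKill P b a + (if s(a, b) = s(w, Q.getVert (Q.length - 1)) then 1 else 0)) ∧
    (∀ a b, G.Adj a b → inKill (Gad.repl P Q) a b + inKill (Gad.repl P Q) b a ≤
      inKill P a b + inKill P b a + (if s(a, b) = s(u, Q.getVert 1) then 1 else 0)) ∧
    ∃ m, Odd m ∧ ∑ v, load (Gad.repl P Q) v = ∑ v, load P v + m := by
  have hself := Gad.repl_self P Q
  have hne : ∀ {x y : V}, ¬ (x = u ∧ y = w) → Gad.repl P Q x y = P x y :=
    fun h => Gad.repl_of_ne P Q h
  have h3 : ∀ v, load (Gad.repl P Q) v + (if v = u ∨ v = w then 1 else 0) =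
      load P v + (if v ∈ Q.support then 1 else 0) := by
    intro v
    have h3 := Gad.sum_swap
      (fun p : V × V => if p.1 ≠ p.2 ∧ v ∈ (Gad.repl P Q p.1 p.2).support then 1 else 0)
      (fun p : V × V => if p.1 ≠ p.2 ∧ v ∈ (P p.1 p.2).support then 1 else 0) (u, w) (by
        intro p hp
        have : ¬ (p.1 = u ∧ p.2 = w) := fun h => hp (Prod.ext h.1 h.2)
        rw [hne this])
    rw [← Gad.load_sum, ← Gad.load_sum] at h3
    simp only [hself, hPuw, ne_eq, huw.ne, not_false_eq_true, true_and] at h3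
    rw [← h3]
    congr 1
    simp [SimpleGraph.Adj.toWalk]
  have hload : ∀ v, load (Gad.repl P Q) v = load P v +
      ∑ j ∈ Finset.Ico 1 Q.length, (if v = Q.getVert j then 1 else 0) := by
    intro v
    have h4 := h3 v
    rw [supp_sum hQ (by omega) v] at h4
    omega
  refine ⟨?_, hload, ?_, ?_, ?_⟩
  · intro x y hxy
    by_cases h : x = u ∧ y = w
    · obtain ⟨rfl, rfl⟩ := h
      rw [hself]; exact hQ
    · rw [hne h]; exact hP x y hxy
  · intro a b hab
    have key : ∀ a b, G.Adj a b → outKill (Gad.repl P Q) a b ≤ outKill P a b +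
        (if a = w ∧ b = Q.getVert (Q.length - 1) then 1 else 0) := by
      intro a b hab
      unfold outKill
      by_cases h : a = w ∧ b = Q.getVert (Q.length - 1)
      · rw [if_pos h]
        calc _ ≤ (insert u (univ.filter fun x => x ≠ a ∧ x ≠ b ∧ b ∈ (P x a).support)).card := by
              apply card_le_card
              intro x hx
              simp only [mem_filter, mem_univ, true_and, mem_insert] at hx ⊢
              by_cases hxu : x = u
              · exact Or.inl hxu
              · right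
                rw [hne (fun h => hxu h.1)] at hx
                exact hx
          _ ≤ _ := card_insert_le _ _
      · rw [if_neg h, Nat.add_zero]
        apply card_le_card
        intro x hx
        simp only [mem_filter, mem_univ, true_and] at hx ⊢
        by_cases hxu : x = u ∧ a = w
        · exfalso
          obtain ⟨rfl, rfl⟩ := hxu
          rw [hself] at hx
          rcases hw b hx.2.2 hab.symm with h3 | h3
          · exact hx.2.1 h3.symm
          · exact h ⟨rfl, h3⟩
        · rw [hne hxu] at hx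
          exact hx
    have h3 := key a b hab
    have h4 := key b a hab.symm
    have h5 : (if a = w ∧ b = Q.getVert (Q.length - 1) then 1 else 0) +
        (if b = w ∧ a = Q.getVert (Q.length - 1) then 1 else 0) ≤
        (if s(a, b) = s(w, Q.getVert (Q.length - 1)) then 1 else 0) := by
      by_cases h6 : a = w ∧ b = Q.getVert (Q.length - 1)
      · have h7 : ¬ (b = w ∧ a = Q.getVert (Q.length - 1)) := by
          rintro ⟨h8, _⟩
          exact hab.ne (h6.1.trans h8.symm)
        rw [if_pos h6, if_neg h7, if_pos (by rw [h6.1, h6.2])]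
      · rw [if_neg h6]
        by_cases h7 : b = w ∧ a = Q.getVert (Q.length - 1)
        · rw [if_pos h7, if_pos (by rw [h7.1, h7.2, Sym2.eq_swap])]
        · rw [if_neg h7]
          exact Nat.zero_le _
    omega
  · intro a b hab
    have key : ∀ a b, G.Adj a b → inKill (Gad.repl P Q) a b ≤ inKill P a b +
        (if a = u ∧ b = Q.getVert 1 then 1 else 0) := by
      intro a b hab
      unfold inKill
      by_cases h : a = u ∧ b = Q.getVert 1
      · rw [if_pos h]
        calc _ ≤ (insert w (univ.filter fun y => y ≠ a ∧ y ≠ b ∧ b ∈ (P a y).support)).card := by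
              apply card_le_card
              intro y hy
              simp only [mem_filter, mem_univ, true_and, mem_insert] at hy ⊢
              by_cases hyw : y = w
              · exact Or.inl hyw
              · right
                rw [hne (fun h => hyw h.2)] at hy
                exact hy
          _ ≤ _ := card_insert_le _ _
      · rw [if_neg h, Nat.add_zero]
        apply card_le_card
        intro y hy
        simp only [mem_filter, mem_univ, true_and] at hy ⊢
        by_cases hyw : a = u ∧ y = w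
        · exfalso
          obtain ⟨rfl, rfl⟩ := hyw
          rw [hself] at hy
          rcases hu b hy.2.2 hab with h3 | h3
          · exact hy.2.1 h3.symm
          · exact h ⟨rfl, h3⟩
        · rw [hne hyw] at hy
          exact hy
    have h3 := key a b hab
    have h4 := key b a hab.symm
    have h5 : (if a = u ∧ b = Q.getVert 1 then 1 else 0) +
        (if b = u ∧ a = Q.getVert 1 then 1 else 0) ≤
        (if s(a, b) = s(u, Q.getVert 1) then 1 else 0) := by
      by_cases h6 : a = u ∧ b = Q.getVert 1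
      · have h7 : ¬ (b = u ∧ a = Q.getVert 1) := by
          rintro ⟨h8, _⟩
          exact hab.ne (h6.1.trans h8.symm)
        rw [if_pos h6, if_neg h7, if_pos (by rw [h6.1, h6.2])]
      · rw [if_neg h6]
        by_cases h7 : b = u ∧ a = Q.getVert 1
        · rw [if_pos h7, if_pos (by rw [h7.1, h7.2, Sym2.eq_swap])]
        · rw [if_neg h7]
          exact Nat.zero_le _
    omega
  · refine ⟨Q.length - 1, ?_, ?_⟩
    · obtain ⟨r, hr⟩ := hev
      exact ⟨r - 1, by omega⟩
    · rw [Finset.sum_congr rfl fun v _ => hload v, Finset.sum_add_distrib, Finset.sum_comm]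
      congr 1
      simp

omit [Fintype V] in
/-- **the gadget**: a triangle if possible -/
theorem exists_gadget_K {κ : ℝ}
    (hkap : (κ = 1 / 2 ∧ OddW G) ∨
      (κ = 0 ∧ ∃ u z w, G.Adj u z ∧ G.Adj z w ∧ G.Adj u w)) :
    0 ≤ κ ∧ ∃ (u w : V) (Q : G.Walk u w), G.Adj u w ∧ Even Q.length ∧ 2 ≤ Q.length ∧ Q.IsPath ∧
      (∀ b ∈ Q.support, G.Adj u b → b = w ∨ b = Q.getVert 1) ∧
      (∀ b ∈ Q.support, G.Adj b w → b = u ∨ b = Q.getVert (Q.length - 1)) ∧
      ∀ a b, hh Q a b ≤ κ := by
  rcases hkap with ⟨rfl, hodd⟩ | ⟨rfl, u, z, w, huz, hzw, huw⟩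
  · obtain ⟨u, w, Q, huw, hev, h2, hQ, hu, hw⟩ := Gad.exists_gadget hodd
    exact ⟨by norm_num, u, w, Q, huw, hev, h2, hQ, hu, hw, fun a b => hh_le hQ a b⟩
  · let Q : G.Walk u w := .cons huz (.cons hzw .nil)
    have hlen : Q.length = 2 := rfl
    refine ⟨le_rfl, u, w, Q, huw, ⟨1, hlen⟩, hlen.ge, ?_, ?_, ?_, fun a b =>
      (hh_two Q hlen a b).le⟩
    · simp only [Q, SimpleGraph.Walk.cons_isPath_iff, SimpleGraph.Walk.support_cons,
        SimpleGraph.Walk.support_nil, List.mem_cons, List.not_mem_nil, or_false]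
      refine ⟨⟨SimpleGraph.Walk.IsPath.nil, hzw.ne⟩, ?_⟩
      rintro (h | h)
      · exact huz.ne h
      · exact huw.ne h
    · intro b hb hub
      simp only [Q, SimpleGraph.Walk.support_cons, SimpleGraph.Walk.support_nil, List.mem_cons,
        List.not_mem_nil, or_false] at hb
      rcases hb with rfl | rfl | rfl
      · exact absurd rfl hub.ne
      · right; rfl
      · left; rfl
    · intro b hb hbw
      simp only [Q, SimpleGraph.Walk.support_cons, SimpleGraph.Walk.support_nil, List.mem_cons,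
        List.not_mem_nil, or_false] at hb
      rcases hb with rfl | rfl | rfl
      · left; rfl
      · right; rfl
      · exact absurd rfl hbw.ne

omit [Fintype V] in
/-- the variation of the defect -/
lemma var_le (a b w : V) {t : ℝ} (h0 : 0 ≤ t) (h1 : t ≤ 1 / 2) (T T' : Finset V) :
    ∑ v ∈ T, ((-(1 / 2) * (if v = a then 1 else 0) - 1 / 2 * (if v = b then 1 else 0)) +
        t * ((if v = w then 1 else 0) + (if v = b then 1 else 0))) -
    ∑ v ∈ T', ((-(1 / 2) * (if v = a then 1 else 0) - 1 / 2 * (if v = b then 1 else 0)) +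
        t * ((if v = w then 1 else 0) + (if v = b then 1 else 0))) ≤ (1 : ℝ) := by
  have key : ∀ S : Finset V,
      ∑ v ∈ S, ((-(1 / 2) * (if v = a then 1 else 0) - 1 / 2 * (if v = b then 1 else 0)) +
        t * ((if v = w then 1 else 0) + (if v = b then 1 else 0))) =
      (-(1 / 2) * (if a ∈ S then 1 else 0) - 1 / 2 * (if b ∈ S then 1 else 0)) +
        t * ((if w ∈ S then 1 else 0) + (if b ∈ S then (1 : ℝ) else 0)) := by
    intro S
    rw [Finset.sum_add_distrib, Finset.sum_sub_distrib, ← Finset.mul_sum, ← Finset.mul_sum,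
      ← Finset.mul_sum, Finset.sum_add_distrib, Finset.sum_ite_eq', Finset.sum_ite_eq',
      Finset.sum_ite_eq']
  rw [key, key]
  split_ifs <;> nlinarith

omit [DecidableEq V] in
lemma sum_symm [DecidableRel G.Adj] (k : V → V → ℝ) (hk : ∀ a b, k a b = k b a) (y : V → ℝ) :
    2 * ∑ v, y v * ∑ w, (if G.Adj v w then k v w else 0) =
      ∑ p : V × V, if G.Adj p.1 p.2 then (y p.1 + y p.2) * k p.1 p.2 else 0 := by
  have h1 : ∑ v, y v * ∑ w, (if G.Adj v w then k v w else 0) =
      ∑ p : V × V, if G.Adj p.1 p.2 then y p.1 * k p.1 p.2 else 0 := by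
    rw [Fintype.sum_prod_type]
    refine Finset.sum_congr rfl fun v _ => ?_
    rw [Finset.mul_sum]
    refine Finset.sum_congr rfl fun w _ => ?_
    simp only [mul_ite, mul_zero]
  have h2 : ∑ p : V × V, (if G.Adj p.1 p.2 then y p.1 * k p.1 p.2 else 0) =
      ∑ p : V × V, if G.Adj p.1 p.2 then y p.2 * k p.1 p.2 else 0 := by
    rw [Fintype.sum_prod_type, Fintype.sum_prod_type, Finset.sum_comm]
    refine Finset.sum_congr rfl fun a _ => Finset.sum_congr rfl fun b _ => ?_
    rw [hk b a]
    by_cases h : G.Adj b a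
    · rw [if_pos h, if_pos h.symm]
    · rw [if_neg h, if_neg fun h' : G.Adj a b => h h'.symm]
  rw [two_mul]
  nth_rewrite 2 [h1]
  rw [h1, h2]
  nth_rewrite 1 [← h2]
  rw [← Finset.sum_add_distrib]
  refine Finset.sum_congr rfl fun p _ => ?_
  split_ifs <;> ring

omit [DecidableEq V] in
/-- from the tests of the box to the tests of the weights -/
lemma test_of [DecidableRel G.Adj] (cap : V → V → ℝ) (Kst : Sym2 V → ℝ) {κ : ℝ} (h : V → V → ℝ)
    (hs : ∀ a b, h a b = h b a) (h0 : ∀ a b, 0 ≤ h a b) (h1 : ∀ a b, h a b ≤ κ)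
    (y : V → SignType)
    (htest : 0 < ∑ p : V × V, if G.Adj p.1 p.2 then
      max ((y p.1 : ℝ) + y p.2) 0 * (cap p.1 p.2 - Kst s(p.1, p.2)) +
      max (-((y p.1 : ℝ) + y p.2)) 0 * (Kst s(p.1, p.2) - κ) else 0) :
    2 * ∑ v, (y v : ℝ) * ∑ w, (if G.Adj v w then Kst s(v, w) - h v w else 0) <
      ∑ p : V × V, if G.Adj p.1 p.2 then cap p.1 p.2 * max ((y p.1 : ℝ) + y p.2) 0 else 0 := by
  rw [sum_symm (fun a b => Kst s(a, b) - h a b) (fun a b => by
    simp only [Sym2.eq_swap (a := a), hs a b]) (fun v => (y v : ℝ)), ← sub_pos,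
    ← Finset.sum_sub_distrib]
  refine htest.trans_le (Finset.sum_le_sum fun p _ => ?_)
  split_ifs
  · set z : ℝ := (y p.1 : ℝ) + y p.2
    have e1 : z = max z 0 - max (-z) 0 := by
      rcases le_total z 0 with h3 | h3
      · rw [max_eq_right h3, max_eq_left (by linarith)]
        ring
      · rw [max_eq_left h3, max_eq_right (by linarith)]
        ring
    have e2 : 0 ≤ max z 0 := le_max_right _ _
    have e3 : 0 ≤ max (-z) 0 := le_max_right _ _
    have e4 := h0 p.1 p.2
    have e5 := h1 p.1 p.2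
    have e6 : cap p.1 p.2 * max z 0 - z * (Kst s(p.1, p.2) - h p.1 p.2) =
        max z 0 * (cap p.1 p.2 - Kst s(p.1, p.2)) + max z 0 * h p.1 p.2 +
        max (-z) 0 * (Kst s(p.1, p.2) - h p.1 p.2) := by
      nth_rewrite 2 [e1]
      ring
    rw [e6]
    nlinarith [mul_nonneg e2 e4, mul_nonneg e3 (sub_nonneg.2 e5)]
  · simp

/-- **the finish for `n` even**, `G` not bipartite -/
theorem even_finish [Nontrivial V] [DecidableRel G.Adj] (P : ∀ x y : V, G.Walk x y)
    (hP : Paths P) (hadj : ∀ x y (h : G.Adj x y), P x y = h.toWalk) {d : ℕ} (hd3 : 3 ≤ d)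
    (hd : ∀ v, dg G v = d) (hcut : ∀ S : Finset V, S.Nonempty → S ≠ univ → d ≤ cut G S)
    (hn : Even (Fintype.card V)) (a₁ a₂ : V → V → ℕ)
    (hsym₁ : ∀ u w, a₁ u w = a₁ w u) (hsym₂ : ∀ u w, a₂ u w = a₂ w u)
    (ha₁ : ∀ u w, G.Adj u w → d + 2 ≤ a₁ u w) (ha₂ : ∀ u w, G.Adj u w → 3 ≤ a₂ u w)
    (hout : ∀ u w, G.Adj u w → a₁ u w + 2 + outKill P u w + outKill P w u ≤ Fintype.card V)
    (hin : ∀ u w, G.Adj u w → a₂ u w + 4 + inKill P u w + inKill P w u ≤ Fintype.card V)
    (c : ℕ) (Kst : Sym2 V → ℝ)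
    (hload : ∀ v, (load P v : ℝ) + (∑ w, if G.Adj v w then Kst s(v, w) else 0) + 2 = c)
    (κ : ℝ)
    (hkap : (κ = 1 / 2 ∧ OddW G) ∨ (κ = 0 ∧ ∃ u z w, G.Adj u z ∧ G.Adj z w ∧ G.Adj u w))
    (htest : ∀ y : V → SignType, y ≠ 0 → 0 < ∑ p : V × V, if G.Adj p.1 p.2 then
      max ((y p.1 : ℝ) + y p.2) 0 *
        (((a₁ p.1 p.2 : ℝ) + a₂ p.1 p.2 - 1) / ((d : ℝ) - 1) - 1 - 2 / d - Kst s(p.1, p.2)) +
      max (-((y p.1 : ℝ) + y p.2)) 0 * (Kst s(p.1, p.2) - κ) else 0) : HasUPS G := by
  have hd0R : (0 : ℝ) < d := by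
    have : 0 < d := by omega
    exact_mod_cast this
  have hd1 : (0 : ℝ) < (d : ℝ) - 1 := by
    have : (3 : ℝ) ≤ d := by exact_mod_cast hd3
    linarith
  obtain ⟨hκ0, u, w, Q, huw, hev, h2, hQ, hu, hw, hhκ⟩ := exists_gadget_K hkap
  let cap : V → V → ℝ := fun a b =>
    ((a₁ a b : ℝ) + a₂ a b - 1) / ((d : ℝ) - 1) - 1 - 2 / d
  have hcs : ∀ a b, cap a b = cap b a := fun a b => by
    simp only [cap, hsym₁ a b, hsym₂ a b]
  have hc0 : ∀ a b, G.Adj a b → 0 < cap a b := by
    intro a b h
    have h3 : ((d : ℝ) + 4) ≤ (a₁ a b : ℝ) + a₂ a b - 1 := by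
      have h4 : ((d : ℝ) + 2) ≤ a₁ a b := by exact_mod_cast ha₁ a b h
      have h5 : (3 : ℝ) ≤ a₂ a b := by exact_mod_cast ha₂ a b h
      linarith
    have h4 : ((d : ℝ) + 4) / ((d : ℝ) - 1) ≤ ((a₁ a b : ℝ) + a₂ a b - 1) / ((d : ℝ) - 1) :=
      div_le_div_of_nonneg_right h3 hd1.le
    have h5 : (1 : ℝ) + 2 / d < ((d : ℝ) + 4) / ((d : ℝ) - 1) := by
      rw [lt_div_iff₀ hd1, add_mul, div_mul_eq_mul_div, one_mul]
      have : 2 * ((d : ℝ) - 1) / d ≤ 2 := by
        rw [div_le_iff₀ hd0R]
        linarith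
      linarith
    simp only [cap]
    linarith
  set D₀ : V → ℝ := fun v => ∑ w, if G.Adj v w then Kst s(v, w) else 0 with hD₀
  have hcapK : ∀ K : V → V → ℝ, (∀ a b, G.Adj a b → K a b < cap a b) → ∀ a b, G.Adj a b →
      K a b + 1 + 2 / d < ((a₁ a b : ℝ) + a₂ a b - 1) / ((d : ℝ) - 1) := by
    intro K hK a b h
    have := hK a b h
    simp only [cap] at this
    linarith
  -- the plain tests
  have hA : ∀ y : V → SignType, y ≠ 0 → 2 * ∑ v, (y v : ℝ) * D₀ v <
      ∑ p : V × V, if G.Adj p.1 p.2 then cap p.1 p.2 * max ((y p.1 : ℝ) + y p.2) 0 else 0 := by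
    intro y hy
    have h3 := test_of cap Kst (κ := κ) (fun _ _ => 0) (fun _ _ => rfl) (fun _ _ => le_rfl)
      (fun _ _ => hκ0) y (htest y hy)
    simpa only [sub_zero] using h3
  -- the degrees are positive integers
  have hpos : ∀ v, 0 < D₀ v := by
    intro v
    have h3 := hA (fun x => if x = v then -1 else 0) (fun h => by
      have := congrFun h v
      simp at this)
    have h4 : ∑ x, (((if x = v then -1 else 0 : SignType) : SignType) : ℝ) * D₀ x = - D₀ v := by
      rw [Finset.sum_eq_single v]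
      · simp
      · intro x _ hx
        simp [hx]
      · intro h
        exact absurd (mem_univ _) h
    have h5 : ∑ p : V × V, (if G.Adj p.1 p.2 then cap p.1 p.2 *
        max ((((if p.1 = v then -1 else 0 : SignType) : SignType) : ℝ) +
          ((if p.2 = v then -1 else 0 : SignType) : SignType)) 0 else 0) = 0 := by
      refine Finset.sum_eq_zero fun p _ => ?_
      have h6 : ∀ x : V, ((((if x = v then -1 else 0 : SignType) : SignType) : ℝ)) ≤ 0 := by
        intro x
        split_ifs <;> simp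
      rw [max_eq_right (add_nonpos (h6 _) (h6 _)), mul_zero, ite_self]
    rw [h4, h5] at h3
    linarith
  have hge : ∀ v, load P v + 3 ≤ c := by
    intro v
    have h3 := hload v
    have h4 := hpos v
    simp only [hD₀] at h4
    have h5 : ((load P v + 2 : ℕ) : ℝ) < c := by
      push_cast
      linarith
    have h6 : load P v + 2 < c := by exact_mod_cast h5
    omega
  have hnc : Even (∑ _v : V, c) := by
    rw [Finset.sum_const, Finset.card_univ, smul_eq_mul]
    exact hn.mul_right c
  have hn2 : Even (∑ _v : V, 2) := by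
    rw [Finset.sum_const, Finset.card_univ, smul_eq_mul]
    exact hn.mul_right 2
  by_cases hpar : Even (∑ v, load P v)
  · -- no gadget
    obtain ⟨K, hK0, hKs, hKG, hKc, hKD⟩ := solveK cap hcs hc0 D₀ hA
    refine two_stage_K2 P hP (by omega) hd hcut K hK0 hKs hKG (fun v => c - 2 - load P v)
      (fun v => ?_) ?_ c (fun v => ?_) a₁ a₂ hsym₂ (fun a b h => ?_) (fun a b h => ?_) hout hin
      (hcapK K hKc)
    · rw [hKD v]
      have h3 := hload v
      have h4 := hge v
      rw [Nat.cast_sub (by omega), Nat.cast_sub (by omega)]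
      simp only [hD₀]
      push_cast
      linarith
    · have h3 : ∑ v, (c - 2 - load P v) + ∑ v, load P v + ∑ _v : V, 2 = ∑ _v : V, c := by
        rw [← Finset.sum_add_distrib, ← Finset.sum_add_distrib]
        refine Finset.sum_congr rfl fun v _ => ?_
        have := hge v
        omega
      rw [Nat.even_iff] at hnc hn2 hpar ⊢
      omega
    · have := hge v
      omega
    · have := ha₁ a b h
      omega
    · have := ha₂ a b h
      omega
  · -- the gadget
    obtain ⟨hP', hl, ho, hi, m, hm, hsum⟩ := gadget_of huw Q hev h2 hQ hu hw P hP (hadj u w huw)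
    obtain ⟨K, hK0, hKs, hKG, hKc, hKD⟩ := solveK cap hcs hc0
      (fun v => ∑ w, if G.Adj v w then Kst s(v, w) - hh Q v w else 0)
      (fun y hy => test_of cap Kst (hh Q) (hh_symm Q) (hh_nonneg Q) hhκ y (htest y hy))
    have hr : ∀ v, ∑ j ∈ Finset.Ico 1 Q.length, (if v = Q.getVert j then 1 else 0) ≤ 1 := by
      intro v
      have := supp_sum hQ (by omega) v
      split_ifs at this <;> omega
    have hhsum : ∀ v, ∑ b, (if G.Adj v b then Kst s(v, b) - hh Q v b else 0) =
        D₀ v - ∑ b, hh Q v b := by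
      intro v
      rw [hD₀, ← Finset.sum_sub_distrib]
      refine Finset.sum_congr rfl fun b _ => ?_
      split_ifs with h
      · rfl
      · rw [hh_adj Q h, sub_zero]
    have hw1 : w ≠ Q.getVert (Q.length - 1) := by
      intro h
      have := (hQ.getVert_eq_end_iff (by omega : Q.length - 1 ≤ Q.length)).1 h.symm
      omega
    have hu1 : u ≠ Q.getVert 1 := by
      intro h
      have := (hQ.getVert_eq_start_iff (by omega : 1 ≤ Q.length)).1 h.symm
      omega
    have hβ2 : 1 / ((d : ℝ) - 1) ≤ 1 / 2 := by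
      apply one_div_le_one_div_of_le two_pos
      have : (3 : ℝ) ≤ d := by exact_mod_cast hd3
      linarith
    refine two_stage_K2t (Gad.repl P Q) hP' hd3 hd hcut K hK0 hKs hKG
      (fun v => c - 2 - load (Gad.repl P Q) v)
      (fun v => -(1 / 2) * (if v = Q.getVert 1 then 1 else 0) -
        1 / 2 * (if v = Q.getVert (Q.length - 1) then 1 else 0)) (fun v => ?_) hw1 hu1
      (fun t ht0 htβ T T' _ => var_le _ _ _ ht0 (htβ.trans hβ2) T T') hn ?_ c (fun v => ?_)
      a₁ a₂ hsym₂ ha₁ ha₂ (fun a b h => ?_) (fun a b h => ?_) (hcapK K hKc)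
    · rw [hKD v, hhsum v, ← hh_sum h2 v]
      have h3 := hload v
      have h4 := hge v
      have h5 := hl v
      have h6 := hr v
      have h7 : (load (Gad.repl P Q) v : ℝ) = load P v +
          ∑ j ∈ Finset.Ico 1 Q.length, (if v = Q.getVert j then (1 : ℝ) else 0) := by
        rw [h5]
        push_cast
        rfl
      rw [Nat.cast_sub (by omega), Nat.cast_sub (by omega), h7]
      simp only [hD₀]
      push_cast
      linarith
    · have h3 : ∑ v, (c - 2 - load (Gad.repl P Q) v) + ∑ v, load (Gad.repl P Q) v +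
          ∑ _v : V, 2 = ∑ _v : V, c := by
        rw [← Finset.sum_add_distrib, ← Finset.sum_add_distrib]
        refine Finset.sum_congr rfl fun v _ => ?_
        have h4 := hge v
        have h5 := hl v
        have h6 := hr v
        omega
      rw [Nat.not_even_iff_odd] at hpar
      have h4 : Even (∑ v, load (Gad.repl P Q) v) := by
        rw [hsum]
        exact hpar.add_odd hm
      rw [Nat.even_iff] at hnc hn2 h4 ⊢
      omega
    · have h4 := hge v
      have h5 := hl v
      have h6 := hr v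
      omega
    · have h3 := hout a b h
      have h4 := ho a b h
      omega
    · have h3 := hin a b h
      have h4 := hi a b h
      omega

end PM

end Pool.Agent.UPS2
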