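import Pool.Agent.Lib.MP_876e19_co_ups.InvBase
import Pool.Agent.Lib.MP_876e19_co_ups.Twins

/-!
# From the graph to the numbers (helper4, TT876)

`card_ge_levels`: `2 (d + 1) + (D - 3) κ ≤ n`; `four_mul_le_card`: bipartite, diameter at least 4;
`exists_kappa`: the connectivity of twin-free vertex-transitive graphs; `exists_sys`: Menger
systems from the connectivity.
-/

set_option autoImplicit false
set_option linter.unusedSectionVars false

namespace Pool.Agent.UPS.Lev

open Finset Atoms IB

variable {V : Type*} [Fintype V] [DecidableEq V] {G : SimpleGraph V} [DecidableRel G.Adj]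

omit [DecidableEq V] in
lemma card_ball (hG : G.Connected) {d : ℕ} (hreg : ∀ v, (univ.filter fun w => G.Adj v w).card = d)
    (x : V) : (univ.filter fun v => G.dist x v ≤ 1).card = d + 1 := by
  classical
  have h : (univ.filter fun v => G.dist x v ≤ 1) = insert x (univ.filter fun w => G.Adj x w) := by
    ext v
    simp only [mem_filter, mem_univ, true_and, mem_insert]
    constructor
    · intro h
      rcases Nat.le_one_iff_eq_zero_or_eq_one.1 h with h | h
      · exact Or.inl ((hG.dist_eq_zero_iff.1 h).symm)
      · exact Or.inr (SimpleGraph.dist_eq_one_iff_adj.1 h)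
    · rintro (rfl | h)
      · simp
      · rw [SimpleGraph.dist_eq_one_iff_adj.2 h]
  rw [h, card_insert_of_notMem (by simp), hreg]

/-- the spheres which separate `x` from `y` -/
lemma card_sphere (hG : G.Connected) {κ : ℕ} (hlow : Lower G κ) {x y : V} {i : ℕ} (hi : 1 ≤ i)
    (h : i < G.dist x y) : κ ≤ (univ.filter fun v => G.dist x v = i).card := by
  set X : Finset V := univ.filter fun v => G.dist x v ≤ i - 1 with hX
  have hne : X.Nonempty := ⟨x, by rw [hX, mem_filter]; simp⟩
  have hbd : bd G X ⊆ univ.filter fun v => G.dist x v = i := by
    intro v hv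
    rw [mem_bd] at hv
    obtain ⟨h1, u, hu, ha⟩ := hv
    rw [hX, mem_filter] at h1 hu
    rw [mem_filter]
    refine ⟨mem_univ _, ?_⟩
    have h2 : ¬ G.dist x v ≤ i - 1 := fun h' => h1 ⟨mem_univ _, h'⟩
    have h3 : G.dist x v ≤ G.dist x u + 1 := by
      have := hG.dist_triangle (u := x) (v := u) (w := v)
      rwa [SimpleGraph.dist_eq_one_iff_adj.2 ha] at this
    have := hu.2
    omega
  have hfar : (far G X).Nonempty := by
    refine ⟨y, ?_⟩
    rw [mem_far]
    constructor
    · rw [hX, mem_filter]
      intro h'
      have := h'.2
      omega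
    · intro u hu ha
      rw [hX, mem_filter] at hu
      have := hG.dist_triangle (u := x) (v := u) (w := y)
      rw [SimpleGraph.dist_eq_one_iff_adj.2 ha] at this
      have := hu.2
      omega
  exact (hlow X hne hfar).trans (card_le_card hbd)

/-- **number of vertices of a graph with two vertices at distance at least `D`** -/
theorem card_ge_levels (hG : G.Connected) {d κ D : ℕ}
    (hreg : ∀ v, (univ.filter fun w => G.Adj v w).card = d) (hlow : Lower G κ) (hD : 3 ≤ D)
    {x y : V} (h : D ≤ G.dist x y) : 2 * (d + 1) + (D - 3) * κ ≤ Fintype.card V := by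
  classical
  set A : Finset V := univ.filter fun v => G.dist x v ≤ 1 with hA
  set B : Finset V := univ.filter fun v => G.dist y v ≤ 1 with hB
  set M : Finset V := univ.filter fun v => G.dist x v ∈ Finset.Icc 2 (D - 2) with hM
  have hMc : (D - 3) * κ ≤ M.card := by
    have e := Finset.card_eq_sum_card_fiberwise (s := M) (f := fun v => G.dist x v)
      (t := Finset.Icc 2 (D - 2)) (by
        intro v hv
        rw [hM, mem_coe, mem_filter] at hv
        exact mem_coe.2 hv.2)
    rw [e]
    have h1 : ∀ i ∈ Finset.Icc 2 (D - 2), κ ≤ (M.filter fun v => G.dist x v = i).card := by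
      intro i hi
      have e2 : (M.filter fun v => G.dist x v = i) = univ.filter fun v => G.dist x v = i := by
        ext v
        simp only [hM, mem_filter, mem_univ, true_and]
        constructor
        · exact fun h => h.2
        · intro h
          exact ⟨by rw [h]; exact hi, h⟩
      rw [e2]
      rw [Finset.mem_Icc] at hi
      exact card_sphere hG hlow (y := y) (by omega) (by omega)
    have h2 := Finset.card_nsmul_le_sum (Finset.Icc 2 (D - 2))
      (fun i => (M.filter fun v => G.dist x v = i).card) κ h1
    rw [Nat.card_Icc, smul_eq_mul] at h2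
    have h3 : D - 2 + 1 - 2 = D - 3 := by omega
    rwa [h3] at h2
  have hAM : Disjoint A M := by
    rw [Finset.disjoint_left]
    intro v hv hv'
    rw [hA, mem_filter] at hv
    rw [hM, mem_filter, Finset.mem_Icc] at hv'
    have := hv.2
    have := hv'.2.1
    omega
  have hBd : ∀ v ∈ B, D - 1 ≤ G.dist x v := by
    intro v hv
    rw [hB, mem_filter] at hv
    have := hG.dist_triangle (u := x) (v := v) (w := y)
    rw [SimpleGraph.dist_comm (u := v)] at this
    have := hv.2
    omega
  have hABM : Disjoint (A ∪ M) B := by
    rw [Finset.disjoint_left]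
    intro v hv hv'
    have h1 := hBd v hv'
    rw [mem_union] at hv
    rcases hv with hv | hv
    · rw [hA, mem_filter] at hv
      have := hv.2
      omega
    · rw [hM, mem_filter, Finset.mem_Icc] at hv
      have := hv.2.2
      omega
  have h1 := card_le_card (Finset.subset_univ ((A ∪ M) ∪ B))
  rw [card_union_of_disjoint hABM, card_union_of_disjoint hAM, hA, card_ball hG hreg, hB,
    card_ball hG hreg, Finset.card_univ] at h1
  omega

omit [DecidableEq V] in
/-- the two sides of a regular bipartite graph have the same size -/
lemma card_side {d : ℕ} (hd : 0 < d) (hreg : ∀ v, (univ.filter fun w => G.Adj v w).card = d)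
    (side : V → Bool) (hside : ∀ u v, G.Adj u v → side u ≠ side v) :
    (univ.filter fun v => side v = true).card = (univ.filter fun v => side v = false).card := by
  classical
  have key : ∀ b : Bool, (univ.filter fun v => side v = b).card * d =
      ∑ v ∈ univ.filter (fun v => side v = b), ∑ w ∈ univ.filter (fun w => side w = !b),
        if G.Adj v w then 1 else 0 := by
    intro b
    rw [← smul_eq_mul, ← Finset.sum_const]
    refine Finset.sum_congr rfl fun v hv => ?_
    rw [← hreg v, Finset.card_filter, ← Finset.sum_subset (Finset.subset_univ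
      (univ.filter fun w => side w = !b))]
    intro w _ hw
    rw [if_neg]
    intro ha
    apply hw
    rw [mem_filter] at hv ⊢
    refine ⟨mem_univ _, ?_⟩
    have h1 := hside v w ha
    rw [hv.2] at h1
    cases hb : b <;> cases hs : side w <;> simp_all
  have h1 := key true
  have h2 := key false
  rw [Finset.sum_comm] at h2
  have h3 : (univ.filter fun v => side v = true).card * d =
      (univ.filter fun v => side v = false).card * d := by
    rw [h1, h2]
    refine Finset.sum_congr rfl fun v _ => Finset.sum_congr rfl fun w _ => ?_
    exact if_congr (SimpleGraph.adj_comm _ _ _) rfl rfl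
  exact Nat.eq_of_mul_eq_mul_right hd h3

/-- bipartite graphs of diameter at least 4 have at least `4 d` vertices -/
theorem four_mul_le_card (hG : G.Connected) {d : ℕ} (hd : 0 < d)
    (hreg : ∀ v, (univ.filter fun w => G.Adj v w).card = d)
    (side : V → Bool) (hside : ∀ u v, G.Adj u v → side u ≠ side v) {x y : V}
    (h : 4 ≤ G.dist x y) : 4 * d ≤ Fintype.card V := by
  classical
  obtain ⟨p, hp⟩ := hG.exists_walk_length_eq_dist x y
  have hpath := SimpleGraph.Walk.isPath_of_length_eq_dist p hp
  obtain ⟨z, hz⟩ : ∃ z, z = p.getVert 4 := ⟨_, rfl⟩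
  have h4 : G.dist x z = 4 := by
    rw [hz]
    have h1 : G.dist x (p.getVert 4) ≤ 4 := by
      have := SimpleGraph.dist_le (p.take 4)
      rw [SimpleGraph.Walk.take_length] at this
      omega
    have h2 : G.dist (p.getVert 4) y ≤ p.length - 4 := by
      have := SimpleGraph.dist_le (p.drop 4)
      rwa [SimpleGraph.Walk.drop_length] at this
    have h3 := hG.dist_triangle (u := x) (v := p.getVert 4) (w := y)
    omega
  have hs : side z = side x := by
    have e : ∀ i, i + 1 ≤ p.length → side (p.getVert (i + 1)) = !side (p.getVert i) := by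
      intro i hi
      have h1 := hside _ _ (p.adj_getVert_succ (i := i) (by omega))
      cases h2 : side (p.getVert (i + 1)) <;> cases h3 : side (p.getVert i) <;> simp_all
    have h0 := e 0 (by omega)
    have h1 := e 1 (by omega)
    have h2 := e 2 (by omega)
    have h3 := e 3 (by omega)
    rw [hz]
    norm_num at h0 h1 h2 h3
    rw [h3, h2, h1, h0]
    simp
  have hdisj : Disjoint (univ.filter fun w => G.Adj x w) (univ.filter fun w => G.Adj z w) := by
    rw [Finset.disjoint_left]
    intro w hw hw'
    rw [mem_filter] at hw hw'
    have h1 := hG.dist_triangle (u := x) (v := w) (w := z)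
    rw [SimpleGraph.dist_eq_one_iff_adj.2 hw.2, SimpleGraph.dist_eq_one_iff_adj.2 hw'.2.symm] at h1
    omega
  have hsub : (univ.filter fun w => G.Adj x w) ∪ (univ.filter fun w => G.Adj z w) ⊆
      univ.filter fun w => side w = !side x := by
    intro w hw
    rw [mem_union, mem_filter, mem_filter] at hw
    rw [mem_filter]
    refine ⟨mem_univ _, ?_⟩
    rcases hw with hw | hw
    · have h1 := hside x w hw.2
      cases h2 : side x <;> cases h3 : side w <;> simp_all
    · have h1 := hside z w hw.2
      rw [hs] at h1
      cases h2 : side x <;> cases h3 : side w <;> simp_all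
  have h5 := card_le_card hsub
  rw [card_union_of_disjoint hdisj, hreg, hreg] at h5
  have h6 := card_side hd hreg side hside
  have h7 : Fintype.card V = (univ.filter fun v => side v = true).card +
      (univ.filter fun v => side v = false).card := by
    rw [← Finset.card_univ, ← Finset.card_filter_add_card_filter_not (fun v => side v = true)]
    congr 2
    ext v
    simp
  cases hx : side x
  · rw [hx] at h5
    simp only [Bool.not_false] at h5
    omega
  · rw [hx] at h5
    simp only [Bool.not_true] at h5
    omega

/-- the connectivity of twin-free vertex-transitive graphs -/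
theorem exists_kappa (hG : G.Connected) (hT : VT G) {d : ℕ}
    (hreg : ∀ v, (univ.filter fun w => G.Adj v w).card = d) (hTF : TwinFree G) (hd : 4 ≤ d) :
    ∃ κ : ℕ, 4 ≤ κ ∧ κ ≤ d ∧ Lower G κ ∧ 2 * (d + 1) ≤ 3 * κ ∧ (d = 4 → κ = 4) ∧
      (d = 5 → κ = 5) ∧ (d = 6 → κ = 6) ∧ (d = 7 → κ = 6) ∧ (d = 8 → κ = 8) ∧
      (d = 9 → κ = 8) ∧ (10 ≤ d → 2 * (d + 2) ≤ 3 * κ) := by
  rcases Nat.lt_or_ge d 10 with h | h
  · interval_cases d
    · exact ⟨4, by omega, by omega, lower_four hG hT hreg, by omega, by omega, by omega, by omega,
        by omega, by omega, by omega, by omega⟩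
    · exact ⟨5, by omega, by omega, tf_five hG hT hreg hTF, by omega, by omega, by omega,
        by omega, by omega, by omega, by omega, by omega⟩
    · exact ⟨6, by omega, by omega, lower_six hG hT hreg, by omega, by omega, by omega, by omega,
        by omega, by omega, by omega, by omega⟩
    · exact ⟨6, by omega, by omega, lower_seven hG hT hreg, by omega, by omega, by omega,
        by omega, by omega, by omega, by omega, by omega⟩
    · exact ⟨8, by omega, by omega, tf_eight hG hT hreg hTF, by omega, by omega, by omega,
        by omega, by omega, by omega, by omega, by omega⟩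
    · exact ⟨8, by omega, by omega, lower_nine hG hT hreg, by omega, by omega, by omega,
        by omega, by omega, by omega, by omega, by omega⟩
  · refine ⟨(2 * (d + 2) + 2) / 3, by omega, by omega,
      tf_two_thirds hG hT hreg hTF (by omega) (by omega), by omega, by omega, by omega, by omega,
      by omega, by omega, by omega, by omega⟩

/-- Menger systems -/
theorem exists_sys (hG : G.Connected) (hT : VT G) {d κ : ℕ}
    (hreg : ∀ v, (univ.filter fun w => G.Adj v w).card = d) (hlow : Lower G κ) (hκ : κ ≤ d) :
    Nonempty (MSys G κ) := by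
  refine exists_msys hG hT κ (fun x => ?_) ?_
  · have : (G.neighborSet x).ncard = d := by
      rw [← hreg x, ← Set.ncard_coe_finset]
      congr 1
      ext w; simp
    omega
  · intro x v _ S hx hv hS
    exact exists_walk_avoiding hlow hS hx hv

end Pool.Agent.UPS.Lev
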