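import Mathlib

/-!
# Numerics of the non-bipartite criterion, basic definitions (helper4, TT876)

`Q n d t = sqrt (1 + 2 d exp (-(t (d-1))) + (8 - 2 d) exp (-(t d))) ^ n`, `t = 4 μ² / (9 V)`.
-/

set_option autoImplicit false

namespace Pool.Agent.UPS.Num

open Real

/-- the signed cut sum -/
noncomputable def Q (n d : ℕ) (t : ℝ) : ℝ :=
  sqrt (1 + 2 * d * exp (-(t * (d - 1))) + (8 - 2 * d) * exp (-(t * d))) ^ n

/-- the cut sum is small as soon as `n d exp (-c) ≤ ℓ`, `c ≤ t (d - 1)` -/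
lemma core {n d : ℕ} (hd : 4 ≤ d) {t c ℓ : ℝ} (ht : c ≤ t * (d - 1))
    (hc : (n : ℝ) * d ≤ ℓ * exp c) : Q n d t ≤ exp ℓ := by
  have hdR : (4 : ℝ) ≤ d := by exact_mod_cast hd
  unfold Q
  set y := exp (-(t * ((d : ℝ) - 1))) with hy
  have hy0 : 0 < y := exp_pos _
  have hyc : y ≤ exp (-c) := exp_le_exp.2 (by linarith)
  have h1 : 1 + 2 * (d : ℝ) * y + (8 - 2 * d) * exp (-(t * d)) ≤ exp (2 * (d * y)) := by
    have h2 : (8 - 2 * (d : ℝ)) * exp (-(t * d)) ≤ 0 :=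
      mul_nonpos_of_nonpos_of_nonneg (by linarith) (exp_pos _).le
    have h3 := add_one_le_exp (2 * ((d : ℝ) * y))
    linarith
  have h2 : sqrt (1 + 2 * (d : ℝ) * y + (8 - 2 * d) * exp (-(t * d))) ≤ exp (d * y) := by
    rw [sqrt_le_left (exp_pos _).le, ← exp_nat_mul]
    simpa using h1
  have h3 : (n : ℝ) * (d * y) ≤ ℓ := by
    calc (n : ℝ) * (d * y) = n * d * y := by ring
      _ ≤ ℓ * exp c * exp (-c) := by
          refine mul_le_mul hc hyc hy0.le (le_trans (by positivity) hc)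
      _ = ℓ := by rw [mul_assoc, ← exp_add]; simp
  calc sqrt (1 + 2 * (d : ℝ) * y + (8 - 2 * d) * exp (-(t * d))) ^ n ≤ exp (d * y) ^ n :=
        pow_le_pow_left₀ (sqrt_nonneg _) h2 n
    _ = exp (n * (d * y)) := (exp_nat_mul _ _).symm
    _ ≤ exp ℓ := exp_le_exp.2 h3

lemma exp_lt_two : exp 0.693 < 2 := by
  rw [← lt_log_iff_exp_lt (by norm_num)]
  have := log_two_gt_d9
  linarith

lemma exp_lt_three_halves : exp 0.405 < 3 / 2 := by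
  have h := exp_bound' (x := 0.405) (by norm_num) (by norm_num) (n := 5) (by norm_num)
  refine h.trans_lt ?_
  norm_num [Finset.sum_range_succ, Nat.factorial]

/-- `(√A + b)²` is at most `(1+ε) A' + (1+1/ε) b²` -/
lemma sq_sqrt_add_le {A A' b ε : ℝ} (hA : A ≤ A') (hA' : 0 ≤ A') (hb : 0 ≤ b) (hε : 0 < ε) :
    (sqrt A + b) ^ 2 ≤ (1 + ε) * A' + (1 + 1 / ε) * b ^ 2 := by
  have h1 : sqrt A ≤ sqrt A' := sqrt_le_sqrt hA
  have h2 : (sqrt A + b) ^ 2 ≤ (sqrt A' + b) ^ 2 :=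
    pow_le_pow_left₀ (by positivity) (by linarith) 2
  have h3 : sqrt A' ^ 2 = A' := sq_sqrt hA'
  have h4 : 0 ≤ (ε * sqrt A' - b) ^ 2 / ε := by positivity
  have h5 : (ε * sqrt A' - b) ^ 2 / ε = ε * sqrt A' ^ 2 - 2 * sqrt A' * b + 1 / ε * b ^ 2 := by
    field_simp
    ring
  rw [h5, h3] at h4
  nlinarith [h2, h3, h4]

/-- the variance (`k` paths used, `m = min k (d - k)`) -/
noncomputable def VW (S L k d m : ℝ) : ℝ :=
  (sqrt ((2 * (S - k) + 4 * m * ((d - 2) / (d - 1)) ^ 2) / (16 * k ^ 2)) +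
    sqrt (m / k ^ 2) * (1 / (2 * (d - 1)))) ^ 2 +
  (sqrt ((L - 2 + 4 * ((d - 2) / (d - 1)) ^ 2) / 16) + 1 / (2 * (d - 1))) ^ 2

lemma VW_le {S S' L L' k d m m' ε₁ ε₂ : ℝ} (hS : S ≤ S') (hL : L ≤ L') (hk : 0 < k) (hd : 1 < d)
    (hm : 0 ≤ m) (hmm : m ≤ m') (hSk : k ≤ S') (hL2 : 2 ≤ L') (h₁ : 0 < ε₁) (h₂ : 0 < ε₂) :
    VW S L k d m ≤
      ((1 + ε₁) * ((2 * (S' - k) + 4 * m' * ((d - 2) / (d - 1)) ^ 2) / (16 * k ^ 2)) +
        (1 + 1 / ε₁) * (m' / (k ^ 2 * (4 * (d - 1) ^ 2)))) +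
      ((1 + ε₂) * ((L' - 2 + 4 * ((d - 2) / (d - 1)) ^ 2) / 16) +
        (1 + 1 / ε₂) * (1 / (4 * (d - 1) ^ 2))) := by
  have hd1 : 0 < d - 1 := by linarith
  have hm' : 0 ≤ m' := hm.trans hmm
  have hq : 0 ≤ ((d - 2) / (d - 1)) ^ 2 := sq_nonneg _
  refine add_le_add ?_ ?_
  · refine (sq_sqrt_add_le (A' := (2 * (S' - k) + 4 * m' * ((d - 2) / (d - 1)) ^ 2) / (16 * k ^ 2))
      ?_ ?_ ?_ h₁).trans ?_
    · refine div_le_div_of_nonneg_right ?_ (by positivity)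
      have := mul_le_mul_of_nonneg_right (mul_le_mul_of_nonneg_left hmm (by norm_num : (0:ℝ) ≤ 4)) hq
      linarith
    · refine div_nonneg ?_ (by positivity)
      have : 0 ≤ S' - k := by linarith
      positivity
    · positivity
    · refine add_le_add le_rfl (mul_le_mul_of_nonneg_left ?_ (by positivity))
      rw [mul_pow, sq_sqrt (by positivity)]
      have e : m' / (k ^ 2 * (4 * (d - 1) ^ 2)) = m' / k ^ 2 * (1 / (2 * (d - 1))) ^ 2 := by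
        field_simp
        ring
      rw [e]
      gcongr
  · refine (sq_sqrt_add_le (A' := (L' - 2 + 4 * ((d - 2) / (d - 1)) ^ 2) / 16) ?_ ?_ ?_ h₂).trans ?_
    · linarith
    · have : 0 ≤ L' - 2 := by linarith
      positivity
    · positivity
    · refine add_le_add le_rfl (mul_le_mul_of_nonneg_left (le_of_eq ?_) (by positivity))
      field_simp
      ring

lemma fixd {n d : ℕ} (hd : 4 ≤ d) {μ V M P c ℓ : ℝ} (hV0 : 0 < V) (hVP : V ≤ P)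
    (hM0 : 0 ≤ M) (hM : M ≤ μ) (hc : 0 ≤ c) (hq : 9 * P * c ≤ 4 * (d - 1) * M ^ 2)
    (he : (n : ℝ) * d ≤ ℓ * exp c) : Q n d (4 * μ ^ 2 / (9 * V)) ≤ exp ℓ := by
  have hdR : (4 : ℝ) ≤ d := by exact_mod_cast hd
  refine core hd ?_ he
  rw [div_mul_eq_mul_div, le_div_iff₀ (by positivity)]
  have h1 : M ^ 2 ≤ μ ^ 2 := pow_le_pow_left₀ hM0 hM 2
  have h2 : V * c ≤ P * c := mul_le_mul_of_nonneg_right hVP hc
  have h3 : ((d : ℝ) - 1) * M ^ 2 ≤ (d - 1) * μ ^ 2 :=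
    mul_le_mul_of_nonneg_left h1 (by linarith)
  nlinarith

lemma exp_lin {r c₀ c₁ s : ℝ} (h : r ≤ exp c₀) (hs : 0 ≤ c₁ * s) :
    r * (1 + c₁ * s) ≤ exp (c₀ + c₁ * s) := by
  rw [exp_add]
  have := add_one_le_exp (c₁ * s)
  exact mul_le_mul h (by linarith) (by linarith) (exp_pos _).le

/-- twice the room per edge, without the loss of the grid: `j` paths used -/
noncomputable def Wd (n d j : ℝ) : ℝ :=
  (2 * n - 6 - 4 * (n - 1 - d) / j) / (d - 1) - 4 / d - 1 + (d - 2) / (d * (d - 1))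

lemma var10 {d n S' L' : ℝ} (hd : 10 ≤ d) (hn : 30 ≤ n) (hS' : S' = 15 * (n - 2) / (2 * (d + 2)))
    (hL' : L' = 6 * (n - 5) / (2 * d - 5)) :
    ((1 + 2 / (3 * (d - 1))) *
        ((2 * (S' - 5) + 4 * 5 * ((d - 2) / (d - 1)) ^ 2) / (16 * 5 ^ 2)) +
        (1 + 1 / (2 / (3 * (d - 1)))) * (5 / (5 ^ 2 * (4 * (d - 1) ^ 2)))) +
      ((1 + 2 / (3 * (d - 1))) * ((L' - 2 + 4 * ((d - 2) / (d - 1)) ^ 2) / 16) +
        (1 + 1 / (2 / (3 * (d - 1)))) * (1 / (4 * (d - 1) ^ 2))) ≤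
    (0.28 * n + 0.15 * d - 0.85) / (d - 1) := by
  have hx : 0 < d - 1 := by linarith
  have hq1 : ((d - 2) / (d - 1)) ^ 2 ≤ 1 := by
    rw [div_pow, div_le_one (by positivity)]
    nlinarith
  set q := ((d - 2) / (d - 1)) ^ 2 with hq
  have e1 : 1 + 2 / (3 * (d - 1)) = (d - 1 / 3) / (d - 1) := by
    field_simp
    ring
  have e2 : 1 + 1 / (2 / (3 * (d - 1))) = 1 + 3 * (d - 1) / 2 := by
    field_simp
  have e3 : (1 + 3 * (d - 1) / 2) * (5 / (5 ^ 2 * (4 * (d - 1) ^ 2))) =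
      (1 / (20 * (d - 1)) + 3 / 40) / (d - 1) := by
    field_simp
    ring
  have e4 : (1 + 3 * (d - 1) / 2) * (1 / (4 * (d - 1) ^ 2)) =
      (1 / (4 * (d - 1)) + 3 / 8) / (d - 1) := by
    field_simp
    ring
  have hxi : 1 / (d - 1) ≤ 1 / 9 := one_div_le_one_div_of_le (by norm_num) (by linarith)
  have e5 : 1 / (20 * (d - 1)) = 1 / 20 * (1 / (d - 1)) := by field_simp
  have e6 : 1 / (4 * (d - 1)) = 1 / 4 * (1 / (d - 1)) := by field_simp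
  rw [e1, e2, e3, e4, div_mul_eq_mul_div, div_mul_eq_mul_div, ← add_div, ← add_div, ← add_div]
  refine div_le_div_of_nonneg_right ?_ hx.le
  rw [e5, e6]
  have hS2 : (d - 1 / 3) * S' ≤ 7.5 * (n - 2) := by
    rw [hS', mul_div_assoc', div_le_iff₀ (by linarith)]
    nlinarith
  have hL2 : (d - 1 / 3) * L' ≤ 3.867 * (n - 5) := by
    rw [hL', mul_div_assoc', div_le_iff₀ (by linarith)]
    nlinarith
  have hA : (d - 1 / 3) * ((2 * (S' - 5) + 4 * 5 * q) / (16 * 5 ^ 2)) ≤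
      0.0375 * (n - 2) + (d - 1 / 3) / 40 := by
    have : (d - 1 / 3) * q ≤ (d - 1 / 3) * 1 := mul_le_mul_of_nonneg_left hq1 (by linarith)
    nlinarith
  have hB : (d - 1 / 3) * ((L' - 2 + 4 * q) / 16) ≤ 0.2417 * (n - 5) + (d - 1 / 3) / 8 := by
    have : (d - 1 / 3) * q ≤ (d - 1 / 3) * 1 := mul_le_mul_of_nonneg_left hq1 (by linarith)
    nlinarith
  linarith

/-- the pairs `(n, d)` with the lower bound `κ` for the connectivity: `n` even -/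
def EvenRange (n d κ : ℕ) : Prop :=
  (d = 4 ∧ κ = 4 ∧ 24 ≤ n) ∨ (d = 5 ∧ κ = 5 ∧ 22 ≤ n) ∨ (d = 6 ∧ κ = 6 ∧ 22 ≤ n) ∨
  (d = 7 ∧ κ = 6 ∧ 24 ≤ n) ∨ (d = 8 ∧ κ = 8 ∧ 26 ≤ n) ∨ (d = 9 ∧ κ = 8 ∧ 28 ≤ n) ∨
  (10 ≤ d ∧ 2 * (d + 2) ≤ 3 * κ ∧ 2 * (d + 1) + κ ≤ n)

/-- the pairs `(n, d)` with the lower bound `κ` for the connectivity: `n` odd, `d` even -/
def OddRange (n d κ : ℕ) : Prop :=
  (d = 4 ∧ κ = 4 ∧ 23 ≤ n) ∨ (d = 6 ∧ κ = 6 ∧ 21 ≤ n) ∨ (d = 8 ∧ κ = 8 ∧ 26 ≤ n) ∨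
  (10 ≤ d ∧ 2 * (d + 2) ≤ 3 * κ ∧ 2 * (d + 1) + κ ≤ n)

/-- number of paths used -/
def jj (d : ℕ) : ℕ := if d = 4 then 4 else 5

lemma Wd_mono_loss {n d j : ℝ} (hd : 0 < d) {μ : ℝ} (h : (Wd n d j - 1 / d) / 2 ≤ μ) :
    (Wd n d j - 2 / d) / 2 ≤ μ := by
  have h1 : 0 < 1 / d := by positivity
  have h2 : 2 / d = 1 / d + 1 / d := by ring
  rw [h2]
  linarith

lemma fixd2 {n d : ℕ} (hd : 4 ≤ d) {μ₂ V M P c ℓ : ℝ} (hV0 : 0 < V) (hVP : V ≤ P)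
    (hM : M ≤ μ₂) (hc : 0 ≤ c) (hq : 9 * P * c ≤ 4 * (d - 1) * M)
    (he : (n : ℝ) * d ≤ ℓ * exp c) : Q n d (4 * μ₂ / (9 * V)) ≤ exp ℓ := by
  have hdR : (4 : ℝ) ≤ d := by exact_mod_cast hd
  refine core hd ?_ he
  rw [div_mul_eq_mul_div, le_div_iff₀ (by positivity)]
  have h2 : V * c ≤ P * c := mul_le_mul_of_nonneg_right hVP hc
  have h3 : ((d : ℝ) - 1) * M ≤ (d - 1) * μ₂ :=
    mul_le_mul_of_nonneg_left hM (by linarith)
  nlinarith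

end Pool.Agent.UPS.Num
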