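import Mathlib
import Pool.Agent.Lib.MP_876e19_co.Defs
import Pool.Agent.Lib.MP_876e19_co_ups.SharpSets

/-!
# Hamilton cycles give uniform path systems; semiregular elements (MP_876e19_co)

* `hasUPS_of_hom`: monotonicity in the graph;
* `hasUPS_of_cyclic`: a Hamilton cycle gives a uniform path system;
* `hasUPS_of_list`: certificate form;
* `exists_semiregular`: a fixed point free automorphism of order `p`, `p` larger than the valency;
* `hasUPS_of_lift`: lifting a Hamilton cycle of the quotient.
-/

set_option autoImplicit false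

namespace Pool.Agent.UPS

/-- a bijective homomorphism transports uniform path systems -/
theorem hasUPS_of_hom {V W : Type*} {G : SimpleGraph V} {H : SimpleGraph W} (e : W ≃ V)
    (h : ∀ a b, H.Adj a b → G.Adj (e a) (e b)) (hH : HasUPS H) : HasUPS G := by
  obtain ⟨P, hP, c, hc⟩ := hH
  let f : H →g G := ⟨e, fun {a b} hab => h a b hab⟩
  let Q : ∀ x y : V, G.Walk x y := fun x y =>
    ((P (e.symm x) (e.symm y)).map f).copy (e.apply_symm_apply x) (e.apply_symm_apply y)
  have hsupp : ∀ x y v, v ∈ (Q x y).support ↔ e.symm v ∈ (P (e.symm x) (e.symm y)).support := by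
    intro x y v
    have : (Q x y).support = ((P (e.symm x) (e.symm y)).support).map e := by
      simp only [Q, SimpleGraph.Walk.support_copy, SimpleGraph.Walk.support_map]
      rfl
    rw [this, List.mem_map]
    constructor
    · rintro ⟨w, hw, rfl⟩
      simpa using hw
    · intro hv
      exact ⟨_, hv, by simp⟩
  refine ⟨Q, ?_, c, ?_⟩
  · intro x y hxy
    have h1 : (P (e.symm x) (e.symm y)).IsPath := hP _ _ (fun h => hxy (e.symm.injective h))
    have h2 : ((P (e.symm x) (e.symm y)).map f).IsPath :=
      SimpleGraph.Walk.IsPath.map e.injective h1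
    simpa only [Q, SimpleGraph.Walk.isPath_copy] using h2
  · intro v
    rw [← hc (e.symm v)]
    unfold load
    rw [← Set.ncard_image_of_injective _ (e.prodCongr e).injective]
    congr 1
    ext ⟨x, y⟩
    simp only [Set.mem_image, Set.mem_ofPred_eq, hsupp, Prod.exists, Equiv.prodCongr_apply,
      Prod.map_apply, Prod.mk.injEq]
    constructor
    · rintro ⟨hxy, hv⟩
      exact ⟨e.symm x, e.symm y, ⟨fun h => hxy (e.symm.injective h), hv⟩, by simp, by simp⟩
    · rintro ⟨a, b, ⟨hab, hv⟩, rfl, rfl⟩
      refine ⟨fun h => hab (e.injective h), ?_⟩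
      have key : ∀ a' b', a' = a → b' = b → e.symm v ∈ (P a' b').support := by
        rintro _ _ rfl rfl
        exact hv
      exact key _ _ (e.symm_apply_apply a) (e.symm_apply_apply b)

/-- the cycle graph on `ZMod N` -/
def cyc (N : ℕ) : SimpleGraph (ZMod N) := SimpleGraph.fromRel (fun a b => b = a + 1)

theorem cyc_adj {N : ℕ} {a b : ZMod N} : (cyc N).Adj a b ↔ a ≠ b ∧ (b = a + 1 ∨ a = b + 1) := by
  simp [cyc]

theorem hasUPS_cyc (N : ℕ) [NeZero N] : HasUPS (cyc N) := by
  have hconn : (cyc N).Connected := by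
    have key : ∀ k : ℕ, (cyc N).Reachable 0 (k : ZMod N) := by
      intro k
      induction k with
      | zero => simp
      | succ k ih =>
        by_cases h : ((k : ℕ) : ZMod N) = ((k + 1 : ℕ) : ZMod N)
        · rw [← h]; exact ih
        · refine ih.trans (SimpleGraph.Adj.reachable ?_)
          rw [cyc_adj]
          exact ⟨h, Or.inl (by push_cast; ring)⟩
    have hpre : (cyc N).Preconnected := by
      intro a b
      have ha := key a.val
      have hb := key b.val
      rw [ZMod.natCast_zmod_val] at ha hb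
      exact ha.symm.trans hb
    exact SimpleGraph.Connected.mk hpre
  have htr : ∀ t : ZMod N, ∀ {a b : ZMod N}, (cyc N).Adj (Equiv.addRight t a) (Equiv.addRight t b) ↔
      (cyc N).Adj a b := by
    intro t a b
    simp only [cyc_adj, Equiv.coe_addRight, ne_eq, add_left_inj]
    constructor
    · rintro ⟨h1, h2⟩
      refine ⟨h1, h2.imp (fun h => ?_) (fun h => ?_)⟩
      · have : b + t = (a + 1) + t := by rw [h]; ring
        exact add_right_cancel this
      · have : a + t = (b + 1) + t := by rw [h]; ring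
        exact add_right_cancel this
    · rintro ⟨h1, h2⟩
      refine ⟨h1, h2.imp (fun h => ?_) (fun h => ?_)⟩
      · rw [h]; ring
      · rw [h]; ring
  let τ : ZMod N → (cyc N ≃g cyc N) := fun t => ⟨Equiv.addRight t, htr t⟩
  refine hasUPS_of_sharp hconn (Set.range τ) ?_
  intro u v
  refine ⟨τ (v - u), ⟨⟨v - u, rfl⟩, ?_⟩, ?_⟩
  · show u + (v - u) = v
    ring
  · rintro t ⟨⟨s, rfl⟩, hs⟩
    have hs' : u + s = v := hs
    have : s = v - u := by rw [← hs']; ring
    rw [this]

/-- a Hamilton cycle gives a uniform path system -/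
theorem hasUPS_of_cyclic {V : Type*} [Finite V] {G : SimpleGraph V} (N : ℕ) (hN : 0 < N)
    (hcard : Nat.card V = N) (c : ℕ → V) (hadj : ∀ i, G.Adj (c i) (c (i + 1)))
    (hper : ∀ i, c (i + N) = c i) (hinj : ∀ i < N, ∀ j < N, c i = c j → i = j) : HasUPS G := by
  have : NeZero N := ⟨hN.ne'⟩
  have hmod : ∀ i, c (i % N) = c i := by
    intro i
    have h1 : ∀ q r, c (r + N * q) = c r := by
      intro q
      induction q with
      | zero => intro r; simp
      | succ q ih => intro r; rw [Nat.mul_succ, ← add_assoc, hper, ih]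
    conv_rhs => rw [← Nat.mod_add_div i N]
    rw [h1]
  let f : ZMod N → V := fun a => c a.val
  have hfinj : Function.Injective f := by
    intro a b h
    exact ZMod.val_injective N (hinj _ (ZMod.val_lt a) _ (ZMod.val_lt b) h)
  have hfbij : Function.Bijective f := by
    refine (Nat.bijective_iff_injective_and_card f).2 ⟨hfinj, ?_⟩
    rw [hcard, Nat.card_zmod]
  have hstep : ∀ a : ZMod N, G.Adj (f a) (f (a + 1)) := by
    intro a
    have h1 : f (a + 1) = c (a.val + 1) := by
      show c (a + 1).val = _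
      rw [← hmod (a.val + 1)]
      congr 1
      have : (a + 1 : ZMod N) = ((a.val + 1 : ℕ) : ZMod N) := by
        push_cast
        rw [ZMod.natCast_zmod_val]
      rw [this, ZMod.val_natCast]
    rw [h1]
    exact hadj _
  refine hasUPS_of_hom (Equiv.ofBijective f hfbij) ?_ (hasUPS_cyc N)
  intro a b hab
  rw [cyc_adj] at hab
  obtain ⟨_, rfl | rfl⟩ := hab
  · exact hstep a
  · exact (hstep b).symm

/-- certificate checker for Hamilton cycles -/
def certOK (adj : ℕ → ℕ → Bool) (N : ℕ) (L : List ℕ) : Bool :=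
  decide (L.length = N) && L.all (fun m => decide (m < N)) && decide L.Nodup &&
    (List.range N).all (fun i => adj (L.getD i 0) (L.getD ((i + 1) % N) 0))

theorem hasUPS_of_list {V : Type*} [Finite V] {G : SimpleGraph V} (N : ℕ) (hN : 0 < N)
    (hcard : Nat.card V = N) (f : ℕ → V) (hf : ∀ i < N, ∀ j < N, f i = f j → i = j)
    (adj : ℕ → ℕ → Bool) (hadj : ∀ a < N, ∀ b < N, adj a b = true → G.Adj (f a) (f b))
    (L : List ℕ) (hL : certOK adj N L = true) : HasUPS G := by
  simp only [certOK, Bool.and_eq_true, decide_eq_true_eq, List.all_eq_true, List.mem_range] at hL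
  obtain ⟨⟨⟨h1, h2⟩, h3⟩, h4⟩ := hL
  have hget : ∀ i < N, L.getD i 0 < N := by
    intro i hi
    have hi' : i < L.length := by omega
    rw [List.getD_eq_getElem _ _ hi']
    exact h2 _ (List.getElem_mem hi')
  refine hasUPS_of_cyclic N hN hcard (fun i => f (L.getD (i % N) 0)) ?_ ?_ ?_
  · intro i
    have hi := Nat.mod_lt i hN
    have := h4 (i % N) hi
    have e1 : (i % N + 1) % N = (i + 1) % N := by rw [Nat.add_mod, Nat.mod_mod, ← Nat.add_mod]
    rw [e1] at this
    exact hadj _ (hget _ hi) _ (hget _ (Nat.mod_lt _ hN)) this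
  · intro i
    simp
  · intro i hi j hj hij
    have hi' : i < L.length := by omega
    have hj' : j < L.length := by omega
    simp only [Nat.mod_eq_of_lt hi, Nat.mod_eq_of_lt hj] at hij
    have := hf _ (hget i hi) _ (hget j hj) hij
    rw [List.getD_eq_getElem _ _ hi', List.getD_eq_getElem _ _ hj'] at this
    exact (List.Nodup.getElem_inj_iff h3).1 this

section Semi

variable {V : Type*} {G : SimpleGraph V}

theorem coe_pow_apply (z : G ≃g G) (k : ℕ) (v : V) : (z ^ k) v = (fun u => z u)^[k] v := by
  induction k generalizing v with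
  | zero => rfl
  | succ k ih =>
    rw [pow_succ, Function.iterate_succ_apply, ← ih]
    rfl

theorem pow_add_apply (z : G ≃g G) (a b : ℕ) (v : V) : (z ^ (a + b)) v = (z ^ a) ((z ^ b) v) := by
  rw [pow_add]; rfl

theorem fix_of_pow {z : G ≃g G} {p : ℕ} (hp : p.Prime) (hz : z ^ p = 1) {v : V} {k : ℕ}
    (hk : ¬ p ∣ k) (h : (z ^ k) v = v) : z v = v := by
  have h1 : Function.IsPeriodicPt (fun u => z u) k v := by
    rw [coe_pow_apply] at h
    exact h
  have h2 : Function.IsPeriodicPt (fun u => z u) p v := by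
    have : (z ^ p) v = v := by rw [hz]; rfl
    rw [coe_pow_apply] at this
    exact this
  have h3 := h1.minimalPeriod_dvd
  have h4 := h2.minimalPeriod_dvd
  rcases (Nat.dvd_prime hp).1 h4 with h5 | h5
  · exact Function.minimalPeriod_eq_one_iff_isFixedPt.1 h5
  · exact absurd (h5 ▸ h3) hk

theorem pow_apply_inj {z : G ≃g G} {p : ℕ} (hp : p.Prime) (hz : z ^ p = 1) {v : V}
    (hv : z v ≠ v) {a b : ℕ} (h : (z ^ a) v = (z ^ b) v) : a % p = b % p := by
  wlog hab : a ≤ b generalizing a b
  · exact (this h.symm (by omega)).symm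
  by_contra hne
  apply hv
  apply fix_of_pow hp hz (k := b - a)
  · intro hd
    exact hne ((Nat.modEq_iff_dvd' hab).2 hd)
  · have h1 : (z ^ b) v = (z ^ a) ((z ^ (b - a)) v) := by
      rw [← pow_add_apply]; congr 2; omega
    rw [h1] at h
    exact ((z ^ a).injective h).symm

/-- a fixed point free automorphism of prime order -/
theorem exists_semiregular [Finite V] (hG : G.Connected) (hT : VT G) {p : ℕ} (hp : p.Prime)
    (hdvd : p ∣ Nat.card V) (hd : ∀ v, (G.neighborSet v).ncard < p) :
    ∃ z : G ≃g G, z ^ p = 1 ∧ ∀ v, z v ≠ v := by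
  have := Fact.mk hp
  have : Finite (G ≃g G) :=
    Finite.of_injective (fun φ : G ≃g G => (φ : V → V)) DFunLike.coe_injective
  have : MulAction.IsPretransitive (G ≃g G) V := ⟨fun u v => hT u v⟩
  obtain ⟨o⟩ := hG.nonempty
  have h1 : Nat.card V ∣ Nat.card (G ≃g G) := by
    have h2 := (MulAction.stabilizer (G ≃g G) o).index_dvd_card
    rwa [MulAction.index_stabilizer, MulAction.orbit_eq_univ, Set.ncard_univ] at h2
  obtain ⟨z, hz⟩ := exists_prime_orderOf_dvd_card' p (hdvd.trans h1)
  have hz1 : z ^ p = 1 := by rw [← hz]; exact pow_orderOf_eq_one z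
  refine ⟨z, hz1, ?_⟩
  intro v hv
  have hstep : ∀ u w, z u = u → G.Adj u w → z w = w := by
    intro u w hu huw
    by_contra hw
    have hmem : ∀ i : ℕ, (z ^ i) w ∈ G.neighborSet u := by
      intro i
      have hfix : (z ^ i) u = u := by
        rw [coe_pow_apply]
        exact Function.IsFixedPt.iterate hu i
      have : G.Adj ((z ^ i) u) ((z ^ i) w) := (z ^ i).map_rel_iff.2 huw
      rw [hfix] at this
      exact this
    have hinj : Set.InjOn (fun i : ℕ => (z ^ i) w) (Set.Iio p) := by
      intro i hi j hj hij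
      have := pow_apply_inj hp hz1 hw hij
      rwa [Nat.mod_eq_of_lt hi, Nat.mod_eq_of_lt hj] at this
    have h3 : ((fun i : ℕ => (z ^ i) w) '' Set.Iio p).ncard = p := by
      rw [hinj.ncard_image, Set.ncard_eq_toFinset_card']
      simp
    have h4 : ((fun i : ℕ => (z ^ i) w) '' Set.Iio p).ncard ≤ (G.neighborSet u).ncard := by
      apply Set.ncard_le_ncard _ (Set.toFinite _)
      rintro _ ⟨i, _, rfl⟩
      exact hmem i
    have := hd u
    omega
  have hall : ∀ w, z w = w := by
    intro w
    obtain ⟨q⟩ := hG.preconnected v w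
    induction q with
    | nil => exact hv
    | cons h q ih => exact ih (hstep _ _ hv h)
  have : z = 1 := by
    ext w
    exact hall w
  rw [this, orderOf_one] at hz
  exact hp.one_lt.ne hz

/-- lifting a Hamilton cycle of the quotient by a semiregular element of prime order -/
theorem hasUPS_of_lift [Finite V] {p k : ℕ} (hp : p.Prime) (hk : 0 < k)
    (hcard : Nat.card V = k * p) (z : G ≃g G) (hz : z ^ p = 1) (hfix : ∀ v, z v ≠ v)
    (x : ℕ → V) (hx : ∀ i, i + 1 < k → G.Adj (x i) (x (i + 1))) (t : ℕ) (ht : ¬ p ∣ t)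
    (hlast : G.Adj (x (k - 1)) ((z ^ t) (x 0)))
    (horb : ∀ i < k, ∀ j < k, ∀ s : ℕ, (z ^ s) (x i) = x j → i = j) : HasUPS G := by
  have hpow : ∀ a b : ℕ, ∀ v, ((z ^ t) ^ a) v = ((z ^ t) ^ b) v → a % p = b % p := by
    intro a b v h
    rw [← pow_mul, ← pow_mul] at h
    have h1 := pow_apply_inj hp hz (hfix v) h
    have h2 : t * a ≡ t * b [MOD p] := h1
    exact Nat.ModEq.cancel_left_of_coprime ((Nat.Prime.coprime_iff_not_dvd hp).2 ht) h2
  have hwp : (z ^ t) ^ p = 1 := by rw [← pow_mul, mul_comm, pow_mul, hz, one_pow]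
  refine hasUPS_of_cyclic (k * p) (Nat.mul_pos hk hp.pos) hcard
    (fun i => ((z ^ t) ^ (i / k)) (x (i % k))) ?_ ?_ ?_
  · intro i
    have hi := Nat.mod_lt i hk
    by_cases h : i % k + 1 < k
    · have e1 : (i + 1) / k = i / k := by
        have h0 := Nat.div_add_mod i k
        have h2 : (i / k + 1) * k = k * (i / k) + k := by ring
        have h3 : i / k * k = k * (i / k) := mul_comm _ _
        apply Nat.div_eq_of_lt_le
        · omega
        · omega
      have e2 : (i + 1) % k = i % k + 1 := by
        have h1 := Nat.div_add_mod i k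
        have h2 := Nat.div_add_mod (i + 1) k
        rw [e1] at h2
        omega
      simp only [e1, e2]
      exact ((z ^ t) ^ (i / k)).map_rel_iff.2 (hx _ h)
    · have e0 : i % k = k - 1 := by omega
      have e1 : (i + 1) / k = i / k + 1 := by
        have h1 := Nat.div_add_mod i k
        have h2 : i + 1 = k * (i / k + 1) := by rw [mul_add]; omega
        rw [h2, Nat.mul_div_cancel_left _ hk]
      have e2 : (i + 1) % k = 0 := by
        have h1 := Nat.div_add_mod i k
        have h2 : i + 1 = k * (i / k + 1) := by rw [mul_add]; omega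
        rw [h2, Nat.mul_mod_right]
      simp only [e1, e2, e0]
      have h3 : ((z ^ t) ^ (i / k + 1)) (x 0) = ((z ^ t) ^ (i / k)) ((z ^ t) (x 0)) := by
        rw [pow_succ]; rfl
      rw [h3]
      exact ((z ^ t) ^ (i / k)).map_rel_iff.2 hlast
  · intro i
    have e1 : (i + k * p) / k = i / k + p := by
      rw [Nat.add_mul_div_left _ _ hk]
    have e2 : (i + k * p) % k = i % k := by
      rw [Nat.add_mul_mod_self_left]
    simp only [e1, e2]
    rw [pow_add, hwp, mul_one]
  · intro i hi j hj hij
    have h0 : i % k = j % k := by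
      -- same orbit
      have h1 : (z ^ (t * (i / k))) (x (i % k)) = (z ^ (t * (j / k))) (x (j % k)) := by
        rw [pow_mul, pow_mul]; exact hij
      have h2 : ∃ s : ℕ, (z ^ s) (x (i % k)) = x (j % k) := by
        obtain ⟨s, hs⟩ : ∃ s : ℕ, (s + t * (j / k)) % p = 0 := by
          refine ⟨(p - 1) * (t * (j / k)), ?_⟩
          have : (p - 1) * (t * (j / k)) + t * (j / k) = p * (t * (j / k)) := by
            obtain ⟨q, hq⟩ := Nat.exists_eq_succ_of_ne_zero hp.ne_zero
            subst hq
            simp; ring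
          rw [this, Nat.mul_mod_right]
        refine ⟨s + t * (i / k), ?_⟩
        rw [pow_add_apply, h1, ← pow_add_apply]
        obtain ⟨q, hq⟩ := Nat.dvd_of_mod_eq_zero hs
        rw [hq, pow_mul, hz, one_pow]
        rfl
      obtain ⟨s, hs⟩ := h2
      exact horb _ (Nat.mod_lt _ hk) _ (Nat.mod_lt _ hk) s hs
    rw [h0] at hij
    have h1 := hpow _ _ _ hij
    have hi' : i / k < p := (Nat.div_lt_iff_lt_mul hk).2 (by rw [mul_comm]; exact hi)
    have hj' : j / k < p := (Nat.div_lt_iff_lt_mul hk).2 (by rw [mul_comm]; exact hj)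
    rw [Nat.mod_eq_of_lt hi', Nat.mod_eq_of_lt hj'] at h1
    have h2 := Nat.div_add_mod i k
    have h3 := Nat.div_add_mod j k
    rw [h1, h0] at h2
    omega

end Semi

end Pool.Agent.UPS
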