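import Mathlib
import Pool.Agent.Lib.MP_876e19_co_ups.SmallHam1

/-!
# Voltage certificates for Hamilton cycles (MP_876e19_co)

`z` is a semiregular automorphism of prime order `p`, `x 0, …, x (k-1)` are representatives of the
orbits.  `hasUPS_of_word`: a word in the arcs of the voltage graph which closes up after visiting
every vertex once gives `HasUPS G`.  `M z p a b` is the set of exponents `t` with `a ~ z ^ t b`;
`deg_sum`, `card_M_symm`, `even_card_M_self` are the counting rules.
-/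

set_option autoImplicit false

namespace Pool.Agent.UPS
namespace SH

/-- one step of a word -/
def stp (arc : ℕ → ℕ → ℕ × ℕ) (p : ℕ) (s : ℕ × ℕ) (l : ℕ) : ℕ × ℕ :=
  ((arc s.1 l).1, (s.2 + (arc s.1 l).2) % p)

/-- the codes of the visited vertices -/
def tr (arc : ℕ → ℕ → ℕ × ℕ) (p : ℕ) : List ℕ → ℕ × ℕ → List ℕ
  | [], _ => []
  | l :: w, s => (s.1 * p + s.2) :: tr arc p w (stp arc p s l)

/-- the certificate checker -/
def chkW (arc : ℕ → ℕ → ℕ × ℕ) (k p : ℕ) (w : List ℕ) : Bool :=
  decide (w.length = k * p) && w.all (fun l => decide (l < 4)) &&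
    decide (w.foldl (stp arc p) (0, 0) = (0, 0)) && decide ((tr arc p w (0, 0)).Nodup)

theorem tr_get (arc : ℕ → ℕ → ℕ × ℕ) (p : ℕ) : ∀ (w : List ℕ) (s : ℕ × ℕ) (n : ℕ),
    n < w.length → (tr arc p w s)[n]? =
      some (((w.take n).foldl (stp arc p) s).1 * p + ((w.take n).foldl (stp arc p) s).2) := by
  intro w
  induction w with
  | nil => intro s n hn; simp at hn
  | cons l w ih =>
    intro s n hn
    cases n with
    | zero => simp [tr]
    | succ n =>
      simp only [tr, List.getElem?_cons_succ, List.take_succ_cons, List.foldl_cons]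
      exact ih _ _ (by simpa using hn)

variable {V : Type*} {G : SimpleGraph V}

theorem pow_mod_eq {z : G ≃g G} {p : ℕ} (hz : z ^ p = 1) (n : ℕ) : z ^ (n % p) = z ^ n := by
  conv_rhs => rw [← Nat.mod_add_div n p, pow_add, pow_mul, hz, one_pow, mul_one]

theorem same_orb {z : G ≃g G} {p : ℕ} (hp : 0 < p) (hz : z ^ p = 1) {u v : V} {a b : ℕ}
    (h : (z ^ a) u = (z ^ b) v) : ∃ s : ℕ, (z ^ s) u = v := by
  refine ⟨(p - 1) * b + a, ?_⟩
  rw [pow_add_apply, h, ← pow_add_apply]
  have : (p - 1) * b + b = p * b := by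
    obtain ⟨q, rfl⟩ := Nat.exists_eq_succ_of_ne_zero hp.ne'
    simp; ring
  rw [this, pow_mul, hz, one_pow]
  rfl

theorem hasUPS_of_word [Finite V] {p k : ℕ} (hp : p.Prime) (hk : 0 < k)
    (hcard : Nat.card V = k * p) (z : G ≃g G) (hz : z ^ p = 1) (hfix : ∀ v, z v ≠ v)
    (x : ℕ → V) (horb : ∀ i < k, ∀ j < k, ∀ s : ℕ, (z ^ s) (x i) = x j → i = j)
    (arc : ℕ → ℕ → ℕ × ℕ) (harc1 : ∀ j < k, ∀ l < 4, (arc j l).1 < k)
    (harc2 : ∀ j < k, ∀ l < 4, G.Adj (x j) ((z ^ (arc j l).2) (x (arc j l).1)))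
    (w : List ℕ) (hw : chkW arc k p w = true) : HasUPS G := by
  simp only [chkW, Bool.and_eq_true, decide_eq_true_eq, List.all_eq_true] at hw
  obtain ⟨⟨⟨hlen, hlab⟩, hend⟩, hnd⟩ := hw
  set N := k * p with hN
  have hN0 : 0 < N := Nat.mul_pos hk hp.pos
  let P : ℕ → ℕ × ℕ := fun n => (w.take n).foldl (stp arc p) (0, 0)
  let vert : ℕ × ℕ → V := fun s => (z ^ s.2) (x s.1)
  have hP0 : P 0 = (0, 0) := by simp [P]
  have hPN : P N = (0, 0) := by
    have : w.take N = w := by rw [← hlen, List.take_length]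
    show (w.take N).foldl (stp arc p) (0, 0) = (0, 0)
    rw [this]; exact hend
  have hstep : ∀ n (hn : n < N), P (n + 1) = stp arc p (P n) (w[n]'(by omega)) := by
    intro n hn
    show (w.take (n + 1)).foldl (stp arc p) (0, 0) = _
    rw [List.take_succ_eq_append_getElem (by omega), List.foldl_append]
    rfl
  have hbd : ∀ n ≤ N, (P n).1 < k ∧ (P n).2 < p := by
    intro n
    induction n with
    | zero => intro _; rw [hP0]; exact ⟨hk, hp.pos⟩
    | succ n ih =>
      intro hn
      obtain ⟨h1, _⟩ := ih (by omega)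
      rw [hstep n (by omega)]
      exact ⟨harc1 _ h1 _ (hlab _ (List.getElem_mem _)), Nat.mod_lt _ hp.pos⟩
  have hadj : ∀ n < N, G.Adj (vert (P n)) (vert (P (n + 1))) := by
    intro n hn
    have h1 := (hbd n hn.le).1
    have hl : w[n]'(by omega) < 4 := hlab _ (List.getElem_mem _)
    have h2 := harc2 _ h1 _ hl
    rw [hstep n hn]
    show G.Adj ((z ^ (P n).2) (x (P n).1))
      ((z ^ (((P n).2 + (arc (P n).1 (w[n]'(by omega))).2) % p)) (x (arc (P n).1 (w[n]'(by omega))).1))
    rw [pow_mod_eq hz, pow_add_apply]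
    exact (z ^ (P n).2).map_rel_iff.2 h2
  refine hasUPS_of_cyclic N hN0 hcard (fun n => vert (P (n % N))) ?_ ?_ ?_
  · intro n
    have hn := Nat.mod_lt n hN0
    have h1 := hadj _ hn
    by_cases h : n % N + 1 < N
    · have : (n + 1) % N = n % N + 1 := by
        rw [Nat.add_mod, Nat.mod_eq_of_lt (show 1 < N by omega), Nat.mod_eq_of_lt h]
      simp only [this]
      exact h1
    · have e : n % N + 1 = N := by omega
      have e2 : (n + 1) % N = 0 := by
        have h3 := Nat.div_add_mod n N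
        have h4 : n + 1 = N * (n / N + 1) := by rw [mul_add]; omega
        rw [h4, Nat.mul_mod_right]
      simp only [e2]
      rw [e, hPN, ← hP0] at h1
      exact h1
  · intro n
    simp
  · intro i hi j hj hij
    simp only [Nat.mod_eq_of_lt hi, Nat.mod_eq_of_lt hj] at hij
    obtain ⟨hi1, hi2⟩ := hbd i hi.le
    obtain ⟨hj1, hj2⟩ := hbd j hj.le
    obtain ⟨s, hs⟩ := same_orb hp.pos hz hij
    have e1 : (P i).1 = (P j).1 := horb _ hi1 _ hj1 s hs
    have e2 : (P i).2 = (P j).2 := by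
      have hij' : (z ^ (P i).2) (x (P i).1) = (z ^ (P j).2) (x (P i).1) := by
        have h : (z ^ (P i).2) (x (P i).1) = (z ^ (P j).2) (x (P j).1) := hij
        rw [← e1] at h
        exact h
      have := pow_apply_inj hp hz (hfix _) hij'
      rwa [Nat.mod_eq_of_lt hi2, Nat.mod_eq_of_lt hj2] at this
    have hi3 := tr_get arc p w (0, 0) i (by omega)
    have hj3 := tr_get arc p w (0, 0) j (by omega)
    have e3 : (tr arc p w (0, 0))[i]? = (tr arc p w (0, 0))[j]? := by
      rw [hi3, hj3]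
      show some ((P i).1 * p + (P i).2) = some ((P j).1 * p + (P j).2)
      rw [e1, e2]
    have hil : i < (tr arc p w (0, 0)).length := by
      by_contra hcon
      rw [List.getElem?_eq_none (by omega)] at hi3
      cases hi3
    exact (List.getElem?_inj hil hnd).1 e3

section Mset

/-- exponents `t` with `a ~ z ^ t b` -/
noncomputable def M (z : G ≃g G) (p : ℕ) [NeZero p] (a b : V) : Finset (ZMod p) := by
  classical exact Finset.univ.filter (fun t => G.Adj a ((z ^ t.val) b))

variable {z : G ≃g G} {p : ℕ} [NeZero p]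

theorem mem_M {a b : V} {t : ZMod p} : t ∈ M z p a b ↔ G.Adj a ((z ^ t.val) b) := by
  classical
  simp [M]

theorem adj_iff_M (hz : z ^ p = 1) {a b : V} {n : ℕ} :
    G.Adj a ((z ^ n) b) ↔ (n : ZMod p) ∈ M z p a b := by
  rw [mem_M, ZMod.val_natCast, pow_mod_eq hz]

theorem neg_mem_M (hz : z ^ p = 1) {a b : V} {t : ZMod p} (h : t ∈ M z p a b) :
    -t ∈ M z p b a := by
  rw [mem_M] at h
  have h1 : G.Adj ((z ^ (p - t.val)) a) ((z ^ (p - t.val)) ((z ^ t.val) b)) :=
    (z ^ (p - t.val)).map_rel_iff.2 h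
  rw [← pow_add_apply] at h1
  have h2 : p - t.val + t.val = p := by have := ZMod.val_lt t; omega
  rw [h2, hz] at h1
  have h3 : G.Adj b ((z ^ (p - t.val)) a) := h1.symm
  rw [adj_iff_M hz] at h3
  have h4 : ((p - t.val : ℕ) : ZMod p) = -t := by
    rw [Nat.cast_sub (ZMod.val_lt t).le, ZMod.natCast_self, ZMod.natCast_zmod_val, zero_sub]
  rwa [h4] at h3

theorem card_M_symm (hz : z ^ p = 1) (a b : V) : (M z p a b).card = (M z p b a).card := by
  have key : ∀ a b : V, (M z p a b).card ≤ (M z p b a).card := by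
    intro a b
    apply Finset.card_le_card_of_injOn (fun t => -t)
    · intro t ht
      exact neg_mem_M hz ht
    · intro s _ t _ h
      exact neg_injective h
  exact le_antisymm (key a b) (key b a)

theorem zero_notMem_M (a : V) : (0 : ZMod p) ∉ M z p a a := by
  rw [mem_M, ZMod.val_zero, pow_zero]
  exact fun h => G.loopless.irrefl a h

theorem even_card_M_self (hz : z ^ p = 1) (hp : Odd p) (a : V) : Even (M z p a a).card := by
  have h : (((M z p a a).card : ℕ) : ZMod 2) = 0 := by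
    rw [Finset.card_eq_sum_ones, Nat.cast_sum]
    refine Finset.sum_involution (fun t _ => -t) ?_ ?_ ?_ ?_
    · intro t ht
      simp only [Nat.cast_one]
      decide
    · intro t ht _ h
      have h2 : t = 0 := by
        have : (2 : ZMod p) * t = 0 := by rw [two_mul]; nth_rewrite 1 [← h]; ring
        have hu : IsUnit ((2 : ℕ) : ZMod p) := by
          rw [ZMod.isUnit_iff_coprime]
          exact (Nat.coprime_two_left.2 hp)
        have hu' : IsUnit (2 : ZMod p) := by exact_mod_cast hu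
        exact (hu'.mul_right_eq_zero).1 this
      rw [h2] at ht
      exact zero_notMem_M a ht
    · intro t ht
      exact neg_mem_M hz ht
    · intro t _
      exact neg_neg t
  exact (ZMod.natCast_eq_zero_iff_even).1 h

end Mset

section Cover

variable [Finite V] {z : G ≃g G} {p k : ℕ} [NeZero p]

theorem cover (hp : p.Prime) (hcard : Nat.card V = k * p) (hz : z ^ p = 1) (hfix : ∀ v, z v ≠ v)
    (x : ℕ → V) (horb : ∀ i < k, ∀ j < k, ∀ s : ℕ, (z ^ s) (x i) = x j → i = j) (v : V) :
    ∃ j < k, ∃ t : ZMod p, (z ^ t.val) (x j) = v := by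
  let f : Fin k × ZMod p → V := fun q => (z ^ q.2.val) (x q.1)
  have hinj : Function.Injective f := by
    rintro ⟨i, s⟩ ⟨j, t⟩ h
    have h' : (z ^ s.val) (x i) = (z ^ t.val) (x j) := h
    obtain ⟨r, hr⟩ := same_orb hp.pos hz h'
    have e1 : (i : ℕ) = j := horb _ i.2 _ j.2 r hr
    have e1' : i = j := Fin.ext e1
    subst e1'
    have := pow_apply_inj hp hz (hfix _) h'
    rw [Nat.mod_eq_of_lt (ZMod.val_lt s), Nat.mod_eq_of_lt (ZMod.val_lt t)] at this
    rw [ZMod.val_injective p this]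
  have hbij : Function.Bijective f := by
    refine (Nat.bijective_iff_injective_and_card f).2 ⟨hinj, ?_⟩
    rw [hcard, Nat.card_prod, Nat.card_zmod, Nat.card_eq_fintype_card, Fintype.card_fin]
  obtain ⟨⟨j, t⟩, h⟩ := hbij.2 v
  exact ⟨j, j.2, t, h⟩

theorem deg_sum (hp : p.Prime) (hcard : Nat.card V = k * p) (hz : z ^ p = 1)
    (hfix : ∀ v, z v ≠ v) (x : ℕ → V)
    (horb : ∀ i < k, ∀ j < k, ∀ s : ℕ, (z ^ s) (x i) = x j → i = j) (a : V) :
    ∑ j ∈ Finset.range k, (M z p a (x j)).card = (G.neighborSet a).ncard := by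
  classical
  rw [← Finset.card_sigma]
  let ψ : (Σ _ : ℕ, ZMod p) → V := fun q => (z ^ q.2.val) (x q.1)
  have h1 : G.neighborSet a =
      ↑(((Finset.range k).sigma (fun j => M z p a (x j))).image ψ) := by
    ext v
    simp only [SimpleGraph.mem_neighborSet, Finset.coe_image, Set.mem_image, Finset.mem_coe,
      Finset.mem_sigma, Finset.mem_range]
    constructor
    · intro hv
      obtain ⟨j, hj, t, rfl⟩ := cover hp hcard hz hfix x horb v
      exact ⟨⟨j, t⟩, ⟨hj, mem_M.2 hv⟩, rfl⟩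
    · rintro ⟨⟨j, t⟩, ⟨_, ht⟩, rfl⟩
      exact mem_M.1 ht
  rw [h1, Set.ncard_coe_finset, Finset.card_image_of_injOn]
  rintro ⟨i, s⟩ hi ⟨j, t⟩ hj h
  simp only [Finset.coe_sigma, Set.mem_sigma_iff, Finset.mem_coe, Finset.mem_range] at hi hj
  have h' : (z ^ s.val) (x i) = (z ^ t.val) (x j) := h
  obtain ⟨r, hr⟩ := same_orb hp.pos hz h'
  have e1 : i = j := horb _ hi.1 _ hj.1 r hr
  subst e1
  have := pow_apply_inj hp hz (hfix _) h'
  rw [Nat.mod_eq_of_lt (ZMod.val_lt s), Nat.mod_eq_of_lt (ZMod.val_lt t)] at this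
  rw [ZMod.val_injective p this]

end Cover

end SH
end Pool.Agent.UPS
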