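import Mathlib
import Pool.Agent.Lib.MP_876e19_co_ups.SmallHam2

/-!
# Orbits of a semiregular automorphism; two orbits (MP_876e19_co)

* `exists_reps`, `rel_of_adj`, `rel_cut`: representatives of the orbits and connectivity;
* `cycle_single`: a closed cycle of orbits with a double edge gives a Hamilton cycle;
* `hasUPS_two_orbits`: `2 p` vertices, even valency `< p`.
-/

set_option autoImplicit false

namespace Pool.Agent.UPS
namespace SH

variable {V : Type*} {G : SimpleGraph V}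

/-- the orbits of `u` and `v` are joined by an edge -/
def Rel (z : G ≃g G) (u v : V) : Prop := ∃ m : ℕ, G.Adj u ((z ^ m) v)

theorem rel_of_adj {z : G ≃g G} {p : ℕ} (hp : 0 < p) (hz : z ^ p = 1) {u v : V} {a b : ℕ}
    (h : G.Adj ((z ^ a) u) ((z ^ b) v)) : Rel z u v := by
  refine ⟨(p - 1) * a + b, ?_⟩
  have h1 : G.Adj ((z ^ ((p - 1) * a)) ((z ^ a) u)) ((z ^ ((p - 1) * a)) ((z ^ b) v)) :=
    (z ^ ((p - 1) * a)).map_rel_iff.2 h
  rw [← pow_add_apply, ← pow_add_apply] at h1
  have : (p - 1) * a + a = p * a := by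
    obtain ⟨q, rfl⟩ := Nat.exists_eq_succ_of_ne_zero hp.ne'
    simp; ring
  rw [this, pow_mul, hz, one_pow] at h1
  exact h1

theorem Rel.symm {z : G ≃g G} {p : ℕ} (hp : 0 < p) (hz : z ^ p = 1) {u v : V}
    (h : Rel z u v) : Rel z v u := by
  obtain ⟨m, hm⟩ := h
  exact rel_of_adj hp hz (a := m) (b := 0) (u := v) (v := u) hm.symm

theorem rel_shift {z : G ≃g G} {p : ℕ} (hp : 0 < p) (hz : z ^ p = 1) {u v : V} (a b : ℕ) :
    Rel z ((z ^ a) u) ((z ^ b) v) ↔ Rel z u v := by
  constructor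
  · rintro ⟨m, hm⟩
    rw [← pow_add_apply] at hm
    exact rel_of_adj hp hz hm
  · rintro ⟨m, hm⟩
    refine ⟨(p - 1) * b + m + a, ?_⟩
    have h1 : G.Adj ((z ^ a) u) ((z ^ a) ((z ^ m) v)) := (z ^ a).map_rel_iff.2 hm
    have h2 : (z ^ ((p - 1) * b + m + a)) ((z ^ b) v) = (z ^ a) ((z ^ m) v) := by
      rw [← pow_add_apply, ← pow_add_apply]
      have : (p - 1) * b + m + a + b = p * b + (a + m) := by
        obtain ⟨q, rfl⟩ := Nat.exists_eq_succ_of_ne_zero hp.ne'
        simp; ring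
      rw [this, pow_add, pow_mul, hz, one_pow, one_mul]
    rw [h2]
    exact h1

/-- representatives of the orbits -/
theorem exists_reps [Finite V] {p k : ℕ} (hp : p.Prime) (hcard : Nat.card V = k * p) (hk : 0 < k)
    (z : G ≃g G) (hz : z ^ p = 1) :
    ∃ x : ℕ → V, ∀ i < k, ∀ j < k, ∀ s : ℕ, (z ^ s) (x i) = x j → i = j := by
  classical
  have hne : Nonempty V := by
    rw [← Nat.card_pos_iff.trans (and_iff_left (inferInstance : Finite V)), hcard]
    exact Nat.mul_pos hk hp.pos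
  have key : ∀ m ≤ k, ∃ x : ℕ → V, ∀ i < m, ∀ j < m, ∀ s : ℕ, (z ^ s) (x i) = x j → i = j := by
    intro m
    induction m with
    | zero => intro _; exact ⟨fun _ => hne.some, fun i hi => absurd hi (Nat.not_lt_zero _)⟩
    | succ m ih =>
      intro hm
      obtain ⟨x, hx⟩ := ih (by omega)
      have hex : ∃ v : V, ∀ i < m, ∀ s : ℕ, (z ^ s) (x i) ≠ v := by
        by_contra hcon
        push Not at hcon
        have hsurj : Function.Surjective (fun q : Fin m × Fin p => (z ^ (q.2 : ℕ)) (x q.1)) := by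
          intro v
          obtain ⟨i, hi, s, hs⟩ := hcon v
          refine ⟨(⟨i, hi⟩, ⟨s % p, Nat.mod_lt _ hp.pos⟩), ?_⟩
          show (z ^ (s % p)) (x i) = v
          rw [pow_mod_eq hz]
          exact hs
        have := Nat.card_le_card_of_surjective _ hsurj
        rw [hcard, Nat.card_prod, Nat.card_eq_fintype_card, Nat.card_eq_fintype_card,
          Fintype.card_fin, Fintype.card_fin] at this
        have h2 := Nat.le_of_mul_le_mul_right this hp.pos
        omega
      obtain ⟨v, hv⟩ := hex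
      refine ⟨fun i => if i < m then x i else v, ?_⟩
      intro i hi j hj s hs
      by_cases h1 : i < m
      · by_cases h2 : j < m
        · simp only [h1, h2, if_true] at hs
          exact hx i h1 j h2 s hs
        · simp only [h1, h2, if_true, if_false] at hs
          exact absurd hs (hv i h1 s)
      · by_cases h2 : j < m
        · simp only [h1, h2, if_true, if_false] at hs
          exfalso
          have h3 : (z ^ s) v = (z ^ 0) (x j) := hs
          obtain ⟨r, hr⟩ := same_orb hp.pos hz h3.symm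
          exact hv j h2 r hr
        · omega
  exact key k le_rfl

/-- connectivity of the quotient -/
theorem rel_cut [Finite V] {p k : ℕ} [NeZero p] (hG : G.Connected) (hp : p.Prime)
    (hcard : Nat.card V = k * p) {z : G ≃g G} (hz : z ^ p = 1) (hfix : ∀ v, z v ≠ v) (x : ℕ → V)
    (horb : ∀ i < k, ∀ j < k, ∀ s : ℕ, (z ^ s) (x i) = x j → i = j) (S : Finset ℕ)
    {i0 j0 : ℕ} (hi0 : i0 < k) (hj0 : j0 < k) (hi : i0 ∈ S) (hj : j0 ∉ S) :
    ∃ i ∈ S, ∃ j, j ∉ S ∧ i < k ∧ j < k ∧ Rel z (x i) (x j) := by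
  by_contra hcon
  push Not at hcon
  have key : ∀ v w : V, (∃ i ∈ S, i < k ∧ ∃ t : ℕ, (z ^ t) (x i) = v) → G.Adj v w →
      (∃ i ∈ S, i < k ∧ ∃ t : ℕ, (z ^ t) (x i) = w) := by
    rintro v w ⟨i, hiS, hik, t, rfl⟩ hvw
    obtain ⟨j, hjk, r, rfl⟩ := cover hp hcard hz hfix x horb w
    refine ⟨j, ?_, hjk, r.val, rfl⟩
    by_contra hjS
    exact hcon i hiS j hjS hik hjk (rel_of_adj hp.pos hz hvw)
  have all : ∀ w : V, ∀ v : V, (∃ i ∈ S, i < k ∧ ∃ t : ℕ, (z ^ t) (x i) = v) →
      G.Reachable v w → (∃ i ∈ S, i < k ∧ ∃ t : ℕ, (z ^ t) (x i) = w) := by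
    rintro w v hv ⟨q⟩
    induction q with
    | nil => exact hv
    | cons h q ih => exact ih (key _ _ hv h)
  obtain ⟨i, hiS, hik, t, ht⟩ := all (x j0) (x i0) ⟨i0, hi, hi0, 0, rfl⟩ (hG.preconnected _ _)
  have := horb i hik j0 hj0 t ht
  exact hj (this ▸ hiS)

/-- changing representatives -/
theorem horb_change {z : G ≃g G} {p k : ℕ} (hp : 0 < p) (hz : z ^ p = 1) {x y : ℕ → V}
    (horb : ∀ i < k, ∀ j < k, ∀ s : ℕ, (z ^ s) (x i) = x j → i = j) (σ : ℕ → ℕ)
    (hσ : ∀ i < k, σ i < k) (hσi : ∀ i < k, ∀ j < k, σ i = σ j → i = j)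
    (hy : ∀ i < k, ∃ a : ℕ, y i = (z ^ a) (x (σ i))) :
    ∀ i < k, ∀ j < k, ∀ s : ℕ, (z ^ s) (y i) = y j → i = j := by
  intro i hi j hj s hs
  obtain ⟨a, ha⟩ := hy i hi
  obtain ⟨b, hb⟩ := hy j hj
  rw [ha, hb, ← pow_add_apply] at hs
  obtain ⟨r, hr⟩ := same_orb hp hz hs
  exact hσi i hi j hj (horb _ (hσ i hi) _ (hσ j hj) r hr)

/-- a closed cycle of orbits through all orbits: single edges or a Hamilton cycle -/
theorem cycle_single [Finite V] {p k : ℕ} (hp : p.Prime) (hk : 0 < k)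
    (hcard : Nat.card V = k * p) {z : G ≃g G} (hz : z ^ p = 1) (hfix : ∀ v, z v ≠ v)
    (y : ℕ → V) (horb : ∀ i < k, ∀ j < k, ∀ s : ℕ, (z ^ s) (y i) = y j → i = j)
    (hadj : ∀ i, i + 1 < k → G.Adj (y i) (y (i + 1))) (hlast : G.Adj (y (k - 1)) (y 0))
    {i s : ℕ} (hi : i + 1 < k) (hs : ¬ p ∣ s) (h : G.Adj (y i) ((z ^ s) (y (i + 1)))) :
    HasUPS G := by
  refine hasUPS_of_lift hp hk hcard z hz hfix (fun j => if j ≤ i then y j else (z ^ s) (y j))
    ?_ s hs ?_ ?_
  · intro j hj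
    by_cases h1 : j + 1 ≤ i
    · have h2 : j ≤ i := by omega
      simp only [h1, h2, if_true]
      exact hadj j hj
    · by_cases h2 : j ≤ i
      · have h3 : j = i := by omega
        subst h3
        simp only [h1, h2, if_true, if_false]
        exact h
      · simp only [h1, h2, if_false]
        exact (z ^ s).map_rel_iff.2 (hadj j hj)
  · have h1 : ¬ (k - 1 ≤ i) := by omega
    simp only [h1, if_false, Nat.zero_le, if_true]
    exact (z ^ s).map_rel_iff.2 hlast
  · refine horb_change hp.pos hz horb id (fun _ h => h) (fun i _ j _ h => h) ?_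
    intro j _
    by_cases h1 : j ≤ i
    · exact ⟨0, by simp only [h1, if_true]; rfl⟩
    · exact ⟨s, by simp only [h1, if_false]; rfl⟩

/-- two orbits and even valency -/
theorem hasUPS_two_orbits [Finite V] (hG : G.Connected) (hT : VT G) {p d : ℕ} (hp : p.Prime)
    (hcard : Nat.card V = 2 * p) (hd : ∀ v, (G.neighborSet v).ncard = d) (hd2 : Even d)
    (hdp : d < p) (hp2 : Odd p) : HasUPS G := by
  have : NeZero p := ⟨hp.ne_zero⟩
  obtain ⟨z, hz, hfix⟩ := exists_semiregular hG hT hp ⟨2, by rw [hcard, mul_comm]⟩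
    (fun v => by rw [hd v]; exact hdp)
  obtain ⟨x, horb⟩ := exists_reps hp hcard (by norm_num) z hz
  obtain ⟨i, hi, j, hj, hi2, hj2, m, hm⟩ := rel_cut hG hp hcard hz hfix x horb {0}
    (i0 := 0) (j0 := 1) (by norm_num) (by norm_num) (by simp) (by simp)
  have hi0 : i = 0 := by simpa using hi
  have hj1 : j = 1 := by
    have : j ≠ 0 := by simpa using hj
    omega
  subst hi0 hj1
  -- representatives `x 0` and `b = z ^ m (x 1)`
  let y : ℕ → V := fun i => if i = 0 then (z ^ m) (x 1) else x 0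
  have hyorb : ∀ i < 2, ∀ j < 2, ∀ s : ℕ, (z ^ s) (y i) = y j → i = j := by
    refine horb_change hp.pos hz horb (fun i => if i = 0 then 1 else 0) ?_ ?_ ?_
    · intro i _; split_ifs <;> norm_num
    · intro i hi j hj h
      interval_cases i <;> interval_cases j <;> simp_all
    · intro i hi
      interval_cases i
      · exact ⟨m, by simp [y]⟩
      · exact ⟨0, by simp [y]⟩
  have hsum := deg_sum hp hcard hz hfix y hyorb (x 0)
  rw [hd, Finset.sum_range_succ, Finset.sum_range_one] at hsum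
  have hev := even_card_M_self hz hp2 (x 0)
  have hy0 : y 0 = (z ^ m) (x 1) := by simp [y]
  have hy1 : y 1 = x 0 := by simp [y]
  rw [hy1] at hsum
  have h0 : (0 : ZMod p) ∈ M z p (x 0) (y 0) := by
    rw [mem_M, ZMod.val_zero, pow_zero, hy0]
    exact hm
  have hpos : 0 < (M z p (x 0) (y 0)).card := Finset.card_pos.2 ⟨0, h0⟩
  have h2 : 1 < (M z p (x 0) (y 0)).card := by
    rcases hev with ⟨r, hr⟩
    rcases hd2 with ⟨r', hr'⟩
    omega
  obtain ⟨c, hc, hc0⟩ := Finset.exists_mem_ne h2 0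
  refine hasUPS_of_lift hp (by norm_num : 0 < 2) hcard z hz hfix y ?_ c.val ?_ ?_ hyorb
  · intro i hi
    have : i = 0 := by omega
    subst this
    rw [zero_add, hy0, hy1]
    exact hm.symm
  · intro hdvd
    apply hc0
    have := (ZMod.natCast_eq_zero_iff c.val p).2 hdvd
    rwa [ZMod.natCast_zmod_val] at this
  · show G.Adj (y 1) _
    rw [hy1]
    exact mem_M.1 hc

end SH
end Pool.Agent.UPS
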