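import Mathlib
import Pool.Agent.Lib.MP_876e19_co_ups.SmallHam3

/-!
# Tables of words for the voltage graphs with three and four orbits (MP_876e19_co)
-/

set_option autoImplicit false

namespace Pool.Agent.UPS
namespace SH

/-- arcs from a table -/
def arcOf (tb : List (ℕ × ℕ)) (j l : ℕ) : ℕ × ℕ := tb.getD (4 * j + l) (0, 0)

/-- fast checker, the visited vertices are the bits of `m` -/
def run (arc : ℕ → ℕ → ℕ × ℕ) (p : ℕ) : List ℕ → ℕ → ℕ → ℕ → Bool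
  | [], j, i, _ => Nat.beq j 0 && Nat.beq i 0
  | l :: w, j, i, m =>
    Nat.ble (l + 1) 4 && (Nat.beq (Nat.land (Nat.shiftRight m (j * p + i)) 1) 0 &&
      (match arc j l with
        | (j', s) => run arc p w j' ((i + s) % p) (Nat.lor m (Nat.shiftLeft 1 (j * p + i)))))

/-- fast certificate checker -/
def chkR (arc : ℕ → ℕ → ℕ × ℕ) (k p : ℕ) (w : List ℕ) : Bool :=
  Nat.beq w.length (k * p) && run arc p w 0 0 0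

theorem run_spec (arc : ℕ → ℕ → ℕ × ℕ) (p : ℕ) : ∀ (w : List ℕ) (j i m : ℕ),
    run arc p w j i m = true → (∀ l ∈ w, l < 4) ∧ w.foldl (stp arc p) (j, i) = (0, 0) ∧
      (tr arc p w (j, i)).Nodup ∧ ∀ c ∈ tr arc p w (j, i), m.testBit c = false := by
  intro w
  induction w with
  | nil =>
    intro j i m h
    simp only [run, Bool.and_eq_true] at h
    obtain ⟨h1, h2⟩ := h
    have h1 := Nat.eq_of_beq_eq_true h1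
    have h2 := Nat.eq_of_beq_eq_true h2
    subst h1 h2
    simp [tr]
  | cons l w ih =>
    intro j i m h
    simp only [run, Bool.and_eq_true, Nat.ble_eq] at h
    obtain ⟨h1, h2, h3⟩ := h
    have h2 := Nat.eq_of_beq_eq_true h2
    obtain ⟨h4, h5, h6, h7⟩ := ih _ _ _ h3
    have hst : stp arc p (j, i) l = ((arc j l).1, (i + (arc j l).2) % p) := rfl
    have hbit : m.testBit (j * p + i) = false := by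
      rw [Nat.testBit_eq_decide_div_mod_eq]
      have h8 : (m >>> (j * p + i)) &&& 1 = 0 := h2
      rw [Nat.and_one_is_mod, Nat.shiftRight_eq_div_pow] at h8
      simp [h8]
    have hor : ∀ c, (Nat.lor m (Nat.shiftLeft 1 (j * p + i))).testBit c = false →
        m.testBit c = false ∧ c ≠ j * p + i := by
      intro c hc
      have hc' : (m ||| (1 <<< (j * p + i))).testBit c = false := hc
      rw [Nat.testBit_or, Bool.or_eq_false_iff] at hc'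
      refine ⟨hc'.1, ?_⟩
      rintro rfl
      have h9 := hc'.2
      rw [Nat.one_shiftLeft, Nat.testBit_two_pow_self] at h9
      exact absurd h9 (by simp)
    refine ⟨?_, ?_, ?_, ?_⟩
    · intro l' hl'
      rcases List.mem_cons.1 hl' with rfl | hl'
      · exact h1
      · exact h4 l' hl'
    · rw [List.foldl_cons, hst]; exact h5
    · rw [tr, hst, List.nodup_cons]
      exact ⟨fun hmem => (hor _ (h7 _ hmem)).2 rfl, h6⟩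
    · rw [tr, hst]
      intro c hc
      rcases List.mem_cons.1 hc with rfl | hc
      · exact hbit
      · exact (hor _ (h7 _ hc)).1

theorem chkW_of_chkR {arc : ℕ → ℕ → ℕ × ℕ} {k p : ℕ} {w : List ℕ} (h : chkR arc k p w = true) :
    chkW arc k p w = true := by
  simp only [chkR, Bool.and_eq_true] at h
  obtain ⟨h1, h2⟩ := h
  have h1 := Nat.eq_of_beq_eq_true h1
  obtain ⟨h3, h4, h5, _⟩ := run_spec arc p w 0 0 0 h2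
  simp only [chkW, Bool.and_eq_true, decide_eq_true_eq, List.all_eq_true]
  exact ⟨⟨⟨h1, h3⟩, h4⟩, h5⟩

/-- minus modulo `p` -/
def ng (p x : ℕ) : ℕ := (p - x) % p

/-- `1, …, n` -/
def rg (n : ℕ) : List ℕ := (List.range n).map (· + 1)

/-- arc table of the family T3 -/
def tbT3 (p al be ga : ℕ) : List (ℕ × ℕ) :=
  [(0,al), (0,ng p al), (1,0), (2,0), (1,be), (1,ng p be), (2,0), (0,0), (2,ga), (2,ng p ga), (0,0), (1,0)]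

/-- arc table of the family P3 -/
def tbP3 (p s t al ga : ℕ) : List (ℕ × ℕ) :=
  [(1,0), (1,s), (2,0), (2,t), (0,0), (0,ng p s), (1,al), (1,ng p al), (0,0), (0,ng p t), (2,ga), (2,ng p ga)]

/-- arc table of the family C4 -/
def tbC4 (p al be ga de : ℕ) : List (ℕ × ℕ) :=
  [(0,al), (0,ng p al), (1,0), (3,0), (1,be), (1,ng p be), (2,0), (0,0), (2,ga), (2,ng p ga), (3,0), (1,0), (3,de), (3,ng p de), (0,0), (2,0)]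

/-- arc table of the family D4 -/
def tbD4 (p s s2 be de : ℕ) : List (ℕ × ℕ) :=
  [(1,0), (3,0), (2,s), (2,s2), (0,0), (2,0), (1,be), (1,ng p be), (1,0), (3,0), (0,ng p s), (0,ng p s2), (2,0), (0,0), (3,de), (3,ng p de)]

/-- arc table of the family P4 -/
def tbP4 (p s t u al de : ℕ) : List (ℕ × ℕ) :=
  [(1,0), (1,s), (0,al), (0,ng p al), (0,0), (0,ng p s), (2,0), (2,t), (1,0), (1,ng p t), (3,0), (3,u), (2,0), (2,ng p u), (3,de), (3,ng p de)]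

/-- arc table of the family W1 -/
def tbW1 (p t u be ga de : ℕ) : List (ℕ × ℕ) :=
  [(1,0), (2,0), (3,0), (3,u), (0,0), (2,t), (1,be), (1,ng p be), (0,0), (1,ng p t), (2,ga), (2,ng p ga), (0,0), (0,ng p u), (3,de), (3,ng p de)]

/-- arc table of the family W2 -/
def tbW2 (p t t2 t3 u de : ℕ) : List (ℕ × ℕ) :=
  [(1,0), (2,0), (3,0), (3,u), (0,0), (2,t), (2,t2), (2,t3), (0,0), (1,ng p t), (1,ng p t2), (1,ng p t3), (0,0), (0,ng p u), (3,de), (3,ng p de)]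

/-- words -/
def wT3_5 : List (List ℕ) :=
  [[0,0,0,0,2,0,0,0,0,2,0,0,0,0,2],
   [0,0,0,0,2,0,0,2,0,3,0,2,0,0,2],
   [0,0,0,0,2,1,1,1,1,2,1,1,1,1,2],
   [0,0,0,0,2,1,2,0,0,0,0,3,0,0,3],
   [0,0,0,0,3,3,0,0,2,0,3,1,2,1,2]]

/-- all parameters are covered -/
def okT3_5 : Bool :=
    (rg ((5-1)/2)).all fun al =>
    (rg ((5-1)/2)).all fun be =>
    (rg ((5-1)/2)).all fun ga =>
    wT3_5.any (chkR (arcOf (tbT3 5 al be ga)) 3 5)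

theorem okT3_5_true : okT3_5 = true := by decide +kernel

/-- words -/
def wT3_7 : List (List ℕ) :=
  [[0,0,0,0,0,3,0,0,0,0,0,0,3,0,0,0,0,0,0,3,0],
   [0,0,0,0,0,0,2,0,0,0,0,0,0,2,1,1,1,1,1,1,2],
   [0,0,0,0,0,0,3,1,1,1,3,0,0,0,0,0,0,2,1,1,2],
   [0,0,0,2,1,1,1,1,1,1,2,0,0,0,0,0,0,2,0,0,0],
   [0,3,1,2,1,2,2,0,0,2,1,2,2,1,2,2,1,1,1,1,3],
   [0,0,0,0,0,0,2,0,0,0,2,1,1,3,0,0,2,0,0,0,2],
   [0,0,0,0,0,2,2,0,2,2,0,2,1,3,0,2,1,3,1,2,2],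
   [0,0,2,0,3,1,2,2,0,0,0,0,0,0,3,1,3,1,2,0,3],
   [0,0,0,0,0,2,2,1,3,0,2,0,3,0,2,0,3,1,2,2,0],
   [0,0,0,0,2,1,1,2,1,3,3,0,2,2,0,0,0,0,3,1,3],
   [0,0,0,0,3,3,1,2,0,3,0,0,2,0,3,1,2,1,2,0,0]]

/-- all parameters are covered -/
def okT3_7 : Bool :=
    (rg ((7-1)/2)).all fun al =>
    (rg ((7-1)/2)).all fun be =>
    (rg ((7-1)/2)).all fun ga =>
    wT3_7.any (chkR (arcOf (tbT3 7 al be ga)) 3 7)

theorem okT3_7_true : okT3_7 = true := by decide +kernel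

/-- words -/
def wP3_5 : List (List ℕ) :=
  [[0,1,0,1,0,1,2,3,3,3,3,0,1,2,1],
   [0,1,0,1,0,2,0,1,0,3,3,3,3,3,1],
   [0,1,0,1,0,3,0,1,0,2,2,2,2,2,0],
   [0,1,0,1,3,2,2,2,2,1,1,3,1,0,1],
   [0,1,0,2,0,2,2,0,0,3,0,2,3,3,0],
   [0,1,2,2,0,1,3,1,0,2,1,2,2,2,0],
   [0,1,2,2,2,0,1,2,1,2,3,0,1,3,1],
   [0,1,2,2,2,0,1,3,1,2,3,0,1,2,1],
   [0,1,0,1,0,1,0,2,0,2,3,3,3,3,1],
   [0,1,0,1,0,1,0,3,0,2,2,2,2,2,1],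
   [0,1,0,1,0,1,0,3,0,3,3,3,3,3,0],
   [0,1,0,1,0,2,0,3,2,2,2,2,0,0,1],
   [0,1,0,1,2,2,2,2,2,1,1,2,1,0,1],
   [0,1,0,1,3,3,3,3,3,0,1,2,1,0,1],
   [0,1,2,3,3,3,3,1,1,3,1,0,1,0,1],
   [0,1,3,2,2,2,2,0,1,3,1,0,1,0,1]]

/-- all parameters are covered -/
def okP3_5 : Bool :=
    (rg (5-1)).all fun s =>
    (rg (5-1)).all fun t =>
    (rg ((5-1)/2)).all fun al =>
    (rg ((5-1)/2)).all fun ga =>
    wP3_5.any (chkR (arcOf (tbP3 5 s t al ga)) 3 5)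

theorem okP3_5_true : okP3_5 = true := by decide +kernel

/-- words -/
def wP3_7 : List (List ℕ) :=
  [[0,1,0,2,0,2,3,0,0,3,0,2,2,2,0,0,3,0,2,3,0],
   [0,1,0,3,0,2,2,0,0,2,0,2,3,3,0,0,2,0,2,2,0],
   [0,1,3,2,1,1,0,3,3,3,1,1,0,3,2,1,1,3,3,3,1],
   [0,1,3,3,1,1,0,3,2,2,1,1,0,3,3,1,1,2,2,2,1],
   [0,1,0,1,0,1,0,1,3,3,3,3,3,3,3,1,1,2,1,0,1],
   [0,1,0,1,0,1,0,3,0,1,0,1,0,2,2,2,2,2,2,2,0],
   [0,1,0,1,0,1,2,2,2,2,2,2,2,0,1,3,1,0,1,0,1],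
   [0,1,0,1,0,1,2,3,3,3,3,3,3,0,1,0,1,0,1,2,1],
   [0,2,0,2,2,0,0,3,3,0,2,2,0,0,2,0,2,3,0,3,0],
   [1,2,2,1,3,3,1,1,3,1,3,0,3,2,1,1,3,1,3,3,1],
   [0,2,0,2,2,2,0,0,2,0,2,3,0,0,1,0,3,0,2,3,0],
   [0,3,0,3,2,1,0,1,0,2,0,3,2,1,0,3,0,3,3,3,1],
   [0,1,0,1,2,2,0,0,1,0,3,1,0,2,0,2,2,2,2,2,0],
   [0,1,0,1,2,3,3,3,0,1,3,1,2,2,2,0,1,0,1,2,1],
   [0,1,0,1,3,2,2,2,1,1,2,1,3,3,3,1,1,0,1,3,1],
   [0,1,2,2,0,0,2,2,2,0,1,0,2,2,0,0,1,2,3,3,0],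
   [0,1,2,2,2,0,0,1,2,3,0,1,0,1,3,3,3,1,2,3,0],
   [0,1,2,2,2,2,2,0,1,3,1,2,3,0,1,2,1,0,1,0,1],
   [0,1,2,3,3,0,0,3,3,0,2,3,0,0,2,0,1,0,2,2,0],
   [0,2,0,2,3,3,0,1,0,2,3,0,0,3,1,0,3,0,2,2,0],
   [0,1,0,1,3,2,2,2,1,1,3,1,3,3,3,1,1,0,1,2,1],
   [0,1,0,1,3,3,3,3,3,1,1,2,1,0,3,1,0,1,3,3,1],
   [0,1,0,2,1,2,2,2,0,0,3,3,0,2,2,0,0,1,2,2,0],
   [0,1,0,3,3,1,2,2,0,1,3,1,2,3,0,1,0,2,3,3,0],
   [0,2,0,2,2,0,0,2,0,1,0,2,2,2,0,0,3,0,2,2,0],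
   [0,3,0,2,2,0,0,3,0,2,3,0,0,3,0,1,0,2,3,3,0]]

/-- all parameters are covered -/
def okP3_7 : Bool :=
    (rg (7-1)).all fun s =>
    (rg (7-1)).all fun t =>
    (rg ((7-1)/2)).all fun al =>
    (rg ((7-1)/2)).all fun ga =>
    wP3_7.any (chkR (arcOf (tbP3 7 s t al ga)) 3 7)

theorem okP3_7_true : okP3_7 = true := by decide +kernel

/-- words -/
def wC4_5 : List (List ℕ) :=
  [[0,0,0,3,1,1,1,1,3,0,0,0,0,3,1,1,1,1,3,0],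
   [1,1,1,3,1,1,1,1,3,1,1,1,1,3,1,1,1,1,3,1],
   [0,0,0,0,2,0,0,0,0,2,2,0,3,0,2,0,3,0,2,2],
   [0,0,0,3,1,1,1,1,3,1,1,1,1,3,0,0,0,0,3,0],
   [1,3,0,3,0,3,1,1,2,2,2,0,0,3,1,3,1,3,0,3]]

/-- all parameters are covered -/
def okC4_5 : Bool :=
    (rg ((5-1)/2)).all fun al =>
    (rg ((5-1)/2)).all fun be =>
    (rg ((5-1)/2)).all fun ga =>
    (rg ((5-1)/2)).all fun de =>
    wC4_5.any (chkR (arcOf (tbC4 5 al be ga de)) 4 5)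

theorem okC4_5_true : okC4_5 = true := by decide +kernel

/-- words -/
def wD4_5 : List (List ℕ) :=
  [[0,1,2,0,1,1,2,2,2,2,1,0,1,2,0,1,2,0,1,2],
   [0,1,3,0,1,1,2,2,2,2,1,0,1,3,0,1,3,0,1,3],
   [0,1,3,0,1,1,3,3,3,3,1,0,1,3,0,1,3,0,1,3],
   [1,2,2,2,2,0,0,0,2,0,0,2,0,0,2,0,0,2,0,0],
   [0,1,1,2,0,2,1,0,0,3,0,1,0,2,0,2,0,1,0,2],
   [0,1,1,2,1,0,1,2,1,3,1,0,1,2,1,0,0,3,1,2],
   [1,0,0,2,2,2,2,0,1,0,3,1,0,3,1,0,3,1,0,3],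
   [1,0,2,1,0,2,1,0,2,1,0,0,2,2,2,2,0,1,0,2],
   [0,2,0,1,0,3,0,1,3,1,0,0,2,0,2,1,2,2,0,2],
   [0,1,1,2,0,2,0,2,0,1,0,3,1,0,0,3,0,1,0,3],
   [1,0,0,3,3,3,3,0,1,0,2,1,0,2,1,0,2,1,0,2],
   [0,1,1,2,0,3,2,1,3,1,0,1,3,0,2,2,0,1,0,3]]

/-- all parameters are covered -/
def okD4_5 : Bool :=
    (List.range 5).all fun s =>
    (List.range 5).all fun s2 =>
    (rg ((5-1)/2)).all fun be =>
    (rg ((5-1)/2)).all fun de =>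
    (!(s != s2)) || wD4_5.any (chkR (arcOf (tbD4 5 s s2 be de)) 4 5)

theorem okD4_5_true : okD4_5 = true := by decide +kernel

/-- words -/
def wP4_5 : List (List ℕ) :=
  [[0,2,1,0,2,0,2,2,2,2,0,0,3,2,3,0,0,0,3,3],
   [0,2,1,0,2,0,3,2,3,3,0,0,3,2,3,0,1,0,2,2],
   [0,2,1,0,3,0,2,3,3,3,1,0,3,3,2,1,0,0,2,2],
   [0,2,1,0,3,0,3,3,2,2,1,0,3,3,2,1,1,0,3,3],
   [0,2,1,0,2,0,3,2,3,0,0,3,2,2,2,0,1,0,2,2],
   [0,2,1,0,2,0,3,3,2,1,0,3,3,3,3,1,1,0,2,2],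
   [0,2,1,0,3,0,3,3,2,1,0,3,3,3,3,1,1,0,3,3],
   [0,2,1,2,2,3,3,0,0,0,3,3,0,2,2,3,0,0,0,2],
   [0,2,1,2,3,3,1,0,0,2,0,2,3,2,2,1,0,0,2,2],
   [0,2,1,2,3,3,3,1,0,0,2,2,0,2,3,3,1,0,0,3],
   [0,2,2,2,0,0,0,3,0,2,1,2,2,2,2,0,0,0,2,2],
   [0,2,2,3,0,0,0,2,2,0,2,2,3,3,0,0,3,0,0,3]]

/-- all parameters are covered -/
def okP4_5 : Bool :=
    (rg (5-1)).all fun s =>
    (rg (5-1)).all fun t =>
    (rg (5-1)).all fun u =>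
    (rg ((5-1)/2)).all fun al =>
    (rg ((5-1)/2)).all fun de =>
    wP4_5.any (chkR (arcOf (tbP4 5 s t u al de)) 4 5)

theorem okP4_5_true : okP4_5 = true := by decide +kernel

/-- words -/
def wW1_5 : List (List ℕ) :=
  [[0,2,0,1,2,0,0,2,2,0,2,2,2,2,2,0,1,2,2,0],
   [0,2,0,1,2,0,0,3,3,0,1,2,2,0,3,2,2,2,2,1],
   [0,2,0,1,3,0,3,2,2,2,2,1,0,2,2,0,1,2,2,0],
   [0,2,0,1,3,3,0,0,2,2,0,2,2,2,2,2,0,1,2,0],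
   [0,2,0,1,3,3,0,0,3,3,0,1,2,0,2,3,3,3,3,0],
   [0,2,2,2,2,0,1,2,2,0,2,2,2,0,1,2,0,2,3,0],
   [0,3,0,1,2,0,0,2,2,0,1,2,2,0,3,2,2,2,2,1]]

/-- all parameters are covered -/
def okW1_5 : Bool :=
    (List.range 5).all fun t =>
    (rg (5-1)).all fun u =>
    (rg ((5-1)/2)).all fun be =>
    (rg ((5-1)/2)).all fun ga =>
    (rg ((5-1)/2)).all fun de =>
    wW1_5.any (chkR (arcOf (tbW1 5 t u be ga de)) 4 5)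

theorem okW1_5_true : okW1_5 = true := by decide +kernel

/-- words -/
def wW2_5 : List (List ℕ) :=
  [[0,1,0,0,1,0,0,1,2,0,2,2,2,2,2,0,1,2,1,0],
   [0,1,0,0,1,0,0,1,3,0,3,3,3,3,3,1,1,3,1,0],
   [0,1,0,0,3,1,0,1,1,3,0,0,1,0,2,3,3,3,3,0],
   [0,1,0,2,2,2,0,1,3,1,0,0,3,1,3,1,0,2,2,0],
   [0,1,0,2,3,0,1,2,1,0,0,2,1,2,1,0,2,2,2,0],
   [0,1,0,2,3,0,1,3,1,0,0,3,1,3,1,0,2,2,2,0],
   [0,1,0,2,3,3,0,1,1,3,1,3,0,0,1,3,0,2,2,0],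
   [0,1,0,3,3,1,1,1,2,1,2,0,0,1,2,0,3,3,3,1],
   [0,1,2,0,1,1,2,1,2,0,2,3,3,0,1,2,0,2,2,0],
   [0,1,3,0,1,1,3,1,3,0,3,2,2,1,1,3,0,3,3,1],
   [0,1,3,0,1,3,0,1,3,0,1,3,1,0,3,2,2,2,2,1],
   [0,1,3,1,3,0,3,3,1,0,3,0,3,3,3,1,1,1,3,0],
   [0,2,0,0,2,0,0,2,1,0,2,3,3,3,3,0,1,1,2,0],
   [1,2,0,1,2,0,1,2,3,0,2,2,2,2,2,0,0,3,2,0],
   [0,1,0,3,2,2,2,2,1,0,1,0,0,2,1,0,1,1,2,0],
   [0,2,0,2,3,0,1,3,2,0,0,3,2,3,2,0,2,2,2,0],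
   [0,2,1,0,3,2,2,2,2,1,1,1,2,0,0,2,0,0,2,0],
   [0,2,3,0,1,2,3,2,3,0,2,2,0,1,3,0,2,2,2,0],
   [0,2,3,0,1,2,3,2,3,0,2,2,2,0,1,3,0,2,3,0],
   [0,1,0,0,1,2,1,0,2,2,0,1,2,1,3,0,2,2,2,0],
   [0,1,0,0,1,3,0,1,1,0,3,2,2,2,2,1,1,2,1,0],
   [0,1,0,0,3,1,2,0,3,3,1,0,2,1,2,0,3,3,3,1],
   [0,1,0,2,2,0,0,3,1,0,1,1,2,1,3,0,2,3,3,0],
   [0,1,0,2,3,0,1,2,1,3,1,0,0,3,1,0,2,2,2,0],
   [0,1,0,3,2,1,1,3,1,2,1,0,0,2,1,0,3,3,3,1],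
   [0,1,2,0,1,2,3,0,2,3,3,0,0,1,3,2,0,2,3,0],
   [0,1,2,0,1,2,3,0,3,2,2,1,0,1,3,2,0,3,2,1]]

/-- all parameters are covered -/
def okW2_5 : Bool :=
    (List.range 5).all fun t =>
    (List.range 5).all fun t2 =>
    (List.range 5).all fun t3 =>
    (rg (5-1)).all fun u =>
    (rg ((5-1)/2)).all fun de =>
    (!(t != t2 && t != t3 && t2 != t3)) || wW2_5.any (chkR (arcOf (tbW2 5 t t2 t3 u de)) 4 5)

theorem okW2_5_true : okW2_5 = true := by decide +kernel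

end SH
end Pool.Agent.UPS
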