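import Mathlib
import Pool.Agent.Lib.MP_876e19_co_ups.SmallHam4

/-!
# Three orbits: 15 and 21 vertices, valency 4 (MP_876e19_co)
-/

set_option autoImplicit false

namespace Pool.Agent.UPS
namespace SH

variable {V : Type*} {G : SimpleGraph V}

theorem mem_rg {n x : ℕ} (h1 : 1 ≤ x) (h2 : x ≤ n) : x ∈ rg n := by
  simp only [rg, List.mem_map, List.mem_range]
  exact ⟨x - 1, by omega, by omega⟩

/-- certificate from a table of arcs -/
theorem hasUPS_of_tab [Finite V] {p k : ℕ} (hp : p.Prime) (hk : 0 < k)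
    (hcard : Nat.card V = k * p) (z : G ≃g G) (hz : z ^ p = 1) (hfix : ∀ v, z v ≠ v)
    (x : ℕ → V) (horb : ∀ i < k, ∀ j < k, ∀ s : ℕ, (z ^ s) (x i) = x j → i = j)
    (tb : List (ℕ × ℕ)) (htb : ∀ j < k, ∀ l < 4, (arcOf tb j l).1 < k ∧
      G.Adj (x j) ((z ^ (arcOf tb j l).2) (x (arcOf tb j l).1)))
    (W : List (List ℕ)) (hW : W.any (chkR (arcOf tb) k p) = true) : HasUPS G := by
  rw [List.any_eq_true] at hW
  obtain ⟨w, _, hw⟩ := hW
  exact hasUPS_of_word hp hk hcard z hz hfix x horb (arcOf tb) (fun j hj l hl => (htb j hj l hl).1)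
    (fun j hj l hl => (htb j hj l hl).2) w (chkW_of_chkR hw)

theorem adj_rev {z : G ≃g G} {p : ℕ} (hz : z ^ p = 1) {a b : V} {s : ℕ} (hs : s ≤ p)
    (h : G.Adj a ((z ^ s) b)) : G.Adj b ((z ^ (ng p s)) a) := by
  have h1 : G.Adj ((z ^ (p - s)) a) ((z ^ (p - s)) ((z ^ s) b)) := (z ^ (p - s)).map_rel_iff.2 h
  rw [← pow_add_apply, Nat.sub_add_cancel hs, hz] at h1
  rw [ng, pow_mod_eq hz]
  exact h1.symm

theorem adj_zero {z : G ≃g G} {a b : V} (h : G.Adj a b) : G.Adj a ((z ^ 0) b) := h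

/-- an inner edge of an orbit, in normal form -/
theorem exists_loop {z : G ≃g G} {p : ℕ} [NeZero p] (hz : z ^ p = 1) (hp : Odd p) {a : V}
    (h : 0 < (M z p a a).card) : ∃ α, 1 ≤ α ∧ α ≤ (p - 1) / 2 ∧ G.Adj a ((z ^ α) a) ∧
      G.Adj a ((z ^ (ng p α)) a) := by
  obtain ⟨t, ht⟩ := Finset.card_pos.1 h
  have h1 : G.Adj a ((z ^ t.val) a) := mem_M.1 ht
  have h2 := ZMod.val_lt t
  have h3 : t.val ≠ 0 := by
    intro h0
    rw [h0] at h1
    exact G.loopless.irrefl a h1
  have h4 := adj_rev hz h2.le h1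
  by_cases h5 : t.val ≤ (p - 1) / 2
  · exact ⟨t.val, by omega, h5, h1, h4⟩
  · have h6 : ng p t.val = p - t.val := by
      rw [ng, Nat.mod_eq_of_lt (by omega)]
    rw [h6] at h4
    obtain ⟨r, hr⟩ := hp
    refine ⟨p - t.val, by omega, by omega, h4, ?_⟩
    have h7 : ng p (p - t.val) = t.val := by
      rw [ng, Nat.sub_sub_self h2.le, Nat.mod_eq_of_lt h2]
    rw [h7]
    exact h1

/-- a second neighbour in an orbit -/
theorem exists_second {z : G ≃g G} {p : ℕ} [NeZero p] {a b : V} (h : 1 < (M z p a b).card) :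
    ∃ s, 1 ≤ s ∧ s ≤ p - 1 ∧ G.Adj a ((z ^ s) b) := by
  obtain ⟨t, ht, h0⟩ := Finset.exists_mem_ne h 0
  have h2 := ZMod.val_lt t
  have h3 : t.val ≠ 0 := by
    intro h4
    exact h0 ((ZMod.val_eq_zero t).1 h4)
  exact ⟨t.val, by omega, by omega, mem_M.1 ht⟩

/-- the quotient has no edge between two orbits -/
theorem card_M_eq_zero {z : G ≃g G} {p : ℕ} [NeZero p] {a b : V} (h : ¬ Rel z a b) :
    (M z p a b).card = 0 := by
  rw [Finset.card_eq_zero]
  ext t
  simp only [Finset.notMem_empty, iff_false]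
  intro ht
  exact h ⟨t.val, mem_M.1 ht⟩

theorem card_M_pos {z : G ≃g G} {p : ℕ} [NeZero p] {a b : V} (h : G.Adj a b) :
    0 < (M z p a b).card := by
  refine Finset.card_pos.2 ⟨0, ?_⟩
  rw [mem_M, ZMod.val_zero, pow_zero]
  exact h

/-- the family with a triangle of orbits -/
theorem famT3 [Finite V] {p : ℕ} [NeZero p] (hp : p.Prime) (h57 : p = 5 ∨ p = 7)
    (hcard : Nat.card V = 3 * p) (z : G ≃g G) (hz : z ^ p = 1) (hfix : ∀ v, z v ≠ v)
    (y : ℕ → V) (horb : ∀ i < 3, ∀ j < 3, ∀ s : ℕ, (z ^ s) (y i) = y j → i = j)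
    (h01 : G.Adj (y 0) (y 1)) (h12 : G.Adj (y 1) (y 2)) (h20 : G.Adj (y 2) (y 0))
    (hl : ∀ i < 3, ∃ α, 1 ≤ α ∧ α ≤ (p - 1) / 2 ∧ G.Adj (y i) ((z ^ α) (y i)) ∧
      G.Adj (y i) ((z ^ (ng p α)) (y i))) : HasUPS G := by
  obtain ⟨al, a1, a2, a3, a4⟩ := hl 0 (by norm_num)
  obtain ⟨be, b1, b2, b3, b4⟩ := hl 1 (by norm_num)
  obtain ⟨ga, g1, g2, g3, g4⟩ := hl 2 (by norm_num)
  have htb : ∀ j < 3, ∀ l < 4, (arcOf (tbT3 p al be ga) j l).1 < 3 ∧
      G.Adj (y j) ((z ^ (arcOf (tbT3 p al be ga) j l).2) (y (arcOf (tbT3 p al be ga) j l).1)) := by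
    intro j hj l hl
    interval_cases j <;> interval_cases l <;> refine ⟨by simp [arcOf, tbT3], ?_⟩
    · exact a3
    · exact a4
    · exact h01
    · exact h20.symm
    · exact b3
    · exact b4
    · exact h12
    · exact h01.symm
    · exact g3
    · exact g4
    · exact h20
    · exact h12.symm
  rcases h57 with rfl | rfl
  · have h := okT3_5_true
    simp only [okT3_5, List.all_eq_true] at h
    exact hasUPS_of_tab hp (by norm_num) hcard z hz hfix y horb _ htb _
      (h al (mem_rg a1 a2) be (mem_rg b1 b2) ga (mem_rg g1 g2))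
  · have h := okT3_7_true
    simp only [okT3_7, List.all_eq_true] at h
    exact hasUPS_of_tab hp (by norm_num) hcard z hz hfix y horb _ htb _
      (h al (mem_rg a1 a2) be (mem_rg b1 b2) ga (mem_rg g1 g2))

/-- the family with a path of orbits, centre `y 0` -/
theorem famP3 [Finite V] {p : ℕ} [NeZero p] (hp : p.Prime) (h57 : p = 5 ∨ p = 7)
    (hcard : Nat.card V = 3 * p) (z : G ≃g G) (hz : z ^ p = 1) (hfix : ∀ v, z v ≠ v)
    (y : ℕ → V) (horb : ∀ i < 3, ∀ j < 3, ∀ s : ℕ, (z ^ s) (y i) = y j → i = j)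
    (h01 : G.Adj (y 0) (y 1)) (h02 : G.Adj (y 0) (y 2)) {s t : ℕ} (hs1 : 1 ≤ s) (hs2 : s ≤ p - 1)
    (ht1 : 1 ≤ t) (ht2 : t ≤ p - 1) (hs : G.Adj (y 0) ((z ^ s) (y 1)))
    (ht : G.Adj (y 0) ((z ^ t) (y 2)))
    (hl : ∀ i, 1 ≤ i → i < 3 → ∃ α, 1 ≤ α ∧ α ≤ (p - 1) / 2 ∧ G.Adj (y i) ((z ^ α) (y i)) ∧
      G.Adj (y i) ((z ^ (ng p α)) (y i))) : HasUPS G := by
  obtain ⟨al, a1, a2, a3, a4⟩ := hl 1 (by norm_num) (by norm_num)
  obtain ⟨ga, g1, g2, g3, g4⟩ := hl 2 (by norm_num) (by norm_num)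
  have hs' := adj_rev hz (by omega : s ≤ p) hs
  have ht' := adj_rev hz (by omega : t ≤ p) ht
  have htb : ∀ j < 3, ∀ l < 4, (arcOf (tbP3 p s t al ga) j l).1 < 3 ∧
      G.Adj (y j) ((z ^ (arcOf (tbP3 p s t al ga) j l).2)
        (y (arcOf (tbP3 p s t al ga) j l).1)) := by
    intro j hj l hl
    interval_cases j <;> interval_cases l <;> refine ⟨by simp [arcOf, tbP3], ?_⟩
    · exact h01
    · exact hs
    · exact h02
    · exact ht
    · exact h01.symm
    · exact hs'
    · exact a3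
    · exact a4
    · exact h02.symm
    · exact ht'
    · exact g3
    · exact g4
  rcases h57 with rfl | rfl
  · have h := okP3_5_true
    simp only [okP3_5, List.all_eq_true] at h
    exact hasUPS_of_tab hp (by norm_num) hcard z hz hfix y horb _ htb _
      (h s (mem_rg hs1 hs2) t (mem_rg ht1 ht2) al (mem_rg a1 a2) ga (mem_rg g1 g2))
  · have h := okP3_7_true
    simp only [okP3_7, List.all_eq_true] at h
    exact hasUPS_of_tab hp (by norm_num) hcard z hz hfix y horb _ htb _
      (h s (mem_rg hs1 hs2) t (mem_rg ht1 ht2) al (mem_rg a1 a2) ga (mem_rg g1 g2))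

/-- three orbits, valency 4, `p = 5, 7`: triangle of orbits -/
theorem three_triangle [Finite V] {p : ℕ} [NeZero p] (hp : p.Prime) (h57 : p = 5 ∨ p = 7)
    (hcard : Nat.card V = 3 * p) (hd : ∀ v, (G.neighborSet v).ncard = 4) (z : G ≃g G)
    (hz : z ^ p = 1) (hfix : ∀ v, z v ≠ v) (x : ℕ → V)
    (horb : ∀ i < 3, ∀ j < 3, ∀ s : ℕ, (z ^ s) (x i) = x j → i = j)
    (r01 : Rel z (x 0) (x 1)) (r12 : Rel z (x 1) (x 2)) (r20 : Rel z (x 2) (x 0)) :
    HasUPS G := by
  have hodd : Odd p := by rcases h57 with rfl | rfl <;> decide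
  obtain ⟨m, hm⟩ := r01
  obtain ⟨m', hm'⟩ := (rel_shift hp.pos hz m 0 (u := x 1) (v := x 2)).2 r12
  let y : ℕ → V := fun i => if i = 0 then x 0 else if i = 1 then (z ^ m) (x 1) else (z ^ m') (x 2)
  have y0 : y 0 = x 0 := by simp [y]
  have y1 : y 1 = (z ^ m) (x 1) := by simp [y]
  have y2 : y 2 = (z ^ m') (x 2) := by simp [y]
  have hyorb : ∀ i < 3, ∀ j < 3, ∀ s : ℕ, (z ^ s) (y i) = y j → i = j := by
    refine horb_change hp.pos hz horb id (fun _ h => h) (fun i _ j _ h => h) ?_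
    intro i hi
    interval_cases i
    · exact ⟨0, y0⟩
    · exact ⟨m, y1⟩
    · exact ⟨m', y2⟩
  have h01 : G.Adj (y 0) (y 1) := by rw [y0, y1]; exact hm
  have h12 : G.Adj (y 1) (y 2) := by rw [y1, y2]; exact hm'
  have r20' : Rel z (y 2) (y 0) := by
    rw [y2, y0]
    exact (rel_shift hp.pos hz m' 0).2 r20
  obtain ⟨t, ht⟩ := r20'
  by_cases hpt : p ∣ t
  swap
  · exact hasUPS_of_lift hp (by norm_num) hcard z hz hfix y
      (fun i hi => by
        have : i = 0 ∨ i = 1 := by omega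
        rcases this with rfl | rfl
        · exact h01
        · exact h12) t hpt ht hyorb
  have h20 : G.Adj (y 2) (y 0) := by
    obtain ⟨q, rfl⟩ := hpt
    rw [pow_mul, hz, one_pow] at ht
    exact ht
  by_contra hno
  have e01 : (M z p (y 0) (y 1)).card = 1 := by
    have := card_M_pos (z := z) (p := p) h01
    by_contra hne
    obtain ⟨s, hs1, hs2, hs⟩ := exists_second (z := z) (p := p) (a := y 0) (b := y 1) (by omega)
    exact hno (cycle_single hp (by norm_num) hcard hz hfix y hyorb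
      (fun i hi => by
        have : i = 0 ∨ i = 1 := by omega
        rcases this with rfl | rfl
        · exact h01
        · exact h12) h20 (i := 0) (s := s) (by norm_num)
      (fun hd => by have := Nat.le_of_dvd (by omega) hd; omega) hs)
  have e12 : (M z p (y 1) (y 2)).card = 1 := by
    have := card_M_pos (z := z) (p := p) h12
    by_contra hne
    obtain ⟨s, hs1, hs2, hs⟩ := exists_second (z := z) (p := p) (a := y 1) (b := y 2) (by omega)
    exact hno (cycle_single hp (by norm_num) hcard hz hfix y hyorb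
      (fun i hi => by
        have : i = 0 ∨ i = 1 := by omega
        rcases this with rfl | rfl
        · exact h01
        · exact h12) h20 (i := 1) (s := s) (by norm_num)
      (fun hd => by have := Nat.le_of_dvd (by omega) hd; omega) hs)
  have e20 : (M z p (y 2) (y 0)).card = 1 := by
    have := card_M_pos (z := z) (p := p) h20
    by_contra hne
    obtain ⟨s, hs1, hs2, hs⟩ := exists_second (z := z) (p := p) (a := y 2) (b := y 0) (by omega)
    exact hno (hasUPS_of_lift hp (by norm_num) hcard z hz hfix y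
      (fun i hi => by
        have : i = 0 ∨ i = 1 := by omega
        rcases this with rfl | rfl
        · exact h01
        · exact h12) s (fun hd => by have := Nat.le_of_dvd (by omega) hd; omega) hs hyorb)
  have e10 := card_M_symm hz (y 0) (y 1)
  have e21 := card_M_symm hz (y 1) (y 2)
  have e02 := card_M_symm hz (y 2) (y 0)
  have s0 := deg_sum hp hcard hz hfix y hyorb (y 0)
  have s1 := deg_sum hp hcard hz hfix y hyorb (y 1)
  have s2 := deg_sum hp hcard hz hfix y hyorb (y 2)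
  rw [hd, Finset.sum_range_succ, Finset.sum_range_succ, Finset.sum_range_one] at s0 s1 s2
  refine hno (famT3 hp h57 hcard z hz hfix y hyorb h01 h12 h20 ?_)
  intro i hi
  apply exists_loop hz hodd
  interval_cases i <;> omega

/-- three orbits, valency 4, `p = 5, 7`: path of orbits with centre `x 0` -/
theorem three_path [Finite V] {p : ℕ} [NeZero p] (hp : p.Prime) (h57 : p = 5 ∨ p = 7)
    (hcard : Nat.card V = 3 * p) (hd : ∀ v, (G.neighborSet v).ncard = 4) (z : G ≃g G)
    (hz : z ^ p = 1) (hfix : ∀ v, z v ≠ v) (x : ℕ → V)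
    (horb : ∀ i < 3, ∀ j < 3, ∀ s : ℕ, (z ^ s) (x i) = x j → i = j)
    (r01 : Rel z (x 0) (x 1)) (r02 : Rel z (x 0) (x 2)) (r12 : ¬ Rel z (x 1) (x 2)) :
    HasUPS G := by
  have hodd : Odd p := by rcases h57 with rfl | rfl <;> decide
  obtain ⟨m, hm⟩ := r01
  obtain ⟨m', hm'⟩ := r02
  let y : ℕ → V := fun i => if i = 0 then x 0 else if i = 1 then (z ^ m) (x 1) else (z ^ m') (x 2)
  have y0 : y 0 = x 0 := by simp [y]
  have y1 : y 1 = (z ^ m) (x 1) := by simp [y]
  have y2 : y 2 = (z ^ m') (x 2) := by simp [y]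
  have hyorb : ∀ i < 3, ∀ j < 3, ∀ s : ℕ, (z ^ s) (y i) = y j → i = j := by
    refine horb_change hp.pos hz horb id (fun _ h => h) (fun i _ j _ h => h) ?_
    intro i hi
    interval_cases i
    · exact ⟨0, y0⟩
    · exact ⟨m, y1⟩
    · exact ⟨m', y2⟩
  have h01 : G.Adj (y 0) (y 1) := by rw [y0, y1]; exact hm
  have h02 : G.Adj (y 0) (y 2) := by rw [y0, y2]; exact hm'
  have n12 : ¬ Rel z (y 1) (y 2) := by
    rw [y1, y2]
    exact fun h => r12 ((rel_shift hp.pos hz m m').1 h)
  have e12 := card_M_eq_zero (p := p) n12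
  have e10 := card_M_symm hz (y 0) (y 1)
  have e21 := card_M_symm hz (y 1) (y 2)
  have e20 := card_M_symm hz (y 0) (y 2)
  have p01 := card_M_pos (z := z) (p := p) h01
  have p02 := card_M_pos (z := z) (p := p) h02
  have s0 := deg_sum hp hcard hz hfix y hyorb (y 0)
  have s1 := deg_sum hp hcard hz hfix y hyorb (y 1)
  have s2 := deg_sum hp hcard hz hfix y hyorb (y 2)
  rw [hd, Finset.sum_range_succ, Finset.sum_range_succ, Finset.sum_range_one] at s0 s1 s2
  obtain ⟨q0, v0⟩ := even_card_M_self hz hodd (y 0)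
  obtain ⟨q1, v1⟩ := even_card_M_self hz hodd (y 1)
  obtain ⟨q2, v2⟩ := even_card_M_self hz hodd (y 2)
  obtain ⟨s, hs1, hs2, hs⟩ := exists_second (z := z) (p := p) (a := y 0) (b := y 1) (by omega)
  obtain ⟨t, ht1, ht2, ht⟩ := exists_second (z := z) (p := p) (a := y 0) (b := y 2) (by omega)
  refine famP3 hp h57 hcard z hz hfix y hyorb h01 h02 hs1 hs2 ht1 ht2 hs ht ?_
  intro i hi1 hi
  apply exists_loop hz hodd
  have : i = 1 ∨ i = 2 := by omega
  rcases this with rfl | rfl <;> omega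

theorem perm3 {z : G ≃g G} {p : ℕ} (hp : 0 < p) (hz : z ^ p = 1) {x : ℕ → V}
    (horb : ∀ i < 3, ∀ j < 3, ∀ s : ℕ, (z ^ s) (x i) = x j → i = j) (a b c : ℕ) (ha : a < 3)
    (hb : b < 3) (hc : c < 3) (hab : a ≠ b) (hac : a ≠ c) (hbc : b ≠ c) :
    ∀ i < 3, ∀ j < 3, ∀ s : ℕ,
      (z ^ s) (x (if i = 0 then a else if i = 1 then b else c)) =
        x (if j = 0 then a else if j = 1 then b else c) → i = j := by
  refine horb_change (y := fun i => x (if i = 0 then a else if i = 1 then b else c)) hp hz horb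
    (fun i => if i = 0 then a else if i = 1 then b else c) ?_ ?_ ?_
  · intro i _
    split_ifs <;> assumption
  · intro i hi j hj h
    interval_cases i <;> interval_cases j <;> simp_all
  · intro i _
    exact ⟨0, rfl⟩

/-- `15` or `21` vertices, valency `4` -/
theorem hasUPS_three_orbits [Finite V] (hG : G.Connected) (hT : VT G) {p : ℕ}
    (h57 : p = 5 ∨ p = 7) (hcard : Nat.card V = 3 * p) (hd : ∀ v, (G.neighborSet v).ncard = 4) :
    HasUPS G := by
  have hp : p.Prime := by rcases h57 with rfl | rfl <;> norm_num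
  have : NeZero p := ⟨hp.ne_zero⟩
  obtain ⟨z, hz, hfix⟩ := exists_semiregular hG hT hp ⟨3, by rw [hcard, mul_comm]⟩
    (fun v => by rw [hd v]; rcases h57 with rfl | rfl <;> norm_num)
  obtain ⟨x, horb⟩ := exists_reps hp hcard (by norm_num) z hz
  have c0 := rel_cut hG hp hcard hz hfix x horb {0} (i0 := 0) (j0 := 1) (by norm_num)
    (by norm_num) (by simp) (by simp)
  have c1 := rel_cut hG hp hcard hz hfix x horb {1} (i0 := 1) (j0 := 0) (by norm_num)
    (by norm_num) (by simp) (by simp)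
  have c2 := rel_cut hG hp hcard hz hfix x horb {2} (i0 := 2) (j0 := 0) (by norm_num)
    (by norm_num) (by simp) (by simp)
  have sy : ∀ i j, Rel z (x i) (x j) → Rel z (x j) (x i) := fun i j h => h.symm hp.pos hz
  have d0 : Rel z (x 0) (x 1) ∨ Rel z (x 0) (x 2) := by
    obtain ⟨i, hi, j, hj, hi3, hj3, h⟩ := c0
    have : i = 0 := by simpa using hi
    subst this
    have hj' : j ≠ 0 := by simpa using hj
    have : j = 1 ∨ j = 2 := by omega
    rcases this with rfl | rfl
    · exact Or.inl h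
    · exact Or.inr h
  have d1 : Rel z (x 0) (x 1) ∨ Rel z (x 1) (x 2) := by
    obtain ⟨i, hi, j, hj, hi3, hj3, h⟩ := c1
    have : i = 1 := by simpa using hi
    subst this
    have hj' : j ≠ 1 := by simpa using hj
    have : j = 0 ∨ j = 2 := by omega
    rcases this with rfl | rfl
    · exact Or.inl (sy _ _ h)
    · exact Or.inr h
  have d2 : Rel z (x 0) (x 2) ∨ Rel z (x 1) (x 2) := by
    obtain ⟨i, hi, j, hj, hi3, hj3, h⟩ := c2
    have : i = 2 := by simpa using hi
    subst this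
    have hj' : j ≠ 2 := by simpa using hj
    have : j = 0 ∨ j = 1 := by omega
    rcases this with rfl | rfl
    · exact Or.inl (sy _ _ h)
    · exact Or.inr (sy _ _ h)
  by_cases a : Rel z (x 0) (x 1)
  · by_cases b : Rel z (x 0) (x 2)
    · by_cases c : Rel z (x 1) (x 2)
      · exact three_triangle hp h57 hcard hd z hz hfix x horb a c (sy _ _ b)
      · exact three_path hp h57 hcard hd z hz hfix x horb a b c
    · -- centre 1
      have c : Rel z (x 1) (x 2) := d2.resolve_left b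
      exact three_path hp h57 hcard hd z hz hfix
        (fun i => x (if i = 0 then 1 else if i = 1 then 0 else 2))
        (perm3 hp.pos hz horb 1 0 2 (by norm_num) (by norm_num) (by norm_num) (by norm_num)
          (by norm_num) (by norm_num)) (sy _ _ a) c b
  · -- centre 2
    have b : Rel z (x 0) (x 2) := d0.resolve_left a
    have c : Rel z (x 1) (x 2) := d1.resolve_left a
    exact three_path hp h57 hcard hd z hz hfix
      (fun i => x (if i = 0 then 2 else if i = 1 then 0 else 1))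
      (perm3 hp.pos hz horb 2 0 1 (by norm_num) (by norm_num) (by norm_num) (by norm_num)
        (by norm_num) (by norm_num)) (sy _ _ b) (sy _ _ c) a

end SH
end Pool.Agent.UPS
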