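import Mathlib
import Pool.Agent.Lib.MP_876e19_co_ups.SmallHam5

/-!
# Four orbits of length 5: 20 vertices, valency 4 (MP_876e19_co)
-/

set_option autoImplicit false

namespace Pool.Agent.UPS
namespace SH

variable {V : Type*} {G : SimpleGraph V}

/-- columns are 4-cycles, all orbits have loops -/
theorem famC4 [Finite V] (hcard : Nat.card V = 4 * 5) (z : G ≃g G) (hz : z ^ 5 = 1)
    (hfix : ∀ v, z v ≠ v) (y : ℕ → V)
    (horb : ∀ i < 4, ∀ j < 4, ∀ s : ℕ, (z ^ s) (y i) = y j → i = j)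
    (h01 : G.Adj (y 0) (y 1)) (h12 : G.Adj (y 1) (y 2)) (h23 : G.Adj (y 2) (y 3))
    (h30 : G.Adj (y 3) (y 0))
    (hl : ∀ i < 4, ∃ α, 1 ≤ α ∧ α ≤ (5 - 1) / 2 ∧ G.Adj (y i) ((z ^ α) (y i)) ∧
      G.Adj (y i) ((z ^ (ng 5 α)) (y i))) : HasUPS G := by
  obtain ⟨al, a1, a2, a3, a4⟩ := hl 0 (by norm_num)
  obtain ⟨be, b1, b2, b3, b4⟩ := hl 1 (by norm_num)
  obtain ⟨ga, g1, g2, g3, g4⟩ := hl 2 (by norm_num)
  obtain ⟨de, d1, d2, d3, d4⟩ := hl 3 (by norm_num)
  have htb : ∀ j < 4, ∀ l < 4, (arcOf (tbC4 5 al be ga de) j l).1 < 4 ∧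
      G.Adj (y j) ((z ^ (arcOf (tbC4 5 al be ga de) j l).2)
        (y (arcOf (tbC4 5 al be ga de) j l).1)) := by
    intro j hj l hl
    interval_cases j <;> interval_cases l <;> refine ⟨by simp [arcOf, tbC4], ?_⟩
    · exact a3
    · exact a4
    · exact h01
    · exact h30.symm
    · exact b3
    · exact b4
    · exact h12
    · exact h01.symm
    · exact g3
    · exact g4
    · exact h23
    · exact h12.symm
    · exact d3
    · exact d4
    · exact h30
    · exact h23.symm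
  have h := okC4_5_true
  simp only [okC4_5, List.all_eq_true] at h
  exact hasUPS_of_tab (by norm_num) (by norm_num) hcard z hz hfix y horb _ htb _
    (h al (mem_rg a1 a2) be (mem_rg b1 b2) ga (mem_rg g1 g2) de (mem_rg d1 d2))

/-- columns are 4-cycles, a double diagonal -/
theorem famD4 [Finite V] (hcard : Nat.card V = 4 * 5) (z : G ≃g G) (hz : z ^ 5 = 1)
    (hfix : ∀ v, z v ≠ v) (y : ℕ → V)
    (horb : ∀ i < 4, ∀ j < 4, ∀ s : ℕ, (z ^ s) (y i) = y j → i = j)
    (h01 : G.Adj (y 0) (y 1)) (h12 : G.Adj (y 1) (y 2)) (h23 : G.Adj (y 2) (y 3))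
    (h30 : G.Adj (y 3) (y 0)) {s s2 : ℕ} (hs5 : s < 5) (hs25 : s2 < 5) (hne : s ≠ s2)
    (hs : G.Adj (y 0) ((z ^ s) (y 2))) (hs2 : G.Adj (y 0) ((z ^ s2) (y 2)))
    (hl1 : ∃ α, 1 ≤ α ∧ α ≤ (5 - 1) / 2 ∧ G.Adj (y 1) ((z ^ α) (y 1)) ∧
      G.Adj (y 1) ((z ^ (ng 5 α)) (y 1)))
    (hl3 : ∃ α, 1 ≤ α ∧ α ≤ (5 - 1) / 2 ∧ G.Adj (y 3) ((z ^ α) (y 3)) ∧
      G.Adj (y 3) ((z ^ (ng 5 α)) (y 3))) : HasUPS G := by
  obtain ⟨be, b1, b2, b3, b4⟩ := hl1
  obtain ⟨de, d1, d2, d3, d4⟩ := hl3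
  have hs' := adj_rev hz (by omega : s ≤ 5) hs
  have hs2' := adj_rev hz (by omega : s2 ≤ 5) hs2
  have htb : ∀ j < 4, ∀ l < 4, (arcOf (tbD4 5 s s2 be de) j l).1 < 4 ∧
      G.Adj (y j) ((z ^ (arcOf (tbD4 5 s s2 be de) j l).2)
        (y (arcOf (tbD4 5 s s2 be de) j l).1)) := by
    intro j hj l hl
    interval_cases j <;> interval_cases l <;> refine ⟨by simp [arcOf, tbD4], ?_⟩
    · exact h01
    · exact h30.symm
    · exact hs
    · exact hs2
    · exact h01.symm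
    · exact h12
    · exact b3
    · exact b4
    · exact h12.symm
    · exact h23
    · exact hs'
    · exact hs2'
    · exact h23.symm
    · exact h30
    · exact d3
    · exact d4
  have h := okD4_5_true
  simp only [okD4_5, List.all_eq_true] at h
  have h1 := h s (List.mem_range.2 hs5) s2 (List.mem_range.2 hs25) be (mem_rg b1 b2) de
    (mem_rg d1 d2)
  have h2 : (!(s != s2)) = false := by simp [bne_iff_ne, hne]
  rw [h2, Bool.false_or] at h1
  exact hasUPS_of_tab (by norm_num) (by norm_num) hcard z hz hfix y horb _ htb _ h1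

/-- a path of orbits -/
theorem famP4 [Finite V] (hcard : Nat.card V = 4 * 5) (z : G ≃g G) (hz : z ^ 5 = 1)
    (hfix : ∀ v, z v ≠ v) (y : ℕ → V)
    (horb : ∀ i < 4, ∀ j < 4, ∀ s : ℕ, (z ^ s) (y i) = y j → i = j)
    (h01 : G.Adj (y 0) (y 1)) (h12 : G.Adj (y 1) (y 2)) (h23 : G.Adj (y 2) (y 3))
    {s t u : ℕ} (hs1 : 1 ≤ s) (hs2 : s ≤ 5 - 1) (ht1 : 1 ≤ t) (ht2 : t ≤ 5 - 1) (hu1 : 1 ≤ u)
    (hu2 : u ≤ 5 - 1) (hs : G.Adj (y 0) ((z ^ s) (y 1))) (ht : G.Adj (y 1) ((z ^ t) (y 2)))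
    (hu : G.Adj (y 2) ((z ^ u) (y 3)))
    (hl0 : ∃ α, 1 ≤ α ∧ α ≤ (5 - 1) / 2 ∧ G.Adj (y 0) ((z ^ α) (y 0)) ∧
      G.Adj (y 0) ((z ^ (ng 5 α)) (y 0)))
    (hl3 : ∃ α, 1 ≤ α ∧ α ≤ (5 - 1) / 2 ∧ G.Adj (y 3) ((z ^ α) (y 3)) ∧
      G.Adj (y 3) ((z ^ (ng 5 α)) (y 3))) : HasUPS G := by
  obtain ⟨al, a1, a2, a3, a4⟩ := hl0
  obtain ⟨de, d1, d2, d3, d4⟩ := hl3
  have hs' := adj_rev hz (by omega : s ≤ 5) hs
  have ht' := adj_rev hz (by omega : t ≤ 5) ht
  have hu' := adj_rev hz (by omega : u ≤ 5) hu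
  have htb : ∀ j < 4, ∀ l < 4, (arcOf (tbP4 5 s t u al de) j l).1 < 4 ∧
      G.Adj (y j) ((z ^ (arcOf (tbP4 5 s t u al de) j l).2)
        (y (arcOf (tbP4 5 s t u al de) j l).1)) := by
    intro j hj l hl
    interval_cases j <;> interval_cases l <;> refine ⟨by simp [arcOf, tbP4], ?_⟩
    · exact h01
    · exact hs
    · exact a3
    · exact a4
    · exact h01.symm
    · exact hs'
    · exact h12
    · exact ht
    · exact h12.symm
    · exact ht'
    · exact h23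
    · exact hu
    · exact h23.symm
    · exact hu'
    · exact d3
    · exact d4
  have h := okP4_5_true
  simp only [okP4_5, List.all_eq_true] at h
  exact hasUPS_of_tab (by norm_num) (by norm_num) hcard z hz hfix y horb _ htb _
    (h s (mem_rg hs1 hs2) t (mem_rg ht1 ht2) u (mem_rg hu1 hu2) al (mem_rg a1 a2) de
      (mem_rg d1 d2))

/-- a triangle of orbits with a pendant orbit, first kind -/
theorem famW1 [Finite V] (hcard : Nat.card V = 4 * 5) (z : G ≃g G) (hz : z ^ 5 = 1)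
    (hfix : ∀ v, z v ≠ v) (y : ℕ → V)
    (horb : ∀ i < 4, ∀ j < 4, ∀ s : ℕ, (z ^ s) (y i) = y j → i = j)
    (h01 : G.Adj (y 0) (y 1)) (h02 : G.Adj (y 0) (y 2)) (h03 : G.Adj (y 0) (y 3))
    {t u : ℕ} (ht5 : t < 5) (hu1 : 1 ≤ u) (hu2 : u ≤ 5 - 1)
    (ht : G.Adj (y 1) ((z ^ t) (y 2))) (hu : G.Adj (y 0) ((z ^ u) (y 3)))
    (hl1 : ∃ α, 1 ≤ α ∧ α ≤ (5 - 1) / 2 ∧ G.Adj (y 1) ((z ^ α) (y 1)) ∧
      G.Adj (y 1) ((z ^ (ng 5 α)) (y 1)))
    (hl2 : ∃ α, 1 ≤ α ∧ α ≤ (5 - 1) / 2 ∧ G.Adj (y 2) ((z ^ α) (y 2)) ∧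
      G.Adj (y 2) ((z ^ (ng 5 α)) (y 2)))
    (hl3 : ∃ α, 1 ≤ α ∧ α ≤ (5 - 1) / 2 ∧ G.Adj (y 3) ((z ^ α) (y 3)) ∧
      G.Adj (y 3) ((z ^ (ng 5 α)) (y 3))) : HasUPS G := by
  obtain ⟨be, b1, b2, b3, b4⟩ := hl1
  obtain ⟨ga, g1, g2, g3, g4⟩ := hl2
  obtain ⟨de, d1, d2, d3, d4⟩ := hl3
  have ht' := adj_rev hz (by omega : t ≤ 5) ht
  have hu' := adj_rev hz (by omega : u ≤ 5) hu
  have htb : ∀ j < 4, ∀ l < 4, (arcOf (tbW1 5 t u be ga de) j l).1 < 4 ∧
      G.Adj (y j) ((z ^ (arcOf (tbW1 5 t u be ga de) j l).2)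
        (y (arcOf (tbW1 5 t u be ga de) j l).1)) := by
    intro j hj l hl
    interval_cases j <;> interval_cases l <;> refine ⟨by simp [arcOf, tbW1], ?_⟩
    · exact h01
    · exact h02
    · exact h03
    · exact hu
    · exact h01.symm
    · exact ht
    · exact b3
    · exact b4
    · exact h02.symm
    · exact ht'
    · exact g3
    · exact g4
    · exact h03.symm
    · exact hu'
    · exact d3
    · exact d4
  have h := okW1_5_true
  simp only [okW1_5, List.all_eq_true] at h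
  exact hasUPS_of_tab (by norm_num) (by norm_num) hcard z hz hfix y horb _ htb _
    (h t (List.mem_range.2 ht5) u (mem_rg hu1 hu2) be (mem_rg b1 b2) ga (mem_rg g1 g2) de
      (mem_rg d1 d2))

/-- a triangle of orbits with a pendant orbit, second kind -/
theorem famW2 [Finite V] (hcard : Nat.card V = 4 * 5) (z : G ≃g G) (hz : z ^ 5 = 1)
    (hfix : ∀ v, z v ≠ v) (y : ℕ → V)
    (horb : ∀ i < 4, ∀ j < 4, ∀ s : ℕ, (z ^ s) (y i) = y j → i = j)
    (h01 : G.Adj (y 0) (y 1)) (h02 : G.Adj (y 0) (y 2)) (h03 : G.Adj (y 0) (y 3))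
    {t t2 t3 u : ℕ} (ht5 : t < 5) (ht25 : t2 < 5) (ht35 : t3 < 5) (n1 : t ≠ t2) (n2 : t ≠ t3)
    (n3 : t2 ≠ t3) (hu1 : 1 ≤ u) (hu2 : u ≤ 5 - 1)
    (ht : G.Adj (y 1) ((z ^ t) (y 2))) (ht2 : G.Adj (y 1) ((z ^ t2) (y 2)))
    (ht3 : G.Adj (y 1) ((z ^ t3) (y 2))) (hu : G.Adj (y 0) ((z ^ u) (y 3)))
    (hl3 : ∃ α, 1 ≤ α ∧ α ≤ (5 - 1) / 2 ∧ G.Adj (y 3) ((z ^ α) (y 3)) ∧
      G.Adj (y 3) ((z ^ (ng 5 α)) (y 3))) : HasUPS G := by
  obtain ⟨de, d1, d2, d3, d4⟩ := hl3
  have ht' := adj_rev hz (by omega : t ≤ 5) ht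
  have ht2' := adj_rev hz (by omega : t2 ≤ 5) ht2
  have ht3' := adj_rev hz (by omega : t3 ≤ 5) ht3
  have hu' := adj_rev hz (by omega : u ≤ 5) hu
  have htb : ∀ j < 4, ∀ l < 4, (arcOf (tbW2 5 t t2 t3 u de) j l).1 < 4 ∧
      G.Adj (y j) ((z ^ (arcOf (tbW2 5 t t2 t3 u de) j l).2)
        (y (arcOf (tbW2 5 t t2 t3 u de) j l).1)) := by
    intro j hj l hl
    interval_cases j <;> interval_cases l <;> refine ⟨by simp [arcOf, tbW2], ?_⟩
    · exact h01
    · exact h02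
    · exact h03
    · exact hu
    · exact h01.symm
    · exact ht
    · exact ht2
    · exact ht3
    · exact h02.symm
    · exact ht'
    · exact ht2'
    · exact ht3'
    · exact h03.symm
    · exact hu'
    · exact d3
    · exact d4
  have h := okW2_5_true
  simp only [okW2_5, List.all_eq_true] at h
  have h1 := h t (List.mem_range.2 ht5) t2 (List.mem_range.2 ht25) t3 (List.mem_range.2 ht35) u
    (mem_rg hu1 hu2) de (mem_rg d1 d2)
  have h2 : (!(t != t2 && t != t3 && t2 != t3)) = false := by simp [bne_iff_ne, n1, n2, n3]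
  rw [h2, Bool.false_or] at h1
  exact hasUPS_of_tab (by norm_num) (by norm_num) hcard z hz hfix y horb _ htb _ h1

section Four

variable [Finite V] (hcard : Nat.card V = 4 * 5) (hd : ∀ v, (G.neighborSet v).ncard = 4)
  (z : G ≃g G) (hz : z ^ 5 = 1) (hfix : ∀ v, z v ≠ v) (x : ℕ → V)
  (horb : ∀ i < 4, ∀ j < 4, ∀ s : ℕ, (z ^ s) (x i) = x j → i = j)

include hcard hd hz hfix horb

/-- the orbits form a 4-cycle -/
theorem four_cycle (r01 : Rel z (x 0) (x 1)) (r12 : Rel z (x 1) (x 2))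
    (r23 : Rel z (x 2) (x 3)) (r30 : Rel z (x 3) (x 0)) : HasUPS G := by
  have hp : Nat.Prime 5 := by norm_num
  have hodd : Odd 5 := by decide
  obtain ⟨m1, hm1⟩ := r01
  obtain ⟨m2, hm2⟩ := (rel_shift hp.pos hz m1 0 (u := x 1) (v := x 2)).2 r12
  obtain ⟨m3, hm3⟩ := (rel_shift hp.pos hz m2 0 (u := x 2) (v := x 3)).2 r23
  let y : ℕ → V := fun i => if i = 0 then x 0 else if i = 1 then (z ^ m1) (x 1)
    else if i = 2 then (z ^ m2) (x 2) else (z ^ m3) (x 3)
  have y0 : y 0 = x 0 := by simp [y]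
  have y1 : y 1 = (z ^ m1) (x 1) := by simp [y]
  have y2 : y 2 = (z ^ m2) (x 2) := by simp [y]
  have y3 : y 3 = (z ^ m3) (x 3) := by simp [y]
  have hyorb : ∀ i < 4, ∀ j < 4, ∀ s : ℕ, (z ^ s) (y i) = y j → i = j := by
    refine horb_change hp.pos hz horb id (fun _ h => h) (fun i _ j _ h => h) ?_
    intro i hi
    interval_cases i
    · exact ⟨0, y0⟩
    · exact ⟨m1, y1⟩
    · exact ⟨m2, y2⟩
    · exact ⟨m3, y3⟩
  have h01 : G.Adj (y 0) (y 1) := by rw [y0, y1]; exact hm1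
  have h12 : G.Adj (y 1) (y 2) := by rw [y1, y2]; exact hm2
  have h23 : G.Adj (y 2) (y 3) := by rw [y2, y3]; exact hm3
  have r30' : Rel z (y 3) (y 0) := by
    rw [y3, y0]
    exact (rel_shift hp.pos hz m3 0).2 r30
  have hstep : ∀ i, i + 1 < 4 → G.Adj (y i) (y (i + 1)) := by
    intro i hi
    have : i = 0 ∨ i = 1 ∨ i = 2 := by omega
    rcases this with rfl | rfl | rfl
    · exact h01
    · exact h12
    · exact h23
  obtain ⟨t, ht⟩ := r30'
  by_cases hpt : 5 ∣ t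
  swap
  · exact hasUPS_of_lift hp (by norm_num) hcard z hz hfix y hstep t hpt ht hyorb
  have h30 : G.Adj (y 3) (y 0) := by
    obtain ⟨q, rfl⟩ := hpt
    rw [pow_mul, hz, one_pow] at ht
    exact ht
  by_contra hno
  have single : ∀ i, i + 1 < 4 → (M z 5 (y i) (y (i + 1))).card = 1 := by
    intro i hi
    have := card_M_pos (z := z) (p := 5) (hstep i hi)
    by_contra hne
    obtain ⟨s, hs1, hs2, hs⟩ := exists_second (z := z) (p := 5) (a := y i) (b := y (i + 1))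
      (by omega)
    exact hno (cycle_single hp (by norm_num) hcard hz hfix y hyorb hstep h30 hi
      (fun hd => by have := Nat.le_of_dvd (by omega) hd; omega) hs)
  have e01 := single 0 (by norm_num)
  have e12 := single 1 (by norm_num)
  have e23 := single 2 (by norm_num)
  have e30 : (M z 5 (y 3) (y 0)).card = 1 := by
    have := card_M_pos (z := z) (p := 5) h30
    by_contra hne
    obtain ⟨s, hs1, hs2, hs⟩ := exists_second (z := z) (p := 5) (a := y 3) (b := y 0) (by omega)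
    exact hno (hasUPS_of_lift hp (by norm_num) hcard z hz hfix y hstep s
      (fun hd => by have := Nat.le_of_dvd (by omega) hd; omega) hs hyorb)
  simp only [zero_add, Nat.reduceAdd] at e01 e12 e23
  have e10 := card_M_symm hz (y 0) (y 1)
  have e21 := card_M_symm hz (y 1) (y 2)
  have e32 := card_M_symm hz (y 2) (y 3)
  have e03 := card_M_symm hz (y 3) (y 0)
  have e20 := card_M_symm hz (y 0) (y 2)
  have e31 := card_M_symm hz (y 1) (y 3)
  have s0 := deg_sum hp hcard hz hfix y hyorb (y 0)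
  have s1 := deg_sum hp hcard hz hfix y hyorb (y 1)
  have s2 := deg_sum hp hcard hz hfix y hyorb (y 2)
  have s3 := deg_sum hp hcard hz hfix y hyorb (y 3)
  rw [hd, Finset.sum_range_succ, Finset.sum_range_succ, Finset.sum_range_succ,
    Finset.sum_range_one] at s0 s1 s2 s3
  obtain ⟨q0, v0⟩ := even_card_M_self hz hodd (y 0)
  obtain ⟨q1, v1⟩ := even_card_M_self hz hodd (y 1)
  obtain ⟨q2, v2⟩ := even_card_M_self hz hodd (y 2)
  obtain ⟨q3, v3⟩ := even_card_M_self hz hodd (y 3)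
  have c02 : (M z 5 (y 0) (y 2)).card = 0 ∨ (M z 5 (y 0) (y 2)).card = 2 := by omega
  have c13 : (M z 5 (y 1) (y 3)).card = 0 ∨ (M z 5 (y 1) (y 3)).card = 2 := by omega
  rcases c02 with c02 | c02 <;> rcases c13 with c13 | c13
  · refine hno (famC4 hcard z hz hfix y hyorb h01 h12 h23 h30 ?_)
    intro i hi
    apply exists_loop hz hodd
    interval_cases i <;> omega
  · -- double diagonal 1-3
    obtain ⟨s, s', hne, hS⟩ := Finset.card_eq_two.1 c13
    have hs : G.Adj (y 1) ((z ^ s.val) (y 3)) := mem_M.1 (by rw [hS]; simp)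
    have hs' : G.Adj (y 1) ((z ^ s'.val) (y 3)) := mem_M.1 (by rw [hS]; simp)
    let w : ℕ → V := fun i => if i = 0 then y 1 else if i = 1 then y 2 else if i = 2 then y 3
      else y 0
    have hworb : ∀ i < 4, ∀ j < 4, ∀ s : ℕ, (z ^ s) (w i) = w j → i = j := by
      refine horb_change hp.pos hz hyorb (fun i => if i = 0 then 1 else if i = 1 then 2
        else if i = 2 then 3 else 0) ?_ ?_ ?_
      · intro i _; split_ifs <;> norm_num
      · intro i hi j hj h
        clear * - h hi hj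
        revert h
        interval_cases i <;> interval_cases j <;> decide
      · intro i hi
        interval_cases i <;> exact ⟨0, by simp [w]⟩
    exact hno (famD4 hcard z hz hfix w hworb h12 h23 h30 h01 (ZMod.val_lt s) (ZMod.val_lt s')
      (fun h => hne (ZMod.val_injective 5 h)) hs hs' (exists_loop hz hodd (a := y 2) (by omega))
      (exists_loop hz hodd (a := y 0) (by omega)))
  · obtain ⟨s, s', hne, hS⟩ := Finset.card_eq_two.1 c02
    have hs : G.Adj (y 0) ((z ^ s.val) (y 2)) := mem_M.1 (by rw [hS]; simp)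
    have hs' : G.Adj (y 0) ((z ^ s'.val) (y 2)) := mem_M.1 (by rw [hS]; simp)
    exact hno (famD4 hcard z hz hfix y hyorb h01 h12 h23 h30 (ZMod.val_lt s) (ZMod.val_lt s')
      (fun h => hne (ZMod.val_injective 5 h)) hs hs' (exists_loop hz hodd (a := y 1) (by omega))
      (exists_loop hz hodd (a := y 3) (by omega)))
  · -- both diagonals are double
    obtain ⟨r, hr⟩ := Finset.card_pos.1 (show 0 < (M z 5 (y 1) (y 3)).card by omega)
    obtain ⟨s, hs, hsr⟩ := Finset.exists_mem_ne (show 1 < (M z 5 (y 0) (y 2)).card by omega) (-r)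
    have hr' := mem_M.1 hr
    have hs' := mem_M.1 hs
    let w : ℕ → V := fun i => if i = 0 then y 0 else if i = 1 then (z ^ s.val) (y 2)
      else if i = 2 then (z ^ s.val) (y 1) else (z ^ (s.val + r.val)) (y 3)
    have hworb : ∀ i < 4, ∀ j < 4, ∀ s : ℕ, (z ^ s) (w i) = w j → i = j := by
      refine horb_change hp.pos hz hyorb (fun i => if i = 0 then 0 else if i = 1 then 2
        else if i = 2 then 1 else 3) ?_ ?_ ?_
      · intro i _; split_ifs <;> norm_num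
      · intro i hi j hj h
        clear * - h hi hj
        revert h
        interval_cases i <;> interval_cases j <;> decide
      · intro i hi
        interval_cases i
        · exact ⟨0, by simp [w]⟩
        · exact ⟨s.val, by simp [w]⟩
        · exact ⟨s.val, by simp [w]⟩
        · exact ⟨s.val + r.val, by simp [w]⟩
    refine hno (hasUPS_of_lift hp (by norm_num) hcard z hz hfix w ?_ (s.val + r.val) ?_ ?_ hworb)
    · intro i hi
      have : i = 0 ∨ i = 1 ∨ i = 2 := by omega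
      rcases this with rfl | rfl | rfl
      · exact hs'
      · exact (z ^ s.val).map_rel_iff.2 h12.symm
      · show G.Adj ((z ^ s.val) (y 1)) ((z ^ (s.val + r.val)) (y 3))
        rw [pow_add_apply]
        exact (z ^ s.val).map_rel_iff.2 hr'
    · intro hdvd
      apply hsr
      have h1 := (ZMod.natCast_eq_zero_iff (s.val + r.val) 5).2 hdvd
      rw [Nat.cast_add, ZMod.natCast_zmod_val, ZMod.natCast_zmod_val] at h1
      exact eq_neg_of_add_eq_zero_left h1
    · exact (z ^ (s.val + r.val)).map_rel_iff.2 h30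

/-- the orbits form a path -/
theorem four_path (r01 : Rel z (x 0) (x 1)) (r12 : Rel z (x 1) (x 2))
    (r23 : Rel z (x 2) (x 3)) (n02 : ¬ Rel z (x 0) (x 2)) (n03 : ¬ Rel z (x 0) (x 3))
    (n13 : ¬ Rel z (x 1) (x 3)) : HasUPS G := by
  have hp : Nat.Prime 5 := by norm_num
  have hodd : Odd 5 := by decide
  obtain ⟨m1, hm1⟩ := r01
  obtain ⟨m2, hm2⟩ := (rel_shift hp.pos hz m1 0 (u := x 1) (v := x 2)).2 r12
  obtain ⟨m3, hm3⟩ := (rel_shift hp.pos hz m2 0 (u := x 2) (v := x 3)).2 r23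
  let y : ℕ → V := fun i => if i = 0 then x 0 else if i = 1 then (z ^ m1) (x 1)
    else if i = 2 then (z ^ m2) (x 2) else (z ^ m3) (x 3)
  have y0 : y 0 = (z ^ 0) (x 0) := by simp [y]
  have y1 : y 1 = (z ^ m1) (x 1) := by simp [y]
  have y2 : y 2 = (z ^ m2) (x 2) := by simp [y]
  have y3 : y 3 = (z ^ m3) (x 3) := by simp [y]
  have hyorb : ∀ i < 4, ∀ j < 4, ∀ s : ℕ, (z ^ s) (y i) = y j → i = j := by
    refine horb_change hp.pos hz horb id (fun _ h => h) (fun i _ j _ h => h) ?_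
    intro i hi
    interval_cases i
    · exact ⟨0, y0⟩
    · exact ⟨m1, y1⟩
    · exact ⟨m2, y2⟩
    · exact ⟨m3, y3⟩
  have h01 : G.Adj (y 0) (y 1) := by rw [y0, y1]; exact hm1
  have h12 : G.Adj (y 1) (y 2) := by rw [y1, y2]; exact hm2
  have h23 : G.Adj (y 2) (y 3) := by rw [y2, y3]; exact hm3
  have e02 : (M z 5 (y 0) (y 2)).card = 0 := card_M_eq_zero (by
    rw [y0, y2]; exact fun h => n02 ((rel_shift hp.pos hz _ _).1 h))
  have e03 : (M z 5 (y 0) (y 3)).card = 0 := card_M_eq_zero (by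
    rw [y0, y3]; exact fun h => n03 ((rel_shift hp.pos hz _ _).1 h))
  have e13 : (M z 5 (y 1) (y 3)).card = 0 := card_M_eq_zero (by
    rw [y1, y3]; exact fun h => n13 ((rel_shift hp.pos hz _ _).1 h))
  have e10 := card_M_symm hz (y 0) (y 1)
  have e21 := card_M_symm hz (y 1) (y 2)
  have e32 := card_M_symm hz (y 2) (y 3)
  have e30 := card_M_symm hz (y 0) (y 3)
  have e20 := card_M_symm hz (y 0) (y 2)
  have e31 := card_M_symm hz (y 1) (y 3)
  have p01 := card_M_pos (z := z) (p := 5) h01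
  have p12 := card_M_pos (z := z) (p := 5) h12
  have p23 := card_M_pos (z := z) (p := 5) h23
  have s0 := deg_sum hp hcard hz hfix y hyorb (y 0)
  have s1 := deg_sum hp hcard hz hfix y hyorb (y 1)
  have s2 := deg_sum hp hcard hz hfix y hyorb (y 2)
  have s3 := deg_sum hp hcard hz hfix y hyorb (y 3)
  rw [hd, Finset.sum_range_succ, Finset.sum_range_succ, Finset.sum_range_succ,
    Finset.sum_range_one] at s0 s1 s2 s3
  obtain ⟨q0, v0⟩ := even_card_M_self hz hodd (y 0)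
  obtain ⟨q1, v1⟩ := even_card_M_self hz hodd (y 1)
  obtain ⟨q2, v2⟩ := even_card_M_self hz hodd (y 2)
  obtain ⟨q3, v3⟩ := even_card_M_self hz hodd (y 3)
  obtain ⟨s, hs1, hs2, hs⟩ := exists_second (z := z) (p := 5) (a := y 0) (b := y 1) (by omega)
  obtain ⟨t, ht1, ht2, ht⟩ := exists_second (z := z) (p := 5) (a := y 1) (b := y 2) (by omega)
  obtain ⟨u, hu1, hu2, hu⟩ := exists_second (z := z) (p := 5) (a := y 2) (b := y 3) (by omega)
  exact famP4 hcard z hz hfix y hyorb h01 h12 h23 hs1 hs2 ht1 ht2 hu1 hu2 hs ht hu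
    (exists_loop hz hodd (by omega)) (exists_loop hz hodd (by omega))

/-- a triangle of orbits with a pendant orbit -/
theorem four_paw (r01 : Rel z (x 0) (x 1)) (r02 : Rel z (x 0) (x 2))
    (r12 : Rel z (x 1) (x 2)) (r03 : Rel z (x 0) (x 3)) (n13 : ¬ Rel z (x 1) (x 3))
    (n23 : ¬ Rel z (x 2) (x 3)) : HasUPS G := by
  have hp : Nat.Prime 5 := by norm_num
  have hodd : Odd 5 := by decide
  obtain ⟨m1, hm1⟩ := r01
  obtain ⟨m2, hm2⟩ := r02
  obtain ⟨m3, hm3⟩ := r03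
  let y : ℕ → V := fun i => if i = 0 then x 0 else if i = 1 then (z ^ m1) (x 1)
    else if i = 2 then (z ^ m2) (x 2) else (z ^ m3) (x 3)
  have y0 : y 0 = (z ^ 0) (x 0) := by simp [y]
  have y1 : y 1 = (z ^ m1) (x 1) := by simp [y]
  have y2 : y 2 = (z ^ m2) (x 2) := by simp [y]
  have y3 : y 3 = (z ^ m3) (x 3) := by simp [y]
  have hyorb : ∀ i < 4, ∀ j < 4, ∀ s : ℕ, (z ^ s) (y i) = y j → i = j := by
    refine horb_change hp.pos hz horb id (fun _ h => h) (fun i _ j _ h => h) ?_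
    intro i hi
    interval_cases i
    · exact ⟨0, y0⟩
    · exact ⟨m1, y1⟩
    · exact ⟨m2, y2⟩
    · exact ⟨m3, y3⟩
  have h01 : G.Adj (y 0) (y 1) := by rw [y0, y1]; exact hm1
  have h02 : G.Adj (y 0) (y 2) := by rw [y0, y2]; exact hm2
  have h03 : G.Adj (y 0) (y 3) := by rw [y0, y3]; exact hm3
  obtain ⟨t0, ht0⟩ : Rel z (y 1) (y 2) := by
    rw [y1, y2]; exact (rel_shift hp.pos hz _ _).2 r12
  have p12 : 0 < (M z 5 (y 1) (y 2)).card := Finset.card_pos.2 ⟨_, (adj_iff_M hz).1 ht0⟩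
  have e13 : (M z 5 (y 1) (y 3)).card = 0 := card_M_eq_zero (by
    rw [y1, y3]; exact fun h => n13 ((rel_shift hp.pos hz _ _).1 h))
  have e23 : (M z 5 (y 2) (y 3)).card = 0 := card_M_eq_zero (by
    rw [y2, y3]; exact fun h => n23 ((rel_shift hp.pos hz _ _).1 h))
  have e10 := card_M_symm hz (y 0) (y 1)
  have e21 := card_M_symm hz (y 1) (y 2)
  have e32 := card_M_symm hz (y 2) (y 3)
  have e30 := card_M_symm hz (y 0) (y 3)
  have e20 := card_M_symm hz (y 0) (y 2)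
  have e31 := card_M_symm hz (y 1) (y 3)
  have p01 := card_M_pos (z := z) (p := 5) h01
  have p02 := card_M_pos (z := z) (p := 5) h02
  have p03 := card_M_pos (z := z) (p := 5) h03
  have s0 := deg_sum hp hcard hz hfix y hyorb (y 0)
  have s1 := deg_sum hp hcard hz hfix y hyorb (y 1)
  have s2 := deg_sum hp hcard hz hfix y hyorb (y 2)
  have s3 := deg_sum hp hcard hz hfix y hyorb (y 3)
  rw [hd, Finset.sum_range_succ, Finset.sum_range_succ, Finset.sum_range_succ,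
    Finset.sum_range_one] at s0 s1 s2 s3
  obtain ⟨q0, v0⟩ := even_card_M_self hz hodd (y 0)
  obtain ⟨q1, v1⟩ := even_card_M_self hz hodd (y 1)
  obtain ⟨q2, v2⟩ := even_card_M_self hz hodd (y 2)
  obtain ⟨q3, v3⟩ := even_card_M_self hz hodd (y 3)
  obtain ⟨u, hu1, hu2, hu⟩ := exists_second (z := z) (p := 5) (a := y 0) (b := y 3) (by omega)
  have c12 : (M z 5 (y 1) (y 2)).card = 1 ∨ (M z 5 (y 1) (y 2)).card = 3 := by omega
  rcases c12 with c12 | c12
  · obtain ⟨t, ht⟩ := Finset.card_pos.1 p12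
    exact famW1 hcard z hz hfix y hyorb h01 h02 h03 (ZMod.val_lt t) hu1 hu2 (mem_M.1 ht) hu
      (exists_loop hz hodd (by omega)) (exists_loop hz hodd (by omega))
      (exists_loop hz hodd (by omega))
  · obtain ⟨t, t2, t3, n1, n2, n3, hT⟩ := Finset.card_eq_three.1 c12
    have h1 : G.Adj (y 1) ((z ^ t.val) (y 2)) := mem_M.1 (by rw [hT]; simp)
    have h2 : G.Adj (y 1) ((z ^ t2.val) (y 2)) := mem_M.1 (by rw [hT]; simp)
    have h3 : G.Adj (y 1) ((z ^ t3.val) (y 2)) := mem_M.1 (by rw [hT]; simp)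
    exact famW2 hcard z hz hfix y hyorb h01 h02 h03 (ZMod.val_lt t) (ZMod.val_lt t2)
      (ZMod.val_lt t3) (fun h => n1 (ZMod.val_injective 5 h))
      (fun h => n2 (ZMod.val_injective 5 h)) (fun h => n3 (ZMod.val_injective 5 h)) hu1 hu2
      h1 h2 h3 hu (exists_loop hz hodd (by omega))

/-- the orbits cannot form a star -/
theorem four_star (r01 : Rel z (x 0) (x 1)) (r02 : Rel z (x 0) (x 2))
    (r03 : Rel z (x 0) (x 3)) (n12 : ¬ Rel z (x 1) (x 2)) (n13 : ¬ Rel z (x 1) (x 3))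
    (n23 : ¬ Rel z (x 2) (x 3)) : False := by
  have hp : Nat.Prime 5 := by norm_num
  have hodd : Odd 5 := by decide
  obtain ⟨m1, hm1⟩ := r01
  obtain ⟨m2, hm2⟩ := r02
  obtain ⟨m3, hm3⟩ := r03
  have p01 : 0 < (M z 5 (x 0) (x 1)).card := Finset.card_pos.2 ⟨_, (adj_iff_M hz).1 hm1⟩
  have p02 : 0 < (M z 5 (x 0) (x 2)).card := Finset.card_pos.2 ⟨_, (adj_iff_M hz).1 hm2⟩
  have p03 : 0 < (M z 5 (x 0) (x 3)).card := Finset.card_pos.2 ⟨_, (adj_iff_M hz).1 hm3⟩
  have e12 : (M z 5 (x 1) (x 2)).card = 0 := card_M_eq_zero n12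
  have e13 : (M z 5 (x 1) (x 3)).card = 0 := card_M_eq_zero n13
  have e23 : (M z 5 (x 2) (x 3)).card = 0 := card_M_eq_zero n23
  have e10 := card_M_symm hz (x 0) (x 1)
  have e21 := card_M_symm hz (x 1) (x 2)
  have e32 := card_M_symm hz (x 2) (x 3)
  have e30 := card_M_symm hz (x 0) (x 3)
  have e20 := card_M_symm hz (x 0) (x 2)
  have e31 := card_M_symm hz (x 1) (x 3)
  have s0 := deg_sum hp hcard hz hfix x horb (x 0)
  have s1 := deg_sum hp hcard hz hfix x horb (x 1)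
  have s2 := deg_sum hp hcard hz hfix x horb (x 2)
  have s3 := deg_sum hp hcard hz hfix x horb (x 3)
  rw [hd, Finset.sum_range_succ, Finset.sum_range_succ, Finset.sum_range_succ,
    Finset.sum_range_one] at s0 s1 s2 s3
  obtain ⟨q0, v0⟩ := even_card_M_self hz hodd (x 0)
  obtain ⟨q1, v1⟩ := even_card_M_self hz hodd (x 1)
  obtain ⟨q2, v2⟩ := even_card_M_self hz hodd (x 2)
  obtain ⟨q3, v3⟩ := even_card_M_self hz hodd (x 3)
  omega

end Four

/-- the relation of four orbits from six bits -/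
def Rb (r01 r02 r03 r12 r13 r23 : Bool) (i j : Fin 4) : Bool :=
  match i.val, j.val with
  | 0, 1 => r01
  | 1, 0 => r01
  | 0, 2 => r02
  | 2, 0 => r02
  | 0, 3 => r03
  | 3, 0 => r03
  | 1, 2 => r12
  | 2, 1 => r12
  | 1, 3 => r13
  | 3, 1 => r13
  | 2, 3 => r23
  | 3, 2 => r23
  | _, _ => false

theorem four_shapes : ∀ r01 r02 r03 r12 r13 r23 : Bool,
    ((r01 || r02 || r03) && (r01 || r12 || r13) && (r02 || r12 || r23) && (r03 || r13 || r23) &&
      (r02 || r03 || r12 || r13) && (r01 || r03 || r12 || r23) && (r01 || r02 || r13 || r23))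
      = true →
    ∃ a b c d : Fin 4, a ≠ b ∧ a ≠ c ∧ a ≠ d ∧ b ≠ c ∧ b ≠ d ∧ c ≠ d ∧
      ((Rb r01 r02 r03 r12 r13 r23 a b = true ∧ Rb r01 r02 r03 r12 r13 r23 b c = true ∧
        Rb r01 r02 r03 r12 r13 r23 c d = true ∧ Rb r01 r02 r03 r12 r13 r23 d a = true) ∨
       (Rb r01 r02 r03 r12 r13 r23 a b = true ∧ Rb r01 r02 r03 r12 r13 r23 b c = true ∧
        Rb r01 r02 r03 r12 r13 r23 c d = true ∧ Rb r01 r02 r03 r12 r13 r23 a c = false ∧
        Rb r01 r02 r03 r12 r13 r23 a d = false ∧ Rb r01 r02 r03 r12 r13 r23 b d = false) ∨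
       (Rb r01 r02 r03 r12 r13 r23 a b = true ∧ Rb r01 r02 r03 r12 r13 r23 a c = true ∧
        Rb r01 r02 r03 r12 r13 r23 b c = true ∧ Rb r01 r02 r03 r12 r13 r23 a d = true ∧
        Rb r01 r02 r03 r12 r13 r23 b d = false ∧ Rb r01 r02 r03 r12 r13 r23 c d = false) ∨
       (Rb r01 r02 r03 r12 r13 r23 a b = true ∧ Rb r01 r02 r03 r12 r13 r23 a c = true ∧
        Rb r01 r02 r03 r12 r13 r23 a d = true ∧ Rb r01 r02 r03 r12 r13 r23 b c = false ∧
        Rb r01 r02 r03 r12 r13 r23 b d = false ∧ Rb r01 r02 r03 r12 r13 r23 c d = false)) := by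
  decide +kernel

/-- `20` vertices, valency `4` -/
theorem hasUPS_four_orbits [Finite V] (hG : G.Connected) (hT : VT G)
    (hcard : Nat.card V = 20) (hd : ∀ v, (G.neighborSet v).ncard = 4) : HasUPS G := by
  classical
  have hp : Nat.Prime 5 := by norm_num
  have hcard' : Nat.card V = 4 * 5 := by rw [hcard]
  obtain ⟨z, hz, hfix⟩ := exists_semiregular hG hT hp ⟨4, by rw [hcard]⟩
    (fun v => by rw [hd v]; norm_num)
  obtain ⟨x, horb⟩ := exists_reps hp hcard' (by norm_num) z hz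
  have sy : ∀ i j, Rel z (x i) (x j) → Rel z (x j) (x i) := fun i j h => h.symm hp.pos hz
  let r : ℕ → ℕ → Bool := fun i j => decide (Rel z (x i) (x j))
  have cut : ∀ S : Finset ℕ, ∀ i0 < 4, ∀ j0 < 4, i0 ∈ S → j0 ∉ S →
      ∃ i ∈ S, ∃ j, j ∉ S ∧ i < 4 ∧ j < 4 ∧ Rel z (x i) (x j) := by
    intro S i0 hi0 j0 hj0 hi hj
    exact rel_cut hG hp hcard' hz hfix x horb S hi0 hj0 hi hj
  have hcuts : ((r 0 1 || r 0 2 || r 0 3) && (r 0 1 || r 1 2 || r 1 3) &&
      (r 0 2 || r 1 2 || r 2 3) && (r 0 3 || r 1 3 || r 2 3) &&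
      (r 0 2 || r 0 3 || r 1 2 || r 1 3) && (r 0 1 || r 0 3 || r 1 2 || r 2 3) &&
      (r 0 1 || r 0 2 || r 1 3 || r 2 3)) = true := by
    simp only [r, Bool.and_eq_true, Bool.or_eq_true, decide_eq_true_eq]
    refine ⟨⟨⟨⟨⟨⟨?_, ?_⟩, ?_⟩, ?_⟩, ?_⟩, ?_⟩, ?_⟩
    · obtain ⟨i, hi, j, hj, hi4, hj4, h⟩ := cut {0} 0 (by norm_num) 1 (by norm_num)
        (by simp) (by simp)
      simp only [Finset.mem_singleton] at hi hj
      interval_cases i <;> interval_cases j <;> simp_all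
    · obtain ⟨i, hi, j, hj, hi4, hj4, h⟩ := cut {1} 1 (by norm_num) 0 (by norm_num)
        (by simp) (by simp)
      simp only [Finset.mem_singleton] at hi hj
      have h' := sy _ _ h
      interval_cases i <;> interval_cases j <;> simp_all
    · obtain ⟨i, hi, j, hj, hi4, hj4, h⟩ := cut {2} 2 (by norm_num) 0 (by norm_num)
        (by simp) (by simp)
      simp only [Finset.mem_singleton] at hi hj
      have h' := sy _ _ h
      interval_cases i <;> interval_cases j <;> simp_all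
    · obtain ⟨i, hi, j, hj, hi4, hj4, h⟩ := cut {3} 3 (by norm_num) 0 (by norm_num)
        (by simp) (by simp)
      simp only [Finset.mem_singleton] at hi hj
      have h' := sy _ _ h
      interval_cases i <;> interval_cases j <;> simp_all
    · obtain ⟨i, hi, j, hj, hi4, hj4, h⟩ := cut {0, 1} 0 (by norm_num) 2 (by norm_num)
        (by simp) (by simp)
      simp only [Finset.mem_insert, Finset.mem_singleton] at hi hj
      have h' := sy _ _ h
      interval_cases i <;> interval_cases j <;> simp_all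
    · obtain ⟨i, hi, j, hj, hi4, hj4, h⟩ := cut {0, 2} 0 (by norm_num) 1 (by norm_num)
        (by simp) (by simp)
      simp only [Finset.mem_insert, Finset.mem_singleton] at hi hj
      have h' := sy _ _ h
      interval_cases i <;> interval_cases j <;> simp_all
    · obtain ⟨i, hi, j, hj, hi4, hj4, h⟩ := cut {0, 3} 0 (by norm_num) 1 (by norm_num)
        (by simp) (by simp)
      simp only [Finset.mem_insert, Finset.mem_singleton] at hi hj
      have h' := sy _ _ h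
      interval_cases i <;> interval_cases j <;> simp_all
  have hlink : ∀ i j : Fin 4, i ≠ j →
      (Rb (r 0 1) (r 0 2) (r 0 3) (r 1 2) (r 1 3) (r 2 3) i j = true ↔
        Rel z (x i.val) (x j.val)) := by
    intro i j hij
    have s10 : Rel z (x 1) (x 0) ↔ Rel z (x 0) (x 1) := ⟨sy _ _, sy _ _⟩
    have s20 : Rel z (x 2) (x 0) ↔ Rel z (x 0) (x 2) := ⟨sy _ _, sy _ _⟩
    have s30 : Rel z (x 3) (x 0) ↔ Rel z (x 0) (x 3) := ⟨sy _ _, sy _ _⟩
    have s21 : Rel z (x 2) (x 1) ↔ Rel z (x 1) (x 2) := ⟨sy _ _, sy _ _⟩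
    have s31 : Rel z (x 3) (x 1) ↔ Rel z (x 1) (x 3) := ⟨sy _ _, sy _ _⟩
    have s32 : Rel z (x 3) (x 2) ↔ Rel z (x 2) (x 3) := ⟨sy _ _, sy _ _⟩
    fin_cases i <;> fin_cases j <;>
      simp [Rb, r, s10, s20, s30, s21, s31, s32] at hij ⊢
  obtain ⟨a, b, c, d, hab, hac, had, hbc, hbd, hcd, hcase⟩ := four_shapes _ _ _ _ _ _ hcuts
  let w : ℕ → V := fun i => x (if i = 0 then a.val else if i = 1 then b.val
    else if i = 2 then c.val else d.val)
  have hworb : ∀ i < 4, ∀ j < 4, ∀ s : ℕ, (z ^ s) (w i) = w j → i = j := by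
    refine horb_change (y := w) hp.pos hz horb (fun i => if i = 0 then a.val else if i = 1 then
      b.val else if i = 2 then c.val else d.val) ?_ ?_ ?_
    · intro i _
      split_ifs <;> exact Fin.isLt _
    · have v1 : a.val ≠ b.val := fun h => hab (Fin.ext h)
      have v2 : a.val ≠ c.val := fun h => hac (Fin.ext h)
      have v3 : a.val ≠ d.val := fun h => had (Fin.ext h)
      have v4 : b.val ≠ c.val := fun h => hbc (Fin.ext h)
      have v5 : b.val ≠ d.val := fun h => hbd (Fin.ext h)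
      have v6 : c.val ≠ d.val := fun h => hcd (Fin.ext h)
      intro i hi j hj h
      interval_cases i <;> interval_cases j <;> simp at h ⊢ <;> omega
    · intro i _
      exact ⟨0, rfl⟩
  have neg : ∀ i j : Fin 4, i ≠ j →
      Rb (r 0 1) (r 0 2) (r 0 3) (r 1 2) (r 1 3) (r 2 3) i j = false →
      ¬ Rel z (x i.val) (x j.val) := by
    intro i j hij h h2
    rw [(hlink i j hij).2 h2] at h
    exact absurd h (by simp)
  rcases hcase with ⟨h1, h2, h3, h4⟩ | ⟨h1, h2, h3, h4, h5, h6⟩ | ⟨h1, h2, h3, h4, h5, h6⟩ |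
    ⟨h1, h2, h3, h4, h5, h6⟩
  · exact four_cycle hcard' hd z hz hfix w hworb ((hlink a b hab).1 h1) ((hlink b c hbc).1 h2)
      ((hlink c d hcd).1 h3) ((hlink d a had.symm).1 h4)
  · exact four_path hcard' hd z hz hfix w hworb ((hlink a b hab).1 h1) ((hlink b c hbc).1 h2)
      ((hlink c d hcd).1 h3) (neg a c hac h4) (neg a d had h5) (neg b d hbd h6)
  · exact four_paw hcard' hd z hz hfix w hworb ((hlink a b hab).1 h1) ((hlink a c hac).1 h2)
      ((hlink b c hbc).1 h3) ((hlink a d had).1 h4) (neg b d hbd h5) (neg c d hcd h6)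
  · exact (four_star hcard' hd z hz hfix w hworb ((hlink a b hab).1 h1) ((hlink a c hac).1 h2)
      ((hlink a d had).1 h3) (neg b c hbc h4) (neg b d hbd h5) (neg c d hcd h6)).elim

end SH
end Pool.Agent.UPS
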