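import Mathlib
import Pool.Agent.Lib.MP_876e19_co_ups.SmallHam3

/-!
# Twice a prime: odd valency (MP_876e19_co)

`n = 2p`, valency `d` with `d < p < 2 (d - 1)`: if two different cross arcs exist there is a
lifted Hamilton cycle; otherwise both orbits carry circulants of valency `d - 1` joined by a
perfect matching, and all distances are at most three.
-/

set_option autoImplicit false

namespace Pool.Agent.UPS
namespace SH

variable {V : Type*} {G : SimpleGraph V}

theorem pow_eq_val {z : G ≃g G} {p : ℕ} [NeZero p] (hz : z ^ p = 1) {n : ℕ} {s : ZMod p}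
    (h : (n : ZMod p) = s) : z ^ n = z ^ s.val := by
  rw [← h, ZMod.val_natCast, pow_mod_eq hz]

/-- a circulant of valency more than half of the order has diameter at most two -/
theorem dist_same [Finite V] {z : G ≃g G} {p : ℕ} [NeZero p] (hz : z ^ p = 1) {u : V}
    (hc : p < 2 * (M z p u u).card) (a b : ℕ) : G.dist ((z ^ a) u) ((z ^ b) u) ≤ 2 := by
  classical
  have hex : ∃ t ∈ M z p u u, ∃ t' ∈ M z p u u, (a : ZMod p) + t = (b : ZMod p) + t' := by
    by_contra hcon
    push Not at hcon
    have hdis : Disjoint ((M z p u u).image fun t => (a : ZMod p) + t)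
        ((M z p u u).image fun t => (b : ZMod p) + t) := by
      rw [Finset.disjoint_left]
      intro s hs hs'
      rw [Finset.mem_image] at hs hs'
      obtain ⟨t, ht, hts⟩ := hs
      obtain ⟨t', ht', hts'⟩ := hs'
      exact hcon t ht t' ht' (hts.trans hts'.symm)
    have h1 := Finset.card_le_univ (((M z p u u).image fun t => (a : ZMod p) + t) ∪
        ((M z p u u).image fun t => (b : ZMod p) + t))
    rw [Finset.card_union_of_disjoint hdis,
      Finset.card_image_of_injective _ (add_right_injective _),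
      Finset.card_image_of_injective _ (add_right_injective _), ZMod.card] at h1
    omega
  obtain ⟨t, ht, t', ht', h⟩ := hex
  have h1 : G.Adj ((z ^ a) u) ((z ^ a) ((z ^ t.val) u)) := (z ^ a).map_rel_iff.2 (mem_M.1 ht)
  have h2 : G.Adj ((z ^ b) u) ((z ^ b) ((z ^ t'.val) u)) := (z ^ b).map_rel_iff.2 (mem_M.1 ht')
  rw [← pow_add_apply] at h1 h2
  have e1 : z ^ (a + t.val) = z ^ ((a : ZMod p) + t).val :=
    pow_eq_val hz (by rw [Nat.cast_add, ZMod.natCast_zmod_val])
  have e2 : z ^ (b + t'.val) = z ^ ((a : ZMod p) + t).val :=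
    pow_eq_val hz (by rw [Nat.cast_add, ZMod.natCast_zmod_val, h])
  rw [e1] at h1
  rw [e2] at h2
  exact SimpleGraph.dist_le (SimpleGraph.Walk.cons h1 (SimpleGraph.Walk.cons h2.symm .nil))

/-- two orbits, arbitrary valency: a lifted Hamilton cycle, or all distances are at most three -/
theorem hasUPS_two_orbits_of_lt [Finite V] (hG : G.Connected) (hT : VT G) {p d : ℕ}
    (hp : p.Prime) (hcard : Nat.card V = 2 * p) (hd : ∀ v, (G.neighborSet v).ncard = d)
    (hdp : d < p) (hlt : p < 2 * (d - 1)) (hdist : ∃ x y, 4 ≤ G.dist x y) : HasUPS G := by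
  have : NeZero p := ⟨hp.ne_zero⟩
  obtain ⟨z, hz, hfix⟩ := exists_semiregular hG hT hp ⟨2, by rw [hcard, mul_comm]⟩
    (fun v => by rw [hd v]; exact hdp)
  obtain ⟨x, horb⟩ := exists_reps hp hcard (by norm_num) z hz
  obtain ⟨i, hi, j, hj, hi2, hj2, m, hm⟩ := rel_cut hG hp hcard hz hfix x horb {0}
    (i0 := 0) (j0 := 1) (by norm_num) (by norm_num) (by simp) (by simp)
  have hi0 : i = 0 := by simpa using hi
  have hj1 : j = 1 := by
    have : j ≠ 0 := by simpa using hj
    omega
  subst hi0 hj1
  -- representatives `x 0` and `b = z ^ m (x 1)`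
  let y : ℕ → V := fun i => if i = 0 then (z ^ m) (x 1) else x 0
  have hyorb : ∀ i < 2, ∀ j < 2, ∀ s : ℕ, (z ^ s) (y i) = y j → i = j := by
    refine horb_change hp.pos hz horb (fun i => if i = 0 then 1 else 0) ?_ ?_ ?_
    · intro i _; split_ifs <;> norm_num
    · intro i hi j hj h
      clear * - h hi hj
      revert h
      interval_cases i <;> interval_cases j <;> decide
    · intro i hi
      interval_cases i
      · exact ⟨m, by simp [y]⟩
      · exact ⟨0, by simp [y]⟩
  have hy0 : y 0 = (z ^ m) (x 1) := by simp [y]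
  have hy1 : y 1 = x 0 := by simp [y]
  have hadj : G.Adj (y 1) (y 0) := by rw [hy0, hy1]; exact hm
  have hsum1 := deg_sum hp hcard hz hfix y hyorb (y 1)
  have hsum0 := deg_sum hp hcard hz hfix y hyorb (y 0)
  rw [hd, Finset.sum_range_succ, Finset.sum_range_one] at hsum1 hsum0
  have hsymm := card_M_symm hz (y 1) (y 0)
  have h0 : (0 : ZMod p) ∈ M z p (y 1) (y 0) := by
    rw [mem_M, ZMod.val_zero, pow_zero]
    exact hadj
  have hpos : 0 < (M z p (y 1) (y 0)).card := Finset.card_pos.2 ⟨0, h0⟩
  rcases Nat.lt_or_ge 1 (M z p (y 1) (y 0)).card with h2 | h1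
  · obtain ⟨c, hc, hc0⟩ := Finset.exists_mem_ne h2 0
    refine hasUPS_of_lift hp (by norm_num : 0 < 2) hcard z hz hfix y ?_ c.val ?_ ?_ hyorb
    · intro i hi
      have : i = 0 := by omega
      subst this
      exact hadj.symm
    · intro hdvd
      apply hc0
      have := (ZMod.natCast_eq_zero_iff c.val p).2 hdvd
      rwa [ZMod.natCast_zmod_val] at this
    · show G.Adj (y 1) _
      exact mem_M.1 hc
  · exfalso
    have c0 : p < 2 * (M z p (y 0) (y 0)).card := by omega
    have c1 : p < 2 * (M z p (y 1) (y 1)).card := by omega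
    have hcyc : ∀ i < 2, ∀ a b : ℕ, G.dist ((z ^ a) (y i)) ((z ^ b) (y i)) ≤ 2 := by
      intro i hi a b
      interval_cases i
      · exact dist_same hz c0 a b
      · exact dist_same hz c1 a b
    have hall : ∀ v w : V, G.dist v w ≤ 3 := by
      intro v w
      obtain ⟨i, hi, a, rfl⟩ := cover hp hcard hz hfix y hyorb v
      obtain ⟨j, hj, b, rfl⟩ := cover hp hcard hz hfix y hyorb w
      by_cases hij : i = j
      · subst hij
        exact (hcyc i hi _ _).trans (by norm_num)
      · have hA : G.Adj (y i) (y j) := by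
          have : (i = 0 ∧ j = 1) ∨ (i = 1 ∧ j = 0) := by omega
          rcases this with ⟨rfl, rfl⟩ | ⟨rfl, rfl⟩
          · exact hadj.symm
          · exact hadj
        have hA' : G.Adj ((z ^ a.val) (y i)) ((z ^ a.val) (y j)) := (z ^ a.val).map_rel_iff.2 hA
        have h3 := hG.dist_triangle (u := (z ^ a.val) (y i)) (v := (z ^ a.val) (y j))
          (w := (z ^ b.val) (y j))
        rw [SimpleGraph.dist_eq_one_iff_adj.2 hA'] at h3
        have h4 := hcyc j hj a.val b.val
        omega
    obtain ⟨v, w, hvw⟩ := hdist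
    have := hall v w
    omega

end SH
end Pool.Agent.UPS
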