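import Pool.Agent.Lib.MP_876e19_co_ups.SmallHam1

/-!
# Connected graphs of valency two are cycles and have a uniform path system
-/

set_option autoImplicit false

namespace Pool.Agent.UPS

open SimpleGraph

theorem hasUPS_of_two_regular {V : Type*} [Finite V] {G : SimpleGraph V} (hG : G.Connected)
    (hd : ∀ v, (G.neighborSet v).ncard = 2) : HasUPS G := by
  classical
  obtain ⟨v⟩ := hG.nonempty
  have hcyc : G.IsCycles := fun u _ => hd u
  have hne : (G.neighborSet v).Nonempty := by
    apply Set.nonempty_of_ncard_ne_zero
    rw [hd v]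
    norm_num
  obtain ⟨p, hp, hverts⟩ := hcyc.exists_cycle_toSubgraph_verts_eq_connectedComponentSupp
    (c := G.connectedComponentMk v) (v := v) rfl hne
  have hall : ∀ w, w ∈ p.support := by
    intro w
    rw [← SimpleGraph.Walk.mem_verts_toSubgraph, hverts, ConnectedComponent.mem_supp_iff,
      ConnectedComponent.eq]
    exact hG.preconnected w v
  have hlen : 0 < p.length := by
    have := hp.three_le_length
    omega
  set N := p.length with hN
  have hinj : ∀ i < N, ∀ j < N, p.getVert i = p.getVert j → i = j := by
    intro i hi j hj h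
    apply hp.getVert_injOn' _ _ h
    · simp only [Set.mem_ofPred_eq]; omega
    · simp only [Set.mem_ofPred_eq]; omega
  have hsurj : ∀ w, ∃ i < N, p.getVert i = w := by
    intro w
    obtain ⟨i, hi, hiN⟩ := SimpleGraph.Walk.mem_support_iff_exists_getVert.1 (hall w)
    rcases Nat.lt_or_ge i N with h | h
    · exact ⟨i, h, hi⟩
    · refine ⟨0, hlen, ?_⟩
      have : i = N := le_antisymm hiN h
      rw [this, hN, Walk.getVert_length] at hi
      rw [Walk.getVert_zero, hi]
  have hcard : Nat.card V = N := by
    have : Nat.card (Fin N) = Nat.card V :=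
      Nat.card_congr (Equiv.ofBijective (fun i : Fin N => p.getVert i)
        ⟨fun i j h => Fin.ext (hinj i i.2 j j.2 h), fun w => by
          obtain ⟨i, hi, h⟩ := hsurj w
          exact ⟨⟨i, hi⟩, h⟩⟩)
    rw [← this, Nat.card_fin]
  refine hasUPS_of_cyclic N hlen hcard (fun i => p.getVert (i % N)) ?_ ?_ ?_
  · intro i
    have hi := Nat.mod_lt i hlen
    have h1 := p.adj_getVert_succ hi
    rcases Nat.lt_or_ge (i % N + 1) N with h | h
    · have : (i + 1) % N = i % N + 1 := by
        rw [Nat.add_mod, Nat.mod_eq_of_lt (a := 1) (by omega), Nat.mod_eq_of_lt h]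
      simp only [this]
      exact h1
    · have h2 : i % N + 1 = N := by omega
      have : (i + 1) % N = 0 := by
        rw [Nat.add_mod]
        rcases Nat.lt_or_ge 1 N with h3 | h3
        · rw [Nat.mod_eq_of_lt h3, h2, Nat.mod_self]
        · have : N = 1 := by omega
          rw [this]; simp [Nat.mod_one]
      simp only [this, Walk.getVert_zero]
      rw [h2, hN, Walk.getVert_length] at h1
      exact h1
  · intro i
    simp
  · intro i hi j hj h
    simp only [Nat.mod_eq_of_lt hi, Nat.mod_eq_of_lt hj] at h
    exact hinj i hi j hj h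

end Pool.Agent.UPS
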