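import Pool.Agent.Lib.MP_876e19_co_ups.Antipode
import Pool.Agent.Lib.MP_876e19_co_ups.Twins

/-!
# 18 vertices, degree 5 (MP_876e19_co, window)

* `submod`, `inter_le`: submodularity of vertex boundaries and intersections of fragments;
* `level_two`: degree 5, no closed twins, two vertices at distance at least 4: every vertex has at
  least six vertices at distance 2;
* `hasUPS_5_18`.
-/

set_option autoImplicit false
set_option linter.unusedSectionVars false

namespace Pool.Agent.UPS.W18

open Finset Pool.Agent.UPS Pool.Agent.UPS.Atoms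

variable {V : Type*} [Fintype V] [DecidableEq V] {G : SimpleGraph V} [DecidableRel G.Adj]

lemma bd_union_subset (A B : Finset V) :
    bd G (A ∪ B) ⊆ (bd G A ∩ bd G B) ∪ (bd G A ∩ far G B) ∪ (far G A ∩ bd G B) := by
  intro v hv
  rw [mem_bd] at hv
  obtain ⟨h1, u, hu, ha⟩ := hv
  rw [mem_union, not_or] at h1
  rw [mem_union] at hu
  simp only [mem_union, mem_inter]
  rcases trich (G := G) A v with h | h | h
  · exact absurd h h1.1
  · rcases trich (G := G) B v with h' | h' | h'
    · exact absurd h' h1.2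
    · exact Or.inl (Or.inl ⟨h, h'⟩)
    · exact Or.inl (Or.inr ⟨h, h'⟩)
  · rcases trich (G := G) B v with h' | h' | h'
    · exact absurd h' h1.2
    · exact Or.inr ⟨h, h'⟩
    · exfalso
      rcases hu with hu | hu
      · exact (mem_far.1 h).2 u hu ha
      · exact (mem_far.1 h').2 u hu ha

/-- the vertex boundary is submodular -/
lemma submod (A B : Finset V) :
    (bd G (A ∩ B)).card + (bd G (A ∪ B)).card ≤ (bd G A).card + (bd G B).card := by
  have h1 := card_bd_inter_le (G := G) A B
  have h2 : (bd G (A ∪ B)).card ≤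
      (bd G A ∩ bd G B).card + (bd G A ∩ far G B).card + (far G A ∩ bd G B).card := by
    refine (card_le_card (bd_union_subset A B)).trans ?_
    refine (card_union_le _ _).trans ?_
    have := card_union_le (bd G A ∩ bd G B) (bd G A ∩ far G B)
    omega
  have h3 := card_split (G := G) B (bd G A)
  have h4 := card_split (G := G) A (bd G B)
  rw [inter_comm (bd G B) A, inter_comm (bd G B) (bd G A), inter_comm (bd G B) (far G A)] at h4
  omega

/-- intersections of fragments -/
lemma inter_le {k : ℕ} (hk : Lower G k) {A B : Finset V} (hA : (bd G A).card ≤ k)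
    (hB : (bd G B).card ≤ k) (hne : (A ∩ B).Nonempty) {y : V} (hyA : y ∈ far G A)
    (hyB : y ∈ far G B) : (bd G (A ∩ B)).card ≤ k := by
  have h1 := submod (G := G) A B
  have h2 : k ≤ (bd G (A ∪ B)).card := by
    obtain ⟨a, ha⟩ := hne
    refine hk _ ⟨a, mem_union_left _ (mem_inter.1 ha).1⟩ ⟨y, mem_far.2 ⟨?_, ?_⟩⟩
    · rw [mem_union, not_or]
      exact ⟨(mem_far.1 hyA).1, (mem_far.1 hyB).1⟩
    · intro u hu
      rcases mem_union.1 hu with hu | hu
      · exact (mem_far.1 hyA).2 u hu
      · exact (mem_far.1 hyB).2 u hu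
  omega

/-- closed neighbourhood -/
def cl (G : SimpleGraph V) [DecidableRel G.Adj] (x : V) : Finset V :=
  univ.filter fun w => w = x ∨ G.Adj x w

lemma mem_cl {x w : V} : w ∈ cl G x ↔ w = x ∨ G.Adj x w := by simp [cl]

lemma cl_symm {x w : V} : w ∈ cl G x ↔ x ∈ cl G w := by
  rw [mem_cl, mem_cl, eq_comm, G.adj_comm]

lemma card_cl {d : ℕ} (hreg : ∀ v, (univ.filter fun w => G.Adj v w).card = d) (x : V) :
    (cl G x).card = d + 1 := by
  have h : cl G x = insert x (univ.filter fun w => G.Adj x w) := by
    ext w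
    simp [mem_cl]
  rw [h, card_insert_of_notMem (by simp), hreg]

lemma cl_inj (hTF : TwinFree G) {x w : V} (h : cl G x = cl G w) : x = w := by
  apply hTF
  intro z
  rw [← mem_cl, ← mem_cl, h]

/-- a vertex at distance at least four from `x` is far from all the closed neighbourhoods -/
lemma far_of_dist (hG : G.Connected) {x y s : V} (hy : 4 ≤ G.dist x y) (hs : s ∈ cl G x) :
    y ∈ far G (cl G s) := by
  have h1 : G.dist x s ≤ 1 := by
    rcases mem_cl.1 hs with h | h
    · subst h; simp
    · exact (SimpleGraph.dist_eq_one_iff_adj.2 h).le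
  have h2 : ∀ u ∈ cl G s, G.dist s u ≤ 1 := by
    intro u hu
    rcases mem_cl.1 hu with h | h
    · subst h; simp
    · exact (SimpleGraph.dist_eq_one_iff_adj.2 h).le
  have h3 : ∀ u ∈ cl G s, 2 ≤ G.dist u y := by
    intro u hu
    have e1 : G.dist x y ≤ G.dist x s + G.dist s y := hG.dist_triangle
    have e2 : G.dist s y ≤ G.dist s u + G.dist u y := hG.dist_triangle
    have := h2 u hu
    omega
  rw [mem_far]
  constructor
  · intro hu
    have := h3 y hu
    rw [SimpleGraph.dist_self] at this
    omega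
  · intro u hu ha
    have := h3 u hu
    rw [SimpleGraph.dist_eq_one_iff_adj.2 ha] at this
    omega

/-- the finite check: no graph on five vertices has all degrees in `{2, 3}` and adjacent
neighbours at every vertex of degree two -/
def mat (a01 a02 a03 a04 a12 a13 a14 a23 a24 a34 : Bool) (i j : Fin 5) : Bool :=
  if i = 0 ∧ j = 1 ∨ i = 1 ∧ j = 0 then a01 else
  if i = 0 ∧ j = 2 ∨ i = 2 ∧ j = 0 then a02 else
  if i = 0 ∧ j = 3 ∨ i = 3 ∧ j = 0 then a03 else
  if i = 0 ∧ j = 4 ∨ i = 4 ∧ j = 0 then a04 else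
  if i = 1 ∧ j = 2 ∨ i = 2 ∧ j = 1 then a12 else
  if i = 1 ∧ j = 3 ∨ i = 3 ∧ j = 1 then a13 else
  if i = 1 ∧ j = 4 ∨ i = 4 ∧ j = 1 then a14 else
  if i = 2 ∧ j = 3 ∨ i = 3 ∧ j = 2 then a23 else
  if i = 2 ∧ j = 4 ∨ i = 4 ∧ j = 2 then a24 else
  if i = 3 ∧ j = 4 ∨ i = 4 ∧ j = 3 then a34 else false

def deg5 (f : Fin 5 → Fin 5 → Bool) (i : Fin 5) : ℕ :=
  (f i 0).toNat + (f i 1).toNat + (f i 2).toNat + (f i 3).toNat + (f i 4).toNat

def bad5 (f : Fin 5 → Fin 5 → Bool) : Bool :=
  (List.finRange 5).all fun i => (deg5 f i == 3) ||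
    ((deg5 f i == 2) && (List.finRange 5).all fun j => (List.finRange 5).all fun k =>
      !(f i j && f i k && (j != k)) || f j k)

lemma local5 : ∀ a01 a02 a03 a04 a12 a13 a14 a23 a24 a34 : Bool,
    bad5 (mat a01 a02 a03 a04 a12 a13 a14 a23 a24 a34) = false := by
  decide

lemma local_contra (S : Finset V) (hS : S.card = 5)
    (hdeg : ∀ w ∈ S, (S.filter fun u => G.Adj w u).card = 2 ∨
      (S.filter fun u => G.Adj w u).card = 3)
    (hadj : ∀ w ∈ S, (S.filter fun u => G.Adj w u).card = 2 → ∀ p ∈ S, ∀ q ∈ S,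
      G.Adj w p → G.Adj w q → p ≠ q → G.Adj p q) : False := by
  let σ := S.equivFinOfCardEq hS
  let e : Fin 5 → V := fun i => (σ.symm i : V)
  have heS : ∀ i, e i ∈ S := fun i => (σ.symm i).2
  have hinj : ∀ i j, e i = e j → i = j := fun i j h => σ.symm.injective (Subtype.ext h)
  let f : Fin 5 → Fin 5 → Bool := fun i j => decide (G.Adj (e i) (e j))
  have hsym : ∀ i j, f i j = f j i := fun i j => by
    simp only [f, decide_eq_decide]
    exact G.adj_comm _ _
  have hirr : ∀ i, f i i = false := fun i => by simp [f]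
  have hcount : ∀ i, (S.filter fun u => G.Adj (e i) u).card = deg5 f i := by
    intro i
    rw [card_filter, ← Finset.sum_coe_sort S (fun u => if G.Adj (e i) u then 1 else 0),
      ← σ.symm.sum_comp, Fin.sum_univ_five]
    have h1 : ∀ j, (if G.Adj (e i) (σ.symm j : V) then 1 else 0) = (f i j).toNat := by
      intro j
      by_cases h : G.Adj (e i) (e j)
      · simp only [f, decide_eq_true h, Bool.toNat_true]
        rw [if_pos h]
      · simp only [f, decide_eq_false h, Bool.toNat_false]
        rw [if_neg h]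
    rw [h1, h1, h1, h1, h1]
    rfl
  have hmat : f = mat (f 0 1) (f 0 2) (f 0 3) (f 0 4) (f 1 2) (f 1 3) (f 1 4) (f 2 3) (f 2 4)
      (f 3 4) := by
    funext i j
    fin_cases i <;> fin_cases j <;> first | exact hirr _ | rfl | exact hsym _ _
  have hbad : bad5 f = true := by
    unfold bad5
    rw [List.all_eq_true]
    intro i _
    have h1 := hdeg _ (heS i)
    rw [hcount] at h1
    rcases h1 with h1 | h1
    · rw [h1]
      simp only [Nat.reduceBEq, Bool.false_or, beq_self_eq_true, Bool.true_and,
        List.all_eq_true]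
      intro j _ k _
      by_cases hj : G.Adj (e i) (e j)
      · by_cases hk : G.Adj (e i) (e k)
        · by_cases hjk : j = k
          · subst hjk
            simp
          · have h2 := hadj _ (heS i) (by rw [hcount]; exact h1) _ (heS j) _ (heS k) hj hk
              (fun h => hjk (hinj _ _ h))
            have h3 : f j k = true := decide_eq_true h2
            rw [h3, Bool.or_true]
        · have h3 : f i k = false := decide_eq_false hk
          rw [h3]
          simp
      · have h3 : f i j = false := decide_eq_false hj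
        rw [h3]
        simp
    · rw [h1]
      simp
  rw [hmat, local5] at hbad
  exact absurd hbad (by decide)

/-- the private neighbours -/
lemma private_subset {x w : V} (h : G.Adj x w) {B : Finset V} (hB : B ⊆ cl G x ∩ cl G w)
    (hx : x ∈ B) (hw : w ∈ B) : (cl G x \ cl G w) ∪ (cl G w \ cl G x) ⊆ bd G B := by
  intro v hv
  have hxw : x ∈ cl G w := mem_cl.2 (Or.inr h.symm)
  have hwx : w ∈ cl G x := mem_cl.2 (Or.inr h)
  rw [mem_union, mem_sdiff, mem_sdiff] at hv
  rw [mem_bd]
  rcases hv with ⟨h1, h2⟩ | ⟨h1, h2⟩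
  · refine ⟨fun h3 => h2 (mem_inter.1 (hB h3)).2, x, hx, ?_⟩
    rcases mem_cl.1 h1 with h4 | h4
    · exact absurd hxw (h4 ▸ h2)
    · exact h4
  · refine ⟨fun h3 => h2 (mem_inter.1 (hB h3)).1, w, hw, ?_⟩
    rcases mem_cl.1 h1 with h4 | h4
    · exact absurd hwx (h4 ▸ h2)
    · exact h4

lemma card_private {d : ℕ} (hreg : ∀ v, (univ.filter fun w => G.Adj v w).card = d) (x w : V) :
    ((cl G x \ cl G w) ∪ (cl G w \ cl G x)).card + 2 * (cl G x ∩ cl G w).card = 2 * (d + 1) := by
  have h1 : ((cl G x \ cl G w) ∪ (cl G w \ cl G x)).card =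
      (cl G x \ cl G w).card + (cl G w \ cl G x).card := by
    apply card_union_of_disjoint
    rw [Finset.disjoint_left]
    intro a ha hb
    rw [mem_sdiff] at ha hb
    exact hb.2 ha.1
  have h2 := card_sdiff_add_card_inter (cl G x) (cl G w)
  have h3 := card_sdiff_add_card_inter (cl G w) (cl G x)
  rw [card_cl hreg] at h2 h3
  rw [inter_comm (cl G w)] at h3
  omega

/-- the second level has at least six vertices -/
theorem level_two (hG : G.Connected) (hT : VT G)
    (hreg : ∀ v, (univ.filter fun w => G.Adj v w).card = 5) (hTF : TwinFree G)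
    (hdist : ∃ x y, 4 ≤ G.dist x y) (x : V) : 6 ≤ (bd G (cl G x)).card := by
  classical
  have hL : Lower G 5 := tf_five hG hT hreg hTF
  by_contra hcon
  have hfar : ∀ x, ∃ y, 4 ≤ G.dist x y := by
    obtain ⟨x₀, y₀, h⟩ := hdist
    intro x
    obtain ⟨φ, hφ⟩ := hT x₀ x
    exact ⟨φ y₀, by rw [← hφ, dist_iso hG]; exact h⟩
  have hle : ∀ s, (bd G (cl G s)).card ≤ 5 := by
    intro s
    obtain ⟨φ, hφ⟩ := hT x s
    have h1 : cl G s = im φ (cl G x) := by
      ext v
      rw [mem_im, mem_cl, mem_cl, ← hφ]
      constructor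
      · rintro (h | h)
        · left; rw [h]; simp
        · right
          rw [← φ.map_adj_iff]
          simpa using h
      · rintro (h | h)
        · left; rw [← h]; simp
        · right
          rw [← φ.map_adj_iff] at h
          simpa using h
    rw [h1, bd_im, card_im]
    omega
  have F1 : ∀ x w, G.Adj x w → (bd G (cl G x ∩ cl G w)).card ≤ 5 := by
    intro x w h
    obtain ⟨y, hy⟩ := hfar x
    exact inter_le hL (hle x) (hle w)
      ⟨x, mem_inter.2 ⟨mem_cl.2 (Or.inl rfl), mem_cl.2 (Or.inr h.symm)⟩⟩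
      (far_of_dist hG hy (mem_cl.2 (Or.inl rfl))) (far_of_dist hG hy (mem_cl.2 (Or.inr h)))
  have F3 : ∀ x w p, G.Adj x w → G.Adj x p → (bd G (cl G x ∩ cl G w ∩ cl G p)).card ≤ 5 := by
    intro x w p h hp
    obtain ⟨y, hy⟩ := hfar x
    refine inter_le hL (F1 x w h) (hle p)
      ⟨x, mem_inter.2 ⟨mem_inter.2 ⟨mem_cl.2 (Or.inl rfl), mem_cl.2 (Or.inr h.symm)⟩,
        mem_cl.2 (Or.inr hp.symm)⟩⟩ (y := y) ?_ (far_of_dist hG hy (mem_cl.2 (Or.inr hp)))
    exact far_anti inter_subset_left (far_of_dist hG hy (mem_cl.2 (Or.inl rfl)))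
  have F0 : ∀ x w, G.Adj x w → 5 ≤ (bd G (cl G x ∩ cl G w)).card := by
    intro x w h
    obtain ⟨y, hy⟩ := hfar x
    exact hL _ ⟨x, mem_inter.2 ⟨mem_cl.2 (Or.inl rfl), mem_cl.2 (Or.inr h.symm)⟩⟩
      ⟨y, far_anti inter_subset_left (far_of_dist hG hy (mem_cl.2 (Or.inl rfl)))⟩
  -- the number of common neighbours is 2 or 3
  have hc : ∀ w, G.Adj x w → (cl G x ∩ cl G w).card = 4 ∨ (cl G x ∩ cl G w).card = 5 := by
    intro w h
    have h1 := card_le_card (private_subset h (Subset.refl _)
      (mem_inter.2 ⟨mem_cl.2 (Or.inl rfl), mem_cl.2 (Or.inr h.symm)⟩)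
      (mem_inter.2 ⟨mem_cl.2 (Or.inr h), mem_cl.2 (Or.inl rfl)⟩))
    have h2 := F1 x w h
    have h3 := card_private hreg x w
    have h4 : (cl G x ∩ cl G w).card ≠ 6 := by
      intro h5
      have e1 : cl G x ∩ cl G w = cl G x :=
        Finset.eq_of_subset_of_card_le inter_subset_left (by rw [h5, card_cl hreg])
      have e2 : cl G x ∩ cl G w = cl G w :=
        Finset.eq_of_subset_of_card_le inter_subset_right (by rw [h5, card_cl hreg])
      exact h.ne (cl_inj hTF (e1.symm.trans e2))
    have h5 := card_le_card (inter_subset_left (s₁ := cl G x) (s₂ := cl G w))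
    rw [card_cl hreg] at h5
    omega
  have hS : ∀ w, G.Adj x w → ((univ.filter fun u => G.Adj x u).filter fun u => G.Adj w u).card + 2
      = (cl G x ∩ cl G w).card := by
    intro w h
    have h1 : cl G x ∩ cl G w =
        insert x (insert w ((univ.filter fun u => G.Adj x u).filter fun u => G.Adj w u)) := by
      ext u
      simp only [mem_inter, mem_cl, mem_insert, mem_filter, mem_univ, true_and]
      constructor
      · rintro ⟨h1 | h1, h2 | h2⟩
        · exact Or.inl h1
        · exact Or.inl h1
        · exact Or.inr (Or.inl h2)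
        · exact Or.inr (Or.inr ⟨h1, h2⟩)
      · rintro (rfl | rfl | ⟨h1, h2⟩)
        · exact ⟨Or.inl rfl, Or.inr h.symm⟩
        · exact ⟨Or.inr h, Or.inl rfl⟩
        · exact ⟨Or.inr h1, Or.inr h2⟩
    rw [h1, card_insert_of_notMem, card_insert_of_notMem]
    · simp
    · simp only [mem_insert, mem_filter, mem_univ, true_and, not_or, not_and]
      exact ⟨h.ne, fun h2 => absurd h2 (G.loopless.irrefl x)⟩
  refine local_contra (G := G) (univ.filter fun u => G.Adj x u) (hreg x) ?_ ?_
  · intro w hw
    simp only [mem_filter, mem_univ, true_and] at hw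
    have h1 := hS w hw
    have h2 := hc w hw
    omega
  · intro w hw h2 p hp q hq hwp hwq hpq
    simp only [mem_filter, mem_univ, true_and] at hw hp hq
    by_contra hnpq
    -- the key step
    have key : ∀ p q m, G.Adj x p → G.Adj x q → G.Adj w p → G.Adj w q → p ≠ q → ¬ G.Adj p q →
        m ∉ cl G x → m ∉ cl G w → G.Adj p m → False := by
      intro p q m hp hq hwp hwq hpq hn hmx hmw hpm
      have hqB : q ∉ cl G p := by
        rw [mem_cl]
        rintro (h | h)
        · exact hpq h.symm
        · exact hn h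
      have hxB : x ∈ cl G x ∩ cl G w ∩ cl G p :=
        mem_inter.2 ⟨mem_inter.2 ⟨mem_cl.2 (Or.inl rfl), mem_cl.2 (Or.inr hw.symm)⟩,
          mem_cl.2 (Or.inr hp.symm)⟩
      have hwB : w ∈ cl G x ∩ cl G w ∩ cl G p :=
        mem_inter.2 ⟨mem_inter.2 ⟨mem_cl.2 (Or.inr hw), mem_cl.2 (Or.inl rfl)⟩,
          mem_cl.2 (Or.inr hwp.symm)⟩
      have hpB : p ∈ cl G x ∩ cl G w ∩ cl G p :=
        mem_inter.2 ⟨mem_inter.2 ⟨mem_cl.2 (Or.inr hp), mem_cl.2 (Or.inr hwp)⟩,
          mem_cl.2 (Or.inl rfl)⟩
      have h3 : insert q (insert m ((cl G x \ cl G w) ∪ (cl G w \ cl G x))) ⊆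
          bd G (cl G x ∩ cl G w ∩ cl G p) := by
        intro v hv
        rw [mem_insert, mem_insert] at hv
        rcases hv with rfl | rfl | hv
        · exact mem_bd.2 ⟨fun h => hqB (mem_inter.1 h).2, x, hxB, hq⟩
        · exact mem_bd.2 ⟨fun h => hmx (mem_inter.1 (mem_inter.1 h).1).1, p, hpB, hpm⟩
        · exact private_subset hw inter_subset_left hxB hwB hv
      have h4 := card_le_card h3
      have h5 := F3 x w p hw hp
      have h6 : m ∉ (cl G x \ cl G w) ∪ (cl G w \ cl G x) := by
        rw [mem_union, mem_sdiff, mem_sdiff]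
        rintro (⟨h, _⟩ | ⟨h, _⟩)
        · exact hmx h
        · exact hmw h
      have h7 : q ∉ insert m ((cl G x \ cl G w) ∪ (cl G w \ cl G x)) := by
        rw [mem_insert, mem_union, mem_sdiff, mem_sdiff]
        rintro (h | ⟨_, h⟩ | ⟨_, h⟩)
        · exact hmx (h ▸ mem_cl.2 (Or.inr hq))
        · exact h (mem_cl.2 (Or.inr hwq))
        · exact h (mem_cl.2 (Or.inr hq))
      rw [card_insert_of_notMem h7, card_insert_of_notMem h6] at h4
      have h8 := card_private hreg x w
      have h9 := hS w hw
      omega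
    -- the fifth boundary vertex
    have hP := private_subset hw (Subset.refl (cl G x ∩ cl G w))
      (mem_inter.2 ⟨mem_cl.2 (Or.inl rfl), mem_cl.2 (Or.inr hw.symm)⟩)
      (mem_inter.2 ⟨mem_cl.2 (Or.inr hw), mem_cl.2 (Or.inl rfl)⟩)
    have hlt : ((cl G x \ cl G w) ∪ (cl G w \ cl G x)).card <
        (bd G (cl G x ∩ cl G w)).card := by
      have h8 := card_private hreg x w
      have h9 := hS w hw
      have h10 := F0 x w hw
      omega
    obtain ⟨m, hm, hmP⟩ := Finset.exists_mem_notMem_of_card_lt_card hlt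
    rw [mem_bd] at hm
    obtain ⟨hm1, u, hu, hum⟩ := hm
    rw [mem_inter, not_and] at hm1
    rw [mem_union, mem_sdiff, mem_sdiff, not_or, not_and, not_and, not_not, not_not] at hmP
    have hmx : m ∉ cl G x := fun h => hm1 h (hmP.1 h)
    have hmw : m ∉ cl G w := fun h => hmx (hmP.2 h)
    have hu' : u = p ∨ u = q := by
      rw [mem_inter, mem_cl, mem_cl] at hu
      have hux : u ≠ x := by
        rintro rfl
        exact hmx (mem_cl.2 (Or.inr hum))
      have huw : u ≠ w := by
        rintro rfl
        exact hmw (mem_cl.2 (Or.inr hum))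
      have h1 : G.Adj x u := hu.1.resolve_left hux
      have h3 : G.Adj w u := hu.2.resolve_left huw
      by_contra hne
      rw [not_or] at hne
      have h4 : ({u, p, q} : Finset V) ⊆
          (univ.filter fun u => G.Adj x u).filter fun u => G.Adj w u := by
        intro v hv
        simp only [mem_insert, mem_singleton] at hv
        simp only [mem_filter, mem_univ, true_and]
        rcases hv with rfl | rfl | rfl
        · exact ⟨h1, h3⟩
        · exact ⟨hp, hwp⟩
        · exact ⟨hq, hwq⟩
      have h5 := card_le_card h4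
      rw [h2, card_eq_three.2 ⟨u, p, q, hne.1, hne.2, hpq, rfl⟩] at h5
      omega
    rcases hu' with rfl | rfl
    · exact key u q m hp hq hwp hwq hpq hnpq hmx hmw hum
    · exact key u p m hq hp hwq hwp hpq.symm (fun h => hnpq h.symm) hmx hmw hum

/-- **18 vertices, degree 5, no closed twins, diameter at least 4.** -/
theorem hasUPS_5_18 (hG : G.Connected) (hT : VT G) (hcard : Fintype.card V = 18)
    (hreg : ∀ v, (univ.filter fun w => G.Adj v w).card = 5) (hTF : TwinFree G)
    (hdist : ∃ x y, 4 ≤ G.dist x y) : HasUPS G := by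
  have hL : Lower G 5 := tf_five hG hT hreg hTF
  let L : V → ℕ → Finset V := fun x i => univ.filter fun y => G.dist x y = i
  have hfar : ∀ x, ∃ y, 4 ≤ G.dist x y := by
    obtain ⟨x₀, y₀, h⟩ := hdist
    intro x
    obtain ⟨φ, hφ⟩ := hT x₀ x
    exact ⟨φ y₀, by rw [← hφ, dist_iso hG]; exact h⟩
  have hlev : ∀ x y, ∀ i ≤ G.dist x y, ∃ z, G.dist x z = i := by
    intro x y
    obtain ⟨w, hw⟩ := hG.exists_walk_length_eq_dist x y
    intro i hi
    refine ⟨w.getVert i, ?_⟩
    have e1 : G.dist x (w.getVert i) ≤ i := by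
      have := SimpleGraph.dist_le (w.take i)
      rw [SimpleGraph.Walk.take_length] at this
      exact this.trans (min_le_left _ _)
    have e2 : G.dist (w.getVert i) y ≤ G.dist x y - i := by
      have := SimpleGraph.dist_le (w.drop i)
      rw [SimpleGraph.Walk.drop_length, hw] at this
      exact this
    have e3 : G.dist x y ≤ G.dist x (w.getVert i) + G.dist (w.getVert i) y := hG.dist_triangle
    omega
  have hL0 : ∀ x, (L x 0).card = 1 := by
    intro x
    rw [card_eq_one]
    refine ⟨x, ?_⟩
    ext y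
    simp only [L, mem_filter, mem_univ, true_and, mem_singleton]
    rw [hG.dist_eq_zero_iff]
    exact eq_comm
  have hL1 : ∀ x, (L x 1).card = 5 := by
    intro x
    rw [← hreg x]
    congr 1
    ext y
    simp only [L, mem_filter, mem_univ, true_and]
    exact SimpleGraph.dist_eq_one_iff_adj
  have hL2 : ∀ x, 6 ≤ (L x 2).card := by
    intro x
    refine (level_two hG hT hreg hTF hdist x).trans (card_le_card ?_)
    intro v hv
    rw [mem_bd] at hv
    obtain ⟨h1, u, hu, huv⟩ := hv
    simp only [L, mem_filter, mem_univ, true_and]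
    rw [mem_cl, not_or] at h1
    have e1 : G.dist x v ≠ 0 := fun h => h1.1 ((hG.dist_eq_zero_iff).1 h).symm
    have e2 : G.dist x v ≠ 1 := fun h => h1.2 (SimpleGraph.dist_eq_one_iff_adj.1 h)
    have e3 : G.dist x u ≤ 1 := by
      rcases mem_cl.1 hu with h | h
      · subst h; simp
      · exact (SimpleGraph.dist_eq_one_iff_adj.2 h).le
    have e4 : G.dist x v ≤ G.dist x u + G.dist u v := hG.dist_triangle
    rw [SimpleGraph.dist_eq_one_iff_adj.2 huv] at e4
    omega
  have hL3 : ∀ x, 5 ≤ (L x 3).card := by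
    intro x
    have hb : bd G (univ.filter fun y => G.dist x y ≤ 2) ⊆ L x 3 := by
      intro v hv
      rw [mem_bd] at hv
      obtain ⟨hv1, u, hu, huv⟩ := hv
      simp only [mem_filter, mem_univ, true_and, not_le] at hv1 hu
      simp only [L, mem_filter, mem_univ, true_and]
      have : G.dist x v ≤ G.dist x u + G.dist u v := hG.dist_triangle
      rw [SimpleGraph.dist_eq_one_iff_adj.2 huv] at this
      omega
    refine (hL _ ⟨x, by simp⟩ ?_).trans (card_le_card hb)
    obtain ⟨y, hy⟩ := hfar x
    refine ⟨y, mem_far.2 ⟨?_, ?_⟩⟩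
    · simp only [mem_filter, mem_univ, true_and]; omega
    · intro u hu huy
      simp only [mem_filter, mem_univ, true_and] at hu
      have : G.dist x y ≤ G.dist x u + G.dist u y := hG.dist_triangle
      rw [SimpleGraph.dist_eq_one_iff_adj.2 huy] at this
      omega
  have hsum : ∀ x (m : ℕ), ∑ i ∈ range m, (L x i).card =
      (univ.filter fun y => G.dist x y < m).card := by
    intro x m
    induction m with
    | zero => simp
    | succ m ih =>
      rw [sum_range_succ, ih, ← card_union_of_disjoint]
      · congr 1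
        ext y
        simp only [L, mem_union, mem_filter, mem_univ, true_and]
        omega
      · rw [Finset.disjoint_left]
        intro y hy hy'
        simp only [L, mem_filter, mem_univ, true_and] at hy hy'
        omega
  have hone' : ∀ x, 1 ≤ (univ.filter fun y => 4 ≤ G.dist x y).card := by
    intro x
    obtain ⟨y, hy⟩ := hfar x
    exact card_pos.2 ⟨y, by simp [hy]⟩
  have hsplit : ∀ x, (univ.filter fun y => G.dist x y < 4).card +
      (univ.filter fun y => 4 ≤ G.dist x y).card = 18 := by
    intro x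
    have h := card_filter_add_card_filter_not (s := (univ : Finset V))
      (fun y => G.dist x y < 4)
    simp only [not_lt] at h
    rw [card_univ, hcard] at h
    exact h
  have hall : ∀ x, (univ.filter fun y => 4 ≤ G.dist x y).card = 1 ∧ (L x 3).card = 5 := by
    intro x
    have h1 := hsum x 4
    rw [sum_range_succ, sum_range_succ, sum_range_succ, sum_range_succ, sum_range_zero] at h1
    have h2 := hsplit x
    have h3 := hone' x
    have h4 := hL0 x
    have h5 := hL1 x
    have h6 := hL2 x
    have h7 := hL3 x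
    omega
  have hle : ∀ x y, G.dist x y ≤ 4 := by
    intro x y
    by_contra hcon
    push Not at hcon
    obtain ⟨z, hz⟩ := hlev x y 4 hcon.le
    have h := card_le_one.1 (hall x).1.le
    have : y = z := h y (by simp; omega) z (by simp; omega)
    subst this
    omega
  have huniq : ∀ x y z, G.dist x y = 4 → G.dist x z = 4 → y = z := by
    intro x y z hy hz
    exact card_le_one.1 (hall x).1.le y (by simp; omega) z (by simp; omega)
  refine hasUPS_of_antipode hG hT Nat.prime_three (by norm_num) (a := 2) (D := 4)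
    (by rw [Nat.card_eq_fintype_card, hcard]; norm_num) (by norm_num) hle ?_ huniq ?_
  · intro x
    obtain ⟨y, hy⟩ := hfar x
    exact ⟨y, le_antisymm (hle x y) hy⟩
  · intro x y z hy hz
    have hN : (univ.filter fun w => G.Adj y w) ⊆ L x 3 := by
      intro w hw
      simp only [mem_filter, mem_univ, true_and] at hw
      simp only [L, mem_filter, mem_univ, true_and]
      have h1 : G.dist x y ≤ G.dist x w + G.dist w y := hG.dist_triangle
      rw [SimpleGraph.dist_eq_one_iff_adj.2 hw.symm] at h1
      have h2 := hle x w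
      have h3 : G.dist x w ≠ 4 := by
        intro h
        exact hw.ne (huniq x y w hy h)
      omega
    have h4 := Finset.eq_of_subset_of_card_le hN (by rw [hreg, (hall x).2])
    have h5 : z ∈ univ.filter fun w => G.Adj y w := by
      rw [h4]
      simp only [L, mem_filter, mem_univ, true_and]
      exact hz
    simpa using h5

end Pool.Agent.UPS.W18
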