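import Pool.Agent.Lib.MP_876e19_co_arc3.Cubic
import Pool.Agent.Lib.MP_876e19_co_ups.BipAll
import Pool.Agent.Lib.MP_876e19_co_ups.TwoReg
import Pool.Agent.Lib.MP_876e19_co_ups.Twins
import Pool.Agent.Lib.MP_876e19_co2.DiamThree
import Pool.Agent.Lib.MP_876e19_co_ups.SharpSets
import Pool.Agent.Lib.MP_876e19_co_ups.Levels
import Pool.Agent.Lib.MP_876e19_co_ups.NumBase
import Pool.Agent.Lib.MP_876e19_co_ups.SmallHam6
import Pool.Agent.Lib.MP_876e19_co_ups.SmallHam7
import Pool.Agent.Lib.MP_876e19_co_ups.Eighteen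
import Pool.Agent.Lib.MP_876e19_co_ups.Win18

/-!
# Assembly: every finite connected vertex-transitive graph has a uniform path system

Skeleton (helper85, TT876).  `final_of` reduces the theorem to the non-bipartite block `NBlock`
(valency at least four, diameter at least four, twin-free, in the range of the numerics) and to
one small case `SmallCase 5 20`.
-/

set_option autoImplicit false

open Finset

namespace Pool.Agent.UPS.Asm

open Pool.Agent.UPS Pool.Agent.UPS.Atoms

/-- the range of the non-bipartite block -/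
def Range (n d κ : ℕ) : Prop :=
  (Even n ∧ (Num.EvenRange n d κ ∨ (d = 6 ∧ κ = 6 ∧ n = 20))) ∨ (Odd n ∧ Num.OddRange n d κ)

/-- the general non-bipartite block -/
def NBlock : Prop := ∀ (V : Type) [Fintype V] [DecidableEq V] (G : SimpleGraph V)
  [DecidableRel G.Adj], G.Connected → VT G → UPS2.EC.OddW G → TwinFree G →
  (∃ x y, 4 ≤ G.dist x y) → ∀ d κ : ℕ, 4 ≤ d → 4 ≤ κ → κ ≤ d →
  (∀ v, (univ.filter fun w => G.Adj v w).card = d) → Lower G κ → 2 * (d + 1) ≤ 3 * κ →
  2 * (d + 1) + κ ≤ Fintype.card V → Range (Fintype.card V) d κ → HasUPS G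

/-- a small non-bipartite case -/
def SmallCase (d n : ℕ) : Prop := ∀ (V : Type) [Fintype V] [DecidableEq V] (G : SimpleGraph V)
  [DecidableRel G.Adj], G.Connected → VT G → UPS2.EC.OddW G → TwinFree G →
  (∃ x y, 4 ≤ G.dist x y) → (∀ v, (univ.filter fun w => G.Adj v w).card = d) →
  Fintype.card V = n → HasUPS G

section conv

variable {V : Type*} [Fintype V] [DecidableEq V] {G : SimpleGraph V} [DecidableRel G.Adj] {d : ℕ}

lemma dg_of_reg (h : ∀ v, (univ.filter fun w => G.Adj v w).card = d) (v : V) :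
    UPS2.EC.dg G v = d := by
  rw [← h v, card_filter]
  unfold UPS2.EC.dg
  refine sum_congr rfl fun w _ => ?_
  by_cases h : G.Adj v w <;> simp [h]

lemma reg_of_dg (h : ∀ v, UPS2.EC.dg G v = d) (v : V) :
    (univ.filter fun w => G.Adj v w).card = d := by
  rw [← h v, card_filter]
  unfold UPS2.EC.dg
  refine sum_congr rfl fun w _ => ?_
  by_cases h : G.Adj v w <;> simp [h]

lemma ncard_of_reg (h : ∀ v, (univ.filter fun w => G.Adj v w).card = d) (v : V) :
    (G.neighborSet v).ncard = d := by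
  rw [← h v, ← Set.ncard_coe_finset]
  congr 1
  ext w
  simp

lemma degree_of_reg (h : ∀ v, (univ.filter fun w => G.Adj v w).card = d) (v : V) :
    G.degree v = d := by
  rw [← h v, ← SimpleGraph.card_neighborFinset_eq_degree]
  congr 1
  ext w
  simp

/-- handshake -/
lemma even_mul (h : ∀ v, (univ.filter fun w => G.Adj v w).card = d) :
    Even (Fintype.card V * d) := by
  have h1 := G.sum_degrees_eq_twice_card_edges
  rw [sum_congr rfl fun v _ => degree_of_reg h v, sum_const, card_univ, smul_eq_mul] at h1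
  rw [h1]
  exact even_two_mul _

/-- a connected non-complete regular graph has valency at least two -/
lemma two_le_of_not_complete (hG : G.Connected)
    (h : ∀ v, (univ.filter fun w => G.Adj v w).card = d) {u w : V} (huw : u ≠ w)
    (hn : ¬ G.Adj u w) : 2 ≤ d := by
  obtain ⟨p, hp⟩ := hG.exists_walk_length_eq_dist u w
  have h2 : 2 ≤ p.length := by
    rw [hp]
    have h0 : G.dist u w ≠ 0 := by
      rw [Ne, hG.dist_eq_zero_iff]; exact huw
    have h1 : G.dist u w ≠ 1 := by
      rw [Ne, SimpleGraph.dist_eq_one_iff_adj]; exact hn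
    omega
  have hpath := p.isPath_of_length_eq_dist hp
  have ha : G.Adj (p.getVert 0) (p.getVert 1) := p.adj_getVert_succ (by omega)
  have hb : G.Adj (p.getVert 1) (p.getVert 2) := p.adj_getVert_succ (by omega)
  have hne : p.getVert 0 ≠ p.getVert 2 := by
    intro h
    have := hpath.getVert_injOn (by simp) (by simpa using h2) h
    omega
  rw [← h (p.getVert 1)]
  calc 2 = ({p.getVert 0, p.getVert 2} : Finset V).card := (card_pair hne).symm
    _ ≤ _ := card_le_card (by
      intro z hz
      simp only [mem_insert, mem_singleton] at hz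
      simp only [mem_filter, mem_univ, true_and]
      rcases hz with rfl | rfl
      · exact ha.symm
      · exact hb)

end conv

/-- the non-bipartite graphs of valency and diameter at least four -/
theorem nonbip_of (hNB : NBlock) (h520 : SmallCase 5 20) (V : Type) [Fintype V] [DecidableEq V] (G : SimpleGraph V) [DecidableRel G.Adj]
    (hG : G.Connected) (hT : VT G) (hnb : ¬ ∃ side : V → Bool, ∀ u v, G.Adj u v → side u ≠ side v)
    (hTF : TwinFree G) (hdist : ∃ x y, 4 ≤ G.dist x y) {d : ℕ} (hd4 : 4 ≤ d)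
    (hreg : ∀ v, (univ.filter fun w => G.Adj v w).card = d) : HasUPS G := by
  have hodd : UPS2.EC.OddW G := by
    by_contra h
    exact hnb (UPS2.EC.bip_of_not_oddW hG h)
  have hcol : ¬ G.Colorable 2 := by
    rintro ⟨C⟩
    apply hnb
    refine ⟨fun v => decide (C v = 0), fun u v huv h => C.valid huv ?_⟩
    have h' := decide_eq_decide.1 h
    have e : ∀ a b : Fin 2, (a = 0 ↔ b = 0) → a = b := by decide
    exact e _ _ h'
  have hev := even_mul hreg
  obtain ⟨κ, hκ4, hκd, hlow, hκ, k4, k5, k6, k7, k8, k9, k10⟩ :=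
    Lev.exists_kappa hG hT hreg hTF hd4
  obtain ⟨x, y, hxy⟩ := hdist
  have hn := Lev.card_ge_levels hG hreg hlow (by norm_num : 3 ≤ 4) hxy
  set n := Fintype.card V with hnV
  have hn' : 2 * (d + 1) + κ ≤ n := by omega
  -- the prime powers
  have hpp : ∀ p a : ℕ, p.Prime → n = p ^ a → HasUPS G := fun p a hp h =>
    hasUPS_of_card_prime_pow hG hT hp (by rw [Nat.card_eq_fintype_card]; exact h)
  -- the general block
  by_cases hR : Range n d κ
  · exact hNB V G hG hT hodd hTF ⟨x, y, hxy⟩ d κ hd4 hκ4 hκd hreg hlow hκ hn' hR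
  -- the remaining pairs
  have hcases : (d = 4 ∧ 14 ≤ n ∧ n ≤ 22) ∨ (d = 5 ∧ 18 ≤ n ∧ n ≤ 20 ∧ Even n) ∨
      (d = 7 ∧ n = 22) := by
    have hne : ¬ (Even n ∧ Num.EvenRange n d κ) := fun h => hR (Or.inl ⟨h.1, Or.inl h.2⟩)
    have hne' : ¬ (Even n ∧ d = 6 ∧ κ = 6 ∧ n = 20) := fun h => hR (Or.inl ⟨h.1, Or.inr h.2⟩)
    have hno : ¬ (Odd n ∧ Num.OddRange n d κ) := fun h => hR (Or.inr h)
    unfold Num.EvenRange at hne
    unfold Num.OddRange at hno
    rcases Nat.even_or_odd n with he | ho
    · obtain ⟨m, hm⟩ := id he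
      have hne1 := fun h => hne ⟨he, h⟩
      have hne2 := fun h => hne' ⟨he, h⟩
      rcases Nat.lt_or_ge d 10 with h10 | h10
      · have hd' : d = 4 ∨ d = 5 ∨ d = 6 ∨ d = 7 ∨ d = 8 ∨ d = 9 := by omega
        rcases hd' with h | h | h | h | h | h
        · have hk := k4 h
          by_contra hc
          exact hne1 (Or.inl ⟨h, hk, by omega⟩)
        · have hk := k5 h
          by_contra hc
          refine hne1 (Or.inr (Or.inl ⟨h, hk, ?_⟩))
          by_contra hlt
          exact hc (Or.inr (Or.inl ⟨h, by omega, by omega, he⟩))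
        · have hk := k6 h
          exfalso
          have : n ≠ 20 := fun h20 => hne2 ⟨h, hk, h20⟩
          exact hne1 (Or.inr (Or.inr (Or.inl ⟨h, hk, by omega⟩)))
        · have hk := k7 h
          by_contra hc
          exact hne1 (Or.inr (Or.inr (Or.inr (Or.inl ⟨h, hk, by omega⟩))))
        · have hk := k8 h
          exfalso
          exact hne1 (Or.inr (Or.inr (Or.inr (Or.inr (Or.inl ⟨h, hk, by omega⟩)))))
        · have hk := k9 h
          exfalso
          exact hne1 (Or.inr (Or.inr (Or.inr (Or.inr (Or.inr (Or.inl ⟨h, hk, by omega⟩))))))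
      · exfalso
        exact hne1 (Or.inr (Or.inr (Or.inr (Or.inr (Or.inr (Or.inr ⟨h10, k10 h10, hn'⟩))))))
    · obtain ⟨m, hm⟩ := id ho
      have hno1 := fun h => hno ⟨ho, h⟩
      have hde : Even d := by
        rcases Nat.even_mul.1 hev with h | h
        · exact absurd h (Nat.not_even_iff_odd.2 ho)
        · exact h
      obtain ⟨r, hr⟩ := hde
      rcases Nat.lt_or_ge d 10 with h10 | h10
      · have hd' : d = 4 ∨ d = 6 ∨ d = 8 := by omega
        rcases hd' with h | h | h
        · have hk := k4 h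
          by_contra hc
          exact hno1 (Or.inl ⟨h, hk, by omega⟩)
        · have hk := k6 h
          exfalso
          exact hno1 (Or.inr (Or.inl ⟨h, hk, by omega⟩))
        · have hk := k8 h
          exfalso
          exact hno1 (Or.inr (Or.inr (Or.inl ⟨h, hk, by omega⟩)))
      · exfalso
        exact hno1 (Or.inr (Or.inr (Or.inr ⟨h10, k10 h10, hn'⟩)))
  rcases hcases with ⟨rfl, h14, h22⟩ | ⟨rfl, h18, h20', hen⟩ | ⟨rfl, h⟩
  · have hn14 : n = 14 ∨ n = 15 ∨ n = 16 ∨ n = 17 ∨ n = 18 ∨ n = 19 ∨ n = 20 ∨ n = 21 ∨ n = 22 := by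
      omega
    rcases hn14 with h | h | h | h | h | h | h | h | h
    · exact SH.hasUPS_two_orbits hG hT (p := 7) (d := 4) (by norm_num)
        (by rw [Nat.card_eq_fintype_card]; exact h) (ncard_of_reg hreg) (by decide) (by norm_num)
        (by decide)
    · exact SH.hasUPS_three_orbits hG hT (p := 5) (Or.inl rfl)
        (by rw [Nat.card_eq_fintype_card]; exact h) (ncard_of_reg hreg)
    · exact hpp 2 4 Nat.prime_two (by rw [h]; norm_num)
    · exact hpp 17 1 (by norm_num) (by rw [h]; norm_num)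
    · exact hasUPS_card18 hG hT h hreg hcol
    · exact hpp 19 1 (by norm_num) (by rw [h]; norm_num)
    · exact SH.hasUPS_four_orbits hG hT (by rw [Nat.card_eq_fintype_card]; exact h)
        (ncard_of_reg hreg)
    · exact SH.hasUPS_three_orbits hG hT (p := 7) (Or.inr rfl)
        (by rw [Nat.card_eq_fintype_card]; exact h) (ncard_of_reg hreg)
    · exact SH.hasUPS_two_orbits hG hT (p := 11) (d := 4) (by norm_num)
        (by rw [Nat.card_eq_fintype_card]; exact h) (ncard_of_reg hreg) (by decide) (by norm_num)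
        (by decide)
  · obtain ⟨m, hm⟩ := hen
    have hn18 : n = 18 ∨ n = 20 := by omega
    rcases hn18 with h | h
    · exact W18.hasUPS_5_18 hG hT h hreg hTF ⟨x, y, hxy⟩
    · exact h520 V G hG hT hodd hTF ⟨x, y, hxy⟩ hreg h
  · exact SH.hasUPS_two_orbits_of_lt hG hT (p := 11) (d := 7) (by norm_num)
      (by rw [Nat.card_eq_fintype_card]; exact h) (ncard_of_reg hreg) (by norm_num)
      (by norm_num) ⟨x, y, hxy⟩

/-- **Assembly.** -/
theorem final_of (hNB : NBlock) (h520 : SmallCase 5 20)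
    (V : Type) [Finite V] (G : SimpleGraph V) (hG : G.Connected) (hT : VT G) : HasUPS G := by
  classical
  have : Fintype V := Fintype.ofFinite V
  by_cases hcomp : ∀ u w, u ≠ w → G.Adj u w
  · exact hasUPS_complete hcomp
  push Not at hcomp
  obtain ⟨u, w, huw, hnadj⟩ := hcomp
  -- twins
  obtain ⟨G', hle, hG', hT', hTF⟩ := exists_twinFree hG hT ⟨u, w, huw, hnadj⟩
  refine HasUPS.mono hle ?_
  have hnadj' : ¬ G'.Adj u w := fun h => hnadj (hle h)
  -- the valency
  obtain ⟨d, hdg⟩ : ∃ d : ℕ, ∀ v, UPS2.EC.dg G' v = d :=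
    ⟨UPS2.EC.dg G' u, fun v => UPS2.EC.dg_const hT' v u⟩
  have hreg := reg_of_dg hdg
  have hd2 := two_le_of_not_complete hG' hreg huw hnadj'
  -- small diameter
  by_cases hD : ∀ x y, G'.dist x y ≤ 3
  · exact UPS2.diam_three hG' hT' hD
  push Not at hD
  obtain ⟨x, y, hxy⟩ := hD
  have hdist : ∃ x y, 4 ≤ G'.dist x y := ⟨x, y, hxy⟩
  -- the valency
  rcases (by omega : d = 2 ∨ d = 3 ∨ 4 ≤ d) with rfl | rfl | hd4
  · exact hasUPS_of_two_regular hG' (ncard_of_reg hreg)
  · exact A3.cubic hG' hT' (degree_of_reg hreg)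
  · by_cases hbip : ∃ side : V → Bool, ∀ u v, G'.Adj u v → side u ≠ side v
    · obtain ⟨side, hside⟩ := hbip
      exact UPS3.bip_all hG' hT' side hside hd4 hdg
    · exact nonbip_of hNB h520 V G' hG' hT' hbip hTF hdist hd4 hreg

/-- the frozen statement from the assembly -/
theorem frozen_of (h : ∀ (V : Type) [Finite V] (G : SimpleGraph V), G.Connected → VT G → HasUPS G) :
    ∀ (V : Type) [Finite V] (G : SimpleGraph V),
      G.Connected →
      (∀ x y : V, ∃ φ : G ≃g G, φ x = y) →
      ∃ P : ∀ x y : V, G.Walk x y,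
        (∀ x y : V, x ≠ y → (P x y).IsPath) ∧
        ∃ c : ℕ, ∀ v : V,
          {p : V × V | p.1 ≠ p.2 ∧ v ∈ (P p.1 p.2).support}.ncard = c :=
  fun V _ G hG hT => h V G hG hT

end Pool.Agent.UPS.Asm
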