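import Pool.Agent.Lib.MP_876e19_co_ups.LevelPair

/-!
# Uniform path systems: one root, an integral flow down the levels and toggles in disjoint level
pairs (helper42, after helper33, TT876)

`flow_root`: `lev : V → ℕ` with `lev v = 0 ↔ v = x`, `F u w` units go from `u` to `w` (only along
edges with `lev w = lev u + 1`), every vertex `v ≠ x` keeps one unit.  `blk l` says that the levels
`l`, `l + 1` form a block; blocks are disjoint.  `E` is a set of edges `u w` inside blocks,
`lev w = lev u + 1`, such that some unit comes to `w` from another parent.  Then there are paths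
from `x` to all vertices such that `z` is visited `t z + deg_E z` times, `t z = ∑ u, F u z`.
-/

set_option autoImplicit false

namespace Pool.Agent.UPS2

open Finset Pool.Agent.UPS CircleSweep

variable {V S : Type*}

/-- a function with given fibre sizes -/
lemma exists_fibres {A K : Type*} [Fintype A] [Fintype K] [DecidableEq K] (m : K → ℕ)
    (h : Fintype.card A = ∑ k, m k) :
    ∃ f : A → K, ∀ k, (univ.filter fun a => f a = k).card = m k := by
  classical
  have h1 : Fintype.card A = Fintype.card (Σ k : K, Fin (m k)) := by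
    rw [Fintype.card_sigma, h]
    simp
  let φ := Fintype.equivOfCardEq h1
  refine ⟨fun a => (φ a).1, fun k => ?_⟩
  rw [← Fintype.card_subtype]
  have h2 : Fintype.card {a // (φ a).1 = k} = Fintype.card (Fin (m k)) := by
    refine Fintype.card_congr ?_
    refine (Equiv.subtypeEquiv (q := fun y : Σ k : K, Fin (m k) => y.1 = k) φ
      (fun a => Iff.rfl)).trans ?_
    refine ⟨fun y => Fin.cast (by rw [y.2]) y.1.2, fun i => ⟨⟨k, i⟩, rfl⟩, ?_, ?_⟩
    · rintro ⟨⟨k', i⟩, h⟩
      dsimp only at h
      subst h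
      rfl
    · intro i
      rfl
  rw [h2, Fintype.card_fin]

/-- choices with given multiplicities over all ends at the same time -/
lemma exists_choice {K : Type*} [Fintype S] [DecidableEq V] [Fintype K] [DecidableEq K]
    (e : S → V) (m : V → K → ℕ) (h : ∀ v, (univ.filter fun s => e s = v).card = ∑ k, m v k) :
    ∃ ch : S → K, ∀ v k, (univ.filter fun s => e s = v ∧ ch s = k).card = m v k := by
  classical
  have h1 : ∀ v, ∃ f : {s // e s = v} → K, ∀ k, (univ.filter fun a => f a = k).card = m v k := by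
    intro v
    apply exists_fibres
    rw [Fintype.card_subtype, h v]
  choose f hf using h1
  refine ⟨fun s => f (e s) ⟨s, rfl⟩, fun v k => ?_⟩
  rw [← hf v k]
  symm
  apply card_bij (fun (a : {s // e s = v}) _ => a.1)
  · rintro ⟨s, hs⟩ ha
    have h2 := (mem_filter.1 ha).2
    subst hs
    rw [mem_filter]
    exact ⟨mem_univ _, rfl, h2⟩
  · intro a _ b _ hab
    exact Subtype.ext hab
  · intro s hs
    obtain ⟨_, h2, h3⟩ := mem_filter.1 hs
    subst h2
    exact ⟨⟨s, rfl⟩, mem_filter.2 ⟨mem_univ _, h3⟩, rfl⟩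

/-- the state after the levels `≤ l` -/
structure Stage [Fintype S] [DecidableEq V] (G : SimpleGraph V) (x : V) (lev : V → ℕ)
    (t : V → ℕ) (blk : ℕ → Prop) (E : Finset (V × V)) (l : ℕ) (e : S → V)
    (p : ∀ s : S, G.Walk x (e s)) : Prop where
  path : ∀ s, (p s).IsPath
  low : ∀ v, lev v < l → v ≠ x → (univ.filter fun s => e s = v).card = 1
  top : ∀ v, lev v = l → (univ.filter fun s => e s = v).card = t v
  lev_le : ∀ s, lev (e s) ≤ l
  ne : l ≠ 0 → ∀ s, e s ≠ x
  supp : ∀ s, ∀ z ∈ (p s).support, lev z ≤ l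
  free : (∀ k, k + 1 = l → ¬ blk k) → ∀ s, lev (e s) = l → ∀ z ∈ (p s).support,
    lev z = l → z = e s
  vis : ∀ z, z ≠ x → lev z ≤ l → visits p z = t z +
    (E.filter fun d => lev d.1 < l ∧ (z = d.1 ∨ z = d.2)).card
  one : ∀ s, lev (e s) = 1 → (∀ d ∈ E, d.1 ≠ e s ∧ d.2 ≠ e s) →
    ∀ z ∈ (p s).support, z = x ∨ z = e s

lemma stage_step [Fintype V] [DecidableEq V] [Fintype S] [DecidableEq S] {G : SimpleGraph V}
    {x : V} {lev : V → ℕ} (hlev : ∀ v, lev v = 0 ↔ v = x) (F : V → V → ℕ)
    (hF : ∀ u w, F u w ≠ 0 → G.Adj u w ∧ lev w = lev u + 1)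
    {t : V → ℕ} (hin : ∀ w, w ≠ x → ∑ u, F u w = t w)
    (hout : ∀ u, t u = (if u = x then 0 else 1) + ∑ w, F u w)
    {blk : ℕ → Prop} (hblk : ∀ l, blk l → ¬ blk (l + 1)) {E : Finset (V × V)}
    (hE : ∀ d ∈ E, d.1 ≠ x ∧ G.Adj d.1 d.2 ∧ lev d.2 = lev d.1 + 1 ∧ blk (lev d.1) ∧
      F d.1 d.2 < t d.2)
    {l : ℕ} {e : S → V} {p : ∀ s, G.Walk x (e s)} (h : Stage G x lev t blk E l e p) :
    ∃ (e' : S → V) (p' : ∀ s, G.Walk x (e' s)), Stage G x lev t blk E (l + 1) e' p' := by
  classical
  let m : V → Option V → ℕ := fun v k => k.elim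
    (if lev v = l then (if v = x then 0 else 1) else (univ.filter fun s => e s = v).card)
    (fun w => if lev v = l then F v w else 0)
  have hm0 : ∀ v, m v none = if lev v = l then (if v = x then 0 else 1) else
    (univ.filter fun s => e s = v).card := fun _ => rfl
  have hm1 : ∀ v w, m v (some w) = if lev v = l then F v w else 0 := fun _ _ => rfl
  obtain ⟨ch, hch⟩ := exists_choice (K := Option V) e m (by
    intro v
    rw [Fintype.sum_option, hm0]
    simp only [hm1]
    by_cases hv : lev v = l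
    · simp only [hv, if_true]
      rw [h.top v hv, hout v]
    · simp [hv])
  have hsome : ∀ s w, ch s = some w → lev (e s) = l ∧ G.Adj (e s) w ∧ lev w = l + 1 := by
    intro s w hs
    have h1 : m (e s) (some w) ≠ 0 := by
      rw [← hch]
      exact card_ne_zero_of_mem (mem_filter.2 ⟨mem_univ s, rfl, hs⟩)
    rw [hm1] at h1
    by_cases h2 : lev (e s) = l
    · rw [if_pos h2] at h1
      obtain ⟨h3, h4⟩ := hF _ _ h1
      exact ⟨h2, h3, by rw [h4, h2]⟩
    · rw [if_neg h2] at h1
      exact absurd rfl h1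
  let e' : S → V := fun s => (ch s).getD (e s)
  have he0 : ∀ s, ch s = none → e' s = e s := by
    intro s hs
    change (ch s).getD (e s) = e s
    rw [hs]; rfl
  have he1 : ∀ s w, ch s = some w → e' s = w := by
    intro s w hs
    change (ch s).getD (e s) = w
    rw [hs]; rfl
  have hcase : ∀ s, (ch s = none ∧ e' s = e s ∧ lev (e' s) ≤ l) ∨
      (ch s = some (e' s) ∧ lev (e s) = l ∧ G.Adj (e s) (e' s) ∧ lev (e' s) = l + 1) := by
    intro s
    rcases hs : ch s with _ | w
    · exact Or.inl ⟨rfl, he0 s hs, by rw [he0 s hs]; exact h.lev_le s⟩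
    · refine Or.inr ?_
      rw [he1 s w hs]
      exact ⟨rfl, hsome s w hs⟩
  have hext : ∀ s, ∃ p' : G.Walk x (e' s), p'.IsPath ∧
      ∀ z, z ∈ p'.support ↔ z ∈ (p s).support ∨ z = e' s := by
    intro s
    rcases hcase s with ⟨h1, h2, _⟩ | ⟨h1, h2, h3, h4⟩
    · rw [h2]
      refine ⟨p s, h.path s, fun z => ⟨Or.inl, ?_⟩⟩
      rintro (h3 | h3)
      · exact h3
      · rw [h3]; exact (p s).end_mem_support
    · refine ⟨(p s).concat h3, (h.path s).concat (fun h5 => ?_) h3, fun z => ?_⟩
      · have := h.supp s _ h5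
        omega
      · rw [SimpleGraph.Walk.support_concat, List.mem_append, List.mem_singleton]
  choose p0 hp0 hp0s using hext
  -- fibres of the new ends
  have hfib_low : ∀ v, lev v ≤ l → (univ.filter fun s => e' s = v).card = m v none := by
    intro v hv
    rw [← hch]
    congr 1
    ext s
    simp only [mem_filter, mem_univ, true_and]
    rcases hcase s with ⟨h1, h2, _⟩ | ⟨h1, h2, h3, h4⟩
    · rw [h1, h2]; simp
    · constructor
      · intro h5
        rw [h5] at h4
        omega
      · intro h5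
        rw [h1] at h5
        exact absurd h5.2 (by simp)
  have hfib_some : ∀ v, lev v = l + 1 → ∀ s, e' s = v ↔ ch s = some v := by
    intro v hv s
    rcases hcase s with ⟨h1, h2, h3⟩ | ⟨h1, h2, h3, h4⟩
    · constructor
      · intro h5
        rw [h5] at h3
        omega
      · intro h5
        rw [h1] at h5
        exact absurd h5 (by simp)
    · rw [h1]
      simp
  have hfib_top : ∀ v, lev v = l + 1 → (univ.filter fun s => e' s = v).card = t v := by
    intro v hv
    have hvx : v ≠ x := by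
      intro h1
      rw [(hlev v).2 h1] at hv
      omega
    rw [← hin v hvx]
    have h1 : (univ.filter fun s => e' s = v) =
        (univ : Finset V).biUnion fun u => univ.filter fun s => e s = u ∧ ch s = some v := by
      ext s
      simp only [mem_filter, mem_univ, true_and, mem_biUnion]
      rw [hfib_some v hv]
      constructor
      · exact fun h2 => ⟨e s, rfl, h2⟩
      · rintro ⟨_, _, h2⟩; exact h2
    rw [h1, card_biUnion]
    · refine sum_congr rfl fun u _ => ?_
      rw [hch, hm1]
      by_cases h2 : lev u = l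
      · rw [if_pos h2]
      · rw [if_neg h2]
        by_contra h3
        have := (hF u v fun h4 => h3 h4.symm).2
        omega
    · intro u _ u' _ huu
      refine disjoint_left.2 ?_
      intro s h2 h3
      exact huu ((mem_filter.1 h2).2.1.symm.trans (mem_filter.1 h3).2.1)
  have hne' : ∀ s, e' s ≠ x := by
    intro s hs
    rcases hcase s with ⟨h1, h2, h3⟩ | ⟨h1, h2, h3, h4⟩
    · by_cases hl : l = 0
      · have h5 : m (e s) none ≠ 0 := by
          rw [← hch]
          exact card_ne_zero_of_mem (mem_filter.2 ⟨mem_univ s, rfl, h1⟩)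
        rw [hm0, ← h2, hs, if_pos ((hlev x).2 rfl |>.trans hl.symm), if_pos rfl] at h5
        exact h5 rfl
      · exact h.ne hl s (h2 ▸ hs)
    · rw [hs, (hlev x).2 rfl] at h4
      omega
  have hlow' : ∀ v, lev v < l + 1 → v ≠ x → (univ.filter fun s => e' s = v).card = 1 := by
    intro v hv hvx
    rw [hfib_low v (by omega), hm0]
    by_cases h1 : lev v = l
    · rw [if_pos h1, if_neg hvx]
    · rw [if_neg h1]
      exact h.low v (by omega) hvx
  have hle' : ∀ s, lev (e' s) ≤ l + 1 := by
    intro s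
    rcases hcase s with ⟨h1, h2, h3⟩ | ⟨h1, h2, h3, h4⟩
    · omega
    · omega
  have hone' : ∀ s, lev (e' s) = 1 → (∀ d ∈ E, d.1 ≠ e' s ∧ d.2 ≠ e' s) →
      ∀ z ∈ (p0 s).support, z = x ∨ z = e' s := by
    intro s hs hE' z hz
    rcases (hp0s s z).1 hz with h1 | h1
    · rcases hcase s with ⟨_, h2, _⟩ | ⟨_, h2, _, h3⟩
      · rw [h2] at hs hE' ⊢
        exact h.one s hs hE' z h1
      · left
        have h4 := h.supp s z h1
        exact (hlev z).1 (by omega)
    · exact Or.inr h1
  have hsupp' : ∀ s, ∀ z ∈ (p0 s).support, lev z ≤ l + 1 := by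
    intro s z hz
    rcases (hp0s s z).1 hz with h1 | h1
    · have := h.supp s z h1; omega
    · rw [h1]; exact hle' s
  have hvis' : ∀ z, z ≠ x → lev z ≤ l + 1 → visits p0 z = t z +
      (E.filter fun d => lev d.1 < l ∧ (z = d.1 ∨ z = d.2)).card := by
    intro z hzx hz
    by_cases h1 : lev z ≤ l
    · rw [← h.vis z hzx h1, visits, visits]
      congr 1
      apply filter_congr
      intro s _
      rw [hp0s]
      constructor
      · rintro (h2 | h2)
        · exact h2
        · rcases hcase s with ⟨_, h3, _⟩ | ⟨_, _, _, h3⟩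
          · rw [h2, h3]; exact (p s).end_mem_support
          · rw [h2, h3] at h1; omega
      · exact Or.inl
    · have h2 : lev z = l + 1 := by omega
      have h3 : (E.filter fun d => lev d.1 < l ∧ (z = d.1 ∨ z = d.2)) = ∅ := by
        rw [filter_eq_empty_iff]
        rintro d hd ⟨h4, h5 | h5⟩
        · rw [h5] at h2; omega
        · have := (hE d hd).2.2.1
          rw [← h5] at this
          omega
      rw [h3, card_empty, add_zero, ← hfib_top z h2, visits]
      congr 1
      apply filter_congr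
      intro s _
      rw [hp0s]
      constructor
      · rintro (h4 | h4)
        · have := h.supp s z h4; omega
        · exact h4.symm
      · exact fun h4 => Or.inr h4.symm
  have hsplit : ∀ z, (E.filter fun d => lev d.1 < l + 1 ∧ (z = d.1 ∨ z = d.2)).card =
      (E.filter fun d => lev d.1 < l ∧ (z = d.1 ∨ z = d.2)).card +
      ((E.filter fun d => lev d.1 = l).filter fun d => z = d.1 ∨ z = d.2).card := by
    intro z
    rw [filter_filter, ← card_union_of_disjoint]
    · congr 1
      ext d
      simp only [mem_union, mem_filter]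
      constructor
      · rintro ⟨h1, h2, h3⟩
        by_cases h4 : lev d.1 = l
        · exact Or.inr ⟨h1, h4, h3⟩
        · exact Or.inl ⟨h1, by omega, h3⟩
      · rintro (⟨h1, h2, h3⟩ | ⟨h1, h2, h3⟩)
        · exact ⟨h1, by omega, h3⟩
        · exact ⟨h1, by omega, h3⟩
    · rw [disjoint_left]
      intro d h1 h2
      have h3 := (mem_filter.1 h1).2.1
      have h4 := (mem_filter.1 h2).2.1
      omega
  by_cases hb : ∃ d ∈ E, lev d.1 = l
  · obtain ⟨d0, hd0, hd0l⟩ := hb
    obtain ⟨hd0x, _, _, hbl, _⟩ := hE d0 hd0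
    rw [hd0l] at hbl
    have hl0 : l ≠ 0 := by
      intro h1
      rw [h1] at hd0l
      exact hd0x ((hlev _).1 hd0l)
    have hfree := h.free (fun k hk hk' => hblk k hk' (hk ▸ hbl))
    obtain ⟨q, hq, hqo, hqs, hqv⟩ := level_pair' x e' p0 hp0
      (univ.filter fun v => lev v = l) (univ.filter fun v => lev v = l + 1)
      (by
        rw [disjoint_left]
        intro v h1 h2
        have h3 := (mem_filter.1 h1).2
        have h4 := (mem_filter.1 h2).2
        omega)
      (by
        intro u hu
        have h1 := (mem_filter.1 hu).2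
        have h2 : u ≠ x := by
          intro h3
          rw [(hlev u).2 h3] at h1
          exact hl0 h1.symm
        have h3 := hlow' u (by omega) h2
        obtain ⟨s, hs⟩ := card_pos.1 (by rw [h3]; exact Nat.one_pos)
        exact ⟨s, (mem_filter.1 hs).2⟩)
      e
      (by
        intro s hs
        have h1 := (mem_filter.1 hs).2
        rcases hcase s with ⟨_, _, h3⟩ | ⟨_, h2, _, _⟩
        · omega
        · exact mem_filter.2 ⟨mem_univ _, h2⟩)
      (by
        intro s hs z hz hz'
        have h1 := (mem_filter.1 hs).2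
        rcases hcase s with ⟨h2, h3, _⟩ | ⟨_, _, _, h3⟩
        · have h4 : z ∈ (p s).support := by
            rcases (hp0s s z).1 hz with h5 | h5
            · exact h5
            · rw [h5, h3]; exact (p s).end_mem_support
          have h5 : lev z = l := by
            have := h.supp s z h4
            rcases hz' with h6 | h6
            · exact (mem_filter.1 h6).2
            · have := (mem_filter.1 h6).2
              omega
          rw [h3]
          exact hfree s (by rw [← h3]; exact h1) z h4 h5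
        · omega)
      (by
        intro s hs z hz hz'
        have h1 := (mem_filter.1 hs).2
        rcases hcase s with ⟨_, _, h3⟩ | ⟨_, h2, _, _⟩
        · omega
        · rcases (hp0s s z).1 hz with h5 | h5
          · refine Or.inr (hfree s h2 z h5 ?_)
            have := h.supp s z h5
            rcases hz' with h6 | h6
            · exact (mem_filter.1 h6).2
            · have := (mem_filter.1 h6).2
              omega
          · exact Or.inl h5)
      (E.filter fun d => lev d.1 = l)
      (by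
        intro d hd
        obtain ⟨hdE, hdl⟩ := mem_filter.1 hd
        obtain ⟨h1, h2, h3, h4, h5⟩ := hE d hdE
        rw [hdl] at h3
        refine ⟨mem_filter.2 ⟨mem_univ _, hdl⟩, mem_filter.2 ⟨mem_univ _, h3⟩, h2, ?_⟩
        by_contra h6
        push Not at h6
        have h7 : (univ.filter fun s => e' s = d.2) ⊆
            univ.filter fun s => e s = d.1 ∧ ch s = some d.2 := by
          intro s hs
          have h8 := (mem_filter.1 hs).2
          exact mem_filter.2 ⟨mem_univ _, h6 s h8, (hfib_some _ h3 s).1 h8⟩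
        have h8 := card_le_card h7
        rw [hfib_top _ h3, hch, hm1, if_pos hdl] at h8
        omega)
    refine ⟨e', q, ⟨hq, hlow', hfib_top, hle', fun _ => hne', ?_, ?_, ?_, ?_⟩⟩
    rotate_right
    · intro s hs hE' z hz
      rw [hqo s fun d hd => hE' d (mem_filter.1 hd).1] at hz
      exact hone' s hs hE' z hz
    · intro s z hz
      obtain ⟨s', hs'⟩ := hqs s z hz
      exact hsupp' s' z hs'
    · intro hk
      exact absurd hbl (hk l rfl)
    · intro z hzx hz
      rw [hqv z, hvis' z hzx hz, hsplit z, add_assoc]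
  · refine ⟨e', p0, ⟨hp0, hlow', hfib_top, hle', fun _ => hne', hsupp', ?_, ?_, hone'⟩⟩
    · intro _ s hs z hz hzl
      rcases (hp0s s z).1 hz with h1 | h1
      · have := h.supp s z h1
        omega
      · exact h1
    · intro z hzx hz
      have h1 : (E.filter fun d => lev d.1 = l) = ∅ := by
        rw [filter_eq_empty_iff]
        exact fun d hd hdl => hb ⟨d, hd, hdl⟩
      rw [hvis' z hzx hz, hsplit z, h1, filter_empty, card_empty, add_zero]

/-- **One root**: an integral flow down the levels, toggles in disjoint level pairs; the paths to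
untouched vertices of level one are single edges. -/
theorem flow_root' [Fintype V] [DecidableEq V] {G : SimpleGraph V}
    {x : V} {lev : V → ℕ} (hlev : ∀ v, lev v = 0 ↔ v = x) (F : V → V → ℕ)
    (hF : ∀ u w, F u w ≠ 0 → G.Adj u w ∧ lev w = lev u + 1)
    {t : V → ℕ} (hin : ∀ w, w ≠ x → ∑ u, F u w = t w)
    (hout : ∀ u, u ≠ x → t u = 1 + ∑ w, F u w)
    {blk : ℕ → Prop} (hblk : ∀ l, blk l → ¬ blk (l + 1)) {E : Finset (V × V)}
    (hE : ∀ d ∈ E, d.1 ≠ x ∧ G.Adj d.1 d.2 ∧ lev d.2 = lev d.1 + 1 ∧ blk (lev d.1) ∧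
      F d.1 d.2 < t d.2) :
    ∃ q : ∀ u, G.Walk x u, (∀ u, x ≠ u → (q u).IsPath) ∧
      (∀ z, z ≠ x → (univ.filter fun u => x ≠ u ∧ z ∈ (q u).support).card =
        t z + (E.filter fun d => z = d.1 ∨ z = d.2).card) ∧
      ∀ u, lev u = 1 → (∀ d ∈ E, d.1 ≠ u ∧ d.2 ≠ u) → ∀ z ∈ (q u).support, z = x ∨ z = u := by
  classical
  let t' : V → ℕ := fun u => if u = x then ∑ w, F x w else t u
  have ht' : ∀ u, u ≠ x → t' u = t u := fun u hu => if_neg hu
  have hstage : ∀ l : ℕ, ∃ (e : Fin (∑ w, F x w) → V) (p : ∀ s, G.Walk x (e s)),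
      Stage G x lev t' blk E l e p := by
    intro l
    induction l with
    | zero =>
      refine ⟨fun _ => x, fun _ => SimpleGraph.Walk.nil, ⟨fun _ => SimpleGraph.Walk.IsPath.nil,
        ?_, ?_, ?_, ?_, ?_, ?_, ?_, ?_⟩⟩
      rotate_right
      · intro s hs
        rw [(hlev x).2 rfl] at hs
        exact absurd hs (by omega)
      · intro v hv; omega
      · intro v hv
        have hv' := (hlev v).1 hv
        subst hv'
        change _ = if v = v then _ else _
        rw [if_pos rfl]
        simp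
      · intro s
        exact ((hlev x).2 rfl).le
      · intro h; exact absurd rfl h
      · intro s z hz
        rw [SimpleGraph.Walk.support_nil, List.mem_singleton] at hz
        rw [hz]
        exact ((hlev x).2 rfl).le
      · intro _ s _ z hz _
        rwa [SimpleGraph.Walk.support_nil, List.mem_singleton] at hz
      · intro z hzx hz
        exact absurd ((hlev z).1 (by omega)) hzx
    | succ l ih =>
      obtain ⟨e, p, h⟩ := ih
      refine stage_step hlev F hF (fun w hw => by rw [hin w hw, ht' w hw]) ?_ hblk ?_ h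
      · intro u
        by_cases hu : u = x
        · subst hu
          change (if u = u then _ else _) = _
          simp
        · rw [ht' u hu, if_neg hu, hout u hu]
      · intro d hd
        obtain ⟨h1, h2, h3, h4, h5⟩ := hE d hd
        refine ⟨h1, h2, h3, h4, ?_⟩
        rw [ht' d.2]
        · exact h5
        · intro h6
          rw [(hlev d.2).2 h6] at h3
          omega
  obtain ⟨L, hL⟩ : ∃ L : ℕ, ∀ v, lev v < L :=
    ⟨(univ.sup lev) + 1, fun v => Nat.lt_succ_of_le (le_sup (mem_univ v))⟩
  have hL0 : L ≠ 0 := fun h => by have := hL x; omega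
  obtain ⟨e, p, h⟩ := hstage L
  have hs : ∀ u, u ≠ x → ∃ s, e s = u ∧ ∀ s', e s' = u → s' = s := by
    intro u hu
    obtain ⟨s, hs⟩ := card_eq_one.1 (h.low u (hL u) hu)
    refine ⟨s, ?_, fun s' hs' => ?_⟩
    · have : s ∈ univ.filter fun s => e s = u := by rw [hs]; exact mem_singleton_self _
      exact (mem_filter.1 this).2
    · have : s' ∈ univ.filter fun s => e s = u := mem_filter.2 ⟨mem_univ _, hs'⟩
      rw [hs] at this
      exact mem_singleton.1 this
  have hq : ∀ u, ∃ q : G.Walk x u, (x ≠ u → q.IsPath) ∧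
      ∀ z, ∀ s, e s = u → (z ∈ q.support ↔ z ∈ (p s).support) := by
    intro u
    by_cases hu : u = x
    · subst hu
      exact ⟨SimpleGraph.Walk.nil, fun h => absurd rfl h, fun z s hs => absurd hs (h.ne hL0 s)⟩
    · obtain ⟨s, h1, h2⟩ := hs u hu
      subst h1
      refine ⟨p s, fun _ => h.path s, fun z s' hs' => ?_⟩
      rw [h2 s' hs']
  choose q hq1 hq2 using hq
  refine ⟨q, hq1, fun z hz => ?_, ?_⟩
  rotate_right
  · intro u hu hE' z hz
    obtain ⟨s, h4, _⟩ := hs u (fun h5 => by rw [(hlev u).2 h5] at hu; omega)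
    rw [← h4]
    exact h.one s (by rw [h4]; exact hu) (by rw [h4]; exact hE') z ((hq2 u z s h4).1 hz)
  have h1 : (univ.filter fun u => x ≠ u ∧ z ∈ (q u).support).card = visits p z := by
    symm
    apply card_bij (fun s _ => e s)
    · intro s hs'
      rw [mem_filter]
      exact ⟨mem_univ _, (h.ne hL0 s).symm, (hq2 _ z s rfl).2 (mem_filter.1 hs').2⟩
    · intro s _ s' _ hss
      obtain ⟨s0, _, h2⟩ := hs (e s) (h.ne hL0 s)
      rw [h2 s rfl, h2 s' hss.symm]
    · intro u hu
      obtain ⟨_, h2, h3⟩ := mem_filter.1 hu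
      obtain ⟨s, h4, _⟩ := hs u h2.symm
      exact ⟨s, mem_filter.2 ⟨mem_univ _, (hq2 u z s h4).1 h3⟩, h4⟩
  rw [h1, h.vis z hz (hL z).le, ht' z hz]
  congr 2
  apply filter_congr
  intro d _
  constructor
  · exact fun h2 => h2.2
  · exact fun h2 => ⟨hL _, h2⟩

/-- **One root**: an integral flow down the levels, toggles in disjoint level pairs. -/
theorem flow_root [Fintype V] [DecidableEq V] {G : SimpleGraph V}
    {x : V} {lev : V → ℕ} (hlev : ∀ v, lev v = 0 ↔ v = x) (F : V → V → ℕ)
    (hF : ∀ u w, F u w ≠ 0 → G.Adj u w ∧ lev w = lev u + 1)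
    {t : V → ℕ} (hin : ∀ w, w ≠ x → ∑ u, F u w = t w)
    (hout : ∀ u, u ≠ x → t u = 1 + ∑ w, F u w)
    {blk : ℕ → Prop} (hblk : ∀ l, blk l → ¬ blk (l + 1)) {E : Finset (V × V)}
    (hE : ∀ d ∈ E, d.1 ≠ x ∧ G.Adj d.1 d.2 ∧ lev d.2 = lev d.1 + 1 ∧ blk (lev d.1) ∧
      F d.1 d.2 < t d.2) :
    ∃ q : ∀ u, G.Walk x u, (∀ u, x ≠ u → (q u).IsPath) ∧
      ∀ z, z ≠ x → (univ.filter fun u => x ≠ u ∧ z ∈ (q u).support).card =
        t z + (E.filter fun d => z = d.1 ∨ z = d.2).card := by
  obtain ⟨q, h1, h2, _⟩ := flow_root' hlev F hF hin hout hblk hE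
  exact ⟨q, h1, h2⟩

/-- **One root**, base paths given by ancestors: `A l y` is the vertex on level `l` of the base
path to `y`.  `E` is a set of edges inside disjoint level pairs such that some base path comes to
the lower end from another parent. -/
theorem anc_root' [Fintype V] [DecidableEq V] {G : SimpleGraph V}
    {x : V} {lev : V → ℕ} (hlev : ∀ v, lev v = 0 ↔ v = x) (A : ℕ → V → V)
    (hAself : ∀ y, A (lev y) y = y) (hAlev : ∀ y l, l ≤ lev y → lev (A l y) = l)
    (hAadj : ∀ y l, l < lev y → G.Adj (A l y) (A (l + 1) y))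
    {blk : ℕ → Prop} (hblk : ∀ l, blk l → ¬ blk (l + 1)) {E : Finset (V × V)}
    (hE : ∀ d ∈ E, d.1 ≠ x ∧ G.Adj d.1 d.2 ∧ lev d.2 = lev d.1 + 1 ∧ blk (lev d.1) ∧
      ∃ y, lev d.2 ≤ lev y ∧ A (lev d.2) y = d.2 ∧ A (lev d.1) y ≠ d.1) :
    ∃ q : ∀ u, G.Walk x u, (∀ u, x ≠ u → (q u).IsPath) ∧
      (∀ z, z ≠ x → (univ.filter fun u => x ≠ u ∧ z ∈ (q u).support).card =
        (univ.filter fun y => lev z ≤ lev y ∧ A (lev z) y = z).card +
          (E.filter fun d => z = d.1 ∨ z = d.2).card) ∧
      ∀ u, lev u = 1 → (∀ d ∈ E, d.1 ≠ u ∧ d.2 ≠ u) → ∀ z ∈ (q u).support, z = x ∨ z = u := by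
  classical
  let F : V → V → ℕ := fun a b => (univ.filter fun y => lev a + 1 ≤ lev y ∧ A (lev a) y = a ∧
    A (lev a + 1) y = b).card
  let t : V → ℕ := fun z => (univ.filter fun y => lev z ≤ lev y ∧ A (lev z) y = z).card
  have hFmem : ∀ a b, F a b ≠ 0 → ∃ y, lev a + 1 ≤ lev y ∧ A (lev a) y = a ∧
      A (lev a + 1) y = b := by
    intro a b h
    obtain ⟨y, hy⟩ := card_pos.1 (Nat.pos_of_ne_zero h)
    exact ⟨y, (mem_filter.1 hy).2⟩
  refine flow_root' hlev F (t := t) ?_ ?_ ?_ hblk ?_
  · intro a b h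
    obtain ⟨y, h1, h2, h3⟩ := hFmem a b h
    have h4 := hAadj y (lev a) h1
    rw [h2, h3] at h4
    refine ⟨h4, ?_⟩
    rw [← h3, hAlev y _ h1]
  · intro w hw
    have hw0 : lev w ≠ 0 := fun h => hw ((hlev w).1 h)
    have h1 : (univ.filter fun y => lev w ≤ lev y ∧ A (lev w) y = w) =
        (univ : Finset V).biUnion fun a => univ.filter fun y => lev a + 1 ≤ lev y ∧
          A (lev a) y = a ∧ A (lev a + 1) y = w := by
      ext y
      simp only [mem_filter, mem_univ, true_and, mem_biUnion]
      constructor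
      · rintro ⟨h2, h3⟩
        refine ⟨A (lev w - 1) y, ?_⟩
        rw [hAlev y (lev w - 1) (by omega), Nat.sub_add_cancel (by omega)]
        exact ⟨h2, rfl, h3⟩
      · rintro ⟨a, h2, h3, h4⟩
        have h5 : lev w = lev a + 1 := by rw [← h4, hAlev y _ h2]
        rw [h5]
        exact ⟨h2, h4⟩
    change ∑ a, F a w = (univ.filter fun y => lev w ≤ lev y ∧ A (lev w) y = w).card
    rw [h1, card_biUnion]
    intro a _ a' _ haa
    refine disjoint_left.2 ?_
    intro y h2 h3
    obtain ⟨_, h4, h5, h6⟩ := mem_filter.1 h2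
    obtain ⟨_, h7, h8, h9⟩ := mem_filter.1 h3
    have h10 : lev w = lev a + 1 := by rw [← h6, hAlev y _ h4]
    have h11 : lev w = lev a' + 1 := by rw [← h9, hAlev y _ h7]
    have h12 : lev a = lev a' := by omega
    rw [h12, h8] at h5
    exact haa h5.symm
  · intro a ha
    have h1 : (univ.filter fun y => lev a ≤ lev y ∧ A (lev a) y = a) =
        insert a ((univ : Finset V).biUnion fun b => univ.filter fun y => lev a + 1 ≤ lev y ∧
          A (lev a) y = a ∧ A (lev a + 1) y = b) := by
      ext y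
      simp only [mem_filter, mem_univ, true_and, mem_biUnion, mem_insert]
      constructor
      · rintro ⟨h2, h3⟩
        by_cases h4 : lev y = lev a
        · left
          rw [← h4, hAself y] at h3
          exact h3
        · exact Or.inr ⟨A (lev a + 1) y, by omega, h3, rfl⟩
      · rintro (rfl | ⟨b, h2, h3, h4⟩)
        · exact ⟨le_rfl, hAself y⟩
        · exact ⟨by omega, h3⟩
    change (univ.filter fun y => lev a ≤ lev y ∧ A (lev a) y = a).card = 1 + ∑ b, F a b
    rw [h1, card_insert_of_notMem, card_biUnion, add_comm]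
    · intro b _ b' _ hbb
      refine disjoint_left.2 ?_
      intro y h2 h3
      exact hbb ((mem_filter.1 h2).2.2.2.symm.trans (mem_filter.1 h3).2.2.2)
    · rw [mem_biUnion]
      rintro ⟨b, _, h2⟩
      have := (mem_filter.1 h2).2.1
      omega
  · intro d hd
    obtain ⟨h1, h2, h3, h4, y, h5, h6, h7⟩ := hE d hd
    refine ⟨h1, h2, h3, h4, ?_⟩
    apply card_lt_card
    rw [ssubset_iff_of_subset]
    · refine ⟨y, mem_filter.2 ⟨mem_univ _, h5, h6⟩, fun h8 => h7 (mem_filter.1 h8).2.2.1⟩
    · intro y' hy'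
      obtain ⟨_, h8, h9, h10⟩ := mem_filter.1 hy'
      rw [mem_filter, h3]
      exact ⟨mem_univ _, h8, h10⟩

/-- `anc_root'` without the clause about untouched vertices. -/
theorem anc_root [Fintype V] [DecidableEq V] {G : SimpleGraph V}
    {x : V} {lev : V → ℕ} (hlev : ∀ v, lev v = 0 ↔ v = x) (A : ℕ → V → V)
    (hAself : ∀ y, A (lev y) y = y) (hAlev : ∀ y l, l ≤ lev y → lev (A l y) = l)
    (hAadj : ∀ y l, l < lev y → G.Adj (A l y) (A (l + 1) y))
    {blk : ℕ → Prop} (hblk : ∀ l, blk l → ¬ blk (l + 1)) {E : Finset (V × V)}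
    (hE : ∀ d ∈ E, d.1 ≠ x ∧ G.Adj d.1 d.2 ∧ lev d.2 = lev d.1 + 1 ∧ blk (lev d.1) ∧
      ∃ y, lev d.2 ≤ lev y ∧ A (lev d.2) y = d.2 ∧ A (lev d.1) y ≠ d.1) :
    ∃ q : ∀ u, G.Walk x u, (∀ u, x ≠ u → (q u).IsPath) ∧
      ∀ z, z ≠ x → (univ.filter fun u => x ≠ u ∧ z ∈ (q u).support).card =
        (univ.filter fun y => lev z ≤ lev y ∧ A (lev z) y = z).card +
          (E.filter fun d => z = d.1 ∨ z = d.2).card := by
  obtain ⟨q, h1, h2, _⟩ := anc_root' hlev A hAself hAlev hAadj hblk hE
  exact ⟨q, h1, h2⟩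

end Pool.Agent.UPS2
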