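import Pool.Agent.Lib.MP_876e19_co_ups.DoubleCover
import Pool.Agent.Lib.MP_876e19_co_ups.InvGsw

/-!
# The parity gadget (MP_876e19_co, helper76)

In a graph with an odd closed walk take a walk of even length between two adjacent vertices, as
short as possible over all adjacent pairs.  It is a path without chords at its ends.  Replacing one
edge path by it changes the parity of the sum of the loads and every other count by very little.
-/

set_option autoImplicit false

namespace Pool.Agent.UPS.Gad

open Finset

variable {V : Type*} {G : SimpleGraph V}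

lemma sub_walk {u w : V} (Q : G.Walk u w) {i j : ℕ} (hij : i ≤ j) (hj : j ≤ Q.length) :
    ∃ r : G.Walk (Q.getVert i) (Q.getVert j), r.length = j - i := by
  refine ⟨((Q.drop i).take (j - i)).copy rfl (by
    rw [SimpleGraph.Walk.drop_getVert]; congr 1; omega), ?_⟩
  rw [SimpleGraph.Walk.length_copy, SimpleGraph.Walk.take_length, SimpleGraph.Walk.drop_length]
  omega

lemma exists_even (hodd : UPS2.EC.OddW G) :
    ∃ L : ℕ, Even L ∧ ∃ u w, G.Adj u w ∧ ∃ p : G.Walk u w, p.length = L := by
  obtain ⟨v, p, hp⟩ := hodd
  cases p with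
  | nil => simp at hp
  | cons h q =>
    rw [SimpleGraph.Walk.length_cons] at hp
    refine ⟨q.length, ?_, _, _, h.symm, q, rfl⟩
    rcases Nat.even_or_odd q.length with h1 | h1
    · exact h1
    · exact absurd hp (by rw [Nat.not_odd_iff_even]; exact h1.add_one)

/-- **the gadget path** -/
theorem exists_gadget (hodd : UPS2.EC.OddW G) :
    ∃ (u w : V) (Q : G.Walk u w), G.Adj u w ∧ Even Q.length ∧ 2 ≤ Q.length ∧ Q.IsPath ∧
      (∀ b ∈ Q.support, G.Adj u b → b = w ∨ b = Q.getVert 1) ∧
      (∀ b ∈ Q.support, G.Adj b w → b = u ∨ b = Q.getVert (Q.length - 1)) := by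
  classical
  have hex := exists_even hodd
  obtain ⟨hL, u, w, huw, Q, hQ⟩ := Nat.find_spec hex
  have hmin : ∀ {a b : V} (p : G.Walk a b), G.Adj a b → Even p.length → Q.length ≤ p.length := by
    intro a b p hab hp
    rw [hQ]
    exact Nat.find_min' hex ⟨hp, a, b, hab, p, rfl⟩
  rw [← hQ] at hL
  have h2 : 2 ≤ Q.length := by
    have h0 : Q.length ≠ 0 := by
      intro h
      exact huw.ne (SimpleGraph.Walk.eq_of_length_eq_zero h)
    obtain ⟨r, hr⟩ := hL
    omega
  have hpath : Q.IsPath := by
    rw [← SimpleGraph.Walk.IsPath.getVert_injOn_iff]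
    have main : ∀ i j : ℕ, i < j → j ≤ Q.length → Q.getVert i = Q.getVert j → False := by
      intro i j hij hj heq
      by_cases hpar : Even (j - i)
      · -- cut out the closed piece
        obtain ⟨r1, hr1⟩ := sub_walk Q (Nat.zero_le i) (by omega)
        obtain ⟨r2, hr2⟩ := sub_walk Q hj le_rfl
        have h3 := hmin (((r1.copy (by simp) heq).append r2).copy rfl (by simp)) huw (by
          rw [SimpleGraph.Walk.length_copy, SimpleGraph.Walk.length_append,
            SimpleGraph.Walk.length_copy, hr1, hr2]
          have e1 : i - 0 + (Q.length - j) + (j - i) = Q.length := by omega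
          have e2 : Even (i - 0 + (Q.length - j) + (j - i)) := by rw [e1]; exact hL
          exact (Nat.even_add.1 e2).2 hpar)
        rw [SimpleGraph.Walk.length_copy, SimpleGraph.Walk.length_append,
          SimpleGraph.Walk.length_copy, hr1, hr2] at h3
        omega
      · -- the odd closed piece is an even walk between adjacent vertices
        obtain ⟨r, hr⟩ := sub_walk Q (i := i + 1) (j := j) (by omega) hj
        have hadj : G.Adj (Q.getVert i) (Q.getVert (i + 1)) :=
          SimpleGraph.Walk.adj_getVert_succ Q (by omega)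
        have h3 := hmin (r.copy rfl heq.symm) hadj.symm (by
          rw [SimpleGraph.Walk.length_copy, hr]
          rw [Nat.not_even_iff_odd] at hpar
          have e1 : j - i = j - (i + 1) + 1 := by omega
          rw [e1] at hpar
          rcases Nat.even_or_odd (j - (i + 1)) with h4 | h4
          · exact h4
          · exact absurd hpar (by rw [Nat.not_odd_iff_even]; exact h4.add_one))
        rw [SimpleGraph.Walk.length_copy, hr] at h3
        omega
    intro i hi j hj heq
    rcases lt_trichotomy i j with h | h | h
    · exact (main i j h hj heq).elim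
    · exact h
    · exact (main j i h hi heq.symm).elim
  refine ⟨u, w, Q, huw, hL, h2, hpath, ?_, ?_⟩
  · intro b hb hub
    obtain ⟨i, rfl, hi⟩ := SimpleGraph.Walk.mem_support_iff_exists_getVert.1 hb
    by_cases h0 : i = 0
    · subst h0
      simp at hub
    by_cases h1 : i = 1
    · right; rw [h1]
    by_cases hl : i = Q.length
    · left; rw [hl]; simp
    exfalso
    by_cases hpar : Even i
    · obtain ⟨r, hr⟩ := sub_walk Q (Nat.zero_le i) hi
      have h3 := hmin (r.copy (by simp) rfl) hub (by
        rw [SimpleGraph.Walk.length_copy, hr]; exact hpar)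
      rw [SimpleGraph.Walk.length_copy, hr] at h3
      omega
    · obtain ⟨r, hr⟩ := sub_walk Q hi le_rfl
      have h3 := hmin (SimpleGraph.Walk.cons hub (r.copy rfl (by simp))) huw (by
        rw [SimpleGraph.Walk.length_cons, SimpleGraph.Walk.length_copy, hr]
        have e1 : Q.length - i + 1 + (i - 1) = Q.length := by omega
        have e2 : Even (Q.length - i + 1 + (i - 1)) := by rw [e1]; exact hL
        refine (Nat.even_add.1 e2).2 ?_
        rw [Nat.not_even_iff_odd] at hpar
        obtain ⟨m, hm⟩ := hpar
        exact ⟨m, by omega⟩)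
      rw [SimpleGraph.Walk.length_cons, SimpleGraph.Walk.length_copy, hr] at h3
      omega
  · intro b hb hbw
    obtain ⟨i, rfl, hi⟩ := SimpleGraph.Walk.mem_support_iff_exists_getVert.1 hb
    by_cases h0 : i = 0
    · left; rw [h0]; simp
    by_cases h1 : i = Q.length - 1
    · right; rw [h1]
    by_cases hl : i = Q.length
    · rw [hl] at hbw
      simp at hbw
    exfalso
    by_cases hpar : Even i
    · obtain ⟨r, hr⟩ := sub_walk Q hi le_rfl
      have h3 := hmin (r.copy rfl (by simp)) hbw (by
        rw [SimpleGraph.Walk.length_copy, hr]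
        have e1 : Q.length - i + i = Q.length := by omega
        have e2 : Even (Q.length - i + i) := by rw [e1]; exact hL
        exact (Nat.even_add.1 e2).2 hpar)
      rw [SimpleGraph.Walk.length_copy, hr] at h3
      omega
    · obtain ⟨r, hr⟩ := sub_walk Q (Nat.zero_le i) hi
      have h3 := hmin ((r.copy (by simp) rfl).concat hbw) huw (by
        rw [SimpleGraph.Walk.length_concat, SimpleGraph.Walk.length_copy, hr]
        rw [Nat.not_even_iff_odd] at hpar
        exact hpar.add_one)
      rw [SimpleGraph.Walk.length_concat, SimpleGraph.Walk.length_copy, hr] at h3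
      omega

/-! ### replacing one path -/

/-- replace the path from `u` to `w` -/
noncomputable def repl (P : ∀ x y : V, G.Walk x y) {u w : V} (Q : G.Walk u w) :
    ∀ x y : V, G.Walk x y := by
  classical
  exact fun x y => if h : u = x ∧ w = y then Q.copy h.1 h.2 else P x y

lemma repl_self (P : ∀ x y : V, G.Walk x y) {u w : V} (Q : G.Walk u w) : repl P Q u w = Q := by
  unfold repl
  simp

lemma repl_of_ne (P : ∀ x y : V, G.Walk x y) {u w : V} (Q : G.Walk u w) {x y : V}
    (h : ¬ (x = u ∧ y = w)) : repl P Q x y = P x y := by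
  unfold repl
  rw [dif_neg]
  rintro ⟨rfl, rfl⟩
  exact h ⟨rfl, rfl⟩

lemma sum_swap {ι : Type*} [Fintype ι] [DecidableEq ι] (f g : ι → ℕ) (a : ι)
    (h : ∀ i, i ≠ a → f i = g i) : ∑ i, f i + g a = ∑ i, g i + f a := by
  rw [← Finset.add_sum_erase univ f (mem_univ a), ← Finset.add_sum_erase univ g (mem_univ a),
    Finset.sum_congr rfl (fun i hi => h i (Finset.ne_of_mem_erase hi))]
  ring

lemma load_sum [Fintype V] [DecidableEq V] (P : ∀ x y : V, G.Walk x y) (v : V) :
    load P v = ∑ p : V × V, if p.1 ≠ p.2 ∧ v ∈ (P p.1 p.2).support then 1 else 0 := by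
  unfold load
  rw [Set.ncard_eq_toFinset_card', ← Finset.card_filter]
  congr 1
  ext p
  simp

lemma eload_sum [Fintype V] [DecidableEq V] (P : ∀ x y : V, G.Walk x y) (e : Sym2 V) :
    eload P e = ∑ p : V × V, if p.1 ≠ p.2 ∧ e ∈ (P p.1 p.2).edges then 1 else 0 := by
  unfold eload
  rw [Set.ncard_eq_toFinset_card', ← Finset.card_filter]
  congr 1
  ext p
  simp

section main
variable [Fintype V] [DecidableEq V]

/-- everything about the replaced system -/
theorem gadget (hodd : UPS2.EC.OddW G) (P : ∀ x y : V, G.Walk x y) (hP : Paths P)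
    (hadj : ∀ x y (h : G.Adj x y), P x y = h.toWalk) :
    ∃ (P' : ∀ x y : V, G.Walk x y) (Z : Finset (Sym2 V)) (e0 e1 e2 : Sym2 V),
      Paths P' ∧ e0 ∉ Z ∧ e1 ∈ Z ∧ e2 ∈ Z ∧ e1 ≠ e2 ∧
      (∀ e, eload P' e + (if e = e0 then 1 else 0) = eload P e + (if e ∈ Z then 1 else 0)) ∧
      (∀ a b, G.Adj a b → TS.outKill P' a b + TS.outKill P' b a ≤
        TS.outKill P a b + TS.outKill P b a + (if s(a, b) = e2 then 1 else 0)) ∧
      (∀ a b, G.Adj a b → TS.inKill P' a b + TS.inKill P' b a ≤
        TS.inKill P a b + TS.inKill P b a + (if s(a, b) = e1 then 1 else 0)) ∧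
      ∃ m, Odd m ∧ ∑ v, load P' v = ∑ v, load P v + m := by
  classical
  obtain ⟨u, w, Q, huw, hev, h2, hQ, hu, hw⟩ := exists_gadget hodd
  have hPuw : P u w = huw.toWalk := hadj u w huw
  have hself := repl_self P Q
  have hne : ∀ {x y : V}, ¬ (x = u ∧ y = w) → repl P Q x y = P x y := fun h => repl_of_ne P Q h
  have hv1 : Q.getVert 1 ≠ w := by
    intro h
    have := (hQ.getVert_eq_end_iff (by omega : 1 ≤ Q.length)).1 h
    omega
  have hv2 : Q.getVert (Q.length - 1) ≠ u := by
    intro h
    have := (hQ.getVert_eq_start_iff (by omega : Q.length - 1 ≤ Q.length)).1 h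
    omega
  have hu1 : Q.getVert 1 ≠ u := by
    intro h
    have := (hQ.getVert_eq_start_iff (by omega : 1 ≤ Q.length)).1 h
    omega
  have he1 : s(u, Q.getVert 1) ∈ Q.edges := IB.fe_mem Q h2
  have he2 : s(w, Q.getVert (Q.length - 1)) ∈ Q.edges := IB.le_mem Q h2
  have hend1 : ∀ c, s(u, c) ∈ Q.edges → c = Q.getVert 1 := by
    intro c hc
    have h3 := IB.eq_fe hQ hc (by simp)
    have h4 : s(u, c) = s(u, Q.getVert 1) := h3
    exact Sym2.congr_right.1 h4
  have he0 : s(u, w) ∉ Q.edges := by
    intro h
    exact hv1 (hend1 w h).symm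
  refine ⟨repl P Q, Q.edges.toFinset, s(u, w), s(u, Q.getVert 1), s(w, Q.getVert (Q.length - 1)),
    ?_, ?_, ?_, ?_, ?_, ?_, ?_, ?_, ?_⟩
  · intro x y hxy
    by_cases h : x = u ∧ y = w
    · obtain ⟨rfl, rfl⟩ := h
      rw [hself]; exact hQ
    · rw [hne h]; exact hP x y hxy
  · rw [List.mem_toFinset]; exact he0
  · rw [List.mem_toFinset]; exact he1
  · rw [List.mem_toFinset]; exact he2
  · intro h
    rw [Sym2.eq_iff] at h
    rcases h with ⟨h, _⟩ | ⟨h, _⟩
    · exact huw.ne h
    · exact hv2 h.symm
  · intro e
    have h3 := sum_swap (fun p : V × V => if p.1 ≠ p.2 ∧ e ∈ (repl P Q p.1 p.2).edges then 1 else 0)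
      (fun p : V × V => if p.1 ≠ p.2 ∧ e ∈ (P p.1 p.2).edges then 1 else 0) (u, w) (by
        intro p hp
        have : ¬ (p.1 = u ∧ p.2 = w) := fun h => hp (Prod.ext h.1 h.2)
        rw [hne this])
    rw [← eload_sum, ← eload_sum] at h3
    simp only [hself, hPuw, ne_eq, huw.ne, not_false_eq_true, true_and] at h3
    simp only [List.mem_toFinset]
    rw [← h3]
    congr 1
    simp [SimpleGraph.Adj.toWalk]
  · intro a b hab
    have key : ∀ a b, G.Adj a b → TS.outKill (repl P Q) a b ≤ TS.outKill P a b +
        (if a = w ∧ b = Q.getVert (Q.length - 1) then 1 else 0) := by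
      intro a b hab
      unfold TS.outKill
      by_cases h : a = w ∧ b = Q.getVert (Q.length - 1)
      · rw [if_pos h]
        calc _ ≤ (insert u (univ.filter fun x => x ≠ a ∧ x ≠ b ∧ b ∈ (P x a).support)).card := by
              apply card_le_card
              intro x hx
              simp only [mem_filter, mem_univ, true_and, mem_insert] at hx ⊢
              by_cases hxu : x = u
              · exact Or.inl hxu
              · right
                rw [hne (fun h => hxu h.1)] at hx
                exact hx
          _ ≤ _ := card_insert_le _ _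
      · rw [if_neg h, Nat.add_zero]
        apply card_le_card
        intro x hx
        simp only [mem_filter, mem_univ, true_and] at hx ⊢
        by_cases hxu : x = u ∧ a = w
        · exfalso
          obtain ⟨rfl, rfl⟩ := hxu
          rw [hself] at hx
          rcases hw b hx.2.2 hab.symm with h3 | h3
          · exact hx.2.1 h3.symm
          · exact h ⟨rfl, h3⟩
        · rw [hne hxu] at hx
          exact hx
    have h3 := key a b hab
    have h4 := key b a hab.symm
    have h5 : (if a = w ∧ b = Q.getVert (Q.length - 1) then 1 else 0) +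
        (if b = w ∧ a = Q.getVert (Q.length - 1) then 1 else 0) ≤
        (if s(a, b) = s(w, Q.getVert (Q.length - 1)) then 1 else 0) := by
      by_cases h6 : a = w ∧ b = Q.getVert (Q.length - 1)
      · have h7 : ¬ (b = w ∧ a = Q.getVert (Q.length - 1)) := by
          rintro ⟨h8, _⟩
          exact hab.ne (h6.1.trans h8.symm)
        rw [if_pos h6, if_neg h7, if_pos (by rw [h6.1, h6.2])]
      · rw [if_neg h6]
        by_cases h7 : b = w ∧ a = Q.getVert (Q.length - 1)
        · rw [if_pos h7, if_pos (by rw [h7.1, h7.2, Sym2.eq_swap])]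
        · rw [if_neg h7]
          exact Nat.zero_le _
    omega
  · intro a b hab
    have key : ∀ a b, G.Adj a b → TS.inKill (repl P Q) a b ≤ TS.inKill P a b +
        (if a = u ∧ b = Q.getVert 1 then 1 else 0) := by
      intro a b hab
      unfold TS.inKill
      by_cases h : a = u ∧ b = Q.getVert 1
      · rw [if_pos h]
        calc _ ≤ (insert w (univ.filter fun y => y ≠ a ∧ y ≠ b ∧ b ∈ (P a y).support)).card := by
              apply card_le_card
              intro y hy
              simp only [mem_filter, mem_univ, true_and, mem_insert] at hy ⊢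
              by_cases hyw : y = w
              · exact Or.inl hyw
              · right
                rw [hne (fun h => hyw h.2)] at hy
                exact hy
          _ ≤ _ := card_insert_le _ _
      · rw [if_neg h, Nat.add_zero]
        apply card_le_card
        intro y hy
        simp only [mem_filter, mem_univ, true_and] at hy ⊢
        by_cases hyw : a = u ∧ y = w
        · exfalso
          obtain ⟨rfl, rfl⟩ := hyw
          rw [hself] at hy
          rcases hu b hy.2.2 hab with h3 | h3
          · exact hy.2.1 h3.symm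
          · exact h ⟨rfl, h3⟩
        · rw [hne hyw] at hy
          exact hy
    have h3 := key a b hab
    have h4 := key b a hab.symm
    have h5 : (if a = u ∧ b = Q.getVert 1 then 1 else 0) +
        (if b = u ∧ a = Q.getVert 1 then 1 else 0) ≤
        (if s(a, b) = s(u, Q.getVert 1) then 1 else 0) := by
      by_cases h6 : a = u ∧ b = Q.getVert 1
      · have h7 : ¬ (b = u ∧ a = Q.getVert 1) := by
          rintro ⟨h8, _⟩
          exact hab.ne (h6.1.trans h8.symm)
        rw [if_pos h6, if_neg h7, if_pos (by rw [h6.1, h6.2])]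
      · rw [if_neg h6]
        by_cases h7 : b = u ∧ a = Q.getVert 1
        · rw [if_pos h7, if_pos (by rw [h7.1, h7.2, Sym2.eq_swap])]
        · rw [if_neg h7]
          exact Nat.zero_le _
    omega
  · have h3 : ∀ v, load (repl P Q) v + (if v = u ∨ v = w then 1 else 0) =
        load P v + (if v ∈ Q.support then 1 else 0) := by
      intro v
      have h3 := sum_swap
        (fun p : V × V => if p.1 ≠ p.2 ∧ v ∈ (repl P Q p.1 p.2).support then 1 else 0)
        (fun p : V × V => if p.1 ≠ p.2 ∧ v ∈ (P p.1 p.2).support then 1 else 0) (u, w) (by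
          intro p hp
          have : ¬ (p.1 = u ∧ p.2 = w) := fun h => hp (Prod.ext h.1 h.2)
          rw [hne this])
      rw [← load_sum, ← load_sum] at h3
      simp only [hself, hPuw, ne_eq, huw.ne, not_false_eq_true, true_and] at h3
      rw [← h3]
      congr 1
      simp [SimpleGraph.Adj.toWalk]
    have h4 : ∑ v, (load (repl P Q) v + (if v = u ∨ v = w then 1 else 0)) =
        ∑ v, (load P v + (if v ∈ Q.support then 1 else 0)) := Finset.sum_congr rfl fun v _ => h3 v
    rw [Finset.sum_add_distrib, Finset.sum_add_distrib] at h4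
    have h5 : ∑ v : V, (if v = u ∨ v = w then 1 else 0) = 2 := by
      rw [← Finset.card_filter]
      have : (univ.filter fun v : V => v = u ∨ v = w) = {u, w} := by
        ext v; simp
      rw [this, Finset.card_pair huw.ne]
    have h6 : ∑ v : V, (if v ∈ Q.support then 1 else 0) = Q.length + 1 := by
      rw [← Finset.card_filter]
      have : (univ.filter fun v : V => v ∈ Q.support) = Q.support.toFinset := by
        ext v; simp
      rw [this, List.toFinset_card_of_nodup hQ.support_nodup, SimpleGraph.Walk.length_support]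
    rw [h5, h6] at h4
    refine ⟨Q.length - 1, ?_, by omega⟩
    obtain ⟨r, hr⟩ := hev
    exact ⟨r - 1, by omega⟩

/-- **the base with even sum of the loads**, ready for the cut tests: `ke` is the error of the
number of kills of an edge -/
theorem parity_base {k : ℕ} (hodd : UPS2.EC.OddW G) (M : IB.MSys G k)
    {P : ∀ x y : V, G.Walk x y} (hB : IB.Base k P) {d : ℕ} (hd : 2 ≤ d) :
    ∃ (P' : ∀ x y : V, G.Walk x y) (ke : Sym2 V → ℝ), Paths P' ∧ Even (∑ v, load P' v) ∧
      (∀ a b, G.Adj a b → ((TS.outKill P' a b + TS.outKill P' b a +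
        (TS.inKill P' a b + TS.inKill P' b a) : ℕ) : ℝ) ≤ IB.mEnd M s(a, b) + ke s(a, b)) ∧
      ∀ z : Sym2 V → ℝ,
        ∑ e, (- z e * IB.kerr M P' e + max (z e) 0 / ((d : ℝ) - 1) * ke e) ≤
        ∑ e, (- z e * IB.kerr M P e + max (z e) 0 / ((d : ℝ) - 1) * IB.kend M P e) +
          (∑ e, |z e|) / 2 := by
  classical
  have hd1 : (1 : ℝ) ≤ (d : ℝ) - 1 := by
    have : (2 : ℝ) ≤ d := by exact_mod_cast hd
    linarith
  by_cases hev : Even (∑ v, load P v)
  · refine ⟨P, fun e => IB.kend M P e, hB.paths, hev, ?_, ?_⟩
    · intro a b hab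
      rw [IB.kills_eq hB hab]
      unfold IB.kend
      linarith
    · intro z
      have : 0 ≤ ∑ e, |z e| := Finset.sum_nonneg fun e _ => abs_nonneg _
      linarith
  · obtain ⟨P', Z, e0, e1, e2, hP', h0, h1, h2, h12, hel, hout, hin, m, hm, hsum⟩ :=
      gadget hodd P hB.paths hB.adj
    refine ⟨P', fun e => IB.kend M P e + ((if e = e2 then 1 else 0) + (if e = e1 then 1 else 0)),
      hP', ?_, ?_, ?_⟩
    · rw [hsum]
      rw [Nat.not_even_iff_odd] at hev
      exact hev.add_odd hm
    · intro a b hab
      have h3 := hout a b hab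
      have h4 := hin a b hab
      have h5 := IB.kills_eq hB hab
      have h6 : ((TS.outKill P' a b + TS.outKill P' b a +
          (TS.inKill P' a b + TS.inKill P' b a) : ℕ) : ℝ) ≤
          ((TS.outKill P a b + TS.outKill P b a + (TS.inKill P a b + TS.inKill P b a) +
            ((if s(a, b) = e2 then 1 else 0) + (if s(a, b) = e1 then 1 else 0)) : ℕ) : ℝ) := by
        exact_mod_cast (by omega)
      refine h6.trans ?_
      rw [Nat.cast_add, h5]
      unfold IB.kend
      push_cast
      linarith
    · intro z
      rw [Finset.sum_div, ← Finset.sum_add_distrib]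
      refine Finset.sum_le_sum fun e _ => ?_
      have h3 : (eload P' e : ℝ) + (if e = e0 then 1 else 0) =
          eload P e + (if e ∈ Z then 1 else 0) := by exact_mod_cast hel e
      have h4 : IB.kerr M P' e = IB.kerr M P e +
          ((if e ∈ Z then 1 else 0) - (if e = e0 then 1 else 0)) / 2 := by
        unfold IB.kerr
        linarith
      rw [h4]
      simp only
      have hp : 0 ≤ max (z e) 0 := le_max_right _ _
      have hq : max (z e) 0 / ((d : ℝ) - 1) ≤ max (z e) 0 := div_le_self hp hd1
      have hq0 : 0 ≤ max (z e) 0 / ((d : ℝ) - 1) := div_nonneg hp (by linarith)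
      set q := max (z e) 0 / ((d : ℝ) - 1) with hqdef
      have habs : 0 ≤ |z e| := abs_nonneg _
      have hle : z e ≤ |z e| := le_abs_self _
      have hnle : - z e ≤ |z e| := neg_le_abs _
      by_cases hZ : e ∈ Z
      · have he0 : e ≠ e0 := by
          rintro rfl; exact h0 hZ
        rw [if_pos hZ, if_neg he0]
        have hcnt : (if e = e2 then (1 : ℝ) else 0) + (if e = e1 then 1 else 0) ≤ 1 := by
          by_cases h5 : e = e1
          · rw [if_pos h5, if_neg (by rw [h5]; exact h12)]
            norm_num
          · rw [if_neg h5]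
            split_ifs <;> norm_num
        have h6 : q * ((if e = e2 then (1 : ℝ) else 0) + (if e = e1 then 1 else 0)) ≤ q * 1 :=
          mul_le_mul_of_nonneg_left hcnt hq0
        rcases le_total (z e) 0 with hz | hz
        · have : max (z e) 0 = 0 := max_eq_right hz
          have hq' : q = 0 := by rw [hqdef, this, zero_div]
          rw [hq'] at h6 ⊢
          nlinarith
        · have : max (z e) 0 = z e := max_eq_left hz
          rw [this] at hq
          rw [abs_of_nonneg hz]
          nlinarith
      · have he1 : e ≠ e1 := by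
          rintro rfl; exact hZ h1
        have he2 : e ≠ e2 := by
          rintro rfl; exact hZ h2
        rw [if_neg hZ, if_neg he1, if_neg he2]
        split_ifs
        · nlinarith
        · nlinarith

end main

end Pool.Agent.UPS.Gad
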