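import Pool.Agent.Lib.MP_876e19_co_ups.Gadget

/-!
# The parity gadget, pointwise facts for a given path (MP_876e19_co, helper76)

`Q` is a path of even length between adjacent vertices `u`, `w`, without chords.  `repl P Q` is the
system `P` with the path from `u` to `w` replaced by `Q`.
-/

set_option autoImplicit false

namespace Pool.Agent.UPS.Gad

open Finset

variable {V : Type*} {G : SimpleGraph V}

/-- the data of the gadget -/
structure OddPath (G : SimpleGraph V) where
  u : V
  w : V
  Q : G.Walk u w
  adj : G.Adj u w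
  even : Even Q.length
  two : 2 ≤ Q.length
  path : Q.IsPath
  /-- no chords: two vertices of `Q` are adjacent only if consecutive, or if they are the ends -/
  chord : ∀ i j : ℕ, i < j → j ≤ Q.length → G.Adj (Q.getVert i) (Q.getVert j) →
    j = i + 1 ∨ (i = 0 ∧ j = Q.length)

/-- **existence**, from any odd closed walk -/
theorem exists_gad (hodd : UPS2.EC.OddW G) : Nonempty (OddPath G) := by
  classical
  have hex := exists_even hodd
  obtain ⟨hL, u, w, huw, Q, hQ⟩ := Nat.find_spec hex
  have hmin : ∀ {a b : V} (p : G.Walk a b), G.Adj a b → Even p.length → Q.length ≤ p.length := by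
    intro a b p hab hp
    rw [hQ]
    exact Nat.find_min' hex ⟨hp, a, b, hab, p, rfl⟩
  rw [← hQ] at hL
  have h2 : 2 ≤ Q.length := by
    have h0 : Q.length ≠ 0 := by
      intro h
      exact huw.ne (SimpleGraph.Walk.eq_of_length_eq_zero h)
    obtain ⟨r, hr⟩ := hL
    omega
  have hpath : Q.IsPath := by
    rw [← SimpleGraph.Walk.IsPath.getVert_injOn_iff]
    have main : ∀ i j : ℕ, i < j → j ≤ Q.length → Q.getVert i = Q.getVert j → False := by
      intro i j hij hj heq
      by_cases hpar : Even (j - i)
      · obtain ⟨r1, hr1⟩ := sub_walk Q (Nat.zero_le i) (by omega)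
        obtain ⟨r2, hr2⟩ := sub_walk Q hj le_rfl
        have h3 := hmin (((r1.copy (by simp) heq).append r2).copy rfl (by simp)) huw (by
          rw [SimpleGraph.Walk.length_copy, SimpleGraph.Walk.length_append,
            SimpleGraph.Walk.length_copy, hr1, hr2]
          have e1 : i - 0 + (Q.length - j) + (j - i) = Q.length := by omega
          have e2 : Even (i - 0 + (Q.length - j) + (j - i)) := by rw [e1]; exact hL
          exact (Nat.even_add.1 e2).2 hpar)
        rw [SimpleGraph.Walk.length_copy, SimpleGraph.Walk.length_append,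
          SimpleGraph.Walk.length_copy, hr1, hr2] at h3
        omega
      · obtain ⟨r, hr⟩ := sub_walk Q (i := i + 1) (j := j) (by omega) hj
        have hadj : G.Adj (Q.getVert i) (Q.getVert (i + 1)) :=
          SimpleGraph.Walk.adj_getVert_succ Q (by omega)
        have h3 := hmin (r.copy rfl heq.symm) hadj.symm (by
          rw [SimpleGraph.Walk.length_copy, hr]
          rw [Nat.not_even_iff_odd] at hpar
          have e1 : j - i = j - (i + 1) + 1 := by omega
          rw [e1] at hpar
          rcases Nat.even_or_odd (j - (i + 1)) with h4 | h4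
          · exact h4
          · exact absurd hpar (by rw [Nat.not_odd_iff_even]; exact h4.add_one))
        rw [SimpleGraph.Walk.length_copy, hr] at h3
        omega
    intro i hi j hj heq
    rcases lt_trichotomy i j with h | h | h
    · exact (main i j h hj heq).elim
    · exact h
    · exact (main j i h hi heq.symm).elim
  refine ⟨⟨u, w, Q, huw, hL, h2, hpath, ?_⟩⟩
  intro i j hij hj hadj
  by_contra hcon
  rw [not_or] at hcon
  obtain ⟨hc1, hc2⟩ := hcon
  by_cases hpar : Even (j - i)
  · obtain ⟨r, hr⟩ := sub_walk Q hij.le hj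
    have h3 := hmin r hadj (by rw [hr]; exact hpar)
    rw [hr] at h3
    apply hc2
    omega
  · obtain ⟨r1, hr1⟩ := sub_walk Q (Nat.zero_le i) (by omega)
    obtain ⟨r2, hr2⟩ := sub_walk Q hj le_rfl
    have h3 := hmin (((r1.copy (by simp) rfl).concat hadj).append (r2.copy rfl (by simp))) huw (by
      rw [SimpleGraph.Walk.length_append, SimpleGraph.Walk.length_concat,
        SimpleGraph.Walk.length_copy, SimpleGraph.Walk.length_copy, hr1, hr2]
      rw [Nat.not_even_iff_odd] at hpar
      obtain ⟨r, hr⟩ := hpar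
      obtain ⟨s, hs⟩ := hL
      exact ⟨s - r, by omega⟩)
    rw [SimpleGraph.Walk.length_append, SimpleGraph.Walk.length_concat,
      SimpleGraph.Walk.length_copy, SimpleGraph.Walk.length_copy, hr1, hr2] at h3
    omega

namespace OddPath

variable (g : OddPath G)

/-- the gadget given by a triangle -/
def ofTriangle {u z w : V} (h1 : G.Adj u z) (h2 : G.Adj z w) (h3 : G.Adj u w) : OddPath G where
  u := u
  w := w
  Q := SimpleGraph.Walk.cons h1 (SimpleGraph.Walk.cons h2 SimpleGraph.Walk.nil)
  adj := h3
  even := ⟨1, by simp⟩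
  two := by simp
  path := by
    simp only [SimpleGraph.Walk.cons_isPath_iff, SimpleGraph.Walk.IsPath.nil, true_and,
      SimpleGraph.Walk.support_cons, SimpleGraph.Walk.support_nil, List.mem_cons,
      List.not_mem_nil, or_false, not_or]
    exact ⟨h2.ne, h1.ne, h3.ne⟩
  chord := by
    intro i j hij hj _
    simp only [SimpleGraph.Walk.length_cons, SimpleGraph.Walk.length_nil] at hj ⊢
    omega

/-- the inner vertices -/
def inner [DecidableEq V] : Finset V := (g.Q.support.toFinset.erase g.u).erase g.w

lemma mem_inner [DecidableEq V] {v : V} :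
    v ∈ g.inner ↔ v ∈ g.Q.support ∧ v ≠ g.u ∧ v ≠ g.w := by
  unfold inner
  rw [mem_erase, mem_erase, List.mem_toFinset]
  tauto

lemma card_inner [DecidableEq V] : g.inner.card = g.Q.length - 1 := by
  have h1 : g.u ∈ g.Q.support.toFinset := by rw [List.mem_toFinset]; simp
  have h2 : g.w ∈ g.Q.support.toFinset.erase g.u := by
    rw [mem_erase, List.mem_toFinset]
    exact ⟨g.adj.ne.symm, by simp⟩
  unfold inner
  rw [card_erase_of_mem h2, card_erase_of_mem h1,
    List.toFinset_card_of_nodup g.path.support_nodup, SimpleGraph.Walk.length_support]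
  omega

lemma odd_card_inner [DecidableEq V] : Odd g.inner.card := by
  rw [card_inner]
  have h2 := g.two
  obtain ⟨r, hr⟩ := g.even
  exact ⟨r - 1, by omega⟩

/-- the first inner vertex -/
def a : V := g.Q.getVert 1
/-- the last inner vertex -/
def b : V := g.Q.getVert (g.Q.length - 1)

lemma of_adj_u {c : V} (hc : c ∈ g.Q.support) (h : G.Adj g.u c) : c = g.w ∨ c = g.a := by
  obtain ⟨i, rfl, hi⟩ := SimpleGraph.Walk.mem_support_iff_exists_getVert.1 hc
  have h0 : i ≠ 0 := by
    rintro rfl
    rw [SimpleGraph.Walk.getVert_zero] at h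
    exact h.ne rfl
  rcases g.chord 0 i (by omega) hi (by rwa [SimpleGraph.Walk.getVert_zero]) with h1 | ⟨_, h1⟩
  · right; rw [h1]; rfl
  · left; rw [h1, SimpleGraph.Walk.getVert_length]

lemma of_adj_w {c : V} (hc : c ∈ g.Q.support) (h : G.Adj c g.w) : c = g.u ∨ c = g.b := by
  obtain ⟨i, rfl, hi⟩ := SimpleGraph.Walk.mem_support_iff_exists_getVert.1 hc
  have h0 : i ≠ g.Q.length := by
    rintro rfl
    rw [SimpleGraph.Walk.getVert_length] at h
    exact h.ne rfl
  rcases g.chord i g.Q.length (by omega) le_rfl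
    (by rwa [SimpleGraph.Walk.getVert_length]) with h1 | ⟨h1, _⟩
  · right
    unfold b
    congr 1
    omega
  · left; rw [h1, SimpleGraph.Walk.getVert_zero]

lemma a_mem [DecidableEq V] : g.a ∈ g.inner := by
  have h2 := g.two
  rw [mem_inner]
  refine ⟨SimpleGraph.Walk.getVert_mem_support _ _, ?_, ?_⟩
  · intro h
    have := (g.path.getVert_eq_start_iff (by omega : 1 ≤ g.Q.length)).1 h
    omega
  · intro h
    have := (g.path.getVert_eq_end_iff (by omega : 1 ≤ g.Q.length)).1 h
    omega

lemma b_mem [DecidableEq V] : g.b ∈ g.inner := by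
  have h2 := g.two
  rw [mem_inner]
  refine ⟨SimpleGraph.Walk.getVert_mem_support _ _, ?_, ?_⟩
  · intro h
    have := (g.path.getVert_eq_start_iff (by omega : g.Q.length - 1 ≤ g.Q.length)).1 h
    omega
  · intro h
    have := (g.path.getVert_eq_end_iff (by omega : g.Q.length - 1 ≤ g.Q.length)).1 h
    omega

/-! ### the replaced system -/

/-- the system with the path from `u` to `w` replaced -/
noncomputable def rp (P : ∀ x y : V, G.Walk x y) : ∀ x y : V, G.Walk x y := repl P g.Q

lemma rp_self (P : ∀ x y : V, G.Walk x y) : g.rp P g.u g.w = g.Q := repl_self P g.Q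

lemma rp_of_ne (P : ∀ x y : V, G.Walk x y) {x y : V} (h : ¬ (x = g.u ∧ y = g.w)) :
    g.rp P x y = P x y := repl_of_ne P g.Q h

lemma rp_paths {P : ∀ x y : V, G.Walk x y} (hP : Paths P) : Paths (g.rp P) := by
  intro x y hxy
  by_cases h : x = g.u ∧ y = g.w
  · obtain ⟨rfl, rfl⟩ := h
    rw [rp_self]; exact g.path
  · rw [rp_of_ne g P h]; exact hP x y hxy

section fin
variable [Fintype V] [DecidableEq V]

/-- **loads**: one more at every inner vertex -/
theorem rp_load (P : ∀ x y : V, G.Walk x y) (hadj : ∀ x y (h : G.Adj x y), P x y = h.toWalk)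
    (v : V) : load (g.rp P) v = load P v + (if v ∈ g.inner then 1 else 0) := by
  have h3 := sum_swap
    (fun p : V × V => if p.1 ≠ p.2 ∧ v ∈ (g.rp P p.1 p.2).support then 1 else 0)
    (fun p : V × V => if p.1 ≠ p.2 ∧ v ∈ (P p.1 p.2).support then 1 else 0) (g.u, g.w) (by
      intro p hp
      have : ¬ (p.1 = g.u ∧ p.2 = g.w) := fun h => hp (Prod.ext h.1 h.2)
      rw [g.rp_of_ne P this])
  rw [← load_sum, ← load_sum] at h3
  simp only [g.rp_self P, hadj _ _ g.adj, ne_eq, g.adj.ne, not_false_eq_true, true_and] at h3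
  have h4 : v ∈ g.adj.toWalk.support ↔ v = g.u ∨ v = g.w := by
    simp [SimpleGraph.Adj.toWalk]
  have hu : g.u ∈ g.Q.support := by simp
  have hw : g.w ∈ g.Q.support := by simp
  by_cases h5 : v = g.u ∨ v = g.w
  · have h6 : v ∈ g.Q.support := by
      rcases h5 with rfl | rfl
      · exact hu
      · exact hw
    have h7 : v ∉ g.inner := by
      rw [mem_inner]
      tauto
    rw [if_pos (h4.2 h5), if_pos h6] at h3
    rw [if_neg h7]
    omega
  · rw [if_neg (fun h => h5 (h4.1 h))] at h3
    by_cases h6 : v ∈ g.Q.support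
    · rw [if_pos h6] at h3
      rw [if_pos (g.mem_inner.2 ⟨h6, fun h => h5 (Or.inl h), fun h => h5 (Or.inr h)⟩)]
      omega
    · rw [if_neg h6] at h3
      rw [if_neg (fun h => h6 (g.mem_inner.1 h).1)]
      omega

/-- the sum of the loads changes its parity -/
theorem rp_load_sum (P : ∀ x y : V, G.Walk x y) (hadj : ∀ x y (h : G.Adj x y), P x y = h.toWalk) :
    ∑ v, load (g.rp P) v = ∑ v, load P v + g.inner.card := by
  rw [Finset.sum_congr rfl fun v _ => g.rp_load P hadj v, Finset.sum_add_distrib,
    ← Finset.card_filter, Finset.filter_mem_eq_inter, Finset.univ_inter]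

/-- **usages** -/
theorem rp_eload (P : ∀ x y : V, G.Walk x y) (hadj : ∀ x y (h : G.Adj x y), P x y = h.toWalk)
    (e : Sym2 V) : eload (g.rp P) e + (if e = s(g.u, g.w) then 1 else 0) =
      eload P e + (if e ∈ g.Q.edges then 1 else 0) := by
  have h3 := sum_swap (fun p : V × V => if p.1 ≠ p.2 ∧ e ∈ (g.rp P p.1 p.2).edges then 1 else 0)
    (fun p : V × V => if p.1 ≠ p.2 ∧ e ∈ (P p.1 p.2).edges then 1 else 0) (g.u, g.w) (by
      intro p hp
      have : ¬ (p.1 = g.u ∧ p.2 = g.w) := fun h => hp (Prod.ext h.1 h.2)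
      rw [g.rp_of_ne P this])
  rw [← eload_sum, ← eload_sum] at h3
  simp only [g.rp_self P, hadj _ _ g.adj, ne_eq, g.adj.ne, not_false_eq_true, true_and] at h3
  rw [← h3]
  congr 1
  simp [SimpleGraph.Adj.toWalk]

lemma rp_out_one (P : ∀ x y : V, G.Walk x y) {p q : V} (hpq : G.Adj p q) :
    TS.outKill (g.rp P) p q ≤ TS.outKill P p q + (if p = g.w ∧ q = g.b then 1 else 0) := by
  unfold TS.outKill
  by_cases h : p = g.w ∧ q = g.b
  · rw [if_pos h]
    calc _ ≤ (insert g.u (univ.filter fun x => x ≠ p ∧ x ≠ q ∧ q ∈ (P x p).support)).card := by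
          apply card_le_card
          intro x hx
          simp only [mem_filter, mem_univ, true_and, mem_insert] at hx ⊢
          by_cases hxu : x = g.u
          · exact Or.inl hxu
          · right
            rw [g.rp_of_ne P (fun h => hxu h.1)] at hx
            exact hx
      _ ≤ _ := card_insert_le _ _
  · rw [if_neg h, Nat.add_zero]
    apply card_le_card
    intro x hx
    simp only [mem_filter, mem_univ, true_and] at hx ⊢
    by_cases hxu : x = g.u ∧ p = g.w
    · exfalso
      obtain ⟨rfl, rfl⟩ := hxu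
      rw [g.rp_self P] at hx
      rcases g.of_adj_w hx.2.2 hpq.symm with h3 | h3
      · exact hx.2.1 h3.symm
      · exact h ⟨rfl, h3⟩
    · rw [g.rp_of_ne P hxu] at hx
      exact hx

lemma rp_in_one (P : ∀ x y : V, G.Walk x y) {p q : V} (hpq : G.Adj p q) :
    TS.inKill (g.rp P) p q ≤ TS.inKill P p q + (if p = g.u ∧ q = g.a then 1 else 0) := by
  unfold TS.inKill
  by_cases h : p = g.u ∧ q = g.a
  · rw [if_pos h]
    calc _ ≤ (insert g.w (univ.filter fun y => y ≠ p ∧ y ≠ q ∧ q ∈ (P p y).support)).card := by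
          apply card_le_card
          intro y hy
          simp only [mem_filter, mem_univ, true_and, mem_insert] at hy ⊢
          by_cases hyw : y = g.w
          · exact Or.inl hyw
          · right
            rw [g.rp_of_ne P (fun h => hyw h.2)] at hy
            exact hy
      _ ≤ _ := card_insert_le _ _
  · rw [if_neg h, Nat.add_zero]
    apply card_le_card
    intro y hy
    simp only [mem_filter, mem_univ, true_and] at hy ⊢
    by_cases hyw : p = g.u ∧ y = g.w
    · exfalso
      obtain ⟨rfl, rfl⟩ := hyw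
      rw [g.rp_self P] at hy
      rcases g.of_adj_u hy.2.2 hpq with h3 | h3
      · exact hy.2.1 h3.symm
      · exact h ⟨rfl, h3⟩
    · rw [g.rp_of_ne P hyw] at hy
      exact hy

lemma ite_pair (p q c e : V) (hpq : p ≠ q) :
    (if p = c ∧ q = e then 1 else 0) + (if q = c ∧ p = e then 1 else 0) ≤
      (if s(p, q) = s(c, e) then 1 else 0) := by
  by_cases h6 : p = c ∧ q = e
  · have h7 : ¬ (q = c ∧ p = e) := by
      rintro ⟨h8, _⟩
      exact hpq (h6.1.trans h8.symm)
    rw [if_pos h6, if_neg h7, if_pos (by rw [h6.1, h6.2])]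
  · rw [if_neg h6]
    by_cases h7 : q = c ∧ p = e
    · rw [if_pos h7, if_pos (by rw [h7.1, h7.2, Sym2.eq_swap])]
    · rw [if_neg h7]
      exact Nat.zero_le _

/-- **out-kills**: at most one more, on the last edge of `Q` -/
theorem rp_out (P : ∀ x y : V, G.Walk x y) {p q : V} (hpq : G.Adj p q) :
    TS.outKill (g.rp P) p q + TS.outKill (g.rp P) q p ≤
      TS.outKill P p q + TS.outKill P q p + (if s(p, q) = s(g.w, g.b) then 1 else 0) := by
  have h3 := g.rp_out_one P hpq
  have h4 := g.rp_out_one P hpq.symm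
  have h5 := ite_pair p q g.w g.b hpq.ne
  omega

/-- **in-kills**: at most one more, on the first edge of `Q` -/
theorem rp_in (P : ∀ x y : V, G.Walk x y) {p q : V} (hpq : G.Adj p q) :
    TS.inKill (g.rp P) p q + TS.inKill (g.rp P) q p ≤
      TS.inKill P p q + TS.inKill P q p + (if s(p, q) = s(g.u, g.a) then 1 else 0) := by
  have h3 := g.rp_in_one P hpq
  have h4 := g.rp_in_one P hpq.symm
  have h5 := ite_pair p q g.u g.a hpq.ne
  omega

end fin

end OddPath

end Pool.Agent.UPS.Gad
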