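import Pool.Agent.Lib.MP_876e19_co_ups.FlowInt

/-!
# Galvin's theorem for bipartite multigraphs (helper16, TT876)

Edges of a bipartite multigraph are the elements of a type `E` with end maps `a : E → A` and
`b : E → B`.

* `konig`: proper edge colouring with `Δ` colours.
* `exists_kernel`: stable matchings.
* `galvin`: list edge colouring with lists of size `Δ`.
-/

set_option autoImplicit false

open Finset

namespace Pool.Agent.UPS3

section

variable {E A B C : Type*}

/-- A colouring `c` of the edges in `S` is proper. -/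
def Proper (a : E → A) (b : E → B) (S : Finset E) (c : E → C) : Prop :=
  ∀ e ∈ S, ∀ f ∈ S, e ≠ f → (a e = a f ∨ b e = b f) → c e ≠ c f

variable [DecidableEq E] [DecidableEq A] [DecidableEq B] [DecidableEq C]

/-- Rounding of a real function on the edges of a bipartite multigraph. -/
theorem multi_round [Fintype E] [Fintype A] [Fintype B] (a : E → A) (b : E → B) (w : E → ℝ) :
    ∃ g : E → ℤ, (∀ e, ⌊w e⌋ ≤ g e ∧ g e ≤ ⌈w e⌉) ∧
      (∀ v, ⌊∑ e with a e = v, w e⌋ ≤ ∑ e with a e = v, g e ∧
        ∑ e with a e = v, g e ≤ ⌈∑ e with a e = v, w e⌉) ∧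
      (∀ v, ⌊∑ e with b e = v, w e⌋ ≤ ∑ e with b e = v, g e ∧
        ∑ e with b e = v, g e ≤ ⌈∑ e with b e = v, w e⌉) := by
  classical
  let s : E ⊕ A ⊕ B → A ⊕ B ⊕ Unit :=
    Sum.elim (fun e => Sum.inl (a e)) (Sum.elim (fun _ => Sum.inr (Sum.inr ()))
      (fun b => Sum.inr (Sum.inl b)))
  let t : E ⊕ A ⊕ B → A ⊕ B ⊕ Unit :=
    Sum.elim (fun e => Sum.inr (Sum.inl (b e))) (Sum.elim (fun a => Sum.inl a)
      (fun _ => Sum.inr (Sum.inr ())))
  let f : E ⊕ A ⊕ B → ℝ :=
    Sum.elim w (Sum.elim (fun v => ∑ e with a e = v, w e) (fun v => ∑ e with b e = v, w e))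
  obtain ⟨g, hg, hnet⟩ := flow_round s t (fun _ => 0) f (by
    rintro (v | v | _)
    · simp [s, t, f, sum_filter, Fintype.sum_sum_type]
    · simp [s, t, f, sum_filter, Fintype.sum_sum_type]
    · simp [s, t, f, sum_filter, Fintype.sum_sum_type]
      rw [sum_comm, sub_eq_zero, sum_comm (s := (univ : Finset A))]
      simp)
  have hA : ∀ v, g (Sum.inr (Sum.inl v)) = ∑ e with a e = v, g (Sum.inl e) := by
    intro v
    have := hnet (Sum.inl v)
    simp [s, t, sum_filter, Fintype.sum_sum_type] at this
    rw [sum_filter]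
    linarith
  have hB : ∀ v, g (Sum.inr (Sum.inr v)) = ∑ e with b e = v, g (Sum.inl e) := by
    intro v
    have := hnet (Sum.inr (Sum.inl v))
    simp [s, t, sum_filter, Fintype.sum_sum_type] at this
    rw [sum_filter]
    linarith
  refine ⟨fun e => g (Sum.inl e), fun e => hg (Sum.inl e), fun v => ?_, fun v => ?_⟩
  · rw [← hA]; exact hg (Sum.inr (Sum.inl v))
  · rw [← hB]; exact hg (Sum.inr (Sum.inr v))

/-- A matching which covers all vertices of maximum degree. -/
lemma max_matching [Fintype E] [Fintype A] [Fintype B] (a : E → A) (b : E → B) (Δ : ℕ)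
    (S : Finset E)
    (hA : ∀ v, (S.filter fun e => a e = v).card ≤ Δ + 1)
    (hB : ∀ v, (S.filter fun e => b e = v).card ≤ Δ + 1) :
    ∃ M ⊆ S, (∀ e ∈ M, ∀ f ∈ M, e ≠ f → a e ≠ a f ∧ b e ≠ b f) ∧
      (∀ v, ((S \ M).filter fun e => a e = v).card ≤ Δ) ∧
      (∀ v, ((S \ M).filter fun e => b e = v).card ≤ Δ) := by
  classical
  have hΔ : (0 : ℝ) < (Δ : ℝ) + 1 := by positivity
  obtain ⟨g, hg, hgA, hgB⟩ := multi_round a b (fun e => if e ∈ S then 1 / ((Δ : ℝ) + 1) else 0)
  have hg0 : ∀ e, 0 ≤ g e := by
    intro e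
    refine le_trans ?_ (hg e).1
    refine Int.floor_nonneg.2 ?_
    split_ifs <;> positivity
  have hg1 : ∀ e, g e ≤ 1 := by
    intro e
    refine (hg e).2.trans (Int.ceil_le.2 ?_)
    push_cast
    split_ifs
    · rw [div_le_one hΔ]; linarith [Nat.cast_nonneg (α := ℝ) Δ]
    · exact zero_le_one
  have hgS : ∀ e, e ∉ S → g e = 0 := by
    intro e he
    refine le_antisymm ((hg e).2.trans ?_) (hg0 e)
    simp [he]
  set M : Finset E := univ.filter fun e => g e = 1 with hM
  have hMS : M ⊆ S := by
    intro e he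
    by_contra hcon
    rw [hM, mem_filter] at he
    rw [hgS e hcon] at he
    exact absurd he.2 (by norm_num)
  -- sums
  have hsum : ∀ (T : Finset E), ∑ e ∈ T, g e = ((T.filter fun e => e ∈ M).card : ℤ) := by
    intro T
    rw [card_filter]
    push_cast
    refine sum_congr rfl fun e _ => ?_
    by_cases h : g e = 1
    · rw [if_pos (by simp [hM, h]), h]
    · rw [if_neg (by simp [hM, h])]
      have := hg0 e
      have := hg1 e
      omega
  have hw : ∀ (T : Finset E), ∑ e ∈ T, (if e ∈ S then 1 / ((Δ : ℝ) + 1) else 0) =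
      ((T.filter fun e => e ∈ S).card : ℝ) / ((Δ : ℝ) + 1) := by
    intro T
    rw [← sum_filter, sum_const, nsmul_eq_mul]
    ring
  have key : ∀ (T : Finset E), ((S ∩ T).card ≤ Δ + 1) →
      (⌊∑ e ∈ T, (if e ∈ S then 1 / ((Δ : ℝ) + 1) else 0)⌋ ≤ ∑ e ∈ T, g e ∧
        ∑ e ∈ T, g e ≤ ⌈∑ e ∈ T, (if e ∈ S then 1 / ((Δ : ℝ) + 1) else 0)⌉) →
      (T.filter fun e => e ∈ M).card ≤ 1 ∧ ((S \ M) ∩ T).card ≤ Δ := by
    intro T hT h
    rw [hw, hsum] at h
    have hST : (T.filter fun e => e ∈ S) = S ∩ T := by
      ext e; simp [and_comm]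
    have hMT : (T.filter fun e => e ∈ M) = M ∩ T := by
      ext e; simp only [mem_filter, mem_inter]; exact and_comm
    rw [hST, hMT] at h
    rw [hMT]
    have h1 : ((S ∩ T).card : ℝ) / ((Δ : ℝ) + 1) ≤ 1 := by
      rw [div_le_one hΔ]
      exact_mod_cast hT
    have h2 : ((M ∩ T).card : ℤ) ≤ 1 := h.2.trans (Int.ceil_le.2 (by exact_mod_cast h1))
    refine ⟨by exact_mod_cast h2, ?_⟩
    have h3 : ((S \ M) ∩ T).card + (M ∩ T).card = (S ∩ T).card := by
      rw [← card_union_of_disjoint]
      · congr 1
        rw [← union_inter_distrib_right, sdiff_union_of_subset hMS]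
      · exact disjoint_of_subset_left inter_subset_left
          (disjoint_of_subset_right inter_subset_left sdiff_disjoint)
    by_contra hcon
    push Not at hcon
    have h4 : (S ∩ T).card = Δ + 1 := by omega
    have h5 : (M ∩ T).card = 0 := by omega
    have h6 := h.1
    rw [h4, h5] at h6
    push_cast at h6
    rw [div_self hΔ.ne'] at h6
    norm_num at h6
  refine ⟨M, hMS, ?_, ?_, ?_⟩
  · intro e he f hf hne
    constructor
    · intro hab
      have h1 := (key (univ.filter fun e' => a e' = a f)
        (by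
          refine le_trans (card_le_card ?_) (hA (a f))
          intro x hx
          simpa using hx) (hgA (a f))).1
      exact hne (card_le_one.1 h1 e (by simp [hab, he]) f (by simp [hf]))
    · intro hab
      have h1 := (key (univ.filter fun e' => b e' = b f)
        (by
          refine le_trans (card_le_card ?_) (hB (b f))
          intro x hx
          simpa using hx) (hgB (b f))).1
      exact hne (card_le_one.1 h1 e (by simp [hab, he]) f (by simp [hf]))
  · intro v
    have h1 := (key (univ.filter fun e' => a e' = v)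
        (by
          refine le_trans (card_le_card ?_) (hA v)
          intro x hx
          simpa using hx) (hgA v)).2
    refine le_trans (card_le_card ?_) h1
    intro x hx
    simpa using hx
  · intro v
    have h1 := (key (univ.filter fun e' => b e' = v)
        (by
          refine le_trans (card_le_card ?_) (hB v)
          intro x hx
          simpa using hx) (hgB v)).2
    refine le_trans (card_le_card ?_) h1
    intro x hx
    simpa using hx

/-- König's edge colouring theorem for bipartite multigraphs. -/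
theorem konig [Fintype E] [Fintype A] [Fintype B] (a : E → A) (b : E → B) (Δ : ℕ) :
    ∀ (S : Finset E), (∀ v, (S.filter fun e => a e = v).card ≤ Δ) →
    (∀ v, (S.filter fun e => b e = v).card ≤ Δ) →
    ∃ c : E → ℕ, (∀ e ∈ S, c e < Δ) ∧ Proper a b S c := by
  classical
  induction Δ with
  | zero =>
    intro S hA _
    have hS : ∀ e, e ∉ S := by
      intro e he
      have h1 := hA (a e)
      have : 0 < (S.filter fun e' => a e' = a e).card := card_pos.2 ⟨e, by simp [he]⟩
      omega
    exact ⟨fun _ => 0, fun e he => absurd he (hS e), fun e he => absurd he (hS e)⟩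
  | succ Δ ih =>
    intro S hA hB
    obtain ⟨M, hMS, hM, hMA, hMB⟩ := max_matching a b Δ S hA hB
    obtain ⟨c, hc, hcp⟩ := ih (S \ M) hMA hMB
    refine ⟨fun e => if e ∈ M then Δ else c e, fun e he => ?_, fun e he f hf hne hab => ?_⟩
    · by_cases h : e ∈ M
      · simp [h]
      · have := hc e (mem_sdiff.2 ⟨he, h⟩)
        simp only [h, if_false]
        omega
    · by_cases h : e ∈ M
      · by_cases h' : f ∈ M
        · have := hM e h f h' hne
          tauto
        · have := hc f (mem_sdiff.2 ⟨hf, h'⟩)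
          simp only [h, h', if_true, if_false]
          omega
      · by_cases h' : f ∈ M
        · have := hc e (mem_sdiff.2 ⟨he, h⟩)
          simp only [h, h', if_true, if_false]
          omega
        · simp only [h, h', if_false]
          exact hcp e (mem_sdiff.2 ⟨he, h⟩) f (mem_sdiff.2 ⟨hf, h'⟩) hne hab

omit [DecidableEq A] [DecidableEq B] [DecidableEq C] in
/-- Stable matchings: every `A` vertex prefers small colours, every `B` vertex large ones. -/
lemma exists_kernel (a : E → A) (b : E → B) (c : E → ℕ) (S : Finset E)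
    (hc : Proper a b S c) :
    ∃ M ⊆ S, (∀ e ∈ M, ∀ f ∈ M, e ≠ f → a e ≠ a f ∧ b e ≠ b f) ∧
      ∀ e ∈ S, e ∉ M → ∃ f ∈ M, (a f = a e ∧ c f < c e) ∨ (b f = b e ∧ c e < c f) := by
  classical
  induction S using Finset.strongInduction with
  | H S ih =>
  set T : Finset E := S.filter fun e => ∀ f ∈ S, a f = a e → c e ≤ c f with hT
  by_cases hcase : ∀ e ∈ T, ∀ f ∈ T, e ≠ f → b e ≠ b f
  · refine ⟨T, filter_subset _ _, fun e he f hf hne => ⟨fun hab => ?_, hcase e he f hf hne⟩,
      fun e he heT => ?_⟩
    · rw [hT, mem_filter] at he hf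
      have h1 := he.2 f hf.1 hab.symm
      have h2 := hf.2 e he.1 hab
      exact hc e he.1 f hf.1 hne (Or.inl hab) (le_antisymm h1 h2)
    · -- the best edge at `a e`
      obtain ⟨f, hf, hfmin⟩ := (S.filter fun f => a f = a e).exists_min_image c ⟨e, by simp [he]⟩
      rw [mem_filter] at hf
      have hfT : f ∈ T := by
        rw [hT, mem_filter]
        refine ⟨hf.1, fun g hg hga => hfmin g ?_⟩
        rw [mem_filter]
        exact ⟨hg, hga.trans hf.2⟩
      have hle : c f ≤ c e := hfmin e (by simp [he])
      refine ⟨f, hfT, Or.inl ⟨hf.2, lt_of_le_of_ne hle ?_⟩⟩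
      exact hc f hf.1 e he (fun h => heT (h ▸ hfT)) (Or.inl hf.2)
  · push Not at hcase
    -- two best edges with the same end in `B`, the second preferred there
    have : ∃ e ∈ T, ∃ f ∈ T, e ≠ f ∧ b e = b f ∧ c e < c f := by
      obtain ⟨e, he, f, hf, hne, hb⟩ := hcase
      have hcne : c e ≠ c f :=
        hc e (mem_filter.1 he).1 f (mem_filter.1 hf).1 hne (Or.inr hb)
      rcases lt_or_gt_of_ne hcne with h | h
      · exact ⟨e, he, f, hf, hne, hb, h⟩
      · exact ⟨f, hf, e, he, hne.symm, hb.symm, h⟩
    obtain ⟨e, he, f, hf, hne, hb, hlt⟩ := this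
    rw [hT, mem_filter] at he hf
    obtain ⟨M, hMS, hM, hdom⟩ := ih (S.erase e) (erase_ssubset he.1)
      (fun x hx y hy => hc x (mem_of_mem_erase hx) y (mem_of_mem_erase hy))
    refine ⟨M, hMS.trans (erase_subset _ _), hM, fun x hx hxM => ?_⟩
    by_cases hxe : x = e
    · subst hxe
      by_cases hfM : f ∈ M
      · exact ⟨f, hfM, Or.inr ⟨hb.symm, hlt⟩⟩
      · obtain ⟨g, hg, h | h⟩ := hdom f (mem_erase.2 ⟨hne.symm, hf.1⟩) hfM
        · have := hf.2 g (mem_of_mem_erase (hMS hg)) h.1
          omega
        · exact ⟨g, hg, Or.inr ⟨h.1.trans hb.symm, hlt.trans h.2⟩⟩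
    · exact hdom x (mem_erase.2 ⟨hxe, hx⟩) hxM

/-- The kernel method. -/
theorem galvin_aux [Nonempty C] (a : E → A) (b : E → B) (c : E → ℕ) (S : Finset E) :
    ∀ (L : E → Finset C), Proper a b S c →
    (∀ e ∈ S, (S.filter fun f => a f = a e ∧ c f < c e).card +
      (S.filter fun f => b f = b e ∧ c e < c f).card < (L e).card) →
    ∃ col : E → C, (∀ e ∈ S, col e ∈ L e) ∧ Proper a b S col := by
  classical
  induction S using Finset.strongInduction with
  | H S ih =>
  intro L hc hL
  by_cases hS : S.Nonempty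
  swap
  · rw [not_nonempty_iff_eq_empty] at hS
    subst hS
    exact ⟨fun _ => Classical.arbitrary C, by simp, fun e he => absurd he (notMem_empty _)⟩
  · obtain ⟨e₀, he₀⟩ := hS
    obtain ⟨x, hx⟩ : (L e₀).Nonempty := card_pos.1 (by have := hL e₀ he₀; omega)
    obtain ⟨M, hMS, hM, hdom⟩ := exists_kernel a b c (S.filter fun e => x ∈ L e)
      (fun e he f hf => hc e (mem_filter.1 he).1 f (mem_filter.1 hf).1)
    have hMne : M.Nonempty := by
      by_cases h : e₀ ∈ M
      · exact ⟨e₀, h⟩
      · obtain ⟨f, hf, _⟩ := hdom e₀ (mem_filter.2 ⟨he₀, hx⟩) h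
        exact ⟨f, hf⟩
    have hMS' : M ⊆ S := hMS.trans (filter_subset _ _)
    obtain ⟨col, hcol, hprop⟩ := ih (S \ M) (sdiff_ssubset hMS' hMne)
      (fun e => (L e).erase x)
      (fun e he f hf => hc e (mem_sdiff.1 he).1 f (mem_sdiff.1 hf).1)
      (by
        intro e he
        obtain ⟨heS, heM⟩ := mem_sdiff.1 he
        have h0 := hL e heS
        have hle1 : ((S \ M).filter fun f => a f = a e ∧ c f < c e).card ≤
            (S.filter fun f => a f = a e ∧ c f < c e).card :=
          card_le_card (filter_subset_filter _ sdiff_subset)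
        have hle2 : ((S \ M).filter fun f => b f = b e ∧ c e < c f).card ≤
            (S.filter fun f => b f = b e ∧ c e < c f).card :=
          card_le_card (filter_subset_filter _ sdiff_subset)
        by_cases hxe : x ∈ L e
        · rw [card_erase_of_mem hxe]
          obtain ⟨f, hf, h | h⟩ := hdom e (mem_filter.2 ⟨heS, hxe⟩) heM
          · have hlt1 : ((S \ M).filter fun f => a f = a e ∧ c f < c e).card <
                (S.filter fun f => a f = a e ∧ c f < c e).card := by
              apply card_lt_card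
              rw [ssubset_iff_of_subset (filter_subset_filter _ sdiff_subset)]
              exact ⟨f, mem_filter.2 ⟨hMS' hf, h⟩, fun h' => (mem_sdiff.1 (mem_filter.1 h').1).2 hf⟩
            omega
          · have hlt2 : ((S \ M).filter fun f => b f = b e ∧ c e < c f).card <
                (S.filter fun f => b f = b e ∧ c e < c f).card := by
              apply card_lt_card
              rw [ssubset_iff_of_subset (filter_subset_filter _ sdiff_subset)]
              exact ⟨f, mem_filter.2 ⟨hMS' hf, h⟩, fun h' => (mem_sdiff.1 (mem_filter.1 h').1).2 hf⟩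
            omega
        · rw [erase_eq_of_notMem hxe]
          omega)
    refine ⟨fun e => if e ∈ M then x else col e, fun e he => ?_, fun e he f hf hne hab => ?_⟩
    · by_cases h : e ∈ M
      · simp only [h, if_true]
        exact (mem_filter.1 (hMS h)).2
      · simp only [h, if_false]
        exact mem_of_mem_erase (hcol e (mem_sdiff.2 ⟨he, h⟩))
    · by_cases h : e ∈ M
      · by_cases h' : f ∈ M
        · have := hM e h f h' hne
          tauto
        · simp only [h, h', if_true, if_false]
          exact (ne_of_mem_erase (hcol f (mem_sdiff.2 ⟨hf, h'⟩))).symm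
      · by_cases h' : f ∈ M
        · simp only [h, h', if_true, if_false]
          exact ne_of_mem_erase (hcol e (mem_sdiff.2 ⟨he, h⟩))
        · simp only [h, h', if_false]
          exact hprop e (mem_sdiff.2 ⟨he, h⟩) f (mem_sdiff.2 ⟨hf, h'⟩) hne hab

/-- **Galvin's theorem**: list edge colouring of a bipartite multigraph. -/
theorem galvin [Fintype E] [Fintype A] [Fintype B] [Nonempty C] (a : E → A) (b : E → B) (Δ : ℕ)
    (S : Finset E) (hA : ∀ v, (S.filter fun e => a e = v).card ≤ Δ)
    (hB : ∀ v, (S.filter fun e => b e = v).card ≤ Δ)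
    (L : E → Finset C) (hL : ∀ e ∈ S, Δ ≤ (L e).card) :
    ∃ col : E → C, (∀ e ∈ S, col e ∈ L e) ∧ Proper a b S col := by
  classical
  obtain ⟨c, hc, hcp⟩ := konig a b Δ S hA hB
  refine galvin_aux a b c S L hcp fun e he => ?_
  have h1 : (S.filter fun f => a f = a e ∧ c f < c e).card ≤ c e := by
    calc (S.filter fun f => a f = a e ∧ c f < c e).card
        ≤ (range (c e)).card := by
          refine card_le_card_of_injOn c (fun f hf => ?_) (fun f hf g hg hfg => ?_)
          · rw [mem_coe, mem_filter] at hf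
            rw [mem_coe, mem_range]; exact hf.2.2
          · rw [mem_coe, mem_filter] at hf hg
            by_contra hne
            exact hcp f hf.1 g hg.1 hne (Or.inl (hf.2.1.trans hg.2.1.symm)) hfg
      _ = c e := card_range _
  have h2 : (S.filter fun f => b f = b e ∧ c e < c f).card ≤ Δ - 1 - c e := by
    calc (S.filter fun f => b f = b e ∧ c e < c f).card
        ≤ (Ioo (c e) Δ).card := by
          refine card_le_card_of_injOn c (fun f hf => ?_) (fun f hf g hg hfg => ?_)
          · rw [mem_coe, mem_filter] at hf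
            rw [mem_coe, mem_Ioo]; exact ⟨hf.2.2, hc f hf.1⟩
          · rw [mem_coe, mem_filter] at hf hg
            by_contra hne
            exact hcp f hf.1 g hg.1 hne (Or.inr (hf.2.1.trans hg.2.1.symm)) hfg
      _ = Δ - 1 - c e := by rw [Nat.card_Ioo]; omega
  have h3 := hc e he
  have h4 := hL e he
  omega

end

end Pool.Agent.UPS3
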