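import Pool.Agent.Lib.MP_876e19_co.Gsw

/-!
# The Gram-Schmidt walk with the sharp constant 1/2 (helper76)

`gsw_sharp`: for vectors `u i` of norm at most `R`, test vectors `θ t` and offsets `s t`, every
fractional point `x₀` can be rounded to signs such that
`∑ t, exp (s t + <θ t, ∑ (x i - x₀ i) u i>) ≤ ∑ t, exp (s t + R ^ 2 * ‖θ t‖ ^ 2 / 2)`.
-/

set_option autoImplicit false

namespace Pool.Agent.UPS.Sharp

open Real Pool.Agent.UPS

/-! ### scalar inequalities -/

lemma sinh_le_mul_cosh {y : ℝ} (hy : 0 ≤ y) : sinh y ≤ y * cosh y := by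
  have hder : ∀ t : ℝ, HasDerivAt (fun t => t * cosh t - sinh t) (t * sinh t) t := by
    intro t
    have h1 : HasDerivAt (fun t : ℝ => t * cosh t) (1 * cosh t + t * sinh t) t :=
      (hasDerivAt_id' t).mul (hasDerivAt_cosh t)
    have h2 : HasDerivAt (fun t : ℝ => t * cosh t - sinh t)
        (1 * cosh t + t * sinh t - cosh t) t := h1.sub (hasDerivAt_sinh t)
    exact h2.congr_deriv (by ring)
  have hmono : MonotoneOn (fun t : ℝ => t * cosh t - sinh t) (Set.Ici 0) := by
    apply monotoneOn_of_deriv_nonneg (convex_Ici 0)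
    · exact fun t _ => (hder t).continuousAt.continuousWithinAt
    · exact fun t _ => (hder t).differentiableAt.differentiableWithinAt
    · intro t ht
      rw [interior_Ici, Set.mem_Ioi] at ht
      rw [(hder t).deriv]
      exact mul_nonneg ht.le (sinh_nonneg_iff.2 ht.le)
  have := hmono (Set.mem_Ici.2 le_rfl) (Set.mem_Ici.2 hy) hy
  simp only [zero_mul, sinh_zero, sub_zero] at this
  linarith

/-- the tilted mean grows at rate at most one -/
lemma tT_sub_le_self {x : ℝ} (hx : |x| ≤ 1) {c : ℝ} (hc : 0 ≤ c) : tT x c - x ≤ c := by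
  rw [tT_sub hx, div_le_iff₀ (ch_pos hx c)]
  obtain ⟨ha, hb⟩ := abs_le.1 hx
  have hs : 0 ≤ sinh c := sinh_nonneg_iff.2 hc
  rcases le_total c 2 with h2 | h2
  · -- discriminant
    set y := c / 2 with hy
    have hy0 : 0 ≤ y := by rw [hy]; linarith
    have hy1 : y ≤ 1 := by rw [hy]; linarith
    have hcy : c = 2 * y := by rw [hy]; ring
    have h3 := sinh_le_mul_cosh hy0
    have hsy : 0 ≤ sinh y := sinh_nonneg_iff.2 hy0
    have hcp := cosh_pos y
    have h4 : y * sinh y ≤ cosh y := by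
      calc y * sinh y ≤ 1 * (1 * cosh y) := by
            apply mul_le_mul hy1 (h3.trans _) hsy zero_le_one
            exact mul_le_mul_of_nonneg_right hy1 hcp.le
        _ = cosh y := by ring
    have h5 : 0 ≤ (y * cosh y - sinh y) * (cosh y - y * sinh y) :=
      mul_nonneg (by linarith) (by linarith)
    have e1 : sinh c = 2 * sinh y * cosh y := by rw [hcy, sinh_two_mul]
    have e2 : cosh c = cosh y ^ 2 + sinh y ^ 2 := by rw [hcy, cosh_two_mul]
    -- x ^ 2 s + c s x + c h - s ≥ 0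
    have h6 : (c ^ 2 + 4) * sinh c ≤ 4 * c * cosh c := by
      rw [e1, e2, hcy]
      nlinarith
    have h7 : 0 ≤ 4 * (x ^ 2 * sinh c + c * sinh c * x + c * cosh c - sinh c) := by
      have : 0 ≤ (2 * x + c) ^ 2 * sinh c := by positivity
      nlinarith
    nlinarith
  · -- monotone in x
    have h3 : 0 ≤ (x + 1) * (x - 1 + c) * sinh c := by
      apply mul_nonneg (mul_nonneg (by linarith) (by linarith)) hs
    have h4 : 0 ≤ c * (cosh c - sinh c) := by
      rw [cosh_sub_sinh]; positivity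
    nlinarith

lemma hasDerivAt_gG {x : ℝ} (hx : |x| ≤ 1) (c : ℝ) :
    HasDerivAt (fun c => gG x c) (gG x c * (tT x c - x)) c := by
  have h1 : HasDerivAt (fun c : ℝ => exp (-(x * c))) (exp (-(x * c)) * (-x)) c := by
    have h0 : HasDerivAt (fun c : ℝ => -(x * c)) (-x) c := by
      have h : HasDerivAt (fun c : ℝ => x * c) (x * 1) c := (hasDerivAt_id' c).const_mul x
      have h' : HasDerivAt (fun c : ℝ => -(x * c)) (-(x * 1)) c := h.neg
      exact h'.congr_deriv (by ring)
    exact h0.exp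
  have h2 : HasDerivAt (fun c : ℝ => cosh c + x * sinh c) (sinh c + x * cosh c) c :=
    (hasDerivAt_cosh c).add ((hasDerivAt_sinh c).const_mul x)
  have h3 := h1.mul h2
  have hp := (ch_pos hx c).ne'
  have e : gG x c * (tT x c - x) =
      exp (-(x * c)) * (-x) * (cosh c + x * sinh c) +
        exp (-(x * c)) * (sinh c + x * cosh c) := by
    unfold gG tT
    rw [mul_sub, mul_assoc, mul_div_cancel₀ _ hp]
    ring
  rw [e]
  exact h3

lemma gG_growth_half {x : ℝ} (hx : |x| ≤ 1) {c c' : ℝ} (hc : 0 ≤ c) (hcc : c ≤ c') :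
    gG x c' ≤ gG x c * exp (1 / 2 * (c' ^ 2 - c ^ 2)) := by
  have hder : ∀ t : ℝ, HasDerivAt (fun t => gG x t * exp (-(1 / 2 * t ^ 2)))
      (gG x t * (tT x t - x - t) * exp (-(1 / 2 * t ^ 2))) t := by
    intro t
    have h0 : HasDerivAt (fun t : ℝ => -(1 / 2 * t ^ 2)) (-t) t := by
      have h : HasDerivAt (fun t : ℝ => 1 / 2 * t ^ 2) (1 / 2 * (((2 : ℕ) : ℝ) * t ^ (2 - 1))) t :=
        (hasDerivAt_pow 2 t).const_mul (1 / 2 : ℝ)
      have h' : HasDerivAt (fun t : ℝ => -(1 / 2 * t ^ 2))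
          (-(1 / 2 * (((2 : ℕ) : ℝ) * t ^ (2 - 1)))) t := h.neg
      exact h'.congr_deriv (by push_cast; ring)
    have h1 : HasDerivAt (fun t => gG x t * exp (-(1 / 2 * t ^ 2)))
        (gG x t * (tT x t - x) * exp (-(1 / 2 * t ^ 2)) +
          gG x t * (exp (-(1 / 2 * t ^ 2)) * (-t))) t := (hasDerivAt_gG hx t).mul h0.exp
    exact h1.congr_deriv (by ring)
  have hanti : AntitoneOn (fun t : ℝ => gG x t * exp (-(1 / 2 * t ^ 2))) (Set.Ici 0) := by
    apply antitoneOn_of_deriv_nonpos (convex_Ici 0)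
    · exact fun t _ => (hder t).continuousAt.continuousWithinAt
    · exact fun t _ => (hder t).differentiableAt.differentiableWithinAt
    · intro t ht
      rw [interior_Ici, Set.mem_Ioi] at ht
      rw [(hder t).deriv]
      have h1 := tT_sub_le_self hx ht.le
      have h2 := one_le_gG hx t
      have h3 : gG x t * (tT x t - x - t) ≤ 0 :=
        mul_nonpos_of_nonneg_of_nonpos (by linarith) (by linarith)
      exact mul_nonpos_of_nonpos_of_nonneg h3 (exp_pos _).le
  have h := hanti (Set.mem_Ici.2 hc) (Set.mem_Ici.2 (hc.trans hcc)) hcc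
  beta_reduce at h
  have e1 : gG x c' = gG x c' * exp (-(1 / 2 * c' ^ 2)) * exp (1 / 2 * c' ^ 2) := by
    rw [mul_assoc, ← exp_add, neg_add_cancel, exp_zero, mul_one]
  have e2 : gG x c * exp (1 / 2 * (c' ^ 2 - c ^ 2)) =
      gG x c * exp (-(1 / 2 * c ^ 2)) * exp (1 / 2 * c' ^ 2) := by
    rw [mul_assoc, ← exp_add]; congr 2; ring
  rw [e1, e2]
  exact mul_le_mul_of_nonneg_right h (exp_pos _).le

/-- Hoeffding's lemma for `gG` -/
lemma gG_le_half {x : ℝ} (hx : |x| ≤ 1) (c : ℝ) : gG x c ≤ exp (c ^ 2 / 2) := by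
  have key : ∀ {x : ℝ}, |x| ≤ 1 → ∀ {c : ℝ}, 0 ≤ c → gG x c ≤ exp (c ^ 2 / 2) := by
    intro x hx c hc
    have h := gG_growth_half hx le_rfl hc
    have e : gG x 0 = 1 := by unfold gG; simp
    rw [e, one_mul] at h
    refine h.trans (exp_le_exp.2 ?_)
    nlinarith
  rcases le_total 0 c with h | h
  · exact key hx h
  · have h1 := key (x := -x) (by rwa [abs_neg]) (c := -c) (by linarith)
    rw [gG_neg] at h1
    rwa [neg_sq] at h1

/-- the key inequality, `c ≥ 0` -/
lemma gG_key_half_aux {x : ℝ} (hx : |x| ≤ 1) {a b F : ℝ} (ha : 0 < a) (hb : 0 < b)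
    (hab : a + b ≤ 1) {c c' : ℝ} (hc : 0 ≤ c)
    (hF : (b * c - a * (c' - c)) ^ 2 ≤ F * (a * b * (a + b))) :
    gG x c' * exp (1 / 2 * (c ^ 2 - c' ^ 2)) ≤ gG x c * exp (1 / 2 * F) := by
  have hpos : 0 < a * b * (a + b) := by positivity
  have hF0 : 0 ≤ F := by
    by_contra hneg
    push Not at hneg
    nlinarith [sq_nonneg (b * c - a * (c' - c)), mul_neg_of_neg_of_pos hneg hpos]
  have h1c := one_le_gG hx c
  rcases le_total c' 0 with h0 | h0
  · -- opposite signs
    have h1 : c ^ 2 ≤ F := by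
      have h2 : ((a + b) * c) ^ 2 ≤ (b * c - a * (c' - c)) ^ 2 := by
        have : (a + b) * c ≤ b * c - a * (c' - c) := by nlinarith
        have h3 : 0 ≤ (a + b) * c := by positivity
        nlinarith
      have h4 : c ^ 2 * (a * b * (a + b)) ≤ ((a + b) * c) ^ 2 := by
        have h5 : a * b ≤ a + b := by nlinarith
        have h6 : a * b * (a + b) ≤ (a + b) * (a + b) := by
          apply mul_le_mul_of_nonneg_right h5 (by linarith)
        nlinarith [mul_le_mul_of_nonneg_left h6 (sq_nonneg c)]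
      have h7 : c ^ 2 * (a * b * (a + b)) ≤ F * (a * b * (a + b)) := by linarith
      exact le_of_mul_le_mul_right h7 hpos
    calc gG x c' * exp (1 / 2 * (c ^ 2 - c' ^ 2))
        ≤ exp (c' ^ 2 / 2) * exp (1 / 2 * (c ^ 2 - c' ^ 2)) := by
          apply mul_le_mul_of_nonneg_right (gG_le_half hx c') (exp_pos _).le
      _ = exp (c' ^ 2 / 2 + 1 / 2 * (c ^ 2 - c' ^ 2)) := by rw [exp_add]
      _ ≤ exp (1 / 2 * F) := by
          apply exp_le_exp.2
          linarith
      _ ≤ gG x c * exp (1 / 2 * F) := by nlinarith [exp_pos (1 / 2 * F)]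
  · rcases le_total c' c with h | h
    · have h1 : c ^ 2 - c' ^ 2 ≤ F := by
        have h2 : 4 * (b * c) * (a * (c - c')) ≤ (b * c - a * (c' - c)) ^ 2 := by
          nlinarith [sq_nonneg (b * c - a * (c - c'))]
        have h3 : (c ^ 2 - c' ^ 2) * (a * b * (a + b)) ≤ 4 * (b * c) * (a * (c - c')) := by
          have h4 : (c ^ 2 - c' ^ 2) ≤ 2 * c * (c - c') := by nlinarith
          have h5 : (c ^ 2 - c' ^ 2) * (a * b) ≤ 2 * c * (c - c') * (a * b) :=
            mul_le_mul_of_nonneg_right h4 (by positivity)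
          have h6 : 0 ≤ 2 * c * (c - c') * (a * b) := by
            have : 0 ≤ c - c' := by linarith
            positivity
          have h7 : 0 ≤ (c ^ 2 - c' ^ 2) * (a * b) := by
            have : 0 ≤ c ^ 2 - c' ^ 2 := by nlinarith
            positivity
          nlinarith
        exact le_of_mul_le_mul_right (by linarith) hpos
      have h2 := gG_mono hx h0 h
      calc gG x c' * exp (1 / 2 * (c ^ 2 - c' ^ 2))
          ≤ gG x c * exp (1 / 2 * (c ^ 2 - c' ^ 2)) := by
            apply mul_le_mul_of_nonneg_right h2 (exp_pos _).le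
        _ ≤ gG x c * exp (1 / 2 * F) := by
            apply mul_le_mul_of_nonneg_left _ (by linarith)
            apply exp_le_exp.2; linarith
    · have h2 := gG_growth_half hx hc h
      calc gG x c' * exp (1 / 2 * (c ^ 2 - c' ^ 2))
          ≤ gG x c * exp (1 / 2 * (c' ^ 2 - c ^ 2)) * exp (1 / 2 * (c ^ 2 - c' ^ 2)) := by
            apply mul_le_mul_of_nonneg_right h2 (exp_pos _).le
        _ = gG x c := by
            rw [mul_assoc, ← exp_add]
            rw [show 1 / 2 * (c' ^ 2 - c ^ 2) + 1 / 2 * (c ^ 2 - c' ^ 2) = 0 by ring, exp_zero,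
              mul_one]
        _ ≤ gG x c * exp (1 / 2 * F) := by
            have : 1 ≤ exp (1 / 2 * F) := one_le_exp (by linarith)
            nlinarith

lemma gG_key_half {x : ℝ} (hx : |x| ≤ 1) {a b F : ℝ} (ha : 0 < a) (hb : 0 < b)
    (hab : a + b ≤ 1) {c c' : ℝ}
    (hF : (b * c - a * (c' - c)) ^ 2 ≤ F * (a * b * (a + b))) :
    gG x c' * exp (1 / 2 * (c ^ 2 - c' ^ 2)) ≤ gG x c * exp (1 / 2 * F) := by
  rcases le_total 0 c with h | h
  · exact gG_key_half_aux hx ha hb hab h hF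
  · have := gG_key_half_aux (x := -x) (by rwa [abs_neg]) (F := F) ha hb hab (c := -c) (c' := -c')
      (by linarith) (by
        calc (b * -c - a * (-c' - -c)) ^ 2 = (b * c - a * (c' - c)) ^ 2 := by ring
          _ ≤ _ := hF)
    rw [gG_neg, gG_neg] at this
    simpa using this

section geometry

variable {E : Type*} [NormedAddCommGroup E] [InnerProductSpace ℝ E] [FiniteDimensional ℝ E]
variable {ι : Type*} [DecidableEq ι] (u : ι → E)

/-- key comparison of potentials when the alive set shrinks and the pivot stays -/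
lemma pot_keep {A A' : Finset ι} {p : ι} (hp : p ∈ A') (hA : A' ⊆ A) (hu : ‖u p‖ ≤ 1)
    {x : ℝ} (hx : |x| ≤ 1) (θ : E) :
    exp (1 / 2 * pn (sp u A') θ - 1 / 2 * (inner ℝ θ (wv u A' p)) ^ 2) * gG x (inner ℝ θ (wv u A' p)) ≤
      exp (1 / 2 * pn (sp u A) θ - 1 / 2 * (inner ℝ θ (wv u A p)) ^ 2) * gG x (inner ℝ θ (wv u A p)) := by
  have hpA : p ∈ A := hA hp
  set w := wv u A p with hw
  set w' := wv u A' p with hw'
  set c := (inner ℝ θ w) with hc
  set c' := (inner ℝ θ w') with hc'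
  set F := pn (sp u A) θ - pn (sp u A') θ with hF
  have hF0 : 0 ≤ F := by have := pn_mono (sp_mono u hA) θ; linarith
  have hsub : A'.erase p ⊆ A.erase p := Finset.erase_subset_erase p hA
  -- (inner ℝ w w') = ‖w‖²
  have hdiff : w' - w ∈ sp u (A.erase p) := by
    have : w' - w = (sp u (A.erase p)).starProjection (u p) -
        (sp u (A'.erase p)).starProjection (u p) := by
      rw [hw, hw']; unfold wv; abel
    rw [this]
    exact (sp u (A.erase p)).sub_mem ((sp u (A.erase p)).starProjection_apply_mem _)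
      (sp_mono u hsub ((sp u (A'.erase p)).starProjection_apply_mem _))
  have horth : (inner ℝ (w' - w) w) = 0 := wv_orth u A p hdiff
  have hww : (inner ℝ w' w) = ‖w‖ ^ 2 := by
    rw [inner_sub_left, real_inner_self_eq_norm_sq] at horth
    linarith
  set a := ‖w‖ ^ 2 with ha
  set b := ‖w' - w‖ ^ 2 with hb
  have hab : ‖w'‖ ^ 2 = a + b := by
    have : w' = w + (w' - w) := by abel
    rw [this, norm_add_sq_real, real_inner_comm, horth]; simp [ha, hb]
  have hab1 : a + b ≤ 1 := by rw [← hab]; exact norm_wv_sq_le u A' p hu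
  have ha0 : 0 ≤ a := sq_nonneg _
  have hb0 : 0 ≤ b := sq_nonneg _
  -- reduce to the scalar inequality
  suffices h : gG x c' * exp (1 / 2 * (c ^ 2 - c' ^ 2)) ≤ gG x c * exp (1 / 2 * F) by
    have e1 : exp (1 / 2 * pn (sp u A') θ - 1 / 2 * c' ^ 2) =
        exp (1 / 2 * pn (sp u A') θ - 1 / 2 * c ^ 2) * exp (1 / 2 * (c ^ 2 - c' ^ 2)) := by
      rw [← exp_add]; congr 1; ring
    have e2 : exp (1 / 2 * pn (sp u A) θ - 1 / 2 * c ^ 2) =
        exp (1 / 2 * pn (sp u A') θ - 1 / 2 * c ^ 2) * exp (1 / 2 * F) := by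
      rw [← exp_add, hF]; congr 1; ring
    rw [e1, e2]
    have := mul_le_mul_of_nonneg_left h (exp_pos (1 / 2 * pn (sp u A') θ - 1 / 2 * c ^ 2)).le
    nlinarith
  rcases ha0.eq_or_lt with ha' | ha'
  · -- w = 0
    have hw0 : w = 0 := by
      have : ‖w‖ = 0 := by
        have h := ha'.symm
        rw [ha] at h
        exact pow_eq_zero_iff (two_ne_zero) |>.1 h
      exact norm_eq_zero.1 this
    have hc0 : c = 0 := by rw [hc, hw0, inner_zero_right]
    rw [hc0]
    have h1 := gG_le_half hx c'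
    have h2 : gG x c' * exp (1 / 2 * ((0:ℝ) ^ 2 - c' ^ 2)) ≤ 1 := by
      calc _ ≤ exp (c' ^ 2 / 2) * exp (1 / 2 * ((0:ℝ) ^ 2 - c' ^ 2)) := by gcongr
        _ = exp (c' ^ 2 / 2 + 1 / 2 * ((0:ℝ) ^ 2 - c' ^ 2)) := by rw [exp_add]
        _ ≤ exp 0 := by apply exp_le_exp.2; nlinarith [sq_nonneg c']
        _ = 1 := exp_zero
    have h3 := one_le_gG hx 0
    have h4 : 1 ≤ exp (1 / 2 * F) := one_le_exp (by linarith)
    nlinarith
  rcases hb0.eq_or_lt with hb' | hb'
  · have hw0 : w' - w = 0 := by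
      have : ‖w' - w‖ = 0 := by
        have h := hb'.symm
        rw [hb] at h
        exact pow_eq_zero_iff (two_ne_zero) |>.1 h
      exact norm_eq_zero.1 this
    have hc0 : c' = c := by
      rw [hc, hc', sub_eq_zero.1 hw0]
    rw [hc0, sub_self, mul_zero, exp_zero, mul_one]
    have h3 := one_le_gG hx c
    have h4 : 1 ≤ exp (1 / 2 * F) := one_le_exp (by linarith)
    nlinarith
  · -- main case: z = (a+b) w - a w'
    apply gG_key_half hx ha' hb' hab1
    set z : E := (a + b) • w - a • w' with hz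
    have hzS : z ∈ sp u A :=
      (sp u A).sub_mem ((sp u A).smul_mem _ (wv_mem u hpA))
        ((sp u A).smul_mem _ (sp_mono u hA (wv_mem u hp)))
    have hzT : ∀ t ∈ sp u A', (inner ℝ t z) = 0 := by
      intro t ht
      have ht' := sp_decomp u hp ht
      rw [Submodule.mem_sup] at ht'
      obtain ⟨t1, ht1, t2, ht2, rfl⟩ := ht'
      rw [Submodule.mem_span_singleton] at ht2
      obtain ⟨r, rfl⟩ := ht2
      have e1 : (inner ℝ t1 w) = 0 := wv_orth u A p (sp_mono u hsub ht1)
      have e2 : (inner ℝ t1 w') = 0 := wv_orth u A' p ht1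
      have e3 : (inner ℝ w' w') = a + b := by rw [real_inner_self_eq_norm_sq, hab]
      rw [hz, inner_add_left, inner_sub_right, inner_sub_right, inner_smul_right, inner_smul_right,
        inner_smul_right, inner_smul_right, e1, e2, ← hw', inner_smul_left, inner_smul_left, hww,
        e3]
      simp
      ring
    have hg := proj_gain (sp_mono u hA) hzS hzT θ
    have hzn : ‖z‖ ^ 2 = a * b * (a + b) := by
      rw [← real_inner_self_eq_norm_sq, hz, inner_sub_left, inner_sub_right, inner_sub_right]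
      simp only [inner_smul_left, inner_smul_right]
      rw [real_inner_self_eq_norm_sq, real_inner_self_eq_norm_sq, hab, hww, real_inner_comm, hww,
        ← ha]
      simp
      ring
    have hin : (inner ℝ θ z) = b * c - a * (c' - c) := by
      rw [hz, inner_sub_right, inner_smul_right, inner_smul_right, ← hc, ← hc']; ring
    rw [hin, hzn] at hg
    rw [hF]
    linarith

/-- comparison of potentials when the pivot is frozen -/
lemma pot_drop {A A' : Finset ι} {p : ι} (hpA : p ∈ A) (hA : A' ⊆ A.erase p) (hu : ‖u p‖ ≤ 1)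
    (θ : E) :
    1 / 2 * pn (sp u A') θ ≤ 1 / 2 * pn (sp u A) θ - 1 / 2 * (inner ℝ θ (wv u A p)) ^ 2 := by
  have hAA : A' ⊆ A := hA.trans (A.erase_subset p)
  have hg := proj_gain (sp_mono u hAA) (wv_mem u hpA)
    (fun t ht => wv_orth u A p (sp_mono u hA ht)) θ
  have h1 := norm_wv_sq_le u A p hu
  have h2 := pn_mono (sp_mono u hAA) θ
  have h3 : 0 ≤ ‖wv u A p‖ ^ 2 := sq_nonneg _
  have h4 : (inner ℝ θ (wv u A p)) ^ 2 ≤ (pn (sp u A) θ - pn (sp u A') θ) * ‖wv u A p‖ ^ 2 := by linarith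
  have h5 : (pn (sp u A) θ - pn (sp u A') θ) * ‖wv u A p‖ ^ 2 ≤
      (pn (sp u A) θ - pn (sp u A') θ) * 1 := by
    apply mul_le_mul_of_nonneg_left h1; linarith
  linarith

end geometry

section main

variable {E : Type*} [NormedAddCommGroup E] [InnerProductSpace ℝ E] [FiniteDimensional ℝ E]
variable {ι Θ : Type*} [DecidableEq ι] [Fintype Θ]

/-- one step of the walk -/
lemma gsw_step (u : ι → E) (θ : Θ → E) (A : Finset ι) (p : ι) (x : ι → ℝ) (s : Θ → ℝ)
    (hp : p ∈ A) (hx : ∀ i ∈ A, |x i| < 1) :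
    ∃ (y : ι → ℝ) (κ : ℝ), (∀ i ∈ A, |y i| ≤ 1) ∧ (∃ i ∈ A, |y i| = 1) ∧
      (∀ i, i ∉ A → y i = x i) ∧
      (∑ i ∈ A, (y i - x i) • u i = κ • wv u A p) ∧
      ∑ t, exp (s t + κ * inner ℝ (θ t) (wv u A p)) *
          (exp (1 / 2 * pn (sp u A) (θ t) - 1 / 2 * (inner ℝ (θ t) (wv u A p)) ^ 2) *
             gG (y p) (inner ℝ (θ t) (wv u A p))) ≤
        ∑ t, exp (s t) * (exp (1 / 2 * pn (sp u A) (θ t) - 1 / 2 * (inner ℝ (θ t) (wv u A p)) ^ 2) *
             gG (x p) (inner ℝ (θ t) (wv u A p))) := by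
  obtain ⟨z, hzp, hz⟩ := exists_dir u hp
  set c : Θ → ℝ := fun t => inner ℝ (θ t) (wv u A p) with hc
  set K : Θ → ℝ := fun t => exp (s t) * exp (1 / 2 * pn (sp u A) (θ t) - 1 / 2 * (c t) ^ 2) *
    exp (-(x p * c t)) with hK
  -- general computation for a step κ
  have key : ∀ κ : ℝ, ∑ t, exp (s t + κ * c t) *
      (exp (1 / 2 * pn (sp u A) (θ t) - 1 / 2 * (c t) ^ 2) * gG (x p + κ) (c t)) =
      ∑ t, exp (s t) * (exp (1 / 2 * pn (sp u A) (θ t) - 1 / 2 * (c t) ^ 2) * gG (x p) (c t)) +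
        κ * ∑ t, K t * sinh (c t) := by
    intro κ
    rw [Finset.mul_sum, ← Finset.sum_add_distrib]
    apply Finset.sum_congr rfl
    intro t _
    have h1 : exp (s t + κ * c t) * exp (-((x p + κ) * c t)) = exp (s t) * exp (-(x p * c t)) := by
      rw [← exp_add, ← exp_add]; congr 1; ring
    unfold gG
    calc exp (s t + κ * c t) * (exp (1 / 2 * pn (sp u A) (θ t) - 1 / 2 * (c t) ^ 2) *
          (exp (-((x p + κ) * c t)) * (cosh (c t) + (x p + κ) * sinh (c t))))
        = (exp (s t + κ * c t) * exp (-((x p + κ) * c t))) *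
          exp (1 / 2 * pn (sp u A) (θ t) - 1 / 2 * (c t) ^ 2) *
            (cosh (c t) + (x p + κ) * sinh (c t)) := by ring
      _ = (exp (s t) * exp (-(x p * c t))) * exp (1 / 2 * pn (sp u A) (θ t) - 1 / 2 * (c t) ^ 2) *
            (cosh (c t) + (x p + κ) * sinh (c t)) := by rw [h1]
      _ = _ := by rw [hK]; ring
  -- a step in direction σ z
  have main : ∀ (z' : ι → ℝ) (σ : ℝ), (∀ i, z' i = σ * z i) → σ ≠ 0 →
      (σ * ∑ t, K t * sinh (c t) ≤ 0) →
      ∃ (y : ι → ℝ) (κ : ℝ), (∀ i ∈ A, |y i| ≤ 1) ∧ (∃ i ∈ A, |y i| = 1) ∧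
      (∀ i, i ∉ A → y i = x i) ∧
      (∑ i ∈ A, (y i - x i) • u i = κ • wv u A p) ∧
      ∑ t, exp (s t + κ * c t) *
          (exp (1 / 2 * pn (sp u A) (θ t) - 1 / 2 * (c t) ^ 2) *
             gG (y p) (c t)) ≤
        ∑ t, exp (s t) * (exp (1 / 2 * pn (sp u A) (θ t) - 1 / 2 * (c t) ^ 2) *
             gG (x p) (c t)) := by
    intro z' σ hz' hσ hle
    obtain ⟨δ, hδ, h1, i0, hi0, h2⟩ := exists_step A x z' hx p hp (by
      rw [hz', hzp, mul_one]; exact hσ)
    refine ⟨fun i => if i ∈ A then x i + δ * z' i else x i, δ * σ, ?_, ⟨i0, hi0, ?_⟩, ?_, ?_, ?_⟩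
    · intro i hi; simp only [if_pos hi]; exact h1 i hi
    · simp only [if_pos hi0]; exact h2
    · intro i hi; simp only [if_neg hi]
    · rw [← hz, Finset.smul_sum]
      apply Finset.sum_congr rfl
      intro i hi
      beta_reduce
      rw [if_pos hi, smul_smul, hz']
      congr 1
      ring
    · have e : (if p ∈ A then x p + δ * z' p else x p) = x p + δ * σ := by
        rw [if_pos hp, hz', hzp]; ring
      beta_reduce
      rw [e, key (δ * σ)]
      nlinarith
  rcases le_total (∑ t, K t * sinh (c t)) 0 with h | h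
  · exact main z 1 (fun i => (one_mul _).symm) one_ne_zero (by linarith)
  · exact main (fun i => -1 * z i) (-1) (fun i => rfl) (by norm_num) (by linarith)

lemma gsw_ind (u : ι → E) (hu : ∀ i, ‖u i‖ ≤ 1) (θ : Θ → E) (m : ℕ) :
    (∀ (A : Finset ι) (x : ι → ℝ) (s : Θ → ℝ), A.card ≤ m → (∀ i ∈ A, |x i| < 1) →
      ∃ x' : ι → ℝ, (∀ i ∈ A, x' i = 1 ∨ x' i = -1) ∧ (∀ i, i ∉ A → x' i = x i) ∧
        ∑ t, exp (s t + inner ℝ (θ t) (∑ i ∈ A, (x' i - x i) • u i)) ≤
          ∑ t, exp (s t + 1 / 2 * pn (sp u A) (θ t))) ∧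
    (∀ (A : Finset ι) (p : ι) (x : ι → ℝ) (s : Θ → ℝ), A.card ≤ m → p ∈ A →
      (∀ i ∈ A, |x i| < 1) →
      ∃ x' : ι → ℝ, (∀ i ∈ A, x' i = 1 ∨ x' i = -1) ∧ (∀ i, i ∉ A → x' i = x i) ∧
        ∑ t, exp (s t + inner ℝ (θ t) (∑ i ∈ A, (x' i - x i) • u i)) ≤
          ∑ t, exp (s t) * (exp (1 / 2 * pn (sp u A) (θ t) -
              1 / 2 * (inner ℝ (θ t) (wv u A p)) ^ 2) *
             gG (x p) (inner ℝ (θ t) (wv u A p)))) := by
  induction m with
  | zero =>
    constructor
    · intro A x s hA _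
      have : A = ∅ := Finset.card_eq_zero.1 (Nat.le_zero.1 hA)
      subst this
      refine ⟨x, by simp, fun i _ => rfl, ?_⟩
      apply Finset.sum_le_sum
      intro t _
      apply exp_le_exp.2
      have := pn_nonneg (sp u (∅ : Finset ι)) (θ t)
      simp only [Finset.sum_empty, inner_zero_right]
      linarith
    · intro A p x s hA hp _
      have : A = ∅ := Finset.card_eq_zero.1 (Nat.le_zero.1 hA)
      subst this
      exact absurd hp (Finset.notMem_empty p)
  | succ m ih =>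
    obtain ⟨ih0, ih1⟩ := ih
    have claim1 : ∀ (A : Finset ι) (p : ι) (x : ι → ℝ) (s : Θ → ℝ), A.card ≤ m + 1 → p ∈ A →
      (∀ i ∈ A, |x i| < 1) →
      ∃ x' : ι → ℝ, (∀ i ∈ A, x' i = 1 ∨ x' i = -1) ∧ (∀ i, i ∉ A → x' i = x i) ∧
        ∑ t, exp (s t + inner ℝ (θ t) (∑ i ∈ A, (x' i - x i) • u i)) ≤
          ∑ t, exp (s t) * (exp (1 / 2 * pn (sp u A) (θ t) -
              1 / 2 * (inner ℝ (θ t) (wv u A p)) ^ 2) *
             gG (x p) (inner ℝ (θ t) (wv u A p))) := by
      intro A p x s hA hp hx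
      obtain ⟨y, κ, hy1, ⟨i0, hi0, hy2⟩, hy3, hy4, hy5⟩ := gsw_step u θ A p x s hp hx
      set A' := A.filter (fun i => |y i| < 1) with hA'
      have hsub : A' ⊆ A := Finset.filter_subset _ _
      have hcard : A'.card ≤ m := by
        have h1 : A' ⊂ A := by
          refine ⟨hsub, fun h => ?_⟩
          have := h hi0
          rw [hA', Finset.mem_filter] at this
          exact absurd this.2 (by rw [hy2]; exact lt_irrefl _)
        have := Finset.card_lt_card h1
        omega
      have hA'1 : ∀ i ∈ A', |y i| < 1 := fun i hi => (Finset.mem_filter.1 hi).2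
      -- conclusion from a solution on A'
      have concl : ∀ x' : ι → ℝ, (∀ i ∈ A', x' i = 1 ∨ x' i = -1) → (∀ i, i ∉ A' → x' i = y i) →
          (∀ i ∈ A, x' i = 1 ∨ x' i = -1) ∧ (∀ i, i ∉ A → x' i = x i) ∧
          (∀ t, s t + inner ℝ (θ t) (∑ i ∈ A, (x' i - x i) • u i) =
            (s t + κ * inner ℝ (θ t) (wv u A p)) +
              inner ℝ (θ t) (∑ i ∈ A', (x' i - y i) • u i)) := by
        intro x' h1 h2
        refine ⟨?_, ?_, ?_⟩
        · intro i hi
          by_cases h : i ∈ A'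
          · exact h1 i h
          · rw [h2 i h]
            have h3 : |y i| = 1 := by
              apply le_antisymm (hy1 i hi)
              by_contra hneg
              push Not at hneg
              exact h (Finset.mem_filter.2 ⟨hi, hneg⟩)
            exact eq_or_eq_neg_of_abs_eq h3
        · intro i hi
          rw [h2 i (fun h => hi (hsub h)), hy3 i hi]
        · intro t
          have e1 : ∑ i ∈ A, (x' i - x i) • u i =
              ∑ i ∈ A', (x' i - y i) • u i + κ • wv u A p := by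
            rw [← hy4]
            have e2 : ∑ i ∈ A', (x' i - y i) • u i = ∑ i ∈ A, (x' i - y i) • u i := by
              apply Finset.sum_subset hsub
              intro i _ hi
              rw [h2 i hi, sub_self, zero_smul]
            rw [e2, ← Finset.sum_add_distrib]
            apply Finset.sum_congr rfl
            intro i _
            rw [← add_smul]; congr 1; ring
          rw [e1, inner_add_right, inner_smul_right]; ring
      by_cases hpA : p ∈ A'
      · obtain ⟨x', h1, h2, h3⟩ := ih1 A' p y (fun t => s t + κ * inner ℝ (θ t) (wv u A p))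
          hcard hpA hA'1
        obtain ⟨c1, c2, c3⟩ := concl x' h1 h2
        refine ⟨x', c1, c2, ?_⟩
        simp_rw [c3]
        refine h3.trans (le_trans ?_ hy5)
        apply Finset.sum_le_sum
        intro t _
        apply mul_le_mul_of_nonneg_left _ (exp_pos _).le
        exact pot_keep u hpA hsub (hu p) (hy1 p hp) (θ t)
      · obtain ⟨x', h1, h2, h3⟩ := ih0 A' y (fun t => s t + κ * inner ℝ (θ t) (wv u A p))
          hcard hA'1
        obtain ⟨c1, c2, c3⟩ := concl x' h1 h2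
        refine ⟨x', c1, c2, ?_⟩
        simp_rw [c3]
        refine h3.trans (le_trans ?_ hy5)
        have hyp : |y p| = 1 := by
          apply le_antisymm (hy1 p hp)
          by_contra hneg
          push Not at hneg
          exact hpA (Finset.mem_filter.2 ⟨hp, hneg⟩)
        have hg : ∀ c, gG (y p) c = 1 := by
          intro c
          rcases eq_or_eq_neg_of_abs_eq hyp with h | h
          · rw [h, gG_one]
          · rw [h, gG_neg_one]
        apply Finset.sum_le_sum
        intro t _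
        rw [hg, mul_one, ← exp_add]
        apply exp_le_exp.2
        have hsub' : A' ⊆ A.erase p := by
          intro i hi
          rw [Finset.mem_erase]
          exact ⟨fun h => hpA (h ▸ hi), hsub hi⟩
        have := pot_drop u hp hsub' (hu p) (θ t)
        linarith
    refine ⟨?_, claim1⟩
    intro A x s hA hx
    rcases A.eq_empty_or_nonempty with h | ⟨p, hp⟩
    · subst h
      refine ⟨x, by simp, fun i _ => rfl, ?_⟩
      apply Finset.sum_le_sum
      intro t _
      apply exp_le_exp.2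
      have := pn_nonneg (sp u (∅ : Finset ι)) (θ t)
      simp only [Finset.sum_empty, inner_zero_right]
      linarith
    · obtain ⟨x', h1, h2, h3⟩ := claim1 A p x s hA hp hx
      refine ⟨x', h1, h2, h3.trans ?_⟩
      apply Finset.sum_le_sum
      intro t _
      rw [exp_add]
      apply mul_le_mul_of_nonneg_left _ (exp_pos _).le
      have h4 := gG_le_half (hx p hp).le (inner ℝ (θ t) (wv u A p))
      calc exp (1 / 2 * pn (sp u A) (θ t) - 1 / 2 * (inner ℝ (θ t) (wv u A p)) ^ 2) *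
            gG (x p) (inner ℝ (θ t) (wv u A p))
          ≤ exp (1 / 2 * pn (sp u A) (θ t) - 1 / 2 * (inner ℝ (θ t) (wv u A p)) ^ 2) *
            exp ((inner ℝ (θ t) (wv u A p)) ^ 2 / 2) := by gcongr
        _ = exp (1 / 2 * pn (sp u A) (θ t) - 1 / 2 * (inner ℝ (θ t) (wv u A p)) ^ 2 +
              (inner ℝ (θ t) (wv u A p)) ^ 2 / 2) := by rw [exp_add]
        _ ≤ exp (1 / 2 * pn (sp u A) (θ t)) := by
            apply exp_le_exp.2
            nlinarith [sq_nonneg (inner ℝ (θ t) (wv u A p))]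

end main


/-- **Gram-Schmidt walk**, sharp constant, with offsets. -/
theorem gsw_sharp {E : Type*} [NormedAddCommGroup E] [InnerProductSpace ℝ E]
    [FiniteDimensional ℝ E] {ι Θ : Type*} [Fintype ι] [Fintype Θ] (u : ι → E) {R : ℝ}
    (hu : ∀ i, ‖u i‖ ≤ R) (θ : Θ → E) (s : Θ → ℝ) (x₀ : ι → ℝ) (hx₀ : ∀ i, |x₀ i| ≤ 1) :
    ∃ x : ι → ℝ, (∀ i, x i = 1 ∨ x i = -1) ∧ (∀ i, |x₀ i| = 1 → x i = x₀ i) ∧
      ∑ t, exp (s t + inner ℝ (θ t) (∑ i, (x i - x₀ i) • u i)) ≤
        ∑ t, exp (s t + R ^ 2 * ‖θ t‖ ^ 2 / 2) := by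
  classical
  set A : Finset ι := Finset.univ.filter (fun i => |x₀ i| < 1) with hA
  -- choose signs for general vectors of norm at most one
  have base : ∀ (v : ι → E) (η : Θ → E), (∀ i, ‖v i‖ ≤ 1) →
      ∃ x : ι → ℝ, (∀ i, x i = 1 ∨ x i = -1) ∧ (∀ i, |x₀ i| = 1 → x i = x₀ i) ∧
      ∑ t, exp (s t + inner ℝ (η t) (∑ i, (x i - x₀ i) • v i)) ≤
        ∑ t, exp (s t + ‖η t‖ ^ 2 / 2) := by
    intro v η hv
    obtain ⟨x, h1, h2, h3⟩ := (gsw_ind v hv η A.card).1 A x₀ s le_rfl
      (fun i hi => (Finset.mem_filter.1 hi).2)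
    have hout : ∀ i, i ∉ A → |x₀ i| = 1 := by
      intro i hi
      apply le_antisymm (hx₀ i)
      by_contra hneg
      push Not at hneg
      exact hi (Finset.mem_filter.2 ⟨Finset.mem_univ i, hneg⟩)
    refine ⟨x, ?_, ?_, ?_⟩
    · intro i
      by_cases hi : i ∈ A
      · exact h1 i hi
      · rw [h2 i hi]
        exact eq_or_eq_neg_of_abs_eq (hout i hi)
    · intro i hi
      apply h2
      rw [hA, Finset.mem_filter]
      rintro ⟨-, h⟩
      rw [hi] at h
      exact lt_irrefl _ h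
    · have e : ∑ i, (x i - x₀ i) • v i = ∑ i ∈ A, (x i - x₀ i) • v i := by
        symm
        apply Finset.sum_subset (Finset.subset_univ A)
        intro i _ hi
        rw [h2 i hi, sub_self, zero_smul]
      rw [e]
      refine h3.trans ?_
      apply Finset.sum_le_sum
      intro t _
      apply exp_le_exp.2
      have := pn_le (sp v A) (η t)
      linarith
  rcases isEmpty_or_nonempty ι with hι | ⟨⟨i0⟩⟩
  · refine ⟨x₀, fun i => (hι.false i).elim, fun i => (hι.false i).elim, ?_⟩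
    apply Finset.sum_le_sum
    intro t _
    apply exp_le_exp.2
    have h0 : ∑ i, (x₀ i - x₀ i) • u i = 0 := by simp
    rw [h0, inner_zero_right]
    have : 0 ≤ R ^ 2 * ‖θ t‖ ^ 2 / 2 := by positivity
    linarith
  have hR : 0 ≤ R := (norm_nonneg _).trans (hu i0)
  rcases hR.eq_or_lt with hR0 | hR0
  · -- all vectors vanish
    have hu0 : ∀ i, u i = 0 := by
      intro i
      have := hu i
      rw [← hR0] at this
      exact norm_le_zero_iff.1 this
    obtain ⟨x, h1, h2, -⟩ := base (fun _ => 0) (fun _ => 0) (fun i => by simp)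
    refine ⟨x, h1, h2, ?_⟩
    apply Finset.sum_le_sum
    intro t _
    apply exp_le_exp.2
    have h0 : ∑ i, (x i - x₀ i) • u i = 0 := by simp [hu0]
    rw [h0, inner_zero_right]
    have : 0 ≤ R ^ 2 * ‖θ t‖ ^ 2 / 2 := by positivity
    linarith
  · obtain ⟨x, h1, h2, h3⟩ := base (fun i => R⁻¹ • u i) (fun t => R • θ t) (fun i => by
      rw [norm_smul, norm_inv, Real.norm_eq_abs, abs_of_pos hR0]
      rw [inv_mul_le_iff₀ hR0, mul_one]
      exact hu i)
    refine ⟨x, h1, h2, ?_⟩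
    have e1 : ∀ t, inner ℝ (R • θ t) (∑ i, (x i - x₀ i) • R⁻¹ • u i) =
        inner ℝ (θ t) (∑ i, (x i - x₀ i) • u i) := by
      intro t
      have : ∑ i, (x i - x₀ i) • R⁻¹ • u i = R⁻¹ • ∑ i, (x i - x₀ i) • u i := by
        rw [Finset.smul_sum]
        apply Finset.sum_congr rfl
        intro i _
        rw [smul_comm]
      rw [this, inner_smul_left, inner_smul_right]
      simp only [conj_trivial]
      rw [← mul_assoc, mul_inv_cancel₀ hR0.ne', one_mul]
    have e2 : ∀ t, ‖R • θ t‖ ^ 2 / 2 = R ^ 2 * ‖θ t‖ ^ 2 / 2 := by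
      intro t
      rw [norm_smul, Real.norm_eq_abs, abs_of_pos hR0, mul_pow]
    simp only [e1, e2] at h3
    exact h3

/-- union bound form: if `∑ exp (s t + R ^ 2 ‖θ t‖ ^ 2 / 2) < 1` then all `s t + <θ t, err>` are
negative -/
theorem gsw_union {E : Type*} [NormedAddCommGroup E] [InnerProductSpace ℝ E]
    [FiniteDimensional ℝ E] {ι Θ : Type*} [Fintype ι] [Fintype Θ] (u : ι → E) {R : ℝ}
    (hu : ∀ i, ‖u i‖ ≤ R) (θ : Θ → E) (s : Θ → ℝ) (x₀ : ι → ℝ) (hx₀ : ∀ i, |x₀ i| ≤ 1)
    (hsum : ∑ t, exp (s t + R ^ 2 * ‖θ t‖ ^ 2 / 2) < 1) :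
    ∃ x : ι → ℝ, (∀ i, x i = 1 ∨ x i = -1) ∧ (∀ i, |x₀ i| = 1 → x i = x₀ i) ∧
      ∀ t, s t + inner ℝ (θ t) (∑ i, (x i - x₀ i) • u i) < 0 := by
  obtain ⟨x, h1, h2, h3⟩ := gsw_sharp u hu θ s x₀ hx₀
  refine ⟨x, h1, h2, fun t => ?_⟩
  have h4 : exp (s t + inner ℝ (θ t) (∑ i, (x i - x₀ i) • u i)) < 1 := by
    refine lt_of_le_of_lt ?_ (h3.trans_lt hsum)
    exact Finset.single_le_sum
      (f := fun t => exp (s t + inner ℝ (θ t) (∑ i, (x i - x₀ i) • u i)))
      (fun _ _ => (exp_pos _).le) (Finset.mem_univ t)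
  exact Real.exp_lt_one_iff.1 h4

end Pool.Agent.UPS.Sharp
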