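import Pool.Agent.Lib.MP_876e19_co_ups.Galvin

/-!
# A hybrid form of Tutte's theorem (helper16, TT876; statement by helper81, helper54)

`Good G R U`: there is a permutation `π` of `U` with `π w` adjacent to `w` for all `w ∈ U` and
`π (π w) = w` whenever `w ∉ R` or `π w ∉ R` (cycles inside `R` may have any length). For `R = ∅`
this is a perfect matching of `U`.

`Sys G U S 𝒞`: a set `S ⊆ U` and a family `𝒞` of pairwise disjoint odd subsets of `U \ S` such that
all neighbours (in `U`) of a member are in the member or in `S`.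

`hybrid`: if `|𝒞| ≤ |S|` for all systems whose members are single vertices or not contained in `R`,
then `Good G R U`. (For `R = ∅` this is Tutte's theorem.)
-/

set_option autoImplicit false

open Finset

namespace Pool.Agent.UPS3

variable {W : Type*} [DecidableEq W]

/-- Separated families of odd sets. -/
structure Sys (G : SimpleGraph W) (U S : Finset W) (𝒞 : Finset (Finset W)) : Prop where
  sub : S ⊆ U
  csub : ∀ C ∈ 𝒞, C ⊆ U
  disS : ∀ C ∈ 𝒞, Disjoint C S
  pd : ∀ C ∈ 𝒞, ∀ C' ∈ 𝒞, C ≠ C' → Disjoint C C'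
  odd : ∀ C ∈ 𝒞, Odd C.card
  cl : ∀ C ∈ 𝒞, ∀ c ∈ C, ∀ w ∈ U, G.Adj c w → w ∈ C ∨ w ∈ S

/-- Permutations along edges, involutive outside `R`. -/
def Good (G : SimpleGraph W) (R U : Finset W) : Prop :=
  ∃ π : W → W, (∀ w ∈ U, π w ∈ U ∧ G.Adj w (π w)) ∧ Set.InjOn π U ∧
    ∀ w ∈ U, (w ∉ R ∨ π w ∉ R) → π (π w) = w

variable {G : SimpleGraph W}

lemma Good.mono {R R' U : Finset W} (h : Good G R U) (hR : R ⊆ R') : Good G R' U := by
  obtain ⟨π, h1, h2, h3⟩ := h
  exact ⟨π, h1, h2, fun w hw h4 => h3 w hw (h4.imp (fun h h' => h (hR h')) (fun h h' => h (hR h')))⟩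

lemma good_empty (R : Finset W) : Good G R ∅ := ⟨id, by simp, by simp, by simp⟩

lemma Good.union {R A B : Finset W} (hA : Good G R A) (hB : Good G R B) (hAB : Disjoint A B) :
    Good G R (A ∪ B) := by
  obtain ⟨α, a1, a2, a3⟩ := hA
  obtain ⟨β, b1, b2, b3⟩ := hB
  have hBA : ∀ w ∈ B, w ∉ A := fun w hw hw' => disjoint_left.1 hAB hw' hw
  refine ⟨fun w => if w ∈ A then α w else β w, ?_, ?_, ?_⟩
  · intro w hw
    rcases mem_union.1 hw with h | h
    · simp only [h, if_true]
      exact ⟨mem_union_left _ (a1 w h).1, (a1 w h).2⟩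
    · simp only [hBA w h, if_false]
      exact ⟨mem_union_right _ (b1 w h).1, (b1 w h).2⟩
  · intro w hw w' hw' hww
    rw [mem_coe, mem_union] at hw hw'
    rcases hw with h | h <;> rcases hw' with h' | h'
    · simp only [h, h', if_true] at hww
      exact a2 h h' hww
    · simp only [h, hBA w' h', if_true, if_false] at hww
      exact absurd (hww ▸ (a1 w h).1) (hBA _ (b1 w' h').1)
    · simp only [h', hBA w h, if_true, if_false] at hww
      exact absurd (hww ▸ (a1 w' h').1) (hBA _ (b1 w h).1)
    · simp only [hBA w h, hBA w' h', if_false] at hww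
      exact b2 h h' hww
  · intro w hw h1
    rcases mem_union.1 hw with h | h
    · simp only [h, if_true] at h1 ⊢
      simp only [(a1 w h).1, if_true]
      exact a3 w h h1
    · simp only [hBA w h, if_false] at h1 ⊢
      simp only [hBA _ (b1 w h).1, if_false]
      exact b3 w h h1

lemma good_biUnion {ι : Type*} [DecidableEq ι] {R : Finset W} (I : Finset ι)
    (B : ι → Finset W) :
    (∀ i ∈ I, Good G R (B i)) → (∀ i ∈ I, ∀ j ∈ I, i ≠ j → Disjoint (B i) (B j)) →
      Good G R (I.biUnion B) := by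
  induction I using Finset.induction_on with
  | empty => intro _ _; exact good_empty R
  | insert a I ha ih =>
    intro h1 h2
    rw [biUnion_insert]
    refine (h1 a (mem_insert_self _ _)).union
      (ih (fun i hi => h1 i (mem_insert_of_mem hi))
        fun i hi j hj => h2 i (mem_insert_of_mem hi) j (mem_insert_of_mem hj)) ?_
    rw [disjoint_biUnion_right]
    intro i hi
    exact h2 a (mem_insert_self _ _) i (mem_insert_of_mem hi) fun h => ha (h ▸ hi)

/-- An edge is a perfect matching of its ends. -/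
lemma good_pair {R : Finset W} {s c : W} (h : G.Adj s c) : Good G R {s, c} := by
  have hne : s ≠ c := h.ne
  refine ⟨fun w => if w = s then c else s, ?_, ?_, ?_⟩
  · intro w hw
    rw [mem_insert, mem_singleton] at hw
    rcases hw with rfl | rfl
    · simp [h]
    · simp [hne.symm, h.symm]
  · intro w hw w' hw' hww
    simp only [coe_insert, coe_singleton, Set.mem_insert_iff, Set.mem_singleton_iff] at hw hw'
    by_cases h1 : w = s <;> by_cases h2 : w' = s
    · rw [h1, h2]
    · simp only [h1, h2, if_true, if_false] at hww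
      exact absurd hww.symm hne
    · simp only [h1, h2, if_true, if_false] at hww
      exact absurd hww hne
    · rw [hw.resolve_left h1, hw'.resolve_left h2]
  · intro w hw _
    rw [mem_insert, mem_singleton] at hw
    rcases hw with rfl | rfl
    · simp [hne.symm]
    · simp [hne.symm]

/-- Mendelsohn-Dulmage: a matching which covers `S` and `T`. -/
lemma mendelsohn_dulmage {A B : Type*} [DecidableEq A] [DecidableEq B] (S : Finset A)
    (T : Finset B) (f : A → B) (g : B → A) (hf : Set.InjOn f S) (hg : Set.InjOn g T) :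
    ∃ M : Finset (A × B), (∀ e ∈ M, (e.1 ∈ S ∧ e.2 = f e.1) ∨ (e.2 ∈ T ∧ e.1 = g e.2)) ∧
      (∀ e ∈ M, ∀ e' ∈ M, e ≠ e' → e.1 ≠ e'.1 ∧ e.2 ≠ e'.2) ∧
      (∀ s ∈ S, ∃ e ∈ M, e.1 = s) ∧ ∀ t ∈ T, ∃ e ∈ M, e.2 = t := by
  classical
  set M₁ : Finset (A × B) := S.image fun s => (s, f s) with hM₁
  set M₂ : Finset (A × B) := T.image fun t => (g t, t) with hM₂
  have h1 : ∀ e, e ∈ M₁ ↔ e.1 ∈ S ∧ e.2 = f e.1 := by
    intro e
    rw [hM₁, mem_image]
    constructor
    · rintro ⟨s, hs, rfl⟩; exact ⟨hs, rfl⟩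
    · rintro ⟨hs, he⟩; exact ⟨e.1, hs, Prod.ext rfl he.symm⟩
  have h2 : ∀ e, e ∈ M₂ ↔ e.2 ∈ T ∧ e.1 = g e.2 := by
    intro e
    rw [hM₂, mem_image]
    constructor
    · rintro ⟨s, hs, rfl⟩; exact ⟨hs, rfl⟩
    · rintro ⟨hs, he⟩; exact ⟨e.2, hs, Prod.ext he.symm rfl⟩
  let c : A × B → ℕ := fun e => if e ∈ M₂ then 0 else 1
  have hc0 : ∀ e, e ∈ M₂ → c e = 0 := fun e he => if_pos he
  have hc1 : ∀ e, e ∉ M₂ → c e = 1 := fun e he => if_neg he
  have hprop : Proper Prod.fst Prod.snd (M₁ ∪ M₂) c := by
    intro e he e' he' hne hab hcc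
    by_cases h : e ∈ M₂
    · have h' : e' ∈ M₂ := by
        by_contra h'
        rw [hc0 e h, hc1 e' h'] at hcc
        exact absurd hcc (by norm_num)
      rw [h2] at h h'
      rcases hab with hab | hab
      · apply hne
        have : e.2 = e'.2 := hg h.1 h'.1 (by rw [← h.2, ← h'.2]; exact hab)
        exact Prod.ext hab this
      · apply hne
        refine Prod.ext ?_ hab
        rw [h.2, h'.2, hab]
    · have h' : e' ∉ M₂ := by
        intro h'
        rw [hc1 e h, hc0 e' h'] at hcc
        exact absurd hcc (by norm_num)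
      have a := (h1 e).1 ((mem_union.1 he).resolve_right h)
      have a' := (h1 e').1 ((mem_union.1 he').resolve_right h')
      rcases hab with hab | hab
      · apply hne
        refine Prod.ext hab ?_
        rw [a.2, a'.2, hab]
      · apply hne
        have : e.1 = e'.1 := hf a.1 a'.1 (by rw [← a.2, ← a'.2]; exact hab)
        exact Prod.ext this hab
  obtain ⟨M, hMS, hM, hdom⟩ := exists_kernel Prod.fst Prod.snd c (M₁ ∪ M₂) hprop
  refine ⟨M, fun e he => ?_, hM, fun s hs => ?_, fun t ht => ?_⟩
  · rcases mem_union.1 (hMS he) with h | h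
    · exact Or.inl ((h1 e).1 h)
    · exact Or.inr ((h2 e).1 h)
  · by_contra hcon
    push Not at hcon
    have he : (s, f s) ∈ M₁ := (h1 _).2 ⟨hs, rfl⟩
    have heM : (s, f s) ∉ M := fun h => hcon _ h rfl
    obtain ⟨e', he', h | h⟩ := hdom _ (mem_union_left _ he) heM
    · exact hcon e' he' h.1
    · have h3 : e' ∉ M₂ := by
        intro h4
        rw [hc0 e' h4] at h
        exact absurd h.2 (Nat.not_lt_zero _)
      have h4 := (h1 e').1 ((mem_union.1 (hMS he')).resolve_right h3)
      have h5 : e'.1 = s := hf h4.1 hs (by rw [← h4.2]; exact h.1)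
      exact hcon e' he' h5
  · by_contra hcon
    push Not at hcon
    have he : (g t, t) ∈ M₂ := (h2 _).2 ⟨ht, rfl⟩
    have heM : (g t, t) ∉ M := fun h => hcon _ h rfl
    obtain ⟨e', he', h | h⟩ := hdom _ (mem_union_right _ he) heM
    · rw [hc0 _ he] at h
      exact absurd h.2 (Nat.not_lt_zero _)
    · exact hcon e' he' h.1

/-- A factor-critical set with an edge has a permutation along edges. -/
lemma good_of_factorCritical {R C : Finset W} (hCR : C ⊆ R)
    (hfc : ∀ c ∈ C, Good G ∅ (C.erase c)) {z z' : W} (hz : z ∈ C) (hz' : z' ∈ C)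
    (hadj : G.Adj z z') : Good G R C := by
  classical
  obtain ⟨α, a1, a2, _⟩ := hfc z hz
  obtain ⟨β, b1, b2, _⟩ := hfc z' hz'
  -- Hall
  let t : {w // w ∈ C} → Finset W := fun w => C.filter fun v => G.Adj w.1 v
  have hH : ∀ s : Finset {w // w ∈ C}, s.card ≤ (s.biUnion t).card := by
    intro s
    set X : Finset W := s.image Subtype.val with hX
    have hXc : X.card = s.card := card_image_of_injective _ Subtype.val_injective
    have hXC : X ⊆ C := by
      intro w hw
      obtain ⟨w', _, rfl⟩ := mem_image.1 hw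
      exact w'.2
    have hN : ∀ w ∈ X, ∀ v ∈ C, G.Adj w v → v ∈ s.biUnion t := by
      intro w hw v hv hwv
      obtain ⟨w', hw', rfl⟩ := mem_image.1 hw
      exact mem_biUnion.2 ⟨w', hw', mem_filter.2 ⟨hv, hwv⟩⟩
    rw [← hXc]
    by_cases hzX : z ∈ X
    · by_cases hzX' : z' ∈ X
      · -- both
        have h1 : ((X.erase z).image α ∪ {z}).card = X.card := by
          rw [card_union_of_disjoint, card_image_of_injOn, card_singleton, card_erase_of_mem hzX]
          · have : 0 < X.card := card_pos.2 ⟨z, hzX⟩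
            omega
          · intro w hw w' hw' h
            rw [mem_coe, mem_erase] at hw hw'
            exact a2 (mem_erase.2 ⟨hw.1, hXC hw.2⟩) (mem_erase.2 ⟨hw'.1, hXC hw'.2⟩) h
          · rw [disjoint_singleton_right, mem_image]
            rintro ⟨w, hw, h⟩
            have := (a1 w (mem_erase.2 ⟨(mem_erase.1 hw).1, hXC (mem_erase.1 hw).2⟩)).1
            rw [h] at this
            exact notMem_erase z C this
        rw [← h1]
        refine card_le_card fun v hv => ?_
        rcases mem_union.1 hv with h | h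
        · obtain ⟨w, hw, rfl⟩ := mem_image.1 h
          have h2 := a1 w (mem_erase.2 ⟨(mem_erase.1 hw).1, hXC (mem_erase.1 hw).2⟩)
          exact hN w (mem_erase.1 hw).2 _ (mem_of_mem_erase h2.1) h2.2
        · rw [mem_singleton.1 h]
          exact hN z' hzX' z hz hadj.symm
      · -- `z' ∉ X`
        rw [← card_image_of_injOn (s := X) (f := β)]
        · refine card_le_card fun v hv => ?_
          obtain ⟨w, hw, rfl⟩ := mem_image.1 hv
          have h2 := b1 w (mem_erase.2 ⟨fun h => hzX' (h ▸ hw), hXC hw⟩)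
          exact hN w hw _ (mem_of_mem_erase h2.1) h2.2
        · intro w hw w' hw' h
          rw [mem_coe] at hw hw'
          exact b2 (mem_erase.2 ⟨fun h => hzX' (h ▸ hw), hXC hw⟩)
            (mem_erase.2 ⟨fun h => hzX' (h ▸ hw'), hXC hw'⟩) h
    · rw [← card_image_of_injOn (s := X) (f := α)]
      · refine card_le_card fun v hv => ?_
        obtain ⟨w, hw, rfl⟩ := mem_image.1 hv
        have h2 := a1 w (mem_erase.2 ⟨fun h => hzX (h ▸ hw), hXC hw⟩)
        exact hN w hw _ (mem_of_mem_erase h2.1) h2.2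
      · intro w hw w' hw' h
        rw [mem_coe] at hw hw'
        exact a2 (mem_erase.2 ⟨fun h => hzX (h ▸ hw), hXC hw⟩)
          (mem_erase.2 ⟨fun h => hzX (h ▸ hw'), hXC hw'⟩) h
  obtain ⟨f, hinj, hf⟩ := (all_card_le_biUnion_card_iff_exists_injective t).1 hH
  have hf' : ∀ w : {w // w ∈ C}, f w ∈ C ∧ G.Adj w.1 (f w) := fun w => mem_filter.1 (hf w)
  refine ⟨fun w => if h : w ∈ C then f ⟨w, h⟩ else w, ?_, ?_, ?_⟩
  · intro w hw
    simp only [hw, dif_pos]
    exact hf' ⟨w, hw⟩
  · intro w hw w' hw' h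
    rw [mem_coe] at hw hw'
    simp only [hw, hw', dif_pos] at h
    exact congrArg Subtype.val (hinj h)
  · intro w hw h
    exfalso
    simp only [hw, dif_pos] at h
    rcases h with h | h
    · exact h (hCR hw)
    · exact h (hCR (hf' ⟨w, hw⟩).1)

section

variable [Fintype W]

/-- A system of maximal deficiency with maximal `S`. -/
lemma exists_top (G : SimpleGraph W) (U : Finset W) :
    ∃ S 𝒞, Sys G U S 𝒞 ∧
      (∀ S' 𝒞', Sys G U S' 𝒞' → (𝒞'.card : ℤ) - S'.card ≤ 𝒞.card - S.card) ∧
      ∀ S' 𝒞', Sys G U S' 𝒞' → (𝒞'.card : ℤ) - S'.card = 𝒞.card - S.card →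
        S'.card ≤ S.card := by
  classical
  let all : Finset (Finset W × Finset (Finset W)) := univ.filter fun p => Sys G U p.1 p.2
  have h0 : ((∅, ∅) : Finset W × Finset (Finset W)) ∈ all := by
    simp only [all, mem_filter, mem_univ, true_and]
    exact ⟨by simp, by simp, by simp, by simp, by simp, by simp⟩
  obtain ⟨p₀, hp₀, hmax⟩ := all.exists_max_image (fun p => (p.2.card : ℤ) - p.1.card) ⟨_, h0⟩
  obtain ⟨p, hp, hmax'⟩ := (all.filter fun p => (p.2.card : ℤ) - p.1.card =
    p₀.2.card - p₀.1.card).exists_max_image (fun p => p.1.card) ⟨p₀, by simp [hp₀]⟩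
  obtain ⟨hp1, hp2⟩ := mem_filter.1 hp
  refine ⟨p.1, p.2, (mem_filter.1 hp1).2, fun S' 𝒞' h => ?_, fun S' 𝒞' h he => ?_⟩
  · rw [hp2]
    exact hmax (S', 𝒞') (mem_filter.2 ⟨mem_univ _, h⟩)
  · refine hmax' (S', 𝒞') (mem_filter.2 ⟨mem_filter.2 ⟨mem_univ _, h⟩, ?_⟩)
    rw [← hp2]
    exact he

/-- Adding a closed set to a system. -/
lemma Sys.insert {U S : Finset W} {𝒞 : Finset (Finset W)} (h : Sys G U S 𝒞) {Z : Finset W}
    (hZU : Z ⊆ U) (hZS : Disjoint Z S) (hZC : ∀ C ∈ 𝒞, Disjoint Z C) (hodd : Odd Z.card)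
    (hcl : ∀ c ∈ Z, ∀ w ∈ U, G.Adj c w → w ∈ Z ∨ w ∈ S) :
    Sys G U S (insert Z 𝒞) ∧ (insert Z 𝒞).card = 𝒞.card + 1 := by
  refine ⟨⟨h.sub, ?_, ?_, ?_, ?_, ?_⟩, ?_⟩
  · intro C hC
    rcases mem_insert.1 hC with rfl | hC
    · exact hZU
    · exact h.csub C hC
  · intro C hC
    rcases mem_insert.1 hC with rfl | hC
    · exact hZS
    · exact h.disS C hC
  · intro C hC C' hC' hne
    rcases mem_insert.1 hC with e1 | e1 <;> rcases mem_insert.1 hC' with e2 | e2
    · exact absurd (e1.trans e2.symm) hne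
    · rw [e1]; exact hZC C' e2
    · rw [e2]; exact (hZC C e1).symm
    · exact h.pd C e1 C' e2 hne
  · intro C hC
    rcases mem_insert.1 hC with rfl | hC
    · exact hodd
    · exact h.odd C hC
  · intro C hC
    rcases mem_insert.1 hC with rfl | hC
    · exact hcl
    · exact h.cl C hC
  · rw [card_insert_of_notMem]
    intro hZ
    have h1 := hZC Z hZ
    rw [disjoint_self, bot_eq_empty] at h1
    rw [h1, card_empty] at hodd
    exact absurd hodd (by decide)

/-- The rest is closed. -/
lemma Sys.rest_closed {U S : Finset W} {𝒞 : Finset (Finset W)} (h : Sys G U S 𝒞) :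
    ∀ c ∈ U \ (S ∪ 𝒞.biUnion id), ∀ w ∈ U, G.Adj c w → w ∈ U \ (S ∪ 𝒞.biUnion id) ∨ w ∈ S := by
  intro c hc w hw hcw
  by_cases hwS : w ∈ S
  · exact Or.inr hwS
  · left
    rw [mem_sdiff, mem_union, not_or] at hc ⊢
    refine ⟨hw, hwS, fun hwC => ?_⟩
    obtain ⟨C, hC, hwC⟩ := mem_biUnion.1 hwC
    rcases h.cl C hC w hwC c hc.1 hcw.symm with h1 | h1
    · exact hc.2.2 (mem_biUnion.2 ⟨C, hC, h1⟩)
    · exact hc.2.1 h1

lemma Sys.card_biUnion {U S : Finset W} {𝒞 : Finset (Finset W)} (h : Sys G U S 𝒞) :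
    (𝒞.biUnion id).card = ∑ C ∈ 𝒞, C.card := by
  rw [Finset.card_biUnion]
  · rfl
  · intro C hC C' hC' hne
    exact h.pd C hC C' hC' hne

lemma Sys.parity {U S : Finset W} {𝒞 : Finset (Finset W)} (h : Sys G U S 𝒞) :
    (U \ (S ∪ 𝒞.biUnion id)).card + S.card + (𝒞.biUnion id).card = U.card := by
  have h1 : Disjoint S (𝒞.biUnion id) := by
    rw [disjoint_biUnion_right]
    exact fun C hC => (h.disS C hC).symm
  have h2 : S ∪ 𝒞.biUnion id ⊆ U := by
    refine union_subset h.sub (biUnion_subset.2 fun C hC => h.csub C hC)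
  have h3 := card_sdiff_add_card_eq_card h2
  rw [card_union_of_disjoint h1] at h3
  omega

lemma sum_odd_parity (𝒞 : Finset (Finset W)) (h : ∀ C ∈ 𝒞, Odd C.card) :
    (∑ C ∈ 𝒞, C.card) % 2 = 𝒞.card % 2 := by
  induction 𝒞 using Finset.induction_on with
  | empty => simp
  | insert C 𝒞 hC ih =>
    rw [sum_insert hC, card_insert_of_notMem hC]
    have h1 := ih fun C' hC' => h C' (mem_insert_of_mem hC')
    have h2 := Nat.odd_iff.1 (h C (mem_insert_self _ _))
    omega

/-- **Hybrid Tutte theorem.** -/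
theorem hybrid (G : SimpleGraph W) (U : Finset W) :
    ∀ R : Finset W, (∀ S 𝒞, Sys G U S 𝒞 → (∀ C ∈ 𝒞, C.card = 1 ∨ ¬ C ⊆ R) →
      𝒞.card ≤ S.card) → Good G R U := by
  classical
  induction U using Finset.strongInduction with
  | H U ih =>
  intro R hyp
  by_cases hU0 : U = ∅
  · rw [hU0]; exact good_empty R
  obtain ⟨u₀, _⟩ := nonempty_iff_ne_empty.2 hU0
  have : Nonempty W := ⟨u₀⟩
  obtain ⟨S, 𝒞, hs, hmax, hmax'⟩ := exists_top G U
  -- (ii) everything is covered
  have hcov : U \ (S ∪ 𝒞.biUnion id) = ∅ := by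
    by_contra hne
    set Z := U \ (S ∪ 𝒞.biUnion id) with hZ
    have hZU : Z ⊆ U := sdiff_subset
    have hZS : Disjoint Z S :=
      disjoint_of_subset_right subset_union_left sdiff_disjoint
    have hZC : ∀ C ∈ 𝒞, Disjoint Z C := fun C hC =>
      disjoint_of_subset_right ((subset_biUnion_of_mem id hC).trans subset_union_right)
        sdiff_disjoint
    rcases Nat.even_or_odd Z.card with hev | hodd
    · obtain ⟨z, hz⟩ := nonempty_iff_ne_empty.2 hne
      have hzS : z ∉ S := fun h => disjoint_left.1 hZS hz h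
      -- add `z` to `S`
      have hs' : Sys G U (Insert.insert z S) 𝒞 := by
        refine ⟨insert_subset (hZU hz) hs.sub, hs.csub, fun C hC => ?_, hs.pd, hs.odd,
          fun C hC c hc w hw hcw => ?_⟩
        · rw [disjoint_insert_right]
          exact ⟨fun h => disjoint_left.1 (hZC C hC) hz h, hs.disS C hC⟩
        · exact (hs.cl C hC c hc w hw hcw).imp id fun h => mem_insert_of_mem h
      obtain ⟨h1, h2⟩ := hs'.insert (Z := Z.erase z) ((erase_subset _ _).trans hZU)
        (by
          rw [disjoint_insert_right]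
          exact ⟨notMem_erase z Z, disjoint_of_subset_left (erase_subset _ _) hZS⟩)
        (fun C hC => disjoint_of_subset_left (erase_subset _ _) (hZC C hC))
        (by
          rw [card_erase_of_mem hz]
          exact Nat.Even.sub_odd (card_pos.2 ⟨z, hz⟩) hev odd_one)
        (by
          intro c hc w hw hcw
          rcases hs.rest_closed c (mem_of_mem_erase hc) w hw hcw with h | h
          · by_cases hwz : w = z
            · right; rw [hwz]; exact mem_insert_self _ _
            · left; exact mem_erase.2 ⟨hwz, h⟩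
          · right; exact mem_insert_of_mem h)
      have h3 := hmax' _ _ h1 (by
        rw [h2, card_insert_of_notMem hzS]; push_cast; ring)
      rw [card_insert_of_notMem hzS] at h3
      omega
    · obtain ⟨h1, h2⟩ := hs.insert hZU hZS hZC hodd hs.rest_closed
      have h3 := hmax _ _ h1
      rw [h2] at h3
      push_cast at h3
      linarith
  -- (i) factor critical
  have hfc : ∀ C ∈ 𝒞, ∀ c ∈ C, Good G ∅ (C.erase c) := by
    intro C hC c hc
    by_contra hcon
    have hlt : C.erase c ⊂ U :=
      lt_of_lt_of_le (erase_ssubset hc) (hs.csub C hC)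
    have h1 := mt (ih (C.erase c) hlt ∅) hcon
    push Not at h1
    obtain ⟨T, 𝒟, hD, _, hlt'⟩ := h1
    -- a bigger family with the right parity
    obtain ⟨𝒟', hD', hge⟩ : ∃ 𝒟', Sys G (C.erase c) T 𝒟' ∧ T.card + 2 ≤ 𝒟'.card := by
      have hpar := hD.parity
      rw [hD.card_biUnion] at hpar
      have hpar2 := sum_odd_parity 𝒟 hD.odd
      have hCodd := Nat.odd_iff.1 (hs.odd C hC)
      have hCe : (C.erase c).card + 1 = C.card := by
        rw [card_erase_of_mem hc]
        have : 0 < C.card := card_pos.2 ⟨c, hc⟩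
        omega
      rcases Nat.even_or_odd (C.erase c \ (T ∪ 𝒟.biUnion id)).card with hev | hodd
      · refine ⟨𝒟, hD, ?_⟩
        have := Nat.even_iff.1 hev
        omega
      · obtain ⟨h2, h3⟩ := hD.insert (Z := C.erase c \ (T ∪ 𝒟.biUnion id)) sdiff_subset
          (disjoint_of_subset_right subset_union_left sdiff_disjoint)
          (fun D hD => disjoint_of_subset_right
            ((subset_biUnion_of_mem id hD).trans subset_union_right) sdiff_disjoint)
          hodd hD.rest_closed
        exact ⟨_, h2, by omega⟩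
    -- the new system
    have hTC : T ⊆ C := hD'.sub.trans (erase_subset _ _)
    have hcT : c ∉ T := fun h => notMem_erase c C (hD'.sub h)
    have hdTS : Disjoint T S := disjoint_of_subset_left hTC (hs.disS C hC)
    have hcS : c ∉ S := fun h => disjoint_left.1 (hs.disS C hC) hc h
    have hsub : ∀ D ∈ 𝒟', D ⊆ C := fun D hD => (hD'.csub D hD).trans (erase_subset _ _)
    have hDne : ∀ D ∈ 𝒟', D.Nonempty := fun D hD => card_pos.1 (hD'.odd D hD).pos
    have hCD : Disjoint (𝒞.erase C) 𝒟' := by
      rw [disjoint_left]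
      intro D hD1 hD2
      obtain ⟨x, hx⟩ := hDne D hD2
      exact disjoint_left.1 (hs.pd C hC D (mem_of_mem_erase hD1) (ne_of_mem_erase hD1).symm)
        (hsub D hD2 hx) hx
    have hnew : Sys G U (S ∪ Insert.insert c T) (𝒞.erase C ∪ 𝒟') := by
      refine ⟨?_, ?_, ?_, ?_, ?_, ?_⟩
      · refine union_subset hs.sub (insert_subset (hs.csub C hC hc) (hTC.trans (hs.csub C hC)))
      · intro D hD
        rcases mem_union.1 hD with h | h
        · exact hs.csub D (mem_of_mem_erase h)
        · exact (hsub D h).trans (hs.csub C hC)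
      · intro D hD
        rw [disjoint_union_right]
        rcases mem_union.1 hD with h | h
        · refine ⟨hs.disS D (mem_of_mem_erase h), ?_⟩
          refine disjoint_of_subset_right (insert_subset hc hTC) ?_
          exact hs.pd D (mem_of_mem_erase h) C hC (ne_of_mem_erase h)
        · refine ⟨disjoint_of_subset_left (hsub D h) (hs.disS C hC), ?_⟩
          rw [disjoint_insert_right]
          exact ⟨fun h' => notMem_erase c C (hD'.csub D h h'), hD'.disS D h⟩
      · intro D hD E hE hne
        rcases mem_union.1 hD with h | h <;> rcases mem_union.1 hE with h' | h'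
        · exact hs.pd D (mem_of_mem_erase h) E (mem_of_mem_erase h') hne
        · exact disjoint_of_subset_right (hsub E h')
            (hs.pd D (mem_of_mem_erase h) C hC (ne_of_mem_erase h))
        · exact disjoint_of_subset_left (hsub D h)
            (hs.pd C hC E (mem_of_mem_erase h') (ne_of_mem_erase h').symm)
        · exact hD'.pd D h E h' hne
      · intro D hD
        rcases mem_union.1 hD with h | h
        · exact hs.odd D (mem_of_mem_erase h)
        · exact hD'.odd D h
      · intro D hD x hx w hw hxw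
        rcases mem_union.1 hD with h | h
        · exact (hs.cl D (mem_of_mem_erase h) x hx w hw hxw).imp id fun h' => mem_union_left _ h'
        · rcases hs.cl C hC x (hsub D h hx) w hw hxw with h' | h'
          · by_cases hwc : w = c
            · right; rw [hwc]; exact mem_union_right _ (mem_insert_self _ _)
            · rcases hD'.cl D h x hx w (mem_erase.2 ⟨hwc, h'⟩) hxw with h'' | h''
              · exact Or.inl h''
              · right; exact mem_union_right _ (mem_insert_of_mem h'')
          · right; exact mem_union_left _ h'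
    have hc1 : (𝒞.erase C ∪ 𝒟').card + 1 = 𝒞.card + 𝒟'.card := by
      rw [card_union_of_disjoint hCD, card_erase_of_mem hC]
      have : 0 < 𝒞.card := card_pos.2 ⟨C, hC⟩
      omega
    have hc2 : (S ∪ Insert.insert c T).card = S.card + T.card + 1 := by
      rw [card_union_of_disjoint, card_insert_of_notMem hcT]
      · omega
      · rw [disjoint_insert_right]
        exact ⟨hcS, hdTS.symm⟩
    have h4 := hmax _ _ hnew
    have h5 : ((𝒞.erase C ∪ 𝒟').card : ℤ) - (S ∪ Insert.insert c T).card =
        𝒞.card - S.card := by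
      refine le_antisymm h4 ?_
      omega
    have h6 := hmax' _ _ hnew h5
    omega
  -- (iii) `S` is matched into the members
  obtain ⟨f, hfinj, hf⟩ : ∃ f : W → Finset W, Set.InjOn f S ∧
      ∀ s ∈ S, f s ∈ 𝒞 ∧ ∃ c ∈ f s, G.Adj s c := by
    let t : {s // s ∈ S} → Finset (Finset W) := fun s => 𝒞.filter fun C => ∃ c ∈ C, G.Adj s.1 c
    have hH : ∀ X : Finset {s // s ∈ S}, X.card ≤ (X.biUnion t).card := by
      intro X
      by_contra hcon
      push Not at hcon
      set X' : Finset W := X.image Subtype.val with hX'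
      have hXc : X'.card = X.card := card_image_of_injective _ Subtype.val_injective
      have hXS : X' ⊆ S := by
        intro w hw
        obtain ⟨w', _, rfl⟩ := mem_image.1 hw
        exact w'.2
      have hTC : X.biUnion t ⊆ 𝒞 := biUnion_subset.2 fun s _ => filter_subset _ _
      have hnew : Sys G U (S \ X') (𝒞 \ X.biUnion t) := by
        refine ⟨sdiff_subset.trans hs.sub, fun C hC => hs.csub C (mem_sdiff.1 hC).1,
          fun C hC => disjoint_of_subset_right sdiff_subset (hs.disS C (mem_sdiff.1 hC).1),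
          fun C hC C' hC' => hs.pd C (mem_sdiff.1 hC).1 C' (mem_sdiff.1 hC').1,
          fun C hC => hs.odd C (mem_sdiff.1 hC).1, fun C hC c hc w hw hcw => ?_⟩
        rcases hs.cl C (mem_sdiff.1 hC).1 c hc w hw hcw with h | h
        · exact Or.inl h
        · right
          rw [mem_sdiff]
          refine ⟨h, fun hX => (mem_sdiff.1 hC).2 ?_⟩
          obtain ⟨w', hw', rfl⟩ := mem_image.1 hX
          exact mem_biUnion.2 ⟨w', hw', mem_filter.2 ⟨(mem_sdiff.1 hC).1, c, hc, hcw.symm⟩⟩
      have h1 := hmax _ _ hnew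
      have h2 := card_sdiff_add_card_eq_card hXS
      have h3 := card_sdiff_add_card_eq_card hTC
      omega
    obtain ⟨f, hinj, hf⟩ := (all_card_le_biUnion_card_iff_exists_injective t).1 hH
    refine ⟨fun s => if h : s ∈ S then f ⟨s, h⟩ else ∅, ?_, ?_⟩
    · intro s hs s' hs' h
      rw [mem_coe] at hs hs'
      simp only [hs, hs', dif_pos] at h
      exact congrArg Subtype.val (hinj h)
    · intro s hs
      simp only [hs, dif_pos]
      exact mem_filter.1 (hf ⟨s, hs⟩)
  -- (iv) the bad members are matched into `S`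
  set ℬ : Finset (Finset W) := 𝒞.filter fun C => C.card = 1 ∨ ¬ C ⊆ R with hℬ
  obtain ⟨g, hginj, hg⟩ : ∃ g : Finset W → W, Set.InjOn g ℬ ∧
      ∀ C ∈ ℬ, g C ∈ S ∧ ∃ c ∈ C, G.Adj (g C) c := by
    let t : {C // C ∈ ℬ} → Finset W := fun C => S.filter fun s => ∃ c ∈ C.1, G.Adj s c
    have hH : ∀ X : Finset {C // C ∈ ℬ}, X.card ≤ (X.biUnion t).card := by
      intro X
      set X' : Finset (Finset W) := X.image Subtype.val with hX'
      have hXc : X'.card = X.card := card_image_of_injective _ Subtype.val_injective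
      have hXB : ∀ C ∈ X', C ∈ 𝒞 ∧ (C.card = 1 ∨ ¬ C ⊆ R) := by
        intro C hC
        obtain ⟨C', _, rfl⟩ := mem_image.1 hC
        exact mem_filter.1 C'.2
      have hTS : X.biUnion t ⊆ S := biUnion_subset.2 fun s _ => filter_subset _ _
      rw [← hXc]
      refine hyp _ _ ⟨hTS.trans hs.sub, fun C hC => hs.csub C (hXB C hC).1,
        fun C hC => disjoint_of_subset_right hTS (hs.disS C (hXB C hC).1),
        fun C hC C' hC' => hs.pd C (hXB C hC).1 C' (hXB C' hC').1,
        fun C hC => hs.odd C (hXB C hC).1, fun C hC c hc w hw hcw => ?_⟩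
        fun C hC => (hXB C hC).2
      rcases hs.cl C (hXB C hC).1 c hc w hw hcw with h | h
      · exact Or.inl h
      · right
        obtain ⟨C', hC', rfl⟩ := mem_image.1 hC
        exact mem_biUnion.2 ⟨C', hC', mem_filter.2 ⟨h, c, hc, hcw.symm⟩⟩
    obtain ⟨g, hinj, hg⟩ := (all_card_le_biUnion_card_iff_exists_injective t).1 hH
    refine ⟨fun C => if h : C ∈ ℬ then g ⟨C, h⟩ else Classical.arbitrary W, ?_, ?_⟩
    · intro s hs s' hs' h
      rw [mem_coe] at hs hs'
      simp only [hs, hs', dif_pos] at h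
      exact congrArg Subtype.val (hinj h)
    · intro s hs
      simp only [hs, dif_pos]
      exact mem_filter.1 (hg ⟨s, hs⟩)
  -- (v) one matching
  obtain ⟨M, hMe, hMm, hMS, hMB⟩ := mendelsohn_dulmage S ℬ f g hfinj hginj
  have hM1 : ∀ e ∈ M, e.1 ∈ S ∧ e.2 ∈ 𝒞 ∧ ∃ c ∈ e.2, G.Adj e.1 c := by
    intro e he
    rcases hMe e he with h | h
    · have := hf e.1 h.1
      rw [← h.2] at this
      exact ⟨h.1, this⟩
    · have := hg e.2 h.1
      rw [← h.2] at this
      exact ⟨this.1, (mem_filter.1 h.1).1, this.2⟩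
  have hMfst : ∀ e ∈ M, ∀ e' ∈ M, e.1 = e'.1 → e = e' := by
    intro e he e' he' h
    by_contra hne
    exact (hMm e he e' he' hne).1 h
  have hMsnd : ∀ e ∈ M, ∀ e' ∈ M, e.2 = e'.2 → e = e' := by
    intro e he e' he' h
    by_contra hne
    exact (hMm e he e' he' hne).2 h
  -- (vi) blocks
  let B : Finset W → Finset W := fun C => C ∪ S.filter fun s => (s, C) ∈ M
  have hU : U = 𝒞.biUnion B := by
    ext w
    rw [mem_biUnion]
    constructor
    · intro hw
      have hw' : w ∈ S ∪ 𝒞.biUnion id := by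
        by_contra h
        have : w ∈ U \ (S ∪ 𝒞.biUnion id) := mem_sdiff.2 ⟨hw, h⟩
        rw [hcov] at this
        exact notMem_empty _ this
      rcases mem_union.1 hw' with h | h
      · obtain ⟨e, he, hew⟩ := hMS w h
        refine ⟨e.2, (hM1 e he).2.1, mem_union_right _ (mem_filter.2 ⟨h, ?_⟩)⟩
        rw [← hew]
        exact he
      · obtain ⟨C, hC, hwC⟩ := mem_biUnion.1 h
        exact ⟨C, hC, mem_union_left _ hwC⟩
    · rintro ⟨C, hC, hw⟩
      rcases mem_union.1 hw with h | h
      · exact hs.csub C hC h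
      · exact hs.sub (mem_filter.1 h).1
  rw [hU]
  refine good_biUnion 𝒞 B ?_ ?_
  · intro C hC
    by_cases hex : ∃ s, (s, C) ∈ M
    · obtain ⟨s, hsM⟩ := hex
      obtain ⟨hsS, _, c, hc, hsc⟩ := hM1 _ hsM
      have hfilt : (S.filter fun s => (s, C) ∈ M) = {s} := by
        ext x
        rw [mem_filter, mem_singleton]
        constructor
        · rintro ⟨_, hx⟩
          exact congrArg Prod.fst (hMsnd _ hx _ hsM rfl)
        · rintro rfl
          exact ⟨hsS, hsM⟩
      have hB : B C = C.erase c ∪ {s, c} := by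
        change C ∪ (S.filter fun s => (s, C) ∈ M) = _
        rw [hfilt]
        ext x
        simp only [mem_union, mem_singleton, mem_erase, mem_insert]
        constructor
        · rintro (h | h)
          · by_cases hxc : x = c
            · exact Or.inr (Or.inr hxc)
            · exact Or.inl ⟨hxc, h⟩
          · exact Or.inr (Or.inl h)
        · rintro (h | h | h)
          · exact Or.inl h.2
          · exact Or.inr h
          · rw [h]; exact Or.inl hc
      rw [hB]
      refine ((hfc C hC c hc).mono (empty_subset R)).union (good_pair hsc) ?_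
      rw [disjoint_left]
      intro x hx hx'
      rw [mem_insert, mem_singleton] at hx'
      rcases hx' with rfl | rfl
      · exact disjoint_left.1 (hs.disS C hC) (mem_of_mem_erase hx) hsS
      · exact notMem_erase _ _ hx
    · have hB : B C = C := by
        change C ∪ (S.filter fun s => (s, C) ∈ M) = _
        rw [filter_eq_empty_iff.2 (fun s _ h => hex ⟨s, h⟩), union_empty]
      rw [hB]
      have hCB : C ∉ ℬ := by
        intro h
        obtain ⟨e, he, heC⟩ := hMB C h
        exact hex ⟨e.1, by rw [← heC]; exact he⟩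
      rw [hℬ, mem_filter] at hCB
      push Not at hCB
      obtain ⟨hc1, hCR⟩ := hCB hC
      obtain ⟨c, hc⟩ := card_pos.1 (hs.odd C hC).pos
      have h2 : 0 < (C.erase c).card := by
        rw [card_erase_of_mem hc]
        have : 0 < C.card := card_pos.2 ⟨c, hc⟩
        omega
      obtain ⟨z, hz⟩ := card_pos.1 h2
      obtain ⟨α, a1, _, _⟩ := hfc C hC c hc
      exact good_of_factorCritical hCR (hfc C hC) (mem_of_mem_erase hz)
        (mem_of_mem_erase (a1 z hz).1) (a1 z hz).2
  · intro C hC C' hC' hne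
    have hCS := hs.disS C hC
    have hCS' := hs.disS C' hC'
    rw [disjoint_left]
    intro x hx hx'
    rcases mem_union.1 hx with h | h <;> rcases mem_union.1 hx' with h' | h'
    · exact disjoint_left.1 (hs.pd C hC C' hC' hne) h h'
    · exact disjoint_left.1 hCS h (mem_filter.1 h').1
    · exact disjoint_left.1 hCS' h' (mem_filter.1 h).1
    · exact hne (congrArg Prod.snd (hMfst _ (mem_filter.1 h).2 _ (mem_filter.1 h').2 rfl))

end

end Pool.Agent.UPS3
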