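import Mathlib

/-!
# Hybrid Tutte theorem

`G` a finite graph, `R` a set of vertices.  A *hybrid* cover of `G` is a permutation `π` of the
vertices with `G.Adj v (π v)` for all `v` all of whose cycles which are not contained in `R` are
2-cycles.  If for every vertex set `S` the number of components of `G - S` which are single vertices
or odd and not inside `R` is at most `|S|`, then a hybrid cover exists (`hybrid`).
-/

set_option autoImplicit false

open Finset

namespace Pool.Agent.HTutte

variable {V : Type*} [Fintype V] [DecidableEq V] (G : SimpleGraph V)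

/-- `G[U]` on the same vertex set. -/
def on (U : Finset V) : SimpleGraph V where
  Adj u v := G.Adj u v ∧ u ∈ U ∧ v ∈ U
  symm := ⟨fun _ _ h => ⟨h.1.symm, h.2.2, h.2.1⟩⟩
  loopless := ⟨fun _ h => h.1.ne rfl⟩

open Classical in
/-- The component of `v` in `G[U]`. -/
noncomputable def comp (U : Finset V) (v : V) : Finset V :=
  U.filter fun w => (on G U).Reachable v w

/-- The components of `G[U]`. -/
noncomputable def cc (U : Finset V) : Finset (Finset V) := U.image (comp G U)

variable {G}

theorem on_mono {U W : Finset V} (h : U ⊆ W) : on G U ≤ on G W :=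
  fun _ _ ha => ⟨ha.1, h ha.2.1, h ha.2.2⟩

theorem mem_comp {U : Finset V} {v w : V} : w ∈ comp G U v ↔ w ∈ U ∧ (on G U).Reachable v w := by
  simp [comp]

theorem mem_of_walk {U C : Finset V} (hcl : ∀ v ∈ C, ∀ w ∈ U, G.Adj v w → w ∈ C) {v w : V}
    (p : (on G U).Walk v w) (hv : v ∈ C) : (on G C).Reachable v w ∧ w ∈ C := by
  induction p with
  | nil => exact ⟨.rfl, hv⟩
  | cons h p ih =>
    have h2 := hcl _ hv _ h.2.2 h.1
    obtain ⟨h3, h4⟩ := ih h2
    exact ⟨(SimpleGraph.Adj.reachable (G := on G C) ⟨h.1, hv, h2⟩).trans h3, h4⟩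

theorem mem_cc_iff {U C : Finset V} : C ∈ cc G U ↔ C.Nonempty ∧ C ⊆ U ∧
    (∀ v ∈ C, ∀ w ∈ U, G.Adj v w → w ∈ C) ∧ ∀ v ∈ C, ∀ w ∈ C, (on G C).Reachable v w := by
  constructor
  · intro h
    obtain ⟨v, hv, rfl⟩ := Finset.mem_image.1 h
    have hcl : ∀ a ∈ comp G U v, ∀ b ∈ U, G.Adj a b → b ∈ comp G U v := by
      intro a ha b hb hab
      rw [mem_comp] at ha ⊢
      exact ⟨hb, ha.2.trans (SimpleGraph.Adj.reachable (G := on G U) ⟨hab, ha.1, hb⟩)⟩
    have hvv : v ∈ comp G U v := mem_comp.2 ⟨hv, .rfl⟩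
    refine ⟨⟨v, hvv⟩, fun w hw => (mem_comp.1 hw).1, hcl, ?_⟩
    have key : ∀ a ∈ comp G U v, (on G (comp G U v)).Reachable v a := by
      intro a ha
      obtain ⟨p⟩ := (mem_comp.1 ha).2
      exact (mem_of_walk hcl p hvv).1
    intro a ha b hb
    exact (key a ha).symm.trans (key b hb)
  · rintro ⟨⟨v, hv⟩, hCU, hcl, hconn⟩
    refine Finset.mem_image.2 ⟨v, hCU hv, ?_⟩
    ext w
    rw [mem_comp]
    constructor
    · rintro ⟨_, ⟨p⟩⟩
      exact (mem_of_walk hcl p hv).2
    · intro hw
      exact ⟨hCU hw, (hconn v hv w hw).mono (on_mono hCU)⟩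

theorem comp_mem {U : Finset V} {v : V} (hv : v ∈ U) : comp G U v ∈ cc G U :=
  Finset.mem_image_of_mem _ hv

theorem self_mem_comp {U : Finset V} {v : V} (hv : v ∈ U) : v ∈ comp G U v :=
  mem_comp.2 ⟨hv, .rfl⟩

theorem cc_sub {U C : Finset V} (h : C ∈ cc G U) : C ⊆ U := (mem_cc_iff.1 h).2.1

theorem cc_ne {U C : Finset V} (h : C ∈ cc G U) : C.Nonempty := (mem_cc_iff.1 h).1

theorem cc_closed {U C : Finset V} (h : C ∈ cc G U) : ∀ v ∈ C, ∀ w ∈ U, G.Adj v w → w ∈ C :=
  (mem_cc_iff.1 h).2.2.1

theorem cc_of_closed {U W C : Finset V} (h : C ∈ cc G W) (hU : C ⊆ U)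
    (hcl : ∀ v ∈ C, ∀ w ∈ U, G.Adj v w → w ∈ C) : C ∈ cc G U :=
  mem_cc_iff.2 ⟨cc_ne h, hU, hcl, (mem_cc_iff.1 h).2.2.2⟩

theorem cc_eq_of_mem {U C D : Finset V} (hC : C ∈ cc G U) (hD : D ∈ cc G U) {v : V}
    (h1 : v ∈ C) (h2 : v ∈ D) : C = D := by
  have key : ∀ {C D : Finset V}, C ∈ cc G U → D ∈ cc G U → v ∈ C → v ∈ D → C ⊆ D := by
    intro C D hC hD h1 h2 w hw
    obtain ⟨p⟩ := ((mem_cc_iff.1 hC).2.2.2 v h1 w hw).mono (on_mono (cc_sub hC))
    exact (mem_of_walk (cc_closed hD) p h2).2
  exact Finset.Subset.antisymm (key hC hD h1 h2) (key hD hC h2 h1)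

theorem cc_disj {U C D : Finset V} (hC : C ∈ cc G U) (hD : D ∈ cc G U) (h : C ≠ D) :
    Disjoint C D :=
  Finset.disjoint_left.2 fun _ h1 h2 => h (cc_eq_of_mem hC hD h1 h2)

theorem biUnion_cc (U : Finset V) : (cc G U).biUnion id = U := by
  ext v
  simp only [Finset.mem_biUnion, id]
  constructor
  · rintro ⟨C, hC, hv⟩
    exact cc_sub hC hv
  · intro hv
    exact ⟨_, comp_mem hv, self_mem_comp hv⟩

theorem card_cc (U : Finset V) : ∑ C ∈ cc G U, C.card = U.card := by
  conv_rhs => rw [← biUnion_cc (G := G) U]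
  rw [Finset.card_biUnion]
  · rfl
  · intro C hC D hD h
    exact cc_disj hC hD h

/-- number of odd components of `G[U]` -/
noncomputable def odd (G : SimpleGraph V) (U : Finset V) : ℕ := ((cc G U).filter (Odd ·.card)).card

theorem odd_parity (U : Finset V) : odd G U % 2 = U.card % 2 := by
  rw [← card_cc (G := G) U, odd, Finset.card_filter, Finset.sum_nat_mod, eq_comm,
    Finset.sum_nat_mod, eq_comm]
  congr 1
  refine Finset.sum_congr rfl fun C _ => ?_
  split_ifs with h
  · rw [Nat.odd_iff] at h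
    omega
  · rw [Nat.not_odd_iff_even, Nat.even_iff] at h
    omega

/-- `G[W]` has a perfect matching -/
def PM (G : SimpleGraph V) (W : Finset V) : Prop :=
  ∃ f : V → V, ∀ v ∈ W, f v ∈ W ∧ G.Adj v (f v) ∧ f (f v) = v

theorem PM.even {W : Finset V} (h : PM G W) : Even W.card := by
  obtain ⟨f, hf⟩ := h
  have : ∑ _v ∈ W, (1 : ZMod 2) = 0 := by
    refine Finset.sum_involution (fun a _ => f a) ?_ ?_ ?_ ?_
    · intro a _
      decide
    · intro a ha _
      exact (hf a ha).2.1.ne'
    · intro a ha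
      exact (hf a ha).1
    · intro a ha
      exact (hf a ha).2.2
  rw [Finset.sum_const, nsmul_eq_mul, mul_one, ZMod.natCast_eq_zero_iff] at this
  exact even_iff_two_dvd.2 this


/-! ### Tutte's theorem for induced subgraphs -/

theorem tutteSet (G : SimpleGraph V) (W : Finset V) :
    PM G W ∨ ∃ T ⊆ W, T.card < odd G (W \ T) := by
  classical
  by_cases hM : ∃ M : SimpleGraph.Subgraph (G.induce (W : Set V)), M.IsPerfectMatching
  · left
    obtain ⟨M, hM⟩ := hM
    have hM1 : ∀ v : (W : Set V), ∃! w, M.Adj v w := fun v => hM.1 (hM.2 v)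
    choose g hg hg2 using hM1
    refine ⟨fun v => if h : v ∈ W then (g ⟨v, h⟩).1 else v, fun v hv => ?_⟩
    have h1 := hg ⟨v, hv⟩
    simp only [hv, dif_pos]
    refine ⟨(g ⟨v, hv⟩).2, ?_, ?_⟩
    · have := M.adj_sub h1
      exact this
    · have h3 : (g ⟨v, hv⟩).1 ∈ W := (g ⟨v, hv⟩).2
      simp only [h3, dif_pos]
      have h4 := hg2 (g ⟨v, hv⟩) ⟨v, hv⟩ h1.symm
      have h5 : g ⟨(g ⟨v, hv⟩).1, h3⟩ = ⟨v, hv⟩ := h4.symm
      rw [h5]
  · right
    rw [SimpleGraph.tutte] at hM
    push Not at hM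
    obtain ⟨u, hu⟩ := hM
    set K := G.induce (W : Set V) with hK
    set K' := ((⊤ : K.Subgraph).deleteVerts u).coe with hK'
    let T : Finset V := (Set.toFinite u).toFinset.image Subtype.val
    have hTW : T ⊆ W := by
      intro v hv
      obtain ⟨x, _, rfl⟩ := Finset.mem_image.1 hv
      exact x.2
    have hTc : T.card = u.ncard := by
      rw [Finset.card_image_of_injective _ Subtype.val_injective, Set.ncard_eq_toFinset_card u]
    have hmemT : ∀ x : (W : Set V), x.1 ∈ T ↔ x ∈ u := by
      intro x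
      constructor
      · intro h
        obtain ⟨y, hy, hyx⟩ := Finset.mem_image.1 h
        rw [Subtype.val_injective hyx] at hy
        exact (Set.Finite.mem_toFinset _).1 hy
      · intro h
        exact Finset.mem_image_of_mem _ ((Set.Finite.mem_toFinset _).2 h)
    have hv0 : ∀ x : ((⊤ : K.Subgraph).deleteVerts u).verts, x.1 ∉ u := by
      rintro ⟨x, hx⟩
      rw [SimpleGraph.Subgraph.deleteVerts_verts] at hx
      exact hx.2
    have hv1 : ∀ x : ((⊤ : K.Subgraph).deleteVerts u).verts, x.1.1 ∈ W \ T := by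
      intro x
      rw [Finset.mem_sdiff]
      exact ⟨x.1.2, fun h => hv0 x ((hmemT x.1).1 h)⟩
    have hv2 : ∀ v (hv : v ∈ W \ T), ∃ x : ((⊤ : K.Subgraph).deleteVerts u).verts, x.1.1 = v := by
      intro v hv
      rw [Finset.mem_sdiff] at hv
      refine ⟨⟨⟨v, hv.1⟩, ?_⟩, rfl⟩
      rw [SimpleGraph.Subgraph.deleteVerts_verts]
      exact ⟨trivial, fun h => hv.2 ((hmemT ⟨v, hv.1⟩).2 h)⟩
    have hadj : ∀ x y : ((⊤ : K.Subgraph).deleteVerts u).verts,
        K'.Adj x y ↔ G.Adj x.1.1 y.1.1 := by
      intro x y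
      show ((⊤ : K.Subgraph).deleteVerts u).Adj x.1 y.1 ↔ _
      rw [SimpleGraph.Subgraph.deleteVerts_adj]
      constructor
      · rintro ⟨_, _, _, _, h⟩
        exact h
      · intro h
        exact ⟨trivial, hv0 x, trivial, hv0 y, h⟩
    let φ : K'.ConnectedComponent → Finset V := fun c =>
      (Set.toFinite c.supp).toFinset.image fun x => x.1.1
    have hφm : ∀ (c : K'.ConnectedComponent) (v : V),
        v ∈ φ c ↔ ∃ x ∈ c.supp, x.1.1 = v := by
      intro c v
      simp only [φ, Finset.mem_image, Set.Finite.mem_toFinset]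
    have hinj0 : Function.Injective
        (fun x : ((⊤ : K.Subgraph).deleteVerts u).verts => x.1.1) :=
      Subtype.val_injective.comp Subtype.val_injective
    have hφc : ∀ c, (φ c).card = c.supp.ncard := by
      intro c
      rw [Finset.card_image_of_injective _ hinj0, Set.ncard_eq_toFinset_card c.supp]
    have hφcc : ∀ c, φ c ∈ cc G (W \ T) := by
      intro c
      rw [mem_cc_iff]
      refine ⟨?_, ?_, ?_, ?_⟩
      · obtain ⟨x, hx⟩ := c.nonempty_supp
        exact ⟨x.1.1, (hφm _ _).2 ⟨x, hx, rfl⟩⟩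
      · intro v hv
        obtain ⟨x, _, rfl⟩ := (hφm _ _).1 hv
        exact hv1 x
      · intro v hv w hw hvw
        obtain ⟨x, hx, rfl⟩ := (hφm _ _).1 hv
        obtain ⟨y, rfl⟩ := hv2 w hw
        refine (hφm _ _).2 ⟨y, ?_, rfl⟩
        rw [SimpleGraph.ConnectedComponent.mem_supp_iff] at hx ⊢
        rw [← hx]
        exact SimpleGraph.ConnectedComponent.sound ((hadj x y).2 hvw).symm.reachable
      · intro v hv w hw
        obtain ⟨x, hx, rfl⟩ := (hφm _ _).1 hv
        obtain ⟨y, hy, rfl⟩ := (hφm _ _).1 hw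
        have hxy : K'.Reachable x y := by
          rw [SimpleGraph.ConnectedComponent.mem_supp_iff] at hx hy
          exact SimpleGraph.ConnectedComponent.exact (hx.trans hy.symm)
        obtain ⟨p⟩ := hxy
        clear hv hw hy
        induction p with
        | nil => exact .rfl
        | @cons a b e h p ih =>
          have hb : b ∈ c.supp := by
            rw [SimpleGraph.ConnectedComponent.mem_supp_iff] at hx ⊢
            rw [← hx]
            exact SimpleGraph.ConnectedComponent.sound h.symm.reachable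
          exact (SimpleGraph.Adj.reachable (G := on G (φ c)) ⟨(hadj _ _).1 h,
            (hφm _ _).2 ⟨_, hx, rfl⟩, (hφm _ _).2 ⟨_, hb, rfl⟩⟩).trans (ih hb)
    refine ⟨T, hTW, ?_⟩
    rw [hTc]
    refine lt_of_lt_of_le hu ?_
    rw [Set.ncard_eq_toFinset_card _ (Set.toFinite _)]
    refine Finset.card_le_card_of_injOn φ ?_ ?_
    · intro c hc
      rw [Finset.mem_coe, Set.Finite.mem_toFinset] at hc
      rw [Finset.mem_coe, Finset.mem_filter]
      refine ⟨hφcc c, ?_⟩
      rw [hφc]
      exact hc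
    · intro c _ c' _ h
      obtain ⟨x, hx⟩ := c.nonempty_supp
      have h1 : x.1.1 ∈ φ c' := h ▸ (hφm _ _).2 ⟨x, hx, rfl⟩
      obtain ⟨y, hy, hyx⟩ := (hφm _ _).1 h1
      rw [hinj0 hyx] at hy
      rw [SimpleGraph.ConnectedComponent.mem_supp_iff] at hx hy
      rw [← hx, ← hy]


/-! ### Hybrid covers -/

/-- `W` has a hybrid cover: a permutation of `W` along edges, all of whose cycles which are not
inside `R` are 2-cycles. -/
def HC (G : SimpleGraph V) (R W : Finset V) : Prop :=
  ∃ f : V → V, (∀ v ∈ W, f v ∈ W ∧ G.Adj v (f v)) ∧ (∀ v ∈ W, ∀ w ∈ W, f v = f w → v = w) ∧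
    ∀ v ∈ W, (v ∉ R ∨ f v ∉ R) → f (f v) = v

theorem PM.hc {W : Finset V} (R : Finset V) (h : PM G W) : HC G R W := by
  obtain ⟨f, hf⟩ := h
  refine ⟨f, fun v hv => ⟨(hf v hv).1, (hf v hv).2.1⟩, ?_, fun v hv _ => (hf v hv).2.2⟩
  intro v hv w hw h
  rw [← (hf v hv).2.2, ← (hf w hw).2.2, h]

theorem HC.biUnion {R : Finset V} {ι : Type*} [DecidableEq ι] (I : Finset ι) (W : ι → Finset V)
    (h : ∀ i ∈ I, HC G R (W i)) (hd : ∀ i ∈ I, ∀ j ∈ I, i ≠ j → Disjoint (W i) (W j)) :
    HC G R (I.biUnion W) := by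
  classical
  haveI : Nonempty (V → V) := ⟨id⟩
  choose! f hf1 hf2 hf3 using h
  let F : V → V := fun v => if h : ∃ i, i ∈ I ∧ v ∈ W i then f h.choose v else v
  have hF : ∀ i ∈ I, ∀ v ∈ W i, F v = f i v := by
    intro i hi v hv
    have h : ∃ i, i ∈ I ∧ v ∈ W i := ⟨i, hi, hv⟩
    have h2 : h.choose = i := by
      by_contra hne
      exact Finset.disjoint_left.1 (hd _ h.choose_spec.1 _ hi hne) h.choose_spec.2 hv
    simp only [F, h, dif_pos]
    rw [h2]
  refine ⟨F, ?_, ?_, ?_⟩
  · intro v hv
    obtain ⟨i, hi, hv⟩ := Finset.mem_biUnion.1 hv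
    rw [hF i hi v hv]
    exact ⟨Finset.mem_biUnion.2 ⟨i, hi, (hf1 i hi v hv).1⟩, (hf1 i hi v hv).2⟩
  · intro v hv w hw hvw
    obtain ⟨i, hi, hv⟩ := Finset.mem_biUnion.1 hv
    obtain ⟨j, hj, hw⟩ := Finset.mem_biUnion.1 hw
    rw [hF i hi v hv, hF j hj w hw] at hvw
    have hij : i = j := by
      by_contra hne
      refine Finset.disjoint_left.1 (hd _ hi _ hj hne) (hf1 i hi v hv).1 ?_
      rw [hvw]
      exact (hf1 j hj w hw).1
    subst hij
    exact hf2 i hi v hv w hw hvw
  · intro v hv hR
    obtain ⟨i, hi, hv⟩ := Finset.mem_biUnion.1 hv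
    rw [hF i hi v hv] at hR ⊢
    rw [hF i hi _ (hf1 i hi v hv).1]
    exact hf3 i hi v hv hR

theorem HC.perm {R : Finset V} (h : HC G R univ) : ∃ π : Equiv.Perm V, (∀ v, G.Adj v (π v)) ∧
    ∀ v, (v ∉ R ∨ π v ∉ R) → π (π v) = v := by
  obtain ⟨f, h1, h2, h3⟩ := h
  have hinj : Function.Injective f := fun v w h => h2 v (mem_univ _) w (mem_univ _) h
  refine ⟨Equiv.ofBijective f (Finite.injective_iff_bijective.1 hinj), ?_, ?_⟩
  · intro v
    exact (h1 v (mem_univ _)).2
  · intro v hv
    exact h3 v (mem_univ _) hv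

/-- a factor critical set has a permutation along edges -/
theorem perm_of_critical {C R : Finset V} (hR : C ⊆ R) (h2 : C.card ≠ 1)
    (h : ∀ c ∈ C, PM G (C.erase c)) : HC G R C := by
  classical
  -- neighbours inside `C`
  let t : C → Finset V := fun v => C.filter fun w => G.Adj v.1 w
  have hall : ∀ s : Finset C, s.card ≤ (s.biUnion t).card := by
    intro s
    rcases s.eq_empty_or_nonempty with rfl | hs
    · simp
    by_cases hsu : ∃ z : C, z ∉ s
    · obtain ⟨z, hz⟩ := hsu
      obtain ⟨f, hf⟩ := h z.1 z.2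
      refine Finset.card_le_card_of_injOn (fun v => f v.1) ?_ ?_
      · intro v hv
        have hvz : v.1 ∈ C.erase z.1 := Finset.mem_erase.2
          ⟨fun h => hz (by rw [← Subtype.val_injective h]; exact hv), v.2⟩
        obtain ⟨a1, a2, _⟩ := hf v.1 hvz
        rw [Finset.mem_coe, Finset.mem_biUnion]
        exact ⟨v, hv, Finset.mem_filter.2 ⟨Finset.mem_of_mem_erase a1, a2⟩⟩
      · intro v hv w hw hvw
        have hm : ∀ v : C, v ∈ s → v.1 ∈ C.erase z.1 := fun v hv => Finset.mem_erase.2
          ⟨fun h => hz (by rw [← Subtype.val_injective h]; exact hv), v.2⟩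
        have hvw' : f v.1 = f w.1 := hvw
        apply Subtype.val_injective
        rw [← (hf v.1 (hm v hv)).2.2, hvw', (hf w.1 (hm w hw)).2.2]
    · push Not at hsu
      have hsuniv : s = univ := Finset.eq_univ_iff_forall.2 hsu
      have hsub : C ⊆ s.biUnion t := by
        intro v hv
        have h3 : 1 < C.card := by
          have : 0 < C.card := Finset.card_pos.2 ⟨v, hv⟩
          omega
        obtain ⟨z, hz, hzv⟩ := Finset.exists_mem_ne h3 v
        obtain ⟨f, hf⟩ := h z hz
        obtain ⟨a1, a2, _⟩ := hf v (Finset.mem_erase.2 ⟨hzv.symm, hv⟩)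
        rw [Finset.mem_biUnion]
        exact ⟨⟨f v, Finset.mem_of_mem_erase a1⟩, hsu _, Finset.mem_filter.2 ⟨hv, a2.symm⟩⟩
      refine le_trans ?_ (Finset.card_le_card hsub)
      rw [hsuniv, Finset.card_univ, Fintype.card_coe]
  obtain ⟨f, hf, hft⟩ := (Finset.all_card_le_biUnion_card_iff_exists_injective t).1 hall
  refine ⟨fun v => if h : v ∈ C then f ⟨v, h⟩ else v, ?_, ?_, ?_⟩
  · intro v hv
    simp only [hv, dif_pos]
    exact Finset.mem_filter.1 (hft ⟨v, hv⟩)
  · intro v hv w hw hvw
    simp only [hv, hw, dif_pos] at hvw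
    exact congrArg Subtype.val (hf hvw)
  · intro v hv hR'
    simp only [hv, dif_pos] at hR'
    have := (Finset.mem_filter.1 (hft ⟨v, hv⟩)).1
    rcases hR' with h | h
    · exact absurd (hR hv) h
    · exact absurd (hR this) h

/-- `C` with a vertex `s` outside -/
theorem hc_insert {C R : Finset V} {s c : V} (hs : s ∉ C) (hc : c ∈ C) (hadj : G.Adj c s)
    (h : PM G (C.erase c)) : HC G R (insert s C) := by
  classical
  obtain ⟨f, hf⟩ := h
  refine PM.hc R ⟨fun v => if v = s then c else if v = c then s else f v, ?_⟩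
  have hcs : c ≠ s := hadj.ne
  intro v hv
  by_cases h1 : v = s
  · subst h1
    simp only [if_true]
    exact ⟨Finset.mem_insert_of_mem hc, hadj.symm, by simp [hcs]⟩
  by_cases h2 : v = c
  · subst h2
    simp only [h1, if_false, if_true]
    exact ⟨Finset.mem_insert_self _ _, hadj, trivial⟩
  have hvC : v ∈ C := (Finset.mem_insert.1 hv).resolve_left h1
  obtain ⟨a1, a2, a3⟩ := hf v (Finset.mem_erase.2 ⟨h2, hvC⟩)
  have b1 : f v ≠ c := (Finset.mem_erase.1 a1).1
  have b2 : f v ≠ s := fun h => hs (h ▸ (Finset.mem_erase.1 a1).2)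
  simp only [h1, h2, b1, b2, if_false]
  exact ⟨Finset.mem_insert_of_mem (Finset.mem_erase.1 a1).2, a2, a3⟩

/-- number of bad components of `G - S` : single vertices, and odd components not inside `R` -/
noncomputable def bad (G : SimpleGraph V) (R S : Finset V) : ℕ :=
  ((cc G Sᶜ).filter fun C => C.card = 1 ∨ (Odd C.card ∧ ¬ C ⊆ R)).card

/-- **Hybrid Tutte theorem.** -/
theorem hybrid (G : SimpleGraph V) (R : Finset V) (h : ∀ S : Finset V, bad G R S ≤ S.card) :
    ∃ π : Equiv.Perm V, (∀ v, G.Adj v (π v)) ∧ ∀ v, (v ∉ R ∨ π v ∉ R) → π (π v) = v := by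
  classical
  apply HC.perm
  -- the extremal set
  obtain ⟨S, -, hS⟩ := Finset.exists_max_image (univ : Finset (Finset V))
    (fun S => toLex ((odd G Sᶜ : ℤ) - S.card, S.card)) ⟨∅, mem_univ _⟩
  have hS1 : ∀ T : Finset V, (odd G Tᶜ : ℤ) - T.card ≤ (odd G Sᶜ : ℤ) - S.card := by
    intro T
    have := hS T (mem_univ _)
    rw [Prod.Lex.toLex_le_toLex] at this
    rcases this with h | h
    · exact h.le
    · exact h.1.le
  have hS2 : ∀ T : Finset V, (odd G Sᶜ : ℤ) - S.card ≤ (odd G Tᶜ : ℤ) - T.card →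
      T.card ≤ S.card := by
    intro T hT
    have := hS T (mem_univ _)
    rw [Prod.Lex.toLex_le_toLex] at this
    rcases this with h | h
    · exact absurd h (not_lt.2 hT)
    · exact h.2
  by_cases hdef : odd G Sᶜ ≤ S.card
  · -- a perfect matching
    rcases tutteSet G univ with hM | ⟨T, -, hT⟩
    · exact hM.hc R
    · exfalso
      have := hS1 T
      rw [Finset.compl_eq_univ_sdiff] at this
      omega
  push Not at hdef
  -- (1) all components are factor critical
  have hcrit : ∀ C ∈ cc G Sᶜ, ∀ c ∈ C, PM G (C.erase c) := by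
    intro C hC c hc
    rcases tutteSet G (C.erase c) with hM | ⟨T, hTC, hT⟩
    · exact hM
    exfalso
    have hCS : ∀ v ∈ C, v ∉ S := fun v hv => by
      have := cc_sub hC hv
      rwa [Finset.mem_compl] at this
    set S' := S ∪ insert c T with hS'
    have hcT : c ∉ T := fun h => (Finset.mem_erase.1 (hTC h)).1 rfl
    have hTC' : insert c T ⊆ C := by
      intro v hv
      rcases Finset.mem_insert.1 hv with rfl | h
      · exact hc
      · exact (Finset.mem_erase.1 (hTC h)).2
    have hcard : S'.card = S.card + (T.card + 1) := by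
      rw [hS', Finset.card_union_of_disjoint, Finset.card_insert_of_notMem hcT]
      exact Finset.disjoint_left.2 fun v h1 h2 => hCS v (hTC' h2) h1
    -- odd components of `G - S'`
    have hsub : ((cc G (C.erase c \ T)).filter (Odd ·.card)) ∪
        ((cc G Sᶜ).filter (Odd ·.card)).erase C ⊆ (cc G S'ᶜ).filter (Odd ·.card) := by
      intro D hD
      rcases Finset.mem_union.1 hD with hD | hD
      · obtain ⟨hD, hodd⟩ := Finset.mem_filter.1 hD
        refine Finset.mem_filter.2 ⟨cc_of_closed hD ?_ ?_, hodd⟩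
        · intro v hv
          have h1 := cc_sub hD hv
          rw [Finset.mem_sdiff, Finset.mem_erase] at h1
          rw [Finset.mem_compl, hS', Finset.mem_union, Finset.mem_insert]
          rintro (h2 | h2 | h2)
          · exact hCS v h1.1.2 h2
          · exact h1.1.1 h2
          · exact h1.2 h2
        · intro v hv w hw hvw
          have h1 := cc_sub hD hv
          rw [Finset.mem_sdiff, Finset.mem_erase] at h1
          rw [Finset.mem_compl, hS', Finset.mem_union, Finset.mem_insert] at hw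
          push Not at hw
          have hwC : w ∈ C := cc_closed hC v h1.1.2 w (Finset.mem_compl.2 hw.1) hvw
          exact cc_closed hD v hv w
            (Finset.mem_sdiff.2 ⟨Finset.mem_erase.2 ⟨hw.2.1, hwC⟩, hw.2.2⟩) hvw
      · obtain ⟨hDC, hD⟩ := Finset.mem_erase.1 hD
        obtain ⟨hD, hodd⟩ := Finset.mem_filter.1 hD
        refine Finset.mem_filter.2 ⟨cc_of_closed hD ?_ ?_, hodd⟩
        · intro v hv
          have h1 := cc_sub hD hv
          rw [Finset.mem_compl] at h1
          rw [Finset.mem_compl, hS', Finset.mem_union]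
          rintro (h2 | h2)
          · exact h1 h2
          · exact Finset.disjoint_left.1 (cc_disj hD hC hDC) hv (hTC' h2)
        · intro v hv w hw hvw
          rw [Finset.mem_compl, hS', Finset.mem_union] at hw
          push Not at hw
          exact cc_closed hD v hv w (Finset.mem_compl.2 hw.1) hvw
    have hdisj : Disjoint ((cc G (C.erase c \ T)).filter (Odd ·.card))
        (((cc G Sᶜ).filter (Odd ·.card)).erase C) := by
      rw [Finset.disjoint_left]
      intro D hD hD2
      obtain ⟨hD, hodd⟩ := Finset.mem_filter.1 hD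
      obtain ⟨hDC, hD2⟩ := Finset.mem_erase.1 hD2
      obtain ⟨hD2, _⟩ := Finset.mem_filter.1 hD2
      obtain ⟨v, hv⟩ := cc_ne hD
      have h1 := cc_sub hD hv
      rw [Finset.mem_sdiff, Finset.mem_erase] at h1
      exact hDC (cc_eq_of_mem hD2 hC hv h1.1.2)
    have hle := Finset.card_le_card hsub
    rw [Finset.card_union_of_disjoint hdisj] at hle
    have hle2 : odd G (C.erase c \ T) + (((cc G Sᶜ).filter (Odd ·.card)).erase C).card ≤
        odd G S'ᶜ := hle
    have hpar := odd_parity (G := G) (C.erase c \ T)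
    rw [Finset.card_sdiff_of_subset hTC, Finset.card_erase_of_mem hc] at hpar
    have hTle := Finset.card_le_card hTC
    rw [Finset.card_erase_of_mem hc] at hTle
    have hCpos : 0 < C.card := Finset.card_pos.2 ⟨c, hc⟩
    by_cases hCodd : Odd C.card
    · rw [Finset.card_erase_of_mem (Finset.mem_filter.2 ⟨hC, hCodd⟩)] at hle2
      have hpos : 0 < odd G Sᶜ := Finset.card_pos.2 ⟨C, Finset.mem_filter.2 ⟨hC, hCodd⟩⟩
      have hle3 : odd G (C.erase c \ T) + (odd G Sᶜ - 1) ≤ odd G S'ᶜ := hle2
      rw [Nat.odd_iff] at hCodd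
      have hge : T.card + 2 ≤ odd G (C.erase c \ T) := by omega
      have h2 := hS2 S' (by rw [hcard]; push_cast; omega)
      omega
    · have herase : ((cc G Sᶜ).filter (Odd ·.card)).erase C = (cc G Sᶜ).filter (Odd ·.card) :=
        Finset.erase_eq_of_notMem fun hh => hCodd (Finset.mem_filter.1 hh).2
      rw [herase] at hle2
      have hle3 : odd G (C.erase c \ T) + odd G Sᶜ ≤ odd G S'ᶜ := hle2
      have h2 := hS2 S' (by rw [hcard]; push_cast; omega)
      omega
  have hodd : ∀ C ∈ cc G Sᶜ, Odd C.card := by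
    intro C hC
    obtain ⟨c, hc⟩ := cc_ne hC
    have := (hcrit C hC c hc).even
    rw [Finset.card_erase_of_mem hc] at this
    have hCpos : 0 < C.card := Finset.card_pos.2 ⟨c, hc⟩
    rw [Nat.even_iff] at this
    rw [Nat.odd_iff]
    omega
  have hoddcc : odd G Sᶜ = (cc G Sᶜ).card := by
    rw [odd, Finset.filter_true_of_mem hodd]
  set q := odd G Sᶜ - S.card with hq
  -- Hall
  let isBad : Finset V → Prop := fun C => C.card = 1 ∨ (Odd C.card ∧ ¬ C ⊆ R)
  let t : (cc G Sᶜ : Finset (Finset V)) → Finset (V ⊕ Fin q) := fun C =>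
    ((S.filter fun s => ∃ c ∈ C.1, G.Adj c s).image Sum.inl) ∪
      (if isBad C.1 then ∅ else univ.image Sum.inr)
  have hall : ∀ F : Finset (cc G Sᶜ : Finset (Finset V)), F.card ≤ (F.biUnion t).card := by
    intro F
    set N := S.filter fun s => ∃ C ∈ F, ∃ c ∈ C.1, G.Adj c s with hN
    have hFN : ∀ C ∈ F, C.1 ∈ cc G Nᶜ := by
      intro C hC
      have hC2 := C.2
      refine cc_of_closed hC2 ?_ ?_
      · intro v hv
        have h1 := cc_sub hC2 hv
        rw [Finset.mem_compl] at h1 ⊢
        exact fun h => h1 (Finset.mem_filter.1 h).1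
      · intro v hv w hw hvw
        by_cases hwS : w ∈ S
        · exfalso
          rw [Finset.mem_compl] at hw
          exact hw (Finset.mem_filter.2 ⟨hwS, C, hC, v, hv, hvw⟩)
        · exact cc_closed hC2 v hv w (Finset.mem_compl.2 hwS) hvw
    have hNsub : N.image Sum.inl ⊆ F.biUnion t := by
      intro x hx
      obtain ⟨s, hs, rfl⟩ := Finset.mem_image.1 hx
      obtain ⟨hs1, C, hC, c, hc, hcs⟩ := Finset.mem_filter.1 hs
      refine Finset.mem_biUnion.2 ⟨C, hC, Finset.mem_union_left _ ?_⟩
      exact Finset.mem_image_of_mem _ (Finset.mem_filter.2 ⟨hs1, c, hc, hcs⟩)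
    have hNcard : (N.image (Sum.inl : V → V ⊕ Fin q)).card = N.card :=
      Finset.card_image_of_injective _ Sum.inl_injective
    by_cases hgood : ∃ C ∈ F, ¬ isBad C.1
    · obtain ⟨C, hC, hCg⟩ := hgood
      have hsub2 : N.image Sum.inl ∪ (univ : Finset (Fin q)).image Sum.inr ⊆ F.biUnion t := by
        refine Finset.union_subset hNsub ?_
        intro x hx
        refine Finset.mem_biUnion.2 ⟨C, hC, Finset.mem_union_right _ ?_⟩
        rw [if_neg hCg]
        exact hx
      have h1 := Finset.card_le_card hsub2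
      rw [Finset.card_union_of_disjoint, hNcard,
        Finset.card_image_of_injective _ Sum.inr_injective, Finset.card_univ,
        Fintype.card_fin] at h1
      · have h2 : F.card ≤ odd G Nᶜ := by
          refine Finset.card_le_card_of_injOn (fun C => C.1) ?_
            (Subtype.val_injective.injOn)
          intro C hC
          exact Finset.mem_filter.2 ⟨hFN C hC, hodd C.1 C.2⟩
        have h3 := hS1 N
        omega
      · rw [Finset.disjoint_left]
        intro x hx hx2
        obtain ⟨s, _, rfl⟩ := Finset.mem_image.1 hx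
        obtain ⟨i, _, hi⟩ := Finset.mem_image.1 hx2
        cases hi
    · push Not at hgood
      refine le_trans ?_ (Finset.card_le_card hNsub)
      rw [hNcard]
      refine le_trans ?_ (h N)
      refine Finset.card_le_card_of_injOn (fun C => C.1) ?_
            (Subtype.val_injective.injOn)
      intro C hC
      exact Finset.mem_filter.2 ⟨hFN C hC, hgood C hC⟩
  obtain ⟨f, hf, hft⟩ := (Finset.all_card_le_biUnion_card_iff_exists_injective t).1 hall
  -- every vertex of `S` is used
  have hsurj : ∀ s ∈ S, ∃ C, f C = Sum.inl s := by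
    have hsub : univ.image f ⊆ S.image Sum.inl ∪ (univ : Finset (Fin q)).image Sum.inr := by
      intro x hx
      obtain ⟨C, _, rfl⟩ := Finset.mem_image.1 hx
      rcases Finset.mem_union.1 (hft C) with h1 | h1
      · obtain ⟨s, hs, hs2⟩ := Finset.mem_image.1 h1
        rw [← hs2]
        exact Finset.mem_union_left _ (Finset.mem_image_of_mem _ (Finset.mem_filter.1 hs).1)
      · refine Finset.mem_union_right _ ?_
        split_ifs at h1 with h2
        · exact absurd h1 (Finset.notMem_empty _)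
        · exact h1
    have hc1 : (univ.image f).card = S.card + q := by
      rw [Finset.card_image_of_injective _ hf, Finset.card_univ, Fintype.card_coe, ← hoddcc]
      omega
    have hc2 : (S.image Sum.inl ∪ (univ : Finset (Fin q)).image Sum.inr).card ≤ S.card + q := by
      refine (Finset.card_union_le _ _).trans ?_
      rw [Finset.card_image_of_injective _ Sum.inl_injective,
        Finset.card_image_of_injective _ Sum.inr_injective, Finset.card_univ, Fintype.card_fin]
    have heq := Finset.eq_of_subset_of_card_le hsub (by rw [hc1]; exact hc2)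
    intro s hs
    have : (Sum.inl s : V ⊕ Fin q) ∈ univ.image f := by
      rw [heq]
      exact Finset.mem_union_left _ (Finset.mem_image_of_mem _ hs)
    obtain ⟨C, _, hC⟩ := Finset.mem_image.1 this
    exact ⟨C, hC⟩
  -- the pieces
  let W : (cc G Sᶜ : Finset (Finset V)) → Finset V := fun C =>
    match f C with
    | Sum.inl s => insert s C.1
    | Sum.inr _ => C.1
  have hWl : ∀ C s, f C = Sum.inl s → W C = insert s C.1 := by
    intro C s h
    simp only [W, h]
  have hWr : ∀ C i, f C = Sum.inr i → W C = C.1 := by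
    intro C s h
    simp only [W, h]
  have hWHC : ∀ C ∈ (univ : Finset (cc G Sᶜ : Finset (Finset V))), HC G R (W C) := by
    intro C _
    have h1 := hft C
    rcases hfC : f C with s | i
    · rw [hWl C s hfC]
      rw [hfC] at h1
      rcases Finset.mem_union.1 h1 with h2 | h2
      · obtain ⟨s', hs', hss⟩ := Finset.mem_image.1 h2
        obtain rfl := Sum.inl_injective hss
        obtain ⟨hsS, c, hc, hcs⟩ := Finset.mem_filter.1 hs'
        refine hc_insert ?_ hc hcs (hcrit C.1 C.2 c hc)
        intro hs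
        have := cc_sub C.2 hs
        rw [Finset.mem_compl] at this
        exact this hsS
      · split_ifs at h2 with h3
        · exact absurd h2 (Finset.notMem_empty _)
        · obtain ⟨i, _, hi⟩ := Finset.mem_image.1 h2
          cases hi
    · rw [hWr C i hfC]
      rw [hfC] at h1
      rcases Finset.mem_union.1 h1 with h2 | h2
      · obtain ⟨s', hs', hss⟩ := Finset.mem_image.1 h2
        cases hss
      · split_ifs at h2 with h3
        · exact absurd h2 (Finset.notMem_empty _)
        · have h4 : ¬ (C.1.card = 1 ∨ (Odd C.1.card ∧ ¬ C.1 ⊆ R)) := h3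
          push Not at h4
          exact perm_of_critical (h4.2 (hodd C.1 C.2)) h4.1 (hcrit C.1 C.2)
  have hWmem : ∀ C v, v ∈ W C → v ∈ C.1 ∨ f C = Sum.inl v ∧ v ∈ S := by
    intro C v hv
    rcases hfC : f C with s | i
    · rw [hWl C s hfC] at hv
      rcases Finset.mem_insert.1 hv with rfl | h1
      · right
        refine ⟨rfl, ?_⟩
        have h1 := hft C
        rw [hfC] at h1
        rcases Finset.mem_union.1 h1 with h2 | h2
        · obtain ⟨s', hs', hss⟩ := Finset.mem_image.1 h2
          obtain rfl := Sum.inl_injective hss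
          exact (Finset.mem_filter.1 hs').1
        · split_ifs at h2 with h3
          · exact absurd h2 (Finset.notMem_empty _)
          · obtain ⟨i, _, hi⟩ := Finset.mem_image.1 h2
            cases hi
      · exact Or.inl h1
    · rw [hWr C i hfC] at hv
      exact Or.inl hv
  have hWd : ∀ C ∈ (univ : Finset (cc G Sᶜ : Finset (Finset V))),
      ∀ D ∈ (univ : Finset (cc G Sᶜ : Finset (Finset V))), C ≠ D → Disjoint (W C) (W D) := by
    intro C _ D _ hCD
    rw [Finset.disjoint_left]
    intro v hv hv2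
    have hnS : ∀ E : (cc G Sᶜ : Finset (Finset V)), v ∈ E.1 → v ∉ S := by
      intro E hE
      have := cc_sub E.2 hE
      rwa [Finset.mem_compl] at this
    rcases hWmem C v hv with h1 | h1 <;> rcases hWmem D v hv2 with h2 | h2
    · exact hCD (Subtype.val_injective (cc_eq_of_mem C.2 D.2 h1 h2))
    · exact hnS C h1 h2.2
    · exact hnS D h2 h1.2
    · exact hCD (hf (h1.1.trans h2.1.symm))
  have hfin := HC.biUnion univ W hWHC hWd
  have hun : (univ : Finset (cc G Sᶜ : Finset (Finset V))).biUnion W = univ := by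
    rw [Finset.eq_univ_iff_forall]
    intro v
    rw [Finset.mem_biUnion]
    by_cases hv : v ∈ S
    · obtain ⟨C, hC⟩ := hsurj v hv
      exact ⟨C, mem_univ _, by rw [hWl C v hC]; exact Finset.mem_insert_self _ _⟩
    · have hv' : v ∈ Sᶜ := Finset.mem_compl.2 hv
      refine ⟨⟨comp G Sᶜ v, comp_mem hv'⟩, mem_univ _, ?_⟩
      rcases hfC : f ⟨comp G Sᶜ v, comp_mem hv'⟩ with s | i
      · rw [hWl _ s hfC]
        exact Finset.mem_insert_of_mem (self_mem_comp hv')
      · rw [hWr _ i hfC]
        exact self_mem_comp hv'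
  rw [hun] at hfin
  exact hfin

end Pool.Agent.HTutte
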