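import Pool.Agent.Lib.MP_876e19_co.Family
import Pool.Agent.Lib.MP_876e19_co_ups.Menger

/-!
# The automorphism-invariant fractional base from Menger systems (helper85)

Options of a far (= distinct, non-adjacent) ordered pair `(x,v)`: the translates `γ⁻¹ P(γ x, γ v) i`,
`γ ∈ Aut G`, `i < k`, of the `k` Menger paths.  Uniform weights.
-/

set_option autoImplicit false

namespace Pool.Agent.UPS.IB

open Finset

variable {V : Type*}

/-- distinct and not adjacent -/
def Far (G : SimpleGraph V) (x v : V) : Prop := x ≠ v ∧ ¬ G.Adj x v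

/-- a Menger system: `k` internally disjoint paths for every far ordered pair, each meeting the
neighbourhoods of the two ends only once -/
structure MSys [Fintype V] (G : SimpleGraph V) (k : ℕ) where
  P : ∀ x v : V, Fin k → G.Walk x v
  path : ∀ x v i, Far G x v → (P x v i).IsPath
  two : ∀ x v i, Far G x v → 2 ≤ (P x v i).length
  disj : ∀ x v i j, Far G x v → ∀ w, w ∈ (P x v i).support → w ∈ (P x v j).support →
    w = x ∨ w = v ∨ i = j
  fst : ∀ x v i, Far G x v → ∀ w, w ∈ (P x v i).support → G.Adj x w → w = (P x v i).getVert 1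
  lst : ∀ x v i, Far G x v → ∀ w, w ∈ (P x v i).support → G.Adj w v →
    w = (P x v i).getVert ((P x v i).length - 1)
  len : ∀ x v, Far G x v → ∑ i, ((P x v i).length - 1) + 2 ≤ Fintype.card V

theorem exists_msys [Fintype V] {G : SimpleGraph V} (hG : G.Connected) (hT : VT G) (k : ℕ)
    (hk : ∀ x, k ≤ (G.neighborSet x).ncard)
    (hsep : ∀ x v, Far G x v → ∀ S : Finset V, x ∉ S → v ∉ S → S.card < k →
      ∃ p : G.Walk x v, ∀ w ∈ p.support, w ∉ S) : Nonempty (MSys G k) := by
  classical
  have hdeg : ∀ x, (univ.filter fun u => G.Adj x u).card = (G.neighborSet x).ncard := by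
    intro x
    rw [← Set.ncard_coe_finset]
    congr 1
    ext w; simp
  have hreg : ∀ x v : V, (G.neighborSet x).ncard = (G.neighborSet v).ncard := by
    intro x v
    obtain ⟨φ, hφ⟩ := hT x v
    rw [← hφ]
    have : G.neighborSet (φ x) = φ '' (G.neighborSet x) := by
      ext w
      simp only [SimpleGraph.mem_neighborSet, Set.mem_image]
      constructor
      · intro h
        refine ⟨φ.symm w, ?_, φ.apply_symm_apply w⟩
        rw [← φ.map_adj_iff, φ.apply_symm_apply]; exact h
      · rintro ⟨y, hy, rfl⟩
        exact φ.map_adj_iff.2 hy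
    rw [this, Set.ncard_image_of_injective _ φ.injective]
  have key : ∀ x v, ∃ P : Fin k → G.Walk x v, Far G x v →
      (∀ i, (P i).IsPath) ∧ (∀ i, 2 ≤ (P i).length) ∧
      (∀ i j, ∀ w, w ∈ (P i).support → w ∈ (P j).support → w = x ∨ w = v ∨ i = j) ∧
      (∀ i w, w ∈ (P i).support → G.Adj x w → w = (P i).getVert 1) ∧
      (∀ i w, w ∈ (P i).support → G.Adj w v → w = (P i).getVert ((P i).length - 1)) ∧
      ∑ i, ((P i).length - 1) + 2 ≤ Fintype.card V := by
    intro x v
    by_cases h : Far G x v
    · have hd : (univ.filter fun u => G.Adj u v).card = (univ.filter fun u => G.Adj x u).card := by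
        rw [hdeg x, hreg x v, ← hdeg v]
        congr 1
        ext u; simp [G.adj_comm]
      obtain ⟨P, hP⟩ := Menger.menger h.1 h.2 (by rw [hdeg]; exact hk x) hd (hsep x v h)
      exact ⟨P, fun _ => hP⟩
    · obtain ⟨p⟩ := hG.preconnected x v
      exact ⟨fun _ => p, fun h' => absurd h' h⟩
  choose P hP using key
  exact ⟨⟨P, fun x v i h => (hP x v h).1 i, fun x v i h => (hP x v h).2.1 i,
    fun x v i j h => (hP x v h).2.2.1 i j, fun x v i h => (hP x v h).2.2.2.1 i,
    fun x v i h => (hP x v h).2.2.2.2.1 i, fun x v h => (hP x v h).2.2.2.2.2⟩⟩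

/-- transport of a system of walks by an automorphism -/
def trM {G : SimpleGraph V} {ι : Type*} (γ : G ≃g G) (R : ∀ x u : V, ι → G.Walk x u) :
    ∀ x u : V, ι → G.Walk x u :=
  fun x u b => ((R (γ x) (γ u) b).map γ.symm.toHom).copy (γ.symm_apply_apply x)
    (γ.symm_apply_apply u)

section tr
variable {G : SimpleGraph V} {ι : Type*} (γ : G ≃g G) (R : ∀ x u : V, ι → G.Walk x u)

lemma far_iff (x u : V) : Far G (γ x) (γ u) ↔ Far G x u := by
  unfold Far
  rw [γ.map_adj_iff, ne_eq, γ.injective.eq_iff]

lemma mem_support_trM (x u w : V) (b : ι) :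
    w ∈ (trM γ R x u b).support ↔ γ w ∈ (R (γ x) (γ u) b).support := by
  unfold trM
  rw [SimpleGraph.Walk.support_copy, SimpleGraph.Walk.support_map, List.mem_map]
  constructor
  · rintro ⟨y, hy, h⟩
    have : γ w = y := by
      rw [← h]; exact γ.apply_symm_apply y
    rw [this]; exact hy
  · intro h
    exact ⟨γ w, h, γ.symm_apply_apply w⟩

lemma mem_edges_trM (x u : V) (e : Sym2 V) (b : ι) :
    e ∈ (trM γ R x u b).edges ↔ Sym2.map γ e ∈ (R (γ x) (γ u) b).edges := by
  unfold trM
  rw [SimpleGraph.Walk.edges_copy, SimpleGraph.Walk.edges_map, List.mem_map]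
  constructor
  · rintro ⟨y, hy, h⟩
    have : Sym2.map γ e = y := by
      rw [← h, Sym2.map_map]
      have : (γ ∘ γ.symm.toHom : V → V) = id := by
        funext z; exact γ.apply_symm_apply z
      rw [this, Sym2.map_id]; rfl
    rw [this]; exact hy
  · intro h
    refine ⟨Sym2.map γ e, h, ?_⟩
    rw [Sym2.map_map]
    have : (γ.symm.toHom ∘ γ : V → V) = id := by
      funext z; exact γ.symm_apply_apply z
    rw [this, Sym2.map_id]; rfl

lemma length_trM (x u : V) (b : ι) : (trM γ R x u b).length = (R (γ x) (γ u) b).length := by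
  unfold trM
  rw [SimpleGraph.Walk.length_copy, SimpleGraph.Walk.length_map]

lemma getVert_trM (x u : V) (b : ι) (j : ℕ) :
    γ ((trM γ R x u b).getVert j) = (R (γ x) (γ u) b).getVert j := by
  unfold trM
  rw [SimpleGraph.Walk.getVert_copy, SimpleGraph.Walk.getVert_map]
  exact γ.apply_symm_apply _

lemma getVert_trM_eq (x u : V) (b : ι) (j : ℕ) (w : V) :
    (trM γ R x u b).getVert j = w ↔ (R (γ x) (γ u) b).getVert j = γ w := by
  rw [← getVert_trM]
  exact γ.injective.eq_iff.symm

lemma isPath_trM (x u : V) (b : ι) : (trM γ R x u b).IsPath ↔ (R (γ x) (γ u) b).IsPath := by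
  unfold trM
  rw [SimpleGraph.Walk.isPath_copy]
  exact SimpleGraph.Walk.isPath_map_iff_of_injective γ.symm.injective

lemma trM_mul (δ : G ≃g G) (x u : V) (b : ι) :
    (trM (γ * δ) R x u b).support = (trM δ (trM γ R) x u b).support := by
  unfold trM
  simp only [SimpleGraph.Walk.support_copy, SimpleGraph.Walk.support_map, List.map_map]
  rfl

end tr

/-- transport of a Menger system -/
def MSys.tr [Fintype V] {G : SimpleGraph V} {k : ℕ} (M : MSys G k) (γ : G ≃g G) : MSys G k where
  P := trM γ M.P
  path x v i h := (isPath_trM γ M.P x v i).2 (M.path _ _ i ((far_iff γ x v).2 h))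
  two x v i h := by rw [length_trM]; exact M.two _ _ i ((far_iff γ x v).2 h)
  disj x v i j h w hi hj := by
    rw [mem_support_trM] at hi hj
    rcases M.disj _ _ i j ((far_iff γ x v).2 h) _ hi hj with h1 | h1 | h1
    · exact Or.inl (γ.injective h1)
    · exact Or.inr (Or.inl (γ.injective h1))
    · exact Or.inr (Or.inr h1)
  fst x v i h w hw ha := by
    rw [mem_support_trM] at hw
    apply γ.injective
    rw [getVert_trM]
    exact M.fst _ _ i ((far_iff γ x v).2 h) _ hw (γ.map_adj_iff.2 ha)
  lst x v i h w hw ha := by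
    rw [mem_support_trM] at hw
    apply γ.injective
    rw [getVert_trM, length_trM]
    exact M.lst _ _ i ((far_iff γ x v).2 h) _ hw (γ.map_adj_iff.2 ha)
  len x v h := by
    have := M.len _ _ ((far_iff γ x v).2 h)
    simp only [length_trM]
    exact this

/-- averaging over the automorphism group makes every equivariant statistic invariant -/
lemma avg_inv [Fintype V] {G : SimpleGraph V} {α : Type*}
    (act : (G ≃g G) → α → α) (Φ : (G ≃g G) → V → V → α → ℝ)
    (hΦ : ∀ γ δ x u a, Φ γ (δ x) (δ u) (act δ a) = Φ (γ * δ) x u a)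
    (δ : G ≃g G) (a : α) :
    ∑ x, ∑ u, ∑ γ, Φ γ x u (act δ a) = ∑ x, ∑ u, ∑ γ, Φ γ x u a := by
  rw [← Equiv.sum_comp δ.toEquiv]
  apply Finset.sum_congr rfl
  intro x _
  rw [← Equiv.sum_comp δ.toEquiv]
  apply Finset.sum_congr rfl
  intro u _
  have : ∀ γ, Φ γ (δ.toEquiv x) (δ.toEquiv u) (act δ a) = Φ (γ * δ) x u a :=
    fun γ => hΦ γ δ x u a
  simp_rw [this]
  exact Equiv.sum_comp (Equiv.mulRight δ) (fun γ => Φ γ x u a)

section stats
variable [Fintype V] {G : SimpleGraph V} {k : ℕ} (M : MSys G k)

open Classical in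
/-- number of paths of the system of `(x,v)` through `w` -/
noncomputable def vcount (M : MSys G k) (x v w : V) : ℝ :=
  if Far G x v then ∑ i, (if w ∈ (M.P x v i).support then 1 else 0) else 0

open Classical in
/-- number of paths of the system of `(x,v)` using the edge `e` -/
noncomputable def ecount (M : MSys G k) (x v : V) (e : Sym2 V) : ℝ :=
  if Far G x v then ∑ i, (if e ∈ (M.P x v i).edges then 1 else 0) else 0

open Classical in
/-- number of paths of the system of `(x,v)` with second vertex `w` -/
noncomputable def fcount (M : MSys G k) (x v w : V) : ℝ :=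
  if Far G x v then ∑ i, (if (M.P x v i).getVert 1 = w then 1 else 0) else 0

open Classical in
/-- number of paths of the system of `(x,v)` with last but one vertex `w` -/
noncomputable def lcount (M : MSys G k) (x v w : V) : ℝ :=
  if Far G x v then ∑ i, (if (M.P x v i).getVert ((M.P x v i).length - 1) = w then 1 else 0) else 0

open Classical in
lemma vcount_tr (γ δ : G ≃g G) (x v w : V) :
    vcount (M.tr γ) (δ x) (δ v) (δ w) = vcount (M.tr (γ * δ)) x v w := by
  unfold vcount
  rw [far_iff]
  split_ifs with h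
  · refine Finset.sum_congr rfl fun i _ => ?_
    have h : δ w ∈ (trM γ M.P (δ x) (δ v) i).support ↔
        w ∈ (trM (γ * δ) M.P x v i).support := by
      rw [mem_support_trM, mem_support_trM]
      rfl
    exact if_congr h rfl rfl
  · rfl

open Classical in
lemma ecount_tr (γ δ : G ≃g G) (x v : V) (e : Sym2 V) :
    ecount (M.tr γ) (δ x) (δ v) (Sym2.map δ e) = ecount (M.tr (γ * δ)) x v e := by
  unfold ecount
  rw [far_iff]
  split_ifs with h
  · refine Finset.sum_congr rfl fun i _ => ?_
    have h : Sym2.map δ e ∈ (trM γ M.P (δ x) (δ v) i).edges ↔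
        e ∈ (trM (γ * δ) M.P x v i).edges := by
      rw [mem_edges_trM, mem_edges_trM, Sym2.map_map]
      rfl
    exact if_congr h rfl rfl
  · rfl

open Classical in
lemma fcount_tr (γ δ : G ≃g G) (x v w : V) :
    fcount (M.tr γ) (δ x) (δ v) (δ w) = fcount (M.tr (γ * δ)) x v w := by
  unfold fcount
  rw [far_iff]
  split_ifs with h
  · refine Finset.sum_congr rfl fun i _ => ?_
    have h : (trM γ M.P (δ x) (δ v) i).getVert 1 = δ w ↔
        (trM (γ * δ) M.P x v i).getVert 1 = w := by
      rw [getVert_trM_eq, getVert_trM_eq]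
      rfl
    exact if_congr h rfl rfl
  · rfl

open Classical in
lemma lcount_tr (γ δ : G ≃g G) (x v w : V) :
    lcount (M.tr γ) (δ x) (δ v) (δ w) = lcount (M.tr (γ * δ)) x v w := by
  unfold lcount
  rw [far_iff]
  split_ifs with h
  · refine Finset.sum_congr rfl fun i _ => ?_
    have h : (trM γ M.P (δ x) (δ v) i).getVert ((trM γ M.P (δ x) (δ v) i).length - 1) = δ w ↔
        (trM (γ * δ) M.P x v i).getVert ((trM (γ * δ) M.P x v i).length - 1) = w := by
      rw [getVert_trM_eq, getVert_trM_eq, length_trM, length_trM]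
      rfl
    exact if_congr h rfl rfl
  · rfl

/-! ### first and last arcs -/

lemma adj_fst {x v : V} (i : Fin k) (h : Far G x v) : G.Adj x ((M.P x v i).getVert 1) := by
  have h2 := M.two x v i h
  have := (M.P x v i).adj_getVert_succ (i := 0) (by omega)
  rwa [SimpleGraph.Walk.getVert_zero] at this

lemma adj_lst {x v : V} (i : Fin k) (h : Far G x v) :
    G.Adj ((M.P x v i).getVert ((M.P x v i).length - 1)) v := by
  have h2 := M.two x v i h
  have := (M.P x v i).adj_getVert_succ (i := (M.P x v i).length - 1) (by omega)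
  have e : (M.P x v i).length - 1 + 1 = (M.P x v i).length := by omega
  rwa [e, SimpleGraph.Walk.getVert_length] at this

lemma fst_inj {x v : V} (h : Far G x v) (i j : Fin k)
    (hij : (M.P x v i).getVert 1 = (M.P x v j).getVert 1) : i = j := by
  have ha := adj_fst M i h
  rcases M.disj x v i j h _ ((M.P x v i).getVert_mem_support 1)
    (by rw [hij]; exact (M.P x v j).getVert_mem_support 1) with h1 | h1 | h1
  · rw [h1] at ha; exact absurd ha (G.loopless.irrefl x)
  · rw [h1] at ha; exact absurd ha h.2
  · exact h1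

lemma lst_inj {x v : V} (h : Far G x v) (i j : Fin k)
    (hij : (M.P x v i).getVert ((M.P x v i).length - 1) =
      (M.P x v j).getVert ((M.P x v j).length - 1)) : i = j := by
  have ha := adj_lst M i h
  rcases M.disj x v i j h _ ((M.P x v i).getVert_mem_support _)
    (by rw [hij]; exact (M.P x v j).getVert_mem_support _) with h1 | h1 | h1
  · rw [h1] at ha; exact absurd ha h.2
  · rw [h1] at ha; exact absurd ha (G.loopless.irrefl v)
  · exact h1

open Classical in
omit [Fintype V] in
lemma sum_ite_le_one {ι : Type*} [Fintype ι] (f : ι → V) (hf : Function.Injective f) (w : V) :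
    ∑ i, (if f i = w then (1 : ℝ) else 0) ≤ 1 := by
  by_cases h : ∃ i, f i = w
  · obtain ⟨i, hi⟩ := h
    rw [Finset.sum_eq_single i]
    · rw [if_pos hi]
    · intro j _ hj
      rw [if_neg]
      intro h
      exact hj (hf (h.trans hi.symm))
    · intro h; exact absurd (mem_univ _) h
  · push Not at h
    rw [Finset.sum_eq_zero]
    · exact zero_le_one
    · intro i _
      rw [if_neg (h i)]

lemma fcount_le_one (x v w : V) : fcount M x v w ≤ 1 := by
  unfold fcount
  split_ifs with h
  · exact sum_ite_le_one (fun i => (M.P x v i).getVert 1) (fun i j hij => fst_inj M h i j hij) w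
  · exact zero_le_one

lemma lcount_le_one (x v w : V) : lcount M x v w ≤ 1 := by
  unfold lcount
  split_ifs with h
  · exact sum_ite_le_one (fun i => (M.P x v i).getVert ((M.P x v i).length - 1))
      (fun i j hij => lst_inj M h i j hij) w
  · exact zero_le_one

lemma fcount_nonneg (x v w : V) : 0 ≤ fcount M x v w := by
  unfold fcount
  split_ifs with h
  · exact Finset.sum_nonneg fun i _ => by split_ifs <;> norm_num
  · exact le_refl _

lemma lcount_nonneg (x v w : V) : 0 ≤ lcount M x v w := by
  unfold lcount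
  split_ifs with h
  · exact Finset.sum_nonneg fun i _ => by split_ifs <;> norm_num
  · exact le_refl _

lemma fcount_of_not_far {x v w : V} (h : ¬ Far G x v) : fcount M x v w = 0 := if_neg h
lemma lcount_of_not_far {x v w : V} (h : ¬ Far G x v) : lcount M x v w = 0 := if_neg h

lemma fcount_of_not_adj {x v w : V} (h : ¬ G.Adj x w) : fcount M x v w = 0 := by
  unfold fcount
  split_ifs with hf
  · refine Finset.sum_eq_zero fun i _ => if_neg fun h1 => h ?_
    rw [← h1]; exact adj_fst M i hf
  · rfl

lemma lcount_of_not_adj {x v w : V} (h : ¬ G.Adj w v) : lcount M x v w = 0 := by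
  unfold lcount
  split_ifs with hf
  · refine Finset.sum_eq_zero fun i _ => if_neg fun h1 => h ?_
    rw [← h1]; exact adj_lst M i hf
  · rfl

open Classical in
lemma sum_fcount {x v : V} (h : Far G x v) : ∑ w, fcount M x v w = k := by
  unfold fcount
  simp only [if_pos h]
  rw [Finset.sum_comm]
  have : ∀ i : Fin k, ∑ w : V, (if (M.P x v i).getVert 1 = w then (1 : ℝ) else 0) = 1 := by
    intro i
    rw [Finset.sum_ite_eq]
    simp
  simp only [this]
  simp

open Classical in
lemma sum_lcount {x v : V} (h : Far G x v) : ∑ w, lcount M x v w = k := by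
  unfold lcount
  simp only [if_pos h]
  rw [Finset.sum_comm]
  have : ∀ i : Fin k, ∑ w : V,
      (if (M.P x v i).getVert ((M.P x v i).length - 1) = w then (1 : ℝ) else 0) = 1 := by
    intro i
    rw [Finset.sum_ite_eq]
    simp
  simp only [this]
  simp

/-- total number of visits of `w` -/
noncomputable def vtot (M : MSys G k) (w : V) : ℝ := ∑ x, ∑ v, ∑ γ, vcount (M.tr γ) x v w
/-- total number of uses of `e` -/
noncomputable def etot (M : MSys G k) (e : Sym2 V) : ℝ := ∑ x, ∑ v, ∑ γ, ecount (M.tr γ) x v e

lemma vtot_inv (δ : G ≃g G) (w : V) : vtot M (δ w) = vtot M w :=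
  avg_inv (fun δ w => δ w) (fun γ x v w => vcount (M.tr γ) x v w)
    (fun γ δ x v w => vcount_tr M γ δ x v w) δ w

lemma etot_inv (δ : G ≃g G) (e : Sym2 V) : etot M (Sym2.map δ e) = etot M e :=
  avg_inv (fun δ e => Sym2.map δ e) (fun γ x v e => ecount (M.tr γ) x v e)
    (fun γ δ x v e => ecount_tr M γ δ x v e) δ e

lemma vtot_const (hT : VT G) (w w' : V) : vtot M w = vtot M w' := by
  obtain ⟨δ, hδ⟩ := hT w w'
  rw [← hδ, vtot_inv]

lemma card_far {d : ℕ} (hd : ∀ x, (G.neighborSet x).ncard = d) (x : V) :
    {v | Far G x v}.ncard = Fintype.card V - 1 - d := by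
  classical
  have h1 : {v | Far G x v} = ((univ : Finset V) \ (univ.filter fun v => G.Adj x v ∨ v = x) : Finset V) := by
    ext v
    simp only [Set.mem_ofPred_eq, Finset.coe_sdiff, Finset.coe_univ, Finset.coe_filter,
      Finset.mem_univ, true_and, Set.mem_sdiff, Set.mem_univ, not_or, Far]
    constructor
    · rintro ⟨h, h'⟩; exact ⟨h', Ne.symm h⟩
    · rintro ⟨h, h'⟩; exact ⟨Ne.symm h', h⟩
  have h2 : (univ.filter fun v => G.Adj x v ∨ v = x).card = d + 1 := by
    rw [Finset.filter_or, Finset.card_union_of_disjoint]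
    · have h3 : (univ.filter fun v => v = x) = {x} := by
        ext w; simp
      have h4 : (univ.filter fun v => G.Adj x v).card = (G.neighborSet x).ncard := by
        rw [← Set.ncard_coe_finset]
        congr 1
        ext w; simp
      rw [h3, Finset.card_singleton, h4, hd x]
    · rw [Finset.disjoint_left]
      intro w hw hw'
      rw [mem_filter] at hw hw'
      rw [hw'.2] at hw
      exact G.loopless.irrefl x hw.2
  rw [h1, Set.ncard_coe_finset, Finset.card_sdiff_of_subset (Finset.subset_univ _), h2,
    Finset.card_univ]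
  omega

lemma card_far' {d : ℕ} (hd : ∀ x, (G.neighborSet x).ncard = d) (v : V) :
    {x | Far G x v}.ncard = Fintype.card V - 1 - d := by
  rw [← card_far hd v]
  congr 1
  ext x
  unfold Far
  simp only [Set.mem_ofPred_eq, ne_comm, G.adj_comm]

/-- every first arc is used by at most one path of every system: at most `n-1-d` targets -/
lemma sum_fcount_le {d : ℕ} (hd : ∀ x, (G.neighborSet x).ncard = d) (x w : V) :
    ∑ v, fcount M x v w ≤ ((Fintype.card V - 1 - d : ℕ) : ℝ) := by
  classical
  rw [← card_far hd x]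
  have h1 : ∑ v, fcount M x v w ≤ ∑ v, (if Far G x v then (1 : ℝ) else 0) := by
    refine Finset.sum_le_sum fun v _ => ?_
    split_ifs with h
    · exact fcount_le_one M x v w
    · rw [fcount_of_not_far M h]
  refine h1.trans ?_
  rw [Finset.sum_ite, Finset.sum_const_zero, add_zero, Finset.sum_const, nsmul_eq_mul, mul_one,
    ← Set.ncard_coe_finset]
  simp

lemma sum_lcount_le {d : ℕ} (hd : ∀ x, (G.neighborSet x).ncard = d) (v w : V) :
    ∑ x, lcount M x v w ≤ ((Fintype.card V - 1 - d : ℕ) : ℝ) := by
  classical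
  rw [← card_far' hd v]
  have h1 : ∑ x, lcount M x v w ≤ ∑ x, (if Far G x v then (1 : ℝ) else 0) := by
    refine Finset.sum_le_sum fun x _ => ?_
    split_ifs with h
    · exact lcount_le_one M x v w
    · rw [lcount_of_not_far M h]
  refine h1.trans ?_
  rw [Finset.sum_ite, Finset.sum_const_zero, add_zero, Finset.sum_const, nsmul_eq_mul, mul_one,
    ← Set.ncard_coe_finset]
  simp

/-- if `k = d`, every first arc is used exactly once by every system -/
lemma fcount_eq_one {x v w : V} (h : Far G x v) (hk : (G.neighborSet x).ncard = k)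
    (hw : G.Adj x w) : fcount M x v w = 1 := by
  classical
  have h1 := sum_fcount M h
  have h2 : ∑ w, fcount M x v w = ∑ w, (if G.Adj x w then fcount M x v w else 0) := by
    refine Finset.sum_congr rfl fun w _ => ?_
    split_ifs with h'
    · rfl
    · exact fcount_of_not_adj M h'
  have h3 : ∑ w, (if G.Adj x w then (1 : ℝ) else 0) = k := by
    rw [Finset.sum_ite, Finset.sum_const_zero, add_zero, Finset.sum_const, nsmul_eq_mul, mul_one,
      ← hk, ← Set.ncard_coe_finset]
    congr 2
    ext w; simp
  have h4 : ∑ w, ((if G.Adj x w then (1 : ℝ) else 0) -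
      (if G.Adj x w then fcount M x v w else 0)) = 0 := by
    rw [Finset.sum_sub_distrib, h3, ← h2, h1, sub_self]
  rw [Finset.sum_eq_zero_iff_of_nonneg] at h4
  · have := h4 w (mem_univ w)
    rw [if_pos hw, if_pos hw] at this
    linarith
  · intro w _
    split_ifs
    · have := fcount_le_one M x v w; linarith
    · norm_num

lemma lcount_eq_one {x v w : V} (h : Far G x v) (hk : (G.neighborSet v).ncard = k)
    (hw : G.Adj w v) : lcount M x v w = 1 := by
  classical
  have h1 := sum_lcount M h
  have h2 : ∑ w, lcount M x v w = ∑ w, (if G.Adj w v then lcount M x v w else 0) := by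
    refine Finset.sum_congr rfl fun w _ => ?_
    split_ifs with h'
    · rfl
    · exact lcount_of_not_adj M h'
  have h3 : ∑ w, (if G.Adj w v then (1 : ℝ) else 0) = k := by
    rw [Finset.sum_ite, Finset.sum_const_zero, add_zero, Finset.sum_const, nsmul_eq_mul, mul_one,
      ← hk, ← Set.ncard_coe_finset]
    congr 2
    ext w; simp [G.adj_comm]
  have h4 : ∑ w, ((if G.Adj w v then (1 : ℝ) else 0) -
      (if G.Adj w v then lcount M x v w else 0)) = 0 := by
    rw [Finset.sum_sub_distrib, h3, ← h2, h1, sub_self]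
  rw [Finset.sum_eq_zero_iff_of_nonneg] at h4
  · have := h4 w (mem_univ w)
    rw [if_pos hw, if_pos hw] at this
    linarith
  · intro w _
    split_ifs
    · have := lcount_le_one M x v w; linarith
    · norm_num

end stats

end Pool.Agent.UPS.IB
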