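import Pool.Agent.Lib.MP_876e19_co_ups.InvGsw

/-!
# The cut tests together with tests of the ends only (helper91)

`cut_tests_E`: `cut_tests_LS` with a second finite family of tests, functionals of the end usage
errors `kend` alone; for these the exponential form is kept, so that a further Gram-Schmidt step
(helper54's swap phase) can be applied to the same base.
-/

set_option autoImplicit false

namespace Pool.Agent.UPS.IB

open Finset Real

variable {V : Type*} [Fintype V] {G : SimpleGraph V} {k : ℕ}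

/-- the optimal splitting parameter, with both values -/
lemma opt_tau' {A m c : ℝ} (hA : 0 < A) (hm : 0 ≤ m) (hc : 0 < c) :
    ∃ τ : ℝ, (m ≠ 0 → τ ≠ 0) ∧ (A + m * τ⁻¹ ^ 2) * (1 + τ ^ 2 * c ^ 2) = (√A + √m * c) ^ 2 ∧
      (A + m * τ⁻¹ ^ 2) * τ ^ 2 = √m * (√A + √m * c) / c := by
  rcases hm.eq_or_lt with hm0 | hm0
  · refine ⟨0, fun h => absurd hm0.symm h, ?_, ?_⟩
    · rw [← hm0]
      simp [Real.sq_sqrt hA.le]
    · rw [← hm0]
      simp
  · have hA' := Real.sqrt_pos.2 hA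
    have hm' := Real.sqrt_pos.2 hm0
    have ht : 0 < √m / (c * √A) := by positivity
    refine ⟨√(√m / (c * √A)), fun _ => (Real.sqrt_pos.2 ht).ne', ?_, ?_⟩
    · rw [inv_pow, Real.sq_sqrt ht.le]
      have e1 : A = √A ^ 2 := (Real.sq_sqrt hA.le).symm
      have e2 : m = √m ^ 2 := (Real.sq_sqrt hm0.le).symm
      set x := √A
      set y := √m
      rw [e1, e2]
      field_simp
    · rw [inv_pow, Real.sq_sqrt ht.le]
      have e1 : A = √A ^ 2 := (Real.sq_sqrt hA.le).symm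
      have e2 : m = √m ^ 2 := (Real.sq_sqrt hm0.le).symm
      set x := √A
      set y := √m
      rw [e1, e2]
      field_simp

/-- variance factor of the end tests -/
noncomputable def VE (S L : ℝ) (k d : ℕ) : ℝ :=
  (√(min (k : ℝ) ((d : ℝ) - k) / k ^ 2) * √(W1 S k d) + √(W2 L d)) * (2 * ((d : ℝ) - 1))

/-- **the cut tests, general form, with additional tests of the ends** -/
theorem cut_tests_E {d : ℕ} (hd : ∀ x, (G.neighborSet x).ncard = d) (hd3 : 3 ≤ d) (hk : 0 < k)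
    (hkd : k ≤ d) (M : MSys G k) {L S : ℝ} (hL : PairLe M L) (hS : SumLe M S)
    (hL2 : 2 ≤ L) (hSk : k < S)
    {Θ : Type*} [Fintype Θ] (z : Θ → Sym2 V → ℝ) (s : Θ → ℝ)
    {Θ' : Type*} [Fintype Θ'] (b : Θ' → Sym2 V → ℝ) (s' : Θ' → ℝ)
    (hlt : ∑ t, exp ((W1 S k d + W2 L d) * (∑ e, z t e ^ 2) / 2 - s t) +
      ∑ t, exp (VE S L k d * (∑ e, b t e ^ 2) / 2 - s' t) < 1) :
    ∃ P : ∀ x y : V, G.Walk x y, Base k P ∧
      (∀ t, ∑ e, (- z t e * kerr M P e + max (z t e) 0 / ((d : ℝ) - 1) * kend M P e) < s t) ∧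
      ∑ t, exp (∑ e, b t e * kend M P e - s' t) < 1 := by
  have hd3' : (3 : ℝ) ≤ d := by exact_mod_cast hd3
  have hkd' : (k : ℝ) ≤ d := by exact_mod_cast hkd
  have hk0 : (0 : ℝ) < k := by exact_mod_cast hk
  set al : ℝ := ((d : ℝ) - 2) / (d - 1) with hal
  have hal0 : 0 < al := div_pos (by linarith) (by linarith)
  set c : ℝ := 1 / (2 * ((d : ℝ) - 1)) with hc
  have hc0 : 0 < c := by
    rw [hc]
    apply div_pos one_pos
    linarith
  set m : ℝ := min (k : ℝ) ((d : ℝ) - k) with hm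
  have hdk : 0 ≤ m := le_min hk0.le (by linarith)
  have hnk : 0 < S - k := by linarith
  have hA1 : 0 < (2 * (S - k) + 4 * m * al ^ 2) / (16 * k ^ 2) := by positivity
  have hA2 : 0 < (L - 2 + 4 * al ^ 2) / 16 := by
    have : 0 ≤ L - 2 := by linarith
    positivity
  obtain ⟨τ₁, hτ₁, h1, h1'⟩ :=
    opt_tau' hA1 (div_nonneg hdk (by positivity : (0 : ℝ) ≤ (k : ℝ) ^ 2)) hc0
  obtain ⟨τ₂, hτ₂, h2, h2'⟩ := opt_tau' hA2 zero_le_one hc0
  have hτ₁' : τ₁ ≠ 0 ∨ k = d := by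
    by_cases h : k = d
    · exact Or.inr h
    · left
      apply hτ₁
      have h3 : (k : ℝ) < d := lt_of_le_of_ne hkd' (fun h' => h (by exact_mod_cast h'))
      have h4 : 0 < m := lt_min hk0 (by linarith)
      positivity
  have hW1 : √(W1 S k d) = √((2 * (S - k) + 4 * m * al ^ 2) / (16 * k ^ 2)) + √(m / k ^ 2) * c := by
    unfold W1
    rw [← hal, ← hc, ← hm]
    exact Real.sqrt_sq (by positivity)
  have hW2 : √(W2 L d) = √((L - 2 + 4 * al ^ 2) / 16) + c := by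
    unfold W2
    rw [← hal, ← hc]
    exact Real.sqrt_sq (by positivity)
  have hVE : VE S L k d = R1g S k d al τ₁ * τ₁ ^ 2 + R2g L al τ₂ * τ₂ ^ 2 := by
    have e1 : R1g S k d al τ₁ * τ₁ ^ 2 = √(m / k ^ 2) * √(W1 S k d) / c := by
      rw [hW1]
      unfold R1g
      rw [← hm, ← h1']
    have e2 : R2g L al τ₂ * τ₂ ^ 2 = √(W2 L d) / c := by
      rw [hW2]
      unfold R2g
      rw [Real.sqrt_one, one_mul, one_mul, one_mul] at h2'
      rw [← h2']
    rw [e1, e2]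
    unfold VE
    rw [← hm, hc]
    have : (d : ℝ) - 1 ≠ 0 := by linarith
    field_simp
  obtain ⟨P, hB, h⟩ := inv_gsw_LS hd hk hkd M hL hS hL2 hSk.le (al := al) hτ₁' (hτ₂ one_ne_zero)
    (Θ := Θ ⊕ Θ') (Sum.elim (fun t e => - z t e) (fun _ _ => 0))
    (Sum.elim (fun t e => max (z t e) 0 / ((d : ℝ) - 1)) b)
    (Sum.elim (fun t => - s t) (fun t => - s' t))
  rw [Fintype.sum_sum_type, Fintype.sum_sum_type] at h
  simp only [Sum.elim_inl, Sum.elim_inr] at h
  have e1 : ∀ t e, max (z t e) 0 / ((d : ℝ) - 1) + (1 - al) / 2 * (- z t e) = c * |z t e| := by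
    intro t e
    have h5 : (d : ℝ) - 1 ≠ 0 := by linarith
    have h6 : 1 - al = 1 / ((d : ℝ) - 1) := by
      rw [hal]; field_simp; ring
    rw [h6, hc]
    rcases le_total (z t e) 0 with h | h
    · rw [max_eq_right h, abs_of_nonpos h]
      field_simp
      ring
    · rw [max_eq_left h, abs_of_nonneg h]
      field_simp
      ring
  have e2 : ∀ t, ∀ τ : ℝ, ∑ e, ((- z t e) ^ 2 + τ ^ 2 * (max (z t e) 0 / ((d : ℝ) - 1) +
      (1 - al) / 2 * (- z t e)) ^ 2) = (1 + τ ^ 2 * c ^ 2) * ∑ e, z t e ^ 2 := by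
    intro t τ
    rw [Finset.mul_sum]
    refine Finset.sum_congr rfl fun e _ => ?_
    rw [e1, mul_pow, sq_abs]
    ring
  have e3 : ∀ t : Θ', ∀ τ : ℝ, ∑ e, ((0 : ℝ) ^ 2 + τ ^ 2 * (b t e + (1 - al) / 2 * 0) ^ 2) =
      τ ^ 2 * ∑ e, b t e ^ 2 := by
    intro t τ
    rw [Finset.mul_sum]
    refine Finset.sum_congr rfl fun e _ => ?_
    ring
  simp only [e2, e3] at h
  have hlt' : ∑ t, exp (- s t + (R1g S k d al τ₁ * ((1 + τ₁ ^ 2 * c ^ 2) * ∑ e, z t e ^ 2) +
      R2g L al τ₂ * ((1 + τ₂ ^ 2 * c ^ 2) * ∑ e, z t e ^ 2)) / 2) +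
      ∑ t, exp (- s' t + (R1g S k d al τ₁ * (τ₁ ^ 2 * ∑ e, b t e ^ 2) +
      R2g L al τ₂ * (τ₂ ^ 2 * ∑ e, b t e ^ 2)) / 2) < 1 := by
    refine lt_of_eq_of_lt ?_ hlt
    congr 1
    · refine Finset.sum_congr rfl fun t _ => ?_
      congr 1
      have hw1 : W1 S k d = R1g S k d al τ₁ * (1 + τ₁ ^ 2 * c ^ 2) := by
        unfold R1g W1
        rw [← hal, ← hc, ← hm, ← h1]
      have hw2 : W2 L d = R2g L al τ₂ * (1 + τ₂ ^ 2 * c ^ 2) := by
        unfold R2g W2
        rw [← hal, ← hc]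
        rw [one_mul, Real.sqrt_one, one_mul] at h2
        rw [← h2]
      rw [hw1, hw2]
      ring
    · refine Finset.sum_congr rfl fun t _ => ?_
      congr 1
      rw [hVE]
      ring
  have h3 := h.trans_lt hlt'
  have hp1 : 0 ≤ ∑ t, exp (- s t +
      ∑ e, (- z t e * kerr M P e + max (z t e) 0 / ((d : ℝ) - 1) * kend M P e)) :=
    Finset.sum_nonneg fun _ _ => (exp_pos _).le
  have hp2 : 0 ≤ ∑ t, exp (- s' t + ∑ e, (0 * kerr M P e + b t e * kend M P e)) :=
    Finset.sum_nonneg fun _ _ => (exp_pos _).le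
  refine ⟨P, hB, fun t => ?_, ?_⟩
  · have h4 : ∑ t, exp (- s t +
      ∑ e, (- z t e * kerr M P e + max (z t e) 0 / ((d : ℝ) - 1) * kend M P e)) < 1 := by
      linarith
    have h5 := (Finset.single_le_sum (f := fun t => exp (- s t +
      ∑ e, (- z t e * kerr M P e + max (z t e) 0 / ((d : ℝ) - 1) * kend M P e)))
      (fun _ _ => (exp_pos _).le) (Finset.mem_univ t)).trans_lt h4
    have h6 := Real.exp_lt_one_iff.1 h5
    linarith
  · have h4 : ∑ t, exp (- s' t + ∑ e, (0 * kerr M P e + b t e * kend M P e)) < 1 := by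
      linarith
    refine lt_of_eq_of_lt (Finset.sum_congr rfl fun t _ => ?_) h4
    congr 1
    rw [sub_eq_add_neg, add_comm]
    congr 1
    refine Finset.sum_congr rfl fun e _ => ?_
    ring

end Pool.Agent.UPS.IB
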