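import Pool.Agent.Lib.MP_876e19_co_ups.InvGsw
import Pool.Agent.Lib.MP_876e19_co_ups.GswSharp

/-!
# The swap phase

For an unordered pair `{x, y}` the two paths `P x y`, `P y x` may be exchanged (and reversed).  This
changes neither the loads nor the edge loads nor the number of ends on an edge, but it exchanges the
kills of the two stages.  A second Gram-Schmidt walk balances the two kinds of kills on every edge.
-/

set_option autoImplicit false

open Finset Real

namespace Pool.Agent.UPS.IB

variable {V : Type*} {G : SimpleGraph V} {k : ℕ}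

open Classical in
/-- the swapped system -/
noncomputable def sw (P : ∀ x y : V, G.Walk x y) (s : Sym2 V → Prop) : ∀ x y : V, G.Walk x y :=
  fun x y => if s s(x, y) then (P y x).reverse else P x y

lemma sw_pos (P : ∀ x y : V, G.Walk x y) {s : Sym2 V → Prop} {x y : V} (h : s s(x, y)) :
    sw P s x y = (P y x).reverse := if_pos h

lemma sw_neg (P : ∀ x y : V, G.Walk x y) {s : Sym2 V → Prop} {x y : V} (h : ¬ s s(x, y)) :
    sw P s x y = P x y := if_neg h

lemma far_symm {x y : V} (h : Far G x y) : Far G y x := ⟨h.1.symm, fun h' => h.2 h'.symm⟩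

lemma fe_reverse {x v : V} (p : G.Walk x v) : fe p.reverse = le p := by
  unfold fe le
  rw [SimpleGraph.Walk.getVert_reverse]

lemma le_reverse {x v : V} (p : G.Walk x v) (h : 1 ≤ p.length) : le p.reverse = fe p := by
  unfold fe le
  rw [SimpleGraph.Walk.getVert_reverse, SimpleGraph.Walk.length_reverse]
  have : p.length - (p.length - 1) = 1 := by omega
  rw [this]

lemma endf_reverse {x v : V} (p : G.Walk x v) (h : 1 ≤ p.length) (e : Sym2 V) :
    endf p.reverse e = endf p e := by
  unfold endf
  rw [fe_reverse, le_reverse p h, add_comm]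

/-- the swapped system is again a base -/
theorem Base.sw [Fintype V] {P : ∀ x y : V, G.Walk x y} (hB : Base k P) (s : Sym2 V → Prop) :
    Base k (sw P s) := by
  refine ⟨?_, ?_, ?_, ?_, ?_, ?_⟩
  · intro x y hxy
    by_cases h : s s(x, y)
    · rw [sw_pos P h]
      exact (hB.paths y x hxy.symm).reverse
    · rw [sw_neg P h]
      exact hB.paths x y hxy
  · intro x y hxy
    by_cases h : s s(x, y)
    · rw [sw_pos P h, hB.adj y x hxy.symm]
      rfl
    · rw [sw_neg P h]
      exact hB.adj x y hxy
  · intro x y hxy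
    by_cases h : s s(x, y)
    · rw [sw_pos P h, SimpleGraph.Walk.length_reverse]
      exact hB.two y x (far_symm hxy)
    · rw [sw_neg P h]
      exact hB.two x y hxy
  · intro x y hxy w hw hxw
    by_cases h : s s(x, y)
    · rw [sw_pos P h] at hw ⊢
      rw [SimpleGraph.Walk.getVert_reverse]
      rw [SimpleGraph.Walk.support_reverse, List.mem_reverse] at hw
      exact hB.lst y x (far_symm hxy) w hw hxw.symm
    · rw [sw_neg P h] at hw ⊢
      exact hB.fst x y hxy w hw hxw
  · intro x y hxy w hw hxw
    by_cases h : s s(x, y)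
    · rw [sw_pos P h] at hw ⊢
      have h2 := hB.two y x (far_symm hxy)
      rw [SimpleGraph.Walk.getVert_reverse, SimpleGraph.Walk.length_reverse]
      have : (P y x).length - ((P y x).length - 1) = 1 := by omega
      rw [this]
      rw [SimpleGraph.Walk.support_reverse, List.mem_reverse] at hw
      exact hB.fst y x (far_symm hxy) w hw hxw.symm
    · rw [sw_neg P h] at hw ⊢
      exact hB.lst x y hxy w hw hxw
  · intro x y hxy
    by_cases h : s s(x, y)
    · rw [sw_pos P h, SimpleGraph.Walk.length_reverse]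
      exact hB.len y x (far_symm hxy)
    · rw [sw_neg P h]
      exact hB.len x y hxy

variable [Fintype V]

open Classical in
/-- exchanging the two orders of some unordered pairs does not change a double sum -/
theorem sum_swap {M : Type*} [AddCommMonoid M] (s : Sym2 V → Prop) (g : V → V → M) :
    ∑ x, ∑ y, (if s s(x, y) then g y x else g x y) = ∑ x, ∑ y, g x y := by
  let t : V × V → V × V := fun p => if s s(p.1, p.2) then (p.2, p.1) else p
  have ht : Function.Involutive t := by
    intro p
    by_cases h : s s(p.1, p.2)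
    · have h1 : t p = (p.2, p.1) := if_pos h
      rw [h1]
      have h2 : s s(p.2, p.1) := by rw [Sym2.eq_swap]; exact h
      exact if_pos h2
    · have h1 : t p = p := if_neg h
      rw [h1, h1]
  rw [← Fintype.sum_prod_type', ← Fintype.sum_prod_type',
    ← Equiv.sum_comp (Function.Involutive.toPerm t ht)]
  refine Finset.sum_congr rfl fun p _ => ?_
  have h0 : Function.Involutive.toPerm t ht p = t p := rfl
  rw [h0]
  by_cases h : s s(p.1, p.2)
  · have h1 : t p = (p.2, p.1) := if_pos h
    have h2 : s s(p.2, p.1) := by rw [Sym2.eq_swap]; exact h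
    rw [h1]
    exact if_pos h2
  · have h1 : t p = p := if_neg h
    rw [h1]
    exact if_neg h

/-- swapping does not change the loads -/
theorem load_sw (P : ∀ x y : V, G.Walk x y) (s : Sym2 V → Prop) (v : V) :
    load (sw P s) v = load P v := by
  classical
  rw [Toggle.load_eq_sum, Toggle.load_eq_sum]
  simp only [Finset.card_filter]
  rw [← sum_swap s (fun x u => if x ≠ u ∧ v ∈ (P x u).support then 1 else 0)]
  refine Finset.sum_congr rfl fun x _ => Finset.sum_congr rfl fun u _ => ?_
  by_cases h : s s(x, u)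
  · rw [sw_pos P h, if_pos h, SimpleGraph.Walk.support_reverse]
    refine if_congr ?_ rfl rfl
    rw [List.mem_reverse, ne_comm]
  · rw [sw_neg P h, if_neg h]

/-- swapping does not change the edge loads -/
theorem eload_sw (P : ∀ x y : V, G.Walk x y) (s : Sym2 V → Prop) (e : Sym2 V) :
    eload (sw P s) e = eload P e := by
  classical
  rw [Parity.eload_eq, Parity.eload_eq, Fintype.sum_prod_type, Fintype.sum_prod_type]
  rw [← sum_swap s (fun x u => if x ≠ u ∧ e ∈ (P x u).edges then 1 else 0)]
  refine Finset.sum_congr rfl fun x _ => Finset.sum_congr rfl fun u _ => ?_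
  by_cases h : s s(x, u)
  · simp only [sw_pos P h, if_pos h, SimpleGraph.Walk.edges_reverse]
    refine if_congr ?_ rfl rfl
    rw [List.mem_reverse, ne_comm]
  · simp only [sw_neg P h, if_neg h]

/-- swapping does not change the number of ends on an edge -/
theorem endc_sw {P : ∀ x y : V, G.Walk x y} (hB : Base k P) (s : Sym2 V → Prop) (e : Sym2 V) :
    endc (sw P s) e = endc P e := by
  classical
  unfold endc
  rw [← sum_swap s (fun x y => if Far G x y then endf (P x y) e else 0)]
  refine Finset.sum_congr rfl fun x _ => Finset.sum_congr rfl fun y _ => ?_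
  by_cases h : s s(x, y)
  · rw [if_pos h]
    by_cases hf : Far G x y
    · have h2 := hB.two y x (far_symm hf)
      rw [if_pos hf, if_pos (far_symm hf), sw_pos P h, endf_reverse _ (by omega)]
    · rw [if_neg hf, if_neg fun h' => hf (far_symm h')]
  · rw [if_neg h, sw_neg P h]

theorem kerr_sw (M : MSys G k) (P : ∀ x y : V, G.Walk x y) (s : Sym2 V → Prop) (e : Sym2 V) :
    kerr M (sw P s) e = kerr M P e := by
  unfold kerr
  rw [eload_sw]

theorem kend_sw (M : MSys G k) {P : ∀ x y : V, G.Walk x y} (hB : Base k P) (s : Sym2 V → Prop)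
    (e : Sym2 V) : kend M (sw P s) e = kend M P e := by
  unfold kend
  rw [endc_sw hB]

/-! ### first and last edges -/

open Classical in
/-- number of last edges of the paths of far pairs on the edge `e` -/
noncomputable def outc (P : ∀ x y : V, G.Walk x y) (e : Sym2 V) : ℝ :=
  ∑ x, ∑ y, if Far G x y then (if e = le (P x y) then 1 else 0) else 0

open Classical in
/-- number of first edges of the paths of far pairs on the edge `e` -/
noncomputable def inc (P : ∀ x y : V, G.Walk x y) (e : Sym2 V) : ℝ :=
  ∑ x, ∑ y, if Far G x y then (if e = fe (P x y) then 1 else 0) else 0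

lemma inc_add_outc (P : ∀ x y : V, G.Walk x y) (e : Sym2 V) : inc P e + outc P e = endc P e := by
  classical
  unfold inc outc endc endf
  rw [← Finset.sum_add_distrib]
  refine Finset.sum_congr rfl fun x _ => ?_
  rw [← Finset.sum_add_distrib]
  refine Finset.sum_congr rfl fun y _ => ?_
  by_cases h : Far G x y
  · rw [if_pos h, if_pos h, if_pos h]
  · rw [if_neg h, if_neg h, if_neg h, add_zero]

omit [Fintype V] in
lemma ind_mk {u w : V} (huw : u ≠ w) (a b : V) :
    (open Classical in if s(u, w) = s(a, b) then (1 : ℝ) else 0) =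
      (open Classical in (if a = u ∧ b = w then (1 : ℝ) else 0) +
        (if a = w ∧ b = u then 1 else 0)) := by
  classical
  by_cases h1 : a = u ∧ b = w
  · obtain ⟨rfl, rfl⟩ := h1
    simp [huw]
  · by_cases h2 : a = w ∧ b = u
    · obtain ⟨rfl, rfl⟩ := h2
      simp [huw, Sym2.eq_swap]
    · rw [if_neg h1, if_neg h2, if_neg]
      · ring
      · rw [Sym2.eq_iff]
        rintro (h | h)
        · exact h1 ⟨h.1.symm, h.2.symm⟩
        · exact h2 ⟨h.2.symm, h.1.symm⟩

lemma inc_mk (P : ∀ x y : V, G.Walk x y) {u w : V} (huw : u ≠ w) :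
    inc P s(u, w) = fcnt P u w + fcnt P w u := by
  classical
  unfold inc
  rw [← sum_root, ← sum_root, ← Finset.sum_add_distrib]
  refine Finset.sum_congr rfl fun x _ => ?_
  rw [← Finset.sum_add_distrib]
  refine Finset.sum_congr rfl fun y _ => ?_
  by_cases h : Far G x y
  · rw [if_pos h, if_pos h, if_pos h]
    unfold fe
    exact ind_mk huw _ _
  · rw [if_neg h, if_neg h, if_neg h, add_zero]

lemma outc_mk (P : ∀ x y : V, G.Walk x y) {u w : V} (huw : u ≠ w) :
    outc P s(u, w) = lcnt P u w + lcnt P w u := by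
  classical
  unfold outc
  rw [← sum_target, ← sum_target, ← Finset.sum_add_distrib]
  refine Finset.sum_congr rfl fun x _ => ?_
  rw [← Finset.sum_add_distrib]
  refine Finset.sum_congr rfl fun y _ => ?_
  by_cases h : Far G x y
  · rw [if_pos h, if_pos h, if_pos h]
    unfold le
    exact ind_mk huw _ _
  · rw [if_neg h, if_neg h, if_neg h, add_zero]

lemma outKill_outc [DecidableEq V] {P : ∀ x y : V, G.Walk x y} (hB : Base k P) {u w : V}
    (h : G.Adj u w) : ((TS.outKill P u w + TS.outKill P w u : ℕ) : ℝ) = outc P s(u, w) := by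
  rw [outKill_eq hB h, outKill_eq hB h.symm, outc_mk P h.ne]
  push_cast
  ring

lemma inKill_inc [DecidableEq V] {P : ∀ x y : V, G.Walk x y} (hB : Base k P) {u w : V}
    (h : G.Adj u w) : ((TS.inKill P u w + TS.inKill P w u : ℕ) : ℝ) = inc P s(u, w) := by
  rw [inKill_eq hB h, inKill_eq hB h.symm, inc_mk P h.ne]
  push_cast
  ring

open Classical in
/-- last minus first edges, one ordered pair -/
noncomputable def qq (P : ∀ x y : V, G.Walk x y) (x y : V) (e : Sym2 V) : ℝ :=
  if Far G x y then (if e = le (P x y) then 1 else 0) - (if e = fe (P x y) then 1 else 0) else 0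

lemma outc_sub_inc (P : ∀ x y : V, G.Walk x y) (e : Sym2 V) :
    outc P e - inc P e = ∑ x, ∑ y, qq P x y e := by
  classical
  unfold inc outc qq
  rw [← Finset.sum_sub_distrib]
  refine Finset.sum_congr rfl fun x _ => ?_
  rw [← Finset.sum_sub_distrib]
  refine Finset.sum_congr rfl fun y _ => ?_
  by_cases h : Far G x y
  · rw [if_pos h, if_pos h, if_pos h]
  · rw [if_neg h, if_neg h, if_neg h, sub_zero]

omit [Fintype V] in
lemma qq_sw_pos [Fintype V] {P : ∀ x y : V, G.Walk x y} (hB : Base k P) {s : Sym2 V → Prop}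
    {x y : V} (h : s s(x, y)) (e : Sym2 V) : qq (sw P s) x y e = - qq P y x e := by
  unfold qq
  by_cases hf : Far G x y
  · have h2 := hB.two y x (far_symm hf)
    rw [if_pos hf, if_pos (far_symm hf), sw_pos P h, fe_reverse, le_reverse _ (by omega)]
    ring
  · rw [if_neg hf, if_neg fun h' => hf (far_symm h'), neg_zero]

omit [Fintype V] in
lemma qq_sw_neg {P : ∀ x y : V, G.Walk x y} {s : Sym2 V → Prop}
    {x y : V} (h : ¬ s s(x, y)) (e : Sym2 V) : qq (sw P s) x y e = qq P x y e := by
  unfold qq
  rw [sw_neg P h]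

open Classical in
/-- the vector of an unordered pair -/
noncomputable def vv (P : ∀ x y : V, G.Walk x y) (p : Sym2 V) (e : Sym2 V) : ℝ :=
  ∑ q ∈ univ.filter (fun q : V × V => s(q.1, q.2) = p), qq P q.1 q.2 e

open Classical in
/-- the difference of the two kinds of kills after swapping -/
theorem disc_sw {P : ∀ x y : V, G.Walk x y} (hB : Base k P) (s : Sym2 V → Prop) (e : Sym2 V) :
    outc (sw P s) e - inc (sw P s) e = ∑ p, (if s p then (-1 : ℝ) else 1) * vv P p e := by
  rw [outc_sub_inc]
  have h1 : ∀ x y, qq (sw P s) x y e =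
      if s s(x, y) then (if s s(y, x) then (-1 : ℝ) else 1) * qq P y x e
        else (if s s(x, y) then (-1 : ℝ) else 1) * qq P x y e := by
    intro x y
    by_cases h : s s(x, y)
    · have h' : s s(y, x) := by rw [Sym2.eq_swap]; exact h
      rw [if_pos h, if_pos h', qq_sw_pos hB h]
      ring
    · rw [if_neg h, if_neg h, qq_sw_neg h]
      ring
  rw [Finset.sum_congr rfl fun x _ => Finset.sum_congr rfl fun y _ => h1 x y,
    sum_swap s (fun x y => (if s s(x, y) then (-1 : ℝ) else 1) * qq P x y e),
    ← Fintype.sum_prod_type',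
    ← Finset.sum_fiberwise_of_maps_to (s := (univ : Finset (V × V))) (t := (univ : Finset (Sym2 V)))
      (g := fun q : V × V => s(q.1, q.2)) (fun _ _ => Finset.mem_univ _)]
  refine Finset.sum_congr rfl fun p _ => ?_
  unfold vv
  rw [Finset.mul_sum]
  refine Finset.sum_congr rfl fun q hq => ?_
  rw [(Finset.mem_filter.1 hq).2]

/-- an edge which is an end of a path between `a` and `b` at `a` does not contain `b` -/
lemma end_at {a b : V} (h : Far G a b) {e : Sym2 V}
    (he : e ∈ G.edgeSet) (ha : a ∈ e) (hb : b ∈ e) : False := by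
  have h1 : e = s(a, b) := (Sym2.mem_and_mem_iff h.1).1 ⟨ha, hb⟩
  rw [h1, SimpleGraph.mem_edgeSet] at he
  exact h.2 he

lemma vv_mk {P : ∀ x y : V, G.Walk x y} {a b : V} (h : Far G a b) (e : Sym2 V) :
    vv P s(a, b) e = qq P a b e + qq P b a e := by
  classical
  unfold vv
  have : (univ.filter fun q : V × V => s(q.1, q.2) = s(a, b)) = {(a, b), (b, a)} := by
    ext q
    rw [Finset.mem_filter, Finset.mem_insert, Finset.mem_singleton, Sym2.eq_iff, Prod.ext_iff,
      Prod.ext_iff]
    simp only [Finset.mem_univ, true_and]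
  rw [this, Finset.sum_pair]
  intro h'
  exact h.1 (congrArg Prod.fst h')

/-- the norm of the vectors is at most two -/
theorem sum_vv_sq {P : ∀ x y : V, G.Walk x y} (hB : Base k P) (p : Sym2 V) :
    ∑ e, vv P p e ^ 2 ≤ 4 := by
  classical
  induction p with
  | _ a b =>
  by_cases h : Far G a b
  · have h2 := hB.two a b h
    have h3 := hB.two b a (far_symm h)
    have key : ∀ e, vv P s(a, b) e ^ 2 ≤
        ((if e = le (P b a) then (1 : ℝ) else 0) + (if e = fe (P a b) then 1 else 0)) +
        ((if e = le (P a b) then 1 else 0) + (if e = fe (P b a) then 1 else 0)) := by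
      intro e
      rw [vv_mk h]
      unfold qq
      rw [if_pos h, if_pos (far_symm h)]
      -- ends at `a`: `le (P b a)`, `fe (P a b)`; ends at `b`: `le (P a b)`, `fe (P b a)`
      have ma : ∀ e', e' = le (P b a) ∨ e' = fe (P a b) → e' ∈ G.edgeSet ∧ a ∈ e' := by
        rintro e' (rfl | rfl)
        · exact ⟨SimpleGraph.Walk.edges_subset_edgeSet _ (le_mem _ h3), Sym2.mem_mk_left _ _⟩
        · exact ⟨SimpleGraph.Walk.edges_subset_edgeSet _ (fe_mem _ h2), Sym2.mem_mk_left _ _⟩
      have mb : ∀ e', e' = le (P a b) ∨ e' = fe (P b a) → b ∈ e' := by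
        rintro e' (rfl | rfl)
        · exact Sym2.mem_mk_left _ _
        · exact Sym2.mem_mk_left _ _
      by_cases c1 : e = le (P b a) ∨ e = fe (P a b)
      · obtain ⟨g1, g2⟩ := ma e c1
        have c2 : ¬ (e = le (P a b) ∨ e = fe (P b a)) := fun h' => end_at h g1 g2 (mb e h')
        push Not at c2
        rw [if_neg c2.1, if_neg c2.2]
        by_cases c3 : e = le (P b a) <;> by_cases c4 : e = fe (P a b)
        · rw [if_pos c3, if_pos c4]; norm_num
        · rw [if_pos c3, if_neg c4]; norm_num
        · rw [if_neg c3, if_pos c4]; norm_num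
        · rw [if_neg c3, if_neg c4]; norm_num
      · push Not at c1
        rw [if_neg c1.1, if_neg c1.2]
        by_cases c3 : e = le (P a b) <;> by_cases c4 : e = fe (P b a)
        · rw [if_pos c3, if_pos c4]; norm_num
        · rw [if_pos c3, if_neg c4]; norm_num
        · rw [if_neg c3, if_pos c4]; norm_num
        · rw [if_neg c3, if_neg c4]; norm_num
    refine (Finset.sum_le_sum fun e _ => key e).trans ?_
    rw [Finset.sum_add_distrib, Finset.sum_add_distrib, Finset.sum_add_distrib,
      Finset.sum_ite_eq', Finset.sum_ite_eq', Finset.sum_ite_eq', Finset.sum_ite_eq']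
    simp only [Finset.mem_univ, if_true]
    norm_num
  · have h0 : ∀ e, vv P s(a, b) e = 0 := by
      intro e
      unfold vv
      refine Finset.sum_eq_zero fun q hq => ?_
      have h1 := (Finset.mem_filter.1 hq).2
      unfold qq
      rw [if_neg]
      intro hf
      rw [Sym2.eq_iff] at h1
      rcases h1 with ⟨h2, h3⟩ | ⟨h2, h3⟩
      · rw [h2, h3] at hf
        exact h hf
      · rw [h2, h3] at hf
        exact h (far_symm hf)
    simp only [h0]
    norm_num

/-- **The swap phase.** Linear tests of the difference `outc - inc`; loads, edge loads and ends are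
unchanged. -/
theorem swap_gsw {P : ∀ x y : V, G.Walk x y} (hB : Base k P) {Θ : Type*} [Fintype Θ]
    (c : Θ → Sym2 V → ℝ) (r : Θ → ℝ) :
    ∃ P' : ∀ x y : V, G.Walk x y, Base k P' ∧ (∀ v, load P' v = load P v) ∧
      (∀ e, eload P' e = eload P e) ∧ (∀ e, endc P' e = endc P e) ∧
      ∑ t, exp (r t + ∑ e, c t e * (outc P' e - inc P' e)) ≤
        ∑ t, exp (r t + 2 * ∑ e, c t e ^ 2) := by
  classical
  obtain ⟨x, hx, _, h⟩ := Sharp.gsw_sharp
    (fun p : Sym2 V => (WithLp.toLp 2 (vv P p) : EuclideanSpace ℝ (Sym2 V))) (R := 2)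
    (fun p => norm_toLp_le _ (by norm_num) ((sum_vv_sq hB p).trans (by norm_num)))
    (fun t => (WithLp.toLp 2 (c t) : EuclideanSpace ℝ (Sym2 V))) r (fun _ => 0) (by simp)
  let s : Sym2 V → Prop := fun p => x p = -1
  refine ⟨sw P s, hB.sw s, load_sw P s, eload_sw P s, endc_sw hB s, ?_⟩
  refine le_trans (le_of_eq ?_) (h.trans (le_of_eq ?_))
  · refine Finset.sum_congr rfl fun t _ => ?_
    congr 2
    have hxs : ∀ p, (if s p then (-1 : ℝ) else 1) = x p := by
      intro p
      rcases hx p with h1 | h1
      · rw [if_neg, h1]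
        intro h2
        have h3 : x p = -1 := h2
        rw [h1] at h3
        norm_num at h3
      · rw [if_pos (show s p from h1), h1]
    simp only [disc_sw hB, hxs]
    rw [PiLp.inner_apply]
    refine Finset.sum_congr rfl fun e _ => ?_
    simp only [RCLike.inner_apply, conj_trivial]
    have h4 : (∑ p, (x p - 0) • (WithLp.toLp 2 (vv P p) : EuclideanSpace ℝ (Sym2 V))) e =
        ∑ p, x p * vv P p e := by
      rw [WithLp.ofLp_sum, Finset.sum_apply]
      refine Finset.sum_congr rfl fun p _ => ?_
      simp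
    rw [h4]
    ring
  · refine Finset.sum_congr rfl fun t _ => ?_
    congr 1
    rw [EuclideanSpace.norm_sq_eq]
    simp only [Real.norm_eq_abs, sq_abs]
    ring

lemma neg_of_sum_exp {Θ : Type*} [Fintype Θ] (f : Θ → ℝ) (h : ∑ t, exp (f t) < 1) (t : Θ) :
    f t < 0 :=
  Real.exp_lt_one_iff.1 (lt_of_le_of_lt
    (Finset.single_le_sum (f := fun t => exp (f t)) (fun _ _ => (Real.exp_pos _).le)
      (Finset.mem_univ t)) h)

open Classical in
/-- the coefficients of the single edge tests -/
noncomputable def tc (G : SimpleGraph V) (lo li : ℝ) :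
    {e : Sym2 V // e ∈ G.edgeSet} ⊕ {e : Sym2 V // e ∈ G.edgeSet} → Sym2 V → ℝ
  | Sum.inl a, e => if e = a.1 then lo else 0
  | Sum.inr a, e => if e = a.1 then -li else 0

/-- the offsets of the single edge tests -/
noncomputable def tr (P : ∀ x y : V, G.Walk x y) (lo li co ci : ℝ) :
    {e : Sym2 V // e ∈ G.edgeSet} ⊕ {e : Sym2 V // e ∈ G.edgeSet} → ℝ
  | Sum.inl a => lo * (endc P a.1 - co)
  | Sum.inr a => li * (endc P a.1 - ci)

lemma sum_tc_inl (lo li : ℝ) (a : {e : Sym2 V // e ∈ G.edgeSet}) :
    ∑ e : Sym2 V, tc G lo li (Sum.inl a) e ^ 2 = lo ^ 2 := by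
  classical
  simp only [tc, ite_pow]
  rw [zero_pow two_ne_zero, Finset.sum_ite_eq', if_pos (Finset.mem_univ _)]

lemma sum_tc_inr (lo li : ℝ) (a : {e : Sym2 V // e ∈ G.edgeSet}) :
    ∑ e : Sym2 V, tc G lo li (Sum.inr a) e ^ 2 = li ^ 2 := by
  classical
  simp only [tc, ite_pow, neg_sq]
  rw [zero_pow two_ne_zero, Finset.sum_ite_eq', if_pos (Finset.mem_univ _)]

open Classical in
/-- **Balancing the two kinds of kills.**  The hypothesis is a soft test of the number of ends on
the edges of `G`; it can be put into the same sum of exponentials as the cut tests. -/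
theorem swap_bal [DecidableEq V] {P : ∀ x y : V, G.Walk x y} (hB : Base k P)
    {lo li co ci : ℝ} (hlo : 0 < lo) (hli : 0 < li)
    (h : ∑ e ∈ univ.filter (fun e : Sym2 V => e ∈ G.edgeSet),
      (exp (2 * lo ^ 2 - lo * (co - endc P e)) + exp (2 * li ^ 2 - li * (ci - endc P e))) < 1) :
    ∃ P' : ∀ x y : V, G.Walk x y, Base k P' ∧ (∀ v, load P' v = load P v) ∧
      (∀ e, eload P' e = eload P e) ∧ (∀ e, endc P' e = endc P e) ∧
      ∀ u w, G.Adj u w → 2 * ((TS.outKill P' u w + TS.outKill P' w u : ℕ) : ℝ) < co ∧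
        2 * ((TS.inKill P' u w + TS.inKill P' w u : ℕ) : ℝ) < ci := by
  obtain ⟨P', h1, h2, h3, h4, h5⟩ := swap_gsw hB (tc G lo li) (tr P lo li co ci)
  have h6 : ∑ t, exp (tr P lo li co ci t + 2 * ∑ e, tc G lo li t e ^ 2) < 1 := by
    refine lt_of_eq_of_lt ?_ h
    rw [Fintype.sum_sum_type, Finset.sum_add_distrib,
      Finset.sum_subtype (p := fun e : Sym2 V => e ∈ G.edgeSet)
        (univ.filter (fun e : Sym2 V => e ∈ G.edgeSet)) (fun e => by simp)
        (fun e => exp (2 * lo ^ 2 - lo * (co - endc P e))),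
      Finset.sum_subtype (p := fun e : Sym2 V => e ∈ G.edgeSet)
        (univ.filter (fun e : Sym2 V => e ∈ G.edgeSet)) (fun e => by simp)
        (fun e => exp (2 * li ^ 2 - li * (ci - endc P e)))]
    congr 1
    · refine Finset.sum_congr rfl fun a _ => ?_
      rw [sum_tc_inl]
      simp only [tr]
      congr 1
      ring
    · refine Finset.sum_congr rfl fun a _ => ?_
      rw [sum_tc_inr]
      simp only [tr]
      congr 1
      ring
  have h7 := neg_of_sum_exp _ (lt_of_le_of_lt h5 h6)
  refine ⟨P', h1, h2, h3, h4, fun u w huw => ?_⟩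
  rw [outKill_outc h1 huw, inKill_inc h1 huw]
  have hT : inc P' s(u, w) + outc P' s(u, w) = endc P s(u, w) := by
    rw [inc_add_outc, h4]
  have ho := h7 (Sum.inl ⟨s(u, w), huw⟩)
  have hi := h7 (Sum.inr ⟨s(u, w), huw⟩)
  simp only [tc, tr, ite_mul, zero_mul, Finset.sum_ite_eq', Finset.mem_univ, if_true] at ho hi
  rw [← hT] at ho hi
  constructor
  · have h8 : lo * (2 * outc P' s(u, w) - co) < 0 := by linarith
    have h9 := neg_of_mul_neg_right h8 hlo.le
    linarith
  · have h8 : li * (2 * inc P' s(u, w) - ci) < 0 := by linarith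
    have h9 := neg_of_mul_neg_right h8 hli.le
    linarith

end Pool.Agent.UPS.IB
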