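import Pool.Agent.Lib.MP_876e19_co_ups.InvGswE
import Pool.Agent.Lib.MP_876e19_co_ups.Swap

/-!
# The cut tests together with the bounds of the kills of the single edges

`cut_tests_kills`: `cut_tests_E` (helper91) with the tests of the single edges, followed by the swap
phase.
-/

set_option autoImplicit false

open Finset Real

namespace Pool.Agent.UPS.IB

variable {V : Type*} [Fintype V] {G : SimpleGraph V} {k : ℕ}

open Classical in
/-- twice the number of edges of a `d`-regular graph -/
lemma two_mul_card_edges {d : ℕ} (hd : ∀ x, (G.neighborSet x).ncard = d) :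
    2 * (univ.filter (fun e : Sym2 V => e ∈ G.edgeSet)).card = Fintype.card V * d := by
  have h1 := sum_ordered (G := G) (fun e => if e ∈ G.edgeSet then (1 : ℝ) else 0)
    (fun e he => if_neg he)
  have h2 : ∀ v, ∑ w, (if G.Adj v w then (if s(v, w) ∈ G.edgeSet then (1 : ℝ) else 0) else 0) =
      d := by
    intro v
    have h3 : ∀ w, (if G.Adj v w then (if s(v, w) ∈ G.edgeSet then (1 : ℝ) else 0) else 0) =
        if G.Adj v w then 1 else 0 := by
      intro w
      by_cases h : G.Adj v w
      · rw [if_pos h, if_pos h, if_pos ((SimpleGraph.mem_edgeSet G).2 h)]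
      · rw [if_neg h, if_neg h]
    simp only [h3]
    rw [Finset.sum_boole, ← hd v, Set.ncard_eq_toFinset_card']
    congr 2
    ext w
    simp
  simp only [h2] at h1
  rw [Finset.sum_const, Finset.card_univ, nsmul_eq_mul, Finset.sum_boole] at h1
  have h4 : ((Fintype.card V * d : ℕ) : ℝ) =
      ((2 * (univ.filter (fun e : Sym2 V => e ∈ G.edgeSet)).card : ℕ) : ℝ) := by
    push_cast
    exact h1
  exact (Nat.cast_injective h4).symm

lemma VE_nonneg (S L : ℝ) (k : ℕ) {d : ℕ} (hd : 3 ≤ d) : 0 ≤ VE S L k d := by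
  unfold VE
  have hd' : (3 : ℝ) ≤ d := by exact_mod_cast hd
  apply mul_nonneg
  · positivity
  · linarith

/-- the coefficient test functions of the single edges -/
noncomputable def bc (G : SimpleGraph V) (lo li : ℝ) :
    {e : Sym2 V // e ∈ G.edgeSet} ⊕ {e : Sym2 V // e ∈ G.edgeSet} → Sym2 V → ℝ :=
  tc G lo (-li)

/-- the offsets of the tests of the single edges -/
noncomputable def bs (M : MSys G k) (lo li co ci : ℝ) :
    {e : Sym2 V // e ∈ G.edgeSet} ⊕ {e : Sym2 V // e ∈ G.edgeSet} → ℝ
  | Sum.inl a => lo * (co - mEnd M a.1) - 2 * lo ^ 2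
  | Sum.inr a => li * (ci - mEnd M a.1) - 2 * li ^ 2

open Classical in
/-- **the cut tests and the kills of the single edges** -/
theorem cut_tests_kills [DecidableEq V] {d : ℕ} (hd : ∀ x, (G.neighborSet x).ncard = d)
    (hd3 : 3 ≤ d) (hk : 0 < k) (hkd : k ≤ d) (M : MSys G k) {L S : ℝ} (hL : PairLe M L)
    (hS : SumLe M S) (hL2 : 2 ≤ L) (hSk : k < S)
    {Θ : Type*} [Fintype Θ] (z : Θ → Sym2 V → ℝ) (s : Θ → ℝ)
    {m co ci : ℝ} (hm : ∀ e ∈ G.edgeSet, mEnd M e ≤ m) (hco : m < co) (hci : m < ci)
    (hlt : ∑ t, exp ((W1 S k d + W2 L d) * (∑ e, z t e ^ 2) / 2 - s t) +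
      (Fintype.card V : ℝ) * d / 2 * (exp (- ((co - m) ^ 2 / (2 * (VE S L k d + 4)))) +
        exp (- ((ci - m) ^ 2 / (2 * (VE S L k d + 4))))) < 1) :
    ∃ P : ∀ x y : V, G.Walk x y, Base k P ∧
      (∀ t, ∑ e, (- z t e * kerr M P e + max (z t e) 0 / ((d : ℝ) - 1) * kend M P e) < s t) ∧
      ∀ u w, G.Adj u w → 2 * ((TS.outKill P u w + TS.outKill P w u : ℕ) : ℝ) < co ∧
        2 * ((TS.inKill P u w + TS.inKill P w u : ℕ) : ℝ) < ci := by
  have hV := VE_nonneg S L k hd3
  have hV4 : 0 < VE S L k d + 4 := by linarith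
  set lo : ℝ := (co - m) / (VE S L k d + 4) with hlo
  set li : ℝ := (ci - m) / (VE S L k d + 4) with hli
  have hlo0 : 0 < lo := div_pos (by linarith) hV4
  have hli0 : 0 < li := div_pos (by linarith) hV4
  obtain ⟨P, hB, h1, h2⟩ := cut_tests_E hd hd3 hk hkd M hL hS hL2 hSk z s (bc G lo li)
    (bs M lo li co ci) (by
      refine lt_of_le_of_lt (add_le_add le_rfl ?_) hlt
      rw [Fintype.sum_sum_type, mul_add]
      have hc : ((univ : Finset {e : Sym2 V // e ∈ G.edgeSet}).card : ℝ) =
          (Fintype.card V : ℝ) * d / 2 := by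
        have h3 := two_mul_card_edges hd
        have h4 : (univ : Finset {e : Sym2 V // e ∈ G.edgeSet}).card =
            (univ.filter (fun e : Sym2 V => e ∈ G.edgeSet)).card := by
          rw [Finset.card_univ, Fintype.card_subtype]
        rw [h4]
        have h5 : (2 : ℝ) * ((univ.filter (fun e : Sym2 V => e ∈ G.edgeSet)).card : ℝ) =
            (Fintype.card V : ℝ) * d := by exact_mod_cast h3
        linarith
      refine add_le_add ?_ ?_
      · rw [← hc, ← nsmul_eq_mul]
        refine Finset.sum_le_card_nsmul _ _ _ fun a _ => ?_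
        rw [exp_le_exp]
        have h6 : ∑ e : Sym2 V, bc G lo li (Sum.inl a) e ^ 2 = lo ^ 2 := sum_tc_inl _ _ a
        rw [h6]
        simp only [bs]
        have h7 : lo * (VE S L k d + 4) = co - m := by
          rw [hlo]; field_simp
        have h8 : lo * mEnd M a.1 ≤ lo * m := mul_le_mul_of_nonneg_left (hm _ a.2) hlo0.le
        have h9 : (co - m) ^ 2 / (2 * (VE S L k d + 4)) = lo * (co - m) / 2 := by
          rw [hlo]; field_simp
        rw [h9]
        nlinarith
      · rw [← hc, ← nsmul_eq_mul]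
        refine Finset.sum_le_card_nsmul _ _ _ fun a _ => ?_
        rw [exp_le_exp]
        have h6 : ∑ e : Sym2 V, bc G lo li (Sum.inr a) e ^ 2 = li ^ 2 := by
          unfold bc
          rw [sum_tc_inr]
          ring
        rw [h6]
        simp only [bs]
        have h7 : li * (VE S L k d + 4) = ci - m := by
          rw [hli]; field_simp
        have h8 : li * mEnd M a.1 ≤ li * m := mul_le_mul_of_nonneg_left (hm _ a.2) hli0.le
        have h9 : (ci - m) ^ 2 / (2 * (VE S L k d + 4)) = li * (ci - m) / 2 := by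
          rw [hli]; field_simp
        rw [h9]
        nlinarith)
  obtain ⟨P', hB', hl, he, hend, hkk⟩ := swap_bal hB hlo0 hli0 (co := co) (ci := ci) (by
    refine lt_of_eq_of_lt ?_ h2
    rw [Fintype.sum_sum_type, Finset.sum_add_distrib,
      Finset.sum_subtype (p := fun e : Sym2 V => e ∈ G.edgeSet)
        (univ.filter (fun e : Sym2 V => e ∈ G.edgeSet)) (fun e => by simp)
        (fun e => exp (2 * lo ^ 2 - lo * (co - endc P e))),
      Finset.sum_subtype (p := fun e : Sym2 V => e ∈ G.edgeSet)
        (univ.filter (fun e : Sym2 V => e ∈ G.edgeSet)) (fun e => by simp)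
        (fun e => exp (2 * li ^ 2 - li * (ci - endc P e)))]
    congr 1
    · refine Finset.sum_congr rfl fun a _ => ?_
      congr 1
      have h6 : ∑ e : Sym2 V, bc G lo li (Sum.inl a) e * kend M P e = lo * kend M P a.1 := by
        simp only [bc, tc, ite_mul, zero_mul, Finset.sum_ite_eq', Finset.mem_univ, if_true]
      rw [h6]
      simp only [bs, kend]
      ring
    · refine Finset.sum_congr rfl fun a _ => ?_
      congr 1
      have h6 : ∑ e : Sym2 V, bc G lo li (Sum.inr a) e * kend M P e = li * kend M P a.1 := by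
        simp only [bc, tc, neg_neg, ite_mul, zero_mul, Finset.sum_ite_eq', Finset.mem_univ, if_true]
      rw [h6]
      simp only [bs, kend]
      ring)
  refine ⟨P', hB', fun t => ?_, hkk⟩
  have h10 : ∀ e, kerr M P' e = kerr M P e := fun e => by unfold kerr; rw [he]
  have h11 : ∀ e, kend M P' e = kend M P e := fun e => by unfold kend; rw [hend]
  simp only [h10, h11]
  exact h1 t

end Pool.Agent.UPS.IB
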