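import Pool.Agent.Lib.MP_876e19_co_ups.Correction
import Pool.Agent.Lib.MP_876e19_co_ups.FlowInt

/-!
# Splitting a Hall function in two parts (MP_876e19_co, helper91)

`f : V → ℕ` is a Hall function of `G` when `∑ U f ≤ ∑ nb U f` for all `U`.  Such a function is a sum
of two Hall functions `f₁ + f₂` with `|f₁ - f₂| ≤ 1`.
-/

set_option autoImplicit false

open Finset

namespace Pool.Agent.UPS2

namespace KS

open HTutte UPS3

variable {V : Type*} [Fintype V] [DecidableEq V]

/-- arc weights with equal in- and out-sums give Hall's condition -/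
theorem hall_of_arcs (G : SimpleGraph V) (f : V → ℕ) (k : V → V → ℕ)
    (hk : ∀ v w, k v w ≠ 0 → G.Adj v w) (h1 : ∀ v, ∑ w, k v w = f v)
    (h2 : ∀ w, ∑ v, k v w = f w) (U : Finset V) : ∑ v ∈ U, f v ≤ ∑ v ∈ nb G U, f v := by
  classical
  have e1 : ∑ v ∈ U, f v = ∑ v ∈ U, ∑ w ∈ nb G U, k v w := by
    refine Finset.sum_congr rfl fun v hv => ?_
    rw [← h1 v]
    symm
    refine Finset.sum_subset (Finset.subset_univ _) fun w _ hw => ?_
    by_contra h
    apply hw
    unfold nb
    simp only [mem_filter, mem_univ, true_and]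
    exact ⟨v, hv, hk v w h⟩
  rw [e1, Finset.sum_comm]
  refine Finset.sum_le_sum fun w _ => ?_
  rw [← h2 w]
  exact Finset.sum_le_sum_of_subset (Finset.subset_univ _)

/-- **Splitting.** -/
theorem hall_split (G : SimpleGraph V) (f : V → ℕ)
    (hH : ∀ U : Finset V, ∑ v ∈ U, f v ≤ ∑ v ∈ nb G U, f v) :
    ∃ f₁ f₂ : V → ℕ, (∀ v, f₁ v + f₂ v = f v) ∧ (∀ v, f₁ v ≤ f₂ v + 1) ∧ (∀ v, f₂ v ≤ f₁ v + 1) ∧
      (∀ U : Finset V, ∑ v ∈ U, f₁ v ≤ ∑ v ∈ nb G U, f₁ v) ∧
      (∀ U : Finset V, ∑ v ∈ U, f₂ v ≤ ∑ v ∈ nb G U, f₂ v) := by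
  classical
  obtain ⟨k, hk, hr, hc⟩ := arcs G f hH
  have hkd : ∀ v, k v v = 0 := fun v => by
    by_contra h
    exact (hk v v h).ne rfl
  -- loops at the odd vertices
  let o : V → ℕ := fun v => f v % 2
  let m : V → V → ℕ := fun v w => k v w + if v = w then o v else 0
  have hmr : ∀ v, ∑ w, m v w = f v + o v := fun v => by
    simp only [m]
    rw [Finset.sum_add_distrib, hr v]
    simp
  have hmc : ∀ w, ∑ v, m v w = f w + o w := fun w => by
    simp only [m]
    rw [Finset.sum_add_distrib, hc w]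
    simp
  have hev : ∀ v, f v + o v = 2 * ((f v + 1) / 2) := fun v => by
    simp only [o]
    omega
  obtain ⟨g, hg, hgr, hgc⟩ := bip_round (fun v w => ((m v w : ℕ) : ℝ) / 2)
  have hrow : ∀ v, ∑ w, g v w = (((f v + 1) / 2 : ℕ) : ℤ) := fun v => by
    have h1 : (∑ w, ((m v w : ℕ) : ℝ) / 2) = ((((f v + 1) / 2 : ℕ) : ℤ) : ℝ) := by
      rw [← Finset.sum_div, ← Nat.cast_sum, hmr v, hev v]
      generalize (f v + 1) / 2 = q
      push_cast
      ring
    have h2 := hgr v
    rw [h1, Int.floor_intCast, Int.ceil_intCast] at h2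
    exact le_antisymm h2.2 h2.1
  have hcol : ∀ w, ∑ v, g v w = (((f w + 1) / 2 : ℕ) : ℤ) := fun w => by
    have h1 : (∑ v, ((m v w : ℕ) : ℝ) / 2) = ((((f w + 1) / 2 : ℕ) : ℤ) : ℝ) := by
      rw [← Finset.sum_div, ← Nat.cast_sum, hmc w, hev w]
      generalize (f w + 1) / 2 = q
      push_cast
      ring
    have h2 := hgc w
    rw [h1, Int.floor_intCast, Int.ceil_intCast] at h2
    exact le_antisymm h2.2 h2.1
  have hg0 : ∀ v w, 0 ≤ g v w := fun v w => by
    have h := (hg v w).1
    have h2 : 0 ≤ ⌊((m v w : ℕ) : ℝ) / 2⌋ := Int.floor_nonneg.2 (by positivity)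
    omega
  have hgm : ∀ v w, g v w ≤ (m v w : ℕ) := fun v w => by
    have h := (hg v w).2
    have h2 : ⌈((m v w : ℕ) : ℝ) / 2⌉ ≤ ((m v w : ℕ) : ℤ) := by
      rw [Int.ceil_le]
      push_cast
      have : (0 : ℝ) ≤ (m v w : ℕ) := Nat.cast_nonneg _
      push_cast at this
      linarith
    omega
  -- natural numbers
  obtain ⟨g', hg'⟩ : ∃ g' : V → V → ℕ, ∀ v w, g v w = (g' v w : ℤ) :=
    ⟨fun v w => (g v w).toNat, fun v w => (Int.toNat_of_nonneg (hg0 v w)).symm⟩
  have hrow' : ∀ v, ∑ w, g' v w = (f v + 1) / 2 := fun v => by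
    have h := hrow v
    simp only [hg'] at h
    exact_mod_cast h
  have hcol' : ∀ w, ∑ v, g' v w = (f w + 1) / 2 := fun w => by
    have h := hcol w
    simp only [hg'] at h
    exact_mod_cast h
  have hgm' : ∀ v w, g' v w ≤ m v w := fun v w => by
    have h := hgm v w
    rw [hg'] at h
    exact_mod_cast h
  -- first part
  let k₁ : V → V → ℕ := fun v w => if v = w then 0 else g' v w
  let k₂ : V → V → ℕ := fun v w => k v w - k₁ v w
  have hk₁le : ∀ v w, k₁ v w ≤ k v w := fun v w => by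
    simp only [k₁]
    split_ifs with h
    · exact Nat.zero_le _
    · have := hgm' v w
      simp only [m, if_neg h, add_zero] at this
      exact this
  have hr₁ : ∀ v, ∑ w, k₁ v w + g' v v = (f v + 1) / 2 := fun v => by
    rw [← hrow' v, ← Finset.add_sum_erase univ (fun w => k₁ v w) (mem_univ v),
      ← Finset.add_sum_erase univ (fun w => g' v w) (mem_univ v)]
    have : ∑ w ∈ univ.erase v, k₁ v w = ∑ w ∈ univ.erase v, g' v w :=
      Finset.sum_congr rfl fun w hw => by
        simp only [k₁, if_neg (Finset.ne_of_mem_erase hw).symm]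
    rw [this]
    simp only [k₁, if_true]
    omega
  have hc₁ : ∀ w, ∑ v, k₁ v w + g' w w = (f w + 1) / 2 := fun w => by
    rw [← hcol' w, ← Finset.add_sum_erase univ (fun v => k₁ v w) (mem_univ w),
      ← Finset.add_sum_erase univ (fun v => g' v w) (mem_univ w)]
    have : ∑ v ∈ univ.erase w, k₁ v w = ∑ v ∈ univ.erase w, g' v w :=
      Finset.sum_congr rfl fun v hv => by
        simp only [k₁, if_neg (Finset.ne_of_mem_erase hv)]
    rw [this]
    simp only [k₁, if_true]
    omega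
  have hloop : ∀ v, g' v v ≤ f v % 2 := fun v => by
    have := hgm' v v
    simp only [m, hkd v, if_true, o, zero_add] at this
    exact this
  have hr₂ : ∀ v, ∑ w, k₁ v w + ∑ w, k₂ v w = f v := fun v => by
    rw [← Finset.sum_add_distrib, ← hr v]
    refine Finset.sum_congr rfl fun w _ => ?_
    have := hk₁le v w
    simp only [k₂]
    omega
  have hc₂ : ∀ w, ∑ v, k₁ v w + ∑ v, k₂ v w = f w := fun w => by
    rw [← Finset.sum_add_distrib, ← hc w]
    refine Finset.sum_congr rfl fun v _ => ?_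
    have := hk₁le v w
    simp only [k₂]
    omega
  refine ⟨fun v => ∑ w, k₁ v w, fun v => ∑ w, k₂ v w, hr₂, fun v => ?_, fun v => ?_, ?_, ?_⟩
  · have h1 := hr₁ v
    have h2 := hr₂ v
    have h3 := hloop v
    simp only
    omega
  · have h1 := hr₁ v
    have h2 := hr₂ v
    have h3 := hloop v
    simp only
    omega
  · refine hall_of_arcs G _ k₁ (fun v w h => hk v w ?_) (fun v => rfl) (fun w => ?_)
    · have := hk₁le v w
      omega
    · have h1 := hr₁ w
      have h2 := hc₁ w
      omega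
  · refine hall_of_arcs G _ k₂ (fun v w h => hk v w ?_) (fun v => rfl) (fun w => ?_)
    · simp only [k₂] at h
      omega
    · have h1 := hr₁ w
      have h2 := hc₁ w
      have h3 := hr₂ w
      have h4 := hc₂ w
      omega

end KS

end Pool.Agent.UPS2
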