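import Pool.Agent.Lib.MP_876e19_co2.Circle

/-!
# Uniform path systems: the multi-unit level pair lemma (helper42, after helper33, TT876)

Everything happens at one root `x`.  There is a finite type `S` of slots; the slot `s` carries a
path `p s` from `x` to the vertex `e s`; several slots may have the same end.

* `slot_toggle`: swapping the paths of two slots along an edge.
* `slot_sweep`, `slot_circle`: the circle lemma for slots.
* `level_pair`: two disjoint sets `U`, `W`, at least one slot at every `u ∈ U`; the paths of the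
  slots at `U` meet `U ∪ W` only in their end, those of the slots at `W` only in their end and
  their parent.  Every set `E` of edges `u w` such that some slot at `w` has a parent `≠ u` can be
  toggled.
-/

set_option autoImplicit false

namespace Pool.Agent.UPS2

open Finset Pool.Agent.UPS CircleSweep

variable {V S : Type*}

/-- number of slots whose path visits `z` -/
def visits [Fintype S] [DecidableEq V] {G : SimpleGraph V} {x : V} {e : S → V}
    (p : ∀ s : S, G.Walk x (e s)) (z : V) : ℕ :=
  (univ.filter fun s => z ∈ (p s).support).card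

/-- swapping the two paths along one edge, slots -/
lemma slot_toggle [Fintype S] [DecidableEq S] [DecidableEq V] {G : SimpleGraph V} (x : V)
    (e : S → V) (p : ∀ s : S, G.Walk x (e s)) (hp : ∀ s, (p s).IsPath) {v w : S}
    (hvw : G.Adj (e v) (e w)) (h1 : e v ∉ (p w).support) (h2 : e w ∉ (p v).support) :
    ∃ q : ∀ s : S, G.Walk x (e s), (∀ s, (q s).IsPath) ∧
      (∀ s, s ≠ v → s ≠ w → q s = p s) ∧
      (∀ z, z ∈ (q v).support ↔ z ∈ (p w).support ∨ z = e v) ∧
      (∀ z, z ∈ (q w).support ↔ z ∈ (p v).support ∨ z = e w) ∧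
      ∀ z, visits q z = visits p z + (if z = e v ∨ z = e w then 1 else 0) := by
  have hne : v ≠ w := fun h => hvw.ne (congrArg e h)
  have hee : e v ≠ e w := hvw.ne
  let q : ∀ s : S, G.Walk x (e s) :=
    Function.update (Function.update p v ((p w).concat hvw.symm)) w ((p v).concat hvw)
  have hqw : q w = (p v).concat hvw := Function.update_self ..
  have hqv : q v = (p w).concat hvw.symm := by
    rw [show q v = Function.update p v ((p w).concat hvw.symm) v from
      Function.update_of_ne hne _ _, Function.update_self]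
  have hqu : ∀ u, u ≠ v → u ≠ w → q u = p u := by
    intro u hv hw
    rw [show q u = Function.update p v ((p w).concat hvw.symm) u from
      Function.update_of_ne hw _ _, Function.update_of_ne hv]
  have hsv : ∀ z, z ∈ (q v).support ↔ z ∈ (p w).support ∨ z = e v := by
    intro z
    rw [hqv, SimpleGraph.Walk.support_concat, List.mem_append, List.mem_singleton]
  have hsw : ∀ z, z ∈ (q w).support ↔ z ∈ (p v).support ∨ z = e w := by
    intro z
    rw [hqw, SimpleGraph.Walk.support_concat, List.mem_append, List.mem_singleton]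
  refine ⟨q, fun u => ?_, hqu, hsv, hsw, fun z => ?_⟩
  · by_cases hw : u = w
    · subst hw; rw [hqw]; exact (hp v).concat h2 hvw
    · by_cases hv : u = v
      · subst hv; rw [hqv]; exact (hp w).concat h1 hvw.symm
      · rw [hqu u hv hw]; exact hp u
  · rw [visits, visits, card_filter, card_filter, ← add_sum_erase univ _ (mem_univ v),
      ← add_sum_erase univ (fun u => if z ∈ (p u).support then 1 else 0) (mem_univ v),
      ← add_sum_erase (univ.erase v) _ (mem_erase.2 ⟨hne.symm, mem_univ w⟩),
      ← add_sum_erase (univ.erase v) (fun u => if z ∈ (p u).support then 1 else 0)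
        (mem_erase.2 ⟨hne.symm, mem_univ w⟩)]
    have h3 : ∑ u ∈ (univ.erase v).erase w, (if z ∈ (q u).support then 1 else 0) =
        ∑ u ∈ (univ.erase v).erase w, (if z ∈ (p u).support then 1 else 0) := by
      refine sum_congr rfl fun u hu => ?_
      rw [mem_erase, mem_erase] at hu
      rw [hqu u hu.2.1 hu.1]
    rw [h3]
    have h4 : (if z ∈ (q v).support then 1 else 0) =
        (if z ∈ (p w).support then 1 else 0) + (if z = e v then 1 else 0) := by
      by_cases hz : z = e v
      · subst hz; simp [hsv, h1]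
      · simp [hsv, hz]
    have h5 : (if z ∈ (q w).support then 1 else 0) =
        (if z ∈ (p v).support then 1 else 0) + (if z = e w then 1 else 0) := by
      by_cases hz : z = e w
      · subst hz; simp [hsw, h2]
      · simp [hsw, hz]
    rw [h4, h5]
    have h6 : (if z = e v ∨ z = e w then 1 else 0) = (if z = e v then 1 else 0) +
        (if z = e w then 1 else 0) := by
      by_cases hz : z = e v
      · subst hz; simp [hee]
      · simp [hz]
    rw [h6]
    ring

/-- the circle sweep for slots -/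
lemma slot_sweep [Fintype S] [DecidableEq S] [DecidableEq V] {G : SimpleGraph V} (x : V)
    (e : S → V) (p : ∀ s : S, G.Walk x (e s)) (hp : ∀ s, (p s).IsPath)
    {N : ℕ} [NeZero N] (A B : Finset S) (hAB : Disjoint A B)
    (hinj : ∀ s, s ∈ A ∨ s ∈ B → ∀ s', s' ∈ A ∨ s' ∈ B → e s = e s' → s = s')
    (r X : S → ZMod N) (m Te : ℕ) (hTe : Te + m < N) (E : Finset (S × S))
    (hE : ∀ d ∈ E, d.1 ∈ A ∧ d.2 ∈ B ∧ G.Adj (e d.1) (e d.2))
    (hEinj : ∀ d ∈ E, ∀ d' ∈ E, (r d.1 - X d.2).val = (r d'.1 - X d'.2).val → d = d')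
    (hA : ∀ v ∈ A, ∀ z, e z ∈ (p v).support → z ≠ v → Ok A B r X m 0 (r v) (r v) z)
    (hB : ∀ v ∈ B, ∀ z, e z ∈ (p v).support → z ≠ v → Ok A B r X m 0 (X v) (X v) z) (T : ℕ)
    (hT : T ≤ Te) :
    ∃ q : ∀ s : S, G.Walk x (e s), (∀ s, (q s).IsPath) ∧
      (∀ s, (∀ d ∈ E, d.1 ≠ s ∧ d.2 ≠ s) → q s = p s) ∧
      (∀ s z, z ∈ (q s).support → ∃ s', z ∈ (p s').support) ∧
      (∀ v ∈ A, ∀ z, e z ∈ (q v).support → z ≠ v → Ok A B r X m T (r v) (r v - T) z) ∧
      (∀ v ∈ B, ∀ z, e z ∈ (q v).support → z ≠ v → Ok A B r X m T (X v + T) (X v) z) ∧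
      ∀ z, visits q z = visits p z +
        ((E.filter fun d => (r d.1 - X d.2).val < T).filter fun d =>
          z = e d.1 ∨ z = e d.2).card := by
  induction T with
  | zero =>
    refine ⟨p, hp, fun _ _ => rfl, fun s z h => ⟨s, h⟩, ?_, ?_, ?_⟩
    · intro v hv z hz hzv
      have := hA v hv z hz hzv
      simpa using this
    · intro v hv z hz hzv
      have := hB v hv z hz hzv
      simpa using this
    · intro z
      simp
  | succ T ih =>
    obtain ⟨q, hq, hqo, hqs, hqA, hqB, hqc⟩ := ih (by omega)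
    have hN : T + m + 1 < N := by omega
    have hA1 : ∀ v, r v - ((T + 1 : ℕ) : ZMod N) = (r v - T) - 1 := by
      intro v; push_cast; ring
    have hB1 : ∀ v, X v + ((T + 1 : ℕ) : ZMod N) = (X v + T) + 1 := by
      intro v; push_cast; ring
    by_cases hex : ∃ d ∈ E, (r d.1 - X d.2).val = T
    · obtain ⟨⟨v, w⟩, he, hTe'⟩ := hex
      obtain ⟨hv, hw, hvw⟩ := hE _ he
      dsimp only at hv hw hvw hTe'
      have hvB : v ∉ B := fun h => disjoint_left.1 hAB hv h
      have hwA : w ∉ A := fun h => disjoint_left.1 hAB h hw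
      have hvnw : v ≠ w := fun h => hvB (h ▸ hw)
      have hrX : r v = X w + T := by
        have : ((r v - X w).val : ZMod N) = r v - X w := ZMod.natCast_zmod_val _
        rw [hTe'] at this
        rw [this]; ring
      have h1 : e v ∉ (q w).support := by
        intro h
        have := (hqB w hw v h hvnw).1 hv
        rw [hrX, sub_self, ZMod.val_zero] at this
        omega
      have h2 : e w ∉ (q v).support := by
        intro h
        have := (hqA v hv w h hvnw.symm).2 hw
        rw [hrX, add_sub_cancel_right, sub_self, ZMod.val_zero] at this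
        omega
      obtain ⟨q', hq', hqu, hqv, hqw, hc⟩ := slot_toggle x e q hq hvw h1 h2
      have hone : (1 : ZMod N).val = 1 := by
        have : Fact (1 < N) := ⟨by omega⟩
        exact ZMod.val_one N
      refine ⟨q', hq', ?_, ?_, ?_, ?_, ?_⟩
      · intro u hu
        obtain ⟨hu1, hu2⟩ := hu _ he
        rw [hqu u (fun h => hu1 h.symm) (fun h => hu2 h.symm), hqo u hu]
      · intro s z hz
        by_cases hsv : s = v
        · subst hsv
          rcases (hqv z).1 hz with h | h
          · exact hqs _ _ h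
          · exact ⟨s, by rw [h]; exact (p s).end_mem_support⟩
        · by_cases hsw : s = w
          · subst hsw
            rcases (hqw z).1 hz with h | h
            · exact hqs _ _ h
            · exact ⟨s, by rw [h]; exact (p s).end_mem_support⟩
          · rw [hqu s hsv hsw] at hz
            exact hqs _ _ hz
      · intro v' hv' z hz hzv
        by_cases hvv : v' = v
        · subst hvv
          rw [hqv] at hz
          by_cases hzAB : z ∈ A ∨ z ∈ B
          · have hz' : e z ∈ (q w).support := by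
              rcases hz with hz | hz
              · exact hz
              · exact absurd (hinj z hzAB v' (Or.inl hv') hz) hzv
            by_cases hzw : z = w
            · subst hzw
              refine ⟨fun h => absurd h hwA, fun _ => ?_⟩
              have : X z - (r v' - ((T + 1 : ℕ) : ZMod N)) = 1 := by
                rw [hrX]; push_cast; ring
              rw [this, hone]
              omega
            · have h3 := hqB w hw z hz' hzw
              rw [hA1, hrX, add_sub_cancel_right]
              exact h3.step1 hN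
          · exact ⟨fun h => absurd (Or.inl h) hzAB, fun h => absurd (Or.inr h) hzAB⟩
        · have hne : v' ≠ w := fun h => hwA (h ▸ hv')
          rw [hqu v' hvv hne] at hz
          rw [hA1]
          exact (hqA v' hv' z hz hzv).step1 hN
      · intro w' hw' z hz hzw
        by_cases hww : w' = w
        · subst hww
          rw [hqw] at hz
          by_cases hzAB : z ∈ A ∨ z ∈ B
          · have hz' : e z ∈ (q v).support := by
              rcases hz with hz | hz
              · exact hz
              · exact absurd (hinj z hzAB w' (Or.inr hw') hz) hzw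
            by_cases hzv : z = v
            · subst hzv
              refine ⟨fun _ => ?_, fun h => absurd h hvB⟩
              have : X w' + ((T + 1 : ℕ) : ZMod N) - r z = 1 := by
                rw [hrX]; push_cast; ring
              rw [this, hone]
              omega
            · have h3 := hqA v hv z hz' hzv
              rw [hB1]
              rw [hrX, add_sub_cancel_right] at h3
              exact h3.step2 hN
          · exact ⟨fun h => absurd (Or.inl h) hzAB, fun h => absurd (Or.inr h) hzAB⟩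
        · have hne : w' ≠ v := fun h => hvB (h ▸ hw')
          rw [hqu w' hne hww] at hz
          rw [hB1]
          exact (hqB w' hw' z hz hzw).step2 hN
      · intro z
        rw [hc z, hqc z, add_assoc]
        congr 1
        have h4 : E.filter (fun d => (r d.1 - X d.2).val < T + 1) =
            insert (v, w) (E.filter fun d => (r d.1 - X d.2).val < T) := by
          ext d
          rw [mem_insert, mem_filter, mem_filter]
          constructor
          · rintro ⟨h5, h6⟩
            by_cases h7 : (r d.1 - X d.2).val = T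
            · exact Or.inl (hEinj d h5 _ he (by rw [h7, hTe']))
            · exact Or.inr ⟨h5, by omega⟩
          · rintro (h5 | ⟨h5, h6⟩)
            · subst h5; exact ⟨he, by rw [hTe']; omega⟩
            · exact ⟨h5, by omega⟩
        rw [h4, filter_insert]
        by_cases hz : z = e v ∨ z = e w
        · rw [if_pos hz, if_pos hz, card_insert_of_notMem]
          rw [mem_filter, mem_filter]
          rintro ⟨⟨_, h5⟩, _⟩
          rw [hTe'] at h5
          omega
        · rw [if_neg hz, if_neg hz, add_zero]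
    · refine ⟨q, hq, hqo, hqs, ?_, ?_, ?_⟩
      · intro v hv z hz hzv
        rw [hA1]
        exact (hqA v hv z hz hzv).step1 hN
      · intro v hv z hz hzv
        rw [hB1]
        exact (hqB v hv z hz hzv).step2 hN
      · intro z
        rw [hqc z]
        congr 3
        ext d
        rw [mem_filter, mem_filter]
        constructor
        · rintro ⟨h5, h6⟩; exact ⟨h5, by omega⟩
        · rintro ⟨h5, h6⟩
          refine ⟨h5, ?_⟩
          have : (r d.1 - X d.2).val ≠ T := fun h => hex ⟨d, h5, h⟩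
          omega

/-- the circle lemma for slots; the additional statement is that the path of the parent slot does
not visit the moving slot -/
theorem slot_circle [Fintype S] [DecidableEq S] [DecidableEq V] {G : SimpleGraph V} (x : V)
    (e : S → V) (p : ∀ s : S, G.Walk x (e s)) (hp : ∀ s, (p s).IsPath)
    (A B : Finset S) (hAB : Disjoint A B)
    (hinj : ∀ s, s ∈ A ∨ s ∈ B → ∀ s', s' ∈ A ∨ s' ∈ B → e s = e s' → s = s')
    (par : S → S) (hpar : ∀ w ∈ B, par w ∈ A)
    (hA : ∀ v ∈ A, ∀ z, e z ∈ (p v).support → z ∈ A ∨ z ∈ B → z = v)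
    (hB : ∀ w ∈ B, ∀ z, e z ∈ (p w).support → z ∈ A ∨ z ∈ B → z = w ∨ z = par w)
    (E : Finset (S × S))
    (hE : ∀ d ∈ E, d.1 ∈ A ∧ d.2 ∈ B ∧ G.Adj (e d.1) (e d.2) ∧ d.1 ≠ par d.2) :
    ∃ q : ∀ s : S, G.Walk x (e s), (∀ s, (q s).IsPath) ∧
      (∀ s, (∀ d ∈ E, d.1 ≠ s ∧ d.2 ≠ s) → q s = p s) ∧
      (∀ s z, z ∈ (q s).support → ∃ s', z ∈ (p s').support) ∧
      (∀ w ∈ B, e w ∉ (q (par w)).support) ∧
      ∀ z, visits q z = visits p z + (E.filter fun d => z = e d.1 ∨ z = e d.2).card := by
  classical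
  by_cases hAe : A = ∅
  · have hEe : E = ∅ := by
      rw [eq_empty_iff_forall_notMem]
      intro d hd
      have := (hE d hd).1
      rw [hAe] at this
      exact notMem_empty _ this
    refine ⟨p, hp, fun _ _ => rfl, fun s z h => ⟨s, h⟩, ?_, fun z => by simp [hEe]⟩
    intro w hw
    have := hpar w hw
    rw [hAe] at this
    exact absurd this (notMem_empty _)
  have hapos : 0 < A.card := card_pos.2 (nonempty_iff_ne_empty.2 hAe)
  obtain ⟨iA, hiA1, hiA2⟩ : ∃ i : S → ℕ, (∀ v ∈ A, i v < A.card) ∧
      ∀ v ∈ A, ∀ v' ∈ A, i v = i v' → v = v' := by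
    refine ⟨fun v => if h : v ∈ A then (A.equivFin ⟨v, h⟩ : ℕ) else 0, ?_, ?_⟩
    · intro v hv
      simp only [hv, dif_pos]
      exact Fin.is_lt _
    · intro v hv v' hv' h
      simp only [hv, hv', dif_pos] at h
      have := A.equivFin.injective (Fin.ext h)
      exact congrArg Subtype.val this
  obtain ⟨jB, hjB1, hjB2, hjB3⟩ : ∃ i : S → ℕ, (∀ v ∈ B, 1 ≤ i v) ∧ (∀ v ∈ B, i v ≤ B.card) ∧
      ∀ v ∈ B, ∀ v' ∈ B, i v = i v' → v = v' := by
    refine ⟨fun v => if h : v ∈ B then (B.equivFin ⟨v, h⟩ : ℕ) + 1 else 0, ?_, ?_, ?_⟩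
    · intro v hv
      simp only [hv, dif_pos]
      omega
    · intro v hv
      simp only [hv, dif_pos]
      have := (B.equivFin ⟨v, hv⟩).is_lt
      omega
    · intro v hv v' hv' h
      simp only [hv, hv', dif_pos] at h
      have := B.equivFin.injective (Fin.ext (Nat.succ_injective h))
      exact congrArg Subtype.val this
  set a := A.card with ha
  set m := B.card with hm
  set N := a * (m + 1) with hN
  have hNpos : 0 < N := Nat.mul_pos hapos (Nat.succ_pos _)
  have hNm : m + 1 ≤ N := Nat.le_mul_of_pos_left _ hapos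
  have : NeZero N := ⟨hNpos.ne'⟩
  let r : S → ZMod N := fun v => (((m + 1) * iA v : ℕ) : ZMod N)
  let X : S → ZMod N := fun w => (((m + 1) * iA (par w) + jB w : ℕ) : ZMod N)
  have hXr : ∀ w, X w - r (par w) = ((jB w : ℕ) : ZMod N) := by
    intro w
    change (((m + 1) * iA (par w) + jB w : ℕ) : ZMod N) -
      (((m + 1) * iA (par w) : ℕ) : ZMod N) = _
    rw [Nat.cast_add, add_sub_cancel_left]
  have htime : ∀ v ∈ A, ∀ w ∈ B, v ≠ par w → ∃ t c : ℕ, (r v - X w).val = t ∧
      t + jB w = (m + 1) * c ∧ c + 1 ≤ a := by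
    intro v hv w hw hvp
    have h1 := hiA1 v hv
    have h2 := hiA1 _ (hpar w hw)
    have h3 : iA v ≠ iA (par w) := fun h => hvp (hiA2 v hv _ (hpar w hw) h)
    have h4 := hjB1 w hw
    have h5 := hjB2 w hw
    obtain ⟨c, hc1, hc2, hc3⟩ : ∃ c : ℕ, 1 ≤ c ∧ c + 1 ≤ a ∧
        (iA v = iA (par w) + c ∨ iA v + a = iA (par w) + c) := by
      rcases lt_or_gt_of_ne h3 with h | h
      · exact ⟨iA v + a - iA (par w), by omega, by omega, by omega⟩
      · exact ⟨iA v - iA (par w), by omega, by omega, by omega⟩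
    have h6 : (m + 1) * c ≤ (m + 1) * (a - 1) := Nat.mul_le_mul_left _ (by omega)
    have h7 : (m + 1) * 1 ≤ (m + 1) * c := Nat.mul_le_mul_left _ hc1
    have h8 : (m + 1) * (a - 1) + (m + 1) = N := by
      rw [hN, mul_comm a, ← Nat.mul_succ]
      congr 1
      omega
    refine ⟨(m + 1) * c - jB w, c, ?_, by omega, hc2⟩
    have h9 : r v - X w = (((m + 1) * c - jB w : ℕ) : ZMod N) := by
      have h10 : (((m + 1) * a : ℕ) : ZMod N) = 0 := by
        rw [mul_comm, ← hN]; exact ZMod.natCast_self N
      rw [sub_eq_iff_eq_add]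
      change (((m + 1) * iA v : ℕ) : ZMod N) =
        (((m + 1) * c - jB w : ℕ) : ZMod N) + (((m + 1) * iA (par w) + jB w : ℕ) : ZMod N)
      rw [← Nat.cast_add]
      have h11 : (m + 1) * c - jB w + ((m + 1) * iA (par w) + jB w) =
          (m + 1) * (iA (par w) + c) := by
        rw [mul_add]; omega
      rw [h11]
      rcases hc3 with h | h
      · rw [← h]
      · rw [← h, mul_add, Nat.cast_add, h10, add_zero]
    rw [h9, ZMod.val_natCast, Nat.mod_eq_of_lt (by omega)]
  have hTe : a * (m + 1) - (m + 1) + m < N := by omega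
  obtain ⟨q, hq1, hq2, hq2', hq3, _, hq5⟩ := slot_sweep x e p hp A B hAB hinj r X m
    (a * (m + 1) - (m + 1)) hTe E
    (fun d hd => ⟨(hE d hd).1, (hE d hd).2.1, (hE d hd).2.2.1⟩)
    (by
      intro d hd d' hd' h
      obtain ⟨h1, h2, _, h3⟩ := hE d hd
      obtain ⟨h1', h2', _, h3'⟩ := hE d' hd'
      obtain ⟨t, c, ht, htc, _⟩ := htime _ h1 _ h2 h3
      obtain ⟨t', c', ht', htc', _⟩ := htime _ h1' _ h2' h3'
      have htt : t = t' := by rw [← ht, ← ht', h]
      have hj1 := hjB1 _ h2
      have hj2 := hjB2 _ h2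
      have hj1' := hjB1 _ h2'
      have hj2' := hjB2 _ h2'
      have hjj : jB d.2 = jB d'.2 := by
        rcases lt_trichotomy c c' with hc | hc | hc
        · have : (m + 1) * (c + 1) ≤ (m + 1) * c' := Nat.mul_le_mul_left _ hc
          rw [mul_add] at this
          omega
        · subst hc; omega
        · have : (m + 1) * (c' + 1) ≤ (m + 1) * c := Nat.mul_le_mul_left _ hc
          rw [mul_add] at this
          omega
      have hw := hjB3 _ h2 _ h2' hjj
      have hv : r d.1 = r d'.1 := by
        have h5 := ZMod.val_injective N h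
        rw [← hw] at h5
        exact sub_left_injective h5
      have hv' : d.1 = d'.1 := by
        apply hiA2 _ h1 _ h1'
        have h6 : (m + 1) * iA d.1 < N := by
          rw [hN, mul_comm]
          exact Nat.mul_lt_mul_of_pos_right (hiA1 _ h1) (Nat.succ_pos _)
        have h7 : (m + 1) * iA d'.1 < N := by
          rw [hN, mul_comm]
          exact Nat.mul_lt_mul_of_pos_right (hiA1 _ h1') (Nat.succ_pos _)
        have h8 := congrArg ZMod.val hv
        change (((m + 1) * iA d.1 : ℕ) : ZMod N).val = (((m + 1) * iA d'.1 : ℕ) : ZMod N).val at h8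
        rw [ZMod.val_natCast, ZMod.val_natCast, Nat.mod_eq_of_lt h6, Nat.mod_eq_of_lt h7] at h8
        exact Nat.eq_of_mul_eq_mul_left (Nat.succ_pos _) h8
      exact Prod.ext hv' hw)
    (by
      intro v hv z hz hzv
      exact ⟨fun h => absurd (hA v hv z hz (Or.inl h)) hzv,
        fun h => absurd (hA v hv z hz (Or.inr h)) hzv⟩)
    (by
      intro w hw z hz hzw
      refine ⟨fun h => ?_, fun h => ?_⟩
      · have h1 := (hB w hw z hz (Or.inl h)).resolve_left hzw
        have h2 : X w - r z = ((jB w : ℕ) : ZMod N) := by rw [h1]; exact hXr w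
        have h3 := hjB1 w hw
        have h4 := hjB2 w hw
        rw [h2, ZMod.val_natCast, Nat.mod_eq_of_lt (by omega)]
        omega
      · have h1 := (hB w hw z hz (Or.inr h)).resolve_left hzw
        exact absurd h (disjoint_left.1 hAB (h1 ▸ hpar w hw)))
    (a * (m + 1) - (m + 1)) le_rfl
  refine ⟨q, hq1, hq2, hq2', ?_, fun z => ?_⟩
  · intro w hw h
    have hne : w ≠ par w := fun h' => disjoint_left.1 hAB (hpar w hw) (h' ▸ hw)
    have h1 := (hq3 (par w) (hpar w hw) w h hne).2 hw
    have h2 : X w - (r (par w) - ((a * (m + 1) - (m + 1) : ℕ) : ZMod N)) =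
        ((jB w + (a * (m + 1) - (m + 1)) : ℕ) : ZMod N) := by
      rw [Nat.cast_add, ← hXr w]; ring
    have h3 := hjB1 w hw
    have h4 := hjB2 w hw
    rw [h2, ZMod.val_natCast, Nat.mod_eq_of_lt (by omega)] at h1
    omega
  rw [hq5 z]
  congr 3
  ext d
  rw [mem_filter]
  constructor
  · exact fun h => h.1
  · intro hd
    refine ⟨hd, ?_⟩
    obtain ⟨h1, h2, _, h3⟩ := hE d hd
    obtain ⟨t, c, ht, htc, hca⟩ := htime _ h1 _ h2 h3
    rw [ht]
    have hj1 := hjB1 _ h2
    have h6 : (m + 1) * c ≤ (m + 1) * (a - 1) := Nat.mul_le_mul_left _ (by omega)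
    have h8 : (m + 1) * (a - 1) + (m + 1) = a * (m + 1) := by
      rw [mul_comm a, ← Nat.mul_succ]
      congr 1
      omega
    omega

/-- **The multi-unit level pair lemma** (helper33), with unchanged paths at untouched vertices. -/
theorem level_pair' [Fintype S] [DecidableEq S] [DecidableEq V] {G : SimpleGraph V} (x : V)
    (e : S → V) (p : ∀ s : S, G.Walk x (e s)) (hp : ∀ s, (p s).IsPath)
    (U W : Finset V) (hUW : Disjoint U W)
    (hUex : ∀ u ∈ U, ∃ s, e s = u)
    (par : S → V) (hpar : ∀ s, e s ∈ W → par s ∈ U)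
    (hUs : ∀ s, e s ∈ U → ∀ z ∈ (p s).support, z ∈ U ∨ z ∈ W → z = e s)
    (hWs : ∀ s, e s ∈ W → ∀ z ∈ (p s).support, z ∈ U ∨ z ∈ W → z = e s ∨ z = par s)
    (E : Finset (V × V))
    (hE : ∀ d ∈ E, d.1 ∈ U ∧ d.2 ∈ W ∧ G.Adj d.1 d.2 ∧ ∃ s, e s = d.2 ∧ par s ≠ d.1) :
    ∃ q : ∀ s : S, G.Walk x (e s), (∀ s, (q s).IsPath) ∧
      (∀ s, (∀ d ∈ E, d.1 ≠ e s ∧ d.2 ≠ e s) → q s = p s) ∧
      (∀ s z, z ∈ (q s).support → ∃ s', z ∈ (p s').support) ∧
      ∀ z, visits q z = visits p z + (E.filter fun d => z = d.1 ∨ z = d.2).card := by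
  classical
  by_cases hE0 : E = ∅
  · exact ⟨p, hp, fun _ _ => rfl, fun s z h => ⟨s, h⟩, fun z => by simp [hE0]⟩
  obtain ⟨d0, hd0⟩ := nonempty_iff_ne_empty.2 hE0
  obtain ⟨-, -, -, s0, -⟩ := hE d0 hd0
  have hUWd : ∀ z, z ∈ U → z ∈ W → False := fun z h1 h2 => disjoint_left.1 hUW h1 h2
  -- the static slots
  obtain ⟨σ, hσ⟩ : ∃ σ : V → S, ∀ u ∈ U, e (σ u) = u := by
    refine ⟨fun u => if h : ∃ s, e s = u then h.choose else s0, fun u hu => ?_⟩
    have h := hUex u hu
    simp only [h, dif_pos]
    exact h.choose_spec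
  -- the moving slots
  obtain ⟨c, hc⟩ : ∃ c : V → S, ∀ w, (∃ s, e s = w) → e (c w) = w ∧
      ((par (c w), w) ∈ E → ∀ s, e s = w → (par s, w) ∈ E) := by
    have : ∀ w, ∃ s : S, (∃ s, e s = w) → e s = w ∧
        ((par s, w) ∈ E → ∀ s, e s = w → (par s, w) ∈ E) := by
      intro w
      by_cases h : ∃ s, e s = w
      · by_cases h1 : ∃ s, e s = w ∧ (par s, w) ∉ E
        · obtain ⟨s, h2, h3⟩ := h1
          exact ⟨s, fun _ => ⟨h2, fun h4 => absurd h4 h3⟩⟩
        · obtain ⟨s, hs⟩ := h
          refine ⟨s, fun _ => ⟨hs, fun _ s' hs' => ?_⟩⟩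
          by_contra h4
          exact h1 ⟨s', hs', h4⟩
      · exact ⟨s0, fun h' => absurd h' h⟩
    choose c hc using this
    exact ⟨c, hc⟩
  let W' : Finset V := W.filter fun w => ∃ s, e s = w
  let A : Finset S := U.image σ
  let B : Finset S := W'.image c
  have hAe : ∀ s ∈ A, e s ∈ U ∧ s = σ (e s) := by
    intro s hs
    obtain ⟨u, hu, rfl⟩ := mem_image.1 hs
    rw [hσ u hu]
    exact ⟨hu, rfl⟩
  have hBe : ∀ s ∈ B, e s ∈ W ∧ s = c (e s) := by
    intro s hs
    obtain ⟨w, hw, rfl⟩ := mem_image.1 hs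
    obtain ⟨h1, h2⟩ := mem_filter.1 hw
    rw [(hc w h2).1]
    exact ⟨h1, rfl⟩
  have hAB : Disjoint A B := by
    rw [disjoint_left]
    intro s h1 h2
    exact hUWd _ (hAe s h1).1 (hBe s h2).1
  have hinj : ∀ s, s ∈ A ∨ s ∈ B → ∀ s', s' ∈ A ∨ s' ∈ B → e s = e s' → s = s' := by
    rintro s (h1 | h1) s' (h2 | h2) h
    · rw [(hAe s h1).2, (hAe s' h2).2, h]
    · exact (hUWd _ (hAe s h1).1 (h ▸ (hBe s' h2).1)).elim
    · exact (hUWd _ (h ▸ (hAe s' h2).1) (hBe s h1).1).elim
    · rw [(hBe s h1).2, (hBe s' h2).2, h]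
  have hmemA : ∀ u ∈ U, σ u ∈ A := fun u hu => mem_image_of_mem _ hu
  have hmemB : ∀ w ∈ W, (∃ s, e s = w) → c w ∈ B := fun w hw hs =>
    mem_image_of_mem _ (mem_filter.2 ⟨hw, hs⟩)
  have hABU : ∀ z, z ∈ A ∨ z ∈ B → e z ∈ U ∨ e z ∈ W := by
    rintro z (h | h)
    · exact Or.inl (hAe z h).1
    · exact Or.inr (hBe z h).1
  let E1 : Finset (V × V) := E.filter fun d => par (c d.2) ≠ d.1
  obtain ⟨q1, hq1, hq1o, hq1s, hq1p, hq1v⟩ := slot_circle x e p hp A B hAB hinj
    (fun s => σ (par s)) (fun s hs => hmemA _ (hpar s (hBe s hs).1))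
    (by
      intro v hv z hz hz'
      refine hinj z hz' v (Or.inl hv) ?_
      exact hUs v (hAe v hv).1 _ hz (hABU z hz'))
    (by
      intro w hw z hz hz'
      rcases hWs w (hBe w hw).1 _ hz (hABU z hz') with h | h
      · exact Or.inl (hinj z hz' w (Or.inr hw) h)
      · refine Or.inr (hinj z hz' _ (Or.inl (hmemA _ (hpar w (hBe w hw).1))) ?_)
        rw [hσ _ (hpar w (hBe w hw).1), h])
    (E1.image fun d => (σ d.1, c d.2))
    (by
      intro d' hd'
      obtain ⟨d, hd, rfl⟩ := mem_image.1 hd'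
      obtain ⟨hdE, hdp⟩ := mem_filter.1 hd
      obtain ⟨h1, h2, h3, s, h4, h5⟩ := hE d hdE
      have h6 := (hc d.2 ⟨s, h4⟩).1
      refine ⟨hmemA _ h1, hmemB _ h2 ⟨s, h4⟩, ?_, ?_⟩
      · change G.Adj (e (σ d.1)) (e (c d.2))
        rw [hσ _ h1, h6]
        exact h3
      · change σ d.1 ≠ σ (par (c d.2))
        intro h
        apply hdp
        have h7 := congrArg e h
        rw [hσ _ h1, hσ _ (hpar _ (by rw [h6]; exact h2))] at h7
        exact h7.symm)
  have hq1v' : ∀ z, visits q1 z = visits p z + (E1.filter fun d => z = d.1 ∨ z = d.2).card := by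
    intro z
    rw [hq1v z, filter_image, card_image_of_injOn]
    · congr 2
      apply filter_congr
      intro d hd
      obtain ⟨h1, h2, h3, s, h4, h5⟩ := hE d (mem_filter.1 hd).1
      rw [hσ _ h1, (hc d.2 ⟨s, h4⟩).1]
    · intro d hd d' hd' h
      have hd1 := (mem_filter.1 (mem_filter.1 (mem_coe.1 hd)).1).1
      have hd1' := (mem_filter.1 (mem_filter.1 (mem_coe.1 hd')).1).1
      obtain ⟨h1, h2, h3, s, h4, h5⟩ := hE d hd1
      obtain ⟨h1', h2', h3', s', h4', h5'⟩ := hE d' hd1'
      have h6 := congrArg (fun y : S × S => e y.1) h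
      have h7 := congrArg (fun y : S × S => e y.2) h
      change e (σ d.1) = e (σ d'.1) at h6
      change e (c d.2) = e (c d'.2) at h7
      rw [hσ _ h1, hσ _ h1'] at h6
      rw [(hc d.2 ⟨s, h4⟩).1, (hc d'.2 ⟨s', h4'⟩).1] at h7
      exact Prod.ext h6 h7
  -- the second clones
  let W2 : Finset V := W'.filter fun w => (par (c w), w) ∈ E
  obtain ⟨c2, hc2⟩ : ∃ c2 : V → S, ∀ w ∈ W2, e (c2 w) = w ∧ par (c2 w) ≠ par (c w) := by
    have : ∀ w, ∃ s : S, w ∈ W2 → e s = w ∧ par s ≠ par (c w) := by
      intro w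
      by_cases h : w ∈ W2
      · obtain ⟨_, _, _, s, h1, h2⟩ := hE _ (mem_filter.1 h).2
        exact ⟨s, fun _ => ⟨h1, h2⟩⟩
      · exact ⟨s0, fun h' => absurd h' h⟩
    choose c2 hc2 using this
    exact ⟨c2, hc2⟩
  have hW2 : ∀ w ∈ W2, w ∈ W ∧ par (c w) ∈ U ∧ e (c w) = w ∧ G.Adj (par (c w)) w := by
    intro w hw
    obtain ⟨h1, h2⟩ := mem_filter.1 hw
    obtain ⟨h3, h4⟩ := mem_filter.1 h1
    obtain ⟨h5, _, h6, _⟩ := hE _ h2
    exact ⟨h3, h5, (hc w h4).1, h6⟩
  have key : ∀ R : Finset V, R ⊆ W2 → ∃ q : ∀ s : S, G.Walk x (e s), (∀ s, (q s).IsPath) ∧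
      (∀ s, (∀ d ∈ E, d.1 ≠ e s ∧ d.2 ≠ e s) → q s = p s) ∧
      (∀ s z, z ∈ (q s).support → ∃ s', z ∈ (p s').support) ∧
      (∀ w ∈ W2, w ∉ R → q (c2 w) = p (c2 w) ∧ w ∉ (q (σ (par (c w)))).support) ∧
      ∀ z, visits q z = visits q1 z + (R.filter fun w => z = par (c w) ∨ z = w).card := by
    intro R
    induction R using Finset.induction_on with
    | empty =>
      intro _
      refine ⟨q1, hq1, ?_, hq1s, ?_, fun z => by simp⟩
      · intro s hs
        refine hq1o s fun d' hd' => ?_
        obtain ⟨d, hd, rfl⟩ := mem_image.1 hd'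
        obtain ⟨hdE, _⟩ := mem_filter.1 hd
        obtain ⟨h1, h2, h3, s', h4, h5⟩ := hE d hdE
        obtain ⟨h6, h7⟩ := hs d hdE
        refine ⟨fun h => h6 ?_, fun h => h7 ?_⟩
        · rw [← h]; exact (hσ _ h1).symm
        · rw [← h]; exact (hc d.2 ⟨s', h4⟩).1.symm
      · intro w hw _
        obtain ⟨h1, h2, h3, h4⟩ := hW2 w hw
        obtain ⟨h5, h6⟩ := hc2 w hw
        refine ⟨hq1o _ fun d' hd' => ?_, ?_⟩
        · obtain ⟨d, hd, rfl⟩ := mem_image.1 hd'
          obtain ⟨hdE, _⟩ := mem_filter.1 hd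
          obtain ⟨g1, g2, _⟩ := hE d hdE
          have h8 := hmemA _ g1
          have h9 := hmemB _ g2 (by
            obtain ⟨s', g4, _⟩ := (hE d hdE).2.2.2
            exact ⟨s', g4⟩)
          refine ⟨fun h => ?_, fun h => ?_⟩
          · change σ d.1 = c2 w at h
            rw [h] at h8
            exact hUWd w (h5 ▸ (hAe _ h8).1) h1
          · change c d.2 = c2 w at h
            rw [h] at h9
            have h7 := (hBe _ h9).2
            rw [h5] at h7
            exact h6 (congrArg par h7)
        · have h7 := hq1p (c w) (hmemB w h1 ⟨_, h3⟩)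
          rw [h3] at h7
          exact h7
    | insert w0 R hw0 ih =>
      intro hR
      obtain ⟨q, hq, hqo, hqs, hqw, hqv⟩ := ih fun w hw => hR (mem_insert_of_mem hw)
      have hw02 : w0 ∈ W2 := hR (mem_insert_self _ _)
      obtain ⟨h1, h2, h3, h4⟩ := hW2 w0 hw02
      obtain ⟨h5, h6⟩ := hc2 w0 hw02
      obtain ⟨h7, h8⟩ := hqw w0 hw02 hw0
      have hev : e (σ (par (c w0))) = par (c w0) := hσ _ h2
      have hadj : G.Adj (e (σ (par (c w0)))) (e (c2 w0)) := by rw [hev, h5]; exact h4
      have hn1 : e (σ (par (c w0))) ∉ (q (c2 w0)).support := by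
        rw [hev, h7]
        intro h
        rcases hWs (c2 w0) (by rw [h5]; exact h1) _ h (Or.inl h2) with h9 | h9
        · rw [h5] at h9
          rw [h9] at h2
          exact hUWd _ h2 h1
        · exact h6 h9.symm
      have hn2 : e (c2 w0) ∉ (q (σ (par (c w0)))).support := by rw [h5]; exact h8
      obtain ⟨q', hq', hqu, hqv', hqw', hc'⟩ := slot_toggle x e q hq hadj hn1 hn2
      refine ⟨q', hq', ?_, ?_, ?_, ?_⟩
      · intro s hs
        obtain ⟨hs1, hs2⟩ := hs _ (mem_filter.1 hw02).2
        rw [hqu s, hqo s hs]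
        · intro h; rw [h, hev] at hs1; exact hs1 rfl
        · intro h; rw [h, h5] at hs2; exact hs2 rfl
      · intro s z hz
        by_cases hsv : s = σ (par (c w0))
        · subst hsv
          rcases (hqv' z).1 hz with h | h
          · exact hqs _ _ h
          · exact ⟨_, by rw [h]; exact (p _).end_mem_support⟩
        · by_cases hsw : s = c2 w0
          · subst hsw
            rcases (hqw' z).1 hz with h | h
            · exact hqs _ _ h
            · exact ⟨_, by rw [h]; exact (p _).end_mem_support⟩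
          · rw [hqu s hsv hsw] at hz
            exact hqs _ _ hz
      · intro w hw hwR
        rw [mem_insert, not_or] at hwR
        obtain ⟨g1, g2, g3, g4⟩ := hW2 w hw
        obtain ⟨g5, g6⟩ := hc2 w hw
        obtain ⟨g7, g8⟩ := hqw w hw hwR.2
        refine ⟨?_, ?_⟩
        · rw [hqu, g7]
          · intro h
            have := congrArg e h
            rw [g5, hev] at this
            rw [this] at g1
            exact hUWd _ h2 g1
          · intro h
            have := congrArg e h
            rw [g5, h5] at this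
            exact hwR.1 this
        · by_cases h9 : σ (par (c w)) = σ (par (c w0))
          · rw [h9]
            intro h
            rcases (hqv' w).1 h with h | h
            · rw [h7] at h
              rcases hWs (c2 w0) (by rw [h5]; exact h1) _ h (Or.inr g1) with h10 | h10
              · rw [h5] at h10
                exact hwR.1 h10
              · have h11 := hpar (c2 w0) (by rw [h5]; exact h1)
                rw [← h10] at h11
                exact hUWd _ h11 g1
            · rw [hev] at h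
              rw [← h] at h2
              exact hUWd _ h2 g1
          · rw [hqu _ h9]
            · exact g8
            · intro h
              have := congrArg e h
              rw [h5, hσ _ g2] at this
              rw [this] at g2
              exact hUWd _ g2 h1
      · intro z
        rw [hc' z, hqv z, filter_insert, hev, h5, add_assoc]
        congr 1
        by_cases hz : z = par (c w0) ∨ z = w0
        · rw [if_pos hz, if_pos hz, card_insert_of_notMem]
          exact fun h => hw0 (mem_filter.1 h).1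
        · rw [if_neg hz, if_neg hz, add_zero]
  obtain ⟨q, hq, hqo, hqs, _, hqv⟩ := key W2 subset_rfl
  refine ⟨q, hq, hqo, hqs, fun z => ?_⟩
  rw [hqv z, hq1v' z, add_assoc]
  congr 1
  have h1 : (W2.filter fun w => z = par (c w) ∨ z = w).card =
      ((E.filter fun d => ¬ par (c d.2) ≠ d.1).filter fun d => z = d.1 ∨ z = d.2).card := by
    apply card_bij (fun w _ => (par (c w), w))
    · intro w hw
      obtain ⟨h2, h3⟩ := mem_filter.1 hw
      rw [mem_filter, mem_filter]
      exact ⟨⟨(mem_filter.1 h2).2, fun h => h rfl⟩, h3⟩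
    · intro w _ w' _ h
      exact congrArg Prod.snd h
    · intro d hd
      obtain ⟨h2, h3⟩ := mem_filter.1 hd
      obtain ⟨h4, h5⟩ := mem_filter.1 h2
      rw [not_not] at h5
      obtain ⟨h6, h7, h8, s, h9, h10⟩ := hE d h4
      have h11 : (par (c d.2), d.2) = d := Prod.ext h5 rfl
      refine ⟨d.2, ?_, h11⟩
      rw [mem_filter, mem_filter, mem_filter, h11]
      refine ⟨⟨⟨h7, ⟨s, h9⟩⟩, h4⟩, ?_⟩
      rw [h5]
      exact h3
  rw [h1, filter_comm, filter_comm (p := fun d : V × V => ¬ par (c d.2) ≠ d.1),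
    card_filter_add_card_filter_not]

/-- **The multi-unit level pair lemma** (helper33). -/
theorem level_pair [Fintype S] [DecidableEq S] [DecidableEq V] {G : SimpleGraph V} (x : V)
    (e : S → V) (p : ∀ s : S, G.Walk x (e s)) (hp : ∀ s, (p s).IsPath)
    (U W : Finset V) (hUW : Disjoint U W)
    (hUex : ∀ u ∈ U, ∃ s, e s = u)
    (par : S → V) (hpar : ∀ s, e s ∈ W → par s ∈ U)
    (hUs : ∀ s, e s ∈ U → ∀ z ∈ (p s).support, z ∈ U ∨ z ∈ W → z = e s)
    (hWs : ∀ s, e s ∈ W → ∀ z ∈ (p s).support, z ∈ U ∨ z ∈ W → z = e s ∨ z = par s)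
    (E : Finset (V × V))
    (hE : ∀ d ∈ E, d.1 ∈ U ∧ d.2 ∈ W ∧ G.Adj d.1 d.2 ∧ ∃ s, e s = d.2 ∧ par s ≠ d.1) :
    ∃ q : ∀ s : S, G.Walk x (e s), (∀ s, (q s).IsPath) ∧
      (∀ s, e s ∉ U → e s ∉ W → q s = p s) ∧
      (∀ s z, z ∈ (q s).support → ∃ s', z ∈ (p s').support) ∧
      ∀ z, visits q z = visits p z + (E.filter fun d => z = d.1 ∨ z = d.2).card := by
  obtain ⟨q, h1, h2, h3, h4⟩ := level_pair' x e p hp U W hUW hUex par hpar hUs hWs E hE
  refine ⟨q, h1, fun s hs1 hs2 => h2 s fun d hd => ⟨fun h => hs1 ?_, fun h => hs2 ?_⟩, h3, h4⟩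
  · rw [← h]; exact (hE d hd).1
  · rw [← h]; exact (hE d hd).2.1

end Pool.Agent.UPS2
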