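import Mathlib
import Pool.Agent.Lib.MP_876e19_co.Defs
import Pool.Agent.Lib.MP_876e19_co_ups.Antipode

/-!
# Fifteen vertices (MP_876e19_co)

* `hasUPS_of_small_stab`: an odd number of vertices, stabilisers of order at most two;
* `hasUPS_card15`: 15 vertices, degree 4, diameter at least 4.
-/

set_option autoImplicit false

namespace Pool.Agent.UPS

namespace N15

open Finset

/-- stabilisers of order at most two, odd number of vertices: there is a regular subgroup -/
theorem hasUPS_of_small_stab {V : Type*} [Finite V] {G : SimpleGraph V} (hG : G.Connected)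
    (hT : VT G) (hodd : Odd (Nat.card V)) (x : V)
    (hst : Nat.card (MulAction.stabilizer (G ≃g G) x) ≤ 2) : HasUPS G := by
  have : Finite (G ≃g G) :=
    Finite.of_injective (fun φ : G ≃g G => (φ : V → V)) DFunLike.coe_injective
  have : MulAction.IsPretransitive (G ≃g G) V := ⟨fun u v => hT u v⟩
  have hcard : ∀ u : V, Nat.card V * Nat.card (MulAction.stabilizer (G ≃g G) u) =
      Nat.card (G ≃g G) := by
    intro u
    have h1 : (MulAction.stabilizer (G ≃g G) u).index = Nat.card V := by
      rw [MulAction.index_stabilizer, MulAction.orbit_eq_univ, Set.ncard_univ]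
    have h2 := (MulAction.stabilizer (G ≃g G) u).card_mul_index
    rw [h1, mul_comm] at h2
    exact h2
  have hV : 0 < Nat.card V := by
    have : Nonempty V := ⟨x⟩
    exact Nat.card_pos
  have hst' : ∀ u : V, Nat.card (MulAction.stabilizer (G ≃g G) u) =
      Nat.card (MulAction.stabilizer (G ≃g G) x) := fun u =>
    Nat.eq_of_mul_eq_mul_left hV ((hcard u).trans (hcard x).symm)
  have hpos : 0 < Nat.card (MulAction.stabilizer (G ≃g G) x) := Nat.card_pos
  -- a subgroup which is regular
  suffices h : ∃ N : Subgroup (G ≃g G), Nat.card N = Nat.card V by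
    obtain ⟨N, hN⟩ := h
    have hfree : ∀ t ∈ N, ∀ u : V, t u = u → t = 1 := by
      intro t ht u htu
      have h1 : orderOf t ∣ Nat.card N := by
        rw [← Subgroup.orderOf_mk t ht]
        exact orderOf_dvd_natCard _
      have h2 : orderOf t ∣ Nat.card (MulAction.stabilizer (G ≃g G) u) := by
        have h3 : t ∈ MulAction.stabilizer (G ≃g G) u := htu
        rw [← Subgroup.orderOf_mk t h3]
        exact orderOf_dvd_natCard _
      rw [hN] at h1
      rw [hst' u] at h2
      have h4 : orderOf t ≤ 2 := (Nat.le_of_dvd hpos h2).trans hst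
      have h5 : orderOf t ≠ 2 := by
        intro h6
        rw [h6] at h1
        exact (Nat.not_even_iff_odd.2 hodd) (even_iff_two_dvd.2 h1)
      have h6 : 0 < orderOf t := orderOf_pos t
      rw [← orderOf_eq_one_iff]
      omega
    refine hasUPS_of_sharp hG (N : Set (G ≃g G)) fun u v => ?_
    have hinj : Function.Injective (fun t : N => (t : G ≃g G) u) := by
      intro s t hst
      have h1 : (s : G ≃g G) u = (t : G ≃g G) u := hst
      have h2 : ((s : G ≃g G)⁻¹ * (t : G ≃g G)) u = u := by
        change (s : G ≃g G).symm ((t : G ≃g G) u) = u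
        rw [← h1]
        exact (s : G ≃g G).symm_apply_apply u
      have h3 := hfree _ (N.mul_mem (N.inv_mem s.2) t.2) u h2
      have h4 := inv_mul_eq_one.1 h3
      exact Subtype.ext h4
    have hbij : Function.Bijective (fun t : N => (t : G ≃g G) u) :=
      (Nat.bijective_iff_injective_and_card _).2 ⟨hinj, hN⟩
    obtain ⟨t, ht⟩ := hbij.2 v
    refine ⟨t, ⟨t.2, ht⟩, ?_⟩
    rintro t' ⟨ht', ht'u⟩
    have := hbij.1 (a₁ := t) (a₂ := ⟨t', ht'⟩) (ht.trans ht'u.symm)
    rw [this]
  have h12 : Nat.card (MulAction.stabilizer (G ≃g G) x) = 1 ∨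
      Nat.card (MulAction.stabilizer (G ≃g G) x) = 2 := by omega
  rcases h12 with h1 | h2
  · refine ⟨⊤, ?_⟩
    rw [Subgroup.card_top, ← hcard x, h1, mul_one]
  · have hΓ := hcard x
    rw [h2] at hΓ
    have h3 : (Nat.card (G ≃g G)).minFac = 2 := by
      rw [← hΓ, Nat.minFac_eq_two_iff]
      exact dvd_mul_left _ _
    have h2p : Fact (Nat.Prime 2) := ⟨Nat.prime_two⟩
    obtain ⟨P⟩ : Nonempty (Sylow 2 (G ≃g G)) := inferInstance
    have hP : Nat.card P = 2 := by
      rw [Sylow.card_eq_multiplicity P, ← hΓ]
      have h4 : (Nat.card V * 2).factorization 2 = 1 := by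
        rw [Nat.factorization_mul hV.ne' (by norm_num), Finsupp.add_apply,
          Nat.factorization_eq_zero_of_not_dvd, Nat.Prime.factorization_self Nat.prime_two]
        intro h5
        exact (Nat.not_even_iff_odd.2 hodd) (even_iff_two_dvd.2 h5)
      rw [h4, pow_one]
    have hcyc : IsCyclic P := isCyclic_of_prime_card hP
    have hcompl := IsCyclic.isComplement' h3 hcyc
    have h5 := hcompl.card_mul_card
    have h6 : Nat.card (P : Subgroup (G ≃g G)) = 2 := hP
    rw [h6, ← hΓ] at h5
    exact ⟨_, Nat.eq_of_mul_eq_mul_right (by norm_num) h5⟩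

variable {V : Type*} [Fintype V] [DecidableEq V]

omit [DecidableEq V] in
/-- a symmetric irreflexive relation has an even number of ordered pairs -/
lemma even_sym (ρ : V → V → Prop) [DecidableRel ρ] (hs : ∀ u v, ρ u v → ρ v u)
    (hi : ∀ u, ¬ ρ u u) : Even (∑ v : V, (univ.filter fun w => ρ v w).card) := by
  have h1 : Even ((univ.filter fun q : V × V => ρ q.1 q.2).card) := by
    have h : (((univ.filter fun q : V × V => ρ q.1 q.2).card : ℕ) : ZMod 2) = 0 := by
      have := Finset.sum_involution (s := univ.filter fun q : V × V => ρ q.1 q.2)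
        (f := fun _ => (1 : ZMod 2)) (fun q _ => (q.2, q.1)) (fun q _ => by decide)
        (fun q hq _ h => by
          simp only [mem_filter, mem_univ, true_and] at hq
          have : q.2 = q.1 := congrArg Prod.fst h
          rw [this] at hq
          exact hi _ hq)
        (fun q hq => by
          simp only [mem_filter, mem_univ, true_and] at hq ⊢
          exact hs _ _ hq) (fun q _ => rfl)
      simpa using this
    rwa [ZMod.natCast_eq_zero_iff_even] at h
  have h2 : (univ.filter fun q : V × V => ρ q.1 q.2).card =
      ∑ v : V, (univ.filter fun w => ρ v w).card := by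
    rw [card_filter, Fintype.sum_prod_type]
    exact sum_congr rfl fun v _ => (card_filter _ _).symm
  rwa [← h2]

variable {G : SimpleGraph V} [DecidableRel G.Adj]

open Atoms in
lemma levels (hG : G.Connected) (hT : VT G) (hcard : Fintype.card V = 15)
    (hreg : ∀ v, (univ.filter fun w => G.Adj v w).card = 4)
    (hdiam : ∃ x y, 4 ≤ G.dist x y) :
    (∀ x y, G.dist x y ≤ 4) ∧ (∀ x, (univ.filter fun y => G.dist x y = 3).card = 4) ∧
      (∀ x, (univ.filter fun y => G.dist x y = 4).card = 2) := by
  have hL : Lower G 4 := lower_four hG hT hreg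
  let L : V → ℕ → Finset V := fun x i => univ.filter fun y => G.dist x y = i
  have hfar : ∀ x, ∃ y, 4 ≤ G.dist x y := by
    obtain ⟨x₀, y₀, h⟩ := hdiam
    intro x
    obtain ⟨φ, hφ⟩ := hT x₀ x
    exact ⟨φ y₀, by rw [← hφ, dist_iso hG]; exact h⟩
  have hlev : ∀ x y, ∀ i ≤ G.dist x y, ∃ z, G.dist x z = i := by
    intro x y
    obtain ⟨w, hw⟩ := hG.exists_walk_length_eq_dist x y
    intro i hi
    refine ⟨w.getVert i, ?_⟩
    have e1 : G.dist x (w.getVert i) ≤ i := by
      have := SimpleGraph.dist_le (w.take i)
      rw [SimpleGraph.Walk.take_length] at this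
      exact this.trans (min_le_left _ _)
    have e2 : G.dist (w.getVert i) y ≤ G.dist x y - i := by
      have := SimpleGraph.dist_le (w.drop i)
      rw [SimpleGraph.Walk.drop_length, hw] at this
      exact this
    have e3 : G.dist x y ≤ G.dist x (w.getVert i) + G.dist (w.getVert i) y := hG.dist_triangle
    omega
  have hlarge : ∀ x i, 1 ≤ i → (∃ y, G.dist x y = i + 1) → 4 ≤ (L x i).card := by
    intro x i hi hy
    have hb : bd G (univ.filter fun y => G.dist x y ≤ i - 1) ⊆ L x i := by
      intro v hv
      rw [mem_bd] at hv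
      obtain ⟨hv1, u, hu, huv⟩ := hv
      simp only [mem_filter, mem_univ, true_and, not_le] at hv1 hu
      simp only [L, mem_filter, mem_univ, true_and]
      have : G.dist x v ≤ G.dist x u + G.dist u v := hG.dist_triangle
      rw [SimpleGraph.dist_eq_one_iff_adj.2 huv] at this
      omega
    refine (hL _ ⟨x, by simp⟩ ?_).trans (card_le_card hb)
    obtain ⟨y, hy⟩ := hy
    refine ⟨y, mem_far.2 ⟨?_, ?_⟩⟩
    · simp only [mem_filter, mem_univ, true_and]; omega
    · intro u hu huy
      simp only [mem_filter, mem_univ, true_and] at hu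
      have : G.dist x y ≤ G.dist x u + G.dist u y := hG.dist_triangle
      rw [SimpleGraph.dist_eq_one_iff_adj.2 huy] at this
      omega
  have hL0 : ∀ x, (L x 0).card = 1 := by
    intro x
    rw [card_eq_one]
    refine ⟨x, ?_⟩
    ext y
    simp only [L, mem_filter, mem_univ, true_and, mem_singleton]
    rw [hG.dist_eq_zero_iff]
    exact eq_comm
  have hL1 : ∀ x, (L x 1).card = 4 := by
    intro x
    rw [← hreg x]
    congr 1
    ext y
    simp only [L, mem_filter, mem_univ, true_and]
    exact SimpleGraph.dist_eq_one_iff_adj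
  have hsum : ∀ x (m : ℕ), ∑ i ∈ range m, (L x i).card =
      (univ.filter fun y => G.dist x y < m).card := by
    intro x m
    induction m with
    | zero => simp
    | succ m ih =>
      rw [sum_range_succ, ih, ← card_union_of_disjoint]
      · congr 1
        ext y
        simp only [L, mem_union, mem_filter, mem_univ, true_and]
        omega
      · rw [Finset.disjoint_left]
        intro y hy hy'
        simp only [L, mem_filter, mem_univ, true_and] at hy hy'
        omega
  have hle : ∀ x y, G.dist x y ≤ 4 := by
    intro x y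
    by_contra hcon
    push Not at hcon
    have h5 := hlev x y 5 (by omega)
    have a2 := hlarge x 2 (by norm_num) (hlev x y 3 (by omega))
    have a3 := hlarge x 3 (by norm_num) (hlev x y 4 (by omega))
    have a4 := hlarge x 4 (by norm_num) h5
    have a5 : 1 ≤ (L x 5).card := by
      obtain ⟨z, hz⟩ := h5
      exact card_pos.2 ⟨z, by simp [L, hz]⟩
    have h6 := hsum x 6
    have h7 : (univ.filter fun y => G.dist x y < 6).card ≤ 15 := by
      rw [← hcard]; exact card_le_univ _
    simp only [sum_range_succ, sum_range_zero, hL0, hL1] at h6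
    omega
  have htot : ∀ x, (L x 2).card + (L x 3).card + (L x 4).card = 10 := by
    intro x
    have h5 := hsum x 5
    have h6 : (univ.filter fun y => G.dist x y < 5) = univ := by
      ext y
      simp only [mem_filter, mem_univ, true_and, iff_true]
      have := hle x y
      omega
    rw [h6, card_univ, hcard] at h5
    simp only [sum_range_succ, sum_range_zero, hL0, hL1] at h5
    omega
  have h23 : ∀ x, 4 ≤ (L x 2).card ∧ 4 ≤ (L x 3).card ∧ 1 ≤ (L x 4).card := by
    intro x
    obtain ⟨y, hy⟩ := hfar x
    refine ⟨hlarge x 2 (by norm_num) (hlev x y 3 (by omega)),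
      hlarge x 3 (by norm_num) (hlev x y 4 (by omega)), ?_⟩
    obtain ⟨z, hz⟩ := hlev x y 4 hy
    exact card_pos.2 ⟨z, by simp [L, hz]⟩
  -- the number of vertices at distance four is even
  have hconst : ∀ x y, (L x 4).card = (L y 4).card := by
    intro x y
    obtain ⟨φ, rfl⟩ := hT x y
    refine card_bij (fun w _ => φ w) ?_ (fun w _ w' _ h => φ.injective h) ?_
    · intro w hw
      simp only [L, mem_filter, mem_univ, true_and] at hw ⊢
      rw [dist_iso hG]; exact hw
    · intro w hw
      simp only [L, mem_filter, mem_univ, true_and] at hw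
      refine ⟨φ.symm w, ?_, φ.apply_symm_apply w⟩
      simp only [L, mem_filter, mem_univ, true_and]
      rw [← dist_iso hG φ, φ.apply_symm_apply]; exact hw
  have heven : ∀ x, Even (L x 4).card := by
    intro x
    have h := even_sym (fun u v => G.dist u v = 4)
      (fun u v h => by rw [SimpleGraph.dist_comm]; exact h) (fun u h => by simp at h)
    rw [sum_congr rfl fun v _ => hconst v x, sum_const, card_univ, hcard, smul_eq_mul,
      Nat.even_mul] at h
    rcases h with h | h
    · exact absurd h (by decide)
    · exact h
  refine ⟨hle, fun x => ?_, fun x => ?_⟩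
  · have h1 := htot x
    have h2 := h23 x
    obtain ⟨k, hk⟩ := heven x
    change (L x 3).card = 4
    omega
  · have h1 := htot x
    have h2 := h23 x
    obtain ⟨k, hk⟩ := heven x
    change (L x 4).card = 2
    omega

/-- the two vertices at distance four are adjacent -/
lemma last_adj (hG : G.Connected) (hT : VT G) (hcard : Fintype.card V = 15)
    (hreg : ∀ v, (univ.filter fun w => G.Adj v w).card = 4)
    (hle : ∀ x y, G.dist x y ≤ 4) (h3 : ∀ x, (univ.filter fun y => G.dist x y = 3).card = 4)
    (h4 : ∀ x, (univ.filter fun y => G.dist x y = 4).card = 2) {x y y' : V}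
    (hy : G.dist x y = 4) (hy' : G.dist x y' = 4) (hne : y ≠ y') : G.Adj y y' := by
  classical
  by_contra hcon
  have hL4 : ∀ w, G.dist x w = 4 → w = y ∨ w = y' := by
    intro w hw
    have h1 : ({y, y'} : Finset V) ⊆ univ.filter fun y => G.dist x y = 4 := by
      intro z hz
      simp only [mem_insert, mem_singleton] at hz
      rcases hz with rfl | rfl <;> simp [hy, hy']
    have h2 := eq_of_subset_of_card_le h1 (by rw [h4, card_pair hne])
    have h5 : w ∈ ({y, y'} : Finset V) := by rw [h2]; simp [hw]
    simpa using h5
  -- the neighbourhood of a vertex of the last level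
  have hN : ∀ z, (z = y ∨ z = y') → ∀ w, G.Adj z w ↔ G.dist x w = 3 := by
    intro z hz
    have hz4 : G.dist x z = 4 := by rcases hz with rfl | rfl <;> assumption
    have h1 : (univ.filter fun w => G.Adj z w) ⊆ univ.filter fun y => G.dist x y = 3 := by
      intro w hw
      simp only [mem_filter, mem_univ, true_and] at hw ⊢
      have e1 : G.dist x z ≤ G.dist x w + G.dist w z := hG.dist_triangle
      rw [SimpleGraph.dist_eq_one_iff_adj.2 hw.symm] at e1
      have e2 := hle x w
      have e3 : G.dist x w ≠ 4 := by
        intro h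
        rcases hL4 w h with rfl | rfl <;> rcases hz with rfl | rfl
        · exact hw.ne rfl
        · exact hcon hw.symm
        · exact hcon hw
        · exact hw.ne rfl
      omega
    have h2 := eq_of_subset_of_card_le h1 (by rw [h3, hreg])
    intro w
    have h5 : w ∈ (univ.filter fun w => G.Adj z w) ↔ w ∈ univ.filter fun y => G.dist x y = 3 := by
      rw [h2]
    simpa using h5
  -- twins
  let t : V → Finset V := fun v => univ.filter fun w => w ≠ v ∧ ∀ z, G.Adj w z ↔ G.Adj v z
  have ht1 : (t y).card = 1 := by
    rw [card_eq_one]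
    refine ⟨y', ?_⟩
    ext w
    simp only [t, mem_filter, mem_univ, true_and, mem_singleton]
    constructor
    · rintro ⟨hwy, hw⟩
      have hw3 : ∀ z, G.Adj w z ↔ G.dist x z = 3 := fun z => (hw z).trans (hN y (Or.inl rfl) z)
      by_cases hw4 : G.dist x w = 4
      · exact (hL4 w hw4).resolve_left hwy
      exfalso
      have hne3 : G.dist x w ≠ 3 := fun h => (hw3 w).2 h |>.ne rfl
      -- a neighbour of `w` closer to `x`
      by_cases hw0 : w = x
      · subst hw0
        have h5 : 0 < (univ.filter fun y => G.dist w y = 3).card := by rw [h3]; norm_num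
        obtain ⟨z, hz⟩ := card_pos.1 h5
        simp only [mem_filter, mem_univ, true_and] at hz
        have := SimpleGraph.dist_eq_one_iff_adj.2 ((hw3 z).2 hz)
        omega
      · obtain ⟨q, hq⟩ := hG.exists_walk_length_eq_dist x w
        have hpos : 0 < q.length := by
          rw [hq]
          exact hG.pos_dist_of_ne (Ne.symm hw0)
        have e1 : G.Adj (q.getVert (q.length - 1)) w := by
          have := q.adj_getVert_succ (i := q.length - 1) (by omega)
          rw [show q.length - 1 + 1 = q.length by omega, q.getVert_length] at this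
          exact this
        have e2 : G.dist x (q.getVert (q.length - 1)) ≤ q.length - 1 := by
          have := SimpleGraph.dist_le (q.take (q.length - 1))
          rw [SimpleGraph.Walk.take_length] at this
          exact this.trans (min_le_left _ _)
        have e3 := (hw3 _).1 e1.symm
        have e4 := hle x w
        omega
    · rintro rfl
      exact ⟨hne.symm, fun z => (hN w (Or.inr rfl) z).trans (hN y (Or.inl rfl) z).symm⟩
  have hconst : ∀ u v, (t u).card = (t v).card := by
    intro u v
    obtain ⟨φ, rfl⟩ := hT u v
    refine card_bij (fun w _ => φ w) ?_ (fun w _ w' _ h => φ.injective h) ?_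
    · intro w hw
      simp only [t, mem_filter, mem_univ, true_and] at hw ⊢
      refine ⟨fun h => hw.1 (φ.injective h), fun z => ?_⟩
      rw [← φ.apply_symm_apply z, φ.map_adj_iff, φ.map_adj_iff]
      exact hw.2 _
    · intro w hw
      simp only [t, mem_filter, mem_univ, true_and] at hw
      refine ⟨φ.symm w, ?_, φ.apply_symm_apply w⟩
      simp only [t, mem_filter, mem_univ, true_and]
      refine ⟨fun h => hw.1 (by rw [← h, φ.apply_symm_apply]), fun z => ?_⟩
      rw [← φ.map_adj_iff, φ.apply_symm_apply, hw.2, φ.map_adj_iff]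
  have heven := even_sym (fun u v => v ≠ u ∧ ∀ z, G.Adj v z ↔ G.Adj u z)
    (fun u v h => ⟨h.1.symm, fun z => (h.2 z).symm⟩) (fun u h => h.1 rfl)
  have h5 : ∀ v, (univ.filter fun w => w ≠ v ∧ ∀ z, G.Adj w z ↔ G.Adj v z).card = 1 := by
    intro v
    rw [← ht1, hconst y v]
  rw [sum_congr rfl fun v _ => h5 v, sum_const, card_univ, hcard] at heven
  exact absurd heven (by decide)

/-- 15 vertices, degree 4, diameter at least 4 -/
theorem hasUPS_card15 (hG : G.Connected) (hT : VT G) (hcard : Fintype.card V = 15)
    (hreg : ∀ v, (univ.filter fun w => G.Adj v w).card = 4)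
    (hdiam : ∃ x y, 4 ≤ G.dist x y) : HasUPS G := by
  classical
  obtain ⟨hle, h3, h4⟩ := levels hG hT hcard hreg hdiam
  have hadj : ∀ x y y' : V, G.dist x y = 4 → G.dist x y' = 4 → y ≠ y' → G.Adj y y' :=
    fun x y y' hy hy' hne => last_adj hG hT hcard hreg hle h3 h4 hy hy' hne
  -- the other vertex at distance four
  have hother : ∀ x y, G.dist x y = 4 → ∃ z, z ≠ y ∧ G.dist x z = 4 := by
    intro x y hxy
    by_contra hcon
    push Not at hcon
    have h5 : (univ.filter fun y => G.dist x y = 4) ⊆ {y} := by
      intro z hz
      simp only [mem_filter, mem_univ, true_and] at hz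
      rw [mem_singleton]
      by_contra hne
      exact hcon z hne hz
    have := card_le_card h5
    rw [h4, card_singleton] at this
    omega
  have hthree : ∀ x a b c, a ≠ b → G.dist x a = 4 → G.dist x b = 4 → G.dist x c = 4 →
      c = a ∨ c = b := by
    intro x a b c hab ha hb hc
    have h1 : ({a, b} : Finset V) ⊆ univ.filter fun y => G.dist x y = 4 := by
      intro z hz
      simp only [mem_insert, mem_singleton] at hz
      rcases hz with rfl | rfl <;> simp [ha, hb]
    have h2 := eq_of_subset_of_card_le h1 (by rw [h4, card_pair hab])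
    have h5 : c ∈ ({a, b} : Finset V) := by rw [h2]; simp [hc]
    simpa using h5
  -- the graph of the pairs at distance four
  let R : SimpleGraph V :=
    { Adj := fun u v => G.dist u v = 4
      symm := ⟨fun u v (h : G.dist u v = 4) => by rw [SimpleGraph.dist_comm]; exact h⟩
      loopless := ⟨fun u (h : G.dist u u = 4) => by simp at h⟩ }
  have hR : ∀ u v, R.Adj u v ↔ G.dist u v = 4 := fun u v => Iff.rfl
  have hRφ : ∀ (φ : G ≃g G) u v, R.Reachable u v → R.Reachable (φ u) (φ v) := by
    intro φ u v h
    obtain ⟨q⟩ := h
    induction q with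
    | nil => exact SimpleGraph.Reachable.refl _
    | cons h _ ih =>
      refine SimpleGraph.Reachable.trans (SimpleGraph.Adj.reachable ?_) ih
      rw [hR, dist_iso hG]; exact h
  let K : V → Finset V := fun x => univ.filter fun y => R.Reachable x y
  have hKc : ∀ x y, (K x).card = (K y).card := by
    intro x y
    obtain ⟨φ, rfl⟩ := hT x y
    refine card_bij (fun w _ => φ w) ?_ (fun w _ w' _ h => φ.injective h) ?_
    · intro w hw
      simp only [K, mem_filter, mem_univ, true_and] at hw ⊢
      exact hRφ φ _ _ hw
    · intro w hw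
      simp only [K, mem_filter, mem_univ, true_and] at hw
      refine ⟨φ.symm w, ?_, φ.apply_symm_apply w⟩
      simp only [K, mem_filter, mem_univ, true_and]
      have := hRφ φ.symm _ _ hw
      rwa [φ.symm_apply_apply] at this
  have hKdvd : ∀ x, (K x).card ∣ 15 := by
    intro x
    have h1 : Fintype.card V = ∑ c : R.ConnectedComponent,
        (univ.filter fun v => R.connectedComponentMk v = c).card := by
      rw [← card_univ]
      exact card_eq_sum_card_fiberwise (fun v _ => mem_univ _)
    have h2 : ∀ c : R.ConnectedComponent,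
        (univ.filter fun v => R.connectedComponentMk v = c).card = (K x).card := by
      intro c
      induction c using SimpleGraph.ConnectedComponent.ind with
      | _ u =>
        rw [← hKc u x]
        congr 1
        ext v
        simp only [K, mem_filter, mem_univ, true_and, SimpleGraph.ConnectedComponent.eq]
        exact ⟨fun h => h.symm, fun h => h.symm⟩
    rw [sum_congr rfl fun c _ => h2 c, sum_const, smul_eq_mul, hcard] at h1
    exact ⟨_, by rw [h1]; ring⟩
  -- no cycles of length four
  have hfour : ∀ a b c d e, G.dist a b = 4 → G.dist b c = 4 → G.dist c d = 4 → G.dist d e = 4 →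
      a ≠ c → b ≠ d → c ≠ e → a ≠ e := by
    rintro a b c d e hab hbc hcd hde hac hbd hce rfl
    have hsub : K a ⊆ {a, b, c, d} := by
      intro v hv
      simp only [K, mem_filter, mem_univ, true_and] at hv
      obtain ⟨q⟩ := hv
      have hcl : ∀ u w, u ∈ ({a, b, c, d} : Finset V) → R.Adj u w →
          w ∈ ({a, b, c, d} : Finset V) := by
        intro u w hu huw
        rw [hR] at huw
        simp only [mem_insert, mem_singleton] at hu ⊢
        rcases hu with rfl | rfl | rfl | rfl
        · rcases hthree u b d w hbd hab (by rw [SimpleGraph.dist_comm]; exact hde) huw with h | h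
          · exact Or.inr (Or.inl h)
          · exact Or.inr (Or.inr (Or.inr h))
        · rcases hthree u a c w hac (by rw [SimpleGraph.dist_comm]; exact hab) hbc huw with h | h
          · exact Or.inl h
          · exact Or.inr (Or.inr (Or.inl h))
        · rcases hthree u b d w hbd (by rw [SimpleGraph.dist_comm]; exact hbc) hcd huw with h | h
          · exact Or.inr (Or.inl h)
          · exact Or.inr (Or.inr (Or.inr h))
        · rcases hthree u a c w hac hde (by rw [SimpleGraph.dist_comm]; exact hcd) huw with h | h
          · exact Or.inl h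
          · exact Or.inr (Or.inr (Or.inl h))
      have hwalk : ∀ u w : V, R.Walk u w → u ∈ ({a, b, c, d} : Finset V) →
          w ∈ ({a, b, c, d} : Finset V) := by
        intro u w q
        induction q with
        | nil => exact id
        | cons h _ ih => exact fun hu => ih (hcl _ _ hu h)
      exact hwalk _ _ q (by simp)
    have hne1 : ∀ u w, G.dist u w = 4 → u ≠ w := by
      rintro u w h rfl
      simp at h
    have hcard4 : ({a, b, c, d} : Finset V).card = 4 := by
      rw [card_insert_of_notMem, card_insert_of_notMem, card_insert_of_notMem, card_singleton]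
      · simp [hne1 _ _ hcd]
      · simp [hne1 _ _ hbc, hbd]
      · simp [hne1 _ _ hab, hac, (hne1 _ _ hde).symm]
    have hsub' : ({a, b, c, d} : Finset V) ⊆ K a := by
      have r1 : R.Reachable a b := SimpleGraph.Adj.reachable hab
      have r2 : R.Reachable a c := r1.trans (SimpleGraph.Adj.reachable hbc)
      have r3 : R.Reachable a d := r2.trans (SimpleGraph.Adj.reachable hcd)
      intro z hz
      simp only [mem_insert, mem_singleton] at hz
      simp only [K, mem_filter, mem_univ, true_and]
      rcases hz with rfl | rfl | rfl | rfl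
      · exact SimpleGraph.Reachable.refl _
      · exact r1
      · exact r2
      · exact r3
    have h5 : K a = {a, b, c, d} := Subset.antisymm hsub hsub'
    have h6 := hKdvd a
    rw [h5, hcard4] at h6
    exact absurd h6 (by decide)
  -- the components have at least six vertices
  have hbig : ∀ x, (K x).card = 15 := by
    intro c0
    obtain ⟨c1, h01⟩ : ∃ c1, G.dist c0 c1 = 4 := by
      have h5 : 0 < (univ.filter fun y => G.dist c0 y = 4).card := by rw [h4]; norm_num
      obtain ⟨z, hz⟩ := card_pos.1 h5
      simp only [mem_filter, mem_univ, true_and] at hz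
      exact ⟨z, hz⟩
    have hnext : ∀ a b, G.dist a b = 4 → ∃ c, a ≠ c ∧ G.dist b c = 4 ∧ G.dist a c = 1 := by
      intro a b hab
      obtain ⟨c, hca, hbc⟩ := hother b a (by rw [SimpleGraph.dist_comm]; exact hab)
      refine ⟨c, hca.symm, hbc, ?_⟩
      rw [SimpleGraph.dist_eq_one_iff_adj]
      exact hadj b a c (by rw [SimpleGraph.dist_comm]; exact hab) hbc hca.symm
    obtain ⟨c2, n02, h12, d02⟩ := hnext _ _ h01
    obtain ⟨c3, n13, h23, d13⟩ := hnext _ _ h12
    obtain ⟨c4, n24, h34, d24⟩ := hnext _ _ h23
    obtain ⟨c5, n35, h45, d35⟩ := hnext _ _ h34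
    have hne1 : ∀ u w, G.dist u w = 4 → u ≠ w := by
      rintro u w h rfl
      simp at h
    have n04 := hfour c0 c1 c2 c3 c4 h01 h12 h23 h34 n02 n13 n24
    have n15 := hfour c1 c2 c3 c4 c5 h12 h23 h34 h45 n13 n24 n35
    have n3 : ∀ a b d, G.dist a b = 4 → G.dist b d = 1 → a ≠ d := by
      rintro a b d hab hbd rfl
      rw [SimpleGraph.dist_comm] at hab
      omega
    have n03 := n3 _ _ _ h01 d13
    have n14 := n3 _ _ _ h12 d24
    have n25 := n3 _ _ _ h23 d35
    have n05 : c0 ≠ c5 := by
      rintro rfl
      have e1 : G.dist c0 c4 ≤ G.dist c0 c2 + G.dist c2 c4 := hG.dist_triangle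
      rw [SimpleGraph.dist_comm] at h45
      omega
    have r1 : R.Reachable c0 c1 := SimpleGraph.Adj.reachable h01
    have r2 : R.Reachable c0 c2 := r1.trans (SimpleGraph.Adj.reachable h12)
    have r3 : R.Reachable c0 c3 := r2.trans (SimpleGraph.Adj.reachable h23)
    have r4 : R.Reachable c0 c4 := r3.trans (SimpleGraph.Adj.reachable h34)
    have r5 : R.Reachable c0 c5 := r4.trans (SimpleGraph.Adj.reachable h45)
    have hsub : ({c0, c1, c2, c3, c4, c5} : Finset V) ⊆ K c0 := by
      intro z hz
      simp only [mem_insert, mem_singleton] at hz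
      simp only [K, mem_filter, mem_univ, true_and]
      rcases hz with rfl | rfl | rfl | rfl | rfl | rfl
      · exact SimpleGraph.Reachable.refl _
      · exact r1
      · exact r2
      · exact r3
      · exact r4
      · exact r5
    have hcard6 : ({c0, c1, c2, c3, c4, c5} : Finset V).card = 6 := by
      rw [card_insert_of_notMem, card_insert_of_notMem, card_insert_of_notMem,
        card_insert_of_notMem, card_insert_of_notMem, card_singleton]
      · simp [hne1 _ _ h45]
      · simp [hne1 _ _ h34, n35]
      · simp [hne1 _ _ h23, n24, n25]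
      · simp [hne1 _ _ h12, n13, n14, n15]
      · simp [hne1 _ _ h01, n02, n03, n04, n05]
    have h6 := card_le_card hsub
    rw [hcard6] at h6
    have h7 := hKdvd c0
    have h8 : (K c0).card ≤ 15 := Nat.le_of_dvd (by norm_num) h7
    generalize (K c0).card = m at h6 h7 h8
    interval_cases m <;> revert h7 <;> decide
  obtain ⟨x⟩ := hG.nonempty
  obtain ⟨y, hy⟩ : ∃ y, G.dist x y = 4 := by
    have h5 : 0 < (univ.filter fun y => G.dist x y = 4).card := by rw [h4]; norm_num
    obtain ⟨z, hz⟩ := card_pos.1 h5
    simp only [mem_filter, mem_univ, true_and] at hz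
    exact ⟨z, hz⟩
  obtain ⟨y', hyy', hy'⟩ := hother x y hy
  have hreach : ∀ v, R.Reachable x v := by
    intro v
    have h5 : K x = univ := by
      rw [← card_eq_iff_eq_univ, hbig, hcard]
    have h6 : v ∈ K x := by rw [h5]; exact mem_univ _
    simpa [K] using h6
  -- an automorphism which fixes `x` and `y` is trivial
  have htriv : ∀ φ : G ≃g G, φ x = x → φ y = y → φ = 1 := by
    intro φ hx hφy
    have hstep : ∀ u, φ u = u → ∀ a, G.dist u a = 4 → φ a = a → ∀ b, G.dist u b = 4 →
        φ b = b := by
      intro u hu a ha hφa b hb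
      by_cases hab : b = a
      · rw [hab]; exact hφa
      · have e1 : G.dist u (φ b) = 4 := by
          have := dist_iso hG φ u b
          rw [hu] at this
          rw [this]; exact hb
        rcases hthree u a b (φ b) (Ne.symm hab) ha hb e1 with h | h
        · exfalso
          apply hab
          apply φ.injective
          rw [h, hφa]
        · exact h
    have hwalk : ∀ u v : V, R.Walk u v → (φ u = u ∧ ∀ a, G.dist u a = 4 → φ a = a) →
        (φ v = v ∧ ∀ a, G.dist v a = 4 → φ a = a) := by
      intro u v q
      induction q with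
      | nil => exact id
      | @cons u w v h _ ih =>
        rintro ⟨hu, hua⟩
        apply ih
        have hw : φ w = w := hua w h
        exact ⟨hw, fun b hb => hstep w hw u (by rw [SimpleGraph.dist_comm]; exact h) hu b hb⟩
    ext v
    obtain ⟨q⟩ := hreach v
    exact (hwalk x v q ⟨hx, fun b hb => hstep x hx y hy hφy b hb⟩).1
  refine hasUPS_of_small_stab hG hT (by rw [Nat.card_eq_fintype_card, hcard]; decide) x ?_
  have : Finite (G ≃g G) :=
    Finite.of_injective (fun φ : G ≃g G => (φ : V → V)) DFunLike.coe_injective
  have hinj : Function.Injective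
      (fun φ : MulAction.stabilizer (G ≃g G) x => (decide ((φ : G ≃g G) y = y) : Bool)) := by
    intro φ ψ h
    have hφx : (φ : G ≃g G) x = x := φ.2
    have hψx : (ψ : G ≃g G) x = x := ψ.2
    have himg : ∀ χ : G ≃g G, χ x = x → χ y = y ∨ χ y = y' := by
      intro χ hχ
      have e1 : G.dist x (χ y) = 4 := by
        have := dist_iso hG χ x y
        rw [hχ] at this
        rw [this]; exact hy
      exact hthree x y y' (χ y) hyy'.symm hy hy' e1
    have hsame : (φ : G ≃g G) y = (ψ : G ≃g G) y := by
      have h5 : ((φ : G ≃g G) y = y) ↔ ((ψ : G ≃g G) y = y) := by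
        simpa using h
      rcases himg _ hφx with h1 | h1 <;> rcases himg _ hψx with h2 | h2
      · rw [h1, h2]
      · rw [h1, h5.1 h1]
      · rw [h2, h5.2 h2]
      · rw [h1, h2]
    have h6 : ((φ : G ≃g G)⁻¹ * (ψ : G ≃g G)) = 1 := by
      apply htriv
      · change (φ : G ≃g G).symm ((ψ : G ≃g G) x) = x
        rw [hψx]
        have h8 := (φ : G ≃g G).symm_apply_apply x
        rw [hφx] at h8
        exact h8
      · change (φ : G ≃g G).symm ((ψ : G ≃g G) y) = y
        rw [← hsame, (φ : G ≃g G).symm_apply_apply]
    exact Subtype.ext (inv_mul_eq_one.1 h6)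
  have h7 := Nat.card_le_card_of_injective _ hinj
  simpa using h7

end N15

end Pool.Agent.UPS
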