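import Pool.Agent.Lib.MP_876e19_co_ups.NBGlue

/-!
# `(d, n) = (5, 20)` by the general block (helper85, TT876)

A triangle-free graph with these parameters and diameter at least four is bipartite, and with a
triangle there is no parity loss.
-/

set_option autoImplicit false

open Finset Real

namespace Pool.Agent.UPS.Num

open Pool.Agent.UPS Pool.Agent.UPS.IB

lemma e5t20 {S L V ν : ℝ} (hS : S ≤ 5 * (20 - 2) / 5)
    (hL : L ≤ 2 * (20 - 5) / 2) (hV0 : 0 < V) (hV : V ≤ VW S L 5 5 0)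
    (hν : (Wd 20 5 5 - 0) / 2 ≤ ν) :
    Q 20 5 (4 * (ν ^ 2 + ν / 5) / (9 * V)) ≤ exp (16 / 25) ∧
      Q 20 5 (4 * (ν ^ 2 - ν / 5) / (9 * V)) ≤ exp (16 / 25) := by
  have hW : (Wd 20 5 5 - 0) / 2 = 81 / 40 := by
    unfold Wd
    norm_num
  rw [hW] at hν
  have key : ∀ μ₂ : ℝ, (81 / 40 : ℝ) ^ 2 - (81 / 40) / 5 ≤ μ₂ →
      Q 20 5 (4 * μ₂ / (9 * V)) ≤ exp (16 / 25) := by
    intro μ₂ hμ₂
    refine fixd2 (by norm_num : 4 ≤ 5) (c := 507 / 100) (ℓ := 16 / 25) hV0
      (hV.trans (VW_le (ε₁ := 1 / 1000) (ε₂ := 1 / 8) hS hL (by norm_num) (by norm_num)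
        (by norm_num) le_rfl (by norm_num) (by norm_num) (by norm_num) (by norm_num)))
      (M := (81 / 40) ^ 2 - (81 / 40) / 5) hμ₂ (by norm_num) ?_ ?_
    · norm_num
    · have h : (157 : ℝ) ≤ exp (507 / 100) :=
        (by norm_num [Finset.sum_range_succ, Nat.factorial] :
          (157 : ℝ) ≤ ∑ i ∈ Finset.range 12, (507 / 100 : ℝ) ^ i / i.factorial).trans
          (sum_le_exp_of_nonneg (by norm_num) 12)
      push_cast
      linarith
  exact ⟨key _ (by nlinarith), key _ (by nlinarith)⟩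

theorem num_520 {S L ν co ci : ℝ} (hS : S ≤ 18) (hL : L ≤ 15) (hν : Wd 20 5 5 / 2 ≤ ν)
    (hco : 24 ≤ co) (hci : 28 ≤ ci) : totE 20 5 5 S L ν co ci < 2 := by
  have h0 := W_pos S L 5 5 (by norm_num)
  have hV : W1 S 5 5 + W2 L 5 ≤ VW S L 5 5 0 := by
    have := (VW_eq S L 5 5).le
    norm_num at this ⊢
    exact this
  have a := e5t20 (ν := ν) (S := S) (L := L) (by norm_num; linarith) (by norm_num; linarith)
    h0 hV (by linarith)
  have b := s5 (S := S) (L := L) (n := 20) le_rfl (by norm_num; linarith) (by norm_num; linarith)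
    (co := co) (ci := ci) (by norm_num; linarith) (by norm_num; linarith)
  have a' : Q 20 5 (4 * (ν ^ 2 + ν / (5 : ℕ)) / (9 * (W1 S (5 : ℕ) (5 : ℕ) + W2 L (5 : ℕ)))) ≤
        exp (16 / 25) ∧
      Q 20 5 (4 * (ν ^ 2 - ν / (5 : ℕ)) / (9 * (W1 S (5 : ℕ) (5 : ℕ) + W2 L (5 : ℕ)))) ≤
        exp (16 / 25) := by
    push_cast
    exact a
  exact totE_lt a' b (by linarith [exp_1625'])

end Pool.Agent.UPS.Num

namespace Pool.Agent.UPS.Asm

open Pool.Agent.UPS Pool.Agent.UPS.Atoms Pool.Agent.UPS.IB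

/-- `(d, n) = (5, 20)` -/
theorem case_5_20 : SmallCase 5 20 := by
  intro V _ _ G _ hG hT hodd hTF hdist hreg hcard
  obtain ⟨x, y, hxy⟩ := hdist
  have hdg := dg_of_reg hreg
  have htri : ∃ u z w, G.Adj u z ∧ G.Adj z w ∧ G.Adj u w := by
    by_contra htri
    have h := Top.four_d (by omega) (degree_of_reg hreg)
      (fun a b c hab hbc hac => htri ⟨a, b, c, hab, hbc, hac⟩) hxy
    obtain ⟨side, hside⟩ := h.2 hcard
    obtain ⟨v, p, hp⟩ := hodd
    have key : ∀ (u w : V) (q : G.Walk u w), (side u = side w ↔ Even q.length) := by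
      intro u w q
      induction q with
      | nil => simp
      | cons h q ih =>
        rw [SimpleGraph.Walk.length_cons, Nat.even_add_one, ← ih]
        have := hside _ _ h
        rename_i a b c
        cases h1 : side a <;> cases h2 : side b <;> cases h3 : side c <;> simp_all
    have h5 := (key v v p).1 rfl
    exact (Nat.not_even_iff_odd.2 hp) h5
  have hlow : Lower G 5 := tf_five hG hT hreg hTF
  obtain ⟨M₀⟩ := Lev.exists_sys hG hT hreg hlow le_rfl
  obtain ⟨M, hL, hS⟩ := exists_short_sys M₀ (j := 5) (by norm_num) le_rfl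
  have hR : (Fintype.card V : ℝ) = 20 := by exact_mod_cast hcard
  refine NB.nonbip_even hG hodd hT (by norm_num) hdg (by norm_num) le_rfl M hL hS ?_ ?_
    (by rw [hcard]; decide) (κ := 0) (Or.inr ⟨rfl, htri⟩) ?_ ?_ rfl ?_ ?_
  · rw [hR]; norm_num
  · rw [hR]; norm_num
  · rw [hR]; norm_num
  · rw [hR]; norm_num
  · rw [hR]; unfold Num.Wd; norm_num
  · have h := Num.num_520 (S := (5 : ℕ) * ((Fintype.card V : ℝ) - 2) / (5 : ℕ))
      (L := 2 * ((Fintype.card V : ℝ) - (5 : ℕ)) / (((5 : ℕ) : ℝ) - (5 : ℕ) + 2))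
      (ν := (Num.Wd (Fintype.card V) (5 : ℕ) (5 : ℕ) - 0) / 2)
      (co := 2 * ((Fintype.card V : ℝ) - ((5 : ℕ) + 3))) (ci := 2 * ((Fintype.card V : ℝ) - 6))
      (by rw [hR]; norm_num) (by rw [hR]; norm_num) (by rw [hR]; norm_num)
      (by rw [hR]; norm_num) (by rw [hR]; norm_num)
    unfold Num.totE at h
    rw [hcard]
    rw [hcard] at h
    exact h

/-- **Every finite connected vertex-transitive graph has a uniform path system.** -/
theorem all_graphs (V : Type) [Finite V] (G : SimpleGraph V) (hG : G.Connected) (hT : VT G) :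
    HasUPS G := final_of nblock case_5_20 V G hG hT

end Pool.Agent.UPS.Asm
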