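import Pool.Agent.Lib.MP_876e19_co_ups.SignedSum2
import Pool.Agent.Lib.MP_876e19_co_ups.DoubleCover

/-!
# The signed cut sum of a connected non-bipartite vertex-transitive graph (helper39)

`signed_sum_VT`: `G` connected, vertex-transitive, of valency `d`, with an odd closed walk; then the
sum over all `y : V → {-1,0,1}` of `exp (-t #{edges uw : y u + y w ≠ 0})` is at most
`(1 + 2 d x^(d-1) + (8 - 2 d) x^d)^(n/2)`, `x = exp (-t)`. Sums over edges are written as one half
of the sums over ordered adjacent pairs.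
-/

set_option autoImplicit false

namespace Pool.Agent.UPS.SignedSum

open Finset Real Classical
open Pool.Agent.UPS2 Pool.Agent.UPS2.EC

variable {V : Type*} [Fintype V] {G : SimpleGraph V}

/-- the cut of the double cover which belongs to a sign function -/
lemma abs_sum_eq (y : V → SignType) :
    ∑ p : V × V, (if G.Adj p.1 p.2 then (1 / 2 : ℝ) else 0) *
      |((y p.1 : SignType) : ℝ) + y p.2| =
      (cut (DC G) (SY fun v => ((y v : SignType) : ℤ)) : ℝ) := by
  have h := L1_eq (G := G) (fun v => ((y v : SignType) : ℤ)) (fun v => by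
    rcases y v with _ | _ | _ <;> simp)
  have h2 : ((L1 G fun v => ((y v : SignType) : ℤ) : ℤ) : ℝ) =
      2 * (cut (DC G) (SY fun v => ((y v : SignType) : ℤ)) : ℝ) := by
    rw [h]; push_cast; ring
  have h3 : ((L1 G fun v => ((y v : SignType) : ℤ) : ℤ) : ℝ) =
      ∑ p : V × V, if G.Adj p.1 p.2 then |((y p.1 : SignType) : ℝ) + y p.2| else 0 := by
    unfold L1
    push_cast
    refine Finset.sum_congr rfl fun p _ => ?_
    split_ifs
    · rcases y p.1 with _ | _ | _ <;> rcases y p.2 with _ | _ | _ <;> simp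
    · rfl
  have h4 : ∑ p : V × V, (if G.Adj p.1 p.2 then (1 / 2 : ℝ) else 0) *
      |((y p.1 : SignType) : ℝ) + y p.2| =
      1 / 2 * ∑ p : V × V, (if G.Adj p.1 p.2 then |((y p.1 : SignType) : ℝ) + y p.2| else 0) := by
    rw [Finset.mul_sum]
    refine Finset.sum_congr rfl fun p _ => ?_
    split_ifs
    · rfl
    · simp
  rw [h4, ← h3, h2]
  ring

lemma SY_mirror (y : V → SignType) (v : V) (r : Bool)
    (h : (v, r) ∈ SY fun v => ((y v : SignType) : ℤ)) :
    (v, !r) ∉ SY fun v => ((y v : SignType) : ℤ) := by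
  intro h'
  cases r
  · rw [mem_SY_false] at h
    rw [Bool.not_false, mem_SY_true] at h'
    omega
  · rw [mem_SY_true] at h
    rw [Bool.not_true, mem_SY_false] at h'
    omega

lemma SY_of_ne (y : V → SignType) {v : V} (h : y v ≠ 0) :
    ∃ r, (v, r) ∈ SY fun v => ((y v : SignType) : ℤ) := by
  cases hy : y v
  · exact absurd hy h
  · exact ⟨false, (mem_SY_false _ _).2 (by simp [hy])⟩
  · exact ⟨true, (mem_SY_true _ _).2 (by simp [hy])⟩

/-- every nonzero sign function: at least `d` -/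
theorem one_le_sum (hc : G.Connected) (hodd : OddW G) (hvt : VT G) {d : ℕ}
    (hd : ∀ v, dg G v = d) (y : V → SignType) (hy : y ≠ 0) :
    (d : ℝ) ≤ ∑ p : V × V, (if G.Adj p.1 p.2 then (1 / 2 : ℝ) else 0) *
      |((y p.1 : SignType) : ℝ) + y p.2| := by
  rw [abs_sum_eq]
  have hDd : ∀ v, dg (DC G) v = d := fun v => by
    obtain ⟨v, s⟩ := v; rw [DC_dg]; exact hd v
  obtain ⟨v, hv⟩ : ∃ v, y v ≠ 0 := by
    by_contra hcon
    push Not at hcon
    exact hy (funext hcon)
  obtain ⟨r, hr⟩ := SY_of_ne y hv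
  have h := edge_conn (DC_connected hc hodd) (DC_VT hvt) hDd
    (S := SY fun v => ((y v : SignType) : ℤ)) ⟨_, hr⟩ (fun h => by
      have := SY_mirror y v r hr
      rw [h] at this
      exact this (Finset.mem_univ _))
  exact_mod_cast h

/-- every sign function with two nonzero values: at least `2 d - 2` -/
theorem two_le_sum (hc : G.Connected) (hodd : OddW G) (hvt : VT G) {d : ℕ}
    (hd : ∀ v, dg G v = d) (y : V → SignType) (hy : ∃ u v, u ≠ v ∧ y u ≠ 0 ∧ y v ≠ 0) :
    2 * (d : ℝ) - 2 ≤ ∑ p : V × V, (if G.Adj p.1 p.2 then (1 / 2 : ℝ) else 0) *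
      |((y p.1 : SignType) : ℝ) + y p.2| := by
  rw [abs_sum_eq]
  have hDd : ∀ v, dg (DC G) v = d := fun v => by
    obtain ⟨v, s⟩ := v; rw [DC_dg]; exact hd v
  set S := SY fun v => ((y v : SignType) : ℤ) with hS
  by_cases hE : HasEdge (DC G) S
  · have hE' : ∃ a b, a ∉ S ∧ b ∉ S ∧ (DC G).Adj a b := by
      obtain ⟨⟨u, s⟩, hu, ⟨w, t⟩, hw, huw, hst⟩ := hE
      exact ⟨(u, !s), (w, !t), SY_mirror y u s hu, SY_mirror y w t hw, huw, fun h => hst (by
        change (!s) = (!t) at h
        change s = t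
        cases s <;> cases t <;> simp_all)⟩
    have h := edge_conn_out (DC_connected hc hodd) (DC_VT hvt) hDd DC_tri hE hE'
    have h2 : 2 * (d : ℝ) ≤ (cut (DC G) S : ℝ) + 2 := by exact_mod_cast h
    linarith
  · obtain ⟨u, v, huv, hu, hv⟩ := hy
    obtain ⟨r, hr⟩ := SY_of_ne y hu
    obtain ⟨s, hs⟩ := SY_of_ne y hv
    have hcard : 2 ≤ S.card := Finset.one_lt_card.2
      ⟨_, hr, _, hs, fun h => huv (congrArg Prod.fst h)⟩
    have hcut := cut_indep hDd hE
    have h2 : 2 * d ≤ cut (DC G) S := by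
      rw [hcut]; exact Nat.mul_le_mul_right d hcard
    have h3 : 2 * (d : ℝ) ≤ (cut (DC G) S : ℝ) := by exact_mod_cast h2
    linarith

/-- **signed cut sum of a non-bipartite vertex-transitive graph** -/
theorem signed_sum_VT (hc : G.Connected) (hodd : OddW G) (hvt : VT G) {d : ℕ} (hd1 : 1 ≤ d)
    (hd : ∀ v, dg G v = d) {t : ℝ} (ht : 0 ≤ t) :
    ∑ y : V → SignType, exp (-(t * ∑ p : V × V, if y p.1 = -y p.2 then 0 else
        if G.Adj p.1 p.2 then (1 / 2 : ℝ) else 0)) ≤
      √(1 + 2 * d * exp (-(t * (d - 1))) + (8 - 2 * d) * exp (-(t * d))) ^ Fintype.card V := by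
  have hd1' : (1 : ℝ) ≤ d := by exact_mod_cast hd1
  refine signed_sum2 (E := V × V) Prod.fst Prod.snd
    (fun p => if G.Adj p.1 p.2 then (1 / 2 : ℝ) else 0) ?_ ?_ hd1' ?_ ?_ ht
  · intro p
    split_ifs
    · norm_num
    · exact le_refl _
  · intro p hp
    split_ifs at hp with h
    · exact h.ne
    · exact absurd rfl hp
  · intro y hy
    exact one_le_sum hc hodd hvt hd y hy
  · intro y hy
    exact two_le_sum hc hodd hvt hd y hy

/-- union bound form: `y = 0` removed -/
theorem signed_sum_VT' (hc : G.Connected) (hodd : OddW G) (hvt : VT G) {d : ℕ} (hd1 : 1 ≤ d)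
    (hd : ∀ v, dg G v = d) {t : ℝ} (ht : 0 ≤ t)
    (hlt : √(1 + 2 * d * exp (-(t * (d - 1))) + (8 - 2 * d) * exp (-(t * d))) ^
      Fintype.card V < 2) :
    ∑ y : {y : V → SignType // y ≠ 0}, exp (-(t * ∑ p : V × V, if y.1 p.1 = -y.1 p.2 then 0 else
        if G.Adj p.1 p.2 then (1 / 2 : ℝ) else 0)) < 1 := by
  have h := (signed_sum_VT hc hodd hvt hd1 hd ht).trans_lt hlt
  have h2 : ∑ y : V → SignType, exp (-(t * ∑ p : V × V, if y p.1 = -y p.2 then 0 else
        if G.Adj p.1 p.2 then (1 / 2 : ℝ) else 0)) =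
      1 + ∑ y : {y : V → SignType // y ≠ 0}, exp (-(t * ∑ p : V × V,
        if y.1 p.1 = -y.1 p.2 then 0 else if G.Adj p.1 p.2 then (1 / 2 : ℝ) else 0)) := by
    rw [← Finset.sum_erase_add _ _ (Finset.mem_univ (0 : V → SignType)), add_comm]
    congr 1
    · simp
    · apply Finset.sum_subtype
      intro y
      simp
  rw [h2] at h
  linarith

end Pool.Agent.UPS.SignedSum
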