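import Pool.Agent.Lib.MP_876e19_co_ups.InvKills
import Pool.Agent.Lib.MP_876e19_co_ups.SignedSumG
import Pool.Agent.Lib.MP_876e19_co_ups.NumBase

/-!
# The cut tests of a non-bipartite graph (helper39, MP_876e19_co)

`exists_base`: the base with all tests `y : V → {-1,0,1}`, `y ≠ 0`, scale `τ y`, threshold `T y`.
`sum_A`, `sum_B`: the sums of the union bound (uniform threshold; pairing of `y` and `-y`).
-/

set_option autoImplicit false

namespace Pool.Agent.UPS.NB

open Finset Real Classical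
open Pool.Agent.UPS Pool.Agent.UPS.IB
open Pool.Agent.UPS2.EC (OddW dg cut)

variable {V : Type*} [Fintype V] {G : SimpleGraph V} {k : ℕ}

/-- the edge function of a sign function -/
noncomputable def zy (G : SimpleGraph V) (y : V → SignType) : Sym2 V → ℝ :=
  Sym2.lift ⟨fun a b => if G.Adj a b then ((y a : SignType) : ℝ) + y b else 0, fun a b => by
    beta_reduce
    by_cases h : G.Adj a b
    · rw [if_pos h, if_pos h.symm, add_comm]
    · rw [if_neg h, if_neg fun h' => h h'.symm]⟩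

omit [Fintype V] in
lemma zy_mk (y : V → SignType) (a b : V) :
    zy G y s(a, b) = if G.Adj a b then ((y a : SignType) : ℝ) + y b else 0 := rfl

omit [Fintype V] in
lemma zy_adj (y : V → SignType) {a b : V} (h : G.Adj a b) :
    zy G y s(a, b) = ((y a : SignType) : ℝ) + y b := by rw [zy_mk, if_pos h]

omit [Fintype V] in
lemma zy_of_not_mem (y : V → SignType) {e : Sym2 V} (he : e ∉ G.edgeSet) : zy G y e = 0 := by
  induction e with
  | _ a b => rw [zy_mk, if_neg fun h => he ((SimpleGraph.mem_edgeSet G).2 h)]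

omit [Fintype V] in
lemma zy_neg (y : V → SignType) (e : Sym2 V) : zy G (-y) e = - zy G y e := by
  induction e with
  | _ a b =>
    rw [zy_mk, zy_mk]
    split_ifs
    · simp only [Pi.neg_apply, SignType.coe_neg]; ring
    · rw [neg_zero]

/-- sums over edges as half the sums over ordered adjacent pairs -/
lemma sum_zy (y : V → SignType) (f : ℝ → ℝ) (hf : f 0 = 0) :
    ∑ e, f (zy G y e) = ∑ p : V × V, (if G.Adj p.1 p.2 then (1 / 2 : ℝ) else 0) *
      f (((y p.1 : SignType) : ℝ) + y p.2) := by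
  have h := sum_ordered (G := G) (fun e => f (zy G y e)) (fun e he => by
    simp only [zy_of_not_mem y he, hf])
  have h2 : ∑ p : V × V, (if G.Adj p.1 p.2 then (1 / 2 : ℝ) else 0) *
      f (((y p.1 : SignType) : ℝ) + y p.2) =
      1 / 2 * ∑ v, ∑ w, (if G.Adj v w then f (zy G y s(v, w)) else 0) := by
    rw [Fintype.sum_prod_type, Finset.mul_sum]
    refine Finset.sum_congr rfl fun v _ => ?_
    rw [Finset.mul_sum]
    refine Finset.sum_congr rfl fun w _ => ?_
    by_cases h : G.Adj v w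
    · simp only [if_pos h, zy_adj y h]
    · simp only [if_neg h, zero_mul, mul_zero]
  rw [h2, h]
  ring

/-- the cost: number of edges with `z ≠ 0` -/
noncomputable def cost (G : SimpleGraph V) (y : V → SignType) : ℝ :=
  ∑ p : V × V, if y p.1 = -y p.2 then 0 else if G.Adj p.1 p.2 then (1 / 2 : ℝ) else 0

lemma sign_add_eq_zero (s s' : SignType) : ((s : ℝ) + s' = 0) ↔ s = -s' := by
  rcases s with _ | _ | _ <;> rcases s' with _ | _ | _ <;> norm_num <;> decide

lemma cost_eq (y : V → SignType) :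
    cost G y = ∑ e, (if zy G y e = 0 then (0 : ℝ) else 1) := by
  have h := sum_zy (G := G) y (fun x => if x = 0 then (0 : ℝ) else 1) (by simp)
  have h' : ∑ e, (if zy G y e = 0 then (0 : ℝ) else 1) =
      ∑ p : V × V, (if G.Adj p.1 p.2 then (1 / 2 : ℝ) else 0) *
      (if ((y p.1 : SignType) : ℝ) + y p.2 = 0 then (0 : ℝ) else 1) := h
  rw [h']
  unfold cost
  refine Finset.sum_congr rfl fun p _ => ?_
  by_cases hp : y p.1 = -y p.2
  · rw [if_pos hp, if_pos ((sign_add_eq_zero _ _).2 hp), mul_zero]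
  · rw [if_neg hp, if_neg fun h0 => hp ((sign_add_eq_zero _ _).1 h0), mul_one]

lemma cost_neg (y : V → SignType) : cost G (-y) = cost G y := by
  rw [cost_eq, cost_eq]
  refine Finset.sum_congr rfl fun e _ => ?_
  rw [zy_neg]
  by_cases h : zy G y e = 0
  · rw [if_pos h, if_pos (by rw [h, neg_zero])]
  · rw [if_neg h, if_neg (by rwa [neg_eq_zero])]

omit [Fintype V] in
lemma zy_cases (y : V → SignType) (e : Sym2 V) :
    zy G y e = 0 ∨ |zy G y e| = 1 ∨ |zy G y e| = 2 := by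
  induction e with
  | _ a b =>
    rw [zy_mk]
    split_ifs
    · rcases y a with _ | _ | _ <;> rcases y b with _ | _ | _ <;> norm_num
    · left; rfl

omit [Fintype V] in
/-- the per-edge identity of the uniform scale -/
lemma edge_id (y : V → SignType) (e : Sym2 V) :
    2 / 9 * zy G y e ^ 2 - 2 / 3 * |zy G y e| = - (4 / 9) * (if zy G y e = 0 then (0 : ℝ) else 1) := by
  rcases zy_cases (G := G) y e with h | h | h
  · rw [h]; simp
  · have h0 : zy G y e ≠ 0 := by
      intro h0; rw [h0, abs_zero] at h; norm_num at h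
    rw [if_neg h0, ← sq_abs, h]; norm_num
  · have h0 : zy G y e ≠ 0 := by
      intro h0; rw [h0, abs_zero] at h; norm_num at h
    rw [if_neg h0, ← sq_abs, h]; norm_num

lemma sum_edge_id (y : V → SignType) :
    2 / 9 * ∑ e, zy G y e ^ 2 - 2 / 3 * ∑ e, |zy G y e| = - (4 / 9) * cost G y := by
  rw [cost_eq, Finset.mul_sum, Finset.mul_sum, Finset.mul_sum, ← Finset.sum_sub_distrib]
  exact Finset.sum_congr rfl fun e _ => edge_id y e

/-- `(8/9) cost * |z|₂² ≤ |z|₁²` -/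
lemma sq_ge (y : V → SignType) :
    8 / 9 * cost G y * ∑ e, zy G y e ^ 2 ≤ (∑ e, |zy G y e|) ^ 2 := by
  have h := SignedSum.l1_sq_ge (E := {p : V × V // G.Adj p.1 p.2}) (fun p => p.1.1)
    (fun p => p.1.2) y
  have conv : ∀ f : ℝ → ℝ, f 0 = 0 →
      ∑ p : {p : V × V // G.Adj p.1 p.2}, f (((y p.1.1 : SignType) : ℝ) + y p.1.2) =
      2 * ∑ e, f (zy G y e) := by
    intro f hf
    rw [sum_zy y f hf, Finset.mul_sum]
    have h1 : ∑ p ∈ (univ.filter fun p : V × V => G.Adj p.1 p.2),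
        f (((y p.1 : SignType) : ℝ) + y p.2) =
        ∑ p : {p : V × V // G.Adj p.1 p.2}, f (((y p.1.1 : SignType) : ℝ) + y p.1.2) :=
      Finset.sum_subtype (p := fun p : V × V => G.Adj p.1 p.2)
      (univ.filter fun p : V × V => G.Adj p.1 p.2) (fun p => by simp)
      (fun p => f (((y p.1 : SignType) : ℝ) + y p.2))
    rw [← h1, Finset.sum_filter]
    refine Finset.sum_congr rfl fun p _ => ?_
    split_ifs
    · ring
    · ring
  have c1 : (∑ p : {p : V × V // G.Adj p.1 p.2}, if y p.1.1 = -y p.1.2 then (0 : ℝ) else 1) =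
      2 * cost G y := by
    rw [cost_eq, ← conv (fun x => if x = 0 then (0 : ℝ) else 1) (by simp)]
    refine Finset.sum_congr rfl fun p _ => ?_
    by_cases hp : y p.1.1 = -y p.1.2
    · rw [if_pos hp, if_pos ((sign_add_eq_zero _ _).2 hp)]
    · rw [if_neg hp, if_neg fun h0 => hp ((sign_add_eq_zero _ _).1 h0)]
  have c2 := conv (fun x => x ^ 2) (by norm_num)
  have c3 := conv (fun x => |x|) (by norm_num)
  rw [c1, c2, c3] at h
  nlinarith

/-- the edge function of a nonzero sign function -/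
lemma abs_pos_of_ne (hc : G.Connected) (hodd : OddW G) (hvt : UPS2.EC.VT G) {d : ℕ} (hd1 : 1 ≤ d)
    (hd : ∀ v, dg G v = d) (y : V → SignType) (hy : y ≠ 0) : 0 < ∑ e, |zy G y e| := by
  rw [sum_zy y (fun x => |x|) (by norm_num)]
  have h := SignedSum.one_le_sum hc hodd hvt hd y hy
  have h2 : (1 : ℝ) ≤ d := by exact_mod_cast hd1
  linarith

lemma sq_pos_of_ne (hc : G.Connected) (hodd : OddW G) (hvt : UPS2.EC.VT G) {d : ℕ} (hd1 : 1 ≤ d)
    (hd : ∀ v, dg G v = d) (y : V → SignType) (hy : y ≠ 0) : 0 < ∑ e, zy G y e ^ 2 := by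
  have h1 := abs_pos_of_ne hc hodd hvt hd1 hd y hy
  obtain ⟨e, -, he⟩ := Finset.exists_ne_zero_of_sum_ne_zero h1.ne'
  have he' : zy G y e ≠ 0 := fun h => he (by rw [h, abs_zero])
  exact Finset.sum_pos' (fun e _ => sq_nonneg _) ⟨e, Finset.mem_univ _, by positivity⟩

/-- the union bound over the nonzero sign functions -/
lemma cost_sum (hc : G.Connected) (hodd : OddW G) (hvt : UPS2.EC.VT G) {d : ℕ} (hd1 : 1 ≤ d)
    (hd : ∀ v, dg G v = d) {t : ℝ} (ht : 0 ≤ t) :
    ∑ y : {y : V → SignType // y ≠ 0}, exp (-(t * cost G y.1)) ≤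
      Num.Q (Fintype.card V) d t - 1 := by
  have h := SignedSum.signed_sum_VT hc hodd hvt hd1 hd ht
  have h2 : ∑ y : V → SignType, exp (-(t * ∑ p : V × V, if y p.1 = -y p.2 then 0 else
        if G.Adj p.1 p.2 then (1 / 2 : ℝ) else 0)) =
      1 + ∑ y : {y : V → SignType // y ≠ 0}, exp (-(t * cost G y.1)) := by
    rw [← Finset.sum_erase_add _ _ (Finset.mem_univ (0 : V → SignType)), add_comm]
    congr 1
    · simp
    · apply Finset.sum_subtype
      intro y
      simp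
  rw [h2] at h
  unfold Num.Q
  linarith

/-- **uniform thresholds** -/
theorem sum_A (hc : G.Connected) (hodd : OddW G) (hvt : UPS2.EC.VT G) {d : ℕ} (hd1 : 1 ≤ d)
    (hd : ∀ v, dg G v = d) {X μ : ℝ} (hX : 0 < X) (hμ : 0 ≤ μ)
    (T : {y : V → SignType // y ≠ 0} → ℝ) (hT : ∀ y, μ * ∑ e, |zy G y.1 e| ≤ T y) :
    ∑ y : {y : V → SignType // y ≠ 0},
      exp (X * (∑ e, (2 * μ / (3 * X) * zy G y.1 e) ^ 2) / 2 - 2 * μ / (3 * X) * T y) ≤
      Num.Q (Fintype.card V) d (4 * μ ^ 2 / (9 * X)) - 1 := by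
  refine le_trans (Finset.sum_le_sum fun y _ => ?_)
    (cost_sum hc hodd hvt hd1 hd (t := 4 * μ ^ 2 / (9 * X)) (by positivity))
  rw [exp_le_exp]
  have h1 : ∑ e, (2 * μ / (3 * X) * zy G y.1 e) ^ 2 =
      (2 * μ / (3 * X)) ^ 2 * ∑ e, zy G y.1 e ^ 2 := by
    rw [Finset.mul_sum]
    exact Finset.sum_congr rfl fun e _ => by ring
  rw [h1]
  have h2 := sum_edge_id (G := G) y.1
  have h3 : 2 * μ / (3 * X) * (μ * ∑ e, |zy G y.1 e|) ≤ 2 * μ / (3 * X) * T y :=
    mul_le_mul_of_nonneg_left (hT y) (by positivity)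
  have h4 : X * ((2 * μ / (3 * X)) ^ 2 * ∑ e, zy G y.1 e ^ 2) / 2 -
      2 * μ / (3 * X) * (μ * ∑ e, |zy G y.1 e|) =
      μ ^ 2 / X * (2 / 9 * ∑ e, zy G y.1 e ^ 2 - 2 / 3 * ∑ e, |zy G y.1 e|) := by
    field_simp
    ring
  have h5 : -(4 * μ ^ 2 / (9 * X) * cost G y.1) = μ ^ 2 / X * (- (4 / 9) * cost G y.1) := by
    field_simp
  rw [h5, ← h2, ← h4]
  linarith

/-- the scale of the pairing -/
noncomputable def scale (G : SimpleGraph V) (X ν : ℝ) (y : V → SignType) : ℝ :=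
  ν * (∑ e, |zy G y e|) / (X * ∑ e, zy G y e ^ 2)

lemma scale_pos (hc : G.Connected) (hodd : OddW G) (hvt : UPS2.EC.VT G) {d : ℕ} (hd1 : 1 ≤ d)
    (hd : ∀ v, dg G v = d) {X ν : ℝ} (hX : 0 < X) (hν : 0 < ν) (y : V → SignType) (hy : y ≠ 0) :
    0 < scale G X ν y := by
  have h1 := abs_pos_of_ne hc hodd hvt hd1 hd y hy
  have h2 := sq_pos_of_ne hc hodd hvt hd1 hd y hy
  unfold scale
  positivity

omit [Fintype V] in
lemma neg_eq_zero_iff (y : V → SignType) : -y = 0 ↔ y = 0 := by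
  constructor
  · intro h
    have h2 : - -y = -0 := by rw [h]
    rw [neg_neg] at h2
    rw [h2]
    funext v
    rfl
  · intro h
    rw [h]
    funext v
    rfl

/-- `exp` of the two tests of a pair -/
lemma pair_le {X ν δ α α' A B a b N : ℝ} (hX : 0 < X) (hν : 0 < ν) (hνδ : 2 * δ ≤ ν)
    (hs : α + α' = 2 * ν) (hδ : |α - α'| ≤ 2 * δ) (hA : A = a + b) (ha : 0 ≤ a) (hb : 0 ≤ b)
    (hB : 0 < B) (hN : 8 / 9 * N * B ≤ A ^ 2) :
    exp (X * ((ν * A / (X * B)) ^ 2 * B) / 2 - ν * A / (X * B) * (α * a + α' * b)) +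
    exp (X * ((ν * A / (X * B)) ^ 2 * B) / 2 - ν * A / (X * B) * (α * b + α' * a)) ≤
    exp (-(4 * (ν ^ 2 + 2 * ν * δ) / (9 * X) * N)) +
      exp (-(4 * (ν ^ 2 - 2 * ν * δ) / (9 * X) * N)) := by
  have hδ0 : 0 ≤ δ := by
    have := abs_nonneg (α - α')
    linarith
  have hA0 : 0 ≤ A := by linarith
  set f : ℝ := A ^ 2 / B with hf
  have hfN : 8 / 9 * N ≤ f := by
    rw [hf, le_div_iff₀ hB]
    exact hN
  set w : ℝ := ν * A / (X * B) * ((α - α') / 2 * (a - b)) with hw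
  set W : ℝ := ν * δ * f / X with hW
  have e1 : X * ((ν * A / (X * B)) ^ 2 * B) / 2 - ν * A / (X * B) * (α * a + α' * b) =
      - (ν ^ 2 * f / (2 * X)) - w := by
    have h1 : α * a + α' * b = ν * A + (α - α') / 2 * (a - b) := by
      rw [hA]
      linear_combination (a + b) / 2 * hs
    rw [h1, hw, hf]
    field_simp
    ring
  have e2 : X * ((ν * A / (X * B)) ^ 2 * B) / 2 - ν * A / (X * B) * (α * b + α' * a) =
      - (ν ^ 2 * f / (2 * X)) + w := by
    have h1 : α * b + α' * a = ν * A - (α - α') / 2 * (a - b) := by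
      rw [hA]
      linear_combination (a + b) / 2 * hs
    rw [h1, hw, hf]
    field_simp
    ring
  have hwW : |w| ≤ |W| := by
    have hW0 : 0 ≤ W := by
      rw [hW, hf]; positivity
    have hq : 0 ≤ ν * A / (X * B) := by positivity
    rw [abs_of_nonneg hW0, hw, abs_mul, abs_mul, abs_of_nonneg hq, abs_div,
      abs_of_pos (by norm_num : (0 : ℝ) < 2)]
    have h1 : |a - b| ≤ A := by
      rw [abs_le]
      constructor <;> linarith
    have h2 : |α - α'| / 2 ≤ δ := by linarith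
    calc ν * A / (X * B) * (|α - α'| / 2 * |a - b|) ≤ ν * A / (X * B) * (δ * A) := by
          gcongr
      _ = W := by
          rw [hW, hf]
          field_simp
  have hcosh : exp w + exp (-w) ≤ exp W + exp (-W) := by
    have h1 := Real.cosh_le_cosh.2 hwW
    rw [Real.cosh_eq, Real.cosh_eq] at h1
    linarith
  rw [e1, e2]
  have e3 : exp (-(ν ^ 2 * f / (2 * X)) - w) + exp (-(ν ^ 2 * f / (2 * X)) + w) =
      exp (-(ν ^ 2 * f / (2 * X))) * (exp w + exp (-w)) := by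
    rw [sub_eq_add_neg, exp_add, exp_add]
    ring
  have e4 : exp (-(ν ^ 2 * f / (2 * X))) * (exp W + exp (-W)) =
      exp (-(4 * (ν ^ 2 + 2 * ν * δ) / (9 * X) * (9 / 8 * f))) +
      exp (-(4 * (ν ^ 2 - 2 * ν * δ) / (9 * X) * (9 / 8 * f))) := by
    rw [mul_add, ← exp_add, ← exp_add, add_comm]
    congr 2
    · rw [hW]; field_simp; ring
    · rw [hW]; field_simp; ring
  rw [e3]
  refine (mul_le_mul_of_nonneg_left hcosh (exp_pos _).le).trans ?_
  rw [e4]
  have hN' : N ≤ 9 / 8 * f := by linarith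
  have c1 : 0 ≤ 4 * (ν ^ 2 + 2 * ν * δ) / (9 * X) := by positivity
  have c2 : 0 ≤ 4 * (ν ^ 2 - 2 * ν * δ) / (9 * X) := by
    have : 0 ≤ ν ^ 2 - 2 * ν * δ := by nlinarith
    positivity
  refine add_le_add ?_ ?_
  · rw [exp_le_exp]
    have := mul_le_mul_of_nonneg_left hN' c1
    linarith
  · rw [exp_le_exp]
    have := mul_le_mul_of_nonneg_left hN' c2
    linarith

/-- **the pairing of `y` and `-y`** (helper81): different rooms `α`, `α'` on the two sides -/
theorem sum_B (hc : G.Connected) (hodd : OddW G) (hvt : UPS2.EC.VT G) {d : ℕ} (hd1 : 1 ≤ d)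
    (hd : ∀ v, dg G v = d) {X ν δ α α' : ℝ} (hX : 0 < X) (hν : 0 < ν) (hνδ : 2 * δ ≤ ν)
    (hs : α + α' = 2 * ν) (hδ : |α - α'| ≤ 2 * δ) :
    ∑ y : {y : V → SignType // y ≠ 0},
      exp (X * (∑ e, (scale G X ν y.1 * zy G y.1 e) ^ 2) / 2 - scale G X ν y.1 *
        (α * ∑ e, max (zy G y.1 e) 0 + α' * ∑ e, max (- zy G y.1 e) 0)) ≤
      (Num.Q (Fintype.card V) d (4 * (ν ^ 2 + 2 * ν * δ) / (9 * X)) +
        Num.Q (Fintype.card V) d (4 * (ν ^ 2 - 2 * ν * δ) / (9 * X))) / 2 - 1 := by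
  have hδ0 : 0 ≤ δ := by
    have := abs_nonneg (α - α')
    linarith
  set E : (V → SignType) → ℝ := fun y => exp (X * (∑ e, (scale G X ν y * zy G y e) ^ 2) / 2 -
    scale G X ν y * (α * ∑ e, max (zy G y e) 0 + α' * ∑ e, max (- zy G y e) 0)) with hE
  have hneg : ∑ y : {y : V → SignType // y ≠ 0}, E (-y.1) =
      ∑ y : {y : V → SignType // y ≠ 0}, E y.1 := by
    refine Fintype.sum_equiv ((Equiv.neg (V → SignType)).subtypeEquiv fun y =>
      not_congr (neg_eq_zero_iff y).symm) _ _ fun y => rfl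
  have hpair : ∀ y : {y : V → SignType // y ≠ 0}, E y.1 + E (-y.1) ≤
      exp (-(4 * (ν ^ 2 + 2 * ν * δ) / (9 * X) * cost G y.1)) +
      exp (-(4 * (ν ^ 2 - 2 * ν * δ) / (9 * X) * cost G y.1)) := by
    intro y
    have hA : ∑ e, |zy G y.1 e| = ∑ e, max (zy G y.1 e) 0 + ∑ e, max (- zy G y.1 e) 0 := by
      rw [← Finset.sum_add_distrib]
      refine Finset.sum_congr rfl fun e _ => ?_
      rcases le_total (zy G y.1 e) 0 with h | h
      · rw [abs_of_nonpos h, max_eq_right h, max_eq_left (by linarith)]; ring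
      · rw [abs_of_nonneg h, max_eq_left h, max_eq_right (by linarith)]; ring
    have h := pair_le (X := X) (ν := ν) (δ := δ) (α := α) (α' := α')
      (A := ∑ e, |zy G y.1 e|) (B := ∑ e, zy G y.1 e ^ 2) (a := ∑ e, max (zy G y.1 e) 0)
      (b := ∑ e, max (- zy G y.1 e) 0) (N := cost G y.1) hX hν hνδ hs hδ hA
      (Finset.sum_nonneg fun e _ => le_max_right _ _) (Finset.sum_nonneg fun e _ => le_max_right _ _)
      (sq_pos_of_ne hc hodd hvt hd1 hd y.1 y.2) (sq_ge y.1)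
    refine le_trans (le_of_eq ?_) h
    have e1 : ∀ s : ℝ, ∑ e, (s * zy G y.1 e) ^ 2 = s ^ 2 * ∑ e, zy G y.1 e ^ 2 := by
      intro s
      rw [Finset.mul_sum]
      exact Finset.sum_congr rfl fun e _ => by ring
    have e2 : scale G X ν (-y.1) = scale G X ν y.1 := by
      unfold scale
      simp only [zy_neg, abs_neg, neg_sq]
    have e3 : ∀ s : ℝ, ∑ e, (s * zy G (-y.1) e) ^ 2 = s ^ 2 * ∑ e, zy G y.1 e ^ 2 := by
      intro s
      rw [Finset.mul_sum]
      exact Finset.sum_congr rfl fun e _ => by rw [zy_neg]; ring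
    simp only [hE]
    rw [e1, e2, e3]
    simp only [zy_neg, neg_neg]
    rw [add_comm (α * ∑ e, max (- zy G y.1 e) 0)]
    unfold scale
    rw [add_comm (α' * ∑ e, max (zy G y.1 e) 0)]
  have h1 : ∑ y : {y : V → SignType // y ≠ 0}, (E y.1 + E (-y.1)) ≤
      ∑ y : {y : V → SignType // y ≠ 0},
      (exp (-(4 * (ν ^ 2 + 2 * ν * δ) / (9 * X) * cost G y.1)) +
      exp (-(4 * (ν ^ 2 - 2 * ν * δ) / (9 * X) * cost G y.1))) :=
    Finset.sum_le_sum fun y _ => hpair y
  rw [Finset.sum_add_distrib, Finset.sum_add_distrib, hneg] at h1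
  have c2 : 0 ≤ 4 * (ν ^ 2 - 2 * ν * δ) / (9 * X) := by
    have : 0 ≤ ν ^ 2 - 2 * ν * δ := by nlinarith
    positivity
  have h2 := cost_sum hc hodd hvt hd1 hd (t := 4 * (ν ^ 2 + 2 * ν * δ) / (9 * X)) (by positivity)
  have h3 := cost_sum hc hodd hvt hd1 hd c2
  change ∑ y : {y : V → SignType // y ≠ 0}, E y.1 ≤ _
  linarith

/-- **the base with all tests** -/
theorem exists_base [DecidableEq V] {d : ℕ} (hd : ∀ x, (G.neighborSet x).ncard = d)
    (hd3 : 3 ≤ d) (hk : 0 < k) (hkd : k ≤ d) (M : MSys G k) {L S : ℝ} (hL : PairLe M L)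
    (hS : SumLe M S) (hL2 : 2 ≤ L) (hSk : k < S) (τ T : (V → SignType) → ℝ)
    (hτ : ∀ y, y ≠ 0 → 0 < τ y)
    {m co ci : ℝ} (hm : ∀ e ∈ G.edgeSet, mEnd M e ≤ m) (hco : m < co) (hci : m < ci)
    (hlt : ∑ y : {y : V → SignType // y ≠ 0},
        exp ((W1 S k d + W2 L d) * (∑ e, (τ y.1 * zy G y.1 e) ^ 2) / 2 - τ y.1 * T y.1) +
      (Fintype.card V : ℝ) * d / 2 * (exp (- ((co - m) ^ 2 / (2 * (VE S L k d + 4)))) +
        exp (- ((ci - m) ^ 2 / (2 * (VE S L k d + 4))))) < 1) :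
    ∃ P : ∀ x y : V, G.Walk x y, Base k P ∧
      (∀ y : V → SignType, y ≠ 0 → ∑ e, (- zy G y e * kerr M P e +
        max (zy G y e) 0 / ((d : ℝ) - 1) * kend M P e) < T y) ∧
      ∀ u w, G.Adj u w → 2 * ((TS.outKill P u w + TS.outKill P w u : ℕ) : ℝ) < co ∧
        2 * ((TS.inKill P u w + TS.inKill P w u : ℕ) : ℝ) < ci := by
  obtain ⟨P, hB, h1, h2⟩ := cut_tests_kills hd hd3 hk hkd M hL hS hL2 hSk
    (Θ := {y : V → SignType // y ≠ 0}) (fun y e => τ y.1 * zy G y.1 e)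
    (fun y => τ y.1 * T y.1) hm hco hci hlt
  refine ⟨P, hB, fun y hy => ?_, h2⟩
  have h3 := h1 ⟨y, hy⟩
  have hτy := hτ y hy
  have h4 : ∑ e, (-(τ y * zy G y e) * kerr M P e +
      max (τ y * zy G y e) 0 / ((d : ℝ) - 1) * kend M P e) =
      τ y * ∑ e, (- zy G y e * kerr M P e +
        max (zy G y e) 0 / ((d : ℝ) - 1) * kend M P e) := by
    rw [Finset.mul_sum]
    refine Finset.sum_congr rfl fun e _ => ?_
    have h5 : max (τ y * zy G y e) 0 = τ y * max (zy G y e) 0 := by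
      rw [mul_max_of_nonneg _ _ hτy.le, mul_zero]
    rw [h5]
    ring
  simp only at h3
  rw [h4] at h3
  exact lt_of_mul_lt_mul_left h3 hτy.le

end Pool.Agent.UPS.NB
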