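import Pool.Agent.Lib.MP_876e19_co_ups.NumBase
import Pool.Agent.Lib.MP_876e19_co_ups.InvGswE

/-!
# Numerics: the single-edge kill terms, definitions (helper4, TT876)
-/

set_option autoImplicit false

namespace Pool.Agent.UPS.Num

open Real IB

lemma VW_eq (S L : ℝ) (k d : ℕ) :
    W1 S k d + W2 L d = VW S L k d (min (k : ℝ) ((d : ℝ) - k)) := rfl

/-- the two soft terms -/
noncomputable def soft (n d k : ℕ) (S L co ci : ℝ) : ℝ :=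
  (n : ℝ) * d / 2 *
    (exp (-((co - 4 * (n - 1 - d) / k) ^ 2 / (2 * (VE S L k d + 4)))) +
      exp (-((ci - 4 * (n - 1 - d) / k) ^ 2 / (2 * (VE S L k d + 4)))))

lemma sqrt_le_lin {A A' r : ℝ} (hA : A ≤ A') (hA' : 0 ≤ A') (hr : 0 < r) :
    √A ≤ (A' + r ^ 2) / (2 * r) := by
  refine (sqrt_le_sqrt hA).trans ?_
  rw [le_div_iff₀ (by positivity)]
  have h := sq_sqrt hA'
  nlinarith [sq_nonneg (√A' - r)]

lemma VE_le {S S' L L' m r₁ r₂ q : ℝ} {k d : ℕ} (hS : S ≤ S') (hL : L ≤ L') (hk : 0 < k)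
    (hkd : k ≤ d) (hd : 2 ≤ d) (hm : m = min (k : ℝ) ((d : ℝ) - k)) (hSk : (k : ℝ) ≤ S')
    (hL2 : 2 ≤ L') (hr₁ : 0 < r₁) (hr₂ : 0 < r₂) (hq : 0 ≤ q) (hqm : m / (k : ℝ) ^ 2 ≤ q ^ 2) :
    VE S L k d ≤ 2 * ((d : ℝ) - 1) *
      (q * (((2 * (S' - k) + 4 * m * (((d : ℝ) - 2) / (d - 1)) ^ 2) / (16 * (k : ℝ) ^ 2) +
        r₁ ^ 2) / (2 * r₁)) +
      ((L' - 2 + 4 * (((d : ℝ) - 2) / (d - 1)) ^ 2) / 16 + r₂ ^ 2) / (2 * r₂)) + q ^ 2 + 1 := by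
  have hkR : (0 : ℝ) < k := by exact_mod_cast hk
  have hdR : (2 : ℝ) ≤ d := by exact_mod_cast hd
  have hkdR : (k : ℝ) ≤ d := by exact_mod_cast hkd
  have hd1 : (0 : ℝ) < d - 1 := by linarith
  have hm0 : 0 ≤ m := by
    rw [hm]
    exact le_min hkR.le (by linarith)
  have h0 : √(m / (k : ℝ) ^ 2) ≤ q := by
    rw [← sqrt_sq hq]
    exact sqrt_le_sqrt hqm
  have h00 : 0 ≤ √(m / (k : ℝ) ^ 2) := sqrt_nonneg _
  unfold VE W1 W2
  rw [← hm]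
  rw [sqrt_sq (by positivity), sqrt_sq (by positivity)]
  have e1 : √((2 * (S - k) + 4 * m * (((d : ℝ) - 2) / (d - 1)) ^ 2) / (16 * (k : ℝ) ^ 2)) ≤
      ((2 * (S' - k) + 4 * m * (((d : ℝ) - 2) / (d - 1)) ^ 2) / (16 * (k : ℝ) ^ 2) +
        r₁ ^ 2) / (2 * r₁) := by
    refine sqrt_le_lin ?_ ?_ hr₁
    · refine div_le_div_of_nonneg_right ?_ (by positivity)
      linarith
    · have : 0 ≤ S' - k := by linarith
      positivity
  have e2 : √((L - 2 + 4 * (((d : ℝ) - 2) / (d - 1)) ^ 2) / 16) ≤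
      ((L' - 2 + 4 * (((d : ℝ) - 2) / (d - 1)) ^ 2) / 16 + r₂ ^ 2) / (2 * r₂) := by
    refine sqrt_le_lin ?_ ?_ hr₂
    · linarith
    · have : 0 ≤ L' - 2 := by linarith
      positivity
  set a := √((2 * (S - k) + 4 * m * (((d : ℝ) - 2) / (d - 1)) ^ 2) / (16 * (k : ℝ) ^ 2))
  set a' := ((2 * (S' - k) + 4 * m * (((d : ℝ) - 2) / (d - 1)) ^ 2) / (16 * (k : ℝ) ^ 2) +
        r₁ ^ 2) / (2 * r₁)
  set b := √((L - 2 + 4 * (((d : ℝ) - 2) / (d - 1)) ^ 2) / 16)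
  set b' := ((L' - 2 + 4 * (((d : ℝ) - 2) / (d - 1)) ^ 2) / 16 + r₂ ^ 2) / (2 * r₂)
  set w := √(m / (k : ℝ) ^ 2)
  have ha : 0 ≤ a := sqrt_nonneg _
  have e3 : (w * (a + w * (1 / (2 * ((d : ℝ) - 1)))) + (b + 1 / (2 * ((d : ℝ) - 1)))) *
      (2 * ((d : ℝ) - 1)) = 2 * (d - 1) * (w * a + b) + w ^ 2 + 1 := by
    field_simp
    ring
  rw [e3]
  have h1 : w * a ≤ q * a' := mul_le_mul h0 e1 ha hq
  have h2 : w ^ 2 ≤ q ^ 2 := pow_le_pow_left₀ h00 h0 2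
  have h3 : 2 * ((d : ℝ) - 1) * (w * a + b) ≤ 2 * (d - 1) * (q * a' + b') :=
    mul_le_mul_of_nonneg_left (by linarith) (by linarith)
  linarith

/-- one term -/
lemma term_le {N C c V P τ : ℝ} (hN : N ≤ τ * exp c) (hV : 0 ≤ V) (hVP : V ≤ P) (hc : 0 ≤ c)
    (hC : c * (2 * (P + 4)) ≤ C ^ 2) (hτ : 0 ≤ τ) :
    N * exp (-(C ^ 2 / (2 * (V + 4)))) ≤ τ := by
  have h1 : c ≤ C ^ 2 / (2 * (V + 4)) := by
    rw [le_div_iff₀ (by linarith)]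
    refine le_trans ?_ hC
    exact mul_le_mul_of_nonneg_left (by linarith) hc
  calc N * exp (-(C ^ 2 / (2 * (V + 4)))) ≤ τ * exp c * exp (-c) := by
        rcases le_total 0 N with hn | hn
        · exact mul_le_mul hN (exp_le_exp.2 (by linarith)) (exp_pos _).le (by positivity)
        · refine le_trans (mul_nonpos_of_nonpos_of_nonneg hn (exp_pos _).le) (by positivity)
    _ = τ := by rw [mul_assoc, ← exp_add]; simp

lemma VE_nonneg' (S L : ℝ) (k : ℕ) {d : ℕ} (hd : 1 ≤ d) : 0 ≤ VE S L k d := by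
  have : (1 : ℝ) ≤ d := by exact_mod_cast hd
  unfold VE
  have h1 : 0 ≤ 2 * ((d : ℝ) - 1) := by linarith
  positivity

end Pool.Agent.UPS.Num
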