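import Pool.Agent.Lib.MP_876e19_co_ups.EvenFinish
import Pool.Agent.Lib.MP_876e19_co_ups.NonBipTests
import Pool.Agent.Lib.MP_876e19_co_ups.NumSoftD

/-!
# Non-bipartite vertex-transitive graphs of valency `d ≥ 4`: the assembly (helper39, MP_876e19_co)

`nonbip_even`, `nonbip_odd`: a uniform path system from one numerical inequality.
-/

set_option autoImplicit false

namespace Pool.Agent.UPS.NB

open Finset Real Classical
open Pool.Agent.UPS Pool.Agent.UPS.IB
open Pool.Agent.UPS2.EC (OddW dg cut)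

variable {V : Type*} [Fintype V] {G : SimpleGraph V} {k : ℕ}

lemma dg_ncard (v : V) : dg G v = (G.neighborSet v).ncard := by
  unfold UPS2.EC.dg
  rw [sum_boole, Nat.cast_id, ← Set.ncard_coe_finset]
  congr 1
  ext w
  simp

/-- the constant room `C` of an edge -/
noncomputable def room (n d k : ℝ) : ℝ := (2 * n - 7 - 4 * (n - 1 - d) / k) / (d - 1) - 1 - 2 / d

lemma room_eq {n d k : ℝ} (hd : 1 < d) : room n d k = Num.Wd n d k := by
  have h1 : d - 1 ≠ 0 := by linarith
  have h2 : d ≠ 0 := by linarith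
  unfold room Num.Wd
  field_simp
  ring

/-- the loads with the corrected weights -/
lemma load_const (hT : VT G) (M : MSys G k) {d : ℕ} (hd : ∀ v, dg G v = d) :
    ∃ c₀ : ℝ, ∀ P : ∀ x y : V, G.Walk x y, Paths P → ∀ (K0 : ℝ) (v : V),
      (load P v : ℝ) + (∑ w, if G.Adj v w then K0 - kerr M P s(v, w) else 0) = c₀ + d * K0 := by
  obtain ⟨c₀, h⟩ := load_kerr hT M
  refine ⟨c₀, fun P hP K0 v => ?_⟩
  rw [h P hP v, sum_incident _ (fun e he => kerr_of_not_mem M P he)]
  have h1 : ∑ w, (if G.Adj v w then K0 - kerr M P s(v, w) else 0) =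
      (∑ w, if G.Adj v w then (1 : ℝ) else 0) * K0 -
        ∑ w, if G.Adj v w then kerr M P s(v, w) else 0 := by
    rw [Finset.sum_mul, ← Finset.sum_sub_distrib]
    refine Finset.sum_congr rfl fun w _ => ?_
    split_ifs
    · ring
    · ring
  have h2 : (∑ w, if G.Adj v w then (1 : ℝ) else 0) = d := by
    rw [← hd v]
    unfold UPS2.EC.dg
    push_cast
    refine Finset.sum_congr rfl fun w _ => ?_
    split_ifs <;> rfl
  rw [h1, h2]
  ring

/-- from the tests of the base to the tests of the finish -/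
theorem htest_of {d : ℕ} (M : MSys G k) (P : ∀ x y : V, G.Walk x y)
    (cap : V → V → ℝ) (K0 κ C : ℝ)
    (hcap : ∀ u w, G.Adj u w → C - kend M P s(u, w) / ((d : ℝ) - 1) ≤ cap u w)
    (y : V → SignType)
    (hF : ∑ e, (- zy G y e * kerr M P e + max (zy G y e) 0 / ((d : ℝ) - 1) * kend M P e) <
      (C - K0) * ∑ e, max (zy G y e) 0 + (K0 - κ) * ∑ e, max (- zy G y e) 0) :
    0 < ∑ p : V × V, if G.Adj p.1 p.2 then
      max (((y p.1 : SignType) : ℝ) + y p.2) 0 * (cap p.1 p.2 - (K0 - kerr M P s(p.1, p.2))) +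
      max (-(((y p.1 : SignType) : ℝ) + y p.2)) 0 * (K0 - kerr M P s(p.1, p.2) - κ) else 0 := by
  set f : Sym2 V → ℝ := fun e => (C - K0) * max (zy G y e) 0 + (K0 - κ) * max (- zy G y e) 0 -
    (- zy G y e * kerr M P e + max (zy G y e) 0 / ((d : ℝ) - 1) * kend M P e) with hf
  have h1 : 0 < ∑ e, f e := by
    simp only [hf]
    rw [Finset.sum_sub_distrib, Finset.sum_add_distrib, ← Finset.mul_sum, ← Finset.mul_sum]
    linarith
  have h2 := sum_ordered (G := G) f (fun e he => by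
    simp only [hf, zy_of_not_mem y he]
    simp)
  have h3 : ∑ v, ∑ w, (if G.Adj v w then f s(v, w) else 0) =
      ∑ p : V × V, if G.Adj p.1 p.2 then f s(p.1, p.2) else 0 := by
    rw [Fintype.sum_prod_type]
  have h4 : 0 < ∑ p : V × V, if G.Adj p.1 p.2 then f s(p.1, p.2) else 0 := by
    rw [← h3, h2]
    linarith
  refine h4.trans_le (Finset.sum_le_sum fun p _ => ?_)
  by_cases hp : G.Adj p.1 p.2
  · rw [if_pos hp, if_pos hp]
    simp only [hf, zy_adj y hp]
    set z : ℝ := ((y p.1 : SignType) : ℝ) + y p.2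
    have e1 : z = max z 0 - max (-z) 0 := by
      rcases le_total z 0 with h3 | h3
      · rw [max_eq_right h3, max_eq_left (by linarith)]
        ring
      · rw [max_eq_left h3, max_eq_right (by linarith)]
        ring
    have e2 : 0 ≤ max z 0 := le_max_right _ _
    have e3 := mul_le_mul_of_nonneg_left (hcap p.1 p.2 hp) e2
    have e4 : (C - K0) * max z 0 + (K0 - κ) * max (-z) 0 -
        (-z * kerr M P s(p.1, p.2) + max z 0 / ((d : ℝ) - 1) * kend M P s(p.1, p.2)) =
        max z 0 * (C - kend M P s(p.1, p.2) / ((d : ℝ) - 1)) - max z 0 * K0 +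
        (K0 - κ) * max (-z) 0 + (max z 0 - max (-z) 0) * kerr M P s(p.1, p.2) := by
      rw [← e1]
      ring
    rw [e4]
    nlinarith
  · rw [if_neg hp, if_neg hp]

/-- the available rows of an edge -/
noncomputable def av1 [DecidableEq V] (P : ∀ x y : V, G.Walk x y) (u w : V) : ℕ :=
  Fintype.card V - 2 - (TS.outKill P u w + TS.outKill P w u)

noncomputable def av2 [DecidableEq V] (P : ∀ x y : V, G.Walk x y) (u w : V) : ℕ :=
  Fintype.card V - 4 - (TS.inKill P u w + TS.inKill P w u)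

lemma av1_symm [DecidableEq V] (P : ∀ x y : V, G.Walk x y) (u w : V) : av1 P u w = av1 P w u := by
  unfold av1
  rw [add_comm (TS.outKill P u w)]

lemma av2_symm [DecidableEq V] (P : ∀ x y : V, G.Walk x y) (u w : V) : av2 P u w = av2 P w u := by
  unfold av2
  rw [add_comm (TS.inKill P u w)]

/-- the capacities -/
lemma cap_ge [DecidableEq V] {d : ℕ} (hd3 : 3 ≤ d) (M : MSys G k)
    {P : ∀ x y : V, G.Walk x y} (hB : Base k P) {m : ℝ} (hm : ∀ e ∈ G.edgeSet, mEnd M e ≤ m)
    {u w : V} (h : G.Adj u w) (h1 : 3 + (TS.outKill P u w + TS.outKill P w u) ≤ Fintype.card V)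
    (h2 : 5 + (TS.inKill P u w + TS.inKill P w u) ≤ Fintype.card V) :
    (2 * (Fintype.card V : ℝ) - 7 - m) / ((d : ℝ) - 1) - 1 - 2 / d -
      kend M P s(u, w) / ((d : ℝ) - 1) ≤
      ((av1 P u w : ℝ) + av2 P u w - 1) / ((d : ℝ) - 1) - 1 - 2 / d := by
  have hd1 : (0 : ℝ) < (d : ℝ) - 1 := by
    have : (3 : ℝ) ≤ d := by exact_mod_cast hd3
    linarith
  have e1 : (av1 P u w : ℝ) = Fintype.card V - 2 - (TS.outKill P u w + TS.outKill P w u : ℕ) := by
    unfold av1
    rw [Nat.cast_sub (by omega), Nat.cast_sub (by omega)]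
    push_cast
    ring
  have e2 : (av2 P u w : ℝ) = Fintype.card V - 4 - (TS.inKill P u w + TS.inKill P w u : ℕ) := by
    unfold av2
    rw [Nat.cast_sub (by omega), Nat.cast_sub (by omega)]
    push_cast
    ring
  have e3 := kills_eq hB h
  have e4 := hm s(u, w) ((SimpleGraph.mem_edgeSet G).2 h)
  have e5 : kend M P s(u, w) = endc P s(u, w) - mEnd M s(u, w) := rfl
  have e6 : (2 * (Fintype.card V : ℝ) - 7 - m - kend M P s(u, w)) / ((d : ℝ) - 1) ≤
      ((av1 P u w : ℝ) + av2 P u w - 1) / ((d : ℝ) - 1) := by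
    apply div_le_div_of_nonneg_right _ hd1.le
    rw [e1, e2, e5, ← e3]
    push_cast
    linarith
  have e7 : (2 * (Fintype.card V : ℝ) - 7 - m - kend M P s(u, w)) / ((d : ℝ) - 1) =
      (2 * (Fintype.card V : ℝ) - 7 - m) / ((d : ℝ) - 1) - kend M P s(u, w) / ((d : ℝ) - 1) := by
    ring
  linarith

/-- the test of a single vertex: the corrected degree is positive -/
lemma deg_pos {d : ℕ} (M : MSys G k) (P : ∀ x y : V, G.Walk x y)
    {K0 κ α : ℝ} (hκ : 0 ≤ κ) (v : V)
    (hF : ∑ e, (- zy G (fun x => if x = v then -1 else 0) e * kerr M P e +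
      max (zy G (fun x => if x = v then -1 else 0) e) 0 / ((d : ℝ) - 1) * kend M P e) <
      α * ∑ e, max (zy G (fun x => if x = v then -1 else 0) e) 0 +
      (K0 - κ) * ∑ e, max (- zy G (fun x => if x = v then -1 else 0) e) 0) :
    0 < ∑ w, if G.Adj v w then K0 - kerr M P s(v, w) else 0 := by
  set y : V → SignType := fun x => if x = v then -1 else 0 with hy
  have hz : ∀ a b, G.Adj a b → zy G y s(a, b) = - (if v ∈ s(a, b) then (1 : ℝ) else 0) := by
    intro a b h
    rw [zy_adj y h]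
    have hne := h.ne
    by_cases h1 : a = v
    · subst h1
      have h2 : b ≠ a := fun h2 => hne h2.symm
      simp [hy, h2]
    · by_cases h2 : b = v
      · subst h2
        simp [hy, h1]
      · have h3 : ¬ (v = a ∨ v = b) := by
          rintro (h3 | h3)
          · exact h1 h3.symm
          · exact h2 h3.symm
        simp [hy, h1, h2, h3]
  have hz' : ∀ e, zy G y e = - (if e ∈ G.edgeSet ∧ v ∈ e then (1 : ℝ) else 0) := by
    intro e
    induction e with
    | _ a b =>
      by_cases h : G.Adj a b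
      · rw [hz a b h]
        simp only [SimpleGraph.mem_edgeSet, h, true_and]
      · rw [zy_mk, if_neg h, if_neg (fun h' => h h'.1), neg_zero]
  have hmax : ∀ e, max (zy G y e) 0 = 0 := by
    intro e
    rw [hz' e]
    split_ifs <;> simp
  have hmax' : ∀ e, max (- zy G y e) 0 = if e ∈ G.edgeSet ∧ v ∈ e then (1 : ℝ) else 0 := by
    intro e
    rw [hz' e]
    split_ifs <;> simp
  have key : ∀ g : Sym2 V → ℝ, ∑ e, (if e ∈ G.edgeSet ∧ v ∈ e then g e else 0) =
      ∑ w, if G.Adj v w then g s(v, w) else 0 := by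
    intro g
    have h1 := sum_incident (G := G) (fun e => if e ∈ G.edgeSet then g e else 0)
      (fun e he => if_neg he) v
    rw [Finset.sum_filter] at h1
    have h2 : ∑ e, (if e ∈ G.edgeSet ∧ v ∈ e then g e else 0) =
        ∑ e, if v ∈ e then (if e ∈ G.edgeSet then g e else 0) else 0 := by
      refine Finset.sum_congr rfl fun e _ => ?_
      by_cases h3 : v ∈ e <;> by_cases h4 : e ∈ G.edgeSet <;> simp [h3, h4]
    rw [h2, h1]
    refine Finset.sum_congr rfl fun w _ => ?_
    by_cases h3 : G.Adj v w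
    · rw [if_pos h3, if_pos h3, if_pos ((SimpleGraph.mem_edgeSet G).2 h3)]
    · rw [if_neg h3, if_neg h3]
  have e1 : ∑ e, (- zy G y e * kerr M P e + max (zy G y e) 0 / ((d : ℝ) - 1) * kend M P e) =
      ∑ w, if G.Adj v w then kerr M P s(v, w) else 0 := by
    rw [← key]
    refine Finset.sum_congr rfl fun e _ => ?_
    rw [hmax, hz']
    split_ifs <;> simp
  have e2 : ∑ e, max (zy G y e) 0 = 0 := Finset.sum_eq_zero fun e _ => hmax e
  have e3 : ∑ e, max (- zy G y e) 0 = ∑ w, if G.Adj v w then (1 : ℝ) else 0 := by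
    exact (Finset.sum_congr rfl fun e _ => hmax' e).trans (key fun _ => (1 : ℝ))
  rw [e1, e2, e3, mul_zero, zero_add] at hF
  have e4 : ∑ w, (if G.Adj v w then K0 - kerr M P s(v, w) else 0) =
      K0 * (∑ w, if G.Adj v w then (1 : ℝ) else 0) -
        ∑ w, if G.Adj v w then kerr M P s(v, w) else 0 := by
    rw [Finset.mul_sum, ← Finset.sum_sub_distrib]
    refine Finset.sum_congr rfl fun w _ => ?_
    split_ifs <;> ring
  have e5 : 0 ≤ ∑ w, if G.Adj v w then (1 : ℝ) else 0 :=
    Finset.sum_nonneg fun w _ => by split_ifs <;> norm_num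
  rw [e4]
  nlinarith [mul_nonneg hκ e5]

lemma X_pos (S L : ℝ) (k : ℕ) {d : ℕ} (hd3 : 3 ≤ d) : 0 < W1 S k d + W2 L d := by
  have hd1 : (0 : ℝ) < 2 * ((d : ℝ) - 1) := by
    have : (3 : ℝ) ≤ d := by exact_mod_cast hd3
    linarith
  unfold W1 W2
  have h1 : 0 < 1 / (2 * ((d : ℝ) - 1)) := by positivity
  have h2 := Real.sqrt_nonneg ((L - 2 + 4 * (((d : ℝ) - 2) / (d - 1)) ^ 2) / 16)
  have h3 : 0 < √((L - 2 + 4 * (((d : ℝ) - 2) / (d - 1)) ^ 2) / 16) + 1 / (2 * ((d : ℝ) - 1)) := by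
    linarith
  have h4 := sq_nonneg (√((2 * (S - k) + 4 * min (k : ℝ) ((d : ℝ) - k) *
    (((d : ℝ) - 2) / (d - 1)) ^ 2) / (16 * k ^ 2)) +
    √(min (k : ℝ) ((d : ℝ) - k) / k ^ 2) * (1 / (2 * ((d : ℝ) - 1))))
  have h5 : 0 < (√((L - 2 + 4 * (((d : ℝ) - 2) / (d - 1)) ^ 2) / 16) +
      1 / (2 * ((d : ℝ) - 1))) ^ 2 := by positivity
  linarith

lemma nontrivial_of_dg {d : ℕ} (hd3 : 3 ≤ d) (hc : G.Connected) (hd : ∀ v, dg G v = d) :
    Nontrivial V := by
  obtain ⟨v⟩ := hc.nonempty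
  by_contra h
  rw [not_nontrivial_iff_subsingleton] at h
  have h1 : dg G v = 0 := by
    unfold UPS2.EC.dg
    refine Finset.sum_eq_zero fun w _ => if_neg fun hw => hw.ne (Subsingleton.elim _ _)
  rw [hd v] at h1
  omega

/-- the mean number of ends of an edge -/
lemma mEnd_bound {d : ℕ} (hd3 : 3 ≤ d) (hc : G.Connected) (hd : ∀ v, dg G v = d) (M : MSys G k) :
    ∀ e ∈ G.edgeSet, mEnd M e ≤ 4 * ((Fintype.card V : ℝ) - 1 - d) / k := by
  intro e he
  have := nontrivial_of_dg hd3 hc hd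
  have hd' : ∀ x, (G.neighborSet x).ncard = d := fun x => by rw [← dg_ncard, hd]
  have h1 := succ_le_card hd' Fintype.one_lt_card
  induction e with
  | _ u w =>
    have huw : u ≠ w := ((SimpleGraph.mem_edgeSet G).1 he).ne
    have h2 := mEnd_le M hd' huw
    have h3 : ((Fintype.card V - 1 - d : ℕ) : ℝ) = (Fintype.card V : ℝ) - 1 - d := by
      rw [Nat.cast_sub (by omega), Nat.cast_sub (by omega), Nat.cast_one]
    rw [h3] at h2
    exact h2

/-- **non-bipartite, `n` even** -/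
theorem nonbip_even (hc : G.Connected) (hodd : OddW G) (hvt : VT G) {d : ℕ} (hd3 : 3 ≤ d)
    (hd : ∀ v, dg G v = d) (hk : 0 < k) (hkd : k ≤ d) (M : MSys G k) {L S : ℝ}
    (hL : PairLe M L) (hS : SumLe M S) (hL2 : 2 ≤ L) (hSk : k < S)
    (hn : Even (Fintype.card V)) {κ : ℝ}
    (hκ : κ = 1 / 2 ∨ (κ = 0 ∧ ∃ u z w, G.Adj u z ∧ G.Adj z w ∧ G.Adj u w))
    (hco : 4 * ((Fintype.card V : ℝ) - 1 - d) / k < 2 * ((Fintype.card V : ℝ) - (d + 3)))
    (hci : 4 * ((Fintype.card V : ℝ) - 1 - d) / k < 2 * ((Fintype.card V : ℝ) - 6))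
    {ν : ℝ} (hνe : ν = (Num.Wd (Fintype.card V) d k - κ) / 2) (hν : 1 / (d : ℝ) ≤ ν)
    (hnum : (Num.Q (Fintype.card V) d (4 * (ν ^ 2 + ν / d) / (9 * (W1 S k d + W2 L d))) +
      Num.Q (Fintype.card V) d (4 * (ν ^ 2 - ν / d) / (9 * (W1 S k d + W2 L d)))) / 2 +
      Num.soft (Fintype.card V) d k S L (2 * ((Fintype.card V : ℝ) - (d + 3)))
        (2 * ((Fintype.card V : ℝ) - 6)) < 2) : HasUPS G := by
  have hnt := nontrivial_of_dg hd3 hc hd
  have hd' : ∀ x, (G.neighborSet x).ncard = d := fun x => by rw [← dg_ncard, hd]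
  have hvt' : UPS2.EC.VT G := hvt
  have hdR : (3 : ℝ) ≤ d := by exact_mod_cast hd3
  have hd0 : (0 : ℝ) < d := by linarith
  have hX := X_pos S L k hd3
  set X : ℝ := W1 S k d + W2 L d with hXd
  set C : ℝ := Num.Wd (Fintype.card V) d k with hC
  have hκ0 : 0 ≤ κ := by
    rcases hκ with h | h
    · rw [h]; norm_num
    · rw [h.1]
  obtain ⟨c₀, hc₀⟩ := load_const hvt M hd
  set x : ℝ := (C + κ) * d / 2 + 2 + c₀ with hx
  set c : ℤ := round x with hcd
  set K0 : ℝ := (c - 2 - c₀) / d with hK0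
  have hround : |x - c| ≤ 1 / 2 := abs_sub_round x
  have hα : C - K0 + (K0 - κ) = 2 * ν := by rw [hνe]; ring
  have hδ : |C - K0 - (K0 - κ)| ≤ 2 * (1 / (2 * d)) := by
    have h1 : C - K0 - (K0 - κ) = 2 / d * (x - c) := by
      rw [hK0, hx]
      field_simp
      ring
    rw [h1, abs_mul, abs_of_pos (by positivity)]
    calc 2 / (d : ℝ) * |x - c| ≤ 2 / d * (1 / 2) := by gcongr
      _ = 2 * (1 / (2 * d)) := by ring
  have hν0 : 0 < ν := lt_of_lt_of_le (by positivity) hν
  have hsum := sum_B hc hodd hvt' (by omega : 1 ≤ d) hd hX hν0 (δ := 1 / (2 * d))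
    (by
      have : 2 * (1 / (2 * (d : ℝ))) = 1 / d := by field_simp
      rw [this]; exact hν) hα hδ
  have e2 : 2 * ν * (1 / (2 * (d : ℝ))) = ν / d := by field_simp
  rw [e2] at hsum
  obtain ⟨P, hB, hP, hkill⟩ := exists_base hd' hd3 hk hkd M hL hS hL2 hSk (scale G X ν)
    (fun y => (C - K0) * ∑ e, max (zy G y e) 0 + (K0 - κ) * ∑ e, max (- zy G y e) 0)
    (fun y hy => scale_pos hc hodd hvt' (by omega : 1 ≤ d) hd hX hν0 y hy)
    (mEnd_bound hd3 hc hd M) hco hci (by
      have h1 : (Fintype.card V : ℝ) * d / 2 *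
          (exp (- ((2 * ((Fintype.card V : ℝ) - (d + 3)) -
            4 * ((Fintype.card V : ℝ) - 1 - d) / k) ^ 2 / (2 * (VE S L k d + 4)))) +
          exp (- ((2 * ((Fintype.card V : ℝ) - 6) -
            4 * ((Fintype.card V : ℝ) - 1 - d) / k) ^ 2 / (2 * (VE S L k d + 4))))) =
          Num.soft (Fintype.card V) d k S L (2 * ((Fintype.card V : ℝ) - (d + 3)))
            (2 * ((Fintype.card V : ℝ) - 6)) := rfl
      rw [h1]
      linarith)
  have hko : ∀ u w, G.Adj u w → TS.outKill P u w + TS.outKill P w u + d + 3 < Fintype.card V ∧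
      TS.inKill P u w + TS.inKill P w u + 6 < Fintype.card V := by
    intro u w h
    obtain ⟨h1, h2⟩ := hkill u w h
    constructor
    · have h3 : ((TS.outKill P u w + TS.outKill P w u + d + 3 : ℕ) : ℝ) < Fintype.card V := by
        push_cast at h1 ⊢
        linarith
      exact_mod_cast h3
    · have h3 : ((TS.inKill P u w + TS.inKill P w u + 6 : ℕ) : ℝ) < Fintype.card V := by
        push_cast at h2 ⊢
        linarith
      exact_mod_cast h3
  have hload := hc₀ P hB.paths K0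
  have hdK : c₀ + d * K0 = c - 2 := by
    rw [hK0]
    field_simp
    ring
  obtain ⟨v⟩ := hc.nonempty
  have hcpos : (0 : ℤ) ≤ c := by
    have h1 := deg_pos M P (d := d) (α := C - K0) hκ0 v (hP _ (fun h => by
      have := congrFun h v
      simp at this))
    have h2 := hload v
    rw [hdK] at h2
    have h3 : (0 : ℝ) ≤ load P v := Nat.cast_nonneg _
    have h4 : (0 : ℝ) < c := by linarith
    exact_mod_cast h4.le
  have hcn : ((c.toNat : ℕ) : ℝ) = c := by
    have : ((c.toNat : ℤ) : ℝ) = c := by rw [Int.toNat_of_nonneg hcpos]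
    exact_mod_cast this
  refine UPS2.PM.even_finish P hB.paths hB.adj hd3 hd (fun S hS hS' => UPS2.EC.edge_conn hc hvt' hd
    hS hS') hn (av1 P) (av2 P) (av1_symm P) (av2_symm P) (fun u w h => ?_) (fun u w h => ?_)
    (fun u w h => ?_) (fun u w h => ?_) c.toNat (fun e => K0 - kerr M P e) (fun v => ?_) κ ?_
    (fun y hy => ?_)
  · have := (hko u w h).1
    unfold av1
    omega
  · have := (hko u w h).2
    unfold av2
    omega
  · have := (hko u w h).1
    unfold av1
    omega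
  · have := (hko u w h).2
    unfold av2
    omega
  · have h1 := hload v
    rw [hdK] at h1
    rw [hcn, h1]
    ring
  · rcases hκ with h | h
    · exact Or.inl ⟨h, hodd⟩
    · exact Or.inr h
  · refine htest_of M P (fun u w => ((av1 P u w : ℝ) + av2 P u w - 1) / ((d : ℝ) - 1) - 1 - 2 / d)
      K0 κ C (fun u w h => ?_) y (hP y hy)
    have h1 := hko u w h
    have h2 := cap_ge hd3 M hB (mEnd_bound hd3 hc hd M) h (by omega) (by omega)
    refine le_trans (le_of_eq ?_) h2
    rw [hC, ← room_eq (by linarith)]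
    rfl

end Pool.Agent.UPS.NB
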