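import Pool.Agent.Lib.MP_876e19_co_ups.NonBipMain

/-!
# Non-bipartite vertex-transitive graphs with an odd number of vertices (helper39, MP_876e19_co)

`nonbip_odd`: a uniform path system from one numerical inequality.
-/

set_option autoImplicit false

namespace Pool.Agent.UPS.NB

open Finset Real Classical
open Pool.Agent.UPS Pool.Agent.UPS.IB
open Pool.Agent.UPS2.EC (OddW dg cut)

variable {V : Type*} [Fintype V] {G : SimpleGraph V} {k : ℕ}

/-- the finish for one value of `c` -/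
theorem odd_finish [Nontrivial V] [DecidableEq V] [DecidableRel G.Adj]
    (P : ∀ x y : V, G.Walk x y) (hP : Paths P) {d : ℕ} (hd3 : 3 ≤ d)
    (hd : ∀ v, dg G v = d) (hcut : ∀ S : Finset V, S.Nonempty → S ≠ univ → d ≤ cut G S)
    (a₁ a₂ : V → V → ℕ)
    (hsym₁ : ∀ u w, a₁ u w = a₁ w u) (hsym₂ : ∀ u w, a₂ u w = a₂ w u)
    (ha₁ : ∀ u w, G.Adj u w → d + 1 ≤ a₁ u w) (ha₂ : ∀ u w, G.Adj u w → 2 ≤ a₂ u w)
    (hout : ∀ u w, G.Adj u w → a₁ u w + 2 + TS.outKill P u w + TS.outKill P w u ≤ Fintype.card V)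
    (hin : ∀ u w, G.Adj u w → a₂ u w + 4 + TS.inKill P u w + TS.inKill P w u ≤ Fintype.card V)
    (c : ℕ) (Kst : Sym2 V → ℝ)
    (hload : ∀ v, (load P v : ℝ) + (∑ w, if G.Adj v w then Kst s(v, w) else 0) + 2 = c)
    (hge : ∀ v, load P v + 2 ≤ c)
    (hpar : Even (∑ v, (c - 2 - load P v)))
    (htest : ∀ y : V → SignType, y ≠ 0 → 0 < ∑ p : V × V, if G.Adj p.1 p.2 then
      max (((y p.1 : SignType) : ℝ) + y p.2) 0 *
        (((a₁ p.1 p.2 : ℝ) + a₂ p.1 p.2 - 1) / ((d : ℝ) - 1) - 1 - 2 / d - Kst s(p.1, p.2)) +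
      max (-(((y p.1 : SignType) : ℝ) + y p.2)) 0 * (Kst s(p.1, p.2) - 0) else 0) : HasUPS G := by
  have hd0R : (0 : ℝ) < d := by
    have : 0 < d := by omega
    exact_mod_cast this
  have hd1 : (0 : ℝ) < (d : ℝ) - 1 := by
    have : (3 : ℝ) ≤ d := by exact_mod_cast hd3
    linarith
  let cap : V → V → ℝ := fun a b =>
    ((a₁ a b : ℝ) + a₂ a b - 1) / ((d : ℝ) - 1) - 1 - 2 / d
  have hcs : ∀ a b, cap a b = cap b a := fun a b => by
    simp only [cap, hsym₁ a b, hsym₂ a b]
  have hc0 : ∀ a b, G.Adj a b → 0 < cap a b := by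
    intro a b h
    have h3 : ((d : ℝ) + 2) ≤ (a₁ a b : ℝ) + a₂ a b - 1 := by
      have h4 : ((d : ℝ) + 1) ≤ a₁ a b := by exact_mod_cast ha₁ a b h
      have h5 : (2 : ℝ) ≤ a₂ a b := by exact_mod_cast ha₂ a b h
      linarith
    have h4 : ((d : ℝ) + 2) / ((d : ℝ) - 1) ≤ ((a₁ a b : ℝ) + a₂ a b - 1) / ((d : ℝ) - 1) :=
      div_le_div_of_nonneg_right h3 hd1.le
    have h5 : (1 : ℝ) + 2 / d < ((d : ℝ) + 2) / ((d : ℝ) - 1) := by
      rw [lt_div_iff₀ hd1, add_mul, div_mul_eq_mul_div, one_mul]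
      have : 2 * ((d : ℝ) - 1) / d ≤ 2 := by
        rw [div_le_iff₀ hd0R]
        linarith
      linarith
    simp only [cap]
    linarith
  set D₀ : V → ℝ := fun v => ∑ w, if G.Adj v w then Kst s(v, w) else 0 with hD₀
  have hA : ∀ y : V → SignType, y ≠ 0 → 2 * ∑ v, (y v : ℝ) * D₀ v <
      ∑ p : V × V, if G.Adj p.1 p.2 then cap p.1 p.2 * max ((y p.1 : ℝ) + y p.2) 0 else 0 := by
    intro y hy
    have h3 := UPS2.PM.test_of cap Kst (κ := 0) (fun _ _ => 0) (fun _ _ => rfl)
      (fun _ _ => le_rfl) (fun _ _ => le_rfl) y (htest y hy)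
    simpa only [sub_zero] using h3
  obtain ⟨K, hK0, hKs, hKG, hKc, hKD⟩ := UPS2.PM.solveK cap hcs hc0 D₀ hA
  refine UPS2.PM.two_stage_K2 P hP (by omega) hd hcut K hK0 hKs hKG (fun v => c - 2 - load P v)
    (fun v => ?_) hpar c (fun v => ?_) a₁ a₂ hsym₂ ha₁ ha₂ hout hin (fun a b h => ?_)
  · rw [hKD v]
    have h3 := hload v
    have h4 := hge v
    rw [Nat.cast_sub (by omega), Nat.cast_sub (by omega)]
    simp only [hD₀]
    push_cast
    linarith
  · have := hge v
    omega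
  · have := hKc a b h
    simp only [cap] at this
    linarith

/-- **non-bipartite, `n` odd** -/
theorem nonbip_odd (hc : G.Connected) (hodd : OddW G) (hvt : VT G) {d : ℕ} (hd3 : 3 ≤ d)
    (hd : ∀ v, dg G v = d) (hk : 0 < k) (hkd : k ≤ d) (M : MSys G k) {L S : ℝ}
    (hL : PairLe M L) (hS : SumLe M S) (hL2 : 2 ≤ L) (hSk : k < S)
    (hn : Odd (Fintype.card V))
    (hco : 4 * ((Fintype.card V : ℝ) - 1 - d) / k < 2 * ((Fintype.card V : ℝ) - (d + 2)))
    (hci : 4 * ((Fintype.card V : ℝ) - 1 - d) / k < 2 * ((Fintype.card V : ℝ) - 5))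
    {μ : ℝ} (hμe : μ = (Num.Wd (Fintype.card V) d k - 2 / d) / 2) (hμ : 0 < μ)
    (hnum : Num.Q (Fintype.card V) d (4 * μ ^ 2 / (9 * (W1 S k d + W2 L d))) +
      Num.soft (Fintype.card V) d k S L (2 * ((Fintype.card V : ℝ) - (d + 2)))
        (2 * ((Fintype.card V : ℝ) - 5)) < 2) : HasUPS G := by
  have hnt := nontrivial_of_dg hd3 hc hd
  have hd' : ∀ x, (G.neighborSet x).ncard = d := fun x => by rw [← dg_ncard, hd]
  have hvt' : UPS2.EC.VT G := hvt
  have hdR : (3 : ℝ) ≤ d := by exact_mod_cast hd3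
  have hd0 : (0 : ℝ) < d := by linarith
  have hX := X_pos S L k hd3
  set X : ℝ := W1 S k d + W2 L d with hXd
  set C : ℝ := Num.Wd (Fintype.card V) d k with hC
  obtain ⟨c₀, hc₀⟩ := load_const hvt M hd
  have hsum := sum_A hc hodd hvt' (by omega : 1 ≤ d) hd hX hμ.le
    (fun y => μ * ∑ e, |zy G y.1 e|) (fun y => le_rfl)
  obtain ⟨P, hB, hP, hkill⟩ := exists_base hd' hd3 hk hkd M hL hS hL2 hSk
    (fun _ => 2 * μ / (3 * X)) (fun y => μ * ∑ e, |zy G y e|)
    (fun y hy => by positivity)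
    (mEnd_bound hd3 hc hd M) hco hci (by
      have h1 : (Fintype.card V : ℝ) * d / 2 *
          (exp (- ((2 * ((Fintype.card V : ℝ) - (d + 2)) -
            4 * ((Fintype.card V : ℝ) - 1 - d) / k) ^ 2 / (2 * (VE S L k d + 4)))) +
          exp (- ((2 * ((Fintype.card V : ℝ) - 5) -
            4 * ((Fintype.card V : ℝ) - 1 - d) / k) ^ 2 / (2 * (VE S L k d + 4))))) =
          Num.soft (Fintype.card V) d k S L (2 * ((Fintype.card V : ℝ) - (d + 2)))
            (2 * ((Fintype.card V : ℝ) - 5)) := rfl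
      rw [h1]
      linarith)
  have hko : ∀ u w, G.Adj u w → TS.outKill P u w + TS.outKill P w u + d + 2 < Fintype.card V ∧
      TS.inKill P u w + TS.inKill P w u + 5 < Fintype.card V := by
    intro u w h
    obtain ⟨h1, h2⟩ := hkill u w h
    constructor
    · have h3 : ((TS.outKill P u w + TS.outKill P w u + d + 2 : ℕ) : ℝ) < Fintype.card V := by
        push_cast at h1 ⊢
        linarith
      exact_mod_cast h3
    · have h3 : ((TS.inKill P u w + TS.inKill P w u + 5 : ℕ) : ℝ) < Fintype.card V := by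
        push_cast at h2 ⊢
        linarith
      exact_mod_cast h3
  -- the constant, with the right parity
  set x : ℝ := C * d / 2 + 2 + c₀ with hx
  obtain ⟨c, hcx, hcpar⟩ : ∃ c : ℤ, |x - c| ≤ 1 ∧
      Even ((Fintype.card V : ℤ) * (c - 2) - ∑ v, (load P v : ℤ)) := by
    have hn' : Odd (Fintype.card V : ℤ) := by exact_mod_cast hn
    by_cases h : Even ((Fintype.card V : ℤ) * (⌊x⌋ - 2) - ∑ v, (load P v : ℤ))
    · refine ⟨⌊x⌋, ?_, h⟩
      have h1 := Int.floor_le x
      have h2 := Int.lt_floor_add_one x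
      rw [abs_of_nonneg (by linarith)]
      linarith
    · refine ⟨⌊x⌋ + 1, ?_, ?_⟩
      · have h1 := Int.floor_le x
        have h2 := Int.lt_floor_add_one x
        push_cast
        rw [abs_of_nonpos (by linarith)]
        linarith
      · rw [Int.not_even_iff_odd] at h
        have h3 : (Fintype.card V : ℤ) * (⌊x⌋ + 1 - 2) - ∑ v, (load P v : ℤ) =
            ((Fintype.card V : ℤ) * (⌊x⌋ - 2) - ∑ v, (load P v : ℤ)) + Fintype.card V := by ring
        rw [h3]
        exact h.add_odd hn'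
  set K0 : ℝ := (c - 2 - c₀) / d with hK0
  have hα : μ ≤ C - K0 := by
    have h1 : C - K0 = C / 2 + 1 / d * (x - c) := by
      rw [hK0, hx]
      field_simp
      ring
    have h2 : -(1 / (d : ℝ)) ≤ 1 / d * (x - c) := by
      have h3 := (abs_le.1 hcx).1
      have h4 : 0 < 1 / (d : ℝ) := by positivity
      nlinarith
    rw [h1, hμe]
    have h5 : 2 / (d : ℝ) = 2 * (1 / d) := by ring
    rw [h5]
    linarith
  have hα' : μ ≤ K0 - 0 := by
    have h1 : K0 - 0 = C / 2 - 1 / d * (x - c) := by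
      rw [hK0, hx]
      field_simp
      ring
    have h2 : 1 / (d : ℝ) * (x - c) ≤ 1 / d := by
      have h3 := (abs_le.1 hcx).2
      have h4 : 0 < 1 / (d : ℝ) := by positivity
      nlinarith
    rw [h1, hμe]
    have h5 : 2 / (d : ℝ) = 2 * (1 / d) := by ring
    rw [h5]
    linarith
  have hP' : ∀ y : V → SignType, y ≠ 0 → ∑ e, (- zy G y e * kerr M P e +
      max (zy G y e) 0 / ((d : ℝ) - 1) * kend M P e) <
      (C - K0) * ∑ e, max (zy G y e) 0 + (K0 - 0) * ∑ e, max (- zy G y e) 0 := by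
    intro y hy
    refine (hP y hy).trans_le ?_
    have hA : ∑ e, |zy G y e| = ∑ e, max (zy G y e) 0 + ∑ e, max (- zy G y e) 0 := by
      rw [← Finset.sum_add_distrib]
      refine Finset.sum_congr rfl fun e _ => ?_
      rcases le_total (zy G y e) 0 with h | h
      · rw [abs_of_nonpos h, max_eq_right h, max_eq_left (by linarith)]; ring
      · rw [abs_of_nonneg h, max_eq_left h, max_eq_right (by linarith)]; ring
    have h1 : 0 ≤ ∑ e, max (zy G y e) 0 := Finset.sum_nonneg fun e _ => le_max_right _ _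
    have h2 : 0 ≤ ∑ e, max (- zy G y e) 0 := Finset.sum_nonneg fun e _ => le_max_right _ _
    have h3 := mul_le_mul_of_nonneg_right hα h1
    have h4 := mul_le_mul_of_nonneg_right hα' h2
    rw [hA, mul_add]
    linarith
  have hload := hc₀ P hB.paths K0
  have hdK : c₀ + d * K0 = c - 2 := by
    rw [hK0]
    field_simp
    ring
  have hgeZ : ∀ v, (load P v : ℤ) + 2 < c := by
    intro v
    have h1 := deg_pos M P (d := d) (κ := 0) (α := C - K0) le_rfl v (hP' _ (fun h => by
      have := congrFun h v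
      simp at this))
    have h2 := hload v
    rw [hdK] at h2
    have h4 : ((load P v : ℤ) : ℝ) + 2 < c := by
      push_cast
      linarith
    exact_mod_cast h4
  have hcpos : (0 : ℤ) ≤ c := by
    obtain ⟨v⟩ := hc.nonempty
    have h1 := hgeZ v
    have h2 : (0 : ℤ) ≤ load P v := Int.natCast_nonneg _
    omega
  have hcZ : ((c.toNat : ℕ) : ℤ) = c := Int.toNat_of_nonneg hcpos
  have hcn : ((c.toNat : ℕ) : ℝ) = c := by
    have : ((c.toNat : ℤ) : ℝ) = c := by rw [hcZ]
    exact_mod_cast this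
  have hge : ∀ v, load P v + 2 ≤ c.toNat := by
    intro v
    have h1 := hgeZ v
    omega
  refine odd_finish P hB.paths hd3 hd (fun S hS hS' => UPS2.EC.edge_conn hc hvt' hd
    hS hS') (av1 P) (av2 P) (av1_symm P) (av2_symm P) (fun u w h => ?_) (fun u w h => ?_)
    (fun u w h => ?_) (fun u w h => ?_) c.toNat (fun e => K0 - kerr M P e) (fun v => ?_) hge ?_
    (fun y hy => ?_)
  · have := (hko u w h).1
    unfold av1
    omega
  · have := (hko u w h).2
    unfold av2
    omega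
  · have := (hko u w h).1
    unfold av1
    omega
  · have := (hko u w h).2
    unfold av2
    omega
  · have h1 := hload v
    rw [hdK] at h1
    rw [hcn, h1]
    ring
  · have h1 : ((∑ v, (c.toNat - 2 - load P v) : ℕ) : ℤ) =
        (Fintype.card V : ℤ) * (c - 2) - ∑ v, (load P v : ℤ) := by
      push_cast
      have h2 : ∀ v, ((c.toNat - 2 - load P v : ℕ) : ℤ) = (c - 2) - (load P v : ℤ) := by
        intro v
        have := hge v
        omega
      rw [Finset.sum_congr rfl fun v _ => h2 v, Finset.sum_sub_distrib, Finset.sum_const,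
        Finset.card_univ, nsmul_eq_mul]
    have h3 : Even ((∑ v, (c.toNat - 2 - load P v) : ℕ) : ℤ) := by rw [h1]; exact hcpar
    exact_mod_cast h3
  · refine htest_of M P (fun u w => ((av1 P u w : ℝ) + av2 P u w - 1) / ((d : ℝ) - 1) - 1 - 2 / d)
      K0 0 C (fun u w h => ?_) y (hP' y hy)
    have h1 := hko u w h
    have h2 := cap_ge hd3 M hB (mEnd_bound hd3 hc hd M) h (by omega) (by omega)
    refine le_trans (le_of_eq ?_) h2
    rw [hC, ← room_eq (by linarith)]
    rfl

end Pool.Agent.UPS.NB
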