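import Pool.Agent.Lib.MP_876e19_co_ups.NumBase

/-!
# Numerics of the non-bipartite case, NumFinA (helper4, TT876)
-/

set_option autoImplicit false

namespace Pool.Agent.UPS.Num

open Real

lemma e4t {n : ℕ} (hn : 24 ≤ n) {S L V ν : ℝ} (hS : S ≤ 4 * (n - 2) / 4)
    (hL : L ≤ 2 * (n - 4) / 2) (hV0 : 0 < V) (hV : V ≤ VW S L 4 4 0)
    (hν : (Wd n 4 4 - 0) / 2 ≤ ν) :
    Q n 4 (4 * (ν ^ 2 + ν / 4) / (9 * V)) ≤ exp (16 / 25) ∧
      Q n 4 (4 * (ν ^ 2 - ν / 4) / (9 * V)) ≤ exp (16 / 25) := by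
  obtain ⟨s, hs⟩ : ∃ s : ℝ, (n : ℝ) = 24 + s := ⟨n - 24, by ring⟩
  have hs0 : 0 ≤ s := by
    have : (24 : ℝ) ≤ n := by exact_mod_cast hn
    linarith
  rw [hs] at hS hL hν
  have hW : (Wd (24 + s) 4 4 - 0) / 2 = 35 / 12 + 1 / 6 * s := by
    unfold Wd
    ring
  rw [hW] at hν
  have key : ∀ μ₂ : ℝ, (35 / 12 + 1 / 6 * s) ^ 2 - (35 / 12 + 1 / 6 * s) / 4 ≤ μ₂ →
      Q n 4 (4 * μ₂ / (9 * V)) ≤ exp (16 / 25) := by
    intro μ₂ hμ₂
    refine fixd2 (by norm_num : 4 ≤ 4) (c := 53 / 10 + 1 / 24 * s) (ℓ := 16 / 25) hV0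
      (hV.trans (VW_le (ε₁ := 1 / 1000) (ε₂ := 1 / 7) hS hL (by norm_num) (by norm_num)
        (by norm_num) le_rfl (by linarith) (by linarith) (by norm_num) (by norm_num)))
      (M := (35 / 12 + 1 / 6 * s) ^ 2 - (35 / 12 + 1 / 6 * s) / 4) hμ₂
      (by positivity) ?_ ?_
    · norm_num
      nlinarith [mul_nonneg hs0 hs0]
    · rw [hs]
      have h := exp_lin (r := 24 * 4 / (16 / 25)) (c₀ := 53 / 10) (c₁ := 1 / 24) (s := s)
        ((by norm_num [Finset.sum_range_succ, Nat.factorial] :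
          (24 * 4 / (16 / 25) : ℝ) ≤
            ∑ i ∈ Finset.range 9, (53 / 10 : ℝ) ^ i / i.factorial).trans
          (sum_le_exp_of_nonneg (by norm_num) 9)) (by positivity)
      push_cast
      linarith
  exact ⟨key _ (by nlinarith), key _ (by nlinarith)⟩

lemma e5t {n : ℕ} (hn : 22 ≤ n) {S L V ν : ℝ} (hS : S ≤ 5 * (n - 2) / 5)
    (hL : L ≤ 2 * (n - 5) / 2) (hV0 : 0 < V) (hV : V ≤ VW S L 5 5 0)
    (hν : (Wd n 5 5 - 0) / 2 ≤ ν) :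
    Q n 5 (4 * (ν ^ 2 + ν / 5) / (9 * V)) ≤ exp (16 / 25) ∧
      Q n 5 (4 * (ν ^ 2 - ν / 5) / (9 * V)) ≤ exp (16 / 25) := by
  obtain ⟨s, hs⟩ : ∃ s : ℝ, (n : ℝ) = 22 + s := ⟨n - 22, by ring⟩
  have hs0 : 0 ≤ s := by
    have : (22 : ℝ) ≤ n := by exact_mod_cast hn
    linarith
  rw [hs] at hS hL hν
  have hW : (Wd (22 + s) 5 5 - 0) / 2 = 93 / 40 + 3 / 20 * s := by
    unfold Wd
    ring
  rw [hW] at hν
  have key : ∀ μ₂ : ℝ, (93 / 40 + 3 / 20 * s) ^ 2 - (93 / 40 + 3 / 20 * s) / 5 ≤ μ₂ →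
      Q n 5 (4 * μ₂ / (9 * V)) ≤ exp (16 / 25) := by
    intro μ₂ hμ₂
    refine fixd2 (by norm_num : 4 ≤ 5) (c := 11 / 2 + 1 / 22 * s) (ℓ := 16 / 25) hV0
      (hV.trans (VW_le (ε₁ := 1 / 1000) (ε₂ := 1 / 8) hS hL (by norm_num) (by norm_num)
        (by norm_num) le_rfl (by linarith) (by linarith) (by norm_num) (by norm_num)))
      (M := (93 / 40 + 3 / 20 * s) ^ 2 - (93 / 40 + 3 / 20 * s) / 5) hμ₂
      (by positivity) ?_ ?_
    · norm_num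
      nlinarith [mul_nonneg hs0 hs0]
    · rw [hs]
      have h := exp_lin (r := 22 * 5 / (16 / 25)) (c₀ := 11 / 2) (c₁ := 1 / 22) (s := s)
        ((by norm_num [Finset.sum_range_succ, Nat.factorial] :
          (22 * 5 / (16 / 25) : ℝ) ≤
            ∑ i ∈ Finset.range 9, (11 / 2 : ℝ) ^ i / i.factorial).trans
          (sum_le_exp_of_nonneg (by norm_num) 9)) (by positivity)
      push_cast
      linarith
  exact ⟨key _ (by nlinarith), key _ (by nlinarith)⟩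

lemma e6t {n : ℕ} (hn : 22 ≤ n) {S L V ν : ℝ} (hS : S ≤ 5 * (n - 2) / 6)
    (hL : L ≤ 2 * (n - 5) / 3) (hV0 : 0 < V) (hV : V ≤ VW S L 5 6 1)
    (hν : (Wd n 6 5 - 0) / 2 ≤ ν) :
    Q n 6 (4 * (ν ^ 2 + ν / 6) / (9 * V)) ≤ exp (16 / 25) ∧
      Q n 6 (4 * (ν ^ 2 - ν / 6) / (9 * V)) ≤ exp (16 / 25) := by
  obtain ⟨s, hs⟩ : ∃ s : ℝ, (n : ℝ) = 22 + s := ⟨n - 22, by ring⟩
  have hs0 : 0 ≤ s := by
    have : (22 : ℝ) ≤ n := by exact_mod_cast hn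
    linarith
  rw [hs] at hS hL hν
  have hW : (Wd (22 + s) 6 5 - 0) / 2 = 11 / 6 + 3 / 25 * s := by
    unfold Wd
    ring
  rw [hW] at hν
  have key : ∀ μ₂ : ℝ, (11 / 6 + 3 / 25 * s) ^ 2 - (11 / 6 + 3 / 25 * s) / 6 ≤ μ₂ →
      Q n 6 (4 * μ₂ / (9 * V)) ≤ exp (16 / 25) := by
    intro μ₂ hμ₂
    refine fixd2 (by norm_num : 4 ≤ 6) (c := 29 / 5 + 1 / 22 * s) (ℓ := 16 / 25) hV0
      (hV.trans (VW_le (ε₁ := 1 / 13) (ε₂ := 1 / 9) hS hL (by norm_num) (by norm_num)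
        (by norm_num) le_rfl (by linarith) (by linarith) (by norm_num) (by norm_num)))
      (M := (11 / 6 + 3 / 25 * s) ^ 2 - (11 / 6 + 3 / 25 * s) / 6) hμ₂
      (by positivity) ?_ ?_
    · norm_num
      nlinarith [mul_nonneg hs0 hs0]
    · rw [hs]
      have h := exp_lin (r := 22 * 6 / (16 / 25)) (c₀ := 29 / 5) (c₁ := 1 / 22) (s := s)
        ((by norm_num [Finset.sum_range_succ, Nat.factorial] :
          (22 * 6 / (16 / 25) : ℝ) ≤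
            ∑ i ∈ Finset.range 8, (29 / 5 : ℝ) ^ i / i.factorial).trans
          (sum_le_exp_of_nonneg (by norm_num) 8)) (by positivity)
      push_cast
      linarith
  exact ⟨key _ (by nlinarith), key _ (by nlinarith)⟩

lemma e6t20 {n : ℕ} (hn : 20 ≤ n) {S L V ν : ℝ} (hS : S ≤ 5 * (n - 2) / 6)
    (hL : L ≤ 2 * (n - 5) / 3) (hV0 : 0 < V) (hV : V ≤ VW S L 5 6 1)
    (hν : (Wd n 6 5 - 0) / 2 ≤ ν) :
    Q n 6 (4 * (ν ^ 2 + ν / 6) / (9 * V)) ≤ exp (437 / 1000) ∧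
      Q n 6 (4 * (ν ^ 2 - ν / 6) / (9 * V)) ≤ exp (437 / 1000) := by
  obtain ⟨s, hs⟩ : ∃ s : ℝ, (n : ℝ) = 20 + s := ⟨n - 20, by ring⟩
  have hs0 : 0 ≤ s := by
    have : (20 : ℝ) ≤ n := by exact_mod_cast hn
    linarith
  rw [hs] at hS hL hν
  have hW : (Wd (20 + s) 6 5 - 0) / 2 = 239 / 150 + 3 / 25 * s := by
    unfold Wd
    ring
  rw [hW] at hν
  have key : ∀ μ₂ : ℝ, (239 / 150 + 3 / 25 * s) ^ 2 - (239 / 150 + 3 / 25 * s) / 6 ≤ μ₂ →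
      Q n 6 (4 * μ₂ / (9 * V)) ≤ exp (437 / 1000) := by
    intro μ₂ hμ₂
    refine fixd2 (by norm_num : 4 ≤ 6) (c := 281 / 50 + 1 / 20 * s) (ℓ := 437 / 1000) hV0
      (hV.trans (VW_le (ε₁ := 1 / 12) (ε₂ := 1 / 8) hS hL (by norm_num) (by norm_num)
        (by norm_num) le_rfl (by linarith) (by linarith) (by norm_num) (by norm_num)))
      (M := (239 / 150 + 3 / 25 * s) ^ 2 - (239 / 150 + 3 / 25 * s) / 6) hμ₂
      (by positivity) ?_ ?_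
    · norm_num
      nlinarith [mul_nonneg hs0 hs0]
    · rw [hs]
      have h := exp_lin (r := 20 * 6 / (437 / 1000)) (c₀ := 281 / 50) (c₁ := 1 / 20) (s := s)
        ((by norm_num [Finset.sum_range_succ, Nat.factorial] :
          (20 * 6 / (437 / 1000) : ℝ) ≤
            ∑ i ∈ Finset.range 15, (281 / 50 : ℝ) ^ i / i.factorial).trans
          (sum_le_exp_of_nonneg (by norm_num) 15)) (by positivity)
      push_cast
      linarith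
  exact ⟨key _ (by nlinarith), key _ (by nlinarith)⟩

end Pool.Agent.UPS.Num
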