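import Pool.Agent.Lib.MP_876e19_co_ups.NumBase

/-!
# Numerics of the non-bipartite case, NumFinB (helper4, TT876)
-/

set_option autoImplicit false

namespace Pool.Agent.UPS.Num

open Real

lemma e7t {n : ℕ} (hn : 24 ≤ n) {S L V ν : ℝ} (hS : S ≤ 5 * (n - 2) / 6)
    (hL : L ≤ 2 * (n - 5) / 3) (hV0 : 0 < V) (hV : V ≤ VW S L 5 7 2)
    (hν : (Wd n 7 5 - 0) / 2 ≤ ν) :
    Q n 7 (4 * (ν ^ 2 + ν / 7) / (9 * V)) ≤ exp (16 / 25) ∧
      Q n 7 (4 * (ν ^ 2 - ν / 7) / (9 * V)) ≤ exp (16 / 25) := by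
  obtain ⟨s, hs⟩ : ∃ s : ℝ, (n : ℝ) = 24 + s := ⟨n - 24, by ring⟩
  have hs0 : 0 ≤ s := by
    have : (24 : ℝ) ≤ n := by exact_mod_cast hn
    linarith
  rw [hs] at hS hL hν
  have hW : (Wd (24 + s) 7 5 - 0) / 2 = 239 / 140 + 1 / 10 * s := by
    unfold Wd
    ring
  rw [hW] at hν
  have key : ∀ μ₂ : ℝ, (239 / 140 + 1 / 10 * s) ^ 2 - (239 / 140 + 1 / 10 * s) / 7 ≤ μ₂ →
      Q n 7 (4 * μ₂ / (9 * V)) ≤ exp (16 / 25) := by
    intro μ₂ hμ₂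
    refine fixd2 (by norm_num : 4 ≤ 7) (c := 59 / 10 + 1 / 24 * s) (ℓ := 16 / 25) hV0
      (hV.trans (VW_le (ε₁ := 1 / 12) (ε₂ := 1 / 11) hS hL (by norm_num) (by norm_num)
        (by norm_num) le_rfl (by linarith) (by linarith) (by norm_num) (by norm_num)))
      (M := (239 / 140 + 1 / 10 * s) ^ 2 - (239 / 140 + 1 / 10 * s) / 7) hμ₂
      (by positivity) ?_ ?_
    · norm_num
      nlinarith [mul_nonneg hs0 hs0]
    · rw [hs]
      have h := exp_lin (r := 24 * 7 / (16 / 25)) (c₀ := 59 / 10) (c₁ := 1 / 24) (s := s)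
        ((by norm_num [Finset.sum_range_succ, Nat.factorial] :
          (24 * 7 / (16 / 25) : ℝ) ≤
            ∑ i ∈ Finset.range 9, (59 / 10 : ℝ) ^ i / i.factorial).trans
          (sum_le_exp_of_nonneg (by norm_num) 9)) (by positivity)
      push_cast
      linarith
  exact ⟨key _ (by nlinarith), key _ (by nlinarith)⟩

lemma e6f {n : ℕ} (hn : 24 ≤ n) {S L V ν : ℝ} (hS : S ≤ 5 * (n - 2) / 6)
    (hL : L ≤ 2 * (n - 5) / 3) (hV0 : 0 < V) (hV : V ≤ VW S L 5 6 1)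
    (hν : (Wd n 6 5 - 1 / 2) / 2 ≤ ν) :
    Q n 6 (4 * (ν ^ 2 + ν / 6) / (9 * V)) ≤ exp (16 / 25) ∧
      Q n 6 (4 * (ν ^ 2 - ν / 6) / (9 * V)) ≤ exp (16 / 25) := by
  obtain ⟨s, hs⟩ : ∃ s : ℝ, (n : ℝ) = 24 + s := ⟨n - 24, by ring⟩
  have hs0 : 0 ≤ s := by
    have : (24 : ℝ) ≤ n := by exact_mod_cast hn
    linarith
  rw [hs] at hS hL hν
  have hW : (Wd (24 + s) 6 5 - 1 / 2) / 2 = 547 / 300 + 3 / 25 * s := by
    unfold Wd
    ring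
  rw [hW] at hν
  have key : ∀ μ₂ : ℝ, (547 / 300 + 3 / 25 * s) ^ 2 - (547 / 300 + 3 / 25 * s) / 6 ≤ μ₂ →
      Q n 6 (4 * μ₂ / (9 * V)) ≤ exp (16 / 25) := by
    intro μ₂ hμ₂
    refine fixd2 (by norm_num : 4 ≤ 6) (c := 57 / 10 + 1 / 24 * s) (ℓ := 16 / 25) hV0
      (hV.trans (VW_le (ε₁ := 1 / 14) (ε₂ := 1 / 9) hS hL (by norm_num) (by norm_num)
        (by norm_num) le_rfl (by linarith) (by linarith) (by norm_num) (by norm_num)))
      (M := (547 / 300 + 3 / 25 * s) ^ 2 - (547 / 300 + 3 / 25 * s) / 6) hμ₂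
      (by positivity) ?_ ?_
    · norm_num
      nlinarith [mul_nonneg hs0 hs0]
    · rw [hs]
      have h := exp_lin (r := 24 * 6 / (16 / 25)) (c₀ := 57 / 10) (c₁ := 1 / 24) (s := s)
        ((by norm_num [Finset.sum_range_succ, Nat.factorial] :
          (24 * 6 / (16 / 25) : ℝ) ≤
            ∑ i ∈ Finset.range 9, (57 / 10 : ℝ) ^ i / i.factorial).trans
          (sum_le_exp_of_nonneg (by norm_num) 9)) (by positivity)
      push_cast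
      linarith
  exact ⟨key _ (by nlinarith), key _ (by nlinarith)⟩

lemma e7f {n : ℕ} (hn : 28 ≤ n) {S L V ν : ℝ} (hS : S ≤ 5 * (n - 2) / 6)
    (hL : L ≤ 2 * (n - 5) / 3) (hV0 : 0 < V) (hV : V ≤ VW S L 5 7 2)
    (hν : (Wd n 7 5 - 1 / 2) / 2 ≤ ν) :
    Q n 7 (4 * (ν ^ 2 + ν / 7) / (9 * V)) ≤ exp (16 / 25) ∧
      Q n 7 (4 * (ν ^ 2 - ν / 7) / (9 * V)) ≤ exp (16 / 25) := by
  obtain ⟨s, hs⟩ : ∃ s : ℝ, (n : ℝ) = 28 + s := ⟨n - 28, by ring⟩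
  have hs0 : 0 ≤ s := by
    have : (28 : ℝ) ≤ n := by exact_mod_cast hn
    linarith
  rw [hs] at hS hL hν
  have hW : (Wd (28 + s) 7 5 - 1 / 2) / 2 = 13 / 7 + 1 / 10 * s := by
    unfold Wd
    ring
  rw [hW] at hν
  have key : ∀ μ₂ : ℝ, (13 / 7 + 1 / 10 * s) ^ 2 - (13 / 7 + 1 / 10 * s) / 7 ≤ μ₂ →
      Q n 7 (4 * μ₂ / (9 * V)) ≤ exp (16 / 25) := by
    intro μ₂ hμ₂
    refine fixd2 (by norm_num : 4 ≤ 7) (c := 6 + 1 / 28 * s) (ℓ := 16 / 25) hV0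
      (hV.trans (VW_le (ε₁ := 1 / 13) (ε₂ := 1 / 12) hS hL (by norm_num) (by norm_num)
        (by norm_num) le_rfl (by linarith) (by linarith) (by norm_num) (by norm_num)))
      (M := (13 / 7 + 1 / 10 * s) ^ 2 - (13 / 7 + 1 / 10 * s) / 7) hμ₂
      (by positivity) ?_ ?_
    · norm_num
      nlinarith [mul_nonneg hs0 hs0]
    · rw [hs]
      have h := exp_lin (r := 28 * 7 / (16 / 25)) (c₀ := 6) (c₁ := 1 / 28) (s := s)
        ((by norm_num [Finset.sum_range_succ, Nat.factorial] :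
          (28 * 7 / (16 / 25) : ℝ) ≤
            ∑ i ∈ Finset.range 10, (6 : ℝ) ^ i / i.factorial).trans
          (sum_le_exp_of_nonneg (by norm_num) 10)) (by positivity)
      push_cast
      linarith
  exact ⟨key _ (by nlinarith), key _ (by nlinarith)⟩

lemma e8 {n : ℕ} (hn : 26 ≤ n) {S L V ν : ℝ} (hS : S ≤ 5 * (n - 2) / 8)
    (hL : L ≤ 2 * (n - 5) / 5) (hV0 : 0 < V) (hV : V ≤ VW S L 5 8 3)
    (hν : (Wd n 8 5 - 1 / 2) / 2 ≤ ν) :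
    Q n 8 (4 * (ν ^ 2 + ν / 8) / (9 * V)) ≤ exp (16 / 25) ∧
      Q n 8 (4 * (ν ^ 2 - ν / 8) / (9 * V)) ≤ exp (16 / 25) := by
  obtain ⟨s, hs⟩ : ∃ s : ℝ, (n : ℝ) = 26 + s := ⟨n - 26, by ring⟩
  have hs0 : 0 ≤ s := by
    have : (26 : ℝ) ≤ n := by exact_mod_cast hn
    linarith
  rw [hs] at hS hL hν
  have hW : (Wd (26 + s) 8 5 - 1 / 2) / 2 = 383 / 280 + 3 / 35 * s := by
    unfold Wd
    ring
  rw [hW] at hν
  have key : ∀ μ₂ : ℝ, (383 / 280 + 3 / 35 * s) ^ 2 - (383 / 280 + 3 / 35 * s) / 8 ≤ μ₂ →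
      Q n 8 (4 * μ₂ / (9 * V)) ≤ exp (16 / 25) := by
    intro μ₂ hμ₂
    refine fixd2 (by norm_num : 4 ≤ 8) (c := 61 / 10 + 1 / 26 * s) (ℓ := 16 / 25) hV0
      (hV.trans (VW_le (ε₁ := 1 / 11) (ε₂ := 1 / 11) hS hL (by norm_num) (by norm_num)
        (by norm_num) le_rfl (by linarith) (by linarith) (by norm_num) (by norm_num)))
      (M := (383 / 280 + 3 / 35 * s) ^ 2 - (383 / 280 + 3 / 35 * s) / 8) hμ₂
      (by positivity) ?_ ?_
    · norm_num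
      nlinarith [mul_nonneg hs0 hs0]
    · rw [hs]
      have h := exp_lin (r := 26 * 8 / (16 / 25)) (c₀ := 61 / 10) (c₁ := 1 / 26) (s := s)
        ((by norm_num [Finset.sum_range_succ, Nat.factorial] :
          (26 * 8 / (16 / 25) : ℝ) ≤
            ∑ i ∈ Finset.range 9, (61 / 10 : ℝ) ^ i / i.factorial).trans
          (sum_le_exp_of_nonneg (by norm_num) 9)) (by positivity)
      push_cast
      linarith
  exact ⟨key _ (by nlinarith), key _ (by nlinarith)⟩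

end Pool.Agent.UPS.Num
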