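import Pool.Agent.Lib.MP_876e19_co_ups.NumBase

/-!
# Numerics of the non-bipartite case, NumFinC (helper4, TT876)
-/

set_option autoImplicit false

namespace Pool.Agent.UPS.Num

open Real

lemma e9 {n : ℕ} (hn : 28 ≤ n) {S L V ν : ℝ} (hS : S ≤ 5 * (n - 2) / 8)
    (hL : L ≤ 2 * (n - 5) / 5) (hV0 : 0 < V) (hV : V ≤ VW S L 5 9 4)
    (hν : (Wd n 9 5 - 1 / 2) / 2 ≤ ν) :
    Q n 9 (4 * (ν ^ 2 + ν / 9) / (9 * V)) ≤ exp (16 / 25) ∧
      Q n 9 (4 * (ν ^ 2 - ν / 9) / (9 * V)) ≤ exp (16 / 25) := by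
  obtain ⟨s, hs⟩ : ∃ s : ℝ, (n : ℝ) = 28 + s := ⟨n - 28, by ring⟩
  have hs0 : 0 ≤ s := by
    have : (28 : ℝ) ≤ n := by exact_mod_cast hn
    linarith
  rw [hs] at hS hL hν
  have hW : (Wd (28 + s) 9 5 - 1 / 2) / 2 = 937 / 720 + 3 / 40 * s := by
    unfold Wd
    ring
  rw [hW] at hν
  have key : ∀ μ₂ : ℝ, (937 / 720 + 3 / 40 * s) ^ 2 - (937 / 720 + 3 / 40 * s) / 9 ≤ μ₂ →
      Q n 9 (4 * μ₂ / (9 * V)) ≤ exp (16 / 25) := by
    intro μ₂ hμ₂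
    refine fixd2 (by norm_num : 4 ≤ 9) (c := 31 / 5 + 1 / 28 * s) (ℓ := 16 / 25) hV0
      (hV.trans (VW_le (ε₁ := 1 / 12) (ε₂ := 1 / 13) hS hL (by norm_num) (by norm_num)
        (by norm_num) le_rfl (by linarith) (by linarith) (by norm_num) (by norm_num)))
      (M := (937 / 720 + 3 / 40 * s) ^ 2 - (937 / 720 + 3 / 40 * s) / 9) hμ₂
      (by positivity) ?_ ?_
    · norm_num
      nlinarith [mul_nonneg hs0 hs0]
    · rw [hs]
      have h := exp_lin (r := 28 * 9 / (16 / 25)) (c₀ := 31 / 5) (c₁ := 1 / 28) (s := s)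
        ((by norm_num [Finset.sum_range_succ, Nat.factorial] :
          (28 * 9 / (16 / 25) : ℝ) ≤
            ∑ i ∈ Finset.range 10, (31 / 5 : ℝ) ^ i / i.factorial).trans
          (sum_le_exp_of_nonneg (by norm_num) 10)) (by positivity)
      push_cast
      linarith
  exact ⟨key _ (by nlinarith), key _ (by nlinarith)⟩

lemma e10 {n : ℕ} (hn : 30 ≤ n) {S L V ν : ℝ} (hS : S ≤ 5 * (n - 2) / 8)
    (hL : L ≤ 2 * (n - 5) / 5) (hV0 : 0 < V) (hV : V ≤ VW S L 5 10 5)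
    (hν : (Wd n 10 5 - 1 / 2) / 2 ≤ ν) :
    Q n 10 (4 * (ν ^ 2 + ν / 10) / (9 * V)) ≤ exp (16 / 25) ∧
      Q n 10 (4 * (ν ^ 2 - ν / 10) / (9 * V)) ≤ exp (16 / 25) := by
  obtain ⟨s, hs⟩ : ∃ s : ℝ, (n : ℝ) = 30 + s := ⟨n - 30, by ring⟩
  have hs0 : 0 ≤ s := by
    have : (30 : ℝ) ≤ n := by exact_mod_cast hn
    linarith
  rw [hs] at hS hL hν
  have hW : (Wd (30 + s) 10 5 - 1 / 2) / 2 = 5 / 4 + 1 / 15 * s := by
    unfold Wd
    ring
  rw [hW] at hν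
  have key : ∀ μ₂ : ℝ, (5 / 4 + 1 / 15 * s) ^ 2 - (5 / 4 + 1 / 15 * s) / 10 ≤ μ₂ →
      Q n 10 (4 * μ₂ / (9 * V)) ≤ exp (16 / 25) := by
    intro μ₂ hμ₂
    refine fixd2 (by norm_num : 4 ≤ 10) (c := 31 / 5 + 1 / 30 * s) (ℓ := 16 / 25) hV0
      (hV.trans (VW_le (ε₁ := 1 / 13) (ε₂ := 1 / 15) hS hL (by norm_num) (by norm_num)
        (by norm_num) le_rfl (by linarith) (by linarith) (by norm_num) (by norm_num)))
      (M := (5 / 4 + 1 / 15 * s) ^ 2 - (5 / 4 + 1 / 15 * s) / 10) hμ₂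
      (by positivity) ?_ ?_
    · norm_num
      nlinarith [mul_nonneg hs0 hs0]
    · rw [hs]
      have h := exp_lin (r := 30 * 10 / (16 / 25)) (c₀ := 31 / 5) (c₁ := 1 / 30) (s := s)
        ((by norm_num [Finset.sum_range_succ, Nat.factorial] :
          (30 * 10 / (16 / 25) : ℝ) ≤
            ∑ i ∈ Finset.range 13, (31 / 5 : ℝ) ^ i / i.factorial).trans
          (sum_le_exp_of_nonneg (by norm_num) 13)) (by positivity)
      push_cast
      linarith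
  exact ⟨key _ (by nlinarith), key _ (by nlinarith)⟩

lemma e11 {n : ℕ} (hn : 33 ≤ n) {S L V ν : ℝ} (hS : S ≤ 5 * (n - 2) / 9)
    (hL : L ≤ 2 * (n - 5) / 6) (hV0 : 0 < V) (hV : V ≤ VW S L 5 11 5)
    (hν : (Wd n 11 5 - 1 / 2) / 2 ≤ ν) :
    Q n 11 (4 * (ν ^ 2 + ν / 11) / (9 * V)) ≤ exp (16 / 25) ∧
      Q n 11 (4 * (ν ^ 2 - ν / 11) / (9 * V)) ≤ exp (16 / 25) := by
  obtain ⟨s, hs⟩ : ∃ s : ℝ, (n : ℝ) = 33 + s := ⟨n - 33, by ring⟩
  have hs0 : 0 ≤ s := by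
    have : (33 : ℝ) ≤ n := by exact_mod_cast hn
    linarith
  rw [hs] at hS hL hν
  have hW : (Wd (33 + s) 11 5 - 1 / 2) / 2 = 349 / 275 + 3 / 50 * s := by
    unfold Wd
    ring
  rw [hW] at hν
  have key : ∀ μ₂ : ℝ, (349 / 275 + 3 / 50 * s) ^ 2 - (349 / 275 + 3 / 50 * s) / 11 ≤ μ₂ →
      Q n 11 (4 * μ₂ / (9 * V)) ≤ exp (16 / 25) := by
    intro μ₂ hμ₂
    refine fixd2 (by norm_num : 4 ≤ 11) (c := 34 / 5 + 1 / 33 * s) (ℓ := 16 / 25) hV0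
      (hV.trans (VW_le (ε₁ := 1 / 14) (ε₂ := 1 / 16) hS hL (by norm_num) (by norm_num)
        (by norm_num) le_rfl (by linarith) (by linarith) (by norm_num) (by norm_num)))
      (M := (349 / 275 + 3 / 50 * s) ^ 2 - (349 / 275 + 3 / 50 * s) / 11) hμ₂
      (by positivity) ?_ ?_
    · norm_num
      nlinarith [mul_nonneg hs0 hs0]
    · rw [hs]
      have h := exp_lin (r := 33 * 11 / (16 / 25)) (c₀ := 34 / 5) (c₁ := 1 / 33) (s := s)
        ((by norm_num [Finset.sum_range_succ, Nat.factorial] :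
          (33 * 11 / (16 / 25) : ℝ) ≤
            ∑ i ∈ Finset.range 10, (34 / 5 : ℝ) ^ i / i.factorial).trans
          (sum_le_exp_of_nonneg (by norm_num) 10)) (by positivity)
      push_cast
      linarith
  exact ⟨key _ (by nlinarith), key _ (by nlinarith)⟩

lemma e12 {n d κ : ℕ} (hd : 12 ≤ d) (hκ : 2 * (d + 2) ≤ 3 * κ) (hn : 2 * (d + 1) + κ ≤ n)
    {S L V ν : ℝ} (hS : S ≤ 5 * (n - 2) / κ) (hL : L ≤ 2 * (n - 5) / (κ - 3)) (hV0 : 0 < V)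
    (hV : V ≤ VW S L 5 d 5) (hν : (Wd n d 5 - 1 / 2) / 2 ≤ ν) :
    Q n d (4 * (ν ^ 2 + ν / d) / (9 * V)) ≤ exp (16 / 25) ∧
      Q n d (4 * (ν ^ 2 - ν / d) / (9 * V)) ≤ exp (16 / 25) := by
  have hdR : (12 : ℝ) ≤ d := by exact_mod_cast hd
  have hκR : 2 * ((d : ℝ) + 2) ≤ 3 * κ := by exact_mod_cast hκ
  have hnR : 2 * ((d : ℝ) + 1) + κ ≤ n := by exact_mod_cast hn
  obtain ⟨u, hu⟩ : ∃ u : ℝ, (d : ℝ) = 12 + u := ⟨d - 12, by ring⟩
  have hu0 : 0 ≤ u := by linarith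
  obtain ⟨s, hs⟩ : ∃ s : ℝ, (n : ℝ) = 106 / 3 + 8 / 3 * u + s :=
    ⟨n - 106 / 3 - 8 / 3 * u, by ring⟩
  have hs0 : 0 ≤ s := by linarith
  have hn30 : (30 : ℝ) ≤ n := by
    have := mul_nonneg (by norm_num : (0 : ℝ) ≤ 8 / 3) hu0
    linarith
  have hS' : S ≤ 15 * ((n : ℝ) - 2) / (2 * (d + 2)) := by
    refine hS.trans ?_
    rw [div_le_div_iff₀ (by linarith) (by linarith)]
    nlinarith
  have hL' : L ≤ 6 * ((n : ℝ) - 5) / (2 * d - 5) := by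
    refine hL.trans ?_
    rw [div_le_div_iff₀ (by linarith) (by linarith)]
    nlinarith
  have hd1 : (0 : ℝ) < d - 1 := by linarith
  have hd0 : (0 : ℝ) < d := by linarith
  have h5 : (5 : ℝ) ≤ 15 * ((n : ℝ) - 2) / (2 * (d + 2)) := by
    rw [le_div_iff₀ (by linarith)]
    nlinarith
  have h2 : (2 : ℝ) ≤ 6 * ((n : ℝ) - 5) / (2 * d - 5) := by
    rw [le_div_iff₀ (by linarith)]
    nlinarith
  obtain ⟨X, hX⟩ : ∃ X : ℝ, X = 1.2 * (n : ℝ) - 6.7 - 0.7 * d := ⟨_, rfl⟩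
  have hXe : X = 27.3 + 2.5 * u + 1.2 * s := by rw [hX, hs, hu]; ring
  have hX27 : 27 ≤ X := by rw [hXe]; linarith
  have hMν : X / (2 * (d - 1)) ≤ ν := by
    refine le_trans ?_ hν
    have e : (Wd n d 5 - 1 / 2) / 2 = X / (2 * (d - 1)) + 1 / (d * (d - 1)) := by
      rw [hX]
      unfold Wd
      field_simp
      ring
    rw [e]
    have : (0 : ℝ) ≤ 1 / (d * (d - 1)) := by positivity
    linarith
  have hM1 : 1 / (d : ℝ) ≤ X / (2 * (d - 1)) := by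
    rw [div_le_div_iff₀ hd0 (by linarith)]
    have : 27 * (d : ℝ) ≤ X * d := mul_le_mul_of_nonneg_right hX27 hd0.le
    linarith
  have key : ∀ μ₂ : ℝ, (X / (2 * ((d : ℝ) - 1))) ^ 2 - (X / (2 * ((d : ℝ) - 1))) / d ≤ μ₂ →
      Q n d (4 * μ₂ / (9 * V)) ≤ exp (16 / 25) := by
    intro μ₂ hμ₂
    refine fixd2 (by omega : 4 ≤ d) (c := 6.5 + ((4 / 53 + 1 / 12) * u + 1 / 35 * s))
      (ℓ := 16 / 25) hV0 (hV.trans ((VW_le (ε₁ := 2 / (3 * (d - 1))) (ε₂ := 2 / (3 * (d - 1)))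
      hS' hL' (by norm_num) (by linarith) (by norm_num) le_rfl h5 h2 (by positivity)
      (by positivity)).trans (var10 (by linarith) hn30 rfl rfl))) hμ₂ (by positivity) ?_ ?_
    · have e1 : (((X - 1) ^ 2 - 1) / (d - 1) : ℝ) ≤
          4 * ((d : ℝ) - 1) * ((X / (2 * (d - 1))) ^ 2 - (X / (2 * (d - 1))) / d) := by
        have e2 : 4 * ((d : ℝ) - 1) * ((X / (2 * (d - 1))) ^ 2 - (X / (2 * (d - 1))) / d) =
            (X ^ 2 - 2 * X * ((d - 1) / d)) / (d - 1) := by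
          field_simp
          ring
        rw [e2]
        refine div_le_div_of_nonneg_right ?_ hd1.le
        have : ((d : ℝ) - 1) / d ≤ 1 := by
          rw [div_le_one hd0]
          linarith
        nlinarith
      refine le_trans ?_ e1
      rw [mul_div_assoc', div_mul_eq_mul_div]
      refine div_le_div_of_nonneg_right ?_ hd1.le
      rw [hXe, hs, hu]
      nlinarith [mul_nonneg hu0 hs0, mul_nonneg hu0 hu0, mul_nonneg hs0 hs0]
    · have h0 : (424 / 0.64 : ℝ) ≤ exp 6.5 :=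
        (by norm_num [Finset.sum_range_succ, Nat.factorial] :
          (424 / 0.64 : ℝ) ≤ ∑ i ∈ Finset.range 17, (6.5 : ℝ) ^ i / i.factorial).trans
          (sum_le_exp_of_nonneg (by norm_num) 17)
      have h1 := add_one_le_exp (4 / 53 * u)
      have h2 := add_one_le_exp (1 / 12 * u)
      have h3 := add_one_le_exp (1 / 35 * s)
      have e : exp (6.5 + ((4 / 53 + 1 / 12) * u + 1 / 35 * s)) =
          exp 6.5 * (exp (4 / 53 * u) * (exp (1 / 12 * u) * exp (1 / 35 * s))) := by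
        rw [← exp_add, ← exp_add, ← exp_add]
        congr 1
        ring
      rw [e]
      have h4 : (1 + 4 / 53 * u) * ((1 + 1 / 12 * u) * (1 + 1 / 35 * s)) ≤
          exp (4 / 53 * u) * (exp (1 / 12 * u) * exp (1 / 35 * s)) := by
        refine mul_le_mul (by linarith) (mul_le_mul (by linarith) (by linarith) (by positivity)
          (exp_pos _).le) (by positivity) (exp_pos _).le
      have h5 : (424 / 0.64 : ℝ) * ((1 + 4 / 53 * u) * ((1 + 1 / 12 * u) * (1 + 1 / 35 * s))) ≤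
          exp 6.5 * (exp (4 / 53 * u) * (exp (1 / 12 * u) * exp (1 / 35 * s))) :=
        mul_le_mul h0 h4 (by positivity) (exp_pos _).le
      have h6 : (n : ℝ) * d ≤
          424 * ((1 + 4 / 53 * u) * ((1 + 1 / 12 * u) * (1 + 1 / 35 * s))) := by
        rw [hs, hu]
        nlinarith [mul_nonneg hu0 hs0, mul_nonneg hu0 hu0, mul_nonneg hs0 hs0,
          mul_nonneg (mul_nonneg hu0 hu0) hs0]
      linarith
  obtain ⟨M, hM⟩ : ∃ M : ℝ, M = X / (2 * ((d : ℝ) - 1)) := ⟨_, rfl⟩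
  rw [← hM] at hMν hM1 key
  have hi : (0 : ℝ) < 1 / d := by positivity
  have e1 : ∀ a : ℝ, a / (d : ℝ) = a * (1 / d) := fun a => by ring
  obtain ⟨w, hw⟩ : ∃ w : ℝ, w = 1 / (d : ℝ) := ⟨_, rfl⟩
  refine ⟨key _ ?_, key _ ?_⟩
  · rw [e1, e1 ν]
    rw [← hw] at hi hM1 ⊢
    nlinarith
  · rw [e1, e1 ν]
    rw [← hw] at hi hM1 ⊢
    nlinarith

end Pool.Agent.UPS.Num
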