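import Pool.Agent.Lib.MP_876e19_co_ups.NumSoftD

/-!
# Numerics of the non-bipartite case, odd order, valency four (helper4, TT876)
-/

set_option autoImplicit false

namespace Pool.Agent.UPS.Num

open Real IB

theorem s4odd {n : ℕ} (hn : 23 ≤ n) {S L co ci : ℝ} (hS : S ≤ 4 * (n - 2) / 4)
    (hL : L ≤ 2 * (n - 4) / 2) (hco : 2 * ((n : ℝ) - 6) ≤ co) (hci : 2 * ((n : ℝ) - 5) ≤ ci) :
    soft n 4 4 S L co ci ≤ 1 / 100 := by
  obtain ⟨s, hs⟩ : ∃ s : ℝ, (n : ℝ) = 23 + s := ⟨n - 23, by ring⟩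
  have hs0 : 0 ≤ s := by
    have : (23 : ℝ) ≤ n := by exact_mod_cast hn
    linarith
  rw [hs] at hS hL hco hci
  have hVE := VE_le (k := 4) (d := 4) (m := 0) (r₁ := 9 / 25) (r₂ := 27 / 25) (q := 0)
    hS hL (by norm_num) (by norm_num) (by norm_num) (by norm_num) (by push_cast; linarith)
    (by linarith) (by norm_num) (by norm_num) (by norm_num) (by norm_num)
  have hV0 := VE_nonneg' S L 4 (d := 4) (by norm_num)
  unfold soft
  rw [hs]
  push_cast
  rw [mul_add]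
  refine (add_le_add (term_le (c := 47 / 5 + 1 / 23 * s) (τ := 9 / 1000) ?_ hV0 hVE
    (by positivity) ?_ (by norm_num)) (term_le (c := 58 / 5 + 1 / 23 * s) (τ := 1 / 1000)
    ?_ hV0 hVE (by positivity) ?_ (by norm_num))).trans (by norm_num)
  · have h := exp_lin (r := 23 * 4 / 2 / (9 / 1000)) (c₀ := 47 / 5) (c₁ := 1 / 23) (s := s)
      ((by norm_num [Finset.sum_range_succ, Nat.factorial] :
        (23 * 4 / 2 / (9 / 1000) : ℝ) ≤
          ∑ i ∈ Finset.range 11, (47 / 5 : ℝ) ^ i / i.factorial).trans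
        (sum_le_exp_of_nonneg (by norm_num) 11)) (by positivity)
    linarith
  · refine le_trans ?_ (pow_le_pow_left₀ (a := 2 * (23 + s - 6) -
      4 * (23 + s - 1 - 4) / 4) (by linarith) (by linarith) 2)
    norm_num
    nlinarith [mul_nonneg hs0 hs0]
  · have h := exp_lin (r := 23 * 4 / 2 / (1 / 1000)) (c₀ := 58 / 5) (c₁ := 1 / 23) (s := s)
      ((by norm_num [Finset.sum_range_succ, Nat.factorial] :
        (23 * 4 / 2 / (1 / 1000) : ℝ) ≤
          ∑ i ∈ Finset.range 13, (58 / 5 : ℝ) ^ i / i.factorial).trans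
        (sum_le_exp_of_nonneg (by norm_num) 13)) (by positivity)
    linarith
  · refine le_trans ?_ (pow_le_pow_left₀ (a := 2 * (23 + s - 5) -
      4 * (23 + s - 1 - 4) / 4) (by linarith) (by linarith) 2)
    norm_num
    nlinarith [mul_nonneg hs0 hs0]

lemma exp_17_25 : exp (17 / 25) < (1975 / 1000 : ℝ) := by
  have h := exp_bound' (x := 17 / 25) (by norm_num) (by norm_num) (n := 9) (by norm_num)
  refine h.trans_lt ?_
  norm_num [Finset.sum_range_succ, Nat.factorial]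

lemma o4 {n : ℕ} (hn : 23 ≤ n) {S L V μ : ℝ} (hS : S ≤ 4 * (n - 2) / 4)
    (hL : L ≤ 2 * (n - 4) / 2) (hV0 : 0 < V) (hV : V ≤ VW S L 4 4 0)
    (hμ : (Wd n 4 4 - 2 / 4) / 2 ≤ μ) : Q n 4 (4 * μ ^ 2 / (9 * V)) ≤ exp (17 / 25) := by
  obtain ⟨s, hs⟩ : ∃ s : ℝ, (n : ℝ) = 23 + s := ⟨n - 23, by ring⟩
  have hs0 : 0 ≤ s := by
    have : (23 : ℝ) ≤ n := by exact_mod_cast hn
    linarith
  rw [hs] at hS hL hμ
  refine fixd (by norm_num : 4 ≤ 4) (c := 491 / 100 + 1 / 23 * s) (ℓ := 17 / 25) hV0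
    (hV.trans (VW_le (ε₁ := 1 / 1000) (ε₂ := 1 / 7) hS hL (by norm_num) (by norm_num) (by norm_num)
      le_rfl (by linarith) (by linarith) (by norm_num) (by norm_num)))
    (M := (Wd (23 + s) 4 4 - 2 / 4) / 2) ?_ hμ (by positivity) ?_ ?_
  · unfold Wd
    norm_num
    nlinarith
  · unfold Wd
    norm_num
    nlinarith [mul_nonneg hs0 hs0]
  · rw [hs]
    have h := exp_lin (r := 23 * 4 / (17 / 25)) (c₀ := 491 / 100) (c₁ := 1 / 23) (s := s)
      ((by norm_num [Finset.sum_range_succ, Nat.factorial] :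
        (23 * 4 / (17 / 25) : ℝ) ≤ ∑ i ∈ Finset.range 15, (491 / 100 : ℝ) ^ i / i.factorial).trans
        (sum_le_exp_of_nonneg (by norm_num) 15)) (by positivity)
    push_cast
    linarith

end Pool.Agent.UPS.Num
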