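import Pool.Agent.Lib.MP_876e19_co_ups.NumSoftD

/-!
# Numerics: the single-edge kill terms, NumSoftA (helper4, TT876)
-/

set_option autoImplicit false

namespace Pool.Agent.UPS.Num

open Real IB

theorem s4 {n : ℕ} (hn : 22 ≤ n) {S L co ci : ℝ} (hS : S ≤ 4 * (n - 2) / 4)
    (hL : L ≤ 2 * (n - 4) / 2) (hco : 2 * ((n : ℝ) - 7) ≤ co) (hci : 2 * ((n : ℝ) - 6) ≤ ci) :
    soft n 4 4 S L co ci ≤ 1 / 10 := by
  obtain ⟨s, hs⟩ : ∃ s : ℝ, (n : ℝ) = 22 + s := ⟨n - 22, by ring⟩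
  have hs0 : 0 ≤ s := by
    have : (22 : ℝ) ≤ n := by exact_mod_cast hn
    linarith
  rw [hs] at hS hL hco hci
  have hVE := VE_le (k := 4) (d := 4) (m := 0) (r₁ := 7 / 20) (r₂ := 21 / 20) (q := 0)
    hS hL (by norm_num) (by norm_num) (by norm_num) (by norm_num) (by push_cast; linarith)
    (by linarith) (by norm_num) (by norm_num) (by norm_num) (by norm_num)
  have hV0 := VE_nonneg' S L 4 (d := 4) (by norm_num)
  unfold soft
  rw [hs]
  push_cast
  rw [mul_add]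
  refine (add_le_add (term_le (c := 67 / 10 + 1 / 22 * s) (τ := 9 / 100) ?_ hV0 hVE
    (by positivity) ?_ (by norm_num)) (term_le (c := 91 / 10 + 1 / 22 * s) (τ := 1 / 100)
    ?_ hV0 hVE (by positivity) ?_ (by norm_num))).trans (by norm_num)
  · have h := exp_lin (r := 22 * 4 / 2 / (9 / 100)) (c₀ := 67 / 10) (c₁ := 1 / 22) (s := s)
      ((by norm_num [Finset.sum_range_succ, Nat.factorial] :
        (22 * 4 / 2 / (9 / 100) : ℝ) ≤
          ∑ i ∈ Finset.range 9, (67 / 10 : ℝ) ^ i / i.factorial).trans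
        (sum_le_exp_of_nonneg (by norm_num) 9)) (by positivity)
    linarith
  · refine le_trans ?_ (pow_le_pow_left₀ (a := 2 * (22 + s - 7) -
      4 * (22 + s - 1 - 4) / 4) (by linarith) (by linarith) 2)
    norm_num
    nlinarith [mul_nonneg hs0 hs0]
  · have h := exp_lin (r := 22 * 4 / 2 / (1 / 100)) (c₀ := 91 / 10) (c₁ := 1 / 22) (s := s)
      ((by norm_num [Finset.sum_range_succ, Nat.factorial] :
        (22 * 4 / 2 / (1 / 100) : ℝ) ≤
          ∑ i ∈ Finset.range 11, (91 / 10 : ℝ) ^ i / i.factorial).trans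
        (sum_le_exp_of_nonneg (by norm_num) 11)) (by positivity)
    linarith
  · refine le_trans ?_ (pow_le_pow_left₀ (a := 2 * (22 + s - 6) -
      4 * (22 + s - 1 - 4) / 4) (by linarith) (by linarith) 2)
    norm_num
    nlinarith [mul_nonneg hs0 hs0]

theorem s5 {n : ℕ} (hn : 20 ≤ n) {S L co ci : ℝ} (hS : S ≤ 5 * (n - 2) / 5)
    (hL : L ≤ 2 * (n - 5) / 2) (hco : 2 * ((n : ℝ) - 8) ≤ co) (hci : 2 * ((n : ℝ) - 6) ≤ ci) :
    soft n 5 5 S L co ci ≤ 1 / 10 := by
  obtain ⟨s, hs⟩ : ∃ s : ℝ, (n : ℝ) = 20 + s := ⟨n - 20, by ring⟩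
  have hs0 : 0 ≤ s := by
    have : (20 : ℝ) ≤ n := by exact_mod_cast hn
    linarith
  rw [hs] at hS hL hco hci
  have hVE := VE_le (k := 5) (d := 5) (m := 0) (r₁ := 1 / 4) (r₂ := 49 / 50) (q := 0)
    hS hL (by norm_num) (by norm_num) (by norm_num) (by norm_num) (by push_cast; linarith)
    (by linarith) (by norm_num) (by norm_num) (by norm_num) (by norm_num)
  have hV0 := VE_nonneg' S L 5 (d := 5) (by norm_num)
  unfold soft
  rw [hs]
  push_cast
  rw [mul_add]
  refine (add_le_add (term_le (c := 127 / 20 + 1 / 20 * s) (τ := 9 / 100) ?_ hV0 hVE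
    (by positivity) ?_ (by norm_num)) (term_le (c := 47 / 5 + 1 / 20 * s) (τ := 1 / 100)
    ?_ hV0 hVE (by positivity) ?_ (by norm_num))).trans (by norm_num)
  · have h := exp_lin (r := 20 * 5 / 2 / (9 / 100)) (c₀ := 127 / 20) (c₁ := 1 / 20) (s := s)
      ((by norm_num [Finset.sum_range_succ, Nat.factorial] :
        (20 * 5 / 2 / (9 / 100) : ℝ) ≤
          ∑ i ∈ Finset.range 13, (127 / 20 : ℝ) ^ i / i.factorial).trans
        (sum_le_exp_of_nonneg (by norm_num) 13)) (by positivity)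
    linarith
  · refine le_trans ?_ (pow_le_pow_left₀ (a := 2 * (20 + s - 8) -
      4 * (20 + s - 1 - 5) / 5) (by linarith) (by linarith) 2)
    norm_num
    nlinarith [mul_nonneg hs0 hs0]
  · have h := exp_lin (r := 20 * 5 / 2 / (1 / 100)) (c₀ := 47 / 5) (c₁ := 1 / 20) (s := s)
      ((by norm_num [Finset.sum_range_succ, Nat.factorial] :
        (20 * 5 / 2 / (1 / 100) : ℝ) ≤
          ∑ i ∈ Finset.range 11, (47 / 5 : ℝ) ^ i / i.factorial).trans
        (sum_le_exp_of_nonneg (by norm_num) 11)) (by positivity)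
    linarith
  · refine le_trans ?_ (pow_le_pow_left₀ (a := 2 * (20 + s - 6) -
      4 * (20 + s - 1 - 5) / 5) (by linarith) (by linarith) 2)
    norm_num
    nlinarith [mul_nonneg hs0 hs0]

theorem s6 {n : ℕ} (hn : 22 ≤ n) {S L co ci : ℝ} (hS : S ≤ 5 * (n - 2) / 6)
    (hL : L ≤ 2 * (n - 5) / 3) (hco : 2 * ((n : ℝ) - 9) ≤ co) (hci : 2 * ((n : ℝ) - 6) ≤ ci) :
    soft n 6 5 S L co ci ≤ 1 / 10 := by
  obtain ⟨s, hs⟩ : ∃ s : ℝ, (n : ℝ) = 22 + s := ⟨n - 22, by ring⟩
  have hs0 : 0 ≤ s := by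
    have : (22 : ℝ) ≤ n := by exact_mod_cast hn
    linarith
  rw [hs] at hS hL hco hci
  have hVE := VE_le (k := 5) (d := 6) (m := 1) (r₁ := 1 / 4) (r₂ := 43 / 50) (q := 1 / 5)
    hS hL (by norm_num) (by norm_num) (by norm_num) (by norm_num) (by push_cast; linarith)
    (by linarith) (by norm_num) (by norm_num) (by norm_num) (by norm_num)
  have hV0 := VE_nonneg' S L 5 (d := 6) (by norm_num)
  unfold soft
  rw [hs]
  push_cast
  rw [mul_add]
  refine (add_le_add (term_le (c := 34 / 5 + 1 / 22 * s) (τ := 9 / 100) ?_ hV0 hVE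
    (by positivity) ?_ (by norm_num)) (term_le (c := 48 / 5 + 1 / 22 * s) (τ := 1 / 100)
    ?_ hV0 hVE (by positivity) ?_ (by norm_num))).trans (by norm_num)
  · have h := exp_lin (r := 22 * 6 / 2 / (9 / 100)) (c₀ := 34 / 5) (c₁ := 1 / 22) (s := s)
      ((by norm_num [Finset.sum_range_succ, Nat.factorial] :
        (22 * 6 / 2 / (9 / 100) : ℝ) ≤
          ∑ i ∈ Finset.range 11, (34 / 5 : ℝ) ^ i / i.factorial).trans
        (sum_le_exp_of_nonneg (by norm_num) 11)) (by positivity)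
    linarith
  · refine le_trans ?_ (pow_le_pow_left₀ (a := 2 * (22 + s - 9) -
      4 * (22 + s - 1 - 6) / 5) (by linarith) (by linarith) 2)
    norm_num
    nlinarith [mul_nonneg hs0 hs0]
  · have h := exp_lin (r := 22 * 6 / 2 / (1 / 100)) (c₀ := 48 / 5) (c₁ := 1 / 22) (s := s)
      ((by norm_num [Finset.sum_range_succ, Nat.factorial] :
        (22 * 6 / 2 / (1 / 100) : ℝ) ≤
          ∑ i ∈ Finset.range 11, (48 / 5 : ℝ) ^ i / i.factorial).trans
        (sum_le_exp_of_nonneg (by norm_num) 11)) (by positivity)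
    linarith
  · refine le_trans ?_ (pow_le_pow_left₀ (a := 2 * (22 + s - 6) -
      4 * (22 + s - 1 - 6) / 5) (by linarith) (by linarith) 2)
    norm_num
    nlinarith [mul_nonneg hs0 hs0]

theorem s6g0 {n : ℕ} (hn : 20 ≤ n) {S L co ci : ℝ} (hS : S ≤ 5 * (n - 2) / 6)
    (hL : L ≤ 2 * (n - 5) / 3) (hco : 2 * ((n : ℝ) - 8) ≤ co) (hci : 2 * ((n : ℝ) - 5) ≤ ci) :
    soft n 6 5 S L co ci ≤ 1 / 10 := by
  obtain ⟨s, hs⟩ : ∃ s : ℝ, (n : ℝ) = 20 + s := ⟨n - 20, by ring⟩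
  have hs0 : 0 ≤ s := by
    have : (20 : ℝ) ≤ n := by exact_mod_cast hn
    linarith
  rw [hs] at hS hL hco hci
  have hVE := VE_le (k := 5) (d := 6) (m := 1) (r₁ := 6 / 25) (r₂ := 81 / 100) (q := 1 / 5)
    hS hL (by norm_num) (by norm_num) (by norm_num) (by norm_num) (by push_cast; linarith)
    (by linarith) (by norm_num) (by norm_num) (by norm_num) (by norm_num)
  have hV0 := VE_nonneg' S L 5 (d := 6) (by norm_num)
  unfold soft
  rw [hs]
  push_cast
  rw [mul_add]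
  refine (add_le_add (term_le (c := 67 / 10 + 1 / 20 * s) (τ := 9 / 100) ?_ hV0 hVE
    (by positivity) ?_ (by norm_num)) (term_le (c := 19 / 2 + 1 / 20 * s) (τ := 1 / 100)
    ?_ hV0 hVE (by positivity) ?_ (by norm_num))).trans (by norm_num)
  · have h := exp_lin (r := 20 * 6 / 2 / (9 / 100)) (c₀ := 67 / 10) (c₁ := 1 / 20) (s := s)
      ((by norm_num [Finset.sum_range_succ, Nat.factorial] :
        (20 * 6 / 2 / (9 / 100) : ℝ) ≤
          ∑ i ∈ Finset.range 11, (67 / 10 : ℝ) ^ i / i.factorial).trans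
        (sum_le_exp_of_nonneg (by norm_num) 11)) (by positivity)
    linarith
  · refine le_trans ?_ (pow_le_pow_left₀ (a := 2 * (20 + s - 8) -
      4 * (20 + s - 1 - 6) / 5) (by linarith) (by linarith) 2)
    norm_num
    nlinarith [mul_nonneg hs0 hs0]
  · have h := exp_lin (r := 20 * 6 / 2 / (1 / 100)) (c₀ := 19 / 2) (c₁ := 1 / 20) (s := s)
      ((by norm_num [Finset.sum_range_succ, Nat.factorial] :
        (20 * 6 / 2 / (1 / 100) : ℝ) ≤
          ∑ i ∈ Finset.range 11, (19 / 2 : ℝ) ^ i / i.factorial).trans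
        (sum_le_exp_of_nonneg (by norm_num) 11)) (by positivity)
    linarith
  · refine le_trans ?_ (pow_le_pow_left₀ (a := 2 * (20 + s - 5) -
      4 * (20 + s - 1 - 6) / 5) (by linarith) (by linarith) 2)
    norm_num
    nlinarith [mul_nonneg hs0 hs0]

end Pool.Agent.UPS.Num
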