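import Pool.Agent.Lib.MP_876e19_co_ups.NumSoftD

/-!
# Numerics: the single-edge kill terms, NumSoftB (helper4, TT876)
-/

set_option autoImplicit false

namespace Pool.Agent.UPS.Num

open Real IB

theorem s7 {n : ℕ} (hn : 24 ≤ n) {S L co ci : ℝ} (hS : S ≤ 5 * (n - 2) / 6)
    (hL : L ≤ 2 * (n - 5) / 3) (hco : 2 * ((n : ℝ) - 10) ≤ co) (hci : 2 * ((n : ℝ) - 6) ≤ ci) :
    soft n 7 5 S L co ci ≤ 1 / 10 := by
  obtain ⟨s, hs⟩ : ∃ s : ℝ, (n : ℝ) = 24 + s := ⟨n - 24, by ring⟩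
  have hs0 : 0 ≤ s := by
    have : (24 : ℝ) ≤ n := by exact_mod_cast hn
    linarith
  rw [hs] at hS hL hco hci
  have hVE := VE_le (k := 5) (d := 7) (m := 2) (r₁ := 7 / 25) (r₂ := 23 / 25) (q := 283 / 1000)
    hS hL (by norm_num) (by norm_num) (by norm_num) (by norm_num) (by push_cast; linarith)
    (by linarith) (by norm_num) (by norm_num) (by norm_num) (by norm_num)
  have hV0 := VE_nonneg' S L 5 (d := 7) (by norm_num)
  unfold soft
  rw [hs]
  push_cast
  rw [mul_add]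
  refine (add_le_add (term_le (c := 169 / 25 + 1 / 24 * s) (τ := 99 / 1000) ?_ hV0 hVE
    (by positivity) ?_ (by norm_num)) (term_le (c := 61 / 5 + 1 / 24 * s) (τ := 1 / 1000)
    ?_ hV0 hVE (by positivity) ?_ (by norm_num))).trans (by norm_num)
  · have h := exp_lin (r := 24 * 7 / 2 / (99 / 1000)) (c₀ := 169 / 25) (c₁ := 1 / 24) (s := s)
      ((by norm_num [Finset.sum_range_succ, Nat.factorial] :
        (24 * 7 / 2 / (99 / 1000) : ℝ) ≤
          ∑ i ∈ Finset.range 15, (169 / 25 : ℝ) ^ i / i.factorial).trans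
        (sum_le_exp_of_nonneg (by norm_num) 15)) (by positivity)
    linarith
  · refine le_trans ?_ (pow_le_pow_left₀ (a := 2 * (24 + s - 10) -
      4 * (24 + s - 1 - 7) / 5) (by linarith) (by linarith) 2)
    norm_num
    nlinarith [mul_nonneg hs0 hs0]
  · have h := exp_lin (r := 24 * 7 / 2 / (1 / 1000)) (c₀ := 61 / 5) (c₁ := 1 / 24) (s := s)
      ((by norm_num [Finset.sum_range_succ, Nat.factorial] :
        (24 * 7 / 2 / (1 / 1000) : ℝ) ≤
          ∑ i ∈ Finset.range 13, (61 / 5 : ℝ) ^ i / i.factorial).trans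
        (sum_le_exp_of_nonneg (by norm_num) 13)) (by positivity)
    linarith
  · refine le_trans ?_ (pow_le_pow_left₀ (a := 2 * (24 + s - 6) -
      4 * (24 + s - 1 - 7) / 5) (by linarith) (by linarith) 2)
    norm_num
    nlinarith [mul_nonneg hs0 hs0]

theorem s8 {n : ℕ} (hn : 26 ≤ n) {S L co ci : ℝ} (hS : S ≤ 5 * (n - 2) / 8)
    (hL : L ≤ 2 * (n - 5) / 5) (hco : 2 * ((n : ℝ) - 11) ≤ co) (hci : 2 * ((n : ℝ) - 6) ≤ ci) :
    soft n 8 5 S L co ci ≤ 1 / 10 := by
  obtain ⟨s, hs⟩ : ∃ s : ℝ, (n : ℝ) = 26 + s := ⟨n - 26, by ring⟩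
  have hs0 : 0 ≤ s := by
    have : (26 : ℝ) ≤ n := by exact_mod_cast hn
    linarith
  rw [hs] at hS hL hco hci
  have hVE := VE_le (k := 5) (d := 8) (m := 3) (r₁ := 27 / 100) (r₂ := 19 / 25) (q := 347 / 1000)
    hS hL (by norm_num) (by norm_num) (by norm_num) (by norm_num) (by push_cast; linarith)
    (by linarith) (by norm_num) (by norm_num) (by norm_num) (by norm_num)
  have hV0 := VE_nonneg' S L 5 (d := 8) (by norm_num)
  unfold soft
  rw [hs]
  push_cast
  rw [mul_add]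
  refine (add_le_add (term_le (c := 37 / 5 + 1 / 26 * s) (τ := 9 / 100) ?_ hV0 hVE
    (by positivity) ?_ (by norm_num)) (term_le (c := 101 / 10 + 1 / 26 * s) (τ := 1 / 100)
    ?_ hV0 hVE (by positivity) ?_ (by norm_num))).trans (by norm_num)
  · have h := exp_lin (r := 26 * 8 / 2 / (9 / 100)) (c₀ := 37 / 5) (c₁ := 1 / 26) (s := s)
      ((by norm_num [Finset.sum_range_succ, Nat.factorial] :
        (26 * 8 / 2 / (9 / 100) : ℝ) ≤
          ∑ i ∈ Finset.range 11, (37 / 5 : ℝ) ^ i / i.factorial).trans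
        (sum_le_exp_of_nonneg (by norm_num) 11)) (by positivity)
    linarith
  · refine le_trans ?_ (pow_le_pow_left₀ (a := 2 * (26 + s - 11) -
      4 * (26 + s - 1 - 8) / 5) (by linarith) (by linarith) 2)
    norm_num
    nlinarith [mul_nonneg hs0 hs0]
  · have h := exp_lin (r := 26 * 8 / 2 / (1 / 100)) (c₀ := 101 / 10) (c₁ := 1 / 26) (s := s)
      ((by norm_num [Finset.sum_range_succ, Nat.factorial] :
        (26 * 8 / 2 / (1 / 100) : ℝ) ≤
          ∑ i ∈ Finset.range 11, (101 / 10 : ℝ) ^ i / i.factorial).trans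
        (sum_le_exp_of_nonneg (by norm_num) 11)) (by positivity)
    linarith
  · refine le_trans ?_ (pow_le_pow_left₀ (a := 2 * (26 + s - 6) -
      4 * (26 + s - 1 - 8) / 5) (by linarith) (by linarith) 2)
    norm_num
    nlinarith [mul_nonneg hs0 hs0]

theorem s9 {n : ℕ} (hn : 28 ≤ n) {S L co ci : ℝ} (hS : S ≤ 5 * (n - 2) / 8)
    (hL : L ≤ 2 * (n - 5) / 5) (hco : 2 * ((n : ℝ) - 12) ≤ co) (hci : 2 * ((n : ℝ) - 6) ≤ ci) :
    soft n 9 5 S L co ci ≤ 1 / 10 := by
  obtain ⟨s, hs⟩ : ∃ s : ℝ, (n : ℝ) = 28 + s := ⟨n - 28, by ring⟩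
  have hs0 : 0 ≤ s := by
    have : (28 : ℝ) ≤ n := by exact_mod_cast hn
    linarith
  rw [hs] at hS hL hco hci
  have hVE := VE_le (k := 5) (d := 9) (m := 4) (r₁ := 29 / 100) (r₂ := 4 / 5) (q := 2 / 5)
    hS hL (by norm_num) (by norm_num) (by norm_num) (by norm_num) (by push_cast; linarith)
    (by linarith) (by norm_num) (by norm_num) (by norm_num) (by norm_num)
  have hV0 := VE_nonneg' S L 5 (d := 9) (by norm_num)
  unfold soft
  rw [hs]
  push_cast
  rw [mul_add]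
  refine (add_le_add (term_le (c := 15 / 2 + 1 / 28 * s) (τ := 9 / 100) ?_ hV0 hVE
    (by positivity) ?_ (by norm_num)) (term_le (c := 103 / 10 + 1 / 28 * s) (τ := 1 / 100)
    ?_ hV0 hVE (by positivity) ?_ (by norm_num))).trans (by norm_num)
  · have h := exp_lin (r := 28 * 9 / 2 / (9 / 100)) (c₀ := 15 / 2) (c₁ := 1 / 28) (s := s)
      ((by norm_num [Finset.sum_range_succ, Nat.factorial] :
        (28 * 9 / 2 / (9 / 100) : ℝ) ≤
          ∑ i ∈ Finset.range 11, (15 / 2 : ℝ) ^ i / i.factorial).trans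
        (sum_le_exp_of_nonneg (by norm_num) 11)) (by positivity)
    linarith
  · refine le_trans ?_ (pow_le_pow_left₀ (a := 2 * (28 + s - 12) -
      4 * (28 + s - 1 - 9) / 5) (by linarith) (by linarith) 2)
    norm_num
    nlinarith [mul_nonneg hs0 hs0]
  · have h := exp_lin (r := 28 * 9 / 2 / (1 / 100)) (c₀ := 103 / 10) (c₁ := 1 / 28) (s := s)
      ((by norm_num [Finset.sum_range_succ, Nat.factorial] :
        (28 * 9 / 2 / (1 / 100) : ℝ) ≤
          ∑ i ∈ Finset.range 12, (103 / 10 : ℝ) ^ i / i.factorial).trans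
        (sum_le_exp_of_nonneg (by norm_num) 12)) (by positivity)
    linarith
  · refine le_trans ?_ (pow_le_pow_left₀ (a := 2 * (28 + s - 6) -
      4 * (28 + s - 1 - 9) / 5) (by linarith) (by linarith) 2)
    norm_num
    nlinarith [mul_nonneg hs0 hs0]

end Pool.Agent.UPS.Num
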