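import Pool.Agent.Lib.MP_876e19_co_ups.NumSoftD

/-!
# Numerics: the single-edge kill terms, NumSoftC (helper4, TT876)
-/

set_option autoImplicit false

namespace Pool.Agent.UPS.Num

open Real IB

theorem s10 {n : ℕ} (hn : 30 ≤ n) {S L co ci : ℝ} (hS : S ≤ 5 * (n - 2) / 8)
    (hL : L ≤ 2 * (n - 5) / 5) (hco : 2 * ((n : ℝ) - 13) ≤ co) (hci : 2 * ((n : ℝ) - 6) ≤ ci) :
    soft n 10 5 S L co ci ≤ 1 / 10 := by
  obtain ⟨s, hs⟩ : ∃ s : ℝ, (n : ℝ) = 30 + s := ⟨n - 30, by ring⟩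
  have hs0 : 0 ≤ s := by
    have : (30 : ℝ) ≤ n := by exact_mod_cast hn
    linarith
  rw [hs] at hS hL hco hci
  have hVE := VE_le (k := 5) (d := 10) (m := 5) (r₁ := 8 / 25) (r₂ := 21 / 25) (q := 56 / 125)
    hS hL (by norm_num) (by norm_num) (by norm_num) (by norm_num) (by push_cast; linarith)
    (by linarith) (by norm_num) (by norm_num) (by norm_num) (by norm_num)
  have hV0 := VE_nonneg' S L 5 (d := 10) (by norm_num)
  unfold soft
  rw [hs]
  push_cast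
  rw [mul_add]
  refine (add_le_add (term_le (c := 38 / 5 + 1 / 30 * s) (τ := 9 / 100) ?_ hV0 hVE
    (by positivity) ?_ (by norm_num)) (term_le (c := 21 / 2 + 1 / 30 * s) (τ := 1 / 100)
    ?_ hV0 hVE (by positivity) ?_ (by norm_num))).trans (by norm_num)
  · have h := exp_lin (r := 30 * 10 / 2 / (9 / 100)) (c₀ := 38 / 5) (c₁ := 1 / 30) (s := s)
      ((by norm_num [Finset.sum_range_succ, Nat.factorial] :
        (30 * 10 / 2 / (9 / 100) : ℝ) ≤
          ∑ i ∈ Finset.range 12, (38 / 5 : ℝ) ^ i / i.factorial).trans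
        (sum_le_exp_of_nonneg (by norm_num) 12)) (by positivity)
    linarith
  · refine le_trans ?_ (pow_le_pow_left₀ (a := 2 * (30 + s - 13) -
      4 * (30 + s - 1 - 10) / 5) (by linarith) (by linarith) 2)
    norm_num
    nlinarith [mul_nonneg hs0 hs0]
  · have h := exp_lin (r := 30 * 10 / 2 / (1 / 100)) (c₀ := 21 / 2) (c₁ := 1 / 30) (s := s)
      ((by norm_num [Finset.sum_range_succ, Nat.factorial] :
        (30 * 10 / 2 / (1 / 100) : ℝ) ≤
          ∑ i ∈ Finset.range 12, (21 / 2 : ℝ) ^ i / i.factorial).trans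
        (sum_le_exp_of_nonneg (by norm_num) 12)) (by positivity)
    linarith
  · refine le_trans ?_ (pow_le_pow_left₀ (a := 2 * (30 + s - 6) -
      4 * (30 + s - 1 - 10) / 5) (by linarith) (by linarith) 2)
    norm_num
    nlinarith [mul_nonneg hs0 hs0]

theorem s11 {n : ℕ} (hn : 33 ≤ n) {S L co ci : ℝ} (hS : S ≤ 5 * (n - 2) / 9)
    (hL : L ≤ 2 * (n - 5) / 6) (hco : 2 * ((n : ℝ) - 14) ≤ co) (hci : 2 * ((n : ℝ) - 6) ≤ ci) :
    soft n 11 5 S L co ci ≤ 1 / 10 := by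
  obtain ⟨s, hs⟩ : ∃ s : ℝ, (n : ℝ) = 33 + s := ⟨n - 33, by ring⟩
  have hs0 : 0 ≤ s := by
    have : (33 : ℝ) ≤ n := by exact_mod_cast hn
    linarith
  rw [hs] at hS hL hco hci
  have hVE := VE_le (k := 5) (d := 11) (m := 5) (r₁ := 8 / 25) (r₂ := 81 / 100) (q := 56 / 125)
    hS hL (by norm_num) (by norm_num) (by norm_num) (by norm_num) (by push_cast; linarith)
    (by linarith) (by norm_num) (by norm_num) (by norm_num) (by norm_num)
  have hV0 := VE_nonneg' S L 5 (d := 11) (by norm_num)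
  unfold soft
  rw [hs]
  push_cast
  rw [mul_add]
  refine (add_le_add (term_le (c := 83 / 10 + 1 / 33 * s) (τ := 9 / 100) ?_ hV0 hVE
    (by positivity) ?_ (by norm_num)) (term_le (c := 107 / 10 + 1 / 33 * s) (τ := 1 / 100)
    ?_ hV0 hVE (by positivity) ?_ (by norm_num))).trans (by norm_num)
  · have h := exp_lin (r := 33 * 11 / 2 / (9 / 100)) (c₀ := 83 / 10) (c₁ := 1 / 33) (s := s)
      ((by norm_num [Finset.sum_range_succ, Nat.factorial] :
        (33 * 11 / 2 / (9 / 100) : ℝ) ≤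
          ∑ i ∈ Finset.range 10, (83 / 10 : ℝ) ^ i / i.factorial).trans
        (sum_le_exp_of_nonneg (by norm_num) 10)) (by positivity)
    linarith
  · refine le_trans ?_ (pow_le_pow_left₀ (a := 2 * (33 + s - 14) -
      4 * (33 + s - 1 - 11) / 5) (by linarith) (by linarith) 2)
    norm_num
    nlinarith [mul_nonneg hs0 hs0]
  · have h := exp_lin (r := 33 * 11 / 2 / (1 / 100)) (c₀ := 107 / 10) (c₁ := 1 / 33) (s := s)
      ((by norm_num [Finset.sum_range_succ, Nat.factorial] :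
        (33 * 11 / 2 / (1 / 100) : ℝ) ≤
          ∑ i ∈ Finset.range 12, (107 / 10 : ℝ) ^ i / i.factorial).trans
        (sum_le_exp_of_nonneg (by norm_num) 12)) (by positivity)
    linarith
  · refine le_trans ?_ (pow_le_pow_left₀ (a := 2 * (33 + s - 6) -
      4 * (33 + s - 1 - 11) / 5) (by linarith) (by linarith) 2)
    norm_num
    nlinarith [mul_nonneg hs0 hs0]

lemma VE12 {d n S' L' : ℝ} (hd : 12 ≤ d) (hn : 30 ≤ n) (hS' : S' = 15 * (n - 2) / (2 * (d + 2)))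
    (hL' : L' = 6 * (n - 5) / (2 * d - 5)) :
    2 * (d - 1) *
      (0.448 * (((2 * (S' - 5) + 4 * 5 * ((d - 2) / (d - 1)) ^ 2) / (16 * 5 ^ 2) +
        0.34 ^ 2) / (2 * 0.34)) +
      ((L' - 2 + 4 * ((d - 2) / (d - 1)) ^ 2) / 16 + 0.85 ^ 2) / (2 * 0.85)) + 0.448 ^ 2 + 1 ≤
    1.183 * d + 0.305 * n - 1.35 := by
  have hx : 0 < d - 1 := by linarith
  have hq1 : ((d - 2) / (d - 1)) ^ 2 ≤ 1 := by
    rw [div_pow, div_le_one (by positivity)]
    nlinarith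
  set q := ((d - 2) / (d - 1)) ^ 2 with hq
  have hq2 : (d - 1) * q ≤ d - 1 := by
    have := mul_le_mul_of_nonneg_left hq1 hx.le
    linarith
  have hS2 : (d - 1) * S' ≤ 7.5 * (n - 2) := by
    rw [hS', mul_div_assoc', div_le_iff₀ (by linarith)]
    nlinarith
  have hL2 : (d - 1) * L' ≤ 3.474 * (n - 5) := by
    rw [hL', mul_div_assoc', div_le_iff₀ (by linarith)]
    nlinarith
  have e : 2 * (d - 1) *
      (0.448 * (((2 * (S' - 5) + 4 * 5 * q) / (16 * 5 ^ 2) + 0.34 ^ 2) / (2 * 0.34)) +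
      ((L' - 2 + 4 * q) / 16 + 0.85 ^ 2) / (2 * 0.85)) + 0.448 ^ 2 + 1 =
      0.448 / 0.34 * (2 / 400) * ((d - 1) * S') - 0.448 / 0.34 * (10 / 400) * (d - 1) +
      0.448 / 0.34 * (20 / 400) * ((d - 1) * q) + 0.448 * 0.34 * (d - 1) +
      1 / 0.85 / 16 * ((d - 1) * L') - 1 / 0.85 * (2 / 16) * (d - 1) +
      1 / 0.85 * (4 / 16) * ((d - 1) * q) + 0.85 * (d - 1) + 0.448 ^ 2 + 1 := by ring
  rw [e]
  linarith

theorem s12 {n d κ : ℕ} (hd : 12 ≤ d) (hκ : 2 * (d + 2) ≤ 3 * κ) (hn : 2 * (d + 1) + κ ≤ n)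
    {S L co ci : ℝ} (hS : S ≤ 5 * (n - 2) / κ) (hL : L ≤ 2 * (n - 5) / (κ - 3))
    (hco : 2 * ((n : ℝ) - (d + 3)) ≤ co) (hci : 2 * ((n : ℝ) - 6) ≤ ci) :
    soft n d 5 S L co ci ≤ 1 / 10 := by
  have hdR : (12 : ℝ) ≤ d := by exact_mod_cast hd
  have hκR : 2 * ((d : ℝ) + 2) ≤ 3 * κ := by exact_mod_cast hκ
  have hnR : 2 * ((d : ℝ) + 1) + κ ≤ n := by exact_mod_cast hn
  obtain ⟨u, hu⟩ : ∃ u : ℝ, (d : ℝ) = 12 + u := ⟨d - 12, by ring⟩
  have hu0 : 0 ≤ u := by linarith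
  obtain ⟨s, hs⟩ : ∃ s : ℝ, (n : ℝ) = 106 / 3 + 8 / 3 * u + s :=
    ⟨n - 106 / 3 - 8 / 3 * u, by ring⟩
  have hs0 : 0 ≤ s := by linarith
  have hn30 : (30 : ℝ) ≤ n := by
    have := mul_nonneg (by norm_num : (0 : ℝ) ≤ 8 / 3) hu0
    linarith
  have hS' : S ≤ 15 * ((n : ℝ) - 2) / (2 * (d + 2)) := by
    refine hS.trans ?_
    rw [div_le_div_iff₀ (by linarith) (by linarith)]
    nlinarith
  have hL' : L ≤ 6 * ((n : ℝ) - 5) / (2 * d - 5) := by
    refine hL.trans ?_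
    rw [div_le_div_iff₀ (by linarith) (by linarith)]
    nlinarith
  have h5 : ((5 : ℕ) : ℝ) ≤ 15 * ((n : ℝ) - 2) / (2 * (d + 2)) := by
    rw [le_div_iff₀ (by linarith)]
    push_cast
    nlinarith
  have h2 : (2 : ℝ) ≤ 6 * ((n : ℝ) - 5) / (2 * d - 5) := by
    rw [le_div_iff₀ (by linarith)]
    nlinarith
  have hm : (5 : ℝ) = min ((5 : ℕ) : ℝ) ((d : ℝ) - (5 : ℕ)) := by
    rw [min_eq_left (by push_cast; linarith)]
    norm_num
  have hVE := (VE_le (k := 5) (d := d) (m := 5) (r₁ := 0.34) (r₂ := 0.85) (q := 0.448)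
    hS' hL' (by norm_num) (by omega) (by omega) hm h5 h2 (by norm_num) (by norm_num) (by norm_num)
    (by norm_num)).trans (by
      have := VE12 hdR hn30 rfl rfl
      push_cast
      exact this)
  have hV0 := VE_nonneg' S L 5 (d := d) (by omega)
  have hC1 : 1.2 * (n : ℝ) - 1.2 * d - 5.2 ≤ co - 4 * (n - 1 - d) / 5 := by linarith
  have hC2 : 1.2 * (n : ℝ) - 1.2 * d - 5.2 ≤ ci - 4 * (n - 1 - d) / 5 := by linarith
  have hC0 : 0 ≤ 1.2 * (n : ℝ) - 1.2 * d - 5.2 := by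
    rw [hs, hu]
    linarith
  have hexp : (n : ℝ) * d / 2 ≤ 1 / 20 * exp (8.4 + ((4 / 53 + 1 / 12) * u + 1 / 35 * s)) := by
    have h0 : (4240 : ℝ) ≤ exp 8.4 :=
      (by norm_num [Finset.sum_range_succ, Nat.factorial] :
        (4240 : ℝ) ≤ ∑ i ∈ Finset.range 20, (8.4 : ℝ) ^ i / i.factorial).trans
        (sum_le_exp_of_nonneg (by norm_num) 20)
    have h1 := add_one_le_exp (4 / 53 * u)
    have h2 := add_one_le_exp (1 / 12 * u)
    have h3 := add_one_le_exp (1 / 35 * s)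
    have e : exp (8.4 + ((4 / 53 + 1 / 12) * u + 1 / 35 * s)) =
        exp 8.4 * (exp (4 / 53 * u) * (exp (1 / 12 * u) * exp (1 / 35 * s))) := by
      rw [← exp_add, ← exp_add, ← exp_add]
      congr 1
      ring
    rw [e]
    have h4 : (1 + 4 / 53 * u) * ((1 + 1 / 12 * u) * (1 + 1 / 35 * s)) ≤
        exp (4 / 53 * u) * (exp (1 / 12 * u) * exp (1 / 35 * s)) := by
      refine mul_le_mul (by linarith) (mul_le_mul (by linarith) (by linarith) (by positivity)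
        (exp_pos _).le) (by positivity) (exp_pos _).le
    have h5 : (4240 : ℝ) * ((1 + 4 / 53 * u) * ((1 + 1 / 12 * u) * (1 + 1 / 35 * s))) ≤
        exp 8.4 * (exp (4 / 53 * u) * (exp (1 / 12 * u) * exp (1 / 35 * s))) :=
      mul_le_mul h0 h4 (by positivity) (exp_pos _).le
    have h6 : (n : ℝ) * d ≤ 424 * ((1 + 4 / 53 * u) * ((1 + 1 / 12 * u) * (1 + 1 / 35 * s))) := by
      rw [hs, hu]
      nlinarith [mul_nonneg hu0 hs0, mul_nonneg hu0 hu0, mul_nonneg hs0 hs0,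
        mul_nonneg (mul_nonneg hu0 hu0) hs0]
    linarith
  have hmain : (8.4 + ((4 / 53 + 1 / 12) * u + 1 / 35 * s)) *
      (2 * (1.183 * (d : ℝ) + 0.305 * n - 1.35 + 4)) ≤ (1.2 * (n : ℝ) - 1.2 * d - 5.2) ^ 2 := by
    rw [hs, hu]
    nlinarith [mul_nonneg hu0 hs0, mul_nonneg hu0 hu0, mul_nonneg hs0 hs0]
  unfold soft
  push_cast
  rw [mul_add]
  refine (add_le_add (term_le (τ := 1 / 20) hexp hV0 hVE (by positivity) ?_ (by norm_num))
    (term_le (τ := 1 / 20) hexp hV0 hVE (by positivity) ?_ (by norm_num))).trans (by norm_num)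
  · exact hmain.trans (pow_le_pow_left₀ hC0 hC1 2)
  · exact hmain.trans (pow_le_pow_left₀ hC0 hC2 2)

end Pool.Agent.UPS.Num
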