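import Pool.Agent.Lib.MP_876e19_co_ups.NumBase

/-!
# Numerics of the non-bipartite criterion, one scenario, part 1 (helper4, TT876)
-/

set_option autoImplicit false

namespace Pool.Agent.UPS.Num

open Real

lemma exp_lt_19 : exp 0.64 < 19 / 10 := by
  have h := exp_bound' (x := 0.64) (by norm_num) (by norm_num) (n := 9) (by norm_num)
  refine h.trans_lt ?_
  norm_num [Finset.sum_range_succ, Nat.factorial]

theorem t6odd {n : ℕ} (hn : 21 ≤ n) {S L V μ : ℝ} (hS : S ≤ 5 * (n - 2) / 6)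
    (hL : L ≤ 2 * (n - 5) / 3) (hV0 : 0 < V) (hV : V ≤ VW S L 5 6 1)
    (hμ : (Wd n 6 5 - 1 / 3) / 2 ≤ μ) : Q n 6 (4 * μ ^ 2 / (9 * V)) < 19 / 10 := by
  obtain ⟨s, hs⟩ : ∃ s : ℝ, (n : ℝ) = 21 + s := ⟨n - 21, by ring⟩
  have hs0 : 0 ≤ s := by
    have : (21 : ℝ) ≤ n := by exact_mod_cast hn
    linarith
  rw [hs] at hS hL hμ
  refine (fixd (by norm_num : 4 ≤ 6) (c := 27 / 5 + 1 / 21 * s) (ℓ := 0.64) hV0
    (hV.trans (VW_le (ε₁ := 1 / 12) (ε₂ := 1 / 8) hS hL (by norm_num) (by norm_num)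
      (by norm_num) le_rfl (by linarith) (by linarith) (by norm_num) (by norm_num)))
    (M := (Wd (21 + s) 6 5 - 1 / 3) / 2) ?_ hμ (by positivity) ?_ ?_).trans_lt exp_lt_19
  · unfold Wd
    norm_num
    nlinarith
  · unfold Wd
    norm_num
    nlinarith [mul_nonneg hs0 hs0]
  · rw [hs]
    have h := exp_lin (r := 21 * 6 / 0.64) (c₀ := 27 / 5) (c₁ := 1 / 21) (s := s)
      ((by norm_num [Finset.sum_range_succ, Nat.factorial] :
        (21 * 6 / 0.64 : ℝ) ≤ ∑ i ∈ Finset.range 10, (27 / 5 : ℝ) ^ i / i.factorial).trans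
        (sum_le_exp_of_nonneg (by norm_num) 10)) (by positivity)
    push_cast
    linarith

theorem t8 {n : ℕ} (hn : 26 ≤ n) {S L V μ : ℝ} (hS : S ≤ 5 * (n - 2) / 8)
    (hL : L ≤ 2 * (n - 5) / 5) (hV0 : 0 < V) (hV : V ≤ VW S L 5 8 3)
    (hμ : (Wd n 8 5 - 5 / 8) / 2 ≤ μ) : Q n 8 (4 * μ ^ 2 / (9 * V)) < 19 / 10 := by
  obtain ⟨s, hs⟩ : ∃ s : ℝ, (n : ℝ) = 26 + s := ⟨n - 26, by ring⟩
  have hs0 : 0 ≤ s := by
    have : (26 : ℝ) ≤ n := by exact_mod_cast hn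
    linarith
  rw [hs] at hS hL hμ
  refine (fixd (by norm_num : 4 ≤ 8) (c := 61 / 10 + 1 / 26 * s) (ℓ := 0.64) hV0
    (hV.trans (VW_le (ε₁ := 1 / 11) (ε₂ := 1 / 11) hS hL (by norm_num) (by norm_num)
      (by norm_num) le_rfl (by linarith) (by linarith) (by norm_num) (by norm_num)))
    (M := (Wd (26 + s) 8 5 - 5 / 8) / 2) ?_ hμ (by positivity) ?_ ?_).trans_lt exp_lt_19
  · unfold Wd
    norm_num
    nlinarith
  · unfold Wd
    norm_num
    nlinarith [mul_nonneg hs0 hs0]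
  · rw [hs]
    have h := exp_lin (r := 26 * 8 / 0.64) (c₀ := 61 / 10) (c₁ := 1 / 26) (s := s)
      ((by norm_num [Finset.sum_range_succ, Nat.factorial] :
        (26 * 8 / 0.64 : ℝ) ≤ ∑ i ∈ Finset.range 9, (61 / 10 : ℝ) ^ i / i.factorial).trans
        (sum_le_exp_of_nonneg (by norm_num) 9)) (by positivity)
    push_cast
    linarith

theorem t9 {n : ℕ} (hn : 28 ≤ n) {S L V μ : ℝ} (hS : S ≤ 5 * (n - 2) / 8)
    (hL : L ≤ 2 * (n - 5) / 5) (hV0 : 0 < V) (hV : V ≤ VW S L 5 9 4)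
    (hμ : (Wd n 9 5 - 11 / 18) / 2 ≤ μ) : Q n 9 (4 * μ ^ 2 / (9 * V)) < 19 / 10 := by
  obtain ⟨s, hs⟩ : ∃ s : ℝ, (n : ℝ) = 28 + s := ⟨n - 28, by ring⟩
  have hs0 : 0 ≤ s := by
    have : (28 : ℝ) ≤ n := by exact_mod_cast hn
    linarith
  rw [hs] at hS hL hμ
  refine (fixd (by norm_num : 4 ≤ 9) (c := 31 / 5 + 1 / 28 * s) (ℓ := 0.64) hV0
    (hV.trans (VW_le (ε₁ := 1 / 12) (ε₂ := 1 / 13) hS hL (by norm_num) (by norm_num)
      (by norm_num) le_rfl (by linarith) (by linarith) (by norm_num) (by norm_num)))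
    (M := (Wd (28 + s) 9 5 - 11 / 18) / 2) ?_ hμ (by positivity) ?_ ?_).trans_lt exp_lt_19
  · unfold Wd
    norm_num
    nlinarith
  · unfold Wd
    norm_num
    nlinarith [mul_nonneg hs0 hs0]
  · rw [hs]
    have h := exp_lin (r := 28 * 9 / 0.64) (c₀ := 31 / 5) (c₁ := 1 / 28) (s := s)
      ((by norm_num [Finset.sum_range_succ, Nat.factorial] :
        (28 * 9 / 0.64 : ℝ) ≤ ∑ i ∈ Finset.range 10, (31 / 5 : ℝ) ^ i / i.factorial).trans
        (sum_le_exp_of_nonneg (by norm_num) 10)) (by positivity)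
    push_cast
    linarith

theorem t10 {n : ℕ} (hn : 30 ≤ n) {S L V μ : ℝ} (hS : S ≤ 5 * (n - 2) / 8)
    (hL : L ≤ 2 * (n - 5) / 5) (hV0 : 0 < V) (hV : V ≤ VW S L 5 10 5)
    (hμ : (Wd n 10 5 - 3 / 5) / 2 ≤ μ) : Q n 10 (4 * μ ^ 2 / (9 * V)) < 19 / 10 := by
  obtain ⟨s, hs⟩ : ∃ s : ℝ, (n : ℝ) = 30 + s := ⟨n - 30, by ring⟩
  have hs0 : 0 ≤ s := by
    have : (30 : ℝ) ≤ n := by exact_mod_cast hn
    linarith
  rw [hs] at hS hL hμ
  refine (fixd (by norm_num : 4 ≤ 10) (c := 31 / 5 + 1 / 30 * s) (ℓ := 0.64) hV0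
    (hV.trans (VW_le (ε₁ := 1 / 13) (ε₂ := 1 / 15) hS hL (by norm_num) (by norm_num)
      (by norm_num) le_rfl (by linarith) (by linarith) (by norm_num) (by norm_num)))
    (M := (Wd (30 + s) 10 5 - 3 / 5) / 2) ?_ hμ (by positivity) ?_ ?_).trans_lt exp_lt_19
  · unfold Wd
    norm_num
    nlinarith
  · unfold Wd
    norm_num
    nlinarith [mul_nonneg hs0 hs0]
  · rw [hs]
    have h := exp_lin (r := 30 * 10 / 0.64) (c₀ := 31 / 5) (c₁ := 1 / 30) (s := s)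
      ((by norm_num [Finset.sum_range_succ, Nat.factorial] :
        (30 * 10 / 0.64 : ℝ) ≤ ∑ i ∈ Finset.range 13, (31 / 5 : ℝ) ^ i / i.factorial).trans
        (sum_le_exp_of_nonneg (by norm_num) 13)) (by positivity)
    push_cast
    linarith

theorem t11 {n : ℕ} (hn : 33 ≤ n) {S L V μ : ℝ} (hS : S ≤ 5 * (n - 2) / 9)
    (hL : L ≤ 2 * (n - 5) / 6) (hV0 : 0 < V) (hV : V ≤ VW S L 5 11 5)
    (hμ : (Wd n 11 5 - 13 / 22) / 2 ≤ μ) : Q n 11 (4 * μ ^ 2 / (9 * V)) < 19 / 10 := by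
  obtain ⟨s, hs⟩ : ∃ s : ℝ, (n : ℝ) = 33 + s := ⟨n - 33, by ring⟩
  have hs0 : 0 ≤ s := by
    have : (33 : ℝ) ≤ n := by exact_mod_cast hn
    linarith
  rw [hs] at hS hL hμ
  refine (fixd (by norm_num : 4 ≤ 11) (c := 34 / 5 + 1 / 33 * s) (ℓ := 0.64) hV0
    (hV.trans (VW_le (ε₁ := 1 / 14) (ε₂ := 1 / 16) hS hL (by norm_num) (by norm_num)
      (by norm_num) le_rfl (by linarith) (by linarith) (by norm_num) (by norm_num)))
    (M := (Wd (33 + s) 11 5 - 13 / 22) / 2) ?_ hμ (by positivity) ?_ ?_).trans_lt exp_lt_19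
  · unfold Wd
    norm_num
    nlinarith
  · unfold Wd
    norm_num
    nlinarith [mul_nonneg hs0 hs0]
  · rw [hs]
    have h := exp_lin (r := 33 * 11 / 0.64) (c₀ := 34 / 5) (c₁ := 1 / 33) (s := s)
      ((by norm_num [Finset.sum_range_succ, Nat.factorial] :
        (33 * 11 / 0.64 : ℝ) ≤ ∑ i ∈ Finset.range 10, (34 / 5 : ℝ) ^ i / i.factorial).trans
        (sum_le_exp_of_nonneg (by norm_num) 10)) (by positivity)
    push_cast
    linarith

theorem t12 {n d κ : ℕ} (hd : 12 ≤ d) (hκ : 2 * (d + 2) ≤ 3 * κ) (hn : 2 * (d + 1) + κ ≤ n)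
    {S L V μ : ℝ} (hS : S ≤ 5 * (n - 2) / κ) (hL : L ≤ 2 * (n - 5) / (κ - 3)) (hV0 : 0 < V)
    (hV : V ≤ VW S L 5 d 5) (hμ : (Wd n d 5 - (1 / d + 1 / 2)) / 2 ≤ μ) :
    Q n d (4 * μ ^ 2 / (9 * V)) < 19 / 10 := by
  have hdR : (12 : ℝ) ≤ d := by exact_mod_cast hd
  have hκR : 2 * ((d : ℝ) + 2) ≤ 3 * κ := by exact_mod_cast hκ
  have hnR : 2 * ((d : ℝ) + 1) + κ ≤ n := by exact_mod_cast hn
  obtain ⟨u, hu⟩ : ∃ u : ℝ, (d : ℝ) = 12 + u := ⟨d - 12, by ring⟩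
  have hu0 : 0 ≤ u := by linarith
  obtain ⟨s, hs⟩ : ∃ s : ℝ, (n : ℝ) = 106 / 3 + 8 / 3 * u + s :=
    ⟨n - 106 / 3 - 8 / 3 * u, by ring⟩
  have hs0 : 0 ≤ s := by linarith
  have hn30 : (30 : ℝ) ≤ n := by
    have := mul_nonneg (by norm_num : (0 : ℝ) ≤ 8 / 3) hu0
    linarith
  have hS' : S ≤ 15 * ((n : ℝ) - 2) / (2 * (d + 2)) := by
    refine hS.trans ?_
    rw [div_le_div_iff₀ (by linarith) (by linarith)]
    nlinarith
  have hL' : L ≤ 6 * ((n : ℝ) - 5) / (2 * d - 5) := by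
    refine hL.trans ?_
    rw [div_le_div_iff₀ (by linarith) (by linarith)]
    nlinarith
  have hd1 : (0 : ℝ) < d - 1 := by linarith
  have h5 : (5 : ℝ) ≤ 15 * ((n : ℝ) - 2) / (2 * (d + 2)) := by
    rw [le_div_iff₀ (by linarith)]
    nlinarith
  have h2 : (2 : ℝ) ≤ 6 * ((n : ℝ) - 5) / (2 * d - 5) := by
    rw [le_div_iff₀ (by linarith)]
    nlinarith
  have hM : (1.2 * (n : ℝ) - 7.7 - 0.7 * d) / (2 * (d - 1)) ≤ μ := by
    refine le_trans ?_ hμ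
    have e : (Wd n d 5 - (1 / d + 1 / 2)) / 2 =
        (1.2 * (n : ℝ) - 7.7 - 0.7 * d) / (2 * (d - 1)) + 3 / (2 * d * (d - 1)) := by
      unfold Wd
      field_simp
      ring
    rw [e]
    have : (0 : ℝ) ≤ 3 / (2 * d * (d - 1)) := by positivity
    linarith
  refine (fixd (by omega : 4 ≤ d) (c := 6.5 + ((4 / 53 + 1 / 12) * u + 1 / 35 * s)) (ℓ := 0.64)
    hV0 (hV.trans ((VW_le (ε₁ := 2 / (3 * (d - 1))) (ε₂ := 2 / (3 * (d - 1))) hS' hL'
      (by norm_num) (by linarith) (by norm_num) le_rfl h5 h2 (by positivity)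
      (by positivity)).trans (var10 (by linarith) hn30 rfl rfl)))
    (M := (1.2 * (n : ℝ) - 7.7 - 0.7 * d) / (2 * (d - 1))) ?_ hM (by positivity) ?_
    ?_).trans_lt exp_lt_19
  · refine div_nonneg ?_ (by linarith)
    nlinarith
  · have e1 : 4 * ((d : ℝ) - 1) * ((1.2 * (n : ℝ) - 7.7 - 0.7 * d) / (2 * (d - 1))) ^ 2 =
        (1.2 * (n : ℝ) - 7.7 - 0.7 * d) ^ 2 / (d - 1) := by
      field_simp
      ring
    rw [e1, mul_div_assoc', div_mul_eq_mul_div]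
    refine div_le_div_of_nonneg_right ?_ hd1.le
    rw [hs, hu]
    nlinarith [mul_nonneg hu0 hs0, mul_nonneg hu0 hu0, mul_nonneg hs0 hs0]
  · have h0 : (424 / 0.64 : ℝ) ≤ exp 6.5 :=
      (by norm_num [Finset.sum_range_succ, Nat.factorial] :
        (424 / 0.64 : ℝ) ≤ ∑ i ∈ Finset.range 17, (6.5 : ℝ) ^ i / i.factorial).trans
        (sum_le_exp_of_nonneg (by norm_num) 17)
    have h1 := add_one_le_exp (4 / 53 * u)
    have h2 := add_one_le_exp (1 / 12 * u)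
    have h3 := add_one_le_exp (1 / 35 * s)
    have e : exp (6.5 + ((4 / 53 + 1 / 12) * u + 1 / 35 * s)) =
        exp 6.5 * (exp (4 / 53 * u) * (exp (1 / 12 * u) * exp (1 / 35 * s))) := by
      rw [← exp_add, ← exp_add, ← exp_add]
      congr 1
      ring
    rw [e]
    have h4 : (1 + 4 / 53 * u) * ((1 + 1 / 12 * u) * (1 + 1 / 35 * s)) ≤
        exp (4 / 53 * u) * (exp (1 / 12 * u) * exp (1 / 35 * s)) := by
      refine mul_le_mul (by linarith) (mul_le_mul (by linarith) (by linarith) (by positivity)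
        (exp_pos _).le) (by positivity) (exp_pos _).le
    have h5 : (424 / 0.64 : ℝ) * ((1 + 4 / 53 * u) * ((1 + 1 / 12 * u) * (1 + 1 / 35 * s))) ≤
        exp 6.5 * (exp (4 / 53 * u) * (exp (1 / 12 * u) * exp (1 / 35 * s))) :=
      mul_le_mul h0 h4 (by positivity) (exp_pos _).le
    have h6 : (n : ℝ) * d ≤ 424 * ((1 + 4 / 53 * u) * ((1 + 1 / 12 * u) * (1 + 1 / 35 * s))) := by
      rw [hs, hu]
      nlinarith [mul_nonneg hu0 hs0, mul_nonneg hu0 hu0, mul_nonneg hs0 hs0,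
        mul_nonneg (mul_nonneg hu0 hu0) hs0]
    linarith

/-- `d ≥ 8`, all `n ≥ 2 (d + 1) + κ`: loss `1/d + 1/2` -/
theorem t_large {n d κ : ℕ} (hd : 8 ≤ d) (h8 : d = 8 → κ = 8) (h9 : d = 9 → κ = 8)
    (hκ : 10 ≤ d → 2 * (d + 2) ≤ 3 * κ) (hn : 2 * (d + 1) + κ ≤ n) {S L V μ : ℝ}
    (hS : S ≤ 5 * (n - 2) / κ) (hL : L ≤ 2 * ((n : ℝ) - 5) / (κ - 5 + 2))
    (hV0 : 0 < V) (hV : V ≤ VW S L 5 d (min 5 (d - 5)))
    (hμ : (Wd n d 5 - (1 / d + 1 / 2)) / 2 ≤ μ) : Q n d (4 * μ ^ 2 / (9 * V)) < 19 / 10 := by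
  have hmono : ∀ {k a : ℝ}, 5 < k → k ≤ κ → S ≤ 5 * (n - 2) / k ∧
      L ≤ 2 * ((n : ℝ) - 5) / (k - 5 + 2) := by
    intro k a hk hkκ
    have hdR : (8 : ℝ) ≤ d := by exact_mod_cast hd
    have hnR : 2 * ((d : ℝ) + 1) + κ ≤ n := by exact_mod_cast hn
    refine ⟨hS.trans ?_, hL.trans ?_⟩
    · exact div_le_div_of_nonneg_left (by linarith) (by linarith) hkκ
    · exact div_le_div_of_nonneg_left (by linarith) (by linarith) (by linarith)
  rcases Nat.lt_or_ge d 12 with h | h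
  · interval_cases d
    · have hκ8 := h8 rfl
      subst hκ8
      norm_num at hS hL hV hμ
      exact t8 (by omega) (by linarith) (by linarith) hV0 hV (by linarith)
    · have hκ9 := h9 rfl
      subst hκ9
      norm_num at hS hL hV hμ
      exact t9 (by omega) (by linarith) (by linarith) hV0 hV (by linarith)
    · have hκ' : 8 ≤ κ := by have := hκ (by norm_num); omega
      obtain ⟨h1, h2⟩ := hmono (k := 8) (a := 0) (by norm_num) (by exact_mod_cast hκ')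
      norm_num at h1 h2 hV hμ
      exact t10 (by omega) (by linarith) (by linarith) hV0 hV (by linarith)
    · have hκ' : 9 ≤ κ := by have := hκ (by norm_num); omega
      obtain ⟨h1, h2⟩ := hmono (k := 9) (a := 0) (by norm_num) (by exact_mod_cast hκ')
      norm_num at h1 h2 hV hμ
      exact t11 (by omega) (by linarith) (by linarith) hV0 hV (by linarith)
  · have hdR : (12 : ℝ) ≤ d := by exact_mod_cast h
    have e : min (5 : ℝ) ((d : ℝ) - 5) = 5 := min_eq_left (by linarith)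
    rw [e] at hV
    have e2 : (κ : ℝ) - 5 + 2 = κ - 3 := by ring
    rw [e2] at hL
    exact t12 h (hκ (by omega)) hn hS hL hV0 hV hμ

end Pool.Agent.UPS.Num
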