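import Pool.Agent.Lib.MP_876e19_co_ups.NumPair
import Pool.Agent.Lib.MP_876e19_co_ups.NumTL
import Pool.Agent.Lib.MP_876e19_co_ups.NumSoftA
import Pool.Agent.Lib.MP_876e19_co_ups.NumSoftB
import Pool.Agent.Lib.MP_876e19_co_ups.NumSoftC
import Pool.Agent.Lib.MP_876e19_co_ups.NumFinA
import Pool.Agent.Lib.MP_876e19_co_ups.NumFinB
import Pool.Agent.Lib.MP_876e19_co_ups.NumFinC
import Pool.Agent.Lib.MP_876e19_co_ups.NumFinD

/-!
# Numerics of the non-bipartite case, final form (helper4, TT876)

`num_even_tri`, `num_even_free`, `num_odd_free`: everything that the non-bipartite block needs.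
-/

set_option autoImplicit false

namespace Pool.Agent.UPS.Num

open Real IB

lemma exp_1625 : exp (16 / 25) < (19 / 10 : ℝ) := by
  have h := exp_bound' (x := 16 / 25) (by norm_num) (by norm_num) (n := 9) (by norm_num)
  refine h.trans_lt ?_
  norm_num [Finset.sum_range_succ, Nat.factorial]

lemma exp_1625' : exp (16 / 25) < (18999 / 10000 : ℝ) := by
  have h := exp_bound' (x := 16 / 25) (by norm_num) (by norm_num) (n := 9) (by norm_num)
  refine h.trans_lt ?_
  norm_num [Finset.sum_range_succ, Nat.factorial]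

lemma exp_437 : exp (437 / 1000) < (1549 / 1000 : ℝ) := by
  have h := exp_bound' (x := 437 / 1000) (by norm_num) (by norm_num) (n := 9) (by norm_num)
  refine h.trans_lt ?_
  norm_num [Finset.sum_range_succ, Nat.factorial]

/-- the range of the even case; `tri`: a triangle exists -/
def RangeE (n d κ : ℕ) : Prop :=
  (d = 4 ∧ κ = 4 ∧ 24 ≤ n) ∨ (d = 5 ∧ κ = 5 ∧ 22 ≤ n) ∨ (d = 6 ∧ κ = 6 ∧ 20 ≤ n) ∨
  (d = 7 ∧ κ = 6 ∧ 24 ≤ n) ∨ (d = 8 ∧ κ = 8 ∧ 26 ≤ n) ∨ (d = 9 ∧ κ = 8 ∧ 28 ≤ n) ∨
  (10 ≤ d ∧ 2 * (d + 2) ≤ 3 * κ ∧ 2 * (d + 1) + κ ≤ n)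

/-- the range of the odd case -/
def RangeO (n d κ : ℕ) : Prop :=
  (d = 4 ∧ κ = 4 ∧ 23 ≤ n) ∨ (d = 6 ∧ κ = 6 ∧ 21 ≤ n) ∨ (d = 8 ∧ κ = 8 ∧ 26 ≤ n) ∨
  (10 ≤ d ∧ 2 * (d + 2) ≤ 3 * κ ∧ 2 * (d + 1) + κ ≤ n)

lemma W_pos (S L : ℝ) (k d : ℕ) (hd : 2 ≤ d) : 0 < W1 S k d + W2 L d := by
  have hdR : (2 : ℝ) ≤ d := by exact_mod_cast hd
  have hd1 : (0 : ℝ) < d - 1 := by linarith
  have h1 : 0 ≤ W1 S k d := by unfold W1; positivity
  have h2 : 0 < W2 L d := by
    unfold W2
    have : (0 : ℝ) < 1 / (2 * ((d : ℝ) - 1)) := by positivity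
    have h3 := sqrt_nonneg ((L - 2 + 4 * (((d : ℝ) - 2) / (d - 1)) ^ 2) / 16)
    positivity
  linarith

/-- the sum of the paired tests and the kill terms -/
noncomputable def totE (n d k : ℕ) (S L ν co ci : ℝ) : ℝ :=
  (Q n d (4 * (ν ^ 2 + ν / d) / (9 * (W1 S k d + W2 L d))) +
    Q n d (4 * (ν ^ 2 - ν / d) / (9 * (W1 S k d + W2 L d)))) / 2 + soft n d k S L co ci

lemma totE_lt {n d k : ℕ} {S L ν co ci a b : ℝ}
    (h : Q n d (4 * (ν ^ 2 + ν / d) / (9 * (W1 S k d + W2 L d))) ≤ a ∧
      Q n d (4 * (ν ^ 2 - ν / d) / (9 * (W1 S k d + W2 L d))) ≤ a)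
    (hs : soft n d k S L co ci ≤ b) (hab : a + b < 2) : totE n d k S L ν co ci < 2 := by
  unfold totE
  linarith [h.1, h.2]

lemma large_mono {n κ κ' : ℕ} (hn : 6 ≤ n) (hκ' : 5 < κ') (h : κ' ≤ κ) {S L : ℝ}
    (hS : S ≤ 5 * (n - 2) / κ) (hL : L ≤ 2 * ((n : ℝ) - 5) / (κ - 5 + 2)) :
    S ≤ 5 * ((n : ℝ) - 2) / κ' ∧ L ≤ 2 * ((n : ℝ) - 5) / (κ' - 5 + 2) := by
  have hnR : (6 : ℝ) ≤ n := by exact_mod_cast hn
  have h1 : (5 : ℝ) < κ' := by exact_mod_cast hκ'
  have h2 : (κ' : ℝ) ≤ κ := by exact_mod_cast h
  exact ⟨hS.trans (div_le_div_of_nonneg_left (by linarith) (by linarith) h2),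
    hL.trans (div_le_div_of_nonneg_left (by linarith) (by linarith) (by linarith))⟩

/-- `d ≥ 8` -/
lemma even_large {n d κ : ℕ} (hd : 8 ≤ d) (h8 : d = 8 → κ = 8) (h9 : d = 9 → κ = 8)
    (hκ : 10 ≤ d → 2 * (d + 2) ≤ 3 * κ) (hn : 2 * (d + 1) + κ ≤ n) {S L ν co ci : ℝ}
    (hS : S ≤ 5 * (n - 2) / κ) (hL : L ≤ 2 * ((n : ℝ) - 5) / (κ - 5 + 2))
    (hν : (Wd n d 5 - 1 / 2) / 2 ≤ ν)
    (hco : 2 * ((n : ℝ) - (d + 3)) ≤ co) (hci : 2 * ((n : ℝ) - 6) ≤ ci) :
    totE n d 5 S L ν co ci < 2 := by
  have h0 := W_pos S L 5 d (by omega)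
  have hV := (VW_eq S L 5 d).le
  rcases Nat.lt_or_ge d 12 with h | h
  · interval_cases d
    · have hκ8 := h8 rfl
      subst hκ8
      norm_num at hS hL hV hν hco hci
      have a := e8 (ν := ν) (S := S) (L := L) (n := n) (by omega) (by linarith) (by linarith) h0 hV (by linarith)
      have b := s8 (S := S) (L := L) (n := n) (by omega) (by linarith) (by linarith) (co := co) (ci := ci)
        (by linarith) (by linarith)
      exact totE_lt a b (by linarith [exp_1625'])
    · have hκ9 := h9 rfl
      subst hκ9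
      norm_num at hS hL hV hν hco hci
      have a := e9 (ν := ν) (S := S) (L := L) (n := n) (by omega) (by linarith) (by linarith) h0 hV (by linarith)
      have b := s9 (S := S) (L := L) (n := n) (by omega) (by linarith) (by linarith) (co := co) (ci := ci)
        (by linarith) (by linarith)
      exact totE_lt a b (by linarith [exp_1625'])
    · have hκ' : 8 ≤ κ := by have := hκ (by norm_num); omega
      obtain ⟨h1, h2⟩ := large_mono (κ' := 8) (by omega) (by norm_num) hκ' hS hL
      norm_num at h1 h2 hV hν hco hci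
      have a := e10 (ν := ν) (S := S) (L := L) (n := n) (by omega) (by linarith) (by linarith) h0 hV (by linarith)
      have b := s10 (S := S) (L := L) (n := n) (by omega) (by linarith) (by linarith) (co := co) (ci := ci)
        (by linarith) (by linarith)
      exact totE_lt a b (by linarith [exp_1625'])
    · have hκ' : 9 ≤ κ := by have := hκ (by norm_num); omega
      obtain ⟨h1, h2⟩ := large_mono (κ' := 9) (by omega) (by norm_num) hκ' hS hL
      norm_num at h1 h2 hV hν hco hci
      have a := e11 (ν := ν) (S := S) (L := L) (n := n) (by omega) (by linarith) (by linarith) h0 hV (by linarith)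
      have b := s11 (S := S) (L := L) (n := n) (by omega) (by linarith) (by linarith) (co := co) (ci := ci)
        (by linarith) (by linarith)
      exact totE_lt a b (by linarith [exp_1625'])
  · have hdR : (12 : ℝ) ≤ d := by exact_mod_cast h
    have e : min ((5 : ℕ) : ℝ) ((d : ℝ) - (5 : ℕ)) = 5 := by
      rw [min_eq_left (by push_cast; linarith)]
      norm_num
    rw [e] at hV
    have e2 : (κ : ℝ) - 5 + 2 = κ - 3 := by ring
    rw [e2] at hL
    push_cast at hV
    have a := e12 h (hκ (by omega)) hn hS hL h0 hV hν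
    have b := s12 h (hκ (by omega)) hn hS hL hco hci
    exact totE_lt a b (by linarith [exp_1625'])

/-- **numerics, `n` even, with a triangle** (no parity loss) -/
theorem num_even_tri {n d κ : ℕ} (h : RangeE n d κ) (hne : Even n) {S L ν co ci : ℝ}
    (hS : S ≤ (jj d : ℝ) * (n - 2) / κ) (hL : L ≤ 2 * ((n : ℝ) - jj d) / (κ - jj d + 2))
    (hν : Wd n d (jj d) / 2 ≤ ν) (hco : 2 * ((n : ℝ) - (d + 3)) ≤ co)
    (hci : 2 * ((n : ℝ) - 6) ≤ ci) : totE n d (jj d) S L ν co ci < 2 := by
  rcases Nat.lt_or_ge d 8 with hd | hd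
  · have h0 := W_pos S L (jj d) d (by
      rcases h with h | h | h | h | h | h | h <;> omega)
    have hV := (VW_eq S L (jj d) d).le
    rcases h with ⟨rfl, rfl, h⟩ | ⟨rfl, rfl, h⟩ | ⟨rfl, rfl, h⟩ | ⟨rfl, rfl, h⟩ | h | h | h
    · norm_num [jj] at hS hL hV hν hco hci
      have a := e4t (ν := ν) (S := S) (L := L) h (by linarith) (by linarith) h0 hV (by linarith)
      have b := s4 (S := S) (L := L) (n := n) (by omega) (by linarith) (by linarith) (co := co) (ci := ci)
        (by linarith) (by linarith)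
      exact totE_lt a b (by linarith [exp_1625'])
    · norm_num [jj] at hS hL hV hν hco hci
      have a := e5t (ν := ν) (S := S) (L := L) h (by linarith) (by linarith) h0 hV (by linarith)
      have b := s5 (S := S) (L := L) (n := n) (by omega) (by linarith) (by linarith) (co := co) (ci := ci)
        (by linarith) (by linarith)
      exact totE_lt a b (by linarith [exp_1625'])
    · rcases Nat.lt_or_ge n 22 with h22 | h22
      · have hn20 : n = 20 := by
          obtain ⟨k, hk⟩ := hne
          omega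
        subst hn20
        norm_num [jj] at hS hL hV hν hco hci
        have a := e6t20 (ν := ν) (S := S) (L := L) (n := 20) (by norm_num) (by norm_num; linarith) (by norm_num; linarith)
          h0 hV (by norm_num; linarith)
        have b := s6_20 (S := S) (L := L) (n := 20) (by norm_num) (by norm_num; linarith)
          (by norm_num; linarith) (co := co) (ci := ci) (by norm_num; linarith)
          (by norm_num; linarith)
        exact totE_lt a b (by linarith [exp_437])
      · norm_num [jj] at hS hL hV hν hco hci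
        have a := e6t (ν := ν) (S := S) (L := L) h22 (by linarith) (by linarith) h0 hV (by linarith)
        have b := s6 (S := S) (L := L) (n := n) (by omega) (by linarith) (by linarith) (co := co) (ci := ci)
          (by linarith) (by linarith)
        exact totE_lt a b (by linarith [exp_1625'])
    · norm_num [jj] at hS hL hV hν hco hci
      have a := e7t (ν := ν) (S := S) (L := L) h (by linarith) (by linarith) h0 hV (by linarith)
      have b := s7 (S := S) (L := L) (n := n) (by omega) (by linarith) (by linarith) (co := co) (ci := ci)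
        (by linarith) (by linarith)
      refine totE_lt a b ?_
      have := exp_1625'
      linarith
    · omega
    · omega
    · omega
  · have hj : jj d = 5 := by
      unfold jj
      rw [if_neg (by omega)]
    rw [hj] at hS hL hν ⊢
    push_cast at hS hL hν
    refine even_large hd (by rcases h with h | h | h | h | h | h | h <;> omega)
      (by rcases h with h | h | h | h | h | h | h <;> omega)
      (by rcases h with h | h | h | h | h | h | h <;> omega)
      (by rcases h with h | h | h | h | h | h | h <;> omega) hS hL (by linarith) hco hci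

/-- **numerics, `n` even, triangle-free** (`κ = 1/2` in `even_finish`) -/
theorem num_even_free {n d κ : ℕ} (h : RangeE n d κ) (hn4 : 4 * d + 1 ≤ n) {S L ν co ci : ℝ}
    (hS : S ≤ (jj d : ℝ) * (n - 2) / κ) (hL : L ≤ 2 * ((n : ℝ) - jj d) / (κ - jj d + 2))
    (hν : (Wd n d (jj d) - 1 / 2) / 2 ≤ ν) (hco : 2 * ((n : ℝ) - (d + 3)) ≤ co)
    (hci : 2 * ((n : ℝ) - 6) ≤ ci) : totE n d (jj d) S L ν co ci < 2 := by
  rcases Nat.lt_or_ge d 8 with hd | hd
  · have h0 := W_pos S L (jj d) d (by
      rcases h with h | h | h | h | h | h | h <;> omega)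
    have hV := (VW_eq S L (jj d) d).le
    rcases h with ⟨rfl, rfl, h⟩ | ⟨rfl, rfl, h⟩ | ⟨rfl, rfl, h⟩ | ⟨rfl, rfl, h⟩ | h | h | h
    · norm_num [jj] at hS hL hV hν hco hci
      have a := numB4 (ν := ν) (S := S) (L := L) h (by linarith) (by linarith) h0 hV (by linarith)
      have b := s4 (S := S) (L := L) (n := n) (by omega) (by linarith) (by linarith) (co := co) (ci := ci)
        (by linarith) (by linarith)
      unfold totE
      push_cast
      norm_num [jj] at a b ⊢
      linarith
    · norm_num [jj] at hS hL hV hν hco hci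
      have a := numB5 (ν := ν) (S := S) (L := L) h (by linarith) (by linarith) h0 hV (by linarith)
      have b := s5 (S := S) (L := L) (n := n) (by omega) (by linarith) (by linarith) (co := co) (ci := ci)
        (by linarith) (by linarith)
      unfold totE
      push_cast
      norm_num [jj] at a b ⊢
      linarith
    · norm_num [jj] at hS hL hV hν hco hci
      have a := e6f (ν := ν) (S := S) (L := L) (n := n) (by omega) (by linarith) (by linarith) h0 hV (by linarith)
      have b := s6 (S := S) (L := L) (n := n) (by omega) (by linarith) (by linarith) (co := co) (ci := ci)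
        (by linarith) (by linarith)
      exact totE_lt a b (by linarith [exp_1625'])
    · norm_num [jj] at hS hL hV hν hco hci
      have a := e7f (ν := ν) (S := S) (L := L) (n := n) (by omega) (by linarith) (by linarith) h0 hV (by linarith)
      have b := s7 (S := S) (L := L) (n := n) (by omega) (by linarith) (by linarith) (co := co) (ci := ci)
        (by linarith) (by linarith)
      refine totE_lt a b ?_
      have := exp_1625'
      linarith
    · omega
    · omega
    · omega
  · have hj : jj d = 5 := by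
      unfold jj
      rw [if_neg (by omega)]
    rw [hj] at hS hL hν ⊢
    push_cast at hS hL hν
    refine even_large hd (by rcases h with h | h | h | h | h | h | h <;> omega)
      (by rcases h with h | h | h | h | h | h | h <;> omega)
      (by rcases h with h | h | h | h | h | h | h <;> omega)
      (by rcases h with h | h | h | h | h | h | h <;> omega) hS hL hν hco hci

/-- the kill terms for `d ≥ 8` -/
lemma soft_large {n d κ : ℕ} (hd : 8 ≤ d) (h8 : d = 8 → κ = 8) (h9 : d = 9 → κ = 8)
    (hκ : 10 ≤ d → 2 * (d + 2) ≤ 3 * κ) (hn : 2 * (d + 1) + κ ≤ n) {S L co ci : ℝ}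
    (hS : S ≤ 5 * (n - 2) / κ) (hL : L ≤ 2 * ((n : ℝ) - 5) / (κ - 5 + 2))
    (hco : 2 * ((n : ℝ) - (d + 3)) ≤ co) (hci : 2 * ((n : ℝ) - 6) ≤ ci) :
    soft n d 5 S L co ci ≤ 1 / 10 := by
  rcases Nat.lt_or_ge d 12 with h | h
  · interval_cases d
    · have hκ8 := h8 rfl
      subst hκ8
      norm_num at hS hL hco hci
      exact s8 (S := S) (L := L) (n := n) (by omega) (by linarith) (by linarith) (co := co)
        (ci := ci) (by linarith) (by linarith)
    · have hκ9 := h9 rfl
      subst hκ9
      norm_num at hS hL hco hci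
      exact s9 (S := S) (L := L) (n := n) (by omega) (by linarith) (by linarith) (co := co)
        (ci := ci) (by linarith) (by linarith)
    · have hκ' : 8 ≤ κ := by have := hκ (by norm_num); omega
      obtain ⟨h1, h2⟩ := large_mono (κ' := 8) (by omega) (by norm_num) hκ' hS hL
      norm_num at h1 h2 hco hci
      exact s10 (S := S) (L := L) (n := n) (by omega) (by linarith) (by linarith) (co := co)
        (ci := ci) (by linarith) (by linarith)
    · have hκ' : 9 ≤ κ := by have := hκ (by norm_num); omega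
      obtain ⟨h1, h2⟩ := large_mono (κ' := 9) (by omega) (by norm_num) hκ' hS hL
      norm_num at h1 h2 hco hci
      exact s11 (S := S) (L := L) (n := n) (by omega) (by linarith) (by linarith) (co := co)
        (ci := ci) (by linarith) (by linarith)
  · have e2 : (κ : ℝ) - 5 + 2 = κ - 3 := by ring
    rw [e2] at hL
    exact s12 h (hκ (by omega)) hn hS hL hco hci

/-- the tests and the kill terms, odd order -/
noncomputable def totO (n d k : ℕ) (S L μ co ci : ℝ) : ℝ :=
  Q n d (4 * μ ^ 2 / (9 * (W1 S k d + W2 L d))) + soft n d k S L co ci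

/-- **numerics, `n` odd** (loss `2 / d`) -/
theorem num_odd_free {n d κ : ℕ} (h : RangeO n d κ) {S L μ co ci : ℝ}
    (hS : S ≤ (jj d : ℝ) * (n - 2) / κ) (hL : L ≤ 2 * ((n : ℝ) - jj d) / (κ - jj d + 2))
    (hμ : (Wd n d (jj d) - 2 / d) / 2 ≤ μ) (hco : 2 * ((n : ℝ) - (d + 2)) ≤ co)
    (hci : 2 * ((n : ℝ) - 5) ≤ ci) : totO n d (jj d) S L μ co ci < 2 := by
  unfold totO
  have h0 := W_pos S L (jj d) d (by
    rcases h with h | h | h | h <;> omega)
  have hV := (VW_eq S L (jj d) d).le
  rcases h with ⟨rfl, rfl, h⟩ | ⟨rfl, rfl, h⟩ | h | h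
  · norm_num [jj] at hS hL hV hμ hco hci h0
    have a := o4 (μ := μ) (S := S) (L := L) h (by linarith) (by linarith) h0 hV (by linarith)
    have b := s4odd (S := S) (L := L) (n := n) (by omega) (by linarith) (by linarith) (co := co)
      (ci := ci) (by linarith) (by linarith)
    have c := exp_17_25
    norm_num [jj] at a b ⊢
    linarith
  · norm_num [jj] at hS hL hV hμ hco hci h0
    have a := t6odd (μ := μ) (S := S) (L := L) h (by linarith) (by linarith) h0 hV (by linarith)
    have b := s6g0 (S := S) (L := L) (n := n) (by omega) (by linarith) (by linarith) (co := co)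
      (ci := ci) (by linarith) (by linarith)
    norm_num [jj] at a b ⊢
    linarith
  all_goals
    have hd : 8 ≤ d := by omega
    have hj : jj d = 5 := by
      unfold jj
      rw [if_neg (by omega)]
    rw [hj] at hS hL hμ hV h0 ⊢
    push_cast at hS hL hμ hV
    have hd8 : (8 : ℝ) ≤ d := by exact_mod_cast hd
    have b := soft_large (n := n) (κ := κ) hd (by omega) (by omega) (by omega) (by omega) hS hL
      (co := co) (ci := ci) (by linarith) (by linarith)
    have a := t_large (n := n) (κ := κ) hd (by omega) (by omega) (by omega) (by omega) hS hL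
      h0 hV (μ := μ) (by
        refine le_trans ?_ hμ
        have h1 : (2 : ℝ) / d = 1 / d + 1 / d := by ring
        have h2 : (1 : ℝ) / d ≤ 1 / 2 := by
          rw [div_le_div_iff₀ (by linarith) (by norm_num)]
          linarith
        linarith)
    linarith

lemma RangeE.of_even {n d κ : ℕ} (h : EvenRange n d κ) : RangeE n d κ := by
  rcases h with h | h | h | h | h | h | h
  · exact Or.inl h
  · exact Or.inr (Or.inl h)
  · exact Or.inr (Or.inr (Or.inl ⟨h.1, h.2.1, by omega⟩))
  · exact Or.inr (Or.inr (Or.inr (Or.inl h)))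
  · exact Or.inr (Or.inr (Or.inr (Or.inr (Or.inl h))))
  · exact Or.inr (Or.inr (Or.inr (Or.inr (Or.inr (Or.inl h)))))
  · exact Or.inr (Or.inr (Or.inr (Or.inr (Or.inr (Or.inr h)))))

lemma RangeE.of_twenty {n d κ : ℕ} (h : d = 6 ∧ κ = 6 ∧ n = 20) : RangeE n d κ :=
  Or.inr (Or.inr (Or.inl ⟨h.1, h.2.1, by omega⟩))

lemma RangeE.of_or {n d κ : ℕ} (h : EvenRange n d κ ∨ (d = 6 ∧ κ = 6 ∧ n = 20)) :
    RangeE n d κ := by
  rcases h with h | h
  · exact RangeE.of_even h
  · exact RangeE.of_twenty h

lemma RangeO.of_odd {n d κ : ℕ} (h : OddRange n d κ) : RangeO n d κ := h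

end Pool.Agent.UPS.Num
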