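import Pool.Agent.Lib.MP_876e19_co_ups.Final
import Pool.Agent.Lib.MP_876e19_co_ups.NumFinal
import Pool.Agent.Lib.MP_876e19_co_ups.NonBipMain
import Pool.Agent.Lib.MP_876e19_co_ups.NonBipOdd
import Pool.Agent.Lib.MP_876e19_co_ups.InvSys
import Pool.Agent.Lib.MP_876e19_co_top.FourD

/-!
# The non-bipartite block from `nonbip_even` and `nonbip_odd` (helper85, TT876)
-/

set_option autoImplicit false

open Finset

namespace Pool.Agent.UPS.Asm

open Pool.Agent.UPS Pool.Agent.UPS.Atoms Pool.Agent.UPS.IB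

lemma four_le_jj (d : ℕ) : 4 ≤ Num.jj d := by
  unfold Num.jj
  split_ifs <;> omega

/-- the side conditions of the two main theorems -/
lemma side {n d : ℕ} (hd : 4 ≤ d) (h : 8 * d + 10 ≤ 3 * n) :
    4 * ((n : ℝ) - 1 - d) / (Num.jj d : ℕ) ≤ (n : ℝ) - 1 - d ∧
    5 / 3 ≤ Num.Wd n d (Num.jj d) := by
  have hdR : (4 : ℝ) ≤ d := by exact_mod_cast hd
  have hR : (8 : ℝ) * d + 10 ≤ 3 * n := by exact_mod_cast h
  have hj : (4 : ℝ) ≤ (Num.jj d : ℕ) := by exact_mod_cast four_le_jj d
  have h1 : 4 * ((n : ℝ) - 1 - d) / (Num.jj d : ℕ) ≤ (n : ℝ) - 1 - d := by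
    rw [div_le_iff₀ (by linarith)]
    nlinarith
  refine ⟨h1, ?_⟩
  have h2 : 11 / 3 ≤ (2 * (n : ℝ) - 6 - 4 * ((n : ℝ) - 1 - d) / (Num.jj d : ℕ)) / (d - 1) := by
    rw [le_div_iff₀ (by linarith)]
    linarith
  have h3 : 4 / (d : ℝ) ≤ 1 := by
    rw [div_le_one (by linarith)]
    exact hdR
  have h4 : 0 ≤ ((d : ℝ) - 2) / (d * (d - 1)) :=
    div_nonneg (by linarith) (mul_nonneg (by linarith) (by linarith))
  unfold Num.Wd
  linarith

/-- **The non-bipartite block.** -/
theorem nblock : NBlock := by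
  intro V _ _ G _ hG hT hodd hTF hdist d κ hd4 hκ4 hκd hreg hlow hκ hn hR
  obtain ⟨x, y, hxy⟩ := hdist
  have hdg := dg_of_reg hreg
  -- the number of paths
  have hjκ : Num.jj d ≤ κ := by
    unfold Num.jj
    split_ifs with h
    · exact hκ4
    · rcases hR with ⟨-, hR | hR⟩ | ⟨-, hR⟩
      · rcases hR with h | h | h | h | h | h | h <;> omega
      · omega
      · rcases hR with h | h | h | h <;> omega
  have hj4 : 4 ≤ Num.jj d := by
    unfold Num.jj
    split_ifs <;> omega
  have hjd : Num.jj d ≤ d := hjκ.trans hκd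
  obtain ⟨M₀⟩ := Lev.exists_sys hG hT hreg hlow hκd
  obtain ⟨M, hL, hS⟩ := exists_short_sys M₀ (j := Num.jj d) (by omega) hjκ
  have hnR : (2 : ℝ) * (d + 1) + κ ≤ Fintype.card V := by exact_mod_cast hn
  have hjR : (4 : ℝ) ≤ Num.jj d := by exact_mod_cast hj4
  have hjκR : (Num.jj d : ℝ) ≤ κ := by exact_mod_cast hjκ
  have hdR : (4 : ℝ) ≤ d := by exact_mod_cast hd4
  have hL2 : (2 : ℝ) ≤ 2 * ((Fintype.card V : ℝ) - Num.jj d) / ((κ : ℝ) - Num.jj d + 2) := by
    rw [le_div_iff₀ (by linarith)]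
    linarith
  have hSk : (Num.jj d : ℝ) < Num.jj d * ((Fintype.card V : ℝ) - 2) / κ := by
    rw [lt_div_iff₀ (by linarith)]
    refine mul_lt_mul_of_pos_left ?_ (by linarith)
    linarith
  rcases hR with ⟨hne, hR⟩ | ⟨hno, hR⟩
  · have hRE : Num.RangeE (Fintype.card V) d κ := Num.RangeE.of_or hR
    have h8 : 8 * d + 10 ≤ 3 * Fintype.card V := by
      rcases hRE with h | h | h | h | h | h | h <;> omega
    obtain ⟨t1, t2⟩ := side hd4 h8
    have h8R : (8 : ℝ) * d + 10 ≤ 3 * Fintype.card V := by exact_mod_cast h8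
    have h1d : 1 / (d : ℝ) ≤ 1 / 4 := one_div_le_one_div_of_le (by norm_num) hdR
    have s1 : 4 * ((Fintype.card V : ℝ) - 1 - d) / (Num.jj d : ℕ) <
        2 * ((Fintype.card V : ℝ) - (d + 3)) := by linarith
    have s2 : 4 * ((Fintype.card V : ℝ) - 1 - d) / (Num.jj d : ℕ) <
        2 * ((Fintype.card V : ℝ) - 6) := by linarith
    by_cases htri : ∃ u z w, G.Adj u z ∧ G.Adj z w ∧ G.Adj u w
    · refine NB.nonbip_even hG hodd hT (by omega) hdg (by omega) hjd M hL hS hL2 hSk hne
        (κ := 0) (Or.inr ⟨rfl, htri⟩) s1 s2 rfl (by linarith) ?_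
      exact Num.num_even_tri hRE hne le_rfl le_rfl (by linarith) le_rfl le_rfl
    · have h4d : 4 * d + 1 ≤ Fintype.card V := by
        have h := Top.four_d (by omega) (degree_of_reg hreg)
          (fun a b c hab hbc hac => htri ⟨a, b, c, hab, hbc, hac⟩) hxy
        rcases Nat.lt_or_ge (4 * d) (Fintype.card V) with h' | h'
        · omega
        · exfalso
          obtain ⟨side, hside⟩ := h.2 (le_antisymm h' h.1)
          obtain ⟨v, p, hp⟩ := hodd
          have key : ∀ (u w : V) (q : G.Walk u w), (side u = side w ↔ Even q.length) := by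
            intro u w q
            induction q with
            | nil => simp
            | cons h q ih =>
              rw [SimpleGraph.Walk.length_cons, Nat.even_add_one, ← ih]
              have := hside _ _ h
              rename_i a b c
              cases h1 : side a <;> cases h2 : side b <;> cases h3 : side c <;> simp_all
          have h5 := (key v v p).1 rfl
          exact (Nat.not_even_iff_odd.2 hp) h5
      refine NB.nonbip_even hG hodd hT (by omega) hdg (by omega) hjd M hL hS hL2 hSk hne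
        (κ := 1 / 2) (Or.inl rfl) s1 s2 rfl (by linarith) ?_
      exact Num.num_even_free hRE h4d le_rfl le_rfl (by linarith) le_rfl le_rfl
  · have hRO : Num.RangeO (Fintype.card V) d κ := Num.RangeO.of_odd hR
    have h8 : 8 * d + 10 ≤ 3 * Fintype.card V := by
      rcases hRO with h | h | h | h <;> omega
    obtain ⟨t1, t2⟩ := side hd4 h8
    have h8R : (8 : ℝ) * d + 10 ≤ 3 * Fintype.card V := by exact_mod_cast h8
    have h1d : 2 / (d : ℝ) ≤ 1 / 2 := by
      rw [div_le_iff₀ (by linarith)]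
      linarith
    have s1 : 4 * ((Fintype.card V : ℝ) - 1 - d) / (Num.jj d : ℕ) <
        2 * ((Fintype.card V : ℝ) - (d + 2)) := by linarith
    have s2 : 4 * ((Fintype.card V : ℝ) - 1 - d) / (Num.jj d : ℕ) <
        2 * ((Fintype.card V : ℝ) - 5) := by linarith
    refine NB.nonbip_odd hG hodd hT (by omega) hdg (by omega) hjd M hL hS hL2 hSk hno s1 s2 rfl
      (by linarith) ?_
    exact Num.num_odd_free hRO le_rfl le_rfl (by linarith) le_rfl le_rfl

end Pool.Agent.UPS.Asm
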