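import Pool.Agent.Lib.MP_876e19_co_ups.GenFinish
import Pool.Agent.Lib.MP_876e19_co_ups.FlowInt
import Pool.Agent.Lib.MP_876e19_co_ups.DoubleCover

/-!
# Splitting into two stages, parity

`split` : numbers with Hall's condition are the sum of two halves with Hall's condition.
`nonbip_finish` : two-stage correction in a connected regular graph which is not bipartite, with
the parity repair; only the total required numbers enter.
-/

set_option autoImplicit false

open Finset

namespace Pool.Agent.HTutte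

open UPS2.EC

variable {V : Type*} [Fintype V] [DecidableEq V] {G : SimpleGraph V}

/-- Hall's condition from integral arc weights. -/
theorem hall_of_arcs (f : V → ℕ) (k : V → V → ℕ) (h1 : ∀ v w, k v w ≠ 0 → G.Adj v w)
    (h2 : ∀ v, ∑ w, k v w = f v) (h3 : ∀ w, ∑ v, k v w = f w) (U : Finset V) :
    ∑ v ∈ U, f v ≤ ∑ v ∈ nb G U, f v := by
  classical
  calc ∑ v ∈ U, f v = ∑ v ∈ U, ∑ w ∈ nb G U, k v w := by
        refine Finset.sum_congr rfl fun v hv => ?_
        rw [← h2 v, ← Finset.sum_subset (Finset.subset_univ (nb G U))]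
        intro w _ hw
        by_contra hne
        exact hw (Finset.mem_filter.2 ⟨Finset.mem_univ _, v, hv, h1 v w hne⟩)
    _ = ∑ w ∈ nb G U, ∑ v ∈ U, k v w := Finset.sum_comm
    _ ≤ ∑ w ∈ nb G U, ∑ v, k v w :=
        Finset.sum_le_sum fun w _ => Finset.sum_le_sum_of_subset (Finset.subset_univ _)
    _ = ∑ v ∈ nb G U, f v := Finset.sum_congr rfl fun w _ => h3 w

/-- **Splitting.** -/
theorem split (f : V → ℕ) (hH : ∀ U : Finset V, ∑ v ∈ U, f v ≤ ∑ v ∈ nb G U, f v) :
    ∃ f₁ f₂ : V → ℕ, (∀ v, f₁ v + f₂ v = f v) ∧ (∀ v, f₁ v ≤ f₂ v + 1 ∧ f₂ v ≤ f₁ v + 1) ∧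
      (∀ U : Finset V, ∑ v ∈ U, f₁ v ≤ ∑ v ∈ nb G U, f₁ v) ∧
      ∀ U : Finset V, ∑ v ∈ U, f₂ v ≤ ∑ v ∈ nb G U, f₂ v := by
  classical
  obtain ⟨k, hk1, hk2, hk3⟩ := arcs G f hH
  have hkd : ∀ v, k v v = 0 := fun v => by
    by_contra h
    exact (hk1 v v h).ne rfl
  let l : V → ℕ := fun v => f v % 2
  let h : V → ℕ := fun v => (f v + f v % 2) / 2
  have hh : ∀ v, 2 * h v = f v + l v := fun v => by
    simp only [h, l]
    omega
  let w : V → V → ℝ := fun a b => ((k a b : ℝ) + (if a = b then (l a : ℝ) else 0)) / 2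
  obtain ⟨g, hg1, hg2, hg3⟩ := UPS3.bip_round w
  have hrow : ∀ a, ∑ b, w a b = (h a : ℤ) := by
    intro a
    have h1 : (2 : ℝ) * h a = f a + l a := by exact_mod_cast hh a
    simp only [w]
    rw [← Finset.sum_div, Finset.sum_add_distrib, Finset.sum_ite_eq, if_pos (Finset.mem_univ _),
      ← Nat.cast_sum, hk2]
    push_cast
    linarith
  have hcol : ∀ b, ∑ a, w a b = (h b : ℤ) := by
    intro b
    have h1 : (2 : ℝ) * h b = f b + l b := by exact_mod_cast hh b
    simp only [w]
    rw [← Finset.sum_div, Finset.sum_add_distrib, Finset.sum_ite_eq' univ b (fun a => (l a : ℝ)),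
      if_pos (Finset.mem_univ _), ← Nat.cast_sum, hk3]
    push_cast
    linarith
  have hgrow : ∀ a, ∑ b, g a b = h a := by
    intro a
    have h1 := hg2 a
    rw [hrow, Int.floor_intCast, Int.ceil_intCast] at h1
    exact le_antisymm h1.2 h1.1
  have hgcol : ∀ b, ∑ a, g a b = h b := by
    intro b
    have h1 := hg3 b
    rw [hcol, Int.floor_intCast, Int.ceil_intCast] at h1
    exact le_antisymm h1.2 h1.1
  have hg0 : ∀ a b, 0 ≤ g a b := by
    intro a b
    refine le_trans (Int.floor_nonneg.2 ?_) (hg1 a b).1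
    simp only [w]
    split_ifs <;> positivity
  have hgk : ∀ a b, g a b ≤ k a b + (if a = b then (l a : ℤ) else 0) := by
    intro a b
    refine (hg1 a b).2.trans (Int.ceil_le.2 ?_)
    simp only [w]
    push_cast
    have : (0 : ℝ) ≤ (k a b : ℝ) + (if a = b then (l a : ℝ) else 0) := by
      split_ifs <;> positivity
    linarith
  have hgd : ∀ a, g a a ≤ l a := by
    intro a
    have := hgk a a
    rw [hkd, if_pos rfl] at this
    push_cast at this
    linarith
  -- the first half
  let k₁ : V → V → ℕ := fun a b => if a = b then 0 else (g a b).toNat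
  have hk₁ : ∀ a b, a ≠ b → (k₁ a b : ℤ) = g a b := by
    intro a b hab
    simp only [k₁, if_neg hab]
    exact Int.toNat_of_nonneg (hg0 a b)
  have hk₁le : ∀ a b, k₁ a b ≤ k a b := by
    intro a b
    by_cases hab : a = b
    · simp [k₁, hab]
    · have h1 := hgk a b
      rw [if_neg hab, add_zero, ← hk₁ a b hab] at h1
      exact_mod_cast h1
  let f₁ : V → ℕ := fun a => ∑ b, k₁ a b
  have hf₁ : ∀ a, (f₁ a : ℤ) = h a - g a a := by
    intro a
    have h1 := hgrow a
    rw [← Finset.add_sum_erase univ _ (Finset.mem_univ a)] at h1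
    have h2 : (f₁ a : ℤ) = ∑ b ∈ univ.erase a, g a b := by
      simp only [f₁]
      rw [Nat.cast_sum, ← Finset.add_sum_erase univ _ (Finset.mem_univ a)]
      have h3 : (k₁ a a : ℤ) = 0 := by simp [k₁]
      rw [h3, zero_add]
      exact Finset.sum_congr rfl fun b hb => hk₁ a b (Finset.ne_of_mem_erase hb).symm
    rw [h2]
    linarith
  have hf₁c : ∀ b, ∑ a, k₁ a b = f₁ b := by
    intro b
    have h1 := hgcol b
    rw [← Finset.add_sum_erase univ _ (Finset.mem_univ b)] at h1
    have h2 : ((∑ a, k₁ a b : ℕ) : ℤ) = ∑ a ∈ univ.erase b, g a b := by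
      rw [Nat.cast_sum, ← Finset.add_sum_erase univ _ (Finset.mem_univ b)]
      have h3 : (k₁ b b : ℤ) = 0 := by simp [k₁]
      rw [h3, zero_add]
      exact Finset.sum_congr rfl fun a ha => hk₁ a b (Finset.ne_of_mem_erase ha)
    have h4 := hf₁ b
    have h5 : ((∑ a, k₁ a b : ℕ) : ℤ) = f₁ b := by
      rw [h2, h4]
      linarith
    exact_mod_cast h5
  have hf₁le : ∀ a, f₁ a ≤ f a := by
    intro a
    rw [← hk2 a]
    exact Finset.sum_le_sum fun b _ => hk₁le a b
  refine ⟨f₁, fun a => f a - f₁ a, fun a => Nat.add_sub_cancel' (hf₁le a), fun a => ?_, ?_, ?_⟩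
  · have h1 := hf₁ a
    have h2 := hh a
    have h3 := hg0 a a
    have h4 := hgd a
    have h5 : l a ≤ 1 := by
      simp only [l]
      omega
    have h6 := hf₁le a
    show f₁ a ≤ (f a - f₁ a) + 1 ∧ (f a - f₁ a) ≤ f₁ a + 1
    constructor <;> omega
  · refine hall_of_arcs f₁ k₁ ?_ (fun _ => rfl) hf₁c
    intro a b hab
    refine hk1 a b fun h0 => hab ?_
    have := hk₁le a b
    omega
  · refine hall_of_arcs (fun a => f a - f₁ a) (fun a b => k a b - k₁ a b) ?_ ?_ ?_
    · intro a b hab
      refine hk1 a b fun h0 => hab ?_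
      simp only [h0, Nat.zero_sub]
    · intro a
      have : ∑ b, (k a b - k₁ a b) + ∑ b, k₁ a b = ∑ b, k a b := by
        rw [← Finset.sum_add_distrib]
        exact Finset.sum_congr rfl fun b _ => Nat.sub_add_cancel (hk₁le a b)
      rw [hk2] at this
      exact Nat.eq_sub_of_add_eq this
    · intro b
      have : ∑ a, (k a b - k₁ a b) + ∑ a, k₁ a b = ∑ a, k a b := by
        rw [← Finset.sum_add_distrib]
        exact Finset.sum_congr rfl fun a _ => Nat.sub_add_cancel (hk₁le a b)
      rw [hk3, hf₁c] at this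
      exact Nat.eq_sub_of_add_eq this

/-- Strict expansion in connected regular graphs with an odd closed walk. -/
theorem nb_lt (hc : G.Connected) (hodd : UPS2.EC.OddW G) {d : ℕ}
    (hd : ∀ v, dg G v = d) {U : Finset V} (h0 : U.Nonempty) (h1 : U ≠ univ) :
    U.card < (nb G U).card := by
  classical
  by_contra hle
  push Not at hle
  -- all neighbours of `nb G U` are in `U`
  have hsum : ∑ u ∈ U, dg G u = ∑ w ∈ nb G U, ∑ u ∈ U, if G.Adj w u then 1 else 0 := by
    rw [Finset.sum_comm]
    refine Finset.sum_congr rfl fun u hu => ?_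
    rw [dg, ← Finset.sum_subset (Finset.subset_univ (nb G U))]
    · exact Finset.sum_congr rfl fun w _ => if_congr (SimpleGraph.adj_comm _ _ _) rfl rfl
    · intro w _ hw
      rw [if_neg]
      intro h
      exact hw (Finset.mem_filter.2 ⟨Finset.mem_univ _, u, hu, h⟩)
  have hle2 : ∀ w, (∑ u ∈ U, if G.Adj w u then 1 else 0) ≤ dg G w := by
    intro w
    rw [dg]
    exact Finset.sum_le_sum_of_subset (Finset.subset_univ _)
  have hcl : ∀ w ∈ nb G U, ∀ u, G.Adj w u → u ∈ U := by
    by_contra hcon
    push Not at hcon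
    obtain ⟨w, hw, u, hwu, hu⟩ := hcon
    have h2 : ∑ w ∈ nb G U, (∑ u ∈ U, if G.Adj w u then 1 else 0) < ∑ w ∈ nb G U, dg G w := by
      refine Finset.sum_lt_sum (fun w _ => hle2 w) ⟨w, hw, ?_⟩
      rw [dg]
      refine Finset.sum_lt_sum_of_subset (Finset.subset_univ U) (Finset.mem_univ u) hu ?_ ?_
      · rw [if_pos hwu]
        exact Nat.zero_lt_one
      · intro _ _ _
        exact Nat.zero_le _
    rw [← hsum] at h2
    simp only [hd, Finset.sum_const, smul_eq_mul] at h2
    have h3 := Nat.lt_of_mul_lt_mul_right h2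
    omega
  have hwalk : ∀ {a z : V} (p : G.Walk a z),
      (a ∈ U → (Even p.length → z ∈ U) ∧ (Odd p.length → z ∈ nb G U)) ∧
      (a ∈ nb G U → (Even p.length → z ∈ nb G U) ∧ (Odd p.length → z ∈ U)) := by
    intro a z p
    induction p with
    | nil =>
      refine ⟨fun h => ⟨fun _ => h, fun h' => ?_⟩, fun h => ⟨fun _ => h, fun h' => ?_⟩⟩
      · exact absurd h' (by simp)
      · exact absurd h' (by simp)
    | @cons a b z hab p ih =>
      rw [SimpleGraph.Walk.length_cons, Nat.even_add_one, Nat.odd_add_one, Nat.not_even_iff_odd,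
        Nat.not_odd_iff_even]
      constructor
      · intro ha
        have hb : b ∈ nb G U := Finset.mem_filter.2 ⟨Finset.mem_univ _, a, ha, hab⟩
        exact ⟨(ih.2 hb).2, (ih.2 hb).1⟩
      · intro ha
        have hb : b ∈ U := hcl a ha b hab
        exact ⟨(ih.1 hb).2, (ih.1 hb).1⟩
  obtain ⟨v, q, hq⟩ := hodd
  obtain ⟨u, hu⟩ := h0
  apply h1
  rw [Finset.eq_univ_iff_forall]
  intro z
  obtain ⟨p1⟩ := hc.preconnected u v
  obtain ⟨p2⟩ := hc.preconnected v z
  rcases Nat.even_or_odd (p1.append p2).length with h | h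
  · exact ((hwalk (p1.append p2)).1 hu).1 h
  · refine ((hwalk ((p1.append q).append p2)).1 hu).1 ?_
    rw [SimpleGraph.Walk.length_append] at h
    rw [SimpleGraph.Walk.length_append, SimpleGraph.Walk.length_append]
    rw [Nat.even_iff]
    rw [Nat.odd_iff] at h hq
    omega

theorem nb_univ {d : ℕ} (hd0 : 0 < d) (hd : ∀ v, dg G v = d) : nb G univ = univ := by
  classical
  rw [Finset.eq_univ_iff_forall]
  intro v
  have h1 : dg G v ≠ 0 := by
    rw [hd]
    omega
  rw [dg] at h1
  obtain ⟨w, _, hw⟩ := Finset.exists_ne_zero_of_sum_ne_zero h1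
  refine Finset.mem_filter.2 ⟨Finset.mem_univ _, w, Finset.mem_univ _, ?_⟩
  by_contra h
  exact hw (if_neg fun h' => h h'.symm)

end Pool.Agent.HTutte

namespace Pool.Agent.UPS.TS

open UPS2.EC HTutte

variable {V : Type*} [Fintype V] [DecidableEq V] {G : SimpleGraph V}

/-- adding `1 ± 1_{v0}` -/
theorem hall_add {d : ℕ} (hd0 : 0 < d) (hd : ∀ v, dg G v = d)
    (hexp : ∀ U : Finset V, U.Nonempty → U ≠ univ → U.card < (nb G U).card) (f e : V → ℕ)
    (hH : ∀ U : Finset V, ∑ v ∈ U, f v ≤ ∑ v ∈ nb G U, f v)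
    (he : ∀ U W : Finset V, U.card < W.card → ∑ v ∈ U, e v ≤ ∑ v ∈ W, e v) (U : Finset V) :
    ∑ v ∈ U, (f v + e v) ≤ ∑ v ∈ nb G U, (f v + e v) := by
  rcases U.eq_empty_or_nonempty with rfl | h0
  · simp
  by_cases h1 : U = univ
  · subst h1
    rw [nb_univ hd0 hd]
  rw [Finset.sum_add_distrib, Finset.sum_add_distrib]
  exact add_le_add (hH U) (he U _ (hexp U h0 h1))

/-- **Two-stage correction theorem for non-bipartite graphs.** -/
theorem nonbip_finish [Nontrivial V] (P : ∀ x y : V, G.Walk x y) (hP : Paths P) {d : ℕ}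
    (hd0 : 0 < d) (hd : ∀ v, dg G v = d)
    (hcut : ∀ S : Finset V, S.Nonempty → S ≠ univ → d ≤ cut G S)
    (hexp : ∀ U : Finset V, U.Nonempty → U ≠ univ → U.card < (nb G U).card)
    (D : V → ℕ) (hH : ∀ U : Finset V, ∑ v ∈ U, D v ≤ ∑ v ∈ nb G U, D v)
    (heven : Even (∑ v, D v)) (a₁ a₂ c : ℕ) (h₁ : ∀ v, D v + 8 ≤ 2 * a₁)
    (h₂ : ∀ v, D v + 7 ≤ 2 * a₂)
    (hout : ∀ u w, G.Adj u w → a₁ + 2 + outKill P u w + outKill P w u ≤ Fintype.card V)
    (hin : ∀ u w, G.Adj u w → a₂ + 4 + inKill P u w + inKill P w u ≤ Fintype.card V)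
    (hc : ∀ v, load P v + D v + 4 = c) : HasUPS G := by
  classical
  obtain ⟨f₁, f₂, hsum, hdiff, hH1, hH2⟩ := split D hH
  have hsum' : ∑ v, f₁ v + ∑ v, f₂ v = ∑ v, D v := by
    rw [← Finset.sum_add_distrib]
    exact Finset.sum_congr rfl fun v _ => hsum v
  -- the constant one
  have he1 : ∀ U W : Finset V, U.card < W.card → ∑ v ∈ U, 1 ≤ ∑ v ∈ W, 1 := by
    intro U W h
    simp only [Finset.sum_const, smul_eq_mul, mul_one]
    omega
  by_cases hpar : Even (∑ v, f₁ v)
  · refine gen_finish P hP hd0 hd hcut (fun v => f₁ v + 2) (fun v => f₂ v + 2) a₁ a₂ c ?_ ?_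
      hout hin ?_
    · refine ⟨?_, fun v => by omega, fun v => ?_, fun U => ?_⟩
      · rw [Finset.sum_add_distrib, Finset.sum_const, smul_eq_mul]
        exact hpar.add (even_two.mul_left _)
      · have := h₁ v
        have := hsum v
        have := hdiff v
        omega
      · exact hall_add hd0 hd hexp f₁ (fun _ => 1) hH1 he1 U
    · refine ⟨?_, fun v => by omega, fun v => ?_, fun U => ?_⟩
      · rw [Finset.sum_add_distrib, Finset.sum_const, smul_eq_mul]
        refine Even.add ?_ (even_two.mul_left _)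
        rw [← hsum'] at heven
        exact (Nat.even_add.1 heven).1 hpar
      · have := h₂ v
        have := hsum v
        have := hdiff v
        omega
      · exact hall_add hd0 hd hexp f₂ (fun _ => 1) hH2 he1 U
    · intro v
      have := hc v
      have := hsum v
      omega
  · -- move one unit
    obtain ⟨v0⟩ : Nonempty V := inferInstance
    let s : V → ℕ := fun v => if v = v0 then 1 else 0
    have hs1 : ∀ v, s v ≤ 1 := fun v => by
      simp only [s]
      split_ifs <;> omega
    have hsU : ∀ U : Finset V, ∑ v ∈ U, s v ≤ 1 := by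
      intro U
      simp only [s]
      rw [Finset.sum_ite_eq']
      split_ifs <;> omega
    have hsuniv : ∑ v, s v = 1 := by
      simp only [s]
      rw [Finset.sum_ite_eq', if_pos (Finset.mem_univ _)]
    have hup : ∀ U W : Finset V, U.card < W.card → ∑ v ∈ U, (1 + s v) ≤ ∑ v ∈ W, (1 + s v) := by
      intro U W h
      rw [Finset.sum_add_distrib, Finset.sum_add_distrib]
      simp only [Finset.sum_const, smul_eq_mul, mul_one]
      have := hsU U
      omega
    have hdown : ∀ U W : Finset V, U.card < W.card →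
        ∑ v ∈ U, (1 - s v) ≤ ∑ v ∈ W, (1 - s v) := by
      intro U W h
      have e1 : ∀ U : Finset V, ∑ v ∈ U, (1 - s v) + ∑ v ∈ U, s v = U.card := by
        intro U
        rw [← Finset.sum_add_distrib, Finset.card_eq_sum_ones]
        exact Finset.sum_congr rfl fun v _ => Nat.sub_add_cancel (hs1 v)
      have h1 := e1 U
      have h2 := e1 W
      have h3 := hsU W
      omega
    have hodd1 : ¬ Even (∑ v, f₁ v) := hpar
    have hodd2 : ¬ Even (∑ v, f₂ v) := by
      rw [← hsum'] at heven
      intro h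
      exact hodd1 ((Nat.even_add.1 heven).2 h)
    have hevenup : ∀ f : V → ℕ, ¬ Even (∑ v, f v) → Even (∑ v, (f v + (1 + s v) + 1)) := by
      intro f hf
      rw [Finset.sum_add_distrib, Finset.sum_add_distrib, Finset.sum_add_distrib, hsuniv]
      simp only [Finset.sum_const, smul_eq_mul, mul_one]
      rw [Nat.even_iff] at hf ⊢
      omega
    have hevendown : ∀ f : V → ℕ, ¬ Even (∑ v, f v) → Even (∑ v, (f v + (1 - s v) + 1)) := by
      intro f hf
      have h1 : ∑ v, (1 - s v) + ∑ v, s v = Fintype.card V := by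
        rw [← Finset.sum_add_distrib, Finset.card_univ.symm, Finset.card_eq_sum_ones]
        exact Finset.sum_congr rfl fun v _ => Nat.sub_add_cancel (hs1 v)
      rw [hsuniv] at h1
      rw [Finset.sum_add_distrib, Finset.sum_add_distrib]
      simp only [Finset.sum_const, smul_eq_mul, mul_one]
      rw [Finset.card_univ]
      rw [Nat.even_iff] at hf ⊢
      omega
    have hs0 : ∀ v, v ≠ v0 → s v = 0 := fun v hv => if_neg hv
    by_cases hv0 : f₁ v0 ≤ f₂ v0
    · refine gen_finish P hP hd0 hd hcut (fun v => f₁ v + (1 + s v) + 1)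
        (fun v => f₂ v + (1 - s v) + 1) a₁ a₂ c ?_ ?_ hout hin ?_
      · refine ⟨hevenup f₁ hodd1, fun v => by omega, fun v => ?_, fun U => ?_⟩
        · have := h₁ v
          have := hsum v
          have := hdiff v
          have := hs1 v
          by_cases hv : v = v0
          · subst hv
            omega
          · have := hs0 v hv
            omega
        · exact hall_add hd0 hd hexp f₁ (fun v => 1 + s v) hH1 hup U
      · refine ⟨hevendown f₂ hodd2, fun v => by omega, fun v => ?_, fun U => ?_⟩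
        · have := h₂ v
          have := hsum v
          have := hdiff v
          have := hs1 v
          omega
        · exact hall_add hd0 hd hexp f₂ (fun v => 1 - s v) hH2 hdown U
      · intro v
        have := hc v
        have := hsum v
        have := hs1 v
        omega
    · refine gen_finish P hP hd0 hd hcut (fun v => f₁ v + (1 - s v) + 1)
        (fun v => f₂ v + (1 + s v) + 1) a₁ a₂ c ?_ ?_ hout hin ?_
      · refine ⟨hevendown f₁ hodd1, fun v => by omega, fun v => ?_, fun U => ?_⟩
        · have := h₁ v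
          have := hsum v
          have := hdiff v
          have := hs1 v
          omega
        · exact hall_add hd0 hd hexp f₁ (fun v => 1 - s v) hH1 hdown U
      · refine ⟨hevenup f₂ hodd2, fun v => by omega, fun v => ?_, fun U => ?_⟩
        · have := h₂ v
          have := hsum v
          have := hdiff v
          have := hs1 v
          by_cases hv : v = v0
          · subst hv
            omega
          · have := hs0 v hv
            omega
        · exact hall_add hd0 hd hexp f₂ (fun v => 1 + s v) hH2 hup U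
      · intro v
        have := hc v
        have := hsum v
        have := hs1 v
        omega

end Pool.Agent.UPS.TS
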