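import Mathlib

/-!
# The numerical inequality of the bipartite case (helper96)

With `k = 4` paths per pair: `mu = (n - 4) / (2 (d - 1))`, `V` as in the two level Gram-Schmidt
walk.  For `d ≥ 4`, `n ≥ 4 d`, `3 κ ≥ 2 (d + 1)` one has `(1 + q) ^ n + (1 - q) ^ n - 2 < 1` with
`q = exp (-(mu ^ 2 d / (4 V)))`.
-/

set_option autoImplicit false

namespace Pool.Agent.UPS.NumB

open Real

/-- the variance proxy `V = V1 + V2` -/
noncomputable def VV (d k L S m : ℝ) : ℝ :=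
  (sqrt ((2 * (S - k) + 4 * m * ((d - 2) / (d - 1)) ^ 2) / (16 * k ^ 2)) +
      sqrt m / (2 * k * (d - 1))) ^ 2 +
    (sqrt ((L - 2 + 4 * ((d - 2) / (d - 1)) ^ 2) / 16) + 1 / (2 * (d - 1))) ^ 2

lemma sq_add_le {A b : ℝ} (hA : 0 ≤ A) (hb : 0 ≤ b) : (sqrt A + b) ^ 2 ≤ (1 + b) * (A + b) := by
  have h1 := sq_sqrt hA
  nlinarith [mul_nonneg hb (sq_nonneg (sqrt A - 1))]

lemma sq_add_le' {A b : ℝ} (hA : 0 ≤ A) : (sqrt A + b) ^ 2 ≤ 11 / 10 * A + 11 * b ^ 2 := by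
  have h1 := sq_sqrt hA
  nlinarith [sq_nonneg (sqrt A - 10 * b)]

lemma V2_le {L A b c : ℝ} (h : L ≤ A) (hA : 0 ≤ A) (hb : 0 ≤ b) (hbc : b ≤ c) :
    (sqrt L + b) ^ 2 ≤ (1 + c) * (A + c) := by
  have h1 : sqrt L ≤ sqrt A := sqrt_le_sqrt h
  have h0 : 0 ≤ sqrt L := sqrt_nonneg L
  calc (sqrt L + b) ^ 2 ≤ (sqrt A + c) ^ 2 := by gcongr
    _ ≤ _ := sq_add_le hA (hb.trans hbc)

lemma V1_le {L A b c : ℝ} (h : L ≤ A) (hA : 0 ≤ A) (hb : 0 ≤ b) (hbc : b ≤ c) :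
    (sqrt L + b) ^ 2 ≤ 11 / 10 * A + 11 * c ^ 2 := by
  have h1 : sqrt L ≤ sqrt A := sqrt_le_sqrt h
  have h0 : 0 ≤ sqrt L := sqrt_nonneg L
  calc (sqrt L + b) ^ 2 ≤ (sqrt A + c) ^ 2 := by gcongr
    _ ≤ _ := sq_add_le' hA

/-- the polynomial inequality, `e = d - 1 ≥ 4`, `N = n - 4 ≥ 4 e` -/
lemma poly_ineq {e N : ℝ} (he : 4 ≤ e) (hN : 4 * e ≤ N) :
    (1 + 1 / (2 * e)) * ((3 * N / (e - 1) - 2 + 4 * ((e - 1) / e) ^ 2) / 16 + 1 / (2 * e)) +
      (11 / 10 * ((2 * (6 * (N + 2) / (e + 2)) + 8) / 256) + 11 * (1 / (4 * e)) ^ 2) ≤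
      5 / 16 * N * (e + 1) / e ^ 2 := by
  obtain ⟨s, rfl⟩ : ∃ s, e = s + 4 := ⟨e - 4, by ring⟩
  obtain ⟨v, rfl⟩ : ∃ v, N = 4 * (s + 4) + v := ⟨N - 4 * (s + 4), by ring⟩
  have hs : 0 ≤ s := by linarith
  have hv : 0 ≤ v := by linarith
  have h1 : 0 < s + 4 := by linarith
  have h2 : 0 < s + 4 - 1 := by linarith
  have h3 : 0 < s + 4 + 2 := by linarith
  rw [← sub_nonneg]
  have key : 5 / 16 * (4 * (s + 4) + v) * (s + 4 + 1) / (s + 4) ^ 2 -
      ((1 + 1 / (2 * (s + 4))) * ((3 * (4 * (s + 4) + v) / (s + 4 - 1) - 2 +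
          4 * ((s + 4 - 1) / (s + 4)) ^ 2) / 16 + 1 / (2 * (s + 4))) +
      (11 / 10 * ((2 * (6 * ((4 * (s + 4) + v) + 2) / (s + 4 + 2)) + 8) / 256) +
        11 * (1 / (4 * (s + 4))) ^ 2)) =
      (8712 / 5 + 3456 / 5 * v + 24336 / 5 * s + 3864 / 5 * s * v + 16036 / 5 * s ^ 2 +
        1447 / 5 * s ^ 2 * v + 8647 / 10 * s ^ 3 + 177 / 4 * s ^ 3 * v + 511 / 5 * s ^ 4 +
        47 / 20 * s ^ 4 * v + 43 / 10 * s ^ 5) /
        (32 * (s + 4) ^ 3 * (s + 4 - 1) * (s + 4 + 2)) := by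
    field_simp
    ring
  rw [key]
  positivity

/-- bound of `V` for `d ≥ 5` -/
lemma VV_le_five {d κ N L S m : ℝ} (hd : 5 ≤ d) (hκ : 2 * (d + 1) ≤ 3 * κ)
    (hN : 4 * (d - 1) ≤ N) (hL : L ≤ 2 * N / (κ - 2)) (hS : S ≤ 4 * (N + 2) / κ)
    (hm : m ≤ 4) :
    VV d 4 L S m ≤ 5 / 16 * N * d / (d - 1) ^ 2 := by
  obtain ⟨e, rfl⟩ : ∃ e, d = e + 1 := ⟨d - 1, by ring⟩
  have he : 4 ≤ e := by linarith
  have hN' : 4 * e ≤ N := by linarith
  have hN0 : 0 ≤ N := by linarith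
  have e1 : e + 1 - 1 = e := by ring
  have e2 : e + 1 - 2 = e - 1 := by ring
  have hκ' : 2 * (e + 2) ≤ 3 * κ := by linarith
  have hL' : L ≤ 3 * N / (e - 1) := by
    refine hL.trans ?_
    rw [div_le_div_iff₀ (by linarith) (by linarith)]
    nlinarith
  have hS' : S ≤ 6 * (N + 2) / (e + 2) := by
    refine hS.trans ?_
    rw [div_le_div_iff₀ (by linarith) (by linarith)]
    nlinarith
  have hal : ((e - 1) / e) ^ 2 ≤ 1 := by
    have h1 : (e - 1) / e ≤ 1 := by rw [div_le_one (by linarith)]; linarith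
    have h0 : 0 ≤ (e - 1) / e := div_nonneg (by linarith) (by linarith)
    nlinarith
  have hal0 : 0 ≤ ((e - 1) / e) ^ 2 := sq_nonneg _
  have hlow : 12 ≤ 3 * N / (e - 1) := by
    rw [le_div_iff₀ (by linarith)]; linarith
  have hSlow : 0 ≤ 6 * (N + 2) / (e + 2) := by
    apply div_nonneg <;> linarith
  unfold VV
  rw [e1, e2]
  have hV1 := V1_le (L := (2 * (S - 4) + 4 * m * ((e - 1) / e) ^ 2) / (16 * 4 ^ 2))
    (A := (2 * (6 * (N + 2) / (e + 2)) + 8) / 256) (b := sqrt m / (2 * 4 * e)) (c := 1 / (4 * e))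
    (by
      have : m * ((e - 1) / e) ^ 2 ≤ 4 * 1 := mul_le_mul hm hal hal0 (by norm_num)
      have h16 : (16 * 4 ^ 2 : ℝ) = 256 := by norm_num
      rw [h16]
      apply div_le_div_of_nonneg_right _ (by norm_num)
      nlinarith)
    (by apply div_nonneg _ (by norm_num); linarith)
    (div_nonneg (sqrt_nonneg m) (by linarith))
    (by
      have : sqrt m ≤ 2 := by
        rw [show (2:ℝ) = sqrt 4 by
          rw [show (4:ℝ) = 2 ^ 2 by norm_num, sqrt_sq (by norm_num)]]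
        exact sqrt_le_sqrt hm
      rw [div_le_div_iff₀ (by linarith) (by linarith)]
      nlinarith)
  have hV2 := V2_le (L := (L - 2 + 4 * ((e - 1) / e) ^ 2) / 16)
    (A := (3 * N / (e - 1) - 2 + 4 * ((e - 1) / e) ^ 2) / 16) (b := 1 / (2 * e))
    (c := 1 / (2 * e)) (by linarith)
    (by apply div_nonneg _ (by norm_num); linarith)
    (by apply div_nonneg <;> linarith) le_rfl
  have := poly_ineq he hN'
  linarith

/-- bound of `V` for `d = 4` -/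
lemma VV_le_four {κ N L S m : ℝ} (hκ : 4 ≤ κ)
    (hN : 12 ≤ N) (hL : L ≤ 2 * N / (κ - 2)) (hS : S ≤ 4 * (N + 2) / κ)
    (hm : m ≤ 4) :
    VV 4 4 L S m ≤ 25 / 234 * N := by
  have hL' : L ≤ N := by
    refine hL.trans ?_
    rw [div_le_iff₀ (by linarith)]
    nlinarith
  have hS' : S ≤ N + 2 := by
    refine hS.trans ?_
    rw [div_le_iff₀ (by linarith)]
    nlinarith
  have e1 : ((4:ℝ) - 2) / (4 - 1) = 2 / 3 := by norm_num
  have e2 : (4:ℝ) - 1 = 3 := by norm_num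
  unfold VV
  rw [e1, e2]
  have hV1 := V1_le (L := (2 * (S - 4) + 4 * m * ((2:ℝ) / 3) ^ 2) / (16 * 4 ^ 2))
    (A := (2 * N + 28 / 9) / 256) (b := sqrt m / (2 * 4 * 3)) (c := 1 / 12)
    (by
      have h16 : (16 * 4 ^ 2 : ℝ) = 256 := by norm_num
      rw [h16]
      apply div_le_div_of_nonneg_right _ (by norm_num)
      nlinarith)
    (by apply div_nonneg _ (by norm_num); linarith)
    (div_nonneg (sqrt_nonneg m) (by norm_num))
    (by
      have : sqrt m ≤ 2 := by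
        rw [show (2:ℝ) = sqrt 4 by
          rw [show (4:ℝ) = 2 ^ 2 by norm_num, sqrt_sq (by norm_num)]]
        exact sqrt_le_sqrt hm
      rw [div_le_div_iff₀ (by norm_num) (by norm_num)]
      nlinarith)
  have hV2 := V2_le (L := (L - 2 + 4 * ((2:ℝ) / 3) ^ 2) / 16)
    (A := (N - 2 / 9) / 16) (b := 1 / (2 * 3))
    (c := 1 / 6) (by linarith)
    (by apply div_nonneg _ (by norm_num); linarith)
    (by norm_num) (by norm_num)
  linarith

/-- `(N + 4) exp (-(c N))` is small -/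
lemma decay_five {N : ℝ} (hN : 16 ≤ N) : (N + 4) * exp (-(N / 5)) ≤ 17 / 20 := by
  have h1 : (24:ℝ) ≤ exp (16 / 5) := by
    have e : exp (16 / 5) = exp 1 ^ 3 * exp (1 / 5) := by
      rw [← exp_nat_mul, ← exp_add]; norm_num
    rw [e]
    have h2 := exp_one_gt_d9
    have h3 := add_one_le_exp (1 / 5 : ℝ)
    have h4 : (2718 / 1000 : ℝ) ^ 3 ≤ exp 1 ^ 3 := by gcongr; linarith
    calc (24:ℝ) ≤ (2718 / 1000 : ℝ) ^ 3 * (1 / 5 + 1) := by norm_num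
      _ ≤ exp 1 ^ 3 * exp (1 / 5) := by gcongr
  have h2 : exp (N / 5) = exp (16 / 5) * exp ((N - 16) / 5) := by
    rw [← exp_add]; congr 1; ring
  have h3 := add_one_le_exp ((N - 16) / 5)
  have h4 : N + 4 ≤ 17 / 20 * exp (N / 5) := by
    rw [h2]
    have : 24 * ((N - 16) / 5 + 1) ≤ exp (16 / 5) * exp ((N - 16) / 5) := by gcongr
    nlinarith
  calc (N + 4) * exp (-(N / 5)) ≤ (17 / 20 * exp (N / 5)) * exp (-(N / 5)) := by gcongr
    _ = 17 / 20 := by rw [mul_assoc, ← exp_add]; simp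

lemma decay_four {N : ℝ} (hN : 12 ≤ N) : (N + 4) * exp (-(13 / 50 * N)) ≤ 17 / 20 := by
  have h1 : (22:ℝ) ≤ exp (78 / 25) := by
    have e : exp (78 / 25) = exp 1 ^ 3 * exp (3 / 25) := by
      rw [← exp_nat_mul, ← exp_add]; norm_num
    rw [e]
    have h2 := exp_one_gt_d9
    have h3 := add_one_le_exp (3 / 25 : ℝ)
    have h4 : (2718 / 1000 : ℝ) ^ 3 ≤ exp 1 ^ 3 := by gcongr; linarith
    calc (22:ℝ) ≤ (2718 / 1000 : ℝ) ^ 3 * (3 / 25 + 1) := by norm_num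
      _ ≤ exp 1 ^ 3 * exp (3 / 25) := by gcongr
  have h2 : exp (13 / 50 * N) = exp (78 / 25) * exp (13 / 50 * (N - 12)) := by
    rw [← exp_add]; congr 1; ring
  have h3 := add_one_le_exp (13 / 50 * (N - 12))
  have h4 : N + 4 ≤ 17 / 20 * exp (13 / 50 * N) := by
    rw [h2]
    have : 22 * (13 / 50 * (N - 12) + 1) ≤ exp (78 / 25) * exp (13 / 50 * (N - 12)) := by gcongr
    nlinarith
  calc (N + 4) * exp (-(13 / 50 * N)) ≤ (17 / 20 * exp (13 / 50 * N)) * exp (-(13 / 50 * N)) := by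
        gcongr
    _ = 17 / 20 := by rw [mul_assoc, ← exp_add]; simp

/-- from `n q ≤ 17/20` to the cut sum -/
lemma cutsum_lt {n : ℕ} {q : ℝ} (hq0 : 0 ≤ q) (hq1 : q ≤ 1) (h : (n:ℝ) * q ≤ 17 / 20) :
    (1 + q) ^ n + (1 - q) ^ n - 2 < 1 := by
  have h1 : (1 + q) ^ n ≤ exp (n * q) := by
    rw [exp_nat_mul]
    gcongr
    have := add_one_le_exp q
    linarith
  have h2 : (1 - q) ^ n ≤ exp (-(n * q)) := by
    rw [show -((n:ℝ) * q) = n * (-q) by ring, exp_nat_mul]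
    have h3 : 0 ≤ 1 - q := by linarith
    gcongr
    have := add_one_le_exp (-q)
    linarith
  have h3 : exp (n * q) + exp (-(n * q)) = 2 * cosh (n * q) := by rw [cosh_eq]; ring
  have h4 := cosh_le_exp_half_sq ((n:ℝ) * q)
  have h0 : 0 ≤ (n:ℝ) * q := by positivity
  have h5 : exp (((n:ℝ) * q) ^ 2 / 2) ≤ exp (289 / 800) := by
    apply exp_le_exp.2
    nlinarith
  have h6 : exp (289 / 800 : ℝ) < 3 / 2 := by
    have h7 := add_one_le_exp (-(289 / 1600) : ℝ)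
    have h8 : exp (289 / 800 : ℝ) * (exp (-(289 / 1600))) ^ 2 = 1 := by
      rw [← exp_nat_mul, ← exp_add]; norm_num
    have h9 : (-(289 / 1600) + 1 : ℝ) ^ 2 ≤ (exp (-(289 / 1600))) ^ 2 := by
      gcongr
    have h10 := exp_pos (289 / 800 : ℝ)
    nlinarith
  linarith

/-- **The bipartite numerical inequality**, four paths per pair. -/
theorem num_bip {d κ n : ℕ} (hd : 4 ≤ d) (hκ : 2 * (d + 1) ≤ 3 * κ) (hn : 4 * d ≤ n)
    {L S m V μ : ℝ} (hL : L ≤ 2 * ((n:ℝ) - 4) / ((κ:ℝ) - 2)) (hS : S ≤ 4 * ((n:ℝ) - 2) / κ)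
    (hm : m ≤ 4) (hV0 : 0 < V) (hV : V ≤ VV d 4 L S m)
    (hμ : μ = ((2 * (n:ℝ) - 6 - 4 * ((n:ℝ) - 1 - d) / 4) / ((d:ℝ) - 1) - 1) / 2) :
    0 < μ ∧ (n:ℝ) * exp (-(μ ^ 2 * d / (4 * V))) ≤ 17 / 20 ∧
      (1 + exp (-(μ ^ 2 * d / (4 * V)))) ^ n + (1 - exp (-(μ ^ 2 * d / (4 * V)))) ^ n - 2 < 1 := by
  have hd' : (4:ℝ) ≤ d := by exact_mod_cast hd
  have hκ' : 2 * ((d:ℝ) + 1) ≤ 3 * κ := by exact_mod_cast hκ
  have hn' : 4 * (d:ℝ) ≤ n := by exact_mod_cast hn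
  set N : ℝ := (n:ℝ) - 4 with hN
  have hNn : (n:ℝ) = N + 4 := by rw [hN]; ring
  have hμ' : μ = N / (2 * ((d:ℝ) - 1)) := by
    rw [hμ, hNn]
    have : (d:ℝ) - 1 ≠ 0 := by linarith
    field_simp
    ring
  have hN4 : 4 * ((d:ℝ) - 1) ≤ N := by rw [hN]; linarith
  have hNpos : 0 < N := by linarith
  have hS' : S ≤ 4 * (N + 2) / κ := by
    have : (n:ℝ) - 2 = N + 2 := by rw [hN]; ring
    rw [← this]; exact hS
  have hμ0 : 0 < μ := by
    rw [hμ']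
    apply div_pos hNpos; linarith
  have hq1 : exp (-(μ ^ 2 * d / (4 * V))) ≤ 1 := by
    apply exp_le_one_iff.2
    have : 0 ≤ μ ^ 2 * d / (4 * V) := by positivity
    linarith
  have main : (n:ℝ) * exp (-(μ ^ 2 * d / (4 * V))) ≤ 17 / 20 := by
    rcases Nat.lt_or_ge 4 d with h5 | h5
    · have hd5 : (5:ℝ) ≤ d := by exact_mod_cast h5
      have hb := VV_le_five hd5 hκ' hN4 hL hS' hm
      have hVb : V ≤ 5 / 16 * N * d / ((d:ℝ) - 1) ^ 2 := hV.trans hb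
      have hexp : N / 5 ≤ μ ^ 2 * d / (4 * V) := by
        rw [le_div_iff₀ (by linarith), hμ']
        have hd1 : 0 < (d:ℝ) - 1 := by linarith
        calc N / 5 * (4 * V) ≤ N / 5 * (4 * (5 / 16 * N * d / ((d:ℝ) - 1) ^ 2)) := by gcongr
          _ = (N / (2 * ((d:ℝ) - 1))) ^ 2 * d := by field_simp; ring
      have h16 : 16 ≤ N := by linarith
      calc (n:ℝ) * exp (-(μ ^ 2 * d / (4 * V))) ≤ (N + 4) * exp (-(N / 5)) := by
            rw [hNn]
            have : exp (-(μ ^ 2 * d / (4 * V))) ≤ exp (-(N / 5)) :=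
              exp_le_exp.2 (by linarith)
            have h0 : 0 ≤ N + 4 := by linarith
            gcongr
        _ ≤ _ := decay_five h16
    · have hd4 : d = 4 := le_antisymm h5 hd
      subst hd4
      have hκ4 : (4:ℝ) ≤ κ := by
        have : 4 ≤ κ := by omega
        exact_mod_cast this
      push_cast at *
      have h12 : 12 ≤ N := by linarith
      have hb := VV_le_four hκ4 h12 hL hS' hm
      have hVb : V ≤ 25 / 234 * N := hV.trans hb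
      have hexp : 13 / 50 * N ≤ μ ^ 2 * 4 / (4 * V) := by
        rw [le_div_iff₀ (by linarith), hμ']
        calc 13 / 50 * N * (4 * V) ≤ 13 / 50 * N * (4 * (25 / 234 * N)) := by gcongr
          _ = (N / (2 * ((4:ℝ) - 1))) ^ 2 * 4 := by norm_num; ring
      calc (n:ℝ) * exp (-(μ ^ 2 * 4 / (4 * V))) ≤ (N + 4) * exp (-(13 / 50 * N)) := by
            rw [hNn]
            have : exp (-(μ ^ 2 * 4 / (4 * V))) ≤ exp (-(13 / 50 * N)) :=
              exp_le_exp.2 (by linarith)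
            have h0 : 0 ≤ N + 4 := by linarith
            gcongr
        _ ≤ _ := decay_four h12
  exact ⟨hμ0, main, cutsum_lt (exp_pos _).le hq1 main⟩

end Pool.Agent.UPS.NumB
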