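import Pool.Agent.Lib.MP_876e19_co_ups.NumB

/-!
# The bipartite numerical inequality for the two-floor finish (helper96)

`mu ≥ (n - 1 - d) / (2 (d - 1)) - 1 / (2 d)`, four paths per pair.
-/

set_option autoImplicit false

namespace Pool.Agent.UPS.NumB

open Real

/-- `n exp (-(c n))` is at most `17/20` from `n0` on -/
lemma decay {c n0 n : ℝ} (hn0 : 0 < n0) (h1 : 1 ≤ c * n0) (hK : n0 ≤ 17 / 20 * exp (c * n0))
    (hn : n0 ≤ n) : n * exp (-(c * n)) ≤ 17 / 20 := by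
  have h2 := add_one_le_exp ((n - n0) / n0)
  have h3 : (n - n0) / n0 ≤ c * (n - n0) := by
    rw [div_le_iff₀ hn0]
    nlinarith
  have h4 : n ≤ n0 * exp (c * (n - n0)) := by
    have h5 : n = n0 * ((n - n0) / n0 + 1) := by field_simp; ring
    calc n = n0 * ((n - n0) / n0 + 1) := h5
      _ ≤ n0 * exp ((n - n0) / n0) := by gcongr
      _ ≤ n0 * exp (c * (n - n0)) := by gcongr
  calc n * exp (-(c * n)) ≤ (n0 * exp (c * (n - n0))) * exp (-(c * n)) := by gcongr
    _ = n0 * exp (-(c * n0)) := by rw [mul_assoc, ← exp_add]; congr 2; ring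
    _ ≤ (17 / 20 * exp (c * n0)) * exp (-(c * n0)) := by gcongr
    _ = 17 / 20 := by rw [mul_assoc, ← exp_add]; simp

lemma exp_three_add {a x : ℝ} (ha : 3 + a ≤ x) (k : ℕ) (hk : (k:ℝ) ≠ 0) (h0 : 0 ≤ a / k + 1) :
    (2718 / 1000 : ℝ) ^ 3 * (a / k + 1) ^ k ≤ exp x := by
  have e : exp (3 + a) = exp 1 ^ 3 * exp (a / k) ^ k := by
    rw [← exp_nat_mul, ← exp_nat_mul, ← exp_add]
    congr 1
    rw [mul_div_cancel₀ _ hk]
    norm_num
  have h1 := exp_one_gt_d9
  have h2 := add_one_le_exp (a / k)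
  calc (2718 / 1000 : ℝ) ^ 3 * (a / k + 1) ^ k ≤ exp 1 ^ 3 * exp (a / k) ^ k := by
        gcongr
        linarith
    _ = exp (3 + a) := e.symm
    _ ≤ exp x := exp_le_exp.2 ha

/-- the general shape of the two bounds -/
lemma VV_le_gen {d L S m A1 A2 c1 c2 : ℝ} (hd : 1 < d)
    (h1 : (2 * (S - 4) + 4 * m * ((d - 2) / (d - 1)) ^ 2) / (16 * 4 ^ 2) ≤ A1) (hA1 : 0 ≤ A1)
    (h2 : (L - 2 + 4 * ((d - 2) / (d - 1)) ^ 2) / 16 ≤ A2) (hA2 : 0 ≤ A2)
    (hc1 : m / (64 * (d - 1) ^ 2) ≤ c1) (hm : 0 ≤ m) (hc2 : 1 / (2 * (d - 1)) = c2) :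
    VV d 4 L S m ≤ 11 / 10 * A1 + 11 * c1 + (1 + c2) * (A2 + c2) := by
  have hd1 : 0 < d - 1 := by linarith
  have hV1 := V1_le (b := sqrt m / (2 * 4 * (d - 1))) h1 hA1
    (div_nonneg (sqrt_nonneg m) (by linarith)) le_rfl
  have hV2 := V2_le (b := 1 / (2 * (d - 1))) h2 hA2
    (div_nonneg zero_le_one (by linarith)) (le_of_eq hc2)
  have e : (sqrt m / (2 * 4 * (d - 1))) ^ 2 = m / (64 * (d - 1) ^ 2) := by
    rw [div_pow, sq_sqrt hm]
    ring
  rw [e] at hV1
  unfold VV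
  linarith

/-- `d ≥ 8` -/
lemma poly_ineq2 {e n : ℝ} (he : 7 ≤ e) (hn : 4 * (e + 1) ≤ n) :
    (1 + 1 / (2 * e)) * ((3 * (n - 4) / (e - 1) - 2 + 4 * ((e - 1) / e) ^ 2) / 16 +
        1 / (2 * e)) +
      (11 / 10 * ((2 * (6 * (n - 2) / (e + 2)) + 8) / 256) + 11 * (1 / (4 * e)) ^ 2) ≤
      ((n - e - 2) / (2 * e) - 1 / (2 * (e + 1))) ^ 2 * (e + 1) / (4 * (23 / 200 * n)) := by
  obtain ⟨s, rfl⟩ : ∃ s, e = s + 7 := ⟨e - 7, by ring⟩
  obtain ⟨v, rfl⟩ : ∃ v, n = 4 * (s + 7) + 4 + v := ⟨n - (4 * (s + 7) + 4), by ring⟩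
  have hs : 0 ≤ s := by linarith
  have hv : 0 ≤ v := by linarith
  have h1 : 0 < s + 7 := by linarith
  have h2 : 0 < s + 7 - 1 := by linarith
  have h3 : 0 < s + 7 + 2 := by linarith
  have h4 : 0 < s + 7 + 1 := by linarith
  have h5 : 0 < 4 * (s + 7) + 4 + v := by linarith
  rw [← sub_nonneg]
  have key : ((4 * (s + 7) + 4 + v - (s + 7) - 2) / (2 * (s + 7)) - 1 / (2 * (s + 7 + 1))) ^ 2 *
        (s + 7 + 1) / (4 * (23 / 200 * (4 * (s + 7) + 4 + v))) -
      ((1 + 1 / (2 * (s + 7))) * ((3 * (4 * (s + 7) + 4 + v - 4) / (s + 7 - 1) - 2 +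
          4 * ((s + 7 - 1) / (s + 7)) ^ 2) / 16 + 1 / (2 * (s + 7))) +
      (11 / 10 * ((2 * (6 * (4 * (s + 7) + 4 + v - 2) / (s + 7 + 2)) + 8) / 256) +
        11 * (1 / (4 * (s + 7))) ^ 2)) =
      (525019536 / 125 + 374725944 / 125 * v + 13501278 / 125 * v ^ 2 + 612835992 / 125 * s +
        307499079 / 125 * s * v + 36472899 / 500 * s * v ^ 2 + 287057772 / 125 * s ^ 2 +
        104274606 / 125 * s ^ 2 * v + 19540109 / 1000 * s ^ 2 * v ^ 2 +
        71521228 / 125 * s ^ 3 + 14971761 / 100 * s ^ 3 * v + 2596309 / 1000 * s ^ 3 * v ^ 2 +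
        10359571 / 125 * s ^ 4 + 7502909 / 500 * s ^ 4 * v + 6847 / 40 * s ^ 4 * v ^ 2 +
        175703 / 25 * s ^ 5 + 398299 / 500 * s ^ 5 * v + 4481 / 1000 * s ^ 5 * v ^ 2 +
        8113 / 25 * s ^ 6 + 8751 / 500 * s ^ 6 * v + 789 / 125 * s ^ 7) /
        (32 * (s + 7) ^ 3 * (s + 7 - 1) * (s + 7 + 2) * (s + 7 + 1) *
          (23 / 50 * (4 * (s + 7) + 4 + v))) := by
    field_simp
    ring
  rw [key]
  positivity

/-- the value of `mu` in the two-floor finish, four paths -/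
noncomputable def mu0 (n d : ℝ) : ℝ := (n - 1 - d) / (2 * (d - 1)) - 1 / (2 * d)

lemma mu0_pos {n d : ℝ} (hd : 4 ≤ d) (hn : 4 * d ≤ n) : 0 < mu0 n d := by
  unfold mu0
  have h1 : 0 < 2 * (d - 1) := by linarith
  have h2 : 0 < 2 * d := by linarith
  rw [sub_pos, div_lt_div_iff₀ h2 h1]
  nlinarith

/-- the five cases -/
lemma VV_cases {d κ n : ℕ} (hd : 4 ≤ d) (hκ : 2 * (d + 1) ≤ 3 * κ) (hκ5 : d = 5 → 5 ≤ κ)
    (hκ6 : d = 6 → 6 ≤ κ) (hn : 4 * d ≤ n) (hn4 : d = 4 → 18 ≤ n) {L S m : ℝ}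
    (hL : L ≤ 2 * ((n:ℝ) - 4) / ((κ:ℝ) - 2)) (hS : S ≤ 4 * ((n:ℝ) - 2) / κ)
    (hm0 : 0 ≤ m) (hm : m ≤ 4) (hmd : m ≤ (d:ℝ) - 4) :
    ∃ c : ℝ, 0 < c ∧ (n:ℝ) * exp (-(c * n)) ≤ 17 / 20 ∧
      VV d 4 L S m ≤ mu0 n d ^ 2 * d / (4 * (c * n)) := by
  have hd' : (4:ℝ) ≤ d := by exact_mod_cast hd
  have hκ' : 2 * ((d:ℝ) + 1) ≤ 3 * κ := by exact_mod_cast hκ
  have hn' : 4 * (d:ℝ) ≤ n := by exact_mod_cast hn
  have hcases : d = 4 ∨ d = 5 ∨ d = 6 ∨ d = 7 ∨ 8 ≤ d := by omega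
  rcases hcases with rfl | rfl | rfl | rfl | h8
  · -- d = 4
    have hκ4 : (4:ℝ) ≤ κ := by
      have : 4 ≤ κ := by omega
      exact_mod_cast this
    have hn18 : (18:ℝ) ≤ n := by exact_mod_cast hn4 rfl
    push_cast at *
    have hL' : L ≤ n - 4 := by
      refine hL.trans ?_
      rw [div_le_iff₀ (by linarith)]
      nlinarith
    have hS' : S ≤ n - 2 := by
      refine hS.trans ?_
      rw [div_le_iff₀ (by linarith)]
      nlinarith
    have hm' : m = 0 := le_antisymm (by linarith) hm0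
    refine ⟨7 / 40, by norm_num, decay (n0 := 18) (by norm_num) (by norm_num) ?_ hn18, ?_⟩
    · have := exp_three_add (a := 3 / 20) (x := 7 / 40 * 18) (by norm_num) 1 (by norm_num)
        (by norm_num)
      refine le_trans ?_ (mul_le_mul_of_nonneg_left this (by norm_num))
      norm_num
    · have h := VV_le_gen (d := 4) (L := L) (S := S) (m := m) (A1 := ((n:ℝ) - 6) / 128)
        (A2 := ((n:ℝ) - 4 - 2 / 9) / 16) (c1 := 0) (c2 := 1 / 6) (by norm_num)
        (by rw [hm']; norm_num; linarith) (by linarith) (by norm_num; linarith) (by linarith)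
        (by rw [hm']; norm_num) hm0 (by norm_num)
      refine h.trans ?_
      unfold mu0
      obtain ⟨v, hv⟩ : ∃ v : ℝ, (n:ℝ) = 18 + v := ⟨n - 18, by ring⟩
      have hv0 : 0 ≤ v := by linarith
      rw [hv, le_div_iff₀ (by linarith)]
      nlinarith [mul_nonneg hv0 hv0]
  · -- d = 5
    have hκ5' : (5:ℝ) ≤ κ := by exact_mod_cast hκ5 rfl
    push_cast at *
    have hn20 : (20:ℝ) ≤ n := by linarith
    have hL' : L ≤ 2 * (n - 4) / 3 := by
      refine hL.trans ?_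
      rw [div_le_div_iff₀ (by linarith) (by norm_num)]
      nlinarith
    have hS' : S ≤ 4 * (n - 2) / 5 := by
      refine hS.trans ?_
      rw [div_le_div_iff₀ (by linarith) (by norm_num)]
      nlinarith
    refine ⟨4 / 25, by norm_num, decay (n0 := 20) (by norm_num) (by norm_num) ?_ hn20, ?_⟩
    · have := exp_three_add (a := 1 / 5) (x := 4 / 25 * 20) (by norm_num) 1 (by norm_num)
        (by norm_num)
      refine le_trans ?_ (mul_le_mul_of_nonneg_left this (by norm_num))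
      norm_num
    · have h := VV_le_gen (d := 5) (L := L) (S := S) (m := m)
        (A1 := (8 * ((n:ℝ) - 2) / 5 - 23 / 4) / 256)
        (A2 := (2 * ((n:ℝ) - 4) / 3 + 1 / 4) / 16) (c1 := 1 / 1024) (c2 := 1 / 8) (by norm_num)
        (by norm_num; linarith) (by linarith) (by norm_num; linarith) (by linarith)
        (by norm_num; linarith) hm0 (by norm_num)
      refine h.trans ?_
      unfold mu0
      obtain ⟨v, hv⟩ : ∃ v : ℝ, (n:ℝ) = 20 + v := ⟨n - 20, by ring⟩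
      have hv0 : 0 ≤ v := by linarith
      rw [hv, le_div_iff₀ (by linarith)]
      nlinarith [mul_nonneg hv0 hv0]
  · -- d = 6
    have hκ6' : (6:ℝ) ≤ κ := by exact_mod_cast hκ6 rfl
    push_cast at *
    have hn24 : (24:ℝ) ≤ n := by linarith
    have hL' : L ≤ (n - 4) / 2 := by
      refine hL.trans ?_
      rw [div_le_div_iff₀ (by linarith) (by norm_num)]
      nlinarith
    have hS' : S ≤ 2 * (n - 2) / 3 := by
      refine hS.trans ?_
      rw [div_le_div_iff₀ (by linarith) (by norm_num)]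
      nlinarith
    refine ⟨3 / 20, by norm_num, decay (n0 := 24) (by norm_num) (by norm_num) ?_ hn24, ?_⟩
    · have := exp_three_add (a := 3 / 5) (x := 3 / 20 * 24) (by norm_num) 1 (by norm_num)
        (by norm_num)
      refine le_trans ?_ (mul_le_mul_of_nonneg_left this (by norm_num))
      norm_num
    · have h := VV_le_gen (d := 6) (L := L) (S := S) (m := m)
        (A1 := (4 * ((n:ℝ) - 2) / 3 - 72 / 25) / 256)
        (A2 := (((n:ℝ) - 4) / 2 + 14 / 25) / 16) (c1 := 1 / 800) (c2 := 1 / 10) (by norm_num)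
        (by norm_num; linarith) (by linarith) (by norm_num; linarith) (by linarith)
        (by norm_num; linarith) hm0 (by norm_num)
      refine h.trans ?_
      unfold mu0
      obtain ⟨v, hv⟩ : ∃ v : ℝ, (n:ℝ) = 24 + v := ⟨n - 24, by ring⟩
      have hv0 : 0 ≤ v := by linarith
      rw [hv, le_div_iff₀ (by linarith)]
      nlinarith [mul_nonneg hv0 hv0]
  · -- d = 7
    have hκ6' : (6:ℝ) ≤ κ := by
      have : 6 ≤ κ := by omega
      exact_mod_cast this
    push_cast at *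
    have hn28 : (28:ℝ) ≤ n := by linarith
    have hL' : L ≤ (n - 4) / 2 := by
      refine hL.trans ?_
      rw [div_le_div_iff₀ (by linarith) (by norm_num)]
      nlinarith
    have hS' : S ≤ 2 * (n - 2) / 3 := by
      refine hS.trans ?_
      rw [div_le_div_iff₀ (by linarith) (by norm_num)]
      nlinarith
    refine ⟨13 / 100, by norm_num, decay (n0 := 28) (by norm_num) (by norm_num) ?_ hn28, ?_⟩
    · have := exp_three_add (a := 16 / 25) (x := 13 / 100 * 28) (by norm_num) 4 (by norm_num)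
        (by norm_num)
      refine le_trans ?_ (mul_le_mul_of_nonneg_left this (by norm_num))
      norm_num
    · have h := VV_le_gen (d := 7) (L := L) (S := S) (m := m)
        (A1 := (4 * ((n:ℝ) - 2) / 3 + 1 / 3) / 256)
        (A2 := (((n:ℝ) - 4) / 2 + 7 / 9) / 16) (c1 := 3 / 2304) (c2 := 1 / 12) (by norm_num)
        (by norm_num; linarith) (by linarith) (by norm_num; linarith) (by linarith)
        (by norm_num; linarith) hm0 (by norm_num)
      refine h.trans ?_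
      unfold mu0
      obtain ⟨v, hv⟩ : ∃ v : ℝ, (n:ℝ) = 28 + v := ⟨n - 28, by ring⟩
      have hv0 : 0 ≤ v := by linarith
      rw [hv, le_div_iff₀ (by linarith)]
      nlinarith [mul_nonneg hv0 hv0]
  · -- d ≥ 8
    have hd8 : (8:ℝ) ≤ d := by exact_mod_cast h8
    have hn32 : (32:ℝ) ≤ n := by linarith
    refine ⟨23 / 200, by norm_num, decay (n0 := 32) (by norm_num) (by norm_num) ?_ hn32, ?_⟩
    · have := exp_three_add (a := 17 / 25) (x := 23 / 200 * 32) (by norm_num) 8 (by norm_num)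
        (by norm_num)
      refine le_trans ?_ (mul_le_mul_of_nonneg_left this (by norm_num))
      norm_num
    · obtain ⟨e, he⟩ : ∃ e : ℝ, (d:ℝ) = e + 1 := ⟨d - 1, by ring⟩
      have he7 : 7 ≤ e := by linarith
      have hL' : L ≤ 3 * ((n:ℝ) - 4) / (e - 1) := by
        refine hL.trans ?_
        rw [div_le_div_iff₀ (by linarith) (by linarith)]
        nlinarith
      have hS' : S ≤ 6 * ((n:ℝ) - 2) / (e + 2) := by
        refine hS.trans ?_
        rw [div_le_div_iff₀ (by linarith) (by linarith)]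
        nlinarith
      have e1 : e + 1 - 1 = e := by ring
      have e2 : e + 1 - 2 = e - 1 := by ring
      have hal : ((e - 1) / e) ^ 2 ≤ 1 := by
        have h1 : (e - 1) / e ≤ 1 := by rw [div_le_one (by linarith)]; linarith
        have h0 : 0 ≤ (e - 1) / e := div_nonneg (by linarith) (by linarith)
        nlinarith
      have hal0 : 0 ≤ ((e - 1) / e) ^ 2 := sq_nonneg _
      have hlow : 3 ≤ 3 * ((n:ℝ) - 4) / (e - 1) := by
        rw [le_div_iff₀ (by linarith)]; linarith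
      have hSlow : 0 ≤ 6 * ((n:ℝ) - 2) / (e + 2) := by
        apply div_nonneg <;> linarith
      have h := VV_le_gen (d := e + 1) (L := L) (S := S) (m := m)
        (A1 := (2 * (6 * ((n:ℝ) - 2) / (e + 2)) + 8) / 256)
        (A2 := (3 * ((n:ℝ) - 4) / (e - 1) - 2 + 4 * ((e - 1) / e) ^ 2) / 16)
        (c1 := (1 / (4 * e)) ^ 2) (c2 := 1 / (2 * e)) (by linarith)
        (by
          rw [e1, e2]
          have : m * ((e - 1) / e) ^ 2 ≤ 4 * 1 := mul_le_mul hm hal hal0 (by norm_num)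
          have h16 : (16 * 4 ^ 2 : ℝ) = 256 := by norm_num
          rw [h16]
          apply div_le_div_of_nonneg_right _ (by norm_num)
          nlinarith)
        (by apply div_nonneg _ (by norm_num); linarith)
        (by rw [e1, e2]; linarith)
        (by apply div_nonneg _ (by norm_num); linarith)
        (by
          rw [e1]
          have h1 : (1 / (4 * e)) ^ 2 = 4 / (64 * e ^ 2) := by
            field_simp
            norm_num
          rw [h1]
          apply div_le_div_of_nonneg_right hm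
          positivity)
        hm0 (by rw [e1])
      rw [he]
      refine h.trans ?_
      have hp := poly_ineq2 (e := e) (n := n) he7 (by linarith)
      have e3 : mu0 n (e + 1) = ((n:ℝ) - e - 2) / (2 * e) - 1 / (2 * (e + 1)) := by
        unfold mu0
        rw [e1]
        congr 2
        ring
      rw [e3]
      refine le_trans (le_of_eq ?_) hp
      ring

/-- **The bipartite numerical inequality for the two-floor finish**, four paths per pair. -/
theorem num_bip2 {d κ n : ℕ} (hd : 4 ≤ d) (hκ : 2 * (d + 1) ≤ 3 * κ) (hκ5 : d = 5 → 5 ≤ κ)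
    (hκ6 : d = 6 → 6 ≤ κ) (hn : 4 * d ≤ n) (hn4 : d = 4 → 18 ≤ n) {L S m V μ : ℝ}
    (hL : L ≤ 2 * ((n:ℝ) - 4) / ((κ:ℝ) - 2)) (hS : S ≤ 4 * ((n:ℝ) - 2) / κ)
    (hm0 : 0 ≤ m) (hm : m ≤ 4) (hmd : m ≤ (d:ℝ) - 4) (hV0 : 0 < V) (hV : V ≤ VV d 4 L S m)
    (hμ : ((n:ℝ) - 1 - d) / (2 * ((d:ℝ) - 1)) - 1 / (2 * (d:ℝ)) ≤ μ) :
    0 < μ ∧ (n:ℝ) * exp (-(μ ^ 2 * d / (4 * V))) ≤ 17 / 20 ∧
      (1 + exp (-(μ ^ 2 * d / (4 * V)))) ^ n + (1 - exp (-(μ ^ 2 * d / (4 * V)))) ^ n - 2 < 1 := by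
  have hd' : (4:ℝ) ≤ d := by exact_mod_cast hd
  have hn' : 4 * (d:ℝ) ≤ n := by exact_mod_cast hn
  have hpos := mu0_pos hd' hn'
  have hμ1 : mu0 n d ≤ μ := hμ
  have hμ0 : 0 < μ := hpos.trans_le hμ1
  have hn0 : (0:ℝ) < n := by linarith
  obtain ⟨c, hc0, hc1, hc2⟩ := VV_cases hd hκ hκ5 hκ6 hn hn4 hL hS hm0 hm hmd
  have hexp : c * n ≤ μ ^ 2 * d / (4 * V) := by
    have h1 := hV.trans hc2
    rw [le_div_iff₀ (by positivity)] at h1
    rw [le_div_iff₀ (by linarith)]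
    have h2 : mu0 n d ^ 2 * d ≤ μ ^ 2 * d := by gcongr
    nlinarith
  have main : (n:ℝ) * exp (-(μ ^ 2 * d / (4 * V))) ≤ 17 / 20 := by
    refine le_trans ?_ hc1
    have : exp (-(μ ^ 2 * d / (4 * V))) ≤ exp (-(c * n)) := exp_le_exp.2 (by linarith)
    gcongr
  have hq1 : exp (-(μ ^ 2 * d / (4 * V))) ≤ 1 := by
    apply exp_le_one_iff.2
    have : 0 ≤ μ ^ 2 * d / (4 * V) := by positivity
    linarith
  exact ⟨hμ0, main, cutsum_lt (exp_pos _).le hq1 main⟩

end Pool.Agent.UPS.NumB
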