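import Pool.Agent.Lib.MP_876e19_co_ups.NumBase

/-!
# Numerics of the non-bipartite criterion (helper4, TT876)

`Q n d t < T` for `T = 3/2` or `T = 2`.
-/

set_option autoImplicit false

namespace Pool.Agent.UPS.Num

open Real

theorem nb4_even {n : ℕ} (hn : 24 ≤ n) {S L V μ : ℝ} (hS : S ≤ n - 2) (hL : L ≤ n - 4)
    (hV0 : 0 < V) (hV : V ≤ VW S L 4 4 0) (hμ : (Wd n 4 4 - 1 / 4) / 2 ≤ μ) :
    Q n 4 (4 * μ ^ 2 / (9 * V)) < 3 / 2 := by
  obtain ⟨s, hs⟩ : ∃ s : ℝ, (n : ℝ) = 24 + s := ⟨n - 24, by ring⟩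
  have hs0 : 0 ≤ s := by
    have : (24 : ℝ) ≤ n := by exact_mod_cast hn
    linarith
  rw [hs] at hS hL hμ
  refine (fixd (le_refl 4) (c := 11 / 2 + 1 / 24 * s) (ℓ := 0.405) hV0
    (hV.trans (VW_le (ε₁ := 1 / 6) (ε₂ := 1 / 7) hS hL (by norm_num) (by norm_num) le_rfl
      le_rfl (by linarith) (by linarith) (by norm_num) (by norm_num)))
    (M := (Wd (24 + s) 4 4 - 1 / 4) / 2) ?_ hμ (by positivity) ?_ ?_).trans_lt exp_lt_three_halves
  · unfold Wd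
    norm_num
    nlinarith
  · unfold Wd
    norm_num
    nlinarith [mul_nonneg hs0 hs0]
  · rw [hs]
    have h := exp_lin (r := 24 * 4 / 0.405) (c₀ := 11 / 2) (c₁ := 1 / 24) (s := s)
      ((by norm_num [Finset.sum_range_succ, Nat.factorial] :
        (24 * 4 / 0.405 : ℝ) ≤ ∑ i ∈ Finset.range 16, (11 / 2 : ℝ) ^ i / i.factorial).trans
        (sum_le_exp_of_nonneg (by norm_num) 16)) (by positivity)
    push_cast
    linarith

theorem nb4_odd {n : ℕ} (hn : 23 ≤ n) {S L V μ : ℝ} (hS : S ≤ 4 * (n - 2) / 4)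
    (hL : L ≤ 2 * (n - 4) / 2) (hV0 : 0 < V) (hV : V ≤ VW S L 4 4 0)
    (hμ : (Wd n 4 4 - 2 / 4) / 2 ≤ μ) : Q n 4 (4 * μ ^ 2 / (9 * V)) < 2 := by
  obtain ⟨s, hs⟩ : ∃ s : ℝ, (n : ℝ) = 23 + s := ⟨n - 23, by ring⟩
  have hs0 : 0 ≤ s := by
    have : (23 : ℝ) ≤ n := by exact_mod_cast hn
    linarith
  rw [hs] at hS hL hμ
  refine (fixd (by norm_num : 4 ≤ 4) (c := 49 / 10 + 1 / 23 * s) (ℓ := 0.693) hV0
    (hV.trans (VW_le (ε₁ := 1 / 1000) (ε₂ := 1 / 7) hS hL (by norm_num) (by norm_num) (by norm_num)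
      le_rfl (by linarith) (by linarith) (by norm_num) (by norm_num)))
    (M := (Wd (23 + s) 4 4 - 2 / 4) / 2) ?_ hμ (by positivity) ?_ ?_).trans_lt exp_lt_two
  · unfold Wd
    norm_num
    nlinarith
  · unfold Wd
    norm_num
    nlinarith [mul_nonneg hs0 hs0]
  · rw [hs]
    have h := exp_lin (r := 23 * 4 / 0.693) (c₀ := 49 / 10) (c₁ := 1 / 23) (s := s)
      ((by norm_num [Finset.sum_range_succ, Nat.factorial] :
        (23 * 4 / 0.693 : ℝ) ≤ ∑ i ∈ Finset.range 12, (49 / 10 : ℝ) ^ i / i.factorial).trans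
        (sum_le_exp_of_nonneg (by norm_num) 12)) (by positivity)
    push_cast
    linarith

theorem nb5_even {n : ℕ} (hn : 22 ≤ n) {S L V μ : ℝ} (hS : S ≤ 5 * (n - 2) / 5)
    (hL : L ≤ 2 * (n - 5) / 2) (hV0 : 0 < V) (hV : V ≤ VW S L 5 5 0)
    (hμ : (Wd n 5 5 - 1 / 5) / 2 ≤ μ) : Q n 5 (4 * μ ^ 2 / (9 * V)) < 3 / 2 := by
  obtain ⟨s, hs⟩ : ∃ s : ℝ, (n : ℝ) = 22 + s := ⟨n - 22, by ring⟩
  have hs0 : 0 ≤ s := by
    have : (22 : ℝ) ≤ n := by exact_mod_cast hn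
    linarith
  rw [hs] at hS hL hμ
  refine (fixd (by norm_num : 4 ≤ 5) (c := 57 / 10 + 1 / 22 * s) (ℓ := 0.405) hV0
    (hV.trans (VW_le (ε₁ := 1 / 1000) (ε₂ := 1 / 8) hS hL (by norm_num) (by norm_num) (by norm_num)
      le_rfl (by linarith) (by linarith) (by norm_num) (by norm_num)))
    (M := (Wd (22 + s) 5 5 - 1 / 5) / 2) ?_ hμ (by positivity) ?_ ?_).trans_lt exp_lt_three_halves
  · unfold Wd
    norm_num
    nlinarith
  · unfold Wd
    norm_num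
    nlinarith [mul_nonneg hs0 hs0]
  · rw [hs]
    have h := exp_lin (r := 22 * 5 / 0.405) (c₀ := 57 / 10) (c₁ := 1 / 22) (s := s)
      ((by norm_num [Finset.sum_range_succ, Nat.factorial] :
        (22 * 5 / 0.405 : ℝ) ≤ ∑ i ∈ Finset.range 10, (57 / 10 : ℝ) ^ i / i.factorial).trans
        (sum_le_exp_of_nonneg (by norm_num) 10)) (by positivity)
    push_cast
    linarith

theorem nb6_even {n : ℕ} (hn : 22 ≤ n) {S L V μ : ℝ} (hS : S ≤ 5 * (n - 2) / 6)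
    (hL : L ≤ 2 * (n - 5) / 3) (hV0 : 0 < V) (hV : V ≤ VW S L 5 6 1)
    (hμ : (Wd n 6 5 - 1 / 6) / 2 ≤ μ) : Q n 6 (4 * μ ^ 2 / (9 * V)) < 3 / 2 := by
  obtain ⟨s, hs⟩ : ∃ s : ℝ, (n : ℝ) = 22 + s := ⟨n - 22, by ring⟩
  have hs0 : 0 ≤ s := by
    have : (22 : ℝ) ≤ n := by exact_mod_cast hn
    linarith
  rw [hs] at hS hL hμ
  refine (fixd (by norm_num : 4 ≤ 6) (c := 58 / 10 + 1 / 22 * s) (ℓ := 0.405) hV0
    (hV.trans (VW_le (ε₁ := 1 / 13) (ε₂ := 1 / 8) hS hL (by norm_num) (by norm_num) (by norm_num)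
      le_rfl (by linarith) (by linarith) (by norm_num) (by norm_num)))
    (M := (Wd (22 + s) 6 5 - 1 / 6) / 2) ?_ hμ (by positivity) ?_ ?_).trans_lt exp_lt_three_halves
  · unfold Wd
    norm_num
    nlinarith
  · unfold Wd
    norm_num
    nlinarith [mul_nonneg hs0 hs0]
  · rw [hs]
    have h := exp_lin (r := 22 * 6 / 0.405) (c₀ := 58 / 10) (c₁ := 1 / 22) (s := s)
      ((by norm_num [Finset.sum_range_succ, Nat.factorial] :
        (22 * 6 / 0.405 : ℝ) ≤ ∑ i ∈ Finset.range 13, (58 / 10 : ℝ) ^ i / i.factorial).trans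
        (sum_le_exp_of_nonneg (by norm_num) 13)) (by positivity)
    push_cast
    linarith

theorem nb6_odd {n : ℕ} (hn : 21 ≤ n) {S L V μ : ℝ} (hS : S ≤ 5 * (n - 2) / 6)
    (hL : L ≤ 2 * (n - 5) / 3) (hV0 : 0 < V) (hV : V ≤ VW S L 5 6 1)
    (hμ : (Wd n 6 5 - 2 / 6) / 2 ≤ μ) : Q n 6 (4 * μ ^ 2 / (9 * V)) < 2 := by
  obtain ⟨s, hs⟩ : ∃ s : ℝ, (n : ℝ) = 21 + s := ⟨n - 21, by ring⟩
  have hs0 : 0 ≤ s := by
    have : (21 : ℝ) ≤ n := by exact_mod_cast hn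
    linarith
  rw [hs] at hS hL hμ
  refine (fixd (by norm_num : 4 ≤ 6) (c := 53 / 10 + 1 / 21 * s) (ℓ := 0.693) hV0
    (hV.trans (VW_le (ε₁ := 1 / 13) (ε₂ := 1 / 8) hS hL (by norm_num) (by norm_num) (by norm_num)
      le_rfl (by linarith) (by linarith) (by norm_num) (by norm_num)))
    (M := (Wd (21 + s) 6 5 - 2 / 6) / 2) ?_ hμ (by positivity) ?_ ?_).trans_lt exp_lt_two
  · unfold Wd
    norm_num
    nlinarith
  · unfold Wd
    norm_num
    nlinarith [mul_nonneg hs0 hs0]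
  · rw [hs]
    have h := exp_lin (r := 21 * 6 / 0.693) (c₀ := 53 / 10) (c₁ := 1 / 21) (s := s)
      ((by norm_num [Finset.sum_range_succ, Nat.factorial] :
        (21 * 6 / 0.693 : ℝ) ≤ ∑ i ∈ Finset.range 9, (53 / 10 : ℝ) ^ i / i.factorial).trans
        (sum_le_exp_of_nonneg (by norm_num) 9)) (by positivity)
    push_cast
    linarith

theorem nb7_even {n : ℕ} (hn : 24 ≤ n) {S L V μ : ℝ} (hS : S ≤ 5 * (n - 2) / 6)
    (hL : L ≤ 2 * (n - 5) / 3) (hV0 : 0 < V) (hV : V ≤ VW S L 5 7 2)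
    (hμ : (Wd n 7 5 - 1 / 7) / 2 ≤ μ) : Q n 7 (4 * μ ^ 2 / (9 * V)) < 3 / 2 := by
  obtain ⟨s, hs⟩ : ∃ s : ℝ, (n : ℝ) = 24 + s := ⟨n - 24, by ring⟩
  have hs0 : 0 ≤ s := by
    have : (24 : ℝ) ≤ n := by exact_mod_cast hn
    linarith
  rw [hs] at hS hL hμ
  refine (fixd (by norm_num : 4 ≤ 7) (c := 61 / 10 + 1 / 24 * s) (ℓ := 0.405) hV0
    (hV.trans (VW_le (ε₁ := 1 / 13) (ε₂ := 1 / 10) hS hL (by norm_num) (by norm_num) (by norm_num)
      le_rfl (by linarith) (by linarith) (by norm_num) (by norm_num)))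
    (M := (Wd (24 + s) 7 5 - 1 / 7) / 2) ?_ hμ (by positivity) ?_ ?_).trans_lt exp_lt_three_halves
  · unfold Wd
    norm_num
    nlinarith
  · unfold Wd
    norm_num
    nlinarith [mul_nonneg hs0 hs0]
  · rw [hs]
    have h := exp_lin (r := 24 * 7 / 0.405) (c₀ := 61 / 10) (c₁ := 1 / 24) (s := s)
      ((by norm_num [Finset.sum_range_succ, Nat.factorial] :
        (24 * 7 / 0.405 : ℝ) ≤ ∑ i ∈ Finset.range 11, (61 / 10 : ℝ) ^ i / i.factorial).trans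
        (sum_le_exp_of_nonneg (by norm_num) 11)) (by positivity)
    push_cast
    linarith

theorem nb8 {n : ℕ} (hn : 26 ≤ n) {S L V μ : ℝ} (hS : S ≤ 5 * (n - 2) / 8)
    (hL : L ≤ 2 * (n - 5) / 5) (hV0 : 0 < V) (hV : V ≤ VW S L 5 8 3)
    (hμ : (Wd n 8 5 - 2 / 8) / 2 ≤ μ) : Q n 8 (4 * μ ^ 2 / (9 * V)) < 3 / 2 := by
  obtain ⟨s, hs⟩ : ∃ s : ℝ, (n : ℝ) = 26 + s := ⟨n - 26, by ring⟩
  have hs0 : 0 ≤ s := by
    have : (26 : ℝ) ≤ n := by exact_mod_cast hn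
    linarith
  rw [hs] at hS hL hμ
  refine (fixd (by norm_num : 4 ≤ 8) (c := 64 / 10 + 1 / 26 * s) (ℓ := 0.405) hV0
    (hV.trans (VW_le (ε₁ := 1 / 9) (ε₂ := 1 / 10) hS hL (by norm_num) (by norm_num) (by norm_num)
      le_rfl (by linarith) (by linarith) (by norm_num) (by norm_num)))
    (M := (Wd (26 + s) 8 5 - 2 / 8) / 2) ?_ hμ (by positivity) ?_ ?_).trans_lt exp_lt_three_halves
  · unfold Wd
    norm_num
    nlinarith
  · unfold Wd
    norm_num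
    nlinarith [mul_nonneg hs0 hs0]
  · rw [hs]
    have h := exp_lin (r := 26 * 8 / 0.405) (c₀ := 64 / 10) (c₁ := 1 / 26) (s := s)
      ((by norm_num [Finset.sum_range_succ, Nat.factorial] :
        (26 * 8 / 0.405 : ℝ) ≤ ∑ i ∈ Finset.range 10, (64 / 10 : ℝ) ^ i / i.factorial).trans
        (sum_le_exp_of_nonneg (by norm_num) 10)) (by positivity)
    push_cast
    linarith

theorem nb9 {n : ℕ} (hn : 28 ≤ n) {S L V μ : ℝ} (hS : S ≤ 5 * (n - 2) / 8)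
    (hL : L ≤ 2 * (n - 5) / 5) (hV0 : 0 < V) (hV : V ≤ VW S L 5 9 4)
    (hμ : (Wd n 9 5 - 2 / 9) / 2 ≤ μ) : Q n 9 (4 * μ ^ 2 / (9 * V)) < 3 / 2 := by
  obtain ⟨s, hs⟩ : ∃ s : ℝ, (n : ℝ) = 28 + s := ⟨n - 28, by ring⟩
  have hs0 : 0 ≤ s := by
    have : (28 : ℝ) ≤ n := by exact_mod_cast hn
    linarith
  rw [hs] at hS hL hμ
  refine (fixd (by norm_num : 4 ≤ 9) (c := 65 / 10 + 1 / 28 * s) (ℓ := 0.405) hV0
    (hV.trans (VW_le (ε₁ := 1 / 10) (ε₂ := 1 / 11) hS hL (by norm_num) (by norm_num) (by norm_num)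
      le_rfl (by linarith) (by linarith) (by norm_num) (by norm_num)))
    (M := (Wd (28 + s) 9 5 - 2 / 9) / 2) ?_ hμ (by positivity) ?_ ?_).trans_lt exp_lt_three_halves
  · unfold Wd
    norm_num
    nlinarith
  · unfold Wd
    norm_num
    nlinarith [mul_nonneg hs0 hs0]
  · rw [hs]
    have h := exp_lin (r := 28 * 9 / 0.405) (c₀ := 65 / 10) (c₁ := 1 / 28) (s := s)
      ((by norm_num [Finset.sum_range_succ, Nat.factorial] :
        (28 * 9 / 0.405 : ℝ) ≤ ∑ i ∈ Finset.range 12, (65 / 10 : ℝ) ^ i / i.factorial).trans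
        (sum_le_exp_of_nonneg (by norm_num) 12)) (by positivity)
    push_cast
    linarith

theorem nb10 {n d κ : ℕ} (hd : 10 ≤ d) (hκ : 2 * (d + 2) ≤ 3 * κ) (hn : 2 * (d + 1) + κ ≤ n)
    {S L V μ : ℝ} (hS : S ≤ 5 * (n - 2) / κ) (hL : L ≤ 2 * (n - 5) / (κ - 3)) (hV0 : 0 < V)
    (hV : V ≤ VW S L 5 d 5) (hμ : (Wd n d 5 - 2 / d) / 2 ≤ μ) :
    Q n d (4 * μ ^ 2 / (9 * V)) < 3 / 2 := by
  have hdR : (10 : ℝ) ≤ d := by exact_mod_cast hd
  have hκR : 2 * ((d : ℝ) + 2) ≤ 3 * κ := by exact_mod_cast hκ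
  have hnR : 2 * ((d : ℝ) + 1) + κ ≤ n := by exact_mod_cast hn
  obtain ⟨u, hu⟩ : ∃ u : ℝ, (d : ℝ) = 10 + u := ⟨d - 10, by ring⟩
  have hu0 : 0 ≤ u := by linarith
  obtain ⟨s, hs⟩ : ∃ s : ℝ, (n : ℝ) = 30 + 8 / 3 * u + s := ⟨n - 30 - 8 / 3 * u, by ring⟩
  have hs0 : 0 ≤ s := by linarith
  have hn30 : (30 : ℝ) ≤ n := by
    have := mul_nonneg (by norm_num : (0 : ℝ) ≤ 8 / 3) hu0
    linarith
  have hS' : S ≤ 15 * ((n : ℝ) - 2) / (2 * (d + 2)) := by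
    refine hS.trans ?_
    rw [div_le_div_iff₀ (by linarith) (by linarith)]
    nlinarith
  have hL' : L ≤ 6 * ((n : ℝ) - 5) / (2 * d - 5) := by
    refine hL.trans ?_
    rw [div_le_div_iff₀ (by linarith) (by linarith)]
    nlinarith
  have hd1 : (0 : ℝ) < d - 1 := by linarith
  have h5 : (5 : ℝ) ≤ 15 * ((n : ℝ) - 2) / (2 * (d + 2)) := by
    rw [le_div_iff₀ (by linarith)]
    nlinarith
  have h2 : (2 : ℝ) ≤ 6 * ((n : ℝ) - 5) / (2 * d - 5) := by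
    rw [le_div_iff₀ (by linarith)]
    nlinarith
  have hM : (1.2 * (n : ℝ) - 9.2 - 0.2 * d) / (2 * (d - 1)) ≤ μ := by
    refine le_trans ?_ hμ
    have e : (Wd n d 5 - 2 / d) / 2 =
        (1.2 * (n : ℝ) - 9.2 - 0.2 * d) / (2 * (d - 1)) + 2 / (d * (d - 1)) := by
      unfold Wd
      field_simp
      ring
    rw [e]
    have : (0 : ℝ) ≤ 2 / (d * (d - 1)) := by positivity
    linarith
  refine (fixd (by omega : 4 ≤ d) (c := 6.62 + (17 / 90 * u + 1 / 30 * s)) (ℓ := 0.405) hV0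
    (hV.trans ((VW_le (ε₁ := 2 / (3 * (d - 1))) (ε₂ := 2 / (3 * (d - 1))) hS' hL'
      (by norm_num) (by linarith) (by norm_num) le_rfl h5 h2 (by positivity)
      (by positivity)).trans (var10 hdR hn30 rfl rfl)))
    (M := (1.2 * (n : ℝ) - 9.2 - 0.2 * d) / (2 * (d - 1))) ?_ hM (by positivity) ?_
    ?_).trans_lt exp_lt_three_halves
  · refine div_nonneg ?_ (by linarith)
    nlinarith
  · have e1 : 4 * ((d : ℝ) - 1) * ((1.2 * (n : ℝ) - 9.2 - 0.2 * d) / (2 * (d - 1))) ^ 2 =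
        (1.2 * (n : ℝ) - 9.2 - 0.2 * d) ^ 2 / (d - 1) := by
      field_simp
      ring
    rw [e1, mul_div_assoc', div_mul_eq_mul_div]
    refine div_le_div_of_nonneg_right ?_ hd1.le
    rw [hs, hu]
    nlinarith [mul_nonneg hu0 hs0, mul_nonneg hu0 hu0, mul_nonneg hs0 hs0]
  · have h0 : (300 / 0.405 : ℝ) ≤ exp 6.62 :=
      (by norm_num [Finset.sum_range_succ, Nat.factorial] :
        (300 / 0.405 : ℝ) ≤ ∑ i ∈ Finset.range 15, (6.62 : ℝ) ^ i / i.factorial).trans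
        (sum_le_exp_of_nonneg (by norm_num) 15)
    have h1 := add_one_le_exp (8 / 90 * u)
    have h2 := add_one_le_exp (1 / 10 * u)
    have h3 := add_one_le_exp (1 / 30 * s)
    have e : exp (6.62 + (17 / 90 * u + 1 / 30 * s)) =
        exp 6.62 * (exp (8 / 90 * u) * (exp (1 / 10 * u) * exp (1 / 30 * s))) := by
      rw [← exp_add, ← exp_add, ← exp_add]
      congr 1
      ring
    rw [e]
    have h4 : (1 + 8 / 90 * u) * ((1 + 1 / 10 * u) * (1 + 1 / 30 * s)) ≤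
        exp (8 / 90 * u) * (exp (1 / 10 * u) * exp (1 / 30 * s)) := by
      refine mul_le_mul (by linarith) (mul_le_mul (by linarith) (by linarith) (by positivity)
        (exp_pos _).le) (by positivity) (exp_pos _).le
    have h5 : (300 / 0.405 : ℝ) * ((1 + 8 / 90 * u) * ((1 + 1 / 10 * u) * (1 + 1 / 30 * s))) ≤
        exp 6.62 * (exp (8 / 90 * u) * (exp (1 / 10 * u) * exp (1 / 30 * s))) :=
      mul_le_mul h0 h4 (by positivity) (exp_pos _).le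
    have h6 : (n : ℝ) * d ≤ 300 * ((1 + 8 / 90 * u) * ((1 + 1 / 10 * u) * (1 + 1 / 30 * s))) := by
      rw [hs, hu]
      nlinarith [mul_nonneg hu0 hs0, mul_nonneg hu0 hu0, mul_nonneg hs0 hs0,
        mul_nonneg (mul_nonneg hu0 hu0) hs0]
    linarith

/-- **numerics, `n` even** (grid loss `1/d`, two scenarios for the parity gadget: `3/2`) -/
theorem num_even {n d κ : ℕ} (h : EvenRange n d κ) {S L V μ : ℝ}
    (hS : S ≤ (jj d : ℝ) * (n - 2) / κ) (hL : L ≤ 2 * ((n : ℝ) - jj d) / (κ - jj d + 2))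
    (hV0 : 0 < V) (hV : V ≤ VW S L (jj d) d (min (jj d) (d - jj d)))
    (hμ : (Wd n d (jj d) - 1 / d) / 2 ≤ μ) : Q n d (4 * μ ^ 2 / (9 * V)) < 3 / 2 := by
  rcases h with ⟨rfl, rfl, h⟩ | ⟨rfl, rfl, h⟩ | ⟨rfl, rfl, h⟩ | ⟨rfl, rfl, h⟩ | ⟨rfl, rfl, h⟩ |
    ⟨rfl, rfl, h⟩ | ⟨h1, h2, h3⟩
  · norm_num [jj] at hS hL hV hμ
    exact nb4_even h (by linarith) (by linarith) hV0 hV (by linarith)
  · norm_num [jj] at hS hL hV hμ
    exact nb5_even h (by linarith) (by linarith) hV0 hV (by linarith)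
  · norm_num [jj] at hS hL hV hμ
    exact nb6_even h (by linarith) (by linarith) hV0 hV (by linarith)
  · norm_num [jj] at hS hL hV hμ
    exact nb7_even h (by linarith) (by linarith) hV0 hV (by linarith)
  · norm_num [jj] at hS hL hV hμ
    exact nb8 h (by linarith) (by linarith) hV0 hV (by linarith)
  · norm_num [jj] at hS hL hV hμ
    exact nb9 h (by linarith) (by linarith) hV0 hV (by linarith)
  · have h4 : jj d = 5 := by
      unfold jj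
      rw [if_neg (by omega)]
    rw [h4] at hS hL hV hμ
    have hdR : (10 : ℝ) ≤ d := by exact_mod_cast h1
    have e : min ((5 : ℕ) : ℝ) ((d : ℝ) - (5 : ℕ)) = 5 := by
      rw [min_eq_left (by push_cast; linarith)]
      norm_num
    rw [e] at hV
    push_cast at hS hL hV hμ
    refine nb10 h1 h2 h3 hS ?_ hV0 hV (Wd_mono_loss (by linarith) hμ)
    have e2 : (κ : ℝ) - 5 + 2 = κ - 3 := by ring
    rwa [e2] at hL

/-- **numerics, `n` odd** (grid loss `2/d`) -/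
theorem num_odd {n d κ : ℕ} (h : OddRange n d κ) {S L V μ : ℝ}
    (hS : S ≤ (jj d : ℝ) * (n - 2) / κ) (hL : L ≤ 2 * ((n : ℝ) - jj d) / (κ - jj d + 2))
    (hV0 : 0 < V) (hV : V ≤ VW S L (jj d) d (min (jj d) (d - jj d)))
    (hμ : (Wd n d (jj d) - 2 / d) / 2 ≤ μ) : Q n d (4 * μ ^ 2 / (9 * V)) < 2 := by
  rcases h with ⟨rfl, rfl, h⟩ | ⟨rfl, rfl, h⟩ | ⟨rfl, rfl, h⟩ | ⟨h1, h2, h3⟩
  · norm_num [jj] at hS hL hV hμ
    exact nb4_odd h (by linarith) (by linarith) hV0 hV (by linarith)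
  · norm_num [jj] at hS hL hV hμ
    exact nb6_odd h (by linarith) (by linarith) hV0 hV (by linarith)
  · norm_num [jj] at hS hL hV hμ
    exact (nb8 h (by linarith) (by linarith) hV0 hV (by linarith)).trans (by norm_num)
  · have h4 : jj d = 5 := by
      unfold jj
      rw [if_neg (by omega)]
    rw [h4] at hS hL hV hμ
    have hdR : (10 : ℝ) ≤ d := by exact_mod_cast h1
    have e : min ((5 : ℕ) : ℝ) ((d : ℝ) - (5 : ℕ)) = 5 := by
      rw [min_eq_left (by push_cast; linarith)]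
      norm_num
    rw [e] at hV
    push_cast at hS hL hV hμ
    refine (nb10 h1 h2 h3 hS ?_ hV0 hV hμ).trans (by norm_num)
    have e2 : (κ : ℝ) - 5 + 2 = κ - 3 := by ring
    rwa [e2] at hL

end Pool.Agent.UPS.Num
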