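import Pool.Agent.Lib.MP_876e19_co_ups.NumNB

/-!
# Numerics of the non-bipartite criterion: `d = 6`, `n = 20` (helper63, TT876)

`nb6_even` of `NumNB` needs `22 ≤ n`; here the last case `n = 20` is added (the crude form of
the cut sum is not enough, the exact one gives `1.46 < 3/2`).
-/

set_option autoImplicit false

namespace Pool.Agent.UPS.Num

open Real

theorem nb6_20 {S L V μ : ℝ} (hS : S ≤ 5 * (((20 : ℕ) : ℝ) - 2) / 6)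
    (hL : L ≤ 2 * (((20 : ℕ) : ℝ) - 5) / 3) (hV0 : 0 < V) (hV : V ≤ VW S L 5 6 1)
    (hμ : (Wd ((20 : ℕ) : ℝ) 6 5 - 1 / 6) / 2 ≤ μ) : Q 20 6 (4 * μ ^ 2 / (9 * V)) < 3 / 2 := by
  have hS' : S ≤ 15 := by push_cast at hS; linarith
  have hL' : L ≤ 10 := by push_cast at hL; linarith
  have hM : (1.51 : ℝ) ≤ μ := by
    refine le_trans ?_ hμ
    unfold Wd
    norm_num
  have hP := hV.trans (VW_le (ε₁ := 1 / 12) (ε₂ := 1 / 8) hS' hL' (by norm_num) (by norm_num)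
    (by norm_num) le_rfl (by norm_num) (by norm_num) (by norm_num) (by norm_num))
  have hP' : V ≤ 0.8989 := hP.trans (by norm_num)
  have ht : (1.1272 : ℝ) ≤ 4 * μ ^ 2 / (9 * V) := by
    rw [le_div_iff₀ (by positivity)]
    nlinarith
  set t := 4 * μ ^ 2 / (9 * V) with htd
  set y := exp (-t) with hy
  have hy0 : 0 < y := exp_pos _
  have hexp : (1 / 0.3242 : ℝ) ≤ exp 1.1272 :=
    (by norm_num [Finset.sum_range_succ, Nat.factorial] :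
      (1 / 0.3242 : ℝ) ≤ ∑ i ∈ Finset.range 9, (1.1272 : ℝ) ^ i / i.factorial).trans
      (sum_le_exp_of_nonneg (by norm_num) 9)
  have hyle : y ≤ 0.3242 := by
    rw [hy, exp_neg]
    have h1 : exp 1.1272 ≤ exp t := exp_le_exp.2 ht
    have h2 : (1 / 0.3242 : ℝ) ≤ exp t := hexp.trans h1
    rw [inv_le_comm₀ (exp_pos _) (by norm_num)]
    calc (0.3242 : ℝ)⁻¹ = 1 / 0.3242 := by norm_num
      _ ≤ exp t := h2
  have e5 : exp (-(t * (((6 : ℕ) : ℝ) - 1))) = y ^ 5 := by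
    rw [hy, ← exp_nat_mul]
    congr 1
    push_cast
    ring
  have e6 : exp (-(t * ((6 : ℕ) : ℝ))) = y ^ 6 := by
    rw [hy, ← exp_nat_mul]
    congr 1
    push_cast
    ring
  unfold Q
  rw [e5, e6]
  have hmono : 12 * y ^ 5 - 4 * y ^ 6 ≤ 0.03834 := by
    have h1 : y ^ 5 * (12 - 4 * y) ≤ 0.3242 ^ 5 * (12 - 4 * 0.3242) := by
      have hz : (0 : ℝ) ≤ 0.3242 - y := by linarith
      set z := (0.3242 : ℝ) - y with hzd
      have hyz : y = 0.3242 - z := by rw [hzd]; ring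
      have hz1 : z ≤ 0.3242 := by linarith
      have ha : y ^ 4 ≤ 0.3242 ^ 4 := pow_le_pow_left₀ hy0.le hyle 4
      -- y ^ 5 (12 - 4 y) = y ^ 4 (12 y - 4 y²)
      have hb : 12 * y - 4 * y ^ 2 ≤ 12 * 0.3242 - 4 * 0.3242 ^ 2 := by nlinarith
      have hc : 0 ≤ 12 * y - 4 * y ^ 2 := by nlinarith
      calc y ^ 5 * (12 - 4 * y) = y ^ 4 * (12 * y - 4 * y ^ 2) := by ring
        _ ≤ 0.3242 ^ 4 * (12 * 0.3242 - 4 * 0.3242 ^ 2) :=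
            mul_le_mul ha hb hc (by positivity)
        _ = 0.3242 ^ 5 * (12 - 4 * 0.3242) := by ring
    calc 12 * y ^ 5 - 4 * y ^ 6 = y ^ 5 * (12 - 4 * y) := by ring
      _ ≤ 0.3242 ^ 5 * (12 - 4 * 0.3242) := h1
      _ ≤ 0.03834 := by norm_num
  have hge : 0 ≤ 1 + 2 * ((6 : ℕ) : ℝ) * y ^ 5 + (8 - 2 * ((6 : ℕ) : ℝ)) * y ^ 6 := by
    push_cast
    have h1 : y ^ 6 ≤ 1 := pow_le_one₀ hy0.le (by linarith)
    have h2 : y ^ 6 ≤ y ^ 5 := pow_le_pow_of_le_one hy0.le (by linarith) (by norm_num)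
    have h3 : 0 ≤ y ^ 5 := by positivity
    linarith
  have hle : 1 + 2 * ((6 : ℕ) : ℝ) * y ^ 5 + (8 - 2 * ((6 : ℕ) : ℝ)) * y ^ 6 ≤ 1.03834 := by
    push_cast
    linarith
  calc sqrt (1 + 2 * ((6 : ℕ) : ℝ) * y ^ 5 + (8 - 2 * ((6 : ℕ) : ℝ)) * y ^ 6) ^ 20
      = (sqrt (1 + 2 * ((6 : ℕ) : ℝ) * y ^ 5 + (8 - 2 * ((6 : ℕ) : ℝ)) * y ^ 6) ^ 2) ^ 10 := by
        rw [← pow_mul]
    _ = (1 + 2 * ((6 : ℕ) : ℝ) * y ^ 5 + (8 - 2 * ((6 : ℕ) : ℝ)) * y ^ 6) ^ 10 := by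
        rw [sq_sqrt hge]
    _ ≤ (1.03834 : ℝ) ^ 10 := pow_le_pow_left₀ hge hle 10
    _ < 3 / 2 := by norm_num

/-- `d = 6`, even `n ≥ 20` -/
theorem nb6_even' {n : ℕ} (hn : 20 ≤ n) (he : Even n) {S L V μ : ℝ}
    (hS : S ≤ 5 * ((n : ℝ) - 2) / 6) (hL : L ≤ 2 * ((n : ℝ) - 5) / 3) (hV0 : 0 < V)
    (hV : V ≤ VW S L 5 6 1) (hμ : (Wd n 6 5 - 1 / 6) / 2 ≤ μ) :
    Q n 6 (4 * μ ^ 2 / (9 * V)) < 3 / 2 := by
  rcases Nat.lt_or_ge n 22 with h | h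
  · have h20 : n = 20 := by
      obtain ⟨k, hk⟩ := he
      omega
    subst h20
    exact nb6_20 hS hL hV0 hV hμ
  · exact nb6_even h hS hL hV0 hV hμ

/-- `num_even` for `(d, n) = (6, 20)` -/
theorem num_even20 {n d κ : ℕ} (h : d = 6 ∧ κ = 6 ∧ n = 20) {S L V μ : ℝ}
    (hS : S ≤ (jj d : ℝ) * (n - 2) / κ) (hL : L ≤ 2 * ((n : ℝ) - jj d) / (κ - jj d + 2))
    (hV0 : 0 < V) (hV : V ≤ VW S L (jj d) d (min (jj d) (d - jj d)))
    (hμ : (Wd n d (jj d) - 1 / d) / 2 ≤ μ) : Q n d (4 * μ ^ 2 / (9 * V)) < 3 / 2 := by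
  obtain ⟨rfl, rfl, rfl⟩ := h
  norm_num [jj] at hS hL hV hμ
  exact nb6_20 (by linarith) (by linarith) hV0 hV (by linarith)

/-- **numerics, `n` even**, with the pair `(6, 20)` -/
theorem num_even' {n d κ : ℕ} (h : EvenRange n d κ ∨ (d = 6 ∧ κ = 6 ∧ n = 20)) {S L V μ : ℝ}
    (hS : S ≤ (jj d : ℝ) * (n - 2) / κ) (hL : L ≤ 2 * ((n : ℝ) - jj d) / (κ - jj d + 2))
    (hV0 : 0 < V) (hV : V ≤ VW S L (jj d) d (min (jj d) (d - jj d)))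
    (hμ : (Wd n d (jj d) - 1 / d) / 2 ≤ μ) : Q n d (4 * μ ^ 2 / (9 * V)) < 3 / 2 :=
  h.elim (fun h => num_even h hS hL hV0 hV hμ) (fun h => num_even20 h hS hL hV0 hV hμ)

end Pool.Agent.UPS.Num
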