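import Pool.Agent.Lib.MP_876e19_co_ups.NumSoftD

/-!
# Numerics: the paired tests `y`, `-y` (helper4, TT876)
-/

set_option autoImplicit false

namespace Pool.Agent.UPS.Num

open Real IB

lemma exp_pair : (exp (33 / 100) + exp (7 / 8)) / 2 < (19 / 10 : ℝ) := by
  have h := exp_bound' (x := 33 / 100) (by norm_num) (by norm_num) (n := 8) (by norm_num)
  have h' := exp_bound' (x := 7 / 8) (by norm_num) (by norm_num) (n := 9) (by norm_num)
  have e1 : exp (33 / 100 : ℝ) < 1392 / 1000 := by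
    refine h.trans_lt ?_
    norm_num [Finset.sum_range_succ, Nat.factorial]
  have e2 : exp (7 / 8 : ℝ) < 24 / 10 := by
    refine h'.trans_lt ?_
    norm_num [Finset.sum_range_succ, Nat.factorial]
  linarith

lemma numB4p {n : ℕ} (hn : 24 ≤ n) {S L V ν : ℝ} (hS : S ≤ 4 * (n - 2) / 4)
    (hL : L ≤ 2 * (n - 4) / 2) (hV0 : 0 < V) (hV : V ≤ VW S L 4 4 0)
    (hν : (Wd n 4 4 - 1 / 2) / 2 ≤ ν) :
    Q n 4 (4 * (ν ^ 2 + ν / 4) / (9 * V)) ≤ exp (33 / 100) := by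
  obtain ⟨s, hs⟩ : ∃ s : ℝ, (n : ℝ) = 24 + s := ⟨n - 24, by ring⟩
  have hs0 : 0 ≤ s := by
    have : (24 : ℝ) ≤ n := by exact_mod_cast hn
    linarith
  rw [hs] at hS hL hν
  have hW : (Wd (24 + s) 4 4 - 1 / 2) / 2 = 8 / 3 + 1 / 6 * s := by
    unfold Wd
    ring
  rw [hW] at hν
  refine fixd2 (by norm_num : 4 ≤ 4) (c := 29 / 5 + 1 / 24 * s) (ℓ := 33 / 100) hV0
    (hV.trans (VW_le (ε₁ := 1 / 1000) (ε₂ := 1 / 7) hS hL (by norm_num) (by norm_num)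
      (by norm_num) le_rfl (by linarith) (by linarith) (by norm_num) (by norm_num)))
    (M := (8 / 3 + 1 / 6 * s) ^ 2 + (8 / 3 + 1 / 6 * s) / 4) ?_
    (by positivity) ?_ ?_
  · nlinarith
  · norm_num
    nlinarith [mul_nonneg hs0 hs0]
  · rw [hs]
    have h := exp_lin (r := 24 * 4 / (33 / 100)) (c₀ := 29 / 5) (c₁ := 1 / 24) (s := s)
      ((by norm_num [Finset.sum_range_succ, Nat.factorial] :
        (24 * 4 / (33 / 100) : ℝ) ≤
          ∑ i ∈ Finset.range 11, (29 / 5 : ℝ) ^ i / i.factorial).trans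
        (sum_le_exp_of_nonneg (by norm_num) 11)) (by positivity)
    push_cast
    linarith

lemma numB4m {n : ℕ} (hn : 24 ≤ n) {S L V ν : ℝ} (hS : S ≤ 4 * (n - 2) / 4)
    (hL : L ≤ 2 * (n - 4) / 2) (hV0 : 0 < V) (hV : V ≤ VW S L 4 4 0)
    (hν : (Wd n 4 4 - 1 / 2) / 2 ≤ ν) :
    Q n 4 (4 * (ν ^ 2 - ν / 4) / (9 * V)) ≤ exp (7 / 8) := by
  obtain ⟨s, hs⟩ : ∃ s : ℝ, (n : ℝ) = 24 + s := ⟨n - 24, by ring⟩
  have hs0 : 0 ≤ s := by
    have : (24 : ℝ) ≤ n := by exact_mod_cast hn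
    linarith
  rw [hs] at hS hL hν
  have hW : (Wd (24 + s) 4 4 - 1 / 2) / 2 = 8 / 3 + 1 / 6 * s := by
    unfold Wd
    ring
  rw [hW] at hν
  refine fixd2 (by norm_num : 4 ≤ 4) (c := 24 / 5 + 1 / 24 * s) (ℓ := 7 / 8) hV0
    (hV.trans (VW_le (ε₁ := 1 / 1000) (ε₂ := 1 / 7) hS hL (by norm_num) (by norm_num)
      (by norm_num) le_rfl (by linarith) (by linarith) (by norm_num) (by norm_num)))
    (M := (8 / 3 + 1 / 6 * s) ^ 2 - (8 / 3 + 1 / 6 * s) / 4) ?_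
    (by positivity) ?_ ?_
  · nlinarith
  · norm_num
    nlinarith [mul_nonneg hs0 hs0]
  · rw [hs]
    have h := exp_lin (r := 24 * 4 / (7 / 8)) (c₀ := 24 / 5) (c₁ := 1 / 24) (s := s)
      ((by norm_num [Finset.sum_range_succ, Nat.factorial] :
        (24 * 4 / (7 / 8) : ℝ) ≤
          ∑ i ∈ Finset.range 10, (24 / 5 : ℝ) ^ i / i.factorial).trans
        (sum_le_exp_of_nonneg (by norm_num) 10)) (by positivity)
    push_cast
    linarith

theorem numB4 {n : ℕ} (hn : 24 ≤ n) {S L V ν : ℝ} (hS : S ≤ 4 * (n - 2) / 4)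
    (hL : L ≤ 2 * (n - 4) / 2) (hV0 : 0 < V) (hV : V ≤ VW S L 4 4 0)
    (hν : (Wd n 4 4 - 1 / 2) / 2 ≤ ν) :
    (Q n 4 (4 * (ν ^ 2 + ν / 4) / (9 * V)) + Q n 4 (4 * (ν ^ 2 - ν / 4) / (9 * V))) / 2 <
      19 / 10 := by
  have h1 := numB4p hn hS hL hV0 hV hν
  have h2 := numB4m hn hS hL hV0 hV hν
  have h3 := exp_pair
  linarith

lemma numB5p {n : ℕ} (hn : 22 ≤ n) {S L V ν : ℝ} (hS : S ≤ 5 * (n - 2) / 5)
    (hL : L ≤ 2 * (n - 5) / 2) (hV0 : 0 < V) (hV : V ≤ VW S L 5 5 0)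
    (hν : (Wd n 5 5 - 1 / 2) / 2 ≤ ν) :
    Q n 5 (4 * (ν ^ 2 + ν / 5) / (9 * V)) ≤ exp (33 / 100) := by
  obtain ⟨s, hs⟩ : ∃ s : ℝ, (n : ℝ) = 22 + s := ⟨n - 22, by ring⟩
  have hs0 : 0 ≤ s := by
    have : (22 : ℝ) ≤ n := by exact_mod_cast hn
    linarith
  rw [hs] at hS hL hν
  have hW : (Wd (22 + s) 5 5 - 1 / 2) / 2 = 83 / 40 + 3 / 20 * s := by
    unfold Wd
    ring
  rw [hW] at hν
  refine fixd2 (by norm_num : 4 ≤ 5) (c := 117 / 20 + 1 / 22 * s) (ℓ := 33 / 100) hV0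
    (hV.trans (VW_le (ε₁ := 1 / 1000) (ε₂ := 1 / 8) hS hL (by norm_num) (by norm_num)
      (by norm_num) le_rfl (by linarith) (by linarith) (by norm_num) (by norm_num)))
    (M := (83 / 40 + 3 / 20 * s) ^ 2 + (83 / 40 + 3 / 20 * s) / 5) ?_
    (by positivity) ?_ ?_
  · nlinarith
  · norm_num
    nlinarith [mul_nonneg hs0 hs0]
  · rw [hs]
    have h := exp_lin (r := 22 * 5 / (33 / 100)) (c₀ := 117 / 20) (c₁ := 1 / 22) (s := s)
      ((by norm_num [Finset.sum_range_succ, Nat.factorial] :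
        (22 * 5 / (33 / 100) : ℝ) ≤
          ∑ i ∈ Finset.range 12, (117 / 20 : ℝ) ^ i / i.factorial).trans
        (sum_le_exp_of_nonneg (by norm_num) 12)) (by positivity)
    push_cast
    linarith

lemma numB5m {n : ℕ} (hn : 22 ≤ n) {S L V ν : ℝ} (hS : S ≤ 5 * (n - 2) / 5)
    (hL : L ≤ 2 * (n - 5) / 2) (hV0 : 0 < V) (hV : V ≤ VW S L 5 5 0)
    (hν : (Wd n 5 5 - 1 / 2) / 2 ≤ ν) :
    Q n 5 (4 * (ν ^ 2 - ν / 5) / (9 * V)) ≤ exp (7 / 8) := by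
  obtain ⟨s, hs⟩ : ∃ s : ℝ, (n : ℝ) = 22 + s := ⟨n - 22, by ring⟩
  have hs0 : 0 ≤ s := by
    have : (22 : ℝ) ≤ n := by exact_mod_cast hn
    linarith
  rw [hs] at hS hL hν
  have hW : (Wd (22 + s) 5 5 - 1 / 2) / 2 = 83 / 40 + 3 / 20 * s := by
    unfold Wd
    ring
  rw [hW] at hν
  refine fixd2 (by norm_num : 4 ≤ 5) (c := 121 / 25 + 1 / 22 * s) (ℓ := 7 / 8) hV0
    (hV.trans (VW_le (ε₁ := 1 / 1000) (ε₂ := 1 / 8) hS hL (by norm_num) (by norm_num)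
      (by norm_num) le_rfl (by linarith) (by linarith) (by norm_num) (by norm_num)))
    (M := (83 / 40 + 3 / 20 * s) ^ 2 - (83 / 40 + 3 / 20 * s) / 5) ?_
    (by positivity) ?_ ?_
  · nlinarith
  · norm_num
    nlinarith [mul_nonneg hs0 hs0]
  · rw [hs]
    have h := exp_lin (r := 22 * 5 / (7 / 8)) (c₀ := 121 / 25) (c₁ := 1 / 22) (s := s)
      ((by norm_num [Finset.sum_range_succ, Nat.factorial] :
        (22 * 5 / (7 / 8) : ℝ) ≤
          ∑ i ∈ Finset.range 13, (121 / 25 : ℝ) ^ i / i.factorial).trans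
        (sum_le_exp_of_nonneg (by norm_num) 13)) (by positivity)
    push_cast
    linarith

theorem numB5 {n : ℕ} (hn : 22 ≤ n) {S L V ν : ℝ} (hS : S ≤ 5 * (n - 2) / 5)
    (hL : L ≤ 2 * (n - 5) / 2) (hV0 : 0 < V) (hV : V ≤ VW S L 5 5 0)
    (hν : (Wd n 5 5 - 1 / 2) / 2 ≤ ν) :
    (Q n 5 (4 * (ν ^ 2 + ν / 5) / (9 * V)) + Q n 5 (4 * (ν ^ 2 - ν / 5) / (9 * V))) / 2 <
      19 / 10 := by
  have h1 := numB5p hn hS hL hV0 hV hν
  have h2 := numB5m hn hS hL hV0 hV hν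
  have h3 := exp_pair
  linarith

theorem s6_20 {n : ℕ} (hn : 20 ≤ n) {S L co ci : ℝ} (hS : S ≤ 5 * (n - 2) / 6)
    (hL : L ≤ 2 * (n - 5) / 3) (hco : 2 * ((n : ℝ) - 9) ≤ co) (hci : 2 * ((n : ℝ) - 6) ≤ ci) :
    soft n 6 5 S L co ci ≤ 9 / 20 := by
  obtain ⟨s, hs⟩ : ∃ s : ℝ, (n : ℝ) = 20 + s := ⟨n - 20, by ring⟩
  have hs0 : 0 ≤ s := by
    have : (20 : ℝ) ≤ n := by exact_mod_cast hn
    linarith
  rw [hs] at hS hL hco hci
  have hVE := VE_le (k := 5) (d := 6) (m := 1) (r₁ := 6 / 25) (r₂ := 81 / 100) (q := 1 / 5)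
    hS hL (by norm_num) (by norm_num) (by norm_num) (by norm_num) (by push_cast; linarith)
    (by linarith) (by norm_num) (by norm_num) (by norm_num) (by norm_num)
  have hV0 := VE_nonneg' S L 5 (d := 6) (by norm_num)
  unfold soft
  rw [hs]
  push_cast
  rw [mul_add]
  refine (add_le_add (term_le (c := 493 / 100 + 1 / 20 * s) (τ := 11 / 25) ?_ hV0 hVE
    (by positivity) ?_ (by norm_num)) (term_le (c := 19 / 2 + 1 / 20 * s) (τ := 1 / 100)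
    ?_ hV0 hVE (by positivity) ?_ (by norm_num))).trans (by norm_num)
  · have h := exp_lin (r := 20 * 6 / 2 / (11 / 25)) (c₀ := 493 / 100) (c₁ := 1 / 20) (s := s)
      ((by norm_num [Finset.sum_range_succ, Nat.factorial] :
        (20 * 6 / 2 / (11 / 25) : ℝ) ≤
          ∑ i ∈ Finset.range 12, (493 / 100 : ℝ) ^ i / i.factorial).trans
        (sum_le_exp_of_nonneg (by norm_num) 12)) (by positivity)
    linarith
  · refine le_trans ?_ (pow_le_pow_left₀ (a := 2 * (20 + s - 9) -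
      4 * (20 + s - 1 - 6) / 5) (by linarith) (by linarith) 2)
    norm_num
    nlinarith [mul_nonneg hs0 hs0]
  · have h := exp_lin (r := 20 * 6 / 2 / (1 / 100)) (c₀ := 19 / 2) (c₁ := 1 / 20) (s := s)
      ((by norm_num [Finset.sum_range_succ, Nat.factorial] :
        (20 * 6 / 2 / (1 / 100) : ℝ) ≤
          ∑ i ∈ Finset.range 11, (19 / 2 : ℝ) ^ i / i.factorial).trans
        (sum_le_exp_of_nonneg (by norm_num) 11)) (by positivity)
    linarith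
  · refine le_trans ?_ (pow_le_pow_left₀ (a := 2 * (20 + s - 6) -
      4 * (20 + s - 1 - 6) / 5) (by linarith) (by linarith) 2)
    norm_num
    nlinarith [mul_nonneg hs0 hs0]

end Pool.Agent.UPS.Num
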