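import Pool.Agent.Lib.MP_876e19_co_ups.NumFinal

/-!
# Side conditions of the numerics (helper4, TT876)
-/

set_option autoImplicit false

namespace Pool.Agent.UPS.Num

open Real IB

lemma side_aux {n d : ℕ} (hd : 8 ≤ d) (hn : 8 * d + 10 ≤ 3 * n) :
    4 * ((n : ℝ) - 1 - d) / 5 < 2 * ((n : ℝ) - (d + 3)) ∧
      4 * ((n : ℝ) - 1 - d) / 5 < 2 * ((n : ℝ) - 6) ∧
      1 / (d : ℝ) ≤ (Wd n d 5 - 1 / 2) / 2 := by
  have hdR : (8 : ℝ) ≤ d := by exact_mod_cast hd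
  have hnR : 8 * (d : ℝ) + 10 ≤ 3 * n := by exact_mod_cast hn
  refine ⟨by rw [div_lt_iff₀ (by norm_num)]; linarith,
    by rw [div_lt_iff₀ (by norm_num)]; linarith, ?_⟩
  have hd1 : (0 : ℝ) < d - 1 := by linarith
  have hd0 : (0 : ℝ) < d := by linarith
  have e : (Wd n d 5 - 1 / 2) / 2 - 1 / (d : ℝ) =
      ((1.2 * (n : ℝ) - 6.7 - 0.7 * d) * d + 2 - 2 * (d - 1)) / (2 * d * (d - 1)) := by
    unfold Wd
    field_simp
    ring
  have h : 0 ≤ (Wd n d 5 - 1 / 2) / 2 - 1 / (d : ℝ) := by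
    rw [e]
    refine div_nonneg ?_ (by positivity)
    nlinarith
  linarith

/-- side conditions, `n` even -/
theorem side_even {n d κ : ℕ} (h : RangeE n d κ) :
    4 * ((n : ℝ) - 1 - d) / ((jj d : ℕ) : ℝ) < 2 * ((n : ℝ) - (d + 3)) ∧
      4 * ((n : ℝ) - 1 - d) / ((jj d : ℕ) : ℝ) < 2 * ((n : ℝ) - 6) ∧
      1 / (d : ℝ) ≤ (Wd n d (jj d) - 1 / 2) / 2 := by
  rcases Nat.lt_or_ge d 8 with hd | hd
  · rcases h with ⟨rfl, rfl, h⟩ | ⟨rfl, rfl, h⟩ | ⟨rfl, rfl, h⟩ | ⟨rfl, rfl, h⟩ | h | h | h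
    · have hn : (24 : ℝ) ≤ n := by exact_mod_cast h
      refine ⟨?_, ?_, ?_⟩ <;> norm_num [jj, Wd] <;> linarith
    · have hn : (22 : ℝ) ≤ n := by exact_mod_cast h
      refine ⟨?_, ?_, ?_⟩ <;> norm_num [jj, Wd] <;> linarith
    · have hn : (20 : ℝ) ≤ n := by exact_mod_cast h
      refine ⟨?_, ?_, ?_⟩ <;> norm_num [jj, Wd] <;> linarith
    · have hn : (24 : ℝ) ≤ n := by exact_mod_cast h
      refine ⟨?_, ?_, ?_⟩ <;> norm_num [jj, Wd] <;> linarith
    · omega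
    · omega
    · omega
  · have hj : jj d = 5 := by
      unfold jj
      rw [if_neg (by omega)]
    rw [hj]
    have := side_aux (n := n) hd (by rcases h with h | h | h | h | h | h | h <;> omega)
    push_cast
    exact this

/-- side conditions, `n` odd -/
theorem side_odd {n d κ : ℕ} (h : RangeO n d κ) :
    4 * ((n : ℝ) - 1 - d) / ((jj d : ℕ) : ℝ) < 2 * ((n : ℝ) - (d + 2)) ∧
      4 * ((n : ℝ) - 1 - d) / ((jj d : ℕ) : ℝ) < 2 * ((n : ℝ) - 5) ∧
      0 < (Wd n d (jj d) - 2 / d) / 2 := by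
  rcases Nat.lt_or_ge d 8 with hd | hd
  · rcases h with ⟨rfl, rfl, h⟩ | ⟨rfl, rfl, h⟩ | h | h
    · have hn : (23 : ℝ) ≤ n := by exact_mod_cast h
      refine ⟨?_, ?_, ?_⟩ <;> norm_num [jj, Wd] <;> linarith
    · have hn : (21 : ℝ) ≤ n := by exact_mod_cast h
      refine ⟨?_, ?_, ?_⟩ <;> norm_num [jj, Wd] <;> linarith
    · omega
    · omega
  · have hj : jj d = 5 := by
      unfold jj
      rw [if_neg (by omega)]
    rw [hj]
    obtain ⟨h1, h2, h3⟩ := side_aux (n := n) hd (by rcases h with h | h | h | h <;> omega)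
    push_cast
    have hdR : (8 : ℝ) ≤ d := by exact_mod_cast hd
    have h4 : (1 : ℝ) / d ≤ 1 / 8 := by
      rw [div_le_div_iff₀ (by linarith) (by norm_num)]
      linarith
    have h5 : (2 : ℝ) / d = 2 * (1 / d) := by ring
    have h6 : (0 : ℝ) < 1 / d := by
      have : (0 : ℝ) < d := by linarith
      positivity
    refine ⟨by linarith, by linarith, ?_⟩
    rw [h5]
    linarith


end Pool.Agent.UPS.Num
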