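import Pool.Agent.Lib.MP_876e19_co_ups.NumT
import Pool.Agent.Lib.MP_876e19_co_ups.NumSoftA
import Pool.Agent.Lib.MP_876e19_co_ups.NumSoftB
import Pool.Agent.Lib.MP_876e19_co_ups.NumSoftC

/-!
# Numerics: the single-edge kill terms (helper4, TT876)

The soft terms of `cut_tests_kills` are at most `1/10` in the whole range.
-/

set_option autoImplicit false

namespace Pool.Agent.UPS.Num

open Real IB

theorem s7g0 {n : ℕ} (hn : 22 ≤ n) {S L co ci : ℝ} (hS : S ≤ 5 * (n - 2) / 6)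
    (hL : L ≤ 2 * (n - 5) / 3) (hco : 2 * ((n : ℝ) - 9) ≤ co) (hci : 2 * ((n : ℝ) - 5) ≤ ci) :
    soft n 7 5 S L co ci ≤ 1 / 10 := by
  obtain ⟨s, hs⟩ : ∃ s : ℝ, (n : ℝ) = 22 + s := ⟨n - 22, by ring⟩
  have hs0 : 0 ≤ s := by
    have : (22 : ℝ) ≤ n := by exact_mod_cast hn
    linarith
  rw [hs] at hS hL hco hci
  have hVE := VE_le (k := 5) (d := 7) (m := 2) (r₁ := 27 / 100) (r₂ := 87 / 100) (q := 283 / 1000)
    hS hL (by norm_num) (by norm_num) (by norm_num) (by norm_num) (by push_cast; linarith)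
    (by linarith) (by norm_num) (by norm_num) (by norm_num) (by norm_num)
  have hV0 := VE_nonneg' S L 5 (d := 7) (by norm_num)
  unfold soft
  rw [hs]
  push_cast
  rw [mul_add]
  refine (add_le_add (term_le (c := 333 / 50 + 1 / 22 * s) (τ := 99 / 1000) ?_ hV0 hVE
    (by positivity) ?_ (by norm_num)) (term_le (c := 121 / 10 + 1 / 22 * s) (τ := 1 / 1000)
    ?_ hV0 hVE (by positivity) ?_ (by norm_num))).trans (by norm_num)
  · have h := exp_lin (r := 22 * 7 / 2 / (99 / 1000)) (c₀ := 333 / 50) (c₁ := 1 / 22) (s := s)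
      ((by norm_num [Finset.sum_range_succ, Nat.factorial] :
        (22 * 7 / 2 / (99 / 1000) : ℝ) ≤
          ∑ i ∈ Finset.range 17, (333 / 50 : ℝ) ^ i / i.factorial).trans
        (sum_le_exp_of_nonneg (by norm_num) 17)) (by positivity)
    linarith
  · refine le_trans ?_ (pow_le_pow_left₀ (a := 2 * (22 + s - 9) -
      4 * (22 + s - 1 - 7) / 5) (by linarith) (by linarith) 2)
    norm_num
    nlinarith [mul_nonneg hs0 hs0]
  · have h := exp_lin (r := 22 * 7 / 2 / (1 / 1000)) (c₀ := 121 / 10) (c₁ := 1 / 22) (s := s)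
      ((by norm_num [Finset.sum_range_succ, Nat.factorial] :
        (22 * 7 / 2 / (1 / 1000) : ℝ) ≤
          ∑ i ∈ Finset.range 13, (121 / 10 : ℝ) ^ i / i.factorial).trans
        (sum_le_exp_of_nonneg (by norm_num) 13)) (by positivity)
    linarith
  · refine le_trans ?_ (pow_le_pow_left₀ (a := 2 * (22 + s - 5) -
      4 * (22 + s - 1 - 7) / 5) (by linarith) (by linarith) 2)
    norm_num
    nlinarith [mul_nonneg hs0 hs0]

end Pool.Agent.UPS.Num
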