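import Pool.Agent.Lib.MP_876e19_co_ups.NumTL
import Pool.Agent.Lib.MP_876e19_co_ups.NumNB

/-!
# Numerics of the non-bipartite criterion, one scenario (helper4, TT876)

`Q < 19 / 10` with the losses `1/d`, `1/d + 1/4`, `1/d + 1/2` (`n` even) and `2/d` (`n` odd).
-/

set_option autoImplicit false

namespace Pool.Agent.UPS.Num

open Real

theorem t4a {n : ℕ} (hn : 22 ≤ n) {S L V μ : ℝ} (hS : S ≤ 4 * (n - 2) / 4)
    (hL : L ≤ 2 * (n - 4) / 2) (hV0 : 0 < V) (hV : V ≤ VW S L 4 4 0)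
    (hμ : (Wd n 4 4 - 1 / 4) / 2 ≤ μ) : Q n 4 (4 * μ ^ 2 / (9 * V)) < 19 / 10 := by
  obtain ⟨s, hs⟩ : ∃ s : ℝ, (n : ℝ) = 22 + s := ⟨n - 22, by ring⟩
  have hs0 : 0 ≤ s := by
    have : (22 : ℝ) ≤ n := by exact_mod_cast hn
    linarith
  rw [hs] at hS hL hμ
  refine (fixd (by norm_num : 4 ≤ 4) (c := 99 / 20 + 1 / 22 * s) (ℓ := 0.64) hV0
    (hV.trans (VW_le (ε₁ := 1 / 1000) (ε₂ := 1 / 6) hS hL (by norm_num) (by norm_num)
      (by norm_num) le_rfl (by linarith) (by linarith) (by norm_num) (by norm_num)))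
    (M := (Wd (22 + s) 4 4 - 1 / 4) / 2) ?_ hμ (by positivity) ?_ ?_).trans_lt exp_lt_19
  · unfold Wd
    norm_num
    nlinarith
  · unfold Wd
    norm_num
    nlinarith [mul_nonneg hs0 hs0]
  · rw [hs]
    have h := exp_lin (r := 22 * 4 / 0.64) (c₀ := 99 / 20) (c₁ := 1 / 22) (s := s)
      ((by norm_num [Finset.sum_range_succ, Nat.factorial] :
        (22 * 4 / 0.64 : ℝ) ≤ ∑ i ∈ Finset.range 12, (99 / 20 : ℝ) ^ i / i.factorial).trans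
        (sum_le_exp_of_nonneg (by norm_num) 12)) (by positivity)
    push_cast
    linarith

theorem t4b {n : ℕ} (hn : 24 ≤ n) {S L V μ : ℝ} (hS : S ≤ 4 * (n - 2) / 4)
    (hL : L ≤ 2 * (n - 4) / 2) (hV0 : 0 < V) (hV : V ≤ VW S L 4 4 0)
    (hμ : (Wd n 4 4 - 1 / 2) / 2 ≤ μ) : Q n 4 (4 * μ ^ 2 / (9 * V)) < 19 / 10 := by
  obtain ⟨s, hs⟩ : ∃ s : ℝ, (n : ℝ) = 24 + s := ⟨n - 24, by ring⟩
  have hs0 : 0 ≤ s := by
    have : (24 : ℝ) ≤ n := by exact_mod_cast hn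
    linarith
  rw [hs] at hS hL hμ
  refine (fixd (by norm_num : 4 ≤ 4) (c := 26 / 5 + 1 / 24 * s) (ℓ := 0.64) hV0
    (hV.trans (VW_le (ε₁ := 1 / 1000) (ε₂ := 1 / 7) hS hL (by norm_num) (by norm_num)
      (by norm_num) le_rfl (by linarith) (by linarith) (by norm_num) (by norm_num)))
    (M := (Wd (24 + s) 4 4 - 1 / 2) / 2) ?_ hμ (by positivity) ?_ ?_).trans_lt exp_lt_19
  · unfold Wd
    norm_num
    nlinarith
  · unfold Wd
    norm_num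
    nlinarith [mul_nonneg hs0 hs0]
  · rw [hs]
    have h := exp_lin (r := 24 * 4 / 0.64) (c₀ := 26 / 5) (c₁ := 1 / 24) (s := s)
      ((by norm_num [Finset.sum_range_succ, Nat.factorial] :
        (24 * 4 / 0.64 : ℝ) ≤ ∑ i ∈ Finset.range 9, (26 / 5 : ℝ) ^ i / i.factorial).trans
        (sum_le_exp_of_nonneg (by norm_num) 9)) (by positivity)
    push_cast
    linarith

theorem t4c {n : ℕ} (hn : 26 ≤ n) {S L V μ : ℝ} (hS : S ≤ 4 * (n - 2) / 4)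
    (hL : L ≤ 2 * (n - 4) / 2) (hV0 : 0 < V) (hV : V ≤ VW S L 4 4 0)
    (hμ : (Wd n 4 4 - 3 / 4) / 2 ≤ μ) : Q n 4 (4 * μ ^ 2 / (9 * V)) < 19 / 10 := by
  obtain ⟨s, hs⟩ : ∃ s : ℝ, (n : ℝ) = 26 + s := ⟨n - 26, by ring⟩
  have hs0 : 0 ≤ s := by
    have : (26 : ℝ) ≤ n := by exact_mod_cast hn
    linarith
  rw [hs] at hS hL hμ
  refine (fixd (by norm_num : 4 ≤ 4) (c := 53 / 10 + 1 / 26 * s) (ℓ := 0.64) hV0
    (hV.trans (VW_le (ε₁ := 1 / 1000) (ε₂ := 1 / 7) hS hL (by norm_num) (by norm_num)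
      (by norm_num) le_rfl (by linarith) (by linarith) (by norm_num) (by norm_num)))
    (M := (Wd (26 + s) 4 4 - 3 / 4) / 2) ?_ hμ (by positivity) ?_ ?_).trans_lt exp_lt_19
  · unfold Wd
    norm_num
    nlinarith
  · unfold Wd
    norm_num
    nlinarith [mul_nonneg hs0 hs0]
  · rw [hs]
    have h := exp_lin (r := 26 * 4 / 0.64) (c₀ := 53 / 10) (c₁ := 1 / 26) (s := s)
      ((by norm_num [Finset.sum_range_succ, Nat.factorial] :
        (26 * 4 / 0.64 : ℝ) ≤ ∑ i ∈ Finset.range 9, (53 / 10 : ℝ) ^ i / i.factorial).trans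
        (sum_le_exp_of_nonneg (by norm_num) 9)) (by positivity)
    push_cast
    linarith

theorem t4odd {n : ℕ} (hn : 25 ≤ n) {S L V μ : ℝ} (hS : S ≤ 4 * (n - 2) / 4)
    (hL : L ≤ 2 * (n - 4) / 2) (hV0 : 0 < V) (hV : V ≤ VW S L 4 4 0)
    (hμ : (Wd n 4 4 - 1 / 2) / 2 ≤ μ) : Q n 4 (4 * μ ^ 2 / (9 * V)) < 19 / 10 := by
  obtain ⟨s, hs⟩ : ∃ s : ℝ, (n : ℝ) = 25 + s := ⟨n - 25, by ring⟩
  have hs0 : 0 ≤ s := by
    have : (25 : ℝ) ≤ n := by exact_mod_cast hn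
    linarith
  rw [hs] at hS hL hμ
  refine (fixd (by norm_num : 4 ≤ 4) (c := 53 / 10 + 1 / 25 * s) (ℓ := 0.64) hV0
    (hV.trans (VW_le (ε₁ := 1 / 1000) (ε₂ := 1 / 7) hS hL (by norm_num) (by norm_num)
      (by norm_num) le_rfl (by linarith) (by linarith) (by norm_num) (by norm_num)))
    (M := (Wd (25 + s) 4 4 - 1 / 2) / 2) ?_ hμ (by positivity) ?_ ?_).trans_lt exp_lt_19
  · unfold Wd
    norm_num
    nlinarith
  · unfold Wd
    norm_num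
    nlinarith [mul_nonneg hs0 hs0]
  · rw [hs]
    have h := exp_lin (r := 25 * 4 / 0.64) (c₀ := 53 / 10) (c₁ := 1 / 25) (s := s)
      ((by norm_num [Finset.sum_range_succ, Nat.factorial] :
        (25 * 4 / 0.64 : ℝ) ≤ ∑ i ∈ Finset.range 9, (53 / 10 : ℝ) ^ i / i.factorial).trans
        (sum_le_exp_of_nonneg (by norm_num) 9)) (by positivity)
    push_cast
    linarith

theorem t5a {n : ℕ} (hn : 20 ≤ n) {S L V μ : ℝ} (hS : S ≤ 5 * (n - 2) / 5)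
    (hL : L ≤ 2 * (n - 5) / 2) (hV0 : 0 < V) (hV : V ≤ VW S L 5 5 0)
    (hμ : (Wd n 5 5 - 1 / 5) / 2 ≤ μ) : Q n 5 (4 * μ ^ 2 / (9 * V)) < 19 / 10 := by
  obtain ⟨s, hs⟩ : ∃ s : ℝ, (n : ℝ) = 20 + s := ⟨n - 20, by ring⟩
  have hs0 : 0 ≤ s := by
    have : (20 : ℝ) ≤ n := by exact_mod_cast hn
    linarith
  rw [hs] at hS hL hμ
  refine (fixd (by norm_num : 4 ≤ 5) (c := 51 / 10 + 1 / 20 * s) (ℓ := 0.64) hV0
    (hV.trans (VW_le (ε₁ := 1 / 1000) (ε₂ := 1 / 8) hS hL (by norm_num) (by norm_num)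
      (by norm_num) le_rfl (by linarith) (by linarith) (by norm_num) (by norm_num)))
    (M := (Wd (20 + s) 5 5 - 1 / 5) / 2) ?_ hμ (by positivity) ?_ ?_).trans_lt exp_lt_19
  · unfold Wd
    norm_num
    nlinarith
  · unfold Wd
    norm_num
    nlinarith [mul_nonneg hs0 hs0]
  · rw [hs]
    have h := exp_lin (r := 20 * 5 / 0.64) (c₀ := 51 / 10) (c₁ := 1 / 20) (s := s)
      ((by norm_num [Finset.sum_range_succ, Nat.factorial] :
        (20 * 5 / 0.64 : ℝ) ≤ ∑ i ∈ Finset.range 11, (51 / 10 : ℝ) ^ i / i.factorial).trans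
        (sum_le_exp_of_nonneg (by norm_num) 11)) (by positivity)
    push_cast
    linarith

theorem t5b {n : ℕ} (hn : 22 ≤ n) {S L V μ : ℝ} (hS : S ≤ 5 * (n - 2) / 5)
    (hL : L ≤ 2 * (n - 5) / 2) (hV0 : 0 < V) (hV : V ≤ VW S L 5 5 0)
    (hμ : (Wd n 5 5 - 9 / 20) / 2 ≤ μ) : Q n 5 (4 * μ ^ 2 / (9 * V)) < 19 / 10 := by
  obtain ⟨s, hs⟩ : ∃ s : ℝ, (n : ℝ) = 22 + s := ⟨n - 22, by ring⟩
  have hs0 : 0 ≤ s := by
    have : (22 : ℝ) ≤ n := by exact_mod_cast hn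
    linarith
  rw [hs] at hS hL hμ
  refine (fixd (by norm_num : 4 ≤ 5) (c := 53 / 10 + 1 / 22 * s) (ℓ := 0.64) hV0
    (hV.trans (VW_le (ε₁ := 1 / 1000) (ε₂ := 1 / 8) hS hL (by norm_num) (by norm_num)
      (by norm_num) le_rfl (by linarith) (by linarith) (by norm_num) (by norm_num)))
    (M := (Wd (22 + s) 5 5 - 9 / 20) / 2) ?_ hμ (by positivity) ?_ ?_).trans_lt exp_lt_19
  · unfold Wd
    norm_num
    nlinarith
  · unfold Wd
    norm_num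
    nlinarith [mul_nonneg hs0 hs0]
  · rw [hs]
    have h := exp_lin (r := 22 * 5 / 0.64) (c₀ := 53 / 10) (c₁ := 1 / 22) (s := s)
      ((by norm_num [Finset.sum_range_succ, Nat.factorial] :
        (22 * 5 / 0.64 : ℝ) ≤ ∑ i ∈ Finset.range 10, (53 / 10 : ℝ) ^ i / i.factorial).trans
        (sum_le_exp_of_nonneg (by norm_num) 10)) (by positivity)
    push_cast
    linarith

theorem t5c {n : ℕ} (hn : 24 ≤ n) {S L V μ : ℝ} (hS : S ≤ 5 * (n - 2) / 5)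
    (hL : L ≤ 2 * (n - 5) / 2) (hV0 : 0 < V) (hV : V ≤ VW S L 5 5 0)
    (hμ : (Wd n 5 5 - 7 / 10) / 2 ≤ μ) : Q n 5 (4 * μ ^ 2 / (9 * V)) < 19 / 10 := by
  obtain ⟨s, hs⟩ : ∃ s : ℝ, (n : ℝ) = 24 + s := ⟨n - 24, by ring⟩
  have hs0 : 0 ≤ s := by
    have : (24 : ℝ) ≤ n := by exact_mod_cast hn
    linarith
  rw [hs] at hS hL hμ
  refine (fixd (by norm_num : 4 ≤ 5) (c := 11 / 2 + 1 / 24 * s) (ℓ := 0.64) hV0
    (hV.trans (VW_le (ε₁ := 1 / 1000) (ε₂ := 1 / 9) hS hL (by norm_num) (by norm_num)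
      (by norm_num) le_rfl (by linarith) (by linarith) (by norm_num) (by norm_num)))
    (M := (Wd (24 + s) 5 5 - 7 / 10) / 2) ?_ hμ (by positivity) ?_ ?_).trans_lt exp_lt_19
  · unfold Wd
    norm_num
    nlinarith
  · unfold Wd
    norm_num
    nlinarith [mul_nonneg hs0 hs0]
  · rw [hs]
    have h := exp_lin (r := 24 * 5 / 0.64) (c₀ := 11 / 2) (c₁ := 1 / 24) (s := s)
      ((by norm_num [Finset.sum_range_succ, Nat.factorial] :
        (24 * 5 / 0.64 : ℝ) ≤ ∑ i ∈ Finset.range 9, (11 / 2 : ℝ) ^ i / i.factorial).trans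
        (sum_le_exp_of_nonneg (by norm_num) 9)) (by positivity)
    push_cast
    linarith

theorem t6a {n : ℕ} (hn : 20 ≤ n) {S L V μ : ℝ} (hS : S ≤ 5 * (n - 2) / 6)
    (hL : L ≤ 2 * (n - 5) / 3) (hV0 : 0 < V) (hV : V ≤ VW S L 5 6 1)
    (hμ : (Wd n 6 5 - 1 / 6) / 2 ≤ μ) : Q n 6 (4 * μ ^ 2 / (9 * V)) < 19 / 10 := by
  obtain ⟨s, hs⟩ : ∃ s : ℝ, (n : ℝ) = 20 + s := ⟨n - 20, by ring⟩
  have hs0 : 0 ≤ s := by
    have : (20 : ℝ) ≤ n := by exact_mod_cast hn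
    linarith
  rw [hs] at hS hL hμ
  refine (fixd (by norm_num : 4 ≤ 6) (c := 27 / 5 + 1 / 20 * s) (ℓ := 0.64) hV0
    (hV.trans (VW_le (ε₁ := 1 / 12) (ε₂ := 1 / 8) hS hL (by norm_num) (by norm_num)
      (by norm_num) le_rfl (by linarith) (by linarith) (by norm_num) (by norm_num)))
    (M := (Wd (20 + s) 6 5 - 1 / 6) / 2) ?_ hμ (by positivity) ?_ ?_).trans_lt exp_lt_19
  · unfold Wd
    norm_num
    nlinarith
  · unfold Wd
    norm_num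
    nlinarith [mul_nonneg hs0 hs0]
  · rw [hs]
    have h := exp_lin (r := 20 * 6 / 0.64) (c₀ := 27 / 5) (c₁ := 1 / 20) (s := s)
      ((by norm_num [Finset.sum_range_succ, Nat.factorial] :
        (20 * 6 / 0.64 : ℝ) ≤ ∑ i ∈ Finset.range 10, (27 / 5 : ℝ) ^ i / i.factorial).trans
        (sum_le_exp_of_nonneg (by norm_num) 10)) (by positivity)
    push_cast
    linarith

theorem t6b {n : ℕ} (hn : 22 ≤ n) {S L V μ : ℝ} (hS : S ≤ 5 * (n - 2) / 6)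
    (hL : L ≤ 2 * (n - 5) / 3) (hV0 : 0 < V) (hV : V ≤ VW S L 5 6 1)
    (hμ : (Wd n 6 5 - 5 / 12) / 2 ≤ μ) : Q n 6 (4 * μ ^ 2 / (9 * V)) < 19 / 10 := by
  obtain ⟨s, hs⟩ : ∃ s : ℝ, (n : ℝ) = 22 + s := ⟨n - 22, by ring⟩
  have hs0 : 0 ≤ s := by
    have : (22 : ℝ) ≤ n := by exact_mod_cast hn
    linarith
  rw [hs] at hS hL hμ
  refine (fixd (by norm_num : 4 ≤ 6) (c := 11 / 2 + 1 / 22 * s) (ℓ := 0.64) hV0
    (hV.trans (VW_le (ε₁ := 1 / 13) (ε₂ := 1 / 9) hS hL (by norm_num) (by norm_num)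
      (by norm_num) le_rfl (by linarith) (by linarith) (by norm_num) (by norm_num)))
    (M := (Wd (22 + s) 6 5 - 5 / 12) / 2) ?_ hμ (by positivity) ?_ ?_).trans_lt exp_lt_19
  · unfold Wd
    norm_num
    nlinarith
  · unfold Wd
    norm_num
    nlinarith [mul_nonneg hs0 hs0]
  · rw [hs]
    have h := exp_lin (r := 22 * 6 / 0.64) (c₀ := 11 / 2) (c₁ := 1 / 22) (s := s)
      ((by norm_num [Finset.sum_range_succ, Nat.factorial] :
        (22 * 6 / 0.64 : ℝ) ≤ ∑ i ∈ Finset.range 10, (11 / 2 : ℝ) ^ i / i.factorial).trans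
        (sum_le_exp_of_nonneg (by norm_num) 10)) (by positivity)
    push_cast
    linarith

theorem t6c {n : ℕ} (hn : 24 ≤ n) {S L V μ : ℝ} (hS : S ≤ 5 * (n - 2) / 6)
    (hL : L ≤ 2 * (n - 5) / 3) (hV0 : 0 < V) (hV : V ≤ VW S L 5 6 1)
    (hμ : (Wd n 6 5 - 2 / 3) / 2 ≤ μ) : Q n 6 (4 * μ ^ 2 / (9 * V)) < 19 / 10 := by
  obtain ⟨s, hs⟩ : ∃ s : ℝ, (n : ℝ) = 24 + s := ⟨n - 24, by ring⟩
  have hs0 : 0 ≤ s := by
    have : (24 : ℝ) ≤ n := by exact_mod_cast hn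
    linarith
  rw [hs] at hS hL hμ
  refine (fixd (by norm_num : 4 ≤ 6) (c := 57 / 10 + 1 / 24 * s) (ℓ := 0.64) hV0
    (hV.trans (VW_le (ε₁ := 1 / 14) (ε₂ := 1 / 9) hS hL (by norm_num) (by norm_num)
      (by norm_num) le_rfl (by linarith) (by linarith) (by norm_num) (by norm_num)))
    (M := (Wd (24 + s) 6 5 - 2 / 3) / 2) ?_ hμ (by positivity) ?_ ?_).trans_lt exp_lt_19
  · unfold Wd
    norm_num
    nlinarith
  · unfold Wd
    norm_num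
    nlinarith [mul_nonneg hs0 hs0]
  · rw [hs]
    have h := exp_lin (r := 24 * 6 / 0.64) (c₀ := 57 / 10) (c₁ := 1 / 24) (s := s)
      ((by norm_num [Finset.sum_range_succ, Nat.factorial] :
        (24 * 6 / 0.64 : ℝ) ≤ ∑ i ∈ Finset.range 9, (57 / 10 : ℝ) ^ i / i.factorial).trans
        (sum_le_exp_of_nonneg (by norm_num) 9)) (by positivity)
    push_cast
    linarith

theorem t7a {n : ℕ} (hn : 22 ≤ n) {S L V μ : ℝ} (hS : S ≤ 5 * (n - 2) / 6)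
    (hL : L ≤ 2 * (n - 5) / 3) (hV0 : 0 < V) (hV : V ≤ VW S L 5 7 2)
    (hμ : (Wd n 7 5 - 1 / 7) / 2 ≤ μ) : Q n 7 (4 * μ ^ 2 / (9 * V)) < 19 / 10 := by
  obtain ⟨s, hs⟩ : ∃ s : ℝ, (n : ℝ) = 22 + s := ⟨n - 22, by ring⟩
  have hs0 : 0 ≤ s := by
    have : (22 : ℝ) ≤ n := by exact_mod_cast hn
    linarith
  rw [hs] at hS hL hμ
  refine (fixd (by norm_num : 4 ≤ 7) (c := 11 / 2 + 1 / 22 * s) (ℓ := 0.64) hV0
    (hV.trans (VW_le (ε₁ := 1 / 11) (ε₂ := 1 / 10) hS hL (by norm_num) (by norm_num)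
      (by norm_num) le_rfl (by linarith) (by linarith) (by norm_num) (by norm_num)))
    (M := (Wd (22 + s) 7 5 - 1 / 7) / 2) ?_ hμ (by positivity) ?_ ?_).trans_lt exp_lt_19
  · unfold Wd
    norm_num
    nlinarith
  · unfold Wd
    norm_num
    nlinarith [mul_nonneg hs0 hs0]
  · rw [hs]
    have h := exp_lin (r := 22 * 7 / 0.64) (c₀ := 11 / 2) (c₁ := 1 / 22) (s := s)
      ((by norm_num [Finset.sum_range_succ, Nat.factorial] :
        (22 * 7 / 0.64 : ℝ) ≤ ∑ i ∈ Finset.range 13, (11 / 2 : ℝ) ^ i / i.factorial).trans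
        (sum_le_exp_of_nonneg (by norm_num) 13)) (by positivity)
    push_cast
    linarith

theorem t7b {n : ℕ} (hn : 26 ≤ n) {S L V μ : ℝ} (hS : S ≤ 5 * (n - 2) / 6)
    (hL : L ≤ 2 * (n - 5) / 3) (hV0 : 0 < V) (hV : V ≤ VW S L 5 7 2)
    (hμ : (Wd n 7 5 - 11 / 28) / 2 ≤ μ) : Q n 7 (4 * μ ^ 2 / (9 * V)) < 19 / 10 := by
  obtain ⟨s, hs⟩ : ∃ s : ℝ, (n : ℝ) = 26 + s := ⟨n - 26, by ring⟩
  have hs0 : 0 ≤ s := by
    have : (26 : ℝ) ≤ n := by exact_mod_cast hn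
    linarith
  rw [hs] at hS hL hμ
  refine (fixd (by norm_num : 4 ≤ 7) (c := 6 + 1 / 26 * s) (ℓ := 0.64) hV0
    (hV.trans (VW_le (ε₁ := 1 / 13) (ε₂ := 1 / 12) hS hL (by norm_num) (by norm_num)
      (by norm_num) le_rfl (by linarith) (by linarith) (by norm_num) (by norm_num)))
    (M := (Wd (26 + s) 7 5 - 11 / 28) / 2) ?_ hμ (by positivity) ?_ ?_).trans_lt exp_lt_19
  · unfold Wd
    norm_num
    nlinarith
  · unfold Wd
    norm_num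
    nlinarith [mul_nonneg hs0 hs0]
  · rw [hs]
    have h := exp_lin (r := 26 * 7 / 0.64) (c₀ := 6) (c₁ := 1 / 26) (s := s)
      ((by norm_num [Finset.sum_range_succ, Nat.factorial] :
        (26 * 7 / 0.64 : ℝ) ≤ ∑ i ∈ Finset.range 9, (6 : ℝ) ^ i / i.factorial).trans
        (sum_le_exp_of_nonneg (by norm_num) 9)) (by positivity)
    push_cast
    linarith

theorem t7c {n : ℕ} (hn : 28 ≤ n) {S L V μ : ℝ} (hS : S ≤ 5 * (n - 2) / 6)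
    (hL : L ≤ 2 * (n - 5) / 3) (hV0 : 0 < V) (hV : V ≤ VW S L 5 7 2)
    (hμ : (Wd n 7 5 - 9 / 14) / 2 ≤ μ) : Q n 7 (4 * μ ^ 2 / (9 * V)) < 19 / 10 := by
  obtain ⟨s, hs⟩ : ∃ s : ℝ, (n : ℝ) = 28 + s := ⟨n - 28, by ring⟩
  have hs0 : 0 ≤ s := by
    have : (28 : ℝ) ≤ n := by exact_mod_cast hn
    linarith
  rw [hs] at hS hL hμ
  refine (fixd (by norm_num : 4 ≤ 7) (c := 6 + 1 / 28 * s) (ℓ := 0.64) hV0
    (hV.trans (VW_le (ε₁ := 1 / 13) (ε₂ := 1 / 12) hS hL (by norm_num) (by norm_num)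
      (by norm_num) le_rfl (by linarith) (by linarith) (by norm_num) (by norm_num)))
    (M := (Wd (28 + s) 7 5 - 9 / 14) / 2) ?_ hμ (by positivity) ?_ ?_).trans_lt exp_lt_19
  · unfold Wd
    norm_num
    nlinarith
  · unfold Wd
    norm_num
    nlinarith [mul_nonneg hs0 hs0]
  · rw [hs]
    have h := exp_lin (r := 28 * 7 / 0.64) (c₀ := 6) (c₁ := 1 / 28) (s := s)
      ((by norm_num [Finset.sum_range_succ, Nat.factorial] :
        (28 * 7 / 0.64 : ℝ) ≤ ∑ i ∈ Finset.range 10, (6 : ℝ) ^ i / i.factorial).trans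
        (sum_le_exp_of_nonneg (by norm_num) 10)) (by positivity)
    push_cast
    linarith

theorem t4d {n : ℕ} (hn : 24 ≤ n) {S L V μ : ℝ} (hS : S ≤ 4 * (n - 2) / 4)
    (hL : L ≤ 2 * (n - 4) / 2) (hV0 : 0 < V) (hV : V ≤ VW S L 4 4 0)
    (hμ : (Wd n 4 4 - 7 / 12) / 2 ≤ μ) : Q n 4 (4 * μ ^ 2 / (9 * V)) < 19 / 10 := by
  obtain ⟨s, hs⟩ : ∃ s : ℝ, (n : ℝ) = 24 + s := ⟨n - 24, by ring⟩
  have hs0 : 0 ≤ s := by
    have : (24 : ℝ) ≤ n := by exact_mod_cast hn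
    linarith
  rw [hs] at hS hL hμ
  refine (fixd (by norm_num : 4 ≤ 4) (c := 51 / 10 + 1 / 24 * s) (ℓ := 0.64) hV0
    (hV.trans (VW_le (ε₁ := 1 / 1000) (ε₂ := 1 / 7) hS hL (by norm_num) (by norm_num)
      (by norm_num) le_rfl (by linarith) (by linarith) (by norm_num) (by norm_num)))
    (M := (Wd (24 + s) 4 4 - 7 / 12) / 2) ?_ hμ (by positivity) ?_ ?_).trans_lt exp_lt_19
  · unfold Wd
    norm_num
    nlinarith
  · unfold Wd
    norm_num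
    nlinarith [mul_nonneg hs0 hs0]
  · rw [hs]
    have h := exp_lin (r := 24 * 4 / 0.64) (c₀ := 51 / 10) (c₁ := 1 / 24) (s := s)
      ((by norm_num [Finset.sum_range_succ, Nat.factorial] :
        (24 * 4 / 0.64 : ℝ) ≤ ∑ i ∈ Finset.range 10, (51 / 10 : ℝ) ^ i / i.factorial).trans
        (sum_le_exp_of_nonneg (by norm_num) 10)) (by positivity)
    push_cast
    linarith

theorem t5d {n : ℕ} (hn : 22 ≤ n) {S L V μ : ℝ} (hS : S ≤ 5 * (n - 2) / 5)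
    (hL : L ≤ 2 * (n - 5) / 2) (hV0 : 0 < V) (hV : V ≤ VW S L 5 5 0)
    (hμ : (Wd n 5 5 - 9 / 20) / 2 ≤ μ) : Q n 5 (4 * μ ^ 2 / (9 * V)) < 19 / 10 := by
  obtain ⟨s, hs⟩ : ∃ s : ℝ, (n : ℝ) = 22 + s := ⟨n - 22, by ring⟩
  have hs0 : 0 ≤ s := by
    have : (22 : ℝ) ≤ n := by exact_mod_cast hn
    linarith
  rw [hs] at hS hL hμ
  refine (fixd (by norm_num : 4 ≤ 5) (c := 53 / 10 + 1 / 22 * s) (ℓ := 0.64) hV0
    (hV.trans (VW_le (ε₁ := 1 / 1000) (ε₂ := 1 / 8) hS hL (by norm_num) (by norm_num)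
      (by norm_num) le_rfl (by linarith) (by linarith) (by norm_num) (by norm_num)))
    (M := (Wd (22 + s) 5 5 - 9 / 20) / 2) ?_ hμ (by positivity) ?_ ?_).trans_lt exp_lt_19
  · unfold Wd
    norm_num
    nlinarith
  · unfold Wd
    norm_num
    nlinarith [mul_nonneg hs0 hs0]
  · rw [hs]
    have h := exp_lin (r := 22 * 5 / 0.64) (c₀ := 53 / 10) (c₁ := 1 / 22) (s := s)
      ((by norm_num [Finset.sum_range_succ, Nat.factorial] :
        (22 * 5 / 0.64 : ℝ) ≤ ∑ i ∈ Finset.range 10, (53 / 10 : ℝ) ^ i / i.factorial).trans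
        (sum_le_exp_of_nonneg (by norm_num) 10)) (by positivity)
    push_cast
    linarith

theorem t6d {n : ℕ} (hn : 22 ≤ n) {S L V μ : ℝ} (hS : S ≤ 5 * (n - 2) / 6)
    (hL : L ≤ 2 * (n - 5) / 3) (hV0 : 0 < V) (hV : V ≤ VW S L 5 6 1)
    (hμ : (Wd n 6 5 - 11 / 30) / 2 ≤ μ) : Q n 6 (4 * μ ^ 2 / (9 * V)) < 19 / 10 := by
  obtain ⟨s, hs⟩ : ∃ s : ℝ, (n : ℝ) = 22 + s := ⟨n - 22, by ring⟩
  have hs0 : 0 ≤ s := by
    have : (22 : ℝ) ≤ n := by exact_mod_cast hn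
    linarith
  rw [hs] at hS hL hμ
  refine (fixd (by norm_num : 4 ≤ 6) (c := 28 / 5 + 1 / 22 * s) (ℓ := 0.64) hV0
    (hV.trans (VW_le (ε₁ := 1 / 13) (ε₂ := 1 / 9) hS hL (by norm_num) (by norm_num)
      (by norm_num) le_rfl (by linarith) (by linarith) (by norm_num) (by norm_num)))
    (M := (Wd (22 + s) 6 5 - 11 / 30) / 2) ?_ hμ (by positivity) ?_ ?_).trans_lt exp_lt_19
  · unfold Wd
    norm_num
    nlinarith
  · unfold Wd
    norm_num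
    nlinarith [mul_nonneg hs0 hs0]
  · rw [hs]
    have h := exp_lin (r := 22 * 6 / 0.64) (c₀ := 28 / 5) (c₁ := 1 / 22) (s := s)
      ((by norm_num [Finset.sum_range_succ, Nat.factorial] :
        (22 * 6 / 0.64 : ℝ) ≤ ∑ i ∈ Finset.range 9, (28 / 5 : ℝ) ^ i / i.factorial).trans
        (sum_le_exp_of_nonneg (by norm_num) 9)) (by positivity)
    push_cast
    linarith

theorem t7d {n : ℕ} (hn : 24 ≤ n) {S L V μ : ℝ} (hS : S ≤ 5 * (n - 2) / 6)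
    (hL : L ≤ 2 * (n - 5) / 3) (hV0 : 0 < V) (hV : V ≤ VW S L 5 7 2)
    (hμ : (Wd n 7 5 - 13 / 42) / 2 ≤ μ) : Q n 7 (4 * μ ^ 2 / (9 * V)) < 19 / 10 := by
  obtain ⟨s, hs⟩ : ∃ s : ℝ, (n : ℝ) = 24 + s := ⟨n - 24, by ring⟩
  have hs0 : 0 ≤ s := by
    have : (24 : ℝ) ≤ n := by exact_mod_cast hn
    linarith
  rw [hs] at hS hL hμ
  refine (fixd (by norm_num : 4 ≤ 7) (c := 57 / 10 + 1 / 24 * s) (ℓ := 0.64) hV0
    (hV.trans (VW_le (ε₁ := 1 / 12) (ε₂ := 1 / 11) hS hL (by norm_num) (by norm_num)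
      (by norm_num) le_rfl (by linarith) (by linarith) (by norm_num) (by norm_num)))
    (M := (Wd (24 + s) 7 5 - 13 / 42) / 2) ?_ hμ (by positivity) ?_ ?_).trans_lt exp_lt_19
  · unfold Wd
    norm_num
    nlinarith
  · unfold Wd
    norm_num
    nlinarith [mul_nonneg hs0 hs0]
  · rw [hs]
    have h := exp_lin (r := 24 * 7 / 0.64) (c₀ := 57 / 10) (c₁ := 1 / 24) (s := s)
      ((by norm_num [Finset.sum_range_succ, Nat.factorial] :
        (24 * 7 / 0.64 : ℝ) ≤ ∑ i ∈ Finset.range 11, (57 / 10 : ℝ) ^ i / i.factorial).trans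
        (sum_le_exp_of_nonneg (by norm_num) 11)) (by positivity)
    push_cast
    linarith

end Pool.Agent.UPS.Num
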