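import Pool.Agent.Lib.MP_876e19_co_ups.TwoStageK2
import Pool.Agent.Lib.MP_876e19_co_ups.Gadget
import Pool.Agent.Lib.MP_876e19_co_ups.RealK

/-!
# Parity, `n` even (MP_876e19_co, helper81)

`two_stage_K2t` : two stages from real edge weights `K` with `deg K + s = D`, `s` real of variation
at most one, `n` even, one additional kill on an edge `s(α₁, γ₁)` in stage 1 and on an edge
`s(α₂, γ₂)` in stage 2 at no cost.

`even_finish` : finish for `n` even and `G` not bipartite: only the lower side of the box pays for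
the parity gadget, and nothing at all is paid if the gadget is a triangle.
-/

set_option autoImplicit false

open Finset

namespace Pool.Agent.UPS2

namespace PM

open HTutte UPS3 EC UPS UPS.TS

variable {V : Type*} [Fintype V] [DecidableEq V] {G : SimpleGraph V}

omit [DecidableEq V] in
lemma even_sym_sum (m : V → V → ℕ) (hs : ∀ u w, m u w = m w u) (h0 : ∀ v, m v v = 0) :
    Even (∑ v, ∑ w, m v w) := by
  rw [← Fintype.sum_prod_type' (f := m)]
  have h : ((∑ p : V × V, m p.1 p.2 : ℕ) : ZMod 2) = 0 := by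
    push_cast
    refine Finset.sum_involution (fun p _ => (p.2, p.1)) ?_ ?_ ?_ ?_
    · intro p _
      rw [hs p.2 p.1, ← two_mul]
      have : (2 : ZMod 2) = 0 := rfl
      rw [this, zero_mul]
    · intro p _ hp h
      apply hp
      have h1 : p.2 = p.1 := congrArg Prod.fst h
      rw [h1, h0]
      simp
    · intro p _
      exact mem_univ _
    · intro p _
      rfl
  exact (ZMod.natCast_eq_zero_iff_even).1 h

/-- the degrees of one weighted edge -/
lemma sum_edge {α γ : V} (h : α ≠ γ) (t : ℝ) (v : V) :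
    ∑ w, (if s(v, w) = s(α, γ) then t else 0) =
      t * ((if v = α then 1 else 0) + (if v = γ then 1 else 0)) := by
  by_cases h1 : v = α
  · subst h1
    rw [Finset.sum_eq_single γ]
    · simp [h]
    · intro w _ hw
      rw [if_neg]
      intro h2
      exact hw (Sym2.congr_right.1 h2)
    · intro h2
      exact absurd (mem_univ _) h2
  · by_cases h2 : v = γ
    · subst h2
      rw [Finset.sum_eq_single α]
      · simp [h1, Sym2.eq_swap]
      · intro w _ hw
        rw [if_neg]
        intro h3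
        rw [Sym2.eq_swap (a := α)] at h3
        exact hw (Sym2.congr_right.1 h3)
      · intro h3
        exact absurd (mem_univ _) h3
    · rw [Finset.sum_eq_zero]
      · simp [h1, h2]
      · intro w _
        rw [if_neg]
        intro h3
        rw [Sym2.eq_iff] at h3
        rcases h3 with ⟨h4, _⟩ | ⟨h4, _⟩
        · exact h1 h4
        · exact h2 h4

/-- **Two stages from real edge weights with a real defect of variation one**; one more kill in
each stage. -/
theorem two_stage_K2t [Nontrivial V] (P : ∀ x y : V, G.Walk x y) (hP : Paths P) {d : ℕ}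
    (hd3 : 3 ≤ d) (hd : ∀ v, dg G v = d)
    (hcut : ∀ S : Finset V, S.Nonempty → S ≠ univ → d ≤ cut G S)
    (K : V → V → ℝ) (hK0 : ∀ v w, 0 ≤ K v w) (hKs : ∀ v w, K v w = K w v)
    (hKG : ∀ v w, ¬ G.Adj v w → K v w = 0)
    (D : V → ℕ) (s : V → ℝ) (hKD : ∀ v, ∑ w, K v w + s v = D v)
    {α₁ γ₁ α₂ γ₂ : V} (hαγ₁ : α₁ ≠ γ₁) (hαγ₂ : α₂ ≠ γ₂)
    (hs : ∀ t : ℝ, 0 ≤ t → t ≤ 1 / ((d : ℝ) - 1) → ∀ T T' : Finset V, Disjoint T T' →
      ∑ v ∈ T, (s v + t * ((if v = α₁ then 1 else 0) + (if v = γ₁ then 1 else 0))) -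
      ∑ v ∈ T', (s v + t * ((if v = α₁ then 1 else 0) + (if v = γ₁ then 1 else 0))) ≤ 1)
    (hn : Even (Fintype.card V)) (heven : Even (∑ v, D v)) (c : ℕ)
    (hc : ∀ v, load P v + D v + 2 = c) (a₁ a₂ : V → V → ℕ)
    (hsym : ∀ u w, a₂ u w = a₂ w u)
    (ha₁ : ∀ u w, G.Adj u w → d + 2 ≤ a₁ u w) (ha₂ : ∀ u w, G.Adj u w → 3 ≤ a₂ u w)
    (hout : ∀ u w, G.Adj u w → a₁ u w + 2 + outKill P u w + outKill P w u ≤
      Fintype.card V + if s(u, w) = s(α₁, γ₁) then 1 else 0)
    (hin : ∀ u w, G.Adj u w → a₂ u w + 4 + inKill P u w + inKill P w u ≤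
      Fintype.card V + if s(u, w) = s(α₂, γ₂) then 1 else 0)
    (hKc : ∀ u w, G.Adj u w → K u w + 1 + 2 / d <
      ((a₁ u w : ℝ) + a₂ u w - 1) / ((d : ℝ) - 1)) : HasUPS G := by
  have hd2 : 2 ≤ d := by omega
  classical
  have hd0R : (0 : ℝ) < d := by
    have : 0 < d := by omega
    exact_mod_cast this
  have hd1 : (0 : ℝ) < (d : ℝ) - 1 := by
    have : (2 : ℝ) ≤ d := by exact_mod_cast hd2
    linarith
  have hβ0 : (0 : ℝ) < 1 / ((d : ℝ) - 1) := one_div_pos.2 hd1
  let c₁ : V → V → ℝ := fun u w => (a₁ u w : ℝ) / ((d : ℝ) - 1) - 2 / d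
  let c₂ : V → V → ℝ := fun u w => (a₂ u w : ℝ) / ((d : ℝ) - 1) - 2 / d
  have hc₁1 : ∀ u w, G.Adj u w → 1 ≤ c₁ u w := by
    intro u w h
    have h1 : ((d : ℝ) + 1) ≤ a₁ u w := by
      have := ha₁ u w h
      exact_mod_cast (by omega : d + 1 ≤ a₁ u w)
    have h2 : ((d : ℝ) + 1) / ((d : ℝ) - 1) ≤ (a₁ u w : ℝ) / ((d : ℝ) - 1) :=
      div_le_div_of_nonneg_right h1 hd1.le
    have h3 : (1 : ℝ) + 2 / d ≤ ((d : ℝ) + 1) / ((d : ℝ) - 1) := by
      rw [le_div_iff₀ hd1, add_mul, div_mul_eq_mul_div, one_mul]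
      have : 2 * ((d : ℝ) - 1) / d ≤ 2 := by
        rw [div_le_iff₀ hd0R]
        linarith
      linarith
    simp only [c₁]
    linarith
  have hc₂0 : ∀ u w, G.Adj u w → 0 < c₂ u w := by
    intro u w h
    have h1 : (2 : ℝ) ≤ a₂ u w := by
      have := ha₂ u w h
      exact_mod_cast (by omega : 2 ≤ a₂ u w)
    have h2 : (2 : ℝ) / ((d : ℝ) - 1) ≤ (a₂ u w : ℝ) / ((d : ℝ) - 1) :=
      div_le_div_of_nonneg_right h1 hd1.le
    have h3 : (2 : ℝ) / d < 2 / ((d : ℝ) - 1) := by
      apply div_lt_div_of_pos_left two_pos hd1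
      linarith
    simp only [c₂]
    linarith
  -- the sharp fractional part
  have hceil : ∀ u w, ((a₂ u w : ℝ) - 1) / ((d : ℝ) - 1) ≤ ⌈c₂ u w⌉ := by
    intro u w
    have h1 := Int.le_ceil (c₂ u w)
    set m : ℤ := ⌈c₂ u w⌉ with hm
    have h2 : (a₂ u w : ℝ) / ((d : ℝ) - 1) - 2 / d ≤ m := h1
    have h3 : (a₂ u w : ℝ) < m * ((d : ℝ) - 1) + 2 := by
      have h4 : (a₂ u w : ℝ) / ((d : ℝ) - 1) ≤ m + 2 / d := by linarith
      rw [div_le_iff₀ hd1] at h4
      have h5 : 2 / (d : ℝ) * ((d : ℝ) - 1) < 2 := by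
        rw [div_mul_eq_mul_div, div_lt_iff₀ hd0R]
        linarith
      nlinarith
    have h4 : (a₂ u w : ℤ) < m * ((d : ℤ) - 1) + 2 := by exact_mod_cast h3
    have h5 : (a₂ u w : ℤ) - 1 ≤ m * ((d : ℤ) - 1) := by omega
    have h6 : (a₂ u w : ℝ) - 1 ≤ m * ((d : ℝ) - 1) := by exact_mod_cast h5
    rw [div_le_iff₀ hd1]
    exact h6
  -- the integral second part
  let m : V → V → ℤ := fun u w => if G.Adj u w then min ⌊K u w⌋ (⌈c₂ u w⌉ - 1) else 0
  have hm0 : ∀ u w, 0 ≤ m u w := by
    intro u w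
    simp only [m]
    split_ifs with h
    · refine le_min (Int.floor_nonneg.2 (hK0 u w)) ?_
      have := Int.ceil_pos.2 (hc₂0 u w h)
      omega
    · exact le_rfl
  have hms : ∀ u w, m u w = m w u := by
    intro u w
    simp only [m, c₂]
    rw [hKs u w, hsym u w]
    exact if_congr (SimpleGraph.adj_comm _ _ _) rfl rfl
  have hmK : ∀ u w, (m u w : ℝ) ≤ K u w := by
    intro u w
    simp only [m]
    split_ifs with h
    · refine le_trans ?_ (Int.floor_le (K u w))
      exact_mod_cast min_le_left _ _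
    · rw [hKG u w h]
      simp
  have hmc : ∀ u w, G.Adj u w → (m u w : ℝ) < c₂ u w := by
    intro u w h
    simp only [m, if_pos h]
    have h1 : ((min ⌊K u w⌋ (⌈c₂ u w⌉ - 1) : ℤ) : ℝ) ≤ ((⌈c₂ u w⌉ - 1 : ℤ) : ℝ) := by
      exact_mod_cast min_le_right _ _
    refine lt_of_le_of_lt h1 ?_
    push_cast
    have := Int.ceil_lt_add_one (c₂ u w)
    linarith
  have hmc₁ : ∀ u w, G.Adj u w → K u w - m u w < c₁ u w := by
    intro u w h
    simp only [m, if_pos h]
    rcases min_choice ⌊K u w⌋ (⌈c₂ u w⌉ - 1) with h1 | h1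
    · rw [h1]
      have := Int.lt_floor_add_one (K u w)
      have := hc₁1 u w h
      linarith
    · rw [h1]
      push_cast
      have h2 := hceil u w
      have h3 := hKc u w h
      simp only [c₁]
      have h4 : ((a₁ u w : ℝ) + a₂ u w - 1) / ((d : ℝ) - 1) =
          (a₁ u w : ℝ) / ((d : ℝ) - 1) + ((a₂ u w : ℝ) - 1) / ((d : ℝ) - 1) := by
        rw [← add_div]
        ring
      rw [h4] at h3
      linarith
  obtain ⟨m', hm'⟩ : ∃ m' : V → V → ℕ, ∀ u w, m u w = (m' u w : ℤ) :=
    ⟨fun u w => (m u w).toNat, fun u w => (Int.toNat_of_nonneg (hm0 u w)).symm⟩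
  have hmR : ∀ u w, (m u w : ℝ) = (m' u w : ℝ) := fun u w => by
    rw [hm' u w]
    push_cast
    rfl
  let K₁ : V → V → ℝ := fun u w => K u w - m' u w
  have hs0 := fun T T' h => hs 0 le_rfl hβ0.le T T' h
  simp only [zero_mul, add_zero] at hs0
  have hs1 : ∀ v, -1 ≤ s v := fun v => by
    have := hs0 ∅ {v} (disjoint_empty_left _)
    simp only [sum_empty, sum_singleton] at this
    linarith
  have hf : ∀ v, ∑ w, m' v w ≤ D v + 1 := by
    intro v
    have h1 : ((∑ w, m' v w : ℕ) : ℝ) ≤ D v + 1 := by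
      have h2 := hKD v
      have h3 := hs1 v
      have h4 : ((∑ w, m' v w : ℕ) : ℝ) ≤ ∑ w, K v w := by
        push_cast
        refine Finset.sum_le_sum fun w _ => ?_
        rw [← hmR]
        exact hmK v w
      linarith
    exact_mod_cast h1
  let f₂ : V → ℕ := fun v => ∑ w, m' v w
  have hf₂ : ∀ v, ∑ w, (m' v w : ℝ) = f₂ v := fun v => by
    simp only [f₂]
    push_cast
    rfl
  have hf₁ : ∀ v, ∑ w, K₁ v w + 1 + s v = ((D v + 1 - f₂ v : ℕ) : ℝ) := fun v => by
    simp only [K₁]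
    have h1 := hKD v
    have h2 := hf v
    rw [Finset.sum_sub_distrib, hf₂ v, Nat.cast_sub (by simpa only [f₂] using h2)]
    push_cast
    linarith
  -- the two stages
  have hK₂c : ∀ u w, G.Adj u w → (m' u w : ℝ) + 2 / d < (a₂ u w : ℝ) / ((d : ℝ) - 1) := by
    intro u w h
    rw [← hmR]
    have := hmc u w h
    simp only [c₂] at this
    linarith
  have hK₁c : ∀ u w, G.Adj u w → K₁ u w + 2 / d < (a₁ u w : ℝ) / ((d : ℝ) - 1) := by
    intro u w h
    simp only [K₁]
    rw [← hmR]
    have := hmc₁ u w h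
    simp only [c₁] at this
    linarith
  have hK₂0 : ∀ u w, (0 : ℝ) ≤ (m' u w : ℝ) := fun u w => Nat.cast_nonneg _
  have hK₂s : ∀ u w, (m' u w : ℝ) = m' w u := fun u w => by
    rw [← hmR, ← hmR, hms]
  have hK₂G : ∀ u w, ¬ G.Adj u w → (m' u w : ℝ) = 0 := fun u w h => by
    rw [← hmR]
    simp only [m, if_neg h]
    simp
  have hK₁0 : ∀ u w, 0 ≤ K₁ u w := fun u w => by
    simp only [K₁]
    rw [← hmR]
    exact sub_nonneg.2 (hmK u w)
  have hK₁s : ∀ u w, K₁ u w = K₁ w u := fun u w => by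
    simp only [K₁]
    rw [hK₂s u w, hKs u w]
  have hK₁G : ∀ u w, ¬ G.Adj u w → K₁ u w = 0 := fun u w h => by
    simp only [K₁]
    rw [hK₂G u w h, hKG u w h, sub_zero]
  have hev₂ : Even (∑ v, (f₂ v + 1)) := by
    rw [Finset.sum_add_distrib, Finset.sum_const, Finset.card_univ, smul_eq_mul, mul_one]
    refine Even.add ?_ hn
    refine even_sym_sum m' (fun u w => ?_) fun v => ?_
    · have h1 := hms u w
      rw [hm' u w, hm' w u] at h1
      exact_mod_cast h1
    · have h1 : m v v = 0 := by simp only [m, if_neg (G.loopless.irrefl v)]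
      rw [hm' v v] at h1
      exact_mod_cast h1
  have h12 : ∀ v, (D v + 1 - f₂ v) + (f₂ v + 1) = D v + 2 := fun v => by
    have := hf v
    simp only [f₂]
    omega
  have hev₁ : Even (∑ v, (D v + 1 - f₂ v)) := by
    have h1 : ∑ v, (D v + 1 - f₂ v) + ∑ v, (f₂ v + 1) = ∑ v, D v + 2 * Fintype.card V := by
      rw [← Finset.sum_add_distrib, Finset.sum_congr rfl fun v _ => h12 v, Finset.sum_add_distrib,
        Finset.sum_const, Finset.card_univ, smul_eq_mul]
      ring
    rw [Nat.even_iff] at hev₂ heven ⊢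
    omega
  -- the additional kills
  set β : ℝ := 1 / ((d : ℝ) - 1) with hβ
  have hβ2 : β ≤ 1 / 2 := by
    rw [hβ]
    apply one_div_le_one_div_of_le two_pos
    have : (3 : ℝ) ≤ d := by exact_mod_cast hd3
    linarith
  let t₁ : ℝ := min β (K₁ α₁ γ₁)
  let t₂ : ℝ := min β (m' α₂ γ₂)
  have ht₁0 : 0 ≤ t₁ := le_min hβ0.le (hK₁0 _ _)
  have ht₂0 : 0 ≤ t₂ := le_min hβ0.le (Nat.cast_nonneg _)
  have ht₁β : t₁ ≤ β := min_le_left _ _
  have ht₂β : t₂ ≤ β := min_le_left _ _
  have hval₁ : ∀ u w, s(u, w) = s(α₁, γ₁) → K₁ u w = K₁ α₁ γ₁ := by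
    intro u w h
    rw [Sym2.eq_iff] at h
    rcases h with ⟨rfl, rfl⟩ | ⟨rfl, rfl⟩
    · rfl
    · exact hK₁s _ _
  have hval₂ : ∀ u w, s(u, w) = s(α₂, γ₂) → (m' u w : ℝ) = m' α₂ γ₂ := by
    intro u w h
    rw [Sym2.eq_iff] at h
    rcases h with ⟨rfl, rfl⟩ | ⟨rfl, rfl⟩
    · rfl
    · exact hK₂s _ _
  have hswap : ∀ u w : V, s(w, u) = s(u, w) := fun u w => Sym2.eq_swap
  refine gen_finish_K P hP hd2 hd hcut (fun v => D v + 1 - f₂ v) (fun v => f₂ v + 1)
    (fun u w => (a₁ u w : ℝ) - if s(u, w) = s(α₁, γ₁) then 1 else 0)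
    (fun u w => (a₂ u w : ℝ) - if s(u, w) = s(α₂, γ₂) then 1 else 0) c
    ⟨hev₁, fun u w => K₁ u w - if s(u, w) = s(α₁, γ₁) then t₁ else 0,
      fun v => s v + t₁ * ((if v = α₁ then 1 else 0) + (if v = γ₁ then 1 else 0)),
      fun u w => ?_, fun u w => ?_, fun u w h => ?_, fun u w h => ?_, fun v => ?_,
      hs t₁ ht₁0 ht₁β⟩
    ⟨hev₂, fun u w => m' u w - if s(u, w) = s(α₂, γ₂) then t₂ else 0,
      fun v => t₂ * ((if v = α₂ then 1 else 0) + (if v = γ₂ then 1 else 0)),
      fun u w => ?_, fun u w => ?_, fun u w h => ?_, fun u w h => ?_, fun v => ?_,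
      fun T T' _ => ?_⟩
    (fun u w h => ?_) (fun u w h => ?_) (fun v => ?_)
  · simp only
    split_ifs with h1
    · rw [hval₁ u w h1]
      have : t₁ ≤ K₁ α₁ γ₁ := min_le_right _ _
      linarith
    · rw [sub_zero]
      exact hK₁0 u w
  · simp only
    rw [hK₁s u w, hswap w u]
  · simp only
    rw [hK₁G u w h]
    split_ifs with h1
    · have h2 : K₁ α₁ γ₁ = 0 := by rw [← hval₁ u w h1, hK₁G u w h]
      have : t₁ = 0 := by
        simp only [t₁, h2]
        exact min_eq_right hβ0.le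
      rw [this, sub_zero]
    · rw [sub_zero]
  · simp only
    have h0 := hK₁c u w h
    split_ifs with h1
    · rw [sub_div, ← hβ]
      have h2 := hval₁ u w h1
      rcases min_choice β (K₁ α₁ γ₁) with h3 | h3
      · have : t₁ = β := h3
        rw [this]
        linarith
      · have h4 : t₁ = K₁ α₁ γ₁ := h3
        rw [h4, h2, sub_self, zero_add]
        have h5 : ((d : ℝ) + 2) ≤ a₁ u w := by exact_mod_cast ha₁ u w h
        have h6 : ((d : ℝ) + 2) / ((d : ℝ) - 1) ≤ (a₁ u w : ℝ) / ((d : ℝ) - 1) :=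
          div_le_div_of_nonneg_right h5 hd1.le
        have h7 : ((d : ℝ) + 2) / ((d : ℝ) - 1) - β = ((d : ℝ) + 1) / ((d : ℝ) - 1) := by
          rw [hβ, ← sub_div]
          congr 1
          ring
        have h8 : (2 : ℝ) / d < ((d : ℝ) + 1) / ((d : ℝ) - 1) := by
          rw [div_lt_div_iff₀ hd0R hd1]
          nlinarith
        linarith
    · rw [sub_zero, sub_zero]
      exact h0
  · simp only
    rw [Finset.sum_sub_distrib, sum_edge hαγ₁]
    have := hf₁ v
    linarith
  · simp only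
    split_ifs with h1
    · rw [hval₂ u w h1]
      have : t₂ ≤ m' α₂ γ₂ := min_le_right _ _
      linarith
    · rw [sub_zero]
      exact hK₂0 u w
  · simp only
    rw [hK₂s u w, hswap w u]
  · simp only
    rw [hK₂G u w h]
    split_ifs with h1
    · have h2 : (m' α₂ γ₂ : ℝ) = 0 := by rw [← hval₂ u w h1, hK₂G u w h]
      have : t₂ = 0 := by
        simp only [t₂, h2]
        exact min_eq_right hβ0.le
      rw [this, sub_zero]
    · rw [sub_zero]
  · simp only
    have h0 := hK₂c u w h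
    split_ifs with h1
    · rw [sub_div, ← hβ]
      have h2 := hval₂ u w h1
      rcases min_choice β (m' α₂ γ₂ : ℝ) with h3 | h3
      · have : t₂ = β := h3
        rw [this]
        linarith
      · have h4 : t₂ = m' α₂ γ₂ := h3
        rw [h4, h2, sub_self, zero_add]
        have h5 : (3 : ℝ) ≤ a₂ u w := by exact_mod_cast ha₂ u w h
        have h6 : (3 : ℝ) / ((d : ℝ) - 1) ≤ (a₂ u w : ℝ) / ((d : ℝ) - 1) :=
          div_le_div_of_nonneg_right h5 hd1.le
        have h7 : (3 : ℝ) / ((d : ℝ) - 1) - β = 2 / ((d : ℝ) - 1) := by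
          rw [hβ, ← sub_div]
          norm_num
        have h8 : (2 : ℝ) / d < 2 / ((d : ℝ) - 1) := by
          apply div_lt_div_of_pos_left two_pos hd1
          linarith
        linarith
    · rw [sub_zero, sub_zero]
      exact h0
  · simp only
    rw [Finset.sum_sub_distrib, sum_edge hαγ₂, hf₂ v]
    push_cast
    ring
  · rw [← Finset.mul_sum, ← Finset.mul_sum]
    have h1 : ∑ v ∈ T, ((if v = α₂ then 1 else 0) + (if v = γ₂ then 1 else 0) : ℝ) ≤ 2 := by
      rw [Finset.sum_add_distrib, Finset.sum_ite_eq', Finset.sum_ite_eq']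
      split_ifs <;> norm_num
    have h2 : 0 ≤ ∑ v ∈ T', ((if v = α₂ then 1 else 0) + (if v = γ₂ then 1 else 0) : ℝ) := by
      refine Finset.sum_nonneg fun v _ => ?_
      split_ifs <;> norm_num
    nlinarith
  · have h1 : ((a₁ u w + 2 + outKill P u w + outKill P w u : ℕ) : ℝ) ≤
        ((Fintype.card V + if s(u, w) = s(α₁, γ₁) then 1 else 0 : ℕ) : ℝ) := by
      exact_mod_cast hout u w h
    push_cast at h1
    linarith
  · have h1 : ((a₂ u w + 4 + inKill P u w + inKill P w u : ℕ) : ℝ) ≤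
        ((Fintype.card V + if s(u, w) = s(α₂, γ₂) then 1 else 0 : ℕ) : ℝ) := by
      exact_mod_cast hin u w h
    push_cast at h1
    linarith
  · have h1 := h12 v
    have h2 := hc v
    omega

/-! ### real weights -/

lemma exists_delta {ι : Type*} [Finite ι] (f : ι → ℝ) (h : ∀ i, 0 < f i) :
    ∃ δ > 0, ∀ i, δ ≤ f i := by
  rcases isEmpty_or_nonempty ι with h0 | h0
  · exact ⟨1, one_pos, fun i => h0.elim i⟩
  · obtain ⟨i, hi⟩ := Finite.exists_min f
    exact ⟨f i, h i, hi⟩

omit [DecidableEq V] in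
/-- real weights strictly inside the capacities -/
theorem solveK [DecidableRel G.Adj] (cap : V → V → ℝ) (hcs : ∀ a b, cap a b = cap b a)
    (hc0 : ∀ a b, G.Adj a b → 0 < cap a b) (D : V → ℝ)
    (h : ∀ y : V → SignType, y ≠ 0 → 2 * ∑ v, (y v : ℝ) * D v <
      ∑ p : V × V, if G.Adj p.1 p.2 then cap p.1 p.2 * max ((y p.1 : ℝ) + y p.2) 0 else 0) :
    ∃ K : V → V → ℝ, (∀ a b, 0 ≤ K a b) ∧ (∀ a b, K a b = K b a) ∧
      (∀ a b, ¬ G.Adj a b → K a b = 0) ∧ (∀ a b, G.Adj a b → K a b < cap a b) ∧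
      ∀ v, ∑ w, K v w = D v := by
  classical
  obtain ⟨δ₁, hδ₁, h1⟩ := exists_delta (fun y : V → SignType => if y = 0 then 1 else
    (∑ p : V × V, if G.Adj p.1 p.2 then cap p.1 p.2 * max ((y p.1 : ℝ) + y p.2) 0 else 0) -
      2 * ∑ v, (y v : ℝ) * D v) (fun y => by
        split_ifs with hy
        · exact one_pos
        · exact sub_pos.2 (h y hy))
  obtain ⟨δ₂, hδ₂, h2⟩ := exists_delta (fun p : V × V => if G.Adj p.1 p.2 then cap p.1 p.2 else 1)
    (fun p => by
      split_ifs with hp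
      · exact hc0 _ _ hp
      · exact one_pos)
  set N : ℝ := ((Fintype.card (V × V) : ℕ) : ℝ) with hN
  have hN0 : 0 ≤ N := Nat.cast_nonneg _
  set ε : ℝ := min δ₁ δ₂ / (2 * N + 2) with hε
  have hmin : 0 < min δ₁ δ₂ := lt_min hδ₁ hδ₂
  have hε0 : 0 < ε := by positivity
  have hεN : ε * (2 * N + 2) = min δ₁ δ₂ := by
    rw [hε]
    field_simp
  have hε1 : ε * (2 * N) ≤ δ₁ := by
    have := min_le_left δ₁ δ₂
    nlinarith
  have hε2 : ε < δ₂ := by
    have := min_le_right δ₁ δ₂
    nlinarith [mul_nonneg hε0.le hN0]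
  let capS : Sym2 V → ℝ := Sym2.lift ⟨fun a b => if G.Adj a b then cap a b - ε else 0, fun a b => by
    simp only [G.adj_comm a b, hcs a b]⟩
  have hcapS : ∀ a b, capS s(a, b) = if G.Adj a b then cap a b - ε else 0 := fun a b => rfl
  obtain ⟨K, hK, hKD⟩ := realK capS (by
      intro e
      induction e with
      | h a b =>
        rw [hcapS]
        split_ifs with hab
        · have := h2 (a, b)
          simp only [hab, if_true] at this
          linarith
        · exact le_rfl) (fun v => by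
      rw [hcapS, if_neg (G.loopless.irrefl v)]) D (by
      intro y hy
      let y' : V → SignType := fun v => SignType.sign (y v)
      have hy' : ∀ v, ((y' v : SignType) : ℝ) = y v := by
        intro v
        simp only [y']
        rcases hy v with h3 | h3 | h3
        · rw [h3, sign_neg (by norm_num)]; simp
        · rw [h3, sign_zero]; simp
        · rw [h3, sign_pos (by norm_num)]; simp
      by_cases h0 : y' = 0
      · have hy0 : ∀ v, y v = 0 := fun v => by
          rw [← hy' v, h0]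
          simp
        simp [hy0]
      · have h3 := h1 y'
        simp only [h0, if_false, hy'] at h3
        have h4 : (∑ p : V × V, if G.Adj p.1 p.2 then cap p.1 p.2 * max (y p.1 + y p.2) 0 else 0) -
            ∑ p : V × V, capS s(p.1, p.2) * max (y p.1 + y p.2) 0 ≤ ε * (2 * N) := by
          rw [← Finset.sum_sub_distrib]
          have h5 : ∀ p : V × V, ((if G.Adj p.1 p.2 then cap p.1 p.2 * max (y p.1 + y p.2) 0 else 0) -
              capS s(p.1, p.2) * max (y p.1 + y p.2) 0) ≤ ε * 2 := by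
            intro p
            rw [hcapS]
            split_ifs with h6
            · have h7 : max (y p.1 + y p.2) 0 ≤ 2 := by
                apply max_le _ (by norm_num)
                rcases hy p.1 with h8 | h8 | h8 <;> rcases hy p.2 with h9 | h9 | h9 <;>
                  rw [h8, h9] <;> norm_num
              have h8 : 0 ≤ max (y p.1 + y p.2) 0 := le_max_right _ _
              nlinarith
            · simp only [zero_mul, sub_zero]
              positivity
          refine (Finset.sum_le_sum fun p _ => h5 p).trans ?_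
          rw [Finset.sum_const, Finset.card_univ, nsmul_eq_mul]
          apply le_of_eq
          rw [← hN]
          ring
        linarith)
  have hdiag : ∀ v, K s(v, v) = 0 := fun v => by
    have h3 := hK s(v, v)
    rw [hcapS, if_neg (G.loopless.irrefl v)] at h3
    exact le_antisymm h3.2 h3.1
  refine ⟨fun a b => K s(a, b), fun a b => (hK _).1, fun a b => by
    simp only [Sym2.eq_swap], fun a b hab => ?_, fun a b hab => ?_, fun v => ?_⟩
  · have h3 := hK s(a, b)
    rw [hcapS, if_neg hab] at h3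
    exact le_antisymm h3.2 h3.1
  · have h3 := (hK s(a, b)).2
    rw [hcapS, if_pos hab] at h3
    exact h3.trans_lt (by linarith)
  · rw [← degE_eq K hdiag v]
    exact hKD v

/-! ### the gadget -/

/-- weight `1/2` on the inner edges of `Q` -/
noncomputable def hh {u w : V} (Q : G.Walk u w) (a b : V) : ℝ :=
  ∑ i ∈ Finset.Ico 1 (Q.length - 1),
    if s(a, b) = s(Q.getVert i, Q.getVert (i + 1)) then 1 / 2 else 0

omit [Fintype V] in
lemma hh_symm {u w : V} (Q : G.Walk u w) (a b : V) : hh Q a b = hh Q b a := by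
  unfold hh
  simp only [Sym2.eq_swap (a := a) (b := b)]

omit [Fintype V] in
lemma hh_nonneg {u w : V} (Q : G.Walk u w) (a b : V) : 0 ≤ hh Q a b := by
  unfold hh
  refine Finset.sum_nonneg fun i _ => ?_
  split_ifs <;> norm_num

omit [Fintype V] in
lemma hh_two {u w : V} (Q : G.Walk u w) (h : Q.length = 2) (a b : V) : hh Q a b = 0 := by
  unfold hh
  rw [h]
  simp

omit [Fintype V] in
lemma hh_adj {u w : V} (Q : G.Walk u w) {a b : V} (h : ¬ G.Adj a b) : hh Q a b = 0 := by
  unfold hh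
  refine Finset.sum_eq_zero fun i hi => ?_
  rw [if_neg]
  intro h1
  apply h
  have h2 : G.Adj (Q.getVert i) (Q.getVert (i + 1)) :=
    Q.adj_getVert_succ (by have := Finset.mem_Ico.1 hi; omega)
  rw [← SimpleGraph.mem_edgeSet, h1, SimpleGraph.mem_edgeSet]
  exact h2

omit [Fintype V] [DecidableEq V] in
lemma gv_inj {u w : V} {Q : G.Walk u w} (hQ : Q.IsPath) {i j : ℕ} (hi : i ≤ Q.length)
    (hj : j ≤ Q.length) (h : Q.getVert i = Q.getVert j) : i = j :=
  hQ.getVert_injOn hi hj h

omit [Fintype V] [DecidableEq V] in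
lemma edge_inj {u w : V} {Q : G.Walk u w} (hQ : Q.IsPath) {i j : ℕ} (hi : i < Q.length)
    (hj : j < Q.length)
    (h : s(Q.getVert i, Q.getVert (i + 1)) = s(Q.getVert j, Q.getVert (j + 1))) : i = j := by
  rw [Sym2.eq_iff] at h
  rcases h with ⟨h1, _⟩ | ⟨h1, h2⟩
  · exact gv_inj hQ (by omega) (by omega) h1
  · have h3 := gv_inj hQ (by omega) (by omega) h1
    have h4 := gv_inj hQ (by omega) (by omega) h2
    omega

omit [Fintype V] in
lemma hh_le {u w : V} {Q : G.Walk u w} (hQ : Q.IsPath) (a b : V) : hh Q a b ≤ 1 / 2 := by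
  unfold hh
  rw [← Finset.sum_filter, Finset.sum_const, nsmul_eq_mul]
  have : ((Finset.Ico 1 (Q.length - 1)).filter fun i =>
      s(a, b) = s(Q.getVert i, Q.getVert (i + 1))).card ≤ 1 := by
    rw [Finset.card_le_one]
    intro i hi j hj
    rw [Finset.mem_filter, Finset.mem_Ico] at hi hj
    exact edge_inj hQ (by omega) (by omega) (hi.2.symm.trans hj.2)
  have h1 : ((((Finset.Ico 1 (Q.length - 1)).filter fun i =>
      s(a, b) = s(Q.getVert i, Q.getVert (i + 1))).card : ℕ) : ℝ) ≤ 1 := by exact_mod_cast this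
  linarith

/-- the defect of the gadget -/
lemma hh_sum {u w : V} {Q : G.Walk u w} (h2 : 2 ≤ Q.length) (v : V) :
    ∑ b, hh Q v b - ∑ j ∈ Finset.Ico 1 Q.length, (if v = Q.getVert j then (1 : ℝ) else 0) =
      - (1 / 2) * (if v = Q.getVert 1 then 1 else 0) -
        1 / 2 * (if v = Q.getVert (Q.length - 1) then 1 else 0) := by
  have e1 : ∑ b, hh Q v b = ∑ i ∈ Finset.Ico 1 (Q.length - 1), 1 / 2 *
      ((if v = Q.getVert i then 1 else 0) + (if v = Q.getVert (i + 1) then 1 else 0)) := by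
    unfold hh
    rw [Finset.sum_comm]
    refine Finset.sum_congr rfl fun i hi => ?_
    have h3 : G.Adj (Q.getVert i) (Q.getVert (i + 1)) :=
      Q.adj_getVert_succ (by have := Finset.mem_Ico.1 hi; omega)
    exact sum_edge h3.ne _ v
  obtain ⟨L, hL⟩ : ∃ L, Q.length = L + 2 := ⟨Q.length - 2, by omega⟩
  rw [e1, hL]
  have h4 : L + 2 - 1 = L + 1 := by omega
  rw [h4, ← Finset.mul_sum, Finset.sum_add_distrib]
  have h5 : ∑ j ∈ Finset.Ico 1 (L + 2), (if v = Q.getVert j then (1 : ℝ) else 0) =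
      ∑ j ∈ Finset.Ico 1 (L + 1), (if v = Q.getVert j then (1 : ℝ) else 0) +
        (if v = Q.getVert (L + 1) then 1 else 0) :=
    Finset.sum_Ico_succ_top (by omega) _
  have h6 : ∑ j ∈ Finset.Ico 1 (L + 2), (if v = Q.getVert j then (1 : ℝ) else 0) =
      (if v = Q.getVert 1 then 1 else 0) +
      ∑ j ∈ Finset.Ico 1 (L + 1), (if v = Q.getVert (j + 1) then (1 : ℝ) else 0) := by
    rw [Finset.sum_eq_sum_Ico_succ_bot (by omega : 1 < L + 2)]
    congr 1
    rw [Finset.sum_Ico_add' (fun j => if v = Q.getVert j then (1 : ℝ) else 0) 1 (L + 1) 1]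
  linarith

omit [Fintype V] in
lemma supp_sum {u w : V} {Q : G.Walk u w} (hQ : Q.IsPath) (h1 : 1 ≤ Q.length) (v : V) :
    (if v ∈ Q.support then 1 else 0) = (if v = u ∨ v = w then 1 else 0) +
      ∑ j ∈ Finset.Ico 1 Q.length, (if v = Q.getVert j then 1 else 0) := by
  by_cases hv : v ∈ Q.support
  · obtain ⟨i, hi, hiL⟩ := (SimpleGraph.Walk.mem_support_iff_exists_getVert).1 hv
    rw [if_pos hv]
    by_cases h3 : v = u ∨ v = w
    · have h5 : ∑ j ∈ Finset.Ico 1 Q.length, (if v = Q.getVert j then 1 else 0) = 0 := by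
        refine Finset.sum_eq_zero fun j hj => ?_
        rw [Finset.mem_Ico] at hj
        rw [if_neg]
        intro h4
        rcases h3 with h3 | h3
        · have := (hQ.getVert_eq_start_iff (by omega : j ≤ Q.length)).1 (h4.symm.trans h3)
          omega
        · have := (hQ.getVert_eq_end_iff (by omega : j ≤ Q.length)).1 (h4.symm.trans h3)
          omega
      rw [if_pos h3, h5]
    · have h5 : ∑ j ∈ Finset.Ico 1 Q.length, (if v = Q.getVert j then 1 else 0) = 1 := by
        rw [Finset.sum_eq_single i]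
        · rw [if_pos hi.symm]
        · intro j hj hji
          rw [Finset.mem_Ico] at hj
          rw [if_neg]
          intro h4
          exact hji (gv_inj hQ (by omega) hiL (h4.symm.trans hi.symm))
        · intro h4
          exfalso
          apply h4
          rw [Finset.mem_Ico]
          refine ⟨?_, ?_⟩
          · by_contra h5
            have : i = 0 := by omega
            rw [this, SimpleGraph.Walk.getVert_zero] at hi
            exact h3 (Or.inl hi.symm)
          · by_contra h5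
            have : i = Q.length := by omega
            rw [this, SimpleGraph.Walk.getVert_length] at hi
            exact h3 (Or.inr hi.symm)
      rw [if_neg h3, h5]
  · have h5 : ∑ j ∈ Finset.Ico 1 Q.length, (if v = Q.getVert j then 1 else 0) = 0 := by
      refine Finset.sum_eq_zero fun j _ => ?_
      rw [if_neg]
      intro h6
      exact hv (h6 ▸ Q.getVert_mem_support j)
    have h6 : ¬ (v = u ∨ v = w) := by
      rintro (h6 | h6)
      · exact hv (h6 ▸ Q.start_mem_support)
      · exact hv (h6 ▸ Q.end_mem_support)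
    rw [if_neg hv, if_neg h6, h5]

end PM

end Pool.Agent.UPS2
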