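import Pool.Agent.Lib.MP_876e19_co_ups.DoubleCover

/-!
# Uniform path systems: restricted connectivity for signed cuts
-/

set_option autoImplicit false

namespace Pool.Agent.UPS2

open Finset EC

open scoped Classical

variable {V : Type*} [Fintype V] {G : SimpleGraph V}

/-- integral version: if `y` has at least two non-zero entries, the signed cut is `≥ 2 d - 2`
(the sum over ordered adjacent pairs is twice the sum over edges) -/
theorem L1_supp_two (hc : G.Connected) (hodd : OddW G) (hvt : VT G) {d : ℕ}
    (hd : ∀ v, dg G v = d) (y : V → ℤ) (hy : ∀ v, y v = -1 ∨ y v = 0 ∨ y v = 1)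
    (h2 : ∃ u w, u ≠ w ∧ y u ≠ 0 ∧ y w ≠ 0) :
    2 * (2 * (d : ℤ) - 2) ≤ L1 G y := by
  have hDc := DC_connected hc hodd
  have hDv := DC_VT hvt
  have hDd : ∀ v, dg (DC G) v = d := fun v => by
    obtain ⟨v, s⟩ := v; rw [DC_dg]; exact hd v
  rw [L1_eq y hy]
  have key : 2 * (d : ℤ) - 2 ≤ (cut (DC G) (SY y) : ℤ) := by
    by_cases hE : HasEdge (DC G) (SY y)
    · have hE' : ∃ a b, a ∉ SY y ∧ b ∉ SY y ∧ (DC G).Adj a b := by
        obtain ⟨⟨u, s⟩, hu, ⟨w, t⟩, hw, huw, hst⟩ := hE
        have hmir : ∀ (v : V) (r : Bool), (v, r) ∈ SY y → (v, !r) ∉ SY y := by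
          intro v r h h'
          cases r
          · rw [mem_SY_false] at h
            rw [Bool.not_false, mem_SY_true] at h'
            omega
          · rw [mem_SY_true] at h
            rw [Bool.not_true, mem_SY_false] at h'
            omega
        exact ⟨(u, !s), (w, !t), hmir u s hu, hmir w t hw, huw, fun h => hst (by
          change (!s) = (!t) at h
          change s = t
          cases s <;> cases t <;> simp_all)⟩
      have := edge_conn_out hDc hDv hDd DC_tri hE hE'
      have h2 : (2 * (d : ℤ)) ≤ (cut (DC G) (SY y) : ℤ) + 2 := by exact_mod_cast this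
      linarith
    · have hcut := cut_indep hDd hE
      have hcard : 2 ≤ (SY y).card := by
        obtain ⟨u, w, huw, hu, hw⟩ := h2
        have hm : ∀ v, y v ≠ 0 → ∃ s, (v, s) ∈ SY y := by
          intro v hv
          rcases hy v with h | h | h
          · exact ⟨false, (mem_SY_false y v).2 h⟩
          · exact absurd h hv
          · exact ⟨true, (mem_SY_true y v).2 h⟩
        obtain ⟨s, hs⟩ := hm u hu
        obtain ⟨t, ht⟩ := hm w hw
        have : ({(u, s), (w, t)} : Finset (V × Bool)) ⊆ SY y := by
          intro q hq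
          rw [mem_insert, mem_singleton] at hq
          rcases hq with rfl | rfl
          · exact hs
          · exact ht
        have h3 := card_le_card this
        rw [card_pair (fun h => huw (congrArg Prod.fst h))] at h3
        exact h3
      have h3 : 2 * d ≤ cut (DC G) (SY y) := by
        rw [hcut]; exact Nat.mul_le_mul_right d hcard
      have h4 : (2 * (d : ℤ)) ≤ (cut (DC G) (SY y) : ℤ) := by exact_mod_cast h3
      linarith
  linarith

/-- signed version, real sums over ordered adjacent pairs -/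
theorem sign_supp_two (hc : G.Connected) (hodd : OddW G) (hvt : VT G) {d : ℕ}
    (hd : ∀ v, dg G v = d) (y : V → SignType) (h2 : ∃ u w, u ≠ w ∧ y u ≠ 0 ∧ y w ≠ 0) :
    2 * (2 * (d : ℝ) - 2) ≤
      ∑ p : V × V, if G.Adj p.1 p.2 then |((y p.1 : SignType) : ℝ) + ((y p.2 : SignType) : ℝ)|
        else 0 := by
  have hyy : ∀ v, ((y v : SignType) : ℤ) = -1 ∨ ((y v : SignType) : ℤ) = 0 ∨
      ((y v : SignType) : ℤ) = 1 := by
    intro v
    cases y v
    · exact Or.inr (Or.inl rfl)
    · exact Or.inl rfl
    · exact Or.inr (Or.inr rfl)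
  have hne : ∀ v, y v ≠ 0 → ((y v : SignType) : ℤ) ≠ 0 := by
    intro v
    cases y v
    · intro h; exact absurd rfl h
    · intro _; decide
    · intro _; decide
  have h := L1_supp_two hc hodd hvt hd (fun v => ((y v : SignType) : ℤ)) hyy (by
    obtain ⟨u, w, huw, hu, hw⟩ := h2
    exact ⟨u, w, huw, hne u hu, hne w hw⟩)
  have h3 : ((L1 G (fun v => ((y v : SignType) : ℤ)) : ℤ) : ℝ) =
      ∑ p : V × V, if G.Adj p.1 p.2 then |((y p.1 : SignType) : ℝ) + ((y p.2 : SignType) : ℝ)|
        else 0 := by
    unfold L1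
    push_cast
    refine sum_congr rfl fun p _ => ?_
    by_cases h : G.Adj p.1 p.2
    · simp only [h, if_true]
    · simp [h]
  rw [← h3]
  have h4 : ((2 * (2 * (d : ℤ) - 2) : ℤ) : ℝ) ≤ ((L1 G (fun v => ((y v : SignType) : ℤ)) : ℤ) : ℝ) :=
    Int.cast_le.2 h
  push_cast at h4 ⊢
  linarith

/-- one non-zero entry: the sum over ordered adjacent pairs is `2 d` (no transitivity) -/
theorem sign_supp_one {d : ℕ} (hd : ∀ v, dg G v = d) (y : V → SignType) (v : V) (hv : y v ≠ 0)
    (h1 : ∀ w, w ≠ v → y w = 0) :
    ∑ p : V × V, (if G.Adj p.1 p.2 then |((y p.1 : SignType) : ℝ) + ((y p.2 : SignType) : ℝ)|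
      else 0) = 2 * (d : ℝ) := by
  classical
  have habs : |((y v : SignType) : ℝ)| = 1 := by
    revert hv
    cases y v <;> simp
  have hdv : ∑ w : V, (if G.Adj v w then (1 : ℝ) else 0) = d := by
    rw [← hd v]
    unfold dg
    push_cast
    rfl
  have e1 : ∀ a : V, ∑ b : V, (if G.Adj a b then
      |((y a : SignType) : ℝ) + ((y b : SignType) : ℝ)| else 0) =
      if a = v then (d : ℝ) else if G.Adj v a then 1 else 0 := by
    intro a
    by_cases ha : a = v
    · rw [if_pos ha, ha, ← hdv]
      refine sum_congr rfl fun b _ => ?_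
      by_cases hb : G.Adj v b
      · rw [if_pos hb, if_pos hb, h1 b hb.ne.symm]
        simpa using habs
      · rw [if_neg hb, if_neg hb]
    · rw [if_neg ha, h1 a ha]
      rw [sum_eq_single v]
      · by_cases hb : G.Adj a v
        · rw [if_pos hb, if_pos hb.symm]
          simpa using habs
        · rw [if_neg hb, if_neg fun h => hb h.symm]
      · intro b _ hb
        rw [h1 b hb]
        simp
      · intro h; exact absurd (mem_univ _) h
  rw [Fintype.sum_prod_type]
  simp only [e1]
  rw [← add_sum_erase univ _ (mem_univ v), if_pos rfl]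
  have e2 : ∑ a ∈ univ.erase v, (if a = v then (d : ℝ) else if G.Adj v a then 1 else 0) =
      ∑ a ∈ univ.erase v, (if G.Adj v a then (1 : ℝ) else 0) := by
    refine sum_congr rfl fun a ha => ?_
    rw [if_neg (mem_erase.1 ha).1]
  have e3 : ∑ a ∈ univ.erase v, (if G.Adj v a then (1 : ℝ) else 0) = d := by
    rw [← hdv, ← add_sum_erase univ (fun a => if G.Adj v a then (1 : ℝ) else 0) (mem_univ v)]
    simp
  rw [e2, e3]
  ring

/-- unsigned version: no triangle, `S` and its complement have at least two vertices -/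
theorem cut_two_sides (hc : G.Connected) (hvt : VT G) {d : ℕ} (hd : ∀ v, dg G v = d)
    (htri : ∀ a b c, G.Adj a b → G.Adj b c → G.Adj a c → False) {S : Finset V}
    (h0 : 2 ≤ S.card) (h1 : 2 ≤ Sᶜ.card) : 2 * d ≤ cut G S + 2 := by
  by_cases hE : HasEdge G S
  · by_cases hE' : HasEdge G Sᶜ
    · exact edge_conn' hc hvt hd htri hE hE'
    · have := cut_indep hd hE'
      rw [cut_compl] at this
      rw [this]
      nlinarith
  · have := cut_indep hd hE
    rw [this]
    nlinarith

end Pool.Agent.UPS2
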