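import Pool.Agent.Lib.MP_876e19_co_ups.HybridTutte

/-!
# Rows

`X` a finite set of rows, for every row `x` a graph `A x` on `V`.  We look for permutations `σ x` of
`V`, one for every row, which move every vertex along an edge of `A x` or fix it, such that every
vertex `v` is moved in exactly `D v` rows.  `rows`: it is enough to have real weights.
-/

set_option autoImplicit false

open Finset

namespace Pool.Agent.HTutte

/-- Tutte's condition from a fractional perfect matching. -/
theorem family_le {N : Type*} [Fintype N] [DecidableEq N] (H : SimpleGraph N) (Y : N → N → ℝ)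
    (h0 : ∀ i j, 0 ≤ Y i j) (hs : ∀ i j, Y i j = Y j i) (hadj : ∀ i j, ¬ H.Adj i j → Y i j = 0)
    (h1 : ∀ i, ∑ j, Y i j = 1) (S : Finset N) (F : Finset (Finset N)) (hF : F ⊆ cc H Sᶜ)
    (hcost : ∀ C ∈ F, 1 ≤ ∑ i ∈ C, ∑ j ∈ Cᶜ, Y i j) : F.card ≤ S.card := by
  have hC : ∀ C ∈ F, ∑ i ∈ C, ∑ j ∈ Cᶜ, Y i j ≤ ∑ i ∈ C, ∑ j ∈ S, Y i j := by
    intro C hC
    refine Finset.sum_le_sum fun i hi => ?_
    have hsub : S ⊆ Cᶜ := by
      intro j hj
      rw [Finset.mem_compl]
      intro hjC
      have := cc_sub (hF hC) hjC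
      rw [Finset.mem_compl] at this
      exact this hj
    rw [← Finset.sum_subset hsub]
    intro j hj hjS
    by_contra hne
    have ha : H.Adj i j := by
      by_contra h
      exact hne (hadj i j h)
    rw [Finset.mem_compl] at hj
    exact hj (cc_closed (hF hC) i hi j (Finset.mem_compl.2 hjS) ha)
  have hd : (F : Set (Finset N)).PairwiseDisjoint id := by
    intro C hC D hD hCD
    exact cc_disj (hF hC) (hF hD) hCD
  have : (F.card : ℝ) ≤ S.card := by
    calc (F.card : ℝ) = ∑ C ∈ F, (1 : ℝ) := by simp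
      _ ≤ ∑ C ∈ F, ∑ i ∈ C, ∑ j ∈ S, Y i j :=
        Finset.sum_le_sum fun C hCF => (hcost C hCF).trans (hC C hCF)
      _ = ∑ i ∈ F.biUnion id, ∑ j ∈ S, Y i j := by
        rw [Finset.sum_biUnion hd]
        rfl
      _ ≤ ∑ i, ∑ j ∈ S, Y i j :=
        Finset.sum_le_sum_of_subset_of_nonneg (Finset.subset_univ _) fun i _ _ =>
          Finset.sum_nonneg fun j _ => h0 i j
      _ = ∑ j ∈ S, ∑ i, Y i j := Finset.sum_comm
      _ = ∑ j ∈ S, (1 : ℝ) := by
        refine Finset.sum_congr rfl fun j _ => ?_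
        rw [← h1 j]
        exact Finset.sum_congr rfl fun i _ => hs i j
      _ = S.card := by simp
  exact_mod_cast this

variable {X V : Type*} [Fintype X] [DecidableEq X] [Fintype V] [DecidableEq V]

/-- The nodes: row nodes `(x, v)` and slack nodes `(v, j)`, `j < b v`. -/
abbrev Node (X : Type*) {V : Type*} (b : V → ℕ) : Type _ := (X × V) ⊕ (Σ v : V, Fin (b v))

/-- The graph `H`. -/
def HG (A : X → SimpleGraph V) (b : V → ℕ) : SimpleGraph (Node X b) where
  Adj i j := match i, j with
    | Sum.inl p, Sum.inl q => p.1 = q.1 ∧ (A p.1).Adj p.2 q.2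
    | Sum.inl p, Sum.inr s => p.2 = s.1
    | Sum.inr s, Sum.inl p => p.2 = s.1
    | Sum.inr _, Sum.inr _ => False
  symm := ⟨by
    rintro (⟨x, v⟩ | s) (⟨x', w⟩ | t) h
    · obtain ⟨h1, h2⟩ := h
      simp only at h1 h2
      subst h1
      exact ⟨rfl, h2.symm⟩
    · exact h
    · exact h
    · exact h⟩
  loopless := ⟨by
    rintro (⟨x, v⟩ | s) h
    · exact h.2.ne rfl
    · exact h⟩

/-- The weights on `H`. -/
noncomputable def YW (y : X → V → V → ℝ) (b : V → ℕ) (i j : Node X b) : ℝ :=
  match i, j with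
    | Sum.inl p, Sum.inl q => if p.1 = q.1 then y p.1 p.2 q.2 else 0
    | Sum.inl p, Sum.inr s => if p.2 = s.1 then (1 - ∑ w, y p.1 p.2 w) / b s.1 else 0
    | Sum.inr s, Sum.inl p => if p.2 = s.1 then (1 - ∑ w, y p.1 p.2 w) / b s.1 else 0
    | Sum.inr _, Sum.inr _ => 0

/-- cost of a set of nodes, split into row and slack parts -/
theorem cost_eq (y : X → V → V → ℝ) (b : V → ℕ) (C : Finset (Node X b)) (c : Node X b → ℝ)
    (hc : ∀ i, c i = if i ∈ C then 1 else 0) :
    ∑ i ∈ C, ∑ j ∈ Cᶜ, YW y b i j =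
      (∑ x, ∑ v, ∑ w, c (Sum.inl (x, v)) * (1 - c (Sum.inl (x, w))) * y x v w) +
      ∑ v, ∑ x, (1 - ∑ w, y x v w) / b v *
        (c (Sum.inl (x, v)) * (b v - ∑ j, c (Sum.inr ⟨v, j⟩)) +
          (1 - c (Sum.inl (x, v))) * ∑ j, c (Sum.inr ⟨v, j⟩)) := by
  classical
  have h1 : ∑ i ∈ C, ∑ j ∈ Cᶜ, YW y b i j = ∑ i, ∑ j, c i * (1 - c j) * YW y b i j := by
    rw [← Finset.sum_subset (Finset.subset_univ C)
      (f := fun i => ∑ j, c i * (1 - c j) * YW y b i j)]
    · refine Finset.sum_congr rfl fun i hi => ?_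
      rw [← Finset.sum_subset (Finset.subset_univ Cᶜ)
        (f := fun j => c i * (1 - c j) * YW y b i j)]
      · refine Finset.sum_congr rfl fun j hj => ?_
        rw [Finset.mem_compl] at hj
        rw [hc i, hc j, if_pos hi, if_neg hj]
        ring
      · intro j _ hj
        rw [Finset.mem_compl, not_not] at hj
        rw [hc j, if_pos hj]
        ring
    · intro i _ hi
      refine Finset.sum_eq_zero fun j _ => ?_
      rw [hc i, if_neg hi]
      ring
  rw [h1, Fintype.sum_sum_type]
  have h2 : ∀ p : X × V, ∑ j, c (Sum.inl p) * (1 - c j) * YW y b (Sum.inl p) j =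
      (∑ w, c (Sum.inl p) * (1 - c (Sum.inl (p.1, w))) * y p.1 p.2 w) +
      (1 - ∑ w, y p.1 p.2 w) / b p.2 * (c (Sum.inl p) * (b p.2 - ∑ j, c (Sum.inr ⟨p.2, j⟩))) := by
    intro p
    rw [Fintype.sum_sum_type]
    congr 1
    · rw [Fintype.sum_prod_type]
      rw [Finset.sum_eq_single p.1]
      · refine Finset.sum_congr rfl fun w _ => ?_
        simp [YW]
      · intro x _ hx
        refine Finset.sum_eq_zero fun w _ => ?_
        simp [YW, hx.symm]
      · intro h
        exact absurd (Finset.mem_univ _) h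
    · rw [Fintype.sum_sigma, Finset.sum_eq_single p.2]
      · have : ∀ j : Fin (b p.2), c (Sum.inl p) * (1 - c (Sum.inr ⟨p.2, j⟩)) *
            YW y b (Sum.inl p) (Sum.inr ⟨p.2, j⟩) =
            (1 - ∑ w, y p.1 p.2 w) / b p.2 * c (Sum.inl p) * (1 - c (Sum.inr ⟨p.2, j⟩)) := by
          intro j
          simp only [YW, if_true]
          ring
        rw [Finset.sum_congr rfl fun j _ => this j, ← Finset.mul_sum, Finset.sum_sub_distrib]
        simp only [Finset.sum_const, Finset.card_univ, Fintype.card_fin, nsmul_eq_mul, mul_one]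
        ring
      · intro v _ hv
        refine Finset.sum_eq_zero fun j _ => ?_
        simp [YW, hv.symm]
      · intro h
        exact absurd (Finset.mem_univ _) h
  have h3 : ∀ s : (Σ v : V, Fin (b v)), ∑ j, c (Sum.inr s) * (1 - c j) * YW y b (Sum.inr s) j =
      ∑ x, (1 - ∑ w, y x s.1 w) / b s.1 * ((1 - c (Sum.inl (x, s.1))) * c (Sum.inr s)) := by
    intro s
    rw [Fintype.sum_sum_type]
    have : ∑ t, c (Sum.inr s) * (1 - c (Sum.inr t)) * YW y b (Sum.inr s) (Sum.inr t) = 0 :=
      Finset.sum_eq_zero fun t _ => by simp [YW]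
    rw [this, add_zero, Fintype.sum_prod_type]
    refine Finset.sum_congr rfl fun x _ => ?_
    rw [Finset.sum_eq_single s.1]
    · simp only [YW, if_true]
      ring
    · intro v _ hv
      simp [YW, hv]
    · intro h
      exact absurd (Finset.mem_univ _) h
  rw [Finset.sum_congr rfl fun p _ => h2 p, Finset.sum_congr rfl fun s _ => h3 s,
    Finset.sum_add_distrib, Fintype.sum_prod_type, Fintype.sum_prod_type_right, Fintype.sum_sigma,
    add_assoc, ← Finset.sum_add_distrib]
  congr 1
  refine Finset.sum_congr rfl fun v _ => ?_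
  rw [Finset.sum_comm, ← Finset.sum_add_distrib]
  refine Finset.sum_congr rfl fun x _ => ?_
  simp only
  rw [← Finset.mul_sum, ← Finset.mul_sum]
  ring


section main

variable (A : X → SimpleGraph V) (y u : X → V → V → ℝ) (b : V → ℕ)

/-- the hypothesis of the hybrid theorem -/
theorem bad_le [Nontrivial V] (hys : ∀ x v w, y x v w = y x w v)
    (hus : ∀ x v w, u x v w = u x w v) (hA : ∀ x v w, ¬ (A x).Adj v w → y x v w = 0)
    (hu0 : ∀ x v w, 0 ≤ u x v w) (huy : ∀ x v w, u x v w ≤ y x v w)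
    (hrow : ∀ x v, ∑ w, y x v w + ∑ w, u x v w ≤ 1)
    (hcol : ∀ v, ∑ x, (1 - ∑ w, y x v w) = b v)
    (hcut : ∀ V1 : Finset V, V1.Nonempty → V1ᶜ.Nonempty →
      1 ≤ ∑ x, ∑ v ∈ V1, ∑ w ∈ V1ᶜ, u x v w)
    (heven : Even (Fintype.card (Node X b))) (S : Finset (Node X b)) :
    bad (HG A b) (univ.image Sum.inl) S ≤ S.card := by
  classical
  have hy0 : ∀ x v w, 0 ≤ y x v w := fun x v w => (hu0 x v w).trans (huy x v w)
  have hm0 : ∀ x v, 0 ≤ 1 - ∑ w, y x v w := fun x v => by
    have h1 := hrow x v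
    have h2 : 0 ≤ ∑ w, u x v w := Finset.sum_nonneg fun w _ => hu0 x v w
    linarith
  have hm1 : ∀ x v, ∑ w, u x v w ≤ 1 - ∑ w, y x v w := fun x v => by
    have h1 := hrow x v
    linarith
  -- every class has slack nodes
  have hb : ∀ v, 0 < b v := by
    intro v
    rcases Nat.eq_zero_or_pos (b v) with h0 | h0
    · exfalso
      obtain ⟨w, hw⟩ := exists_ne v
      have h1 := hcut {v} ⟨v, by simp⟩ ⟨w, by simp [hw]⟩
      have h2 : ∀ x, 1 - ∑ w, y x v w = 0 := by
        have h3 := hcol v
        rw [h0, Nat.cast_zero, Finset.sum_eq_zero_iff_of_nonneg fun x _ => hm0 x v] at h3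
        exact fun x => h3 x (Finset.mem_univ _)
      have h4 : ∀ x, ∑ a ∈ ({v} : Finset V), ∑ w ∈ ({v} : Finset V)ᶜ, u x a w ≤ 0 := by
        intro x
        rw [Finset.sum_singleton]
        refine le_trans ?_ ((hm1 x v).trans (h2 x).le)
        exact Finset.sum_le_sum_of_subset_of_nonneg (Finset.subset_univ _) fun w _ _ => hu0 x v w
      have h5 : ∑ x, ∑ a ∈ ({v} : Finset V), ∑ w ∈ ({v} : Finset V)ᶜ, u x a w ≤ 0 :=
        Finset.sum_nonpos fun x _ => h4 x
      linarith
    · exact h0
  have hbR : ∀ v, (0 : ℝ) < b v := fun v => by exact_mod_cast hb v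
  -- the weights
  have hY0 : ∀ i j : Node X b, 0 ≤ YW y b i j := by
    rintro (p | s) (q | t)
    · simp only [YW]
      split_ifs
      · exact hy0 _ _ _
      · exact le_refl _
    · simp only [YW]
      split_ifs
      · exact div_nonneg (hm0 _ _) (hbR _).le
      · exact le_refl _
    · simp only [YW]
      split_ifs
      · exact div_nonneg (hm0 _ _) (hbR _).le
      · exact le_refl _
    · simp [YW]
  have hYs : ∀ i j : Node X b, YW y b i j = YW y b j i := by
    rintro (p | s) (q | t)
    · simp only [YW]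
      by_cases h : p.1 = q.1
      · rw [if_pos h, if_pos h.symm, h, hys]
      · rw [if_neg h, if_neg fun h' => h h'.symm]
    · rfl
    · rfl
    · rfl
  have hYadj : ∀ i j : Node X b, ¬ (HG A b).Adj i j → YW y b i j = 0 := by
    rintro (p | s) (q | t) h
    · simp only [YW]
      split_ifs with h1
      · exact hA _ _ _ fun h2 => h ⟨h1, h2⟩
      · rfl
    · simp only [YW]
      split_ifs with h1
      · exact absurd h1 h
      · rfl
    · simp only [YW]
      split_ifs with h1
      · exact absurd h1 h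
      · rfl
    · simp [YW]
  have hY1 : ∀ i : Node X b, ∑ j, YW y b i j = 1 := by
    rintro (p | s)
    · have e1 : ∑ q : X × V, YW y b (Sum.inl p) (Sum.inl q) = ∑ w, y p.1 p.2 w := by
        rw [Fintype.sum_prod_type, Finset.sum_eq_single p.1]
        · simp [YW]
        · intro x _ hx
          refine Finset.sum_eq_zero fun w _ => ?_
          simp [YW, hx.symm]
        · intro h
          exact absurd (Finset.mem_univ _) h
      have e2 : ∑ s : (Σ v : V, Fin (b v)), YW y b (Sum.inl p) (Sum.inr s) =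
          1 - ∑ w, y p.1 p.2 w := by
        rw [Fintype.sum_sigma, Finset.sum_eq_single p.2]
        · simp only [YW, if_true]
          rw [Finset.sum_const, Finset.card_univ, Fintype.card_fin, nsmul_eq_mul,
            mul_div_cancel₀ _ (hbR _).ne']
        · intro v _ hv
          refine Finset.sum_eq_zero fun j _ => ?_
          simp [YW, hv.symm]
        · intro h
          exact absurd (Finset.mem_univ _) h
      rw [Fintype.sum_sum_type, e1, e2]
      ring
    · rw [Fintype.sum_sum_type]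
      have h0 : ∑ t, YW y b (Sum.inr s) (Sum.inr t) = 0 :=
        Finset.sum_eq_zero fun t _ => by simp [YW]
      rw [h0, add_zero, Fintype.sum_prod_type_right, Finset.sum_eq_single s.1]
      · simp only [YW, if_true]
        rw [← Finset.sum_div, hcol, div_self (hbR _).ne']
      · intro v _ hv
        refine Finset.sum_eq_zero fun x _ => ?_
        simp [YW, hv]
      · intro h
        exact absurd (Finset.mem_univ _) h
  -- slack nodes all in one component: trivial case
  by_cases hall : ∃ C ∈ cc (HG A b) Sᶜ, ∀ s, Sum.inr s ∈ C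
  · obtain ⟨C, hC, hCs⟩ := hall
    have hCS : C = Sᶜ := by
      refine Finset.Subset.antisymm (cc_sub hC) ?_
      rintro (p | s) hi
      · exact cc_closed hC (Sum.inr ⟨p.2, ⟨0, hb p.2⟩⟩) (hCs _) (Sum.inl p) hi rfl
      · exact hCs s
    have hcc : cc (HG A b) Sᶜ ⊆ {C} := by
      intro D hD
      rw [Finset.mem_singleton]
      obtain ⟨i, hi⟩ := cc_ne hD
      have : i ∈ C := by
        rw [hCS]
        exact cc_sub hD hi
      exact cc_eq_of_mem hD hC hi this
    rcases S.eq_empty_or_nonempty with hS | hS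
    · subst hS
      rw [Finset.card_empty, Nat.le_zero, bad, Finset.card_eq_zero, Finset.filter_eq_empty_iff]
      intro D hD
      have h1 := Finset.mem_singleton.1 (hcc hD)
      have h2 : D.card = Fintype.card (Node X b) := by
        rw [h1, hCS, Finset.compl_empty, Finset.card_univ]
      rw [h2]
      rintro (h3 | h3)
      · rw [h3] at heven
        exact absurd heven (by decide)
      · exact (Nat.not_even_iff_odd.2 h3.1) heven
    · have h1 : bad (HG A b) (univ.image Sum.inl) S ≤ 1 := by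
        refine (Finset.card_le_card ((Finset.filter_subset _ _).trans hcc)).trans ?_
        simp
      exact h1.trans (Finset.card_pos.2 hS)
  push Not at hall
  refine family_le (HG A b) (YW y b) hY0 hYs hYadj hY1 S _ (Finset.filter_subset _ _) ?_
  intro C hCF
  obtain ⟨hC, hbad⟩ := Finset.mem_filter.1 hCF
  rcases hbad with h1 | ⟨hodd, hnR⟩
  · -- single node
    obtain ⟨i, rfl⟩ := Finset.card_eq_one.1 h1
    rw [Finset.sum_singleton]
    have h2 := hY1 i
    rw [← Finset.sum_add_sum_compl ({i} : Finset (Node X b)), Finset.sum_singleton,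
      hYadj i i ((HG A b).loopless.irrefl i), zero_add] at h2
    rw [h2]
  -- a slack node in `C`, another one outside
  obtain ⟨s1, hs1⟩ := hall C hC
  have hs0 : ∃ s0, Sum.inr s0 ∈ C := by
    by_contra hno
    push Not at hno
    apply hnR
    rintro (p | s) hi
    · exact Finset.mem_image_of_mem _ (Finset.mem_univ _)
    · exact absurd hi (hno s)
  obtain ⟨s0, hs0⟩ := hs0
  let c : Node X b → ℝ := fun i => if i ∈ C then 1 else 0
  rw [cost_eq y b C c fun i => rfl]
  have hc0 : ∀ i, 0 ≤ c i := fun i => by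
    simp only [c]
    split_ifs <;> norm_num
  have hc1 : ∀ i, c i ≤ 1 := fun i => by
    simp only [c]
    split_ifs <;> norm_num
  have hRR : 0 ≤ ∑ x, ∑ v, ∑ w, c (Sum.inl (x, v)) * (1 - c (Sum.inl (x, w))) * y x v w :=
    Finset.sum_nonneg fun x _ => Finset.sum_nonneg fun v _ => Finset.sum_nonneg fun w _ =>
      mul_nonneg (mul_nonneg (hc0 _) (sub_nonneg.2 (hc1 _))) (hy0 _ _ _)
  -- number of slack nodes of a class in `C`
  let t : V → ℕ := fun v => (univ.filter fun j : Fin (b v) => Sum.inr ⟨v, j⟩ ∈ C).card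
  have ht : ∀ v, ∑ j : Fin (b v), c (Sum.inr ⟨v, j⟩) = t v := by
    intro v
    simp only [c, t]
    rw [Finset.sum_boole]
  have htb : ∀ v, t v ≤ b v := by
    intro v
    refine (Finset.card_le_univ _).trans ?_
    rw [Fintype.card_fin]
  let Q : V → ℝ := fun v => ∑ x, (1 - ∑ w, y x v w) / b v *
        (c (Sum.inl (x, v)) * (b v - t v) + (1 - c (Sum.inl (x, v))) * t v)
  have hQ : ∀ v, ∑ x, (1 - ∑ w, y x v w) / b v *
        (c (Sum.inl (x, v)) * (b v - ∑ j, c (Sum.inr ⟨v, j⟩)) +
          (1 - c (Sum.inl (x, v))) * ∑ j, c (Sum.inr ⟨v, j⟩)) = Q v := by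
    intro v
    rw [ht v]
  rw [Finset.sum_congr rfl fun v _ => hQ v]
  have hQ0 : ∀ v, 0 ≤ Q v := by
    intro v
    refine Finset.sum_nonneg fun x _ => mul_nonneg (div_nonneg (hm0 _ _) (hbR _).le) ?_
    have h1 : (t v : ℝ) ≤ b v := by exact_mod_cast htb v
    exact add_nonneg (mul_nonneg (hc0 _) (sub_nonneg.2 h1))
      (mul_nonneg (sub_nonneg.2 (hc1 _)) (Nat.cast_nonneg _))
  by_cases hpart : ∃ v, 0 < t v ∧ t v < b v
  · -- a partial class
    obtain ⟨v, hv1, hv2⟩ := hpart
    have hQv : 1 ≤ Q v := by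
      have hsum : Q v = ((∑ x, (1 - ∑ w, y x v w) * c (Sum.inl (x, v))) * (b v - t v) +
          (b v - ∑ x, (1 - ∑ w, y x v w) * c (Sum.inl (x, v))) * t v) / b v := by
        simp only [Q]
        rw [← hcol v, Finset.sum_mul, ← Finset.sum_sub_distrib, Finset.sum_mul,
          ← Finset.sum_add_distrib, Finset.sum_div]
        refine Finset.sum_congr rfl fun x _ => ?_
        ring
      rw [hsum, le_div_iff₀ (hbR v), one_mul]
      set μ := ∑ x, (1 - ∑ w, y x v w) * c (Sum.inl (x, v)) with hμ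
      have hμ0 : 0 ≤ μ := Finset.sum_nonneg fun x _ => mul_nonneg (hm0 _ _) (hc0 _)
      have hμ1 : μ ≤ b v := by
        rw [← hcol v]
        refine Finset.sum_le_sum fun x _ => ?_
        nlinarith [hm0 x v, hc1 (Sum.inl (x, v))]
      have ht1 : (1 : ℝ) ≤ t v := by exact_mod_cast hv1
      have ht2 : (t v : ℝ) + 1 ≤ b v := by exact_mod_cast hv2
      nlinarith [mul_nonneg hμ0 (sub_nonneg.2 ht2), mul_nonneg (sub_nonneg.2 hμ1)
        (sub_nonneg.2 ht1)]
    have h2 : Q v ≤ ∑ v, Q v := Finset.single_le_sum (fun v _ => hQ0 v) (Finset.mem_univ v)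
    linarith
  push Not at hpart
  -- the classes inside `C`
  let V1 : Finset V := univ.filter fun v => 0 < t v
  have hV1 : ∀ v ∈ V1, t v = b v := fun v hv =>
    le_antisymm (htb v) (hpart v (Finset.mem_filter.1 hv).2)
  have hV0 : ∀ v ∉ V1, t v = 0 := by
    intro v hv
    by_contra h
    exact hv (Finset.mem_filter.2 ⟨Finset.mem_univ _, Nat.pos_of_ne_zero h⟩)
  have hne1 : V1.Nonempty :=
    ⟨s0.1, Finset.mem_filter.2 ⟨Finset.mem_univ _, Finset.card_pos.2 ⟨s0.2,
      Finset.mem_filter.2 ⟨Finset.mem_univ _, hs0⟩⟩⟩⟩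
  have hne2 : V1ᶜ.Nonempty := by
    refine ⟨s1.1, Finset.mem_compl.2 fun h => ?_⟩
    have h1 := hV1 _ h
    have h2 : (univ.filter fun j : Fin (b s1.1) => Sum.inr ⟨s1.1, j⟩ ∈ C) = univ := by
      refine Finset.eq_univ_of_card _ ?_
      rw [Fintype.card_fin]
      exact h1
    have h3 : s1.2 ∈ (univ.filter fun j : Fin (b s1.1) => Sum.inr ⟨s1.1, j⟩ ∈ C) := by
      rw [h2]
      exact Finset.mem_univ _
    exact hs1 (Finset.mem_filter.1 h3).2
  have hQ1 : ∀ v ∈ V1, Q v = ∑ x, (1 - ∑ w, y x v w) * (1 - c (Sum.inl (x, v))) := by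
    intro v hv
    simp only [Q]
    refine Finset.sum_congr rfl fun x _ => ?_
    rw [hV1 v hv]
    field_simp [(hbR v).ne']
    ring
  have hQ2 : ∀ v ∈ V1ᶜ, Q v = ∑ x, (1 - ∑ w, y x v w) * c (Sum.inl (x, v)) := by
    intro v hv
    simp only [Q]
    refine Finset.sum_congr rfl fun x _ => ?_
    rw [hV0 v (Finset.mem_compl.1 hv)]
    field_simp [(hbR v).ne']
    push_cast
    ring
  refine (hcut V1 hne1 hne2).trans ?_
  rw [← Finset.sum_add_sum_compl V1 Q, Finset.sum_congr rfl hQ1, Finset.sum_congr rfl hQ2,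
    Finset.sum_comm (s := V1), Finset.sum_comm (s := V1ᶜ), ← Finset.sum_add_distrib,
    ← Finset.sum_add_distrib]
  refine Finset.sum_le_sum fun x _ => ?_
  have hpt : ∀ v w, u x v w ≤ c (Sum.inl (x, v)) * (1 - c (Sum.inl (x, w))) * y x v w +
      ((1 - c (Sum.inl (x, v))) * u x v w + c (Sum.inl (x, w)) * u x v w) := by
    intro v w
    have a1 := hc0 (Sum.inl (x, v))
    have a2 := hc1 (Sum.inl (x, v))
    have a3 := hc0 (Sum.inl (x, w))
    have a4 := hc1 (Sum.inl (x, w))
    have a5 := hu0 x v w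
    have a6 := mul_nonneg (mul_nonneg a1 (sub_nonneg.2 a4)) (sub_nonneg.2 (huy x v w))
    have a7 := mul_nonneg (mul_nonneg a3 (sub_nonneg.2 a2)) a5
    nlinarith
  calc ∑ v ∈ V1, ∑ w ∈ V1ᶜ, u x v w
      ≤ ∑ v ∈ V1, ∑ w ∈ V1ᶜ, (c (Sum.inl (x, v)) * (1 - c (Sum.inl (x, w))) * y x v w +
      ((1 - c (Sum.inl (x, v))) * u x v w + c (Sum.inl (x, w)) * u x v w)) :=
        Finset.sum_le_sum fun v _ => Finset.sum_le_sum fun w _ => hpt v w
    _ = (∑ v ∈ V1, ∑ w ∈ V1ᶜ, c (Sum.inl (x, v)) * (1 - c (Sum.inl (x, w))) * y x v w) +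
        ((∑ v ∈ V1, (1 - c (Sum.inl (x, v))) * ∑ w ∈ V1ᶜ, u x v w) +
          ∑ w ∈ V1ᶜ, c (Sum.inl (x, w)) * ∑ v ∈ V1, u x w v) := by
        simp only [Finset.sum_add_distrib]
        congr 1
        congr 1
        · refine Finset.sum_congr rfl fun v _ => ?_
          rw [Finset.mul_sum]
        · rw [Finset.sum_comm]
          refine Finset.sum_congr rfl fun w _ => ?_
          rw [Finset.mul_sum]
          refine Finset.sum_congr rfl fun v _ => ?_
          rw [hus]
    _ ≤ (∑ v, ∑ w, c (Sum.inl (x, v)) * (1 - c (Sum.inl (x, w))) * y x v w) +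
        ((∑ v ∈ V1, (1 - ∑ w, y x v w) * (1 - c (Sum.inl (x, v)))) +
          ∑ w ∈ V1ᶜ, (1 - ∑ v, y x w v) * c (Sum.inl (x, w))) := by
        refine add_le_add ?_ (add_le_add ?_ ?_)
        · have hnn : ∀ v w, 0 ≤ c (Sum.inl (x, v)) * (1 - c (Sum.inl (x, w))) * y x v w :=
            fun v w => mul_nonneg (mul_nonneg (hc0 _) (sub_nonneg.2 (hc1 _))) (hy0 _ _ _)
          refine (Finset.sum_le_sum fun v _ => Finset.sum_le_sum_of_subset_of_nonneg
            (Finset.subset_univ _) fun w _ _ => hnn v w).trans ?_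
          exact Finset.sum_le_sum_of_subset_of_nonneg (Finset.subset_univ _) fun v _ _ =>
            Finset.sum_nonneg fun w _ => hnn v w
        · refine Finset.sum_le_sum fun v _ => ?_
          rw [mul_comm]
          refine mul_le_mul_of_nonneg_right ?_ (sub_nonneg.2 (hc1 _))
          refine le_trans ?_ (hm1 x v)
          exact Finset.sum_le_sum_of_subset_of_nonneg (Finset.subset_univ _) fun w _ _ => hu0 x v w
        · refine Finset.sum_le_sum fun v _ => ?_
          rw [mul_comm]
          refine mul_le_mul_of_nonneg_right ?_ (hc0 _)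
          refine le_trans ?_ (hm1 x v)
          exact Finset.sum_le_sum_of_subset_of_nonneg (Finset.subset_univ _) fun w _ _ => hu0 x v w
    _ = _ := by ring

/-- **Rows theorem (weights).** `X` rows, `A x` a graph on `V` for every row; real weights
`y x v w ≥ u x v w ≥ 0` on the edges of `A x` with row sums `y(v) + u(v) ≤ 1` at every vertex,
column sums `∑ x, y x v = D v`, and `u` is at least `1` on every nontrivial cut.  Then there are
permutations `σ x` along the edges of `A x` which move every vertex `v` in exactly `D v` rows. -/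
theorem rows [Nontrivial V] (D : V → ℕ) (hys : ∀ x v w, y x v w = y x w v)
    (hus : ∀ x v w, u x v w = u x w v) (hA : ∀ x v w, ¬ (A x).Adj v w → y x v w = 0)
    (hu0 : ∀ x v w, 0 ≤ u x v w) (huy : ∀ x v w, u x v w ≤ y x v w)
    (hrow : ∀ x v, ∑ w, y x v w + ∑ w, u x v w ≤ 1)
    (hcol : ∀ v, ∑ x, ∑ w, y x v w = D v)
    (hcut : ∀ V1 : Finset V, V1.Nonempty → V1ᶜ.Nonempty →
      1 ≤ ∑ x, ∑ v ∈ V1, ∑ w ∈ V1ᶜ, u x v w)
    (heven : Even (∑ v, D v)) :
    ∃ σ : X → Equiv.Perm V, (∀ x v, σ x v = v ∨ (A x).Adj v (σ x v)) ∧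
      ∀ v, (univ.filter fun x => σ x v ≠ v).card = D v := by
  classical
  have hDle : ∀ v, D v ≤ Fintype.card X := by
    intro v
    have h1 : (D v : ℝ) ≤ Fintype.card X := by
      rw [← hcol v]
      calc ∑ x, ∑ w, y x v w ≤ ∑ x : X, (1 : ℝ) := by
            refine Finset.sum_le_sum fun x _ => ?_
            have h1 := hrow x v
            have h2 : 0 ≤ ∑ w, u x v w := Finset.sum_nonneg fun w _ => hu0 x v w
            linarith
        _ = Fintype.card X := by simp
    exact_mod_cast h1
  let b : V → ℕ := fun v => Fintype.card X - D v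
  have hb : ∀ v, (b v : ℝ) = Fintype.card X - D v := fun v => by
    simp only [b]
    rw [Nat.cast_sub (hDle v)]
  have hcol' : ∀ v, ∑ x, (1 - ∑ w, y x v w) = b v := by
    intro v
    rw [Finset.sum_sub_distrib, hcol, hb]
    simp
  have hcard : Even (Fintype.card (Node X b)) := by
    rw [Fintype.card_sum, Fintype.card_prod, Fintype.card_sigma]
    have h1 : ∑ v, Fintype.card (Fin (b v)) + ∑ v, D v = Fintype.card X * Fintype.card V := by
      rw [← Finset.sum_add_distrib]
      have : ∀ v, Fintype.card (Fin (b v)) + D v = Fintype.card X := fun v => by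
        rw [Fintype.card_fin]
        exact Nat.sub_add_cancel (hDle v)
      rw [Finset.sum_congr rfl fun v _ => this v, Finset.sum_const, Finset.card_univ, smul_eq_mul,
        mul_comm]
    rw [← h1]
    rw [Nat.even_iff] at heven ⊢
    omega
  obtain ⟨π, hπ1, hπ2⟩ := hybrid (HG A b) (univ.image Sum.inl)
    (bad_le A y u b hys hus hA hu0 huy hrow hcol' hcut hcard)
  have hnR : ∀ s : (Σ v : V, Fin (b v)),
      (Sum.inr s : Node X b) ∉ (univ.image Sum.inl : Finset (Node X b)) := by
    intro s hs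
    obtain ⟨p, _, hp⟩ := Finset.mem_image.1 hs
    cases hp
  -- the moves
  let f : X → V → V := fun x v => match π (Sum.inl (x, v)) with
    | Sum.inl q => q.2
    | Sum.inr _ => v
  have hfl : ∀ x v q, π (Sum.inl (x, v)) = Sum.inl q → q = (x, f x v) ∧ (A x).Adj v (f x v) := by
    intro x v q hq
    have h1 := hπ1 (Sum.inl (x, v))
    rw [hq] at h1
    have h2 : f x v = q.2 := by simp only [f, hq]
    obtain ⟨h3, h4⟩ := h1
    simp only at h3 h4
    rw [h2]
    exact ⟨Prod.ext h3.symm rfl, h4⟩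
  have hfr : ∀ x v s, π (Sum.inl (x, v)) = Sum.inr s → f x v = v ∧ s.1 = v ∧
      π (Sum.inr s) = Sum.inl (x, v) := by
    intro x v s hs
    have h1 := hπ1 (Sum.inl (x, v))
    rw [hs] at h1
    have h2 := hπ2 (Sum.inl (x, v)) (Or.inr (by rw [hs]; exact hnR s))
    rw [hs] at h2
    refine ⟨by simp only [f, hs], ?_, h2⟩
    exact (show v = s.1 from h1).symm
  have hinj : ∀ x, Function.Injective (f x) := by
    intro x v v' h
    rcases hv : π (Sum.inl (x, v)) with q | s <;> rcases hv' : π (Sum.inl (x, v')) with q' | s'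
    · obtain ⟨h1, _⟩ := hfl x v q hv
      obtain ⟨h2, _⟩ := hfl x v' q' hv'
      have h3 : q = q' := by rw [h1, h2, h]
      have h4 : π (Sum.inl (x, v)) = π (Sum.inl (x, v')) := by rw [hv, hv', h3]
      have h5 := Sum.inl_injective (π.injective h4)
      exact congrArg Prod.snd h5
    · exfalso
      obtain ⟨h1, _⟩ := hfl x v q hv
      obtain ⟨h2, _, h3⟩ := hfr x v' s' hv'
      have h4 : π (Sum.inl (x, v)) = Sum.inl (x, v') := by rw [hv, h1, h, h2]
      have h5 := π.injective (h4.trans h3.symm)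
      cases h5
    · exfalso
      obtain ⟨h1, _⟩ := hfl x v' q' hv'
      obtain ⟨h2, _, h3⟩ := hfr x v s hv
      have h4 : π (Sum.inl (x, v')) = Sum.inl (x, v) := by rw [hv', h1, ← h, h2]
      have h5 := π.injective (h4.trans h3.symm)
      cases h5
    · obtain ⟨h1, _⟩ := hfr x v s hv
      obtain ⟨h2, _⟩ := hfr x v' s' hv'
      rw [← h1, ← h2, h]
  refine ⟨fun x => Equiv.ofBijective (f x) (Finite.injective_iff_bijective.1 (hinj x)), ?_, ?_⟩
  · intro x v
    show f x v = v ∨ (A x).Adj v (f x v)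
    rcases hv : π (Sum.inl (x, v)) with q | s
    · exact Or.inr (hfl x v q hv).2
    · exact Or.inl (hfr x v s hv).1
  · intro v
    show (univ.filter fun x => f x v ≠ v).card = D v
    have h1 : (univ.filter fun x => f x v = v).card = b v := by
      have h2 : ∀ j : Fin (b v), ∃ x, π (Sum.inr ⟨v, j⟩) = Sum.inl (x, v) := by
        intro j
        have h3 := hπ1 (Sum.inr ⟨v, j⟩)
        rcases hv : π (Sum.inr ⟨v, j⟩) with ⟨x, w⟩ | s
        · rw [hv] at h3
          exact ⟨x, by rw [show w = v from h3]⟩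
        · rw [hv] at h3
          exact absurd h3 id
      choose g hg using h2
      have hg2 : ∀ j, π (Sum.inl (g j, v)) = Sum.inr ⟨v, j⟩ := by
        intro j
        have := hπ2 (Sum.inr ⟨v, j⟩) (Or.inl (hnR _))
        rwa [hg j] at this
      rw [← Fintype.card_fin (b v), ← Finset.card_univ, eq_comm]
      refine Finset.card_bij (fun j _ => g j) ?_ ?_ ?_
      · intro j _
        rw [Finset.mem_filter]
        exact ⟨Finset.mem_univ _, (hfr _ _ _ (hg2 j)).1⟩
      · intro j _ j' _ h
        have h3 := hg2 j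
        rw [h, hg2 j'] at h3
        have h4 := Sum.inr_injective h3
        have h5 : j' = j := by
          simpa using h4
        exact h5.symm
      · intro x hx
        have hx2 := (Finset.mem_filter.1 hx).2
        rcases hv : π (Sum.inl (x, v)) with q | s
        · exact absurd hx2.symm (hfl x v q hv).2.ne
        · obtain ⟨_, h4, h5⟩ := hfr x v s hv
          obtain ⟨s1, s2⟩ := s
          simp only at h4
          subst h4
          refine ⟨s2, Finset.mem_univ _, ?_⟩
          have h6 := hg s2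
          rw [h5] at h6
          have h7 := Sum.inl_injective h6
          exact (congrArg Prod.fst h7).symm
    have h2 := Finset.card_filter_add_card_filter_not (s := (univ : Finset X))
      (fun x => f x v = v)
    rw [h1, Finset.card_univ] at h2
    have h3 := hDle v
    have h4 : b v = Fintype.card X - D v := rfl
    have h5 : (univ.filter fun x => f x v ≠ v).card = (univ.filter fun x => ¬ f x v = v).card := rfl
    omega

end main

end Pool.Agent.HTutte
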