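import Pool.Agent.Lib.MP_876e19_co_ups.RowsPM

/-!
# Rows theorem, edgewise form without parity loss (MP_876e19_co, helper91)

As `rows_pm`, with the hypothesis (helper76, note 2856)
`∑ u, w x v u + (2/d) ∑ (u ~ v in A x), 1 / av v u < 1` for all `x`, `v`.
-/

set_option autoImplicit false

open Finset

namespace Pool.Agent.UPS2

namespace PM

open HTutte UPS3 EC

variable {X V : Type*} [Fintype X] [DecidableEq X] [Fintype V] [DecidableEq V] {b : V → ℕ}
  {A : X → SimpleGraph V} {G : SimpleGraph V}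
  {S : Finset (Node X b)} {𝒞 : Finset (Finset (Node X b))}

open Classical in
/-- share of the vertex `v` in the row `x` -/
noncomputable def lam (A : X → SimpleGraph V) (x : X) (v : V) : ℝ :=
  ∑ u, if (A x).Adj v u then 1 / (av A v u : ℝ) else 0

omit [DecidableEq X] [DecidableEq V] in
lemma lam_nonneg (x : X) (v : V) : 0 ≤ lam A x v := by
  unfold lam
  refine Finset.sum_nonneg fun u _ => ?_
  split_ifs
  · positivity
  · exact le_rfl

/-- (b) the number of classes with slack columns, edgewise -/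
lemma classes_le' (hS : Sys (HG A b) univ S 𝒞) {d : ℕ} (hd : ∀ v, dg G v = d)
    (hav : ∀ v w, G.Adj v w → 0 < av A v w) (hAG : ∀ x v w, (A x).Adj v w → G.Adj v w) :
    (∑ C ∈ 𝒞, (cut G (TC S C) : ℝ)) + d * (TA S).card - d * (TI S).card ≤
      2 * ∑ x, ∑ v ∈ Bx S 𝒞 x, lam A x v := by
  classical
  have e1 : (∑ C ∈ 𝒞, (cut G (TC S C) : ℝ)) + d * (TA S).card - d * (TI S).card =
      ∑ p : V × V, if G.Adj p.1 p.2 then ff S 𝒞 p.1 p.2 else 0 := by
    have f1 : (∑ C ∈ 𝒞, (cut G (TC S C) : ℝ)) =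
        ∑ p : V × V, if G.Adj p.1 p.2 then ee S 𝒞 p.1 p.2 else 0 := by
      unfold cut ee
      push_cast
      rw [Finset.sum_comm]
      refine Finset.sum_congr rfl fun p _ => ?_
      by_cases h : G.Adj p.1 p.2
      · rw [if_pos h]
        refine Finset.sum_congr rfl fun C _ => ?_
        by_cases h1 : p.1 ∈ TC S C <;> by_cases h2 : p.2 ∈ TC S C <;> simp [h, h1, h2]
      · rw [if_neg h]
        refine Finset.sum_eq_zero fun C _ => ?_
        simp [h]
    have f2 : ∀ T : Finset V, (d : ℝ) * T.card =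
        ∑ p : V × V, if G.Adj p.1 p.2 then (if p.1 ∈ T then 1 else 0 : ℝ) else 0 := by
      intro T
      rw [Fintype.sum_prod_type]
      have : ∀ u : V, (∑ v : V, if G.Adj u v then (if u ∈ T then 1 else 0 : ℝ) else 0) =
          if u ∈ T then (d : ℝ) else 0 := by
        intro u
        by_cases hu : u ∈ T
        · simp only [hu, if_true]
          rw [← hd u]
          unfold dg
          push_cast
          rfl
        · simp [hu]
      rw [Finset.sum_congr rfl fun u _ => this u, ← Finset.sum_filter, Finset.sum_const,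
        nsmul_eq_mul, Finset.filter_mem_eq_inter, Finset.univ_inter, mul_comm]
    rw [f1, f2 (TA S), f2 (TI S), ← Finset.sum_add_distrib, ← Finset.sum_sub_distrib]
    refine Finset.sum_congr rfl fun p _ => ?_
    by_cases h : G.Adj p.1 p.2
    · simp only [h, if_true]
      rfl
    · simp [h]
  rw [e1]
  have e2 : 2 * (∑ p : V × V, if G.Adj p.1 p.2 then ff S 𝒞 p.1 p.2 else 0) =
      ∑ p : V × V, if G.Adj p.1 p.2 then (ff S 𝒞 p.1 p.2 + ff S 𝒞 p.2 p.1) else 0 := by
    have f3 : (∑ p : V × V, if G.Adj p.1 p.2 then ff S 𝒞 p.1 p.2 else 0) =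
        ∑ p : V × V, if G.Adj p.1 p.2 then ff S 𝒞 p.2 p.1 else 0 := by
      rw [← Equiv.sum_comp (Equiv.prodComm V V)]
      refine Finset.sum_congr rfl fun p _ => ?_
      simp only [Equiv.prodComm_apply, Prod.fst_swap, Prod.snd_swap]
      exact if_congr (SimpleGraph.adj_comm _ _ _) rfl rfl
    rw [two_mul]
    conv_lhs => arg 2; rw [f3]
    rw [← Finset.sum_add_distrib]
    refine Finset.sum_congr rfl fun p _ => ?_
    split_ifs <;> ring
  have e3 : (∑ p : V × V, if G.Adj p.1 p.2 then (ff S 𝒞 p.1 p.2 + ff S 𝒞 p.2 p.1)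
      else 0) ≤ ∑ p : V × V, ∑ x : X, if (A x).Adj p.1 p.2 then
        2 * (1 / (av A p.1 p.2 : ℝ)) * ((if p.1 ∈ Bx S 𝒞 x then 1 else 0 : ℝ) +
          (if p.2 ∈ Bx S 𝒞 x then 1 else 0)) else 0 := by
    refine Finset.sum_le_sum fun p _ => ?_
    have hpos : ∀ x : X, (0 : ℝ) ≤ if (A x).Adj p.1 p.2 then
        2 * (1 / (av A p.1 p.2 : ℝ)) * ((if p.1 ∈ Bx S 𝒞 x then 1 else 0 : ℝ) +
          (if p.2 ∈ Bx S 𝒞 x then 1 else 0)) else 0 := by
      intro x
      split_ifs <;> positivity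
    by_cases h : G.Adj p.1 p.2
    · rw [if_pos h]
      by_cases hle : ff S 𝒞 p.1 p.2 + ff S 𝒞 p.2 p.1 ≤ 0
      · exact hle.trans (Finset.sum_nonneg fun x _ => hpos x)
      · have h1 : ff S 𝒞 p.1 p.2 + ff S 𝒞 p.2 p.1 ≤ 2 := by
          have h1 := ff_le hS p.1 p.2
          have h2 := ff_le hS p.2 p.1
          linarith
        have havp : (0 : ℝ) < av A p.1 p.2 := by exact_mod_cast hav _ _ h
        calc ff S 𝒞 p.1 p.2 + ff S 𝒞 p.2 p.1 ≤ (av A p.1 p.2 : ℝ) * (2 * (1 / av A p.1 p.2)) := by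
              rw [mul_comm (2 : ℝ), ← mul_assoc, mul_one_div_cancel havp.ne', one_mul]
              exact h1
          _ = ∑ x : X, if (A x).Adj p.1 p.2 then (2 * (1 / av A p.1 p.2) : ℝ) else 0 := by
              rw [← Finset.sum_filter, Finset.sum_const, nsmul_eq_mul]
              congr 1
          _ ≤ _ := by
              refine Finset.sum_le_sum fun x _ => ?_
              by_cases hx : (A x).Adj p.1 p.2
              · rw [if_pos hx, if_pos hx]
                have h5 : (0 : ℝ) ≤ 2 * (1 / av A p.1 p.2) := by positivity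
                have h6 : (1 : ℝ) ≤ (if p.1 ∈ Bx S 𝒞 x then 1 else 0 : ℝ) +
                    (if p.2 ∈ Bx S 𝒞 x then 1 else 0) := by
                  by_cases h3 : p.1 ∈ Bx S 𝒞 x
                  · rw [if_pos h3]
                    split_ifs <;> norm_num
                  · by_cases h4 : p.2 ∈ Bx S 𝒞 x
                    · rw [if_pos h4, if_neg h3]
                      norm_num
                    · exact absurd (ff_key hS hx h3 h4) hle
                nlinarith
              · rw [if_neg hx, if_neg hx]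
    · rw [if_neg h]
      exact Finset.sum_nonneg fun x _ => hpos x
  have e4 : (∑ p : V × V, ∑ x : X, if (A x).Adj p.1 p.2 then
        2 * (1 / (av A p.1 p.2 : ℝ)) * ((if p.1 ∈ Bx S 𝒞 x then 1 else 0 : ℝ) +
          (if p.2 ∈ Bx S 𝒞 x then 1 else 0)) else 0) =
      4 * ∑ x : X, ∑ u ∈ Bx S 𝒞 x, lam A x u := by
    rw [Finset.sum_comm, Finset.mul_sum]
    refine Finset.sum_congr rfl fun x _ => ?_
    have g1 : (∑ p : V × V, if (A x).Adj p.1 p.2 then (1 / (av A p.1 p.2 : ℝ)) *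
        (if p.1 ∈ Bx S 𝒞 x then 1 else 0 : ℝ) else 0) = ∑ u ∈ Bx S 𝒞 x, lam A x u := by
      rw [Fintype.sum_prod_type, ← Finset.sum_subset (Finset.subset_univ (Bx S 𝒞 x))]
      · refine Finset.sum_congr rfl fun u hu => ?_
        unfold lam
        refine Finset.sum_congr rfl fun v _ => ?_
        simp [hu]
      · intro u _ hu
        refine Finset.sum_eq_zero fun v _ => ?_
        simp [hu]
    have g2 : (∑ p : V × V, if (A x).Adj p.1 p.2 then (1 / (av A p.1 p.2 : ℝ)) *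
        (if p.2 ∈ Bx S 𝒞 x then 1 else 0 : ℝ)
        else 0) = ∑ p : V × V, if (A x).Adj p.1 p.2 then (1 / (av A p.1 p.2 : ℝ)) *
        (if p.1 ∈ Bx S 𝒞 x then 1 else 0 : ℝ) else 0 := by
      rw [← Equiv.sum_comp (Equiv.prodComm V V)]
      refine Finset.sum_congr rfl fun p _ => ?_
      simp only [Equiv.prodComm_apply, Prod.fst_swap, Prod.snd_swap]
      rw [av_symm A p.2 p.1]
      exact if_congr (SimpleGraph.adj_comm _ _ _) rfl rfl
    have g3 : (∑ p : V × V, if (A x).Adj p.1 p.2 then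
        2 * (1 / (av A p.1 p.2 : ℝ)) * ((if p.1 ∈ Bx S 𝒞 x then 1 else 0 : ℝ) +
          (if p.2 ∈ Bx S 𝒞 x then 1 else 0)) else 0) =
        2 * ((∑ p : V × V, if (A x).Adj p.1 p.2 then (1 / (av A p.1 p.2 : ℝ)) *
        (if p.1 ∈ Bx S 𝒞 x then 1 else 0 : ℝ) else 0) +
        ∑ p : V × V, if (A x).Adj p.1 p.2 then (1 / (av A p.1 p.2 : ℝ)) *
        (if p.2 ∈ Bx S 𝒞 x then 1 else 0 : ℝ) else 0) := by
      rw [← Finset.sum_add_distrib, Finset.mul_sum]
      refine Finset.sum_congr rfl fun p _ => ?_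
      by_cases h : (A x).Adj p.1 p.2
      · simp only [h, if_true]
        ring
      · simp only [h, if_false]
        ring
    rw [g3, g2, g1]
    ring
  have e6 := e2 ▸ (e3.trans (le_of_eq e4))
  linarith [e6]

/-- (a) the weights of a row -/
lemma row_le' (hS : Sys (HG A b) univ S 𝒞) (x : X) (w : V → V → ℝ) (hw0 : ∀ u v, 0 ≤ w u v)
    (hws : ∀ u v, w u v = w v u) (hwA : ∀ u v, ¬ (A x).Adj u v → w u v = 0) :
    ∑ v ∈ TA S, ∑ u, w v u ≤ ∑ v ∈ TI S, ∑ u, w v u + ∑ v ∈ TA S \ Iso 𝒞 x, ∑ u, w v u +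
      ∑ v ∈ Sx S x \ TI S, ∑ u, w v u := by
  classical
  have hIA : Iso 𝒞 x ⊆ TA S := fun v hv => iso_TA hS hv
  have h1 : ∑ v ∈ Iso 𝒞 x, ∑ u, w v u ≤ ∑ v ∈ Sx S x, ∑ u, w v u := by
    calc ∑ v ∈ Iso 𝒞 x, ∑ u, w v u = ∑ v ∈ Iso 𝒞 x, ∑ u ∈ Sx S x, w v u := by
          refine Finset.sum_congr rfl fun v hv => ?_
          symm
          refine Finset.sum_subset (Finset.subset_univ _) fun u _ hu => ?_
          refine hwA v u fun h => hu (iso_nbr hS hv h)
      _ = ∑ u ∈ Sx S x, ∑ v ∈ Iso 𝒞 x, w u v := by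
          rw [Finset.sum_comm]
          exact Finset.sum_congr rfl fun u _ => Finset.sum_congr rfl fun v _ => hws v u
      _ ≤ _ := by
          refine Finset.sum_le_sum fun u _ => ?_
          exact Finset.sum_le_sum_of_subset_of_nonneg (Finset.subset_univ _)
            fun v _ _ => hw0 u v
  have h3 := Finset.sum_sdiff (f := fun v => ∑ u, w v u) hIA
  have h4 := Finset.sum_sdiff (f := fun v => ∑ u, w v u) (TI_Sx (S := S) x)
  linarith

/-- **Barrier count, edgewise.** -/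
theorem count' [Nontrivial V] (hS : Sys (HG A b) univ S 𝒞)
    (hbad : ∀ C ∈ 𝒞, C.card = 1 ∨ ¬ C ⊆ univ.image Sum.inl)
    {d : ℕ} (hd0 : 0 < d) (hd : ∀ v, dg G v = d)
    (hcut : ∀ S : Finset V, S.Nonempty → S ≠ univ → d ≤ cut G S)
    (hav : ∀ v w, G.Adj v w → 0 < av A v w) (hAG : ∀ x v w, (A x).Adj v w → G.Adj v w)
    (w : X → V → V → ℝ) (hw0 : ∀ x u v, 0 ≤ w x u v) (hws : ∀ x u v, w x u v = w x v u)
    (hwA : ∀ x u v, ¬ (A x).Adj u v → w x u v = 0)
    (hrow : ∀ x v, ∑ u, w x v u + 2 / d * lam A x v < 1) (s : V → ℝ)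
    (hcol : ∀ v, ∑ x, ∑ u, w x v u + 1 + s v = (Fintype.card X : ℝ) - b v)
    (hs : ∀ T T' : Finset V, Disjoint T T' → ∑ v ∈ T, s v - ∑ v ∈ T', s v ≤ 1) :
    𝒞.card ≤ S.card + 1 ∧ (𝒞.card = S.card + 1 → ∀ x, bx S 𝒞 x = 0) := by
  classical
  have hdR : (0 : ℝ) < d := by exact_mod_cast hd0
  set B : ℝ := ∑ x, (bx S 𝒞 x : ℝ) with hB
  have hB0 : 0 ≤ B := Finset.sum_nonneg fun x _ => Nat.cast_nonneg _
  have hBz : B = 0 → ∀ x, bx S 𝒞 x = 0 := by
    intro h x
    have h3 := (Finset.sum_eq_zero_iff_of_nonneg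
      (fun y _ => Nat.cast_nonneg (α := ℝ) (bx S 𝒞 y))).1 h x (mem_univ x)
    exact_mod_cast h3
  suffices h : ∃ E : ℝ, 0 ≤ E ∧ (E = 0 → ∀ x, bx S 𝒞 x = 0) ∧
      (𝒞.card : ℝ) ≤ S.card + 1 - E by
    obtain ⟨E, hE0, hE, h⟩ := h
    constructor
    · have : (𝒞.card : ℝ) ≤ ((S.card + 1 : ℕ) : ℝ) := by push_cast; linarith
      exact_mod_cast this
    · intro he x
      rw [he] at h
      push_cast at h
      exact hE (le_antisymm (by linarith) hE0) x
  have c1 : (𝒞.card : ℝ) ≤ ∑ x, ((Iso 𝒞 x).card : ℝ) + ∑ v ∈ TI S, (b v : ℝ) +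
      (QQ S 𝒞).card := by
    exact_mod_cast card_fam hS hbad
  have c2 : ∑ x, ((Sx S x).card : ℝ) + ∑ v ∈ TA S, (b v : ℝ) ≤ S.card := by
    exact_mod_cast card_sep S
  have hIA : ∀ x, Iso 𝒞 x ⊆ TA S := fun x v hv => iso_TA hS hv
  have c3 : ∀ x, ((TA S).card : ℝ) = (Iso 𝒞 x).card + (TA S \ Iso 𝒞 x).card := fun x => by
    have := card_sdiff_add_card_eq_card (hIA x)
    have h2 : (TA S).card = (Iso 𝒞 x).card + (TA S \ Iso 𝒞 x).card := by omega
    exact_mod_cast h2
  have c4 : ∀ x, ((Sx S x).card : ℝ) = (TI S).card + (Sx S x \ TI S).card := fun x => by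
    have := card_sdiff_add_card_eq_card (TI_Sx (S := S) x)
    have h2 : (Sx S x).card = (TI S).card + (Sx S x \ TI S).card := by omega
    exact_mod_cast h2
  have c5 : ∑ x, ((Iso 𝒞 x).card : ℝ) - ∑ x, ((Sx S x).card : ℝ) =
      (Fintype.card X : ℝ) * ((TA S).card - (TI S).card) - B := by
    rw [hB, ← Finset.sum_sub_distrib]
    have : ∀ x, ((Iso 𝒞 x).card : ℝ) - (Sx S x).card =
        ((TA S).card - (TI S).card) - (bx S 𝒞 x : ℝ) := fun x => by
      unfold bx
      push_cast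
      have h1 := c3 x
      have h2 := c4 x
      linarith
    rw [Finset.sum_congr rfl fun x _ => this x, Finset.sum_sub_distrib, Finset.sum_const,
      nsmul_eq_mul, Finset.card_univ]
  by_cases hQ : ∃ C ∈ 𝒞, TC S C = univ
  · -- one class is everything
    obtain ⟨C, hC, hCu⟩ := hQ
    have hTA : TA S = ∅ := by
      rw [Finset.eq_empty_iff_forall_notMem]
      intro v
      exact TC_TA hS hC (hCu ▸ mem_univ v)
    have hTI : TI S = ∅ := by
      rw [Finset.eq_empty_iff_forall_notMem]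
      intro v
      exact (mem_TC.1 (hCu ▸ mem_univ v : v ∈ TC S C)).1
    have hQQ : QQ S 𝒞 ⊆ {C} := by
      intro C' hC'
      obtain ⟨h1, v, hv⟩ := mem_filter.1 hC'
      rw [mem_singleton]
      exact TC_disj hS h1 hC hv (hCu ▸ mem_univ v)
    have hQ1 : (QQ S 𝒞).card ≤ 1 := (card_le_card hQQ).trans (by simp)
    refine ⟨B, hB0, hBz, ?_⟩
    have h1 : ((QQ S 𝒞).card : ℝ) ≤ 1 := by exact_mod_cast hQ1
    rw [hTA, hTI] at c5
    rw [hTI, Finset.sum_empty] at c1
    rw [hTA, Finset.sum_empty] at c2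
    simp only [card_empty, Nat.cast_zero, sub_zero, mul_zero, zero_sub] at c5
    linarith
  · push Not at hQ
    -- total slack
    let e : X → V → ℝ := fun x v => 1 - (∑ u, w x v u + 2 / d * lam A x v)
    have he0 : ∀ x v, 0 < e x v := fun x v => sub_pos.2 (hrow x v)
    set E : ℝ := ∑ x, (∑ v ∈ TA S \ Iso 𝒞 x, e x v + ∑ v ∈ Sx S x \ TI S, e x v) with hE
    have hE1 : ∀ x, 0 ≤ ∑ v ∈ TA S \ Iso 𝒞 x, e x v + ∑ v ∈ Sx S x \ TI S, e x v := fun x =>
      add_nonneg (Finset.sum_nonneg fun v _ => (he0 x v).le)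
        (Finset.sum_nonneg fun v _ => (he0 x v).le)
    refine ⟨E, Finset.sum_nonneg fun x _ => hE1 x, ?_, ?_⟩
    · intro h x
      have h3 := (Finset.sum_eq_zero_iff_of_nonneg fun y _ => hE1 y).1 h x (mem_univ x)
      have h4 : ∑ v ∈ TA S \ Iso 𝒞 x, e x v = 0 := le_antisymm (by
        have := Finset.sum_nonneg (s := Sx S x \ TI S) fun v _ => (he0 x v).le
        linarith) (Finset.sum_nonneg fun v _ => (he0 x v).le)
      have h5 : ∑ v ∈ Sx S x \ TI S, e x v = 0 := by linarith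
      have h6 : ∀ T : Finset V, ∑ v ∈ T, e x v = 0 → T.card = 0 := by
        intro T hT
        rw [card_eq_zero, Finset.eq_empty_iff_forall_notMem]
        intro v hv
        exact (he0 x v).ne' ((Finset.sum_eq_zero_iff_of_nonneg fun y _ => (he0 x y).le).1 hT v hv)
      unfold bx
      rw [h6 _ h4, h6 _ h5]
    have d1 : (d : ℝ) * (QQ S 𝒞).card ≤ ∑ C ∈ 𝒞, (cut G (TC S C) : ℝ) := by
      calc (d : ℝ) * (QQ S 𝒞).card = ∑ C ∈ QQ S 𝒞, (d : ℝ) := by
            rw [Finset.sum_const, nsmul_eq_mul, mul_comm]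
        _ ≤ ∑ C ∈ QQ S 𝒞, (cut G (TC S C) : ℝ) := by
            refine Finset.sum_le_sum fun C hC => ?_
            obtain ⟨h1, h2⟩ := mem_filter.1 hC
            exact_mod_cast hcut _ h2 (hQ C h1)
        _ ≤ _ := Finset.sum_le_sum_of_subset_of_nonneg (filter_subset _ _)
            fun C _ _ => Nat.cast_nonneg _
    have d2 := classes_le' hS hd hav hAG
    set Λ : ℝ := ∑ x, (∑ v ∈ TA S \ Iso 𝒞 x, lam A x v + ∑ v ∈ Sx S x \ TI S, lam A x v) with hΛ
    have d2' : ∑ x, ∑ v ∈ Bx S 𝒞 x, lam A x v ≤ Λ := by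
      refine Finset.sum_le_sum fun x _ => ?_
      unfold Bx
      have h1 := Finset.sum_union_inter (s₁ := TA S \ Iso 𝒞 x) (s₂ := Sx S x \ TI S)
        (f := fun v => lam A x v)
      have h2 : 0 ≤ ∑ v ∈ (TA S \ Iso 𝒞 x) ∩ (Sx S x \ TI S), lam A x v :=
        Finset.sum_nonneg fun v _ => lam_nonneg x v
      linarith
    have d3 : ((QQ S 𝒞).card : ℝ) ≤ (TI S).card - (TA S).card + 2 / d * Λ := by
      have h1 : (d : ℝ) * ((QQ S 𝒞).card + (TA S).card - (TI S).card) ≤ 2 * Λ := by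
        linarith
      have h2 : ((QQ S 𝒞).card : ℝ) + (TA S).card - (TI S).card ≤ 2 / d * Λ := by
        rw [div_mul_eq_mul_div, le_div_iff₀ hdR]
        linarith
      linarith
    have d4 : ∀ x, ∑ v ∈ TA S, ∑ u, w x v u ≤ ∑ v ∈ TI S, ∑ u, w x v u +
        ∑ v ∈ TA S \ Iso 𝒞 x, ∑ u, w x v u + ∑ v ∈ Sx S x \ TI S, ∑ u, w x v u :=
      fun x => row_le' hS x (w x) (hw0 x) (hws x) (hwA x)
    have d4' : ∀ x, (∑ v ∈ TA S \ Iso 𝒞 x, ∑ u, w x v u + ∑ v ∈ Sx S x \ TI S, ∑ u, w x v u) +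
        2 / d * (∑ v ∈ TA S \ Iso 𝒞 x, lam A x v + ∑ v ∈ Sx S x \ TI S, lam A x v) =
        bx S 𝒞 x - (∑ v ∈ TA S \ Iso 𝒞 x, e x v + ∑ v ∈ Sx S x \ TI S, e x v) := by
      intro x
      have h1 : ∀ T : Finset V, ∑ v ∈ T, ∑ u, w x v u + 2 / d * ∑ v ∈ T, lam A x v =
          T.card - ∑ v ∈ T, e x v := by
        intro T
        simp only [e]
        rw [Finset.sum_sub_distrib, Finset.sum_add_distrib, Finset.mul_sum, Finset.sum_const,
          nsmul_eq_mul, mul_one]
        ring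
      have h2 := h1 (TA S \ Iso 𝒞 x)
      have h3 := h1 (Sx S x \ TI S)
      unfold bx
      push_cast
      linarith
    have d5 : ∑ v ∈ TA S, ∑ x, ∑ u, w x v u + 2 / d * Λ ≤
        ∑ v ∈ TI S, ∑ x, ∑ u, w x v u + B - E := by
      rw [Finset.sum_comm, Finset.sum_comm (s := TI S), hB, hE, hΛ, Finset.mul_sum,
        ← Finset.sum_add_distrib, ← Finset.sum_add_distrib, ← Finset.sum_sub_distrib]
      refine Finset.sum_le_sum fun x _ => ?_
      have h1 := d4 x
      have h2 := d4' x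
      linarith
    have d6 : ∀ T : Finset V, ∑ v ∈ T, (b v : ℝ) = (Fintype.card X : ℝ) * T.card -
        (∑ v ∈ T, ∑ x, ∑ u, w x v u) - T.card - ∑ v ∈ T, s v := by
      intro T
      have : ∀ v, (b v : ℝ) = (Fintype.card X : ℝ) - (∑ x, ∑ u, w x v u) - 1 - s v := fun v => by
        have := hcol v
        linarith
      rw [Finset.sum_congr rfl fun v _ => this v, Finset.sum_sub_distrib, Finset.sum_sub_distrib,
        Finset.sum_sub_distrib, Finset.sum_const, Finset.sum_const, nsmul_eq_mul, nsmul_eq_mul]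
      ring
    have d7 : Disjoint (TA S) (TI S) := by
      rw [disjoint_left]
      intro v h1 h2
      exact (mem_TI.1 h2).1 h1
    have d8 := hs _ _ d7
    have e1 := d6 (TA S)
    have e2 := d6 (TI S)
    have : (Fintype.card X : ℝ) * ((TA S).card - (TI S).card) =
      (Fintype.card X : ℝ) * (TA S).card - (Fintype.card X : ℝ) * (TI S).card := by ring
    rw [this] at c5
    linarith

/-- the hypothesis of the hybrid theorem from the count -/
theorem fam_le_of_count (D : V → ℕ) (hDle : ∀ v, D v ≤ Fintype.card X)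
    (heven : Even (∑ v, D v)) (hbv : ∀ v, b v = Fintype.card X - D v)
    (hcount : ∀ (S : Finset (Node X b)) (𝒞 : Finset (Finset (Node X b))),
      Sys (HG A b) univ S 𝒞 → (∀ C ∈ 𝒞, C.card = 1 ∨ ¬ C ⊆ univ.image Sum.inl) →
      𝒞.card ≤ S.card + 1 ∧ (𝒞.card = S.card + 1 → ∀ x, bx S 𝒞 x = 0))
    (S : Finset (Node X b)) (𝒞 : Finset (Finset (Node X b))) (hS : Sys (HG A b) univ S 𝒞)
    (hbad : ∀ C ∈ 𝒞, C.card = 1 ∨ ¬ C ⊆ univ.image Sum.inl) : 𝒞.card ≤ S.card := by
  classical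
  obtain ⟨h1, h2⟩ := hcount S 𝒞 hS hbad
  by_contra hlt
  have heq : 𝒞.card = S.card + 1 := by omega
  have hbx := h2 heq
  have hcardN : Even (Fintype.card (Node X b)) := by
    rw [Fintype.card_sum, Fintype.card_prod, Fintype.card_sigma]
    have h1 : ∑ v, Fintype.card (Fin (b v)) + ∑ v, D v = Fintype.card X * Fintype.card V := by
      rw [← Finset.sum_add_distrib]
      have : ∀ v, Fintype.card (Fin (b v)) + D v = Fintype.card X := fun v => by
        rw [Fintype.card_fin, hbv v]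
        exact Nat.sub_add_cancel (hDle v)
      rw [Finset.sum_congr rfl fun v _ => this v, Finset.sum_const, Finset.card_univ, smul_eq_mul,
        mul_comm]
    rw [← h1]
    rw [Nat.even_iff] at heven ⊢
    omega
  set L : Finset (Node X b) := univ \ (S ∪ 𝒞.biUnion id) with hL
  have hLC : ∀ n ∈ L, n ∉ S ∧ ∀ C ∈ 𝒞, n ∉ C := by
    intro n hn
    rw [hL, mem_sdiff, mem_union, not_or] at hn
    exact ⟨hn.2.1, fun C hC h => hn.2.2 (mem_biUnion.2 ⟨C, hC, h⟩)⟩
  have hLcov : ∀ n : Node X b, n ∈ L ∨ n ∈ S ∨ ∃ C ∈ 𝒞, n ∈ C := by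
    intro n
    by_cases h : n ∈ S ∪ 𝒞.biUnion id
    · rcases mem_union.1 h with h | h
      · exact Or.inr (Or.inl h)
      · obtain ⟨C, hC, hn⟩ := mem_biUnion.1 h
        exact Or.inr (Or.inr ⟨C, hC, hn⟩)
    · exact Or.inl (mem_sdiff.2 ⟨mem_univ _, h⟩)
  have hodd : Odd L.card := by
    have h3 : L.card + (S ∪ 𝒞.biUnion id).card = Fintype.card (Node X b) := by
      rw [hL, card_sdiff_add_card_eq_card (subset_univ _), card_univ]
    have h4 : (S ∪ 𝒞.biUnion id).card = S.card + ∑ C ∈ 𝒞, C.card := by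
      rw [card_union_of_disjoint, card_biUnion]
      · rfl
      · intro C hC C' hC' hne
        exact hS.pd C hC C' hC' hne
      · rw [disjoint_biUnion_right]
        intro C hC
        exact (hS.disS C hC).symm
    have h5 := sum_odd_parity 𝒞 hS.odd
    rw [Nat.odd_iff]
    rw [Nat.even_iff] at hcardN
    omega
  have hLne : L.Nonempty := by
    rw [← card_pos]
    obtain ⟨k, hk⟩ := hodd
    omega
  by_cases hLR : L ⊆ univ.image Sum.inl
  · obtain ⟨n, hn⟩ := hLne
    obtain ⟨⟨x, v⟩, _, rfl⟩ := mem_image.1 (hLR hn)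
    obtain ⟨hnS, hnC⟩ := hLC _ hn
    have hvA : v ∈ TA S := by
      rw [mem_TA]
      intro j
      rcases hLcov (Sum.inr ⟨v, j⟩) with h | h | ⟨C, hC, h⟩
      · obtain ⟨p, _, hp⟩ := mem_image.1 (hLR h)
        cases hp
      · exact h
      · rcases hS.cl C hC _ h (Sum.inl (x, v)) (mem_univ _) rfl with h3 | h3
        · exact absurd h3 (hnC C hC)
        · exact absurd h3 hnS
    have hvI : v ∉ Iso 𝒞 x := by
      intro h
      exact hnC _ (mem_Iso.1 h) (mem_singleton_self _)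
    have h3 : 0 < (TA S \ Iso 𝒞 x).card := card_pos.2 ⟨v, mem_sdiff.2 ⟨hvA, hvI⟩⟩
    have h4 := hbx x
    unfold bx at h4
    omega
  · have hLnot : L ∉ 𝒞 := by
      intro h
      obtain ⟨n, hn⟩ := hLne
      exact (hLC n hn).2 L h hn
    have hS' : Sys (HG A b) univ S (insert L 𝒞) := by
      refine ⟨hS.sub, fun C _ => subset_univ _, ?_, ?_, ?_, ?_⟩
      · intro C hC
        rcases mem_insert.1 hC with rfl | hC
        · rw [disjoint_left]
          exact fun n hn => (hLC n hn).1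
        · exact hS.disS C hC
      · intro C hC C' hC' hne
        rcases mem_insert.1 hC with rfl | hC
        · rcases mem_insert.1 hC' with rfl | hC'
          · exact absurd rfl hne
          · rw [disjoint_left]
            exact fun n hn => (hLC n hn).2 C' hC'
        · rcases mem_insert.1 hC' with rfl | hC'
          · rw [disjoint_right]
            exact fun n hn => (hLC n hn).2 C hC
          · exact hS.pd C hC C' hC' hne
      · intro C hC
        rcases mem_insert.1 hC with rfl | hC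
        · exact hodd
        · exact hS.odd C hC
      · intro C hC c hc n _ hcn
        rcases mem_insert.1 hC with rfl | hC
        · rcases hLcov n with h | h | ⟨C', hC', h⟩
          · exact Or.inl h
          · exact Or.inr h
          · rcases hS.cl C' hC' _ h c (mem_univ _) hcn.symm with h3 | h3
            · exact absurd h3 ((hLC c hc).2 C' hC')
            · exact absurd h3 (hLC c hc).1
        · exact hS.cl C hC c hc n (mem_univ _) hcn
    have h3 := (hcount S _ hS' (by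
      intro C hC
      rcases mem_insert.1 hC with rfl | hC
      · exact Or.inr hLR
      · exact hbad C hC)).1
    rw [card_insert_of_notMem hLnot] at h3
    omega

/-- **Rows theorem, edgewise and without parity loss.** -/
theorem rows_edge [Nontrivial V] {d : ℕ} (hd0 : 0 < d) (hd : ∀ v, dg G v = d)
    (hcut : ∀ S : Finset V, S.Nonempty → S ≠ univ → d ≤ cut G S)
    (hav : ∀ v w, G.Adj v w → 0 < av A v w) (hAG : ∀ x v w, (A x).Adj v w → G.Adj v w)
    (D : V → ℕ) (hDle : ∀ v, D v ≤ Fintype.card X) (heven : Even (∑ v, D v))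
    (w : X → V → V → ℝ) (hw0 : ∀ x u v, 0 ≤ w x u v) (hws : ∀ x u v, w x u v = w x v u)
    (hwA : ∀ x u v, ¬ (A x).Adj u v → w x u v = 0)
    (hrow : ∀ x v, ∑ u, w x v u + 2 / d * lam A x v < 1) (s : V → ℝ)
    (hcol : ∀ v, ∑ x, ∑ u, w x v u + 1 + s v = D v)
    (hs : ∀ T T' : Finset V, Disjoint T T' → ∑ v ∈ T, s v - ∑ v ∈ T', s v ≤ 1) :
    ∃ σ : X → Equiv.Perm V, (∀ x v, σ x v = v ∨ (A x).Adj v (σ x v)) ∧
      ∀ v, (univ.filter fun x => σ x v ≠ v).card = D v :=
  sigma_of_good D hDle (UPS3.hybrid _ _ _ fun S 𝒞 hS hbad =>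
    fam_le_of_count D hDle heven (fun _ => rfl) (fun S 𝒞 h1 h2 =>
      count' h1 h2 hd0 hd hcut hav hAG w hw0 hws hwA hrow s (fun v => by
        rw [hcol v, Nat.cast_sub (hDle v)]
        ring) hs) S 𝒞 hS hbad)

end PM

end Pool.Agent.UPS2
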