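import Pool.Agent.Lib.MP_876e19_co_ups.Correction
import Pool.Agent.Lib.MP_876e19_co_ups.Hybrid
import Pool.Agent.Lib.MP_876e19_co_ups.FlowInt
import Pool.Agent.Lib.MP_876e19_co_ups.GenFinish

/-!
# Rows theorem without parity loss (MP_876e19_co, helper91)

`count` : the barrier count of helper81 for separated families of `HG A b`,
`rows_pm` : column sums `D v = M v + 1 + s v`, where `s` is `0` or `± 1` at one vertex.
-/

set_option autoImplicit false

open Finset

namespace Pool.Agent.UPS2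

namespace PM

open HTutte UPS3 EC

variable {X V : Type*} [Fintype X] [DecidableEq X] [Fintype V] [DecidableEq V] {b : V → ℕ}
  {A : X → SimpleGraph V} {G : SimpleGraph V}

/-- columns whose slack nodes are all in `S` -/
def TA (S : Finset (Node X b)) : Finset V :=
  univ.filter fun v => ∀ j : Fin (b v), (Sum.inr ⟨v, j⟩ : Node X b) ∈ S

/-- other columns whose row nodes are all in `S` -/
def TI (S : Finset (Node X b)) : Finset V :=
  univ.filter fun v => v ∉ TA S ∧ ∀ x : X, (Sum.inl (x, v) : Node X b) ∈ S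

/-- the part of `S` in the row `x` -/
def Sx (S : Finset (Node X b)) (x : X) : Finset V :=
  univ.filter fun v => (Sum.inl (x, v) : Node X b) ∈ S

/-- single members in the row `x` -/
def Iso (𝒞 : Finset (Finset (Node X b))) (x : X) : Finset V :=
  univ.filter fun v => ({Sum.inl (x, v)} : Finset (Node X b)) ∈ 𝒞

/-- the columns of a member -/
def TC (S C : Finset (Node X b)) : Finset V :=
  univ.filter fun v => v ∉ TI S ∧ ∃ j : Fin (b v), (Sum.inr ⟨v, j⟩ : Node X b) ∈ C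

variable {S : Finset (Node X b)} {𝒞 : Finset (Finset (Node X b))}

omit [Fintype X] in
lemma mem_TA {v : V} : v ∈ TA S ↔ ∀ j : Fin (b v), (Sum.inr ⟨v, j⟩ : Node X b) ∈ S := by
  simp [TA]

lemma mem_TI {v : V} : v ∈ TI S ↔ v ∉ TA S ∧ ∀ x : X, (Sum.inl (x, v) : Node X b) ∈ S := by
  simp [TI]

omit [Fintype X] in
lemma mem_Sx {v : V} {x : X} : v ∈ Sx S x ↔ (Sum.inl (x, v) : Node X b) ∈ S := by
  simp [Sx]

omit [Fintype X] in
lemma mem_Iso {v : V} {x : X} : v ∈ Iso 𝒞 x ↔ ({Sum.inl (x, v)} : Finset (Node X b)) ∈ 𝒞 := by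
  simp [Iso]

lemma mem_TC {v : V} {C : Finset (Node X b)} :
    v ∈ TC S C ↔ v ∉ TI S ∧ ∃ j : Fin (b v), (Sum.inr ⟨v, j⟩ : Node X b) ∈ C := by
  simp [TC]

lemma iso_TA (hS : Sys (HG A b) univ S 𝒞) {v : V} {x : X} (h : v ∈ Iso 𝒞 x) : v ∈ TA S := by
  rw [mem_Iso] at h
  rw [mem_TA]
  intro j
  have h1 := hS.cl _ h (Sum.inl (x, v)) (mem_singleton_self _) (Sum.inr ⟨v, j⟩) (mem_univ _) rfl
  rcases h1 with h1 | h1
  · rw [mem_singleton] at h1
    cases h1
  · exact h1

lemma iso_nbr (hS : Sys (HG A b) univ S 𝒞) {v u : V} {x : X} (h : v ∈ Iso 𝒞 x)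
    (hvu : (A x).Adj v u) : u ∈ Sx S x := by
  rw [mem_Iso] at h
  rw [mem_Sx]
  have h1 := hS.cl _ h (Sum.inl (x, v)) (mem_singleton_self _) (Sum.inl (x, u)) (mem_univ _)
    ⟨rfl, hvu⟩
  rcases h1 with h1 | h1
  · rw [mem_singleton] at h1
    have h2 := Sum.inl_injective h1
    have h3 : u = v := congrArg Prod.snd h2
    exact absurd h3 hvu.ne'
  · exact h1

lemma TI_Sx (x : X) : TI S ⊆ Sx S x := fun v hv => mem_Sx.2 ((mem_TI.1 hv).2 x)

lemma TC_TA (hS : Sys (HG A b) univ S 𝒞) {C : Finset (Node X b)} (hC : C ∈ 𝒞) {v : V}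
    (hv : v ∈ TC S C) : v ∉ TA S := by
  obtain ⟨_, j, hj⟩ := mem_TC.1 hv
  intro h
  exact disjoint_left.1 (hS.disS C hC) hj (mem_TA.1 h j)

lemma TC_row (hS : Sys (HG A b) univ S 𝒞) {C : Finset (Node X b)} (hC : C ∈ 𝒞) {v : V}
    (hv : v ∈ TC S C) {x : X} (hx : v ∉ Sx S x) : (Sum.inl (x, v) : Node X b) ∈ C := by
  obtain ⟨_, j, hj⟩ := mem_TC.1 hv
  rcases hS.cl C hC _ hj (Sum.inl (x, v)) (mem_univ _) rfl with h | h
  · exact h
  · exact absurd (mem_Sx.2 h) hx

lemma TC_disj (hS : Sys (HG A b) univ S 𝒞) {C C' : Finset (Node X b)} (hC : C ∈ 𝒞) (hC' : C' ∈ 𝒞)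
    {v : V} (hv : v ∈ TC S C) (hv' : v ∈ TC S C') : C = C' := by
  by_contra hne
  have h1 : ∃ x : X, v ∉ Sx S x := by
    by_contra h
    push Not at h
    exact (mem_TC.1 hv).1 (mem_TI.2 ⟨TC_TA hS hC hv, fun x => mem_Sx.1 (h x)⟩)
  obtain ⟨x, hx⟩ := h1
  exact disjoint_left.1 (hS.pd C hC C' hC' hne) (TC_row hS hC hv hx) (TC_row hS hC' hv' hx)

/-- exceptional columns of the row `x` -/
def Bx (S : Finset (Node X b)) (𝒞 : Finset (Finset (Node X b))) (x : X) : Finset V :=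
  (TA S \ Iso 𝒞 x) ∪ (Sx S x \ TI S)

/-- number of exceptional columns (with multiplicity) -/
def bx (S : Finset (Node X b)) (𝒞 : Finset (Finset (Node X b))) (x : X) : ℕ :=
  (TA S \ Iso 𝒞 x).card + (Sx S x \ TI S).card

lemma Bx_card (x : X) : (Bx S 𝒞 x).card ≤ bx S 𝒞 x := card_union_le _ _

/-- pairs leaving the member classes -/
def ee (S : Finset (Node X b)) (𝒞 : Finset (Finset (Node X b))) (u v : V) : ℝ :=
  ∑ C ∈ 𝒞, if u ∈ TC S C ∧ v ∉ TC S C then 1 else 0

/-- weight of an ordered pair -/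
def ff (S : Finset (Node X b)) (𝒞 : Finset (Finset (Node X b))) (u v : V) : ℝ :=
  ee S 𝒞 u v + (if u ∈ TA S then 1 else 0) - (if u ∈ TI S then 1 else 0)

lemma ee_zero {u v : V} (h : ∀ C ∈ 𝒞, u ∈ TC S C → v ∈ TC S C) : ee S 𝒞 u v = 0 := by
  unfold ee
  refine Finset.sum_eq_zero fun C hC => ?_
  rw [if_neg]
  rintro ⟨h1, h2⟩
  exact h2 (h C hC h1)

lemma ee_le (hS : Sys (HG A b) univ S 𝒞) (u v : V) : ee S 𝒞 u v ≤ 1 := by
  by_cases h : ∃ C ∈ 𝒞, u ∈ TC S C
  · obtain ⟨C, hC, hu⟩ := h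
    unfold ee
    rw [Finset.sum_eq_single C]
    · split_ifs <;> norm_num
    · intro C' hC' hne
      rw [if_neg]
      rintro ⟨h1, _⟩
      exact hne (TC_disj hS hC' hC h1 hu)
    · intro h; exact absurd hC h
  · rw [ee_zero fun C hC hu => absurd ⟨C, hC, hu⟩ h]
    norm_num

lemma ff_le (hS : Sys (HG A b) univ S 𝒞) (u v : V) : ff S 𝒞 u v ≤ 1 := by
  unfold ff
  have h0 := ee_le hS u v
  by_cases h1 : u ∈ TA S
  · have h2 : ee S 𝒞 u v = 0 := ee_zero fun C hC hu => absurd h1 (TC_TA hS hC hu)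
    rw [h2, if_pos h1]
    split_ifs <;> norm_num
  · rw [if_neg h1]
    split_ifs <;> linarith

lemma ff_TI (u v : V) (h : u ∈ TI S) : ff S 𝒞 u v = -1 := by
  unfold ff
  rw [ee_zero fun C _ hu => absurd h (mem_TC.1 hu).1, if_pos h, if_neg (mem_TI.1 h).1]
  norm_num

lemma ff_key (hS : Sys (HG A b) univ S 𝒞) {x : X} {u v : V} (huv : (A x).Adj u v)
    (hu : u ∉ Bx S 𝒞 x) (hv : v ∉ Bx S 𝒞 x) : ff S 𝒞 u v + ff S 𝒞 v u ≤ 0 := by
  have aux : ∀ u v : V, (A x).Adj u v → u ∉ Bx S 𝒞 x → v ∉ Bx S 𝒞 x → u ∈ TA S → v ∈ TI S := by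
    intro u v huv hu hv h
    have h1 : u ∈ Iso 𝒞 x := by
      by_contra h1
      exact hu (mem_union_left _ (mem_sdiff.2 ⟨h, h1⟩))
    by_contra h2
    exact hv (mem_union_right _ (mem_sdiff.2 ⟨iso_nbr hS h1 huv, h2⟩))
  by_cases h1 : u ∈ TA S
  · have h2 := aux u v huv hu hv h1
    rw [ff_TI v u h2]
    have := ff_le hS u v
    linarith
  by_cases h2 : v ∈ TA S
  · have h3 := aux v u huv.symm hv hu h2
    rw [ff_TI u v h3]
    have := ff_le hS v u
    linarith
  by_cases h3 : u ∈ TI S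
  · rw [ff_TI u v h3]
    have := ff_le hS v u
    linarith
  by_cases h4 : v ∈ TI S
  · rw [ff_TI v u h4]
    have := ff_le hS u v
    linarith
  have h5 : u ∉ Sx S x := fun h => hu (mem_union_right _ (mem_sdiff.2 ⟨h, h3⟩))
  have h6 : v ∉ Sx S x := fun h => hv (mem_union_right _ (mem_sdiff.2 ⟨h, h4⟩))
  have aux2 : ∀ u v : V, (A x).Adj u v → v ∉ TA S → v ∉ TI S → u ∉ Sx S x → v ∉ Sx S x →
      ee S 𝒞 u v = 0 := by
    intro u v huv hvA hvI hu5 hv6
    refine ee_zero fun C hC huC => ?_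
    have h7 := TC_row hS hC huC hu5
    have h8 : (Sum.inl (x, v) : Node X b) ∈ C := by
      rcases hS.cl C hC _ h7 (Sum.inl (x, v)) (mem_univ _) ⟨rfl, huv⟩ with h | h
      · exact h
      · exact absurd (mem_Sx.2 h) hv6
    rw [mem_TA] at hvA
    push Not at hvA
    obtain ⟨j, hj⟩ := hvA
    refine mem_TC.2 ⟨hvI, j, ?_⟩
    rcases hS.cl C hC _ h8 (Sum.inr ⟨v, j⟩) (mem_univ _) rfl with h | h
    · exact h
    · exact absurd h hj
  unfold ff
  rw [aux2 u v huv h2 h4 h5 h6, aux2 v u huv.symm h1 h3 h6 h5, if_neg h1, if_neg h2, if_neg h3,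
    if_neg h4]
  norm_num

/-- (b) the number of classes with slack columns -/
lemma classes_le (hS : Sys (HG A b) univ S 𝒞) {d : ℕ} (hd : ∀ v, dg G v = d)
    {r : ℕ} (hAd : ∀ x v, dg (A x) v ≤ r) {a : ℕ}
    (hav : ∀ v w, G.Adj v w → a ≤ av A v w) :
    (a : ℝ) * ((∑ C ∈ 𝒞, (cut G (TC S C) : ℝ)) + d * (TA S).card - d * (TI S).card) ≤
      2 * r * ∑ x, (bx S 𝒞 x : ℝ) := by
  classical
  have e1 : (∑ C ∈ 𝒞, (cut G (TC S C) : ℝ)) + d * (TA S).card - d * (TI S).card =
      ∑ p : V × V, if G.Adj p.1 p.2 then ff S 𝒞 p.1 p.2 else 0 := by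
    have f1 : (∑ C ∈ 𝒞, (cut G (TC S C) : ℝ)) =
        ∑ p : V × V, if G.Adj p.1 p.2 then ee S 𝒞 p.1 p.2 else 0 := by
      unfold cut ee
      push_cast
      rw [Finset.sum_comm]
      refine Finset.sum_congr rfl fun p _ => ?_
      by_cases h : G.Adj p.1 p.2
      · rw [if_pos h]
        refine Finset.sum_congr rfl fun C _ => ?_
        by_cases h1 : p.1 ∈ TC S C <;> by_cases h2 : p.2 ∈ TC S C <;> simp [h, h1, h2]
      · rw [if_neg h]
        refine Finset.sum_eq_zero fun C _ => ?_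
        simp [h]
    have f2 : ∀ T : Finset V, (d : ℝ) * T.card =
        ∑ p : V × V, if G.Adj p.1 p.2 then (if p.1 ∈ T then 1 else 0 : ℝ) else 0 := by
      intro T
      rw [Fintype.sum_prod_type]
      have : ∀ u : V, (∑ v : V, if G.Adj u v then (if u ∈ T then 1 else 0 : ℝ) else 0) =
          if u ∈ T then (d : ℝ) else 0 := by
        intro u
        by_cases hu : u ∈ T
        · simp only [hu, if_true]
          rw [← hd u]
          unfold dg
          push_cast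
          rfl
        · simp [hu]
      rw [Finset.sum_congr rfl fun u _ => this u, ← Finset.sum_filter, Finset.sum_const,
        nsmul_eq_mul, Finset.filter_mem_eq_inter, Finset.univ_inter, mul_comm]
    rw [f1, f2 (TA S), f2 (TI S), ← Finset.sum_add_distrib, ← Finset.sum_sub_distrib]
    refine Finset.sum_congr rfl fun p _ => ?_
    by_cases h : G.Adj p.1 p.2
    · simp only [h, if_true]
      rfl
    · simp [h]
  rw [e1]
  have e2 : 2 * ((a : ℝ) * ∑ p : V × V, if G.Adj p.1 p.2 then ff S 𝒞 p.1 p.2 else 0) =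
      ∑ p : V × V, if G.Adj p.1 p.2 then (a : ℝ) * (ff S 𝒞 p.1 p.2 + ff S 𝒞 p.2 p.1) else 0 := by
    have f3 : (∑ p : V × V, if G.Adj p.1 p.2 then ff S 𝒞 p.1 p.2 else 0) =
        ∑ p : V × V, if G.Adj p.1 p.2 then ff S 𝒞 p.2 p.1 else 0 := by
      rw [← Equiv.sum_comp (Equiv.prodComm V V)]
      refine Finset.sum_congr rfl fun p _ => ?_
      simp only [Equiv.prodComm_apply, Prod.fst_swap, Prod.snd_swap]
      exact if_congr (SimpleGraph.adj_comm _ _ _) rfl rfl
    rw [two_mul]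
    conv_lhs => arg 2; rw [f3]
    rw [← mul_add, ← Finset.sum_add_distrib, Finset.mul_sum]
    refine Finset.sum_congr rfl fun p _ => ?_
    split_ifs <;> ring
  have e3 : (∑ p : V × V, if G.Adj p.1 p.2 then (a : ℝ) * (ff S 𝒞 p.1 p.2 + ff S 𝒞 p.2 p.1)
      else 0) ≤ ∑ p : V × V, ∑ x : X, if (A x).Adj p.1 p.2 then
        2 * ((if p.1 ∈ Bx S 𝒞 x then 1 else 0 : ℝ) + (if p.2 ∈ Bx S 𝒞 x then 1 else 0)) else 0 := by
    refine Finset.sum_le_sum fun p _ => ?_
    have hpos : ∀ x : X, (0 : ℝ) ≤ if (A x).Adj p.1 p.2 then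
        2 * ((if p.1 ∈ Bx S 𝒞 x then 1 else 0 : ℝ) + (if p.2 ∈ Bx S 𝒞 x then 1 else 0)) else 0 := by
      intro x
      split_ifs <;> norm_num
    by_cases h : G.Adj p.1 p.2
    · rw [if_pos h]
      by_cases hle : ff S 𝒞 p.1 p.2 + ff S 𝒞 p.2 p.1 ≤ 0
      · refine le_trans (mul_nonpos_of_nonneg_of_nonpos (Nat.cast_nonneg _) hle) ?_
        exact Finset.sum_nonneg fun x _ => hpos x
      · have h1 : ff S 𝒞 p.1 p.2 + ff S 𝒞 p.2 p.1 ≤ 2 := by
          have h1 := ff_le hS p.1 p.2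
          have h2 := ff_le hS p.2 p.1
          linarith
        calc (a : ℝ) * (ff S 𝒞 p.1 p.2 + ff S 𝒞 p.2 p.1) ≤ (av A p.1 p.2 : ℝ) * 2 := by
              refine mul_le_mul ?_ h1 (not_le.1 hle).le (Nat.cast_nonneg _)
              exact_mod_cast hav _ _ h
          _ = ∑ x : X, if (A x).Adj p.1 p.2 then (2 : ℝ) else 0 := by
              unfold av
              rw [← Finset.sum_filter, Finset.sum_const, nsmul_eq_mul]
          _ ≤ _ := by
              refine Finset.sum_le_sum fun x _ => ?_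
              by_cases hx : (A x).Adj p.1 p.2
              · rw [if_pos hx, if_pos hx]
                by_cases h3 : p.1 ∈ Bx S 𝒞 x
                · rw [if_pos h3]
                  split_ifs <;> norm_num
                · by_cases h4 : p.2 ∈ Bx S 𝒞 x
                  · rw [if_pos h4, if_neg h3]
                    norm_num
                  · exact absurd (ff_key hS hx h3 h4) hle
              · rw [if_neg hx, if_neg hx]
    · rw [if_neg h]
      exact Finset.sum_nonneg fun x _ => hpos x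
  have e4 : (∑ p : V × V, ∑ x : X, if (A x).Adj p.1 p.2 then
        2 * ((if p.1 ∈ Bx S 𝒞 x then 1 else 0 : ℝ) + (if p.2 ∈ Bx S 𝒞 x then 1 else 0)) else 0) =
      4 * ∑ x : X, ∑ u ∈ Bx S 𝒞 x, (dg (A x) u : ℝ) := by
    rw [Finset.sum_comm, Finset.mul_sum]
    refine Finset.sum_congr rfl fun x _ => ?_
    have g1 : (∑ p : V × V, if (A x).Adj p.1 p.2 then (if p.1 ∈ Bx S 𝒞 x then 1 else 0 : ℝ)
        else 0) = ∑ u ∈ Bx S 𝒞 x, (dg (A x) u : ℝ) := by
      rw [Fintype.sum_prod_type, ← Finset.sum_subset (Finset.subset_univ (Bx S 𝒞 x))]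
      · refine Finset.sum_congr rfl fun u hu => ?_
        unfold dg
        push_cast
        refine Finset.sum_congr rfl fun v _ => ?_
        simp [hu]
      · intro u _ hu
        refine Finset.sum_eq_zero fun v _ => ?_
        simp [hu]
    have g2 : (∑ p : V × V, if (A x).Adj p.1 p.2 then (if p.2 ∈ Bx S 𝒞 x then 1 else 0 : ℝ)
        else 0) = ∑ p : V × V, if (A x).Adj p.1 p.2 then (if p.1 ∈ Bx S 𝒞 x then 1 else 0 : ℝ)
        else 0 := by
      rw [← Equiv.sum_comp (Equiv.prodComm V V)]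
      refine Finset.sum_congr rfl fun p _ => ?_
      simp only [Equiv.prodComm_apply, Prod.fst_swap, Prod.snd_swap]
      exact if_congr (SimpleGraph.adj_comm _ _ _) rfl rfl
    have g3 : (∑ p : V × V, if (A x).Adj p.1 p.2 then
        2 * ((if p.1 ∈ Bx S 𝒞 x then 1 else 0 : ℝ) + (if p.2 ∈ Bx S 𝒞 x then 1 else 0)) else 0) =
        2 * ((∑ p : V × V, if (A x).Adj p.1 p.2 then (if p.1 ∈ Bx S 𝒞 x then 1 else 0 : ℝ)
        else 0) + ∑ p : V × V, if (A x).Adj p.1 p.2 then (if p.2 ∈ Bx S 𝒞 x then 1 else 0 : ℝ)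
        else 0) := by
      rw [← Finset.sum_add_distrib, Finset.mul_sum]
      refine Finset.sum_congr rfl fun p _ => ?_
      split_ifs <;> ring
    rw [g3, g2, g1]
    ring
  have e5 : (∑ x : X, ∑ u ∈ Bx S 𝒞 x, (dg (A x) u : ℝ)) ≤ r * ∑ x, (bx S 𝒞 x : ℝ) := by
    rw [Finset.mul_sum]
    refine Finset.sum_le_sum fun x _ => ?_
    calc (∑ u ∈ Bx S 𝒞 x, (dg (A x) u : ℝ)) ≤ ∑ u ∈ Bx S 𝒞 x, (r : ℝ) := by
          refine Finset.sum_le_sum fun u _ => ?_
          exact_mod_cast hAd x u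
      _ = r * ((Bx S 𝒞 x).card : ℝ) := by rw [Finset.sum_const, nsmul_eq_mul, mul_comm]
      _ ≤ r * (bx S 𝒞 x : ℝ) := by
          refine mul_le_mul_of_nonneg_left ?_ (Nat.cast_nonneg _)
          exact_mod_cast Bx_card x
  have e6 := e2 ▸ (e3.trans (le_of_eq e4))
  nlinarith [e6, e5]

/-- the members with slack columns -/
def QQ (S : Finset (Node X b)) (𝒞 : Finset (Finset (Node X b))) : Finset (Finset (Node X b)) :=
  𝒞.filter fun C => (TC S C).Nonempty

/-- number of members -/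
lemma card_fam (hS : Sys (HG A b) univ S 𝒞)
    (hbad : ∀ C ∈ 𝒞, C.card = 1 ∨ ¬ C ⊆ univ.image Sum.inl) :
    𝒞.card ≤ ∑ x, (Iso 𝒞 x).card + ∑ v ∈ TI S, b v + (QQ S 𝒞).card := by
  classical
  set 𝒞₁ : Finset (Finset (Node X b)) :=
    (univ.sigma fun x : X => Iso 𝒞 x).image fun q => {Sum.inl (q.1, q.2)} with h𝒞₁
  set 𝒞₂ : Finset (Finset (Node X b)) :=
    𝒞.filter fun C => ∃ v ∈ TI S, ∃ j : Fin (b v), (Sum.inr ⟨v, j⟩ : Node X b) ∈ C with h𝒞₂
  have hsub : 𝒞 ⊆ 𝒞₁ ∪ 𝒞₂ ∪ QQ S 𝒞 := by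
    intro C hC
    have hslack : ∀ v : V, ∀ j : Fin (b v), (Sum.inr ⟨v, j⟩ : Node X b) ∈ C →
        C ∈ 𝒞₁ ∪ 𝒞₂ ∪ QQ S 𝒞 := by
      intro v j hj
      by_cases hv : v ∈ TI S
      · exact mem_union_left _ (mem_union_right _ (mem_filter.2 ⟨hC, v, hv, j, hj⟩))
      · exact mem_union_right _ (mem_filter.2 ⟨hC, v, mem_TC.2 ⟨hv, j, hj⟩⟩)
    rcases hbad C hC with h | h
    · obtain ⟨n, rfl⟩ := card_eq_one.1 h
      rcases n with ⟨x, v⟩ | ⟨v, j⟩
      · refine mem_union_left _ (mem_union_left _ (mem_image.2 ⟨⟨x, v⟩, ?_, rfl⟩))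
        exact mem_sigma.2 ⟨mem_univ _, mem_Iso.2 hC⟩
      · exact hslack v j (mem_singleton_self _)
    · rw [Finset.not_subset] at h
      obtain ⟨n, hn, hn2⟩ := h
      rcases n with p | ⟨v, j⟩
      · exact absurd (mem_image.2 ⟨p, mem_univ _, rfl⟩) hn2
      · exact hslack v j hn
  have h1 : 𝒞₁.card ≤ ∑ x, (Iso 𝒞 x).card := by
    rw [← card_sigma]
    exact card_image_le
  have h2 : 𝒞₂.card ≤ ∑ v ∈ TI S, b v := by
    have h3 : ∀ C : 𝒞₂, ∃ q : Σ v : V, Fin (b v), q.1 ∈ TI S ∧ (Sum.inr q : Node X b) ∈ C.1 := by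
      intro C
      obtain ⟨v, hv, j, hj⟩ := (mem_filter.1 C.2).2
      exact ⟨⟨v, j⟩, hv, hj⟩
    choose q hq1 hq2 using h3
    have h4 : Function.Injective q := by
      intro C C' h
      apply Subtype.ext
      by_contra hne
      refine disjoint_left.1 (hS.pd C.1 (mem_filter.1 C.2).1 C'.1 (mem_filter.1 C'.2).1 hne)
        (hq2 C) ?_
      rw [h]
      exact hq2 C'
    have h5 : (univ.image q).card = 𝒞₂.card := by
      rw [card_image_of_injective _ h4, card_univ, Fintype.card_coe]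
    have h6 : univ.image q ⊆ (TI S).sigma fun v => (univ : Finset (Fin (b v))) := by
      intro p hp
      obtain ⟨C, _, rfl⟩ := mem_image.1 hp
      exact mem_sigma.2 ⟨hq1 C, mem_univ _⟩
    have h7 := card_le_card h6
    rw [h5, card_sigma] at h7
    simpa using h7
  calc 𝒞.card ≤ (𝒞₁ ∪ 𝒞₂ ∪ QQ S 𝒞).card := card_le_card hsub
    _ ≤ (𝒞₁ ∪ 𝒞₂).card + (QQ S 𝒞).card := card_union_le _ _
    _ ≤ 𝒞₁.card + 𝒞₂.card + (QQ S 𝒞).card := by
        have := card_union_le 𝒞₁ 𝒞₂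
        omega
    _ ≤ _ := by omega

/-- size of the separating set -/
lemma card_sep (S : Finset (Node X b)) :
    ∑ x, (Sx S x).card + ∑ v ∈ TA S, b v ≤ S.card := by
  classical
  set S₁ : Finset (Node X b) := (univ.sigma fun x : X => Sx S x).image fun q => Sum.inl (q.1, q.2)
    with hS₁
  set S₂ : Finset (Node X b) :=
    ((TA S).sigma fun v => (univ : Finset (Fin (b v)))).image fun q => Sum.inr q with hS₂
  have h1 : S₁.card = ∑ x, (Sx S x).card := by
    rw [hS₁, card_image_of_injective, card_sigma]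
    intro q q' h
    have h2 := Sum.inl_injective h
    obtain ⟨x, v⟩ := q
    obtain ⟨x', v'⟩ := q'
    simp only [Prod.mk.injEq] at h2
    obtain ⟨rfl, rfl⟩ := h2
    rfl
  have h2 : S₂.card = ∑ v ∈ TA S, b v := by
    rw [hS₂, card_image_of_injective _ Sum.inr_injective, card_sigma]
    simp
  have h3 : Disjoint S₁ S₂ := by
    rw [disjoint_left]
    intro n hn hn'
    obtain ⟨q, _, rfl⟩ := mem_image.1 hn
    obtain ⟨q', _, h⟩ := mem_image.1 hn'
    cases h
  have h4 : S₁ ∪ S₂ ⊆ S := by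
    intro n hn
    rcases mem_union.1 hn with h | h
    · obtain ⟨q, hq, rfl⟩ := mem_image.1 h
      exact mem_Sx.1 (mem_sigma.1 hq).2
    · obtain ⟨q, hq, rfl⟩ := mem_image.1 h
      exact mem_TA.1 (mem_sigma.1 hq).1 q.2
  have h5 := card_le_card h4
  rw [card_union_of_disjoint h3, h1, h2] at h5
  exact h5

/-- (a) the weights of a row -/
lemma row_le (hS : Sys (HG A b) univ S 𝒞) (x : X) (w : V → V → ℝ) (hw0 : ∀ u v, 0 ≤ w u v)
    (hws : ∀ u v, w u v = w v u) (hwA : ∀ u v, ¬ (A x).Adj u v → w u v = 0) (ρ : ℝ)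
    (hrow : ∀ v, ∑ u, w v u ≤ ρ) :
    ∑ v ∈ TA S, ∑ u, w v u ≤ ∑ v ∈ TI S, ∑ u, w v u + ρ * bx S 𝒞 x := by
  classical
  have hIA : Iso 𝒞 x ⊆ TA S := fun v hv => iso_TA hS hv
  have h1 : ∑ v ∈ Iso 𝒞 x, ∑ u, w v u ≤ ∑ v ∈ Sx S x, ∑ u, w v u := by
    calc ∑ v ∈ Iso 𝒞 x, ∑ u, w v u = ∑ v ∈ Iso 𝒞 x, ∑ u ∈ Sx S x, w v u := by
          refine Finset.sum_congr rfl fun v hv => ?_
          symm
          refine Finset.sum_subset (Finset.subset_univ _) fun u _ hu => ?_
          refine hwA v u fun h => hu (iso_nbr hS hv h)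
      _ = ∑ u ∈ Sx S x, ∑ v ∈ Iso 𝒞 x, w u v := by
          rw [Finset.sum_comm]
          exact Finset.sum_congr rfl fun u _ => Finset.sum_congr rfl fun v _ => hws v u
      _ ≤ _ := by
          refine Finset.sum_le_sum fun u _ => ?_
          exact Finset.sum_le_sum_of_subset_of_nonneg (Finset.subset_univ _)
            fun v _ _ => hw0 u v
  have h2 : ∀ T : Finset V, ∑ v ∈ T, ∑ u, w v u ≤ ρ * T.card := by
    intro T
    calc ∑ v ∈ T, ∑ u, w v u ≤ ∑ v ∈ T, ρ := Finset.sum_le_sum fun v _ => hrow v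
      _ = ρ * T.card := by rw [Finset.sum_const, nsmul_eq_mul, mul_comm]
  have h3 := Finset.sum_sdiff (f := fun v => ∑ u, w v u) hIA
  have h4 := Finset.sum_sdiff (f := fun v => ∑ u, w v u) (TI_Sx (S := S) x)
  have h5 := h2 (TA S \ Iso 𝒞 x)
  have h6 := h2 (Sx S x \ TI S)
  unfold bx
  push_cast
  linarith

/-- **Barrier count.** -/
theorem count [Nontrivial V] (hS : Sys (HG A b) univ S 𝒞)
    (hbad : ∀ C ∈ 𝒞, C.card = 1 ∨ ¬ C ⊆ univ.image Sum.inl)
    {d : ℕ} (hd0 : 0 < d) (hd : ∀ v, dg G v = d)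
    (hcut : ∀ S : Finset V, S.Nonempty → S ≠ univ → d ≤ cut G S)
    {r : ℕ} (hAd : ∀ x v, dg (A x) v ≤ r) {a : ℕ} (ha : 0 < a)
    (hav : ∀ v w, G.Adj v w → a ≤ av A v w)
    (w : X → V → V → ℝ) (hw0 : ∀ x u v, 0 ≤ w x u v) (hws : ∀ x u v, w x u v = w x v u)
    (hwA : ∀ x u v, ¬ (A x).Adj u v → w x u v = 0) (η : ℝ) (hη : 2 * (r : ℝ) < η * d * a)
    (hrow : ∀ x v, ∑ u, w x v u ≤ 1 - η) (s : V → ℝ)
    (hcol : ∀ v, ∑ x, ∑ u, w x v u + 1 + s v = (Fintype.card X : ℝ) - b v)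
    (hs : ∀ T T' : Finset V, Disjoint T T' → ∑ v ∈ T, s v - ∑ v ∈ T', s v ≤ 1) :
    𝒞.card ≤ S.card + 1 ∧ (𝒞.card = S.card + 1 → ∀ x, bx S 𝒞 x = 0) := by
  classical
  have hdR : (0 : ℝ) < d := by exact_mod_cast hd0
  have haR : (0 : ℝ) < a := by exact_mod_cast ha
  set B : ℝ := ∑ x, (bx S 𝒞 x : ℝ) with hB
  have hB0 : 0 ≤ B := Finset.sum_nonneg fun x _ => Nat.cast_nonneg _
  -- it is enough to have a strictly decreasing bound
  suffices h : ∃ κ : ℝ, 0 < κ ∧ (𝒞.card : ℝ) ≤ S.card + 1 - κ * B by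
    obtain ⟨κ, hκ, h⟩ := h
    have h0 : 0 ≤ κ * B := mul_nonneg hκ.le hB0
    constructor
    · have : (𝒞.card : ℝ) ≤ ((S.card + 1 : ℕ) : ℝ) := by push_cast; linarith
      exact_mod_cast this
    · intro he x
      rw [he] at h
      push_cast at h
      have h1 : B ≤ 0 := by
        by_contra h2
        have := mul_pos hκ (not_le.1 h2)
        linarith
      have h3 : (bx S 𝒞 x : ℝ) ≤ B :=
        Finset.single_le_sum (f := fun x => (bx S 𝒞 x : ℝ)) (fun y _ => Nat.cast_nonneg _)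
          (mem_univ x)
      have h4 : (bx S 𝒞 x : ℝ) ≤ 0 := h3.trans h1
      have h5 : bx S 𝒞 x ≤ 0 := by exact_mod_cast h4
      omega
  have c1 : (𝒞.card : ℝ) ≤ ∑ x, ((Iso 𝒞 x).card : ℝ) + ∑ v ∈ TI S, (b v : ℝ) +
      (QQ S 𝒞).card := by
    exact_mod_cast card_fam hS hbad
  have c2 : ∑ x, ((Sx S x).card : ℝ) + ∑ v ∈ TA S, (b v : ℝ) ≤ S.card := by
    exact_mod_cast card_sep S
  have hIA : ∀ x, Iso 𝒞 x ⊆ TA S := fun x v hv => iso_TA hS hv
  have c3 : ∀ x, ((TA S).card : ℝ) = (Iso 𝒞 x).card + (TA S \ Iso 𝒞 x).card := fun x => by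
    have := card_sdiff_add_card_eq_card (hIA x)
    have h2 : (TA S).card = (Iso 𝒞 x).card + (TA S \ Iso 𝒞 x).card := by omega
    exact_mod_cast h2
  have c4 : ∀ x, ((Sx S x).card : ℝ) = (TI S).card + (Sx S x \ TI S).card := fun x => by
    have := card_sdiff_add_card_eq_card (TI_Sx (S := S) x)
    have h2 : (Sx S x).card = (TI S).card + (Sx S x \ TI S).card := by omega
    exact_mod_cast h2
  have c5 : ∑ x, ((Iso 𝒞 x).card : ℝ) - ∑ x, ((Sx S x).card : ℝ) =
      (Fintype.card X : ℝ) * ((TA S).card - (TI S).card) - B := by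
    rw [hB, ← Finset.sum_sub_distrib]
    have : ∀ x, ((Iso 𝒞 x).card : ℝ) - (Sx S x).card =
        ((TA S).card - (TI S).card) - (bx S 𝒞 x : ℝ) := fun x => by
      unfold bx
      push_cast
      have h1 := c3 x
      have h2 := c4 x
      linarith
    rw [Finset.sum_congr rfl fun x _ => this x, Finset.sum_sub_distrib, Finset.sum_const,
      nsmul_eq_mul, Finset.card_univ]
  by_cases hQ : ∃ C ∈ 𝒞, TC S C = univ
  · -- one class is everything
    obtain ⟨C, hC, hCu⟩ := hQ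
    have hTA : TA S = ∅ := by
      rw [Finset.eq_empty_iff_forall_notMem]
      intro v
      exact TC_TA hS hC (hCu ▸ mem_univ v)
    have hTI : TI S = ∅ := by
      rw [Finset.eq_empty_iff_forall_notMem]
      intro v
      exact (mem_TC.1 (hCu ▸ mem_univ v : v ∈ TC S C)).1
    have hQQ : QQ S 𝒞 ⊆ {C} := by
      intro C' hC'
      obtain ⟨h1, v, hv⟩ := mem_filter.1 hC'
      rw [mem_singleton]
      exact TC_disj hS h1 hC hv (hCu ▸ mem_univ v)
    have hQ1 : (QQ S 𝒞).card ≤ 1 := (card_le_card hQQ).trans (by simp)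
    refine ⟨1, one_pos, ?_⟩
    have h1 : ((QQ S 𝒞).card : ℝ) ≤ 1 := by exact_mod_cast hQ1
    rw [hTA, hTI] at c5
    rw [hTI, Finset.sum_empty] at c1
    rw [hTA, Finset.sum_empty] at c2
    simp only [card_empty, Nat.cast_zero, sub_zero, mul_zero, zero_sub] at c5
    linarith
  · push Not at hQ
    refine ⟨η - 2 * r / (d * a), ?_, ?_⟩
    · rw [sub_pos, div_lt_iff₀ (mul_pos hdR haR)]
      linarith
    have d1 : (d : ℝ) * (QQ S 𝒞).card ≤ ∑ C ∈ 𝒞, (cut G (TC S C) : ℝ) := by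
      calc (d : ℝ) * (QQ S 𝒞).card = ∑ C ∈ QQ S 𝒞, (d : ℝ) := by
            rw [Finset.sum_const, nsmul_eq_mul, mul_comm]
        _ ≤ ∑ C ∈ QQ S 𝒞, (cut G (TC S C) : ℝ) := by
            refine Finset.sum_le_sum fun C hC => ?_
            obtain ⟨h1, h2⟩ := mem_filter.1 hC
            exact_mod_cast hcut _ h2 (hQ C h1)
        _ ≤ _ := Finset.sum_le_sum_of_subset_of_nonneg (filter_subset _ _)
            fun C _ _ => Nat.cast_nonneg _
    have d2 := classes_le hS hd hAd hav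
    have d3 : ((QQ S 𝒞).card : ℝ) ≤ (TI S).card - (TA S).card + 2 * r / (d * a) * B := by
      have h1 : (a : ℝ) * (d * (QQ S 𝒞).card + d * (TA S).card - d * (TI S).card) ≤
          2 * r * B := by
        refine le_trans (mul_le_mul_of_nonneg_left ?_ haR.le) d2
        linarith
      have h2 : ((QQ S 𝒞).card : ℝ) + (TA S).card - (TI S).card ≤ 2 * r / (d * a) * B := by
        rw [div_mul_eq_mul_div, le_div_iff₀ (mul_pos hdR haR)]
        calc _ = (a : ℝ) * (d * (QQ S 𝒞).card + d * (TA S).card - d * (TI S).card) := by ring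
          _ ≤ _ := h1
      linarith
    have d4 : ∀ x, ∑ v ∈ TA S, ∑ u, w x v u ≤ ∑ v ∈ TI S, ∑ u, w x v u + (1 - η) * bx S 𝒞 x :=
      fun x => row_le hS x (w x) (hw0 x) (hws x) (hwA x) (1 - η) (hrow x)
    have d5 : ∑ v ∈ TA S, ∑ x, ∑ u, w x v u ≤ ∑ v ∈ TI S, ∑ x, ∑ u, w x v u + (1 - η) * B := by
      rw [Finset.sum_comm, Finset.sum_comm (s := TI S), hB, Finset.mul_sum,
        ← Finset.sum_add_distrib]
      exact Finset.sum_le_sum fun x _ => d4 x
    have d6 : ∀ T : Finset V, ∑ v ∈ T, (b v : ℝ) = (Fintype.card X : ℝ) * T.card -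
        (∑ v ∈ T, ∑ x, ∑ u, w x v u) - T.card - ∑ v ∈ T, s v := by
      intro T
      have : ∀ v, (b v : ℝ) = (Fintype.card X : ℝ) - (∑ x, ∑ u, w x v u) - 1 - s v := fun v => by
        have := hcol v
        linarith
      rw [Finset.sum_congr rfl fun v _ => this v, Finset.sum_sub_distrib, Finset.sum_sub_distrib,
        Finset.sum_sub_distrib, Finset.sum_const, Finset.sum_const, nsmul_eq_mul, nsmul_eq_mul]
      ring
    have d7 : Disjoint (TA S) (TI S) := by
      rw [disjoint_left]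
      intro v h1 h2
      exact (mem_TI.1 h2).1 h1
    have d8 := hs _ _ d7
    have e1 := d6 (TA S)
    have e2 := d6 (TI S)
    have : (η - 2 * r / (d * a)) * B = η * B - 2 * r / (d * a) * B := by ring
    rw [this]
    have : (1 - η) * B = B - η * B := by ring
    rw [this] at d5
    have : (Fintype.card X : ℝ) * ((TA S).card - (TI S).card) =
      (Fintype.card X : ℝ) * (TA S).card - (Fintype.card X : ℝ) * (TI S).card := by ring
    rw [this] at c5
    linarith

/-- from a hybrid factor to permutations -/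
theorem sigma_of_good (D : V → ℕ) (hDle : ∀ v, D v ≤ Fintype.card X)
    (hgood : Good (HG A fun v => Fintype.card X - D v) (univ.image Sum.inl) univ) :
    ∃ σ : X → Equiv.Perm V, (∀ x v, σ x v = v ∨ (A x).Adj v (σ x v)) ∧
      ∀ v, (univ.filter fun x => σ x v ≠ v).card = D v := by
  classical
  obtain ⟨π, hπ0, hπi, hπ2⟩ := hgood
  have hπ1 : ∀ w, (HG A fun v => Fintype.card X - D v).Adj w (π w) := fun w =>
    (hπ0 w (mem_univ _)).2
  have hπinj : Function.Injective π := fun w w' h => hπi (mem_coe.2 (mem_univ w))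
    (mem_coe.2 (mem_univ w')) h
  have hnR : ∀ q : (Σ v : V, Fin (Fintype.card X - D v)),
      (Sum.inr q : Node X fun v => Fintype.card X - D v) ∉
        (univ.image Sum.inl : Finset (Node X fun v => Fintype.card X - D v)) := by
    intro q hq
    obtain ⟨p, _, hp⟩ := Finset.mem_image.1 hq
    cases hp
  -- the moves
  let f : X → V → V := fun x v => match π (Sum.inl (x, v)) with
    | Sum.inl q => q.2
    | Sum.inr _ => v
  have hfl : ∀ x v q, π (Sum.inl (x, v)) = Sum.inl q → q = (x, f x v) ∧ (A x).Adj v (f x v) := by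
    intro x v q hq
    have h1 := hπ1 (Sum.inl (x, v))
    rw [hq] at h1
    have h2 : f x v = q.2 := by simp only [f, hq]
    obtain ⟨h3, h4⟩ := h1
    simp only at h3 h4
    rw [h2]
    exact ⟨Prod.ext h3.symm rfl, h4⟩
  have hfr : ∀ x v q, π (Sum.inl (x, v)) = Sum.inr q → f x v = v ∧ q.1 = v ∧
      π (Sum.inr q) = Sum.inl (x, v) := by
    intro x v q hq
    have h1 := hπ1 (Sum.inl (x, v))
    rw [hq] at h1
    have h2 := hπ2 (Sum.inl (x, v)) (mem_univ _) (Or.inr (by rw [hq]; exact hnR q))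
    rw [hq] at h2
    refine ⟨by simp only [f, hq], ?_, h2⟩
    exact (show v = q.1 from h1).symm
  have hinj : ∀ x, Function.Injective (f x) := by
    intro x v v' h
    rcases hv : π (Sum.inl (x, v)) with q | q <;> rcases hv' : π (Sum.inl (x, v')) with q' | q'
    · obtain ⟨h1, _⟩ := hfl x v q hv
      obtain ⟨h2, _⟩ := hfl x v' q' hv'
      have h3 : q = q' := by rw [h1, h2, h]
      have h4 : π (Sum.inl (x, v)) = π (Sum.inl (x, v')) := by rw [hv, hv', h3]
      have h5 := Sum.inl_injective (hπinj h4)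
      exact congrArg Prod.snd h5
    · exfalso
      obtain ⟨h1, _⟩ := hfl x v q hv
      obtain ⟨h2, _, h3⟩ := hfr x v' q' hv'
      have h4 : π (Sum.inl (x, v)) = Sum.inl (x, v') := by rw [hv, h1, h, h2]
      have h5 := hπinj (h4.trans h3.symm)
      cases h5
    · exfalso
      obtain ⟨h1, _⟩ := hfl x v' q' hv'
      obtain ⟨h2, _, h3⟩ := hfr x v q hv
      have h4 : π (Sum.inl (x, v')) = Sum.inl (x, v) := by rw [hv', h1, ← h, h2]
      have h5 := hπinj (h4.trans h3.symm)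
      cases h5
    · obtain ⟨h1, _⟩ := hfr x v q hv
      obtain ⟨h2, _⟩ := hfr x v' q' hv'
      rw [← h1, ← h2, h]
  refine ⟨fun x => Equiv.ofBijective (f x) (Finite.injective_iff_bijective.1 (hinj x)), ?_, ?_⟩
  · intro x v
    show f x v = v ∨ (A x).Adj v (f x v)
    rcases hv : π (Sum.inl (x, v)) with q | q
    · exact Or.inr (hfl x v q hv).2
    · exact Or.inl (hfr x v q hv).1
  · intro v
    show (univ.filter fun x => f x v ≠ v).card = D v
    have h1 : (univ.filter fun x => f x v = v).card = Fintype.card X - D v := by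
      have h2 : ∀ j : Fin (Fintype.card X - D v), ∃ x, π (Sum.inr ⟨v, j⟩) = Sum.inl (x, v) := by
        intro j
        have h3 := hπ1 (Sum.inr ⟨v, j⟩)
        rcases hv : π (Sum.inr ⟨v, j⟩) with ⟨x, w⟩ | q
        · rw [hv] at h3
          exact ⟨x, by rw [show w = v from h3]⟩
        · rw [hv] at h3
          exact absurd h3 id
      choose g hg using h2
      have hg2 : ∀ j, π (Sum.inl (g j, v)) = Sum.inr ⟨v, j⟩ := by
        intro j
        have := hπ2 (Sum.inr ⟨v, j⟩) (mem_univ _) (Or.inl (hnR _))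
        rwa [hg j] at this
      rw [← Fintype.card_fin (Fintype.card X - D v), ← Finset.card_univ, eq_comm]
      refine Finset.card_bij (fun j _ => g j) ?_ ?_ ?_
      · intro j _
        rw [Finset.mem_filter]
        exact ⟨Finset.mem_univ _, (hfr _ _ _ (hg2 j)).1⟩
      · intro j _ j' _ h
        have h3 := hg2 j
        rw [h, hg2 j'] at h3
        have h4 := Sum.inr_injective h3
        have h5 : j' = j := by
          simpa using h4
        exact h5.symm
      · intro x hx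
        have hx2 := (Finset.mem_filter.1 hx).2
        rcases hv : π (Sum.inl (x, v)) with q | ⟨v', j⟩
        · exact absurd hx2.symm (hfl x v q hv).2.ne
        · obtain ⟨_, h3, h4⟩ := hfr x v _ hv
          simp only at h3
          subst h3
          refine ⟨j, Finset.mem_univ _, ?_⟩
          have h5 := (hg j).symm.trans h4
          have h6 := Sum.inl_injective h5
          exact congrArg Prod.fst h6
    have h2 := Finset.card_filter_add_card_filter_not (s := (univ : Finset X))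
      (p := fun x => f x v = v)
    rw [Finset.card_univ, h1] at h2
    have h3 := hDle v
    have h4 : (univ.filter fun x => f x v ≠ v).card = (univ.filter fun x => ¬ f x v = v).card := rfl
    omega

/-- the hypothesis of the hybrid theorem -/
theorem fam_le [Nontrivial V] {d : ℕ} (hd0 : 0 < d) (hd : ∀ v, dg G v = d)
    (hcut : ∀ S : Finset V, S.Nonempty → S ≠ univ → d ≤ cut G S)
    {r : ℕ} (hAd : ∀ x v, dg (A x) v ≤ r) {a : ℕ} (ha : 0 < a)
    (hav : ∀ v w, G.Adj v w → a ≤ av A v w)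
    (D : V → ℕ) (hDle : ∀ v, D v ≤ Fintype.card X) (heven : Even (∑ v, D v))
    (hbv : ∀ v, b v = Fintype.card X - D v)
    (w : X → V → V → ℝ) (hw0 : ∀ x u v, 0 ≤ w x u v) (hws : ∀ x u v, w x u v = w x v u)
    (hwA : ∀ x u v, ¬ (A x).Adj u v → w x u v = 0) (η : ℝ) (hη : 2 * (r : ℝ) < η * d * a)
    (hrow : ∀ x v, ∑ u, w x v u ≤ 1 - η) (s : V → ℝ)
    (hcol : ∀ v, ∑ x, ∑ u, w x v u + 1 + s v = D v)
    (hs : ∀ T T' : Finset V, Disjoint T T' → ∑ v ∈ T, s v - ∑ v ∈ T', s v ≤ 1)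
    (S : Finset (Node X b)) (𝒞 : Finset (Finset (Node X b))) (hS : Sys (HG A b) univ S 𝒞)
    (hbad : ∀ C ∈ 𝒞, C.card = 1 ∨ ¬ C ⊆ univ.image Sum.inl) : 𝒞.card ≤ S.card := by
  classical
  have hcol' : ∀ v, ∑ x, ∑ u, w x v u + 1 + s v = (Fintype.card X : ℝ) - b v := fun v => by
    rw [hcol v, hbv v, Nat.cast_sub (hDle v)]
    ring
  have hcount : ∀ 𝒞 : Finset (Finset (Node X b)), Sys (HG A b) univ S 𝒞 →
      (∀ C ∈ 𝒞, C.card = 1 ∨ ¬ C ⊆ univ.image Sum.inl) →
      𝒞.card ≤ S.card + 1 ∧ (𝒞.card = S.card + 1 → ∀ x, bx S 𝒞 x = 0) := fun 𝒞 h1 h2 =>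
    count h1 h2 hd0 hd hcut hAd ha hav w hw0 hws hwA η hη hrow s hcol' hs
  obtain ⟨h1, h2⟩ := hcount 𝒞 hS hbad
  by_contra hlt
  have heq : 𝒞.card = S.card + 1 := by omega
  have hbx := h2 heq
  have hcardN : Even (Fintype.card (Node X b)) := by
    rw [Fintype.card_sum, Fintype.card_prod, Fintype.card_sigma]
    have h1 : ∑ v, Fintype.card (Fin (b v)) + ∑ v, D v = Fintype.card X * Fintype.card V := by
      rw [← Finset.sum_add_distrib]
      have : ∀ v, Fintype.card (Fin (b v)) + D v = Fintype.card X := fun v => by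
        rw [Fintype.card_fin, hbv v]
        exact Nat.sub_add_cancel (hDle v)
      rw [Finset.sum_congr rfl fun v _ => this v, Finset.sum_const, Finset.card_univ, smul_eq_mul,
        mul_comm]
    rw [← h1]
    rw [Nat.even_iff] at heven ⊢
    omega
  set L : Finset (Node X b) := univ \ (S ∪ 𝒞.biUnion id) with hL
  have hLC : ∀ n ∈ L, n ∉ S ∧ ∀ C ∈ 𝒞, n ∉ C := by
    intro n hn
    rw [hL, mem_sdiff, mem_union, not_or] at hn
    exact ⟨hn.2.1, fun C hC h => hn.2.2 (mem_biUnion.2 ⟨C, hC, h⟩)⟩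
  have hLcov : ∀ n : Node X b, n ∈ L ∨ n ∈ S ∨ ∃ C ∈ 𝒞, n ∈ C := by
    intro n
    by_cases h : n ∈ S ∪ 𝒞.biUnion id
    · rcases mem_union.1 h with h | h
      · exact Or.inr (Or.inl h)
      · obtain ⟨C, hC, hn⟩ := mem_biUnion.1 h
        exact Or.inr (Or.inr ⟨C, hC, hn⟩)
    · exact Or.inl (mem_sdiff.2 ⟨mem_univ _, h⟩)
  have hodd : Odd L.card := by
    have h3 : L.card + (S ∪ 𝒞.biUnion id).card = Fintype.card (Node X b) := by
      rw [hL, card_sdiff_add_card_eq_card (subset_univ _), card_univ]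
    have h4 : (S ∪ 𝒞.biUnion id).card = S.card + ∑ C ∈ 𝒞, C.card := by
      rw [card_union_of_disjoint, card_biUnion]
      · rfl
      · intro C hC C' hC' hne
        exact hS.pd C hC C' hC' hne
      · rw [disjoint_biUnion_right]
        intro C hC
        exact (hS.disS C hC).symm
    have h5 := sum_odd_parity 𝒞 hS.odd
    rw [Nat.odd_iff]
    rw [Nat.even_iff] at hcardN
    omega
  have hLne : L.Nonempty := by
    rw [← card_pos]
    obtain ⟨k, hk⟩ := hodd
    omega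
  by_cases hLR : L ⊆ univ.image Sum.inl
  · obtain ⟨n, hn⟩ := hLne
    obtain ⟨⟨x, v⟩, _, rfl⟩ := mem_image.1 (hLR hn)
    obtain ⟨hnS, hnC⟩ := hLC _ hn
    have hvA : v ∈ TA S := by
      rw [mem_TA]
      intro j
      rcases hLcov (Sum.inr ⟨v, j⟩) with h | h | ⟨C, hC, h⟩
      · obtain ⟨p, _, hp⟩ := mem_image.1 (hLR h)
        cases hp
      · exact h
      · rcases hS.cl C hC _ h (Sum.inl (x, v)) (mem_univ _) rfl with h3 | h3
        · exact absurd h3 (hnC C hC)
        · exact absurd h3 hnS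
    have hvI : v ∉ Iso 𝒞 x := by
      intro h
      exact hnC _ (mem_Iso.1 h) (mem_singleton_self _)
    have h3 : 0 < (TA S \ Iso 𝒞 x).card := card_pos.2 ⟨v, mem_sdiff.2 ⟨hvA, hvI⟩⟩
    have h4 := hbx x
    unfold bx at h4
    omega
  · have hLnot : L ∉ 𝒞 := by
      intro h
      obtain ⟨n, hn⟩ := hLne
      exact (hLC n hn).2 L h hn
    have hS' : Sys (HG A b) univ S (insert L 𝒞) := by
      refine ⟨hS.sub, fun C _ => subset_univ _, ?_, ?_, ?_, ?_⟩
      · intro C hC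
        rcases mem_insert.1 hC with rfl | hC
        · rw [disjoint_left]
          exact fun n hn => (hLC n hn).1
        · exact hS.disS C hC
      · intro C hC C' hC' hne
        rcases mem_insert.1 hC with rfl | hC
        · rcases mem_insert.1 hC' with rfl | hC'
          · exact absurd rfl hne
          · rw [disjoint_left]
            exact fun n hn => (hLC n hn).2 C' hC'
        · rcases mem_insert.1 hC' with rfl | hC'
          · rw [disjoint_right]
            exact fun n hn => (hLC n hn).2 C hC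
          · exact hS.pd C hC C' hC' hne
      · intro C hC
        rcases mem_insert.1 hC with rfl | hC
        · exact hodd
        · exact hS.odd C hC
      · intro C hC c hc n _ hcn
        rcases mem_insert.1 hC with rfl | hC
        · rcases hLcov n with h | h | ⟨C', hC', h⟩
          · exact Or.inl h
          · exact Or.inr h
          · rcases hS.cl C' hC' _ h c (mem_univ _) hcn.symm with h3 | h3
            · exact absurd h3 ((hLC c hc).2 C' hC')
            · exact absurd h3 (hLC c hc).1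
        · exact hS.cl C hC c hc n (mem_univ _) hcn
    have h3 := (hcount _ hS' (by
      intro C hC
      rcases mem_insert.1 hC with rfl | hC
      · exact Or.inr hLR
      · exact hbad C hC)).1
    rw [card_insert_of_notMem hLnot] at h3
    omega

/-- **Rows theorem, parity version.** -/
theorem rows_pm [Nontrivial V] {d : ℕ} (hd0 : 0 < d) (hd : ∀ v, dg G v = d)
    (hcut : ∀ S : Finset V, S.Nonempty → S ≠ univ → d ≤ cut G S)
    {r : ℕ} (hAd : ∀ x v, dg (A x) v ≤ r) {a : ℕ} (ha : 0 < a)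
    (hav : ∀ v w, G.Adj v w → a ≤ av A v w)
    (D : V → ℕ) (hDle : ∀ v, D v ≤ Fintype.card X) (heven : Even (∑ v, D v))
    (w : X → V → V → ℝ) (hw0 : ∀ x u v, 0 ≤ w x u v) (hws : ∀ x u v, w x u v = w x v u)
    (hwA : ∀ x u v, ¬ (A x).Adj u v → w x u v = 0) (η : ℝ) (hη : 2 * (r : ℝ) < η * d * a)
    (hrow : ∀ x v, ∑ u, w x v u ≤ 1 - η) (s : V → ℝ)
    (hcol : ∀ v, ∑ x, ∑ u, w x v u + 1 + s v = D v)
    (hs : ∀ T T' : Finset V, Disjoint T T' → ∑ v ∈ T, s v - ∑ v ∈ T', s v ≤ 1) :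
    ∃ σ : X → Equiv.Perm V, (∀ x v, σ x v = v ∨ (A x).Adj v (σ x v)) ∧
      ∀ v, (univ.filter fun x => σ x v ≠ v).card = D v :=
  sigma_of_good D hDle (UPS3.hybrid _ _ _ fun S 𝒞 hS hbad =>
    fam_le hd0 hd hcut hAd ha hav D hDle heven (fun _ => rfl) w hw0 hws hwA η hη hrow s hcol hs
      S 𝒞 hS hbad)

end PM

end Pool.Agent.UPS2
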