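import Pool.Agent.Lib.MP_876e19_co_ups.Levels
import Pool.Agent.Lib.MP_876e19_co_ups.InvSys
import Pool.Agent.Lib.MP_876e19_co_ups.InvKills
import Pool.Agent.Lib.MP_876e19_co_ups.NumFinal

/-!
# The input of the cut tests, from the graph

`setup`: a twin-free vertex-transitive graph of valency `d ≥ 4` with two vertices at distance at
least 4 has a system of `jj d` disjoint paths with all the bounds which `cut_tests_kills` needs.
-/

set_option autoImplicit false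

namespace Pool.Agent.UPS.NB

open Finset Atoms IB Pool.Agent.UPS.Num

/-- the lower bound of the connectivity -/
structure KTab (d κ : ℕ) : Prop where
  four_le : 4 ≤ κ
  le : κ ≤ d
  two_thirds : 2 * (d + 1) ≤ 3 * κ
  d4 : d = 4 → κ = 4
  d5 : d = 5 → κ = 5
  d6 : d = 6 → κ = 6
  d7 : d = 7 → κ = 6
  d8 : d = 8 → κ = 8
  d9 : d = 9 → κ = 8
  d10 : 10 ≤ d → 2 * (d + 2) ≤ 3 * κ

/-- the data which `cut_tests_kills` needs -/
structure SysOK {V : Type*} [Fintype V] {G : SimpleGraph V} (d κ j : ℕ) (M : MSys G j)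
    (L S : ℝ) : Prop where
  hd : ∀ x, (G.neighborSet x).ncard = d
  d3 : 3 ≤ d
  k0 : 0 < j
  kd : j ≤ d
  hL : PairLe M L
  hS : SumLe M S
  L2 : 2 ≤ L
  Sk : (j : ℝ) < S
  Leq : L = 2 * ((Fintype.card V : ℝ) - j) / ((κ : ℝ) - j + 2)
  Seq : S = j * ((Fintype.card V : ℝ) - 2) / κ
  mend : ∀ e ∈ G.edgeSet, mEnd M e ≤ 4 * ((Fintype.card V : ℝ) - 1 - d) / j

lemma jj_pos (d : ℕ) : 0 < jj d := by
  unfold jj
  split_ifs <;> norm_num

lemma jj_le {d κ : ℕ} (h : KTab d κ) : jj d ≤ κ := by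
  unfold jj
  have h1 := h.four_le
  have h2 := h.le
  have h3 := h.d5
  have h4 := h.d6
  have h5 := h.d7
  have h6 := h.d8
  have h7 := h.d9
  have h8 := h.d10
  split_ifs with h9
  · exact h1
  · omega

/-- the system from a given lower bound `κ` of the connectivity -/
theorem setup_of {V : Type*} [Fintype V] [DecidableEq V] {G : SimpleGraph V} [DecidableRel G.Adj]
    (hG : G.Connected) (hT : VT G) {d κ : ℕ}
    (hreg : ∀ v, (univ.filter fun w => G.Adj v w).card = d) (hlow : Lower G κ) (hd : 4 ≤ d)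
    (hjκ : jj d ≤ κ) (h4 : 4 ≤ κ) (hκd : κ ≤ d) (hn' : 2 * (d + 1) + κ ≤ Fintype.card V) :
    ∃ (M : MSys G (jj d)) (L S : ℝ), SysOK d κ (jj d) M L S := by
  obtain ⟨M₀⟩ := Lev.exists_sys hG hT hreg hlow hκd
  have hj0 := jj_pos d
  obtain ⟨M, hL, hS⟩ := exists_short_sys M₀ hj0 hjκ
  have hdn : ∀ x, (G.neighborSet x).ncard = d := by
    intro x
    rw [← hreg x, ← Set.ncard_coe_finset]
    congr 1
    ext w; simp
  have hnR : 2 * ((d : ℝ) + 1) + κ ≤ Fintype.card V := by exact_mod_cast hn'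
  have hjR : (0 : ℝ) < jj d := by exact_mod_cast hj0
  have hjκR : (jj d : ℝ) ≤ κ := by exact_mod_cast hjκ
  have hdR : (4 : ℝ) ≤ d := by exact_mod_cast hd
  have hκR : (4 : ℝ) ≤ κ := by exact_mod_cast h4
  refine ⟨M, _, _, hdn, by omega, hj0, hjκ.trans hκd, hL, hS, ?_, ?_, rfl, rfl, ?_⟩
  · rw [le_div_iff₀ (by linarith)]
    linarith
  · rw [lt_div_iff₀ (by linarith)]
    nlinarith
  · intro e he
    induction e with
    | _ u w =>
      have h1 := mEnd_le M hdn (SimpleGraph.Adj.ne he)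
      rw [Nat.cast_sub (by omega), Nat.cast_sub (by omega)] at h1
      push_cast at h1
      exact h1

theorem setup {V : Type*} [Fintype V] [DecidableEq V] {G : SimpleGraph V} [DecidableRel G.Adj]
    (hG : G.Connected) (hT : VT G) {d : ℕ}
    (hreg : ∀ v, (univ.filter fun w => G.Adj v w).card = d) (hTF : TwinFree G) (hd : 4 ≤ d)
    (hfar : ∃ x y, 4 ≤ G.dist x y) :
    ∃ κ : ℕ, KTab d κ ∧ Lower G κ ∧ 2 * (d + 1) + κ ≤ Fintype.card V ∧
      ∃ (M : MSys G (jj d)) (L S : ℝ), SysOK d κ (jj d) M L S := by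
  obtain ⟨κ, h4, hκd, hlow, h23, c4, c5, c6, c7, c8, c9, c10⟩ := Lev.exists_kappa hG hT hreg hTF hd
  have hK : KTab d κ := ⟨h4, hκd, h23, c4, c5, c6, c7, c8, c9, c10⟩
  obtain ⟨x₀, y₀, hxy⟩ := hfar
  have hn := Lev.card_ge_levels hG hreg hlow (D := 4) (by norm_num) hxy
  have hn' : 2 * (d + 1) + κ ≤ Fintype.card V := by omega
  exact ⟨κ, hK, hlow, hn', setup_of hG hT hreg hlow hd (jj_le hK) h4 hκd hn'⟩

/-- in the ranges of the numerics all hypotheses on `κ` hold -/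
lemma rangeE_facts {n d κ : ℕ} (h : RangeE n d κ) (h2 : 2 * (d + 1) + κ ≤ n) :
    4 ≤ d ∧ jj d ≤ κ ∧ 4 ≤ κ ∧
      4 * ((n : ℝ) - 1 - d) / jj d < 2 * ((n : ℝ) - (d + 3)) ∧
      4 * ((n : ℝ) - 1 - d) / jj d < 2 * ((n : ℝ) - 6) := by
  have hj : 4 ≤ d ∧ jj d ≤ κ ∧ 4 ≤ κ := by
    unfold jj RangeE at *
    split_ifs <;> omega
  obtain ⟨h4, hjκ, hκ⟩ := hj
  refine ⟨h4, hjκ, hκ, ?_, ?_⟩
  all_goals
    have h3 : 2 * ((d : ℝ) + 1) + κ ≤ n := by exact_mod_cast h2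
    have h4' : (4 : ℝ) ≤ d := by exact_mod_cast h4
    have hκ' : (4 : ℝ) ≤ κ := by exact_mod_cast hκ
    have hj4 : (4 : ℝ) ≤ jj d := by
      unfold jj
      split_ifs <;> norm_num
    rw [div_lt_iff₀ (by linarith)]
    nlinarith

lemma rangeO_facts {n d κ : ℕ} (h : RangeO n d κ) (h2 : 2 * (d + 1) + κ ≤ n) :
    4 ≤ d ∧ jj d ≤ κ ∧ 4 ≤ κ ∧
      4 * ((n : ℝ) - 1 - d) / jj d < 2 * ((n : ℝ) - (d + 2)) ∧
      4 * ((n : ℝ) - 1 - d) / jj d < 2 * ((n : ℝ) - 5) := by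
  have hj : 4 ≤ d ∧ jj d ≤ κ ∧ 4 ≤ κ := by
    unfold jj RangeO at *
    split_ifs <;> omega
  obtain ⟨h4, hjκ, hκ⟩ := hj
  refine ⟨h4, hjκ, hκ, ?_, ?_⟩
  all_goals
    have h3 : 2 * ((d : ℝ) + 1) + κ ≤ n := by exact_mod_cast h2
    have h4' : (4 : ℝ) ≤ d := by exact_mod_cast h4
    have hκ' : (4 : ℝ) ≤ κ := by exact_mod_cast hκ
    have hj4 : (4 : ℝ) ≤ jj d := by
      unfold jj
      split_ifs <;> norm_num
    rw [div_lt_iff₀ (by linarith)]
    nlinarith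

end Pool.Agent.UPS.NB
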