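import Mathlib

/-!
# Sums of `exp (-t cost)` over subspaces (helper76)

`sub_sum`: for linear functionals `ℓ e` on a finite space over a finite field with weights
`w e ≥ 0`, `cost y = ∑ over the e with ℓ e y ≠ 0 of w e`, the sum of `exp (-t cost y)` over a
subspace of dimension `r` is at most `g r t`, if `g` solves the death chain equations with rates
`lam r ≤` total weight of the functionals which do not vanish on the subspace.

`signed_sum`: the case of `{-1,0,1}`-valued functions on the vertices of a graph.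
-/

set_option autoImplicit false

namespace Pool.Agent.UPS.SignedSum

open Finset Real

section general

variable {F M E : Type*} [Field F] [Fintype F] [AddCommGroup M] [Module F M] [Fintype M]
  [Fintype E]

open Classical in
/-- weight of the functionals that do not vanish at `y` -/
noncomputable def cost (ℓ : E → M →ₗ[F] F) (w : E → ℝ) (y : M) : ℝ :=
  ∑ e, if ℓ e y = 0 then 0 else w e

open Classical in
/-- partial partition function -/
noncomputable def Z (ℓ : E → M →ₗ[F] F) (w : E → ℝ) (U : Submodule F M) (t : ℝ) : ℝ :=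
  ∑ y : M, if y ∈ U then exp (-(t * cost ℓ w y)) else 0

open Classical in
/-- weight of the functionals which do not vanish on `U` -/
noncomputable def tot (ℓ : E → M →ₗ[F] F) (w : E → ℝ) (U : Submodule F M) : ℝ :=
  ∑ e, if U ≤ LinearMap.ker (ℓ e) then 0 else w e

lemma hasDerivAt_Z (ℓ : E → M →ₗ[F] F) (w : E → ℝ) (U : Submodule F M) (t : ℝ) :
    HasDerivAt (Z ℓ w U)
      (-∑ e, w e * (Z ℓ w U t - Z ℓ w (U ⊓ LinearMap.ker (ℓ e)) t)) t := by
  classical
  have h1 : HasDerivAt (fun t => ∑ y : M, if y ∈ U then exp (-(t * cost ℓ w y)) else 0)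
      (∑ y : M, if y ∈ U then exp (-(t * cost ℓ w y)) * (-(cost ℓ w y)) else 0) t := by
    apply HasDerivAt.fun_sum
    intro y _
    split_ifs with hy
    · have h0 : HasDerivAt (fun t : ℝ => -(t * cost ℓ w y)) (-(1 * cost ℓ w y)) t :=
        ((hasDerivAt_id' t).mul_const (cost ℓ w y)).neg
      have h2 := h0.exp
      exact h2.congr_deriv (by ring)
    · exact hasDerivAt_const t 0
  refine h1.congr_deriv ?_
  have h3 : ∀ e, Z ℓ w U t - Z ℓ w (U ⊓ LinearMap.ker (ℓ e)) t =
      ∑ y : M, if y ∈ U then (if ℓ e y = 0 then 0 else exp (-(t * cost ℓ w y))) else 0 := by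
    intro e
    unfold Z
    rw [← Finset.sum_sub_distrib]
    apply Finset.sum_congr rfl
    intro y _
    by_cases hy : y ∈ U <;> by_cases he : ℓ e y = 0 <;>
      simp [Submodule.mem_inf, hy, he, LinearMap.mem_ker]
  simp only [h3]
  rw [← Finset.sum_neg_distrib]
  simp only [Finset.mul_sum]
  simp only [← Finset.sum_neg_distrib]
  rw [Finset.sum_comm]
  apply Finset.sum_congr rfl
  intro y _
  by_cases hy : y ∈ U
  · simp only [hy, if_true]
    unfold cost
    rw [mul_neg, Finset.mul_sum, ← Finset.sum_neg_distrib]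
    apply Finset.sum_congr rfl
    intro e _
    by_cases he : ℓ e y = 0
    · simp [he]
    · simp only [he, if_false]; ring
  · simp [hy]

lemma Z_zero (ℓ : E → M →ₗ[F] F) (w : E → ℝ) (U : Submodule F M) :
    Z ℓ w U 0 = (Fintype.card F : ℝ) ^ (Module.finrank F U) := by
  classical
  unfold Z
  simp only [zero_mul, neg_zero, exp_zero]
  rw [Finset.sum_ite, Finset.sum_const_zero, add_zero, Finset.sum_const, nsmul_eq_mul, mul_one]
  have h1 := Module.card_eq_pow_finrank (K := F) (V := U)
  have h2 : (Finset.univ.filter (fun y => y ∈ U)).card = Fintype.card U := by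
    rw [Fintype.card_subtype]
  rw [h2]
  have h3 : Fintype.card U = Fintype.card F ^ Module.finrank F U := by
    rw [← h1]
  rw [h3]
  push_cast
  rfl

lemma finrank_inf_ker (f : M →ₗ[F] F) (U : Submodule F M)
    (h : ¬ U ≤ LinearMap.ker f) :
    Module.finrank F U = Module.finrank F (U ⊓ LinearMap.ker f : Submodule F M) + 1 := by
  classical
  -- restrict f to U
  have h1 := LinearMap.finrank_range_add_finrank_ker (f.domRestrict U)
  have h2 : Module.finrank F (LinearMap.range (f.domRestrict U)) = 1 := by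
    have h3 : LinearMap.range (f.domRestrict U) = ⊤ := by
      rw [LinearMap.range_eq_top]
      apply LinearMap.surjective
      intro h0
      apply h
      intro y hy
      rw [LinearMap.mem_ker]
      have := LinearMap.congr_fun h0 ⟨y, hy⟩
      simpa using this
    rw [h3, finrank_top]
    simp
  have h4 : Module.finrank F (LinearMap.ker (f.domRestrict U)) =
      Module.finrank F (U ⊓ LinearMap.ker f : Submodule F M) := by
    have h5 : (LinearMap.ker (f.domRestrict U)).map U.subtype = U ⊓ LinearMap.ker f := by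
      ext y
      simp only [Submodule.mem_map, LinearMap.mem_ker, Submodule.mem_inf, Submodule.subtype_apply,
        Subtype.exists, LinearMap.domRestrict_apply, exists_and_left, exists_prop]
      constructor
      · rintro ⟨z, hz, hzU, rfl⟩
        exact ⟨hzU, hz⟩
      · rintro ⟨hy, hy0⟩
        exact ⟨y, hy0, hy, rfl⟩
    rw [← h5]
    exact (LinearEquiv.finrank_eq (Submodule.equivMapOfInjective U.subtype
      U.injective_subtype (LinearMap.ker (f.domRestrict U))))
  omega

/-- comparison theorem -/
theorem sub_sum (ℓ : E → M →ₗ[F] F) (w : E → ℝ) (hw : ∀ e, 0 ≤ w e) (lam : ℕ → ℝ)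
    (g : ℕ → ℝ → ℝ) (g0 : ∀ t, 0 ≤ t → 1 ≤ g 0 t)
    (gz : ∀ r, (Fintype.card F : ℝ) ^ r ≤ g r 0)
    (gd : ∀ r t, HasDerivAt (g (r + 1)) (-(lam (r + 1) * (g (r + 1) t - g r t))) t)
    (gm : ∀ r t, 0 ≤ t → g r t ≤ g (r + 1) t)
    (U0 : Submodule F M)
    (hlam : ∀ U : Submodule F M, U ≤ U0 → 1 ≤ Module.finrank F U →
      lam (Module.finrank F U) ≤ tot ℓ w U) :
    ∀ (r : ℕ) (U : Submodule F M), U ≤ U0 → Module.finrank F U = r → ∀ t, 0 ≤ t →
      Z ℓ w U t ≤ g r t := by
  classical
  intro r
  induction r with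
  | zero =>
    intro U _ hr t ht
    have hU : U = ⊥ := Submodule.finrank_eq_zero.1 hr
    subst hU
    have : Z ℓ w ⊥ t = 1 := by
      unfold Z
      rw [Finset.sum_eq_single (0 : M)]
      · simp [cost]
      · intro y _ hy
        rw [if_neg]
        rw [Submodule.mem_bot]; exact hy
      · intro h; exact absurd (Finset.mem_univ _) h
    rw [this]
    exact g0 t ht
  | succ r ih =>
    intro U hU hr t ht
    set W := tot ℓ w U with hW
    have hlamW : lam (r + 1) ≤ W := by
      have := hlam U hU (by omega)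
      rwa [hr] at this
    -- the derivative of `Z`
    have hZ' : ∀ s, 0 ≤ s →
        (-∑ e, w e * (Z ℓ w U s - Z ℓ w (U ⊓ LinearMap.ker (ℓ e)) s)) ≤
          -(W * (Z ℓ w U s - g r s)) := by
      intro s hs
      rw [hW]
      unfold tot
      rw [neg_le_neg_iff, Finset.sum_mul]
      apply Finset.sum_le_sum
      intro e _
      by_cases he : U ≤ LinearMap.ker (ℓ e)
      · rw [if_pos he, inf_eq_left.2 he, sub_self, mul_zero, zero_mul]
      · rw [if_neg he]
        apply mul_le_mul_of_nonneg_left _ (hw e)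
        have h1 := finrank_inf_ker (ℓ e) U he
        have h2 := ih (U ⊓ LinearMap.ker (ℓ e)) (inf_le_left.trans hU) (by omega) s hs
        linarith
    set H : ℝ → ℝ := fun s => (Z ℓ w U s - g (r + 1) s) * exp (W * s) with hH
    have hder : ∀ s, HasDerivAt H
        (((-∑ e, w e * (Z ℓ w U s - Z ℓ w (U ⊓ LinearMap.ker (ℓ e)) s)) -
          (-(lam (r + 1) * (g (r + 1) s - g r s)))) * exp (W * s) +
          (Z ℓ w U s - g (r + 1) s) * (exp (W * s) * W)) s := by
      intro s
      have h1 : HasDerivAt (fun s => Z ℓ w U s - g (r + 1) s)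
          ((-∑ e, w e * (Z ℓ w U s - Z ℓ w (U ⊓ LinearMap.ker (ℓ e)) s)) -
          (-(lam (r + 1) * (g (r + 1) s - g r s)))) s :=
        (hasDerivAt_Z ℓ w U s).sub (gd r s)
      have h2 : HasDerivAt (fun s : ℝ => W * s) W s := by
        have := (hasDerivAt_id' s).const_mul W
        exact this.congr_deriv (mul_one W)
      exact h1.mul h2.exp
    have hanti : AntitoneOn H (Set.Ici 0) := by
      apply antitoneOn_of_deriv_nonpos (convex_Ici 0)
      · exact fun s _ => (hder s).continuousAt.continuousWithinAt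
      · exact fun s _ => (hder s).differentiableAt.differentiableWithinAt
      · intro s hs
        rw [interior_Ici, Set.mem_Ioi] at hs
        rw [(hder s).deriv]
        have h1 := hZ' s hs.le
        have h2 := gm r s hs.le
        have h3 := mul_le_mul_of_nonneg_right hlamW (sub_nonneg.2 h2)
        have h4 : ((-∑ e, w e * (Z ℓ w U s - Z ℓ w (U ⊓ LinearMap.ker (ℓ e)) s)) -
          (-(lam (r + 1) * (g (r + 1) s - g r s)))) + (Z ℓ w U s - g (r + 1) s) * W ≤ 0 := by
          nlinarith
        have h5 := mul_nonpos_of_nonpos_of_nonneg h4 (exp_pos (W * s)).le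
        nlinarith
    have h := hanti (Set.mem_Ici.2 le_rfl) (Set.mem_Ici.2 ht) ht
    have h0 : H 0 ≤ 0 := by
      simp only [hH, mul_zero, exp_zero, mul_one]
      rw [Z_zero, hr]
      have := gz (r + 1)
      linarith
    have h1 : (Z ℓ w U t - g (r + 1) t) * exp (W * t) ≤ 0 := h.trans h0
    by_contra hneg
    push Not at hneg
    have := mul_pos (sub_pos.2 hneg) (exp_pos (W * t))
    linarith

end general

/-! ### signed version -/

section signed

variable {V E : Type*} [Fintype V] [DecidableEq V] [Fintype E]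

/-- the functional of the edge `e` with ends `a e`, `b e` -/
def ell (a b : E → V) (e : E) : (V → ZMod 3) →ₗ[ZMod 3] ZMod 3 :=
  (LinearMap.proj (R := ZMod 3) (φ := fun _ : V => ZMod 3) (a e)) +
    (LinearMap.proj (R := ZMod 3) (φ := fun _ : V => ZMod 3) (b e))

lemma ell_apply (a b : E → V) (e : E) (y : V → ZMod 3) : ell a b e y = y (a e) + y (b e) := rfl

open Classical in
/-- sign of `v` relative to `c` on the subspace `U` -/
noncomputable def sg (U : Submodule (ZMod 3) (V → ZMod 3)) (c v : V) : SignType :=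
  if ∀ y ∈ U, y v = y c then 1 else if ∀ y ∈ U, y v = -y c then -1 else 0

lemma z3_eq_neg : ∀ x : ZMod 3, x = -x → x = 0 := by decide

lemma sg_self (U : Submodule (ZMod 3) (V → ZMod 3)) (c : V) : sg U c c = 1 := by
  unfold sg
  rw [if_pos]
  intro y _
  rfl

lemma sg_ne_zero {U : Submodule (ZMod 3) (V → ZMod 3)} {c v : V} (h : sg U c v ≠ 0) :
    (∀ y ∈ U, y v = y c) ∨ (∀ y ∈ U, y v = -y c) := by
  unfold sg at h
  by_cases h1 : ∀ y ∈ U, y v = y c
  · exact Or.inl h1
  · by_cases h2 : ∀ y ∈ U, y v = -y c
    · exact Or.inr h2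
    · rw [if_neg h1, if_neg h2] at h
      exact absurd rfl h

lemma sg_neg {U : Submodule (ZMod 3) (V → ZMod 3)} {c v v' : V}
    (hc : ∃ y ∈ U, y c ≠ 0) (hv : ∀ y ∈ U, y v + y v' = 0) :
    sg U c v' = - sg U c v := by
  have hv' : ∀ y ∈ U, y v' = - y v := fun y hy => by
    have := hv y hy
    exact eq_neg_of_add_eq_zero_right this
  obtain ⟨y0, hy0, hy0c⟩ := hc
  unfold sg
  by_cases h1 : ∀ y ∈ U, y v = y c
  · have h2 : ¬ ∀ y ∈ U, y v' = y c := by
      intro h
      apply hy0c
      apply z3_eq_neg
      have := hv' y0 hy0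
      rw [h y0 hy0, h1 y0 hy0] at this
      exact this
    have h3 : ∀ y ∈ U, y v' = - y c := fun y hy => by rw [hv' y hy, h1 y hy]
    rw [if_pos h1, if_neg h2, if_pos h3]
  · by_cases h2 : ∀ y ∈ U, y v = - y c
    · have h3 : ∀ y ∈ U, y v' = y c := fun y hy => by rw [hv' y hy, h2 y hy, neg_neg]
      rw [if_neg h1, if_pos h2, if_pos h3, neg_neg]
    · have h3 : ¬ ∀ y ∈ U, y v' = y c := by
        intro h
        apply h2
        intro y hy
        rw [← h y hy, hv' y hy, neg_neg]
      have h4 : ¬ ∀ y ∈ U, y v' = - y c := by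
        intro h
        apply h1
        intro y hy
        have := hv' y hy
        rw [h y hy] at this
        exact (neg_injective this).symm
      rw [if_neg h1, if_neg h2, if_neg h3, if_neg h4, neg_zero]

lemma abs_sign_le (s : SignType) : |((s : SignType) : ℝ)| ≤ 1 := by
  rcases s with _ | _ | _ <;> simp

lemma tot_ge (a b : E → V) (w : E → ℝ) (hw : ∀ e, 0 ≤ w e) {lam : ℝ} (hlam : 0 ≤ lam)
    (h : ∀ y : V → SignType, y ≠ 0 → lam ≤ ∑ e, w e * |((y (a e) : SignType) : ℝ) + y (b e)|)
    (U : Submodule (ZMod 3) (V → ZMod 3)) :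
    (Module.finrank (ZMod 3) U : ℝ) * (lam / 2) ≤ tot (ell a b) w U := by
  classical
  -- representatives
  obtain ⟨Rep, hRep, hmax⟩ := Finset.exists_max_image
    ((Finset.univ : Finset (Finset V)).filter (fun T =>
      (∀ c ∈ T, ∃ y ∈ U, y c ≠ 0) ∧ ∀ c ∈ T, ∀ c' ∈ T, sg U c c' ≠ 0 → c = c'))
    Finset.card ⟨∅, by simp⟩
  rw [Finset.mem_filter] at hRep
  obtain ⟨-, hR1, hR2⟩ := hRep
  have hcov : ∀ v, (∃ y ∈ U, y v ≠ 0) → ∃ c ∈ Rep, sg U c v ≠ 0 := by
    intro v hv
    by_contra hcon
    push Not at hcon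
    have hvR : v ∉ Rep := by
      intro hvR
      have := hcon v hvR
      rw [sg_self] at this
      exact absurd this (by decide)
    have hins : insert v Rep ∈ ((Finset.univ : Finset (Finset V)).filter (fun T =>
      (∀ c ∈ T, ∃ y ∈ U, y c ≠ 0) ∧ ∀ c ∈ T, ∀ c' ∈ T, sg U c c' ≠ 0 → c = c')) := by
      rw [Finset.mem_filter]
      refine ⟨Finset.mem_univ _, ?_, ?_⟩
      · intro c hc
        rcases Finset.mem_insert.1 hc with rfl | hc
        · exact hv
        · exact hR1 c hc
      · intro c hc c' hc' hs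
        rcases Finset.mem_insert.1 hc with hcv | hcR
        · rcases Finset.mem_insert.1 hc' with hcv' | hcR'
          · rw [hcv, hcv']
          · exfalso
            -- `sg U v c' ≠ 0` gives `sg U c' v ≠ 0`
            rw [hcv] at hs
            have h0 := hcon c' hcR'
            rcases sg_ne_zero hs with h1 | h1
            · have : sg U c' v = 1 := by
                unfold sg
                rw [if_pos (fun y hy => (h1 y hy).symm)]
              rw [this] at h0
              exact absurd h0 (by decide)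
            · have h2 : ∀ y ∈ U, y v = - y c' := fun y hy => by rw [h1 y hy, neg_neg]
              unfold sg at h0
              by_cases h3 : ∀ y ∈ U, y v = y c'
              · rw [if_pos h3] at h0
                exact absurd h0 (by decide)
              · rw [if_neg h3, if_pos h2] at h0
                exact absurd h0 (by decide)
        · rcases Finset.mem_insert.1 hc' with hcv' | hcR'
          · rw [hcv'] at hs
            exact absurd (hcon c hcR) hs
          · exact hR2 c hcR c' hcR' hs
    have := hmax _ hins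
    rw [Finset.card_insert_of_notMem hvR] at this
    omega
  -- the dimension is at most the number of representatives
  have hdim : Module.finrank (ZMod 3) U ≤ Rep.card := by
    let f : U →ₗ[ZMod 3] (Rep → ZMod 3) :=
      LinearMap.pi (fun c => (LinearMap.proj (c : V)).comp U.subtype)
    have hf : Function.Injective f := by
      rw [← LinearMap.ker_eq_bot, LinearMap.ker_eq_bot']
      intro y hy
      apply Subtype.ext
      funext v
      by_contra hv
      obtain ⟨c, hc, hs⟩ := hcov v ⟨y.1, y.2, hv⟩
      have h0 : (y : V → ZMod 3) c = 0 := congrFun hy ⟨c, hc⟩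
      rcases sg_ne_zero hs with h1 | h1
      · apply hv
        rw [h1 y.1 y.2, h0]
        rfl
      · apply hv
        rw [h1 y.1 y.2, h0, neg_zero]
        rfl
    have := LinearMap.finrank_le_finrank_of_injective hf
    rw [Module.finrank_fintype_fun_eq_card, Fintype.card_coe] at this
    exact this
  -- every vertex has at most one representative
  have hone : ∀ v, ∑ c ∈ Rep, |((sg U c v : SignType) : ℝ)| ≤ 1 := by
    intro v
    by_cases hex : ∃ c ∈ Rep, sg U c v ≠ 0
    · obtain ⟨c, hc, hs⟩ := hex
      rw [Finset.sum_eq_single_of_mem c hc]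
      · exact abs_sign_le _
      · intro c' hc' hne
        by_contra hcon
        have hs' : sg U c' v ≠ 0 := by
          intro h0
          rw [h0] at hcon
          simp at hcon
        apply hne
        apply hR2 c' hc' c hc
        -- relate `c'` and `c`
        have key : (∀ y ∈ U, y c = y c') ∨ (∀ y ∈ U, y c = - y c') := by
          rcases sg_ne_zero hs with h1 | h1 <;> rcases sg_ne_zero hs' with h2 | h2
          · left; intro y hy; rw [← h1 y hy, h2 y hy]
          · right; intro y hy; rw [← h1 y hy, h2 y hy]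
          · right; intro y hy
            have e1 := h1 y hy
            rw [h2 y hy] at e1
            rw [e1, neg_neg]
          · left; intro y hy
            have e1 := h1 y hy
            rw [h2 y hy] at e1
            exact (neg_injective e1).symm
        unfold sg
        rcases key with h1 | h1
        · rw [if_pos h1]; decide
        · by_cases h3 : ∀ y ∈ U, y c = y c'
          · rw [if_pos h3]; decide
          · rw [if_neg h3, if_pos h1]; decide
    · push Not at hex
      have : ∑ c ∈ Rep, |((sg U c v : SignType) : ℝ)| = 0 := by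
        apply Finset.sum_eq_zero
        intro c hc
        rw [hex c hc]; simp
      rw [this]; exact zero_le_one
  -- double counting
  have hsum : ∑ c ∈ Rep, ∑ e, w e * |((sg U c (a e) : SignType) : ℝ) + sg U c (b e)| ≤
      2 * tot (ell a b) w U := by
    rw [Finset.sum_comm]
    unfold tot
    rw [Finset.mul_sum]
    apply Finset.sum_le_sum
    intro e _
    rw [← Finset.mul_sum]
    by_cases he : U ≤ LinearMap.ker (ell a b e)
    · rw [if_pos he, mul_zero]
      have h0 : ∀ y ∈ U, y (a e) + y (b e) = 0 := by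
        intro y hy
        have := he hy
        rw [LinearMap.mem_ker, ell_apply] at this
        exact this
      have : ∑ c ∈ Rep, |((sg U c (a e) : SignType) : ℝ) + sg U c (b e)| = 0 := by
        apply Finset.sum_eq_zero
        intro c hc
        rw [sg_neg (hR1 c hc) h0]
        rcases sg U c (a e) with _ | _ | _ <;> simp
      rw [this, mul_zero]
    · rw [if_neg he, mul_comm 2]
      apply mul_le_mul_of_nonneg_left _ (hw e)
      calc ∑ c ∈ Rep, |((sg U c (a e) : SignType) : ℝ) + sg U c (b e)|
          ≤ ∑ c ∈ Rep, (|((sg U c (a e) : SignType) : ℝ)| + |((sg U c (b e) : SignType) : ℝ)|) := by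
            apply Finset.sum_le_sum
            intro c _
            exact abs_add_le _ _
        _ ≤ 1 + 1 := by
            rw [Finset.sum_add_distrib]
            exact add_le_add (hone _) (hone _)
        _ = 2 := by norm_num
  have hlow : (Rep.card : ℝ) * lam ≤
      ∑ c ∈ Rep, ∑ e, w e * |((sg U c (a e) : SignType) : ℝ) + sg U c (b e)| := by
    rw [← nsmul_eq_mul, ← Finset.sum_const]
    apply Finset.sum_le_sum
    intro c hc
    apply h
    intro h0
    have : sg U c c = 0 := congrFun h0 c
    rw [sg_self] at this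
    exact absurd this (by decide)
  have hcast : (Module.finrank (ZMod 3) U : ℝ) ≤ Rep.card := by exact_mod_cast hdim
  nlinarith

/-- the bijection from signs to `ZMod 3` -/
noncomputable def sgEquiv : SignType ≃ ZMod 3 :=
  Equiv.ofBijective (fun s : SignType => (s : ZMod 3)) (by decide)

lemma sgEquiv_add : ∀ s s' : SignType, ((s : ZMod 3) + (s' : ZMod 3) = 0) ↔ s = -s' := by decide

lemma sign_real_add (s s' : SignType) : ((s : ℝ) + (s' : ℝ) = 0) ↔ s = -s' := by
  rcases s with _ | _ | _ <;> rcases s' with _ | _ | _ <;> simp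

lemma hasDerivAt_pow_q (lam : ℝ) (r : ℕ) (t : ℝ) :
    HasDerivAt (fun t => (1 + 2 * exp (-(t * (lam / 2)))) ^ (r + 1))
      (-(((r + 1 : ℕ) : ℝ) * (lam / 2) * ((1 + 2 * exp (-(t * (lam / 2)))) ^ (r + 1) -
        (1 + 2 * exp (-(t * (lam / 2)))) ^ r))) t := by
  have h0 : HasDerivAt (fun t : ℝ => -(t * (lam / 2))) (-(1 * (lam / 2))) t :=
    ((hasDerivAt_id' t).mul_const (lam / 2)).neg
  have h1 : HasDerivAt (fun t => 1 + 2 * exp (-(t * (lam / 2))))
      (2 * (exp (-(t * (lam / 2))) * (-(1 * (lam / 2))))) t :=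
    (h0.exp.const_mul 2).const_add 1
  have h2 := h1.pow (r + 1)
  refine h2.congr_deriv ?_
  rw [Nat.add_sub_cancel, pow_succ]
  ring

/-- **signed cut sum** -/
theorem signed_sum (a b : E → V) (w : E → ℝ) (hw : ∀ e, 0 ≤ w e) {lam : ℝ} (hlam : 0 ≤ lam)
    (h : ∀ y : V → SignType, y ≠ 0 → lam ≤ ∑ e, w e * |((y (a e) : SignType) : ℝ) + y (b e)|)
    {t : ℝ} (ht : 0 ≤ t) :
    ∑ y : V → SignType, exp (-(t * ∑ e, if y (a e) = -y (b e) then 0 else w e)) ≤
      (1 + 2 * exp (-(t * (lam / 2)))) ^ (Fintype.card V) := by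
  classical
  have hcard : Fintype.card (ZMod 3) = 3 := ZMod.card 3
  have main := sub_sum (ell a b) w hw (fun r => (r : ℝ) * (lam / 2))
    (fun r t => (1 + 2 * exp (-(t * (lam / 2)))) ^ r)
    (fun t _ => by simp)
    (fun r => by rw [hcard]; norm_num)
    (fun r t => by
      have := hasDerivAt_pow_q lam r t
      exact this)
    (fun r t _ => by
      have h1 : 1 ≤ 1 + 2 * exp (-(t * (lam / 2))) := by
        have := exp_pos (-(t * (lam / 2))); linarith
      exact pow_le_pow_right₀ h1 (Nat.le_succ r))
    ⊤ (fun U _ _ => tot_ge a b w hw hlam h U) (Fintype.card V) ⊤ le_rfl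
    (by rw [finrank_top, Module.finrank_fintype_fun_eq_card]) t ht
  refine le_trans (le_of_eq ?_) main
  unfold Z
  refine Fintype.sum_equiv (Equiv.arrowCongr (Equiv.refl V) sgEquiv) _ _ ?_
  intro y
  rw [if_pos Submodule.mem_top]
  congr 2
  congr 1
  unfold cost
  apply Finset.sum_congr rfl
  intro e _
  have he : (ell a b e) ((Equiv.arrowCongr (Equiv.refl V) sgEquiv) y) = 0 ↔
      y (a e) = -y (b e) := by
    rw [ell_apply]
    exact sgEquiv_add (y (a e)) (y (b e))
  by_cases hy : y (a e) = -y (b e)
  · rw [if_pos hy, if_pos (he.2 hy)]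
  · rw [if_neg hy, if_neg (fun h => hy (he.1 h))]

/-- `(2i+o)^2 ≥ (8/9) (i+o) (4i+o)` for the signed cuts -/
lemma l1_sq_ge (a b : E → V) (y : V → SignType) :
    8 / 9 * (∑ e, if y (a e) = -y (b e) then (0 : ℝ) else 1) *
      (∑ e, (((y (a e) : SignType) : ℝ) + y (b e)) ^ 2) ≤
      (∑ e, |((y (a e) : SignType) : ℝ) + y (b e)|) ^ 2 := by
  -- number of edges with `|z| = 1` and `|z| = 2`
  set o : ℝ := ∑ e, if |((y (a e) : SignType) : ℝ) + y (b e)| = 1 then (1 : ℝ) else 0 with ho
  set i : ℝ := ∑ e, if |((y (a e) : SignType) : ℝ) + y (b e)| = 2 then (1 : ℝ) else 0 with hi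
  have key : ∀ s s' : SignType,
      ((if s = -s' then (0 : ℝ) else 1) =
        (if |(s : ℝ) + s'| = 2 then (1 : ℝ) else 0) + (if |(s : ℝ) + s'| = 1 then (1 : ℝ) else 0)) ∧
      (((s : ℝ) + s') ^ 2 = 4 * (if |(s : ℝ) + s'| = 2 then (1 : ℝ) else 0) +
        (if |(s : ℝ) + s'| = 1 then (1 : ℝ) else 0)) ∧
      (|(s : ℝ) + s'| = 2 * (if |(s : ℝ) + s'| = 2 then (1 : ℝ) else 0) +
        (if |(s : ℝ) + s'| = 1 then (1 : ℝ) else 0)) := by
    intro s s'
    rcases s with _ | _ | _ <;> rcases s' with _ | _ | _ <;> norm_num <;> decide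
  have e1 : (∑ e, if y (a e) = -y (b e) then (0 : ℝ) else 1) = i + o := by
    rw [hi, ho, ← Finset.sum_add_distrib]
    exact Finset.sum_congr rfl fun e _ => (key _ _).1
  have e2 : (∑ e, (((y (a e) : SignType) : ℝ) + y (b e)) ^ 2) = 4 * i + o := by
    rw [hi, ho, Finset.mul_sum, ← Finset.sum_add_distrib]
    exact Finset.sum_congr rfl fun e _ => (key _ _).2.1
  have e3 : (∑ e, |((y (a e) : SignType) : ℝ) + y (b e)|) = 2 * i + o := by
    rw [hi, ho, Finset.mul_sum, ← Finset.sum_add_distrib]
    exact Finset.sum_congr rfl fun e _ => (key _ _).2.2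
  rw [e1, e2, e3]
  nlinarith [sq_nonneg (2 * i - o)]

end signed

end Pool.Agent.UPS.SignedSum
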