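import Pool.Agent.Lib.MP_876e19_co_ups.SignedSum

/-!
# Signed cut sum with two types of classes (helper39)

`signed_sum2`: the sum over all `y : V → {-1,0,1}` of `exp (-t cost y)` is at most
`(1 + 2 d x^(d-1) + (8 - 2 d) x^d)^(n/2)`, `x = exp (-t)`, when every nonzero `y` has
`∑ |y u + y w| ≥ d` and every `y` with at least two nonzero values has `∑ |y u + y w| ≥ 2 d - 2`
(instead of `(1 + 2 x^(d/2))^n` which only uses the first condition).

The proof is the death chain of `SignedSum` with two types of classes of vertices: classes with one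
vertex (weight `α`) and the other ones (weight `β`).
-/

set_option autoImplicit false

namespace Pool.Agent.UPS.SignedSum

open Finset Real

section general

variable {F M E : Type*} [Field F] [Fintype F] [AddCommGroup M] [Module F M] [Fintype M]
  [Fintype E]

/-- comparison theorem with a bound which depends on the subspace -/
theorem sub_sum_gen (ℓ : E → M →ₗ[F] F) (w : E → ℝ) (hw : ∀ e, 0 ≤ w e)
    (P : Submodule F M → Prop)
    (hP : ∀ U e, w e ≠ 0 → P U → P (U ⊓ LinearMap.ker (ℓ e)))
    (g g' : Submodule F M → ℝ → ℝ)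
    (gz : ∀ U, P U → (Fintype.card F : ℝ) ^ (Module.finrank F U) ≤ g U 0)
    (gd : ∀ U, P U → ∀ t, 0 ≤ t → HasDerivAt (g U) (g' U t) t)
    (gi : ∀ U, P U → ∀ t, 0 ≤ t →
      0 ≤ g' U t + ∑ e, w e * (g U t - g (U ⊓ LinearMap.ker (ℓ e)) t)) :
    ∀ (r : ℕ) (U : Submodule F M), P U → Module.finrank F U = r → ∀ t, 0 ≤ t →
      Z ℓ w U t ≤ g U t := by
  classical
  intro r
  induction r using Nat.strong_induction_on with
  | _ r ih =>
    intro U hU hr t ht
    set W := tot ℓ w U with hW
    have hkey : ∀ s, 0 ≤ s →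
        (-∑ e, w e * (Z ℓ w U s - Z ℓ w (U ⊓ LinearMap.ker (ℓ e)) s)) - g' U s +
          (Z ℓ w U s - g U s) * W ≤ 0 := by
      intro s hs
      have h1 := gi U hU s hs
      have h2 : (Z ℓ w U s - g U s) * W ≤
          ∑ e, w e * ((Z ℓ w U s - Z ℓ w (U ⊓ LinearMap.ker (ℓ e)) s) -
            (g U s - g (U ⊓ LinearMap.ker (ℓ e)) s)) := by
        rw [hW]
        unfold tot
        rw [Finset.mul_sum]
        apply Finset.sum_le_sum
        intro e _
        by_cases he : U ≤ LinearMap.ker (ℓ e)
        · rw [if_pos he, inf_eq_left.2 he]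
          simp
        · rw [if_neg he]
          by_cases hwe : w e = 0
          · rw [hwe]; simp
          · have h3 := finrank_inf_ker (ℓ e) U he
            have h4 := ih (Module.finrank F (U ⊓ LinearMap.ker (ℓ e) : Submodule F M)) (by omega)
              (U ⊓ LinearMap.ker (ℓ e)) (hP U e hwe hU) rfl s hs
            have h5 := mul_le_mul_of_nonneg_left h4 (hw e)
            nlinarith
      have h3 : ∑ e, w e * ((Z ℓ w U s - Z ℓ w (U ⊓ LinearMap.ker (ℓ e)) s) -
            (g U s - g (U ⊓ LinearMap.ker (ℓ e)) s)) =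
          ∑ e, w e * (Z ℓ w U s - Z ℓ w (U ⊓ LinearMap.ker (ℓ e)) s) -
            ∑ e, w e * (g U s - g (U ⊓ LinearMap.ker (ℓ e)) s) := by
        rw [← Finset.sum_sub_distrib]
        exact Finset.sum_congr rfl fun e _ => by ring
      rw [h3] at h2
      linarith
    set H : ℝ → ℝ := fun s => (Z ℓ w U s - g U s) * exp (W * s) with hH
    have hder : ∀ s, 0 ≤ s → HasDerivAt H
        (((-∑ e, w e * (Z ℓ w U s - Z ℓ w (U ⊓ LinearMap.ker (ℓ e)) s)) - g' U s) * exp (W * s) +
          (Z ℓ w U s - g U s) * (exp (W * s) * W)) s := by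
      intro s hs
      have h1 : HasDerivAt (fun s => Z ℓ w U s - g U s)
          ((-∑ e, w e * (Z ℓ w U s - Z ℓ w (U ⊓ LinearMap.ker (ℓ e)) s)) - g' U s) s :=
        (hasDerivAt_Z ℓ w U s).sub (gd U hU s hs)
      have h2 : HasDerivAt (fun s : ℝ => W * s) W s := by
        have := (hasDerivAt_id' s).const_mul W
        exact this.congr_deriv (mul_one W)
      exact h1.mul h2.exp
    have hanti : AntitoneOn H (Set.Ici 0) := by
      apply antitoneOn_of_deriv_nonpos (convex_Ici 0)
      · exact fun s hs => (hder s hs).continuousAt.continuousWithinAt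
      · intro s hs
        rw [interior_Ici, Set.mem_Ioi] at hs
        exact (hder s hs.le).differentiableAt.differentiableWithinAt
      · intro s hs
        rw [interior_Ici, Set.mem_Ioi] at hs
        rw [(hder s hs.le).deriv]
        have h4 := hkey s hs.le
        have h5 := mul_nonpos_of_nonpos_of_nonneg h4 (exp_pos (W * s)).le
        nlinarith
    have h := hanti (Set.mem_Ici.2 le_rfl) (Set.mem_Ici.2 ht) ht
    have h0 : H 0 ≤ 0 := by
      simp only [hH, mul_zero, exp_zero, mul_one]
      rw [Z_zero]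
      have := gz U hU
      linarith
    have h1 : (Z ℓ w U t - g U t) * exp (W * t) ≤ 0 := h.trans h0
    by_contra hneg
    push Not at hneg
    have := mul_pos (sub_pos.2 hneg) (exp_pos (W * t))
    linarith

end general

section reps

variable {V : Type*} [Fintype V] [DecidableEq V]

/-- representatives of the classes of a subspace -/
lemma exists_rep (U : Submodule (ZMod 3) (V → ZMod 3)) :
    ∃ Rep : Finset V, (∀ c ∈ Rep, ∃ y ∈ U, y c ≠ 0) ∧
      (∀ v, (∃ y ∈ U, y v ≠ 0) → ∃ c ∈ Rep, sg U c v ≠ 0) ∧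
      Module.finrank (ZMod 3) U ≤ Rep.card ∧
      (∀ c ∈ Rep, ∀ c' ∈ Rep, ∀ v, sg U c v ≠ 0 → sg U c' v ≠ 0 → c' = c) := by
  classical
  obtain ⟨Rep, hRep, hmax⟩ := Finset.exists_max_image
    ((Finset.univ : Finset (Finset V)).filter (fun T =>
      (∀ c ∈ T, ∃ y ∈ U, y c ≠ 0) ∧ ∀ c ∈ T, ∀ c' ∈ T, sg U c c' ≠ 0 → c = c'))
    Finset.card ⟨∅, by simp⟩
  rw [Finset.mem_filter] at hRep
  obtain ⟨-, hR1, hR2⟩ := hRep
  have hcov : ∀ v, (∃ y ∈ U, y v ≠ 0) → ∃ c ∈ Rep, sg U c v ≠ 0 := by
    intro v hv
    by_contra hcon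
    push Not at hcon
    have hvR : v ∉ Rep := by
      intro hvR
      have := hcon v hvR
      rw [sg_self] at this
      exact absurd this (by decide)
    have hins : insert v Rep ∈ ((Finset.univ : Finset (Finset V)).filter (fun T =>
      (∀ c ∈ T, ∃ y ∈ U, y c ≠ 0) ∧ ∀ c ∈ T, ∀ c' ∈ T, sg U c c' ≠ 0 → c = c')) := by
      rw [Finset.mem_filter]
      refine ⟨Finset.mem_univ _, ?_, ?_⟩
      · intro c hc
        rcases Finset.mem_insert.1 hc with rfl | hc
        · exact hv
        · exact hR1 c hc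
      · intro c hc c' hc' hs
        rcases Finset.mem_insert.1 hc with hcv | hcR
        · rcases Finset.mem_insert.1 hc' with hcv' | hcR'
          · rw [hcv, hcv']
          · exfalso
            rw [hcv] at hs
            have h0 := hcon c' hcR'
            rcases sg_ne_zero hs with h1 | h1
            · have : sg U c' v = 1 := by
                unfold sg
                rw [if_pos (fun y hy => (h1 y hy).symm)]
              rw [this] at h0
              exact absurd h0 (by decide)
            · have h2 : ∀ y ∈ U, y v = - y c' := fun y hy => by rw [h1 y hy, neg_neg]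
              unfold sg at h0
              by_cases h3 : ∀ y ∈ U, y v = y c'
              · rw [if_pos h3] at h0
                exact absurd h0 (by decide)
              · rw [if_neg h3, if_pos h2] at h0
                exact absurd h0 (by decide)
        · rcases Finset.mem_insert.1 hc' with hcv' | hcR'
          · rw [hcv'] at hs
            exact absurd (hcon c hcR) hs
          · exact hR2 c hcR c' hcR' hs
    have := hmax _ hins
    rw [Finset.card_insert_of_notMem hvR] at this
    omega
  have hdim : Module.finrank (ZMod 3) U ≤ Rep.card := by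
    let f : U →ₗ[ZMod 3] (Rep → ZMod 3) :=
      LinearMap.pi (fun c => (LinearMap.proj (c : V)).comp U.subtype)
    have hf : Function.Injective f := by
      rw [← LinearMap.ker_eq_bot, LinearMap.ker_eq_bot']
      intro y hy
      apply Subtype.ext
      funext v
      by_contra hv
      obtain ⟨c, hc, hs⟩ := hcov v ⟨y.1, y.2, hv⟩
      have h0 : (y : V → ZMod 3) c = 0 := congrFun hy ⟨c, hc⟩
      rcases sg_ne_zero hs with h1 | h1
      · apply hv
        rw [h1 y.1 y.2, h0]
        rfl
      · apply hv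
        rw [h1 y.1 y.2, h0, neg_zero]
        rfl
    have := LinearMap.finrank_le_finrank_of_injective hf
    rw [Module.finrank_fintype_fun_eq_card, Fintype.card_coe] at this
    exact this
  refine ⟨Rep, hR1, hcov, hdim, ?_⟩
  intro c hc c' hc' v hs hs'
  apply hR2 c' hc' c hc
  have key : (∀ y ∈ U, y c = y c') ∨ (∀ y ∈ U, y c = - y c') := by
    rcases sg_ne_zero hs with h1 | h1 <;> rcases sg_ne_zero hs' with h2 | h2
    · left; intro y hy; rw [← h1 y hy, h2 y hy]
    · right; intro y hy; rw [← h1 y hy, h2 y hy]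
    · right; intro y hy
      have e1 := h1 y hy
      rw [h2 y hy] at e1
      rw [e1, neg_neg]
    · left; intro y hy
      have e1 := h1 y hy
      rw [h2 y hy] at e1
      exact (neg_injective e1).symm
  unfold sg
  rcases key with h1 | h1
  · rw [if_pos h1]; decide
  · by_cases h3 : ∀ y ∈ U, y c = y c'
    · rw [if_pos h3]; decide
    · rw [if_neg h3, if_pos h1]; decide

/-- the vertices which are free in `U` -/
noncomputable def sing (U : Submodule (ZMod 3) (V → ZMod 3)) : Finset V := by
  classical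
  exact Finset.univ.filter fun v => (Pi.single v 1 : V → ZMod 3) ∈ U

lemma mem_sing {U : Submodule (ZMod 3) (V → ZMod 3)} {v : V} :
    v ∈ sing U ↔ (Pi.single v 1 : V → ZMod 3) ∈ U := by
  classical
  simp [sing]

/-- the class of a free vertex is the vertex itself -/
lemma sg_sing {U : Submodule (ZMod 3) (V → ZMod 3)} {c v : V} (hc : c ∈ sing U)
    (h : sg U c v ≠ 0) : v = c := by
  by_contra hne
  have h1 := mem_sing.1 hc
  rcases sg_ne_zero h with h2 | h2
  · have := h2 _ h1
    rw [Pi.single_eq_of_ne hne, Pi.single_eq_same] at this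
    exact absurd this (by decide)
  · have := h2 _ h1
    rw [Pi.single_eq_of_ne hne, Pi.single_eq_same] at this
    exact absurd this (by decide)

/-- a class which contains a free vertex consists of it -/
lemma sg_sing' {U : Submodule (ZMod 3) (V → ZMod 3)} {c v : V} (hv : v ∈ sing U)
    (h : sg U c v ≠ 0) : v = c := by
  by_contra hne
  have h1 := mem_sing.1 hv
  rcases sg_ne_zero h with h2 | h2
  · have := h2 _ h1
    rw [Pi.single_eq_same, Pi.single_eq_of_ne (Ne.symm hne)] at this
    exact absurd this (by decide)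
  · have := h2 _ h1
    rw [Pi.single_eq_same, Pi.single_eq_of_ne (Ne.symm hne)] at this
    exact absurd this (by decide)

lemma card_sing_le (U : Submodule (ZMod 3) (V → ZMod 3)) :
    (sing U).card ≤ Module.finrank (ZMod 3) U := by
  classical
  let f : sing U → U := fun c => ⟨Pi.single (c : V) 1, mem_sing.1 c.2⟩
  have hf : LinearIndependent (ZMod 3) f := by
    have h0 : LinearIndependent (ZMod 3) (fun v : V => (Pi.single v 1 : V → ZMod 3)) :=
      Pi.linearIndependent_single_one V (ZMod 3)
    have h1 : LinearIndependent (ZMod 3) (fun c : sing U => (Pi.single (c : V) 1 : V → ZMod 3)) :=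
      h0.comp _ Subtype.val_injective
    exact LinearIndependent.of_comp U.subtype h1
  have := hf.fintype_card_le_finrank
  rwa [Fintype.card_coe] at this

end reps

/-! ### the two functions -/

section funs

/-- weight of a class with at least two vertices -/
noncomputable def fB (d t : ℝ) : ℝ := 1 + 2 * exp (-(t * (d - 1)))

/-- square of the weight of a class with one vertex -/
noncomputable def fU (d t : ℝ) : ℝ :=
  1 + 2 * d * exp (-(t * (d - 1))) + (8 - 2 * d) * exp (-(t * d))

lemma fB_ge_one (d t : ℝ) : 1 ≤ fB d t := by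
  unfold fB
  have := exp_pos (-(t * (d - 1)))
  linarith

lemma fB_pos (d t : ℝ) : 0 < fB d t := lt_of_lt_of_le one_pos (fB_ge_one d t)

lemma fB_le_fU {d t : ℝ} (hd : 1 ≤ d) (ht : 0 ≤ t) : fB d t ≤ fU d t := by
  unfold fB fU
  have h1 := exp_pos (-(t * (d - 1)))
  have h2 := exp_pos (-(t * d))
  have h3 : exp (-(t * d)) ≤ exp (-(t * (d - 1))) := by
    apply exp_le_exp.2
    nlinarith
  rcases le_total d 4 with h | h
  · nlinarith [mul_nonneg (sub_nonneg.2 hd) h1.le, mul_nonneg (sub_nonneg.2 h) h2.le]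
  · nlinarith [mul_nonneg (sub_nonneg.2 h) (sub_nonneg.2 h3)]

lemma fU_ge_one {d t : ℝ} (hd : 1 ≤ d) (ht : 0 ≤ t) : 1 ≤ fU d t :=
  (fB_ge_one d t).trans (fB_le_fU hd ht)

lemma hasDerivAt_fB (d t : ℝ) : HasDerivAt (fB d) (-((d - 1) * (fB d t - 1))) t := by
  have h0 : HasDerivAt (fun t : ℝ => -(t * (d - 1))) (-(1 * (d - 1))) t :=
    ((hasDerivAt_id' t).mul_const (d - 1)).neg
  have h1 : HasDerivAt (fun t => 1 + 2 * exp (-(t * (d - 1))))
      (2 * (exp (-(t * (d - 1))) * (-(1 * (d - 1))))) t :=
    (h0.exp.const_mul 2).const_add 1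
  refine h1.congr_deriv ?_
  unfold fB
  ring

lemma hasDerivAt_fU (d t : ℝ) : HasDerivAt (fU d) (-(d * (fU d t - fB d t))) t := by
  have h0 : HasDerivAt (fun t : ℝ => -(t * (d - 1))) (-(1 * (d - 1))) t :=
    ((hasDerivAt_id' t).mul_const (d - 1)).neg
  have h0' : HasDerivAt (fun t : ℝ => -(t * d)) (-(1 * d)) t :=
    ((hasDerivAt_id' t).mul_const d).neg
  have h1 : HasDerivAt (fun t => 1 + 2 * d * exp (-(t * (d - 1))) + (8 - 2 * d) * exp (-(t * d)))
      (2 * d * (exp (-(t * (d - 1))) * (-(1 * (d - 1)))) +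
        (8 - 2 * d) * (exp (-(t * d)) * (-(1 * d)))) t :=
    ((h0.exp.const_mul (2 * d)).const_add 1).add (h0'.exp.const_mul (8 - 2 * d))
  refine h1.congr_deriv ?_
  unfold fB fU
  ring

lemma hasDerivAt_sqrt_fU {d t : ℝ} (hd : 1 ≤ d) (ht : 0 ≤ t) :
    HasDerivAt (fun t => √(fU d t)) (-(d * ((1 - fB d t / fU d t) / 2)) * √(fU d t)) t := by
  have hU : 0 < fU d t := lt_of_lt_of_le one_pos (fU_ge_one hd ht)
  have h1 := (hasDerivAt_fU d t).sqrt hU.ne'
  refine h1.congr_deriv ?_
  have hs : 0 < √(fU d t) := Real.sqrt_pos.2 hU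
  have hs2 : √(fU d t) * √(fU d t) = fU d t := Real.mul_self_sqrt hU.le
  rw [div_eq_iff (by positivity)]
  have : -(d * ((1 - fB d t / fU d t) / 2)) * √(fU d t) * (2 * √(fU d t)) =
      -(d * (1 - fB d t / fU d t)) * (√(fU d t) * √(fU d t)) := by ring
  rw [this, hs2]
  field_simp

/-- the product solution -/
noncomputable def prodG (d : ℝ) (p q : ℕ) (t : ℝ) : ℝ := √(fU d t) ^ p * fB d t ^ q

lemma pow_deriv_aux (p : ℕ) (x c : ℝ) : (p : ℝ) * x ^ (p - 1) * (c * x) = p * c * x ^ p := by
  rcases p with _ | p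
  · simp
  · rw [Nat.add_sub_cancel, pow_succ]; ring

lemma hasDerivAt_prodG {d t : ℝ} (hd : 1 ≤ d) (ht : 0 ≤ t) (p q : ℕ) :
    HasDerivAt (prodG d p q)
      (-(p * (d * ((1 - fB d t / fU d t) / 2)) + q * ((2 * d - 2) * ((1 - 1 / fB d t) / 2))) *
        prodG d p q t) t := by
  have hB := fB_pos d t
  have h1 := (hasDerivAt_sqrt_fU hd ht).pow p
  have h2 : HasDerivAt (fB d) (-((2 * d - 2) * ((1 - 1 / fB d t) / 2)) * fB d t) t := by
    refine (hasDerivAt_fB d t).congr_deriv ?_
    field_simp
  have h3 := h1.mul (h2.pow q)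
  refine h3.congr_deriv ?_
  simp only [Pi.pow_apply]
  rw [pow_deriv_aux, pow_deriv_aux]
  unfold prodG
  ring

end funs

/-! ### the main inequality -/

section main

variable {V E : Type*} [Fintype V] [DecidableEq V] [Fintype E]

/-- subspaces defined by edges -/
def Gra (a b : E → V) (w : E → ℝ) (U : Submodule (ZMod 3) (V → ZMod 3)) : Prop :=
  ∃ S : Set E, (∀ e ∈ S, w e ≠ 0) ∧ ∀ y, y ∈ U ↔ ∀ e ∈ S, ell a b e y = 0

lemma gra_inf {a b : E → V} {w : E → ℝ} {U : Submodule (ZMod 3) (V → ZMod 3)} {e : E}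
    (he : w e ≠ 0) (h : Gra a b w U) : Gra a b w (U ⊓ LinearMap.ker (ell a b e)) := by
  obtain ⟨S, hS, hU⟩ := h
  refine ⟨insert e S, ?_, ?_⟩
  · intro e' he'
    rcases he' with rfl | he'
    · exact he
    · exact hS e' he'
  · intro y
    rw [Submodule.mem_inf, LinearMap.mem_ker, hU]
    constructor
    · rintro ⟨h1, h2⟩ e' he'
      rcases he' with rfl | he'
      · exact h2
      · exact h1 e' he'
    · intro h
      exact ⟨fun e' he' => h e' (Or.inr he'), h e (Or.inl rfl)⟩

lemma gra_top (a b : E → V) (w : E → ℝ) : Gra a b w ⊤ :=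
  ⟨∅, fun e he => absurd he (Set.notMem_empty e), fun y => by simp⟩

/-- a class which is not a free vertex has at least two vertices -/
lemma two_of_gra {a b : E → V} {w : E → ℝ} (hab : ∀ e, w e ≠ 0 → a e ≠ b e)
    {U : Submodule (ZMod 3) (V → ZMod 3)} (hU : Gra a b w U) {c : V}
    (hc : ∃ y ∈ U, y c ≠ 0) (hs : c ∉ sing U) : ∃ v, v ≠ c ∧ sg U c v ≠ 0 := by
  obtain ⟨S, hS, hU⟩ := hU
  rw [mem_sing, hU] at hs
  push Not at hs
  obtain ⟨e, he, h1⟩ := hs
  have hne := hab e (hS e he)
  have hker : ∀ y ∈ U, y (a e) + y (b e) = 0 := fun y hy => (hU y).1 hy e he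
  rw [ell_apply] at h1
  by_cases hac : a e = c
  · refine ⟨b e, fun h => hne (hac.trans h.symm), ?_⟩
    have h2 := sg_neg (U := U) (c := c) (v := a e) (v' := b e) hc hker
    rw [hac, sg_self] at h2
    rw [h2]
    decide
  · by_cases hbc : b e = c
    · refine ⟨a e, hac, ?_⟩
      have h2 := sg_neg (U := U) (c := c) (v := b e) (v' := a e) hc
        (fun y hy => by rw [add_comm]; exact hker y hy)
      rw [hbc, sg_self] at h2
      rw [h2]
      decide
    · exfalso
      apply h1
      rw [Pi.single_eq_of_ne hac, Pi.single_eq_of_ne hbc, add_zero]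

lemma sing_inf {a b : E → V} {e : E} (hab : a e ≠ b e)
    (U : Submodule (ZMod 3) (V → ZMod 3)) :
    sing (U ⊓ LinearMap.ker (ell a b e)) = ((sing U).erase (a e)).erase (b e) := by
  ext v
  rw [mem_sing, Submodule.mem_inf, LinearMap.mem_ker, ell_apply, Finset.mem_erase,
    Finset.mem_erase, mem_sing]
  constructor
  · rintro ⟨h1, h2⟩
    refine ⟨?_, ?_, h1⟩
    · rintro rfl
      rw [Pi.single_eq_same, Pi.single_eq_of_ne hab] at h2
      exact absurd h2 (by decide)
    · rintro rfl
      rw [Pi.single_eq_same, Pi.single_eq_of_ne hab.symm] at h2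
      exact absurd h2 (by decide)
  · rintro ⟨h1, h2, h3⟩
    refine ⟨h3, ?_⟩
    rw [Pi.single_eq_of_ne (Ne.symm h2), Pi.single_eq_of_ne (Ne.symm h1), add_zero]

/-- the bound for a subspace -/
noncomputable def gg (d : ℝ) (U : Submodule (ZMod 3) (V → ZMod 3)) (t : ℝ) : ℝ :=
  prodG d (sing U).card (Module.finrank (ZMod 3) U - (sing U).card) t

/-- weight of a class -/
noncomputable def hh (d t : ℝ) (U : Submodule (ZMod 3) (V → ZMod 3)) (c : V) : ℝ := by
  classical
  exact if c ∈ sing U then (1 - fB d t / fU d t) / 2 else (1 - 1 / fB d t) / 2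

lemma hh_nonneg {d t : ℝ} (hd : 1 ≤ d) (ht : 0 ≤ t) (U : Submodule (ZMod 3) (V → ZMod 3))
    (c : V) : 0 ≤ hh d t U c := by
  classical
  unfold hh
  have hB := fB_pos d t
  have h1 := fB_le_fU hd ht
  have hU : 0 < fU d t := lt_of_lt_of_le hB h1
  split_ifs
  · have : fB d t / fU d t ≤ 1 := (div_le_one hU).2 h1
    linarith
  · have : 1 / fB d t ≤ 1 := (div_le_one hB).2 (fB_ge_one d t)
    linarith

/-- per edge inequality -/
lemma edge_ineq {a b : E → V} {e : E} (hab : a e ≠ b e) {d t : ℝ} (hd : 1 ≤ d) (ht : 0 ≤ t)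
    (U : Submodule (ZMod 3) (V → ZMod 3)) (he : ¬ U ≤ LinearMap.ker (ell a b e)) :
    gg d U t * (hh d t U (a e) + hh d t U (b e)) ≤
      gg d U t - gg d (U ⊓ LinearMap.ker (ell a b e)) t := by
  classical
  have hB := fB_pos d t
  have h1 := fB_le_fU hd ht
  have hU : 0 < fU d t := lt_of_lt_of_le hB h1
  have hA : 0 < √(fU d t) := Real.sqrt_pos.2 hU
  have hA2 : √(fU d t) * √(fU d t) = fU d t := Real.mul_self_sqrt hU.le
  have hr := finrank_inf_ker (ell a b e) U he
  have hle := card_sing_le U
  have hle' := card_sing_le (U ⊓ LinearMap.ker (ell a b e))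
  have hsing := sing_inf hab U
  unfold gg
  rw [hsing] at hle' ⊢
  set m := Module.finrank (ZMod 3) U with hm
  set m' := Module.finrank (ZMod 3) (U ⊓ LinearMap.ker (ell a b e) : Submodule _ _) with hm'
  set s := (sing U).card with hs
  unfold hh
  by_cases ha : a e ∈ sing U <;> by_cases hb : b e ∈ sing U
  · -- two free vertices
    have hc : (((sing U).erase (a e)).erase (b e)).card = s - 2 := by
      rw [Finset.card_erase_of_mem (Finset.mem_erase.2 ⟨hab.symm, hb⟩),
        Finset.card_erase_of_mem ha]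
      omega
    have hs2 : 2 ≤ s := by
      have : ({a e, b e} : Finset V) ⊆ sing U := by
        intro v hv
        rcases Finset.mem_insert.1 hv with rfl | hv
        · exact ha
        · rw [Finset.mem_singleton.1 hv]; exact hb
      have := Finset.card_le_card this
      rwa [Finset.card_pair hab] at this
    rw [hc, if_pos ha, if_pos hb]
    obtain ⟨k, hk⟩ : ∃ k, s = k + 2 := ⟨s - 2, by omega⟩
    have e1 : m' - (s - 2) = (m - s) + 1 := by omega
    rw [e1, hk, Nat.add_sub_cancel]
    unfold prodG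
    rw [pow_add, pow_two, hA2, pow_succ]
    have : fU d t * (1 - fB d t / fU d t) = fU d t - fB d t := by field_simp
    have e2 : √(fU d t) ^ k * fU d t * fB d t ^ (m - (k + 2)) *
        ((1 - fB d t / fU d t) / 2 + (1 - fB d t / fU d t) / 2) =
        √(fU d t) ^ k * fB d t ^ (m - (k + 2)) * (fU d t * (1 - fB d t / fU d t)) := by ring
    rw [e2, this]
    apply le_of_eq
    ring
  · have hc : (((sing U).erase (a e)).erase (b e)).card = s - 1 := by
      rw [Finset.erase_eq_of_notMem (fun h => hb (Finset.mem_of_mem_erase h)),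
        Finset.card_erase_of_mem ha]
    have hs1 : 1 ≤ s := Finset.card_pos.2 ⟨_, ha⟩
    rw [hc, if_pos ha, if_neg hb]
    obtain ⟨k, hk⟩ : ∃ k, s = k + 1 := ⟨s - 1, by omega⟩
    have e1 : m' - (s - 1) = m - s := by omega
    rw [e1, hk, Nat.add_sub_cancel]
    unfold prodG
    rw [pow_succ]
    have key : √(fU d t) * ((1 - fB d t / fU d t) / 2 + (1 - 1 / fB d t) / 2) ≤
        √(fU d t) - 1 := by
      have e2 : fB d t / fU d t = fB d t / (√(fU d t) * √(fU d t)) := by rw [hA2]
      rw [e2]
      set x := √(fU d t)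
      set y := fB d t
      have e3 : x * ((1 - y / (x * x)) / 2 + (1 - 1 / y) / 2) = x - (y / x + x / y) / 2 := by
        field_simp
        ring
      rw [e3]
      have e4 : 2 ≤ y / x + x / y := by
        rw [div_add_div _ _ hA.ne' hB.ne', le_div_iff₀ (mul_pos hA hB)]
        nlinarith [sq_nonneg (x - y)]
      linarith
    have hp : 0 ≤ √(fU d t) ^ k * fB d t ^ (m - (k + 1)) := by positivity
    have := mul_le_mul_of_nonneg_left key hp
    nlinarith
  · have hc : (((sing U).erase (a e)).erase (b e)).card = s - 1 := by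
      rw [Finset.erase_eq_of_notMem ha, Finset.card_erase_of_mem hb]
    have hs1 : 1 ≤ s := Finset.card_pos.2 ⟨_, hb⟩
    rw [hc, if_neg ha, if_pos hb]
    obtain ⟨k, hk⟩ : ∃ k, s = k + 1 := ⟨s - 1, by omega⟩
    have e1 : m' - (s - 1) = m - s := by omega
    rw [e1, hk, Nat.add_sub_cancel]
    unfold prodG
    rw [pow_succ]
    have key : √(fU d t) * ((1 - 1 / fB d t) / 2 + (1 - fB d t / fU d t) / 2) ≤
        √(fU d t) - 1 := by
      have e2 : fB d t / fU d t = fB d t / (√(fU d t) * √(fU d t)) := by rw [hA2]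
      rw [e2]
      set x := √(fU d t)
      set y := fB d t
      have e3 : x * ((1 - 1 / y) / 2 + (1 - y / (x * x)) / 2) = x - (y / x + x / y) / 2 := by
        field_simp
        ring
      rw [e3]
      have e4 : 2 ≤ y / x + x / y := by
        rw [div_add_div _ _ hA.ne' hB.ne', le_div_iff₀ (mul_pos hA hB)]
        nlinarith [sq_nonneg (x - y)]
      linarith
    have hp : 0 ≤ √(fU d t) ^ k * fB d t ^ (m - (k + 1)) := by positivity
    have := mul_le_mul_of_nonneg_left key hp
    nlinarith
  · have hc : (((sing U).erase (a e)).erase (b e)).card = s := by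
      rw [Finset.erase_eq_of_notMem (fun h => hb (Finset.mem_of_mem_erase h)),
        Finset.erase_eq_of_notMem ha]
    rw [hc] at hle' ⊢
    rw [if_neg ha, if_neg hb]
    obtain ⟨k, hk⟩ : ∃ k, m - s = k + 1 := ⟨m - s - 1, by omega⟩
    have e1 : m' - s = k := by omega
    rw [e1, hk]
    unfold prodG
    rw [pow_succ]
    have : fB d t * (1 - 1 / fB d t) = fB d t - 1 := by field_simp
    have e2 : √(fU d t) ^ s * (fB d t ^ k * fB d t) *
        ((1 - 1 / fB d t) / 2 + (1 - 1 / fB d t) / 2) =
        √(fU d t) ^ s * fB d t ^ k * (fB d t * (1 - 1 / fB d t)) := by ring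
    rw [e2, this]
    apply le_of_eq
    ring

lemma gg_pos {d t : ℝ} (hd : 1 ≤ d) (ht : 0 ≤ t) (U : Submodule (ZMod 3) (V → ZMod 3)) :
    0 < gg d U t := by
  have hB := fB_pos d t
  have hU : 0 < fU d t := lt_of_lt_of_le hB (fB_le_fU hd ht)
  have hA : 0 < √(fU d t) := Real.sqrt_pos.2 hU
  unfold gg prodG
  positivity

/-- the differential inequality -/
lemma gg_ineq (a b : E → V) (w : E → ℝ) (hw : ∀ e, 0 ≤ w e)
    (hab : ∀ e, w e ≠ 0 → a e ≠ b e) {d : ℝ} (hd : 1 ≤ d)
    (h1 : ∀ y : V → SignType, y ≠ 0 → d ≤ ∑ e, w e * |((y (a e) : SignType) : ℝ) + y (b e)|)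
    (h2 : ∀ y : V → SignType, (∃ u v, u ≠ v ∧ y u ≠ 0 ∧ y v ≠ 0) →
      2 * d - 2 ≤ ∑ e, w e * |((y (a e) : SignType) : ℝ) + y (b e)|)
    (U : Submodule (ZMod 3) (V → ZMod 3)) (hU : Gra a b w U) {t : ℝ} (ht : 0 ≤ t) :
    0 ≤ -(((sing U).card : ℝ) * (d * ((1 - fB d t / fU d t) / 2)) +
        ((Module.finrank (ZMod 3) U - (sing U).card : ℕ) : ℝ) *
          ((2 * d - 2) * ((1 - 1 / fB d t) / 2))) * gg d U t +
      ∑ e, w e * (gg d U t - gg d (U ⊓ LinearMap.ker (ell a b e)) t) := by
  classical
  obtain ⟨Rep, hR1, hcov, hdim, hR2⟩ := exists_rep U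
  have hg := gg_pos hd ht U
  -- sums over the representatives
  have hv : ∀ v, ∑ c ∈ Rep, hh d t U c * |((sg U c v : SignType) : ℝ)| ≤ hh d t U v := by
    intro v
    by_cases hex : ∃ c ∈ Rep, sg U c v ≠ 0
    · obtain ⟨c, hc, hs⟩ := hex
      rw [Finset.sum_eq_single_of_mem c hc]
      · have e1 : hh d t U c = hh d t U v := by
          unfold hh
          by_cases hcs : c ∈ sing U
          · rw [sg_sing hcs hs]
          · by_cases hvs : v ∈ sing U
            · rw [sg_sing' hvs hs]
            · rw [if_neg hcs, if_neg hvs]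
        rw [e1]
        have := mul_le_mul_of_nonneg_left (abs_sign_le (sg U c v)) (hh_nonneg hd ht U v)
        linarith
      · intro c' hc' hne
        by_contra hcon
        have hs' : sg U c' v ≠ 0 := by
          intro h0
          rw [h0] at hcon
          simp at hcon
        exact hne (hR2 c hc c' hc' v hs hs')
    · push Not at hex
      have : ∑ c ∈ Rep, hh d t U c * |((sg U c v : SignType) : ℝ)| = 0 := by
        apply Finset.sum_eq_zero
        intro c hc
        rw [hex c hc]; simp
      rw [this]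
      exact hh_nonneg hd ht U v
  -- per edge
  have hedge : ∀ e, gg d U t * (w e *
      ∑ c ∈ Rep, hh d t U c * |((sg U c (a e) : SignType) : ℝ) + sg U c (b e)|) ≤
      w e * (gg d U t - gg d (U ⊓ LinearMap.ker (ell a b e)) t) := by
    intro e
    by_cases hwe : w e = 0
    · rw [hwe]; simp
    · by_cases he : U ≤ LinearMap.ker (ell a b e)
      · rw [inf_eq_left.2 he, sub_self, mul_zero]
        have h0 : ∀ y ∈ U, y (a e) + y (b e) = 0 := by
          intro y hy
          have := he hy
          rw [LinearMap.mem_ker, ell_apply] at this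
          exact this
        have : ∑ c ∈ Rep, hh d t U c * |((sg U c (a e) : SignType) : ℝ) + sg U c (b e)| = 0 := by
          apply Finset.sum_eq_zero
          intro c hc
          rw [sg_neg (hR1 c hc) h0]
          rcases sg U c (a e) with _ | _ | _ <;> simp
        rw [this]; simp
      · have h3 := edge_ineq (hab e hwe) hd ht U he
        have h4 : ∑ c ∈ Rep, hh d t U c * |((sg U c (a e) : SignType) : ℝ) + sg U c (b e)| ≤
            hh d t U (a e) + hh d t U (b e) := by
          calc ∑ c ∈ Rep, hh d t U c * |((sg U c (a e) : SignType) : ℝ) + sg U c (b e)|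
              ≤ ∑ c ∈ Rep, (hh d t U c * |((sg U c (a e) : SignType) : ℝ)| +
                  hh d t U c * |((sg U c (b e) : SignType) : ℝ)|) := by
                apply Finset.sum_le_sum
                intro c _
                rw [← mul_add]
                exact mul_le_mul_of_nonneg_left (abs_add_le _ _) (hh_nonneg hd ht U c)
            _ ≤ hh d t U (a e) + hh d t U (b e) := by
                rw [Finset.sum_add_distrib]
                exact add_le_add (hv _) (hv _)
        have h5 := mul_le_mul_of_nonneg_left h4 hg.le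
        have h6 := mul_le_mul_of_nonneg_left (h5.trans h3) (hw e)
        nlinarith
  have hsum : gg d U t * ∑ c ∈ Rep, hh d t U c *
      ∑ e, w e * |((sg U c (a e) : SignType) : ℝ) + sg U c (b e)| ≤
      ∑ e, w e * (gg d U t - gg d (U ⊓ LinearMap.ker (ell a b e)) t) := by
    refine le_trans (le_of_eq ?_) (Finset.sum_le_sum fun e _ => hedge e)
    rw [← Finset.mul_sum]
    congr 1
    simp only [Finset.mul_sum]
    rw [Finset.sum_comm]
    exact Finset.sum_congr rfl fun e _ => Finset.sum_congr rfl fun c _ => by ring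
  -- lower bound of the classes
  have hsub : sing U ⊆ Rep := by
    intro v hvs
    obtain ⟨c, hc, hs⟩ := hcov v ⟨_, mem_sing.1 hvs, by rw [Pi.single_eq_same]; decide⟩
    rw [sg_sing' hvs hs]
    exact hc
  have hlow : ((sing U).card : ℝ) * (d * ((1 - fB d t / fU d t) / 2)) +
        ((Module.finrank (ZMod 3) U - (sing U).card : ℕ) : ℝ) *
          ((2 * d - 2) * ((1 - 1 / fB d t) / 2)) ≤
      ∑ c ∈ Rep, hh d t U c * ∑ e, w e * |((sg U c (a e) : SignType) : ℝ) + sg U c (b e)| := by
    rw [← Finset.sum_sdiff hsub, add_comm]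
    have hh2 : 0 ≤ (1 - 1 / fB d t) / 2 := by
      have : 1 / fB d t ≤ 1 := (div_le_one (fB_pos d t)).2 (fB_ge_one d t)
      linarith
    have hh1 : 0 ≤ (1 - fB d t / fU d t) / 2 := by
      have hU0 : 0 < fU d t := lt_of_lt_of_le (fB_pos d t) (fB_le_fU hd ht)
      have : fB d t / fU d t ≤ 1 := (div_le_one hU0).2 (fB_le_fU hd ht)
      linarith
    apply add_le_add
    · have hcard : Module.finrank (ZMod 3) U - (sing U).card ≤ (Rep \ sing U).card := by
        rw [Finset.card_sdiff_of_subset hsub]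
        omega
      have hcard' : ((Module.finrank (ZMod 3) U - (sing U).card : ℕ) : ℝ) ≤
          ((Rep \ sing U).card : ℝ) := by exact_mod_cast hcard
      calc ((Module.finrank (ZMod 3) U - (sing U).card : ℕ) : ℝ) *
            ((2 * d - 2) * ((1 - 1 / fB d t) / 2))
          ≤ ((Rep \ sing U).card : ℝ) * ((2 * d - 2) * ((1 - 1 / fB d t) / 2)) :=
            mul_le_mul_of_nonneg_right hcard' (mul_nonneg (by linarith) hh2)
        _ = ∑ c ∈ Rep \ sing U, (2 * d - 2) * ((1 - 1 / fB d t) / 2) := by
            rw [Finset.sum_const, nsmul_eq_mul]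
        _ ≤ _ := by
            apply Finset.sum_le_sum
            intro c hc
            rw [Finset.mem_sdiff] at hc
            obtain ⟨v, hvc, hs⟩ := two_of_gra hab hU (hR1 c hc.1) hc.2
            have h3 := h2 (sg U c) ⟨v, c, hvc, hs, by rw [sg_self]; decide⟩
            unfold hh
            rw [if_neg hc.2]
            have := mul_le_mul_of_nonneg_left h3 hh2
            nlinarith
    · calc ((sing U).card : ℝ) * (d * ((1 - fB d t / fU d t) / 2))
          = ∑ c ∈ sing U, d * ((1 - fB d t / fU d t) / 2) := by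
            rw [Finset.sum_const, nsmul_eq_mul]
        _ ≤ _ := by
            apply Finset.sum_le_sum
            intro c hc
            have h3 := h1 (sg U c) (fun h0 => by
              have : sg U c c = 0 := congrFun h0 c
              rw [sg_self] at this
              exact absurd this (by decide))
            unfold hh
            rw [if_pos hc]
            have := mul_le_mul_of_nonneg_left h3 hh1
            nlinarith
  have := mul_le_mul_of_nonneg_left hlow hg.le
  nlinarith

lemma gg_zero {d : ℝ} (U : Submodule (ZMod 3) (V → ZMod 3)) :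
    ((3 : ℕ) : ℝ) ^ Module.finrank (ZMod 3) U ≤ gg d U 0 := by
  unfold gg prodG fU fB
  simp only [zero_mul, neg_zero, exp_zero, mul_one]
  have e1 : (1 : ℝ) + 2 * d + (8 - 2 * d) = 3 ^ 2 := by ring
  have e2 : √((3 : ℝ) ^ 2) = 3 := by
    rw [Real.sqrt_sq (by norm_num)]
  rw [e1, e2, show (1 : ℝ) + 2 = 3 by norm_num, ← pow_add,
    Nat.add_sub_cancel' (card_sing_le U)]
  push_cast
  exact le_refl _

/-- **signed cut sum, two types of classes** -/
theorem signed_sum2 (a b : E → V) (w : E → ℝ) (hw : ∀ e, 0 ≤ w e)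
    (hab : ∀ e, w e ≠ 0 → a e ≠ b e) {d : ℝ} (hd : 1 ≤ d)
    (h1 : ∀ y : V → SignType, y ≠ 0 → d ≤ ∑ e, w e * |((y (a e) : SignType) : ℝ) + y (b e)|)
    (h2 : ∀ y : V → SignType, (∃ u v, u ≠ v ∧ y u ≠ 0 ∧ y v ≠ 0) →
      2 * d - 2 ≤ ∑ e, w e * |((y (a e) : SignType) : ℝ) + y (b e)|)
    {t : ℝ} (ht : 0 ≤ t) :
    ∑ y : V → SignType, exp (-(t * ∑ e, if y (a e) = -y (b e) then 0 else w e)) ≤
      √(1 + 2 * d * exp (-(t * (d - 1))) + (8 - 2 * d) * exp (-(t * d))) ^ Fintype.card V := by
  classical
  have hcard : Fintype.card (ZMod 3) = 3 := ZMod.card 3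
  have main := sub_sum_gen (ell a b) w hw (Gra a b w) (fun U e he hU => gra_inf he hU)
    (gg d) (fun U t => -(((sing U).card : ℝ) * (d * ((1 - fB d t / fU d t) / 2)) +
        ((Module.finrank (ZMod 3) U - (sing U).card : ℕ) : ℝ) *
          ((2 * d - 2) * ((1 - 1 / fB d t) / 2))) * gg d U t)
    (fun U _ => by rw [hcard]; exact gg_zero U)
    (fun U _ t ht => hasDerivAt_prodG hd ht _ _)
    (fun U hU t ht => gg_ineq a b w hw hab hd h1 h2 U hU ht)
    _ ⊤ (gra_top a b w) rfl t ht
  have htop : gg d (⊤ : Submodule (ZMod 3) (V → ZMod 3)) t =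
      √(1 + 2 * d * exp (-(t * (d - 1))) + (8 - 2 * d) * exp (-(t * d))) ^ Fintype.card V := by
    unfold gg prodG
    have e1 : sing (⊤ : Submodule (ZMod 3) (V → ZMod 3)) = Finset.univ := by
      ext v
      simp [mem_sing]
    rw [e1, Finset.card_univ, finrank_top, Module.finrank_fintype_fun_eq_card, Nat.sub_self,
      pow_zero, mul_one]
    rfl
  rw [← htop]
  refine le_trans (le_of_eq ?_) main
  unfold Z
  refine Fintype.sum_equiv (Equiv.arrowCongr (Equiv.refl V) sgEquiv) _ _ ?_
  intro y
  rw [if_pos Submodule.mem_top]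
  congr 2
  congr 1
  unfold cost
  apply Finset.sum_congr rfl
  intro e _
  have he : (ell a b e) ((Equiv.arrowCongr (Equiv.refl V) sgEquiv) y) = 0 ↔
      y (a e) = -y (b e) := by
    rw [ell_apply]
    exact sgEquiv_add (y (a e)) (y (b e))
  by_cases hy : y (a e) = -y (b e)
  · rw [if_pos hy, if_pos (he.2 hy)]
  · rw [if_neg hy, if_neg (fun h => hy (he.1 h))]

end main

end Pool.Agent.UPS.SignedSum
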