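import Pool.Agent.Lib.MP_876e19_co_ups.SignedSum

/-!
# Star-separated signed cut sum, structural part (helper88)

Subspaces of `F_3^V` spanned by sign vectors with disjoint supports (`Str`), their singles, and the
two weight counts `count_ends`, `count_big`.
-/

set_option autoImplicit false

namespace Pool.Agent.UPS.StarCut

open Finset Real Pool.Agent.UPS.SignedSum

section structural

variable {V : Type*} [Fintype V] [DecidableEq V]

instance : Fact (Nat.Prime 3) := ⟨by norm_num⟩

/-- the sign vector of `c` on `U` -/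
noncomputable def sv (U : Submodule (ZMod 3) (V → ZMod 3)) (c : V) : V → ZMod 3 :=
  fun v => ((sg U c v : SignType) : ZMod 3)

/-- `U` is spanned by sign vectors with disjoint supports -/
def Str (U : Submodule (ZMod 3) (V → ZMod 3)) : Prop :=
  ∀ c, (∃ y ∈ U, y c ≠ 0) → sv U c ∈ U

lemma cast_ne : ∀ s : SignType, s ≠ 0 → ((s : SignType) : ZMod 3) ≠ 0 := by decide

lemma cast_zero : (((0 : SignType) : SignType) : ZMod 3) = 0 := by decide

lemma cast_one : (((1 : SignType) : SignType) : ZMod 3) = 1 := by decide

lemma cast_neg_mul : ∀ s s' : SignType,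
    ((-(s * s') : SignType) : ZMod 3) = -((s : ZMod 3) * (s' : ZMod 3)) := by decide

lemma sv_self (U : Submodule (ZMod 3) (V → ZMod 3)) (c : V) : sv U c c = 1 := by
  unfold sv
  rw [sg_self, cast_one]

lemma sv_mul {U : Submodule (ZMod 3) (V → ZMod 3)} {c v : V} (h : sg U c v ≠ 0) (y : V → ZMod 3)
    (hy : y ∈ U) : y v = sv U c v * y c := by
  unfold sv
  unfold sg at h ⊢
  by_cases h1 : ∀ y ∈ U, y v = y c
  · rw [if_pos h1, cast_one, one_mul]
    exact h1 y hy
  · by_cases h2 : ∀ y ∈ U, y v = -y c
    · rw [if_neg h1, if_pos h2]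
      rw [h2 y hy]
      have : (((-1 : SignType) : SignType) : ZMod 3) = -1 := by decide
      rw [this, neg_one_mul]
    · rw [if_neg h1, if_neg h2] at h
      exact absurd rfl h

lemma sg_zero_of {U : Submodule (ZMod 3) (V → ZMod 3)} {c v : V} {y : V → ZMod 3} (hy : y ∈ U)
    (hc : y c ≠ 0) (hv : y v = 0) : sg U c v = 0 := by
  by_contra h
  rcases sg_ne_zero h with h1 | h1
  · apply hc
    rw [← h1 y hy, hv]
  · apply hc
    have := h1 y hy
    rw [hv] at this
    exact neg_eq_zero.1 this.symm

lemma sg_of_forall {U : Submodule (ZMod 3) (V → ZMod 3)} {c v : V} (hc : ∃ y ∈ U, y c ≠ 0)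
    (s : SignType) (hs : s ≠ 0) (h : ∀ y ∈ U, y v = (s : ZMod 3) * y c) : sg U c v = s := by
  obtain ⟨y0, hy0, hy0c⟩ := hc
  rcases s with _ | _ | _
  · exact absurd rfl hs
  · have h1 : ∀ y ∈ U, y v = - y c := fun y hy => by
      have := h y hy
      rw [this]
      have : (((SignType.neg : SignType) : SignType) : ZMod 3) = -1 := by decide
      rw [this, neg_one_mul]
    have h2 : ¬ ∀ y ∈ U, y v = y c := by
      intro h2
      apply hy0c
      apply z3_eq_neg
      rw [← h1 y0 hy0, h2 y0 hy0]
    unfold sg
    rw [if_neg h2, if_pos h1]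
    rfl
  · have h1 : ∀ y ∈ U, y v = y c := fun y hy => by
      have := h y hy
      rw [this]
      have : (((SignType.pos : SignType) : SignType) : ZMod 3) = 1 := by decide
      rw [this, one_mul]
    unfold sg
    rw [if_pos h1]
    rfl

lemma sg_mono {U U' : Submodule (ZMod 3) (V → ZMod 3)} (hle : U' ≤ U) {c v : V}
    (hc : ∃ y ∈ U', y c ≠ 0) (h : sg U c v ≠ 0) : sg U' c v = sg U c v :=
  sg_of_forall hc _ h (fun y hy => sv_mul h y (hle hy))

lemma str_case2 {U : Submodule (ZMod 3) (V → ZMod 3)} (hU : Str U) (p q : V)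
    (U' : Submodule (ZMod 3) (V → ZMod 3)) (hU' : ∀ y, y ∈ U' ↔ y ∈ U ∧ y p + y q = 0) {c : V}
    (hc : ∃ y ∈ U', y c ≠ 0) (hz : sv U c p + sv U c q ≠ 0) (hp : sg U c p ≠ 0) :
    sv U' c ∈ U' := by
  have hle : U' ≤ U := fun y hy => ((hU' y).1 hy).1
  obtain ⟨y0, hy0, hy0c⟩ := hc
  have hy0' := (hU' y0).1 hy0
  have hcU : ∃ y ∈ U, y c ≠ 0 := ⟨y0, hy0'.1, hy0c⟩
  have hσ := hU c hcU
  set σ := sv U c with hσd
  have hσc : σ c = 1 := sv_self U c
  have hq : sg U c q = 0 := by
    by_contra hq
    apply hz
    have h1 := sv_mul hp y0 hy0'.1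
    have h2 := sv_mul hq y0 hy0'.1
    have h3 := hy0'.2
    rw [h1, h2, ← add_mul] at h3
    rcases mul_eq_zero.1 h3 with h4 | h4
    · exact h4
    · exact absurd h4 hy0c
  have hσq : σ q = 0 := by rw [hσd]; unfold sv; rw [hq, cast_zero]
  have hσp : σ p ≠ 0 := cast_ne _ hp
  have hqU : ∃ y ∈ U, y q ≠ 0 := by
    refine ⟨y0, hy0'.1, ?_⟩
    intro h
    have h1 := sv_mul hp y0 hy0'.1
    have h3 := hy0'.2
    rw [h, add_zero, h1] at h3
    rcases mul_eq_zero.1 h3 with h4 | h4
    · exact hσp h4
    · exact hy0c h4
  have hτ := hU q hqU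
  set τ := sv U q with hτd
  have hτq : τ q = 1 := sv_self U q
  have hdis : ∀ v, sg U c v ≠ 0 → sg U q v = 0 := by
    intro v hv
    by_contra h
    have h1 := sv_mul h σ hσ
    rw [hσq, mul_zero] at h1
    exact cast_ne _ hv h1
  have hτz : ∀ v, sg U c v ≠ 0 → τ v = 0 := by
    intro v hv
    rw [hτd]; unfold sv; rw [hdis v hv, cast_zero]
  set ρ : V → ZMod 3 := σ - σ p • τ with hρd
  have hρv : ∀ v, ρ v = σ v - σ p * τ v := fun v => rfl
  have hρU : ρ ∈ U := U.sub_mem hσ (U.smul_mem _ hτ)
  have hρU' : ρ ∈ U' := by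
    rw [hU']
    refine ⟨hρU, ?_⟩
    rw [hρv, hρv, hτz p hp, hσq, hτq]
    ring
  have hcc : sg U c c ≠ 0 := by rw [sg_self]; decide
  have hρc : ρ c = 1 := by rw [hρv, hτz c hcc, hσc]; ring
  have hc' : ∃ y ∈ U', y c ≠ 0 := ⟨ρ, hρU', by rw [hρc]; exact one_ne_zero⟩
  have : sv U' c = ρ := by
    funext v
    by_cases h1 : sg U c v = 0
    · have hσv : σ v = 0 := by rw [hσd]; unfold sv; rw [h1, cast_zero]
      by_cases h2 : sg U q v = 0
      · have hτv : τ v = 0 := by rw [hτd]; unfold sv; rw [h2, cast_zero]
        have hρ0 : ρ v = 0 := by rw [hρv, hσv, hτv]; ring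
        rw [hρ0]
        unfold sv
        rw [sg_zero_of hρU' (by rw [hρc]; exact one_ne_zero) hρ0, cast_zero]
      · have h3 : sg U' c v = -(sg U c p * sg U q v) := by
          apply sg_of_forall hc'
          · have : ∀ s s' : SignType, s ≠ 0 → s' ≠ 0 → -(s * s') ≠ 0 := by decide
            exact this _ _ hp h2
          · intro y hy
            have hy' := (hU' y).1 hy
            have e1 := sv_mul h2 y hy'.1
            have e2 := sv_mul hp y hy'.1
            have e3 : y q = - y p := eq_neg_of_add_eq_zero_right hy'.2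
            rw [cast_neg_mul, e1, e3, e2]
            change sv U q v * -(sv U c p * y c) = -(sv U c p * sv U q v) * y c
            ring
        unfold sv
        rw [h3, cast_neg_mul]
        rw [hρv, hσv]
        change -(sv U c p * sv U q v) = 0 - σ p * τ v
        rw [← hσd, ← hτd]
        ring
    · have h3 := sg_mono hle hc' h1
      have : sv U' c v = σ v := by
        unfold sv
        rw [h3]
        rfl
      rw [this, hρv, hτz v h1]
      ring
  rw [this]
  exact hρU'

lemma str_step {U : Submodule (ZMod 3) (V → ZMod 3)} (hU : Str U) (p q : V)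
    (U' : Submodule (ZMod 3) (V → ZMod 3)) (hU' : ∀ y, y ∈ U' ↔ y ∈ U ∧ y p + y q = 0) :
    Str U' := by
  intro c hc
  have hle : U' ≤ U := fun y hy => ((hU' y).1 hy).1
  by_cases hz : sv U c p + sv U c q = 0
  · have hcU : ∃ y ∈ U, y c ≠ 0 := by
      obtain ⟨y, hy, h⟩ := hc
      exact ⟨y, hle hy, h⟩
    have hσ : sv U c ∈ U' := (hU' _).2 ⟨hU c hcU, hz⟩
    have : sv U' c = sv U c := by
      funext v
      by_cases h1 : sg U c v = 0
      · have h2 : sv U c v = 0 := by unfold sv; rw [h1, cast_zero]
        rw [h2]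
        unfold sv
        rw [sg_zero_of hσ (by rw [sv_self]; exact one_ne_zero) h2, cast_zero]
      · unfold sv
        rw [sg_mono hle hc h1]
    rw [this]
    exact hσ
  · by_cases hp : sg U c p = 0
    · have hq : sg U c q ≠ 0 := by
        intro hq
        apply hz
        unfold sv
        rw [hp, hq, cast_zero, add_zero]
      exact str_case2 hU q p U' (fun y => by rw [hU', add_comm]) hc (by rwa [add_comm]) hq
    · exact str_case2 hU p q U' hU' hc hz hp

/-- the coordinates that are components by themselves -/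
noncomputable def singles (U : Submodule (ZMod 3) (V → ZMod 3)) : Finset V := by
  classical
  exact univ.filter (fun v => Pi.single v (1 : ZMod 3) ∈ U)

lemma mem_singles {U : Submodule (ZMod 3) (V → ZMod 3)} {v : V} :
    v ∈ singles U ↔ Pi.single v (1 : ZMod 3) ∈ U := by
  classical
  unfold singles
  simp

lemma singles_alive {U : Submodule (ZMod 3) (V → ZMod 3)} {v : V} (h : v ∈ singles U) :
    ∃ y ∈ U, y v ≠ 0 :=
  ⟨_, mem_singles.1 h, by rw [Pi.single_eq_same]; exact one_ne_zero⟩

/-- a single coordinate is related to no other one -/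
lemma sg_single {U : Submodule (ZMod 3) (V → ZMod 3)} {c v : V} (h : v ∈ singles U) (hcv : c ≠ v) :
    sg U c v = 0 := by
  by_contra hs
  have h1 := sv_mul hs _ (mem_singles.1 h)
  rw [Pi.single_eq_same, Pi.single_eq_of_ne hcv, mul_zero] at h1
  exact one_ne_zero h1

lemma sg_single' {U : Submodule (ZMod 3) (V → ZMod 3)} {c v : V} (h : c ∈ singles U)
    (hcv : c ≠ v) : sg U c v = 0 :=
  sg_zero_of (mem_singles.1 h) (by rw [Pi.single_eq_same]; exact one_ne_zero)
    (Pi.single_eq_of_ne hcv.symm _)

/-- representatives of the alive components -/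
lemma exists_rep (U : Submodule (ZMod 3) (V → ZMod 3)) :
    ∃ Rep : Finset V, (∀ c ∈ Rep, ∃ y ∈ U, y c ≠ 0) ∧ singles U ⊆ Rep ∧
      Module.finrank (ZMod 3) U ≤ Rep.card ∧
      ∀ v, ∑ c ∈ Rep, |((sg U c v : SignType) : ℝ)| ≤ 1 := by
  classical
  obtain ⟨Rep, hRep, hmax⟩ := Finset.exists_max_image
    ((Finset.univ : Finset (Finset V)).filter (fun T =>
      (∀ c ∈ T, ∃ y ∈ U, y c ≠ 0) ∧ ∀ c ∈ T, ∀ c' ∈ T, sg U c c' ≠ 0 → c = c'))
    Finset.card ⟨∅, by simp⟩
  rw [Finset.mem_filter] at hRep
  obtain ⟨-, hR1, hR2⟩ := hRep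
  have hsymm : ∀ c v, sg U c v ≠ 0 → sg U v c ≠ 0 := by
    intro c v h h0
    unfold sg at h0
    rcases sg_ne_zero h with h1 | h1
    · rw [if_pos (fun y hy => (h1 y hy).symm)] at h0
      exact absurd h0 (by decide)
    · have h2 : ∀ y ∈ U, y c = - y v := fun y hy => by rw [h1 y hy, neg_neg]
      by_cases h3 : ∀ y ∈ U, y c = y v
      · rw [if_pos h3] at h0
        exact absurd h0 (by decide)
      · rw [if_neg h3, if_pos h2] at h0
        exact absurd h0 (by decide)
  have hcov : ∀ v, (∃ y ∈ U, y v ≠ 0) → ∃ c ∈ Rep, sg U c v ≠ 0 := by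
    intro v hv
    by_contra hcon
    push Not at hcon
    have hvR : v ∉ Rep := by
      intro hvR
      have := hcon v hvR
      rw [sg_self] at this
      exact absurd this (by decide)
    have hins : insert v Rep ∈ ((Finset.univ : Finset (Finset V)).filter (fun T =>
      (∀ c ∈ T, ∃ y ∈ U, y c ≠ 0) ∧ ∀ c ∈ T, ∀ c' ∈ T, sg U c c' ≠ 0 → c = c')) := by
      rw [Finset.mem_filter]
      refine ⟨Finset.mem_univ _, ?_, ?_⟩
      · intro c hc
        rcases Finset.mem_insert.1 hc with rfl | hc
        · exact hv
        · exact hR1 c hc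
      · intro c hc c' hc' hs
        rcases Finset.mem_insert.1 hc with hcv | hcR
        · rcases Finset.mem_insert.1 hc' with hcv' | hcR'
          · rw [hcv, hcv']
          · exfalso
            rw [hcv] at hs
            exact hsymm _ _ hs (hcon c' hcR')
        · rcases Finset.mem_insert.1 hc' with hcv' | hcR'
          · rw [hcv'] at hs
            exact absurd (hcon c hcR) hs
          · exact hR2 c hcR c' hcR' hs
    have := hmax _ hins
    rw [Finset.card_insert_of_notMem hvR] at this
    omega
  refine ⟨Rep, hR1, ?_, ?_, ?_⟩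
  · intro v hv
    obtain ⟨c, hc, hs⟩ := hcov v (singles_alive hv)
    by_cases hcv : c = v
    · rw [← hcv]; exact hc
    · exact absurd (sg_single hv hcv) hs
  · let f : U →ₗ[ZMod 3] (Rep → ZMod 3) :=
      LinearMap.pi (fun c => (LinearMap.proj (c : V)).comp U.subtype)
    have hf : Function.Injective f := by
      rw [← LinearMap.ker_eq_bot, LinearMap.ker_eq_bot']
      intro y hy
      apply Subtype.ext
      funext v
      by_contra hv
      obtain ⟨c, hc, hs⟩ := hcov v ⟨y.1, y.2, hv⟩
      have h0 : (y : V → ZMod 3) c = 0 := congrFun hy ⟨c, hc⟩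
      apply hv
      have := sv_mul hs y.1 y.2
      rw [h0, mul_zero] at this
      exact this
    have := LinearMap.finrank_le_finrank_of_injective hf
    rw [Module.finrank_fintype_fun_eq_card, Fintype.card_coe] at this
    exact this
  · intro v
    by_cases hex : ∃ c ∈ Rep, sg U c v ≠ 0
    · obtain ⟨c, hc, hs⟩ := hex
      rw [Finset.sum_eq_single_of_mem c hc]
      · exact abs_sign_le _
      · intro c' hc' hne
        by_contra hcon
        have hs' : sg U c' v ≠ 0 := by
          intro h0
          rw [h0] at hcon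
          simp at hcon
        apply hne
        apply hR2 c' hc' c hc
        have key : (∀ y ∈ U, y c = y c') ∨ (∀ y ∈ U, y c = - y c') := by
          rcases sg_ne_zero hs with h1 | h1 <;> rcases sg_ne_zero hs' with h2 | h2
          · left; intro y hy; rw [← h1 y hy, h2 y hy]
          · right; intro y hy; rw [← h1 y hy, h2 y hy]
          · right; intro y hy
            have e1 := h1 y hy
            rw [h2 y hy] at e1
            rw [e1, neg_neg]
          · left; intro y hy
            have e1 := h1 y hy
            rw [h2 y hy] at e1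
            exact (neg_injective e1).symm
        unfold sg
        rcases key with h1 | h1
        · rw [if_pos h1]; decide
        · by_cases h3 : ∀ y ∈ U, y c = y c'
          · rw [if_pos h3]; decide
          · rw [if_neg h3, if_pos h1]; decide
    · push Not at hex
      have : ∑ c ∈ Rep, |((sg U c v : SignType) : ℝ)| = 0 := by
        apply Finset.sum_eq_zero
        intro c hc
        rw [hex c hc]; simp
      rw [this]; exact zero_le_one

/-- there are at most `dim U` singles -/
lemma singles_card_le (U : Submodule (ZMod 3) (V → ZMod 3)) :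
    (singles U).card ≤ Module.finrank (ZMod 3) U := by
  classical
  let f : (singles U → ZMod 3) →ₗ[ZMod 3] (V → ZMod 3) :=
    { toFun := fun x v => if h : v ∈ singles U then x ⟨v, h⟩ else 0
      map_add' := by
        intro x x'
        funext v
        by_cases h : v ∈ singles U <;> simp [h]
      map_smul' := by
        intro r x
        funext v
        by_cases h : v ∈ singles U <;> simp [h] }
  have hf : ∀ x, f x ∈ U := by
    intro x
    have : f x = ∑ v : singles U, x v • (Pi.single (v : V) (1 : ZMod 3)) := by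
      funext u
      change (if h : u ∈ singles U then x ⟨u, h⟩ else 0) = _
      rw [Finset.sum_apply]
      by_cases h : u ∈ singles U
      · rw [dif_pos h, Finset.sum_eq_single (⟨u, h⟩ : singles U)]
        · simp
        · intro v _ hv
          rw [Pi.smul_apply, Pi.single_eq_of_ne, smul_zero]
          intro h'
          exact hv (Subtype.ext h'.symm)
        · intro h'; exact absurd (mem_univ _) h'
      · rw [dif_neg h, Finset.sum_eq_zero]
        intro v _
        rw [Pi.smul_apply, Pi.single_eq_of_ne, smul_zero]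
        intro h'
        exact h (h' ▸ v.2)
    rw [this]
    exact U.sum_mem (fun v _ => U.smul_mem _ (mem_singles.1 v.2))
  let g : (singles U → ZMod 3) →ₗ[ZMod 3] U := f.codRestrict U hf
  have hg : Function.Injective g := by
    intro x x' h
    funext v
    have h1 : f x = f x' := congrArg Subtype.val h
    have h2 := congrFun h1 (v : V)
    change (if h : (v : V) ∈ singles U then x ⟨v, h⟩ else 0) =
      (if h : (v : V) ∈ singles U then x' ⟨v, h⟩ else 0) at h2
    rw [dif_pos v.2, dif_pos v.2] at h2
    exact h2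
  have := LinearMap.finrank_le_finrank_of_injective hg
  rw [Module.finrank_fintype_fun_eq_card, Fintype.card_coe] at this
  exact this

end structural

section counting

variable {V E : Type*} [Fintype V] [DecidableEq V] [Fintype E]

/-- number of ends of `e` among the singles -/
noncomputable def ends (a b : E → V) (U : Submodule (ZMod 3) (V → ZMod 3)) (e : E) : ℕ :=
  (if a e ∈ singles U then 1 else 0) + (if b e ∈ singles U then 1 else 0)

omit [Fintype E] in
lemma ends_le (a b : E → V) (U : Submodule (ZMod 3) (V → ZMod 3)) (e : E) :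
    ends a b U e ≤ 2 := by
  unfold ends
  split_ifs <;> norm_num

/-- an edge with an end among the singles does not vanish -/
lemma not_le_ker {a b : E → V} {U : Submodule (ZMod 3) (V → ZMod 3)} {e : E}
    (h : a e ∈ singles U ∨ b e ∈ singles U) : ¬ U ≤ LinearMap.ker (ell a b e) := by
  intro hle
  have key : ∀ v, v ∈ singles U →
      (Pi.single v (1 : ZMod 3) : V → ZMod 3) (a e) +
        (Pi.single v (1 : ZMod 3) : V → ZMod 3) (b e) = 0 := by
    intro v hv
    have := hle (mem_singles.1 hv)
    rw [LinearMap.mem_ker, ell_apply] at this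
    exact this
  rcases h with h | h
  · have h1 := key _ h
    rw [Pi.single_eq_same] at h1
    by_cases hab : b e = a e
    · rw [hab, Pi.single_eq_same] at h1
      exact absurd h1 (by decide)
    · rw [Pi.single_eq_of_ne hab] at h1
      exact absurd h1 (by decide)
  · have h1 := key _ h
    rw [Pi.single_eq_same] at h1
    by_cases hab : a e = b e
    · rw [hab, Pi.single_eq_same] at h1
      exact absurd h1 (by decide)
    · rw [Pi.single_eq_of_ne hab] at h1
      exact absurd h1 (by decide)

/-- first count: weights at the singles -/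
lemma count_ends (a b : E → V) (w : E → ℝ) (hab : ∀ e, w e ≠ 0 → a e ≠ b e) {δ : ℝ}
    (hdeg : ∀ v, ∑ e, (if a e = v ∨ b e = v then w e else 0) = δ)
    (U : Submodule (ZMod 3) (V → ZMod 3)) :
    ∑ e, (w e * (ends a b U e : ℝ)) = δ * ((singles U).card : ℝ) := by
  classical
  have h1 : ∀ e, w e * (ends a b U e : ℝ) =
      ∑ v ∈ singles U, (if a e = v ∨ b e = v then w e else 0) := by
    intro e
    by_cases hw : w e = 0
    · rw [hw, zero_mul, Finset.sum_eq_zero]
      intro v _
      split_ifs <;> rfl
    · have hne := hab e hw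
      have h2 : ∀ v, (if a e = v ∨ b e = v then w e else 0) =
          (if a e = v then w e else 0) + (if b e = v then w e else 0) := by
        intro v
        by_cases h1 : a e = v
        · have h2 : b e ≠ v := fun h => hne (h1.trans h.symm)
          simp [h1, h2]
        · simp [h1]
      simp only [h2]
      rw [Finset.sum_add_distrib, Finset.sum_ite_eq, Finset.sum_ite_eq]
      unfold ends
      by_cases h3 : a e ∈ singles U <;> by_cases h4 : b e ∈ singles U <;>
        simp only [h3, h4, if_true, if_false] <;> push_cast <;> ring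
  simp only [h1]
  rw [Finset.sum_comm]
  simp only [hdeg]
  rw [Finset.sum_const, nsmul_eq_mul, mul_comm]

open Classical in
/-- second count: weights at the big components -/
lemma count_big (a b : E → V) (w : E → ℝ) (hw : ∀ e, 0 ≤ w e) {μ : ℝ} (hμ : 0 ≤ μ)
    (h : ∀ y : V → SignType, (∃ u v, u ≠ v ∧ y u ≠ 0 ∧ y v ≠ 0) →
      2 * μ ≤ ∑ e, w e * |((y (a e) : SignType) : ℝ) + y (b e)|)
    {U : Submodule (ZMod 3) (V → ZMod 3)} (hU : Str U) :
    2 * μ * ((Module.finrank (ZMod 3) U : ℝ) - ((singles U).card : ℝ)) ≤
      ∑ e, (if U ≤ LinearMap.ker (ell a b e) then 0 else w e * (2 - (ends a b U e : ℝ))) := by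
  obtain ⟨Rep, hR1, hsub, hdim, hone⟩ := exists_rep U
  have hone' : ∀ v, ∑ c ∈ Rep \ singles U, |((sg U c v : SignType) : ℝ)| ≤
      1 - (if v ∈ singles U then (1 : ℝ) else 0) := by
    intro v
    by_cases hv : v ∈ singles U
    · rw [if_pos hv, sub_self]
      apply le_of_eq
      apply Finset.sum_eq_zero
      intro c hc
      rw [Finset.mem_sdiff] at hc
      rw [sg_single hv (fun h => hc.2 (by rw [h]; exact hv))]
      simp
    · rw [if_neg hv, sub_zero]
      refine le_trans ?_ (hone v)
      apply Finset.sum_le_sum_of_subset_of_nonneg Finset.sdiff_subset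
      intro c _ _
      exact abs_nonneg _
  have hsum : ∑ c ∈ Rep \ singles U, ∑ e, w e * |((sg U c (a e) : SignType) : ℝ) + sg U c (b e)| ≤
      ∑ e, (if U ≤ LinearMap.ker (ell a b e) then 0 else w e * (2 - (ends a b U e : ℝ))) := by
    rw [Finset.sum_comm]
    apply Finset.sum_le_sum
    intro e _
    rw [← Finset.mul_sum]
    by_cases he : U ≤ LinearMap.ker (ell a b e)
    · rw [if_pos he]
      have h0 : ∀ y ∈ U, y (a e) + y (b e) = 0 := by
        intro y hy
        have := he hy
        rw [LinearMap.mem_ker, ell_apply] at this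
        exact this
      have : ∑ c ∈ Rep \ singles U, |((sg U c (a e) : SignType) : ℝ) + sg U c (b e)| = 0 := by
        apply Finset.sum_eq_zero
        intro c hc
        rw [sg_neg (hR1 c (Finset.mem_sdiff.1 hc).1) h0]
        rcases sg U c (a e) with _ | _ | _ <;> simp
      rw [this, mul_zero]
    · rw [if_neg he]
      apply mul_le_mul_of_nonneg_left _ (hw e)
      calc ∑ c ∈ Rep \ singles U, |((sg U c (a e) : SignType) : ℝ) + sg U c (b e)|
          ≤ ∑ c ∈ Rep \ singles U,
            (|((sg U c (a e) : SignType) : ℝ)| + |((sg U c (b e) : SignType) : ℝ)|) := by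
            apply Finset.sum_le_sum
            intro c _
            exact abs_add_le _ _
        _ ≤ (1 - (if a e ∈ singles U then (1 : ℝ) else 0)) +
            (1 - (if b e ∈ singles U then (1 : ℝ) else 0)) := by
            rw [Finset.sum_add_distrib]
            exact add_le_add (hone' _) (hone' _)
        _ = 2 - (ends a b U e : ℝ) := by
            unfold ends
            push_cast
            ring
  have hlow : (((Rep \ singles U).card : ℕ) : ℝ) * (2 * μ) ≤
      ∑ c ∈ Rep \ singles U, ∑ e, w e * |((sg U c (a e) : SignType) : ℝ) + sg U c (b e)| := by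
    rw [← nsmul_eq_mul, ← Finset.sum_const]
    apply Finset.sum_le_sum
    intro c hc
    rw [Finset.mem_sdiff] at hc
    apply h
    by_contra hcon
    push Not at hcon
    apply hc.2
    rw [mem_singles]
    have hcc : sg U c c ≠ 0 := by rw [sg_self]; decide
    have h1 : sv U c = Pi.single c (1 : ZMod 3) := by
      funext v
      by_cases hv : v = c
      · rw [hv, Pi.single_eq_same, sv_self]
      · rw [Pi.single_eq_of_ne hv]
        have := hcon c v (fun h => hv h.symm) hcc
        unfold sv
        rw [this, cast_zero]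
    rw [← h1]
    exact hU c (hR1 c hc.1)
  have hcard : (Module.finrank (ZMod 3) U : ℝ) - ((singles U).card : ℝ) ≤
      (((Rep \ singles U).card : ℕ) : ℝ) := by
    rw [Finset.card_sdiff_of_subset hsub, Nat.cast_sub (Finset.card_le_card hsub)]
    have : (Module.finrank (ZMod 3) U : ℝ) ≤ Rep.card := by exact_mod_cast hdim
    linarith
  have := mul_le_mul_of_nonneg_right hcard (by positivity : (0 : ℝ) ≤ 2 * μ)
  linarith

end counting

end Pool.Agent.UPS.StarCut
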