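import Pool.Agent.Lib.MP_876e19_co_ups.StarCutA

/-!
# Star-separated signed cut sum (helper88)

`star_sum`: `a b : E → V` the ends of the edges, weights `w ≥ 0`, weighted degree `δ` at every
vertex, and `∑ e, w e * |y (a e) + y (b e)| ≥ 2 μ` for every `y : V → {-1,0,1}` with at least two
non-zero entries, `0 ≤ μ < δ`.  Then for `t ≥ 0`
`∑ y, exp (-t cost y) ≤ (√(1 + c exp (-μ t) + (8 - c) exp (-δ t))) ^ |V|`, `c = 2 δ / (δ - μ)`.
-/

set_option autoImplicit false

namespace Pool.Agent.UPS.StarCut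

open Finset Real Pool.Agent.UPS.SignedSum

section analytic

/-- factor of a big component -/
noncomputable def fB (μ t : ℝ) : ℝ := 1 + 2 * exp (-(μ * t))

/-- squared factor of a single -/
noncomputable def fQ (δ μ t : ℝ) : ℝ :=
  1 + 2 * δ / (δ - μ) * exp (-(μ * t)) + (8 - 2 * δ / (δ - μ)) * exp (-(δ * t))

/-- factor of a single -/
noncomputable def fA (δ μ t : ℝ) : ℝ := √(fQ δ μ t)

variable {δ μ : ℝ}

lemma one_le_fQ (hμ : 0 ≤ μ) (hδ : μ < δ) {t : ℝ} (ht : 0 ≤ t) : 1 ≤ fQ δ μ t := by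
  unfold fQ
  set c := 2 * δ / (δ - μ) with hc
  have hc0 : 0 ≤ c := by
    apply div_nonneg <;> linarith
  have he : exp (-(δ * t)) ≤ exp (-(μ * t)) := by
    apply exp_le_exp.2
    nlinarith
  have h1 := exp_pos (-(δ * t))
  have h2 := exp_pos (-(μ * t))
  rcases le_total c 8 with h | h
  · have := mul_nonneg hc0 h2.le
    have := mul_nonneg (sub_nonneg.2 h) h1.le
    linarith
  · nlinarith

lemma fQ_pos (hμ : 0 ≤ μ) (hδ : μ < δ) {t : ℝ} (ht : 0 ≤ t) : 0 < fQ δ μ t :=
  lt_of_lt_of_le one_pos (one_le_fQ hμ hδ ht)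

lemma fA_pos (hμ : 0 ≤ μ) (hδ : μ < δ) {t : ℝ} (ht : 0 ≤ t) : 0 < fA δ μ t :=
  Real.sqrt_pos.2 (fQ_pos hμ hδ ht)

lemma fA_sq (hμ : 0 ≤ μ) (hδ : μ < δ) {t : ℝ} (ht : 0 ≤ t) : fA δ μ t ^ 2 = fQ δ μ t :=
  Real.sq_sqrt (fQ_pos hμ hδ ht).le

lemma one_le_fB (μ t : ℝ) : 1 ≤ fB μ t := by
  unfold fB
  have := exp_pos (-(μ * t))
  linarith

lemma fB_pos (μ t : ℝ) : 0 < fB μ t := lt_of_lt_of_le one_pos (one_le_fB μ t)

lemma hasDeriv_exp (c t : ℝ) :
    HasDerivAt (fun t : ℝ => exp (-(c * t))) (exp (-(c * t)) * (-c)) t := by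
  have h : HasDerivAt (fun t : ℝ => -(c * t)) (-c) t := by
    have := ((hasDerivAt_id' t).const_mul c).neg
    exact this.congr_deriv (by ring)
  exact h.exp

lemma hasDeriv_fB (μ t : ℝ) : HasDerivAt (fB μ) (-(μ * (fB μ t - 1))) t := by
  have h := ((hasDeriv_exp μ t).const_mul 2).const_add 1
  refine h.congr_deriv ?_
  unfold fB
  ring

lemma hasDeriv_fQ (hδ : μ < δ) (t : ℝ) :
    HasDerivAt (fQ δ μ) (δ * (fB μ t - fQ δ μ t)) t := by
  have h1 := ((hasDeriv_exp μ t).const_mul (2 * δ / (δ - μ))).const_add 1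
  have h2 := (hasDeriv_exp δ t).const_mul (8 - 2 * δ / (δ - μ))
  have h := h1.add h2
  refine h.congr_deriv ?_
  unfold fQ fB
  have hne : δ - μ ≠ 0 := by linarith
  field_simp
  ring

lemma hasDeriv_fA (hμ : 0 ≤ μ) (hδ : μ < δ) {t : ℝ} (ht : 0 ≤ t) :
    HasDerivAt (fA δ μ) (δ * (fB μ t - fQ δ μ t) / (2 * fA δ μ t)) t :=
  (hasDeriv_fQ hδ t).sqrt (fQ_pos hμ hδ ht).ne'

lemma hasDeriv_G (hμ : 0 ≤ μ) (hδ : μ < δ) {t : ℝ} (ht : 0 ≤ t) (a b : ℕ) :
    HasDerivAt (fun t => fA δ μ t ^ a * fB μ t ^ b)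
      ((fA δ μ t ^ a * fB μ t ^ b) *
        ((a : ℝ) * (δ / 2 * (fB μ t / fQ δ μ t - 1)) - (b : ℝ) * (μ * (1 - 1 / fB μ t)))) t := by
  have h := ((hasDeriv_fA hμ hδ ht).pow a).mul ((hasDeriv_fB μ t).pow b)
  refine h.congr_deriv ?_
  have hA := fA_pos hμ hδ ht
  have hB := fB_pos μ t
  have hQ := fQ_pos hμ hδ ht
  have hAQ := fA_sq hμ hδ ht
  have e1 : (a : ℝ) * fA δ μ t ^ (a - 1) * (δ * (fB μ t - fQ δ μ t) / (2 * fA δ μ t)) =
      fA δ μ t ^ a * ((a : ℝ) * (δ / 2 * (fB μ t / fQ δ μ t - 1))) := by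
    rcases Nat.eq_zero_or_pos a with h0 | h0
    · subst h0; simp
    · obtain ⟨a', rfl⟩ : ∃ a', a = a' + 1 := ⟨a - 1, by omega⟩
      rw [Nat.add_sub_cancel, ← hAQ]
      field_simp
      ring
  have e2 : (b : ℝ) * fB μ t ^ (b - 1) * (-(μ * (fB μ t - 1))) =
      fB μ t ^ b * (-((b : ℝ) * (μ * (1 - 1 / fB μ t)))) := by
    rcases Nat.eq_zero_or_pos b with h0 | h0
    · subst h0; simp
    · obtain ⟨b', rfl⟩ : ∃ b', b = b' + 1 := ⟨b - 1, by omega⟩
      rw [Nat.add_sub_cancel, pow_succ]
      field_simp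
  simp only [Pi.pow_apply]
  rw [e1, e2]
  ring

/-- pointwise inequality for one edge -/
lemma edge_ineq {A B : ℝ} (hA : 0 < A) (hB : 0 < B) {k : ℕ} (hk : k ≤ 2) :
    (k : ℝ) / 2 * (1 - B / A ^ 2) + (2 - (k : ℝ)) / 2 * (1 - 1 / B) ≤
      1 - B ^ k / (A ^ k * B) := by
  interval_cases k
  · simp
  · have h : 1 - B ^ 1 / (A ^ 1 * B) -
      (((1 : ℕ) : ℝ) / 2 * (1 - B / A ^ 2) + (2 - ((1 : ℕ) : ℝ)) / 2 * (1 - 1 / B)) =
        (1 - B / A) ^ 2 / (2 * B) := by
      push_cast
      field_simp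
      ring
    have h2 : 0 ≤ (1 - B / A) ^ 2 / (2 * B) := by positivity
    linarith
  · apply le_of_eq
    push_cast
    field_simp
    ring

end analytic

section main

variable {V E : Type*} [Fintype V] [DecidableEq V] [Fintype E]

lemma singles_inf (a b : E → V) (U : Submodule (ZMod 3) (V → ZMod 3)) (e : E)
    (hab : a e ≠ b e) :
    (singles (U ⊓ LinearMap.ker (ell a b e))).card + ends a b U e = (singles U).card := by
  classical
  have h1 : singles (U ⊓ LinearMap.ker (ell a b e)) = ((singles U).erase (a e)).erase (b e) := by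
    ext v
    rw [mem_singles, Submodule.mem_inf, Finset.mem_erase, Finset.mem_erase, mem_singles,
      LinearMap.mem_ker, ell_apply]
    by_cases h1 : v = a e
    · have h2 : b e ≠ v := fun h => hab (h1.symm.trans h.symm)
      rw [h1, Pi.single_eq_same, Pi.single_eq_of_ne (h1 ▸ h2)]
      simp
    · by_cases h2 : v = b e
      · rw [h2, Pi.single_eq_same, Pi.single_eq_of_ne (fun h => hab h)]
        simp
      · rw [Pi.single_eq_of_ne (fun h => h1 h.symm), Pi.single_eq_of_ne (fun h => h2 h.symm)]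
        simp [h1, h2]
  rw [h1]
  unfold ends
  by_cases h2 : a e ∈ singles U <;> by_cases h3 : b e ∈ singles U
  · rw [if_pos h2, if_pos h3, Finset.card_erase_of_mem (Finset.mem_erase.2 ⟨hab.symm, h3⟩),
      Finset.card_erase_of_mem h2]
    have h4 : 1 < (singles U).card := Finset.one_lt_card.2 ⟨_, h2, _, h3, hab⟩
    omega
  · rw [if_pos h2, if_neg h3, Finset.erase_eq_of_notMem (fun h => h3 (Finset.mem_of_mem_erase h)),
      Finset.card_erase_of_mem h2]
    have h4 : 0 < (singles U).card := Finset.card_pos.2 ⟨_, h2⟩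
    omega
  · rw [if_neg h2, if_pos h3, Finset.erase_eq_of_notMem h2, Finset.card_erase_of_mem h3]
    have h4 : 0 < (singles U).card := Finset.card_pos.2 ⟨_, h3⟩
    omega
  · rw [if_neg h2, if_neg h3, Finset.erase_eq_of_notMem h2, Finset.erase_eq_of_notMem h3]
    omega

theorem core (a b : E → V) (w : E → ℝ) (hw : ∀ e, 0 ≤ w e) (hab : ∀ e, w e ≠ 0 → a e ≠ b e)
    {δ μ : ℝ} (hμ : 0 ≤ μ) (hδ : μ < δ)
    (hdeg : ∀ v, ∑ e, (if a e = v ∨ b e = v then w e else 0) = δ)
    (h : ∀ y : V → SignType, (∃ u v, u ≠ v ∧ y u ≠ 0 ∧ y v ≠ 0) →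
      2 * μ ≤ ∑ e, w e * |((y (a e) : SignType) : ℝ) + y (b e)|) :
    ∀ (r : ℕ) (U : Submodule (ZMod 3) (V → ZMod 3)), Str U →
      Module.finrank (ZMod 3) U = r → ∀ t, 0 ≤ t →
      Z (ell a b) w U t ≤ fA δ μ t ^ (singles U).card * fB μ t ^ (r - (singles U).card) := by
  classical
  have hcardF : Fintype.card (ZMod 3) = 3 := ZMod.card 3
  intro r
  induction r with
  | zero =>
    intro U _ hr t ht
    have hU : U = ⊥ := Submodule.finrank_eq_zero.1 hr
    have hs : (singles U).card = 0 := by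
      have := singles_card_le U
      omega
    rw [hs]
    subst hU
    have : Z (ell a b) w ⊥ t = 1 := by
      unfold Z
      rw [Finset.sum_eq_single (0 : V → ZMod 3)]
      · simp [cost]
      · intro y _ hy
        rw [if_neg]
        rw [Submodule.mem_bot]; exact hy
      · intro h; exact absurd (Finset.mem_univ _) h
    rw [this]
    simp
  | succ r ih =>
    intro U hU hr t ht
    set W := tot (ell a b) w U with hW
    set s := (singles U).card with hs
    have hsr : s ≤ r + 1 := by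
      have := singles_card_le U
      omega
    set G : ℝ → ℝ := fun t => fA δ μ t ^ s * fB μ t ^ (r + 1 - s) with hG
    set ρ : E → ℝ → ℝ := fun e t =>
      fB μ t ^ (ends a b U e) / (fA δ μ t ^ (ends a b U e) * fB μ t) with hρ
    have hGpos : ∀ x, 0 ≤ x → 0 < G x := fun x hx =>
      mul_pos (pow_pos (fA_pos hμ hδ hx) _) (pow_pos (fB_pos _ _) _)
    -- induction step for one edge
    have hstep : ∀ e, ¬ U ≤ LinearMap.ker (ell a b e) → w e ≠ 0 → ∀ x, 0 ≤ x →
        Z (ell a b) w (U ⊓ LinearMap.ker (ell a b e)) x ≤ G x * ρ e x := by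
      intro e he hwe x hx
      have h1 := finrank_inf_ker (ell a b e) U he
      have h2 := singles_inf a b U e (hab e hwe)
      have h3 : Str (U ⊓ LinearMap.ker (ell a b e)) :=
        str_step hU (a e) (b e) _ (fun y => by
          rw [Submodule.mem_inf, LinearMap.mem_ker, ell_apply])
      have h4 : Module.finrank (ZMod 3)
          (U ⊓ LinearMap.ker (ell a b e) : Submodule (ZMod 3) (V → ZMod 3)) = r := by omega
      have h5 := ih _ h3 h4 x hx
      refine h5.trans (le_of_eq ?_)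
      have h6 := singles_card_le (U ⊓ LinearMap.ker (ell a b e))
      rw [h4] at h6
      set k := ends a b U e with hk
      set s' := (singles (U ⊓ LinearMap.ker (ell a b e))).card with hs'
      have hA := (fA_pos hμ hδ hx).ne'
      have hB := (fB_pos μ x).ne'
      have e1 : fA δ μ x ^ s = fA δ μ x ^ s' * fA δ μ x ^ k := by
        rw [← pow_add]; congr 1; omega
      have e2 : fB μ x ^ (r + 1 - s) * fB μ x ^ k = fB μ x ^ (r - s') * fB μ x := by
        rw [← pow_add, ← pow_succ]; congr 1; omega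
      simp only [hG, hρ]
      rw [e1]
      rw [mul_div_assoc']
      rw [eq_div_iff (mul_ne_zero (pow_ne_zero _ hA) hB)]
      calc fA δ μ x ^ s' * fB μ x ^ (r - s') * (fA δ μ x ^ k * fB μ x)
          = fA δ μ x ^ s' * fA δ μ x ^ k * (fB μ x ^ (r - s') * fB μ x) := by ring
        _ = fA δ μ x ^ s' * fA δ μ x ^ k * (fB μ x ^ (r + 1 - s) * fB μ x ^ k) := by rw [e2]
        _ = _ := by ring
    -- the bracket
    have hbr : ∀ x, 0 ≤ x → 0 ≤ (∑ e, (if U ≤ LinearMap.ker (ell a b e) then 0 else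
        w e * (1 - ρ e x))) + ((s : ℝ) * (δ / 2 * (fB μ x / fQ δ μ x - 1)) -
          ((r + 1 - s : ℕ) : ℝ) * (μ * (1 - 1 / fB μ x))) := by
      intro x hx
      have hA := fA_pos hμ hδ hx
      have hB := fB_pos μ x
      have hA2 := fA_sq hμ hδ hx
      have h1 : ∀ e, (if U ≤ LinearMap.ker (ell a b e) then 0 else
            w e * ((ends a b U e : ℝ) / 2 * (1 - fB μ x / fQ δ μ x) +
              (2 - (ends a b U e : ℝ)) / 2 * (1 - 1 / fB μ x))) ≤
          (if U ≤ LinearMap.ker (ell a b e) then 0 else w e * (1 - ρ e x)) := by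
        intro e
        split_ifs with he
        · exact le_rfl
        · apply mul_le_mul_of_nonneg_left _ (hw e)
          have := edge_ineq hA hB (ends_le a b U e)
          rw [hA2] at this
          exact this
      have h2 := Finset.sum_le_sum (fun e (_ : e ∈ (Finset.univ : Finset E)) => h1 e)
      have h3 : ∑ e, (if U ≤ LinearMap.ker (ell a b e) then 0 else
            w e * ((ends a b U e : ℝ) / 2 * (1 - fB μ x / fQ δ μ x) +
              (2 - (ends a b U e : ℝ)) / 2 * (1 - 1 / fB μ x))) =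
          (1 - fB μ x / fQ δ μ x) / 2 * ∑ e, (w e * (ends a b U e : ℝ)) +
          (1 - 1 / fB μ x) / 2 * ∑ e, (if U ≤ LinearMap.ker (ell a b e) then 0 else
            w e * (2 - (ends a b U e : ℝ))) := by
        rw [Finset.mul_sum, Finset.mul_sum, ← Finset.sum_add_distrib]
        apply Finset.sum_congr rfl
        intro e _
        split_ifs with he
        · have : ends a b U e = 0 := by
            unfold ends
            rw [if_neg, if_neg]
            · intro h'; exact not_le_ker (Or.inr h') he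
            · intro h'; exact not_le_ker (Or.inl h') he
          rw [this]
          simp
        · ring
      have h4 := count_ends a b w hab hdeg U
      have h5 := count_big a b w hw hμ h hU
      have h6 : 0 ≤ 1 - 1 / fB μ x := by
        rw [sub_nonneg, div_le_one hB]
        exact one_le_fB μ x
      rw [h3, h4] at h2
      have h7 : ((r + 1 - s : ℕ) : ℝ) = (r : ℝ) + 1 - s := by
        rw [Nat.cast_sub hsr]; push_cast; ring
      rw [hr] at h5
      push_cast at h5
      rw [h7]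
      have h8 := mul_le_mul_of_nonneg_left h5 (by linarith : 0 ≤ (1 - 1 / fB μ x) / 2)
      rw [← hs] at h2 h8
      nlinarith
    -- the derivative of `Z`
    have hZ' : ∀ x, 0 ≤ x →
        (-∑ e, w e * (Z (ell a b) w U x - Z (ell a b) w (U ⊓ LinearMap.ker (ell a b e)) x)) ≤
          -(W * (Z (ell a b) w U x - G x)) - G x * ∑ e, (if U ≤ LinearMap.ker (ell a b e) then 0
            else w e * (1 - ρ e x)) := by
      intro x hx
      rw [hW]
      unfold tot
      rw [← neg_add', neg_le_neg_iff, Finset.sum_mul, Finset.mul_sum, ← Finset.sum_add_distrib]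
      apply Finset.sum_le_sum
      intro e _
      by_cases he : U ≤ LinearMap.ker (ell a b e)
      · rw [if_pos he, if_pos he, inf_eq_left.2 he, sub_self, mul_zero, zero_mul, mul_zero,
          add_zero]
      · rw [if_neg he, if_neg he]
        by_cases hwe : w e = 0
        · rw [hwe]; simp
        · have h1 := hstep e he hwe x hx
          have h2 : w e * (Z (ell a b) w U x - G x) + G x * (w e * (1 - ρ e x)) =
              w e * (Z (ell a b) w U x - G x * ρ e x) := by ring
          rw [h2]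
          apply mul_le_mul_of_nonneg_left _ (hw e)
          linarith
    have hder : ∀ x, 0 ≤ x → HasDerivAt (fun x => (Z (ell a b) w U x - G x) * exp (W * x))
        (((-∑ e, w e * (Z (ell a b) w U x - Z (ell a b) w (U ⊓ LinearMap.ker (ell a b e)) x)) -
          (G x * ((s : ℝ) * (δ / 2 * (fB μ x / fQ δ μ x - 1)) -
          ((r + 1 - s : ℕ) : ℝ) * (μ * (1 - 1 / fB μ x))))) * exp (W * x) +
          (Z (ell a b) w U x - G x) * (exp (W * x) * W)) x := by
      intro x hx
      have h1 := (hasDerivAt_Z (ell a b) w U x).sub (hasDeriv_G hμ hδ hx s (r + 1 - s))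
      have h2 : HasDerivAt (fun x : ℝ => W * x) W x := by
        have := (hasDerivAt_id' x).const_mul W
        exact this.congr_deriv (mul_one W)
      exact h1.mul h2.exp
    have hanti : AntitoneOn (fun x => (Z (ell a b) w U x - G x) * exp (W * x)) (Set.Ici 0) := by
      apply antitoneOn_of_deriv_nonpos (convex_Ici 0)
      · exact fun x hx => (hder x hx).continuousAt.continuousWithinAt
      · intro x hx
        rw [interior_Ici, Set.mem_Ioi] at hx
        exact (hder x hx.le).differentiableAt.differentiableWithinAt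
      · intro x hx
        rw [interior_Ici, Set.mem_Ioi] at hx
        rw [(hder x hx.le).deriv]
        have h1 := hZ' x hx.le
        have h2 := mul_nonneg (hGpos x hx.le).le (hbr x hx.le)
        rw [mul_add] at h2
        have h4 : ((-∑ e, w e * (Z (ell a b) w U x -
            Z (ell a b) w (U ⊓ LinearMap.ker (ell a b e)) x)) -
          (G x * ((s : ℝ) * (δ / 2 * (fB μ x / fQ δ μ x - 1)) -
          ((r + 1 - s : ℕ) : ℝ) * (μ * (1 - 1 / fB μ x))))) +
            (Z (ell a b) w U x - G x) * W ≤ 0 := by linarith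
        have h5 := mul_nonpos_of_nonpos_of_nonneg h4 (exp_pos (W * x)).le
        linarith
    have h9 := hanti (Set.mem_Ici.2 le_rfl) (Set.mem_Ici.2 ht) ht
    have hA0 : fA δ μ 0 = 3 := by
      unfold fA fQ
      simp only [mul_zero, neg_zero, exp_zero, mul_one]
      rw [show (1 : ℝ) + 2 * δ / (δ - μ) + (8 - 2 * δ / (δ - μ)) = 3 ^ 2 by ring]
      exact Real.sqrt_sq (by norm_num)
    have hB0 : fB μ 0 = 3 := by
      unfold fB
      simp only [mul_zero, neg_zero, exp_zero, mul_one]
      norm_num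
    have h0 : (Z (ell a b) w U 0 - G 0) * exp (W * 0) ≤ 0 := by
      simp only [mul_zero, exp_zero, mul_one]
      rw [Z_zero, hr, hcardF]
      simp only [hG]
      rw [hA0, hB0, ← pow_add, Nat.add_sub_cancel' hsr]
      norm_num
    have h1 : (Z (ell a b) w U t - G t) * exp (W * t) ≤ 0 := le_trans h9 h0
    by_contra hneg
    push Not at hneg
    have := mul_pos (sub_pos.2 hneg) (exp_pos (W * t))
    simp only [hG] at h1
    linarith

/-- **Star-separated signed cut sum** -/
theorem star_sum (a b : E → V) (w : E → ℝ) (hw : ∀ e, 0 ≤ w e) (hab : ∀ e, w e ≠ 0 → a e ≠ b e)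
    {δ μ : ℝ} (hμ : 0 ≤ μ) (hδ : μ < δ)
    (hdeg : ∀ v, ∑ e, (if a e = v ∨ b e = v then w e else 0) = δ)
    (h : ∀ y : V → SignType, (∃ u v, u ≠ v ∧ y u ≠ 0 ∧ y v ≠ 0) →
      2 * μ ≤ ∑ e, w e * |((y (a e) : SignType) : ℝ) + y (b e)|) {t : ℝ} (ht : 0 ≤ t) :
    ∑ y : V → SignType, exp (-(t * ∑ e, if y (a e) = -y (b e) then 0 else w e)) ≤
      (√(1 + 2 * δ / (δ - μ) * exp (-(μ * t)) + (8 - 2 * δ / (δ - μ)) * exp (-(δ * t)))) ^
        (Fintype.card V) := by
  classical
  have hst : Str (⊤ : Submodule (ZMod 3) (V → ZMod 3)) := fun c _ => Submodule.mem_top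
  have hsing : (singles (⊤ : Submodule (ZMod 3) (V → ZMod 3))).card = Fintype.card V := by
    have : singles (⊤ : Submodule (ZMod 3) (V → ZMod 3)) = Finset.univ := by
      ext v
      rw [mem_singles]
      simp
    rw [this, Finset.card_univ]
  have main := core a b w hw hab hμ hδ hdeg h (Fintype.card V) ⊤ hst
    (by rw [finrank_top, Module.finrank_fintype_fun_eq_card]) t ht
  rw [hsing, Nat.sub_self, pow_zero, mul_one] at main
  refine le_trans (le_of_eq ?_) main
  unfold Z
  refine Fintype.sum_equiv (Equiv.arrowCongr (Equiv.refl V) sgEquiv) _ _ ?_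
  intro y
  rw [if_pos Submodule.mem_top]
  congr 2
  congr 1
  unfold cost
  apply Finset.sum_congr rfl
  intro e _
  have he : (ell a b e) ((Equiv.arrowCongr (Equiv.refl V) sgEquiv) y) = 0 ↔
      y (a e) = -y (b e) := by
    rw [ell_apply]
    exact sgEquiv_add (y (a e)) (y (b e))
  by_cases hy : y (a e) = -y (b e)
  · rw [if_pos hy, if_pos (he.2 hy)]
  · rw [if_neg hy, if_neg (fun h => hy (he.1 h))]

end main

end Pool.Agent.UPS.StarCut
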