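import Pool.Agent.Lib.MP_876e19_co_ups.SignedSum

/-!
# Star separated signed cut sum (helper35)

`star_sum`: if all signed cuts have weight at least `D` and all signed cuts with a support of at
least two vertices have weight at least `2 D - 2` (restricted edge connectivity of the double
cover), then the sum over all `y : V → {-1,0,1}` of `exp (-t * (weight of the edges with
y (a e) + y (b e) ≠ 0))` is at most `(1 + 2 D p^(D-1) - (2 D - 8) p^D)^(n/2)`, `p = exp (-t)`.
-/

set_option autoImplicit false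

namespace Pool.Agent.UPS.StarSum

open Finset Real
open Pool.Agent.UPS.SignedSum

section general

variable {F M E : Type*} [Field F] [Fintype F] [AddCommGroup M] [Module F M] [Fintype M]
  [Fintype E]

open Classical in
/-- comparison theorem with an arbitrary supersolution -/
theorem sub_sum_fun (ℓ : E → M →ₗ[F] F) (w : E → ℝ) (hw : ∀ e, 0 ≤ w e)
    (Φ Ψ : Submodule F M → ℝ → ℝ)
    (hbot : ∀ t, 0 ≤ t → 1 ≤ Φ ⊥ t)
    (hz : ∀ U : Submodule F M, (Fintype.card F : ℝ) ^ (Module.finrank F U) ≤ Φ U 0)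
    (hd : ∀ U t, 0 ≤ t → HasDerivAt (Φ U) (Ψ U t) t)
    (hsup : ∀ U t, 0 ≤ t → -Ψ U t ≤
      ∑ e, if U ≤ LinearMap.ker (ℓ e) then 0 else
        w e * (Φ U t - Φ (U ⊓ LinearMap.ker (ℓ e)) t)) :
    ∀ (r : ℕ) (U : Submodule F M), Module.finrank F U = r → ∀ t, 0 ≤ t →
      Z ℓ w U t ≤ Φ U t := by
  intro r
  induction r with
  | zero =>
    intro U hr t ht
    have hU : U = ⊥ := Submodule.finrank_eq_zero.1 hr
    subst hU
    have : Z ℓ w ⊥ t = 1 := by
      unfold Z
      rw [Finset.sum_eq_single (0 : M)]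
      · simp [cost]
      · intro y _ hy
        rw [if_neg]
        rw [Submodule.mem_bot]; exact hy
      · intro h; exact absurd (Finset.mem_univ _) h
    rw [this]
    exact hbot t ht
  | succ r ih =>
    intro U hr t ht
    set W := tot ℓ w U with hW
    -- the derivative of `Z`
    have hZ' : ∀ s, 0 ≤ s →
        (-∑ e, w e * (Z ℓ w U s - Z ℓ w (U ⊓ LinearMap.ker (ℓ e)) s)) - Ψ U s ≤
          -(W * (Z ℓ w U s - Φ U s)) := by
      intro s hs
      have h1 := hsup U s hs
      have h2 : -∑ e, w e * (Z ℓ w U s - Z ℓ w (U ⊓ LinearMap.ker (ℓ e)) s) +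
          (∑ e, if U ≤ LinearMap.ker (ℓ e) then 0 else
            w e * (Φ U s - Φ (U ⊓ LinearMap.ker (ℓ e)) s)) ≤
          -(W * (Z ℓ w U s - Φ U s)) := by
        rw [hW]
        unfold tot
        rw [Finset.sum_mul, ← Finset.sum_neg_distrib, ← Finset.sum_neg_distrib,
          ← Finset.sum_add_distrib]
        apply Finset.sum_le_sum
        intro e _
        by_cases he : U ≤ LinearMap.ker (ℓ e)
        · rw [if_pos he, if_pos he, inf_eq_left.2 he]; simp
        · rw [if_neg he, if_neg he]
          have h3 := finrank_inf_ker (ℓ e) U he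
          have h4 := ih (U ⊓ LinearMap.ker (ℓ e)) (by omega) s hs
          have h5 := mul_le_mul_of_nonneg_left h4 (hw e)
          nlinarith
      linarith
    set H : ℝ → ℝ := fun s => (Z ℓ w U s - Φ U s) * exp (W * s) with hH
    have hder : ∀ s, 0 ≤ s → HasDerivAt H
        (((-∑ e, w e * (Z ℓ w U s - Z ℓ w (U ⊓ LinearMap.ker (ℓ e)) s)) - Ψ U s) *
          exp (W * s) + (Z ℓ w U s - Φ U s) * (exp (W * s) * W)) s := by
      intro s hs
      have h1 : HasDerivAt (fun s => Z ℓ w U s - Φ U s)
          ((-∑ e, w e * (Z ℓ w U s - Z ℓ w (U ⊓ LinearMap.ker (ℓ e)) s)) - Ψ U s) s :=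
        (hasDerivAt_Z ℓ w U s).sub (hd U s hs)
      have h2 : HasDerivAt (fun s : ℝ => W * s) W s := by
        have := (hasDerivAt_id' s).const_mul W
        exact this.congr_deriv (mul_one W)
      exact h1.mul h2.exp
    have hanti : AntitoneOn H (Set.Ici 0) := by
      apply antitoneOn_of_deriv_nonpos (convex_Ici 0)
      · exact fun s hs => (hder s hs).continuousAt.continuousWithinAt
      · intro s hs
        rw [interior_Ici, Set.mem_Ioi] at hs
        exact (hder s hs.le).differentiableAt.differentiableWithinAt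
      · intro s hs
        rw [interior_Ici, Set.mem_Ioi] at hs
        rw [(hder s hs.le).deriv]
        have h1 := hZ' s hs.le
        have h5 := mul_nonpos_of_nonpos_of_nonneg
          (show ((-∑ e, w e * (Z ℓ w U s - Z ℓ w (U ⊓ LinearMap.ker (ℓ e)) s)) - Ψ U s) +
            W * (Z ℓ w U s - Φ U s) ≤ 0 by linarith) (exp_pos (W * s)).le
        nlinarith
    have h := hanti (Set.mem_Ici.2 le_rfl) (Set.mem_Ici.2 ht) ht
    have h0 : H 0 ≤ 0 := by
      simp only [hH, mul_zero, exp_zero, mul_one]
      rw [Z_zero]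
      have := hz U
      linarith
    have h1 : (Z ℓ w U t - Φ U t) * exp (W * t) ≤ 0 := h.trans h0
    by_contra hneg
    push Not at hneg
    have := mul_pos (sub_pos.2 hneg) (exp_pos (W * t))
    linarith

end general

section signed

variable {V E : Type*} [Fintype V] [DecidableEq V] [Fintype E]

open Classical in
/-- the vertices whose coordinate is alive on `U` and not proportional to another one -/
noncomputable def Sg (U : Submodule (ZMod 3) (V → ZMod 3)) : Finset V :=
  Finset.univ.filter (fun v => (∃ y ∈ U, y v ≠ 0) ∧ ∀ v', sg U v v' ≠ 0 → v' = v)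

lemma mem_Sg {U : Submodule (ZMod 3) (V → ZMod 3)} {v : V} :
    v ∈ Sg U ↔ (∃ y ∈ U, y v ≠ 0) ∧ ∀ v', sg U v v' ≠ 0 → v' = v := by
  classical
  simp [Sg]

lemma sg_ne_of_eq {U : Submodule (ZMod 3) (V → ZMod 3)} {c v : V}
    (h : ∀ y ∈ U, y v = y c) : sg U c v ≠ 0 := by
  unfold sg
  rw [if_pos h]
  decide

lemma sg_ne_of_neg {U : Submodule (ZMod 3) (V → ZMod 3)} {c v : V}
    (h : ∀ y ∈ U, y v = -y c) : sg U c v ≠ 0 := by
  unfold sg
  split_ifs
  · decide
  · decide

lemma sg_symm {U : Submodule (ZMod 3) (V → ZMod 3)} {c v : V} (h : sg U c v ≠ 0) :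
    sg U v c ≠ 0 := by
  rcases sg_ne_zero h with h1 | h1
  · exact sg_ne_of_eq fun y hy => (h1 y hy).symm
  · exact sg_ne_of_neg fun y hy => by rw [h1 y hy, neg_neg]

lemma Sg_mono {U' U : Submodule (ZMod 3) (V → ZMod 3)} (h : U' ≤ U) : Sg U' ⊆ Sg U := by
  intro v hv
  rw [mem_Sg] at hv ⊢
  obtain ⟨⟨y, hy, hyv⟩, h2⟩ := hv
  refine ⟨⟨y, h hy, hyv⟩, fun v' hs => h2 v' ?_⟩
  rcases sg_ne_zero hs with h3 | h3
  · exact sg_ne_of_eq fun y hy => h3 y (h hy)
  · exact sg_ne_of_neg fun y hy => h3 y (h hy)


/-- representatives of the classes of proportional alive coordinates -/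
lemma exists_rep (U : Submodule (ZMod 3) (V → ZMod 3)) :
    ∃ Rep : Finset V, (∀ c ∈ Rep, ∃ y ∈ U, y c ≠ 0) ∧
      (∀ c ∈ Rep, ∀ c' ∈ Rep, sg U c c' ≠ 0 → c = c') ∧
      Module.finrank (ZMod 3) U ≤ Rep.card ∧
      ∀ v, ∑ c ∈ Rep, |((sg U c v : SignType) : ℝ)| ≤ 1 := by
  classical
  -- representatives
  obtain ⟨Rep, hRep, hmax⟩ := Finset.exists_max_image
    ((Finset.univ : Finset (Finset V)).filter (fun T =>
      (∀ c ∈ T, ∃ y ∈ U, y c ≠ 0) ∧ ∀ c ∈ T, ∀ c' ∈ T, sg U c c' ≠ 0 → c = c'))
    Finset.card ⟨∅, by simp⟩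
  rw [Finset.mem_filter] at hRep
  obtain ⟨-, hR1, hR2⟩ := hRep
  have hcov : ∀ v, (∃ y ∈ U, y v ≠ 0) → ∃ c ∈ Rep, sg U c v ≠ 0 := by
    intro v hv
    by_contra hcon
    push Not at hcon
    have hvR : v ∉ Rep := by
      intro hvR
      have := hcon v hvR
      rw [sg_self] at this
      exact absurd this (by decide)
    have hins : insert v Rep ∈ ((Finset.univ : Finset (Finset V)).filter (fun T =>
      (∀ c ∈ T, ∃ y ∈ U, y c ≠ 0) ∧ ∀ c ∈ T, ∀ c' ∈ T, sg U c c' ≠ 0 → c = c')) := by
      rw [Finset.mem_filter]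
      refine ⟨Finset.mem_univ _, ?_, ?_⟩
      · intro c hc
        rcases Finset.mem_insert.1 hc with rfl | hc
        · exact hv
        · exact hR1 c hc
      · intro c hc c' hc' hs
        rcases Finset.mem_insert.1 hc with hcv | hcR
        · rcases Finset.mem_insert.1 hc' with hcv' | hcR'
          · rw [hcv, hcv']
          · exfalso
            rw [hcv] at hs
            exact sg_symm hs (hcon c' hcR')
        · rcases Finset.mem_insert.1 hc' with hcv' | hcR'
          · rw [hcv'] at hs
            exact absurd (hcon c hcR) hs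
          · exact hR2 c hcR c' hcR' hs
    have := hmax _ hins
    rw [Finset.card_insert_of_notMem hvR] at this
    omega
  refine ⟨Rep, hR1, hR2, ?_, ?_⟩
  -- the dimension is at most the number of representatives
  · let f : U →ₗ[ZMod 3] (Rep → ZMod 3) :=
      LinearMap.pi (fun c => (LinearMap.proj (c : V)).comp U.subtype)
    have hf : Function.Injective f := by
      rw [← LinearMap.ker_eq_bot, LinearMap.ker_eq_bot']
      intro y hy
      apply Subtype.ext
      funext v
      by_contra hv
      obtain ⟨c, hc, hs⟩ := hcov v ⟨y.1, y.2, hv⟩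
      have h0 : (y : V → ZMod 3) c = 0 := congrFun hy ⟨c, hc⟩
      rcases sg_ne_zero hs with h1 | h1
      · apply hv
        rw [h1 y.1 y.2, h0]
        rfl
      · apply hv
        rw [h1 y.1 y.2, h0, neg_zero]
        rfl
    have := LinearMap.finrank_le_finrank_of_injective hf
    rw [Module.finrank_fintype_fun_eq_card, Fintype.card_coe] at this
    exact this
  -- every vertex has at most one representative
  · intro v
    by_cases hex : ∃ c ∈ Rep, sg U c v ≠ 0
    · obtain ⟨c, hc, hs⟩ := hex
      rw [Finset.sum_eq_single_of_mem c hc]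
      · exact abs_sign_le _
      · intro c' hc' hne
        by_contra hcon
        have hs' : sg U c' v ≠ 0 := by
          intro h0
          rw [h0] at hcon
          simp at hcon
        apply hne
        apply hR2 c' hc' c hc
        -- relate `c'` and `c`
        have key : (∀ y ∈ U, y c = y c') ∨ (∀ y ∈ U, y c = - y c') := by
          rcases sg_ne_zero hs with h1 | h1 <;> rcases sg_ne_zero hs' with h2 | h2
          · left; intro y hy; rw [← h1 y hy, h2 y hy]
          · right; intro y hy; rw [← h1 y hy, h2 y hy]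
          · right; intro y hy
            have e1 := h1 y hy
            rw [h2 y hy] at e1
            rw [e1, neg_neg]
          · left; intro y hy
            have e1 := h1 y hy
            rw [h2 y hy] at e1
            exact (neg_injective e1).symm
        rcases key with h1 | h1
        · exact sg_ne_of_eq h1
        · exact sg_ne_of_neg h1
    · push Not at hex
      have : ∑ c ∈ Rep, |((sg U c v : SignType) : ℝ)| = 0 := by
        apply Finset.sum_eq_zero
        intro c hc
        rw [hex c hc]; simp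
      rw [this]; exact zero_le_one

open Classical in
/-- number of single ends of `e` -/
noncomputable def se (a b : E → V) (U : Submodule (ZMod 3) (V → ZMod 3)) (e : E) : ℝ :=
  (if a e ∈ Sg U then 1 else 0) + (if b e ∈ Sg U then 1 else 0)

lemma van_zero (a b : E → V) {U : Submodule (ZMod 3) (V → ZMod 3)} {e : E}
    (he : U ≤ LinearMap.ker (ell a b e)) {c : V} (hc : ∃ y ∈ U, y c ≠ 0) :
    |((sg U c (a e) : SignType) : ℝ) + sg U c (b e)| = 0 := by
  have h0 : ∀ y ∈ U, y (a e) + y (b e) = 0 := by
    intro y hy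
    have := he hy
    rw [LinearMap.mem_ker, ell_apply] at this
    exact this
  rw [sg_neg hc h0]
  rcases sg U c (a e) with _ | _ | _ <;> simp

open Classical in
/-- (i) stars -/
lemma singles_ge (a b : E → V) (w : E → ℝ) (hw : ∀ e, 0 ≤ w e) {D : ℝ}
    (h : ∀ y : V → SignType, y ≠ 0 → D ≤ ∑ e, w e * |((y (a e) : SignType) : ℝ) + y (b e)|)
    (U : Submodule (ZMod 3) (V → ZMod 3)) :
    ((Sg U).card : ℝ) * D ≤
      ∑ e, if U ≤ LinearMap.ker (ell a b e) then 0 else w e * se a b U e := by
  have h1 : ((Sg U).card : ℝ) * D ≤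
      ∑ v ∈ Sg U, ∑ e, w e * |((sg U v (a e) : SignType) : ℝ) + sg U v (b e)| := by
    rw [← nsmul_eq_mul, ← Finset.sum_const]
    apply Finset.sum_le_sum
    intro v hv
    apply h
    intro h0
    have : sg U v v = 0 := congrFun h0 v
    rw [sg_self] at this
    exact absurd this (by decide)
  refine h1.trans ?_
  rw [Finset.sum_comm]
  apply Finset.sum_le_sum
  intro e _
  rw [← Finset.mul_sum]
  by_cases he : U ≤ LinearMap.ker (ell a b e)
  · rw [if_pos he]
    have : ∑ v ∈ Sg U, |((sg U v (a e) : SignType) : ℝ) + sg U v (b e)| = 0 := by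
      apply Finset.sum_eq_zero
      intro v hv
      exact van_zero a b he (mem_Sg.1 hv).1
    rw [this, mul_zero]
  · rw [if_neg he]
    apply mul_le_mul_of_nonneg_left _ (hw e)
    have key : ∀ u : V, ∑ v ∈ Sg U, |((sg U v u : SignType) : ℝ)| ≤ if u ∈ Sg U then 1 else 0 := by
      intro u
      by_cases hu : u ∈ Sg U
      · rw [if_pos hu, Finset.sum_eq_single_of_mem u hu]
        · exact abs_sign_le _
        · intro v hv hne
          have : sg U v u = 0 := by
            by_contra h0
            exact hne ((mem_Sg.1 hv).2 u h0).symm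
          rw [this]; simp
      · rw [if_neg hu]
        apply le_of_eq
        apply Finset.sum_eq_zero
        intro v hv
        have : sg U v u = 0 := by
          by_contra h0
          have := (mem_Sg.1 hv).2 u h0
          rw [this] at hu
          exact hu hv
        rw [this]; simp
    calc ∑ v ∈ Sg U, |((sg U v (a e) : SignType) : ℝ) + sg U v (b e)|
        ≤ ∑ v ∈ Sg U, (|((sg U v (a e) : SignType) : ℝ)| + |((sg U v (b e) : SignType) : ℝ)|) :=
          Finset.sum_le_sum fun c _ => abs_add_le _ _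
      _ ≤ se a b U e := by
          rw [Finset.sum_add_distrib]
          exact add_le_add (key _) (key _)

open Classical in
/-- (ii) the other classes -/
lemma nonsingles_ge (a b : E → V) (w : E → ℝ) (hw : ∀ e, 0 ≤ w e) {L : ℝ} (hL : 0 ≤ L)
    (h : ∀ y : V → SignType, (∃ u v, u ≠ v ∧ y u ≠ 0 ∧ y v ≠ 0) →
      L ≤ ∑ e, w e * |((y (a e) : SignType) : ℝ) + y (b e)|)
    (U : Submodule (ZMod 3) (V → ZMod 3)) :
    ((Module.finrank (ZMod 3) U : ℝ) - (Sg U).card) * L ≤
      ∑ e, if U ≤ LinearMap.ker (ell a b e) then 0 else w e * (2 - se a b U e) := by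
  obtain ⟨Rep, hR1, hR2, hdim, hone⟩ := exists_rep U
  set R2 := Rep.filter (fun c => c ∉ Sg U) with hR2def
  have hcard : (Module.finrank (ZMod 3) U : ℝ) - (Sg U).card ≤ R2.card := by
    have h1 : Rep.card = (Rep.filter (fun c => c ∈ Sg U)).card + R2.card :=
      (Finset.card_filter_add_card_filter_not (s := Rep) (fun c => c ∈ Sg U)).symm
    have h2 : (Rep.filter (fun c => c ∈ Sg U)).card ≤ (Sg U).card := by
      apply Finset.card_le_card
      intro c hc
      exact (Finset.mem_filter.1 hc).2
    have h3 : Module.finrank (ZMod 3) U ≤ (Sg U).card + R2.card := by omega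
    have h4 : (Module.finrank (ZMod 3) U : ℝ) ≤ (Sg U).card + R2.card := by exact_mod_cast h3
    linarith
  have h1 : (R2.card : ℝ) * L ≤
      ∑ v ∈ R2, ∑ e, w e * |((sg U v (a e) : SignType) : ℝ) + sg U v (b e)| := by
    rw [← nsmul_eq_mul, ← Finset.sum_const]
    apply Finset.sum_le_sum
    intro v hv
    obtain ⟨hvR, hvS⟩ := Finset.mem_filter.1 hv
    apply h
    have hex : ∃ v', sg U v v' ≠ 0 ∧ v' ≠ v := by
      by_contra hcon
      push Not at hcon
      exact hvS (mem_Sg.2 ⟨hR1 v hvR, hcon⟩)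
    obtain ⟨v', h2, h3⟩ := hex
    refine ⟨v', v, h3, h2, ?_⟩
    rw [sg_self]
    decide
  refine (mul_le_mul_of_nonneg_right hcard hL).trans (h1.trans ?_)
  rw [Finset.sum_comm]
  apply Finset.sum_le_sum
  intro e _
  rw [← Finset.mul_sum]
  by_cases he : U ≤ LinearMap.ker (ell a b e)
  · rw [if_pos he]
    have : ∑ v ∈ R2, |((sg U v (a e) : SignType) : ℝ) + sg U v (b e)| = 0 := by
      apply Finset.sum_eq_zero
      intro v hv
      exact van_zero a b he (hR1 v (Finset.mem_filter.1 hv).1)
    rw [this, mul_zero]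
  · rw [if_neg he]
    apply mul_le_mul_of_nonneg_left _ (hw e)
    have key : ∀ u : V, ∑ v ∈ R2, |((sg U v u : SignType) : ℝ)| ≤
        1 - if u ∈ Sg U then 1 else 0 := by
      intro u
      by_cases hu : u ∈ Sg U
      · rw [if_pos hu, sub_self]
        apply le_of_eq
        apply Finset.sum_eq_zero
        intro v hv
        have : sg U v u = 0 := by
          by_contra h0
          have h5 := (mem_Sg.1 hu).2 v (sg_symm h0)
          rw [h5] at hv
          exact (Finset.mem_filter.1 hv).2 hu
        rw [this]; simp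
      · rw [if_neg hu, sub_zero]
        refine le_trans ?_ (hone u)
        apply Finset.sum_le_sum_of_subset_of_nonneg (Finset.filter_subset _ _)
        intro _ _ _
        exact abs_nonneg _
    calc ∑ v ∈ R2, |((sg U v (a e) : SignType) : ℝ) + sg U v (b e)|
        ≤ ∑ v ∈ R2, (|((sg U v (a e) : SignType) : ℝ)| + |((sg U v (b e) : SignType) : ℝ)|) :=
          Finset.sum_le_sum fun c _ => abs_add_le _ _
      _ ≤ (1 - if a e ∈ Sg U then 1 else 0) + (1 - if b e ∈ Sg U then 1 else 0) := by
          rw [Finset.sum_add_distrib]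
          exact add_le_add (key _) (key _)
      _ = 2 - se a b U e := by unfold se; ring

open Classical in
/-- the number of single vertices drops by the number of single ends -/
lemma card_drop (a b : E → V) {e : E} (hab : a e ≠ b e)
    (U : Submodule (ZMod 3) (V → ZMod 3)) :
    ((Sg (U ⊓ LinearMap.ker (ell a b e))).card : ℝ) ≤ (Sg U).card - se a b U e := by
  set U' := U ⊓ LinearMap.ker (ell a b e) with hU'
  have hpr : ∀ y ∈ U', y (b e) = - y (a e) := by
    intro y hy
    have h1 := (Submodule.mem_inf.1 hy).2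
    rw [LinearMap.mem_ker, ell_apply] at h1
    exact eq_neg_of_add_eq_zero_right h1
  have ha : a e ∉ Sg U' := by
    intro h
    exact hab ((mem_Sg.1 h).2 (b e) (sg_ne_of_neg hpr)).symm
  have hb : b e ∉ Sg U' := by
    intro h
    exact hab ((mem_Sg.1 h).2 (a e) (sg_symm (sg_ne_of_neg hpr)))
  have hsub : Sg U' ⊆ ((Sg U).erase (a e)).erase (b e) := by
    intro v hv
    rw [Finset.mem_erase, Finset.mem_erase]
    refine ⟨?_, ?_, Sg_mono inf_le_left hv⟩
    · rintro rfl; exact hb hv
    · rintro rfl; exact ha hv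
  have h1 : (((((Sg U).erase (a e)).erase (b e)).card : ℕ) : ℝ) = (Sg U).card - se a b U e := by
    unfold se
    by_cases h2 : a e ∈ Sg U
    · by_cases h3 : b e ∈ Sg U
      · have h4 : b e ∈ (Sg U).erase (a e) := Finset.mem_erase.2 ⟨hab.symm, h3⟩
        have h5 := Finset.card_erase_add_one h4
        have h6 := Finset.card_erase_add_one h2
        rw [if_pos h2, if_pos h3]
        have h7 : (((Sg U).erase (a e)).erase (b e)).card + 2 = (Sg U).card := by omega
        have h8 : ((((((Sg U).erase (a e)).erase (b e)).card : ℕ) : ℝ)) + 2 = (Sg U).card := by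
          exact_mod_cast h7
        linarith
      · have h4 : b e ∉ (Sg U).erase (a e) := fun h => h3 (Finset.mem_of_mem_erase h)
        rw [Finset.erase_eq_of_notMem h4]
        have h6 := Finset.card_erase_add_one h2
        rw [if_pos h2, if_neg h3]
        have h8 : (((((Sg U).erase (a e)).card : ℕ) : ℝ)) + 1 = (Sg U).card := by
          exact_mod_cast h6
        linarith
    · rw [Finset.erase_eq_of_notMem h2]
      by_cases h3 : b e ∈ Sg U
      · have h6 := Finset.card_erase_add_one h3
        rw [if_neg h2, if_pos h3]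
        have h8 : (((((Sg U).erase (b e)).card : ℕ) : ℝ)) + 1 = (Sg U).card := by
          exact_mod_cast h6
        linarith
      · rw [Finset.erase_eq_of_notMem h3, if_neg h2, if_neg h3]
        ring
  rw [← h1]
  exact_mod_cast Finset.card_le_card hsub

/-! ### the functions -/

/-- square of the factor of a single vertex -/
noncomputable def Wf (D t : ℝ) : ℝ :=
  1 + 2 * D * exp (-((D - 1) * t)) - (2 * D - 8) * exp (-(D * t))

/-- factor of another class -/
noncomputable def Bf (D t : ℝ) : ℝ := 1 + 2 * exp (-((D - 1) * t))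

lemma Bf_one_le (D t : ℝ) : 1 ≤ Bf D t := by
  unfold Bf
  have := exp_pos (-((D - 1) * t))
  linarith

lemma exp_le_aux {D t : ℝ} (ht : 0 ≤ t) : exp (-(D * t)) ≤ exp (-((D - 1) * t)) := by
  apply exp_le_exp.2
  nlinarith

lemma sq_le_aux {D t : ℝ} (hD : 2 ≤ D) (ht : 0 ≤ t) :
    exp (-((D - 1) * t)) * exp (-((D - 1) * t)) ≤ exp (-(D * t)) := by
  rw [← exp_add]
  apply exp_le_exp.2
  nlinarith

/-- `B ^ 2 ≤ W` -/
lemma Bf_sq_le {D t : ℝ} (hD : 2 ≤ D) (ht : 0 ≤ t) : Bf D t * Bf D t ≤ Wf D t := by
  unfold Bf Wf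
  have h1 := exp_le_aux (D := D) ht
  have h2 := sq_le_aux hD ht
  nlinarith [mul_nonneg (sub_nonneg.2 hD) (sub_nonneg.2 h1)]

lemma Wf_pos {D t : ℝ} (hD : 2 ≤ D) (ht : 0 ≤ t) : 0 < Wf D t := by
  have h1 := Bf_sq_le hD ht
  have h2 := Bf_one_le D t
  nlinarith

lemma Bf_le_Wf {D t : ℝ} (hD : 2 ≤ D) (ht : 0 ≤ t) : Bf D t ≤ Wf D t := by
  have h1 := Bf_sq_le hD ht
  have h2 := Bf_one_le D t
  nlinarith

lemma hasDerivAt_Bf (D t : ℝ) : HasDerivAt (Bf D) (-((D - 1) * (Bf D t - 1))) t := by
  have h0 : HasDerivAt (fun t : ℝ => -((D - 1) * t)) (-((D - 1) * 1)) t :=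
    ((hasDerivAt_id' t).const_mul (D - 1)).neg
  have h1 := (h0.exp.const_mul 2).const_add 1
  refine h1.congr_deriv ?_
  unfold Bf
  ring

lemma hasDerivAt_Wf (D t : ℝ) : HasDerivAt (Wf D) (-(D * (Wf D t - Bf D t))) t := by
  have h0 : HasDerivAt (fun t : ℝ => -((D - 1) * t)) (-((D - 1) * 1)) t :=
    ((hasDerivAt_id' t).const_mul (D - 1)).neg
  have h0' : HasDerivAt (fun t : ℝ => -(D * t)) (-(D * 1)) t :=
    ((hasDerivAt_id' t).const_mul D).neg
  have h1 := ((h0.exp.const_mul (2 * D)).const_add 1).sub (h0'.exp.const_mul (2 * D - 8))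
  refine h1.congr_deriv ?_
  unfold Wf Bf
  ring

/-- the exponent of the supersolution -/
noncomputable def Le (D : ℝ) (U : Submodule (ZMod 3) (V → ZMod 3)) (t : ℝ) : ℝ :=
  ((Sg U).card : ℝ) * (log (Wf D t) / 2) +
    ((Module.finrank (ZMod 3) U : ℝ) - (Sg U).card) * log (Bf D t)

/-- the derivative of the exponent -/
noncomputable def dLe (D : ℝ) (U : Submodule (ZMod 3) (V → ZMod 3)) (t : ℝ) : ℝ :=
  ((Sg U).card : ℝ) * ((-(D * (Wf D t - Bf D t))) / Wf D t / 2) +
    ((Module.finrank (ZMod 3) U : ℝ) - (Sg U).card) *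
      ((-((D - 1) * (Bf D t - 1))) / Bf D t)

lemma hasDerivAt_Le {D : ℝ} (hD : 2 ≤ D) (U : Submodule (ZMod 3) (V → ZMod 3)) {t : ℝ}
    (ht : 0 ≤ t) : HasDerivAt (Le D U) (dLe D U t) t := by
  have h1 := (hasDerivAt_Wf D t).log (Wf_pos hD ht).ne'
  have h2 := (hasDerivAt_Bf D t).log (by have := Bf_one_le D t; linarith : Bf D t ≠ 0)
  have h3 := ((h1.div_const 2).const_mul ((Sg U).card : ℝ)).add
    (h2.const_mul ((Module.finrank (ZMod 3) U : ℝ) - (Sg U).card))
  exact h3

/-- main inequality for one edge -/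
lemma edge_ineq {D t : ℝ} (hD : 2 ≤ D) (ht : 0 ≤ t) {s : ℝ} (hs : s = 0 ∨ s = 1 ∨ s = 2) :
    s * ((1 - Bf D t / Wf D t) / 2) + (2 - s) * ((1 - 1 / Bf D t) / 2) ≤
      1 - exp (-(s * (log (Wf D t) / 2 - log (Bf D t))) - log (Bf D t)) := by
  have hB : 0 < Bf D t := by have := Bf_one_le D t; linarith
  have hW := Wf_pos hD ht
  have eB : exp (-log (Bf D t)) = 1 / Bf D t := by rw [exp_neg, exp_log hB, one_div]
  have eW : exp (-(log (Wf D t) / 2)) * exp (-(log (Wf D t) / 2)) = 1 / Wf D t := by
    rw [← exp_add, ← neg_add, add_halves, exp_neg, exp_log hW, one_div]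
  rcases hs with rfl | rfl | rfl
  · have e1 : -(0 * (log (Wf D t) / 2 - log (Bf D t))) - log (Bf D t) = -log (Bf D t) := by
      ring
    rw [e1, eB]
    apply le_of_eq
    ring
  · have e1 : exp (-(1 * (log (Wf D t) / 2 - log (Bf D t))) - log (Bf D t)) =
        exp (-(log (Wf D t) / 2)) := by
      congr 1; ring
    rw [e1]
    set x := exp (-(log (Wf D t) / 2)) with hx
    have h1 : Bf D t / Wf D t = Bf D t * (x * x) := by rw [eW]; ring
    have h2 : 0 ≤ Bf D t * ((x - 1 / Bf D t) * (x - 1 / Bf D t)) :=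
      mul_nonneg hB.le (mul_self_nonneg _)
    have h3 : Bf D t * ((x - 1 / Bf D t) * (x - 1 / Bf D t)) =
        Bf D t * (x * x) - 2 * x + 1 / Bf D t := by
      field_simp
      ring
    rw [h1]
    linarith
  · have e1 : exp (-(2 * (log (Wf D t) / 2 - log (Bf D t))) - log (Bf D t)) =
        Bf D t / Wf D t := by
      have : -(2 * (log (Wf D t) / 2 - log (Bf D t))) - log (Bf D t) =
          log (Bf D t) - log (Wf D t) := by ring
      rw [this, exp_sub, exp_log hB, exp_log hW]
    rw [e1]
    apply le_of_eq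
    ring

lemma se_cases (a b : E → V) (U : Submodule (ZMod 3) (V → ZMod 3)) (e : E) :
    se a b U e = 0 ∨ se a b U e = 1 ∨ se a b U e = 2 := by
  unfold se
  split_ifs
  · right; right; norm_num
  · right; left; norm_num
  · right; left; norm_num
  · left; norm_num

lemma log_nonneg_aux {D t : ℝ} (hD : 2 ≤ D) (ht : 0 ≤ t) :
    0 ≤ log (Wf D t) / 2 - log (Bf D t) := by
  have hB : 0 < Bf D t := by have := Bf_one_le D t; linarith
  have h1 : log (Bf D t * Bf D t) ≤ log (Wf D t) :=
    log_le_log (mul_pos hB hB) (Bf_sq_le hD ht)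
  rw [log_mul hB.ne' hB.ne'] at h1
  linarith

/-- **star separated signed cut sum** -/
theorem star_sum (a b : E → V) (w : E → ℝ) (hw : ∀ e, 0 ≤ w e) (hab : ∀ e, a e ≠ b e)
    {D : ℝ} (hD : 2 ≤ D)
    (h1 : ∀ y : V → SignType, y ≠ 0 → D ≤ ∑ e, w e * |((y (a e) : SignType) : ℝ) + y (b e)|)
    (h2 : ∀ y : V → SignType, (∃ u v, u ≠ v ∧ y u ≠ 0 ∧ y v ≠ 0) →
      2 * D - 2 ≤ ∑ e, w e * |((y (a e) : SignType) : ℝ) + y (b e)|)
    {t : ℝ} (ht : 0 ≤ t) :
    ∑ y : V → SignType, exp (-(t * ∑ e, if y (a e) = -y (b e) then 0 else w e)) ≤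
      (1 + 2 * D * exp (-((D - 1) * t)) - (2 * D - 8) * exp (-(D * t))) ^
        ((Fintype.card V : ℝ) / 2) := by
  classical
  have main := sub_sum_fun (ell a b) w hw (fun U t => exp (Le D U t))
    (fun U t => exp (Le D U t) * dLe D U t)
    (fun t ht => by
      have h3 : Sg (⊥ : Submodule (ZMod 3) (V → ZMod 3)) = ∅ := by
        rw [Finset.eq_empty_iff_forall_notMem]
        intro v hv
        obtain ⟨⟨y, hy, hyv⟩, -⟩ := mem_Sg.1 hv
        rw [Submodule.mem_bot] at hy
        rw [hy] at hyv
        exact hyv rfl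
      have h4 : Le D (⊥ : Submodule (ZMod 3) (V → ZMod 3)) t = 0 := by
        unfold Le
        rw [h3]
        simp
      show 1 ≤ exp (Le D (⊥ : Submodule (ZMod 3) (V → ZMod 3)) t)
      rw [h4, exp_zero])
    (fun U => by
      have hB0 : Bf D 0 = 3 := by unfold Bf; norm_num
      have hW0 : Wf D 0 = 3 * 3 := by
        unfold Wf
        rw [mul_zero, mul_zero, neg_zero, exp_zero]
        ring
      have h3 : Le D U 0 = (Module.finrank (ZMod 3) U : ℝ) * log 3 := by
        unfold Le
        rw [hB0, hW0, log_mul (by norm_num) (by norm_num)]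
        ring
      show (Fintype.card (ZMod 3) : ℝ) ^ (Module.finrank (ZMod 3) U) ≤ exp (Le D U 0)
      rw [h3, ZMod.card 3, mul_comm, exp_mul, exp_log (by norm_num), rpow_natCast]
      norm_num)
    (fun U t ht => (hasDerivAt_Le hD U ht).exp)
    (fun U t ht => by
      show -(exp (Le D U t) * dLe D U t) ≤
        ∑ e, if U ≤ LinearMap.ker (ell a b e) then 0 else
          w e * (exp (Le D U t) - exp (Le D (U ⊓ LinearMap.ker (ell a b e)) t))
      have hB : 0 < Bf D t := by have := Bf_one_le D t; linarith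
      have hW := Wf_pos hD ht
      have g2 : 0 ≤ 1 - Bf D t / Wf D t := by
        rw [sub_nonneg, div_le_one hW]
        exact Bf_le_Wf hD ht
      have g0 : 0 ≤ 1 - 1 / Bf D t := by
        rw [sub_nonneg, div_le_one hB]
        exact Bf_one_le D t
      have s1 := singles_ge a b w hw h1 U
      have s2 := nonsingles_ge a b w hw (by linarith : (0:ℝ) ≤ 2 * D - 2) h2 U
      -- lower bound for every edge
      have hedge : ∀ e, (if U ≤ LinearMap.ker (ell a b e) then 0 else
          w e * (exp (Le D U t) * (se a b U e * ((1 - Bf D t / Wf D t) / 2) +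
            (2 - se a b U e) * ((1 - 1 / Bf D t) / 2)))) ≤
          (if U ≤ LinearMap.ker (ell a b e) then 0 else
          w e * (exp (Le D U t) - exp (Le D (U ⊓ LinearMap.ker (ell a b e)) t))) := by
        intro e
        by_cases he : U ≤ LinearMap.ker (ell a b e)
        · rw [if_pos he, if_pos he]
        · rw [if_neg he, if_neg he]
          apply mul_le_mul_of_nonneg_left _ (hw e)
          have r1 := finrank_inf_ker (ell a b e) U he
          have r2 : (Module.finrank (ZMod 3) U : ℝ) = Module.finrank (ZMod 3)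
            (U ⊓ LinearMap.ker (ell a b e) : Submodule (ZMod 3) (V → ZMod 3)) + 1 := by
            exact_mod_cast r1
          have r3 := card_drop a b (hab e) U
          have r4 : Le D (U ⊓ LinearMap.ker (ell a b e)) t ≤
              Le D U t + (-(se a b U e * (log (Wf D t) / 2 - log (Bf D t))) -
                log (Bf D t)) := by
            have r5 := mul_le_mul_of_nonneg_right r3 (log_nonneg_aux hD ht)
            unfold Le
            rw [r2]
            nlinarith
          have r6 := exp_le_exp.2 r4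
          rw [exp_add] at r6
          have r7 := mul_le_mul_of_nonneg_left (edge_ineq hD ht (se_cases a b U e))
            (exp_pos (Le D U t)).le
          linarith
      refine le_trans ?_ (Finset.sum_le_sum fun e _ => hedge e)
      have hsplit : (∑ e, if U ≤ LinearMap.ker (ell a b e) then 0 else
          w e * (exp (Le D U t) * (se a b U e * ((1 - Bf D t / Wf D t) / 2) +
            (2 - se a b U e) * ((1 - 1 / Bf D t) / 2)))) =
          exp (Le D U t) * (((1 - Bf D t / Wf D t) / 2) *
            (∑ e, if U ≤ LinearMap.ker (ell a b e) then 0 else w e * se a b U e) +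
          ((1 - 1 / Bf D t) / 2) *
            (∑ e, if U ≤ LinearMap.ker (ell a b e) then 0 else w e * (2 - se a b U e))) := by
        rw [Finset.mul_sum, Finset.mul_sum, ← Finset.sum_add_distrib, Finset.mul_sum]
        apply Finset.sum_congr rfl
        intro e _
        by_cases he : U ≤ LinearMap.ker (ell a b e)
        · simp [he]
        · rw [if_neg he, if_neg he, if_neg he]
          ring
      rw [hsplit, ← mul_neg]
      apply mul_le_mul_of_nonneg_left _ (exp_pos _).le
      have t1 := mul_le_mul_of_nonneg_left s1 (div_nonneg g2 zero_le_two)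
      have t2 := mul_le_mul_of_nonneg_left s2 (div_nonneg g0 zero_le_two)
      refine le_trans (le_of_eq ?_) (add_le_add t1 t2)
      unfold dLe
      field_simp
      ring)
    (Fintype.card V) ⊤ (by rw [finrank_top, Module.finrank_fintype_fun_eq_card]) t ht
  have hfin : exp (Le D (⊤ : Submodule (ZMod 3) (V → ZMod 3)) t) ≤
      (Wf D t) ^ ((Fintype.card V : ℝ) / 2) := by
    have hW := Wf_pos hD ht
    rw [rpow_def_of_pos hW, exp_le_exp]
    unfold Le
    rw [finrank_top, Module.finrank_fintype_fun_eq_card]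
    have h3 : ((Sg (⊤ : Submodule (ZMod 3) (V → ZMod 3))).card : ℝ) ≤ Fintype.card V := by
      exact_mod_cast Finset.card_le_univ _
    have h4 := mul_nonneg (sub_nonneg.2 h3) (log_nonneg_aux hD ht)
    nlinarith
  refine le_trans (le_of_eq ?_) (main.trans hfin)
  unfold Z
  refine Fintype.sum_equiv (Equiv.arrowCongr (Equiv.refl V) sgEquiv) _ _ ?_
  intro y
  rw [if_pos Submodule.mem_top]
  congr 2
  congr 1
  unfold cost
  apply Finset.sum_congr rfl
  intro e _
  have he : (ell a b e) ((Equiv.arrowCongr (Equiv.refl V) sgEquiv) y) = 0 ↔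
      y (a e) = -y (b e) := by
    rw [ell_apply]
    exact sgEquiv_add (y (a e)) (y (b e))
  by_cases hy : y (a e) = -y (b e)
  · rw [if_pos hy, if_pos (he.2 hy)]
  · rw [if_neg hy, if_neg (fun h => hy (he.1 h))]

end signed

end Pool.Agent.UPS.StarSum
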