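import Pool.Agent.Lib.MP_876e19_co_ups.StarCutB
import Pool.Agent.Lib.MP_876e19_co_ups.DoubleCover

/-!
# Star-separated signed cut sum for non-bipartite vertex-transitive graphs (helper88)

`star_sum_graph`: connected, vertex-transitive, not bipartite, valency `d ≥ 1`: for `t ≥ 0`
`∑ y : V → {-1,0,1}, exp (-t #{e : y u + y w ≠ 0}) ≤
  (√(1 + 2 d exp (-(d-1) t) + (8 - 2 d) exp (-d t))) ^ n`.
`star_union_graph`: the same with `|z|_1 ^ 2 / |z|_2 ^ 2` in the exponent and `8/9 t` on the right.
-/

set_option autoImplicit false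

namespace Pool.Agent.UPS.StarSum

open Finset Real Classical Pool.Agent.UPS.SignedSum Pool.Agent.UPS.StarCut Pool.Agent.UPS2 Pool.Agent.UPS2.EC

variable {V : Type*} [Fintype V] {G : SimpleGraph V}

/-- signed cuts with at least two non-zero entries have size at least `2 d - 2` (twice this over
ordered pairs) -/
theorem cut_two (hc : G.Connected) (hodd : OddW G) (hvt : VT G) {d : ℕ}
    (hd : ∀ v, dg G v = d) (y : V → ℤ) (hy : ∀ v, y v = -1 ∨ y v = 0 ∨ y v = 1)
    (h2 : ∃ u v, u ≠ v ∧ y u ≠ 0 ∧ y v ≠ 0) : 4 * ((d : ℤ) - 1) ≤ L1 G y := by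
  have hDc := DC_connected hc hodd
  have hDv := DC_VT hvt
  have hDd : ∀ v, dg (DC G) v = d := fun v => by
    obtain ⟨v, s⟩ := v; rw [DC_dg]; exact hd v
  rw [L1_eq (G := G) y hy]
  have hq : 2 * ((d : ℤ) - 1) ≤ (cut (DC G) (SY y) : ℤ) := by
    by_cases hE : HasEdge (DC G) (SY y)
    · have hE' : ∃ a b, a ∉ SY y ∧ b ∉ SY y ∧ (DC G).Adj a b := by
        obtain ⟨⟨u, s⟩, hu, ⟨w, t⟩, hw, huw, hst⟩ := hE
        have hmir : ∀ (v : V) (r : Bool), (v, r) ∈ SY y → (v, !r) ∉ SY y := by
          intro v r h h'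
          cases r
          · rw [mem_SY_false] at h
            rw [Bool.not_false, mem_SY_true] at h'
            omega
          · rw [mem_SY_true] at h
            rw [Bool.not_true, mem_SY_false] at h'
            omega
        exact ⟨(u, !s), (w, !t), hmir u s hu, hmir w t hw, huw, fun h => hst (by
          change (!s) = (!t) at h
          change s = t
          cases s <;> cases t <;> simp_all)⟩
      have := edge_conn_out hDc hDv hDd DC_tri hE hE'
      have h2 : (2 * (d : ℤ)) ≤ (cut (DC G) (SY y) : ℤ) + 2 := by exact_mod_cast this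
      linarith
    · have hcut := cut_indep hDd hE
      have hcard : 2 ≤ (SY y).card := by
        obtain ⟨u, v, huv, hu, hv⟩ := h2
        have hm : ∀ x, y x ≠ 0 → ∃ s, (x, s) ∈ SY y := by
          intro x hx
          rcases hy x with h | h | h
          · exact ⟨false, (mem_SY_false y x).2 h⟩
          · exact absurd h hx
          · exact ⟨true, (mem_SY_true y x).2 h⟩
        obtain ⟨s, hs⟩ := hm u hu
        obtain ⟨r, hr⟩ := hm v hv
        exact Finset.one_lt_card.2 ⟨_, hs, _, hr, fun h => huv (congrArg Prod.fst h)⟩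
      have : 2 * d ≤ cut (DC G) (SY y) := by
        rw [hcut]; exact Nat.mul_le_mul_right d hcard
      have h2 : (2 * (d : ℤ)) ≤ (cut (DC G) (SY y) : ℤ) := by exact_mod_cast this
      linarith
  linarith

lemma sign_int_cases (s : SignType) :
    ((s : SignType) : ℤ) = -1 ∨ ((s : SignType) : ℤ) = 0 ∨ ((s : SignType) : ℤ) = 1 := by
  rcases s with _ | _ | _ <;> simp

lemma sign_int_real (s : SignType) : (((s : SignType) : ℤ) : ℝ) = ((s : SignType) : ℝ) := by
  rcases s with _ | _ | _ <;> simp

/-- **Star-separated signed cut sum**, graph form -/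
theorem star_sum_graph (hc : G.Connected) (hodd : OddW G) (hvt : VT G) {d : ℕ} (hd1 : 1 ≤ d)
    (hd : ∀ v, dg G v = d) {t : ℝ} (ht : 0 ≤ t) :
    ∑ y : V → SignType, exp (-(t * ∑ p : V × V,
        (if G.Adj p.1 p.2 ∧ y p.1 ≠ -y p.2 then (1 / 2 : ℝ) else 0))) ≤
      (√(1 + 2 * (d : ℝ) * exp (-(((d : ℝ) - 1) * t)) +
        (8 - 2 * (d : ℝ)) * exp (-((d : ℝ) * t)))) ^ (Fintype.card V) := by
  set w : V × V → ℝ := fun p => if G.Adj p.1 p.2 then 1 / 2 else 0 with hw
  have hd1' : (1 : ℝ) ≤ d := by exact_mod_cast hd1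
  have hdeg : ∀ v, ∑ p : V × V, (if p.1 = v ∨ p.2 = v then w p else 0) = (d : ℝ) := by
    intro v
    have h1 : ∀ p : V × V, (if p.1 = v ∨ p.2 = v then w p else 0) =
        (if p.1 = v then w p else 0) + (if p.2 = v then w p else 0) := by
      intro p
      by_cases h1 : p.1 = v
      · by_cases h2 : p.2 = v
        · have : w p = 0 := by
            simp only [hw]
            rw [if_neg]
            rw [h1, h2]
            exact G.loopless.irrefl v
          simp [this]
        · simp [h1, h2]
      · simp [h1]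
    simp only [h1]
    rw [Finset.sum_add_distrib]
    have e1 : ∑ p : V × V, (if p.1 = v then w p else 0) = (d : ℝ) / 2 := by
      rw [Fintype.sum_prod_type]
      rw [Finset.sum_eq_single v]
      · simp only [if_true]
        have : ∑ x : V, w (v, x) = (dg G v : ℝ) / 2 := by
          unfold dg
          push_cast
          rw [Finset.sum_div]
          apply Finset.sum_congr rfl
          intro x _
          simp only [hw]
          split_ifs <;> simp
        rw [this, hd v]
      · intro u _ hu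
        apply Finset.sum_eq_zero
        intro x _
        rw [if_neg hu]
      · intro h; exact absurd (mem_univ _) h
    have e2 : ∑ p : V × V, (if p.2 = v then w p else 0) = (d : ℝ) / 2 := by
      rw [← e1, ← Equiv.sum_comp (Equiv.prodComm V V)]
      apply Finset.sum_congr rfl
      intro p _
      simp only [Equiv.prodComm_apply, Prod.snd_swap, hw, Prod.fst_swap]
      congr 1
      exact if_congr ⟨fun h => h.symm, fun h => h.symm⟩ rfl rfl
    rw [e1, e2]
    ring
  have hlow : ∀ y : V → SignType, (∃ u v, u ≠ v ∧ y u ≠ 0 ∧ y v ≠ 0) →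
      2 * ((d : ℝ) - 1) ≤ ∑ p : V × V, w p * |((y p.1 : SignType) : ℝ) + y p.2| := by
    intro y hy2
    have h1 := cut_two hc hodd hvt hd (fun v => ((y v : SignType) : ℤ))
      (fun v => sign_int_cases (y v)) (by
        obtain ⟨u, v, huv, hu, hv⟩ := hy2
        have key : ∀ s : SignType, s ≠ 0 → ((s : SignType) : ℤ) ≠ 0 := by
          intro s hs
          rcases s with _ | _ | _ <;> simp at hs ⊢
        exact ⟨u, v, huv, key _ hu, key _ hv⟩)
    have h2 : ((L1 G (fun v => ((y v : SignType) : ℤ)) : ℤ) : ℝ) =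
        2 * ∑ p : V × V, w p * |((y p.1 : SignType) : ℝ) + y p.2| := by
      unfold L1
      push_cast
      rw [Finset.mul_sum]
      apply Finset.sum_congr rfl
      intro p _
      simp only [hw]
      split_ifs with hp
      · ring
      · simp
    have h3 : (4 * ((d : ℝ) - 1)) ≤ ((L1 G (fun v => ((y v : SignType) : ℤ)) : ℤ) : ℝ) := by
      exact_mod_cast h1
    rw [h2] at h3
    linarith
  have main := star_sum (V := V) (E := V × V) Prod.fst Prod.snd w
    (fun p => by simp only [hw]; split_ifs <;> norm_num)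
    (fun p hp h => by
      apply hp
      simp only [hw]
      rw [if_neg]
      rw [h]
      exact G.loopless.irrefl _)
    (δ := (d : ℝ)) (μ := (d : ℝ) - 1) (by linarith) (by linarith) hdeg hlow ht
  have e3 : 2 * (d : ℝ) / ((d : ℝ) - ((d : ℝ) - 1)) = 2 * d := by
    rw [show (d : ℝ) - ((d : ℝ) - 1) = 1 by ring, div_one]
  rw [e3] at main
  refine le_trans (le_of_eq ?_) main
  apply Finset.sum_congr rfl
  intro y _
  congr 3
  apply Finset.sum_congr rfl
  intro p _
  simp only [hw]
  by_cases h1 : y p.1 = -y p.2 <;> by_cases h2 : G.Adj p.1 p.2 <;> simp [h1, h2]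

/-- `(Σ|z|)^2 ≥ 8/9 N Σ z^2` over ordered adjacent pairs -/
lemma l1_sq_ge_graph (y : V → SignType) :
    8 / 9 * (∑ p : V × V, (if G.Adj p.1 p.2 ∧ y p.1 ≠ -y p.2 then (1 / 2 : ℝ) else 0)) *
      (2 * ((L2 G (fun v => ((y v : SignType) : ℤ)) : ℤ) : ℝ)) ≤
      ((L1 G (fun v => ((y v : SignType) : ℤ)) : ℤ) : ℝ) ^ 2 := by
  set o : ℝ := ∑ p : V × V, if G.Adj p.1 p.2 ∧ |((y p.1 : SignType) : ℝ) + y p.2| = 1
    then (1 : ℝ) else 0 with ho
  set i : ℝ := ∑ p : V × V, if G.Adj p.1 p.2 ∧ |((y p.1 : SignType) : ℝ) + y p.2| = 2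
    then (1 : ℝ) else 0 with hi
  have key : ∀ s s' : SignType,
      ((if s = -s' then (0 : ℝ) else 1) =
        (if |(s : ℝ) + s'| = 2 then (1 : ℝ) else 0) + (if |(s : ℝ) + s'| = 1 then (1 : ℝ) else 0)) ∧
      (((s : ℝ) + s') ^ 2 = 4 * (if |(s : ℝ) + s'| = 2 then (1 : ℝ) else 0) +
        (if |(s : ℝ) + s'| = 1 then (1 : ℝ) else 0)) ∧
      (|(s : ℝ) + s'| = 2 * (if |(s : ℝ) + s'| = 2 then (1 : ℝ) else 0) +
        (if |(s : ℝ) + s'| = 1 then (1 : ℝ) else 0)) := by
    intro s s'
    rcases s with _ | _ | _ <;> rcases s' with _ | _ | _ <;> norm_num <;> decide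
  have e1 : (∑ p : V × V, (if G.Adj p.1 p.2 ∧ y p.1 ≠ -y p.2 then (1 / 2 : ℝ) else 0)) =
      (i + o) / 2 := by
    rw [hi, ho, ← Finset.sum_add_distrib, Finset.sum_div]
    apply Finset.sum_congr rfl
    intro p _
    have := (key (y p.1) (y p.2)).1
    by_cases h1 : G.Adj p.1 p.2
    · simp only [h1, true_and]
      rw [← this]
      by_cases h2 : y p.1 = -y p.2 <;> simp [h2]
    · simp [h1]
  have e2 : ((L2 G (fun v => ((y v : SignType) : ℤ)) : ℤ) : ℝ) = 4 * i + o := by
    unfold L2
    push_cast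
    rw [hi, ho, Finset.mul_sum, ← Finset.sum_add_distrib]
    apply Finset.sum_congr rfl
    intro p _
    have := (key (y p.1) (y p.2)).2.1
    by_cases h1 : G.Adj p.1 p.2
    · simp only [h1, true_and, if_true]
      exact this
    · simp [h1]
  have e3 : ((L1 G (fun v => ((y v : SignType) : ℤ)) : ℤ) : ℝ) = 2 * i + o := by
    unfold L1
    push_cast
    rw [hi, ho, Finset.mul_sum, ← Finset.sum_add_distrib]
    apply Finset.sum_congr rfl
    intro p _
    have := (key (y p.1) (y p.2)).2.2
    by_cases h1 : G.Adj p.1 p.2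
    · simp only [h1, true_and, if_true]
      exact this
    · simp [h1]
  rw [e1, e2, e3]
  nlinarith [sq_nonneg (2 * i - o)]

/-- **union bound form**: exponent `t |z|_1^2 / |z|_2^2` (`L1 = 2 |z|_1`, `L2 = 2 |z|_2^2`) -/
theorem star_union_graph (hc : G.Connected) (hodd : OddW G) (hvt : VT G) {d : ℕ} (hd1 : 1 ≤ d)
    (hd : ∀ v, dg G v = d) {t : ℝ} (ht : 0 ≤ t) :
    ∑ y : V → SignType, (if y = 0 then 0 else
        exp (-(t * (((L1 G (fun v => ((y v : SignType) : ℤ)) : ℤ) : ℝ) ^ 2 /
          (2 * ((L2 G (fun v => ((y v : SignType) : ℤ)) : ℤ) : ℝ)))))) ≤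
      (√(1 + 2 * (d : ℝ) * exp (-(((d : ℝ) - 1) * (8 / 9 * t))) +
        (8 - 2 * (d : ℝ)) * exp (-((d : ℝ) * (8 / 9 * t))))) ^ (Fintype.card V) - 1 := by
  have h0 := star_sum_graph hc hodd hvt hd1 hd (t := 8 / 9 * t) (by linarith)
  have h1 : ∑ y : V → SignType, (if y = 0 then 0 else
        exp (-(t * (((L1 G (fun v => ((y v : SignType) : ℤ)) : ℤ) : ℝ) ^ 2 /
          (2 * ((L2 G (fun v => ((y v : SignType) : ℤ)) : ℤ) : ℝ)))))) +
            ∑ y : V → SignType, (if y = 0 then (1 : ℝ) else 0) ≤
      ∑ y : V → SignType, exp (-(8 / 9 * t * ∑ p : V × V,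
        (if G.Adj p.1 p.2 ∧ y p.1 ≠ -y p.2 then (1 / 2 : ℝ) else 0))) := by
    rw [← Finset.sum_add_distrib]
    apply Finset.sum_le_sum
    intro y _
    by_cases hy : y = 0
    · rw [if_pos hy, if_pos hy, zero_add]
      have : ∑ p : V × V, (if G.Adj p.1 p.2 ∧ y p.1 ≠ -y p.2 then (1 / 2 : ℝ) else 0) = 0 := by
        apply Finset.sum_eq_zero
        intro p _
        rw [if_neg]
        rw [hy]
        simp
      rw [this, mul_zero, neg_zero, exp_zero]
    · rw [if_neg hy, if_neg hy, add_zero]
      apply exp_le_exp.2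
      rw [neg_le_neg_iff]
      have h3 := l1_sq_ge_graph (G := G) y
      set N := ∑ p : V × V, (if G.Adj p.1 p.2 ∧ y p.1 ≠ -y p.2 then (1 / 2 : ℝ) else 0) with hN
      set l2 := ((L2 G (fun v => ((y v : SignType) : ℤ)) : ℤ) : ℝ) with hl2
      set l1 := ((L1 G (fun v => ((y v : SignType) : ℤ)) : ℤ) : ℝ) with hl1
      have hl2' : 0 ≤ l2 := by
        rw [hl2]
        have : 0 ≤ L2 G (fun v => ((y v : SignType) : ℤ)) := by
          unfold L2
          apply Finset.sum_nonneg
          intro p _
          split_ifs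
          · positivity
          · exact le_rfl
        exact_mod_cast this
      rcases hl2'.eq_or_lt with h4 | h4
      · -- all `z` vanish
        have hN0 : N = 0 := by
          rw [hN]
          apply Finset.sum_eq_zero
          intro p _
          rw [if_neg]
          rintro ⟨hp, hne⟩
          have h5 : L2 G (fun v => ((y v : SignType) : ℤ)) = 0 := by
            have := h4.symm
            rw [hl2] at this
            exact_mod_cast this
          unfold L2 at h5
          rw [Finset.sum_eq_zero_iff_of_nonneg (fun p _ => by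
            split_ifs
            · positivity
            · exact le_rfl)] at h5
          have h6 := h5 p (mem_univ _)
          rw [if_pos hp] at h6
          have h7 : ∀ s s' : SignType, (((s : SignType) : ℤ) + ((s' : SignType) : ℤ)) ^ 2 = 0 →
              s = -s' := by
            intro s s' h
            rcases s with _ | _ | _ <;> rcases s' with _ | _ | _ <;> simp at h ⊢
          exact hne (h7 _ _ h6)
        rw [hN0, mul_zero]
        positivity
      · have h5 : 8 / 9 * N ≤ l1 ^ 2 / (2 * l2) := by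
          rw [le_div_iff₀ (by linarith)]
          exact h3
        calc 8 / 9 * t * N = t * (8 / 9 * N) := by ring
          _ ≤ _ := mul_le_mul_of_nonneg_left h5 ht
  have h2 : ∑ y : V → SignType, (if y = 0 then (1 : ℝ) else 0) = 1 := by
    rw [Finset.sum_ite_eq' univ (0 : V → SignType) (fun _ => (1 : ℝ)), if_pos (mem_univ _)]
  linarith

end Pool.Agent.UPS.StarSum
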