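import Mathlib

/-!
# Triangle-free graphs of diameter at least four (MP_876e19_co)

`four_d_le_of_triFree`: a connected `d`-regular triangle-free graph with two vertices at distance
at least 4 has at least `4 d` vertices.
-/

set_option autoImplicit false

namespace Pool.Agent.UPS

open Finset

theorem four_d_le_of_triFree {V : Type*} [Fintype V] [DecidableEq V] {G : SimpleGraph V}
    [DecidableRel G.Adj] (hG : G.Connected) {d : ℕ}
    (hreg : ∀ v, (univ.filter fun w => G.Adj v w).card = d)
    (htri : ∀ u v w, G.Adj u v → G.Adj v w → ¬ G.Adj u w) {x y : V} (hxy : 4 ≤ G.dist x y) :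
    4 * d ≤ Fintype.card V := by
  rcases Nat.eq_zero_or_pos d with h0 | h0
  · omega
  let N : V → Finset V := fun v => univ.filter fun w => G.Adj v w
  have hN : ∀ v w, w ∈ N v ↔ G.Adj v w := fun v w => by simp [N]
  have hNc : ∀ v, (N v).card = d := hreg
  have hd1 : ∀ {u v}, G.Adj u v → G.dist u v = 1 := fun h =>
    SimpleGraph.dist_eq_one_iff_adj.2 h
  have htr : ∀ a b c, G.dist a c ≤ G.dist a b + G.dist b c := fun a b c => hG.dist_triangle
  -- the two balls
  let B : Finset V := insert x (N x) ∪ insert y (N y)
  let R : Finset V := univ \ B
  have hdis : Disjoint (N x) (N y) := by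
    rw [Finset.disjoint_left]
    intro u hu hu'
    rw [hN] at hu hu'
    have := htr x u y
    rw [hd1 hu, hd1 hu'.symm] at this
    omega
  have hBc : B.card = 2 * (d + 1) := by
    simp only [B]
    rw [card_union_of_disjoint, card_insert_of_notMem, card_insert_of_notMem, hNc, hNc]
    · ring
    · rw [hN]; exact G.loopless.irrefl y
    · rw [hN]; exact G.loopless.irrefl x
    · rw [Finset.disjoint_left]
      intro u hu hu'
      rw [mem_insert, hN] at hu hu'
      rcases hu with rfl | hu
      · rcases hu' with rfl | hu'
        · rw [SimpleGraph.dist_self] at hxy; omega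
        · rw [SimpleGraph.dist_comm, hd1 hu'] at hxy; omega
      · rcases hu' with rfl | hu'
        · rw [hd1 hu] at hxy; omega
        · have := htr x u y
          rw [hd1 hu, hd1 hu'.symm] at this
          omega
  have hRc : R.card + 2 * (d + 1) = Fintype.card V := by
    rw [← hBc, ← card_univ]
    simp only [R]
    rw [card_sdiff_of_subset (subset_univ _)]
    have := card_le_card (subset_univ B)
    omega
  -- neighbours of `N x ∪ N y` outside the balls
  have hout : ∀ u ∈ N x ∪ N y, d - 1 ≤ (R.filter fun r => G.Adj u r).card := by
    intro u hu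
    rw [mem_union, hN, hN] at hu
    rcases hu with hu | hu
    · have h1 : (N u).erase x ⊆ R.filter fun r => G.Adj u r := by
        intro r hr
        rw [mem_erase, hN] at hr
        rw [mem_filter]
        refine ⟨?_, hr.2⟩
        simp only [R, B, mem_sdiff, mem_univ, true_and, mem_union, mem_insert, hN]
        rintro ((h | h) | (h | h))
        · exact hr.1 h
        · exact htri x u r hu hr.2 h
        · subst h
          have := htr x u r
          rw [hd1 hu, hd1 hr.2] at this
          omega
        · have h2 := htr x u r
          have h3 := htr x r y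
          rw [hd1 hu, hd1 hr.2] at h2
          rw [hd1 h.symm] at h3
          omega
      refine le_trans ?_ (card_le_card h1)
      rw [card_erase_of_mem ((hN u x).2 hu.symm), hNc]
    · have h1 : (N u).erase y ⊆ R.filter fun r => G.Adj u r := by
        intro r hr
        rw [mem_erase, hN] at hr
        rw [mem_filter]
        refine ⟨?_, hr.2⟩
        simp only [R, B, mem_sdiff, mem_univ, true_and, mem_union, mem_insert, hN]
        rintro ((h | h) | (h | h))
        · subst h
          have := htr r u y
          rw [hd1 hr.2.symm, hd1 hu.symm] at this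
          omega
        · have h2 := htr x r y
          have h3 := htr r u y
          rw [hd1 h] at h2
          rw [hd1 hr.2.symm, hd1 hu.symm] at h3
          omega
        · exact hr.1 h
        · exact htri y u r hu hr.2 h
      refine le_trans ?_ (card_le_card h1)
      rw [card_erase_of_mem ((hN u y).2 hu.symm), hNc]
  have hcount : ∑ u ∈ N x ∪ N y, (R.filter fun r => G.Adj u r).card =
      ∑ r ∈ R, ((N x ∪ N y).filter fun u => G.Adj u r).card := by
    simp only [card_filter]
    exact sum_comm
  have hle : ∑ r ∈ R, ((N x ∪ N y).filter fun u => G.Adj u r).card ≤ R.card * d := by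
    rw [← smul_eq_mul, ← sum_const]
    apply sum_le_sum
    intro r _
    rw [← hNc r]
    apply card_le_card
    intro u hu
    rw [mem_filter] at hu
    rw [hN]; exact hu.2.symm
  have hge : (N x ∪ N y).card * (d - 1) ≤ ∑ u ∈ N x ∪ N y, (R.filter fun r => G.Adj u r).card := by
    rw [← smul_eq_mul, ← sum_const]
    exact sum_le_sum hout
  rw [card_union_of_disjoint hdis, hNc, hNc, hcount] at hge
  have h5 : (d + d) * (d - 1) ≤ R.card * d := hge.trans hle
  have h6 : 2 * (d - 1) ≤ R.card := by
    have : d * (2 * (d - 1)) ≤ d * R.card := by nlinarith [h5]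
    exact Nat.le_of_mul_le_mul_left this h0
  omega

end Pool.Agent.UPS
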