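import Pool.Agent.Lib.MP_876e19_co_ups.Classes

/-!
# Two classes (helper49)

`hasUPS_of_two_classes`: `G` connected and vertex-transitive with all distances at most five, the
vertices divided into two classes of the same odd size, and a set of automorphisms preserving the
classes and sharply transitive on both of them.  Then `G` has a uniform path system.
-/

set_option autoImplicit false

namespace Pool.Agent.UPS.TC

open Finset Pool.Agent.UPS Pool.Agent.UPS.Toggle

variable {V : Type*}

/-! ### geodesics -/

lemma geod_isPath {G : SimpleGraph V} {x y : V} (w : G.Walk x y) (hw : w.length = G.dist x y) :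
    w.IsPath := w.isPath_of_length_eq_dist hw

lemma dist_map {G : SimpleGraph V} (φ : G ≃g G) (x y : V) :
    G.dist (φ x) (φ y) = G.dist x y := by
  have key : ∀ (ψ : G ≃g G) (a b : V), G.Reachable a b → G.dist (ψ a) (ψ b) ≤ G.dist a b := by
    intro ψ a b hab
    obtain ⟨p, hp⟩ := hab.exists_walk_length_eq_dist
    rw [← hp, ← SimpleGraph.Walk.length_map ψ.toHom p]
    exact SimpleGraph.dist_le _
  by_cases hr : G.Reachable x y
  · apply le_antisymm (key φ x y hr)
    have h1 : G.Reachable (φ x) (φ y) := by
      obtain ⟨p⟩ := hr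
      exact ⟨p.map φ.toHom⟩
    have := key φ.symm _ _ h1
    simpa using this
  · have h1 : ¬ G.Reachable (φ x) (φ y) := by
      rintro ⟨p⟩
      apply hr
      have := (p.map φ.symm.toHom).reachable
      simpa using this
    rw [SimpleGraph.dist_eq_zero_of_not_reachable hr,
      SimpleGraph.dist_eq_zero_of_not_reachable h1]

lemma geod_getVert {G : SimpleGraph V} {x y : V} (w : G.Walk x y) (hw : w.length = G.dist x y)
    {n : ℕ} (hn : n ≤ w.length) (hG : G.Connected) : G.dist x (w.getVert n) = n := by
  have h1 := SimpleGraph.dist_le (w.take n)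
  have h2 := SimpleGraph.dist_le (w.drop n)
  have h3 := hG.dist_triangle (u := x) (v := w.getVert n) (w := y)
  rw [SimpleGraph.Walk.take_length, min_eq_left hn] at h1
  rw [SimpleGraph.Walk.drop_length] at h2
  omega

lemma geod_support_unique {G : SimpleGraph V} {x y : V} (w : G.Walk x y)
    (hw : w.length = G.dist x y) (hG : G.Connected) {a b : V} (ha : a ∈ w.support)
    (hb : b ∈ w.support) (hab : G.dist x a = G.dist x b) : a = b := by
  obtain ⟨i, hi, hi'⟩ := SimpleGraph.Walk.mem_support_iff_exists_getVert.1 ha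
  obtain ⟨j, hj, hj'⟩ := SimpleGraph.Walk.mem_support_iff_exists_getVert.1 hb
  have h1 := geod_getVert w hw hi' hG
  have h2 := geod_getVert w hw hj' hG
  rw [hi] at h1
  rw [hj] at h2
  have : i = j := by omega
  rw [← hi, ← hj, this]

lemma geod_support_dist {G : SimpleGraph V} {x y : V} (w : G.Walk x y)
    (hw : w.length = G.dist x y) (hG : G.Connected) {a : V} (ha : a ∈ w.support) (hay : a ≠ y) :
    G.dist x a < G.dist x y := by
  obtain ⟨i, hi, hi'⟩ := SimpleGraph.Walk.mem_support_iff_exists_getVert.1 ha
  have h1 := geod_getVert w hw hi' hG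
  rw [hi] at h1
  rcases Nat.lt_or_ge i w.length with h | h
  · omega
  · exfalso
    apply hay
    rw [← hi]
    exact w.getVert_of_length_le h

/-- inside a set with many edges there is an edge which can be toggled -/
lemma exists_avail {G : SimpleGraph V} (hG : G.Connected) [DecidableEq V] [DecidableRel G.Adj]
    (x : V) (p : ∀ u, G.Walk x u)
    (hp : ∀ u, (p u).length = G.dist x u) (A : Finset V) (hA : A.Nonempty)
    (hdeg : 2 * A.card ≤ ((A ×ˢ A).filter fun e => G.Adj e.1 e.2).card) :
    ∃ u ∈ A, ∃ w ∈ A, G.Adj u w ∧ x ≠ u ∧ x ≠ w ∧ w ∉ (p u).support ∧ u ∉ (p w).support := by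
  by_contra hcon
  push Not at hcon
  have h1 : ∀ u ∈ A, ∀ w ∈ A, G.Adj u w → w ∈ (p u).support ∨ u ∈ (p w).support := by
    intro u hu w hw huw
    by_cases hxu : x = u
    · right; rw [← hxu]; exact (p w).start_mem_support
    by_cases hxw : x = w
    · left; rw [← hxw]; exact (p u).start_mem_support
    by_cases h : w ∈ (p u).support
    · exact Or.inl h
    · exact Or.inr (hcon u hu w hw huw hxu hxw h)
  let R : Finset (V × V) := (A ×ˢ A).filter fun e => G.Adj e.1 e.2 ∧ e.2 ∈ (p e.1).support
  obtain ⟨u0, hu0, hmin⟩ := exists_min_image A (fun u => G.dist x u) hA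
  have hR : R.card ≤ (A.erase u0).card := by
    apply card_le_card_of_injOn (fun e => e.1)
    · intro e he
      rw [mem_coe, mem_filter, mem_product] at he
      rw [mem_coe, mem_erase]
      refine ⟨fun h => ?_, he.1.1⟩
      have h0 : e.1 = u0 := h
      have h2 := geod_support_dist (p e.1) (hp e.1) hG he.2.2 he.2.1.ne'
      have h3 : G.dist x u0 ≤ G.dist x e.2 := hmin e.2 he.1.2
      rw [← h0] at h3
      omega
    · intro e he e' he' h
      rw [mem_coe, mem_filter, mem_product] at he he'
      have h' : e.1 = e'.1 := h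
      apply Prod.ext h'
      have h4 : e'.2 ∈ (p e.1).support := by rw [h']; exact he'.2.2
      apply geod_support_unique (p e.1) (hp e.1) hG he.2.2 h4
      have key : ∀ z, G.Adj e.1 z → z ∈ (p e.1).support → G.dist x z + 1 = G.dist x e.1 := by
        intro z hz1 hz2
        have h5 := geod_support_dist (p e.1) (hp e.1) hG hz2 hz1.ne'
        have h6 := hG.dist_triangle (u := x) (v := z) (w := e.1)
        rw [SimpleGraph.dist_eq_one_iff_adj.2 hz1.symm] at h6
        omega
      have h7 := key e.2 he.2.1 he.2.2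
      have h8 := key e'.2 (by rw [h']; exact he'.2.1) h4
      omega
  have h9 : ((A ×ˢ A).filter fun e => G.Adj e.1 e.2).card ≤ R.card + R.card := by
    have hsub : ((A ×ˢ A).filter fun e => G.Adj e.1 e.2) ⊆ R ∪ R.image Prod.swap := by
      intro e he
      rw [mem_filter, mem_product] at he
      rw [mem_union]
      rcases h1 e.1 he.1.1 e.2 he.1.2 he.2 with h | h
      · left; rw [mem_filter, mem_product]; exact ⟨he.1, he.2, h⟩
      · right
        rw [mem_image]
        refine ⟨(e.2, e.1), ?_, rfl⟩
        rw [mem_filter, mem_product]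
        exact ⟨⟨he.1.2, he.1.1⟩, he.2.symm, h⟩
    exact (card_le_card hsub).trans ((card_union_le _ _).trans
      (Nat.add_le_add_left card_image_le _))
  have h10 := card_erase_of_mem hu0
  have h11 := card_pos.2 hA
  omega

/-! ### the signed size -/

/-- signed number of vertices of a walk -/
def fs (σ : V → ℤ) {G : SimpleGraph V} {x y : V} (w : G.Walk x y) : ℤ := (w.support.map σ).sum

lemma fs_parity (σ : V → ℤ) (hσ : ∀ v, σ v = 1 ∨ σ v = -1) {G : SimpleGraph V} {x y : V}
    (w : G.Walk x y) : fs σ w % 2 = (w.length + 1 : ℤ) % 2 := by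
  have key : ∀ l : List V, (l.map σ).sum % 2 = (l.length : ℤ) % 2 := by
    intro l
    induction l with
    | nil => simp
    | cons a l ih =>
      rw [List.map_cons, List.sum_cons, List.length_cons]
      push_cast
      rcases hσ a with h | h <;> rw [h] <;> omega
  rw [fs, key, SimpleGraph.Walk.length_support]
  push_cast
  rfl

lemma fs_abs (σ : V → ℤ) (hσ : ∀ v, σ v = 1 ∨ σ v = -1) {G : SimpleGraph V} {x y : V}
    (w : G.Walk x y) : |fs σ w - σ y| ≤ w.length := by
  induction w with
  | nil => simp [fs]
  | @cons a b c h w ih =>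
    have e : fs σ (SimpleGraph.Walk.cons h w) = σ a + fs σ w := by
      simp [fs]
    rw [e, SimpleGraph.Walk.length_cons]
    push_cast
    rw [abs_le] at ih ⊢
    rcases hσ a with h' | h' <;> rw [h'] <;> constructor <;> omega

lemma fs_abs2 (σ : V → ℤ) (hσ : ∀ v, σ v = 1 ∨ σ v = -1) {G : SimpleGraph V} {x y : V}
    (hxy : x ≠ y) (w : G.Walk x y) : |fs σ w - σ x - σ y| ≤ w.length - 1 := by
  cases w with
  | nil => exact absurd rfl hxy
  | @cons _ b _ h w =>
    have e : fs σ (SimpleGraph.Walk.cons h w) = σ x + fs σ w := by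
      simp [fs]
    have := fs_abs σ hσ w
    rw [e, SimpleGraph.Walk.length_cons]
    push_cast
    have e2 : σ x + fs σ w - σ x - σ y = fs σ w - σ y := by ring
    rw [e2]
    simpa using this

lemma fs_bip (σ : V → ℤ) {G : SimpleGraph V} (hbip : ∀ u v, G.Adj u v → σ u = - σ v) {x y : V}
    (w : G.Walk x y) : 2 * fs σ w = σ x + σ y := by
  induction w with
  | nil => simp [fs]; ring
  | @cons a b c h w ih =>
    have e : fs σ (SimpleGraph.Walk.cons h w) = σ a + fs σ w := by
      simp [fs]
    have := hbip a b h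
    rw [e]
    linarith

lemma fs_finset [DecidableEq V] [Fintype V] (σ : V → ℤ) {G : SimpleGraph V} {x y : V}
    (w : G.Walk x y) (hw : w.IsPath) :
    fs σ w = ∑ v, if v ∈ w.support then σ v else 0 := by
  rw [fs, ← List.sum_toFinset σ hw.support_nodup, ← sum_filter]
  congr 1
  ext v
  simp

lemma fs_map (σ : V → ℤ) {G : SimpleGraph V} {x y : V} (φ : G ≃g G) (w : G.Walk x y) :
    fs σ (w.map φ.toHom) = fs (fun v => σ (φ v)) w := by
  rw [fs, fs, SimpleGraph.Walk.support_map, List.map_map]
  rfl

lemma fs_neg (σ : V → ℤ) {G : SimpleGraph V} {x y : V} (w : G.Walk x y) :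
    fs (fun v => - σ v) w = - fs σ w := by
  induction w with
  | nil => simp [fs]
  | @cons a b c h w ih =>
    have e : ∀ τ : V → ℤ, fs τ (SimpleGraph.Walk.cons h w) = τ a + fs τ w := by
      intro τ; simp [fs]
    rw [e, e, ih]; ring

/-- best geodesics have nonnegative total signed size -/
lemma exists_nonneg [Fintype V] [DecidableEq V] {G : SimpleGraph V} (hG : G.Connected) (hT : VT G)
    (χ : V → Bool) (T : Set (G ≃g G))
    (hT1 : ∀ t ∈ T, ∀ v, χ (t v) = χ v)
    (hT2 : ∀ u v, χ u = χ v → ∃! t : G ≃g G, t ∈ T ∧ t u = v)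
    (r : Bool → V) (hr : ∀ c, χ (r c) = c)
    (σ : V → ℤ) (hσχ : ∀ u v, χ u = χ v → σ u = σ v) (hσ0 : ∑ v, σ v = 0)
    (hσ2 : ∀ v, σ v = 1 ∨ σ v = -1) :
    ∃ p : ∀ c u, G.Walk (r c) u, (∀ c u, (p c u).length = G.dist (r c) u) ∧
      0 ≤ ∑ c, ∑ u, if r c = u then 0 else fs σ (p c u) := by
  classical
  have hfin : Finite (G ≃g G) :=
    Finite.of_injective (fun φ : G ≃g G => (φ : V → V)) DFunLike.coe_injective
  have := Fintype.ofFinite (G ≃g G)
  -- best geodesics
  have hbest : ∀ x y : V, ∃ w : G.Walk x y, w.length = G.dist x y ∧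
      ∀ w' : G.Walk x y, w'.length = G.dist x y → fs σ w' ≤ fs σ w := by
    intro x y
    obtain ⟨w0, hw0⟩ := hG.exists_walk_length_eq_dist x y
    have : Nonempty {p : G.Walk x y // p.length = G.dist x y} := ⟨⟨w0, hw0⟩⟩
    obtain ⟨w, hw⟩ := Finite.exists_max
      (fun p : {p : G.Walk x y // p.length = G.dist x y} => fs σ p.1)
    exact ⟨w.1, w.2, fun w' hw' => hw ⟨w', hw'⟩⟩
  choose gm hgm1 hgm2 using hbest
  refine ⟨fun c u => gm (r c) u, fun c u => hgm1 _ _, ?_⟩
  let M : V → V → ℤ := fun x y => if x = y then 0 else fs σ (gm x y)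
  let g : Bool → ℤ := fun c => ∑ u, M (r c) u
  change 0 ≤ ∑ c, g c
  -- the sum of `σ` over the group
  have hs : ∀ w, ∑ γ : G ≃g G, σ (γ w) = 0 := by
    have h1 : ∀ w w', ∑ γ : G ≃g G, σ (γ w) = ∑ γ : G ≃g G, σ (γ w') := by
      intro w w'
      obtain ⟨φ, hφ⟩ := hT w' w
      rw [← Equiv.sum_comp (Equiv.mulRight φ⁻¹)]
      refine sum_congr rfl fun γ _ => ?_
      congr 1
      change γ (φ.symm w) = γ w'
      rw [← hφ, φ.symm_apply_apply]
    intro w
    have h2 : ∑ w' : V, ∑ γ : G ≃g G, σ (γ w') = 0 := by
      rw [sum_comm]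
      apply sum_eq_zero
      intro γ _
      rw [← hσ0]
      exact Equiv.sum_comp γ.toEquiv σ
    rw [sum_congr rfl fun w' _ => h1 w' w, sum_const, card_univ, nsmul_eq_mul] at h2
    rcases mul_eq_zero.1 h2 with h3 | h3
    · exfalso
      have : Nonempty V := ⟨w⟩
      exact Fintype.card_ne_zero (α := V) (by exact_mod_cast h3)
    · exact h3
  let o : V := r true
  -- a geodesic system at `o`
  have hq : ∀ y, ∃ w : G.Walk o y, w.length = G.dist o y := fun y =>
    hG.exists_walk_length_eq_dist o y
  choose q hq using hq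
  have hgt : ∀ (γ : G ≃g G) y, (if o = y then 0 else fs σ ((q y).map γ.toHom)) ≤ M (γ o) (γ y) := by
    intro γ y
    by_cases h : o = y
    · have : γ o = γ y := by rw [h]
      simp [M, h]
    · have h' : γ o ≠ γ y := fun h'' => h (γ.injective h'')
      simp only [M, if_neg h, if_neg h']
      have h3 := hgm2 (γ o) (γ y) ((q y).map γ.toHom)
        (by rw [SimpleGraph.Walk.length_map, hq, dist_map])
      exact h3
  have hsum1 : ∑ γ : G ≃g G, ∑ y, (if o = y then 0 else fs σ ((q y).map γ.toHom)) = 0 := by
    rw [sum_comm]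
    apply sum_eq_zero
    intro y _
    by_cases h : o = y
    · simp [h]
    · simp only [if_neg h]
      have h1 : ∀ γ : G ≃g G, fs σ ((q y).map γ.toHom) =
          ∑ v, if v ∈ (q y).support then σ (γ v) else 0 := by
        intro γ
        rw [fs_map, fs_finset _ _ (geod_isPath _ (hq y))]
      rw [sum_congr rfl fun γ _ => h1 γ, sum_comm]
      apply sum_eq_zero
      intro v _
      by_cases hv : v ∈ (q y).support
      · simp only [if_pos hv]; exact hs v
      · simp [hv]
  have hclass : ∀ x, ∑ u, M x u ≤ g (χ x) := by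
    intro x
    obtain ⟨t, ⟨htT, htx⟩, _⟩ := hT2 x (r (χ x)) (by rw [hr])
    change _ ≤ ∑ u, M (r (χ x)) u
    rw [← Equiv.sum_comp t.toEquiv (fun u => M (r (χ x)) u)]
    refine sum_le_sum fun u _ => ?_
    change M x u ≤ M (r (χ x)) (t u)
    rw [← htx]
    by_cases h : x = u
    · simp [M, h]
    · have h' : t x ≠ t u := fun h'' => h (t.injective h'')
      simp only [M, if_neg h, if_neg h']
      have h3 := hgm2 (t x) (t u) ((gm x u).map t.toHom)
        (by rw [SimpleGraph.Walk.length_map, hgm1, dist_map])
      refine le_trans (le_of_eq ?_) h3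
      rw [fs_map]
      congr 1
      funext v
      exact (hσχ _ _ (hT1 t htT v)).symm
  have hg2 : ∀ x, 2 * g (χ x) = (g true + g false) + (g true - g false) * (σ o * σ x) := by
    intro x
    have hoo : σ o * σ o = 1 := by
      rcases hσ2 o with h | h <;> rw [h] <;> norm_num
    have hneg : ∀ v, χ v = false → σ v = - σ o := by
      -- otherwise `σ` is constant
      intro v hv
      by_contra hne
      have hvo : σ v = σ o := by
        rcases hσ2 v with h | h <;> rcases hσ2 o with h' | h'
        · rw [h, h']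
        · exact absurd (by rw [h, h']; norm_num) hne
        · exact absurd (by rw [h, h']) hne
        · rw [h, h']
      have hall : ∀ w, σ w = σ o := by
        intro w
        cases hw : χ w
        · rw [hσχ w v (by rw [hw, hv]), hvo]
        · exact hσχ w o (by rw [hw, hr])
      rw [sum_congr rfl fun w _ => hall w, sum_const, card_univ, nsmul_eq_mul] at hσ0
      rcases mul_eq_zero.1 hσ0 with h3 | h3
      · have : Nonempty V := ⟨o⟩
        exact Fintype.card_ne_zero (α := V) (by exact_mod_cast h3)
      · rw [h3] at hoo; norm_num at hoo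
    cases hx : χ x
    · rw [hneg x hx]
      linear_combination (g true - g false) * hoo
    · rw [hσχ x o (by rw [hx, hr])]
      linear_combination -(g true - g false) * hoo
  have hfinal : 0 ≤ 2 * ∑ γ : G ≃g G, g (χ (γ o)) := by
    have h1 : (0 : ℤ) ≤ ∑ γ : G ≃g G, g (χ (γ o)) := by
      rw [← hsum1]
      refine sum_le_sum fun γ _ => ?_
      refine le_trans (sum_le_sum fun y _ => hgt γ y) ?_
      refine le_trans (le_of_eq ?_) (hclass (γ o))
      exact Equiv.sum_comp γ.toEquiv (fun y => M (γ o) y)
    linarith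
  rw [mul_sum, sum_congr rfl fun γ _ => hg2 (γ o), sum_add_distrib, ← mul_sum, ← mul_sum, hs,
    mul_zero, mul_zero, add_zero, sum_const, nsmul_eq_mul] at hfinal
  have hpos : (0 : ℤ) < (univ : Finset (G ≃g G)).card := by
    have : 0 < (univ : Finset (G ≃g G)).card :=
      card_pos.2 ⟨SimpleGraph.Iso.refl, mem_univ _⟩
    exact_mod_cast this
  have := nonneg_of_mul_nonneg_right hfinal hpos
  rw [Fintype.sum_bool]
  exact this

/-- discrete intermediate value theorem -/
lemma interp {ι : Type*} [DecidableEq ι] (m M : ι → ℤ) (K : ℤ) (hK : 0 ≤ K) (S : Finset ι)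
    (hd : ∀ i ∈ S, |M i - m i| ≤ 2 * K) :
    ∀ c : ℤ, c + ∑ i ∈ S, m i ≤ 0 → 0 ≤ c + ∑ i ∈ S, M i →
      ∃ U ⊆ S, |c + ∑ i ∈ U, M i + ∑ i ∈ S \ U, m i| ≤ K := by
  induction S using Finset.induction_on with
  | empty =>
    intro c h1 h2
    rw [sum_empty, add_zero] at h1 h2
    refine ⟨∅, Subset.refl _, ?_⟩
    rw [le_antisymm h1 h2]
    simpa using hK
  | insert i S hi ih =>
    intro c h1 h2
    rw [sum_insert hi] at h1 h2
    have hd' := hd i (mem_insert_self i S)
    have ih' := ih (fun j hj => hd j (mem_insert_of_mem hj))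
    by_cases h3 : c + M i + ∑ j ∈ S, m j ≤ 0
    · obtain ⟨U, hU, hU2⟩ := ih' (c + M i) h3 (by linarith)
      have hiU : i ∉ U := fun h => hi (hU h)
      refine ⟨insert i U, insert_subset_insert i hU, ?_⟩
      rw [sum_insert hiU]
      have e : insert i S \ insert i U = S \ U := by
        ext j
        simp only [mem_sdiff, mem_insert]
        constructor
        · rintro ⟨h4 | h4, h5⟩
          · exact absurd (Or.inl h4) h5
          · exact ⟨h4, fun h6 => h5 (Or.inr h6)⟩
        · rintro ⟨h4, h5⟩
          refine ⟨Or.inr h4, ?_⟩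
          rintro (h6 | h6)
          · exact hi (h6 ▸ h4)
          · exact h5 h6
      rw [e, ← add_assoc]
      exact hU2
    · have e1 : insert i S \ {i} = S := by
        ext j
        simp only [mem_sdiff, mem_insert, mem_singleton]
        constructor
        · rintro ⟨h4 | h4, h5⟩
          · exact absurd h4 h5
          · exact h4
        · intro h4
          exact ⟨Or.inr h4, fun h5 => hi (h5 ▸ h4)⟩
      rw [abs_le] at hd'
      by_cases h4 : c + M i + ∑ j ∈ S, m j ≤ K
      · refine ⟨{i}, singleton_subset_iff.2 (mem_insert_self i S), ?_⟩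
        rw [sum_singleton, e1, abs_le]
        constructor <;> linarith
      · refine ⟨∅, empty_subset _, ?_⟩
        rw [sum_empty, sdiff_empty, sum_insert hi, abs_le]
        constructor <;> linarith

/-! ### edges inside the classes -/

/-- ordered adjacent pairs inside `A` -/
def inner (G : SimpleGraph V) [DecidableRel G.Adj] (A : Finset V) : Finset (V × V) :=
  (A ×ˢ A).filter fun e => G.Adj e.1 e.2

lemma even_inner (G : SimpleGraph V) [DecidableRel G.Adj] (A : Finset V) :
    Even (inner G A).card := by
  have h : ∑ e ∈ inner G A, (1 : ZMod 2) = 0 := by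
    refine sum_involution (fun e _ => (e.2, e.1)) ?_ ?_ ?_ ?_
    · intro e _
      decide
    · intro e he _ h
      rw [inner, mem_filter] at he
      have := congrArg Prod.fst h
      exact he.2.ne this.symm
    · intro e he
      rw [inner, mem_filter, mem_product] at he ⊢
      exact ⟨⟨he.1.2, he.1.1⟩, he.2.symm⟩
    · intro e _
      rfl
  rw [sum_const, nsmul_eq_mul, mul_one, ZMod.natCast_eq_zero_iff] at h
  exact even_iff_two_dvd.2 h

lemma inner_card (G : SimpleGraph V) [DecidableRel G.Adj] (A : Finset V) :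
    (inner G A).card = ∑ u ∈ A, (A.filter fun w => G.Adj u w).card := by
  rw [inner, card_filter, sum_product]
  refine sum_congr rfl fun u _ => ?_
  rw [card_filter]

lemma inner_eq [Fintype V] [DecidableEq V] {G : SimpleGraph V} [DecidableRel G.Adj] (hT : VT G)
    (χ : V → Bool)
    (hcard : (univ.filter fun v => χ v = true).card = (univ.filter fun v => χ v = false).card) :
    (inner G (univ.filter fun v => χ v = true)).card =
      (inner G (univ.filter fun v => χ v = false)).card := by
  have hdeg : ∀ u u', (univ.filter fun w => G.Adj u w).card =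
      (univ.filter fun w => G.Adj u' w).card := by
    intro u u'
    obtain ⟨φ, hφ⟩ := hT u u'
    apply card_bij (fun w _ => φ w)
    · intro w hw
      rw [mem_filter] at hw ⊢
      refine ⟨mem_univ _, ?_⟩
      rw [← hφ]; exact φ.map_adj_iff.2 hw.2
    · intro w _ w' _ h
      exact φ.injective h
    · intro w hw
      rw [mem_filter] at hw
      refine ⟨φ.symm w, ?_, φ.apply_symm_apply w⟩
      rw [mem_filter]
      refine ⟨mem_univ _, ?_⟩
      rw [← φ.map_adj_iff, φ.apply_symm_apply, hφ]; exact hw.2
  have hsplit : ∀ k : Bool, ∑ u ∈ univ.filter (fun v => χ v = k),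
      (univ.filter fun w => G.Adj u w).card =
      (inner G (univ.filter fun v => χ v = k)).card +
      ∑ u ∈ univ.filter (fun v => χ v = k),
        ((univ.filter fun v => χ v = !k).filter fun w => G.Adj u w).card := by
    intro k
    rw [inner_card, ← sum_add_distrib]
    refine sum_congr rfl fun u _ => ?_
    rw [← card_union_of_disjoint]
    · congr 1
      ext w
      simp only [mem_filter, mem_univ, true_and, mem_union]
      cases χ w <;> cases k <;> simp
    · rw [disjoint_left]
      intro w h1 h2
      simp only [mem_filter, mem_univ, true_and] at h1 h2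
      rw [h1.1] at h2
      cases k <;> simp at h2
  have hcross : ∑ u ∈ univ.filter (fun v => χ v = true),
        ((univ.filter fun v => χ v = false).filter fun w => G.Adj u w).card =
      ∑ u ∈ univ.filter (fun v => χ v = false),
        ((univ.filter fun v => χ v = true).filter fun w => G.Adj u w).card := by
    have h1 : ∀ (A B : Finset V), ∑ u ∈ A, (B.filter fun w => G.Adj u w).card =
        ∑ u ∈ A, ∑ w ∈ B, if G.Adj u w then 1 else 0 := by
      intro A B
      refine sum_congr rfl fun u _ => card_filter _ _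
    rw [h1, h1, sum_comm]
    refine sum_congr rfl fun u _ => sum_congr rfl fun w _ => ?_
    simp only [G.adj_comm]
  have h1 := hsplit true
  have h2 := hsplit false
  simp only [Bool.not_true, Bool.not_false] at h1 h2
  rw [hcross] at h1
  by_cases hV : IsEmpty V
  · simp [inner]
  rw [not_isEmpty_iff] at hV
  obtain ⟨o⟩ := hV
  rw [sum_congr rfl fun u _ => hdeg u o, sum_const, hcard] at h1
  rw [sum_congr rfl fun u _ => hdeg u o, sum_const] at h2
  omega

/-- an odd class with an inner edge has many inner edges -/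
lemma inner_large [Fintype V] [DecidableEq V] {G : SimpleGraph V} [DecidableRel G.Adj]
    (χ : V → Bool) (T : Set (G ≃g G))
    (hT1 : ∀ t ∈ T, ∀ v, χ (t v) = χ v)
    (hT2 : ∀ u v, χ u = χ v → ∃! t : G ≃g G, t ∈ T ∧ t u = v) (k : Bool)
    (hodd : Odd (univ.filter fun v => χ v = k).card)
    (hne : (inner G (univ.filter fun v => χ v = k)).card ≠ 0) :
    2 * (univ.filter fun v => χ v = k).card ≤
      (inner G (univ.filter fun v => χ v = k)).card := by
  have hdeg : ∀ u u', χ u = k → χ u' = k →
      ((univ.filter fun v => χ v = k).filter fun w => G.Adj u w).card =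
      ((univ.filter fun v => χ v = k).filter fun w => G.Adj u' w).card := by
    intro u u' hu hu'
    obtain ⟨t, ⟨htT, htu⟩, _⟩ := hT2 u u' (by rw [hu, hu'])
    apply card_bij (fun w _ => t w)
    · intro w hw
      simp only [mem_filter, mem_univ, true_and] at hw ⊢
      refine ⟨by rw [hT1 t htT]; exact hw.1, ?_⟩
      rw [← htu]; exact t.map_adj_iff.2 hw.2
    · intro w _ w' _ h
      exact t.injective h
    · intro w hw
      simp only [mem_filter, mem_univ, true_and] at hw
      refine ⟨t.symm w, ?_, t.apply_symm_apply w⟩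
      simp only [mem_filter, mem_univ, true_and]
      refine ⟨?_, ?_⟩
      · rw [← hT1 t htT, t.apply_symm_apply]; exact hw.1
      · rw [← t.map_adj_iff, t.apply_symm_apply, htu]; exact hw.2
  obtain ⟨o, ho⟩ : (univ.filter fun v => χ v = k).Nonempty := by
    rw [← card_pos]; exact hodd.pos
  rw [mem_filter] at ho
  have h1 : (inner G (univ.filter fun v => χ v = k)).card =
      (univ.filter fun v => χ v = k).card *
        ((univ.filter fun v => χ v = k).filter fun w => G.Adj o w).card := by
    rw [inner_card, ← smul_eq_mul, ← sum_const]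
    refine sum_congr rfl fun u hu => ?_
    rw [mem_filter] at hu
    exact hdeg u o hu.2 ho.2
  have h2 := even_inner G (univ.filter fun v => χ v = k)
  rw [h1, Nat.even_mul] at h2
  have h3 : Even ((univ.filter fun v => χ v = k).filter fun w => G.Adj o w).card := by
    rcases h2 with h | h
    · exact absurd hodd (Nat.not_odd_iff_even.2 h)
    · exact h
  rw [h1] at hne ⊢
  have h4 : ((univ.filter fun v => χ v = k).filter fun w => G.Adj o w).card ≠ 0 := by
    intro h; rw [h] at hne; exact hne (mul_zero _)
  obtain ⟨b, hb⟩ := h3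
  have h5 : 2 ≤ ((univ.filter fun v => χ v = k).filter fun w => G.Adj o w).card := by omega
  rw [mul_comm 2]
  exact Nat.mul_le_mul_left _ h5

/-! ### the theorem -/

/-- the sign of a class -/
def sg (χ : V → Bool) (v : V) : ℤ := if χ v = true then 1 else -1

lemma sum_fs_eq [Fintype V] [DecidableEq V] {G : SimpleGraph V} (σ : V → ℤ) (x : V)
    (p : ∀ u, G.Walk x u) (hp : ∀ u, x ≠ u → (p u).IsPath) :
    ∑ u, (if x = u then 0 else fs σ (p u)) =
      ∑ w, σ w * ((univ.filter fun u => x ≠ u ∧ w ∈ (p u).support).card : ℤ) := by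
  have h1 : ∀ u, (if x = u then 0 else fs σ (p u)) =
      ∑ w, if x ≠ u ∧ w ∈ (p u).support then σ w else 0 := by
    intro u
    by_cases h : x = u
    · simp [h]
    · rw [if_neg h, fs_finset _ _ (hp u h)]
      refine sum_congr rfl fun w _ => ?_
      simp [h]
  rw [sum_congr rfl fun u _ => h1 u, sum_comm]
  refine sum_congr rfl fun w _ => ?_
  rw [← sum_filter, sum_const, nsmul_eq_mul, mul_comm]

/-- toggling one edge inside a class -/
lemma root_toggle [Fintype V] [DecidableEq V] {G : SimpleGraph V} [DecidableRel G.Adj]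
    (hG : G.Connected) (χ : V → Bool) (x : V) (p : ∀ u, G.Walk x u)
    (hp : ∀ u, (p u).length = G.dist x u)
    (hin : ∀ k : Bool, (univ.filter fun v => χ v = k).Nonempty ∧
      2 * (univ.filter fun v => χ v = k).card ≤ (inner G (univ.filter fun v => χ v = k)).card)
    (ε : ℤ) (hε : ε = 0 ∨ ε = 2 ∨ ε = -2) :
    ∃ q : ∀ u, G.Walk x u, (∀ u, x ≠ u → (q u).IsPath) ∧
      ∑ w, sg χ w * ((univ.filter fun u => x ≠ u ∧ w ∈ (q u).support).card : ℤ) =
      ∑ w, sg χ w * ((univ.filter fun u => x ≠ u ∧ w ∈ (p u).support).card : ℤ) + ε := by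
  have hpp : ∀ u, x ≠ u → (p u).IsPath := fun u _ => geod_isPath _ (hp u)
  have key : ∀ k : Bool, ∃ q : ∀ u, G.Walk x u, (∀ u, x ≠ u → (q u).IsPath) ∧
      ∑ w, sg χ w * ((univ.filter fun u => x ≠ u ∧ w ∈ (q u).support).card : ℤ) =
      ∑ w, sg χ w * ((univ.filter fun u => x ≠ u ∧ w ∈ (p u).support).card : ℤ) +
        (if k = true then 2 else -2) := by
    intro k
    obtain ⟨a, ha, b, hb, hab, hxa, hxb, h1, h2⟩ :=
      exists_avail hG x p hp (univ.filter fun v => χ v = k) (hin k).1 (hin k).2
    rw [mem_filter] at ha hb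
    have hne : a ≠ b := hab.ne
    obtain ⟨q, hq1, hq2⟩ := one_root x p hpp (Equiv.swap a b)
      (fun u => Equiv.swap_apply_self a b u) (Equiv.swap_apply_of_ne_of_ne hxa hxb)
      (by
        intro u hu
        by_cases hua : u = a
        · subst hua; rw [Equiv.swap_apply_left]; exact hab.symm
        by_cases hub : u = b
        · subst hub; rw [Equiv.swap_apply_right]; exact hab
        exact absurd (Equiv.swap_apply_of_ne_of_ne hua hub) hu)
      (by
        intro u hu
        by_cases hua : u = a
        · subst hua; rw [Equiv.swap_apply_left]; exact h2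
        by_cases hub : u = b
        · subst hub; rw [Equiv.swap_apply_right]; exact h1
        exact absurd (Equiv.swap_apply_of_ne_of_ne hua hub) hu)
    refine ⟨q, hq1, ?_⟩
    have h3 : ∀ w, sg χ w * ((univ.filter fun u => x ≠ u ∧ w ∈ (q u).support).card : ℤ) =
        sg χ w * ((univ.filter fun u => x ≠ u ∧ w ∈ (p u).support).card : ℤ) +
        (if w = a ∨ w = b then sg χ w else 0) := by
      intro w
      rw [hq2 w]
      have h4 : (Equiv.swap a b w ≠ w) ↔ (w = a ∨ w = b) := by
        constructor
        · intro h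
          by_contra h'
          push Not at h'
          exact h (Equiv.swap_apply_of_ne_of_ne h'.1 h'.2)
        · rintro (h | h)
          · rw [h, Equiv.swap_apply_left]; exact hne.symm
          · rw [h, Equiv.swap_apply_right]; exact hne
      by_cases h5 : w = a ∨ w = b
      · rw [if_pos h5, if_pos (h4.2 h5)]
        push_cast; ring
      · rw [if_neg h5, if_neg (fun h => h5 (h4.1 h))]
        push_cast; ring
    rw [sum_congr rfl fun w _ => h3 w, sum_add_distrib, ← sum_filter]
    congr 1
    have h6 : (univ.filter fun w => w = a ∨ w = b) = {a, b} := by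
      ext w; simp
    rw [h6, sum_pair hne, sg, sg, ha.2, hb.2]
    cases k <;> norm_num
  rcases hε with h | h | h
  · exact ⟨p, hpp, by rw [h, add_zero]⟩
  · obtain ⟨q, hq1, hq2⟩ := key true
    exact ⟨q, hq1, by rw [hq2, h]; simp⟩
  · obtain ⟨q, hq1, hq2⟩ := key false
    exact ⟨q, hq1, by rw [hq2, h]; simp⟩

/-- **Two classes.** -/
theorem hasUPS_of_two_classes [Fintype V] [DecidableEq V] {G : SimpleGraph V}
    (hG : G.Connected) (hT : VT G) (χ : V → Bool) (T : Set (G ≃g G))
    (hT1 : ∀ t ∈ T, ∀ v, χ (t v) = χ v)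
    (hT2 : ∀ u v, χ u = χ v → ∃! t : G ≃g G, t ∈ T ∧ t u = v)
    (hcard : (univ.filter fun v => χ v = true).card = (univ.filter fun v => χ v = false).card)
    (hodd : Odd (univ.filter fun v => χ v = true).card)
    (hD : (∃ u v, G.Adj u v ∧ χ u = χ v) → ∀ x y, G.dist x y ≤ 5) : HasUPS G := by
  classical
  have hoddk : ∀ k : Bool, Odd (univ.filter fun v => χ v = k).card := by
    intro k
    cases k
    · rw [← hcard]; exact hodd
    · exact hodd
  have hnek : ∀ k : Bool, (univ.filter fun v => χ v = k).Nonempty := fun k => by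
    rw [← card_pos]; exact (hoddk k).pos
  have hr : ∀ k : Bool, ∃ v, χ v = k := by
    intro k
    obtain ⟨v, hv⟩ := hnek k
    exact ⟨v, (mem_filter.1 hv).2⟩
  choose r hr using hr
  have hσ2 : ∀ v, sg χ v = 1 ∨ sg χ v = -1 := by
    intro v
    rw [sg]
    by_cases h : χ v = true
    · left; rw [if_pos h]
    · right; rw [if_neg h]
  have hσχ : ∀ u v, χ u = χ v → sg χ u = sg χ v := by
    intro u v h
    rw [sg, sg, h]
  have hsplit : ∀ f : V → ℤ, ∑ v, sg χ v * f v =
      ∑ v ∈ univ.filter (fun v => χ v = true), f v -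
      ∑ v ∈ univ.filter (fun v => χ v = false), f v := by
    intro f
    rw [← sum_filter_add_sum_filter_not univ (fun v => χ v = true) (fun v => sg χ v * f v)]
    have e1 : ∑ v ∈ univ.filter (fun v => χ v = true), sg χ v * f v =
        ∑ v ∈ univ.filter (fun v => χ v = true), f v := by
      refine sum_congr rfl fun v hv => ?_
      rw [mem_filter] at hv
      rw [sg, if_pos hv.2, one_mul]
    have e2 : ∑ v ∈ univ.filter (fun v => ¬ χ v = true), sg χ v * f v =
        - ∑ v ∈ univ.filter (fun v => χ v = false), f v := by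
      rw [← sum_neg_distrib]
      have : (univ.filter fun v => ¬ χ v = true) = univ.filter fun v => χ v = false := by
        ext v; simp
      rw [this]
      refine sum_congr rfl fun v hv => ?_
      rw [mem_filter] at hv
      rw [sg, hv.2]; simp
    rw [e1, e2]; ring
  have hσ0 : ∑ v, sg χ v = 0 := by
    have := hsplit (fun _ => 1)
    simp only [mul_one, sum_const, nsmul_eq_mul] at this
    rw [this, hcard]; ring
  -- reduction to one equation
  have hred : ∀ q : ∀ c u, G.Walk (r c) u, (∀ c u, r c ≠ u → (q c u).IsPath) →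
      ∑ c, ∑ w, sg χ w * ((univ.filter fun u => r c ≠ u ∧ w ∈ (q c u).support).card : ℤ) = 0 →
      HasUPS G := by
    intro q hq h0
    refine hasUPS_of_classes χ T hT1 hT2 r hr q hq
      (∑ c, ∑ w ∈ univ.filter (fun w => χ w = true),
        (univ.filter fun u => r c ≠ u ∧ w ∈ (q c u).support).card) ?_
    intro k
    cases k
    · rw [sum_congr rfl fun c _ => hsplit _, sum_sub_distrib, sub_eq_zero] at h0
      exact_mod_cast h0.symm
    · rfl
  by_cases hbip : (inner G (univ.filter fun v => χ v = true)).card = 0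
  · -- bipartite
    have hbip2 : ∀ k : Bool, (inner G (univ.filter fun v => χ v = k)).card = 0 := by
      intro k
      cases k
      · rw [← inner_eq hT χ hcard]; exact hbip
      · exact hbip
    have hadj : ∀ u v, G.Adj u v → sg χ u = - sg χ v := by
      intro u v huv
      have hne : χ u ≠ χ v := by
        intro h
        have h1 := hbip2 (χ u)
        rw [card_eq_zero] at h1
        have h2 : (u, v) ∈ inner G (univ.filter fun w => χ w = χ u) := by
          rw [inner, mem_filter, mem_product, mem_filter, mem_filter]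
          exact ⟨⟨⟨mem_univ _, rfl⟩, mem_univ _, h.symm⟩, huv⟩
        rw [h1] at h2
        exact absurd h2 (notMem_empty _)
      rw [sg, sg]
      cases h1 : χ u <;> cases h2 : χ v <;> simp [h1, h2] at hne ⊢
    have hq : ∀ c u, ∃ w : G.Walk (r c) u, w.length = G.dist (r c) u := fun c u =>
      hG.exists_walk_length_eq_dist _ _
    choose q hq using hq
    refine hred q (fun c u _ => geod_isPath _ (hq c u)) ?_
    have h1 : ∀ c, ∑ w, sg χ w *
        ((univ.filter fun u => r c ≠ u ∧ w ∈ (q c u).support).card : ℤ) =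
        ∑ u, if r c = u then 0 else fs (sg χ) (q c u) := fun c =>
      (sum_fs_eq (sg χ) (r c) (q c) (fun u _ => geod_isPath _ (hq c u))).symm
    rw [sum_congr rfl fun c _ => h1 c]
    have h2 : ∀ c, 2 * ∑ u, (if r c = u then 0 else fs (sg χ) (q c u)) =
        ((Fintype.card V : ℤ) - 2) * sg χ (r c) := by
      intro c
      rw [mul_sum]
      have h3 : ∀ u, 2 * (if r c = u then 0 else fs (sg χ) (q c u)) =
          (sg χ (r c) + sg χ u) - (if r c = u then 2 * sg χ (r c) else 0) := by
        intro u
        by_cases h : r c = u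
        · rw [if_pos h, if_pos h, ← h]; ring
        · rw [if_neg h, if_neg h, fs_bip (sg χ) hadj]; ring
      rw [sum_congr rfl fun u _ => h3 u, sum_sub_distrib, sum_add_distrib, hσ0, sum_const,
        nsmul_eq_mul, sum_ite_eq, if_pos (mem_univ _), card_univ]
      ring
    have h4 : 2 * ∑ c, ∑ u, (if r c = u then 0 else fs (sg χ) (q c u)) = 0 := by
      rw [mul_sum, sum_congr rfl fun c _ => h2 c, Fintype.sum_bool]
      have e1 : sg χ (r true) = 1 := by rw [sg, hr]; simp
      have e2 : sg χ (r false) = -1 := by rw [sg, hr]; simp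
      rw [e1, e2]; ring
    linarith
  · -- inner edges
    have hbip2 : ∀ k : Bool, (inner G (univ.filter fun v => χ v = k)).card ≠ 0 := by
      intro k
      cases k
      · rw [← inner_eq hT χ hcard]; exact hbip
      · exact hbip
    have hin : ∀ k : Bool, (univ.filter fun v => χ v = k).Nonempty ∧
      2 * (univ.filter fun v => χ v = k).card ≤
        (inner G (univ.filter fun v => χ v = k)).card := fun k =>
      ⟨hnek k, inner_large χ T hT1 hT2 k (hoddk k) (hbip2 k)⟩
    have hD' : ∀ x y, G.dist x y ≤ 5 := by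
      apply hD
      obtain ⟨e, he⟩ := card_pos.1 (Nat.pos_of_ne_zero hbip)
      rw [inner, mem_filter, mem_product, mem_filter, mem_filter] at he
      exact ⟨e.1, e.2, he.2, by rw [he.1.1.2, he.1.2.2]⟩
    obtain ⟨p1, hp1, hs1⟩ := exists_nonneg hG hT χ T hT1 hT2 r hr (sg χ) hσχ hσ0 hσ2
    obtain ⟨p2, hp2, hs2⟩ := exists_nonneg hG hT χ T hT1 hT2 r hr (fun v => - sg χ v)
      (fun u v h => by simp only [hσχ u v h])
      (by rw [sum_neg_distrib, hσ0, neg_zero])
      (fun v => by
        rcases hσ2 v with h | h
        · right; simp only [h]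
        · left; simp only [h]; norm_num)
    have hs2' : ∑ c, ∑ u, (if r c = u then 0 else fs (sg χ) (p2 c u)) ≤ 0 := by
      have : ∑ c, ∑ u, (if r c = u then 0 else fs (sg χ) (p2 c u)) =
          - ∑ c, ∑ u, (if r c = u then 0 else fs (fun v => - sg χ v) (p2 c u)) := by
        rw [← sum_neg_distrib]
        refine sum_congr rfl fun c _ => ?_
        rw [← sum_neg_distrib]
        refine sum_congr rfl fun u _ => ?_
        by_cases h : r c = u
        · simp [h]
        · rw [if_neg h, if_neg h, fs_neg]; ring
      linarith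
    let M : Bool × V → ℤ := fun i => if r i.1 = i.2 then 0 else fs (sg χ) (p1 i.1 i.2)
    let m : Bool × V → ℤ := fun i => if r i.1 = i.2 then 0 else fs (sg χ) (p2 i.1 i.2)
    have hMs : 0 ≤ 0 + ∑ i ∈ (univ : Finset (Bool × V)), M i := by
      rw [zero_add, Fintype.sum_prod_type]; exact hs1
    have hms : 0 + ∑ i ∈ (univ : Finset (Bool × V)), m i ≤ 0 := by
      rw [zero_add, Fintype.sum_prod_type]; exact hs2'
    obtain ⟨U, _, hU⟩ := interp m M 4 (by norm_num) (univ : Finset (Bool × V)) (by
      intro i _
      simp only [M, m]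
      by_cases h : r i.1 = i.2
      · simp [h]
      · rw [if_neg h, if_neg h]
        have h1 := fs_abs2 (sg χ) hσ2 h (p1 i.1 i.2)
        have h2 := fs_abs2 (sg χ) hσ2 h (p2 i.1 i.2)
        have h3 := hD' (r i.1) i.2
        rw [hp1] at h1
        rw [hp2] at h2
        rw [abs_le] at h1 h2 ⊢
        constructor <;> omega) 0 hms hMs
    -- the mixed system
    let p : ∀ c u, G.Walk (r c) u := fun c u => if (c, u) ∈ U then p1 c u else p2 c u
    have hp : ∀ c u, (p c u).length = G.dist (r c) u := by
      intro c u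
      simp only [p]
      split_ifs
      · exact hp1 c u
      · exact hp2 c u
    have hF : ∑ c, ∑ u, (if r c = u then 0 else fs (sg χ) (p c u)) =
        0 + ∑ i ∈ U, M i + ∑ i ∈ univ \ U, m i := by
      rw [zero_add, ← Fintype.sum_prod_type
        (fun i : Bool × V => if r i.1 = i.2 then 0 else fs (sg χ) (p i.1 i.2)),
        ← sum_sdiff (subset_univ U), add_comm]
      congr 1
      · refine sum_congr rfl fun i hi => ?_
        simp only [M, p]
        rw [if_pos (show (i.1, i.2) ∈ U from hi)]
      · refine sum_congr rfl fun i hi => ?_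
        simp only [m, p]
        rw [if_neg (show (i.1, i.2) ∉ U from (mem_sdiff.1 hi).2)]
    rw [← hF] at hU
    -- parity
    have hpar : (∑ c, ∑ u, (if r c = u then 0 else fs (sg χ) (p c u))) % 2 = 0 := by
      have h1 : ∀ c, (∑ u, (if r c = u then 0 else fs (sg χ) (p c u))) % 2 =
          (∑ u, (if r c = u then 0 else (G.dist (r c) u + 1 : ℤ))) % 2 := by
        intro c
        rw [sum_int_mod, sum_int_mod (s := univ)
          (f := fun u => if r c = u then 0 else (G.dist (r c) u + 1 : ℤ))]
        congr 1
        refine sum_congr rfl fun u _ => ?_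
        by_cases h : r c = u
        · simp [h]
        · rw [if_neg h, if_neg h, fs_parity (sg χ) hσ2, hp]
      have h2 : (∑ u, (if r true = u then 0 else (G.dist (r true) u + 1 : ℤ))) =
          ∑ u, (if r false = u then 0 else (G.dist (r false) u + 1 : ℤ)) := by
        obtain ⟨φ, hφ⟩ := hT (r true) (r false)
        rw [← Equiv.sum_comp φ.toEquiv
          (fun u => if r false = u then 0 else (G.dist (r false) u + 1 : ℤ))]
        refine sum_congr rfl fun u _ => ?_
        change _ = if r false = φ u then 0 else (G.dist (r false) (φ u) + 1 : ℤ)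
        rw [← hφ, dist_map]
        by_cases h : r true = u
        · simp [h]
        · rw [if_neg h, if_neg (fun h' => h (φ.injective h'))]
      rw [Fintype.sum_bool, Int.add_emod, h1 true, h1 false, h2]
      omega
    -- corrections at the two roots
    set F : ℤ := ∑ c, ∑ u, (if r c = u then 0 else fs (sg χ) (p c u)) with hFdef
    obtain ⟨ε, hε, hεF⟩ : ∃ ε : Bool → ℤ, (∀ c, ε c = 0 ∨ ε c = 2 ∨ ε c = -2) ∧
        ε true + ε false = - F := by
      rw [abs_le] at hU
      have hcases : F = -4 ∨ F = -2 ∨ F = 0 ∨ F = 2 ∨ F = 4 := by omega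
      rcases hcases with h | h | h | h | h
      · exact ⟨fun _ => 2, fun _ => by simp, by rw [h]; norm_num⟩
      · exact ⟨fun c => if c = true then 2 else 0, fun c => by cases c <;> simp, by
          rw [h]; norm_num⟩
      · exact ⟨fun _ => 0, fun _ => by simp, by rw [h]; norm_num⟩
      · exact ⟨fun c => if c = true then -2 else 0, fun c => by cases c <;> simp, by
          rw [h]; norm_num⟩
      · exact ⟨fun _ => -2, fun _ => by simp, by rw [h]; norm_num⟩
    have hroot := fun c => root_toggle hG χ (r c) (p c) (hp c) hin (ε c) (hε c)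
    choose q hq1 hq2 using hroot
    refine hred q hq1 ?_
    rw [sum_congr rfl fun c _ => hq2 c, sum_add_distrib]
    have h1 : ∀ c, ∑ w, sg χ w *
        ((univ.filter fun u => r c ≠ u ∧ w ∈ (p c u).support).card : ℤ) =
        ∑ u, if r c = u then 0 else fs (sg χ) (p c u) := fun c =>
      (sum_fs_eq (sg χ) (r c) (p c) (fun u _ => geod_isPath _ (hp c u))).symm
    rw [sum_congr rfl fun c _ => h1 c, ← hFdef, Fintype.sum_bool]
    linarith

end Pool.Agent.UPS.TC
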