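import Pool.Agent.Lib.MP_876e19_co_ups.TwoClass

/-!
# Two classes from Sylow subgroups (helper49)

`hasUPS_of_card_two_mul_prime`: `n = 2p`, `p` an odd prime, all distances at most five.
-/

set_option autoImplicit false

namespace Pool.Agent.UPS.TC

open Finset MulAction Pool.Agent.UPS

/-- the orbits of a Sylow subgroup of a transitive group -/
theorem sylow_orbit {Γ V : Type*} [Group Γ] [Finite Γ] [Finite V] [MulAction Γ V]
    [IsPretransitive Γ V] {p a : ℕ} (hp : p.Prime) (ha : p ^ a ∣ Nat.card V) (P : Sylow p Γ)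
    (u : V) : ∃ b, a ≤ b ∧ (orbit P u).ncard = p ^ b := by
  have := Fact.mk hp
  have hne : Nat.card Γ ≠ 0 := Nat.card_pos.ne'
  have h1 : (stabilizer Γ u).index = Nat.card V := by
    rw [index_stabilizer, orbit_eq_univ, Set.ncard_univ]
  have h2 := (stabilizer Γ u).card_mul_index
  rw [h1] at h2
  have h3 := Sylow.card_eq_multiplicity P
  have h4 : Nat.card (stabilizer P u) ∣ Nat.card (stabilizer Γ u) := by
    have hle : (stabilizer P u).map (P : Subgroup Γ).subtype ≤ stabilizer Γ u := by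
      rintro _ ⟨g, hg, rfl⟩
      exact hg
    have h5 := Subgroup.card_dvd_of_le hle
    rwa [Subgroup.card_map_of_injective (P : Subgroup Γ).subtype_injective] at h5
  have h6 : Nat.card (stabilizer P u) ∣ Nat.card P := Subgroup.card_subgroup_dvd_card _
  rw [h3] at h6
  obtain ⟨j, hjk, hj⟩ := (Nat.dvd_prime_pow hp).1 h6
  have h7 : p ^ (a + j) ∣ Nat.card Γ := by
    rw [pow_add, ← h2, mul_comm (Nat.card _) (Nat.card V)]
    exact mul_dvd_mul ha (hj ▸ h4)
  have h8 : a + j ≤ (Nat.card Γ).factorization p :=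
    (hp.pow_dvd_iff_le_factorization hne).1 h7
  have h9 : (orbit P u).ncard * p ^ j = p ^ ((Nat.card Γ).factorization p) := by
    have := (stabilizer P u).card_mul_index
    rw [index_stabilizer, hj, h3] at this
    rw [mul_comm]; exact this
  refine ⟨(Nat.card Γ).factorization p - j, by omega, ?_⟩
  have h10 : p ^ ((Nat.card Γ).factorization p) =
      p ^ ((Nat.card Γ).factorization p - j) * p ^ j := by
    rw [← pow_add]; congr 1; omega
  rw [h10] at h9
  exact Nat.eq_of_mul_eq_mul_right (pow_pos hp.pos j) h9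

/-- two orbits of a Sylow subgroup -/
theorem two_orbits {Γ V : Type*} [Group Γ] [Finite Γ] [Fintype V] [MulAction Γ V]
    [IsPretransitive Γ V] {p a : ℕ} (hp : p.Prime) (hp3 : 3 ≤ p)
    (ha : Fintype.card V = 2 * p ^ a) (P : Sylow p Γ) :
    (∀ u : V, (orbit P u).ncard = p ^ a) ∧
    ∃ χ : V → Bool, (∀ g ∈ P, ∀ v : V, χ (g • v) = χ v) ∧
      (∀ u v, χ u = χ v → ∃ g ∈ P, g • u = v) ∧
      ∀ k, (univ.filter fun v => χ v = k).card = p ^ a := by
  classical
  have h0 : ∀ u : V, (orbit P u).ncard = p ^ a := by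
    intro u
    obtain ⟨b, hb1, hb2⟩ := sylow_orbit (V := V) hp (a := a)
      (by rw [Nat.card_eq_fintype_card, ha]; exact Dvd.intro_left _ rfl) P u
    have h1 : (orbit P u).ncard ≤ 2 * p ^ a := by
      rw [← ha, ← Nat.card_eq_fintype_card, ← Set.ncard_univ]
      exact Set.ncard_le_ncard (Set.subset_univ _)
    rw [hb2] at h1 ⊢
    congr 1
    by_contra hne
    have h2 : a + 1 ≤ b := by omega
    have h3 : p ^ (a + 1) ≤ p ^ b := Nat.pow_le_pow_right hp.pos h2
    have h4 : 3 * p ^ a ≤ p ^ (a + 1) := by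
      rw [pow_succ, mul_comm]
      exact Nat.mul_le_mul_left _ hp3
    have h5 : 0 < p ^ a := pow_pos hp.pos a
    omega
  refine ⟨h0, ?_⟩
  have hpos : 0 < p ^ a := pow_pos hp.pos a
  have hV : Nonempty V := by
    rw [← Fintype.card_pos_iff, ha]; omega
  obtain ⟨o⟩ := hV
  let χ : V → Bool := fun v => decide (v ∈ orbit P o)
  have hχt : ∀ v, χ v = true ↔ v ∈ orbit P o := fun v => by simp [χ]
  have hcard : ∀ k, (univ.filter fun v => χ v = k).card = p ^ a := by
    have ht : (univ.filter fun v => χ v = true).card = p ^ a := by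
      rw [← h0 o, ← Set.ncard_coe_finset]
      congr 1
      ext v
      simp [hχt]
    intro k
    cases k
    · have h1 := card_filter_add_card_filter_not (s := (univ : Finset V)) (fun v => χ v = true)
      rw [ht, card_univ, ha] at h1
      have h2 : (univ.filter fun v => ¬ χ v = true) = univ.filter fun v => χ v = false := by
        ext v; simp
      rw [h2] at h1
      omega
    · exact ht
  have hinv : ∀ g ∈ P, ∀ v : V, χ (g • v) = χ v := by
    intro g hg v
    rw [Bool.eq_iff_iff, hχt, hχt]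
    constructor
    · rintro ⟨h, hh⟩
      refine ⟨(⟨g, hg⟩ : P)⁻¹ * h, ?_⟩
      change ((⟨g, hg⟩ : P)⁻¹ * h) • o = v
      rw [mul_smul, inv_smul_eq_iff]
      exact hh
    · rintro ⟨h, hh⟩
      refine ⟨(⟨g, hg⟩ : P) * h, ?_⟩
      change ((⟨g, hg⟩ : P) * h) • o = g • v
      rw [mul_smul]
      have hh' : h • o = v := hh
      rw [hh']
      rfl
  refine ⟨χ, hinv, ?_, hcard⟩
  -- each class is one orbit
  intro u v huv
  have h1 : orbit P u ⊆ {w | χ w = χ u} := by
    rintro _ ⟨g, rfl⟩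
    exact hinv g g.2 u
  have h2 : {w | χ w = χ u}.ncard = p ^ a := by
    rw [← hcard (χ u), ← Set.ncard_coe_finset]
    congr 1
    ext w; simp
  have h3 : orbit P u = {w | χ w = χ u} :=
    Set.eq_of_subset_of_ncard_le h1 (by rw [h2, h0])
  have h4 : v ∈ orbit P u := by rw [h3]; exact huv.symm
  obtain ⟨g, hg⟩ := h4
  exact ⟨g, g.2, hg⟩

/-- free differences -/
theorem sharp_of_free {Γ V : Type*} [Group Γ] [Fintype V] [MulAction Γ V] (χ : V → Bool)
    (T : Finset Γ) (hT : ∀ t ∈ T, ∀ v : V, χ (t • v) = χ v)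
    (hcard : ∀ k, (univ.filter fun v => χ v = k).card = T.card)
    (hfree : ∀ t ∈ T, ∀ t' ∈ T, ∀ u : V, t • u = t' • u → t = t') (u v : V) (huv : χ u = χ v) :
    ∃! t : Γ, t ∈ T ∧ t • u = v := by
  classical
  have h1 : T.image (fun t => t • u) = univ.filter fun w => χ w = χ u := by
    apply eq_of_subset_of_card_le
    · intro w hw
      rw [mem_image] at hw
      obtain ⟨t, ht, rfl⟩ := hw
      rw [mem_filter]
      exact ⟨mem_univ _, hT t ht u⟩
    · rw [hcard, card_image_of_injOn]
      intro t ht t' ht' h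
      exact hfree t ht t' ht' u h
  have h2 : v ∈ T.image (fun t => t • u) := by
    rw [h1, mem_filter]; exact ⟨mem_univ _, huv.symm⟩
  rw [mem_image] at h2
  obtain ⟨t, ht, htv⟩ := h2
  refine ⟨t, ⟨ht, htv⟩, ?_⟩
  rintro t' ⟨ht', ht'v⟩
  exact hfree t' ht' t ht u (by rw [ht'v, htv])

lemma mem_of_coprime_pow {Γ : Type*} [Group Γ] (S : Subgroup Γ) {g : Γ} {i p : ℕ}
    (hi : g ^ i ∈ S) (hp : g ^ p ∈ S) (hc : Nat.Coprime i p) : g ∈ S := by
  have h : g ^ (1 : ℤ) ∈ S := by
    have h1 : (1 : ℤ) = i * (Nat.gcdA i p) + p * (Nat.gcdB i p) := by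
      rw [← Nat.gcd_eq_gcd_ab, hc.gcd_eq_one]; rfl
    rw [h1, zpow_add, zpow_mul, zpow_mul, zpow_natCast, zpow_natCast]
    exact S.mul_mem (S.zpow_mem hi _) (S.zpow_mem hp _)
  simpa using h

/-- a subgroup of index `p` in a `p`-group is normal -/
lemma normal_of_index_prime {Γ : Type*} [Group Γ] [Finite Γ] {p : ℕ} (hp : p.Prime)
    (hΓ : IsPGroup p Γ) (H : Subgroup Γ) (hH : H.index = p) : H.Normal := by
  have := Fact.mk hp
  apply Subgroup.normal_of_index_eq_minFac_card
  obtain ⟨k, hk⟩ := hΓ.exists_card_eq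
  have hk0 : k ≠ 0 := by
    rintro rfl
    have := H.card_mul_index
    rw [hH, hk, pow_zero] at this
    exact hp.one_lt.ne' (Nat.eq_one_of_mul_eq_one_left this)
  rw [hH, hk, hp.pow_minFac hk0]

/-- two proper subgroups do not cover a group -/
lemma exists_notMem_two {Γ : Type*} [Group Γ] (A B : Subgroup Γ) (hA : ∃ a, a ∉ A)
    (hB : ∃ b, b ∉ B) : ∃ g, g ∉ A ∧ g ∉ B := by
  obtain ⟨a, ha⟩ := hA
  obtain ⟨b, hb⟩ := hB
  by_cases haB : a ∈ B
  · by_cases hbA : b ∈ A
    · refine ⟨a * b, fun h => ha ?_, fun h => hb ?_⟩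
      · exact (Subgroup.mul_mem_cancel_right _ hbA).1 h
      · exact (Subgroup.mul_mem_cancel_left _ haB).1 h
    · exact ⟨b, hbA, hb⟩
  · exact ⟨a, ha, haB⟩

variable {V : Type*}

/-- an automorphism of odd order of a connected bipartite graph preserves the colours -/
lemma no_edge_of_odd {G : SimpleGraph V} (hG : G.Connected) (hC : G.Colorable 2)
    (h : G ≃g G) {N : ℕ} (hN : Odd N) (hh : h ^ N = 1) (u : V) : ¬ G.Adj u (h u) := by
  intro hadj
  obtain ⟨C⟩ := hC
  let D : V → Bool := fun v => decide (C v = 0)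
  have hD : ∀ a b, G.Adj a b → D b = !D a := by
    intro a b hab
    have h1 := C.valid hab
    simp only [D]
    have h2 : ∀ x y : Fin 2, x ≠ y → decide (y = 0) = !decide (x = 0) := by decide
    exact h2 _ _ h1
  have hflip : ∀ w, D (h w) = !D w := by
    intro w
    obtain ⟨p⟩ := hG.preconnected w u
    induction p with
    | nil => exact hD _ _ hadj
    | @cons a b c hab p ih =>
      have h1 := ih hadj
      have h2 := hD _ _ hab
      have h3 := hD _ _ (h.map_adj_iff.2 hab)
      rw [h1, h2] at h3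
      have : ∀ x y : Bool, (!!x) = !y → y = !x := by decide
      exact this _ _ h3
  have hit : ∀ k, D ((h ^ k) u) = if Even k then D u else !D u := by
    intro k
    induction k with
    | zero => simp
    | succ k ih =>
      rw [pow_succ']
      change D (h ((h ^ k) u)) = _
      rw [hflip, ih]
      by_cases hk : Even k
      · rw [if_pos hk, if_neg (by rw [Nat.even_add_one]; simpa using hk)]
      · rw [if_neg hk, if_pos (by rw [Nat.even_add_one]; exact hk), Bool.not_not]
  have h4 := hit N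
  rw [hh, if_neg (Nat.not_even_iff_odd.2 hN)] at h4
  change D u = !D u at h4
  cases hDu : D u <;> rw [hDu] at h4 <;> simp at h4

/-- elements of a `p`-group moving a point in each of two orbits of length `p` -/
theorem exists_free_pow {Γ : Type*} [Group Γ] [Finite Γ] [MulAction Γ V] {p : ℕ}
    (hp : p.Prime) (Q : Subgroup Γ) (hQ : IsPGroup p Q)
    (horb : ∀ u : V, (orbit Q u).ncard = p) (χ : V → Bool)
    (hχ2 : ∀ u v, χ u = χ v → ∃ g ∈ Q, g • u = v) (hr : ∀ k, ∃ v, χ v = k) :
    ∃ g ∈ Q, ∀ u : V, ∀ i, 0 < i → i < p → g ^ i • u ≠ u := by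
  have := Fact.mk hp
  have hstab : ∀ u : V, (stabilizer Q u).index = p := by
    intro u
    rw [index_stabilizer, horb]
  have hnorm : ∀ u : V, (stabilizer Q u).Normal := fun u =>
    normal_of_index_prime hp hQ _ (hstab u)
  have hsame : ∀ u v : V, χ u = χ v → stabilizer Q u ≤ stabilizer Q v := by
    intro u v huv g hg
    obtain ⟨h, hh, hhu⟩ := hχ2 u v huv
    have h1 := (hnorm u).conj_mem g hg (⟨h, hh⟩ : Q)⁻¹
    rw [inv_inv, mem_stabilizer_iff, mul_smul, mul_smul, inv_smul_eq_iff] at h1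
    rw [mem_stabilizer_iff]
    have h2 : (⟨h, hh⟩ : Q) • u = v := hhu
    rw [h2] at h1
    exact h1
  choose r hr using hr
  have hproper : ∀ u : V, ∃ g, g ∉ stabilizer Q u := by
    intro u
    by_contra hcon
    push Not at hcon
    have h1 : stabilizer Q u = ⊤ := (Subgroup.eq_top_iff' _).2 hcon
    have h2 := hstab u
    rw [h1, Subgroup.index_top] at h2
    exact hp.one_lt.ne h2
  obtain ⟨g, hg1, hg2⟩ := exists_notMem_two _ _ (hproper (r true)) (hproper (r false))
  have hg : ∀ u : V, g ∉ stabilizer Q u := by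
    intro u h
    cases hu : χ u
    · exact hg2 (hsame u (r false) (by rw [hu, hr]) h)
    · exact hg1 (hsame u (r true) (by rw [hu, hr]) h)
  refine ⟨g, g.2, fun u i hi hip h => hg u ?_⟩
  have h0 : g ^ i ∈ stabilizer Q u := h
  have := hnorm u
  refine mem_of_coprime_pow _ h0 (p := p) ?_ ?_
  · have h3 := Subgroup.pow_index_mem (stabilizer Q u) g
    rwa [hstab] at h3
  · exact (Nat.Coprime.symm ((Nat.Prime.coprime_iff_not_dvd hp).2 (Nat.not_dvd_of_pos_of_lt hi hip)))

/-- `n = 2p` -/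
theorem hasUPS_of_card_two_mul_prime [Fintype V] {G : SimpleGraph V}
    (hG : G.Connected) (hT : VT G) {p : ℕ} (hp : p.Prime) (hp2 : p ≠ 2)
    (hcard : Fintype.card V = 2 * p)
    (hD : ¬ G.Colorable 2 → ∀ x y, G.dist x y ≤ 5) : HasUPS G := by
  classical
  have := Fact.mk hp
  have hfin : Finite (G ≃g G) :=
    Finite.of_injective (fun φ : G ≃g G => (φ : V → V)) DFunLike.coe_injective
  have : IsPretransitive (G ≃g G) V := ⟨fun u v => hT u v⟩
  obtain ⟨P⟩ : Nonempty (Sylow p (G ≃g G)) := inferInstance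
  have hp3 : 3 ≤ p := by
    have := hp.two_le
    omega
  obtain ⟨horb, χ, hχ1, hχ2, hχ3⟩ := two_orbits (V := V) (a := 1) hp hp3
    (by rw [pow_one]; exact hcard) P
  rw [pow_one] at horb hχ3
  obtain ⟨g, hgP, hg⟩ := exists_free_pow hp (P : Subgroup (G ≃g G)) P.isPGroup' horb χ hχ2 (by
    intro k
    have h1 : 0 < (univ.filter fun v => χ v = k).card := by rw [hχ3]; exact hp.pos
    obtain ⟨v, hv⟩ := card_pos.1 h1
    exact ⟨v, (mem_filter.1 hv).2⟩)
  have hinj : ∀ i < p, ∀ j < p, ∀ u : V, (g ^ i) • u = (g ^ j) • u → i = j := by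
    have key : ∀ i j, i < j → j < p → ∀ u : V, (g ^ i) • u ≠ (g ^ j) • u := by
      intro i j hij hj u h
      have e : g ^ j = g ^ i * g ^ (j - i) := by rw [← pow_add]; congr 1; omega
      rw [e, mul_smul] at h
      exact hg u (j - i) (by omega) (by omega) (smul_left_cancel _ h).symm
    intro i hi j hj u h
    rcases lt_trichotomy i j with h1 | h1 | h1
    · exact absurd h (key i j h1 hj u)
    · exact h1
    · exact absurd h.symm (key j i h1 hi u)
  obtain ⟨o⟩ : Nonempty V := by
    rw [← Fintype.card_pos_iff, hcard]; have := hp.pos; omega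
  let T : Finset (G ≃g G) := (range p).image fun i => g ^ i
  have hTcard : T.card = p := by
    rw [card_image_of_injOn, card_range]
    intro i hi j hj h
    rw [mem_coe, mem_range] at hi hj
    exact hinj i hi j hj o (congrArg (fun t : G ≃g G => t • o) h)
  have hTmem : ∀ t ∈ T, ∀ v : V, χ (t • v) = χ v := by
    intro t ht v
    rw [mem_image] at ht
    obtain ⟨i, _, rfl⟩ := ht
    exact hχ1 _ ((P : Subgroup (G ≃g G)).pow_mem hgP i) v
  refine hasUPS_of_two_classes hG hT χ (T : Set (G ≃g G)) (fun t ht v => hTmem t ht v) ?_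
    (by rw [hχ3, hχ3]) (by rw [hχ3]; exact hp.odd_of_ne_two hp2) ?_
  · intro u v huv
    have := sharp_of_free (V := V) χ T hTmem (fun k => by rw [hχ3, hTcard]) ?_ u v huv
    · exact this
    · intro t ht t' ht' u h
      rw [mem_image] at ht ht'
      obtain ⟨i, hi, rfl⟩ := ht
      obtain ⟨j, hj, rfl⟩ := ht'
      rw [mem_range] at hi hj
      rw [hinj i hi j hj u h]
  · rintro ⟨u, v, huv, hχ⟩
    apply hD
    intro hC
    obtain ⟨h, hh, hhu⟩ := hχ2 u v hχ
    obtain ⟨k, hk⟩ := P.isPGroup' ⟨h, hh⟩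
    have hk' : h ^ (p ^ k) = 1 := congrArg Subtype.val hk
    refine no_edge_of_odd hG hC h ((hp.odd_of_ne_two hp2).pow) hk' u ?_
    have : h u = v := hhu
    rw [this]; exact huv

end Pool.Agent.UPS.TC
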