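import Mathlib
import Pool.Agent.Lib.MP_876e19_co.Defs
import Pool.Agent.Lib.MP_876e19_co_ups.Antipode

/-!
# Two orbits (MP_876e19_co)

* `hasUPS_of_stars`: a set of automorphisms which is sharply transitive on every class of a
  partition: one star of paths for every class, only the numbers of visits of the classes have to
  be balanced;
* `hasUPS_of_two_orbits`: two classes of the same size, diameter at most four, vertex-transitive,
  every vertex has two neighbours in its own class;
* `hasUPS_two_prime_pow`: `2 p ^ a` vertices, degree four, diameter at most four, not bipartite.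
-/

set_option autoImplicit false

namespace Pool.Agent.UPS

namespace TwoOrb

open Finset

open scoped Classical in
/-- One star of paths for every class. -/
theorem hasUPS_of_stars {V ι : Type*} {G : SimpleGraph V}
    (T : Set (G ≃g G)) (cl : V → ι) (r : ι → V) (hr : ∀ i, cl (r i) = i)
    (hcl : ∀ t ∈ T, ∀ v, cl (t v) = cl v)
    (hT : ∀ u v : V, cl u = cl v → ∃! t : G ≃g G, t ∈ T ∧ t u = v)
    (F : ∀ (i : ι) (z : V), G.Walk (r i) z) (hF : ∀ i z, r i ≠ z → (F i z).IsPath)
    (c : ℕ) (hc : ∀ b : ι, {q : ι × V × V | r q.1 ≠ q.2.2 ∧ cl q.2.1 = b ∧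
      q.2.1 ∈ (F q.1 q.2.2).support}.ncard = c) : HasUPS G := by
  have ht : ∀ x : V, ∃ t : G ≃g G, t ∈ T ∧ t (r (cl x)) = x := fun x =>
    (hT (r (cl x)) x (hr _)).exists
  choose t htT hto using ht
  let P : ∀ x y : V, G.Walk x y := fun x y =>
    ((F (cl x) ((t x).symm y)).map (t x).toHom).copy (hto x) ((t x).apply_symm_apply y)
  have hsupp : ∀ x y v : V, v ∈ (P x y).support ↔
      (t x).symm v ∈ (F (cl x) ((t x).symm y)).support := by
    intro x y v
    simp only [P, SimpleGraph.Walk.support_copy, SimpleGraph.Walk.support_map, List.mem_map]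
    constructor
    · rintro ⟨w, hw, rfl⟩
      have : (t x).symm ((t x).toHom w) = w := (t x).symm_apply_apply w
      rw [this]; exact hw
    · intro h
      exact ⟨_, h, (t x).apply_symm_apply v⟩
  have hne : ∀ x y, x ≠ y → r (cl x) ≠ (t x).symm y := by
    intro x y hxy h
    apply hxy
    have h2 : (t x) (r (cl x)) = (t x) ((t x).symm y) := congrArg (t x) h
    rw [hto, (t x).apply_symm_apply] at h2
    exact h2
  refine ⟨P, ?_, c, ?_⟩
  · intro x y hxy
    simp only [P, SimpleGraph.Walk.isPath_copy]
    exact SimpleGraph.Walk.IsPath.map (t x).injective (hF _ _ (hne x y hxy))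
  · intro v
    rw [← hc (cl v)]
    unfold load
    have hclt : ∀ x w, cl ((t x).symm w) = cl w := by
      intro x w
      rw [← hcl (t x) (htT x), (t x).apply_symm_apply]
    refine Set.ncard_congr (fun p _ => (cl p.1, (t p.1).symm v, (t p.1).symm p.2)) ?_ ?_ ?_
    · rintro ⟨x, y⟩ ⟨hxy, hv⟩
      exact ⟨hne x y hxy, hclt _ _, (hsupp x y v).1 hv⟩
    · rintro ⟨x, y⟩ ⟨x', y'⟩ _ _ h
      simp only [Prod.mk.injEq] at h
      obtain ⟨h0, h1, h2⟩ := h
      have e1 : (t x) ((t x).symm v) = v := (t x).apply_symm_apply v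
      have e2 : (t x') ((t x).symm v) = v := by
        rw [h1]; exact (t x').apply_symm_apply v
      have e3 : t x = t x' := (hT ((t x).symm v) v (hclt _ _)).unique ⟨htT x, e1⟩ ⟨htT x', e2⟩
      have hx : x = x' := by rw [← hto x, ← hto x', e3, h0]
      subst hx
      have hy : y = y' := (t x).symm.injective h2
      rw [hy]
    · rintro ⟨i, u, z⟩ ⟨hz, hu', hu⟩
      dsimp only at hz hu' hu
      obtain ⟨s, ⟨hsT, hsu⟩, _⟩ := hT u v hu'
      have hci : cl (s (r i)) = i := by rw [hcl s hsT, hr]
      have hs : t (s (r i)) = s := by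
        apply (hT (r i) (s (r i)) (by rw [hr, hci])).unique ⟨htT _, ?_⟩ ⟨hsT, rfl⟩
        have := hto (s (r i))
        rwa [hci] at this
      have hsv : s.symm v = u := by rw [← hsu]; exact s.symm_apply_apply u
      have hsz : s.symm (s z) = z := s.symm_apply_apply z
      refine ⟨(s (r i), s z), ⟨?_, ?_⟩, ?_⟩
      · intro h
        exact hz (s.injective h)
      · rw [hsupp, hs, hsz, hsv, hci]; exact hu
      · simp only [hs, hsv, hsz, hci]

variable {V : Type*} [Fintype V] [DecidableEq V] {G : SimpleGraph V}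

/-- sign of a class -/
def sg (b : Bool) : ℤ := if b then 1 else -1

/-- signed number of visits -/
def dl (cl : V → Bool) {x z : V} (p : G.Walk x z) : ℤ :=
  ∑ u : V, if u ∈ p.support then sg (cl u) else 0

/-- Two classes: the signed number of visits has to vanish. -/
theorem hasUPS_of_balance
    (T : Set (G ≃g G)) (cl : V → Bool) (r : Bool → V) (hr : ∀ i, cl (r i) = i)
    (hcl : ∀ t ∈ T, ∀ v, cl (t v) = cl v)
    (hT : ∀ u v : V, cl u = cl v → ∃! t : G ≃g G, t ∈ T ∧ t u = v)
    (F : ∀ (i : Bool) (z : V), G.Walk (r i) z) (hF : ∀ i z, r i ≠ z → (F i z).IsPath)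
    (hbal : ∑ i : Bool, ∑ z : V, (if r i = z then 0 else dl cl (F i z)) = 0) : HasUPS G := by
  have hN : ∀ b : Bool, (({q : Bool × V × V | r q.1 ≠ q.2.2 ∧ cl q.2.1 = b ∧
      q.2.1 ∈ (F q.1 q.2.2).support}.ncard : ℕ) : ℤ) =
      ∑ i : Bool, ∑ z : V, ∑ u : V,
        if r i ≠ z ∧ cl u = b ∧ u ∈ (F i z).support then (1 : ℤ) else 0 := by
    intro b
    have h1 : {q : Bool × V × V | r q.1 ≠ q.2.2 ∧ cl q.2.1 = b ∧
      q.2.1 ∈ (F q.1 q.2.2).support} = ((univ.filter fun q : Bool × V × V => r q.1 ≠ q.2.2 ∧
        cl q.2.1 = b ∧ q.2.1 ∈ (F q.1 q.2.2).support : Finset (Bool × V × V)) : Set _) := by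
      ext q; simp
    rw [h1, Set.ncard_coe_finset, card_filter]
    push_cast
    rw [Fintype.sum_prod_type]
    refine sum_congr rfl fun i _ => ?_
    rw [Fintype.sum_prod_type]
    exact sum_comm
  have hNN : (({q : Bool × V × V | r q.1 ≠ q.2.2 ∧ cl q.2.1 = true ∧
      q.2.1 ∈ (F q.1 q.2.2).support}.ncard : ℕ) : ℤ) = (({q : Bool × V × V | r q.1 ≠ q.2.2 ∧
        cl q.2.1 = false ∧ q.2.1 ∈ (F q.1 q.2.2).support}.ncard : ℕ) : ℤ) := by
    rw [← sub_eq_zero, hN, hN, ← sum_sub_distrib]
    refine Eq.trans ?_ hbal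
    refine sum_congr rfl fun i _ => ?_
    rw [← sum_sub_distrib]
    refine sum_congr rfl fun z _ => ?_
    rw [← sum_sub_distrib]
    by_cases hz : r i = z
    · simp [hz]
    · rw [if_neg hz, dl]
      refine sum_congr rfl fun u _ => ?_
      by_cases hu : u ∈ (F i z).support <;> cases hc : cl u <;> simp [hz, hu, sg]
  refine hasUPS_of_stars T cl r hr hcl hT F hF (c := {q : Bool × V × V | r q.1 ≠ q.2.2 ∧
      cl q.2.1 = true ∧ q.2.1 ∈ (F q.1 q.2.2).support}.ncard) ?_
  intro b
  cases b
  · exact_mod_cast hNN.symm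
  · rfl

omit [DecidableEq V] in
lemma sum_sg_aut [Fintype (G ≃g G)] (hT : VT G) (cl : V → Bool) (hcard : ∑ v : V, sg (cl v) = 0)
    (u : V) : ∑ φ : G ≃g G, sg (cl (φ u)) = 0 := by
  have hconst : ∀ u w : V, ∑ φ : G ≃g G, sg (cl (φ u)) = ∑ φ : G ≃g G, sg (cl (φ w)) := by
    intro u w
    obtain ⟨ψ, hψ⟩ := hT u w
    rw [← hψ]
    exact (Equiv.sum_comp (Equiv.mulRight ψ) (fun φ : G ≃g G => sg (cl (φ u)))).symm
  have h1 : ∑ w : V, ∑ φ : G ≃g G, sg (cl (φ w)) = 0 := by
    rw [sum_comm]
    apply sum_eq_zero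
    intro φ _
    rw [← hcard]
    exact Equiv.sum_comp φ.toEquiv (fun v => sg (cl v))
  rw [sum_congr rfl fun w _ => hconst w u, sum_const, card_univ, nsmul_eq_mul] at h1
  have h2 : ((Fintype.card V : ℕ) : ℤ) ≠ 0 := by
    have : 0 < Fintype.card V := Fintype.card_pos_iff.2 ⟨u⟩
    exact_mod_cast this.ne'
  exact (mul_eq_zero.1 h1).resolve_left h2

/-- energy of a translate of a star -/
def en (cl : V → Bool) {x : V} (F : ∀ z, G.Walk x z) (φ : G ≃g G) : ℤ :=
  ∑ z : V, if x = z then 0 else ∑ u : V, if u ∈ (F z).support then sg (cl (φ u)) else 0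

lemma sum_en [Fintype (G ≃g G)] (hT : VT G) (cl : V → Bool) (hcard : ∑ v : V, sg (cl v) = 0)
    {x : V} (F : ∀ z, G.Walk x z) : ∑ φ : G ≃g G, en cl F φ = 0 := by
  unfold en
  rw [sum_comm]
  apply sum_eq_zero
  intro z _
  by_cases hz : x = z
  · simp [hz]
  · simp only [if_neg hz]
    rw [sum_comm]
    apply sum_eq_zero
    intro u _
    by_cases hu : u ∈ (F z).support
    · simp only [if_pos hu]
      exact sum_sg_aut hT cl hcard u
    · simp [hu]

lemma transport (hG : G.Connected) (cl : V → Bool) {x y : V} (F : ∀ z, G.Walk x z)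
    (hF : ∀ z, (F z).length = G.dist x z) (φ s : G ≃g G) (hs : ∀ v, cl (s v) = cl v)
    (hy : s (φ x) = y) : ∃ F' : ∀ z, G.Walk y z, (∀ z, (F' z).length = G.dist y z) ∧
      ∑ z : V, (if y = z then 0 else dl cl (F' z)) = en cl F φ := by
  let ψ : G ≃g G := φ.trans s
  have hψ : ∀ v, ψ v = s (φ v) := fun v => rfl
  have hψx : ψ x = y := hy
  let F' : ∀ z, G.Walk y z := fun z =>
    ((F (ψ.symm z)).map ψ.toHom).copy hψx (ψ.apply_symm_apply z)
  refine ⟨F', ?_, ?_⟩
  · intro z
    simp only [F', SimpleGraph.Walk.length_copy, SimpleGraph.Walk.length_map]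
    rw [hF, ← dist_iso hG ψ x, hψx, ψ.apply_symm_apply]
  · unfold en
    rw [← Equiv.sum_comp ψ.toEquiv]
    refine sum_congr rfl fun z _ => ?_
    have e1 : (y = ψ.toEquiv z) ↔ x = z := by
      rw [← hψx]
      exact ψ.injective.eq_iff
    by_cases hz : x = z
    · rw [if_pos (e1.2 hz), if_pos hz]
    · rw [if_neg (fun h => hz (e1.1 h)), if_neg hz]
      unfold dl
      rw [← Equiv.sum_comp ψ.toEquiv]
      refine sum_congr rfl fun u _ => ?_
      have e2 : (ψ.toEquiv u ∈ (F' (ψ.toEquiv z)).support) ↔ u ∈ (F z).support := by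
        simp only [F', SimpleGraph.Walk.support_copy, SimpleGraph.Walk.support_map, List.mem_map]
        have e3 : ψ.symm (ψ.toEquiv z) = z := ψ.symm_apply_apply z
        rw [e3]
        constructor
        · rintro ⟨w, hw, h⟩
          have : w = u := ψ.injective h
          rwa [← this]
        · intro h
          exact ⟨u, h, rfl⟩
      have e4 : cl (ψ.toEquiv u) = cl (φ u) := hs (φ u)
      rw [e4]
      by_cases hu : u ∈ (F z).support
      · rw [if_pos (e2.2 hu), if_pos hu]
      · rw [if_neg (fun h => hu (e2.1 h)), if_neg hu]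

lemma exists_pair {α : Type*} (A B : Finset α) (f : α → ℤ) (hAB : A.card = B.card)
    (hA : A.Nonempty) (h0 : 0 ≤ ∑ a ∈ A, f a + ∑ b ∈ B, f b) :
    ∃ a ∈ A, ∃ b ∈ B, 0 ≤ f a + f b := by
  have hB : B.Nonempty := by rw [← card_pos, ← hAB]; exact hA.card_pos
  obtain ⟨a, ha, ha'⟩ := exists_max_image A f hA
  obtain ⟨b, hb, hb'⟩ := exists_max_image B f hB
  refine ⟨a, ha, b, hb, ?_⟩
  have h1 : ∑ a ∈ A, f a ≤ A.card • f a := sum_le_card_nsmul _ _ _ ha'
  have h2 : ∑ b ∈ B, f b ≤ B.card • f b := sum_le_card_nsmul _ _ _ hb'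
  rw [← hAB] at h2
  rw [nsmul_eq_mul] at h1 h2
  have h3 : (0 : ℤ) < A.card := by exact_mod_cast hA.card_pos
  by_contra hcon
  push Not at hcon
  nlinarith

lemma interp {ι : Type*} [Fintype ι] [DecidableEq ι] (a b : ι → ℤ) (R : ℤ) (hR0 : 0 ≤ R)
    (hR : ∀ i, |a i - b i| ≤ R) (ha : 0 ≤ ∑ i, a i) (hb : ∑ i, b i ≤ 0) :
    ∃ J : Finset ι, 2 * |∑ i, (if i ∈ J then a i else b i)| ≤ R := by
  obtain ⟨J, hJ, hJmin⟩ := exists_min_image
    (univ.filter fun J : Finset ι => 0 ≤ ∑ i, (if i ∈ J then a i else b i)) card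
    ⟨univ, by simpa using ha⟩
  simp only [mem_filter, mem_univ, true_and] at hJ hJmin
  by_cases h2 : 2 * (∑ i, (if i ∈ J then a i else b i)) ≤ R
  · exact ⟨J, by rwa [abs_of_nonneg hJ]⟩
  · have hne : J.Nonempty := by
      rw [nonempty_iff_ne_empty]
      rintro rfl
      simp only [notMem_empty, if_false] at h2
      omega
    obtain ⟨i, hi⟩ := hne
    have hdiff : ∑ k, (if k ∈ J then a k else b k) - ∑ k, (if k ∈ J.erase i then a k else b k) =
        a i - b i := by
      rw [← sum_sub_distrib, Fintype.sum_eq_single i]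
      · simp [hi]
      · intro k hk
        simp [hk]
    have hneg : ∑ k, (if k ∈ J.erase i then a k else b k) < 0 := by
      by_contra hcon
      push Not at hcon
      have := hJmin _ hcon
      rw [card_erase_of_mem hi] at this
      have := card_pos.2 ⟨i, hi⟩
      omega
    refine ⟨J.erase i, ?_⟩
    rw [abs_of_neg hneg]
    have := (abs_le.1 (hR i)).2
    push Not at h2
    linarith

lemma card_support {x z : V} {p : G.Walk x z} (hp : p.IsPath) :
    (univ.filter fun u => u ∈ p.support).card = p.length + 1 := by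
  rw [← p.length_support, ← List.toFinset_card_of_nodup hp.support_nodup]
  congr 1
  ext u; simp

lemma dl_parity (cl : V → Bool) {x z : V} {p : G.Walk x z} (hp : p.IsPath) :
    Even (dl cl p - (p.length + 1 : ℕ)) := by
  rw [← card_support hp, card_filter]
  push_cast
  rw [dl, ← sum_sub_distrib]
  refine Finset.even_sum _ fun u _ => ?_
  by_cases hu : u ∈ p.support <;> cases cl u <;> simp [hu, sg]

lemma dl_diff (cl : V → Bool) {x z : V} (hxz : x ≠ z) {p q : G.Walk x z} (hp : p.IsPath)
    (hq : q.IsPath) {n : ℕ} (hpn : p.length ≤ n) (hqn : q.length ≤ n) :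
    |dl cl p - dl cl q| ≤ 2 * (n : ℤ) - 2 := by
  have hin : ∀ w : G.Walk x z, w.IsPath →
      ((univ.filter fun u => u ∈ w.support ∧ u ≠ x ∧ u ≠ z).card : ℤ) = w.length - 1 := by
    intro w hw
    have h1 := card_support hw
    have h2 : (univ.filter fun u => u ∈ w.support) =
        insert x (insert z (univ.filter fun u => u ∈ w.support ∧ u ≠ x ∧ u ≠ z)) := by
      ext u
      simp only [mem_filter, mem_univ, true_and, mem_insert]
      by_cases h3 : u = x
      · subst h3; simp
      · by_cases h4 : u = z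
        · subst h4; simp
        · simp [h3, h4]
    rw [h2, card_insert_of_notMem (by simp [hxz]), card_insert_of_notMem (by simp)] at h1
    have : (univ.filter fun u => u ∈ w.support ∧ u ≠ x ∧ u ≠ z).card + 1 = w.length := by omega
    rw [← this]; push_cast; ring
  have h1 : dl cl p - dl cl q = ∑ u : V, ((if u ∈ p.support then sg (cl u) else 0) -
      (if u ∈ q.support then sg (cl u) else 0)) := by rw [dl, dl, sum_sub_distrib]
  have h2 : |dl cl p - dl cl q| ≤ ∑ u : V,
      ((if u ∈ p.support ∧ u ≠ x ∧ u ≠ z then (1 : ℤ) else 0) +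
        (if u ∈ q.support ∧ u ≠ x ∧ u ≠ z then (1 : ℤ) else 0)) := by
    rw [h1]
    refine (abs_sum_le_sum_abs _ _).trans (sum_le_sum fun u _ => ?_)
    by_cases h3 : u = x
    · subst h3; simp
    · by_cases h4 : u = z
      · subst h4; simp
      · by_cases h5 : u ∈ p.support <;> by_cases h6 : u ∈ q.support <;> cases cl u <;>
          simp [h3, h4, h5, h6, sg]
  rw [sum_add_distrib, ← Nat.cast_one, ← Nat.cast_zero] at h2
  have h3 := hin p hp
  have h4 := hin q hq
  rw [card_filter] at h3 h4
  push_cast at h2 h3 h4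
  rw [h3, h4] at h2
  have e1 : (p.length : ℤ) ≤ n := by exact_mod_cast hpn
  have e2 : (q.length : ℤ) ≤ n := by exact_mod_cast hqn
  linarith

omit [Fintype V] [DecidableEq V] in
/-- points of a geodesic -/
lemma geod {x w u : V} {p : G.Walk x w} (hG : G.Connected) (hp : p.length = G.dist x w)
    (hu : u ∈ p.support) : ∃ i ≤ p.length, p.getVert i = u ∧ G.dist x u = i ∧
      G.dist u w = p.length - i := by
  obtain ⟨i, hi, hil⟩ := SimpleGraph.Walk.mem_support_iff_exists_getVert.1 hu
  refine ⟨i, hil, hi, ?_⟩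
  have e1 : G.dist x u ≤ i := by
    have := SimpleGraph.dist_le (p.take i)
    rw [SimpleGraph.Walk.take_length, hi] at this
    exact this.trans (min_le_left _ _)
  have e2 : G.dist u w ≤ p.length - i := by
    have := SimpleGraph.dist_le (p.drop i)
    rw [SimpleGraph.Walk.drop_length, hi] at this
    exact this
  have e3 : G.dist x w ≤ G.dist x u + G.dist u w := hG.dist_triangle
  omega

/-- one toggle inside the class `b'` at a root of the other class -/
lemma toggle (hG : G.Connected) (cl : V → Bool) (hin : ∀ v, ∃ a b, a ≠ b ∧ G.Adj v a ∧ G.Adj v b ∧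
      cl a = cl v ∧ cl b = cl v) {x : V} (F : ∀ z, G.Walk x z)
    (hF : ∀ z, (F z).length = G.dist x z) (b' : Bool) (hx : cl x ≠ b') (hb : ∃ v, cl v = b') :
    ∃ F' : ∀ z, G.Walk x z, (∀ z, (F' z).IsPath) ∧
      ∑ z : V, (if x = z then 0 else dl cl (F' z)) =
        ∑ z : V, (if x = z then 0 else dl cl (F z)) + 2 * sg b' := by
  have hFp : ∀ z, (F z).IsPath := fun z => (F z).isPath_of_length_eq_dist (hF z)
  obtain ⟨v, hv⟩ := hb
  obtain ⟨w, hw, hmax⟩ := exists_max_image (univ.filter fun v => cl v = b') (fun v => G.dist x v)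
    ⟨v, by simp [hv]⟩
  simp only [mem_filter, mem_univ, true_and] at hw hmax
  -- a neighbour in the class which is not the last but one vertex of the path
  have hu : ∃ u, G.Adj u w ∧ cl u = b' ∧ u ≠ (F w).getVert ((F w).length - 1) := by
    obtain ⟨a, b, hab, ha, hb, hca, hcb⟩ := hin w
    by_cases h : a = (F w).getVert ((F w).length - 1)
    · exact ⟨b, hb.symm, by rw [hcb, hw], fun h' => hab (by rw [h, h'])⟩
    · exact ⟨a, ha.symm, by rw [hca, hw], h⟩
  obtain ⟨u, huw, hcu, hul⟩ := hu
  have hux : x ≠ u := fun h => hx (by rw [h]; exact hcu)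
  have hwx : x ≠ w := fun h => hx (by rw [h]; exact hw)
  have hle : G.dist x u ≤ G.dist x w := hmax u hcu
  have hu1 : G.dist u w = 1 := SimpleGraph.dist_eq_one_iff_adj.2 huw
  have h1 : u ∉ (F w).support := by
    intro h
    obtain ⟨i, hi, hgi, -, h2⟩ := geod hG (hF w) h
    apply hul
    rw [← hgi]
    congr 1
    omega
  have h2 : w ∉ (F u).support := by
    intro h
    obtain ⟨i, hi, -, h3, h4⟩ := geod hG (hF u) h
    have h5 : G.dist w u = 1 := SimpleGraph.dist_eq_one_iff_adj.2 huw.symm
    have h6 := hF u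
    omega
  let A : G.Walk x u := (F w).concat huw.symm
  let B : G.Walk x w := (F u).concat huw
  let F' : ∀ z, G.Walk x z := Function.update (Function.update F u A) w B
  have hne : u ≠ w := huw.ne
  have eu : F' u = A := by
    simp only [F']
    rw [Function.update_of_ne hne, Function.update_self]
  have ew : F' w = B := by
    simp only [F']
    rw [Function.update_self]
  have eo : ∀ z, z ≠ u → z ≠ w → F' z = F z := by
    intro z hz hz'
    simp only [F']
    rw [Function.update_of_ne hz', Function.update_of_ne hz]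
  have hA : dl cl A = dl cl (F w) + sg b' := by
    have : ∑ z : V, ((if z ∈ A.support then sg (cl z) else 0) -
        (if z ∈ (F w).support then sg (cl z) else 0)) = sg b' := by
      rw [Fintype.sum_eq_single u]
      · simp [A, SimpleGraph.Walk.support_concat, h1, hcu]
      · intro z hz
        simp [A, SimpleGraph.Walk.support_concat, hz]
    rw [sum_sub_distrib] at this
    rw [dl, dl]
    linarith
  have hB : dl cl B = dl cl (F u) + sg b' := by
    have : ∑ z : V, ((if z ∈ B.support then sg (cl z) else 0) -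
        (if z ∈ (F u).support then sg (cl z) else 0)) = sg b' := by
      rw [Fintype.sum_eq_single w]
      · simp [B, SimpleGraph.Walk.support_concat, h2, hw]
      · intro z hz
        simp [B, SimpleGraph.Walk.support_concat, hz]
    rw [sum_sub_distrib] at this
    rw [dl, dl]
    linarith
  refine ⟨F', ?_, ?_⟩
  · intro z
    by_cases hz : z = u
    · subst hz; rw [eu]; exact (hFp w).concat h1 _
    · by_cases hz' : z = w
      · subst hz'; rw [ew]; exact (hFp u).concat h2 _
      · rw [eo z hz hz']; exact hFp z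
  · have : ∑ z : V, ((if x = z then 0 else dl cl (F' z)) - (if x = z then 0 else dl cl (F z))) =
        ((if x = u then 0 else dl cl (F' u)) - (if x = u then 0 else dl cl (F u))) +
        ((if x = w then 0 else dl cl (F' w)) - (if x = w then 0 else dl cl (F w))) := by
      apply Fintype.sum_eq_add _ _ hne
      rintro z ⟨hz, hz'⟩
      rw [eo z hz hz']
      ring
    rw [sum_sub_distrib, if_neg hux, if_neg hux, if_neg hwx, if_neg hwx, eu, ew, hA, hB] at this
    linarith

/-- Two classes of the same size on which a set of automorphisms acts sharply transitively. -/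
theorem hasUPS_of_two_orbits (hG : G.Connected) (hT : VT G) (S : Set (G ≃g G)) (cl : V → Bool)
    (hcl : ∀ t ∈ S, ∀ v, cl (t v) = cl v)
    (hS : ∀ u v : V, cl u = cl v → ∃! t : G ≃g G, t ∈ S ∧ t u = v)
    (hcard : ∑ v : V, sg (cl v) = 0)
    (hin : ∀ v, ∃ a b, a ≠ b ∧ G.Adj v a ∧ G.Adj v b ∧ cl a = cl v ∧ cl b = cl v)
    (hD : ∀ x y, G.dist x y ≤ 4) : HasUPS G := by
  classical
  have : Finite (G ≃g G) :=
    Finite.of_injective (fun φ : G ≃g G => (φ : V → V)) DFunLike.coe_injective
  have : Fintype (G ≃g G) := Fintype.ofFinite _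
  -- both classes are nonempty
  obtain ⟨o⟩ := hG.nonempty
  have hex : ∀ b, ∃ v, cl v = b := by
    intro b
    by_contra hcon
    push Not at hcon
    have h1 : ∀ v, sg (cl v) = sg (!b) := by
      intro v
      have := hcon v
      congr 1
      revert this
      cases cl v <;> cases b <;> simp
    rw [sum_congr rfl fun v _ => h1 v, sum_const, card_univ, nsmul_eq_mul] at hcard
    have h2 : ((Fintype.card V : ℕ) : ℤ) ≠ 0 := by
      have : 0 < Fintype.card V := Fintype.card_pos_iff.2 ⟨o⟩
      exact_mod_cast this.ne'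
    have h3 := (mul_eq_zero.1 hcard).resolve_left h2
    revert h3
    cases b <;> simp [sg]
  choose r hr using hex
  -- geodesic stars at the root `r true`
  have hF : ∀ z : V, ∃ p : G.Walk (r true) z, p.length = G.dist (r true) z := fun z =>
    hG.exists_walk_length_eq_dist _ z
  choose F hF using hF
  -- the two classes of automorphisms
  have hAB : (univ.filter fun φ : G ≃g G => cl (φ (r true)) = true).card =
      (univ.filter fun φ : G ≃g G => cl (φ (r true)) = false).card := by
    have h := sum_sg_aut hT cl hcard (r true)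
    have h1 : ((univ.filter fun φ : G ≃g G => cl (φ (r true)) = true).card : ℤ) -
      (univ.filter fun φ : G ≃g G => cl (φ (r true)) = false).card = 0 := by
      rw [← h, card_filter, card_filter]
      push_cast
      rw [← sum_sub_distrib]
      refine sum_congr rfl fun φ _ => ?_
      cases cl (φ (r true)) <;> simp [sg]
    have h2 := sub_eq_zero.1 h1
    exact_mod_cast h2
  have hAne : (univ.filter fun φ : G ≃g G => cl (φ (r true)) = true).Nonempty :=
    ⟨RelIso.refl _, by simp [hr]⟩
  have hsum : ∑ φ ∈ univ.filter (fun φ : G ≃g G => cl (φ (r true)) = true), en cl F φ +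
      ∑ φ ∈ univ.filter (fun φ : G ≃g G => cl (φ (r true)) = false), en cl F φ = 0 := by
    rw [← sum_en hT cl hcard F, ← sum_filter_add_sum_filter_not univ
      (fun φ : G ≃g G => cl (φ (r true)) = true)]
    simp
  -- a geodesic system with the prescribed energies
  have hsys : ∀ φ ψ : G ≃g G, cl (φ (r true)) = true → cl (ψ (r true)) = false →
      ∃ A : ∀ (i : Bool) (z : V), G.Walk (r i) z,
        (∀ i z, (A i z).length = G.dist (r i) z) ∧
        ∑ i : Bool, ∑ z : V, (if r i = z then 0 else dl cl (A i z)) = en cl F φ + en cl F ψ := by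
    intro φ ψ hφ hψ
    obtain ⟨s, ⟨hsS, hs⟩, -⟩ := hS (φ (r true)) (r true) (by rw [hφ, hr])
    obtain ⟨s', ⟨hsS', hs'⟩, -⟩ := hS (ψ (r true)) (r false) (by rw [hψ, hr])
    obtain ⟨A, hA, hA'⟩ := transport hG cl F hF φ s (hcl s hsS) hs
    obtain ⟨B, hB, hB'⟩ := transport hG cl F hF ψ s' (hcl s' hsS') hs'
    refine ⟨fun i => match i with | true => A | false => B, ?_, ?_⟩
    · rintro (_ | _) z
      · exact hB z
      · exact hA z
    · rw [Fintype.sum_bool, ← hA', ← hB']
  obtain ⟨φ₁, hφ₁, ψ₁, hψ₁, h1⟩ := exists_pair _ _ (en cl F) hAB hAne hsum.ge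
  obtain ⟨φ₂, hφ₂, ψ₂, hψ₂, h2⟩ := exists_pair _ _ (fun φ => - en cl F φ) hAB hAne
    (by rw [sum_neg_distrib, sum_neg_distrib, ← neg_add, hsum, neg_zero])
  simp only [mem_filter, mem_univ, true_and] at hφ₁ hψ₁ hφ₂ hψ₂
  obtain ⟨A, hA, hA'⟩ := hsys φ₁ ψ₁ hφ₁ hψ₁
  obtain ⟨B, hB, hB'⟩ := hsys φ₂ ψ₂ hφ₂ hψ₂
  have hAp : ∀ i z, (A i z).IsPath := fun i z => (A i z).isPath_of_length_eq_dist (hA i z)
  have hBp : ∀ i z, (B i z).IsPath := fun i z => (B i z).isPath_of_length_eq_dist (hB i z)
  -- interpolation
  obtain ⟨J, hJ⟩ := interp (ι := Bool × V)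
    (fun q => if r q.1 = q.2 then 0 else dl cl (A q.1 q.2))
    (fun q => if r q.1 = q.2 then 0 else dl cl (B q.1 q.2)) 6 (by norm_num)
    (by
      rintro ⟨i, z⟩
      dsimp only
      by_cases hz : r i = z
      · simp [hz]
      · rw [if_neg hz, if_neg hz]
        have := dl_diff cl hz (hAp i z) (hBp i z) (n := 4) (by rw [hA]; exact hD _ _)
          (by rw [hB]; exact hD _ _)
        norm_num at this
        exact this)
    (by rw [Fintype.sum_prod_type, hA']; exact h1)
    (by rw [Fintype.sum_prod_type, hB']; linarith)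
  let C : ∀ (i : Bool) (z : V), G.Walk (r i) z := fun i z => if (i, z) ∈ J then A i z else B i z
  have hC : ∀ i z, (C i z).length = G.dist (r i) z := by
    intro i z
    by_cases h : (i, z) ∈ J
    · simp only [C, if_pos h, hA]
    · simp only [C, if_neg h, hB]
  have hCp : ∀ i z, (C i z).IsPath := fun i z => (C i z).isPath_of_length_eq_dist (hC i z)
  have hCJ : 2 * |∑ i : Bool, ∑ z : V, (if r i = z then 0 else dl cl (C i z))| ≤ 6 := by
    rw [← Fintype.sum_prod_type (fun q : Bool × V => if r q.1 = q.2 then 0 else dl cl (C q.1 q.2))]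
    refine le_trans (le_of_eq ?_) hJ
    congr 2
    refine sum_congr rfl ?_
    rintro ⟨i, z⟩ _
    dsimp only [C]
    by_cases h : (i, z) ∈ J <;> simp [h]
  -- parity
  have hpar : Even (∑ i : Bool, ∑ z : V, (if r i = z then 0 else dl cl (C i z))) := by
    have e1 : ∀ i, Even (∑ z : V, (if r i = z then 0 else dl cl (C i z)) -
        ∑ z : V, (if r i = z then 0 else ((G.dist (r i) z + 1 : ℕ) : ℤ))) := by
      intro i
      rw [← sum_sub_distrib]
      refine Finset.even_sum _ fun z _ => ?_
      by_cases hz : r i = z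
      · simp [hz]
      · rw [if_neg hz, if_neg hz, ← hC]
        exact dl_parity cl (hCp i z)
    have e2 : ∑ z : V, (if r true = z then 0 else ((G.dist (r true) z + 1 : ℕ) : ℤ)) =
        ∑ z : V, (if r false = z then 0 else ((G.dist (r false) z + 1 : ℕ) : ℤ)) := by
      obtain ⟨φ, hφ⟩ := hT (r true) (r false)
      rw [← Equiv.sum_comp φ.toEquiv
        (fun z => if r false = z then 0 else ((G.dist (r false) z + 1 : ℕ) : ℤ))]
      refine sum_congr rfl fun z _ => ?_
      have e3 : (r false = φ.toEquiv z) ↔ r true = z := by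
        rw [← hφ]; exact φ.injective.eq_iff
      have e4 : G.dist (r false) (φ.toEquiv z) = G.dist (r true) z := by
        rw [← hφ]; exact dist_iso hG φ _ _
      rw [e4]
      by_cases hz : r true = z
      · rw [if_pos hz, if_pos (e3.2 hz)]
      · rw [if_neg hz, if_neg (fun h => hz (e3.1 h))]
    have e5 := (e1 true).add (e1 false)
    rw [Fintype.sum_bool]
    rw [e2] at e5
    have e6 : Even (2 * ∑ z : V, (if r false = z then 0 else ((G.dist (r false) z + 1 : ℕ) : ℤ))) :=
      even_two_mul _
    have e7 := e5.add e6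
    have key : ∀ a b c : ℤ, Even (a - c + (b - c) + 2 * c) → Even (a + b) := by
      intro a b c h
      have : a + b = a - c + (b - c) + 2 * c := by ring
      rwa [this]
    exact key _ _ _ e7
  -- the three cases
  have hthree : (∑ i : Bool, ∑ z : V, (if r i = z then 0 else dl cl (C i z))) = 0 ∨
      (∑ i : Bool, ∑ z : V, (if r i = z then 0 else dl cl (C i z))) = 2 ∨
      (∑ i : Bool, ∑ z : V, (if r i = z then 0 else dl cl (C i z))) = -2 := by
    generalize (∑ i : Bool, ∑ z : V, (if r i = z then 0 else dl cl (C i z))) = t at *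
    obtain ⟨k, hk⟩ := hpar
    have h3 : |t| ≤ 3 := by linarith
    rw [abs_le] at h3
    omega
  have hfin : ∀ C' : ∀ (i : Bool) (z : V), G.Walk (r i) z, (∀ i z, (C' i z).IsPath) →
      ∑ i : Bool, ∑ z : V, (if r i = z then 0 else dl cl (C' i z)) = 0 → HasUPS G :=
    fun C' hC' h => hasUPS_of_balance S cl r hr hcl hS C' (fun i z _ => hC' i z) h
  rcases hthree with h0 | h0 | h0
  · exact hfin C hCp h0
  · obtain ⟨F', hF', hF''⟩ := toggle hG cl hin (C true) (hC true) false (by rw [hr]; simp)
      ⟨r false, hr _⟩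
    refine hfin (fun i => match i with | true => F' | false => C false) ?_ ?_
    · rintro (_ | _) z
      · exact hCp false z
      · exact hF' z
    · rw [Fintype.sum_bool] at h0 ⊢
      dsimp only
      rw [hF'']
      simp only [sg]
      norm_num
      linarith
  · obtain ⟨F', hF', hF''⟩ := toggle hG cl hin (C false) (hC false) true (by rw [hr]; simp)
      ⟨r true, hr _⟩
    refine hfin (fun i => match i with | true => C true | false => F') ?_ ?_
    · rintro (_ | _) z
      · exact hF' z
      · exact hCp true z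
    · rw [Fintype.sum_bool] at h0 ⊢
      dsimp only
      rw [hF'']
      simp only [sg]
      norm_num
      linarith

omit [Fintype V] in
lemma two_fix {A : Finset V} (hA : A.card = 2) (t : V → V) (ht : Function.Injective t)
    (h : ∀ w ∈ A, t w ∈ A) : ∀ w ∈ A, t (t w) = w := by
  obtain ⟨x, y, hxy, rfl⟩ := card_eq_two.1 hA
  intro w hw
  have h1 := h x (by simp)
  have h2 := h y (by simp)
  simp only [mem_insert, mem_singleton] at hw h1 h2
  rcases h1 with h1 | h1
  · have h3 : t y = y := by
      rcases h2 with h2 | h2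
      · exact absurd (ht (h1.trans h2.symm)) hxy
      · exact h2
    rcases hw with rfl | rfl
    · rw [h1, h1]
    · rw [h3, h3]
  · have h3 : t y = x := by
      rcases h2 with h2 | h2
      · exact h2
      · exact absurd (ht (h1.trans h2.symm)) hxy
    rcases hw with rfl | rfl
    · rw [h1, h3]
    · rw [h3, h1]

omit [Fintype V] [DecidableEq V] in
lemma odd_fix (t : G ≃g G) {m : ℕ} (hm : Odd m) (ht : t ^ m = 1) {w : V} (hw : t (t w) = w) :
    t w = w := by
  obtain ⟨k, rfl⟩ := hm
  have h1 : ∀ k : ℕ, (t ^ (2 * k)) w = w := by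
    intro k
    induction k with
    | zero => rfl
    | succ k ih =>
      have e : t ^ (2 * (k + 1)) = t ^ (2 * k) * (t * t) := by
        rw [show 2 * (k + 1) = 2 * k + 2 by ring, pow_add, pow_two]
      rw [e]
      change (t ^ (2 * k)) (t (t w)) = w
      rw [hw, ih]
  have h2 : (t ^ (2 * k + 1)) w = w := by rw [ht]; rfl
  rw [pow_succ'] at h2
  change t ((t ^ (2 * k)) w) = w at h2
  rwa [h1] at h2

/-- `2 p ^ a` vertices, degree four, diameter at most four, not bipartite -/
theorem hasUPS_two_prime_pow [DecidableRel G.Adj] (hG : G.Connected) (hT : VT G) {p a : ℕ}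
    (hp : p.Prime) (hp2 : p ≠ 2) (hcard : Fintype.card V = 2 * p ^ a)
    (hreg : ∀ v, (univ.filter fun w => G.Adj v w).card = 4)
    (hodd : ∃ v : V, ∃ q : G.Walk v v, Odd q.length)
    (hD : ∀ x y, G.dist x y ≤ 4) : HasUPS G := by
  classical
  have := Fact.mk hp
  have : Finite (G ≃g G) :=
    Finite.of_injective (fun φ : G ≃g G => (φ : V → V)) DFunLike.coe_injective
  have : MulAction.IsPretransitive (G ≃g G) V := ⟨fun u v => hT u v⟩
  obtain ⟨P⟩ : Nonempty (Sylow p (G ≃g G)) := inferInstance
  have hdvd : p ^ a ∣ Nat.card V := by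
    rw [Nat.card_eq_fintype_card, hcard]; exact dvd_mul_left _ _
  have hpa : 0 < p ^ a := pow_pos hp.pos a
  have hpodd : ∀ b, Odd (p ^ b) := fun b => (hp.odd_of_ne_two hp2).pow
  -- all orbits have size `p ^ a`
  have hsize : ∀ u : V, (MulAction.orbit P u).ncard = p ^ a := by
    intro u
    obtain ⟨b, hab, hb⟩ := sylow_orbit hdvd P u
    rw [hb]
    congr 1
    have h1 := Set.ncard_le_card (MulAction.orbit P u)
    rw [hb, Nat.card_eq_fintype_card, hcard] at h1
    by_contra hne
    have h2 : p ^ (a + 1) ≤ p ^ b := Nat.pow_le_pow_right hp.pos (by omega)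
    rw [pow_succ] at h2
    have h3 : 3 ≤ p := by
      have := hp.two_le
      omega
    nlinarith
  obtain ⟨x₁⟩ := hG.nonempty
  have hx₂ : ∃ x₂ : V, x₂ ∉ MulAction.orbit P x₁ := by
    by_contra hcon
    push Not at hcon
    have h1 : MulAction.orbit P x₁ = Set.univ := Set.eq_univ_of_forall hcon
    have h2 := hsize x₁
    rw [h1, Set.ncard_univ, Nat.card_eq_fintype_card, hcard] at h2
    omega
  obtain ⟨x₂, hx₂⟩ := hx₂
  have hdis : ∀ w w' : V, w' ∉ MulAction.orbit P w →
      Disjoint (MulAction.orbit P w) (MulAction.orbit P w') := by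
    intro w w' h
    rw [Set.disjoint_left]
    intro z hz hz'
    apply h
    rw [← MulAction.orbit_eq_iff] at hz hz' ⊢
    rw [← hz', hz]
  have hcompl : ∀ v : V, v ∉ MulAction.orbit P x₁ → v ∈ MulAction.orbit P x₂ := by
    intro v hv
    by_contra hcon
    have e1 := Set.ncard_union_eq (hdis _ _ hx₂) (Set.toFinite _) (Set.toFinite _)
    have e2 := Set.ncard_union_eq (s := MulAction.orbit P x₁ ∪ MulAction.orbit P x₂)
      (t := MulAction.orbit P v) (Set.disjoint_union_left.2 ⟨hdis _ _ hv, hdis _ _ hcon⟩)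
      (Set.toFinite _) (Set.toFinite _)
    have e3 := Set.ncard_le_card (MulAction.orbit P x₁ ∪ MulAction.orbit P x₂ ∪
      MulAction.orbit P v)
    rw [e2, e1, hsize, hsize, hsize, Nat.card_eq_fintype_card, hcard] at e3
    omega
  -- the classes
  let cl : V → Bool := fun v => decide (v ∈ MulAction.orbit P x₁)
  have hclt : ∀ v : V, cl v = true ↔ v ∈ MulAction.orbit P x₁ := fun v => by simp [cl]
  have hclf : ∀ v : V, cl v = false ↔ v ∉ MulAction.orbit P x₁ := fun v => by simp [cl]
  have hsame : ∀ u v, cl u = cl v → ∃ t ∈ (P : Subgroup (G ≃g G)), t u = v := by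
    intro u v huv
    have h1 : v ∈ MulAction.orbit P u := by
      cases h : cl v
      · rw [h] at huv
        have e1 := hcompl u ((hclf u).1 huv)
        have e2 := hcompl v ((hclf v).1 h)
        rw [← MulAction.orbit_eq_iff] at e1 e2 ⊢
        rw [e1, e2]
      · rw [h] at huv
        have e1 := (hclt u).1 huv
        have e2 := (hclt v).1 h
        rw [← MulAction.orbit_eq_iff] at e1 e2 ⊢
        rw [e1, e2]
    obtain ⟨g, hg⟩ := h1
    exact ⟨g, g.2, hg⟩
  have hcl : ∀ t ∈ (P : Subgroup (G ≃g G)), ∀ v, cl (t v) = cl v := by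
    intro t ht v
    have h1 : t v ∈ MulAction.orbit P v := ⟨⟨t, ht⟩, rfl⟩
    have h2 : MulAction.orbit P (t v) = MulAction.orbit P v := MulAction.orbit_eq_iff.2 h1
    have h3 : t v ∈ MulAction.orbit P x₁ ↔ v ∈ MulAction.orbit P x₁ := by
      rw [← MulAction.orbit_eq_iff (G := P), ← MulAction.orbit_eq_iff (G := P), h2]
    simp only [cl, h3]
  -- class sizes
  have hct : (univ.filter fun v => cl v = true).card = p ^ a := by
    rw [← hsize x₁, Set.ncard_eq_toFinset_card' ]
    congr 1
    ext v
    simp [hclt]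
  have hcf : (univ.filter fun v => cl v = false).card = p ^ a := by
    have h := card_filter_add_card_filter_not (s := (univ : Finset V)) (fun v => cl v = true)
    rw [hct, card_univ, hcard] at h
    simp only [Bool.not_eq_true] at h
    omega
  have hcb : ∀ b, (univ.filter fun v => cl v = b).card = p ^ a := by
    intro b; cases b
    · exact hcf
    · exact hct
  have hsum : ∑ v : V, sg (cl v) = 0 := by
    have h1 : ∑ v : V, sg (cl v) = ∑ v : V, ((if cl v = true then (1 : ℤ) else 0) -
        (if cl v = false then (1 : ℤ) else 0)) := by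
      refine sum_congr rfl fun v _ => ?_
      cases cl v <;> simp [sg]
    rw [h1, sum_sub_distrib]
    have h2 := hcb true
    have h3 := hcb false
    rw [card_filter] at h2 h3
    have h4 : ((∑ v : V, (if cl v = true then 1 else 0) : ℕ) : ℤ) =
        ((∑ v : V, (if cl v = false then 1 else 0) : ℕ) : ℤ) := by rw [h2, h3]
    push_cast at h4
    rw [h4, sub_self]
  -- the inner degree
  let k : V → ℕ := fun v => (univ.filter fun w => G.Adj v w ∧ cl w = cl v).card
  have hk : ∀ u v, cl u = cl v → k u = k v := by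
    intro u v huv
    obtain ⟨t, htP, rfl⟩ := hsame u v huv
    refine card_bij (fun w _ => t w) ?_ ?_ ?_
    · intro w hw
      simp only [mem_filter, mem_univ, true_and] at hw ⊢
      exact ⟨t.map_adj_iff.2 hw.1, by rw [hcl t htP, hcl t htP]; exact hw.2⟩
    · intro w _ w' _ h
      exact t.injective h
    · intro w hw
      simp only [mem_filter, mem_univ, true_and] at hw
      refine ⟨t.symm w, ?_, t.apply_symm_apply w⟩
      simp only [mem_filter, mem_univ, true_and]
      constructor
      · rw [← t.map_adj_iff, t.apply_symm_apply]; exact hw.1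
      · rw [← hcl t htP (t.symm w), t.apply_symm_apply, hw.2, hcl t htP]
  have hko : ∀ v, (univ.filter fun w => G.Adj v w ∧ cl w ≠ cl v).card + k v = 4 := by
    intro v
    rw [← hreg v, ← card_filter_add_card_filter_not (s := univ.filter fun w => G.Adj v w)
      (fun w => cl w = cl v), filter_filter, filter_filter, add_comm]
  -- inner degrees are even
  have heven : ∀ v, Even (k v) := by
    intro v
    have h1 : Even ((univ.filter fun q : V × V => cl q.1 = cl v ∧ cl q.2 = cl v ∧
        G.Adj q.1 q.2).card) := by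
      have h : (((univ.filter fun q : V × V => cl q.1 = cl v ∧ cl q.2 = cl v ∧
          G.Adj q.1 q.2).card : ℕ) : ZMod 2) = 0 := by
        have := Finset.sum_involution (s := univ.filter fun q : V × V => cl q.1 = cl v ∧
          cl q.2 = cl v ∧ G.Adj q.1 q.2) (f := fun _ => (1 : ZMod 2))
          (fun q _ => (q.2, q.1)) (fun q _ => by decide)
          (fun q hq _ h => by
            simp only [mem_filter, mem_univ, true_and] at hq
            exact hq.2.2.ne (congrArg Prod.fst h).symm)
          (fun q hq => by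
            simp only [mem_filter, mem_univ, true_and] at hq ⊢
            exact ⟨hq.2.1, hq.1, hq.2.2.symm⟩) (fun q _ => rfl)
        simpa using this
      rwa [ZMod.natCast_eq_zero_iff_even] at h
    have h2 : (univ.filter fun q : V × V => cl q.1 = cl v ∧ cl q.2 = cl v ∧
        G.Adj q.1 q.2).card = p ^ a * k v := by
      rw [card_filter, Fintype.sum_prod_type, ← hcb (cl v), card_filter, sum_mul]
      refine sum_congr rfl fun u _ => ?_
      by_cases hu : cl u = cl v
      · rw [if_pos hu, one_mul, ← hk u v hu]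
        simp only [k]
        rw [card_filter]
        refine sum_congr rfl fun w _ => ?_
        simp only [hu, true_and]
        congr 1
        rw [eq_iff_iff]
        exact and_comm
      · simp [hu]
    rw [h2, Nat.even_mul] at h1
    rcases h1 with h1 | h1
    · exact absurd (hpodd a) (Nat.not_odd_iff_even.2 h1)
    · exact h1
  -- both classes have the same inner degree
  have hkall : ∀ u v, k u = k v := by
    intro u v
    by_cases huv : cl u = cl v
    · exact hk u v huv
    have h1 : ∑ w ∈ univ.filter (fun w => cl w = cl u), (4 - k w) =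
        ∑ w ∈ univ.filter (fun w => cl w = cl v), (4 - k w) := by
      have h2 : ∀ w, 4 - k w = ∑ z : V, if G.Adj w z ∧ cl z ≠ cl w then 1 else 0 := by
        intro w
        rw [← card_filter]
        have := hko w
        omega
      rw [sum_congr rfl fun w _ => h2 w, sum_congr rfl fun w _ => h2 w, sum_filter, sum_filter]
      have h3 : ∀ b : Bool, (∑ w : V, if cl w = b then
          ∑ z : V, (if G.Adj w z ∧ cl z ≠ cl w then 1 else 0) else 0) =
          ∑ w : V, ∑ z : V, if G.Adj w z ∧ cl w = b ∧ cl z = !b then 1 else 0 := by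
        intro b
        refine sum_congr rfl fun w _ => ?_
        by_cases hw : cl w = b
        · rw [if_pos hw]
          refine sum_congr rfl fun z _ => ?_
          have : (cl z ≠ b) ↔ cl z = !b := by
            cases cl z <;> cases b <;> simp
          simp only [hw, true_and, this]
        · simp [hw]
      rw [h3, h3, sum_comm]
      have h4 : cl v = !(cl u) := by
        revert huv
        cases cl u <;> cases cl v <;> simp
      refine sum_congr rfl fun w _ => sum_congr rfl fun z _ => ?_
      rw [h4, Bool.not_not]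
      congr 1
      rw [eq_iff_iff, G.adj_comm]
      constructor
      · rintro ⟨h5, h6, h7⟩; exact ⟨h5, h7, h6⟩
      · rintro ⟨h5, h6, h7⟩; exact ⟨h5, h7, h6⟩
    have h2 : ∀ z, ∑ w ∈ univ.filter (fun w => cl w = cl z), (4 - k w) = p ^ a * (4 - k z) := by
      intro z
      rw [← hcb (cl z), ← smul_eq_mul, ← sum_const]
      refine sum_congr rfl fun w hw => ?_
      simp only [mem_filter, mem_univ, true_and] at hw
      rw [hk w z hw]
    rw [h2, h2] at h1
    have h3 := Nat.eq_of_mul_eq_mul_left hpa h1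
    have h4 := hko u
    have h5 := hko v
    omega
  -- a walk from `x₁`
  have hk2 : ∀ v, k v = 2 := by
    intro v
    have h1 := heven v
    have h2 := hko v
    have h3 : k v ≠ 4 := by
      intro h4
      have h5 : ∀ u w, G.Adj u w → cl w = cl u := by
        intro u w huw
        by_contra hcon
        have h6 := hko u
        rw [hkall u v, h4] at h6
        have h7 : 0 < (univ.filter fun w => G.Adj u w ∧ cl w ≠ cl u).card :=
          card_pos.2 ⟨w, by simp [huw, hcon]⟩
        omega
      have h6 : ∀ u w : V, G.Walk u w → cl u = cl w := by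
        intro u w q
        induction q with
        | nil => rfl
        | cons h _ ih => rw [← ih, h5 _ _ h]
      obtain ⟨q⟩ := hG.preconnected x₁ x₂
      have h7 := h6 _ _ q
      rw [(hclt x₁).2 (MulAction.mem_orbit_self x₁), (hclf x₂).2 hx₂] at h7
      exact absurd h7 (by simp)
    have h4 : k v ≠ 0 := by
      intro h4
      have h5 : ∀ u w, G.Adj u w → cl w = !(cl u) := by
        intro u w huw
        by_contra hcon
        have h8 : cl w = cl u := by
          revert hcon
          cases cl u <;> cases cl w <;> simp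
        have h7 : 0 < k u := card_pos.2 ⟨w, by simp [huw, h8]⟩
        rw [hkall u v] at h7
        omega
      have h6 : ∀ (u w : V) (q : G.Walk u w), (cl u = cl w ↔ Even q.length) := by
        intro u w q
        induction q with
        | nil => simp
        | cons h q ih =>
          rw [SimpleGraph.Walk.length_cons, Nat.even_add_one, ← ih, h5 _ _ h]
          generalize cl _ = s
          generalize cl _ = t
          cases s <;> cases t <;> simp
      obtain ⟨u, q, hq⟩ := hodd
      have := (h6 u u q).1 rfl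
      exact (Nat.not_even_iff_odd.2 hq) this
    obtain ⟨j, hj⟩ := h1
    omega
  have hin : ∀ v, ∃ a b, a ≠ b ∧ G.Adj v a ∧ G.Adj v b ∧ cl a = cl v ∧ cl b = cl v := by
    intro v
    obtain ⟨a, b, hab, h⟩ := card_eq_two.1 (hk2 v)
    have ha : a ∈ univ.filter fun w => G.Adj v w ∧ cl w = cl v := by rw [h]; simp
    have hb : b ∈ univ.filter fun w => G.Adj v w ∧ cl w = cl v := by rw [h]; simp
    simp only [mem_filter, mem_univ, true_and] at ha hb
    exact ⟨a, b, hab, ha.1, hb.1, ha.2, hb.2⟩
  -- the Sylow subgroup acts freely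
  have hfree : ∀ t ∈ (P : Subgroup (G ≃g G)), ∀ v, t v = v → ∀ w, t w = w := by
    intro t ht v hv w
    obtain ⟨j, hj⟩ := P.isPGroup' ⟨t, ht⟩
    have hj' : t ^ (p ^ j) = 1 := by
      have := congrArg Subtype.val hj
      simpa using this
    have hstep : ∀ u, t u = u → ∀ w, G.Adj u w → t w = w := by
      intro u hu w huw
      apply odd_fix t (hpodd j) hj'
      by_cases hc : cl w = cl u
      · refine two_fix (hk2 u) t t.injective ?_ w (by simp [huw, hc])
        intro z hz
        simp only [mem_filter, mem_univ, true_and] at hz ⊢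
        refine ⟨?_, by rw [hcl t ht]; exact hz.2⟩
        rw [← hu]
        exact t.map_adj_iff.2 hz.1
      · have h2 : (univ.filter fun w => G.Adj u w ∧ cl w ≠ cl u).card = 2 := by
          have h3 := hko u
          rw [hk2 u] at h3
          omega
        refine two_fix h2 t t.injective ?_ w (by simp [huw, hc])
        intro z hz
        simp only [mem_filter, mem_univ, true_and] at hz ⊢
        refine ⟨?_, by rw [hcl t ht]; exact hz.2⟩
        rw [← hu]
        exact t.map_adj_iff.2 hz.1
    obtain ⟨q⟩ := hG.preconnected v w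
    induction q with
    | nil => exact hv
    | cons h _ ih => exact ih (hstep _ hv _ h)
  refine hasUPS_of_two_orbits hG hT ((P : Subgroup (G ≃g G)) : Set (G ≃g G)) cl hcl ?_ hsum hin hD
  intro u v huv
  obtain ⟨t, ht, htu⟩ := hsame u v huv
  refine ⟨t, ⟨ht, htu⟩, ?_⟩
  rintro t' ⟨ht', ht'u⟩
  have h1 : (t⁻¹ * t') ∈ (P : Subgroup (G ≃g G)) := mul_mem (inv_mem ht) ht'
  have h2 : (t⁻¹ * t') u = u := by
    change t.symm (t' u) = u
    rw [ht'u, ← htu]
    exact t.symm_apply_apply u
  have h3 := hfree _ h1 u h2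
  ext w
  have h4 := h3 w
  change t.symm (t' w) = w at h4
  rw [← h4, t.apply_symm_apply, h4]

end TwoOrb

end Pool.Agent.UPS
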