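import Pool.Agent.Lib.MP_876e19_co_ups.RowsPM

/-!
# Two stages of toggles without parity loss (MP_876e19_co, helper91)

`split_ratio` : a Hall function is a sum of two Hall functions in any given ratio,
`two_stage` : a path system whose loads are completed by `D + 2`, `D` a Hall function with even sum
and `D v + 4 ≤ a₁ + a₂`, gives a uniform path system.
-/

set_option autoImplicit false

open Finset

namespace Pool.Agent.UPS2

namespace PM

open HTutte UPS3 EC UPS UPS.TS

section split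

variable {V : Type*} [Fintype V] [DecidableEq V]

omit [DecidableEq V] in
/-- arc weights with equal in- and out-sums give Hall's condition -/
theorem hall_of_arcs' (G : SimpleGraph V) (f : V → ℕ) (k : V → V → ℕ)
    (hk : ∀ v w, k v w ≠ 0 → G.Adj v w) (h1 : ∀ v, ∑ w, k v w = f v)
    (h2 : ∀ w, ∑ v, k v w = f w) (U : Finset V) : ∑ v ∈ U, f v ≤ ∑ v ∈ nb G U, f v := by
  classical
  have e1 : ∑ v ∈ U, f v = ∑ v ∈ U, ∑ w ∈ nb G U, k v w := by
    refine Finset.sum_congr rfl fun v hv => ?_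
    rw [← h1 v]
    symm
    refine Finset.sum_subset (Finset.subset_univ _) fun w _ hw => ?_
    by_contra h
    apply hw
    unfold nb
    simp only [mem_filter, mem_univ, true_and]
    exact ⟨v, hv, hk v w h⟩
  rw [e1, Finset.sum_comm]
  refine Finset.sum_le_sum fun w _ => ?_
  rw [← h2 w]
  exact Finset.sum_le_sum_of_subset (Finset.subset_univ _)

/-- **Splitting in a given ratio.** -/
theorem split_ratio (G : SimpleGraph V) (f : V → ℕ)
    (hH : ∀ U : Finset V, ∑ v ∈ U, f v ≤ ∑ v ∈ nb G U, f v) (ρ : ℝ) (hρ0 : 0 ≤ ρ) (hρ1 : ρ ≤ 1) :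
    ∃ f₁ f₂ : V → ℕ, (∀ v, f₁ v + f₂ v = f v) ∧ (∀ v, (f₁ v : ℤ) ≤ ⌈ρ * f v⌉) ∧
      (∀ v, (f₂ v : ℤ) ≤ ⌈(1 - ρ) * f v⌉) ∧
      (∀ U : Finset V, ∑ v ∈ U, f₁ v ≤ ∑ v ∈ nb G U, f₁ v) ∧
      (∀ U : Finset V, ∑ v ∈ U, f₂ v ≤ ∑ v ∈ nb G U, f₂ v) := by
  classical
  obtain ⟨k, hk, hr, hc⟩ := arcs G f hH
  have hkd : ∀ v, k v v = 0 := fun v => by
    by_contra h
    exact (hk v v h).ne rfl
  let o : V → ℝ := fun v => (⌈ρ * f v⌉ : ℝ) - ρ * f v
  have ho0 : ∀ v, 0 ≤ o v := fun v => sub_nonneg.2 (Int.le_ceil _)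
  have ho1 : ∀ v, o v < 1 := fun v => by
    have := Int.ceil_lt_add_one (ρ * f v)
    simp only [o]
    linarith
  let m : V → V → ℝ := fun v w => ρ * k v w + if v = w then o v else 0
  have hmr : ∀ v, ∑ w, m v w = ((⌈ρ * f v⌉ : ℤ) : ℝ) := fun v => by
    simp only [m]
    rw [Finset.sum_add_distrib, ← Finset.mul_sum, ← Nat.cast_sum, hr v]
    simp only [Finset.sum_ite_eq, mem_univ, if_true, o]
    ring
  have hmc : ∀ w, ∑ v, m v w = ((⌈ρ * f w⌉ : ℤ) : ℝ) := fun w => by
    simp only [m]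
    rw [Finset.sum_add_distrib, ← Finset.mul_sum, ← Nat.cast_sum, hc w]
    simp only [Finset.sum_ite_eq', mem_univ, if_true, o]
    ring
  obtain ⟨g, hg, hgr, hgc⟩ := bip_round m
  have hrow : ∀ v, ∑ w, g v w = ⌈ρ * f v⌉ := fun v => by
    have h2 := hgr v
    rw [hmr v, Int.floor_intCast, Int.ceil_intCast] at h2
    exact le_antisymm h2.2 h2.1
  have hcol : ∀ w, ∑ v, g v w = ⌈ρ * f w⌉ := fun w => by
    have h2 := hgc w
    rw [hmc w, Int.floor_intCast, Int.ceil_intCast] at h2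
    exact le_antisymm h2.2 h2.1
  have hm0 : ∀ v w, 0 ≤ m v w := fun v w => by
    simp only [m]
    have h1 : 0 ≤ ρ * (k v w : ℝ) := mul_nonneg hρ0 (Nat.cast_nonneg _)
    split_ifs
    · have := ho0 v
      linarith
    · linarith
  have hg0 : ∀ v w, 0 ≤ g v w := fun v w => (Int.floor_nonneg.2 (hm0 v w)).trans (hg v w).1
  have hgk : ∀ v w, v ≠ w → g v w ≤ (k v w : ℤ) := fun v w hvw => by
    refine (hg v w).2.trans (Int.ceil_le.2 ?_)
    simp only [m, if_neg hvw, add_zero]
    push_cast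
    have : (0 : ℝ) ≤ (k v w : ℝ) := Nat.cast_nonneg _
    nlinarith
  have hgd1 : ∀ v, g v v ≤ 1 := fun v => by
    refine (hg v v).2.trans (Int.ceil_le.2 ?_)
    simp only [m, hkd v, Nat.cast_zero, mul_zero, if_true, zero_add, Int.cast_one]
    exact (ho1 v).le
  have hgd0 : ∀ v, o v = 0 → g v v ≤ 0 := fun v h => by
    refine (hg v v).2.trans (Int.ceil_le.2 ?_)
    simp only [m, hkd v, Nat.cast_zero, mul_zero, if_true, zero_add, Int.cast_zero, h]
    exact le_rfl
  obtain ⟨g', hg'⟩ : ∃ g' : V → V → ℕ, ∀ v w, g v w = (g' v w : ℤ) :=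
    ⟨fun v w => (g v w).toNat, fun v w => (Int.toNat_of_nonneg (hg0 v w)).symm⟩
  -- first part
  let k₁ : V → V → ℕ := fun v w => if v = w then 0 else g' v w
  let k₂ : V → V → ℕ := fun v w => k v w - k₁ v w
  have hk₁le : ∀ v w, k₁ v w ≤ k v w := fun v w => by
    simp only [k₁]
    split_ifs with h
    · exact Nat.zero_le _
    · have := hgk v w h
      rw [hg'] at this
      exact_mod_cast this
  have hr₁ : ∀ v, ((∑ w, k₁ v w : ℕ) : ℤ) + g v v = ⌈ρ * f v⌉ := fun v => by
    rw [← hrow v, ← Finset.add_sum_erase univ (fun w => k₁ v w) (mem_univ v),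
      ← Finset.add_sum_erase univ (fun w => g v w) (mem_univ v)]
    have : ∑ w ∈ univ.erase v, g v w = ((∑ w ∈ univ.erase v, k₁ v w : ℕ) : ℤ) := by
      push_cast
      refine Finset.sum_congr rfl fun w hw => ?_
      simp only [k₁, if_neg (Finset.ne_of_mem_erase hw).symm]
      exact hg' v w
    rw [this]
    simp only [k₁, if_true]
    push_cast
    ring
  have hc₁ : ∀ w, ((∑ v, k₁ v w : ℕ) : ℤ) + g w w = ⌈ρ * f w⌉ := fun w => by
    rw [← hcol w, ← Finset.add_sum_erase univ (fun v => k₁ v w) (mem_univ w),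
      ← Finset.add_sum_erase univ (fun v => g v w) (mem_univ w)]
    have : ∑ v ∈ univ.erase w, g v w = ((∑ v ∈ univ.erase w, k₁ v w : ℕ) : ℤ) := by
      push_cast
      refine Finset.sum_congr rfl fun v hv => ?_
      simp only [k₁, if_neg (Finset.ne_of_mem_erase hv)]
      exact hg' v w
    rw [this]
    simp only [k₁, if_true]
    push_cast
    ring
  have hr₂ : ∀ v, ∑ w, k₁ v w + ∑ w, k₂ v w = f v := fun v => by
    rw [← Finset.sum_add_distrib, ← hr v]
    refine Finset.sum_congr rfl fun w _ => ?_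
    have := hk₁le v w
    simp only [k₂]
    omega
  have hc₂ : ∀ w, ∑ v, k₁ v w + ∑ v, k₂ v w = f w := fun w => by
    rw [← Finset.sum_add_distrib, ← hc w]
    refine Finset.sum_congr rfl fun v _ => ?_
    have := hk₁le v w
    simp only [k₂]
    omega
  refine ⟨fun v => ∑ w, k₁ v w, fun v => ∑ w, k₂ v w, hr₂, fun v => ?_, fun v => ?_, ?_, ?_⟩
  · have h1 := hr₁ v
    have h2 := hg0 v v
    show ((∑ w, k₁ v w : ℕ) : ℤ) ≤ _
    omega
  · have h1 := hr₁ v
    have h2 := hr₂ v
    show ((∑ w, k₂ v w : ℕ) : ℤ) ≤ _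
    have h3 : ((∑ w, k₂ v w : ℕ) : ℤ) = f v - ⌈ρ * f v⌉ + g v v := by omega
    rw [h3]
    by_cases ho : o v = 0
    · have h4 := hgd0 v ho
      have h5 : (f v : ℤ) - ⌈ρ * f v⌉ ≤ ⌈(1 - ρ) * f v⌉ := by
        have h6 : ((1 - ρ) * f v : ℝ) = (((f v : ℤ) - ⌈ρ * f v⌉ : ℤ) : ℝ) := by
          push_cast
          simp only [o] at ho
          linarith
        rw [h6, Int.ceil_intCast]
      omega
    · have h4 := hgd1 v
      have h5 : (f v : ℤ) - ⌈ρ * f v⌉ + 1 ≤ ⌈(1 - ρ) * f v⌉ := by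
        rw [Int.add_one_le_iff, Int.lt_ceil]
        push_cast
        have h6 := lt_of_le_of_ne (ho0 v) (Ne.symm ho)
        simp only [o] at h6
        linarith
      omega
  · refine hall_of_arcs' G _ k₁ (fun v w h => hk v w ?_) (fun v => rfl) (fun w => ?_)
    · have := hk₁le v w
      omega
    · have h1 := hr₁ w
      have h2 := hc₁ w
      omega
  · refine hall_of_arcs' G _ k₂ (fun v w h => hk v w ?_) (fun v => rfl) (fun w => ?_)
    · simp only [k₂] at h
      omega
    · have h1 := hr₁ w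
      have h2 := hc₁ w
      have h3 := hr₂ w
      have h4 := hc₂ w
      omega

end split

variable {X V : Type*} [Fintype X] [DecidableEq X] [Fintype V] [DecidableEq V]

/-- the conditions on the required numbers of one stage (parity version) -/
structure StagePM (G : SimpleGraph V) (D : V → ℕ) (a : ℕ) : Prop where
  two : 2 ≤ a
  even : Even (∑ v, D v)
  ex : ∃ (f : V → ℕ) (s : V → ℝ), (∀ v, f v + 2 ≤ a) ∧
    (∀ U : Finset V, ∑ v ∈ U, f v ≤ ∑ v ∈ nb G U, f v) ∧ (∀ v, (f v : ℝ) + 1 + s v = D v) ∧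
    ∀ T T' : Finset V, Disjoint T T' → ∑ v ∈ T, s v - ∑ v ∈ T', s v ≤ 1

/-- **Correction theorem, parity version.** -/
theorem correction_pm [Nontrivial V] (G : SimpleGraph V) {d : ℕ} (hd0 : 0 < d)
    (hd : ∀ v, dg G v = d)
    (hcut : ∀ S : Finset V, S.Nonempty → S ≠ univ → d ≤ cut G S)
    (A : X → SimpleGraph V) (hAG : ∀ x v w, (A x).Adj v w → G.Adj v w)
    (hAd : ∀ x v, dg (A x) v ≤ d - 1) {a : ℕ} (hav : ∀ v w, G.Adj v w → a ≤ av A v w)
    (D : V → ℕ) (hD : StagePM G D a) :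
    ∃ σ : X → Equiv.Perm V, (∀ x v, σ x v = v ∨ (A x).Adj v (σ x v)) ∧
      ∀ v, (univ.filter fun x => σ x v ≠ v).card = D v := by
  classical
  obtain ⟨f, s, hfa, hHall, hDf, hs⟩ := hD.ex
  obtain ⟨k, hk1, hk2, hk3⟩ := arcs G f hHall
  have hdR : (0 : ℝ) < d := by exact_mod_cast hd0
  obtain ⟨v0⟩ : Nonempty V := inferInstance
  have ha2 : 2 ≤ a := hD.two
  have haR : (0 : ℝ) < a := by
    have : 0 < a := by omega
    exact_mod_cast this
  have hs1 : ∀ v, s v ≤ 1 := fun v => by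
    have := hs {v} ∅ (disjoint_empty_right _)
    simpa using this
  have hDle : ∀ v, D v ≤ Fintype.card X := by
    intro v
    have hex : ∃ w, G.Adj v w := by
      by_contra h
      push Not at h
      have : dg G v = 0 := by
        unfold dg
        exact Finset.sum_eq_zero fun w _ => if_neg (h w)
      rw [hd v] at this
      omega
    obtain ⟨w, hw⟩ := hex
    have h1 : av A v w ≤ Fintype.card X := by
      unfold av
      rw [← Finset.card_univ]
      exact card_filter_le _ _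
    have h2 := hav v w hw
    have h3 : (D v : ℝ) ≤ (f v : ℝ) + 2 := by
      rw [← hDf v]
      have := hs1 v
      linarith
    have h4 : D v ≤ f v + 2 := by exact_mod_cast h3
    have h5 := hfa v
    omega
  let K : V → V → ℝ := fun v w => ((k v w : ℝ) + k w v) / 2
  have hK0 : ∀ v w, 0 ≤ K v w := fun v w => by positivity
  have hKs : ∀ v w, K v w = K w v := fun v w => by simp only [K]; ring
  have hKG : ∀ v w, ¬ G.Adj v w → K v w = 0 := by
    intro v w h
    have h1 : k v w = 0 := by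
      by_contra h'
      exact h (hk1 v w h')
    have h2 : k w v = 0 := by
      by_contra h'
      exact h (hk1 w v h').symm
    simp [K, h1, h2]
  have hKD : ∀ v, ∑ w, K v w = (f v : ℝ) := by
    intro v
    simp only [K]
    rw [← Finset.sum_div, Finset.sum_add_distrib]
    have e1 : ∑ w, (k v w : ℝ) = (f v : ℝ) := by
      rw [← Nat.cast_sum, hk2]
    have e2 : ∑ w, (k w v : ℝ) = (f v : ℝ) := by
      rw [← Nat.cast_sum, hk3]
    rw [e1, e2]
    ring
  have havR : ∀ v w, G.Adj v w → (a : ℝ) ≤ av A v w := fun v w h => by exact_mod_cast hav v w h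
  have havP : ∀ v w, G.Adj v w → (0 : ℝ) < av A v w := fun v w h => lt_of_lt_of_le haR (havR v w h)
  refine rows_pm hd0 hd hcut hAd (by omega) hav D hDle hD.even
    (fun x v w => if (A x).Adj v w then K v w / av A v w else 0) ?_ ?_ ?_ (2 / a) ?_ ?_ s ?_ hs
  · intro x v w
    split_ifs
    · exact div_nonneg (hK0 _ _) (Nat.cast_nonneg _)
    · exact le_refl _
  · intro x v w
    rw [hKs v w, av_symm A v w]
    exact if_congr (SimpleGraph.adj_comm _ _ _) rfl rfl
  · intro x v w h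
    rw [if_neg h]
  · rw [div_mul_eq_mul_div, div_mul_cancel₀ _ haR.ne']
    have : (((d - 1 : ℕ)) : ℝ) < d := by exact_mod_cast Nat.sub_lt hd0 one_pos
    linarith
  · intro x v
    calc ∑ w, (if (A x).Adj v w then K v w / av A v w else 0) ≤ ∑ w, K v w / a := by
          refine Finset.sum_le_sum fun w _ => ?_
          split_ifs with h
          · exact div_le_div_of_nonneg_left (hK0 _ _) haR (havR v w (hAG x v w h))
          · exact div_nonneg (hK0 _ _) haR.le
      _ = (f v : ℝ) / a := by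
          rw [← Finset.sum_div, hKD]
      _ ≤ 1 - 2 / a := by
          have h1 : ((f v : ℝ) + 2) ≤ a := by exact_mod_cast hfa v
          rw [div_le_iff₀ haR]
          have h2 : (1 - 2 / (a : ℝ)) * a = a - 2 := by
            field_simp
          rw [h2]
          linarith
  · intro v
    have h1 : (∑ x, ∑ u, if (A x).Adj v u then K v u / av A v u else 0) = f v := by
      rw [Finset.sum_comm, ← hKD v]
      refine Finset.sum_congr rfl fun u _ => ?_
      by_cases h : G.Adj v u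
      · rw [← Finset.sum_filter, Finset.sum_const, nsmul_eq_mul]
        have : (((univ.filter fun x => (A x).Adj v u).card : ℕ) : ℝ) = av A v u := by
          unfold av
          congr 2
        rw [this]
        field_simp [(havP v u h).ne']
      · rw [hKG v u h]
        refine Finset.sum_eq_zero fun x _ => ?_
        rw [if_neg fun h' => h (hAG x v u h')]
    rw [h1]
    exact hDf v

section finish

variable {G : SimpleGraph V}

/-- **Two-stage correction theorem, parity version.** -/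
theorem gen_finish_pm [Nontrivial V] (P : ∀ x y : V, G.Walk x y) (hP : Paths P) {d : ℕ}
    (hd0 : 0 < d)
    (hd : ∀ v, dg G v = d) (hcut : ∀ S : Finset V, S.Nonempty → S ≠ univ → d ≤ cut G S)
    (D₁ D₂ : V → ℕ) (a₁ a₂ c : ℕ) (h₁ : StagePM G D₁ a₁) (h₂ : StagePM G D₂ a₂)
    (hout : ∀ u w, G.Adj u w → a₁ + 2 + outKill P u w + outKill P w u ≤ Fintype.card V)
    (hin : ∀ u w, G.Adj u w → a₂ + 4 + inKill P u w + inKill P w u ≤ Fintype.card V)
    (hc : ∀ v, load P v + D₁ v + D₂ v = c) : HasUPS G := by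
  classical
  obtain ⟨σ, hσ1, hσ2⟩ := correction_pm G hd0 hd hcut (outG P) (fun x v w h => h.1) (outG_dg P hd)
    (a := a₁) (fun v w h => by
      rw [av_eq (outG P) v w (AvOut P v w) fun x => ⟨fun hx => ⟨h, hx⟩, fun hx => hx.2⟩]
      have h1 := avOut_card P v w
      have h2 := hout v w h
      omega) D₁ h₁
  have hσ3 : ∀ x u, σ x u ≠ u → G.Adj u (σ x u) ∧ x ∈ AvOut P u (σ x u) := fun x u h =>
    (hσ1 x u).resolve_left h
  have hOK : OutOK P σ := by
    refine ⟨fun x => ?_, fun x u h => ?_⟩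
    · by_contra h
      have h1 := (hσ3 x x h).2
      simp [AvOut] at h1
    · obtain ⟨h1, h2⟩ := hσ3 x u h
      simp only [AvOut, mem_filter, mem_univ, true_and] at h2
      exact ⟨h1.symm, h2.2.2.2⟩
  obtain ⟨τ, hτ1, hτ2⟩ := correction_pm G hd0 hd hcut (inG P σ) (fun x v w h => h.1)
    (inG_dg P σ hOK.1 hd) (a := a₂) (fun v w h => by
      rw [av_eq (inG P σ) v w (AvIn P σ v w) fun x => ⟨fun hx => ⟨h, hx⟩, fun hx => hx.2⟩]
      have h1 := avIn_card' P σ hOK h.ne
      have h2 := hin v w h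
      omega) D₂ h₂
  have hτ3 : ∀ y u, τ y u ≠ u → G.Adj u (τ y u) ∧ y ∈ AvIn P σ u (τ y u) := fun x u h =>
    (hτ1 x u).resolve_left h
  obtain ⟨P', hP', hl⟩ := two_sided P hP σ τ hOK (fun y => by
      by_contra h
      have h1 := (hτ3 y y h).2
      simp [AvIn] at h1) (fun y x h => by
      obtain ⟨h1, h2⟩ := hτ3 y x h
      simp only [AvIn, mem_filter, mem_univ, true_and] at h2
      exact ⟨h1, h2.2.2.2⟩)
  exact ⟨P', hP', c, fun v => by rw [hl, hσ2, hτ2, hc]⟩

omit [Fintype V] in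
/-- sum of an indicator of one vertex -/
lemma ind_sum (v0 : V) (σ : ℝ) (T : Finset V) :
    (∑ v ∈ T, if v = v0 then σ else 0) = if v0 ∈ T then σ else 0 := by
  rw [Finset.sum_ite_eq']

omit [Fintype V] in
lemma ind_bound (v0 : V) (σ : ℝ) (h1 : -1 ≤ σ) (h2 : σ ≤ 1) (T T' : Finset V)
    (_ : Disjoint T T') :
    (∑ v ∈ T, if v = v0 then σ else 0) - (∑ v ∈ T', if v = v0 then σ else 0) ≤ 1 := by
  rename_i hd
  rw [ind_sum, ind_sum]
  by_cases h3 : v0 ∈ T
  · have h4 : v0 ∉ T' := fun h => disjoint_left.1 hd h3 h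
    rw [if_pos h3, if_neg h4]
    linarith
  · rw [if_neg h3]
    split_ifs <;> linarith

/-- **Two stages, all graphs, no parity loss.** -/
theorem two_stage [Nontrivial V] (P : ∀ x y : V, G.Walk x y) (hP : Paths P) {d : ℕ}
    (hd0 : 0 < d) (hd : ∀ v, dg G v = d)
    (hcut : ∀ S : Finset V, S.Nonempty → S ≠ univ → d ≤ cut G S) (D : V → ℕ)
    (hHall : ∀ U : Finset V, ∑ v ∈ U, D v ≤ ∑ v ∈ nb G U, D v) (heven : Even (∑ v, D v))
    (a₁ a₂ c : ℕ) (ha₁ : 2 ≤ a₁) (ha₂ : 2 ≤ a₂) (hDa : ∀ v, D v + 4 ≤ a₁ + a₂)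
    (hout : ∀ u w, G.Adj u w → a₁ + 2 + outKill P u w + outKill P w u ≤ Fintype.card V)
    (hin : ∀ u w, G.Adj u w → a₂ + 4 + inKill P u w + inKill P w u ≤ Fintype.card V)
    (hc : ∀ v, load P v + D v + 2 = c) : HasUPS G := by
  classical
  obtain ⟨b₁, rfl⟩ : ∃ b, a₁ = b + 2 := ⟨a₁ - 2, by omega⟩
  obtain ⟨b₂, rfl⟩ : ∃ b, a₂ = b + 2 := ⟨a₂ - 2, by omega⟩
  have hDb : ∀ v, D v ≤ b₁ + b₂ := fun v => by
    have := hDa v
    omega
  set ρ : ℝ := (b₁ : ℝ) / (b₁ + b₂) with hρ
  have hb0 : (0 : ℝ) ≤ (b₁ : ℝ) + b₂ := by positivity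
  have hρ0 : 0 ≤ ρ := by positivity
  have hρ1 : ρ ≤ 1 := by
    refine div_le_one_of_le₀ ?_ hb0
    have : (0 : ℝ) ≤ b₂ := Nat.cast_nonneg _
    linarith
  obtain ⟨f₁, f₂, hf, hf₁, hf₂, hH₁, hH₂⟩ := split_ratio G D hHall ρ hρ0 hρ1
  have hD1 : ∀ v, f₁ v ≤ b₁ ∧ f₂ v ≤ b₂ := by
    intro v
    have hDv : (D v : ℝ) ≤ (b₁ : ℝ) + b₂ := by exact_mod_cast hDb v
    have hDv0 : (0 : ℝ) ≤ (D v : ℝ) := Nat.cast_nonneg _
    by_cases hb : (b₁ : ℝ) + b₂ = 0
    · have h0 : D v = 0 := by
        have : (D v : ℝ) ≤ 0 := by linarith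
        exact_mod_cast le_antisymm this hDv0
      have := hf v
      omega
    · have hbpos : 0 < (b₁ : ℝ) + b₂ := lt_of_le_of_ne hb0 (Ne.symm hb)
      constructor
      · have h1 : ⌈ρ * D v⌉ ≤ (b₁ : ℤ) := by
          rw [Int.ceil_le]
          push_cast
          rw [hρ, div_mul_eq_mul_div, div_le_iff₀ hbpos]
          exact mul_le_mul_of_nonneg_left hDv (Nat.cast_nonneg _)
        exact_mod_cast (hf₁ v).trans h1
      · have h1 : ⌈(1 - ρ) * D v⌉ ≤ (b₂ : ℤ) := by
          rw [Int.ceil_le]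
          push_cast
          have h2 : 1 - ρ = (b₂ : ℝ) / (b₁ + b₂) := by
            rw [hρ]
            field_simp
            ring
          rw [h2, div_mul_eq_mul_div, div_le_iff₀ hbpos]
          exact mul_le_mul_of_nonneg_left hDv (Nat.cast_nonneg _)
        exact_mod_cast (hf₂ v).trans h1
  have htot : ∑ v, (f₁ v + 1) + ∑ v, (f₂ v + 1) = ∑ v, D v + 2 * Fintype.card V := by
    rw [← Finset.sum_add_distrib]
    have : ∀ v, f₁ v + 1 + (f₂ v + 1) = D v + 2 := fun v => by
      have := hf v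
      omega
    rw [Finset.sum_congr rfl fun v _ => this v, Finset.sum_add_distrib, Finset.sum_const,
      Finset.card_univ, smul_eq_mul]
    ring
  by_cases hpar : Even (∑ v, (f₁ v + 1))
  · refine gen_finish_pm P hP hd0 hd hcut (fun v => f₁ v + 1) (fun v => f₂ v + 1) (b₁ + 2) (b₂ + 2)
      c ⟨by omega, hpar, f₁, fun _ => 0, ?_, hH₁, ?_, ?_⟩ ⟨by omega, ?_, f₂, fun _ => 0, ?_, hH₂,
      ?_, ?_⟩ hout hin ?_
    · intro v; have := (hD1 v).1; omega
    · intro v; push_cast; ring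
    · intro T T' _; simp
    · rw [Nat.even_iff] at hpar heven ⊢
      omega
    · intro v; have := (hD1 v).2; omega
    · intro v; push_cast; ring
    · intro T T' _; simp
    · intro v
      have h1 := hf v
      have h2 := hc v
      omega
  · obtain ⟨v0⟩ : Nonempty V := inferInstance
    have hs1 : ∑ v, (f₁ v + 1 + if v = v0 then 1 else 0) = ∑ v, (f₁ v + 1) + 1 := by
      rw [Finset.sum_add_distrib, Finset.sum_ite_eq']
      simp
    have hs2 : ∑ v, (f₂ v + if v = v0 then 0 else 1) + 1 = ∑ v, (f₂ v + 1) := by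
      have h1 : ∀ v, (f₂ v + if v = v0 then 0 else 1) + (if v = v0 then 1 else 0) = f₂ v + 1 := by
        intro v
        split_ifs <;> rfl
      rw [← Finset.sum_congr rfl fun v _ => h1 v, Finset.sum_add_distrib (f := fun v =>
        f₂ v + if v = v0 then 0 else 1)]
      simp
    refine gen_finish_pm P hP hd0 hd hcut (fun v => f₁ v + 1 + if v = v0 then 1 else 0)
      (fun v => f₂ v + if v = v0 then 0 else 1) (b₁ + 2) (b₂ + 2)
      c ⟨by omega, ?_, f₁, fun v => if v = v0 then 1 else 0, ?_, hH₁, ?_, ?_⟩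
      ⟨by omega, ?_, f₂, fun v => if v = v0 then -1 else 0, ?_, hH₂,
      ?_, ?_⟩ hout hin ?_
    · rw [Nat.even_iff] at hpar ⊢
      rw [hs1]
      omega
    · intro v; have := (hD1 v).1; omega
    · intro v; push_cast; rfl
    · exact fun T T' h => ind_bound v0 1 (by norm_num) le_rfl T T' h
    · rw [Nat.even_iff] at hpar heven ⊢
      omega
    · intro v; have := (hD1 v).2; omega
    · intro v
      push_cast
      split_ifs <;> ring
    · exact fun T T' h => ind_bound v0 (-1) le_rfl (by norm_num) T T' h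
    · intro v
      have h1 := hf v
      have h2 := hc v
      split_ifs <;> omega

end finish

end PM

end Pool.Agent.UPS2
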