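import Pool.Agent.Lib.MP_876e19_co_ups.RowsK
import Pool.Agent.Lib.MP_876e19_co_ups.TwoStage

/-!
# Two stages of toggles, edgewise capacities (MP_876e19_co, helper91)

`two_stage_K` : real symmetric weights `K` on the edges with integral degrees `D`, even sum,
`K e < c₁ e + c₂ e - 1`, `c₁ e = (n - 2 - kills)/(d-1) - 2/d`, `c₂ e = (n - 4 - kills)/(d-1) - 2/d`,
`load + D + 2` constant, give a uniform path system.
-/

set_option autoImplicit false

open Finset

namespace Pool.Agent.UPS2

namespace PM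

open HTutte UPS3 EC UPS UPS.TS

variable {X V : Type*} [Fintype X] [DecidableEq X] [Fintype V] [DecidableEq V]

/-- **Correction theorem, edgewise.** -/
theorem correction_edge [Nontrivial V] (G : SimpleGraph V) {d : ℕ} (hd2 : 2 ≤ d)
    (hd : ∀ v, dg G v = d)
    (hcut : ∀ S : Finset V, S.Nonempty → S ≠ univ → d ≤ cut G S)
    (A : X → SimpleGraph V) (hAG : ∀ x v w, (A x).Adj v w → G.Adj v w)
    (hAd : ∀ x v, dg (A x) v ≤ d - 1)
    (K : V → V → ℝ) (hK0 : ∀ v w, 0 ≤ K v w) (hKs : ∀ v w, K v w = K w v)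
    (hKG : ∀ v w, ¬ G.Adj v w → K v w = 0)
    (hKc : ∀ v w, G.Adj v w → K v w + 2 / d < (av A v w : ℝ) / ((d : ℝ) - 1))
    (D : V → ℕ) (heven : Even (∑ v, D v)) (s : V → ℝ)
    (hKD : ∀ v, ∑ w, K v w + 1 + s v = D v)
    (hs : ∀ T T' : Finset V, Disjoint T T' → ∑ v ∈ T, s v - ∑ v ∈ T', s v ≤ 1) :
    ∃ σ : X → Equiv.Perm V, (∀ x v, σ x v = v ∨ (A x).Adj v (σ x v)) ∧
      ∀ v, (univ.filter fun x => σ x v ≠ v).card = D v := by
  classical
  have hd0 : 0 < d := by omega
  have hdR : (0 : ℝ) < d := by exact_mod_cast hd0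
  have hd1 : (0 : ℝ) < (d : ℝ) - 1 := by
    have : (2 : ℝ) ≤ d := by exact_mod_cast hd2
    linarith
  have havP : ∀ v w, G.Adj v w → (0 : ℝ) < av A v w := fun v w h => by
    have h1 := hKc v w h
    have h2 : 0 < (av A v w : ℝ) / ((d : ℝ) - 1) :=
      lt_of_le_of_lt (add_nonneg (hK0 v w) (by positivity)) h1
    exact (div_pos_iff_of_pos_right hd1).1 h2
  have hs1 : ∀ v, s v ≤ 1 := fun v => by
    have := hs {v} ∅ (disjoint_empty_right _)
    simpa using this
  have hav : ∀ v w, G.Adj v w → 0 < av A v w := fun v w h => by exact_mod_cast havP v w h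
  -- the number of rows is large enough
  have hex : ∀ v, ∃ w, G.Adj v w := by
    intro v
    by_contra h
    push Not at h
    have : dg G v = 0 := by
      unfold dg
      exact Finset.sum_eq_zero fun w _ => if_neg (h w)
    rw [hd v] at this
    omega
  have hDle : ∀ v, D v ≤ Fintype.card X := by
    intro v
    have h1 : (∑ w, K v w) + 2 < Fintype.card X := by
      have e1 : (∑ w, K v w) + 2 = ∑ w, if G.Adj v w then K v w + 2 / d else 0 := by
        have : ∀ w, (if G.Adj v w then K v w + 2 / d else 0) =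
            K v w + (if G.Adj v w then 1 else 0 : ℝ) * (2 / d) := by
          intro w
          by_cases h : G.Adj v w
          · rw [if_pos h, if_pos h, one_mul]
          · rw [if_neg h, if_neg h, hKG v w h, zero_mul, add_zero]
        rw [Finset.sum_congr rfl fun w _ => this w, Finset.sum_add_distrib, ← Finset.sum_mul]
        have h2 : (∑ w, if G.Adj v w then 1 else 0 : ℝ) = d := by
          rw [← hd v]
          unfold dg
          push_cast
          rfl
        rw [h2]
        field_simp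
      have e2 : (∑ w, if G.Adj v w then (av A v w : ℝ) / ((d : ℝ) - 1) else 0) ≤
          Fintype.card X := by
        have h3 : (∑ w, if G.Adj v w then (av A v w : ℝ) else 0) ≤
            Fintype.card X * ((d : ℝ) - 1) := by
          have h4 : (∑ w, if G.Adj v w then (av A v w : ℝ) else 0) ≤
              ∑ w, ∑ x, if (A x).Adj v w then (1 : ℝ) else 0 := by
            refine Finset.sum_le_sum fun w _ => ?_
            have h5 : (av A v w : ℝ) = ∑ x, if (A x).Adj v w then (1 : ℝ) else 0 := by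
              unfold av
              rw [Finset.card_filter]
              push_cast
              rfl
            rw [h5]
            split_ifs
            · exact le_rfl
            · exact Finset.sum_nonneg fun x _ => by split_ifs <;> norm_num
          refine h4.trans ?_
          rw [Finset.sum_comm]
          calc (∑ x, ∑ w, if (A x).Adj v w then (1 : ℝ) else 0) ≤ ∑ x : X, ((d : ℝ) - 1) := by
                refine Finset.sum_le_sum fun x _ => ?_
                have h5 : (∑ w, if (A x).Adj v w then (1 : ℝ) else 0) = dg (A x) v := by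
                  unfold dg
                  push_cast
                  rfl
                rw [h5]
                have h6 : ((d : ℝ) - 1) = ((d - 1 : ℕ) : ℝ) := by
                  rw [Nat.cast_sub (by omega), Nat.cast_one]
                rw [h6]
                exact_mod_cast hAd x v
            _ = Fintype.card X * ((d : ℝ) - 1) := by
                rw [Finset.sum_const, nsmul_eq_mul, Finset.card_univ]
        have h7 : (∑ w, if G.Adj v w then (av A v w : ℝ) / ((d : ℝ) - 1) else 0) =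
            (∑ w, if G.Adj v w then (av A v w : ℝ) else 0) / ((d : ℝ) - 1) := by
          rw [Finset.sum_div]
          refine Finset.sum_congr rfl fun w _ => ?_
          split_ifs
          · rfl
          · rw [zero_div]
        rw [h7, div_le_iff₀ hd1]
        exact h3
      rw [e1]
      refine lt_of_lt_of_le ?_ e2
      obtain ⟨w0, hw0⟩ := hex v
      refine Finset.sum_lt_sum (fun w _ => ?_) ⟨w0, mem_univ _, ?_⟩
      · by_cases h : G.Adj v w
        · rw [if_pos h, if_pos h]
          exact (hKc v w h).le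
        · rw [if_neg h, if_neg h]
      · rw [if_pos hw0, if_pos hw0]
        exact hKc v w0 hw0
    have h2 : (D v : ℝ) ≤ Fintype.card X := by
      have := hKD v
      have := hs1 v
      linarith
    exact_mod_cast h2
  refine rows_edge hd0 hd hcut hav hAG D hDle heven
    (fun x v w => if (A x).Adj v w then K v w / av A v w else 0) ?_ ?_ ?_ ?_ s ?_ hs
  · intro x v w
    split_ifs
    · exact div_nonneg (hK0 _ _) (Nat.cast_nonneg _)
    · exact le_refl _
  · intro x v w
    rw [hKs v w, av_symm A v w]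
    exact if_congr (SimpleGraph.adj_comm _ _ _) rfl rfl
  · intro x v w h
    rw [if_neg h]
  · intro x v
    have e1 : (∑ w, if (A x).Adj v w then K v w / av A v w else 0) + 2 / d * lam A x v =
        ∑ w, if (A x).Adj v w then (K v w + 2 / d) / av A v w else 0 := by
      unfold lam
      rw [Finset.mul_sum, ← Finset.sum_add_distrib]
      refine Finset.sum_congr rfl fun w _ => ?_
      split_ifs
      · ring
      · ring
    rw [e1]
    by_cases hx : ∃ w, (A x).Adj v w
    · obtain ⟨w0, hw0⟩ := hx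
      have e2 : (∑ w, if (A x).Adj v w then (1 / ((d : ℝ) - 1)) else 0) ≤ 1 := by
        have h5 : (∑ w, if (A x).Adj v w then (1 / ((d : ℝ) - 1)) else 0) =
            (dg (A x) v : ℝ) * (1 / ((d : ℝ) - 1)) := by
          unfold dg
          push_cast
          rw [Finset.sum_mul]
          refine Finset.sum_congr rfl fun w _ => ?_
          split_ifs
          · rw [one_mul]
          · rw [zero_mul]
        rw [h5, mul_one_div, div_le_one hd1]
        have h6 : ((d : ℝ) - 1) = ((d - 1 : ℕ) : ℝ) := by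
          rw [Nat.cast_sub (by omega), Nat.cast_one]
        rw [h6]
        exact_mod_cast hAd x v
      refine lt_of_lt_of_le ?_ e2
      have hlt : ∀ w, (A x).Adj v w → (K v w + 2 / d) / av A v w < 1 / ((d : ℝ) - 1) := by
        intro w h
        have h1 := hKc v w (hAG x v w h)
        have h2 := havP v w (hAG x v w h)
        rw [div_lt_iff₀ h2, one_div_mul_eq_div]
        exact h1
      refine Finset.sum_lt_sum (fun w _ => ?_) ⟨w0, mem_univ _, ?_⟩
      · by_cases h : (A x).Adj v w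
        · rw [if_pos h, if_pos h]
          exact (hlt w h).le
        · rw [if_neg h, if_neg h]
      · rw [if_pos hw0, if_pos hw0]
        exact hlt w0 hw0
    · push Not at hx
      rw [Finset.sum_eq_zero fun w _ => if_neg (hx w)]
      exact one_pos
  · intro v
    have h1 : (∑ x, ∑ u, if (A x).Adj v u then K v u / av A v u else 0) = ∑ u, K v u := by
      rw [Finset.sum_comm]
      refine Finset.sum_congr rfl fun u _ => ?_
      by_cases h : G.Adj v u
      · rw [← Finset.sum_filter, Finset.sum_const, nsmul_eq_mul]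
        have : (((univ.filter fun x => (A x).Adj v u).card : ℕ) : ℝ) = av A v u := by
          unfold av
          congr 2
        rw [this]
        field_simp [(havP v u h).ne']
      · rw [hKG v u h]
        refine Finset.sum_eq_zero fun x _ => ?_
        rw [if_neg fun h' => h (hAG x v u h')]
    rw [h1]
    exact hKD v

/-- the conditions of one stage, edgewise -/
structure StageK (G : SimpleGraph V) (d : ℕ) (D : V → ℕ) (a : V → V → ℝ) : Prop where
  even : Even (∑ v, D v)
  ex : ∃ (K : V → V → ℝ) (s : V → ℝ), (∀ v w, 0 ≤ K v w) ∧ (∀ v w, K v w = K w v) ∧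
    (∀ v w, ¬ G.Adj v w → K v w = 0) ∧
    (∀ v w, G.Adj v w → K v w + 2 / d < a v w / ((d : ℝ) - 1)) ∧
    (∀ v, ∑ w, K v w + 1 + s v = D v) ∧
    ∀ T T' : Finset V, Disjoint T T' → ∑ v ∈ T, s v - ∑ v ∈ T', s v ≤ 1

variable {G : SimpleGraph V}

/-- **Two-stage correction theorem, edgewise.** -/
theorem gen_finish_K [Nontrivial V] (P : ∀ x y : V, G.Walk x y) (hP : Paths P) {d : ℕ}
    (hd2 : 2 ≤ d) (hd : ∀ v, dg G v = d)
    (hcut : ∀ S : Finset V, S.Nonempty → S ≠ univ → d ≤ cut G S)
    (D₁ D₂ : V → ℕ) (a₁ a₂ : V → V → ℝ) (c : ℕ) (h₁ : StageK G d D₁ a₁) (h₂ : StageK G d D₂ a₂)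
    (hout : ∀ u w, G.Adj u w → a₁ u w + 2 + outKill P u w + outKill P w u ≤ Fintype.card V)
    (hin : ∀ u w, G.Adj u w → a₂ u w + 4 + inKill P u w + inKill P w u ≤ Fintype.card V)
    (hc : ∀ v, load P v + D₁ v + D₂ v = c) : HasUPS G := by
  classical
  have hd1 : (0 : ℝ) < (d : ℝ) - 1 := by
    have : (2 : ℝ) ≤ d := by exact_mod_cast hd2
    linarith
  obtain ⟨K₁, s₁, hK0, hKs, hKG, hKc, hKD, hs⟩ := h₁.ex
  obtain ⟨K₂, s₂, hK0', hKs', hKG', hKc', hKD', hs'⟩ := h₂.ex
  obtain ⟨σ, hσ1, hσ2⟩ := correction_edge G hd2 hd hcut (outG P) (fun x v w h => h.1)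
    (outG_dg P hd) K₁ hK0 hKs hKG (fun v w h => by
      rw [av_eq (outG P) v w (AvOut P v w) fun x => ⟨fun hx => ⟨h, hx⟩, fun hx => hx.2⟩]
      refine lt_of_lt_of_le (hKc v w h) (div_le_div_of_nonneg_right ?_ hd1.le)
      have h1 := avOut_card P v w
      have h2 := hout v w h
      have h3 : (Fintype.card V : ℝ) ≤ (AvOut P v w).card + 2 + outKill P v w + outKill P w v := by
        exact_mod_cast h1
      linarith) D₁ h₁.even s₁ hKD hs
  have hσ3 : ∀ x u, σ x u ≠ u → G.Adj u (σ x u) ∧ x ∈ AvOut P u (σ x u) := fun x u h =>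
    (hσ1 x u).resolve_left h
  have hOK : OutOK P σ := by
    refine ⟨fun x => ?_, fun x u h => ?_⟩
    · by_contra h
      have h1 := (hσ3 x x h).2
      simp [AvOut] at h1
    · obtain ⟨h1, h2⟩ := hσ3 x u h
      simp only [AvOut, mem_filter, mem_univ, true_and] at h2
      exact ⟨h1.symm, h2.2.2.2⟩
  obtain ⟨τ, hτ1, hτ2⟩ := correction_edge G hd2 hd hcut (inG P σ) (fun x v w h => h.1)
    (inG_dg P σ hOK.1 hd) K₂ hK0' hKs' hKG' (fun v w h => by
      rw [av_eq (inG P σ) v w (AvIn P σ v w) fun x => ⟨fun hx => ⟨h, hx⟩, fun hx => hx.2⟩]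
      refine lt_of_lt_of_le (hKc' v w h) (div_le_div_of_nonneg_right ?_ hd1.le)
      have h1 := avIn_card' P σ hOK h.ne
      have h2 := hin v w h
      have h3 : (Fintype.card V : ℝ) ≤ (AvIn P σ v w).card + 4 + inKill P v w + inKill P w v := by
        exact_mod_cast h1
      linarith) D₂ h₂.even s₂ hKD' hs'
  have hτ3 : ∀ y u, τ y u ≠ u → G.Adj u (τ y u) ∧ y ∈ AvIn P σ u (τ y u) := fun x u h =>
    (hτ1 x u).resolve_left h
  obtain ⟨P', hP', hl⟩ := two_sided P hP σ τ hOK (fun y => by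
      by_contra h
      have h1 := (hτ3 y y h).2
      simp [AvIn] at h1) (fun y x h => by
      obtain ⟨h1, h2⟩ := hτ3 y x h
      simp only [AvIn, mem_filter, mem_univ, true_and] at h2
      exact ⟨h1, h2.2.2.2⟩)
  exact ⟨P', hP', c, fun v => by rw [hl, hσ2, hτ2, hc]⟩

/-- **Two stages from real edge weights.** -/
theorem two_stage_K [Nontrivial V] (P : ∀ x y : V, G.Walk x y) (hP : Paths P) {d : ℕ}
    (hd2 : 2 ≤ d) (hd : ∀ v, dg G v = d)
    (hcut : ∀ S : Finset V, S.Nonempty → S ≠ univ → d ≤ cut G S)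
    (K : V → V → ℝ) (hK0 : ∀ v w, 0 ≤ K v w) (hKs : ∀ v w, K v w = K w v)
    (hKG : ∀ v w, ¬ G.Adj v w → K v w = 0)
    (D : V → ℕ) (hKD : ∀ v, ∑ w, K v w = D v) (heven : Even (∑ v, D v)) (c : ℕ)
    (hc : ∀ v, load P v + D v + 2 = c) (c₁ c₂ : V → V → ℝ)
    (hsym : ∀ u w, c₁ u w = c₁ w u)
    (hc₁ : ∀ u w, G.Adj u w → 0 < c₁ u w ∧ (c₁ u w + 2 / d) * ((d : ℝ) - 1) + 2 +
      outKill P u w + outKill P w u ≤ Fintype.card V)
    (hc₂ : ∀ u w, G.Adj u w → 1 ≤ c₂ u w ∧ (c₂ u w + 2 / d) * ((d : ℝ) - 1) + 4 +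
      inKill P u w + inKill P w u ≤ Fintype.card V)
    (hKc : ∀ u w, G.Adj u w → K u w < c₁ u w + c₂ u w - 1) : HasUPS G := by
  classical
  have hd1 : (0 : ℝ) < (d : ℝ) - 1 := by
    have : (2 : ℝ) ≤ d := by exact_mod_cast hd2
    linarith
  -- the integral first part
  let m : V → V → ℤ := fun u w => if G.Adj u w then min ⌊K u w⌋ (⌈c₁ u w⌉ - 1) else 0
  have hm0 : ∀ u w, 0 ≤ m u w := by
    intro u w
    simp only [m]
    split_ifs with h
    · refine le_min (Int.floor_nonneg.2 (hK0 u w)) ?_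
      have := Int.ceil_pos.2 (hc₁ u w h).1
      omega
    · exact le_rfl
  have hms : ∀ u w, m u w = m w u := by
    intro u w
    simp only [m]
    rw [hKs u w, hsym u w]
    exact if_congr (SimpleGraph.adj_comm _ _ _) rfl rfl
  have hmK : ∀ u w, (m u w : ℝ) ≤ K u w := by
    intro u w
    simp only [m]
    split_ifs with h
    · refine le_trans ?_ (Int.floor_le (K u w))
      exact_mod_cast min_le_left _ _
    · rw [hKG u w h]
      simp
  have hmc : ∀ u w, G.Adj u w → (m u w : ℝ) < c₁ u w := by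
    intro u w h
    simp only [m, if_pos h]
    have h1 : ((min ⌊K u w⌋ (⌈c₁ u w⌉ - 1) : ℤ) : ℝ) ≤ ((⌈c₁ u w⌉ - 1 : ℤ) : ℝ) := by
      exact_mod_cast min_le_right _ _
    refine lt_of_le_of_lt h1 ?_
    push_cast
    have := Int.ceil_lt_add_one (c₁ u w)
    linarith
  have hmc₂ : ∀ u w, G.Adj u w → K u w - m u w < c₂ u w := by
    intro u w h
    simp only [m, if_pos h]
    rcases min_choice ⌊K u w⌋ (⌈c₁ u w⌉ - 1) with h1 | h1
    · rw [h1]
      have := Int.lt_floor_add_one (K u w)
      have := (hc₂ u w h).1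
      linarith
    · rw [h1]
      push_cast
      have := Int.le_ceil (c₁ u w)
      have := hKc u w h
      linarith
  obtain ⟨m', hm'⟩ : ∃ m' : V → V → ℕ, ∀ u w, m u w = (m' u w : ℤ) :=
    ⟨fun u w => (m u w).toNat, fun u w => (Int.toNat_of_nonneg (hm0 u w)).symm⟩
  have hmR : ∀ u w, (m u w : ℝ) = (m' u w : ℝ) := fun u w => by
    rw [hm' u w]
    push_cast
    rfl
  let K₂ : V → V → ℝ := fun u w => K u w - m' u w
  have hf : ∀ v, ∑ w, m' v w ≤ D v := by
    intro v
    have h1 : ((∑ w, m' v w : ℕ) : ℝ) ≤ D v := by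
      rw [← hKD v]
      push_cast
      refine Finset.sum_le_sum fun w _ => ?_
      rw [← hmR]
      exact hmK v w
    exact_mod_cast h1
  let f₁ : V → ℕ := fun v => ∑ w, m' v w
  let f₂ : V → ℕ := fun v => D v - f₁ v
  have hf12 : ∀ v, f₁ v + f₂ v = D v := fun v => by
    have := hf v
    simp only [f₂, f₁]
    omega
  have hf₁ : ∀ v, ∑ w, (m' v w : ℝ) = f₁ v := fun v => by
    simp only [f₁]
    push_cast
    rfl
  have hf₂ : ∀ v, ∑ w, K₂ v w = f₂ v := fun v => by
    simp only [K₂]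
    rw [Finset.sum_sub_distrib, hKD v, hf₁ v, ← hf12 v]
    push_cast
    ring
  -- the two stages
  have hK₁c : ∀ u w, G.Adj u w → (m' u w : ℝ) + 2 / d <
      ((c₁ u w + 2 / d) * ((d : ℝ) - 1)) / ((d : ℝ) - 1) := by
    intro u w h
    rw [mul_div_cancel_right₀ _ hd1.ne', ← hmR]
    have := hmc u w h
    linarith
  have hK₂c : ∀ u w, G.Adj u w → K₂ u w + 2 / d <
      ((c₂ u w + 2 / d) * ((d : ℝ) - 1)) / ((d : ℝ) - 1) := by
    intro u w h
    rw [mul_div_cancel_right₀ _ hd1.ne']
    simp only [K₂]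
    rw [← hmR]
    have := hmc₂ u w h
    linarith
  have hK₁0 : ∀ u w, (0 : ℝ) ≤ (m' u w : ℝ) := fun u w => Nat.cast_nonneg _
  have hK₁s : ∀ u w, (m' u w : ℝ) = m' w u := fun u w => by
    rw [← hmR, ← hmR, hms]
  have hK₁G : ∀ u w, ¬ G.Adj u w → (m' u w : ℝ) = 0 := fun u w h => by
    rw [← hmR]
    simp only [m, if_neg h]
    simp
  have hK₂0 : ∀ u w, 0 ≤ K₂ u w := fun u w => by
    simp only [K₂]
    rw [← hmR]
    exact sub_nonneg.2 (hmK u w)
  have hK₂s : ∀ u w, K₂ u w = K₂ w u := fun u w => by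
    simp only [K₂]
    rw [hK₁s u w, hKs u w]
  have hK₂G : ∀ u w, ¬ G.Adj u w → K₂ u w = 0 := fun u w h => by
    simp only [K₂]
    rw [hK₁G u w h, hKG u w h, sub_zero]
  have htot : ∑ v, (f₁ v + 1) + ∑ v, (f₂ v + 1) = ∑ v, D v + 2 * Fintype.card V := by
    rw [← Finset.sum_add_distrib]
    have : ∀ v, f₁ v + 1 + (f₂ v + 1) = D v + 2 := fun v => by
      have := hf12 v
      omega
    rw [Finset.sum_congr rfl fun v _ => this v, Finset.sum_add_distrib, Finset.sum_const,
      Finset.card_univ, smul_eq_mul]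
    ring
  have hfin : ∀ D₁ D₂ : V → ℕ, Even (∑ v, D₁ v) → Even (∑ v, D₂ v) →
      (∀ v, D₁ v + D₂ v = D v + 2) → (∃ s : V → ℝ, (∀ v, (f₁ v : ℝ) + 1 + s v = D₁ v) ∧
        ∀ T T' : Finset V, Disjoint T T' → ∑ v ∈ T, s v - ∑ v ∈ T', s v ≤ 1) →
      (∃ s : V → ℝ, (∀ v, (f₂ v : ℝ) + 1 + s v = D₂ v) ∧
        ∀ T T' : Finset V, Disjoint T T' → ∑ v ∈ T, s v - ∑ v ∈ T', s v ≤ 1) → HasUPS G := by
    rintro D₁ D₂ e1 e2 h12 ⟨s₁, hs₁, hs₁'⟩ ⟨s₂, hs₂, hs₂'⟩
    refine gen_finish_K P hP hd2 hd hcut D₁ D₂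
      (fun u w => (c₁ u w + 2 / d) * ((d : ℝ) - 1)) (fun u w => (c₂ u w + 2 / d) * ((d : ℝ) - 1)) c
      ⟨e1, fun u w => m' u w, s₁, hK₁0, hK₁s, hK₁G, hK₁c, fun v => ?_, hs₁'⟩
      ⟨e2, K₂, s₂, hK₂0, hK₂s, hK₂G, hK₂c, fun v => ?_, hs₂'⟩
      (fun u w h => (hc₁ u w h).2) (fun u w h => (hc₂ u w h).2) (fun v => ?_)
    · rw [hf₁ v]
      exact hs₁ v
    · rw [hf₂ v]
      exact hs₂ v
    · have h1 := h12 v
      have h2 := hc v
      omega
  by_cases hpar : Even (∑ v, (f₁ v + 1))
  · refine hfin (fun v => f₁ v + 1) (fun v => f₂ v + 1) hpar ?_ (fun v => ?_)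
      ⟨fun _ => 0, fun v => ?_, fun T T' _ => ?_⟩ ⟨fun _ => 0, fun v => ?_, fun T T' _ => ?_⟩
    · rw [Nat.even_iff] at hpar heven ⊢
      omega
    · have := hf12 v
      omega
    · push_cast; ring
    · simp
    · push_cast; ring
    · simp
  · obtain ⟨v0⟩ : Nonempty V := inferInstance
    have hs1 : ∑ v, (f₁ v + 1 + if v = v0 then 1 else 0) = ∑ v, (f₁ v + 1) + 1 := by
      rw [Finset.sum_add_distrib, Finset.sum_ite_eq']
      simp
    have hs2 : ∑ v, (f₂ v + if v = v0 then 0 else 1) + 1 = ∑ v, (f₂ v + 1) := by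
      have h1 : ∀ v, (f₂ v + if v = v0 then 0 else 1) + (if v = v0 then 1 else 0) = f₂ v + 1 := by
        intro v
        split_ifs <;> rfl
      rw [← Finset.sum_congr rfl fun v _ => h1 v, Finset.sum_add_distrib (f := fun v =>
        f₂ v + if v = v0 then 0 else 1)]
      simp
    refine hfin (fun v => f₁ v + 1 + if v = v0 then 1 else 0)
      (fun v => f₂ v + if v = v0 then 0 else 1) ?_ ?_ (fun v => ?_)
      ⟨fun v => if v = v0 then 1 else 0, fun v => ?_, fun T T' h => ?_⟩
      ⟨fun v => if v = v0 then -1 else 0, fun v => ?_, fun T T' h => ?_⟩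
    · rw [Nat.even_iff] at hpar ⊢
      rw [hs1]
      omega
    · rw [Nat.even_iff] at hpar heven ⊢
      omega
    · have h1 := hf12 v
      split_ifs <;> omega
    · push_cast; rfl
    · exact ind_bound v0 1 (by norm_num) le_rfl T T' h
    · push_cast
      split_ifs <;> ring
    · exact ind_bound v0 (-1) le_rfl (by norm_num) T T' h

end PM

end Pool.Agent.UPS2
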