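import Pool.Agent.Lib.MP_876e19_co_ups.TwoStageK

/-!
# Two stages of toggles, edgewise capacities, sharp fractional part (MP_876e19_co, helper91)

`two_stage_K2` : natural availabilities `a₁`, `a₂` of the edges in the two stages, `d + 1 ≤ a₁`,
`2 ≤ a₂`, real weights `K` with integral degrees `D`, even sum, `load + D + 2` constant,
`K + 1 + 2/d < (a₁ + a₂ - 1)/(d-1)` on the edges.  (`K₂ = min ⌊K⌋ (⌈c₂⌉ - 1)`, `K₁ = K - K₂`.)
-/

set_option autoImplicit false

open Finset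

namespace Pool.Agent.UPS2

namespace PM

open HTutte UPS3 EC UPS UPS.TS

variable {V : Type*} [Fintype V] [DecidableEq V] {G : SimpleGraph V}

/-- **Two stages from real edge weights, sharp form.** -/
theorem two_stage_K2 [Nontrivial V] (P : ∀ x y : V, G.Walk x y) (hP : Paths P) {d : ℕ}
    (hd2 : 2 ≤ d) (hd : ∀ v, dg G v = d)
    (hcut : ∀ S : Finset V, S.Nonempty → S ≠ univ → d ≤ cut G S)
    (K : V → V → ℝ) (hK0 : ∀ v w, 0 ≤ K v w) (hKs : ∀ v w, K v w = K w v)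
    (hKG : ∀ v w, ¬ G.Adj v w → K v w = 0)
    (D : V → ℕ) (hKD : ∀ v, ∑ w, K v w = D v) (heven : Even (∑ v, D v)) (c : ℕ)
    (hc : ∀ v, load P v + D v + 2 = c) (a₁ a₂ : V → V → ℕ)
    (hsym : ∀ u w, a₂ u w = a₂ w u)
    (ha₁ : ∀ u w, G.Adj u w → d + 1 ≤ a₁ u w) (ha₂ : ∀ u w, G.Adj u w → 2 ≤ a₂ u w)
    (hout : ∀ u w, G.Adj u w → a₁ u w + 2 + outKill P u w + outKill P w u ≤ Fintype.card V)
    (hin : ∀ u w, G.Adj u w → a₂ u w + 4 + inKill P u w + inKill P w u ≤ Fintype.card V)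
    (hKc : ∀ u w, G.Adj u w → K u w + 1 + 2 / d <
      ((a₁ u w : ℝ) + a₂ u w - 1) / ((d : ℝ) - 1)) : HasUPS G := by
  classical
  have hd0R : (0 : ℝ) < d := by
    have : 0 < d := by omega
    exact_mod_cast this
  have hd1 : (0 : ℝ) < (d : ℝ) - 1 := by
    have : (2 : ℝ) ≤ d := by exact_mod_cast hd2
    linarith
  let c₁ : V → V → ℝ := fun u w => (a₁ u w : ℝ) / ((d : ℝ) - 1) - 2 / d
  let c₂ : V → V → ℝ := fun u w => (a₂ u w : ℝ) / ((d : ℝ) - 1) - 2 / d
  have hc₁1 : ∀ u w, G.Adj u w → 1 ≤ c₁ u w := by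
    intro u w h
    have h1 : ((d : ℝ) + 1) ≤ a₁ u w := by exact_mod_cast ha₁ u w h
    have h2 : ((d : ℝ) + 1) / ((d : ℝ) - 1) ≤ (a₁ u w : ℝ) / ((d : ℝ) - 1) :=
      div_le_div_of_nonneg_right h1 hd1.le
    have h3 : (1 : ℝ) + 2 / d ≤ ((d : ℝ) + 1) / ((d : ℝ) - 1) := by
      rw [le_div_iff₀ hd1, add_mul, div_mul_eq_mul_div, one_mul]
      have : 2 * ((d : ℝ) - 1) / d ≤ 2 := by
        rw [div_le_iff₀ hd0R]
        linarith
      linarith
    simp only [c₁]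
    linarith
  have hc₂0 : ∀ u w, G.Adj u w → 0 < c₂ u w := by
    intro u w h
    have h1 : (2 : ℝ) ≤ a₂ u w := by exact_mod_cast ha₂ u w h
    have h2 : (2 : ℝ) / ((d : ℝ) - 1) ≤ (a₂ u w : ℝ) / ((d : ℝ) - 1) :=
      div_le_div_of_nonneg_right h1 hd1.le
    have h3 : (2 : ℝ) / d < 2 / ((d : ℝ) - 1) := by
      apply div_lt_div_of_pos_left two_pos hd1
      linarith
    simp only [c₂]
    linarith
  -- the sharp fractional part
  have hceil : ∀ u w, ((a₂ u w : ℝ) - 1) / ((d : ℝ) - 1) ≤ ⌈c₂ u w⌉ := by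
    intro u w
    have h1 := Int.le_ceil (c₂ u w)
    set m : ℤ := ⌈c₂ u w⌉ with hm
    have h2 : (a₂ u w : ℝ) / ((d : ℝ) - 1) - 2 / d ≤ m := h1
    have h3 : (a₂ u w : ℝ) < m * ((d : ℝ) - 1) + 2 := by
      have h4 : (a₂ u w : ℝ) / ((d : ℝ) - 1) ≤ m + 2 / d := by linarith
      rw [div_le_iff₀ hd1] at h4
      have h5 : 2 / (d : ℝ) * ((d : ℝ) - 1) < 2 := by
        rw [div_mul_eq_mul_div, div_lt_iff₀ hd0R]
        linarith
      nlinarith
    have h4 : (a₂ u w : ℤ) < m * ((d : ℤ) - 1) + 2 := by exact_mod_cast h3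
    have h5 : (a₂ u w : ℤ) - 1 ≤ m * ((d : ℤ) - 1) := by omega
    have h6 : (a₂ u w : ℝ) - 1 ≤ m * ((d : ℝ) - 1) := by exact_mod_cast h5
    rw [div_le_iff₀ hd1]
    exact h6
  -- the integral second part
  let m : V → V → ℤ := fun u w => if G.Adj u w then min ⌊K u w⌋ (⌈c₂ u w⌉ - 1) else 0
  have hm0 : ∀ u w, 0 ≤ m u w := by
    intro u w
    simp only [m]
    split_ifs with h
    · refine le_min (Int.floor_nonneg.2 (hK0 u w)) ?_
      have := Int.ceil_pos.2 (hc₂0 u w h)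
      omega
    · exact le_rfl
  have hms : ∀ u w, m u w = m w u := by
    intro u w
    simp only [m, c₂]
    rw [hKs u w, hsym u w]
    exact if_congr (SimpleGraph.adj_comm _ _ _) rfl rfl
  have hmK : ∀ u w, (m u w : ℝ) ≤ K u w := by
    intro u w
    simp only [m]
    split_ifs with h
    · refine le_trans ?_ (Int.floor_le (K u w))
      exact_mod_cast min_le_left _ _
    · rw [hKG u w h]
      simp
  have hmc : ∀ u w, G.Adj u w → (m u w : ℝ) < c₂ u w := by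
    intro u w h
    simp only [m, if_pos h]
    have h1 : ((min ⌊K u w⌋ (⌈c₂ u w⌉ - 1) : ℤ) : ℝ) ≤ ((⌈c₂ u w⌉ - 1 : ℤ) : ℝ) := by
      exact_mod_cast min_le_right _ _
    refine lt_of_le_of_lt h1 ?_
    push_cast
    have := Int.ceil_lt_add_one (c₂ u w)
    linarith
  have hmc₁ : ∀ u w, G.Adj u w → K u w - m u w < c₁ u w := by
    intro u w h
    simp only [m, if_pos h]
    rcases min_choice ⌊K u w⌋ (⌈c₂ u w⌉ - 1) with h1 | h1
    · rw [h1]
      have := Int.lt_floor_add_one (K u w)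
      have := hc₁1 u w h
      linarith
    · rw [h1]
      push_cast
      have h2 := hceil u w
      have h3 := hKc u w h
      simp only [c₁]
      have h4 : ((a₁ u w : ℝ) + a₂ u w - 1) / ((d : ℝ) - 1) =
          (a₁ u w : ℝ) / ((d : ℝ) - 1) + ((a₂ u w : ℝ) - 1) / ((d : ℝ) - 1) := by
        rw [← add_div]
        ring
      rw [h4] at h3
      linarith
  obtain ⟨m', hm'⟩ : ∃ m' : V → V → ℕ, ∀ u w, m u w = (m' u w : ℤ) :=
    ⟨fun u w => (m u w).toNat, fun u w => (Int.toNat_of_nonneg (hm0 u w)).symm⟩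
  have hmR : ∀ u w, (m u w : ℝ) = (m' u w : ℝ) := fun u w => by
    rw [hm' u w]
    push_cast
    rfl
  let K₁ : V → V → ℝ := fun u w => K u w - m' u w
  have hf : ∀ v, ∑ w, m' v w ≤ D v := by
    intro v
    have h1 : ((∑ w, m' v w : ℕ) : ℝ) ≤ D v := by
      rw [← hKD v]
      push_cast
      refine Finset.sum_le_sum fun w _ => ?_
      rw [← hmR]
      exact hmK v w
    exact_mod_cast h1
  let f₂ : V → ℕ := fun v => ∑ w, m' v w
  let f₁ : V → ℕ := fun v => D v - f₂ v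
  have hf12 : ∀ v, f₁ v + f₂ v = D v := fun v => by
    have := hf v
    simp only [f₂, f₁]
    omega
  have hf₂ : ∀ v, ∑ w, (m' v w : ℝ) = f₂ v := fun v => by
    simp only [f₂]
    push_cast
    rfl
  have hf₁ : ∀ v, ∑ w, K₁ v w = f₁ v := fun v => by
    simp only [K₁]
    rw [Finset.sum_sub_distrib, hKD v, hf₂ v, ← hf12 v]
    push_cast
    ring
  -- the two stages
  have hK₂c : ∀ u w, G.Adj u w → (m' u w : ℝ) + 2 / d < (a₂ u w : ℝ) / ((d : ℝ) - 1) := by
    intro u w h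
    rw [← hmR]
    have := hmc u w h
    simp only [c₂] at this
    linarith
  have hK₁c : ∀ u w, G.Adj u w → K₁ u w + 2 / d < (a₁ u w : ℝ) / ((d : ℝ) - 1) := by
    intro u w h
    simp only [K₁]
    rw [← hmR]
    have := hmc₁ u w h
    simp only [c₁] at this
    linarith
  have hK₂0 : ∀ u w, (0 : ℝ) ≤ (m' u w : ℝ) := fun u w => Nat.cast_nonneg _
  have hK₂s : ∀ u w, (m' u w : ℝ) = m' w u := fun u w => by
    rw [← hmR, ← hmR, hms]
  have hK₂G : ∀ u w, ¬ G.Adj u w → (m' u w : ℝ) = 0 := fun u w h => by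
    rw [← hmR]
    simp only [m, if_neg h]
    simp
  have hK₁0 : ∀ u w, 0 ≤ K₁ u w := fun u w => by
    simp only [K₁]
    rw [← hmR]
    exact sub_nonneg.2 (hmK u w)
  have hK₁s : ∀ u w, K₁ u w = K₁ w u := fun u w => by
    simp only [K₁]
    rw [hK₂s u w, hKs u w]
  have hK₁G : ∀ u w, ¬ G.Adj u w → K₁ u w = 0 := fun u w h => by
    simp only [K₁]
    rw [hK₂G u w h, hKG u w h, sub_zero]
  have htot : ∑ v, (f₁ v + 1) + ∑ v, (f₂ v + 1) = ∑ v, D v + 2 * Fintype.card V := by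
    rw [← Finset.sum_add_distrib]
    have : ∀ v, f₁ v + 1 + (f₂ v + 1) = D v + 2 := fun v => by
      have := hf12 v
      omega
    rw [Finset.sum_congr rfl fun v _ => this v, Finset.sum_add_distrib, Finset.sum_const,
      Finset.card_univ, smul_eq_mul]
    ring
  have hfin : ∀ D₁ D₂ : V → ℕ, Even (∑ v, D₁ v) → Even (∑ v, D₂ v) →
      (∀ v, D₁ v + D₂ v = D v + 2) → (∃ s : V → ℝ, (∀ v, (f₁ v : ℝ) + 1 + s v = D₁ v) ∧
        ∀ T T' : Finset V, Disjoint T T' → ∑ v ∈ T, s v - ∑ v ∈ T', s v ≤ 1) →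
      (∃ s : V → ℝ, (∀ v, (f₂ v : ℝ) + 1 + s v = D₂ v) ∧
        ∀ T T' : Finset V, Disjoint T T' → ∑ v ∈ T, s v - ∑ v ∈ T', s v ≤ 1) → HasUPS G := by
    rintro D₁ D₂ e1 e2 h12 ⟨s₁, hs₁, hs₁'⟩ ⟨s₂, hs₂, hs₂'⟩
    refine gen_finish_K P hP hd2 hd hcut D₁ D₂
      (fun u w => (a₁ u w : ℝ)) (fun u w => (a₂ u w : ℝ)) c
      ⟨e1, K₁, s₁, hK₁0, hK₁s, hK₁G, hK₁c, fun v => ?_, hs₁'⟩
      ⟨e2, fun u w => m' u w, s₂, hK₂0, hK₂s, hK₂G, hK₂c, fun v => ?_, hs₂'⟩
      (fun u w h => ?_) (fun u w h => ?_) (fun v => ?_)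
    · rw [hf₁ v]
      exact hs₁ v
    · rw [hf₂ v]
      exact hs₂ v
    · exact_mod_cast hout u w h
    · exact_mod_cast hin u w h
    · have h1 := h12 v
      have h2 := hc v
      omega
  by_cases hpar : Even (∑ v, (f₁ v + 1))
  · refine hfin (fun v => f₁ v + 1) (fun v => f₂ v + 1) hpar ?_ (fun v => ?_)
      ⟨fun _ => 0, fun v => ?_, fun T T' _ => ?_⟩ ⟨fun _ => 0, fun v => ?_, fun T T' _ => ?_⟩
    · rw [Nat.even_iff] at hpar heven ⊢
      omega
    · have := hf12 v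
      omega
    · push_cast; ring
    · simp
    · push_cast; ring
    · simp
  · obtain ⟨v0⟩ : Nonempty V := inferInstance
    have hs1 : ∑ v, (f₁ v + 1 + if v = v0 then 1 else 0) = ∑ v, (f₁ v + 1) + 1 := by
      rw [Finset.sum_add_distrib, Finset.sum_ite_eq']
      simp
    have hs2 : ∑ v, (f₂ v + if v = v0 then 0 else 1) + 1 = ∑ v, (f₂ v + 1) := by
      have h1 : ∀ v, (f₂ v + if v = v0 then 0 else 1) + (if v = v0 then 1 else 0) = f₂ v + 1 := by
        intro v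
        split_ifs <;> rfl
      rw [← Finset.sum_congr rfl fun v _ => h1 v, Finset.sum_add_distrib (f := fun v =>
        f₂ v + if v = v0 then 0 else 1)]
      simp
    refine hfin (fun v => f₁ v + 1 + if v = v0 then 1 else 0)
      (fun v => f₂ v + if v = v0 then 0 else 1) ?_ ?_ (fun v => ?_)
      ⟨fun v => if v = v0 then 1 else 0, fun v => ?_, fun T T' h => ?_⟩
      ⟨fun v => if v = v0 then -1 else 0, fun v => ?_, fun T T' h => ?_⟩
    · rw [Nat.even_iff] at hpar ⊢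
      rw [hs1]
      omega
    · rw [Nat.even_iff] at hpar heven ⊢
      omega
    · have h1 := hf12 v
      split_ifs <;> omega
    · push_cast; rfl
    · exact ind_bound v0 1 (by norm_num) le_rfl T T' h
    · push_cast
      split_ifs <;> ring
    · exact ind_bound v0 (-1) le_rfl (by norm_num) T T' h

end PM

end Pool.Agent.UPS2
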