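import Pool.Agent.Lib.MP_876e19_co_ups.SmallHam1
import Pool.Agent.Lib.MP_876e19_co_ups.TwoClassGroup

/-!
# A fixed point free element of order `p` in a Sylow subgroup, coordinates (MP_876e19_co)

* `exists_semiregular_sylow`: `k p` vertices, `k < p`: an automorphism `z` with `z ^ p = 1` and
  without fixed points;
* `coords`: coordinates `X : Fin k → ZMod p → V` with `z (X i r) = X i (r + 1)`.
-/

set_option autoImplicit false
set_option linter.unusedSectionVars false

namespace Pool.Agent.UPS.W20

open Finset MulAction Pool.Agent.UPS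

variable {V : Type*} {G : SimpleGraph V}

theorem exists_semiregular_sylow [Fintype V] (hT : VT G) {p k : ℕ} (hp : p.Prime)
    (hcard : Fintype.card V = k * p) (hkp : k < p) :
    ∃ z : G ≃g G, z ^ p = 1 ∧ ∀ v, z v ≠ v := by
  classical
  have := Fact.mk hp
  have hfin : Finite (G ≃g G) :=
    Finite.of_injective (fun φ : G ≃g G => (φ : V → V)) DFunLike.coe_injective
  have : IsPretransitive (G ≃g G) V := ⟨fun u v => hT u v⟩
  obtain ⟨P⟩ : Nonempty (Sylow p (G ≃g G)) := inferInstance
  let Q : Subgroup (G ≃g G) := (P : Subgroup (G ≃g G))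
  have hQ : IsPGroup p Q := P.isPGroup'
  have : Fintype Q := Fintype.ofFinite _
  have horb : ∀ u : V, (orbit Q u).ncard = p := by
    intro u
    obtain ⟨b, hb1, hb⟩ := TC.sylow_orbit (Γ := G ≃g G) (V := V) (a := 1) hp
      (by rw [pow_one, Nat.card_eq_fintype_card, hcard]; exact dvd_mul_left _ _) P u
    have hb' : (orbit Q u).ncard = p ^ b := hb
    have h1 : (orbit Q u).ncard ≤ Fintype.card V := by
      rw [← Nat.card_eq_fintype_card, ← Set.ncard_univ]
      exact Set.ncard_le_ncard (Set.subset_univ _) (Set.toFinite _)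
    rw [hb', hcard] at h1
    have h2 : b < 2 := by
      by_contra hcon
      have h3 : p ^ 2 ≤ p ^ b := Nat.pow_le_pow_right hp.pos (by omega)
      have h4 : k * p < p * p := Nat.mul_lt_mul_of_pos_right hkp hp.pos
      rw [pow_two] at h3
      omega
    have h3 : b = 1 := by omega
    rw [hb', h3, pow_one]
  have hstab : ∀ u : V, (stabilizer Q u).index = p := by
    intro u
    rw [index_stabilizer, horb]
  have hnorm : ∀ u : V, (stabilizer Q u).Normal := fun u =>
    TC.normal_of_index_prime hp hQ _ (hstab u)
  by_cases hex : ∃ g : Q, ∀ u : V, g • u ≠ u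
  · obtain ⟨g, hg⟩ := hex
    refine ⟨(g : G ≃g G), ?_, fun v => hg v⟩
    ext u
    have := hnorm u
    have h3 := Subgroup.pow_index_mem (stabilizer Q u) g
    rw [hstab, mem_stabilizer_iff] at h3
    exact h3
  · exfalso
    push Not at hex
    have hfix : ∀ g : Q, p ≤ (univ.filter fun u : V => g • u = u).card := by
      intro g
      obtain ⟨u, hu⟩ := hex g
      rw [← horb u, Set.ncard_eq_toFinset_card']
      apply card_le_card
      intro w hw
      rw [Set.mem_toFinset] at hw
      obtain ⟨h, rfl⟩ := hw
      simp only [mem_filter, mem_univ, true_and]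
      have h1 := (hnorm u).conj_mem g (mem_stabilizer_iff.2 hu) h⁻¹
      rw [inv_inv, mem_stabilizer_iff, mul_smul, mul_smul, inv_smul_eq_iff] at h1
      exact h1
    have hdouble : ∑ g : Q, (univ.filter fun u : V => g • u = u).card =
        ∑ u : V, (univ.filter fun g : Q => g • u = u).card := by
      simp only [card_filter]
      exact Finset.sum_comm
    have hst : ∀ u : V, (univ.filter fun g : Q => g • u = u).card * p = Fintype.card Q := by
      intro u
      have h1 := (stabilizer Q u).card_mul_index
      rw [hstab u, Nat.card_eq_fintype_card (α := Q)] at h1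
      rw [← h1]
      congr 1
      rw [Nat.card_eq_fintype_card, Fintype.card_subtype]
      rfl
    have h2 : (∑ g : Q, (univ.filter fun u : V => g • u = u).card) * p =
        k * p * Fintype.card Q := by
      rw [hdouble, sum_mul, sum_congr rfl (fun u _ => hst u), sum_const, card_univ, hcard,
        smul_eq_mul]
    have h3 : p * Fintype.card Q ≤ ∑ g : Q, (univ.filter fun u : V => g • u = u).card := by
      have := Finset.card_nsmul_le_sum (univ : Finset Q)
        (fun g => (univ.filter fun u : V => g • u = u).card) p (fun g _ => hfix g)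
      rw [card_univ, smul_eq_mul, mul_comm] at this
      exact this
    have h4 : 0 < Fintype.card Q := Fintype.card_pos
    have h5 : p * Fintype.card Q * p ≤ k * p * Fintype.card Q := by
      rw [← h2]
      exact Nat.mul_le_mul_right _ h3
    have h6 : k * p * Fintype.card Q < p * Fintype.card Q * p := by
      have e1 : k * p * Fintype.card Q = k * (p * Fintype.card Q) := by ring
      have e2 : p * Fintype.card Q * p = p * (p * Fintype.card Q) := by ring
      rw [e1, e2]
      exact Nat.mul_lt_mul_of_pos_right hkp (Nat.mul_pos hp.pos h4)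
    omega

/-- coordinates for a fixed point free automorphism of prime order -/
theorem coords [Fintype V] {p k : ℕ} (hp : p.Prime) (hcard : Fintype.card V = k * p)
    (z : G ≃g G) (hz : z ^ p = 1) (hfix : ∀ v, z v ≠ v) :
    ∃ X : Fin k → ZMod p → V, (∀ i r, z (X i r) = X i (r + 1)) ∧
      Function.Bijective fun q : Fin k × ZMod p => X q.1 q.2 := by
  classical
  have : NeZero p := ⟨hp.ne_zero⟩
  have hmod : ∀ (a : ℕ) (v : V), (z ^ (a % p)) v = (z ^ a) v := by
    intro a v
    have h1 : z ^ a = z ^ (a % p) := by
      conv_lhs => rw [← Nat.div_add_mod a p, pow_add, pow_mul, hz, one_pow, one_mul]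
    rw [h1]
  let O : V → Finset V := fun v => univ.image fun r : ZMod p => (z ^ r.val) v
  have hmem : ∀ (v : V) (a : ℕ), (z ^ a) v ∈ O v := by
    intro v a
    simp only [O, mem_image, mem_univ, true_and]
    refine ⟨(a : ZMod p), ?_⟩
    rw [ZMod.val_natCast, hmod]
  have hself : ∀ v, v ∈ O v := fun v => by simpa using hmem v 0
  have hOcard : ∀ v, (O v).card = p := by
    intro v
    simp only [O]
    rw [card_image_of_injective, card_univ, ZMod.card]
    intro r s hrs
    have h1 := pow_apply_inj hp hz (hfix v) hrs
    rw [Nat.mod_eq_of_lt (ZMod.val_lt r), Nat.mod_eq_of_lt (ZMod.val_lt s)] at h1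
    exact ZMod.val_injective p h1
  have hsub : ∀ v w, w ∈ O v → O w ⊆ O v := by
    intro v w hw u hu
    simp only [O, mem_image, mem_univ, true_and] at hw hu
    obtain ⟨r, rfl⟩ := hw
    obtain ⟨s, rfl⟩ := hu
    rw [← pow_add_apply]
    exact hmem v _
  have heq : ∀ v w, w ∈ O v → O w = O v := fun v w hw =>
    Finset.eq_of_subset_of_card_le (hsub v w hw) (by rw [hOcard, hOcard])
  have hfib : ∀ c ∈ univ.image O, (univ.filter fun v => O v = c).card = p := by
    intro c hc
    rw [mem_image] at hc
    obtain ⟨w, _, rfl⟩ := hc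
    have h1 : (univ.filter fun v => O v = O w) = O w := by
      ext v
      simp only [mem_filter, mem_univ, true_and]
      exact ⟨fun h => h ▸ hself v, fun h => heq w v h⟩
    rw [h1, hOcard]
  have hC : (univ.image O).card = k := by
    have h1 := Finset.card_eq_sum_card_image O (univ : Finset V)
    rw [sum_congr rfl hfib, sum_const, smul_eq_mul, card_univ, hcard] at h1
    exact (Nat.eq_of_mul_eq_mul_right hp.pos h1).symm
  let e := (univ.image O).equivFinOfCardEq hC
  have hrep : ∀ i : Fin k, ∃ v, O v = (e.symm i : Finset V) := by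
    intro i
    have h1 := (e.symm i).2
    rw [mem_image] at h1
    obtain ⟨v, _, hv⟩ := h1
    exact ⟨v, hv⟩
  choose x hx using hrep
  refine ⟨fun i r => (z ^ r.val) (x i), ?_, ?_⟩
  · intro i r
    have h1 : z ((z ^ r.val) (x i)) = (z ^ (r.val + 1)) (x i) := by
      rw [pow_succ']; rfl
    rw [h1, ← hmod]
    congr 2
    rw [ZMod.val_add]
    rcases Nat.lt_or_ge 1 p with h | h
    · rw [ZMod.val_one'' (by omega), ]
    · exact absurd hp.one_lt (by omega)
  · rw [Fintype.bijective_iff_injective_and_card]
    refine ⟨?_, ?_⟩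
    · rintro ⟨i, r⟩ ⟨j, s⟩ h
      have h : (z ^ r.val) (x i) = (z ^ s.val) (x j) := h
      have h1 : O (x i) = O (x j) := by
        have e1 := heq _ _ (hmem (x i) r.val)
        have e2 := heq _ _ (hmem (x j) s.val)
        rw [← e1, ← e2, h]
      rw [hx, hx] at h1
      have h2 : i = j := e.symm.injective (Subtype.ext h1)
      subst h2
      have h3 := pow_apply_inj hp hz (hfix _) h
      rw [Nat.mod_eq_of_lt (ZMod.val_lt r), Nat.mod_eq_of_lt (ZMod.val_lt s)] at h3
      rw [ZMod.val_injective p h3]
    · rw [Fintype.card_prod, Fintype.card_fin, ZMod.card, hcard]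

end Pool.Agent.UPS.W20
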