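import Pool.Agent.Lib.MP_876e19_co_ups.Win20b
import Pool.Agent.Lib.MP_876e19_co_ups.Win20c

/-!
# 20 vertices, degree 5: Hamilton cycle (MP_876e19_co, window)
-/

set_option autoImplicit false
set_option linter.unusedSectionVars false

namespace Pool.Agent.UPS.W20

open Finset Pool.Agent.UPS

variable {V : Type*} {G : SimpleGraph V}

/-! ### the certificate -/

def adjB (a0 a1 a2 a3 : Bool) (a b : ℕ) : Bool :=
  let s := if a / 5 = 0 then (if a0 then 1 else 2) else if a / 5 = 1 then (if a1 then 1 else 2)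
    else if a / 5 = 2 then (if a2 then 1 else 2) else (if a3 then 1 else 2)
  (decide (a / 5 = b / 5) && (decide (b % 5 = (a % 5 + s) % 5) ||
    decide (a % 5 = (b % 5 + s) % 5))) ||
  (decide (a % 5 = b % 5) && (decide (b / 5 = (a / 5 + 1) % 4) ||
    decide (a / 5 = (b / 5 + 1) % 4)))

def trav (s : ℕ × ℕ × ℕ × ℕ) : List ℕ :=
  (List.range 5).map (fun k => (k * s.1) % 5) ++
  (List.range 5).map (fun k => 5 + (4 * s.1 + k * s.2.1) % 5) ++
  (List.range 5).map (fun k => 10 + (4 * s.1 + 4 * s.2.1 + k * s.2.2.1) % 5) ++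
  (List.range 5).map (fun k => 15 + (4 * s.1 + 4 * s.2.1 + 4 * s.2.2.1 + k * s.2.2.2) % 5)

def sgn : Bool → Bool → Bool → Bool → ℕ × ℕ × ℕ × ℕ
  | true, true, true, true => (1, 1, 4, 4)
  | true, true, true, false => (1, 1, 1, 2)
  | true, true, false, true => (1, 1, 2, 1)
  | true, true, false, false => (1, 4, 2, 3)
  | true, false, true, true => (1, 2, 1, 1)
  | true, false, true, false => (1, 2, 4, 3)
  | true, false, false, true => (1, 2, 3, 4)
  | true, false, false, false => (1, 3, 3, 3)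
  | false, true, true, true => (2, 1, 1, 1)
  | false, true, true, false => (2, 1, 4, 3)
  | false, true, false, true => (2, 1, 3, 4)
  | false, true, false, false => (2, 4, 2, 2)
  | false, false, true, true => (2, 3, 1, 4)
  | false, false, true, false => (2, 2, 4, 2)
  | false, false, false, true => (2, 2, 2, 4)
  | false, false, false, false => (2, 2, 3, 3)

lemma cert : ∀ a0 a1 a2 a3 : Bool, certOK (adjB a0 a1 a2 a3) 20 (trav (sgn a0 a1 a2 a3)) = true := by
  decide

/-! ### voltages -/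

section Volt

variable [Fintype V] [DecidableEq V] [DecidableRel G.Adj]

def Cs (G : SimpleGraph V) [DecidableRel G.Adj] (X : Fin 4 → ZMod 5 → V) (i j : Fin 4) :
    Finset (ZMod 5) := univ.filter fun c => G.Adj (X i 0) (X j c)

variable {X : Fin 4 → ZMod 5 → V} {z : G ≃g G}

lemma shift_nat (hX : ∀ i r, z (X i r) = X i (r + 1)) (i j : Fin 4) (s : ZMod 5) (n : ℕ) :
    G.Adj (X i (n : ZMod 5)) (X j (s + n)) ↔ G.Adj (X i 0) (X j s) := by
  induction n with
  | zero => simp
  | succ n ih =>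
    rw [← ih]
    have e1 : X i ((n + 1 : ℕ) : ZMod 5) = z (X i (n : ZMod 5)) := by rw [hX]; push_cast; rfl
    have e2 : X j (s + ((n + 1 : ℕ) : ZMod 5)) = z (X j (s + n)) := by
      rw [hX]; push_cast; rw [add_assoc]
    rw [e1, e2, z.map_adj_iff]

lemma adj_iff (hX : ∀ i r, z (X i r) = X i (r + 1)) (i j : Fin 4) (r s : ZMod 5) :
    G.Adj (X i r) (X j s) ↔ s - r ∈ Cs G X i j := by
  have h := shift_nat (G := G) hX i j (s - r) r.val
  rw [ZMod.natCast_zmod_val, sub_add_cancel] at h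
  rw [h]
  simp [Cs]

lemma zpow_X (hX : ∀ i r, z (X i r) = X i (r + 1)) (i : Fin 4) (r : ZMod 5) (n : ℕ) :
    (z ^ n) (X i r) = X i (r + n) := by
  induction n with
  | zero => simp
  | succ n ih =>
    have h1 : (z ^ (n + 1)) (X i r) = z ((z ^ n) (X i r)) := by rw [pow_succ']; rfl
    rw [h1, ih, hX]
    push_cast
    rw [add_assoc]

/-- ordered pairs of adjacent neighbours -/
def TT (G : SimpleGraph V) [DecidableRel G.Adj] (v : V) : ℕ :=
  ∑ u : V, ∑ w : V, if G.Adj v u ∧ G.Adj v w ∧ G.Adj u w then 1 else 0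

lemma TT_iso (φ : G ≃g G) (v : V) : TT G (φ v) = TT G v := by
  unfold TT
  rw [← Equiv.sum_comp φ.toEquiv]
  apply Finset.sum_congr rfl
  intro u _
  rw [← Equiv.sum_comp φ.toEquiv]
  apply Finset.sum_congr rfl
  intro w _
  have h1 : ∀ a b : V, G.Adj (φ.toEquiv a) (φ.toEquiv b) ↔ G.Adj a b := fun a b => φ.map_adj_iff
  have h2 : ∀ a : V, φ a = φ.toEquiv a := fun a => rfl
  rw [h2]
  simp only [h1]

lemma TT_eq (hX : ∀ i r, z (X i r) = X i (r + 1))
    (hb : Function.Bijective fun q : Fin 4 × ZMod 5 => X q.1 q.2) (i : Fin 4) :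
    TT G (X i 0) = tri (Cs G X) i := by
  unfold TT tri
  let e := Equiv.ofBijective _ hb
  rw [← Equiv.sum_comp e]
  simp_rw [← Equiv.sum_comp e (fun w => if _ ∧ G.Adj (X i 0) w ∧ G.Adj _ w then 1 else 0)]
  rw [Fintype.sum_prod_type]
  apply Finset.sum_congr rfl
  intro j _
  simp_rw [Fintype.sum_prod_type]
  rw [Finset.sum_comm]
  apply Finset.sum_congr rfl
  intro l _
  unfold ff
  rw [card_filter, sum_product]
  have h1 : ∀ j c, e (j, c) = X j c := fun _ _ => rfl
  simp only [h1, adj_iff hX, sub_zero]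
  rw [← Finset.sum_filter_add_sum_filter_not univ (fun c => c ∈ Cs G X i j)]
  have h2 : ∑ x ∈ univ.filter (fun c => ¬ c ∈ Cs G X i j), ∑ c' : ZMod 5,
      (if x ∈ Cs G X i j ∧ c' ∈ Cs G X i l ∧ c' - x ∈ Cs G X j l then 1 else 0) = 0 := by
    apply Finset.sum_eq_zero
    intro c hc
    rw [mem_filter] at hc
    apply Finset.sum_eq_zero
    intro c' _
    rw [if_neg (fun h => hc.2 h.1)]
  rw [h2, add_zero, filter_mem_eq_inter, univ_inter]
  apply Finset.sum_congr rfl
  intro c hc
  rw [← Finset.sum_filter_add_sum_filter_not univ (fun c' => c' ∈ Cs G X i l)]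
  have h3 : ∑ x ∈ univ.filter (fun c' => ¬ c' ∈ Cs G X i l),
      (if c ∈ Cs G X i j ∧ x ∈ Cs G X i l ∧ x - c ∈ Cs G X j l then 1 else 0) = 0 := by
    apply Finset.sum_eq_zero
    intro c' hc'
    rw [mem_filter] at hc'
    rw [if_neg (fun h => hc'.2 h.2.1)]
  rw [h3, add_zero, filter_mem_eq_inter, univ_inter]
  apply Finset.sum_congr rfl
  intro c' hc'
  simp [hc, hc']

lemma vol (hG : G.Connected) (hT : VT G) (hreg : ∀ v, (univ.filter fun w => G.Adj v w).card = 5)
    (hX : ∀ i r, z (X i r) = X i (r + 1))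
    (hb : Function.Bijective fun q : Fin 4 × ZMod 5 => X q.1 q.2) : Vol (Cs G X) := by
  let e := Equiv.ofBijective _ hb
  have he : ∀ j c, e (j, c) = X j c := fun _ _ => rfl
  have hsymm : ∀ i j c, c ∈ Cs G X i j → -c ∈ Cs G X j i := by
    intro i j c hc
    have h1 := (adj_iff (G := G) hX i j 0 c).2 (by rwa [sub_zero])
    have h2 := (adj_iff (G := G) hX j i c 0).1 h1.symm
    rwa [zero_sub] at h2
  refine ⟨hsymm, ?_, ?_, ?_, ?_⟩
  · intro i h
    simp [Cs] at h
  · intro i
    refine Eq.trans ?_ (hreg (X i 0))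
    rw [card_filter, ← Equiv.sum_comp e, Fintype.sum_prod_type]
    apply Finset.sum_congr rfl
    intro j _
    unfold Cs
    rw [card_filter]
    rfl
  · intro i j
    rw [← TT_eq hX hb, ← TT_eq hX hb]
    obtain ⟨φ, hφ⟩ := hT (X i 0) (X j 0)
    rw [← hφ, TT_iso]
  · intro S h1 h2
    by_contra hcon
    push Not at hcon
    obtain ⟨a, ha⟩ := h1
    obtain ⟨b, hb'⟩ := h2
    have hstep : ∀ u v, G.Adj u v → S (e.symm u).1 = S (e.symm v).1 := by
      intro u v huv
      have hu : X (e.symm u).1 (e.symm u).2 = u := e.apply_symm_apply u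
      have hv : X (e.symm v).1 (e.symm v).2 = v := e.apply_symm_apply v
      have h3 := huv
      rw [← hu, ← hv, adj_iff hX] at h3
      have h4 := huv.symm
      rw [← hu, ← hv, adj_iff hX] at h4
      cases hSu : S (e.symm u).1 <;> cases hSv : S (e.symm v).1
      · rfl
      · exfalso
        have := hcon _ _ hSv hSu
        rw [this] at h4
        exact absurd h4 (by simp)
      · exfalso
        have := hcon _ _ hSu hSv
        rw [this] at h3
        exact absurd h3 (by simp)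
      · rfl
    have hall : ∀ u v, G.Walk u v → S (e.symm u).1 = S (e.symm v).1 := by
      intro u v p
      induction p with
      | nil => rfl
      | cons h p ih => exact (hstep _ _ h).trans ih
    obtain ⟨p⟩ := hG.preconnected (X a 0) (X b 0)
    have h3 := hall _ _ p
    have e1 : e.symm (X a 0) = (a, 0) := by rw [← he, Equiv.symm_apply_apply]
    have e2 : e.symm (X b 0) = (b, 0) := by rw [← he, Equiv.symm_apply_apply]
    rw [e1, e2, ha, hb'] at h3
    exact absurd h3 (by decide)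

/-- the two lifts -/
theorem lift (hX : ∀ i r, z (X i r) = X i (r + 1)) (hz : z ^ 5 = 1) (hfix : ∀ v, z v ≠ v)
    (hcard : Fintype.card V = 20)
    (hb : Function.Bijective fun q : Fin 4 × ZMod 5 => X q.1 q.2) (_hvol : Vol (Cs G X))
    {a b c d : Fin 4} (hd : Function.Bijective ![a, b, c, d]) {c0 c1 c2 c3 : ZMod 5}
    (h0 : c0 ∈ Cs G X a b) (h1 : c1 ∈ Cs G X b c) (h2 : c2 ∈ Cs G X c d) (h3 : c3 ∈ Cs G X d a)
    (hne : c0 + c1 + c2 + c3 ≠ 0) : HasUPS G := by
  have hinj : ∀ i j r s, X i r = X j s → i = j ∧ r = s := by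
    intro i j r s h
    have := hb.1 (a₁ := (i, r)) (a₂ := (j, s)) h
    simpa using this
  let lab : Fin 4 → Fin 4 := ![a, b, c, d]
  let val : Fin 4 → ZMod 5 := ![0, c0, c0 + c1, c0 + c1 + c2]
  have hm : ∀ n : ℕ, n % 4 < 4 := fun n => Nat.mod_lt n (by norm_num)
  refine hasUPS_of_lift (p := 5) (k := 4) (by norm_num) (by norm_num)
    (by rw [Nat.card_eq_fintype_card, hcard]) z hz hfix
    (fun n => X (lab ⟨n % 4, hm n⟩) (val ⟨n % 4, hm n⟩)) ?_ (c0 + c1 + c2 + c3).val ?_ ?_ ?_
  · intro i hi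
    have hi' : i = 0 ∨ i = 1 ∨ i = 2 := by omega
    rcases hi' with rfl | rfl | rfl
    · refine (adj_iff (G := G) hX a b 0 c0).2 ?_
      rwa [sub_zero]
    · refine (adj_iff (G := G) hX b c c0 (c0 + c1)).2 ?_
      rwa [add_sub_cancel_left]
    · refine (adj_iff (G := G) hX c d (c0 + c1) (c0 + c1 + c2)).2 ?_
      rwa [add_sub_cancel_left]
  · intro hdvd
    apply hne
    have h5 : (c0 + c1 + c2 + c3).val < 5 := ZMod.val_lt _
    have h6 : (c0 + c1 + c2 + c3).val = 0 := Nat.eq_zero_of_dvd_of_lt hdvd h5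
    exact (ZMod.val_eq_zero _).1 h6
  · have h5 : (z ^ (c0 + c1 + c2 + c3).val) (X a 0) = X a (c0 + c1 + c2 + c3) := by
      rw [zpow_X hX, zero_add, ZMod.natCast_zmod_val]
    change G.Adj (X d (c0 + c1 + c2)) ((z ^ (c0 + c1 + c2 + c3).val) (X a 0))
    rw [h5, adj_iff hX, add_sub_cancel_left]
    exact h3
  · intro i hi j hj s h
    rw [zpow_X hX] at h
    have h5 := (hinj _ _ _ _ h).1
    have h6 := hd.1 h5
    have h7 : i % 4 = j % 4 := congrArg Fin.val h6
    omega

theorem lift0 (hX : ∀ i r, z (X i r) = X i (r + 1))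
    (hcard : Fintype.card V = 20)
    (hb : Function.Bijective fun q : Fin 4 × ZMod 5 => X q.1 q.2) (hvol : Vol (Cs G X))
    {a b c d : Fin 4} (hd : Function.Bijective ![a, b, c, d]) {c0 c1 c2 c3 : ZMod 5}
    (h0 : c0 ∈ Cs G X a b) (h1 : c1 ∈ Cs G X b c) (h2 : c2 ∈ Cs G X c d) (h3 : c3 ∈ Cs G X d a)
    (heq : c0 + c1 + c2 + c3 = 0) (hin : ∀ i, (Cs G X i i).card = 2) : HasUPS G := by
  have hinj : ∀ i j r s, X i r = X j s → i = j ∧ r = s := by
    intro i j r s h
    have := hb.1 (a₁ := (i, r)) (a₂ := (j, s)) h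
    simpa using this
  let lab : Fin 4 → Fin 4 := ![a, b, c, d]
  let val : Fin 4 → ZMod 5 := ![0, c0, c0 + c1, c0 + c1 + c2]
  let Y : Fin 4 → ZMod 5 → V := fun i r => X (lab i) (r + val i)
  have hin' : ∀ i, Cs G X i i = {1, 4} ∨ Cs G X i i = {2, 3} := by
    intro i
    rcases hvol.inner i with h | h | h | h
    · have := hin i
      rw [h] at this
      exact absurd this (by decide)
    · exact Or.inl h
    · exact Or.inr h
    · have := hin i
      rw [h] at this
      exact absurd this (by decide)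
  let al : Fin 4 → Bool := fun i => decide (Cs G X (lab i) (lab i) = {1, 4})
  have hstep : ∀ i r, G.Adj (Y i r) (Y i (r + if al i then 1 else 2)) := by
    intro i r
    rw [adj_iff hX]
    have e1 : (r + (if al i then 1 else 2) + val i) - (r + val i) = if al i then 1 else 2 := by
      ring
    rw [e1]
    by_cases h : Cs G X (lab i) (lab i) = {1, 4}
    · have h5 : al i = true := decide_eq_true h
      rw [h5, h]
      decide
    · have h5 : al i = false := decide_eq_false h
      rw [h5, (hin' (lab i)).resolve_left h]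
      decide
  have hcross : ∀ (i : Fin 4) r, G.Adj (Y i r) (Y (i + 1) r) := by
    intro i r
    rw [adj_iff hX]
    fin_cases i
    · change (r + c0) - (r + 0) ∈ Cs G X a b
      have e1 : (r + c0) - (r + 0) = c0 := by ring
      rw [e1]; exact h0
    · change (r + (c0 + c1)) - (r + c0) ∈ Cs G X b c
      have e1 : (r + (c0 + c1)) - (r + c0) = c1 := by ring
      rw [e1]; exact h1
    · change (r + (c0 + c1 + c2)) - (r + (c0 + c1)) ∈ Cs G X c d
      have e1 : (r + (c0 + c1 + c2)) - (r + (c0 + c1)) = c2 := by ring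
      rw [e1]; exact h2
    · change (r + 0) - (r + (c0 + c1 + c2)) ∈ Cs G X d a
      have e1 : (r + 0) - (r + (c0 + c1 + c2)) = c3 := by
        have : c3 = -(c0 + c1 + c2) := by
          rw [eq_neg_iff_add_eq_zero, add_comm]; exact heq
        rw [this]; ring
      rw [e1]; exact h3
  have hm4 : ∀ n : ℕ, n % 4 < 4 := fun n => Nat.mod_lt n (by norm_num)
  let f : ℕ → V := fun n => Y ⟨(n / 5) % 4, hm4 _⟩ ((n % 5 : ℕ) : ZMod 5)
  refine hasUPS_of_list 20 (by norm_num) (by rw [Nat.card_eq_fintype_card, hcard]) f ?_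
    (adjB (al 0) (al 1) (al 2) (al 3)) ?_ _ (cert (al 0) (al 1) (al 2) (al 3))
  · intro i hi j hj hij
    have h5 := hinj _ _ _ _ hij
    have h6 := hd.1 h5.1
    have h7 : (i / 5) % 4 = (j / 5) % 4 := congrArg Fin.val h6
    have h8 := h5.2
    rw [h6] at h8
    have h9 : ((i % 5 : ℕ) : ZMod 5) = ((j % 5 : ℕ) : ZMod 5) := add_right_cancel h8
    rw [ZMod.natCast_eq_natCast_iff'] at h9
    omega
  · intro i hi j hj hij
    unfold adjB at hij
    simp only [Bool.or_eq_true, Bool.and_eq_true, decide_eq_true_eq] at hij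
    have hi4 : i / 5 = 0 ∨ i / 5 = 1 ∨ i / 5 = 2 ∨ i / 5 = 3 := by omega
    -- the step inside a node
    have hst : ∀ (k : Fin 4) (s : ℕ), (s = if al k then 1 else 2) → ∀ u w : ℕ,
        w % 5 = (u % 5 + s) % 5 →
        G.Adj (Y k ((u % 5 : ℕ) : ZMod 5)) (Y k ((w % 5 : ℕ) : ZMod 5)) := by
      intro k s hs u w huw
      have h5 := hstep k ((u % 5 : ℕ) : ZMod 5)
      have h6 : ((w % 5 : ℕ) : ZMod 5) = ((u % 5 : ℕ) : ZMod 5) + if al k then 1 else 2 := by
        rw [huw, ZMod.natCast_mod]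
        push_cast
        rw [hs]
        split_ifs <;> simp
      rw [h6]
      exact h5
    rcases hij with ⟨h5, h6⟩ | ⟨h5, h6⟩
    · have hj4 : (⟨(j / 5) % 4, hm4 _⟩ : Fin 4) = ⟨(i / 5) % 4, hm4 _⟩ := by
        simp [h5]
      have hs : ∀ k : Fin 4, i / 5 = k.val →
          (if i / 5 = 0 then (if al 0 = true then 1 else 2) else if i / 5 = 1 then
            (if al 1 = true then 1 else 2) else if i / 5 = 2 then (if al 2 = true then 1 else 2)
            else (if al 3 = true then 1 else 2)) = if al k = true then 1 else 2 := by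
        intro k hk
        fin_cases k <;> simp [hk]
      have hk : i / 5 = (⟨(i / 5) % 4, hm4 _⟩ : Fin 4).val := by
        simp only
        omega
      have hs' := hs _ hk
      rw [hs'] at h6
      change G.Adj (Y ⟨(i / 5) % 4, hm4 _⟩ _) (Y ⟨(j / 5) % 4, hm4 _⟩ _)
      rw [hj4]
      rcases h6 with h6 | h6
      · exact hst _ _ rfl _ _ h6
      · exact (hst _ _ rfl _ _ h6).symm
    · have hcr : ∀ u w : ℕ, u < 20 → w < 20 → u % 5 = w % 5 → w / 5 = (u / 5 + 1) % 4 →
          G.Adj (f u) (f w) := by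
        intro u w hu hw h7 h8
        have h9 := hcross ⟨(u / 5) % 4, hm4 _⟩ ((u % 5 : ℕ) : ZMod 5)
        have h10 : (⟨(w / 5) % 4, hm4 _⟩ : Fin 4) = ⟨(u / 5) % 4, hm4 _⟩ + 1 := by
          apply Fin.ext
          rw [Fin.val_add]
          simp only [Fin.val_one]
          omega
        change G.Adj (Y ⟨(u / 5) % 4, hm4 _⟩ _) (Y ⟨(w / 5) % 4, hm4 _⟩ _)
        rw [h10, ← h7]
        exact h9
      rcases h6 with h6 | h6
      · exact hcr i j hi hj h5 h6
      · exact (hcr j i hj hi h5.symm h6).symm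

end Volt

/-- **20 vertices, degree 5.** -/
theorem hasUPS_5_20 [Fintype V] (hG : G.Connected) (hT : VT G) (hcard : Fintype.card V = 20)
    (hreg : ∀ v, (G.neighborSet v).ncard = 5) : HasUPS G := by
  classical
  have hreg' : ∀ v, (univ.filter fun w => G.Adj v w).card = 5 := by
    intro v
    rw [← hreg v, Set.ncard_eq_toFinset_card']
    congr 1
    ext w
    simp
  obtain ⟨z, hz, hfix⟩ := exists_semiregular_sylow (k := 4) hT (by norm_num : Nat.Prime 5)
    (by rw [hcard]) (by norm_num)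
  obtain ⟨X, hX, hb⟩ := coords (k := 4) (by norm_num : Nat.Prime 5) (by rw [hcard]) z hz hfix
  have hvol := vol hG hT hreg' hX hb
  obtain ⟨a, b, c, d, hd, m0, m1, m2, m3, hor⟩ := hvol.cycle
  obtain ⟨c1, h1⟩ := Finset.card_pos.1 m1
  obtain ⟨c2, h2⟩ := Finset.card_pos.1 m2
  obtain ⟨c3, h3⟩ := Finset.card_pos.1 m3
  rcases hor with h | h
  · obtain ⟨x, hx, y, hy, hxy⟩ := Finset.one_lt_card.1 h
    by_cases hx0 : x + c1 + c2 + c3 = 0
    · refine lift hX hz hfix hcard hb hvol hd hy h1 h2 h3 ?_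
      intro hy0
      apply hxy
      have : x + c1 + c2 + c3 = y + c1 + c2 + c3 := by rw [hx0, hy0]
      exact add_right_cancel (add_right_cancel (add_right_cancel this))
    · exact lift hX hz hfix hcard hb hvol hd hx h1 h2 h3 hx0
  · obtain ⟨c0, h0⟩ := Finset.card_pos.1 m0
    by_cases hx0 : c0 + c1 + c2 + c3 = 0
    · exact lift0 hX hcard hb hvol hd h0 h1 h2 h3 hx0 h
    · exact lift hX hz hfix hcard hb hvol hd h0 h1 h2 h3 hx0

end Pool.Agent.UPS.W20
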