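import Mathlib

/-!
# Z_5 voltage graphs on four nodes, degree 5: combinatorial part (MP_876e19_co, window (5,20))

`C i j` is the set of voltages of the edges from node `i` to node `j`.  If the number of triangles
is the same at every node and the graph is connected then every node has at least two neighbour
nodes (`Vol.no_leaf`).
-/

set_option autoImplicit false
set_option linter.unusedSectionVars false

namespace Pool.Agent.UPS.W20

open Finset

/-- the number of pairs `(a, b)` with `a ∈ A`, `b ∈ B`, `b - a ∈ D` -/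
def ff (A B D : Finset (ZMod 5)) : ℕ := ((A ×ˢ B).filter fun q => q.2 - q.1 ∈ D).card

/-- the number of ordered pairs of adjacent neighbours of a vertex over the node `i` -/
def tri (C : Fin 4 → Fin 4 → Finset (ZMod 5)) (i : Fin 4) : ℕ :=
  ∑ j, ∑ l, ff (C i j) (C i l) (C j l)

structure Vol (C : Fin 4 → Fin 4 → Finset (ZMod 5)) : Prop where
  symm : ∀ i j c, c ∈ C i j → -c ∈ C j i
  irr : ∀ i, (0 : ZMod 5) ∉ C i i
  reg : ∀ i, ∑ j, (C i j).card = 5
  tri : ∀ i j, tri C i = tri C j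
  conn : ∀ S : Fin 4 → Bool, (∃ i, S i = true) → (∃ i, S i = false) →
    ∃ i j, S i = true ∧ S j = false ∧ C i j ≠ ∅

variable {C : Fin 4 → Fin 4 → Finset (ZMod 5)}

lemma Vol.perm (h : Vol C) (σ : Equiv.Perm (Fin 4)) : Vol (fun i j => C (σ i) (σ j)) := by
  refine ⟨fun i j c hc => h.symm _ _ c hc, fun i => h.irr _, fun i => ?_, fun i j => ?_, ?_⟩
  · rw [Equiv.sum_comp σ (fun j => (C (σ i) j).card)]
    exact h.reg _
  · have key : ∀ i, W20.tri (fun i j => C (σ i) (σ j)) i = W20.tri C (σ i) := by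
      intro i
      unfold W20.tri
      rw [← Equiv.sum_comp σ (fun j => ∑ l, ff (C (σ i) j) (C (σ i) l) (C j l))]
      apply Finset.sum_congr rfl
      intro j _
      rw [← Equiv.sum_comp σ (fun l => ff (C (σ i) (σ j)) (C (σ i) l) (C (σ j) l))]
    rw [key, key]
    exact h.tri _ _
  · intro S h1 h2
    obtain ⟨a, ha⟩ := h1
    obtain ⟨b, hb⟩ := h2
    obtain ⟨i, j, hi, hj, hij⟩ := h.conn (fun i => S (σ.symm i)) ⟨σ a, by simpa using ha⟩
      ⟨σ b, by simpa using hb⟩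
    exact ⟨σ.symm i, σ.symm j, hi, hj, by simpa using hij⟩

lemma Vol.card_symm (h : Vol C) (i j : Fin 4) : (C i j).card = (C j i).card := by
  apply Finset.card_bij (fun c _ => -c)
  · intro c hc; exact h.symm i j c hc
  · intro a _ b _ hab; exact neg_injective hab
  · intro c hc
    exact ⟨-c, h.symm j i c hc, neg_neg c⟩

lemma inner_cases : ∀ A : Finset (ZMod 5), (∀ c ∈ A, -c ∈ A) → 0 ∉ A →
    A = ∅ ∨ A = {1, 4} ∨ A = {2, 3} ∨ A = {1, 2, 3, 4} := by decide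

lemma Vol.inner (h : Vol C) (i : Fin 4) :
    C i i = ∅ ∨ C i i = {1, 4} ∨ C i i = {2, 3} ∨ C i i = {1, 2, 3, 4} :=
  inner_cases _ (fun c hc => h.symm i i c hc) (h.irr i)

lemma ff_empty_left (B D : Finset (ZMod 5)) : ff ∅ B D = 0 := by simp [ff]
lemma ff_empty_right (A D : Finset (ZMod 5)) : ff A ∅ D = 0 := by simp [ff]
lemma ff_empty_diff (A B : Finset (ZMod 5)) : ff A B ∅ = 0 := by simp [ff]

/-- symmetry of the count -/
lemma ff_symm (A B D D' : Finset (ZMod 5)) (h : ∀ c, c ∈ D ↔ -c ∈ D') : ff A B D = ff B A D' := by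
  unfold ff
  apply Finset.card_bij (fun q _ => (q.2, q.1))
  · rintro ⟨a, b⟩ hq
    simp only [mem_filter, mem_product] at hq ⊢
    refine ⟨⟨hq.1.2, hq.1.1⟩, ?_⟩
    rw [h, neg_sub] at hq
    exact hq.2
  · rintro ⟨a, b⟩ _ ⟨c, d⟩ _ h
    simp only [Prod.mk.injEq] at h ⊢
    exact ⟨h.2, h.1⟩
  · rintro ⟨b, a⟩ hq
    simp only [mem_filter, mem_product] at hq
    refine ⟨(a, b), ?_, rfl⟩
    simp only [mem_filter, mem_product]
    refine ⟨⟨hq.1.2, hq.1.1⟩, ?_⟩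
    rw [h, neg_sub]
    exact hq.2

lemma Vol.mem_symm (h : Vol C) (i j : Fin 4) (c : ZMod 5) : c ∈ C i j ↔ -c ∈ C j i :=
  ⟨h.symm i j c, fun hc => by simpa using h.symm j i _ hc⟩

lemma Vol.empty_symm (h : Vol C) {i j : Fin 4} (hij : C i j = ∅) : C j i = ∅ := by
  rw [← Finset.card_eq_zero, h.card_symm, hij, Finset.card_empty]

/-- rotation of the triangle -/
lemma ff_rot (A B D A' : Finset (ZMod 5)) (h : ∀ c, c ∈ A ↔ -c ∈ A') :
    ff A B D = ff A' D B := by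
  unfold ff
  apply Finset.card_bij (fun q _ => (-q.1, q.2 - q.1))
  · rintro ⟨a, b⟩ hq
    simp only [mem_filter, mem_product] at hq ⊢
    refine ⟨⟨(h a).1 hq.1.1, hq.2⟩, ?_⟩
    rw [sub_neg_eq_add, sub_add_cancel]
    exact hq.1.2
  · rintro ⟨a, b⟩ _ ⟨c, d⟩ _ h
    simp only [Prod.mk.injEq, neg_inj] at h ⊢
    obtain ⟨h1, h2⟩ := h
    subst h1
    exact ⟨rfl, sub_left_injective h2⟩
  · rintro ⟨a, d⟩ hq
    simp only [mem_filter, mem_product] at hq
    refine ⟨(-a, d - a), ?_, ?_⟩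
    · simp only [mem_filter, mem_product]
      refine ⟨⟨?_, hq.2⟩, ?_⟩
      · rw [h, neg_neg]; exact hq.1.1
      · rw [sub_neg_eq_add, sub_add_cancel]; exact hq.1.2
    · simp

lemma ff_le1 (A B D : Finset (ZMod 5)) : ff A B D ≤ A.card * B.card := by
  unfold ff
  refine (card_filter_le _ _).trans ?_
  rw [card_product]

lemma ff_le2 (A B D : Finset (ZMod 5)) : ff A B D ≤ A.card * D.card := by
  unfold ff
  rw [← card_product]
  apply Finset.card_le_card_of_injOn (fun q => (q.1, q.2 - q.1))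
  · rintro ⟨a, b⟩ hq
    simp only [coe_filter, Set.mem_ofPred_eq, mem_product] at hq
    simp only [coe_product, Set.mem_prod, mem_coe]
    exact ⟨hq.1.1, hq.2⟩
  · rintro ⟨a, b⟩ _ ⟨c, d⟩ _ h
    simp only [Prod.mk.injEq] at h ⊢
    obtain ⟨h1, h2⟩ := h
    subst h1
    exact ⟨rfl, sub_left_injective h2⟩

lemma ff_diag (A D : Finset (ZMod 5)) (h0 : (0 : ZMod 5) ∉ D) :
    ff A A D ≤ A.card * A.card - A.card := by
  rw [← offDiag_card]
  unfold ff
  apply card_le_card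
  rintro ⟨a, b⟩ hq
  simp only [mem_filter, mem_product] at hq
  rw [mem_offDiag]
  refine ⟨hq.1.1, hq.1.2, ?_⟩
  intro hab
  apply h0
  have : b - a = 0 := by rw [sub_eq_zero]; exact hab.symm
  rw [← this]
  exact hq.2

/-- triangles over three nodes -/
def uu (C : Fin 4 → Fin 4 → Finset (ZMod 5)) (i j l : Fin 4) : ℕ := ff (C i j) (C i l) (C j l)

lemma Vol.u_swap (h : Vol C) (i j l : Fin 4) : uu C i j l = uu C i l j :=
  ff_symm _ _ _ _ (h.mem_symm j l)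

lemma Vol.u_rot (h : Vol C) (i j l : Fin 4) : uu C i j l = uu C j i l :=
  ff_rot _ _ _ _ (h.mem_symm i j)

lemma Vol.u_le1 (_h : Vol C) (i j l : Fin 4) : uu C i j l ≤ (C i j).card * (C i l).card :=
  ff_le1 _ _ _

lemma Vol.u_le2 (_h : Vol C) (i j l : Fin 4) : uu C i j l ≤ (C i j).card * (C j l).card :=
  ff_le2 _ _ _

lemma Vol.u_diag (h : Vol C) (i j : Fin 4) :
    uu C i j j ≤ (C i j).card * (C i j).card - (C i j).card :=
  ff_diag _ _ (h.irr j)

lemma Vol.u_self (h : Vol C) (i : Fin 4) :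
    ((C i i).card = 0 ∧ uu C i i i = 0) ∨ ((C i i).card = 2 ∧ uu C i i i = 0) ∨
      ((C i i).card = 4 ∧ uu C i i i = 12) := by
  unfold uu
  rcases h.inner i with h1 | h1 | h1 | h1 <;> rw [h1] <;> decide

lemma three_one : ∀ S : Finset (ZMod 5), S.card = 3 → 2 ≤ ff {1, 4} S S ∧ ff {1, 4} S S ≤ 4 := by
  decide

lemma three_two : ∀ S : Finset (ZMod 5), S.card = 3 → 2 ≤ ff {2, 3} S S ∧ ff {2, 3} S S ≤ 4 := by
  decide

lemma Vol.u_three (h : Vol C) (i j : Fin 4) (h1 : (C i i).card = 2) (h2 : (C i j).card = 3) :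
    2 ≤ uu C i i j ∧ uu C i i j ≤ 4 := by
  unfold uu
  rcases h.inner i with h3 | h3 | h3 | h3
  · rw [h3] at h1; exact absurd h1 (by decide)
  · rw [h3]; exact three_one _ h2
  · rw [h3]; exact three_two _ h2
  · rw [h3] at h1; exact absurd h1 (by decide)

lemma tri_eq (C : Fin 4 → Fin 4 → Finset (ZMod 5)) (i : Fin 4) :
    W20.tri C i = ∑ j, ∑ l, uu C i j l := rfl

set_option maxHeartbeats 4000000 in
/-- no node has only one neighbour node -/
theorem Vol.no_leaf (h : Vol C) (h2 : C 0 2 = ∅) (h3 : C 0 3 = ∅) : False := by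
  have e2 : (C 0 2).card = 0 := by rw [h2]; rfl
  have e3 : (C 0 3).card = 0 := by rw [h3]; rfl
  have r0 := h.reg 0
  have r1 := h.reg 1
  have r2 := h.reg 2
  have r3 := h.reg 3
  rw [Fin.sum_univ_four] at r0 r1 r2 r3
  rw [h.card_symm 1 0] at r1
  rw [h.card_symm 2 0, h.card_symm 2 1] at r2
  rw [h.card_symm 3 0, h.card_symm 3 1, h.card_symm 3 2] at r3
  -- the two nodes do not form a component
  have hcl : (C 1 2).card + (C 1 3).card ≠ 0 := by
    intro h0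
    obtain ⟨i, j, hi, hj, hij⟩ := h.conn (fun i => decide (i = 0 ∨ i = 1)) ⟨0, by decide⟩
      ⟨2, by decide⟩
    simp only [decide_eq_true_eq, decide_eq_false_iff_not, not_or] at hi hj
    apply hij
    rw [← Finset.card_eq_zero]
    have hj' : j = 2 ∨ j = 3 := by omega
    rcases hi with rfl | rfl <;> rcases hj' with rfl | rfl <;> omega
  -- expand the triangle counts
  have t0 := tri_eq C 0
  have t1 := tri_eq C 1
  have t2 := tri_eq C 2
  have t3 := tri_eq C 3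
  simp only [Fin.sum_univ_four] at t0 t1 t2 t3
  have c01 := h.tri 0 1
  have c02 := h.tri 0 2
  have c03 := h.tri 0 3
  have k010 : uu C 0 1 0 = uu C 0 0 1 := h.u_swap 0 1 0
  have k020 : uu C 0 2 0 = uu C 0 0 2 := h.u_swap 0 2 0
  have k021 : uu C 0 2 1 = uu C 0 1 2 := h.u_swap 0 2 1
  have k030 : uu C 0 3 0 = uu C 0 0 3 := h.u_swap 0 3 0
  have k031 : uu C 0 3 1 = uu C 0 1 3 := h.u_swap 0 3 1
  have k032 : uu C 0 3 2 = uu C 0 2 3 := h.u_swap 0 3 2
  have k100 : uu C 1 0 0 = uu C 0 0 1 := (h.u_rot 1 0 0).trans (h.u_swap 0 1 0)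
  have k101 : uu C 1 0 1 = uu C 0 1 1 := h.u_rot 1 0 1
  have k102 : uu C 1 0 2 = uu C 0 1 2 := h.u_rot 1 0 2
  have k103 : uu C 1 0 3 = uu C 0 1 3 := h.u_rot 1 0 3
  have k110 : uu C 1 1 0 = uu C 0 1 1 := (h.u_swap 1 1 0).trans (h.u_rot 1 0 1)
  have k120 : uu C 1 2 0 = uu C 0 1 2 := (h.u_swap 1 2 0).trans (h.u_rot 1 0 2)
  have k121 : uu C 1 2 1 = uu C 1 1 2 := h.u_swap 1 2 1
  have k130 : uu C 1 3 0 = uu C 0 1 3 := (h.u_swap 1 3 0).trans (h.u_rot 1 0 3)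
  have k131 : uu C 1 3 1 = uu C 1 1 3 := h.u_swap 1 3 1
  have k132 : uu C 1 3 2 = uu C 1 2 3 := h.u_swap 1 3 2
  have k200 : uu C 2 0 0 = uu C 0 0 2 := (h.u_rot 2 0 0).trans (h.u_swap 0 2 0)
  have k201 : uu C 2 0 1 = uu C 0 1 2 := (h.u_rot 2 0 1).trans (h.u_swap 0 2 1)
  have k202 : uu C 2 0 2 = uu C 0 2 2 := h.u_rot 2 0 2
  have k203 : uu C 2 0 3 = uu C 0 2 3 := h.u_rot 2 0 3
  have k210 : uu C 2 1 0 = uu C 0 1 2 := ((h.u_rot 2 1 0).trans (h.u_swap 1 2 0)).trans (h.u_rot 1 0 2)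
  have k211 : uu C 2 1 1 = uu C 1 1 2 := (h.u_rot 2 1 1).trans (h.u_swap 1 2 1)
  have k212 : uu C 2 1 2 = uu C 1 2 2 := h.u_rot 2 1 2
  have k213 : uu C 2 1 3 = uu C 1 2 3 := h.u_rot 2 1 3
  have k220 : uu C 2 2 0 = uu C 0 2 2 := (h.u_swap 2 2 0).trans (h.u_rot 2 0 2)
  have k221 : uu C 2 2 1 = uu C 1 2 2 := (h.u_swap 2 2 1).trans (h.u_rot 2 1 2)
  have k230 : uu C 2 3 0 = uu C 0 2 3 := (h.u_swap 2 3 0).trans (h.u_rot 2 0 3)
  have k231 : uu C 2 3 1 = uu C 1 2 3 := (h.u_swap 2 3 1).trans (h.u_rot 2 1 3)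
  have k232 : uu C 2 3 2 = uu C 2 2 3 := h.u_swap 2 3 2
  have k300 : uu C 3 0 0 = uu C 0 0 3 := (h.u_rot 3 0 0).trans (h.u_swap 0 3 0)
  have k301 : uu C 3 0 1 = uu C 0 1 3 := (h.u_rot 3 0 1).trans (h.u_swap 0 3 1)
  have k302 : uu C 3 0 2 = uu C 0 2 3 := (h.u_rot 3 0 2).trans (h.u_swap 0 3 2)
  have k303 : uu C 3 0 3 = uu C 0 3 3 := h.u_rot 3 0 3
  have k310 : uu C 3 1 0 = uu C 0 1 3 := ((h.u_rot 3 1 0).trans (h.u_swap 1 3 0)).trans (h.u_rot 1 0 3)
  have k311 : uu C 3 1 1 = uu C 1 1 3 := (h.u_rot 3 1 1).trans (h.u_swap 1 3 1)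
  have k312 : uu C 3 1 2 = uu C 1 2 3 := (h.u_rot 3 1 2).trans (h.u_swap 1 3 2)
  have k313 : uu C 3 1 3 = uu C 1 3 3 := h.u_rot 3 1 3
  have k320 : uu C 3 2 0 = uu C 0 2 3 := ((h.u_rot 3 2 0).trans (h.u_swap 2 3 0)).trans (h.u_rot 2 0 3)
  have k321 : uu C 3 2 1 = uu C 1 2 3 := ((h.u_rot 3 2 1).trans (h.u_swap 2 3 1)).trans (h.u_rot 2 1 3)
  have k322 : uu C 3 2 2 = uu C 2 2 3 := (h.u_rot 3 2 2).trans (h.u_swap 2 3 2)
  have k323 : uu C 3 2 3 = uu C 2 3 3 := h.u_rot 3 2 3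
  have k330 : uu C 3 3 0 = uu C 0 3 3 := (h.u_swap 3 3 0).trans (h.u_rot 3 0 3)
  have k331 : uu C 3 3 1 = uu C 1 3 3 := (h.u_swap 3 3 1).trans (h.u_rot 3 1 3)
  have k332 : uu C 3 3 2 = uu C 2 3 3 := (h.u_swap 3 3 2).trans (h.u_rot 3 2 3)
  rw [t0, t1] at c01
  rw [t0, t2] at c02
  rw [t0, t3] at c03
  simp only [k010, k020, k021, k030, k031, k032, k100, k101, k102, k103, k110, k120, k121, k130, k131, k132, k200, k201, k202, k203, k210, k211, k212, k213, k220, k221, k230, k231, k232, k300, k301, k302, k303, k310, k311, k312, k313, k320, k321, k322, k323, k330, k331, k332] at c01 c02 c03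
  clear t0 t1 t2 t3
  have y001 := h.u_diag 1 0
  rw [h.card_symm 1 0, k100] at y001
  have b1 := h.u_diag 2 1
  have b2 := h.u_diag 3 1
  rw [h.card_symm 2 1, k211] at b1
  rw [h.card_symm 3 1, k311] at b2
  clear k010 k020 k021 k030 k031 k032 k100 k101 k102 k103 k110 k120 k121 k130 k131 k132 k200 k201 k202 k203 k210 k211 k212 k213 k220 k221 k230 k231 k232 k300 k301 k302 k303 k310 k311 k312 k313 k320 k321 k322 k323 k330 k331 k332
  have z1 : ∀ j l, (C 0 j).card = 0 → uu C 0 j l = 0 := by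
    intro j l hj
    have := h.u_le1 0 j l
    rw [hj, zero_mul] at this
    omega
  have z2 : ∀ j l, (C 0 l).card = 0 → uu C 0 j l = 0 := by
    intro j l hj
    have := h.u_le1 0 j l
    rw [hj, mul_zero] at this
    omega
  clear z1
  have z002 := z2 0 2 e2
  have z003 := z2 0 3 e3
  have z012 := z2 1 2 e2
  have z013 := z2 1 3 e3
  have z022 := z2 2 2 e2
  have z023 := z2 2 3 e3
  have z033 := z2 3 3 e3
  clear z2
  simp only [z002, z003, z012, z013, z022, z023, z033, add_zero, zero_add] at c01 c02 c03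
  clear z002 z003 z012 z013 z022 z023 z033
  have s0 := h.u_self 0
  have s1 := h.u_self 1
  have s2 := h.u_self 2
  have s3 := h.u_self 3
  rcases s0 with ⟨a0, u0⟩ | ⟨a0, u0⟩ | ⟨a0, u0⟩
  · omega
  · have hs3 : (C 0 1).card = 3 := by omega
    have hb : (C 1 1).card = 0 := by omega
    have hτ := h.u_three 0 1 a0 hs3
    have y011 := h.u_le2 0 1 1
    have y112 := h.u_le1 1 1 2
    have y113 := h.u_le1 1 1 3
    rw [hb, mul_zero] at y011
    rw [hb, zero_mul] at y112 y113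
    have hpq : ((C 1 2).card = 0 ∧ (C 1 3).card = 2) ∨ ((C 1 2).card = 1 ∧ (C 1 3).card = 1) ∨
      ((C 1 2).card = 2 ∧ (C 1 3).card = 0) := by omega
    have a1 := h.u_diag 1 2
    have a2 := h.u_diag 1 3
    have a3 := h.u_le1 1 2 3
    have a4 := h.u_le2 1 2 3
    have a5 := h.u_le2 1 2 2
    have a6 := h.u_le2 1 3 3
    rcases hpq with ⟨hp, hq⟩ | ⟨hp, hq⟩ | ⟨hp, hq⟩
    · rw [hp] at a1 a3 a4 a5
      rw [hq] at a2 a3 a6
      omega
    · rw [hp] at a1 a3 a4 a5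
      rw [hq] at a2 a3 a6
      omega
    · rw [hp] at a1 a3 a4 a5
      rw [hq] at a2 a3 a6
      omega
  · have hs1 : (C 0 1).card = 1 := by omega
    have y011 := h.u_diag 0 1
    rw [hs1] at y001 y011
    have a1 := h.u_diag 1 2
    have a2 := h.u_diag 1 3
    have a3 := h.u_le1 1 2 3
    have a4 := h.u_le2 1 2 3
    have a5 := h.u_le2 1 2 2
    have a6 := h.u_le2 1 3 3
    have y112 := h.u_le1 1 1 2
    have y113 := h.u_le1 1 1 3
    rcases s1 with ⟨b0, v0⟩ | ⟨b0, v0⟩ | ⟨b0, v0⟩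
    · have hpq : ((C 1 2).card = 0 ∧ (C 1 3).card = 4) ∨ ((C 1 2).card = 1 ∧ (C 1 3).card = 3) ∨
        ((C 1 2).card = 2 ∧ (C 1 3).card = 2) ∨ ((C 1 2).card = 3 ∧ (C 1 3).card = 1) ∨
        ((C 1 2).card = 4 ∧ (C 1 3).card = 0) := by omega
      rw [b0, zero_mul] at y112 y113
      rcases hpq with ⟨hp, hq⟩ | ⟨hp, hq⟩ | ⟨hp, hq⟩ | ⟨hp, hq⟩ | ⟨hp, hq⟩ <;>
      · rw [hp] at a1 a3 a4 a5 b1
        rw [hq] at a2 a3 a6 b2
        omega
    · have hpq : ((C 1 2).card = 0 ∧ (C 1 3).card = 2) ∨ ((C 1 2).card = 1 ∧ (C 1 3).card = 1) ∨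
        ((C 1 2).card = 2 ∧ (C 1 3).card = 0) := by omega
      rcases hpq with ⟨hp, hq⟩ | ⟨hp, hq⟩ | ⟨hp, hq⟩ <;>
      · rw [hp] at a1 a3 a4 a5 b1
        rw [hq] at a2 a3 a6 b2
        omega
    · omega

end Pool.Agent.UPS.W20
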