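import Pool.Agent.Lib.MP_876e19_co_ups.Win20a

/-!
# Z_5 voltage graphs on four nodes, degree 5: a closed walk through the four nodes
-/

set_option autoImplicit false
set_option linter.unusedSectionVars false

namespace Pool.Agent.UPS.W20

open Finset

variable {C : Fin 4 → Fin 4 → Finset (ZMod 5)}

lemma Vol.two (h : Vol C) (a b c d : Fin 4) (hd : Function.Bijective ![a, b, c, d]) :
    1 ≤ (C a c).card + (C a d).card := by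
  by_contra hcon
  have h1 : (C a c).card = 0 := by omega
  have h2 : (C a d).card = 0 := by omega
  exact (h.perm (Equiv.ofBijective _ hd)).no_leaf (Finset.card_eq_zero.1 h1)
    (Finset.card_eq_zero.1 h2)

lemma pattern {m00 m11 m22 m33 m01 m02 m03 m12 m13 m23 : ℕ}
    (r0 : m00 + m01 + m02 + m03 = 5) (r1 : m01 + m11 + m12 + m13 = 5)
    (r2 : m02 + m12 + m22 + m23 = 5) (r3 : m03 + m13 + m23 + m33 = 5)
    (p0 : m00 % 2 = 0) (p1 : m11 % 2 = 0) (p2 : m22 % 2 = 0) (p3 : m33 % 2 = 0)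
    (w023 : 1 ≤ m02 + m03)
    (w013 : 1 ≤ m01 + m03)
    (w012 : 1 ≤ m01 + m02)
    (w123 : 1 ≤ m12 + m13)
    (w103 : 1 ≤ m01 + m13)
    (w102 : 1 ≤ m01 + m12)
    (w213 : 1 ≤ m12 + m23)
    (w203 : 1 ≤ m02 + m23)
    (w201 : 1 ≤ m02 + m12)
    (w312 : 1 ≤ m13 + m23)
    (w302 : 1 ≤ m03 + m23)
    (w301 : 1 ≤ m03 + m13) :
      (2 ≤ m01 ∧ 1 ≤ m12 ∧ 1 ≤ m23 ∧ 1 ≤ m03) ∨
      (2 ≤ m12 ∧ 1 ≤ m23 ∧ 1 ≤ m03 ∧ 1 ≤ m01) ∨
      (2 ≤ m23 ∧ 1 ≤ m03 ∧ 1 ≤ m01 ∧ 1 ≤ m12) ∨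
      (2 ≤ m03 ∧ 1 ≤ m01 ∧ 1 ≤ m12 ∧ 1 ≤ m23) ∨
      (2 ≤ m01 ∧ 1 ≤ m13 ∧ 1 ≤ m23 ∧ 1 ≤ m02) ∨
      (2 ≤ m13 ∧ 1 ≤ m23 ∧ 1 ≤ m02 ∧ 1 ≤ m01) ∨
      (2 ≤ m23 ∧ 1 ≤ m02 ∧ 1 ≤ m01 ∧ 1 ≤ m13) ∨
      (2 ≤ m02 ∧ 1 ≤ m01 ∧ 1 ≤ m13 ∧ 1 ≤ m23) ∨
      (2 ≤ m02 ∧ 1 ≤ m12 ∧ 1 ≤ m13 ∧ 1 ≤ m03) ∨
      (2 ≤ m12 ∧ 1 ≤ m13 ∧ 1 ≤ m03 ∧ 1 ≤ m02) ∨
      (2 ≤ m13 ∧ 1 ≤ m03 ∧ 1 ≤ m02 ∧ 1 ≤ m12) ∨
      (2 ≤ m03 ∧ 1 ≤ m02 ∧ 1 ≤ m12 ∧ 1 ≤ m13) ∨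
      (1 ≤ m01 ∧ 1 ≤ m12 ∧ 1 ≤ m23 ∧ 1 ≤ m03 ∧ m00 = 2 ∧ m11 = 2 ∧ m22 = 2 ∧ m33 = 2) := by
  by_cases z01 : m01 = 0
  · have a1 : 1 ≤ m02 := by omega
    have a2 : 1 ≤ m03 := by omega
    have a3 : 1 ≤ m12 := by omega
    have a4 : 1 ≤ m13 := by omega
    have a5 : 2 ≤ m02 ∨ 2 ≤ m03 := by omega
    rcases a5 with a5 | a5
    · exact Or.inr (Or.inr (Or.inr (Or.inr (Or.inr (Or.inr (Or.inr (Or.inr (Or.inl ⟨a5, a3, a4, a2⟩))))))))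
    · exact Or.inr (Or.inr (Or.inr (Or.inr (Or.inr (Or.inr (Or.inr (Or.inr (Or.inr (Or.inr (Or.inr (Or.inl ⟨a5, a1, a3, a4⟩)))))))))))
  by_cases z23 : m23 = 0
  · have a1 : 1 ≤ m02 := by omega
    have a2 : 1 ≤ m03 := by omega
    have a3 : 1 ≤ m12 := by omega
    have a4 : 1 ≤ m13 := by omega
    have a5 : 2 ≤ m02 ∨ 2 ≤ m12 := by omega
    rcases a5 with a5 | a5
    · exact Or.inr (Or.inr (Or.inr (Or.inr (Or.inr (Or.inr (Or.inr (Or.inr (Or.inl ⟨a5, a3, a4, a2⟩))))))))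
    · exact Or.inr (Or.inr (Or.inr (Or.inr (Or.inr (Or.inr (Or.inr (Or.inr (Or.inr (Or.inl ⟨a5, a4, a2, a1⟩)))))))))
  have z01' : 1 ≤ m01 := by omega
  have z23' : 1 ≤ m23 := by omega
  by_cases z12 : m12 = 0
  · have a1 : 1 ≤ m02 := by omega
    have a2 : 1 ≤ m13 := by omega
    have a5 : 2 ≤ m01 ∨ 2 ≤ m13 := by omega
    rcases a5 with a5 | a5
    · exact Or.inr (Or.inr (Or.inr (Or.inr (Or.inl ⟨a5, a2, z23', a1⟩))))
    · exact Or.inr (Or.inr (Or.inr (Or.inr (Or.inr (Or.inl ⟨a5, z23', a1, z01'⟩)))))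
  by_cases z03 : m03 = 0
  · have a1 : 1 ≤ m02 := by omega
    have a2 : 1 ≤ m13 := by omega
    have a5 : 2 ≤ m01 ∨ 2 ≤ m02 := by omega
    rcases a5 with a5 | a5
    · exact Or.inr (Or.inr (Or.inr (Or.inr (Or.inl ⟨a5, a2, z23', a1⟩))))
    · exact Or.inr (Or.inr (Or.inr (Or.inr (Or.inr (Or.inr (Or.inr (Or.inl ⟨a5, z01', a2, z23'⟩)))))))
  have z12' : 1 ≤ m12 := by omega
  have z03' : 1 ≤ m03 := by omega
  by_cases y01 : 2 ≤ m01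
  · exact Or.inl ⟨y01, z12', z23', z03'⟩
  by_cases y12 : 2 ≤ m12
  · exact Or.inr (Or.inl ⟨y12, z23', z03', z01'⟩)
  by_cases y23 : 2 ≤ m23
  · exact Or.inr (Or.inr (Or.inl ⟨y23, z03', z01', z12'⟩))
  by_cases y03 : 2 ≤ m03
  · exact Or.inr (Or.inr (Or.inr (Or.inl ⟨y03, z01', z12', z23'⟩)))
  have a1 : 1 ≤ m02 := by omega
  have a2 : 1 ≤ m13 := by omega
  by_cases y13 : 2 ≤ m13
  · exact Or.inr (Or.inr (Or.inr (Or.inr (Or.inr (Or.inl ⟨y13, z23', a1, z01'⟩)))))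
  by_cases y02 : 2 ≤ m02
  · exact Or.inr (Or.inr (Or.inr (Or.inr (Or.inr (Or.inr (Or.inr (Or.inl ⟨y02, z01', a2, z23'⟩)))))))
  exact Or.inr (Or.inr (Or.inr (Or.inr (Or.inr (Or.inr (Or.inr (Or.inr (Or.inr (Or.inr (Or.inr (Or.inr (⟨z01', z12', z23', z03', by omega, by omega, by omega, by omega⟩))))))))))))

lemma Vol.even (h : Vol C) (i : Fin 4) : (C i i).card % 2 = 0 := by
  rcases h.u_self i with ⟨h1, _⟩ | ⟨h1, _⟩ | ⟨h1, _⟩ <;> rw [h1]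

theorem Vol.cycle (h : Vol C) : ∃ a b c d : Fin 4, Function.Bijective ![a, b, c, d] ∧
    1 ≤ (C a b).card ∧ 1 ≤ (C b c).card ∧ 1 ≤ (C c d).card ∧ 1 ≤ (C d a).card ∧
    (2 ≤ (C a b).card ∨ ∀ i, (C i i).card = 2) := by
  have r0 := h.reg 0
  have r1 := h.reg 1
  have r2 := h.reg 2
  have r3 := h.reg 3
  rw [Fin.sum_univ_four] at r0 r1 r2 r3
  rw [h.card_symm 1 0] at r1
  rw [h.card_symm 2 0, h.card_symm 2 1] at r2
  rw [h.card_symm 3 0, h.card_symm 3 1, h.card_symm 3 2] at r3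
  have w023 := h.two 0 1 2 3 (by decide)
  have w013 := h.two 0 2 1 3 (by decide)
  have w012 := h.two 0 3 1 2 (by decide)
  have w123 := h.two 1 0 2 3 (by decide)
  have w103 := h.two 1 2 0 3 (by decide)
  rw [h.card_symm 1 0] at w103
  have w102 := h.two 1 3 0 2 (by decide)
  rw [h.card_symm 1 0] at w102
  have w213 := h.two 2 0 1 3 (by decide)
  rw [h.card_symm 2 1] at w213
  have w203 := h.two 2 1 0 3 (by decide)
  rw [h.card_symm 2 0] at w203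
  have w201 := h.two 2 3 0 1 (by decide)
  rw [h.card_symm 2 0, h.card_symm 2 1] at w201
  have w312 := h.two 3 0 1 2 (by decide)
  rw [h.card_symm 3 1, h.card_symm 3 2] at w312
  have w302 := h.two 3 1 0 2 (by decide)
  rw [h.card_symm 3 0, h.card_symm 3 2] at w302
  have w301 := h.two 3 2 0 1 (by decide)
  rw [h.card_symm 3 0, h.card_symm 3 1] at w301
  rcases pattern r0 r1 r2 r3 (h.even 0) (h.even 1) (h.even 2) (h.even 3) w023 w013 w012 w123 w103 w102 w213 w203 w201 w312 w302 w301 with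
    ⟨x1, x2, x3, x4⟩ | ⟨x1, x2, x3, x4⟩ | ⟨x1, x2, x3, x4⟩ | ⟨x1, x2, x3, x4⟩ | ⟨x1, x2, x3, x4⟩ | ⟨x1, x2, x3, x4⟩ | ⟨x1, x2, x3, x4⟩ | ⟨x1, x2, x3, x4⟩ | ⟨x1, x2, x3, x4⟩ | ⟨x1, x2, x3, x4⟩ | ⟨x1, x2, x3, x4⟩ | ⟨x1, x2, x3, x4⟩ | ⟨x1, x2, x3, x4, x5, x6, x7, x8⟩
  · exact ⟨0, 1, 2, 3, by decide, by omega, by exact x2, by exact x3, by rw [h.card_symm 3 0]; exact x4, Or.inl (by exact x1)⟩
  · exact ⟨1, 2, 3, 0, by decide, by omega, by exact x2, by rw [h.card_symm 3 0]; exact x3, by exact x4, Or.inl (by exact x1)⟩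
  · exact ⟨2, 3, 0, 1, by decide, by omega, by rw [h.card_symm 3 0]; exact x2, by exact x3, by exact x4, Or.inl (by exact x1)⟩
  · exact ⟨3, 0, 1, 2, by decide, by rw [h.card_symm 3 0]; omega, by exact x2, by exact x3, by exact x4, Or.inl (by rw [h.card_symm 3 0]; exact x1)⟩
  · exact ⟨0, 1, 3, 2, by decide, by omega, by exact x2, by rw [h.card_symm 3 2]; exact x3, by rw [h.card_symm 2 0]; exact x4, Or.inl (by exact x1)⟩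
  · exact ⟨1, 3, 2, 0, by decide, by omega, by rw [h.card_symm 3 2]; exact x2, by rw [h.card_symm 2 0]; exact x3, by exact x4, Or.inl (by exact x1)⟩
  · exact ⟨3, 2, 0, 1, by decide, by rw [h.card_symm 3 2]; omega, by rw [h.card_symm 2 0]; exact x2, by exact x3, by exact x4, Or.inl (by rw [h.card_symm 3 2]; exact x1)⟩
  · exact ⟨2, 0, 1, 3, by decide, by rw [h.card_symm 2 0]; omega, by exact x2, by exact x3, by rw [h.card_symm 3 2]; exact x4, Or.inl (by rw [h.card_symm 2 0]; exact x1)⟩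
  · exact ⟨0, 2, 1, 3, by decide, by omega, by rw [h.card_symm 2 1]; exact x2, by exact x3, by rw [h.card_symm 3 0]; exact x4, Or.inl (by exact x1)⟩
  · exact ⟨2, 1, 3, 0, by decide, by rw [h.card_symm 2 1]; omega, by exact x2, by rw [h.card_symm 3 0]; exact x3, by exact x4, Or.inl (by rw [h.card_symm 2 1]; exact x1)⟩
  · exact ⟨1, 3, 0, 2, by decide, by omega, by rw [h.card_symm 3 0]; exact x2, by exact x3, by rw [h.card_symm 2 1]; exact x4, Or.inl (by exact x1)⟩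
  · exact ⟨3, 0, 2, 1, by decide, by rw [h.card_symm 3 0]; omega, by exact x2, by rw [h.card_symm 2 1]; exact x3, by exact x4, Or.inl (by rw [h.card_symm 3 0]; exact x1)⟩
  · refine ⟨0, 1, 2, 3, by decide, x1, x2, x3, by rw [h.card_symm 3 0]; exact x4, Or.inr ?_⟩
    intro i
    fin_cases i
    · exact x5
    · exact x6
    · exact x7
    · exact x8

end Pool.Agent.UPS.W20
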